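import Pool.Agent.TPY.StW

/-!
# TPY: B1H, notion 1 of big pieces (helper86)
-/

set_option autoImplicit false

namespace Pool.Agent.TPY

open FirstOrder.Language Set
open scoped FirstOrder
open Pool.Agent.WOM (tp Mon IsEl IsoM CtU Fx Orb Isd)
open Pool.Agent.PMC (Sm Md NPf)
open Pool.Agent.MNO (Dp FE Sq Exa Nx SmN FE1 FinN sq_refl sq_symm sq_trans sq_sub dp_sub)

private theorem B1H_s1 {V : Type} (c : Fin 1 → V) : c = s1 (c 0) := by
  funext k
  rw [Subsingleton.elim k 0]
  rfl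

/-- representatives of all classes of all finite equivalence relations over `A` -/
private theorem B1H_rep {L : FirstOrder.Language.{0, 0}} {V : Type} [L.Structure V] (hC : Cz L V) {A : Set V}
    (hA : A.Countable) : ∃ K : Set V, K.Countable ∧ ∀ E : (Fin 1 → V) → (Fin 1 → V) → Prop, FE L A E →
      ∀ x : V, ∃ k : K, E (s1 x) (s1 (k : V)) := by
  classical
  have h1 : {E : (Fin 1 → V) → (Fin 1 → V) → Prop | FE L A E}.Countable := by
    have h2 := dp_cnt hC (α := Fin 1 ⊕ Fin 1) hA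
    refine Set.MapsTo.countable_of_injOn (t := {P : (Fin 1 ⊕ Fin 1 → V) → Prop | Dp L A P})
      (f := fun E => fun v : Fin 1 ⊕ Fin 1 → V => E (fun i => v (Sum.inl i)) (fun i => v (Sum.inr i)))
      (fun E hE => hE.dfn) ?_ h2
    intro E _ E' _ h
    funext x y
    exact congrFun h (Sum.elim x y)
  have h2 : ∀ E : (Fin 1 → V) → (Fin 1 → V) → Prop, ∃ s : Set (Fin 1 → V), s.Finite ∧
      (FE L A E → ∀ x, ∃ y ∈ s, E x y) := by
    intro E
    by_cases hE : FE L A E
    · obtain ⟨s, hs, hs'⟩ := hE.fin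
      exact ⟨s, hs, fun _ => hs'⟩
    · exact ⟨∅, finite_empty, fun h => absurd h hE⟩
  choose s hs hs' using h2
  refine ⟨⋃ E ∈ {E : (Fin 1 → V) → (Fin 1 → V) → Prop | FE L A E}, (fun y => y 0) '' s E,
    h1.biUnion fun E _ => ((hs E).image _).countable, fun E hE x => ?_⟩
  obtain ⟨y, hy, hxy⟩ := hs' E hE (s1 x)
  refine ⟨⟨y 0, mem_biUnion hE ⟨y, hy, rfl⟩⟩, ?_⟩
  show E (s1 x) (s1 (y 0))
  rw [← B1H_s1 y]
  exact hxy

theorem thm_B1H (hREV : St_REV) (hCPV : St_CPV) : St_B1H := by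
  intro L U V _ _ i hC hi hM hN A₀ hA₀
  refine ⟨?_, ?_, ?_, ?_, ?_, ?_⟩
  · -- invariance
    intro n a a' z z' ha h hbig hnot
    apply hbig
    obtain ⟨S', hS', hSv⟩ := hnot
    obtain ⟨K, hK, hK'⟩ := B1H_rep hC hA₀.countable
    have : Countable K := hK
    obtain ⟨κ', hκ⟩ := tq_ext' hC hA₀.countable h (fun k : K => (k : V))
    have e1 : A₀ ∪ range a = range a := union_eq_self_of_subset_left ha
    have ha' : A₀ ⊆ range a' := by
      intro x hx
      obtain ⟨k, hk⟩ := ha hx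
      have h2 := tq_par h (Sum.inl k) (by
        rw [Sum.elim_inl, hk]
        exact hx)
      rw [Sum.elim_inl, Sum.elim_inl, hk] at h2
      exact ⟨k, h2⟩
    have e2 : A₀ ∪ range a' = range a' := union_eq_self_of_subset_left ha'
    have hex : ∀ v : V, ∃ v' : V, Tq L A₀ (Sum.elim (Sum.elim (Sum.elim a (s1 z)) (fun k : K => (k : V))) (s1 v))
        (Sum.elim (Sum.elim (Sum.elim a' (s1 z')) κ') (s1 v')) := by
      intro v
      obtain ⟨c', hc'⟩ := tq_ext' hC hA₀.countable hκ (s1 v)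
      rw [B1H_s1 c'] at hc'
      exact ⟨_, hc'⟩
    choose f hf using hex
    have hin : ∀ v ∈ Pc L (range a) z, f v ∈ Pc L (range a') z' := by
      intro v hv
      have ht : Tq L A₀ (Sum.elim ![z, v] a) (Sum.elim ![z', f v] a') := by
        have h1 := tq_sub (hf v) (Sum.elim
          ![Sum.inl (Sum.inl (Sum.inr 0)), Sum.inr 0] (fun k => Sum.inl (Sum.inl (Sum.inl k))) :
            Fin 2 ⊕ Fin n → ((Fin n ⊕ Fin 1) ⊕ K) ⊕ Fin 1)
        refine tq_congr h1 ?_ ?_
        · funext k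
          rcases k with k | k
          · fin_cases k <;> rfl
          · rfl
        · funext k
          rcases k with k | k
          · fin_cases k <;> rfl
          · rfl
      have h4 := pc_tq hC hA₀.countable (x := z) (y := v) (x' := z') (y' := f v) (c := a) (c' := a')
        ht (by
          rw [e1]
          exact hv)
      rw [e2] at h4
      exact h4
    have hsq : ∀ v w : V, Sq L A₀ (s1 (f v)) (s1 (f w)) → Sq L A₀ (s1 v) (s1 w) := by
      intro v w hvw E hE
      obtain ⟨k, hk⟩ := hK' E hE v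
      have hd : ∀ u : V, E (s1 u) (s1 (k : V)) ↔ E (s1 (f u)) (s1 (κ' k)) := by
        intro u
        have hD : Dp L A₀ (fun x : ((Fin n ⊕ Fin 1) ⊕ K) ⊕ Fin 1 → V =>
            E (fun _ => x (Sum.inr 0)) (fun _ => x (Sum.inl (Sum.inr k)))) :=
          dp_sub hE.dfn (Sum.elim (fun _ => Sum.inr 0) (fun _ => Sum.inl (Sum.inr k)) :
            Fin 1 ⊕ Fin 1 → ((Fin n ⊕ Fin 1) ⊕ K) ⊕ Fin 1)
        exact tq_iff (hf u) hD
      have h1 := (hd v).1 hk
      have h2 : E (s1 (f w)) (s1 (κ' k)) := hE.eqv.trans (hE.eqv.symm (hvw E hE)) h1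
      exact hE.eqv.trans hk (hE.eqv.symm ((hd w).2 h2))
    have hg : ∀ s : V, ∃ w : V, (∃ v ∈ Pc L (range a) z, Sq L A₀ (s1 (f v)) (s1 s)) →
        Sq L A₀ (s1 (f w)) (s1 s) := by
      intro s
      by_cases hs : ∃ v ∈ Pc L (range a) z, Sq L A₀ (s1 (f v)) (s1 s)
      · obtain ⟨v, -, hv⟩ := hs
        exact ⟨v, fun _ => hv⟩
      · exact ⟨s, fun h => absurd h hs⟩
    choose g hg using hg
    refine ⟨g '' S', hS'.image g, fun v hv => ?_⟩
    obtain ⟨s, hs, hvs⟩ := hSv (f v) (hin v hv)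
    exact ⟨g s, ⟨s, hs, rfl⟩, hsq _ _ (sq_trans hvs (sq_symm (hg s ⟨v, hv, hvs⟩)))⟩
  · -- the same piece
    intro A z z' hA hA₀A hz' hbig
    unfold Big1 at hbig ⊢
    rw [pc_eq hC hA.countable hz']
    exact hbig
  · -- ended pieces
    intro A z hA hA₀A ho
    exact hREV L U V i hC hi hM hN A₀ A z hA hA₀A ho
  · -- isolated tuples
    intro A z n u hA hA₀A hu _ hbig
    by_contra hcon
    push Not at hcon
    have hB : (A ∪ range u).Finite := hA.union (finite_range u)
    obtain ⟨N, hN1, hN2⟩ := hCPV L U V i hC hi hM hN (A ∪ range u) hB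
    have hS : ∀ t, ∃ S : Set V, S.Countable ∧ (t ∈ Pc L A z →
        ∀ v ∈ Pc L (A ∪ range u) t, ∃ s ∈ S, Sq L A₀ (s1 v) (s1 s)) := by
      intro t
      by_cases ht : t ∈ Pc L A z
      · have h1 := hcon t ht
        unfold Big1 at h1
        rw [not_not] at h1
        obtain ⟨S, hS, hSv⟩ := h1
        exact ⟨S, hS, fun _ => hSv⟩
      · exact ⟨∅, countable_empty, fun h => absurd h ht⟩
    choose S hS hSv using hS
    apply hbig
    refine ⟨⋃ t ∈ N, S t, hN1.biUnion fun t _ => hS t, fun v hv => ?_⟩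
    obtain ⟨t, ht, htv⟩ := hN2 v
    have h1 : t ∈ Pc L A z := by
      rw [← pc_eq hC hA.countable hv]
      exact pc_mono hC hB subset_union_left v htv
    obtain ⟨s, hs, hvs⟩ := hSv t h1 v (pc_symm hC hB.countable htv)
    exact ⟨s, mem_biUnion ht hs, hvs⟩
  · -- monotone
    intro A A' z z' hA' hA₀A hAA' hz' hbig hnot
    apply hbig
    obtain ⟨S, hS, hSv⟩ := hnot
    refine ⟨S, hS, fun v hv => hSv v ?_⟩
    have h1 := pc_mono hC hA' hAA' z' hv
    rw [pc_eq hC (hA'.subset hAA').countable hz'] at h1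
    exact h1
  · -- parameters outside
    intro A W z hA hA₀A hW hd hbig
    by_cases hz : z ∈ A
    · exfalso
      apply hbig
      refine ⟨{z}, countable_singleton z, fun v hv => ⟨z, rfl, ?_⟩⟩
      rw [pc_par hz, mem_singleton_iff] at hv
      rw [hv]
      exact sq_refl _ _
    · unfold Big1 at hbig ⊢
      rw [nnl' hC hA (hA.union hW) subset_union_left hz fun b hb hbA => ?_]
      · exact hbig
      · rcases hb with hb | hb
        · exact absurd hb hbA
        · exact disjoint_left.1 hd hb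

end Pool.Agent.TPY
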