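import Pool.Agent.TPY.StW

/-!
# TPY: full T6, module B1V (helper60): ended pieces which are big
-/

set_option autoImplicit false
set_option linter.unusedVariables false

namespace Pool.Agent.TPY

open FirstOrder.Language Set
open scoped FirstOrder
open Pool.Agent.WOM (tp Mon IsEl IsoM CtU Fx Orb Isd)
open Pool.Agent.PMC (Sm Md NPf)
open Pool.Agent.MNO (Dp FE Sq Exa Nx SmN FE1 FinN)
open Pool.Agent.TPC (Pq Bq Lin Fre Nice Cpt Big Ist Clu Rgd Sub)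

private theorem b1v_lin {L : FirstOrder.Language.{0, 0}} {U V : Type} [L.Structure U] [L.Structure V]
    (hLRG : Pool.Agent.TPC.St_LRG) (hC : Cz L V) (hM : Mon L U) (hN : NPf L U) (hF : FinN L U)
    {j : U → V} (hj : Emb L j) {B1 : Set U} (hB1 : B1.Finite) {z1 : U} {H E : Set V} {lt : V → V → Prop}
    {y : V} (hL : LinV L H E lt) (hy : y ∈ E)
    (hcl : ∀ v ∈ Pc L (j '' B1) (j z1), v ∈ E ∧ ¬ lt y v ∧ ¬ lt v y) : Rgd L B1 z1 := by
  obtain ⟨m, b, hb⟩ := Pool.Agent.MNO.exists_enum (hL.fin.insert y)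
  obtain ⟨j2, hj2, hj2a, hj2b⟩ := emb_ext hC hj hM (hB1.insert z1) b
  have hr : insert y H ⊆ range j2 := by
    rw [← hb]
    rintro _ ⟨k, rfl⟩
    exact hj2b k
  obtain ⟨y', hy'⟩ := hr (mem_insert _ _)
  have hHr : H ⊆ range j2 := fun c hc => hr (mem_insert_of_mem _ hc)
  have hH0 : j2 '' (j2 ⁻¹' H) = H := image_preimage_eq_of_subset hHr
  have hjB : j2 '' B1 = j '' B1 := im_congr fun a ha => hj2a a (mem_insert_of_mem _ ha)
  have hjz : j2 z1 = j z1 := hj2a z1 (mem_insert _ _)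
  have hL' : LinV L (j2 '' (j2 ⁻¹' H)) E lt := by
    rw [hH0]
    exact hL
  have hyE : y' ∈ j2 ⁻¹' E := by
    show j2 y' ∈ E
    rw [hy']
    exact hy
  refine hLRG L U hM hN hF (j2 ⁻¹' H) (j2 ⁻¹' E) _ y' (lin_of hC hj2 hM hL') hyE B1 z1 hB1 fun v hv => ?_
  rw [pq_pre hC hj2 hM hB1, hjB, hjz] at hv
  obtain ⟨h1, h2, h3⟩ := hcl (j2 v) hv
  refine ⟨h1, ?_, ?_⟩
  · show ¬ lt (j2 y') (j2 v)
    rw [hy']
    exact h2
  · show ¬ lt (j2 v) (j2 y')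
    rw [hy']
    exact h3

theorem thm_B1V (hLRG : Pool.Agent.TPC.St_LRG) (hBGC : Pool.Agent.TPC.St_BGC) : St_B1V := by
  intro L U V _ _ i hC hi hM hN hF A z hA hO hB
  obtain ⟨j, A', z0, hj, hA', hjA, hjz, B1, z1, hB1, hAB, hz1, hn⟩ := hB
  subst hjA
  subst hjz
  have hz1' : j z1 ∈ Pc L (j '' A') (j z0) := by
    rw [pq_eq hM hA'] at hz1
    exact (pc_emb hC hj hM hA' z0 z1).2 hz1
  rcases hO.cls (j '' B1) (hB1.image j) (image_mono hAB) (j z1) hz1' with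
    ⟨n, h⟩ | h | ⟨H, E, lt, y, hL, hy, hcl⟩ | ⟨E, cl, b, hFr, hE, ⟨b1, hb1, rfl⟩, hbE, hzE, hcl⟩
  · exact absurd (Pool.Agent.TPC.q_PAR L U hM hN hF n B1 z1 hB1 (nice_of hC hj hM n hB1 h)) hn
  · refine absurd ((Pool.Agent.TPC.q_CPT L U hM B1 _ hB1).2.1 z1 ?_) hn
    rw [pq_pre hC hj hM hB1, h]
    ext y
    exact ⟨fun h1 => hj.inj h1, fun h1 => congrArg j h1⟩
  · exact absurd ((hBGC L U hM hN B1 z1 hB1).2.2.2.2
      (b1v_lin hLRG hC hM hN hF hj hB1 hL hy hcl)) hn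
  · exact ⟨j, B1, z1, b1, E, cl, hj, hB1, image_mono hAB, hz1', hn, hFr, hE, hb1, hbE, hzE, hcl⟩

end Pool.Agent.TPY
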