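import Pool.Agent.TPY.StF

/-!
# TPY: common definitions for full T6 (helper34): indiscernible sequences (`Idc`), ended pieces (`Edd`), the axioms of `big`

Convention of ALL St files of full T6.  Sequences are indexed by `ℚ` (tuples of elements, `α` finite), the base `A` is any set
(countable in the statements).  `Idc` is stated with types (`Tq`); for strong types see `St_IDS` in `StI`.
-/

set_option autoImplicit false
set_option linter.unusedVariables false

namespace Pool.Agent.TPY

open FirstOrder.Language Set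
open scoped FirstOrder
open Pool.Agent.MNO (Dp FE Sq Exa)

section

variable (L : FirstOrder.Language.{0, 0}) {U : Type} [L.Structure U]

/-- the terms `u (i 0), .., u (i (n-1))` as one tuple -/
def tms {ι α : Type} {n : ℕ} (u : ι → α → U) (i : Fin n → ι) : Fin n × α → U := fun p => u (i p.1) p.2

/-- `u` is indiscernible over `A` -/
def Idc (A : Set U) {α : Type} (u : ℚ → α → U) : Prop :=
  ∀ (n : ℕ) (i j : Fin n → ℚ), StrictMono i → StrictMono j → Tq L A (tms u i) (tms u j)

/-- the entries of the terms with index in `S` -/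
def Tm {α : Type} (u : ℚ → α → U) (S : Set ℚ) : Set U := {x | ∃ q ∈ S, ∃ k, x = u q k}

/-- `u` and `v` are mutually indiscernible over `A` -/
def Mut (A : Set U) {α β : Type} (u : ℚ → α → U) (v : ℚ → β → U) : Prop :=
  Idc L (A ∪ Tm v univ) u ∧ Idc L (A ∪ Tm u univ) v

/-- the piece of `z` over `A` is ended: it contains the strong type over `A` of a non-realised type of elements which is invariant
over `A` (helper31's `EndV`) -/
def Edd (A : Set U) (z : U) : Prop :=
  ∃ r : ((Fin 1 → U) → Prop) → Prop, Gd L A r ∧ ∃ w ∈ Pc L A z, Ets L A (s1 w) r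

/-- the tuple `u` has an isolated type over `A` -/
def Isl (A : Set U) {γ : Type} (u : γ → U) : Prop :=
  ∃ P : (γ → U) → Prop, Dp L A P ∧ P u ∧ ∀ v, P v → Tq L A u v

/-- the axioms of a notion `big A z` (`the piece of z over A is big`), `A` finite, `A₀ ⊆ A` -/
structure Bg (A₀ : Set U) (big : Set U → U → Prop) : Prop where
  fin : A₀.Finite
  /-- (I) invariance under equality of types -/
  inv : ∀ (γ : Type) [Finite γ] (a a' : γ → U) (z z' : U),
    Tq L A₀ (Sum.elim a (s1 z)) (Sum.elim a' (s1 z')) → big (A₀ ∪ range a) z → big (A₀ ∪ range a') z'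
  /-- (P) a property of the piece -/
  pc : ∀ (A : Set U) (z z' : U), A₀ ⊆ A → A.Finite → z' ∈ Pc L A z → big A z → big A z'
  /-- (B0) -/
  b0 : ∀ (A : Set U) (z : U), A₀ ⊆ A → A.Finite → big A z → z ∉ A
  /-- (B1) ended pieces are not big -/
  b1 : ∀ (A : Set U) (z : U), A₀ ⊆ A → A.Finite → Edd L A z → ¬ big A z
  /-- (B4) -/
  b4 : ∀ (A B : Set U) (z : U), A₀ ⊆ A → A ⊆ B → B.Finite → big B z → big A z
  /-- (B5) -/
  b5 : ∀ (A B : Set U) (z : U), A₀ ⊆ A → A ⊆ B → B.Finite → (∀ w ∈ B, w ∉ Pc L A z) → big A z → big B z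

/-- (B3) isolated tuples of a big piece are good -/
def B3 (A₀ : Set U) (big : Set U → U → Prop) : Prop :=
  ∀ (A : Set U) (z : U) (γ : Type) [Finite γ] (u : γ → U), A₀ ⊆ A → A.Finite → big A z → (∀ i, u i ∈ Pc L A z) →
    Isl L A u → ∃ z' ∈ Pc L A z, big (A ∪ range u) z'

end

end Pool.Agent.TPY
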