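import Pool.Agent.TPY.StW
import Pool.Agent.TPY.IDF

/-!
# TPY: full T6, the axioms `BigH` of the assembly give the axioms `Bg`, `B3` of the (Z) chapter (helper47)
-/

set_option autoImplicit false
set_option linter.unusedVariables false

namespace Pool.Agent.TPY

open FirstOrder.Language Set
open scoped FirstOrder
open Pool.Agent.MNO

section

variable {L : FirstOrder.Language.{0, 0}} {V : Type} [L.Structure V] {A₀ : Set V} {big : Set V → V → Prop}

/-- parameters -/
theorem out_par {A : Set V} {z : V} (hz : z ∈ A) : OutE L A z := by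
  refine ⟨Or.inl ⟨{z}, finite_singleton z, fun y hy => ?_⟩, fun B hB hAB z' hz' => ?_⟩
  · rw [pc_par hz] at hy
    exact hy
  · rw [pc_par hz] at hz'
    have h1 : z' = z := hz'
    subst h1
    exact Or.inr (Or.inl (pc_par (hAB hz)))

theorem bg_of (hC : Cz L V) (hA₀ : A₀.Finite) (hE : ∀ (A : Set V) (z : V), A.Finite → Edd L A z → OutE L A z)
    (h : BigH L A₀ big) : Bg L A₀ big ∧ B3 L A₀ big := by
  refine ⟨⟨hA₀, ?_, fun A z z' hA hAf hz hb => h.pc A z z' hAf hA hz hb, ?_,
    fun A z hA hAf hz => h.b1 A z hAf hA (hE A z hAf hz), ?_, ?_⟩, ?_⟩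
  · intro γ _ a a' z z' hs hb
    obtain ⟨m, c, hc⟩ := exists_enum hA₀
    obtain ⟨n, ⟨e⟩⟩ := Finite.exists_equiv_fin γ
    let σ : Fin (m + n) → Fin m ⊕ Fin n := finSumFinEquiv.symm
    let D : (γ → V) → Fin (m + n) → V := fun a k => Sum.elim c (fun l => a (e.symm l)) (σ k)
    have hr : ∀ a : γ → V, range (D a) = A₀ ∪ range a := by
      intro a
      rw [← hc]
      ext x
      constructor
      · rintro ⟨k, rfl⟩
        show Sum.elim c (fun l => a (e.symm l)) (σ k) ∈ _
        rcases σ k with l | l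
        · exact Or.inl ⟨l, rfl⟩
        · exact Or.inr ⟨_, rfl⟩
      · rintro (⟨l, rfl⟩ | ⟨k, rfl⟩)
        · refine ⟨finSumFinEquiv (Sum.inl l), ?_⟩
          show Sum.elim c (fun l => a (e.symm l)) (finSumFinEquiv.symm (finSumFinEquiv (Sum.inl l))) = c l
          rw [Equiv.symm_apply_apply]
          rfl
        · refine ⟨finSumFinEquiv (Sum.inr (e k)), ?_⟩
          show Sum.elim c (fun l => a (e.symm l)) (finSumFinEquiv.symm (finSumFinEquiv (Sum.inr (e k)))) = a k
          rw [Equiv.symm_apply_apply]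
          exact congrArg a (e.symm_apply_apply k)
    have hs' : Tq L A₀ (Sum.elim a (s1 z)) (Sum.elim a' (s1 z')) := by
      first
        | exact hs
        | exact tq_of_sq hs
    have h1 : Tq L A₀ (Sum.elim (Sum.elim a (s1 z)) c) (Sum.elim (Sum.elim a' (s1 z')) c) := by
      refine tq_add hs' c fun k => ?_
      rw [← hc]
      exact ⟨k, rfl⟩
    let f : Fin (m + n) ⊕ Fin 1 → (γ ⊕ Fin 1) ⊕ Fin m :=
      Sum.elim (fun k => Sum.elim (fun l => Sum.inr l) (fun l => Sum.inl (Sum.inl (e.symm l))) (σ k))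
        (fun l => Sum.inl (Sum.inr l))
    have hf : ∀ (a : γ → V) (z : V), (fun k => Sum.elim (Sum.elim a (s1 z)) c (f k)) =
        Sum.elim (D a) (s1 z) := by
      intro a z
      funext k
      rcases k with k | k
      · show Sum.elim (Sum.elim a (s1 z)) c (Sum.elim (fun l => Sum.inr l)
          (fun l => Sum.inl (Sum.inl (e.symm l))) (σ k)) = Sum.elim c (fun l => a (e.symm l)) (σ k)
        rcases σ k with l | l <;> rfl
      · rfl
    let d : Fin (m + n) → V := D a
    let d' : Fin (m + n) → V := D a'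
    have h2 := h.inv (m + n) d d' z z' (by
      show A₀ ⊆ range (D a)
      rw [hr]
      exact subset_union_left) (by
      have h3 := tq_sub h1 f
      rw [hf, hf] at h3
      exact h3)
    have h4 : range d = A₀ ∪ range a := hr a
    have h5 : range d' = A₀ ∪ range a' := hr a'
    rw [h4, h5] at h2
    exact h2 hb
  · intro A z hA hAf hb hz
    exact h.b1 A z hAf hA (out_par hz) hb
  · intro A B z hA hAB hBf hb
    exact h.b4 A B z z hBf hA hAB (fun Q _ hz => hz) hb
  · intro A B z hA hAB hBf hw hb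
    have h1 := h.b5 A B z (hBf.subset hAB) hA hBf (disjoint_left.2 hw) hb
    rwa [union_eq_self_of_subset_left hAB] at h1
  · intro A z γ _ u hA hAf hb hu hi
    obtain ⟨n, ⟨e⟩⟩ := Finite.exists_equiv_fin γ
    have h1 : IsoV L A (fun k => u (e.symm k)) := by
      obtain ⟨P, hP, hPu, hPt⟩ := hi
      refine ⟨fun w => P (fun k => w (e k)), dp_sub hP e, ?_, fun w hw => ?_⟩
      · show P (fun k => u (e.symm (e k)))
        simp only [Equiv.symm_apply_apply]
        exact hPu
      · have h2 := hPt _ hw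
        intro Q hQ hQu
        have h3 := h2 (fun v => Q (fun k => v (e.symm k))) (dp_sub hQ e.symm) hQu
        simp only [Equiv.apply_symm_apply] at h3
        exact h3
    obtain ⟨z', hz', hb'⟩ := h.b3 A z n (fun k => u (e.symm k)) hAf hA (fun k => hu _) h1 hb
    refine ⟨z', hz', ?_⟩
    have h2 : range (fun k => u (e.symm k)) = range u := by
      ext x
      constructor
      · rintro ⟨k, rfl⟩
        exact ⟨_, rfl⟩
      · rintro ⟨k, rfl⟩
        exact ⟨e k, by simp only [Equiv.symm_apply_apply]⟩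
    rw [h2] at hb'
    exact hb'

/-- the theorem of the (Z) chapter gives `NBV` -/
theorem nbv_of (hC : Cz L V) (hE : ∀ (A : Set V) (z : V), A.Finite → Edd L A z → OutE L A z)
    (hNB : ∀ (A₀ : Set V) (big : Set V → V → Prop), Bg L A₀ big → B3 L A₀ big →
      ∀ (A : Set V) (z : V), A₀ ⊆ A → A.Finite → ¬ big A z) : NBV L V := by
  intro A₀ big hA₀ h A z hA hA₀A
  obtain ⟨h1, h2⟩ := bg_of hC hA₀ hE h
  exact hNB A₀ big h1 h2 A z hA₀A hA

end

end Pool.Agent.TPY
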