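import Pool.Agent.TPY.StW

/-!
# TPY, module CPV: countably many pieces over a finite set
-/

set_option autoImplicit false
set_option linter.unusedVariables false

namespace Pool.Agent.TPY

open FirstOrder.Language Set
open scoped FirstOrder
open Pool.Agent.WOM (tp Mon IsEl IsoM CtU Fx Orb Isd)
open Pool.Agent.PMC (Sm Md NPf)
open Pool.Agent.MNO (Dp FE Sq Exa Nx SmN FE1 FinN exists_enum dp_hom)
open Pool.Agent.TPC (Pq Bq Lin Fre Nice Cpt Big Ist Clu Rgd Sub)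

private theorem pq_self {L : FirstOrder.Language.{0, 0}} {U : Type} [L.Structure U] (A : Set U)
    (x : U) : x ∈ Pq L A x := fun Q hQ => Iff.rfl

theorem thm_CPV (hEMV : St_EMV) : St_CPV := by
  intro L U V _ _ i hC hi hM hNP B hB
  obtain ⟨e1, e2, e3, -⟩ := hEMV L U V i hC hi hM
  obtain ⟨N, hBN, hNc, hNS⟩ := e2 B hB.countable
  obtain ⟨j, hj, hjN, -⟩ := e1 univ N ⟨⟨fun s _ hs => by rwa [inter_univ], empty_subset _⟩,
    fun C _ _ x => ⟨x, mem_univ _, FirstOrder.Language.Equiv.refl L U, fun a _ => rfl, rfl⟩⟩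
    hNc hNS 0 (fun k => k.elim0) (fun k => k.elim0) (fun k => k.elim0) (fun k => k.elim0)
    (fun P _ h => by
      have e : (fun k : Fin 0 => i (k.elim0 : U)) = fun k : Fin 0 => (k.elim0 : V) := by
        funext k
        exact k.elim0
      rw [e] at h
      exact h)
  rw [image_univ] at hjN
  refine ⟨N, hNc, fun v => ?_⟩
  have hBr : B ⊆ range j := by
    rw [hjN]
    exact hBN
  have hB' : (j ⁻¹' B).Finite := hB.preimage hj.inj.injOn
  have hBB : j '' (j ⁻¹' B) = B := image_preimage_eq_of_subset hBr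
  obtain ⟨w, hw⟩ := rlz hj hM hB' (s1 v)
  have hF := (Pool.Agent.TPC.q_FCP L U hM hNP (j ⁻¹' B) hB') (w 0)
  -- representatives of the pieces
  have h1 : ∀ P : Set U, ∃ y : U, P ∈ {P : Set U | ∃ y ∈ Orb L (j ⁻¹' B) (w 0), P = Pq L (j ⁻¹' B) y} →
      P = Pq L (j ⁻¹' B) y := by
    intro P
    by_cases hP : P ∈ {P : Set U | ∃ y ∈ Orb L (j ⁻¹' B) (w 0), P = Pq L (j ⁻¹' B) y}
    · obtain ⟨y, -, hy⟩ := hP
      exact ⟨y, fun _ => hy⟩
    · exact ⟨w 0, fun h => absurd h hP⟩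
  choose r hr using h1
  have hWf := hF.image r
  obtain ⟨j2, hj2, hj2a, hj2b⟩ := emb_ext hC hj hM ((hB'.union hWf).insert (w 0)) (s1 v)
  obtain ⟨v', hv'⟩ := hj2b 0
  have hv2 : j2 v' = v := hv'
  have hjB : j2 '' (j ⁻¹' B) = j '' (j ⁻¹' B) :=
    im_congr fun a ha => hj2a a (mem_insert_of_mem _ (Or.inl ha))
  have hjw : j2 (w 0) = j (w 0) := hj2a _ (mem_insert _ _)
  -- the types over `B'`
  have h2 : Tq L (j ⁻¹' B) (s1 (w 0)) (s1 v') := by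
    refine tq_symm ((tq_emb hj2 hB' (s1 v') (s1 (w 0))).1 ?_)
    rw [hjB]
    refine tq_congr hw ?_ ?_
    · funext k
      exact hv2
    · funext k
      fin_cases k
      exact hjw
  obtain ⟨g, hg, hgw⟩ := dp_hom hM hB' h2
  have h3 : v' ∈ Orb L (j ⁻¹' B) (w 0) := ⟨g, hg, hgw 0⟩
  have hPm : Pq L (j ⁻¹' B) v' ∈
      {P : Set U | ∃ y ∈ Orb L (j ⁻¹' B) (w 0), P = Pq L (j ⁻¹' B) y} := ⟨v', h3, rfl⟩
  have h4 := hr _ hPm
  have h5 : r (Pq L (j ⁻¹' B) v') ∈ Pq L (j ⁻¹' B) v' :=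
    (congrArg (fun S : Set U => r (Pq L (j ⁻¹' B) v') ∈ S) h4).mpr
      (pq_self (L := L) (j ⁻¹' B) (r (Pq L (j ⁻¹' B) v')))
  have h6 : r (Pq L (j ⁻¹' B) v') ∈ Pc L (j ⁻¹' B) v' := by
    rw [← pq_eq hM hB']
    exact h5
  have h7 := (pc_emb hC hj2 hM hB' v' _).2 h6
  rw [hjB, hBB, hv2] at h7
  have h8 : j2 (r (Pq L (j ⁻¹' B) v')) = j (r (Pq L (j ⁻¹' B) v')) :=
    hj2a _ (mem_insert_of_mem _ (Or.inr ⟨_, hPm, rfl⟩))
  refine ⟨j2 (r (Pq L (j ⁻¹' B) v')), ?_, h7⟩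
  rw [h8, ← hjN]
  exact ⟨_, rfl⟩

end Pool.Agent.TPY
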