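import Pool.Agent.TPY.StW
import Pool.Agent.MNO.BAG

/-!
# TPY: full T6, embeddings of the countable saturated model `U` in `V` (helper47)
-/

set_option autoImplicit false
set_option linter.unusedVariables false
set_option linter.unusedSectionVars false

namespace Pool.Agent.TPY

open FirstOrder.Language Set
open scoped FirstOrder
open Pool.Agent.MNO
open Pool.Agent.WOM (tp Mon IsEl IsoM CtU Fx Orb Isd)
open Pool.Agent.PMC (Sm Md NPf)
open Pool.Agent.TPC (Pq Bq Lin Fre Nice Cpt Big Ist Clu Rgd Sub)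

section

variable {L : FirstOrder.Language.{0, 0}} {U V : Type} [L.Structure U] [L.Structure V] {i : U → V}

/-- a function with the same type as an elementary embedding is an elementary embedding -/
theorem emb_of_tq (hi : Emb L i) {v : U → V} (h1 : Tq L (∅ : Set V) i v) : Emb L v := by
  refine ⟨?_, ?_, ?_⟩
  · intro x y hxy
    exact hi.inj ((tq_eq h1 x y).2 hxy)
  · intro s hs hne
    have hs' : Dp L (range v) (fun w : Fin 1 → V => w 0 ∈ s) := hs
    obtain ⟨Q, hQ, hsQ⟩ := dp_fam0 hs'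
    have hsw : ∀ x, x ∈ s ↔ Q (Sum.elim (s1 x) v) := fun x => hsQ (s1 x)
    have h2 : Dp L (∅ : Set V) (fun t : U → V => ∃ x : Fin 1 → V, Q (Sum.elim x t)) := by
      have h3 := dp_ex (α := U) (β := Fin 1) (dp_sub hQ (Sum.swap : Fin 1 ⊕ U → U ⊕ Fin 1))
      refine dp_congr h3 fun t => exists_congr fun x => iff_of_eq ?_
      congr 1
      funext k
      rcases k with k | k <;> rfl
    obtain ⟨x, hx⟩ := hne
    obtain ⟨y, hy⟩ := (tq_iff h1 h2).2 ⟨s1 x, (hsw x).1 hx⟩
    have h4 : Dp L (range i) (fun w : Fin 1 → V => Q (Sum.elim w i)) :=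
      dp_par (dp_mono (empty_subset _) hQ) i (fun k => ⟨k, rfl⟩)
    obtain ⟨z, hz, ⟨u, rfl⟩⟩ := hi.el {z | Q (Sum.elim (s1 z) i)} (by
      refine dp_congr h4 fun w => iff_of_eq ?_
      show Q (Sum.elim (s1 (w 0)) i) = Q (Sum.elim w i)
      congr 2
      funext k
      fin_cases k
      rfl) ⟨y 0, by
        have e : s1 (y 0) = y := by
          funext k
          fin_cases k
          rfl
        show Q (Sum.elim (s1 (y 0)) i)
        rw [e]
        exact hy⟩
    refine ⟨v u, (hsw _).2 ?_, u, rfl⟩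
    have h5 : Dp L (∅ : Set V) (fun t : U → V => Q (Sum.elim (s1 (t u)) t)) := by
      refine dp_congr (dp_sub hQ (Sum.elim (fun _ => u) id : Fin 1 ⊕ U → U)) fun t => iff_of_eq ?_
      congr 1
      funext k
      rcases k with k | k <;> rfl
    exact (tq_iff h1 h5).1 hz
  · intro α _ φ t
    rw [hi.fm α φ t]
    exact tq_iff h1 (P := fun v => φ.Realize (fun j => v (t j))) (dp_sub (dp_fml φ) t)

/-- equality of types is of finite character -/
theorem tq_ffin {α : Type} {A : Set V} {x y : α → V}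
    (h : ∀ (n : ℕ) (f : Fin n → α), Tq L A (fun k => x (f k)) (fun k => y (f k))) : Tq L A x y := by
  intro P hP hx
  obtain ⟨s, hs, Q, hQ, hPQ⟩ := dp_ffin hP
  have : Finite s := hs
  obtain ⟨n, ⟨e⟩⟩ := Finite.exists_equiv_fin s
  have h1 := tq_sub (h n (fun k => (e.symm k : α))) (e : s → Fin n)
  have h2 : Tq L A (fun k : s => x k) (fun k : s => y k) := by
    refine tq_congr h1 ?_ ?_ <;>
    · funext k
      simp only [Equiv.symm_apply_apply]
  exact (hPQ y).2 (h2 Q hQ ((hPQ x).1 hx))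

/-- elementary embeddings have the same type -/
theorem tq_emb2 {j : U → V} (hi : Emb L i) (hj : Emb L j) : Tq L (∅ : Set V) i j := by
  refine tq_ffin fun n f P hP hx => ?_
  obtain ⟨φ, hφ⟩ := dp_form hP
  let ψ : L.Formula (Fin n) := φ.relabel (Sum.elim (fun a => absurd a.2 (notMem_empty _)) (fun i => i))
  have hψ : ∀ w : Fin n → V, P w ↔ ψ.Realize w := by
    intro w
    refine (hφ w).trans ?_
    show _ ↔ (φ.relabel _).Realize _
    rw [FirstOrder.Language.Formula.realize_relabel]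
    apply iff_of_eq
    congr 1
    funext k
    rcases k with k | k
    · exact absurd k.2 (notMem_empty _)
    · rfl
  rw [hψ] at hx ⊢
  exact (hj.fm (Fin n) ψ f).1 ((hi.fm (Fin n) ψ f).2 hx)

/-- back and forth -/
theorem emb_baf (hC : Cz L V) (hi : Emb L i) (hM : Mon L U) {M₀ : Set U} {N : Set V} (hM₀ : Sub L ∅ M₀)
    (hNc : N.Countable) (hN : SatS L N) {n : ℕ} (b : Fin n → U) (b' : Fin n → V) (hb : ∀ k, b k ∈ M₀)
    (hb' : ∀ k, b' k ∈ N) (h : Tq L (∅ : Set V) (fun k => i (b k)) b') :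
    ∃ j : U → V, Emb L j ∧ j '' M₀ = N ∧ ∀ k, j (b k) = b' k := by
  have hcU : Countable U := hM.ctb
  let c₀ : Fin n → U × V := fun k => (b k, b' k)
  let P : Set (U × V) → Prop := fun t => (∀ c ∈ t, c.1 ∈ M₀ ∧ c.2 ∈ N) ∧
    ∀ (m : ℕ) (c : Fin m → U × V), (∀ k, c k ∈ t ∪ range c₀) →
      Tq L (∅ : Set V) (fun k => i (c k).1) (fun k => (c k).2)
  have hc₀ : ∀ c ∈ range c₀, c.1 ∈ M₀ ∧ c.2 ∈ N := by
    rintro _ ⟨k, rfl⟩
    exact ⟨hb k, hb' k⟩
  -- enlarging
  have key : ∀ (s : Set (U × V)) (m : ℕ) (c : Fin m → U × V), range c = s ∪ range c₀ → P s →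
      ∀ x ∈ M₀, ∀ y ∈ N, Tq L (∅ : Set V) (Sum.elim (fun k => i (c k).1) (s1 (i x)))
        (Sum.elim (fun k => (c k).2) (s1 y)) → P (insert (x, y) s) := by
    intro s m c hc hP x hx y hy h1
    refine ⟨fun c hc => ?_, fun m' c' hc' => ?_⟩
    · rcases hc with rfl | hc
      · exact ⟨hx, hy⟩
      · exact hP.1 c hc
    · have h2 : ∀ k, ∃ l : Fin m ⊕ Fin 1, c' k = Sum.elim c (fun _ => (x, y)) l := by
        intro k
        rcases hc' k with (h3 | h3) | h3
        · exact ⟨Sum.inr 0, h3⟩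
        · have h4 : c' k ∈ range c := by
            rw [hc]
            exact Or.inl h3
          obtain ⟨l, hl⟩ := h4
          exact ⟨Sum.inl l, hl.symm⟩
        · have h4 : c' k ∈ range c := by
            rw [hc]
            exact Or.inr h3
          obtain ⟨l, hl⟩ := h4
          exact ⟨Sum.inl l, hl.symm⟩
      choose f hf using h2
      refine tq_congr (tq_sub h1 f) ?_ ?_
      · funext k
        rw [hf k]
        rcases f k with l | l <;> rfl
      · funext k
        rw [hf k]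
        rcases f k with l | l <;> rfl
  have hM₀c : M₀.Countable := Set.to_countable M₀
  have h0 : P ∅ := by
    refine ⟨fun c hc => absurd hc (notMem_empty _), fun m c hc => ?_⟩
    have h2 : ∀ k, ∃ l, c₀ l = c k := fun k => by
      rcases hc k with h3 | h3
      · exact absurd h3 (notMem_empty _)
      · exact h3
    choose f hf using h2
    refine tq_congr (tq_sub h f) ?_ ?_
    · funext k
      rw [← hf k]
    · funext k
      rw [← hf k]
  have hforth : ∀ s, s.Finite → P s → ∀ x ∈ M₀, ∃ y ∈ N, P (insert (x, y) s) := by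
    intro s hs hP x hx
    obtain ⟨m, c, hc⟩ := exists_enum (hs.union (finite_range c₀))
    have h1 := hP.2 m c (fun k => by
      rw [← hc]
      exact ⟨k, rfl⟩)
    obtain ⟨d, hd⟩ := tq_ext hC countable_empty h1 (s1 (i x))
    obtain ⟨y, hy, hdy⟩ := hN (range fun k => (c k).2) (finite_range _) (by
      rintro _ ⟨k, rfl⟩
      have h3 : c k ∈ s ∪ range c₀ := by
        rw [← hc]
        exact ⟨k, rfl⟩
      rcases h3 with h3 | h3
      · exact (hP.1 _ h3).2
      · exact (hc₀ _ h3).2) (d 0)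
    refine ⟨y, hy, key s m c hc hP x hx y hy (tq_trans hd ?_)⟩
    have h4 := tq_sub (tq_mono (empty_subset _) (tq_add hdy (fun k => (c k).2) (fun k => ⟨k, rfl⟩)))
      (Sum.swap : Fin m ⊕ Fin 1 → Fin 1 ⊕ Fin m)
    refine tq_congr h4 ?_ ?_
    · funext k
      rcases k with k | k
      · rfl
      · show d k = d 0
        rw [Subsingleton.elim k 0]
    · funext k
      rcases k with k | k <;> rfl
  have hback : ∀ s, s.Finite → P s → ∀ y ∈ N, ∃ x ∈ M₀, P (insert (x, y) s) := by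
    intro s hs hP y hy
    obtain ⟨m, c, hc⟩ := exists_enum (hs.union (finite_range c₀))
    have h1 := hP.2 m c (fun k => by
      rw [← hc]
      exact ⟨k, rfl⟩)
    obtain ⟨d, hd⟩ := tq_ext hC countable_empty (tq_symm h1) (s1 y)
    have hA : (range fun k => (c k).1).Finite := finite_range _
    obtain ⟨w, hw⟩ := rlz hi hM hA d
    obtain ⟨x, hx, g, hg, hgx⟩ := hM₀.2 (range fun k => (c k).1) hA (by
      rintro _ ⟨k, rfl⟩
      have h3 : c k ∈ s ∪ range c₀ := by
        rw [← hc]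
        exact ⟨k, rfl⟩
      rcases h3 with h3 | h3
      · exact (hP.1 _ h3).1
      · exact (hc₀ _ h3).1) (w 0)
    have h4 : Tq L (i '' range fun k => (c k).1) (s1 (i (w 0))) (s1 (i x)) := by
      have h5 := tq_fx1 hi hA hg (w 0)
      rw [hgx] at h5
      exact h5
    have h5 : Tq L (i '' range fun k => (c k).1) d (s1 (i x)) := by
      refine tq_trans hw (tq_congr h4 ?_ rfl)
      funext k
      rw [Subsingleton.elim k 0]
      rfl
    have h6 := tq_sub (tq_mono (empty_subset _) (tq_add h5 (fun k => i (c k).1)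
      (fun k => ⟨_, ⟨k, rfl⟩, rfl⟩))) (Sum.swap : Fin m ⊕ Fin 1 → Fin 1 ⊕ Fin m)
    refine ⟨x, hx, key s m c hc hP x hx y hy (tq_symm (tq_trans hd ?_))⟩
    refine tq_congr h6 ?_ ?_
    · funext k
      rcases k with k | k <;> rfl
    · funext k
      rcases k with k | k <;> rfl
  have hfun : ∀ s, s.Finite → P s → ∀ c ∈ s, ∀ c' ∈ s, (c.1 = c'.1 ↔ c.2 = c'.2) := by
    intro s hs hP c hc c' hc'
    have h1 := hP.2 2 ![c, c'] (by
      intro k
      fin_cases k
      · exact Or.inl hc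
      · exact Or.inl hc')
    have h2 := tq_eq h1 0 1
    exact ⟨fun h3 => h2.1 (congrArg i h3), fun h3 => hi.inj (h2.2 h3)⟩
  obtain ⟨e, he⟩ := thm_BAG U V M₀ N P hM₀c hNc h0 hforth hback hfun
  -- the map on `M₀`
  have h1 : Tq L (∅ : Set V) (fun x : M₀ => i x) (fun x : M₀ => (e x : V)) := by
    refine tq_ffin fun m f => ?_
    obtain ⟨t, -, hPt, -, ht⟩ := he (range f) (finite_range f)
    exact hPt.2 m (fun k => ((f k : U), (e (f k) : V))) (fun k => Or.inl (ht _ ⟨k, rfl⟩))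
  have h2 : ∀ k, (e ⟨b k, hb k⟩ : V) = b' k := by
    intro k
    obtain ⟨t, -, hPt, -, ht⟩ := he {⟨b k, hb k⟩} (finite_singleton _)
    have h3 := hPt.2 2 ![(b k, (e ⟨b k, hb k⟩ : V)), (b k, b' k)] (by
      intro l
      fin_cases l
      · exact Or.inl (ht _ rfl)
      · exact Or.inr ⟨k, rfl⟩)
    exact (tq_eq h3 0 1).1 rfl
  obtain ⟨j, hj⟩ := tq_ext' hC countable_empty h1 i
  have hj1 : Tq L (∅ : Set V) i j := tq_sub hj Sum.inr
  have hj2 : ∀ x : M₀, j x = (e x : V) := fun x => ((tq_eq hj (Sum.inr (x : U)) (Sum.inl x)).1 rfl)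
  refine ⟨j, emb_of_tq hi hj1, ?_, fun k => (hj2 ⟨b k, hb k⟩).trans (h2 k)⟩
  ext y
  constructor
  · rintro ⟨x, hx, rfl⟩
    rw [hj2 ⟨x, hx⟩]
    exact (e ⟨x, hx⟩).2
  · intro hy
    refine ⟨e.symm ⟨y, hy⟩, (e.symm ⟨y, hy⟩).2, ?_⟩
    rw [hj2]
    simp only [Equiv.apply_symm_apply]

/-- every countable set is contained in a countable saturated submodel -/
theorem sats_ex (hC : Cz L V) {S : Set V} (hS : S.Countable) :
    ∃ N : Set V, S ⊆ N ∧ N.Countable ∧ SatS L N := by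
  classical
  -- realisations of all types over a finite set
  have h1 : ∀ (n : ℕ) (c : Fin n → V), ∃ T : Set V, T.Countable ∧
      ∀ x : V, ∃ y ∈ T, Tq L (range c) (s1 x) (s1 y) := by
    intro n c
    obtain ⟨s, hs, hs'⟩ := hC.sml (n + 1)
    have h2 : ∀ y : Fin (n + 1) → V, ∃ x : V, (∃ x' : V, Tq L (∅ : Set V) (Fin.snoc c x' : Fin (n + 1) → V) y) →
        Tq L (∅ : Set V) (Fin.snoc c x : Fin (n + 1) → V) y := by
      intro y
      by_cases hy : ∃ x' : V, Tq L (∅ : Set V) (Fin.snoc c x' : Fin (n + 1) → V) y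
      · obtain ⟨x', hx'⟩ := hy
        exact ⟨x', fun _ => hx'⟩
      · exact ⟨y 0, fun h => absurd h hy⟩
    choose x hx using h2
    refine ⟨x '' s, hs.image x, fun z => ?_⟩
    obtain ⟨y, hy, hzy⟩ := hs' (Fin.snoc c z : Fin (n + 1) → V)
    refine ⟨x y, ⟨y, hy, rfl⟩, ?_⟩
    have h3 : Tq L (∅ : Set V) (Fin.snoc c z : Fin (n + 1) → V) (Fin.snoc c (x y) : Fin (n + 1) → V) :=
      tq_trans hzy (tq_symm (hx y ⟨z, hzy⟩))
    have h4 := tq_sub h3 (Sum.elim (fun _ => Fin.last n) (fun k => Fin.castSucc k) : Fin 1 ⊕ Fin n → Fin (n + 1))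
    have h5 : Tq L (∅ : Set V) (Sum.elim (s1 z) c) (Sum.elim (s1 (x y)) c) := by
      refine tq_congr h4 ?_ ?_
      · funext k
        rcases k with k | k
        · exact (Fin.snoc_last (α := fun _ => V) z c).symm
        · exact (Fin.snoc_castSucc (α := fun _ => V) z c k).symm
      · funext k
        rcases k with k | k
        · exact (Fin.snoc_last (α := fun _ => V) (x y) c).symm
        · exact (Fin.snoc_castSucc (α := fun _ => V) (x y) c k).symm
    have h6 := tq_fam.2 h5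
    rw [empty_union] at h6
    exact h6
  choose T hT hT' using h1
  let step : Set V → Set V := fun S => S ∪ ⋃ (n : ℕ), ⋃ (c : Fin n → V) (_ : ∀ k, c k ∈ S), T n c
  have hstep : ∀ S : Set V, S.Countable → (step S).Countable := by
    intro S hS
    refine hS.union (countable_iUnion fun n => ?_)
    have h2 : {c : Fin n → V | ∀ k, c k ∈ S}.Countable := by
      have := Set.countable_pi (π := fun _ : Fin n => V) (s := fun _ => S) (fun _ => hS)
      exact this
    exact Set.Countable.biUnion h2 fun c _ => hT n c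
  let N : ℕ → Set V := fun k => Nat.rec S (fun _ => step) k
  have hN : ∀ k, (N k).Countable := by
    intro k
    induction k with
    | zero => exact hS
    | succ k ih => exact hstep _ ih
  have hmono : ∀ k, N k ⊆ N (k + 1) := fun k => subset_union_left
  have hmon : Monotone N := monotone_nat_of_le_succ hmono
  refine ⟨⋃ k, N k, subset_iUnion N 0, countable_iUnion hN, fun C hC' hCN x => ?_⟩
  obtain ⟨n, c, hc⟩ := exists_enum hC'
  have h2 : ∃ k, C ⊆ N k := by
    have h3 : ∀ l : Fin n, ∃ k, c l ∈ N k := fun l => mem_iUnion.1 (hCN (by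
      rw [← hc]
      exact ⟨l, rfl⟩))
    choose f hf using h3
    obtain ⟨K, hK⟩ := (finite_range f).bddAbove
    refine ⟨K, ?_⟩
    rw [← hc]
    rintro _ ⟨l, rfl⟩
    exact hmon (hK ⟨l, rfl⟩) (hf l)
  obtain ⟨k, hk⟩ := h2
  obtain ⟨y, hy, hxy⟩ := hT' n c x
  refine ⟨y, mem_iUnion.2 ⟨k + 1, Or.inr ?_⟩, ?_⟩
  · refine mem_iUnion.2 ⟨n, mem_iUnion.2 ⟨c, mem_iUnion.2 ⟨fun l => hk ?_, hy⟩⟩⟩
    rw [← hc]
    exact ⟨l, rfl⟩
  · rw [← hc]
    exact hxy

theorem sats_range (hi : Emb L i) (hM : Mon L U) : SatS L (range i) := by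
  intro C hC hCi x
  have h1 : (i ⁻¹' C).Finite := hC.preimage hi.inj.injOn
  obtain ⟨w, hw⟩ := rlz hi hM h1 (s1 x)
  rw [image_preimage_eq_of_subset hCi] at hw
  refine ⟨i (w 0), ⟨w 0, rfl⟩, tq_congr hw rfl ?_⟩
  funext k
  rw [Subsingleton.elim k 0]
  rfl

theorem sats_chain {N : ℕ → Set V} (hN : ∀ k, N k ⊆ N (k + 1)) (hN' : ∀ k, SatS L (N k)) :
    SatS L (⋃ k, N k) := by
  intro C hC hCN x
  have hmon : Monotone N := monotone_nat_of_le_succ hN
  obtain ⟨n, c, hc⟩ := exists_enum hC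
  have h2 : ∃ k, C ⊆ N k := by
    have h3 : ∀ l : Fin n, ∃ k, c l ∈ N k := fun l => mem_iUnion.1 (hCN (by
      rw [← hc]
      exact ⟨l, rfl⟩))
    choose f hf using h3
    obtain ⟨K, hK⟩ := (finite_range f).bddAbove
    refine ⟨K, ?_⟩
    rw [← hc]
    rintro _ ⟨l, rfl⟩
    exact hmon (hK ⟨l, rfl⟩) (hf l)
  obtain ⟨k, hk⟩ := h2
  obtain ⟨y, hy, hxy⟩ := hN' k C hC hk x
  exact ⟨y, mem_iUnion.2 ⟨k, hy⟩, hxy⟩

theorem sub_pre (hM : Mon L U) {j : U → V} {N : Set V} {B : Set U} (hj : Emb L j) (hNj : N ⊆ range j)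
    (hN : SatS L N) (hB : j '' B ⊆ N) : Sub L B (j ⁻¹' N) := by
  have h1 : ∀ C : Set U, C.Finite → C ⊆ j ⁻¹' N → ∀ x : U, ∃ y ∈ j ⁻¹' N, y ∈ Orb L C x := by
    intro C hC hCN x
    obtain ⟨y, hy, hxy⟩ := hN (j '' C) (hC.image j) (image_subset_iff.2 hCN) (j x)
    obtain ⟨y, rfl⟩ := hNj hy
    obtain ⟨g, hg, hgx⟩ := dp_hom hM hC ((tq_emb hj hC (s1 x) (s1 y)).1 hxy)
    exact ⟨y, hy, g, hg, hgx 0⟩
  refine ⟨⟨fun s hs hne => ?_, fun b hb => hB ⟨b, hb, rfl⟩⟩, h1⟩
  obtain ⟨C, hC, hCs, hD⟩ := dp_fin (α := Fin 1) (P := fun w => w 0 ∈ s) hs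
  obtain ⟨x, hx⟩ := hne
  obtain ⟨y, hy, g, hg, hgx⟩ := h1 C hC hCs x
  refine ⟨y, ?_, hy⟩
  have h2 := (dp_fx hD hg (s1 x)).2 hx
  have h3 : g x ∈ s := h2
  rw [hgx] at h3
  exact h3

end

theorem thm_EMV : St_EMV := by
  intro L U V _ _ i hC hi hM
  refine ⟨fun M₀ N h1 h2 h3 n b b' hb hb' h => emb_baf hC hi hM h1 h2 h3 b b' hb hb' h,
    fun S hS => sats_ex hC hS, fun j hj => sats_range hj hM, fun N h1 h2 => sats_chain h1 h2,
    fun j N B hj h1 h2 h3 => sub_pre hM hj h1 h2 h3, ?_, ?_⟩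
  · intro j j' hj hj' n a a' h
    have h1 : Tq L (∅ : Set V) (fun k => j' (a k)) (fun k => j' (a' k)) := by
      have h2 := tq_sub (tq_emb2 hj' hj) a
      refine tq_congr h2 rfl ?_
      funext k
      exact (h k).symm
    have h2 : Tq L (∅ : Set U) a a' := by
      have h3 := tq_emb hj' finite_empty a a'
      rw [image_empty] at h3
      exact h3.1 h1
    obtain ⟨g, -, hg⟩ := dp_hom hM finite_empty h2
    exact ⟨g, hg⟩
  · intro n a a' h j hj ha
    have hcU : Countable U := hM.ctb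
    obtain ⟨v, hv⟩ := tq_ext' hC countable_empty h j
    refine ⟨v, emb_of_tq hj (tq_sub hv Sum.inr), fun u k hk => ?_⟩
    exact (tq_eq hv (Sum.inr u) (Sum.inl k)).1 hk

end Pool.Agent.TPY
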