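import Pool.Agent.TPY.StW

/-!
# TPY: module ISV (isolated tuples of `V` and `U`, and `IsoP`)
-/

set_option autoImplicit false
set_option linter.unusedVariables false

namespace Pool.Agent.TPY

open FirstOrder.Language Set
open scoped FirstOrder
open Pool.Agent.MNO
open Pool.Agent.WOM (tp Mon IsEl IsoM CtU Fx Orb Isd)
open Pool.Agent.PMC (Sm Md NPf)
open Pool.Agent.TPC (Pq Bq Lin Fre Nice Cpt Big Ist Clu Rgd Sub)

section

variable {L : FirstOrder.Language.{0, 0}} {U V : Type} [L.Structure U] [L.Structure V]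

private theorem isv_one (hM : Mon L U) (j : U → V) (A : Set U) (n : ℕ) (t : Fin n → U) (hj : Emb L j)
    (hA : A.Finite) : IsoV L (j '' A) (fun k => j (t k)) ↔ Ist L A t := by
  constructor
  · rintro ⟨P, hP, hPt, hPv⟩
    have h1 := dp_pull hj (hA.image j) (image_subset_range j A) hP
    rw [pre_img hj] at h1
    refine dp_congr h1 fun s => ⟨?_, fun hs => ?_⟩
    · rintro ⟨g, hg, hgt⟩
      have h2 : Tq L A t s := by
        have h3 := tq_fx hg t
        have e : (fun k => g (t k)) = s := funext hgt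
        rw [e] at h3
        exact h3
      exact (tq_emb hj hA t s).2 h2 P hP hPt
    · exact dp_hom hM hA ((tq_emb hj hA t s).1 (hPv _ hs))
  · intro h
    obtain ⟨Q, hQ, hQv⟩ := dp_push hj hA h
    refine ⟨Q, hQ, (hQv t).2 ⟨FirstOrder.Language.Equiv.refl L U, fun a _ => rfl, fun i => rfl⟩,
      fun w hw D hD hDt => ?_⟩
    by_contra hDw
    obtain ⟨s, hs, hs'⟩ := el_ex hj (hA.image j) (image_subset_range j A) (dp_and hQ (dp_not hD)) ⟨w, hw, hDw⟩
    obtain ⟨g, hg, hgt⟩ := (hQv s).1 hs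
    have h2 : Tq L A t s := by
      have h3 := tq_fx hg t
      have e : (fun k => g (t k)) = s := funext hgt
      rw [e] at h3
      exact h3
    exact hs' ((tq_emb hj hA t s).2 h2 D hD hDt)

end

theorem thm_ISV (hEMV : St_EMV) (hISO : Pool.Agent.TPC.St_ISO) : St_ISV := by
  intro L U V _ _ i hC hi hM
  refine ⟨fun j A n t hj hA => isv_one hM j A n t hj hA, fun hN => ?_⟩
  intro H E lt hL p hp q hq z hz hpz hzq
  obtain ⟨n, b, hb⟩ := exists_enum (((hL.fin.insert q).insert p).insert z)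
  obtain ⟨j, hj, -, hjb⟩ := emb_ext hC hi hM (A := ∅) finite_empty b
  have hr : insert z (insert p (insert q H)) ⊆ range j := by
    rw [← hb]
    rintro _ ⟨k, rfl⟩
    exact hjb k
  obtain ⟨z', rfl⟩ := hr (Or.inl rfl)
  obtain ⟨p', rfl⟩ := hr (Or.inr (Or.inl rfl))
  obtain ⟨q', rfl⟩ := hr (Or.inr (Or.inr (Or.inl rfl)))
  have hH : j '' (j ⁻¹' H) = H := image_preimage_eq_of_subset fun x hx => hr (Or.inr (Or.inr (Or.inr hx)))
  obtain ⟨B, hB⟩ : ∃ B : Set U, j '' B = H := ⟨_, hH⟩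
  subst hB
  have hBf : B.Finite := Set.Finite.of_finite_image hL.fin hj.inj.injOn
  have h1 := hISO L U hM hN B (j ⁻¹' E) _ (lin_of hC hj hM hL) p' hp q' hq z' hz hpz hzq
  have hBf' : (B ∪ {p', q'}).Finite := hBf.union ((finite_singleton q').insert p')
  have h2 : Ist L (B ∪ {p', q'}) (s1 z') := by
    have h3 : Dp L (B ∪ {p', q'}) (fun v : Fin 1 → U => v 0 ∈ Orb L (B ∪ {p', q'}) z') := h1
    refine dp_congr h3 fun v => ⟨?_, ?_⟩
    · rintro ⟨g, hg, hgz⟩
      exact ⟨g, hg, hgz 0⟩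
    · rintro ⟨g, hg, hgz⟩
      refine ⟨g, hg, fun k => ?_⟩
      rw [Subsingleton.elim k 0]
      exact hgz
  have h4 := (isv_one hM j (B ∪ {p', q'}) 1 (s1 z') hj hBf').2 h2
  have e1 : j '' (B ∪ {p', q'}) = j '' B ∪ {j p', j q'} := by
    rw [image_union, image_pair]
  rw [e1] at h4
  exact h4

end Pool.Agent.TPY
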