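import Pool.Agent.TPY.StW

/-!
# TPY, KPV: pieces inside clusters of free unions in `V`
-/

set_option autoImplicit false
set_option linter.unusedVariables false

namespace Pool.Agent.TPY

open FirstOrder.Language Set
open scoped FirstOrder
open Pool.Agent.MNO
open Pool.Agent.WOM (tp Mon IsEl IsoM CtU Fx Orb Isd)

/-- [KPV] -/
theorem thm_KPV (hKBQ : Pool.Agent.TPC.St_KBQ) : St_KPV := by
  intro L U V _ _ i hC hi hM H E cl x hF hx
  refine ⟨?_, ?_⟩
  · intro A z hA hHA hz hxz v hv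
    obtain ⟨n, b, hb⟩ := exists_enum ((hA.insert z).insert v)
    obtain ⟨j, hj, -, hjb⟩ := emb_ext hC hi hM (A := (∅ : Set U)) finite_empty b
    have hr : insert v (insert z A) ⊆ range j := by
      rw [← hb]
      rintro _ ⟨k, rfl⟩
      exact hjb k
    obtain ⟨v0, hv0⟩ := hr (mem_insert _ _)
    obtain ⟨z0, hz0⟩ := hr (mem_insert_of_mem _ (mem_insert _ _))
    have hAr : A ⊆ range j := fun c hc => hr (mem_insert_of_mem _ (mem_insert_of_mem _ hc))
    have hHr : H ⊆ range j := fun c hc => hAr (hHA (mem_insert_of_mem _ hc))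
    obtain ⟨x0, hx0⟩ := hAr (hHA (mem_insert _ _))
    have hA' : j '' (j ⁻¹' A) = A := image_preimage_eq_of_subset hAr
    have hH' : j '' (j ⁻¹' H) = H := image_preimage_eq_of_subset hHr
    have hAf : (j ⁻¹' A).Finite := hA.preimage hj.inj.injOn
    have hF' : FreV L (j '' (j ⁻¹' H)) E cl := by
      rw [hH']
      exact hF
    have hfre := fre_of hj hM hF'
    have hclu : Pool.Agent.TPC.Clu L (j ⁻¹' H) {v | v ∈ j ⁻¹' E ∧ cl (j x0) (j v)} x0 :=
      Or.inr ⟨j ⁻¹' E, fun x y => cl (j x) (j y), hfre, (by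
        show j x0 ∈ E
        rw [hx0]
        exact hx), rfl⟩
    have hbq := hKBQ L U hM _ _ _ hclu (j ⁻¹' A) hAf (preimage_mono fun c hc => hHA (mem_insert_of_mem _ hc))
      ⟨x0, (by
        show j x0 ∈ A
        rw [hx0]
        exact hHA (mem_insert _ _)), (by
        show j x0 ∈ E
        rw [hx0]
        exact hx), (by
        rw [hx0]
        exact hF.rfl x hx)⟩
    have h1 : v0 ∈ Pc L (j ⁻¹' A) z0 := by
      refine (pc_emb hC hj hM hAf z0 v0).1 ?_
      rw [hA', hv0, hz0]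
      exact hv
    rw [← pq_eq hM hAf] at h1
    have h2 : z0 ∈ {v | v ∈ j ⁻¹' E ∧ cl (j x0) (j v)} := by
      refine ⟨?_, ?_⟩
      · show j z0 ∈ E
        rw [hz0]
        exact hz
      · rw [hx0, hz0]
        exact hxz
    have h3 := (h1 _ hbq).1 h2
    obtain ⟨h4, h5⟩ := h3
    have h4' : j v0 ∈ E := h4
    rw [hv0] at h4'
    rw [hx0, hv0] at h5
    exact ⟨h4', h5⟩
  · intro z z' h hz hxz
    refine ⟨hF.tqE z z' (tq_mono (subset_insert _ _) h) hz, ?_⟩
    refine hF.tqc x z x z' ?_ hx hz hxz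
    have h1 := tq_mono (subset_insert x H) (tq_sub (tq_add h (fun _ : Unit => x) (fun _ => mem_insert _ _))
      (![Sum.inr (), Sum.inl 0] : Fin 2 → Fin 1 ⊕ Unit))
    refine tq_congr h1 ?_ ?_ <;>
    · funext k
      fin_cases k <;> rfl

end Pool.Agent.TPY
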