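import Pool.Agent.TPY.Brg4
import Pool.Agent.TPC.StZ

/-!
# TPY: full T6, assembly (helper47): structure theory in the countably saturated `V`, counting in the countable saturated `U`

Interface.  (S1) helper8's relative T6' chapter proves `OutE L A z` for the ended pieces.  (NB) the (Z) chapter proves
`NBV L V` (`no big piece`) from the hypothesis `IsoP L V` (St_ISV below) with `ended` for `OutE` in `BigH.b1`.
Everything below is deduced from `NBV L V`: three runs of (NB), and the count.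

Convention: module XXX is the file `Pool/Agent/TPY/XXX.lean` with `theorem thm_XXX (hAAA : St_AAA) .. : St_XXX`, the
hypotheses are the modules of THIS file cited in the docstring (`HYPS`).  The counting statements `TPC.St_XXX` of
`Pool/Agent/TPC/StZ.lean` are hypotheses `hXXX : Pool.Agent.TPC.St_XXX`; the old ones are unconditional (`TPC.q_XXX`, TPC/API.lean).
-/

set_option autoImplicit false
set_option linter.unusedVariables false

namespace Pool.Agent.TPY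

open FirstOrder.Language Set
open scoped FirstOrder
open Pool.Agent.WOM (tp Mon IsEl IsoM CtU Fx Orb Isd)
open Pool.Agent.PMC (Sm Md NPf)
open Pool.Agent.MNO (Dp FE Sq Exa Nx SmN FE1 FinN)
open Pool.Agent.TPC (Pq Bq Lin Fre Nice Cpt Big Ist Clu Rgd Sub)

section defs

variable (L : FirstOrder.Language.{0, 0}) {V : Type} [L.Structure V]

/-- the type of the tuple `u` over `A` is isolated -/
def IsoV (A : Set V) {α : Type} (u : α → V) : Prop :=
  ∃ P : (α → V) → Prop, Dp L A P ∧ P u ∧ ∀ v, P v → Tq L A u v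

/-- What is needed about the ended pieces (`A` finite, the piece of `z` over `A` has an end `r`).
`rea`: reach.  `cls`: the pieces over `B ⊇ A` inside the piece of `z` over `A`: the ended one is nice; the others are
singletons, or inside a cluster of a linear piece over some `H`, or inside a cluster of a free union `E` of clusters OVER `A`,
with an element of `B` in this cluster, and all points of `E` have the type over `A` of some point of the piece. -/
structure OutE (A : Set V) (z : V) : Prop where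
  rea : (∃ s : Set V, s.Finite ∧ Pc L A z ⊆ s) ∨
    ∃ (B E : Set V), B.Finite ∧ A ⊆ B ∧ ((∃ lt, LinV L B E lt) ∨ ∃ cl, FreV L B E cl) ∧
      ∀ y ∈ Pc L A z, ∃ e ∈ E, Sq L A (s1 y) (s1 e)
  cls : ∀ B : Set V, B.Finite → A ⊆ B → ∀ z' ∈ Pc L A z,
    (∃ n, NiceV L n B z') ∨ Pc L B z' = {z'} ∨
    (∃ (H E : Set V) (lt : V → V → Prop) (y : V), LinV L H E lt ∧ y ∈ E ∧
      ∀ v ∈ Pc L B z', v ∈ E ∧ ¬ lt y v ∧ ¬ lt v y) ∨
    ∃ (E : Set V) (cl : V → V → Prop) (b : V), FreV L A E cl ∧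
      (∀ y ∈ E, ∃ x ∈ Pc L A z, Tq L A (s1 x) (s1 y)) ∧ b ∈ B ∧ b ∈ E ∧ z' ∈ E ∧ cl b z'

/-- Notions `big` for the pieces over the finite sets which contain `A₀` (`inv`: they depend only on the type over
`A₀`; `b1`: ended pieces are not big; `b3`: isolated tuples; `b4`: monotone; `b5`: parameters outside). -/
structure BigH (A₀ : Set V) (big : Set V → V → Prop) : Prop where
  inv : ∀ (n : ℕ) (a a' : Fin n → V) (z z' : V), A₀ ⊆ range a →
    Tq L A₀ (Sum.elim a (s1 z)) (Sum.elim a' (s1 z')) → big (range a) z → big (range a') z'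
  pc : ∀ (A : Set V) (z z' : V), A.Finite → A₀ ⊆ A → z' ∈ Pc L A z → big A z → big A z'
  b1 : ∀ (A : Set V) (z : V), A.Finite → A₀ ⊆ A → OutE L A z → ¬ big A z
  b3 : ∀ (A : Set V) (z : V) (n : ℕ) (u : Fin n → V), A.Finite → A₀ ⊆ A → (∀ k, u k ∈ Pc L A z) → IsoV L A u →
    big A z → ∃ z' ∈ Pc L A z, big (A ∪ range u) z'
  b4 : ∀ (A A' : Set V) (z z' : V), A'.Finite → A₀ ⊆ A → A ⊆ A' → z' ∈ Pc L A z → big A' z' → big A z
  b5 : ∀ (A W : Set V) (z : V), A.Finite → A₀ ⊆ A → W.Finite → Disjoint W (Pc L A z) → big A z → big (A ∪ W) z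

variable (V) in
/-- the types between two clusters of a linear piece are isolated (few models) -/
def IsoP : Prop := ∀ (H E : Set V) (lt : V → V → Prop), LinV L H E lt → ∀ p ∈ E, ∀ q ∈ E, ∀ z ∈ E, lt p z → lt z q →
  IsoV L (H ∪ {p, q}) (s1 z)

variable (V) in
/-- (NB) there is no big piece -/
def NBV : Prop := ∀ (A₀ : Set V) (big : Set V → V → Prop), A₀.Finite → BigH L A₀ big →
  ∀ (A : Set V) (z : V), A.Finite → A₀ ⊆ A → ¬ big A z

/-- `N` is a saturated submodel of `V` (types over finite sets) -/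
def SatS (N : Set V) : Prop := ∀ C : Set V, C.Finite → C ⊆ N → ∀ x : V, ∃ y ∈ N, Tq L C (s1 x) (s1 y)

/-- notion 1: the piece meets uncountably many strong types over `A₀` -/
def Big1 (A₀ A : Set V) (z : V) : Prop :=
  ¬ ∃ S : Set V, S.Countable ∧ ∀ v ∈ Pc L A z, ∃ s ∈ S, Sq L A₀ (s1 v) (s1 s)

/-- notion 2: the hereditary notion of the counting part -/
def BigV (U : Type) [L.Structure U] (A : Set V) (z : V) : Prop :=
  ∃ (j : U → V) (A' : Set U) (z' : U), Emb L j ∧ A'.Finite ∧ j '' A' = A ∧ j z' = z ∧ Big L A' z'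

end defs

/-! ### Embeddings of `U` in `V` -/

/-- [EMV] embeddings.
PROOF.  (1) `MNO.thm_BAG` between `M₀` and `N` for the finite relations `t` with
`Tq ∅ (i ∘ fst) snd` on `t ∪ {(b k, b' k)}`.  Forth: `tq_ext`, `SatS`.  Back: `tq_ext`, `rlz`, `Sub`, `tq_emb`.  This gives `f : M₀ → V`,
`range f = N`, `Tq ∅ i f` (`dp_ffin`); `tq_ext'` extends `f` to `U`, `emb_ext` (end of its proof).
(2) `S_0 = S`; `S_(k+1) = S_k ∪` realisations of all types over the finite subsets of `S_k` (countably many by `sml`,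
`tq_ext`), the union `N` is countable and `SatS`; (1) for `M₀ = univ` and (`b = a`) the given values.
(3) the types over finite sets are realised in `N = range j` (`rlz`).  (4) every finite `C ⊆ ⋃ N k` is contained in some `N k`.
(5) `x : U`, `C ⊆ j⁻¹ N`: `SatS` for `j '' C`, `j x`: `y' = j y ∈ N`, `Tq C x y` (`tq_emb`), so `y ∈ Orb C x` (`Mon.hom`).
`Md`: a nonempty definable set over `C ⊆ M` meets `M`. -/
def St_EMV : Prop :=
  ∀ (L : FirstOrder.Language.{0, 0}) (U V : Type) [L.Structure U] [L.Structure V] (i : U → V),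
    Cz L V → Emb L i → Mon L U →
    (∀ (M₀ : Set U) (N : Set V), Sub L ∅ M₀ → N.Countable → SatS L N → ∀ (n : ℕ) (b : Fin n → U) (b' : Fin n → V),
      (∀ k, b k ∈ M₀) → (∀ k, b' k ∈ N) → Tq L (∅ : Set V) (fun k => i (b k)) b' →
      ∃ j : U → V, Emb L j ∧ j '' M₀ = N ∧ ∀ k, j (b k) = b' k) ∧
    (∀ S : Set V, S.Countable → ∃ N : Set V, S ⊆ N ∧ N.Countable ∧ SatS L N) ∧
    (∀ j : U → V, Emb L j → SatS L (range j)) ∧
    (∀ N : ℕ → Set V, (∀ k, N k ⊆ N (k + 1)) → (∀ k, SatS L (N k)) → SatS L (⋃ k, N k)) ∧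
    (∀ (j : U → V) (N : Set V) (B : Set U), Emb L j → N ⊆ range j → SatS L N → j '' B ⊆ N → Sub L B (j ⁻¹' N)) ∧
    (∀ (j j' : U → V), Emb L j → Emb L j' → ∀ (n : ℕ) (a a' : Fin n → U), (∀ k, j (a k) = j' (a' k)) →
      ∃ g : U ≃[L] U, ∀ k, g (a k) = a' k) ∧
    ∀ (n : ℕ) (a a' : Fin n → V), Tq L (∅ : Set V) a a' → ∀ j : U → V, Emb L j → (∀ k, a k ∈ range j) →
      ∃ j' : U → V, Emb L j' ∧ ∀ (u : U) (k : Fin n), j u = a k → j' u = a' k

/-- [ISV] isolated tuples.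
HYPS: EMV; `TPC.St_ISO`.
PROOF.  (1) (→) `dp_pull` of the isolating `P`; `P (j s)` iff `Tq (j '' A) (j t) (j s)` iff `Tq A t s` (`tq_emb`) iff `s` is conjugate to `t` over
`A` (`Mon.hom`; automorphisms over `A` preserve `Dp A`).  (←) `dp_push` of the orbit of `t`: `Q`, `Dp (j '' A) Q`.  If `Q w` and not
`Tq (j '' A) (j t) w` let `D` be `Dp (j '' A)`, true for `j t`, not for `w`: `el_ex` gives `s` with `Q (j s)`, not `D (j s)`; but `s = g t`, `g` over `A`.
(2) `emb_ext`: `j` with `H, p, q, z` in the range (`j` = any embedding, `A = ∅`); `lin_of`, `TPC.St_ISO`, (1). -/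
def St_ISV : Prop :=
  ∀ (L : FirstOrder.Language.{0, 0}) (U V : Type) [L.Structure U] [L.Structure V] (i : U → V),
    Cz L V → Emb L i → Mon L U →
    (∀ (j : U → V) (A : Set U) (n : ℕ) (t : Fin n → U), Emb L j → A.Finite →
      (IsoV L (j '' A) (fun k => j (t k)) ↔ Ist L A t)) ∧
    (NPf L U → IsoP L V)

/-- [BGV] calculus of `BigV`.
HYPS: EMV, ISV; `TPC.St_BGC`, `TPC.St_BG3`.
PROOF.  (1) `BigV (j '' A) (j z)`: `j1`, `A1`, `z1`; EMV (6): `g` with `g '' A1 = A`, `g z1 = z` (enumerate `A1` and `z1`): BGC (4).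
(2) EMV (7) for `(a, z)`, `j` (all entries are in the range of `j`).  In (3) .. (6) choose `j` with all points which occur in the range
(`emb_ext`), pull back (`(1)`, `pq_pre`, `j '' (j⁻¹ A) = A`), apply BGC (1), (2), (3), BG3 with ISV (1) and push forward.
In (5): `Disjoint W (Pc A z)` gives `Disjoint (j⁻¹ W) (Pq (j⁻¹ A) z')`. -/
def St_BGV : Prop :=
  ∀ (L : FirstOrder.Language.{0, 0}) (U V : Type) [L.Structure U] [L.Structure V] (i : U → V),
    Cz L V → Emb L i → Mon L U → NPf L U →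
    (∀ (j : U → V) (A : Set U) (z : U), Emb L j → A.Finite → (BigV L U (j '' A) (j z) ↔ Big L A z)) ∧
    (∀ (n : ℕ) (a a' : Fin n → V) (z z' : V), Tq L (∅ : Set V) (Sum.elim a (s1 z)) (Sum.elim a' (s1 z')) →
      BigV L U (range a) z → BigV L U (range a') z') ∧
    (∀ (A : Set V) (z z' : V), A.Finite → z' ∈ Pc L A z → BigV L U A z → BigV L U A z') ∧
    (∀ (A A' : Set V) (z z' : V), A'.Finite → A ⊆ A' → z' ∈ Pc L A z → BigV L U A' z' → BigV L U A z) ∧
    (∀ (A W : Set V) (z : V), A.Finite → W.Finite → Disjoint W (Pc L A z) → BigV L U A z →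
      BigV L U (A ∪ W) z) ∧
    (FinN L U → ∀ (A : Set V) (z : V) (n : ℕ) (u : Fin n → V), A.Finite → IsoV L A u → BigV L U A z →
      ∃ z' ∈ Pc L A z, BigV L U (A ∪ range u) z')

/-- [B1V] ended pieces which are big.
HYPS: `TPC.St_LRG`, `TPC.St_BGC`.
PROOF.  `BigV A z`: `j`, `A'`, `z0` and `Big A' z0`: `B1`, `z1 ∈ Pq A' z0`, not `Cpt B1 (Pq B1 z1)`.  `j z1 ∈ Pc A z` (`pc_emb`); `OutE.cls` for
`B = j '' B1`, `j z1`.  Nice: `nice_of`, `TPC.St_PAR` (`q_PAR`): `Cpt`.  Singleton: `pq_pre`, CPT (2).  In a cluster of a linear piece: `emb_ext`: `j2 = j` on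
`B1 ∪ {z1}`, `H`, `y` in the range of `j2`; `lin_of`; `pq_pre` for `j2`; LRG: `Rgd B1 z1`, BGC (5): `Cpt`.  The fourth case remains
(`b1` with `j b1 = b`: `b ∈ B = j '' B1`). -/
def St_B1V : Prop :=
  ∀ (L : FirstOrder.Language.{0, 0}) (U V : Type) [L.Structure U] [L.Structure V] (i : U → V),
    Cz L V → Emb L i → Mon L U → NPf L U → FinN L U → ∀ (A : Set V) (z : V), A.Finite → OutE L A z →
    BigV L U A z → ∃ (j : U → V) (B1 : Set U) (z1 b1 : U) (E : Set V) (cl : V → V → Prop), Emb L j ∧ B1.Finite ∧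
      A ⊆ j '' B1 ∧ j z1 ∈ Pc L A z ∧ ¬ Cpt L B1 (Pq L B1 z1) ∧ FreV L A E cl ∧
      (∀ y ∈ E, ∃ x ∈ Pc L A z, Tq L A (s1 x) (s1 y)) ∧ b1 ∈ B1 ∧ j b1 ∈ E ∧ j z1 ∈ E ∧ cl (j b1) (j z1)

/-- [REV] ended pieces have countably many strong types.
HYPS: EMV; `TPC.St_FNA`.
PROOF.  `OutE.rea`.  In the first case `S = s`.  In the second case (`A₀ ⊆ A ⊆ B`) it is enough to have a countable `S` such that every
`e ∈ E` has the strong type over `B` of some `s ∈ S`.  Suppose not.  Choose `N 0 ⊇ B` countable, `SatS` (EMV (2)), `p 0 ∈ E` with the strong type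
over `B` of no point of `N 0`, `N 1 ⊇ N 0 ∪ {p 0}` and so on; `N = ⋃ N k`, EMV (4), EMV (1) for `M₀ = univ`: `j` with `range j = N`.
`B' = j⁻¹ B`, `M k = j⁻¹ (N k)`: `Sub B' (M k)` (EMV (5)); `p' k = j⁻¹ (p k)`; `lin_of` / `fre_of` and FNA: `z ∈ M n` conjugate to `p' n` under
`Nx B'`, so `Sq B' z (p' n)` (`nx_sq`), `Sq B (j z) (p n)` (`sq_emb`): contradiction. -/
def St_REV : Prop :=
  ∀ (L : FirstOrder.Language.{0, 0}) (U V : Type) [L.Structure U] [L.Structure V] (i : U → V),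
    Cz L V → Emb L i → Mon L U → NPf L U → ∀ (A₀ A : Set V) (z : V), A.Finite → A₀ ⊆ A → OutE L A z →
    ¬ Big1 L A₀ A z

/-- [CPV] countably many pieces.
HYPS: EMV.
PROOF.  `N ⊇ B`, `N = range j` (EMV (2), (1)).  Let `v : V`; `w ∈ U` with `Tq B v (j w)` (EMV (3)).  `TPC.q_FCP` (`Fcp B'`, `B' = j⁻¹ B`): points `w_1, .., w_k` of
`Orb B' w` such that `Pq B' w_1, .., Pq B' w_k` are all the pieces over `B'` which meet `Orb B' w`.  `emb_ext`: `j2` with `v = j2 v'`, `j2 = j` on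
`B' ∪ {w, w_1, .., w_k}`.  `Tq B' v' w` (`tq_emb`), so `Pq B' v' = Pq B' w_l` for some `l`, `w_l ∈ Pq B' v'`, `j w_l = j2 w_l ∈ Pc B v` (`pc_emb`). -/
def St_CPV : Prop :=
  ∀ (L : FirstOrder.Language.{0, 0}) (U V : Type) [L.Structure U] [L.Structure V] (i : U → V),
    Cz L V → Emb L i → Mon L U → NPf L U → ∀ B : Set V, B.Finite →
    ∃ N : Set V, N.Countable ∧ ∀ v : V, ∃ t ∈ N, t ∈ Pc L B v

/-- [B1H] notion 1.
HYPS: REV, CPV.
PROOF.  `inv`: `K` countable with a representative of every class of every `E` in `FE A₀` (of elements); `tq_ext'`: `Tq A₀ (a, z, K) (a', z', K')`.  For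
`v ∈ Pc (range a) z` let `v'` be such that `Tq A₀ (a, z, K, v) (a', z', K', v')`; `v' ∈ Pc (range a') z'` (`pc_tq`).  `E v κ ↔ E v' κ'` for `κ ∈ K`, so `Sq A₀ v1' v2'` implies
`Sq A₀ v1 v2`; a countable `S'` for `(a', z')` gives a countable `S` for `(a, z)`.  `pc`: `pc_eq`.  `b1`: REV.  `b4`: `Pc A' z' ⊆ Pc A z' = Pc A z` (`pc_mono`, `pc_eq`).
`b5`: `Pc (A ∪ W) z = Pc A z` (`nnl`).  `b3`: `N` from CPV for `B = A ∪ range u`.  Suppose for each `t ∈ N ∩ Pc A z` there is a countable `S_t` as in not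
`Big1 A₀ B t`; `S = ⋃ S_t`; `v ∈ Pc A z`: `t ∈ N ∩ Pc B v`, `t ∈ Pc A v = Pc A z`, `v ∈ Pc B t` (`pc_symm`). -/
def St_B1H : Prop :=
  ∀ (L : FirstOrder.Language.{0, 0}) (U V : Type) [L.Structure U] [L.Structure V] (i : U → V),
    Cz L V → Emb L i → Mon L U → NPf L U → ∀ A₀ : Set V, A₀.Finite → BigH L A₀ (Big1 L A₀)

/-- [RU1] run 1: all types have finite multiplicity.
HYPS: EMV, B1H; `TPC.St_FNB`.
PROOF.  Otherwise FNB: `A`, `M0`, `z`, `y`.  `NBV` for `Big1 (i '' A)` (B1H): not `Big1 (i '' A) (i '' A) (i z)`: `S` countable.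
`N ⊇ S ∪ i '' (insert z A)` (EMV (2)).  EMV (1) for `M₀ = M0`, `b` = an enumeration of `insert z A`, `b' = i ∘ b`: `j` with `j '' M0 = N`, `j = i` on
`insert z A`.  `j y ∈ Pc (i '' A) (i z)` (`pc_emb`), so `Sq (i '' A) (j y) s`, `s ∈ S ⊆ N`, `s = j v`, `v ∈ M0`; `Sq A y v` (`sq_emb`), so `v` is
conjugate to `y` under `Nx A` (`nx_pt`): contradiction. -/
def St_RU1 : Prop :=
  ∀ (L : FirstOrder.Language.{0, 0}) (U V : Type) [L.Structure U] [L.Structure V] (i : U → V),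
    Cz L V → Emb L i → Mon L U → NPf L U → NBV L V → FinN L U

/-- [KPV] pieces inside clusters of free unions.
HYPS: `TPC.St_KBQ`.
PROOF.  (1) `v ∈ Pc A z`; `emb_ext`: `j` with `A, z, v` in the range; `A' = j⁻¹ A`, `fre_of`: `K = {v | cl (j x') (j v)}` is the cluster of `x' = j⁻¹ x ∈ A'` (`Clu`);
KBQ: `Bq A' K`; `j⁻¹ v ∈ Pq A' (j⁻¹ z)` (`pc_emb`, `pq_eq`), so in `K` (ALQ (6)).  (2) `tqE`, `tqc` for `(x, z)`, `(x, z')` (`tq_add`, `x ∈ insert x H`). -/
def St_KPV : Prop :=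
  ∀ (L : FirstOrder.Language.{0, 0}) (U V : Type) [L.Structure U] [L.Structure V] (i : U → V),
    Cz L V → Emb L i → Mon L U → ∀ (H E : Set V) (cl : V → V → Prop) (x : V), FreV L H E cl → x ∈ E →
    (∀ (A : Set V) (z : V), A.Finite → insert x H ⊆ A → z ∈ E → cl x z → ∀ v ∈ Pc L A z, v ∈ E ∧ cl x v) ∧
    ∀ z z' : V, Tq L (insert x H) (s1 z) (s1 z') → z ∈ E → cl x z → z' ∈ E ∧ cl x z'

/-- [RU2] run 2: no big piece inside a cluster of a free union.
HYPS: BGV, B1V, KPV; `TPC.St_NFR`, `TPC.St_BGC`.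
PROOF.  `A₀ = insert x H`, `big A z := z ∈ E ∧ cl x z ∧ BigV A z`.  `inv`: KPV (2), BGV (2).  `pc`, `b3`, `b4` (`z ∈ Pc A z'` by `pc_symm`,
KPV (1) for `z'`), `b5`: KPV (1), BGV.  `b1`: B1V: `j`, `B1`, `z1`, `b1`, `E1`, `cl1`.  `A' = j⁻¹ A ⊆ B1`, `j '' A' = A`, `H' = j⁻¹ H`, `x' = j⁻¹ x ∈ A'`; `fre_of` for `(H, E, cl)` and
`(A, E1, cl1)`.  `E1` is inside the cluster of `x`: `y ∈ E1` has the type over `A` of some `u ∈ Pc A z`, KPV (1), (2).  NFR: `Rgd B1 z1`, BGC (5): `Cpt B1 (Pq B1 z1)`: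
contradiction.  `NBV`. -/
def St_RU2 : Prop :=
  ∀ (L : FirstOrder.Language.{0, 0}) (U V : Type) [L.Structure U] [L.Structure V] (i : U → V),
    Cz L V → Emb L i → Mon L U → NPf L U → FinN L U → NBV L V →
    ∀ (H E : Set V) (cl : V → V → Prop) (x : V), FreV L H E cl → x ∈ E → ∀ (A : Set V) (z : V), A.Finite →
    insert x H ⊆ A → z ∈ E → cl x z → ¬ BigV L U A z

/-- [RU3] run 3 and the count.
HYPS: BGV, B1V, RU1, RU2; `TPC.St_CTZ`.
PROOF.  RU1: `FinN`.  `A₀ = ∅`, `big = BigV`: BGV; `b1`: B1V: `Big B1 z1` (`B := B1`, `z' := z1`), `BigV (j '' B1) (j z1)` (BGV (1)): against RU2 for `(A, E, cl)`,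
`x = j b1`, `j '' B1 ⊇ insert (j b1) A`.  So no `BigV ∅ (i z)`, no `Big ∅ z` (BGV (1), `i '' ∅ = ∅`): CTZ. -/
def St_RU3 : Prop :=
  ∀ (L : FirstOrder.Language.{0, 0}) (U V : Type) [L.Structure U] [L.Structure V] (i : U → V),
    Cz L V → Emb L i → Mon L U → NPf L U → NBV L V → CtU L U

end Pool.Agent.TPY
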