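import Pool.Agent.TPY.S1
import Pool.Agent.TPY.IDF
import Pool.Agent.TPY.StW

/-!
# TPY module OUT (helper8): ended pieces satisfy `OutE`
-/

set_option autoImplicit false
set_option linter.unusedVariables false

namespace Pool.Agent.TPY

open FirstOrder.Language Set
open scoped FirstOrder
open Pool.Agent.MNO

variable {L : FirstOrder.Language.{0, 0}} {V : Type} [L.Structure V]

/-- an ended piece is the end of a type -/
theorem edd_en (hC : Cz L V) {A : Set V} (hA : A.Finite) {z : V} (h : Edd L A z) :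
    ∃ r, Gd L A r ∧ Pc L A z = En L A r := by
  obtain ⟨r, hG, w, hw, hE⟩ := h
  refine ⟨r, hG, ?_⟩
  rw [← e_pc hC hG.gt hG.nal hG.inv Subset.rfl hA hE]
  exact (pc_eq hC hA.countable hw).symm

/-- [OUT] -/
theorem thm_OUT (hC : Cz L V) {A : Set V} (hA : A.Finite) {z : V} (h : Edd L A z) : OutE L A z := by
  obtain ⟨r, hG, hP⟩ := edd_en hC hA h
  refine ⟨Or.inr ?_, fun B hB hAB z' hz' => ?_⟩
  · rw [hP]
    exact thm_REB L V hC r A hA hG
  · rw [hP] at hz' ⊢
    rcases thm_S1 L V hC r A hA hG B hAB hB z' hz' with h1 | h1 | h1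
    · exact Or.inl h1
    · obtain ⟨H, E, lt, y, -, -, -, h2, h3, -, h4⟩ := h1
      exact Or.inr (Or.inr (Or.inl ⟨H, E, lt, y, h2, h3, h4⟩))
    · obtain ⟨E, cl, b, h2, h3, h4, h5, h6, h7⟩ := h1
      exact Or.inr (Or.inr (Or.inr ⟨E, cl, b, h2, h4, h5, h6, h3 hz', h7⟩))

end Pool.Agent.TPY
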