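import Pool.Agent.TPY.StW

/-!
# TPY: the ended pieces have countably many strong types
-/

set_option autoImplicit false
set_option linter.unusedVariables false

namespace Pool.Agent.TPY

open FirstOrder.Language Set
open scoped FirstOrder
open Pool.Agent.WOM (tp Mon IsEl IsoM CtU Fx Orb Isd)
open Pool.Agent.PMC (Sm Md NPf)
open Pool.Agent.MNO (Dp FE Sq Exa Nx SmN FE1 FinN sq_refl sq_symm sq_trans sq_mono nx_sq)
open Pool.Agent.TPC (Pq Bq Lin Fre Nice Cpt Big Ist Clu Rgd Sub)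

theorem rev_sub_univ {L : FirstOrder.Language.{0, 0}} {U : Type} [L.Structure U] : Sub L (∅ : Set U) (univ : Set U) := by
  refine ⟨⟨fun s _ hs => by rwa [inter_univ], empty_subset _⟩, fun C _ _ x => ⟨x, mem_univ x, ?_⟩⟩
  exact ⟨FirstOrder.Language.Equiv.refl L U, fun a _ => rfl, rfl⟩

theorem rev_key (hEMV : St_EMV) (hFNA : Pool.Agent.TPC.St_FNA)
    (L : FirstOrder.Language.{0, 0}) (U V : Type) [L.Structure U] [L.Structure V] (i : U → V)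
    (hC : Cz L V) (hi : Emb L i) (hM : Mon L U) (hNP : NPf L U) (B E : Set V) (hB : B.Finite)
    (hE : (∃ lt, LinV L B E lt) ∨ ∃ cl, FreV L B E cl) :
    ∃ S : Set V, S.Countable ∧ ∀ e ∈ E, ∃ s ∈ S, Sq L B (s1 e) (s1 s) := by
  by_contra hcon
  have hcon' : ∀ S : Set V, S.Countable → ∃ e ∈ E, ∀ s ∈ S, ¬ Sq L B (s1 e) (s1 s) := by
    intro S hS
    by_contra h
    refine hcon ⟨S, hS, fun e he => ?_⟩
    by_contra h2
    exact h ⟨e, he, fun s hs hsq => h2 ⟨s, hs, hsq⟩⟩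
  obtain ⟨e1, e2, e3, e4, e5, e6, e7⟩ := hEMV L U V i hC hi hM
  -- the step
  have hstep : ∀ N : {N : Set V // N.Countable ∧ SatS L N ∧ B ⊆ N},
      ∃ (N' : {N : Set V // N.Countable ∧ SatS L N ∧ B ⊆ N}) (p : V),
        N.1 ⊆ N'.1 ∧ p ∈ N'.1 ∧ p ∈ E ∧ ∀ s ∈ N.1, ¬ Sq L B (s1 p) (s1 s) := by
    rintro ⟨N, hNc, hNs, hNB⟩
    obtain ⟨p, hpE, hp⟩ := hcon' N hNc
    obtain ⟨N', hN', hc', hs'⟩ := e2 (insert p N) (hNc.insert p)
    exact ⟨⟨N', hc', hs', fun x hx => hN' (mem_insert_of_mem p (hNB hx))⟩, p,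
      fun x hx => hN' (mem_insert_of_mem p hx), hN' (mem_insert p N), hpE, hp⟩
  choose nf pf hsub hpm hpE hpn using hstep
  obtain ⟨N0, hN0, hc0, hs0⟩ := e2 B hB.countable
  let T0 : {N : Set V // N.Countable ∧ SatS L N ∧ B ⊆ N} := ⟨N0, hc0, hs0, hN0⟩
  let Nk : ℕ → {N : Set V // N.Countable ∧ SatS L N ∧ B ⊆ N} := fun k => nf^[k] T0
  have hNs : ∀ k, Nk (k + 1) = nf (Nk k) := fun k => Function.iterate_succ_apply' nf k T0
  have hmono : ∀ k, (Nk k).1 ⊆ (Nk (k + 1)).1 := by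
    intro k
    rw [hNs]
    exact hsub _
  have hNNs : SatS L (⋃ k, (Nk k).1) := e4 (fun k => (Nk k).1) hmono (fun k => (Nk k).2.2.1)
  have hNNc : (⋃ k, (Nk k).1).Countable := countable_iUnion (fun k => (Nk k).2.1)
  obtain ⟨j, hj, hjN, -⟩ := e1 univ (⋃ k, (Nk k).1) rev_sub_univ hNNc hNNs 0 Fin.elim0 Fin.elim0
    (fun k => k.elim0) (fun k => k.elim0) (by
      have h0 : (fun k => i ((Fin.elim0 : Fin 0 → U) k)) = (Fin.elim0 : Fin 0 → V) := funext (fun k => k.elim0)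
      rw [h0]
      exact tq_refl _)
  have hr : range j = ⋃ k, (Nk k).1 := by rw [← hjN, image_univ]
  have hkr : ∀ k, (Nk k).1 ⊆ range j := fun k => by
    rw [hr]
    exact subset_iUnion (fun k => (Nk k).1) k
  have hBr : B ⊆ range j := fun x hx => hkr 0 ((Nk 0).2.2.2 hx)
  have hBi : j '' (j ⁻¹' B) = B := image_preimage_eq_of_subset hBr
  have hB'f : (j ⁻¹' B).Finite := hB.preimage hj.inj.injOn
  have hpk : ∀ k, ∃ q : U, j q = pf (Nk k) := by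
    intro k
    have h := hpm (Nk k)
    rw [← hNs] at h
    exact hkr (k + 1) h
  choose q hq using hpk
  have hLF : (∃ lt, Lin L (j ⁻¹' B) (j ⁻¹' E) lt) ∨ ∃ cl, Fre L (j ⁻¹' B) (j ⁻¹' E) cl := by
    rcases hE with ⟨lt, hl⟩ | ⟨cl, hl⟩
    · left
      refine ⟨_, lin_of hC hj hM (B := j ⁻¹' B) (E := E) (lt := lt) ?_⟩
      rwa [hBi]
    · right
      refine ⟨_, fre_of hj hM (B := j ⁻¹' B) (E := E) (cl := cl) ?_⟩
      rwa [hBi]
  obtain ⟨n, z, hz, g, hg, hgz⟩ := hFNA L U hM hNP (j ⁻¹' B) (j ⁻¹' E) hLF (fun k => j ⁻¹' (Nk k).1) q (by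
    intro k
    refine ⟨e5 j (Nk k).1 (j ⁻¹' B) hj (hkr k) (Nk k).2.2.1 ?_, fun x hx => hmono k hx, ?_, ?_⟩
    · rw [hBi]
      exact (Nk k).2.2.2
    · show j (q k) ∈ (Nk (k + 1)).1
      rw [hq, hNs]
      exact hpm (Nk k)
    · show j (q k) ∈ E
      rw [hq]
      exact hpE (Nk k))
  have h1 : Sq L (j ⁻¹' B) (s1 z) (s1 (q n)) := by
    have := nx_sq hg (s1 z)
    have e : (fun k => g (s1 z k)) = s1 (q n) := by
      funext k
      exact hgz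
    rwa [e] at this
  have h2 := (sq_pt hj hB'f).2 h1
  rw [hBi, hq] at h2
  exact hpn (Nk n) (j z) hz (sq_symm h2)

theorem thm_REV (hEMV : St_EMV) (hFNA : Pool.Agent.TPC.St_FNA) : St_REV := by
  intro L U V _ _ i hC hi hM hNP A₀ A z hA hA₀ hO hB
  apply hB
  rcases hO.rea with ⟨s, hs, hsub⟩ | ⟨B, E, hBf, hAB, hE, hreach⟩
  · exact ⟨s, hs.countable, fun v hv => ⟨v, hsub hv, sq_refl _ _⟩⟩
  · obtain ⟨S, hS, hSE⟩ := rev_key hEMV hFNA L U V i hC hi hM hNP B E hBf hE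
    refine ⟨S, hS, fun v hv => ?_⟩
    obtain ⟨e, he, hve⟩ := hreach v hv
    obtain ⟨s, hs, hes⟩ := hSE e he
    exact ⟨s, hs, sq_mono hA₀ (sq_trans hve (sq_mono hAB hes))⟩

end Pool.Agent.TPY
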