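import Pool.Agent.TPY.StK

/-!
# TPY (port of TPX) module CDP: no exact arrays, with parameters
-/

set_option autoImplicit false
set_option linter.unusedVariables false

namespace Pool.Agent.TPY

open FirstOrder.Language Set
open scoped FirstOrder
open Pool.Agent.MNO

/-- [CDP] no exact arrays of arbitrary size, with parameters -/
theorem thm_CDP : St_CDP := by
  intro L U _ hC α β _ _ A P hA hP
  obtain ⟨p, a, rfl⟩ := exists_enum hA
  obtain ⟨m, ⟨e⟩⟩ := Finite.exists_equiv_fin (α ⊕ Fin p)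
  obtain ⟨n, ⟨e'⟩⟩ := Finite.exists_equiv_fin β
  obtain ⟨Q, hQ, hPQ⟩ := dp_fam0 hP
  have key : ∀ (x : α → U) (y : β → U) (z : U), P x y z ↔
      Q (Sum.elim (Sum.elim (Sum.elim x y) (fun _ => z)) a) := fun x y z =>
    hPQ (Sum.elim (Sum.elim x y) (fun _ => z))
  obtain ⟨k, hk⟩ := hC.cod m n (fun x y z =>
    Q (Sum.elim (Sum.elim (Sum.elim (fun i => x (e (Sum.inl i))) (fun i => y (e' i))) (fun _ => z))
      (fun i => x (e (Sum.inr i))))) (by
    have h1 := dp_sub hQ (Sum.elim (Sum.elim (Sum.elim (fun i => Sum.inl (Sum.inl (e (Sum.inl i))))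
      (fun i => Sum.inl (Sum.inr (e' i)))) (fun _ => Sum.inr ()))
      (fun i => Sum.inl (Sum.inl (e (Sum.inr i)))) :
        ((α ⊕ β) ⊕ Unit) ⊕ Fin p → (Fin m ⊕ Fin n) ⊕ Unit)
    refine dp_congr h1 (fun v => ?_)
    apply iff_of_eq
    congr 1
    funext i
    rcases i with ((i | i) | i) | i <;> rfl)
  refine ⟨k, fun ⟨x, y, z, h⟩ => hk ?_⟩
  refine ⟨fun i => (Sum.elim (x i) a) ∘ e.symm, fun i => y i ∘ e'.symm, z, fun i j a' b' => ?_⟩
  rw [← h i j a' b', key]
  refine iff_of_eq (congrArg Q ?_)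
  funext t
  rcases t with ((t | t) | t) | t
  · show Sum.elim (x i) a (e.symm (e (Sum.inl t))) = x i t
    rw [e.symm_apply_apply]
    rfl
  · show y j (e'.symm (e' t)) = y j t
    rw [e'.symm_apply_apply]
  · rfl
  · show Sum.elim (x i) a (e.symm (e (Sum.inr t))) = a t
    rw [e.symm_apply_apply]
    rfl

end Pool.Agent.TPY
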