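import Pool.Agent.TPY.FAM
import Pool.Agent.TPY.CDP
import Pool.Agent.Helper18.EH.Ramsey

/-!
# TPY, module ECR (helper68): a closed preorder without a maximum on a strong type gives an end

This is helper34's END-CRIT and helper31's THEOREM LP, with countable sets only and without indiscernible sequences.
-/

set_option autoImplicit false
set_option linter.unusedVariables false
set_option linter.unusedSectionVars false

namespace Pool.Agent.TPY

open FirstOrder.Language Set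
open scoped FirstOrder
open Pool.Agent.MNO

section defs

variable (L : FirstOrder.Language.{0, 0}) {U : Type} [L.Structure U]

/-- `y` is above `z` (`∃ n, δ n y z`) is a strict weak order without a maximum on the strong type of `z0` over `H`, a union of
countably many definable relations which are invariant under equality of strong types over `H` -/
structure Cpo (H : Set U) (z0 : U) (δ : ℕ → U → U → Prop) : Prop where
  fin : H.Finite
  dfn : ∀ n, Dp L (univ : Set U) (fun v : Fin 1 ⊕ Fin 1 → U => δ n (v (Sum.inl 0)) (v (Sum.inr 0)))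
  inv : ∀ n y z y' z', Sq L H (Sum.elim (s1 y) (s1 z)) (Sum.elim (s1 y') (s1 z')) → δ n y z → δ n y' z'
  mon : ∀ n y z, δ n y z → δ (n + 1) y z
  irr : ∀ n z, Sq L H (s1 z0) (s1 z) → ¬ δ n z z
  tra : ∀ x y z, Sq L H (s1 z0) (s1 x) → Sq L H (s1 z0) (s1 y) → Sq L H (s1 z0) (s1 z) →
    (∃ n, δ n x y) → (∃ n, δ n y z) → ∃ n, δ n x z
  neg : ∀ x y z, Sq L H (s1 z0) (s1 x) → Sq L H (s1 z0) (s1 y) → Sq L H (s1 z0) (s1 z) →
    (∃ n, δ n x z) → (∃ n, δ n x y) ∨ ∃ n, δ n y z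
  ubd : ∀ z, Sq L H (s1 z0) (s1 z) → ∃ y, Sq L H (s1 z0) (s1 y) ∧ ∃ n, δ n y z

end defs

/-- [ECR] a closed preorder without a maximum on a strong type over `H` gives a non-realised type which is invariant over `H` and
contains this strong type.
PROOF.  `O` = the strong type of `z0` over `H`; `y > z` iff `∃ n, δ n y z`; `y ≥ z` iff not `z > y`.  (0) Countable subsets of `O` have
upper bounds in `O` (`sat_dp`).
Case 1: for all tuples `u, u'` with `Sq H u u'` there is `b ∈ O` with `Sq (H ∪ {y}) u u'` for all `y ≥ b` in `O`.  An ultrafilter on `O`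
which contains all end segments `{y ∈ O | y ≥ b}` gives the type.
Case 2: `Sq H u u'`, and for each `b ∈ O` not `Sq (H ∪ {y}) u u'` for some `y ≥ b` in `O`.  FAM, (0), countably many families: one
family `F` over `H` of finite equivalence relations with not `F y u u'` for cofinally many `y ∈ O`.  `R x x'` iff `F y x x'` for all
large `y ∈ O`: an invariant equivalence relation on the strong type of `u`, not trivial: BND: there are `z_i`, `i < ω`, pairwise not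
`R`.  Fix `ww > zz` in `O`; saturation: one `m` with `δ m y zz` for all `y ≥ ww` in `O`; transport: `W b` for all `b ∈ O`.  Choose
`Y b i j ≥ W b` in `O` with not `F (Y b i j) (z_i) (z_j)`, and `b_(l+1) ≥` all `Y b_l i j`.  Then `δ m (Y b_l i j) b_l'` iff `l' ≤ l`.
For a given size `N`: Ramsey for 4-subsets: the truth of `F (Y b_l i j) z_i' z_j'` and of `F (Y b_l i' j') z_i z_j` (`i < j < i' < j'`,
`l < N`) is constant on an infinite set, so `true` (finitely many classes, the same number for all `y ∈ O`).  So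
`¬ F y x x' ∧ δ m y b ∧ ¬ δ m y b'` has an exact array of size `N` (rows `(z_2k, z_(2k+1))`, columns `(b_l, b_(l+1))`, codes
`Y b_l (2k) (2k+1)`): CDP. -/
def St_ECR : Prop :=
  ∀ (L : FirstOrder.Language.{0, 0}) (U : Type) [L.Structure U], Cz L U →
    ∀ (H : Set U) (z0 : U) (δ : ℕ → U → U → Prop), Cpo L H z0 δ →
    ∃ r : ((Fin 1 → U) → Prop) → Prop, GT L r ∧ Inv L H r ∧ Ets L H (s1 z0) r ∧ Nal r

/-- Ramsey's theorem for increasing `k`-tuples -/
theorem ecr_ramsey {C : Type} [Finite C] (k : ℕ) (c : (Fin k → ℕ) → C) :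
    ∃ (φ : ℕ → ℕ) (κ : C), StrictMono φ ∧ ∀ v : Fin k → ℕ, StrictMono v → c (fun i => φ (v i)) = κ := by
  classical
  let F : Finset ℕ → C := fun s =>
    if h : s.card = k then c (s.orderEmbOfFin h) else c fun _ => 0
  obtain ⟨B, -, hB, κ, hκ⟩ := Pool.Agent.Helper18.EH.ramsey k F Set.univ Set.infinite_univ
  have hBi : Infinite B := hB.to_subtype
  let φ : ℕ → ℕ := fun i => (Nat.orderEmbeddingOfSet B) i
  have hφ : StrictMono φ := (Nat.orderEmbeddingOfSet B).strictMono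
  have hφB : ∀ i, φ i ∈ B := fun i => by
    have h1 : φ i ∈ Set.range (Nat.orderEmbeddingOfSet B) := ⟨i, rfl⟩
    rwa [Nat.orderEmbeddingOfSet_range] at h1
  refine ⟨φ, κ, hφ, fun v hv => ?_⟩
  let s : Finset ℕ := Finset.univ.image (φ ∘ v)
  have hinj : Function.Injective (φ ∘ v) := (hφ.comp hv).injective
  have hs : s.card = k := by
    rw [Finset.card_image_of_injective _ hinj, Finset.card_univ, Fintype.card_fin]
  have h1 : F s = κ := by
    refine hκ s ?_ hs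
    intro x hx
    obtain ⟨i, -, rfl⟩ := Finset.mem_image.1 (Finset.mem_coe.1 hx)
    exact hφB _
  have h2 : F s = c (s.orderEmbOfFin hs) := dif_pos hs
  have h3 : φ ∘ v = s.orderEmbOfFin hs :=
    Finset.orderEmbOfFin_unique hs (fun i => Finset.mem_image_of_mem _ (Finset.mem_univ i))
      (hφ.comp hv)
  have h4 : c (φ ∘ v) = κ := by
    rw [h3, ← h2, h1]
  exact h4

section

variable {L : FirstOrder.Language.{0, 0}} {U : Type} [L.Structure U] {H : Set U} {z0 : U}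
  {δ : ℕ → U → U → Prop}

/-- countably many parameters suffice for the relations `δ n` -/
theorem ecr_par (hδ : ∀ n, Dp L (univ : Set U)
    (fun v : Fin 1 ⊕ Fin 1 → U => δ n (v (Sum.inl 0)) (v (Sum.inr 0)))) :
    ∃ D : Set U, D.Countable ∧ ∀ n, Dp L D (fun v : Fin 1 ⊕ Fin 1 → U => δ n (v (Sum.inl 0)) (v (Sum.inr 0))) := by
  choose D hD using fun n => dp_fin (hδ n)
  refine ⟨⋃ n, D n, countable_iUnion fun n => (hD n).1.countable, fun n => ?_⟩
  exact dp_mono (subset_iUnion D n) (hD n).2.2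

theorem s1v (v : Fin 1 → U) : s1 (v 0) = v := by
  funext i
  rw [Subsingleton.elim i 0]
  rfl

/-- larger indices -/
theorem ecr_le (h : Cpo L H z0 δ) {m n : ℕ} (hmn : m ≤ n) {y z : U} (hd : δ m y z) : δ n y z := by
  induction hmn with
  | refl => exact hd
  | step _ ih => exact h.mon _ _ _ ih

/-- `¬ x > y` and `¬ y > z` give `¬ x > z` -/
theorem ecr_nt (h : Cpo L H z0 δ) {x y z : U} (hx : Sq L H (s1 z0) (s1 x)) (hy : Sq L H (s1 z0) (s1 y))
    (hz : Sq L H (s1 z0) (s1 z)) (h1 : ¬ ∃ n, δ n x y) (h2 : ¬ ∃ n, δ n y z) : ¬ ∃ n, δ n x z := by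
  intro h3
  rcases h.neg x y z hx hy hz h3 with h4 | h4
  · exact h1 h4
  · exact h2 h4

/-- finite sets have upper bounds -/
theorem ecr_max (h : Cpo L H z0 δ) {T : Set U} (hT : T.Finite) (hTO : ∀ t ∈ T, Sq L H (s1 z0) (s1 t)) :
    ∃ b, Sq L H (s1 z0) (s1 b) ∧ ∀ t ∈ T, ¬ ∃ n, δ n t b := by
  induction T, hT using Set.Finite.induction_on with
  | empty => exact ⟨z0, sq_refl H _, fun t ht => absurd ht (notMem_empty _)⟩
  | @insert a t _ ht ih =>
    obtain ⟨b, hb, hb'⟩ := ih fun s hs => hTO s (mem_insert_of_mem a hs)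
    have ha := hTO a (mem_insert a t)
    by_cases hab : ∃ n, δ n a b
    · refine ⟨a, ha, fun s hs => ?_⟩
      rcases hs with rfl | hs
      · rintro ⟨n, hn⟩
        exact h.irr n _ ha hn
      · intro h1
        exact hb' s hs (h.tra s a b (hTO s (mem_insert_of_mem a hs)) ha hb h1 hab)
    · refine ⟨b, hb, fun s hs => ?_⟩
      rcases hs with rfl | hs
      · exact hab
      · exact hb' s hs

theorem ecr_dp1 {B : Set U} {n : ℕ}
    (h1 : Dp L B (fun v : Fin 1 ⊕ Fin 1 → U => δ n (v (Sum.inl 0)) (v (Sum.inr 0)))) {s : U} (hs : s ∈ B) :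
    Dp L B (fun v : Fin 1 → U => δ n s (v 0)) := by
  have h2 : Dp L B (fun v : Fin 1 ⊕ Fin 1 → U => δ n (v (Sum.inr 0)) (v (Sum.inl 0))) :=
    dp_sub h1 (Sum.swap : Fin 1 ⊕ Fin 1 → Fin 1 ⊕ Fin 1)
  exact dp_par h2 (s1 s) (fun _ => hs)

theorem ecr_dp2 {B : Set U} {n : ℕ}
    (h1 : Dp L B (fun v : Fin 1 ⊕ Fin 1 → U => δ n (v (Sum.inl 0)) (v (Sum.inr 0)))) {s : U} (hs : s ∈ B) :
    Dp L B (fun v : Fin 1 → U => δ n (v 0) s) :=
  dp_par h1 (s1 s) (fun _ => hs)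

/-- countable sets have upper bounds -/
theorem ecr_bdd (hC : Cz L U) (h : Cpo L H z0 δ) {S : Set U} (hS : S.Countable)
    (hSO : ∀ s ∈ S, Sq L H (s1 z0) (s1 s)) :
    ∃ b, Sq L H (s1 z0) (s1 b) ∧ ∀ s ∈ S, ¬ ∃ n, δ n s b := by
  classical
  obtain ⟨D, hD, hD'⟩ := ecr_par h.dfn
  set B : Set U := (H ∪ range (s1 z0)) ∪ (S ∪ D) with hB
  have hBc : B.Countable := (h.fin.countable.union (countable_range _)).union (hS.union hD)
  obtain ⟨v, hv⟩ := sat_dp (α := Fin 1) hC hBc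
    (F := {P | (∃ E, FE L H E ∧ P = fun v : Fin 1 → U => E (s1 z0) v) ∨
      ∃ q : ℕ × U, q.2 ∈ S ∧ P = fun v : Fin 1 → U => ¬ δ q.1 q.2 (v 0)}) (by
      rintro P (⟨E, hE, rfl⟩ | ⟨q, hq, rfl⟩)
      · exact dp_mono subset_union_left (fe_def hE (s1 z0))
      · exact dp_not (ecr_dp1 (dp_mono (subset_union_right.trans subset_union_right) (hD' q.1))
          (Or.inr (Or.inl hq)))) (by
      intro G hG hfin
      have h2 : ∀ P : (Fin 1 → U) → Prop, ∃ q : ℕ × U,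
          (∃ q : ℕ × U, q.2 ∈ S ∧ P = fun v : Fin 1 → U => ¬ δ q.1 q.2 (v 0)) →
          q.2 ∈ S ∧ P = fun v : Fin 1 → U => ¬ δ q.1 q.2 (v 0) := by
        intro P
        by_cases hP : ∃ q : ℕ × U, q.2 ∈ S ∧ P = fun v : Fin 1 → U => ¬ δ q.1 q.2 (v 0)
        · obtain ⟨q, hq⟩ := hP
          exact ⟨q, fun _ => hq⟩
        · exact ⟨(0, z0), fun h' => absurd h' hP⟩
      choose q hq using h2
      obtain ⟨b, hb, hb'⟩ := ecr_max h (T := ((fun P => (q P).2) '' G) ∩ S)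
        ((hfin.image _).inter_of_left _) (fun t ht => hSO t ht.2)
      refine ⟨s1 b, fun P hP => ?_⟩
      rcases hG hP with ⟨E, hE, rfl⟩ | h3
      · exact hb E hE
      · obtain ⟨h4, h5⟩ := hq P h3
        rw [h5]
        intro h6
        exact hb' _ ⟨⟨P, hP, rfl⟩, h4⟩ ⟨_, h6⟩)
  refine ⟨v 0, fun E hE => ?_, fun s hs => ?_⟩
  · rw [s1v]
    exact hv _ (Or.inl ⟨E, hE, rfl⟩)
  · rintro ⟨n, hn⟩
    exact hv _ (Or.inr ⟨(n, s), hs, rfl⟩) hn

/-- one formula is enough above a larger element -/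
theorem ecr_w (hC : Cz L U) (h : Cpo L H z0 δ) :
    ∃ m, ∀ b, Sq L H (s1 z0) (s1 b) → ∃ w, Sq L H (s1 z0) (s1 w) ∧ ∀ y, Sq L H (s1 z0) (s1 y) →
      (¬ ∃ n, δ n w y) → δ m y b := by
  classical
  obtain ⟨ww, hww, hgt⟩ := h.ubd z0 (sq_refl H _)
  have key : ∃ m, ∀ y, Sq L H (s1 z0) (s1 y) → (¬ ∃ n, δ n ww y) → δ m y z0 := by
    by_contra hcon
    push Not at hcon
    obtain ⟨D, hD, hD'⟩ := ecr_par h.dfn
    set B : Set U := (H ∪ range (s1 z0)) ∪ ({ww} ∪ D) with hB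
    have hBc : B.Countable := (h.fin.countable.union (countable_range _)).union
      ((countable_singleton ww).union hD)
    have hD2 : ∀ n, Dp L B (fun v : Fin 1 ⊕ Fin 1 → U => δ n (v (Sum.inl 0)) (v (Sum.inr 0))) := fun n =>
      dp_mono (subset_union_right.trans subset_union_right) (hD' n)
    obtain ⟨v, hv⟩ := sat_dp (α := Fin 1) hC hBc
      (F := {P | ((∃ E, FE L H E ∧ P = fun v : Fin 1 → U => E (s1 z0) v) ∨
        ∃ k : ℕ, P = fun v : Fin 1 → U => ¬ δ k ww (v 0)) ∨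
        ∃ k : ℕ, P = fun v : Fin 1 → U => ¬ δ k (v 0) z0}) (by
        rintro P ((⟨E, hE, rfl⟩ | ⟨k, rfl⟩) | ⟨k, rfl⟩)
        · exact dp_mono subset_union_left (fe_def hE (s1 z0))
        · exact dp_not (ecr_dp1 (hD2 k) (Or.inr (Or.inl rfl)))
        · exact dp_not (ecr_dp2 (hD2 k) (Or.inl (Or.inr ⟨0, rfl⟩)))) (by
        intro G hG hfin
        have h2 : ∀ P : (Fin 1 → U) → Prop, ∃ k : ℕ,
            (∃ k : ℕ, P = fun v : Fin 1 → U => ¬ δ k (v 0) z0) → P = fun v : Fin 1 → U => ¬ δ k (v 0) z0 := by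
          intro P
          by_cases hP : ∃ k : ℕ, P = fun v : Fin 1 → U => ¬ δ k (v 0) z0
          · obtain ⟨k, hk⟩ := hP
            exact ⟨k, fun _ => hk⟩
          · exact ⟨0, fun h' => absurd h' hP⟩
        choose k hk using h2
        obtain ⟨m, hm⟩ := (hfin.image k).bddAbove
        obtain ⟨y, hy, hy1, hy2⟩ := hcon m
        refine ⟨s1 y, fun P hP => ?_⟩
        rcases hG hP with (⟨E, hE, rfl⟩ | ⟨j, rfl⟩) | h3
        · exact hy E hE
        · intro h4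
          exact hy1 j h4
        · rw [hk P h3]
          intro h4
          exact hy2 (ecr_le h (hm ⟨P, hP, rfl⟩) h4))
    have hv0 : Sq L H (s1 z0) (s1 (v 0)) := fun E hE => by
      rw [s1v]
      exact hv _ (Or.inl (Or.inl ⟨E, hE, rfl⟩))
    rcases h.neg ww (v 0) z0 hww hv0 (sq_refl H _) hgt with ⟨k, hk⟩ | ⟨k, hk⟩
    · exact hv _ (Or.inl (Or.inr ⟨k, rfl⟩)) hk
    · exact hv _ (Or.inr ⟨k, rfl⟩) hk
  obtain ⟨m, hm⟩ := key
  refine ⟨m, fun b hb => ?_⟩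
  obtain ⟨c, hc⟩ := sq_ext hC h.fin.countable hb (s1 ww)
  have hc1 : Sq L H (s1 ww) c := sq_right hc
  refine ⟨c 0, ?_, fun y hy hny => ?_⟩
  · rw [s1v]
    exact sq_trans hww hc1
  · obtain ⟨d, hd⟩ := sq_ext hC h.fin.countable (sq_symm hc) (s1 y)
    have hd0 : Sq L H (s1 y) d := sq_right hd
    have hdO : Sq L H (s1 z0) (s1 (d 0)) := by
      rw [s1v]
      exact sq_trans hy hd0
    have e1 : Sq L H (Sum.elim (s1 ww) (s1 (d 0))) (Sum.elim (s1 (c 0)) (s1 y)) := by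
      have h3 := sq_sub (sq_symm hd) (Sum.elim (fun i => Sum.inl (Sum.inr i)) Sum.inr :
        Fin 1 ⊕ Fin 1 → (Fin 1 ⊕ Fin 1) ⊕ Fin 1)
      rw [s1v d, s1v c]
      have e2 : (fun i => Sum.elim (Sum.elim (s1 z0) (s1 ww)) d
          ((Sum.elim (fun i => Sum.inl (Sum.inr i)) Sum.inr : Fin 1 ⊕ Fin 1 → (Fin 1 ⊕ Fin 1) ⊕ Fin 1) i)) =
          Sum.elim (s1 ww) d := by
        funext i
        rcases i with i | i <;> rfl
      have e3 : (fun i => Sum.elim (Sum.elim (s1 b) c) (s1 y)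
          ((Sum.elim (fun i => Sum.inl (Sum.inr i)) Sum.inr : Fin 1 ⊕ Fin 1 → (Fin 1 ⊕ Fin 1) ⊕ Fin 1) i)) =
          Sum.elim c (s1 y) := by
        funext i
        rcases i with i | i <;> rfl
      rw [e2, e3] at h3
      exact h3
    have e4 : Sq L H (Sum.elim (s1 (d 0)) (s1 z0)) (Sum.elim (s1 y) (s1 b)) := by
      have h3 := sq_sub (sq_symm hd) (Sum.elim Sum.inr (fun i => Sum.inl (Sum.inl i)) :
        Fin 1 ⊕ Fin 1 → (Fin 1 ⊕ Fin 1) ⊕ Fin 1)
      rw [s1v d]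
      have e2 : (fun i => Sum.elim (Sum.elim (s1 z0) (s1 ww)) d
          ((Sum.elim Sum.inr (fun i => Sum.inl (Sum.inl i)) : Fin 1 ⊕ Fin 1 → (Fin 1 ⊕ Fin 1) ⊕ Fin 1) i)) =
          Sum.elim d (s1 z0) := by
        funext i
        rcases i with i | i <;> rfl
      have e3 : (fun i => Sum.elim (Sum.elim (s1 b) c) (s1 y)
          ((Sum.elim Sum.inr (fun i => Sum.inl (Sum.inl i)) : Fin 1 ⊕ Fin 1 → (Fin 1 ⊕ Fin 1) ⊕ Fin 1) i)) =
          Sum.elim (s1 y) (s1 b) := by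
        funext i
        rcases i with i | i <;> rfl
      rw [e2, e3] at h3
      exact h3
    refine h.inv m _ _ _ _ e4 (hm (d 0) hdO ?_)
    rintro ⟨n, hn⟩
    exact hny ⟨n, h.inv n _ _ _ _ e1 hn⟩

/-- Case 1: the type at the upper end -/
theorem ecr_case1 (hC : Cz L U) (h : Cpo L H z0 δ)
    (hb : ∀ (n : ℕ) (u u' : Fin n → U), Sq L H u u' → ∃ b, Sq L H (s1 z0) (s1 b) ∧
      ∀ y, Sq L H (s1 z0) (s1 y) → (¬ ∃ n, δ n b y) → Sq L (H ∪ range (s1 y)) u u') :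
    ∃ r : ((Fin 1 → U) → Prop) → Prop, GT L r ∧ Inv L H r ∧ Ets L H (s1 z0) r ∧ Nal r := by
  classical
  let T : {b : U // Sq L H (s1 z0) (s1 b)} → Set U := fun b =>
    {y | Sq L H (s1 z0) (s1 y) ∧ ¬ ∃ n, δ n b.1 y}
  let f : Filter U := ⨅ b, Filter.principal (T b)
  have hne : Nonempty {b : U // Sq L H (s1 z0) (s1 b)} := ⟨⟨z0, sq_refl H _⟩⟩
  have hsub : ∀ a b : {b : U // Sq L H (s1 z0) (s1 b)}, (¬ ∃ n, δ n a.1 b.1) → T b ⊆ T a := by
    intro a b hab y hy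
    exact ⟨hy.1, ecr_nt h a.2 b.2 hy.1 hab hy.2⟩
  have hdir : Directed (· ≥ ·) (fun b => Filter.principal (T b)) := by
    intro a b
    obtain ⟨c, hc, hc'⟩ := ecr_max h (T := {a.1, b.1}) (Set.toFinite _) (by
      rintro t (rfl | rfl)
      · exact a.2
      · exact b.2)
    exact ⟨⟨c, hc⟩, Filter.principal_mono.2 (hsub a ⟨c, hc⟩ (hc' _ (Or.inl rfl))),
      Filter.principal_mono.2 (hsub b ⟨c, hc⟩ (hc' _ (Or.inr rfl)))⟩
  have hfne : f.NeBot := by
    refine Filter.iInf_neBot_of_directed' hdir fun b => ?_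
    rw [Filter.principal_neBot_iff]
    refine ⟨b.1, b.2, ?_⟩
    rintro ⟨n, hn⟩
    exact h.irr n _ b.2 hn
  let W : Ultrafilter U := @Ultrafilter.of U f hfne
  have hW : ∀ b, T b ∈ W := by
    intro b
    have h1 : T b ∈ f := Filter.mem_iInf_of_mem b (Filter.mem_principal_self _)
    exact (@Ultrafilter.of_le U f hfne) h1
  refine ⟨fun P => Dp L (univ : Set U) P ∧ {y | P (s1 y)} ∈ W, ⟨fun P hP => hP.1, ?_, ?_, ?_⟩, ?_, ?_, ?_⟩
  · rintro P ⟨-, hP⟩
    obtain ⟨y, hy⟩ := W.nonempty_of_mem hP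
    exact ⟨s1 y, hy⟩
  · rintro P Q ⟨hP, hP'⟩ ⟨hQ, hQ'⟩
    exact ⟨dp_and hP hQ, Filter.inter_mem hP' hQ'⟩
  · intro P hP
    rcases W.mem_or_compl_mem {y | P (s1 y)} with h1 | h1
    · exact Or.inl ⟨hP, h1⟩
    · exact Or.inr ⟨dp_not hP, h1⟩
  · rintro n P hP c c' hcc ⟨-, h1⟩
    refine ⟨dp_par (dp_mono (subset_univ _) hP) c' (fun _ => mem_univ _), ?_⟩
    obtain ⟨b, hbO, hb'⟩ := hb n c c' hcc
    filter_upwards [h1, hW ⟨b, hbO⟩] with y hy hy'
    have h2 := hb' y hy'.1 hy'.2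
    have h3 : Dp L (H ∪ range (s1 y)) (fun v : Fin n → U => P (Sum.elim (s1 y) v)) := by
      have h4 : Dp L (H ∪ range (s1 y)) (fun v : Fin n ⊕ Fin 1 → U => P (fun i => v (Sum.swap i))) :=
        dp_mono subset_union_left (dp_sub hP (Sum.swap : Fin 1 ⊕ Fin n → Fin n ⊕ Fin 1))
      have h5 := dp_par h4 (s1 y) (fun i => Or.inr ⟨i, rfl⟩)
      refine dp_congr h5 fun v => iff_of_eq ?_
      congr 1
      funext i
      rcases i with i | i <;> rfl
    exact (sq_dp h2 h3).1 hy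
  · intro E hE
    refine ⟨dp_mono (subset_univ _) (fe_cls hE (s1 z0)), ?_⟩
    filter_upwards [hW ⟨z0, sq_refl H _⟩] with y hy
    exact hE.eqv.symm (hy.1 E hE)
  · rintro u ⟨-, hu⟩
    have h1 : ∀ b, Sq L H (s1 z0) (s1 b) → Sq L H (s1 z0) (s1 u) ∧ ¬ ∃ n, δ n b u := by
      intro b hbO
      obtain ⟨y, hy, hy'⟩ := W.nonempty_of_mem (Filter.inter_mem hu (hW ⟨b, hbO⟩))
      have e : y = u := hy
      rw [e] at hy'
      exact hy'
    obtain ⟨y, hy, hy'⟩ := h.ubd u (h1 z0 (sq_refl H _)).1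
    exact (h1 y hy).2 hy'

/-- the families over `H` -/
def Fml (L : FirstOrder.Language.{0, 0}) {U : Type} [L.Structure U] (H : Set U) {n : ℕ}
    (F : (Fin 1 → U) → (Fin n → U) → (Fin n → U) → Prop) : Prop :=
  Dp L H (fun v : (Fin n ⊕ Fin n) ⊕ Fin 1 → U =>
    F (fun i => v (Sum.inr i)) (fun i => v (Sum.inl (Sum.inl i))) (fun i => v (Sum.inl (Sum.inr i)))) ∧
  ∀ y, FE L (H ∪ range y) (F y)

theorem fml_cnt (hC : Cz L U) (hH : H.Finite) (n : ℕ) :
    {F : (Fin 1 → U) → (Fin n → U) → (Fin n → U) → Prop | Fml L H F}.Countable := by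
  have h1 := dp_cnt (α := (Fin n ⊕ Fin n) ⊕ Fin 1) hC hH.countable
  refine (h1.image (fun (Q : ((Fin n ⊕ Fin n) ⊕ Fin 1 → U) → Prop) (y : Fin 1 → U) (x x' : Fin n → U) =>
    Q (Sum.elim (Sum.elim x x') y))).mono ?_
  intro F hF
  exact ⟨_, hF.1, rfl⟩

/-- transfer of a family -/
theorem fml_sq {n : ℕ} {F : (Fin 1 → U) → (Fin n → U) → (Fin n → U) → Prop} (hF : Fml L H F)
    {x x' w w' : Fin n → U} {y y' : Fin 1 → U}
    (h : Sq L H (Sum.elim (Sum.elim x x') y) (Sum.elim (Sum.elim w w') y')) : F y x x' ↔ F y' w w' :=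
  sq_dp h hF.1

/-- the number of classes of a family is the same everywhere on a strong type -/
theorem fml_num (hC : Cz L U) (hH : H.Finite) {n : ℕ} {F : (Fin 1 → U) → (Fin n → U) → (Fin n → U) → Prop}
    (hF : Fml L H F) : ∃ K, ∀ y, Sq L H (s1 z0) (s1 y) → ∀ t : Fin (K + 1) → (Fin n → U),
      ∃ i j, i < j ∧ F (s1 y) (t i) (t j) := by
  obtain ⟨K, hK⟩ := fe_num (hF.2 (s1 z0))
  refine ⟨K, fun y hy t => ?_⟩
  obtain ⟨c, hc⟩ := sq_ext hC hH.countable (sq_symm hy) (fun p : Fin (K + 1) × Fin n => t p.1 p.2)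
  obtain ⟨i, j, hij, h1⟩ := hK (fun i a => c (i, a))
  refine ⟨i, j, hij, ?_⟩
  have h2 := sq_sub hc (Sum.elim (Sum.elim (fun a => Sum.inr (i, a)) (fun a => Sum.inr (j, a))) Sum.inl :
    (Fin n ⊕ Fin n) ⊕ Fin 1 → Fin 1 ⊕ (Fin (K + 1) × Fin n))
  refine (fml_sq hF (x := t i) (x' := t j) (w := fun a => c (i, a)) (w' := fun a => c (j, a))
    (y := s1 y) (y' := s1 z0) ?_).2 h1
  have e1 : (fun v => Sum.elim (s1 y) (fun p : Fin (K + 1) × Fin n => t p.1 p.2)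
      ((Sum.elim (Sum.elim (fun a => Sum.inr (i, a)) (fun a => Sum.inr (j, a))) Sum.inl :
        (Fin n ⊕ Fin n) ⊕ Fin 1 → Fin 1 ⊕ (Fin (K + 1) × Fin n)) v)) =
      Sum.elim (Sum.elim (t i) (t j)) (s1 y) := by
    funext v
    rcases v with (v | v) | v <;> rfl
  have e2 : (fun v => Sum.elim (s1 z0) c
      ((Sum.elim (Sum.elim (fun a => Sum.inr (i, a)) (fun a => Sum.inr (j, a))) Sum.inl :
        (Fin n ⊕ Fin n) ⊕ Fin 1 → Fin 1 ⊕ (Fin (K + 1) × Fin n)) v)) =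
      Sum.elim (Sum.elim (fun a => c (i, a)) (fun a => c (j, a))) (s1 z0) := by
    funext v
    rcases v with (v | v) | v <;> rfl
  rw [e1, e2] at h2
  exact h2

/-- Case 2, first step: one family -/
theorem ecr_fam (hC : Cz L U) (h : Cpo L H z0 δ) {n : ℕ} {u u' : Fin n → U}
    (hb : ∀ b, Sq L H (s1 z0) (s1 b) → ∃ y, Sq L H (s1 z0) (s1 y) ∧ (¬ ∃ n, δ n b y) ∧
      ¬ Sq L (H ∪ range (s1 y)) u u') :
    ∃ F : (Fin 1 → U) → (Fin n → U) → (Fin n → U) → Prop, Fml L H F ∧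
      ∀ b, Sq L H (s1 z0) (s1 b) → ∃ y, Sq L H (s1 z0) (s1 y) ∧ (¬ ∃ n, δ n b y) ∧ ¬ F (s1 y) u u' := by
  classical
  by_contra hcon
  push Not at hcon
  have h1 : ∀ F : (Fin 1 → U) → (Fin n → U) → (Fin n → U) → Prop, ∃ b, Sq L H (s1 z0) (s1 b) ∧
      (Fml L H F → ∀ y, Sq L H (s1 z0) (s1 y) → (¬ ∃ n, δ n b y) → F (s1 y) u u') := by
    intro F
    by_cases hF : Fml L H F
    · obtain ⟨b, hbO, hb'⟩ := hcon F hF
      exact ⟨b, hbO, fun _ y hy hny => hb' y hy fun n hn => hny ⟨n, hn⟩⟩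
    · exact ⟨z0, sq_refl H _, fun h' => absurd h' hF⟩
  choose b hbO hb' using h1
  obtain ⟨c, hc, hc'⟩ := ecr_bdd hC h (S := b '' {F | Fml L H F}) ((fml_cnt hC h.fin n).image b) (by
    rintro _ ⟨F, _, rfl⟩
    exact hbO F)
  obtain ⟨y, hy, hny, hs⟩ := hb c hc
  refine hs fun E hE => ?_
  obtain ⟨F, hF1, hF2, hF3⟩ := thm_FAM L U hC (Fin n) (Fin 1) H (s1 y) E hE
  have hF : Fml L H F := ⟨hF1, hF2⟩
  exact (hF3 u u').1 (hb' F hF y hy (ecr_nt h (hbO F) hc hy (hc' _ ⟨F, hF, rfl⟩) hny))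

/-- Case 2, second step: infinitely many germs -/
theorem ecr_germ (hC : Cz L U) (h : Cpo L H z0 δ) {n : ℕ} {u u' : Fin n → U} (huu : Sq L H u u')
    {F : (Fin 1 → U) → (Fin n → U) → (Fin n → U) → Prop} (hF : Fml L H F)
    (hb : ∀ b, Sq L H (s1 z0) (s1 b) → ∃ y, Sq L H (s1 z0) (s1 y) ∧ (¬ ∃ n, δ n b y) ∧ ¬ F (s1 y) u u') :
    ∃ z : ℕ → (Fin n → U), ∀ i j, i < j → ∀ b, Sq L H (s1 z0) (s1 b) → ∃ y, Sq L H (s1 z0) (s1 y) ∧
      (¬ ∃ n, δ n b y) ∧ ¬ F (s1 y) (z i) (z j) := by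
  classical
  let R : (Fin n → U) → (Fin n → U) → Prop := fun x x' => ∃ b, Sq L H (s1 z0) (s1 b) ∧
    ∀ y, Sq L H (s1 z0) (s1 y) → (¬ ∃ n, δ n b y) → F (s1 y) x x'
  have hs : ∀ x y, Sq L H u x → Sq L H u y → R x y → R y x := by
    rintro x y _ _ ⟨b, hbO, hb'⟩
    exact ⟨b, hbO, fun v hv hv' => (hF.2 (s1 v)).eqv.symm (hb' v hv hv')⟩
  have ht : ∀ x y z, Sq L H u x → Sq L H u y → Sq L H u z → R x y → R y z → R x z := by
    rintro x y z _ _ _ ⟨b, hbO, hb'⟩ ⟨c, hcO, hc'⟩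
    obtain ⟨d, hdO, hd'⟩ := ecr_max h (T := {b, c}) (Set.toFinite _) (by
      rintro t (rfl | rfl)
      · exact hbO
      · exact hcO)
    exact ⟨d, hdO, fun v hv hv' => (hF.2 (s1 v)).eqv.trans
      (hb' v hv (ecr_nt h hbO hdO hv (hd' _ (Or.inl rfl)) hv'))
      (hc' v hv (ecr_nt h hcO hdO hv (hd' _ (Or.inr rfl)) hv'))⟩
  have hi : ∀ x y x' y', Sq L H u x → Sq L H u y → Sq L H (Sum.elim x y) (Sum.elim x' y') →
      R x y → R x' y' := by
    rintro x y x' y' _ _ hq ⟨b, hbO, hb'⟩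
    obtain ⟨c, hc⟩ := sq_ext hC h.fin.countable hq (s1 b)
    have hcb : Sq L H (s1 b) c := sq_right hc
    refine ⟨c 0, ?_, fun v hv hv' => ?_⟩
    · rw [s1v]
      exact sq_trans hbO hcb
    · obtain ⟨d, hd⟩ := sq_ext hC h.fin.countable (sq_symm hc) (s1 v)
      have hvd : Sq L H (s1 v) d := sq_right hd
      have hdO : Sq L H (s1 z0) (s1 (d 0)) := by
        rw [s1v]
        exact sq_trans hv hvd
      have e1 : Sq L H (Sum.elim (s1 b) (s1 (d 0))) (Sum.elim (s1 (c 0)) (s1 v)) := by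
        have h3 := sq_sub (sq_symm hd) (Sum.elim (fun i => Sum.inl (Sum.inr i)) Sum.inr :
          Fin 1 ⊕ Fin 1 → ((Fin n ⊕ Fin n) ⊕ Fin 1) ⊕ Fin 1)
        rw [s1v d, s1v c]
        have e2 : (fun i => Sum.elim (Sum.elim (Sum.elim x y) (s1 b)) d
            ((Sum.elim (fun i => Sum.inl (Sum.inr i)) Sum.inr :
              Fin 1 ⊕ Fin 1 → ((Fin n ⊕ Fin n) ⊕ Fin 1) ⊕ Fin 1) i)) = Sum.elim (s1 b) d := by
          funext i
          rcases i with i | i <;> rfl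
        have e3 : (fun i => Sum.elim (Sum.elim (Sum.elim x' y') c) (s1 v)
            ((Sum.elim (fun i => Sum.inl (Sum.inr i)) Sum.inr :
              Fin 1 ⊕ Fin 1 → ((Fin n ⊕ Fin n) ⊕ Fin 1) ⊕ Fin 1) i)) = Sum.elim c (s1 v) := by
          funext i
          rcases i with i | i <;> rfl
        rw [e2, e3] at h3
        exact h3
      have e4 : Sq L H (Sum.elim (Sum.elim x' y') (s1 v)) (Sum.elim (Sum.elim x y) (s1 (d 0))) := by
        have h3 := sq_sub hd (Sum.elim (fun i => Sum.inl (Sum.inl i)) Sum.inr :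
          (Fin n ⊕ Fin n) ⊕ Fin 1 → ((Fin n ⊕ Fin n) ⊕ Fin 1) ⊕ Fin 1)
        rw [s1v d]
        have e2 : (fun i => Sum.elim (Sum.elim (Sum.elim x y) (s1 b)) d
            ((Sum.elim (fun i => Sum.inl (Sum.inl i)) Sum.inr :
              (Fin n ⊕ Fin n) ⊕ Fin 1 → ((Fin n ⊕ Fin n) ⊕ Fin 1) ⊕ Fin 1) i)) =
            Sum.elim (Sum.elim x y) d := by
          funext i
          rcases i with (i | i) | i <;> rfl
        have e3 : (fun i => Sum.elim (Sum.elim (Sum.elim x' y') c) (s1 v)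
            ((Sum.elim (fun i => Sum.inl (Sum.inl i)) Sum.inr :
              (Fin n ⊕ Fin n) ⊕ Fin 1 → ((Fin n ⊕ Fin n) ⊕ Fin 1) ⊕ Fin 1) i)) =
            Sum.elim (Sum.elim x' y') (s1 v) := by
          funext i
          rcases i with (i | i) | i <;> rfl
        rw [e2, e3] at h3
        exact h3
      refine (fml_sq hF e4).2 (hb' (d 0) hdO ?_)
      rintro ⟨k, hk⟩
      exact hv' ⟨k, h.inv k _ _ _ _ e1 hk⟩
  have hnot : ¬ R u u' := by
    rintro ⟨b, hbO, hb'⟩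
    obtain ⟨y, hy, hny, hy'⟩ := hb b hbO
    exact hy' (hb' y hy hny)
  have hmany : ∀ k : ℕ, ∃ z : Fin (k + 1) → (Fin n → U), (∀ i, Sq L H u (z i)) ∧
      ∀ i j, i < j → ¬ R (z i) (z j) := by
    intro k
    by_contra hcon
    push Not at hcon
    exact hnot (bnd hC h.fin u R hs ht hi k hcon u u' (sq_refl H u) huu)
  obtain ⟨z, hz, hz'⟩ := exists_seq_of_forall_finset_exists (fun x : Fin n → U => Sq L H u x)
    (fun x x' => ¬ R x x') (by
      intro s hs'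
      obtain ⟨w, hw, hw'⟩ := hmany s.card
      by_contra hcon
      push Not at hcon
      have h1 : ∀ i, ∃ x ∈ s, R x (w i) := by
        intro i
        exact hcon (w i) (hw i)
      choose g hg hg' using h1
      obtain ⟨i, j, hij, hgij⟩ : ∃ i j, i ≠ j ∧ g i = g j := by
        by_contra hcon2
        push Not at hcon2
        have hinj : Function.Injective g := fun i j h' => by
          by_contra hne
          exact hcon2 i j hne h'
        have h2 := Finset.card_le_card_of_injOn g (s := Finset.univ) (t := s)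
          (fun i _ => hg i) (hinj.injOn)
        rw [Finset.card_univ, Fintype.card_fin] at h2
        omega
      rcases lt_or_gt_of_ne hij with hlt | hlt
      · exact hw' i j hlt (ht _ _ _ (hw i) (hs' _ (hg i)) (hw j)
          (hs _ _ (hs' _ (hg i)) (hw i) (hg' i)) (by rw [hgij]; exact hg' j))
      · exact hw' j i hlt (ht _ _ _ (hw j) (hs' _ (hg j)) (hw i)
          (hs _ _ (hs' _ (hg j)) (hw j) (hg' j)) (by rw [← hgij]; exact hg' i)))
  refine ⟨z, fun i j hij b hbO => ?_⟩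
  by_contra hcon
  push Not at hcon
  exact hz' i j hij ⟨b, hbO, fun y hy hny => hcon y hy fun k hk => hny ⟨k, hk⟩⟩

/-- Case 2, third step: the array -/
theorem ecr_array (hC : Cz L U) (h : Cpo L H z0 δ) {n : ℕ}
    {F : (Fin 1 → U) → (Fin n → U) → (Fin n → U) → Prop} (hF : Fml L H F) {z : ℕ → (Fin n → U)}
    (hz : ∀ i j, i < j → ∀ b, Sq L H (s1 z0) (s1 b) → ∃ y, Sq L H (s1 z0) (s1 y) ∧
      (¬ ∃ n, δ n b y) ∧ ¬ F (s1 y) (z i) (z j)) : False := by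
  classical
  obtain ⟨m, hm⟩ := ecr_w hC h
  have hW : ∀ b : {b : U // Sq L H (s1 z0) (s1 b)}, ∃ w : {b : U // Sq L H (s1 z0) (s1 b)},
      ∀ y, Sq L H (s1 z0) (s1 y) → (¬ ∃ n, δ n w.1 y) → δ m y b.1 := by
    rintro ⟨b, hb⟩
    obtain ⟨w, hw, hw'⟩ := hm b hb
    exact ⟨⟨w, hw⟩, hw'⟩
  choose W hW using hW
  have hY : ∀ (b : {b : U // Sq L H (s1 z0) (s1 b)}) (i j : ℕ),
      ∃ y : {b : U // Sq L H (s1 z0) (s1 b)}, i < j →
      (¬ ∃ n, δ n (W b).1 y.1) ∧ ¬ F (s1 y.1) (z i) (z j) := by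
    intro b i j
    by_cases hij : i < j
    · obtain ⟨y, hy, hy', hy''⟩ := hz i j hij (W b).1 (W b).2
      exact ⟨⟨y, hy⟩, fun _ => ⟨hy', hy''⟩⟩
    · exact ⟨b, fun h' => absurd h' hij⟩
  choose Y hY using hY
  have hX : ∀ b : {b : U // Sq L H (s1 z0) (s1 b)}, ∃ c : {b : U // Sq L H (s1 z0) (s1 b)},
      ∀ i j, ¬ ∃ n, δ n (Y b i j).1 c.1 := by
    intro b
    obtain ⟨c, hc, hc'⟩ := ecr_bdd hC h (S := range (fun p : ℕ × ℕ => (Y b p.1 p.2).1))
      (countable_range _) (by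
        rintro _ ⟨p, rfl⟩
        exact (Y b p.1 p.2).2)
    exact ⟨⟨c, hc⟩, fun i j => hc' _ ⟨(i, j), rfl⟩⟩
  choose X hX using hX
  let bs : ℕ → {b : U // Sq L H (s1 z0) (s1 b)} := fun l => Nat.rec ⟨z0, sq_refl H _⟩ (fun _ b => X b) l
  have hbs : ∀ l, bs (l + 1) = X (bs l) := fun l => rfl
  have hirr : ∀ b : {b : U // Sq L H (s1 z0) (s1 b)}, ¬ ∃ n, δ n b.1 b.1 := by
    rintro b ⟨k, hk⟩
    exact h.irr k _ b.2 hk
  -- (a)
  have ha : ∀ (b : {b : U // Sq L H (s1 z0) (s1 b)}) (i j : ℕ), i < j → δ m (Y b i j).1 b.1 :=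
    fun b i j hij => hW b _ (Y b i j).2 (hY b i j hij).1
  -- (b)
  have hb : ∀ b : {b : U // Sq L H (s1 z0) (s1 b)}, ¬ ∃ n, δ n b.1 (X b).1 := by
    intro b h1
    exact hX b 0 1 (h.tra _ b.1 _ (Y b 0 1).2 b.2 (X b).2 ⟨m, ha b 0 1 (by norm_num)⟩ h1)
  -- (c)
  have hc : ∀ l l', l ≤ l' → ¬ ∃ n, δ n (bs l).1 (bs l').1 := by
    intro l l' hll
    induction hll with
    | refl => exact hirr _
    | step _ ih => exact ecr_nt h (bs l).2 (bs _).2 (X _).2 ih (hb _)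
  -- (d)
  have hd : ∀ l l' i j, l < l' → ¬ ∃ n, δ n (Y (bs l) i j).1 (bs l').1 := fun l l' i j hll =>
    ecr_nt h (Y (bs l) i j).2 (bs (l + 1)).2 (bs l').2 (hX (bs l) i j) (hc (l + 1) l' hll)
  -- (e)
  have he : ∀ l l' i j, i < j → l' ≤ l → δ m (Y (bs l) i j).1 (bs l').1 := by
    intro l l' i j hij hll
    rcases hll.eq_or_lt with rfl | hlt
    · exact ha _ i j hij
    · refine hW (bs l') _ (Y (bs l) i j).2 ?_
      have h1 : ¬ ∃ n, δ n (bs l).1 (Y (bs l) i j).1 := fun h2 =>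
        hirr (bs l) (h.tra _ (Y (bs l) i j).1 _ (bs l).2 (Y (bs l) i j).2 (bs l).2 h2 ⟨m, ha _ i j hij⟩)
      exact ecr_nt h (W (bs l')).2 (Y (bs l') 0 1).2 (Y (bs l) i j).2 (hY (bs l') 0 1 (by norm_num)).1
        (ecr_nt h (Y (bs l') 0 1).2 (bs l).2 (Y (bs l) i j).2 (hd l' l 0 1 hlt) h1)
  -- the size of the array
  obtain ⟨D, hD1, -, hD2⟩ := dp_fin (h.dfn m)
  obtain ⟨N, hN⟩ := thm_CDP L U hC (Fin n ⊕ Fin n) (Fin 1 ⊕ Fin 1) (H ∪ D)
    (fun x y c => (¬ F (s1 c) (fun i => x (Sum.inl i)) (fun i => x (Sum.inr i))) ∧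
      δ m c (y (Sum.inl 0)) ∧ ¬ δ m c (y (Sum.inr 0))) (h.fin.union hD1) (by
      refine dp_and (dp_not ?_) (dp_and ?_ (dp_not ?_))
      · have h1 := dp_sub (dp_mono (subset_union_left (t := D)) hF.1)
          (Sum.elim (fun i => Sum.inl (Sum.inl i)) (fun _ => Sum.inr ()) :
            (Fin n ⊕ Fin n) ⊕ Fin 1 → ((Fin n ⊕ Fin n) ⊕ (Fin 1 ⊕ Fin 1)) ⊕ Unit)
        exact dp_congr h1 fun v => Iff.rfl
      · have h1 := dp_sub (dp_mono (subset_union_right (s := H)) hD2)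
          (Sum.elim (fun _ => Sum.inr ()) (fun i => Sum.inl (Sum.inr (Sum.inl i))) :
            Fin 1 ⊕ Fin 1 → ((Fin n ⊕ Fin n) ⊕ (Fin 1 ⊕ Fin 1)) ⊕ Unit)
        exact dp_congr h1 fun v => Iff.rfl
      · have h1 := dp_sub (dp_mono (subset_union_right (s := H)) hD2)
          (Sum.elim (fun _ => Sum.inr ()) (fun i => Sum.inl (Sum.inr (Sum.inr i))) :
            Fin 1 ⊕ Fin 1 → ((Fin n ⊕ Fin n) ⊕ (Fin 1 ⊕ Fin 1)) ⊕ Unit)
        exact dp_congr h1 fun v => Iff.rfl)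
  obtain ⟨K, hK⟩ := fml_num (z0 := z0) hC h.fin hF
  obtain ⟨φ, κ, hφ, hκ⟩ := ecr_ramsey 4 (fun (v : Fin 4 → ℕ) (l : Fin N) =>
    ((F (s1 (Y (bs l) (v 0) (v 1)).1) (z (v 2)) (z (v 3)) : Prop),
      (F (s1 (Y (bs l) (v 2) (v 3)).1) (z (v 0)) (z (v 1)) : Prop)))
  have hmono : ∀ a b c d : ℕ, a < b → b < c → c < d → StrictMono ![a, b, c, d] := by
    intro a b c d h1 h2 h3
    rw [Fin.strictMono_iff_lt_succ]
    intro i
    fin_cases i
    · exact h1
    · exact h2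
    · exact h3
  have hcol : ∀ (a b c d : ℕ) (l : Fin N), a < b → b < c → c < d →
      (F (s1 (Y (bs l) (φ a) (φ b)).1) (z (φ c)) (z (φ d)) ↔ (κ l).1) ∧
      (F (s1 (Y (bs l) (φ c) (φ d)).1) (z (φ a)) (z (φ b)) ↔ (κ l).2) := by
    intro a b c d l h1 h2 h3
    have h4 := congrFun (hκ ![a, b, c, d] (hmono a b c d h1 h2 h3)) l
    exact ⟨iff_of_eq (congrArg Prod.fst h4), iff_of_eq (congrArg Prod.snd h4)⟩
  have hκ1 : ∀ l : Fin N, (κ l).1 := by
    intro l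
    obtain ⟨i, j, hij, h1⟩ := hK (Y (bs l) (φ 0) (φ 1)).1 (Y (bs l) (φ 0) (φ 1)).2
      (fun i : Fin (K + 1) => z (φ (2 + i)))
    exact (hcol 0 1 (2 + i) (2 + j) l (by norm_num) (by omega) (by have := Fin.lt_def.1 hij; omega)).1.1 h1
  have hκ2 : ∀ l : Fin N, (κ l).2 := by
    intro l
    obtain ⟨i, j, hij, h1⟩ := hK (Y (bs l) (φ (K + 1)) (φ (K + 2))).1 (Y (bs l) (φ (K + 1)) (φ (K + 2))).2
      (fun i : Fin (K + 1) => z (φ i))
    exact (hcol i j (K + 1) (K + 2) l (Fin.lt_def.1 hij) (by have := j.2; omega) (by omega)).2.1 h1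
  refine hN ⟨fun a => Sum.elim (z (φ (2 * a))) (z (φ (2 * a + 1))),
    fun b => Sum.elim (s1 (bs b).1) (s1 (bs (b + 1)).1),
    fun a b => (Y (bs b) (φ (2 * a)) (φ (2 * a + 1))).1, fun i j a b => ?_⟩
  show (¬ F (s1 (Y (bs b) (φ (2 * a)) (φ (2 * a + 1))).1) (z (φ (2 * i))) (z (φ (2 * i + 1)))) ∧
    δ m (Y (bs b) (φ (2 * a)) (φ (2 * a + 1))).1 (bs j).1 ∧
    ¬ δ m (Y (bs b) (φ (2 * a)) (φ (2 * a + 1))).1 (bs (j + 1)).1 ↔ i = a ∧ j = b
  have hφa : φ (2 * a) < φ (2 * a + 1) := hφ (by omega)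
  constructor
  · rintro ⟨h1, h2, h3⟩
    have hia : i = a := by
      by_contra hne
      rcases lt_or_gt_of_ne hne with hlt | hlt
      · refine h1 ((hcol (2 * i) (2 * i + 1) (2 * a) (2 * a + 1) b (by omega) ?_ (by omega)).2.2 (hκ2 b))
        have := Fin.lt_def.1 hlt
        omega
      · refine h1 ((hcol (2 * a) (2 * a + 1) (2 * i) (2 * i + 1) b (by omega) ?_ (by omega)).1.2 (hκ1 b))
        have := Fin.lt_def.1 hlt
        omega
    refine ⟨hia, ?_⟩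
    have h4 : (j : ℕ) ≤ b := by
      by_contra hcon
      exact hd b j _ _ (not_le.1 hcon) ⟨m, h2⟩
    have h5 : ¬ ((j : ℕ) + 1 ≤ b) := fun h6 => h3 (he b (j + 1) _ _ hφa h6)
    exact Fin.ext (by omega)
  · rintro ⟨rfl, rfl⟩
    exact ⟨(hY (bs j) _ _ hφa).2, he j j _ _ hφa le_rfl, fun h6 => hd j (j + 1) _ _ (Nat.lt_succ_self _) ⟨m, h6⟩⟩

end

/-- [ECR] a closed preorder without a maximum on a strong type gives an end -/
theorem thm_ECR : St_ECR := by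
  intro L U _ hC H z0 δ h
  by_cases hb : ∀ (n : ℕ) (u u' : Fin n → U), Sq L H u u' → ∃ b, Sq L H (s1 z0) (s1 b) ∧
      ∀ y, Sq L H (s1 z0) (s1 y) → (¬ ∃ n, δ n b y) → Sq L (H ∪ range (s1 y)) u u'
  · exact ecr_case1 hC h hb
  · exfalso
    push Not at hb
    obtain ⟨n, u, u', huu, hb⟩ := hb
    obtain ⟨F, hF, hF'⟩ := ecr_fam hC h (u := u) (u' := u') (fun b hbO => by
      obtain ⟨y, hy, hny, hs⟩ := hb b hbO
      exact ⟨y, hy, fun ⟨k, hk⟩ => hny k hk, hs⟩)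
    obtain ⟨z, hz⟩ := ecr_germ hC h huu hF hF'
    exact ecr_array hC h hF hz

end Pool.Agent.TPY
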