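import Pool.Agent.TPY.StL

/-!
# TPY/StM2 (helper26): uniqueness of the big piece, no nested pairs, indiscernible facing sequences contain bad tuples

`hB : Bg L A₀ big`; all bases contain `A₀` and are finite.  `P = Pc F z` a big piece over `F`.  A finite `W` is GOOD if
`big (F ∪ W) y` for some `y ∈ P`; by M1T the piece `Pc (F ∪ W) y` is then unique: `e(W)`.
Files: module XXX is `Pool/Agent/TPY/XXX.lean`, `theorem thm_XXX (hAAA : St_AAA) .. : St_XXX`.  From StM1 (helper45): UBD, PRV, NP.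
-/

set_option autoImplicit false
set_option linter.unusedVariables false

namespace Pool.Agent.TPY

open FirstOrder.Language Set
open scoped FirstOrder
open Pool.Agent.MNO (Dp FE Sq Exa)

/-- [M1] at most one big piece over `F x` inside a piece over `F` which contains `x`.
HYPS: UBD, PRV, NP (StM1), BNI, IDS, IDB, HNG (StI).
PROOF.  Suppose `e ∉ Pc (Fx) d`; `D₁ = Pc (Fx) d`, `D₂ = Pc (Fx) e` are different big pieces, inside `P = Pc F d`.
Triples `t = (x, d, e)`; for a triple `t' =* t` over `F` let `D₁(t')`, `D₂(t')` be the corresponding pieces (invariant functions of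
the triple).  (a) `R t' t'' := D₁(t') = D₁(t'')` is an invariant equivalence relation on the strong type of `t`, not trivial
(UBD: otherwise `D₁` is in `BF F`, but `x ∈ P - D₁`).  BNI: an `F`-indiscernible `(t_q)`, `t_q = (x_q, d_q, e_q) =* t`, with the
`D₁(t_q)` pairwise different.  `x_p ∈ D₁(t_q)` for all `p ≠ q`: by IDS this depends only on the sign of `p - q`; not for both
signs false (PRV); not for exactly one sign true (NP for `t` resp. for the reversed sequence).  So `x_p ∉ D₂(t_q)` for `p ≠ q`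
(`D₁(t_q)`, `D₂(t_q)` are disjoint) and `D₂(t_q)` does not depend on `q` (otherwise PRV for `D₂`: if `D₂(t_0) ≠ D₂(t_1)`).
(b) The same with `1`, `2` exchanged: `(s_q)`, `D₁(s_q)` constant, `x(s_p) ∈ D₂(s_q)` for `p ≠ q`.  Put
`a := s_1`, moved by `sq_ext` so that `s_0 = t_0`: a triple `a` with `Sq F (t_0, a) (s_0, s_1)`: `D₁(a) = D₁(t_0)`,
`x(a) ∈ D₂(t_0)`.  (c) HNG (`k = 1`): an `F`-indiscernible `v_q = (t'_q, a_q)` with `Sq F (t'_q, a_q) (t_0, a)`, `(t'_q)` like `(t_q)`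
on increasing tuples.  So for `p ≠ q`: `x(a_p) ∈ D₂(t'_p) = D₂(t'_q)`, disjoint from `D₁(t'_q) = D₁(a_q)`; and
`D₁(a_0) ≠ D₁(a_1)`: PRV for the pairs `(x(a_q), d(a_q))`: not big.  Contradiction. -/
def St_M1 : Prop :=
  ∀ (L : FirstOrder.Language.{0, 0}) (U : Type) [L.Structure U], Cz L U →
    ∀ (A₀ : Set U) (big : Set U → U → Prop), Bg L A₀ big →
    ∀ (F : Set U) (x d e : U), A₀ ⊆ F → F.Finite → x ∈ Pc L F d → e ∈ Pc L F d →
    big (insert x F) d → big (insert x F) e → e ∈ Pc L (insert x F) d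

/-- [M1T] uniqueness over all finite bases.
HYPS: M1.
PROOF.  Induction on the number of elements of `C \ B`.  `C = insert x C'`, `B ⊆ C'`, `x ∉ C'`: `big C' y`, `big C' y'`
(`b4`), so `y' ∈ Pc C' y`.  If `x ∈ Pc C' y`: M1 over `C'`.  Otherwise `Pc (insert x C') y = Pc C' y` (`nnl1`, `b0`). -/
def St_M1T : Prop :=
  ∀ (L : FirstOrder.Language.{0, 0}) (U : Type) [L.Structure U], Cz L U →
    ∀ (A₀ : Set U) (big : Set U → U → Prop), Bg L A₀ big →
    ∀ (B C : Set U) (y y' : U), A₀ ⊆ B → B ⊆ C → C.Finite → y' ∈ Pc L B y → big C y → big C y' →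
    y' ∈ Pc L C y

/-- [CAL] calculus of good sets: (1) monotone; (2) `W ∩ e(u) = ∅`: `e(u W) = e(u)`, `W` is good, `e(u) ⊆ e(W)`;
(3) `x'` not in `e(x)`, `x` not in `e(x')`: `e(x) = e(x')`; (4) the parameters are not in `e`.
HYPS: M1T.
PROOF.  (1) `b4`, `pc`.  (2) `b5`, `nnl'`, `b4`, `pc_mono`.  (3) by (2) both are big over `F x x'`, and pieces over it; M1T.
(4) `par_notMem`, `b0`. -/
def St_CAL : Prop :=
  ∀ (L : FirstOrder.Language.{0, 0}) (U : Type) [L.Structure U], Cz L U →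
    ∀ (A₀ : Set U) (big : Set U → U → Prop), Bg L A₀ big →
    (∀ (B C : Set U) (y y' : U), A₀ ⊆ B → B ⊆ C → C.Finite → y' ∈ Pc L B y → big C y' → big B y) ∧
    (∀ (B C : Set U) (y : U), A₀ ⊆ B → B.Finite → A₀ ⊆ C → C.Finite → big B y → (∀ w ∈ C, w ∉ Pc L B y) →
      big (B ∪ C) y ∧ Pc L (B ∪ C) y = Pc L B y ∧ big C y ∧ Pc L B y ⊆ Pc L C y) ∧
    (∀ (F : Set U) (x x' y y' : U), A₀ ⊆ F → F.Finite → y' ∈ Pc L F y → big (insert x F) y →
      big (insert x' F) y' → x' ∉ Pc L (insert x F) y → x ∉ Pc L (insert x' F) y' →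
      Pc L (insert x F) y = Pc L (insert x' F) y') ∧
    ∀ (B : Set U) (y w : U), A₀ ⊆ B → B.Finite → big B y → w ∈ B → w ∉ Pc L B y

/-- [NN] **no nested pairs**: two conjugate elements of a big piece have the same `e` or are facing.
HYPS: M1T, CAL, NP (StM1), OPD (StL), EXT, IDS, IDB (StI).
PROOF.  By CAL (3) and symmetry suppose `x' ∈ e(x)`, `x ∉ e(x')`; `e(x) = Pc (Fx) x'`, `big (Fx) x'`.
(1) `sq_ext` repeatedly: `x_0 = x`, `x_1 = x'`, `Sq F (x_l, x_(l+1)) (x, x')` for all `l ∈ ℕ`.  `e(x_l) = Pc (F x_l) x_(l+1)` (`inv`, M1T),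
`x_l ∉ e(x_(l+1))` (the property `a ∉ Pc (Fb) c for all c ∈ P with big (Fb) c` of the pair `(a, b)` is invariant).
`e(x_(l+1)) ⊆ e(x_l)`: CAL (2): `e(x_(l+1)) = Pc (F x_l x_(l+1)) x_(l+2)`, big, inside `Pc (F x_l) x_(l+2)`, big, so `= e(x_l)`.
So `x_m ∈ e(x_l)`, `x_l ∉ e(x_m)` for `l < m`.
(2) EXT for `w_l = (x_(2l), x_(2l+1))`: `u_q = (y_q, y'_q)`, `F`-indiscernible, `Sq F (y_q, y'_q) (x, x')`; so
`e(y_q) = Pc (F y_q) y'_q` is big, not ended (`b1`).  For `p < q`: `y_p ∉ e(y_q)`, `y'_p ∉ e(y_q)`: otherwise OPD (for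
`x := y_q`, `d := y'_q`) gives `E`; EXT gives `l < m` with `(x_(2l), x_(2m), x_(2m+1))` `E`-near to `(y_p, y_q, y'_q)` (`fe_sub`, the tuple
`(u_p, u_q)`), so `x_(2l) ∈ e(x_(2m))`: no.
(3) `p < q`: `y_q ∈ e(y_p)`: otherwise `e(y_p) = e(y_q)` (CAL (3)), but `y'_p ∈ e(y_p)`, `y'_p ∉ e(y_q)`.
(4) NP for the sequence `(y_q, y'_q)`. -/
def St_NN : Prop :=
  ∀ (L : FirstOrder.Language.{0, 0}) (U : Type) [L.Structure U], Cz L U →
    ∀ (A₀ : Set U) (big : Set U → U → Prop), Bg L A₀ big →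
    ∀ (F : Set U) (z x x' y y' : U), A₀ ⊆ F → F.Finite → x ∈ Pc L F z → x' ∈ Pc L F z →
    Sq L F (s1 x) (s1 x') → y ∈ Pc L F z → y' ∈ Pc L F z → big (insert x F) y → big (insert x' F) y' →
    Pc L (insert x F) y = Pc L (insert x' F) y' ∨
      (x' ∈ Pc L (insert x F) y ∧ x ∈ Pc L (insert x' F) y')

/-- [UNB] **unbounded**: through the strong type of a good element there is a facing indiscernible sequence.
HYPS: UBD (StM1), M1T, NN, BNI, IDS, IDB.
PROOF.  The pairs `(x', y') =* (x, y)` over `F`, `R (x', y') (x'', y'') := Pc (F x') y' = Pc (F x'') y''`, is an invariant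
equivalence relation, not trivial (UBD: `Pc (Fx) y` would be in `BF F`, but `x ∈ P` is not in it).  BNI: `(u_q, v_q)`, `F`-indiscernible,
pairwise not `R`; NN (`inv`, M1T): facing. -/
def St_UNB : Prop :=
  ∀ (L : FirstOrder.Language.{0, 0}) (U : Type) [L.Structure U], Cz L U →
    ∀ (A₀ : Set U) (big : Set U → U → Prop), Bg L A₀ big →
    ∀ (F : Set U) (z x y : U), A₀ ⊆ F → F.Finite → x ∈ Pc L F z → y ∈ Pc L F z → big (insert x F) y →
    ∃ u : ℚ → Fin 1 → U, Idc L F u ∧ (∀ q, Sq L F (s1 x) (u q)) ∧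
      ∀ p q, p ≠ q → big (insert (u p 0) F) (u q 0)

section

variable (L : FirstOrder.Language.{0, 0}) {U : Type} [L.Structure U]

/-- a facing system over `F`: an `F`-indiscernible sequence of elements of the big piece `Pc F z` all of whose finite sets of terms
are good, and `u_q ∈ e(u_p)` for `p ≠ q` -/
structure Fcs (A₀ : Set U) (big : Set U → U → Prop) (F : Set U) (z : U) (u : ℚ → Fin 1 → U) : Prop where
  sub : A₀ ⊆ F
  fin : F.Finite
  ind : Idc L F u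
  mem : ∀ q, u q 0 ∈ Pc L F z
  good : ∀ W : Set ℚ, W.Finite → ∃ y ∈ Pc L F z, big (F ∪ Tm u W) y
  fac : ∀ p q, p ≠ q → ∀ y ∈ Pc L F z, big (insert (u p 0) F) y → u q 0 ∈ Pc L (insert (u p 0) F) y

end

/-- [XTH] three points: if `u_r ∉ e(u_p, u_q)` for ONE triple of different indices, then for all, and `e(u_p, u_q) = b` is constant.
HYPS: M1T, CAL, NN, IDS, IDB.
PROOF.  For `p < q < r`.  NN over `F u_p` (inside `e(u_p)`, which contains `u_q`, `u_r`; they have the same strong type over `F u_p`: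
IDB, IDS): `e(u_p u_q) = e(u_p u_r)` or (`u_r ∈ e(u_p u_q)` and `u_q ∈ e(u_p u_r)`); in the first case `u_r ∉ e(u_p u_q)`,
`u_q ∉ e(u_p u_r)` (CAL (4)).  So `u_r ∈ e(u_p u_q) ↔ u_q ∈ e(u_p u_r)`.  NN over `F u_r` (for `u_p`, `u_q`):
`u_p ∈ e(u_q u_r) ↔ u_q ∈ e(u_p u_r)`.  The three truth values do not depend on `p < q < r` (IDS, M1T, `inv`).  So if one fails, all
fail, and (first case) `e(u_p u_q) = e(u_p u_r)`, `e(u_p u_r) = e(u_q u_r)` for all `p < q < r`: all `e(u_p u_q)`, `p ≠ q`, are equal. -/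
def St_XTH : Prop :=
  ∀ (L : FirstOrder.Language.{0, 0}) (U : Type) [L.Structure U], Cz L U →
    ∀ (A₀ : Set U) (big : Set U → U → Prop), Bg L A₀ big →
    ∀ (F : Set U) (z : U) (u : ℚ → Fin 1 → U), Fcs L A₀ big F z u →
    ∀ (p q r : ℚ) (y : U), p ≠ q → p ≠ r → q ≠ r → y ∈ Pc L F z → big (F ∪ {u p 0, u q 0}) y →
    u r 0 ∉ Pc L (F ∪ {u p 0, u q 0}) y →
    ∃ y₀ ∈ Pc L F z, (∀ p q, p ≠ q → big (F ∪ {u p 0, u q 0}) y₀ ∧
      ∀ v, v ∈ Pc L (F ∪ {u p 0, u q 0}) y₀ ↔ v ∈ Pc L (F ∪ {u 0 0, u 1 0}) y₀) ∧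
      ∀ r, u r 0 ∉ Pc L (F ∪ {u 0 0, u 1 0}) y₀

/-- [XNO] a facing system does not have `e(u_p, u_q) = b` constant.
HYPS: COV (StM1), M1T, CAL, NN, IDS, IDB.
PROOF.  `b = Pc (F u_0 u_1) y₀`.  COV over `F u_0` (piece `e(u_0) = Pc (F u_0) y₀`, which contains `u_1`; `b` is big over `F u_0 u_1`):
some `y_1 ∈ b` with `Sq (F u_0) u_1 y_1`.  Four indices are enough: `-1, 0, 1, 2`.  `sq_ext`: `(y_(-1), y_1, y_2)` and `c` with
`Sq (F u_0) (u_(-1), u_1, u_2, y₀) (y_(-1), y_1, y_2, c)`; `y_0 := u_0`; `b' := Pc (F u_0 y_1) c = Pc (F y_k y_l) c` for `k ≠ l`, it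
contains no `y_k`.  NN over `F u_0`: `u_1`, `y_1` have the same strong type, `y_1 ∈ b`, `y_1 ∉ b'`, so `u_1 ∈ b'`.
(1) `u_k ∈ b'` for `k = -1, 1, 2`: otherwise CAL (2): `b'` is big over `F u_0 u_k` and inside `e(u_0 u_k) = b`, but `u_1 ∈ b'`, `u_1 ∉ b`.
(2) `y_k ∈ b` for `k = -1, 1, 2`: otherwise `b ⊆ e(u_0 y_k) = b'`, but `y_1 ∈ b`, `y_1 ∉ b'`.
(3) `A := Pc (F u_1 u_2) u_0`; `b` is the piece of `y₀` over `F u_1 u_2`, `u_0 ∉ b`; `y_1, y_2 ∈ b` are not in `A`; `nnl'`: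
`A = Pc (F u_1 u_2 y_1 y_2) u_0`.  `A' := Pc (F y_1 y_2) u_0`, disjoint from `b'`, which contains `u_1`, `u_2`: `A' = Pc (F u_1 u_2 y_1 y_2) u_0 = A`.
`Sq (F u_1 u_2) u_(-1) u_0` (IDB, IDS), so `u_(-1) ∈ A = A'`, but `u_(-1) ∈ b'` by (1): contradiction.  (`u_0 ∉ F u_1 u_2 y_1 y_2`: CAL (4), (1).) -/
def St_XNO : Prop :=
  ∀ (L : FirstOrder.Language.{0, 0}) (U : Type) [L.Structure U], Cz L U →
    ∀ (A₀ : Set U) (big : Set U → U → Prop), Bg L A₀ big →
    ∀ (F : Set U) (z : U) (u : ℚ → Fin 1 → U), Fcs L A₀ big F z u →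
    ¬ ∃ y₀ ∈ Pc L F z, (∀ p q, p ≠ q → big (F ∪ {u p 0, u q 0}) y₀ ∧
      ∀ v, v ∈ Pc L (F ∪ {u p 0, u q 0}) y₀ ↔ v ∈ Pc L (F ∪ {u 0 0, u 1 0}) y₀) ∧
      ∀ r, u r 0 ∉ Pc L (F ∪ {u 0 0, u 1 0}) y₀

/-- [XJN] in a facing system `u_r ∈ e(u_J)` for all finite `J`, `r ∉ J`.
HYPS: XTH, XNO, CAL, M1T, IDB.
PROOF.  Induction on the number of elements of `J`, for all systems.  `J = ∅`: `mem`.  One element: `fac`.  Otherwise let `m` be the
largest or the smallest element of `J ∪ {r}`, such that `m ≠ r` (if `r` is the largest take the smallest), `F' = F u_m`,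
`z' ∈ e(u_m)`, `u'_q = u_(f q)`, `f : ℚ → ℚ` strictly monotone onto the indices below (above) `m` (an order isomorphism with `Iio m`).
This is a facing system over `F'`: `ind` by IDB, `mem` by `fac`, `good` because `big (F u_m u_W) y` implies that `y ∈ e(u_m)` (M1T),
`fac` by XTH and XNO: `u_q ∈ e(u_m u_p)`.  Induction for `J - m`: `u_r ∈ e'(u_(J - m)) = e(u_J)`. -/
def St_XJN : Prop :=
  ∀ (L : FirstOrder.Language.{0, 0}) (U : Type) [L.Structure U], Cz L U →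
    ∀ (A₀ : Set U) (big : Set U → U → Prop), Bg L A₀ big →
    ∀ (F : Set U) (z : U) (u : ℚ → Fin 1 → U), Fcs L A₀ big F z u →
    ∀ (J : Set ℚ) (r : ℚ), J.Finite → r ∉ J → ∀ y ∈ Pc L F z, big (F ∪ Tm u J) y →
    u r 0 ∈ Pc L (F ∪ Tm u J) y

/-- [XPC] **(X')**: an indiscernible sequence in a big piece all of whose finite sets are good has constant `e`: no facing pair.
HYPS: XJN, NN, M1T, GPE (StI).
PROOF.  Suppose `u_q ∈ e(u_p)` for one pair `p ≠ q`.  Then for all pairs with the same sign (IDS), and by NN for all pairs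
(`u_q ∈ e(u_p)` implies that they are facing, by CAL (4)); so this is a facing system.
GPE (the sequence is not constant: `u_q ≠ u_p` by CAL (4)): `J`, `0 ∉ J`, `Edd (F ∪ Tm u J) (u_0)`.  Let `big (F ∪ Tm u J) y`; XJN:
`u_0 ∈ Pc (F ∪ Tm u J) y`, so `big (F ∪ Tm u J) u_0` (`pc`): contradiction to `b1`. -/
def St_XPC : Prop :=
  ∀ (L : FirstOrder.Language.{0, 0}) (U : Type) [L.Structure U], Cz L U →
    ∀ (A₀ : Set U) (big : Set U → U → Prop), Bg L A₀ big →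
    ∀ (F : Set U) (z : U) (u : ℚ → Fin 1 → U), A₀ ⊆ F → F.Finite → Idc L F u → (∀ q, u q 0 ∈ Pc L F z) →
    (∀ W : Set ℚ, W.Finite → ∃ y ∈ Pc L F z, big (F ∪ Tm u W) y) →
    ∀ (p q : ℚ) (y : U), p ≠ q → y ∈ Pc L F z → big (insert (u p 0) F) y → u q 0 ∉ Pc L (insert (u p 0) F) y

end Pool.Agent.TPY
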