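import Pool.Agent.TPY.StG
import Pool.Agent.TPY.StM2
import Pool.Agent.TPY.StW
import Pool.Agent.TPY.ECR

/-!
# TPY/StLN (helper34): THE LINEAR CASE: facing indiscernible sequences in an isolated type are totally indiscernible (`St_LNR`)

Module XXX is the file `Pool/Agent/TPY/XXX.lean` with `theorem thm_XXX (hAAA : St_AAA) .. : St_XXX`.  Definability: `dp_and, dp_or, dp_not,
dp_imp, dp_all, dp_ex, dp_sub, dp_congr, dp_fam` (MNO/Kit), `sat_dp` (compactness, Fr1), `tq_ext`, `tq_fam`, `tq_iff` (Tq0), `sq_tq0` (Brg1),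
`lin_ort` (Brg2), `s1_eta`.
-/

set_option autoImplicit false
set_option linter.unusedVariables false

namespace Pool.Agent.TPY

open FirstOrder.Language Set
open scoped FirstOrder
open Pool.Agent.MNO (Dp FE Sq Exa)

/-! ### Definability -/

/-- [DFI] a definable property which is invariant under equality of types over the countable set `A` is definable over `A`.
PROOF.  `P` is definable over `A ∪ C`, `C` finite (`dp_fin`).  (1) For every `x` with `P x` there is `D`, `Dp A D`, `D x`, `∀ y, D y → P y`: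
otherwise (`sat_dp`: the countable set of the `Dp A` properties which hold for `x` and `¬ P`; closed under finite conjunctions) there is `y`
with `Tq A x y`, `¬ P y`.  (2) The set of all `D` with `Dp A D`, `∀ y, D y → P y` is countable (`dp_cnt`) and closed under finite
disjunctions; if no `D` is equal to `P` then for every `D` some `y` has `P y ∧ ¬ D y`; `sat_dp` for `P` and all `¬ D`: `y` with `P y` and no
such `D y`, against (1). -/
def St_DFI : Prop :=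
  ∀ (L : FirstOrder.Language.{0, 0}) (U : Type) [L.Structure U], Cz L U →
    ∀ (α : Type) [Finite α] (A : Set U) (P : (α → U) → Prop), A.Countable → Dp L (univ : Set U) P →
    (∀ x y, Tq L A x y → P x → P y) → Dp L A P

/-- [IXD] isolated types are dense.
PROOF.  `e : ℕ → (α → U)` represents all types over `A` (`types_fin`, LSA).  Suppose no `x` with `P x` has an isolated type.  Choose
`Q_0 = P`, `Q_k`, nonempty, `Dp A`, `Q_(k+1) → Q_k`, `Q_(k+1) (e k)` false: if `Q_k (e k)` is false `Q_(k+1) = Q_k`; otherwise `Q_k` does not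
isolate `e k`: `v` with `Q_k v` and `D`, `Dp A D`, `D (e k)`, `¬ D v`: `Q_(k+1) = Q_k ∧ ¬ D`.  `sat_dp`: `x` with all `Q_k x`; `Tq A x (e k)` for
some `k`, `Q_(k+1) x`, not `Q_(k+1) (e k)`. -/
def St_IXD : Prop :=
  ∀ (L : FirstOrder.Language.{0, 0}) (U : Type) [L.Structure U], Cz L U →
    ∀ (α : Type) [Finite α] (A : Set U) (P : (α → U) → Prop), A.Finite → Dp L A P → (∃ x, P x) →
    ∃ x, P x ∧ Isl L A x

/-- [CHI] facing is an open condition: there is a formula `χ` over `F`, true for `(x, y)`, which implies `y' ∈ e(x')` as soon as `x'` has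
the type of `x` over `F`.
HYPS: LIM, DFI.
PROOF.  `A := insert x F`; not `Edd A y` (`b1`); LIM: `E ∈ FE A` with `E y' y → y' ∈ Pc A y`.  `K y' := ∀ y'', E y'' y' → big A y''`.  `K y`
(`pc`).  `K` is a union of classes of `E`, so definable over `univ` (finitely many classes: `E.fin`), and invariant under `Tq A` (`tq_ext`;
`Bg.inv` with an enumeration of `A`).  DFI: `Dp A K`; `K y' ↔ χ (x, y')`, `Dp F χ` (`dp_fam` with `range (s1 x)`).  If `Tq F x x'`,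
`χ (x', y')`: `tq_ext`: `Tq F (x', y') (x, y'')`, `χ (x, y'')`, `K y''`, `big A y''` (`E` reflexive), `Bg.inv`. -/
def St_CHI : Prop :=
  ∀ (L : FirstOrder.Language.{0, 0}) (U : Type) [L.Structure U], Cz L U →
    ∀ (A₀ : Set U) (big : Set U → U → Prop), Bg L A₀ big →
    ∀ (F : Set U) (x y : U), A₀ ⊆ F → F.Finite → big (insert x F) y →
    ∃ χ : (Fin 1 ⊕ Fin 1 → U) → Prop, Dp L F χ ∧ χ (Sum.elim (s1 x) (s1 y)) ∧
      ∀ x' y', Tq L F (s1 x) (s1 x') → χ (Sum.elim (s1 x') (s1 y')) → big (insert x' F) y'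

/-- [SPD] `in the same piece` is definable on an isolated type which is not ended.
HYPS: LIM, DFI.
PROOF.  `D` isolates the type of `x`.  LIM: `E ∈ FE F` with `E y x → y ∈ Pc F x`; by `tq_ext`, `pc_tq0`: for every `x'` with `Tq F x x'` and
`y'`: `E y' x' → y' ∈ Pc F x'`.  The relation `S (x', y')` = `D x' ∧ D y' ∧ y' ∈ Pc F x'` is invariant under `Tq F` (`pc_tq0`).  It is definable
over `univ`: choose a finite list of representatives of the classes of `E` in `D`; `S (x', y')` iff `D x'`, `D y'`, and `E x' a`, `E y' b` for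
two representatives with `b ∈ Pc F a` (`pc_eq`, `pc_symm`).  DFI.  (`Tq F x x' ↔ D x'`.) -/
def St_SPD : Prop :=
  ∀ (L : FirstOrder.Language.{0, 0}) (U : Type) [L.Structure U], Cz L U →
    ∀ (F : Set U) (x : U), F.Finite → ¬ Edd L F x → Isl L F (s1 x) →
    Dp L F (fun v : Fin 1 ⊕ Fin 1 → U => Tq L F (s1 x) (s1 (v (Sum.inl 0))) ∧ Tq L F (s1 x) (s1 (v (Sum.inr 0))) ∧
      v (Sum.inr 0) ∈ Pc L F (v (Sum.inl 0)))

/-! ### The order between two points -/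

/-- [GPL] the linear case of GAP.
HYPS: GAP, LQF, LIN, ENC, IDS, IDB.
PROOF.  `z q := u q 0`; `Idc F u` is `Ids F univ z`.  `z 0 ≠ z 1`: otherwise `z` is constant (`Idc` for pairs) and so t.i.  GAP: `J₀`, `a₀`, `b₀`,
`r`; `H₀ = F ∪ z '' J₀`, `NF H₀ r`.  `P := En H₀ r`; LQF: `LQ H₀ P (ltr H₀ r)`.  `z i ∈ P` for `a₀ < i < b₀` (ENC (1), `mem_pc`).
`i₁ := a₀ / 2`, `i₂ := 0`: LIN (first part) for `b₁ = z i₁`, `b₂ = z i₂`.  `J := J₀ ∪ {i₁, i₂}`, `(a, b) := (0, b₀)`.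
Same strong type: IDB with a strictly monotone `f : ℚ → Ioo a b` through `i` and `j`; IDS (or `ids_name`, `ids_sq1` of GBA). -/
def St_GPL : Prop :=
  ∀ (L : FirstOrder.Language.{0, 0}) (U : Type) [L.Structure U], Cz L U →
    ∀ (F : Set U) (u : ℚ → Fin 1 → U), F.Finite → Idc L F u → ¬ Tis L F univ (fun q => u q 0) →
    ∃ (J : Set ℚ) (a b : ℚ) (E : Set U) (lt : U → U → Prop), J.Finite ∧ a < b ∧ LinV L (F ∪ Tm u J) E lt ∧
      (∀ i, a < i → i < b → u i 0 ∈ E) ∧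
      (∀ i j, a < i → i < b → a < j → j < b → Sq L (F ∪ Tm u J) (u i) (u j)) ∧
      ∀ i j, a < i → i < j → j < b → lt (u i 0) (u j 0)

/-- [THE] few models: the type between two points is isolated, and the isolating formula defines the order.
PROOF.  `H = F ∪ range h`.  `IsoP`: `P`, `Dp (H ∪ {p, q}) P`, `P x`, `P v → Tq (H ∪ {p, q}) x v`; `P v ↔ T (v, h, p, q)`, `Dp F T` (`dp_fam`).
Let `Sq H p z'`, `lt p z'` (`z' ∈ E` by `bf.inv`).  `Sq H (p, q) (p, z')` (`lin_ort`), so `Tq F (h, p, q) (h, p, z')` (`tq_fam`).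
(→) `T (v, h, p, z')`: `tq_ext`: `Tq F (v, h, p, z') (v₀, h, p, q)`, so `P v₀`, `Tq H (x, p, q) (v₀, p, q)`, `Tq H (x, p, q) (v, p, z')`:
`v ∈ E`, `lt p v`, `lt v z'` (`tqE`, `tql`), `Sq H p v` (`sq_tq0` for `(p, x)`, `(p, v)`).
(←) `Sq H (p, x) (p, v)`, `Sq H ((p, x), q) ((p, v), z')` (`lin_ort` twice), so `T (x, h, p, q) → T (v, h, p, z')`. -/
def St_THE : Prop :=
  ∀ (L : FirstOrder.Language.{0, 0}) (U : Type) [L.Structure U], Cz L U → IsoP L U →
    ∀ (F : Set U) (n : ℕ) (h : Fin n → U) (E : Set U) (lt : U → U → Prop) (p x q : U), F.Finite →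
    LinV L (F ∪ range h) E lt → p ∈ E → x ∈ E → q ∈ E → lt p x → lt x q →
    Sq L (F ∪ range h) (s1 p) (s1 x) → Sq L (F ∪ range h) (s1 p) (s1 q) →
    ∃ T : (Fin 1 ⊕ (Fin n ⊕ Fin 2) → U) → Prop, Dp L F T ∧
      ∀ z', Sq L (F ∪ range h) (s1 p) (s1 z') → lt p z' → ∀ v : U, T (Sum.elim (s1 v) (Sum.elim h ![p, z'])) ↔
        Sq L (F ∪ range h) (s1 p) (s1 v) ∧ lt p v ∧ lt v z'

section

variable (L : FirstOrder.Language.{0, 0}) {U : Type} [L.Structure U]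

/-- a definable strict weak order without a last class, on a nonempty set `Θ` -/
structure Dlo (A : Set U) (Θ : U → Prop) (lt : U → U → Prop) : Prop where
  dfΘ : Dp L A (fun v : Fin 1 → U => Θ (v 0))
  dfl : Dp L A (fun v : Fin 1 ⊕ Fin 1 → U => lt (v (Sum.inl 0)) (v (Sum.inr 0)))
  ne : ∃ v, Θ v
  irr : ∀ v, Θ v → ¬ lt v v
  tra : ∀ x y z, Θ x → Θ y → Θ z → lt x y → lt y z → lt x z
  neg : ∀ x y z, Θ x → Θ y → Θ z → lt x z → lt x y ∨ lt y z
  nmx : ∀ v, Θ v → ∃ v', Θ v' ∧ lt v v'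

/-- the set `Θ(c)` for `c = (h, p, q)` -/
def Tht {n : ℕ} (T : (Fin 1 ⊕ (Fin n ⊕ Fin 2) → U) → Prop) (c : Fin n ⊕ Fin 2 → U) (v : U) : Prop :=
  T (Sum.elim (s1 v) c)

/-- the order on `Θ(c)` for `c = (h, p, q)`: `v < v'` iff `T (v, h, p, v')` -/
def Tlt {n : ℕ} (T : (Fin 1 ⊕ (Fin n ⊕ Fin 2) → U) → Prop) (c : Fin n ⊕ Fin 2 → U) (v v' : U) : Prop :=
  T (Sum.elim (s1 v) (Sum.elim (fun i => c (Sum.inl i)) ![c (Sum.inr 0), v']))

/-- the properties of `c` which are used (first order over `F`) -/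
structure Ptc (F : Set U) (x : U) {n : ℕ} (T : (Fin 1 ⊕ (Fin n ⊕ Fin 2) → U) → Prop)
    (χ : (Fin 1 ⊕ Fin 1 → U) → Prop) (c : Fin n ⊕ Fin 2 → U) : Prop where
  ne : ∃ v, Tht T c v
  irr : ∀ v, Tht T c v → ¬ Tlt T c v v
  tra : ∀ x y z, Tht T c x → Tht T c y → Tht T c z → Tlt T c x y → Tlt T c y z → Tlt T c x z
  neg : ∀ x y z, Tht T c x → Tht T c y → Tht T c z → Tlt T c x z → Tlt T c x y ∨ Tlt T c y z
  nmx : ∀ v, Tht T c v → ∃ v', Tht T c v' ∧ Tlt T c v v'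
  typ : ∀ i, Tq L F (s1 x) (s1 (c i)) ∧ c i ∈ Pc L F (c (Sum.inr 0))
  tht : ∀ v, Tht T c v → Tq L F (s1 x) (s1 v) ∧ v ∈ Pc L F (c (Sum.inr 0))
  chi : ∀ v v', Tht T c v → Tht T c v' → Tlt T c v v' → χ (Sum.elim (s1 v) (s1 v'))

end

/-- [ODD] `Ptc` is first order over `F`, and gives `Dlo` over `F ∪ range c`.
HYPS: SPD.
PROOF.  (1) Closure properties of `Dp F`; `Tq F x v` is `D v` (`Isl`); `Tq F x v ∧ Tq F x w ∧ w ∈ Pc F v` is definable (SPD); `typ` is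
`∀ i, Tq F x (c i) ∧ Tq F x (c (inr 0)) ∧ c i ∈ Pc F (c (inr 0))` (`typ` for `inr 0`), in the same way `tht`.  (2) `dfΘ`, `dfl`: `dp_par` /
`dp_fam` (`T` over `F` with parameters `c`). -/
def St_ODD : Prop :=
  ∀ (L : FirstOrder.Language.{0, 0}) (U : Type) [L.Structure U], Cz L U →
    ∀ (F : Set U) (x : U) (n : ℕ) (T : (Fin 1 ⊕ (Fin n ⊕ Fin 2) → U) → Prop) (χ : (Fin 1 ⊕ Fin 1 → U) → Prop),
    F.Finite → ¬ Edd L F x → Isl L F (s1 x) → Dp L F T → Dp L F χ →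
    Dp L F (fun c => Ptc L F x T χ c) ∧ ∀ c, Ptc L F x T χ c → Dlo L (F ∪ range c) (Tht T c) (Tlt T c)

/-- [ODE] the sequence gives `T`, `χ` and one `c` with `Ptc`.
HYPS: GPL, THE, CHI.
PROOF.  GPL: `J`, `a < b`, `E`, `lt`.  `h : Fin n → U` an enumeration of `Tm u J`; indices `a < i₁ < i₂ < i₃ < b`; `p, x', q := u i₁, u i₂, u i₃`.
THE: `T`.  CHI for `(x, y) = (u i₁, u i₂)`: `χ`.  `c := (h, p, q)`.  `Tht T c v` iff `Sq H p v`, `lt p v`, `lt v q` (THE for `z' = q`); for `v'` in it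
`Tlt T c v v'` iff `Sq H p v`, `lt p v`, `lt v v'` (THE for `z' = v'`).  `ne`: `u i₂`.  `irr`, `tra`, `neg`: `LinV`.  `nmx`: `LinV.gap` for `D = {v}`,
`W = {q}`, `z = p`.  `typ`: `Sq F`-class: all entries of `c` are terms of `u` (`Idc F u`: `Tq F (u 0) (u i)`), in `Pc F z` (`pc_eq`).  `tht`:
`Sq H p v` gives `Tq F p v`, `v ∈ Pc F p` (`pc_sq`, `sq_mono`).  `chi`: `Sq H (p, x') (v, v')` (`lin_ort`: `Sq H p v`, `Sq H x' v'`), `Dp F χ`. -/
def St_ODE : Prop :=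
  ∀ (L : FirstOrder.Language.{0, 0}) (U : Type) [L.Structure U], Cz L U → IsoP L U →
    ∀ (A₀ : Set U) (big : Set U → U → Prop), Bg L A₀ big →
    ∀ (F : Set U) (z : U) (u : ℚ → Fin 1 → U), A₀ ⊆ F → F.Finite → Idc L F u → (∀ q, u q 0 ∈ Pc L F z) →
    (∀ p q, p ≠ q → big (insert (u p 0) F) (u q 0)) → ¬ Tis L F univ (fun q => u q 0) →
    ∃ (n : ℕ) (T : (Fin 1 ⊕ (Fin n ⊕ Fin 2) → U) → Prop) (χ : (Fin 1 ⊕ Fin 1 → U) → Prop) (c : Fin n ⊕ Fin 2 → U),
      Dp L F T ∧ Dp L F χ ∧ Ptc L F (u 0 0) T χ c ∧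
      ∀ x' y', Tq L F (u 0) (s1 x') → χ (Sum.elim (s1 x') (s1 y')) → big (insert x' F) y'

/-! ### In a definable order without a last class -/

/-- [ASC] there are comparable points with the same strong type.
PROOF.  `sat_dp` for the countable set of properties `Θ y`, `Θ y'`, `lt y y'`, `E y y'` (`E ∈ FE A`, `fe_cnt`).  Finitely many: the
conjunction `E` of the relations is in `FE A` (`fe_and`); it has `k` classes (`fe_num`); `nmx`: `y_0 < y_1 < .. < y_k`; two are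
`E`-equivalent; `tra`. -/
def St_ASC : Prop :=
  ∀ (L : FirstOrder.Language.{0, 0}) (U : Type) [L.Structure U], Cz L U →
    ∀ (A : Set U) (Θ : U → Prop) (lt : U → U → Prop), A.Countable → Dlo L A Θ lt →
    ∃ y y', Θ y ∧ Θ y' ∧ lt y y' ∧ Sq L A (s1 y) (s1 y')

/-- [LNB] the piece is ended.
HYPS: ECR.
PROOF.  `Cpo A y δ` for `δ n y₂ y₁ := Θ y₁ ∧ Θ y₂ ∧ lt y₁ y₂`: `dfn`: `dp_mono`, `dp_sub`; `inv`: `dfΘ`, `dfl`, `tq_of_sq`; all points with the strong
type of `y` are in `Θ`; `ubd`: `sq_ext` for `(y, y')`.  ECR: `r`; `Edd A y` with `w = y` (`mem_pc`). -/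
def St_LNB : Prop :=
  ∀ (L : FirstOrder.Language.{0, 0}) (U : Type) [L.Structure U], Cz L U →
    ∀ (A : Set U) (Θ : U → Prop) (lt : U → U → Prop) (y y' : U), A.Finite → Dlo L A Θ lt → Θ y → Θ y' → lt y y' →
    Sq L A (s1 y) (s1 y') → Edd L A y

/-- [LNS] an increasing indiscernible sequence.
HYPS: EXT.
PROOF.  `sq_ext`: `y_0 = y`, `y_1 = y'`, `Sq A (y, y') (y_l, y_(l+1))`; `lt y_l y_m` for `l < m` (`tra`, `Θ`).  EXT: `w`; `Sq A y (w q)`: closed
condition (for every `E ∈ FE A`, `E y y_l` for all `l`; `E` on `Fin 1 × Fin 1`); `lt (w p) (w q)` for `p < q`: the relation `t, t'` on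
`Fin 2 × Fin 1`: `lt t_0 t_1 ↔ lt t'_0 t'_1`, is in `FE A`. -/
def St_LNS : Prop :=
  ∀ (L : FirstOrder.Language.{0, 0}) (U : Type) [L.Structure U], Cz L U →
    ∀ (A : Set U) (Θ : U → Prop) (lt : U → U → Prop) (y y' : U), A.Finite → Dlo L A Θ lt → Θ y → Θ y' → lt y y' →
    Sq L A (s1 y) (s1 y') →
    ∃ w : ℚ → Fin 1 → U, Idc L A w ∧ (∀ q, Sq L A (s1 y) (w q)) ∧ ∀ p q, p < q → lt (w p 0) (w q 0)

/-! ### The theorem -/

/-- [LNR] **the linear case**: facing indiscernible sequences in an isolated type are totally indiscernible.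
HYPS: ODD, ODE, IXD, ASC, LNB, LNS, XPC.
PROOF.  Suppose not.  `x := u 0 0`; `big F x` (`pc`), so not `Edd F x` (`b1`).  ODE: `n, T, χ, c₀`.  ODD (1), IXD: `c` with `Ptc F x T χ c`,
`Isl F c`.  `p' := c (inr 0)`: `Tq F x p'`, so `big F p'` (`Bg.inv`), and all `c i ∈ Pc F p'`.  B3: `z' ∈ Pc F p'`, `big A z'`, `A := F ∪ range c`.
ODD (2): `Dlo A (Tht T c) (Tlt T c)`.  ASC: `y`, `y'`.  `y ∈ Pc A z'`: LNB: `Edd A y`, so `Edd A z'` (`pc_eq`), against `b1`.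
Otherwise LNS: `w`.  `w q ∉ Pc A z'` (`pc_bf`, `bf_inv1`); `w q ∈ Pc F p'`, `Tq F x (w q)` (`tht`).  For finite `W ⊆ ℚ`: `big (A ∪ Tm w W) z'`
(`b5`), `big (F ∪ Tm w W) z'` (`b4`).  `Idc F w` (`tq_mono`).  XPC for `F`, `z := p'`, `w`, `p = 0`, `q = 1`, `y := w 1 0`: `chi`: `χ (w 0, w 1)`, so
`big (insert (w 0 0) F) (w 1 0)`, and `w 1 0 ∈ Pc (insert (w 0 0) F) (w 1 0)` (`mem_pc`): contradiction. -/
def St_LNR : Prop :=
  ∀ (L : FirstOrder.Language.{0, 0}) (U : Type) [L.Structure U], Cz L U → IsoP L U →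
    ∀ (A₀ : Set U) (big : Set U → U → Prop), Bg L A₀ big → B3 L A₀ big →
    ∀ (F : Set U) (z : U) (u : ℚ → Fin 1 → U), A₀ ⊆ F → F.Finite → big F z → Idc L F u → (∀ q, u q 0 ∈ Pc L F z) →
    Isl L F (u 0) → (∀ p q, p ≠ q → big (insert (u p 0) F) (u q 0)) → Tis L F univ (fun q => u q 0)

end Pool.Agent.TPY
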