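import Pool.Agent.TPY.StR
import Pool.Agent.TPY.StLN

/-!
# TPY module RNB (helper31): **NOBIG**, no piece is big
-/

set_option autoImplicit false
set_option linter.unusedVariables false

namespace Pool.Agent.TPY

open FirstOrder.Language Set
open scoped FirstOrder
open Pool.Agent.MNO

/-- [RNB] **NOBIG**: no piece is big (the form of `nbv_of` in `BGH.lean`). -/
def St_RNB : Prop :=
  ∀ (L : FirstOrder.Language.{0, 0}) (U : Type) [L.Structure U], Cz L U → IsoP L U →
    ∀ (A₀ : Set U) (big : Set U → U → Prop), Bg L A₀ big → B3 L A₀ big →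
    ∀ (A : Set U) (z : U), A₀ ⊆ A → A.Finite → ¬ big A z

theorem thm_RNB (hRIX : St_RIX) (hRFR : St_RFR) (hLNR : St_LNR) : St_RNB := by
  intro L U _ hC hI A₀ big hB hB3 A z hA₀ hA hbig
  obtain ⟨x, hx, hxi⟩ := hRIX L U hC A₀ big hB A z hA₀ hA hbig
  obtain ⟨u, h1, h2, h3, h4⟩ := hRFR L U hC A₀ big A z x ⟨hB, hB3, hA₀, hA, hbig, hx, hxi⟩
  refine h4 (hLNR L U hC hI A₀ big hB hB3 A z u hA₀ hA hbig h1 (fun q => ?_) ?_ h3)
  · have h5 : Sq L A (s1 x) (s1 (u q 0)) := by
      have h6 := h2 q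
      have e : s1 (u q 0) = u q := by
        funext i
        fin_cases i
        rfl
      rw [e]
      exact h6
    have h7 := pc_sq hC h5
    rw [pc_eq hC hA.countable hx] at h7
    exact h7
  · obtain ⟨P, hP, hPx, hPv⟩ := hxi
    have h5 := tq_of_sq (h2 0)
    exact ⟨P, hP, (tq_iff h5 hP).1 hPx, fun v hv => tq_trans (tq_symm h5) (hPv v hv)⟩

end Pool.Agent.TPY
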