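import Pool.Agent.TPY.StW

/-!
# TPY, RU1: run 1, all types have finite multiplicity
-/

set_option autoImplicit false

namespace Pool.Agent.TPY

open FirstOrder.Language Set
open scoped FirstOrder
open Pool.Agent.MNO
open Pool.Agent.WOM (tp Mon IsEl IsoM CtU Fx Orb Isd)
open Pool.Agent.PMC (Sm Md NPf)

theorem thm_RU1 (hEMV : St_EMV) (hB1H : St_B1H) (hFNB : Pool.Agent.TPC.St_FNB) : St_RU1 := by
  intro L U V _ _ i hC hi hM hN hNB
  by_contra hF
  obtain ⟨A, M0, z, y, hA, hM0, hy, hno⟩ := hFNB L U hM hN hF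
  have hB := hB1H L U V i hC hi hM hN (i '' A) (hA.image i)
  have hnb := hNB (i '' A) (Big1 L (i '' A)) (hA.image i) hB (i '' A) (i z) (hA.image i) subset_rfl
  unfold Big1 at hnb
  rw [not_not] at hnb
  obtain ⟨S, hS, hSv⟩ := hnb
  obtain ⟨e1, e2, -⟩ := hEMV L U V i hC hi hM
  have hzA : (insert z A).Finite := hA.insert z
  obtain ⟨N, hN1, hN2, hN3⟩ := e2 (S ∪ i '' (insert z A)) (hS.union (hzA.image i).countable)
  have hzM : insert z A ⊆ M0 := hM0.1.2
  obtain ⟨n, b, hb⟩ : ∃ (n : ℕ) (b : Fin n → U), range b = insert z A := by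
    obtain ⟨n, b, -, hb⟩ := hzA.fin_param
    exact ⟨n, b, hb⟩
  have hb1 : ∀ k, b k ∈ insert z A := fun k => hb ▸ mem_range_self k
  obtain ⟨j, hj, hjN, hjb⟩ := e1 M0 N ⟨⟨hM0.1.1, empty_subset _⟩, hM0.2⟩ hN2 hN3 n b (fun k => i (b k))
    (fun k => hzM (hb1 k)) (fun k => hN1 (Or.inr (mem_image_of_mem i (hb1 k)))) (fun P _ h => h)
  have hji : ∀ a ∈ insert z A, j a = i a := by
    intro a ha
    rw [← hb] at ha
    obtain ⟨k, rfl⟩ := ha
    exact hjb k
  have hjA : j '' A = i '' A := image_congr fun a ha => hji a (mem_insert_of_mem z ha)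
  have hjz : j z = i z := hji z (mem_insert z A)
  have h1 : j y ∈ Pc L (j '' A) (j z) := by
    rw [pc_emb hC hj hM hA, ← pq_eq hM hA]
    exact hy
  rw [hjA, hjz] at h1
  obtain ⟨s, hs, hys⟩ := hSv _ h1
  obtain ⟨v, hv, rfl⟩ : s ∈ j '' M0 := by
    rw [hjN]
    exact hN1 (Or.inl hs)
  rw [← hjA] at hys
  have h2 := (sq_pt hj hA).1 hys
  exact hno v hv (nx_pt hM hA (fun E hE => hE.eqv.symm (h2 E hE)))

end Pool.Agent.TPY
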