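import Pool.Agent.TPY.StW

/-!
TPY, [RU2]: run 2, no big piece inside a cluster of a free union (helper14).
-/

set_option autoImplicit false
set_option linter.unusedVariables false

namespace Pool.Agent.TPY

open FirstOrder.Language Set
open scoped FirstOrder
open Pool.Agent.WOM (tp Mon IsEl IsoM CtU Fx Orb Isd)
open Pool.Agent.PMC (Sm Md NPf)
open Pool.Agent.MNO (Dp FE Sq Exa Nx SmN FE1 FinN)
open Pool.Agent.TPC (Pq Bq Lin Fre Nice Cpt Big Ist Clu Rgd Sub)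

/-- [RU2] -/
theorem thm_RU2 (hBGV : St_BGV) (hB1V : St_B1V) (hKPV : St_KPV) (hNFR : Pool.Agent.TPC.St_NFR)
    (hBGC : Pool.Agent.TPC.St_BGC) : St_RU2 := by
  intro L U V _ _ i hC hi hM hNP hFN hNB H E cl x hF hx A z hA hHA hzE hxz hbig
  obtain ⟨-, g2, g3, g4, g5, g6⟩ := hBGV L U V i hC hi hM hNP
  have g6' := g6 hFN
  obtain ⟨k1, k2⟩ := hKPV L U V i hC hi hM H E cl x hF hx
  refine hNB (insert x H) (fun B v => v ∈ E ∧ cl x v ∧ BigV L U B v) (hF.fin.insert x) ?_ A z hA hHA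
    ⟨hzE, hxz, hbig⟩
  refine ⟨?_, ?_, ?_, ?_, ?_, ?_⟩
  · intro n a a' v v' hA0 hsq hv
    obtain ⟨h1, h2, h3⟩ := hv
    have h4 : Tq L (insert x H) (s1 v) (s1 v') :=
      tq_sub hsq (Sum.inr : Fin 1 → Fin n ⊕ Fin 1)
    obtain ⟨h5, h6⟩ := k2 v v' h4 h1 h2
    exact ⟨h5, h6, g2 n a a' v v' (tq_mono (empty_subset _) hsq) h3⟩
  · intro B v v' hB hAB hv' hv
    obtain ⟨h1, h2, h3⟩ := hv
    obtain ⟨h4, h5⟩ := k1 B v hB hAB h1 h2 v' hv'
    exact ⟨h4, h5, g3 B v v' hB hv' h3⟩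
  · intro B v hB hAB hO hv
    obtain ⟨h1, h2, h3⟩ := hv
    obtain ⟨j, B1, z1, b1, E1, cl1, hj, hB1, hBj, hz1, hnc, hF1, hE1, hb1, hbE, hzE1, hcl⟩ :=
      hB1V L U V i hC hi hM hNP hFN B v hB hO h3
    have hBr : B ⊆ range j := hBj.trans (image_subset_range _ _)
    have hjB : j '' (j ⁻¹' B) = B := image_preimage_eq_of_subset hBr
    have hHr : H ⊆ range j := ((subset_insert x H).trans hAB).trans hBr
    have hjH : j '' (j ⁻¹' H) = H := image_preimage_eq_of_subset hHr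
    obtain ⟨x', hx'⟩ := hBr (hAB (mem_insert x H))
    have hFH : Fre L (j ⁻¹' H) (j ⁻¹' E) (fun u w => cl (j u) (j w)) :=
      fre_of hj hM (by rw [hjH]; exact hF)
    have hFB : Fre L (j ⁻¹' B) (j ⁻¹' E1) (fun u w => cl1 (j u) (j w)) :=
      fre_of hj hM (by rw [hjB]; exact hF1)
    have hsub : j ⁻¹' B ⊆ B1 := by
      intro a ha
      obtain ⟨b, hb, hab⟩ := hBj ha
      rw [hj.inj hab] at hb
      exact hb
    have hin : ∀ w ∈ j ⁻¹' E1, w ∈ j ⁻¹' E ∧ cl (j x') (j w) := by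
      intro w hw
      obtain ⟨u, hu, huw⟩ := hE1 (j w) hw
      obtain ⟨h4, h5⟩ := k1 B v hB hAB h1 h2 u hu
      obtain ⟨h6, h7⟩ := k2 u (j w) (tq_mono hAB huw) h4 h5
      refine ⟨h6, ?_⟩
      rw [hx']
      exact h7
    have hR : Rgd L B1 z1 := hNFR L U hM hNP hFN (j ⁻¹' H) (j ⁻¹' E) (fun u w => cl (j u) (j w)) x'
      (j ⁻¹' B) (j ⁻¹' E1) (fun u w => cl1 (j u) (j w)) hFH
      (show j x' ∈ E by rw [hx']; exact hx) hFB
      (preimage_mono ((subset_insert x H).trans hAB))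
      (show j x' ∈ B by rw [hx']; exact hAB (mem_insert x H)) hin B1 b1 z1 hB1 hsub hb1 hbE hzE1 hcl
    exact hnc ((hBGC L U hM hNP B1 z1 hB1).2.2.2.2 hR)
  · intro B v n u hB hAB hu hiso hv
    obtain ⟨h1, h2, h3⟩ := hv
    obtain ⟨v', hv', h4⟩ := g6' B v n u hB hiso h3
    obtain ⟨h5, h6⟩ := k1 B v hB hAB h1 h2 v' hv'
    exact ⟨v', hv', h5, h6, h4⟩
  · intro B B' v v' hB' hAB hBB hv' hv
    obtain ⟨h1, h2, h3⟩ := hv
    have hB : B.Finite := hB'.subset hBB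
    obtain ⟨h4, h5⟩ := k1 B v' hB hAB h1 h2 v (pc_symm hC hB.countable hv')
    exact ⟨h4, h5, g4 B B' v v' hB' hBB hv' h3⟩
  · intro B W v hB hAB hW hdis hv
    obtain ⟨h1, h2, h3⟩ := hv
    exact ⟨h1, h2, g5 B W v hB hW hdis h3⟩

end Pool.Agent.TPY
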