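import Pool.Agent.TPY.StW

/-!
# TPY: full T6, run 3 and the count
-/

set_option autoImplicit false
set_option linter.unusedVariables false

namespace Pool.Agent.TPY

open FirstOrder.Language Set
open scoped FirstOrder
open Pool.Agent.WOM (tp Mon IsEl IsoM CtU Fx Orb Isd)
open Pool.Agent.PMC (Sm Md NPf)
open Pool.Agent.MNO (Dp FE Sq Exa Nx SmN FE1 FinN)
open Pool.Agent.TPC (Pq Bq Lin Fre Nice Cpt Big Ist Clu Rgd Sub)

theorem thm_RU3 (hBGV : St_BGV) (hB1V : St_B1V) (hRU1 : St_RU1) (hRU2 : St_RU2)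
    (hCTZ : Pool.Agent.TPC.St_CTZ) : St_RU3 := by
  intro L U V _ _ i hC hE hM hN hNB
  have hF : FinN L U := hRU1 L U V i hC hE hM hN hNB
  obtain ⟨c1, c2, c3, c4, c5, c6⟩ := hBGV L U V i hC hE hM hN
  have hH : BigH L (∅ : Set V) (BigV L U) := by
    refine ⟨?_, ?_, ?_, ?_, ?_, ?_⟩
    · intro n a a' z z' _ hs hb
      exact c2 n a a' z z' hs hb
    · intro A z z' hA _ hz hb
      exact c3 A z z' hA hz hb
    · intro A z hA _ hO hb
      obtain ⟨j, B1, z1, b1, E, cl, hj, hB1, hAB, hz1, hnC, hFr, hEt, hb1, hbE, hzE, hcl⟩ :=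
        hB1V L U V i hC hE hM hN hF A z hA hO hb
      have hbig : Big L B1 z1 := ⟨B1, z1, hB1, subset_rfl, fun Q hQ => Iff.rfl, hnC⟩
      have hbv : BigV L U (j '' B1) (j z1) := (c1 j B1 z1 hj hB1).2 hbig
      exact hRU2 L U V i hC hE hM hN hF hNB A E cl (j b1) hFr hbE (j '' B1) (j z1) (hB1.image j)
        (insert_subset ⟨b1, hb1, rfl⟩ hAB) hzE hcl hbv
    · intro A z n u hA _ _ hI hb
      exact c6 hF A z n u hA hI hb
    · intro A A' z z' hA' _ hAA hz hb
      exact c4 A A' z z' hA' hAA hz hb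
    · intro A W z hA _ hW hd hb
      exact c5 A W z hA hW hd hb
  refine hCTZ L U hM hN hF fun z hz => ?_
  have h1 : BigV L U (i '' (∅ : Set U)) (i z) := (c1 i ∅ z hE finite_empty).2 hz
  rw [image_empty] at h1
  exact hNB ∅ (BigV L U) finite_empty hH ∅ (i z) finite_empty subset_rfl h1

end Pool.Agent.TPY
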