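import Pool.Agent.TPY.Brg4
import Pool.Agent.MNO.ALL
import Pool.Agent.TPY.BGH
import Pool.Agent.TPY.EMV
import Pool.Agent.TPY.ISV
import Pool.Agent.TPY.BGV
import Pool.Agent.TPY.B1V
import Pool.Agent.TPY.REV
import Pool.Agent.TPY.CPV
import Pool.Agent.TPY.B1H
import Pool.Agent.TPY.RU1
import Pool.Agent.TPY.KPV
import Pool.Agent.TPY.RU2
import Pool.Agent.TPY.RU3
import Pool.Agent.TPC.ALLZ
import Pool.Agent.TPY.OUT
import Pool.Agent.TPY.RNB

/-!
# TPY: full T6, the main theorem from the (Z) chapter and the structure chapter (helper47)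
-/

set_option autoImplicit false
set_option linter.unusedVariables false

namespace Pool.Agent.TPY

open FirstOrder.Language Set
open scoped FirstOrder
open Pool.Agent.MNO
open Pool.Agent.WOM (tp Mon IsEl IsoM CtU Fx Orb Isd CtT PerfT ThS)
open Pool.Agent.PMC (NPf Md Sm)

theorem w_EMV : St_EMV := thm_EMV
theorem w_ISV : St_ISV := thm_ISV w_EMV Pool.Agent.TPC.z_ISO
theorem w_BGV : St_BGV := thm_BGV w_EMV w_ISV Pool.Agent.TPC.z_BGC Pool.Agent.TPC.z_BG3
theorem w_B1V : St_B1V := thm_B1V Pool.Agent.TPC.z_LRG Pool.Agent.TPC.z_BGC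
theorem w_REV : St_REV := thm_REV w_EMV Pool.Agent.TPC.z_FNA
theorem w_CPV : St_CPV := thm_CPV w_EMV
theorem w_B1H : St_B1H := thm_B1H w_REV w_CPV
theorem w_RU1 : St_RU1 := thm_RU1 w_EMV w_B1H Pool.Agent.TPC.z_FNB
theorem w_KPV : St_KPV := thm_KPV Pool.Agent.TPC.z_KBQ
theorem w_RU2 : St_RU2 := thm_RU2 w_BGV w_B1V w_KPV Pool.Agent.TPC.z_NFR Pool.Agent.TPC.z_BGC
theorem w_RU3 : St_RU3 := thm_RU3 w_BGV w_B1V w_RU1 w_RU2 Pool.Agent.TPC.z_CTZ

/-- elementary embeddings -/
theorem emb_ele {L : FirstOrder.Language.{0, 0}} {M V : Type} [L.Structure M] [L.Structure V]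
    (j : M ↪ₑ[L] V) : Emb L j := by
  refine ⟨j.injective, (Pool.Agent.MST.thm_ELX L V).2.2.2.1 M j, fun α _ φ v => ?_⟩
  exact (j.map_formula φ v).symm

theorem emb_mk {L : FirstOrder.Language.{0, 0}} {M V : Type} [L.Structure M] [L.Structure V] {i : M → V}
    (h : ∀ (n : ℕ) (φ : L.Formula (Fin n)) (v : Fin n → M), φ.Realize v ↔ φ.Realize (fun j => i (v j))) :
    Emb L i :=
  emb_ele (⟨i, fun n φ x => (h n φ x).symm⟩ : M ↪ₑ[L] V)

/-- the hypothesis for one model -/
def NipO (L : FirstOrder.Language.{0, 0}) (M : Type) [L.Structure M] : Prop :=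
  ∀ (P : Set M) (m n : ℕ) (φ : L.Formula ((Fin m ⊕ Fin n) ⊕ Unit)), ∃ k : ℕ,
    ¬ Shat (fun (x : Fin m → M) (y : Fin n → M) =>
      ∃ z ∈ P, φ.Realize (Sum.elim (Sum.elim x y) fun _ => z)) k

/-- no exact arrays -/
theorem cod_of (L : FirstOrder.Language.{0, 0}) (hL : Countable L.Symbols) (T : L.Theory)
    (hT : ∀ S : L.Structure ℕ, @FirstOrder.Language.Theory.Model L ℕ S T → @NipO L ℕ S)
    (U : Type) [L.Structure U] (hUT : U ⊨ T) (hinf : Infinite U) :
    ∀ (m n : ℕ) (P : (Fin m → U) → (Fin n → U) → U → Prop),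
      Dp L (∅ : Set U) (fun v : (Fin m ⊕ Fin n) ⊕ Unit → U =>
        P (fun i => v (Sum.inl (Sum.inl i))) (fun i => v (Sum.inl (Sum.inr i))) (v (Sum.inr ()))) →
      ∃ k, ¬ Exa P k := by
  classical
  intro m n P hP
  by_contra hcon
  push Not at hcon
  obtain ⟨ψ, hψ⟩ := dp_form hP
  let φ : L.Formula ((Fin m ⊕ Fin n) ⊕ Unit) :=
    ψ.relabel (Sum.elim (fun a => absurd a.2 (notMem_empty _)) (fun i => i))
  have hφ : ∀ (x : Fin m → U) (y : Fin n → U) (z : U), P x y z ↔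
      φ.Realize (Sum.elim (Sum.elim x y) fun _ => z) := by
    intro x y z
    have h1 := hψ (Sum.elim (Sum.elim x y) fun _ => z)
    refine h1.trans ?_
    show _ ↔ (ψ.relabel _).Realize _
    rw [FirstOrder.Language.Formula.realize_relabel]
    apply iff_of_eq
    congr 1
    funext i
    rcases i with i | i
    · exact absurd i.2 (notMem_empty _)
    · rfl
  obtain ⟨S, hmod, x, y, z, hxyz⟩ := thm_INA L hL U hinf m n φ (fun k => by
    obtain ⟨x, y, z, h⟩ := hcon k
    exact ⟨x, y, z, fun i j a b => (hφ _ _ _).symm.trans (h i j a b)⟩)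
  have hmodT : @FirstOrder.Language.Theory.Model L ℕ S T := by
    refine @FirstOrder.Language.Theory.Model.mk L ℕ S _ fun χ hχ => ?_
    refine @FirstOrder.Language.Theory.realize_sentence_of_mem L ℕ S _ hmod χ ?_
    have h2 : U ⊨ χ := FirstOrder.Language.Theory.realize_sentence_of_mem T hχ
    exact h2
  obtain ⟨g, hg⟩ := exists_surjective_nat (Finset ℕ)
  obtain ⟨k, hk⟩ := hT S hmodT {w | ∃ a b, w = z a b ∧ a ∈ g b} m n φ
  have hcode : ∀ s : Set (Fin k), ∃ b : ℕ, ∀ i : Fin k, (i : ℕ) ∈ g b ↔ i ∈ s := by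
    intro s
    have hfin : ((fun i : Fin k => (i : ℕ)) '' s).Finite := s.toFinite.image _
    obtain ⟨b, hb⟩ := hg hfin.toFinset
    refine ⟨b, fun i => ?_⟩
    rw [hb, Set.Finite.mem_toFinset]
    constructor
    · rintro ⟨i', h1, h2⟩
      rwa [Fin.val_injective h2] at h1
    · intro h1
      exact ⟨i, h1, rfl⟩
  choose b hb using hcode
  refine hk ⟨fun i => x i, fun s => y (b s), fun i s => ?_⟩
  rw [← hb s i]
  constructor
  · rintro ⟨w, ⟨a, b', rfl, hab⟩, hw⟩
    obtain ⟨h1, h2⟩ := (hxyz _ _ _ _).1 hw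
    rw [h1, h2]
    exact hab
  · intro h1
    exact ⟨_, ⟨i, b s, rfl, h1⟩, (hxyz _ _ _ _).2 ⟨rfl, rfl⟩⟩

/-- no independence property -/
theorem nip_of (L : FirstOrder.Language.{0, 0}) (hL : Countable L.Symbols) (T : L.Theory)
    (hT : ∀ S : L.Structure ℕ, @FirstOrder.Language.Theory.Model L ℕ S T → @NipO L ℕ S)
    (U : Type) [L.Structure U] (hUT : U ⊨ T) (hinf : Infinite U) :
    ∀ (m n : ℕ) (P : (Fin m ⊕ Fin n → U) → Prop), Dp L (∅ : Set U) P →
      ∃ k, ¬ Sh (fun (x : Fin m → U) (y : Fin n → U) => P (Sum.elim x y)) k := by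
  classical
  intro m n P hP
  by_contra hcon
  push Not at hcon
  obtain ⟨ψ, hψ⟩ := dp_form hP
  let φ : L.Formula ((Fin m ⊕ Fin n) ⊕ Unit) :=
    ψ.relabel (Sum.elim (fun a => absurd a.2 (notMem_empty _)) (fun i => Sum.inl i))
  have hφ : ∀ (x : Fin m → U) (y : Fin n → U) (z : U), P (Sum.elim x y) ↔
      φ.Realize (Sum.elim (Sum.elim x y) fun _ => z) := by
    intro x y z
    have h1 := hψ (Sum.elim x y)
    refine h1.trans ?_
    show _ ↔ (ψ.relabel _).Realize _
    rw [FirstOrder.Language.Formula.realize_relabel]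
    apply iff_of_eq
    congr 1
    funext i
    rcases i with i | i
    · exact absurd i.2 (notMem_empty _)
    · rfl
  choose x y hxy using hcon
  obtain ⟨S, i, hi, hX, hel, hmod, hreal⟩ := Pool.Agent.MST.thm_CMS Pool.Agent.MST.thm_ELX L hL U hinf
    ((⋃ k, ⋃ a, range (x k a)) ∪ ⋃ k, ⋃ s, range (y k s)) (by
      refine Countable.union ?_ ?_
      · exact countable_iUnion fun k => countable_iUnion fun a => countable_range _
      · refine countable_iUnion fun k => ?_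
        have : Finite (Set (Fin k)) := inferInstance
        exact countable_iUnion fun s => countable_range _)
  have hx : ∀ k a t, ∃ u : ℕ, i u = x k a t := fun k a t =>
    hX (Or.inl (mem_iUnion.2 ⟨k, mem_iUnion.2 ⟨a, t, rfl⟩⟩))
  have hy : ∀ k s t, ∃ u : ℕ, i u = y k s t := fun k s t =>
    hX (Or.inr (mem_iUnion.2 ⟨k, mem_iUnion.2 ⟨s, t, rfl⟩⟩))
  choose x' hx' using hx
  choose y' hy' using hy
  have hmodT : @FirstOrder.Language.Theory.Model L ℕ S T := by
    refine @FirstOrder.Language.Theory.Model.mk L ℕ S _ fun χ hχ => ?_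
    refine @FirstOrder.Language.Theory.realize_sentence_of_mem L ℕ S _ hmod χ ?_
    have h2 : U ⊨ χ := FirstOrder.Language.Theory.realize_sentence_of_mem T hχ
    exact h2
  obtain ⟨k, hk⟩ := hT S hmodT univ m n φ
  refine hk ⟨x' k, y' k, fun a s => ?_⟩
  have key : ∀ z : ℕ, @FirstOrder.Language.Formula.Realize L ℕ S _ φ
      (Sum.elim (Sum.elim (x' k a) (y' k s)) fun _ => z) ↔ a ∈ s := by
    intro z
    have h1 := (hφ (x k a) (y k s) (i z)).symm.trans (hxy k a s)
    refine Iff.trans ?_ h1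
    rw [hreal]
    apply iff_of_eq
    congr 1
    funext t
    rcases t with (t | t) | t
    · exact hx' k a t
    · exact hy' k s t
    · rfl
  constructor
  · rintro ⟨z, -, hz⟩
    exact (key z).1 hz
  · intro h
    exact ⟨0, mem_univ _, (key 0).2 h⟩

/-- THE THEOREM: Vaught's conjecture for all monadically NIP theories -/
def St_T6 : Prop :=
  ∀ (L : FirstOrder.Language.{0, 0}), Countable L.Symbols → ∀ T : L.Theory,
    (∀ S : L.Structure ℕ, @FirstOrder.Language.Theory.Model L ℕ S T → @NipO L ℕ S) →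
    CtT L T ∨ PerfT L T

/-- the count in `U` -/
theorem ct_of' {L : FirstOrder.Language.{0, 0}} {U V : Type} [L.Structure U] [L.Structure V] {i : U → V}
    (hNOB : St_RNB) (hC : Cz L V) (hi : Emb L i) (hM : Mon L U) (hN : NPf L U) : CtU L U := by
  have hI : IsoP L V := (w_ISV L U V i hC hi hM).2 hN
  exact w_RU3 L U V i hC hi hM hN (nbv_of hC (fun A z hA h => thm_OUT hC hA h) (hNOB L V hC hI))

/-- few types over the empty set in `V` -/
theorem sml_of {L : FirstOrder.Language.{0, 0}} {U V : Type} [L.Structure U] [L.Structure V] {i : U → V}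
    (hi : Emb L i) (hM : Mon L U) : ∀ n : ℕ, ∃ s : Set (Fin n → V), s.Countable ∧
      ∀ x, ∃ y ∈ s, Tq L (∅ : Set V) x y := by
  intro n
  have hc : Countable U := hM.ctb
  refine ⟨range (fun (w : Fin n → U) (k : Fin n) => i (w k)), countable_range _, fun x => ?_⟩
  obtain ⟨w, hw⟩ := rlz hi hM finite_empty x
  rw [image_empty] at hw
  exact ⟨_, ⟨w, rfl⟩, hw⟩

/-- the main theorem from NOBIG -/
theorem T6_of (hNOB : St_RNB) (hNPU : Pool.Agent.PMC.St_NPU) : St_T6 := by
  have hDEF1 := Pool.Agent.WOM.thm_DEF1 Pool.Agent.WOM.thm_DEFF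
  have hREAL := Pool.Agent.WOM.thm_REAL Pool.Agent.WOM.thm_MEAS
  intro L hL T hT
  refine (Pool.Agent.WOM.thm_INC Pool.Agent.WOM.thm_MEAS hREAL) L hL T fun S hS => ?_
  by_cases hp : PerfT L (ThS L S)
  · exact Or.inr hp
  · have hsm : Pool.Agent.WOM.Small L (ThS L S) := by
      by_contra h
      exact hp ((Pool.Agent.WOM.thm_NSM Pool.Agent.WOM.thm_MEAS hREAL) L hL _ h)
    obtain ⟨W, _, _, hW, hsW⟩ := (Pool.Agent.WOM.thm_ULT hDEF1) L hL S
    obtain ⟨U, _, hc, hi, hU, hsU⟩ := (Pool.Agent.WOM.thm_SUBM hDEF1) L hL S hsm W hW hsW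
    have hM : Mon L U := (Pool.Agent.WOM.thm_HOMG hDEF1) L U hc hi hsU
    have hN := (thm_NPG hNPU) L hL U hM S hU hp
    obtain ⟨V, _, hV, ⟨j⟩⟩ := Pool.Agent.MST.thm_SAW L hL U inferInstance
    have hUT : U ⊨ T := Pool.Agent.WOM.TOP_mono L T S hS U hU
    have hVT : V ⊨ T := (j.theory_model_iff T).1 hUT
    have hj : Emb L j := emb_ele j
    have hVi : Infinite V := Infinite.of_injective j hj.inj
    have hne : Nonempty V := inferInstance
    have hsml := sml_of hj hM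
    have hC : Cz L V := ⟨hL, hne, hV, hsml, nip_of L hL T hT V hVT hVi, cod_of L hL T hT V hVT hVi⟩
    exact Or.inl ((Pool.Agent.WOM.thm_TRC (Pool.Agent.WOM.thm_EMB hDEF1)) L U hM
      (ct_of' hNOB hC hj hM hN) S hU)

end Pool.Agent.TPY
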