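import Pool.Agent.TPY.ALLR
import Pool.Agent.TPY.Asm3
import Pool.Agent.TPX.Asm3
import Pool.Agent.PMC.NPU

/-!
# TPY/ALL3 (helper47): **full T6, Vaught's conjecture for all monadically NIP theories**, unconditional
-/

set_option autoImplicit false

namespace Pool.Agent.TPY

/-- THE THEOREM: Vaught's conjecture for all monadically NIP theories in countable languages -/
theorem all_T6 : St_T6 := T6_of m_RNB Pool.Agent.PMC.thm_NPU

/-- the same statement in the form of `TPX/Asm3.lean` -/
theorem all_T6F : Pool.Agent.TPX.St_T6F := all_T6

end Pool.Agent.TPY
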