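import Pool.Agent.MST.RamF
import Mathlib.Order.Filter.Ultrafilter.Basic

/-!
# TPY [ARC]: one-sided arrays give exact arrays (combinatorial part)
-/

set_option autoImplicit false

namespace Pool.Agent.TPY

/-- Ramsey's theorem for pairs, finite form -/
theorem ramN {κ : Type} [Finite κ] (m : ℕ) : ∃ N : ℕ, ∀ c : ℕ → ℕ → κ, ∃ f : ℕ → ℕ, StrictMono f ∧
    (∀ i < m, f i < N) ∧ ∃ k : κ, ∀ i j, i < j → j < m → c (f i) (f j) = k := by
  classical
  by_contra hcon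
  push Not at hcon
  choose c hc using hcon
  obtain ⟨𝒰, h𝒰⟩ : ∃ 𝒰 : Ultrafilter ℕ, (𝒰 : Filter ℕ) ≤ Filter.atTop :=
    ⟨Ultrafilter.of Filter.atTop, Ultrafilter.of_le _⟩
  have hlim : ∀ i j, ∃ k : κ, ∀ᶠ N in (𝒰 : Filter ℕ), c N i j = k := by
    intro i j
    have h1 : ∀ᶠ N in (𝒰 : Filter ℕ), ∃ k ∈ (Set.univ : Set κ), c N i j = k :=
      Filter.Eventually.of_forall fun N => ⟨_, Set.mem_univ _, rfl⟩
    obtain ⟨k, -, hk⟩ := (Ultrafilter.eventually_exists_mem_iff Set.finite_univ).1 h1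
    exact ⟨k, hk⟩
  choose d hd using hlim
  obtain ⟨f, hf, k, hk⟩ := MST.ramF d
  have h1 : ∀ᶠ N in (𝒰 : Filter ℕ), ∀ i ∈ Finset.range m, ∀ j ∈ Finset.range m,
      c N (f i) (f j) = d (f i) (f j) := by
    rw [Finset.eventually_all]
    intro i _
    rw [Finset.eventually_all]
    intro j _
    exact hd _ _
  have h2 : ∀ᶠ N in (𝒰 : Filter ℕ), f m < N := h𝒰 (Filter.eventually_gt_atTop _)
  obtain ⟨N, hN1, hN2⟩ := (h1.and h2).exists
  obtain ⟨i, j, hij, hj, hne⟩ := hc N f hf (fun i hi => (hf hi).trans hN2) k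
  apply hne
  rw [hN1 i (Finset.mem_range.2 (hij.trans hj)) j (Finset.mem_range.2 hj)]
  exact hk i j hij

section

variable {X Y Z : Type}

/-- the formula of the exact array -/
def ArP (P : X → Y → Z → Prop) (x : X × X) (y : Y × Y) (z : Z) : Prop :=
  P x.1 y.1 z ∧ ¬ P x.2 y.1 z ∧ ¬ P x.1 y.2 z

/-- a one-sided array of size `N` -/
def Ar1 (P : X → Y → Z → Prop) (N : ℕ) : Prop :=
  ∃ (a : ℕ → X) (u : ℕ → Y) (c : ℕ → ℕ → Z), ∀ i < N, ∀ j < N, P (a i) (u j) (c i j) ∧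
    (∀ k < N, i < k → ¬ P (a k) (u j) (c i j)) ∧ ∀ l < N, j < l → ¬ P (a i) (u l) (c i j)

theorem arr_comb (P : X → Y → Z → Prop) (h : ∀ N, Ar1 P N) (m : ℕ) :
    ∃ (x : Fin m → X × X) (y : Fin m → Y × Y) (z : Fin m → Fin m → Z),
      ∀ i j a b, ArP P (x i) (y j) (z a b) ↔ i = a ∧ j = b := by
  classical
  obtain ⟨M, hM⟩ := ramN (κ := Fin 6 → Prop) (2 * m)
  obtain ⟨N, hN⟩ := ramN (κ := Fin M → Fin M → Fin 3 → Prop) (2 * m + 1)
  obtain ⟨a, u, c, hauc⟩ := h (N + M)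
  obtain ⟨f, hf, hfN, k, hk⟩ := hN fun r s l j =>
    ![P (a r) (u l) (c s j), P (a s) (u l) (c r j), P (a r) (u l) (c r j)]
  -- values on the homogeneous set of rows
  have e0 : ∀ r s, r < s → s < 2 * m + 1 → ∀ l j : Fin M,
      (P (a (f r)) (u l) (c (f s) j) ↔ k l j 0) := by
    intro r s hrs hs l j
    have h1 := congrFun (congrFun (congrFun (hk r s hrs hs) l) j) 0
    exact Iff.of_eq h1
  have e1 : ∀ r s, r < s → s < 2 * m + 1 → ∀ l j : Fin M,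
      (P (a (f s)) (u l) (c (f r) j) ↔ k l j 1) := by
    intro r s hrs hs l j
    have h1 := congrFun (congrFun (congrFun (hk r s hrs hs) l) j) 1
    exact Iff.of_eq h1
  have e2 : ∀ r, r < 2 * m → ∀ l j : Fin M, (P (a (f r)) (u l) (c (f r) j) ↔ k l j 2) := by
    intro r hr l j
    have h1 := congrFun (congrFun (congrFun (hk r (2 * m) hr (Nat.lt_succ_self _)) l) j) 2
    exact Iff.of_eq h1
  obtain ⟨g, hg, hgM, k', hk'⟩ := hM fun l j =>
    if hl : l < M then if hj : j < M then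
      ![k ⟨l, hl⟩ ⟨j, hj⟩ 0, k ⟨l, hl⟩ ⟨j, hj⟩ 1, k ⟨l, hl⟩ ⟨j, hj⟩ 2,
        k ⟨j, hj⟩ ⟨l, hl⟩ 0, k ⟨j, hj⟩ ⟨l, hl⟩ 1, k ⟨j, hj⟩ ⟨l, hl⟩ 2]
      else fun _ => True else fun _ => True
  let G : ∀ q : ℕ, q < 2 * m → Fin M := fun q hq => ⟨g q, hgM q hq⟩
  have e3 : ∀ l j (hlj : l < j) (hj : j < 2 * m),
      k' = ![k (G l (hlj.trans hj)) (G j hj) 0, k (G l (hlj.trans hj)) (G j hj) 1,
        k (G l (hlj.trans hj)) (G j hj) 2, k (G j hj) (G l (hlj.trans hj)) 0,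
        k (G j hj) (G l (hlj.trans hj)) 1, k (G j hj) (G l (hlj.trans hj)) 2] := by
    intro l j hlj hj
    have h1 := hk' l j hlj hj
    rw [dif_pos (hgM l (hlj.trans hj)), dif_pos (hgM j hj)] at h1
    exact h1.symm
  have h3 : ∀ t : Fin 3, ∀ l j (hlj : l < j) (hj : j < 2 * m),
      k' (Fin.castLE (by norm_num) t) = k (G l (hlj.trans hj)) (G j hj) t ∧
      k' (Fin.natAdd 3 t) = k (G j hj) (G l (hlj.trans hj)) t := by
    intro t l j hlj hj
    have h1 := e3 l j hlj hj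
    constructor
    · rw [h1]
      fin_cases t <;> rfl
    · rw [h1]
      fin_cases t <;> rfl
  have hp : ∀ p : Fin m, 2 * p.1 < 2 * m := fun p => by omega
  have hp1 : ∀ p : Fin m, 2 * p.1 + 1 < 2 * m := fun p => by omega
  -- rows
  have hrow : ∀ p' p : Fin m, p' ≠ p → ∀ l j : Fin M,
      (P (a (f (2 * p'.1))) (u l) (c (f (2 * p.1)) j) ↔
        P (a (f (2 * p'.1 + 1))) (u l) (c (f (2 * p.1)) j)) := by
    intro p' p hpp l j
    have hpp' : p'.1 ≠ p.1 := fun h => hpp (Fin.ext h)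
    have := p.2
    have := p'.2
    rcases lt_or_gt_of_ne hpp' with h1 | h1
    · rw [e0 _ _ (by omega) (by omega), e0 _ _ (by omega) (by omega)]
    · rw [e1 _ _ (by omega) (by omega), e1 _ _ (by omega) (by omega)]
  -- columns
  have hcol : ∀ (t : Fin 3) (q' q : Fin m), q' ≠ q →
      k (G (2 * q'.1) (hp q')) (G (2 * q.1) (hp q)) t =
        k (G (2 * q'.1 + 1) (hp1 q')) (G (2 * q.1) (hp q)) t := by
    intro t q' q hqq
    have hqq' : q'.1 ≠ q.1 := fun h => hqq (Fin.ext h)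
    rcases lt_or_gt_of_ne hqq' with h1 | h1
    · rw [← (h3 t (2 * q'.1) (2 * q.1) (by omega) (hp q)).1,
        ← (h3 t (2 * q'.1 + 1) (2 * q.1) (by omega) (hp q)).1]
    · rw [← (h3 t (2 * q.1) (2 * q'.1) (by omega) (hp q')).2,
        ← (h3 t (2 * q.1) (2 * q'.1 + 1) (by omega) (hp1 q')).2]
  refine ⟨fun p => (a (f (2 * p.1)), a (f (2 * p.1 + 1))),
    fun q => (u (g (2 * q.1)), u (g (2 * q.1 + 1))),
    fun p q => c (f (2 * p.1)) (g (2 * q.1)), ?_⟩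
  intro p' q' p q
  have hfp : ∀ i, i < 2 * m + 1 → f i < N + M := fun i hi => by have := hfN i hi; omega
  have hgp : ∀ i, i < 2 * m → g i < N + M := fun i hi => by have := hgM i hi; omega
  constructor
  · rintro ⟨h1, h2, h4⟩
    by_cases hpp : p' = p
    · subst hpp
      refine ⟨rfl, ?_⟩
      by_contra hqq
      apply h4
      have h5 := (e2 (2 * p'.1) (hp p') (G (2 * q'.1) (hp q')) (G (2 * q.1) (hp q))).1 h1
      rw [hcol 2 q' q hqq] at h5
      exact (e2 (2 * p'.1) (hp p') (G (2 * q'.1 + 1) (hp1 q')) (G (2 * q.1) (hp q))).2 h5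
    · exact absurd ((hrow p' p hpp (G (2 * q'.1) (hp q')) (G (2 * q.1) (hp q))).1 h1) h2
  · rintro ⟨rfl, rfl⟩
    have h1 := hauc (f (2 * p'.1)) (hfp _ (by have := p'.2; omega)) (g (2 * q'.1))
      (hgp _ (by have := q'.2; omega))
    refine ⟨h1.1, ?_, ?_⟩
    · exact h1.2.1 _ (hfp _ (by have := p'.2; omega)) (hf (Nat.lt_succ_self _))
    · exact h1.2.2 _ (hgp _ (by have := q'.2; omega)) (hg (Nat.lt_succ_self _))

end

end Pool.Agent.TPY
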