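import Pool.Agent.TPY.CDP
import Pool.Agent.TPY.ARC

/-!
# TPY [ARR]: there are no one-sided arrays of arbitrary size
-/

set_option autoImplicit false
set_option linter.unusedVariables false

namespace Pool.Agent.TPY

open FirstOrder.Language Set
open scoped FirstOrder
open Pool.Agent.MNO

section

variable {X Y Z : Type}

/-- a one-sided array of size `N`; `s`, `t` are the sides of the rows and of the columns (`true`: false for all larger
indices; `false`: false for all smaller indices) -/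
def OAr (P : X → Y → Z → Prop) (s t : Bool) (N : ℕ) : Prop :=
  ∃ (a : ℕ → X) (u : ℕ → Y) (c : ℕ → ℕ → Z), ∀ i < N, ∀ j < N, P (a i) (u j) (c i j) ∧
    (∀ k < N, (bif s then i < k else k < i) → ¬ P (a k) (u j) (c i j)) ∧
    ∀ l < N, (bif t then j < l else l < j) → ¬ P (a i) (u l) (c i j)

theorem OAr.row {P : X → Y → Z → Prop} {s t : Bool} {N : ℕ} (h : OAr P s t N) : OAr P true t N := by
  cases s with
  | true => exact h
  | false =>
    obtain ⟨a, u, c, h⟩ := h
    refine ⟨fun i => a (N - 1 - i), u, fun i j => c (N - 1 - i) j, fun i hi j hj => ?_⟩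
    obtain ⟨h1, h2, h3⟩ := h (N - 1 - i) (by omega) j hj
    refine ⟨h1, fun k hk hik => h2 (N - 1 - k) (by omega) ?_, h3⟩
    have hik' : i < k := hik
    show N - 1 - k < N - 1 - i
    omega

theorem OAr.col {P : X → Y → Z → Prop} {s t : Bool} {N : ℕ} (h : OAr P s t N) : OAr P s true N := by
  cases t with
  | true => exact h
  | false =>
    obtain ⟨a, u, c, h⟩ := h
    refine ⟨a, fun j => u (N - 1 - j), fun i j => c i (N - 1 - j), fun i hi j hj => ?_⟩
    obtain ⟨h1, h2, h3⟩ := h i hi (N - 1 - j) (by omega)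
    refine ⟨h1, h2, fun l hl hjl => h3 (N - 1 - l) (by omega) ?_⟩
    have hjl' : j < l := hjl
    show N - 1 - l < N - 1 - j
    omega

theorem OAr.ar1 {P : X → Y → Z → Prop} {s t : Bool} {N : ℕ} (h : OAr P s t N) : Ar1 P N := h.row.col

end

variable {L : FirstOrder.Language.{0, 0}} {U : Type} [L.Structure U]

/-- [ARR] there are no one-sided arrays of arbitrary size -/
theorem arr (hC : Cz L U) {α β : Type} [Finite α] [Finite β] {A : Set U}
    {P : (α → U) → (β → U) → U → Prop}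
    (hP : Dp L A (fun v : (α ⊕ β) ⊕ Unit → U =>
      P (fun i => v (Sum.inl (Sum.inl i))) (fun i => v (Sum.inl (Sum.inr i))) (v (Sum.inr ()))))
    (h : ∀ N, ∃ s t, OAr P s t N) : False := by
  obtain ⟨A₀, hA₀, -, hP₀⟩ := dp_fin hP
  obtain ⟨k, hk⟩ := thm_CDP L U hC (α ⊕ α) (β ⊕ β) A₀ (fun x y z =>
    P (fun i => x (Sum.inl i)) (fun i => y (Sum.inl i)) z ∧
      ¬ P (fun i => x (Sum.inr i)) (fun i => y (Sum.inl i)) z ∧
      ¬ P (fun i => x (Sum.inl i)) (fun i => y (Sum.inr i)) z) hA₀ (by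
    have h1 := dp_sub hP₀ (Sum.elim (Sum.elim (fun i => Sum.inl (Sum.inl (Sum.inl i)))
      (fun i => Sum.inl (Sum.inr (Sum.inl i)))) (fun _ => Sum.inr ()) :
        (α ⊕ β) ⊕ Unit → ((α ⊕ α) ⊕ (β ⊕ β)) ⊕ Unit)
    have h2 := dp_sub hP₀ (Sum.elim (Sum.elim (fun i => Sum.inl (Sum.inl (Sum.inr i)))
      (fun i => Sum.inl (Sum.inr (Sum.inl i)))) (fun _ => Sum.inr ()) :
        (α ⊕ β) ⊕ Unit → ((α ⊕ α) ⊕ (β ⊕ β)) ⊕ Unit)
    have h3 := dp_sub hP₀ (Sum.elim (Sum.elim (fun i => Sum.inl (Sum.inl (Sum.inl i)))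
      (fun i => Sum.inl (Sum.inr (Sum.inr i)))) (fun _ => Sum.inr ()) :
        (α ⊕ β) ⊕ Unit → ((α ⊕ α) ⊕ (β ⊕ β)) ⊕ Unit)
    exact dp_and h1 (dp_and (dp_not h2) (dp_not h3)))
  apply hk
  obtain ⟨x, y, z, hxyz⟩ := arr_comb P (fun N => by
    obtain ⟨s, t, h1⟩ := h N
    exact h1.ar1) k
  exact ⟨fun i => Sum.elim (x i).1 (x i).2, fun j => Sum.elim (y j).1 (y j).2, z, hxyz⟩

end Pool.Agent.TPY
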