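import Pool.Agent.TPY.LSC

/-!
# TPY, module LSD (helper73): coheirs over countable elementary sets; invariant relations on a strong type
-/

set_option autoImplicit false
set_option linter.unusedVariables false

namespace Pool.Agent.TPY

open FirstOrder.Language Set
open scoped FirstOrder
open Pool.Agent.MNO

section

variable {L : FirstOrder.Language.{0, 0}} {U : Type} [L.Structure U] {A M : Set U} {α : Type}

/-! ### elementary sets -/

variable (L) in
/-- nonempty properties of tuples over `M` are satisfied in `M` -/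
def Elm (M : Set U) : Prop :=
  ∀ (k : ℕ) (P : (Fin k → U) → Prop), Dp L M P → (∃ x, P x) → ∃ x, (∀ i, x i ∈ M) ∧ P x

theorem elm_fin (h : Elm L M) [Finite α] {P : (α → U) → Prop} (hP : Dp L M P) (hx : ∃ x, P x) :
    ∃ x, (∀ i, x i ∈ M) ∧ P x := by
  obtain ⟨n, ⟨e⟩⟩ := Finite.exists_equiv_fin α
  obtain ⟨x, hx⟩ := hx
  obtain ⟨y, hy, hy'⟩ := h n (fun v => P (fun i => v (e i))) (dp_sub hP e) ⟨fun i => x (e.symm i), by
    show P (fun i => x (e.symm (e i)))
    have e1 : (fun i => x (e.symm (e i))) = x := by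
      funext i
      rw [e.symm_apply_apply]
    rw [e1]
    exact hx⟩
  exact ⟨fun i => y (e i), fun i => hy _, hy'⟩

theorem elm_ex (hC : Cz L U) {B : Set U} (hB : B.Countable) : ∃ M, B ⊆ M ∧ M.Countable ∧ Elm L M := by
  classical
  -- one step
  have h1 : ∀ D : Set U, D.Countable → ∃ D' : Set U, D'.Countable ∧ D ⊆ D' ∧
      ∀ (k : ℕ) (P : (Fin k → U) → Prop), Dp L D P → (∃ x, P x) → ∃ x, (∀ i, x i ∈ D') ∧ P x := by
    intro D hD
    have h2 : ∀ (k : ℕ) (P : (Fin k → U) → Prop), ∃ x, (∃ x, P x) → P x := by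
      intro k P
      obtain ⟨u0⟩ := hC.ne
      by_cases h : ∃ x, P x
      · obtain ⟨x, hx⟩ := h
        exact ⟨x, fun _ => hx⟩
      · exact ⟨fun _ => u0, fun h' => absurd h' h⟩
    choose f hf using h2
    refine ⟨D ∪ ⋃ k : ℕ, ⋃ P ∈ {P : (Fin k → U) → Prop | Dp L D P}, range (f k P), ?_, subset_union_left, ?_⟩
    · exact hD.union (countable_iUnion fun k => (dp_cnt hC hD).biUnion fun P _ => countable_range _)
    · intro k P hP hx
      refine ⟨f k P, fun i => Or.inr ?_, hf k P hx⟩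
      refine mem_iUnion.2 ⟨k, mem_biUnion (show P ∈ {P : (Fin k → U) → Prop | Dp L D P} from hP) ⟨i, rfl⟩⟩
  choose! g hg1 hg2 hg3 using h1
  let D : ℕ → Set U := fun n => g^[n] B
  have hD : ∀ n, (D n).Countable := by
    intro n
    induction n with
    | zero => exact hB
    | succ n ih =>
      have e : D (n + 1) = g (D n) := Function.iterate_succ_apply' g n B
      rw [e]
      exact hg1 _ ih
  have hDs : ∀ n, D n ⊆ D (n + 1) := by
    intro n
    have e : D (n + 1) = g (D n) := Function.iterate_succ_apply' g n B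
    rw [e]
    exact hg2 _ (hD n)
  have hmono : Monotone D := monotone_nat_of_le_succ hDs
  refine ⟨⋃ n, D n, fun x hx => mem_iUnion.2 ⟨0, hx⟩, countable_iUnion hD, ?_⟩
  intro k P hP hx
  obtain ⟨B', hB', hB'M, hPB⟩ := dp_fin hP
  obtain ⟨n, hn⟩ : ∃ n, B' ⊆ D n := by
    have h3 : ∀ x ∈ B', ∃ n, x ∈ D n := fun x hx => mem_iUnion.1 (hB'M hx)
    choose! m hm using h3
    obtain ⟨N, hN⟩ := (hB'.image m).bddAbove
    exact ⟨N, fun x hx => hmono (hN ⟨x, hx, rfl⟩) (hm x hx)⟩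
  obtain ⟨x, hx, hPx⟩ := hg3 (D n) (hD n) k P (dp_mono hn hPB) hx
  refine ⟨x, fun i => mem_iUnion.2 ⟨n + 1, ?_⟩, hPx⟩
  have e : D (n + 1) = g (D n) := Function.iterate_succ_apply' g n B
  rw [e]
  exact hx i

/-- types over an elementary set determine strong types -/
theorem sq_of_elm (hM : Elm L M) (hAM : A ⊆ M) [Finite α] {x y : α → U} (h : Tq L M x y) : Sq L A x y := by
  classical
  intro E hE
  obtain ⟨s, hs, hs'⟩ := hE.fin
  have : Finite s := hs
  have h1 : Dp L M (fun w : s × α → U => ∀ v : α → U, ∃ i : s, E v (fun j => w (i, j))) := by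
    refine dp_all (P := fun u : (s × α) ⊕ α → U => ∃ i : s, E (fun j => u (Sum.inr j)) (fun j => u (Sum.inl (i, j))))
      (dp_ex_fin fun i => ?_)
    exact dp_congr (dp_sub (dp_mono hAM hE.dfn) (Sum.elim Sum.inr (fun j => Sum.inl (i, j)) :
      α ⊕ α → (s × α) ⊕ α)) fun v => Iff.rfl
  obtain ⟨w, hw, hw'⟩ := elm_fin hM h1 ⟨fun p => p.1.1 p.2, fun v => by
    obtain ⟨y, hy, hvy⟩ := hs' v
    exact ⟨⟨y, hy⟩, hvy⟩⟩
  obtain ⟨i, hi⟩ := hw' x
  have h2 : Dp L M (fun v : α → U => E v (fun j => w (i, j))) := by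
    have h3 := dp_par (dp_congr (dp_mono hAM hE.dfn) (Q := fun v : α ⊕ α → U =>
      E (fun i => v (Sum.inl i)) (fun i => v (Sum.inr i))) fun v => Iff.rfl) (fun j => w (i, j)) (fun j => hw _)
    exact h3
  exact hE.eqv.trans hi (hE.eqv.symm ((tq_iff h h2).1 hi))

/-! ### coheirs -/

theorem coh_ex (hM : Elm L M) [Finite α] (x : α → U) :
    ∃ q : ((α → U) → Prop) → Prop, GT L q ∧ (∀ P, Dp L M P → (q P ↔ P x)) ∧
      ∀ P, q P → ∃ m : α → U, (∀ i, m i ∈ M) ∧ P m := by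
  classical
  obtain ⟨q, hq, hqF⟩ := gt_ext (L := L) (F := {P : (α → U) → Prop | (Dp L M P ∧ P x) ∨
    (Dp L (univ : Set U) P ∧ ∀ m : α → U, (∀ i, m i ∈ M) → P m)}) (by
      rintro P (⟨hP, -⟩ | ⟨hP, -⟩)
      · exact dp_mono (subset_univ _) hP
      · exact hP) (by
      intro G hG hfin
      have h1 : ∀ P : (α → U) → Prop, ∃ Q : (α → U) → Prop, Q ∈ Tpf L M x ∧
          (P ∈ G → ∀ m : α → U, (∀ i, m i ∈ M) → Q m → P m) := by
        intro P
        by_cases hP : P ∈ G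
        · rcases hG hP with ⟨h1, h2⟩ | ⟨h1, h2⟩
          · exact ⟨P, ⟨h1, h2⟩, fun _ m _ h => h⟩
          · exact ⟨fun _ => True, ⟨dp_true, trivial⟩, fun _ m hm _ => h2 m hm⟩
        · exact ⟨fun _ => True, ⟨dp_true, trivial⟩, fun h => absurd h hP⟩
      choose f hf hf' using h1
      obtain ⟨Q, hQ, hQ'⟩ := fam_and (X := α → U) (Γ := Tpf L M x) ⟨dp_true, trivial⟩
        (fun P hP Q hQ => ⟨dp_and hP.1 hQ.1, hP.2, hQ.2⟩) hfin f (fun P _ => hf P)
      obtain ⟨m, hm, hQm⟩ := elm_fin hM hQ.1 ⟨x, hQ.2⟩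
      exact ⟨m, fun P hP => hf' P hP m hm (hQ' m hQm P hP)⟩)
  refine ⟨q, hq, fun P hP => ⟨fun h => ?_, fun h => hqF P (Or.inl ⟨hP, h⟩)⟩, fun P hP => ?_⟩
  · by_contra h1
    obtain ⟨y, hy, hy'⟩ := hq.ne _ (hq.and _ _ h (hqF _ (Or.inl ⟨dp_not hP, h1⟩)))
    exact hy' hy
  · by_contra h1
    push Not at h1
    obtain ⟨y, hy, hy'⟩ := hq.ne _ (hq.and _ _ hP (hqF _ (Or.inr ⟨dp_not (hq.dfn P hP), h1⟩)))
    exact hy' hy

theorem coh_inv {q : ((α → U) → Prop) → Prop} (hq : GT L q)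
    (hqM : ∀ P, q P → ∃ m : α → U, (∀ i, m i ∈ M) ∧ P m) {γ : Type} {φ : (α ⊕ γ → U) → Prop} (hφ : Dp L M φ)
    {c c' : γ → U} (h : Tq L M c c') : q (fun x => φ (Sum.elim x c)) ↔ q (fun x => φ (Sum.elim x c')) := by
  have key : ∀ {c c' : γ → U}, Tq L M c c' → q (fun x => φ (Sum.elim x c)) → q (fun x => φ (Sum.elim x c')) := by
    intro c c' h h1
    by_contra h2
    have hd : Dp L (univ : Set U) (fun x => φ (Sum.elim x c')) :=
      dp_par (dp_mono (subset_univ _) hφ) c' (fun i => mem_univ _)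
    obtain ⟨m, hm, h3, h4⟩ := hqM _ (hq.and _ _ h1 ((gt_not hq hd).2 h2))
    have h5 : Dp L M (fun v : γ → U => φ (Sum.elim m v)) := by
      have h6 := dp_par (dp_sub hφ (Sum.swap : α ⊕ γ → γ ⊕ α)) m hm
      refine dp_congr h6 fun v => iff_of_eq (congrArg φ ?_)
      funext i
      rcases i with i | i <;> rfl
    exact h4 ((tq_iff h h5).1 h3)
  exact ⟨key h, key (tq_symm h)⟩

/-- realisations of a global type -/
theorem gt_rdp (hC : Cz L U) [Countable α] {q : ((α → U) → Prop) → Prop} (hq : GT L q) {B : Set U}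
    (hB : B.Countable) : ∃ y, ∀ P, Dp L B P → (q P ↔ P y) := by
  obtain ⟨y, hy⟩ := sat_dp hC (α := α) hB (F := {P | Dp L B P ∧ q P}) (fun P hP => hP.1) (by
    intro G hG hfin
    exact hq.ne _ (gt_all hq hfin fun P hP => (hG hP).2))
  refine ⟨y, fun P hP => ⟨fun h => hy P ⟨hP, h⟩, fun h => ?_⟩⟩
  by_contra h1
  exact hy _ ⟨dp_not hP, (gt_not hq (dp_mono (subset_univ _) hP)).2 h1⟩ h

/-- a Morley sequence -/
theorem mor_dp (hC : Cz L U) [Countable α] {q : ((α → U) → Prop) → Prop} (hq : GT L q) {B : Set U}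
    (hB : B.Countable) : ∃ w : ℕ → α → U, ∀ (n : ℕ) (P : (α → U) → Prop),
      Dp L (B ∪ {x | ∃ i < n, ∃ k, x = w i k}) P → (q P ↔ P (w n)) := by
  classical
  have h1 : ∀ D : {D : Set U // D.Countable}, ∃ y, ∀ P, Dp L D.1 P → (q P ↔ P y) := fun D => gt_rdp hC hq D.2
  choose f hf using h1
  let D : ℕ → {D : Set U // D.Countable} := fun n =>
    (fun D : {D : Set U // D.Countable} => (⟨D.1 ∪ range (f D), D.2.union (countable_range _)⟩ :
      {D : Set U // D.Countable}))^[n] ⟨B, hB⟩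
  have hD : ∀ n, (D (n + 1)).1 = (D n).1 ∪ range (f (D n)) := by
    intro n
    have e : D (n + 1) = (⟨(D n).1 ∪ range (f (D n)), (D n).2.union (countable_range _)⟩ :
        {D : Set U // D.Countable}) := Function.iterate_succ_apply' _ n _
    rw [e]
  refine ⟨fun n => f (D n), fun n P hP => hf (D n) P (dp_mono ?_ hP)⟩
  have h2 : ∀ n, B ⊆ (D n).1 ∧ ∀ i < n, range (f (D i)) ⊆ (D n).1 := by
    intro n
    induction n with
    | zero => exact ⟨Subset.rfl, fun i hi => absurd hi (Nat.not_lt_zero i)⟩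
    | succ n ih =>
      rw [hD]
      refine ⟨ih.1.trans subset_union_left, fun i hi => ?_⟩
      rcases Nat.lt_succ_iff_lt_or_eq.1 hi with h | rfl
      · exact (ih.2 i h).trans subset_union_left
      · exact subset_union_right
  rintro x (hx | ⟨i, hi, k, rfl⟩)
  · exact (h2 n).1 hx
  · exact (h2 n).2 i hi ⟨k, rfl⟩

/-- a Morley sequence of a coheir over `M`, `x`, `y`; the pairs have the type of `w 0`, `x` and of `w 0`, `y` -/
theorem coh_seq (hC : Cz L U) (hM : Elm L M) (hMc : M.Countable) [Finite α] {x y : α → U} (hxy : Tq L M x y) :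
    ∃ w : ℕ → α → U, (∀ i, Tq L M x (w i)) ∧ ∀ i j, i < j →
      Tq L M (Sum.elim (w j) (w i)) (Sum.elim (w 0) x) ∧ Tq L M (Sum.elim (w j) (w i)) (Sum.elim (w 0) y) := by
  obtain ⟨q, hq, hqx, hqM⟩ := coh_ex hM x
  obtain ⟨w, hw⟩ := mor_dp hC hq (B := M ∪ range x ∪ range y) ((hMc.union (countable_range _)).union (countable_range _))
  have hwM : ∀ i, Tq L M x (w i) := fun i P hP hPx =>
    (hw i P (dp_mono (fun z hz => Or.inl (Or.inl (Or.inl hz))) hP)).1 ((hqx P hP).2 hPx)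
  have key : ∀ (z : α → U) (hz : Tq L M x z) (hzB : range z ⊆ M ∪ range x ∪ range y) (i j : ℕ), i < j →
      Tq L M (Sum.elim (w j) (w i)) (Sum.elim (w 0) z) := by
    intro z hz hzB i j hij φ hφ h1
    have h2 : q (fun v => φ (Sum.elim v (w i))) := by
      refine (hw j _ (dp_par (dp_mono ?_ hφ) (w i) fun k => Or.inr ⟨i, hij, k, rfl⟩)).2 h1
      exact fun z hz => Or.inl (Or.inl (Or.inl hz))
    have h3 := (coh_inv hq hqM hφ (tq_trans (tq_symm (hwM i)) hz)).1 h2
    refine (hw 0 _ (dp_par (dp_mono ?_ hφ) z fun k => Or.inl (hzB ⟨k, rfl⟩))).1 h3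
    exact fun z hz => Or.inl (Or.inl (Or.inl hz))
  exact ⟨w, hwM, fun i j hij => ⟨key x (tq_refl x) (fun z hz => Or.inl (Or.inr hz)) i j hij,
    key y hxy (fun z hz => Or.inr hz) i j hij⟩⟩

/-! ### invariant relations -/

/-- a relation which contains the pairs with the same type over a countable elementary set is trivial on the strong type -/
theorem rel_of_elm (hC : Cz L U) [Finite α] (hA : A.Finite) (a : α → U) (R : (α → U) → (α → U) → Prop)
    (ht : ∀ x y z, Sq L A a x → Sq L A a y → Sq L A a z → R x y → R y z → R x z)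
    (hR : ∀ M : Set U, A ⊆ M → M.Countable → Elm L M → ∀ x y, Sq L A a x → Tq L M x y → R x y)
    {x y : α → U} (hx : Sq L A a x) (hy : Sq L A a y) : R x y := by
  obtain ⟨M, hAM, hM, hME⟩ := elm_ex hC hA.countable
  obtain ⟨κ, _, μ, hμ⟩ := exists_cenum hM
  have h1 : Lsc L A μ x y := lsc_of_sq hC hA (by
    rw [hμ]
    exact hAM) (sq_trans (sq_symm hx) hy)
  obtain ⟨n, hn⟩ := h1
  -- one step
  have step : ∀ u v, Sq L A a u → Lst L A μ u v → Sq L A a v ∧ R u v := by
    rintro u v hu ⟨ν, h2, h3⟩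
    have h4 : A ⊆ range ν := by
      intro z hz
      have h5 := hAM hz
      rw [← hμ] at h5
      obtain ⟨k, hk⟩ := h5
      refine ⟨k, ?_⟩
      rw [tq_par h2 k (by rw [hk]; exact hz)]
      exact hk
    have h5 : Elm L (range ν) := by
      intro k P hP hxP
      obtain ⟨Q, hQ, hPQ⟩ := dp_fam0 hP
      have hQ' : Dp L A Q := dp_mono (empty_subset _) hQ
      have h6 : Dp L A (fun v : κ → U => ∃ x : Fin k → U, Q (Sum.elim x v)) := by
        have h7 := dp_ex (P := fun w : κ ⊕ Fin k → U => Q (fun i => w (Sum.swap i))) (dp_sub hQ' Sum.swap)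
        refine dp_congr h7 fun v => ?_
        refine exists_congr fun x => iff_of_eq (congrArg Q ?_)
        funext i
        rcases i with i | i <;> rfl
      obtain ⟨x, hx⟩ := hxP
      have h8 : ∃ x : Fin k → U, Q (Sum.elim x μ) := (tq_iff h2 h6).2 ⟨x, (hPQ x).1 hx⟩
      obtain ⟨y, hy, hy'⟩ := hME k (fun x => Q (Sum.elim x μ)) (dp_par (dp_mono (empty_subset _) hQ) μ fun i => by
        rw [← hμ]
        exact ⟨i, rfl⟩) h8
      rw [← hμ] at hy
      choose f hf using hy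
      refine ⟨fun i => ν (f i), fun i => ⟨f i, rfl⟩, (hPQ _).2 ?_⟩
      have h9 : Dp L A (fun v : κ → U => Q (Sum.elim (fun i => v (f i)) v)) := by
        refine dp_congr (dp_sub hQ' (Sum.elim f id : Fin k ⊕ κ → κ)) fun v => iff_of_eq (congrArg Q ?_)
        funext i
        rcases i with i | i <;> rfl
      refine (tq_iff h2 h9).1 ?_
      have e : (fun i => μ (f i)) = y := funext hf
      show Q (Sum.elim (fun i => μ (f i)) μ)
      rw [e]
      exact hy'
    have h6 : Tq L (range ν) u v := by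
      have h7 := tq_fam.2 h3
      rw [union_eq_self_of_subset_left h4] at h7
      exact h7
    exact ⟨sq_trans hu (sq_of_elm h5 h4 h6), hR _ h4 (countable_range _) h5 u v hu h6⟩
  -- the chain
  have chain : ∀ n z, Lsd L A μ n x z → Sq L A a z ∧ R x z := by
    intro n
    induction n with
    | zero =>
      intro z hz
      have e : x = z := hz
      rw [← e]
      exact ⟨hx, hR M hAM hM hME x x hx (tq_refl x)⟩
    | succ n ih =>
      rintro z ⟨w, hw, hw'⟩
      obtain ⟨h2, h3⟩ := ih w hw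
      obtain ⟨h4, h5⟩ := step w z h2 hw'
      exact ⟨h4, ht x w z hx h2 h4 h3 h5⟩
  exact (chain n y hn).2

/-- **BND** -/
theorem bnd_lst (hC : Cz L U) [Finite α] (hA : A.Finite) (a : α → U)
    (R : (α → U) → (α → U) → Prop)
    (hs : ∀ x y, Sq L A a x → Sq L A a y → R x y → R y x)
    (ht : ∀ x y z, Sq L A a x → Sq L A a y → Sq L A a z → R x y → R y z → R x z)
    (hi : ∀ x y x' y', Sq L A a x → Sq L A a y → Sq L A (Sum.elim x y) (Sum.elim x' y') →
      R x y → R x' y') (k : ℕ)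
    (hk : ∀ z : Fin (k + 1) → (α → U), (∀ i, Sq L A a (z i)) → ∃ i j, i < j ∧ R (z i) (z j)) :
    ∀ x y, Sq L A a x → Sq L A a y → R x y := by
  intro x y hx hy
  refine rel_of_elm hC hA a R ht (fun M hAM hM hME u v hu huv => ?_) hx hy
  obtain ⟨w, hw, hw'⟩ := coh_seq hC hME hM huv
  have hws : ∀ i, Sq L A a (w i) := fun i => sq_trans hu (sq_of_elm hME hAM (hw i))
  have hv : Sq L A a v := sq_trans hu (sq_of_elm hME hAM huv)
  obtain ⟨i, j, hij, h1⟩ := hk (fun i => w i) (fun i => hws i)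
  have h2 : R (w j) (w i) := hs _ _ (hws i) (hws j) h1
  have h3 := hi _ _ _ _ (hws j) (hws i) (sq_of_elm hME hAM (hw' i j hij).1) h2
  have h4 := hi _ _ _ _ (hws j) (hws i) (sq_of_elm hME hAM (hw' i j hij).2) h2
  exact ht u (w 0) v hu (hws 0) hv (hs _ _ (hws 0) hu h3) h4

/-- a nontrivial invariant relation is different along a sequence with constant strong types of pairs -/
theorem bnd_seq (hC : Cz L U) [Finite α] (hA : A.Finite) (a : α → U)
    (R : (α → U) → (α → U) → Prop)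
    (hs : ∀ x y, Sq L A a x → Sq L A a y → R x y → R y x)
    (ht : ∀ x y z, Sq L A a x → Sq L A a y → Sq L A a z → R x y → R y z → R x z)
    (hi : ∀ x y x' y', Sq L A a x → Sq L A a y → Sq L A (Sum.elim x y) (Sum.elim x' y') →
      R x y → R x' y') (hn : ∃ x y, Sq L A a x ∧ Sq L A a y ∧ ¬ R x y) :
    ∃ w : ℕ → α → U, (∀ i, Sq L A a (w i)) ∧
      (∀ i j, i < j → Sq L A (Sum.elim (w i) (w j)) (Sum.elim (w 0) (w 1))) ∧
      ∀ i j, i ≠ j → ¬ R (w i) (w j) := by
  by_contra hno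
  push Not at hno
  obtain ⟨x, y, hx, hy, hxy⟩ := hn
  refine hxy (rel_of_elm hC hA a R ht (fun M hAM hM hME u v hu huv => ?_) hx hy)
  obtain ⟨w, hw, hw'⟩ := coh_seq hC hME hM huv
  have hws : ∀ i, Sq L A a (w i) := fun i => sq_trans hu (sq_of_elm hME hAM (hw i))
  have hv : Sq L A a v := sq_trans hu (sq_of_elm hME hAM huv)
  have hpair : ∀ i j, i < j → Sq L A (Sum.elim (w i) (w j)) (Sum.elim (w 0) (w 1)) := by
    intro i j hij
    have h1 : Tq L M (Sum.elim (w j) (w i)) (Sum.elim (w 1) (w 0)) :=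
      tq_trans (hw' i j hij).1 (tq_symm (hw' 0 1 Nat.zero_lt_one).1)
    refine sq_of_elm hME hAM ?_
    refine tq_congr (tq_sub h1 (Sum.swap : α ⊕ α → α ⊕ α)) ?_ ?_ <;>
    · funext k
      rcases k with k | k <;> rfl
  obtain ⟨i, j, hij, h1⟩ := hno w hws hpair
  have h2 : ∃ i j, i < j ∧ R (w j) (w i) := by
    rcases lt_or_gt_of_ne hij with h | h
    · exact ⟨i, j, h, hs _ _ (hws i) (hws j) h1⟩
    · exact ⟨j, i, h, h1⟩
  obtain ⟨i, j, hij, h2⟩ := h2
  have h3 := hi _ _ _ _ (hws j) (hws i) (sq_of_elm hME hAM (hw' i j hij).1) h2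
  have h4 := hi _ _ _ _ (hws j) (hws i) (sq_of_elm hME hAM (hw' i j hij).2) h2
  exact ht u (w 0) v hu (hws 0) hv (hs _ _ (hws 0) hu h3) h4

end

end Pool.Agent.TPY
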