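import Pool.Agent.TPY.IDF

/-!
# TPY/StI (helper34): indiscernible sequences, the statement forms used by StM, StR, StG

Everything is over `Cz` (`V` is only `ℵ₁`-saturated: no Erdős-Rado).  Sequences are indexed by `ℚ`, tuples are finite.
-/

set_option autoImplicit false
set_option linter.unusedVariables false

namespace Pool.Agent.TPY

open FirstOrder.Language Set
open scoped FirstOrder
open Pool.Agent.MNO (Dp FE Sq Exa)

/-- [EXT] Ramsey extraction: from any sequence `w` indexed by `ℕ` an `A`-indiscernible sequence indexed by `ℚ`, every increasing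
tuple of which is `E`-equivalent to an increasing tuple of `w` (for every `E ∈ FE A`; so all CLOSED conditions over `acl^eq(A)`
which hold for all increasing tuples of `w` hold for all increasing tuples of `u`).
PROOF.  `FE L A` on tuples indexed by `Fin n × α` is countable (`fe_cnt`).  For finitely many `E_1, .., E_k ∈ FE A` (lengths
`n_1, .., n_k`) Ramsey gives an infinite subsequence of `w` all of whose increasing `n_l`-tuples are `E_l`-equivalent.  So the
following countable set of properties of `v : ℚ × α → U` over `A ∪ range w` is finitely satisfiable: for `E ∈ FE A` of length `n`,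
`i : Fin n → ℚ` strictly monotone: `E (v_i) (w_j)` for one fixed `j` per `E` - the class of `E` chosen by a diagonal (choose
decreasing infinite subsets `S_0 ⊇ S_1 ⊇ ..` of `ℕ`, `S_k` homogeneous for `E_0, .., E_k`, the class of `E_k` is the one of the
increasing tuples of `S_k`).  `sat_dp`. -/
def St_EXT : Prop :=
  ∀ (L : FirstOrder.Language.{0, 0}) (U : Type) [L.Structure U], Cz L U →
    ∀ (α : Type) [Finite α] (A : Set U) (w : ℕ → α → U), A.Countable →
    ∃ u : ℚ → α → U, Idc L A u ∧ ∀ (n : ℕ) (i : Fin n → ℚ), StrictMono i →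
      ∀ E : (Fin n × α → U) → (Fin n × α → U) → Prop, FE L A E →
      ∃ j : Fin n → ℕ, StrictMono j ∧ E (tms u i) (tms w j)

/-- [IDS] indiscernible sequences are indiscernible for strong types.
PROOF.  `E ∈ FE A`, `i`, `j` strictly monotone.  Pigeonhole: infinitely many pairwise `≪` copies of `i` beyond `i` and `j`: two of
them are `E`-equivalent, `E (u_k) (u_l)`, `k ≪ l`; `Idc`: `E (u_k) (u_l)` for all `k ≪ l`; take `l` beyond `i` and `j`. -/
def St_IDS : Prop :=
  ∀ (L : FirstOrder.Language.{0, 0}) (U : Type) [L.Structure U], Cz L U →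
    ∀ (α : Type) [Finite α] (A : Set U) (u : ℚ → α → U), Idc L A u →
    ∀ (n : ℕ) (i j : Fin n → ℚ), StrictMono i → StrictMono j → Sq L A (tms u i) (tms u j)

/-- [IDB] terms as parameters: if no index in `S` is between two indices of the range of `f`, then `u ∘ f` is indiscernible over `A`
and the terms with index in `S`; reversal; subtuples.  PROOF.  Definable properties over `A ∪ Tm u S` use finitely many terms
(`dp_par` backwards: as in `Fr2`); order types.  Elementary. -/
def St_IDB : Prop :=
  ∀ (L : FirstOrder.Language.{0, 0}) (U : Type) [L.Structure U],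
    ∀ (α : Type) [Finite α] (A : Set U) (u : ℚ → α → U), Idc L A u →
    (∀ (S : Set ℚ) (f : ℚ → ℚ), StrictMono f → (∀ s ∈ S, (∀ q, f q < s) ∨ ∀ q, s < f q) →
      Idc L (A ∪ Tm u S) (fun q => u (f q))) ∧
    Idc L A (fun q => u (-q)) ∧
    (∀ (β : Type) (g : β → α), Idc L A (fun q b => u q (g b))) ∧
    (∀ B : Set U, B ⊆ A → Idc L B u)

/-- [HNG] hanging.  `u` indiscernible over the finite set `F`, `p` an increasing tuple of indices, `a` a tuple.  Then there is an
`F`-indiscernible sequence `(blocks of k terms, a copy of a)` in which every (block, copy) has the strong type of `(u_p, a)` over `F`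
and the blocks form an increasing sequence with the strong type of `u`.
PROOF.  `w_l := (u_{kl}, .., u_{kl + k - 1}, a_l)` with `a_l` from `sq_ext` (`Sq F (u_p) (u_{kl}, .., u_{kl+k-1})` by IDS); EXT. -/
def St_HNG : Prop :=
  ∀ (L : FirstOrder.Language.{0, 0}) (U : Type) [L.Structure U], Cz L U →
    ∀ (α β : Type) [Finite α] [Finite β] (F : Set U) (u : ℚ → α → U), F.Finite → Idc L F u →
    ∀ (k : ℕ) (p : Fin k → ℚ) (a : β → U), StrictMono p →
    ∃ v : ℚ → (Fin k × α) ⊕ β → U, Idc L F v ∧
      (∀ q, Sq L F (Sum.elim (tms u p) a) (v q)) ∧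
      ∀ (n : ℕ) (i : Fin n → ℚ) (g : ℕ → ℚ), StrictMono i → StrictMono g →
        Sq L F (fun x : Fin n × (Fin k × α) => v (i x.1) (Sum.inl x.2))
          (fun x : Fin n × (Fin k × α) => u (g (k * x.1 + x.2.1)) x.2.2)

/-- [BNI] Lascar = strong, for sequences: an equivalence relation on the strong type of `a` over the finite set `F` which is invariant
under `Sq F` and not trivial is `different` along some `F`-indiscernible sequence (with first terms not equivalent).
PROOF: LST (helper73): `Sq F x y` implies that `x`, `y` are connected by finitely many Theta-steps (neighbours in an infinite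
`F`-indiscernible sequence), so some Theta-step is not in `R`; `R` is invariant, so `R` fails for all pairs of the sequence. -/
def St_BNI : Prop :=
  ∀ (L : FirstOrder.Language.{0, 0}) (U : Type) [L.Structure U], Cz L U →
    ∀ (α : Type) [Finite α] (F : Set U) (a : α → U) (R : (α → U) → (α → U) → Prop), F.Finite →
    (∀ x, Sq L F a x → R x x) → (∀ x y, Sq L F a x → Sq L F a y → R x y → R y x) →
    (∀ x y z, Sq L F a x → Sq L F a y → Sq L F a z → R x y → R y z → R x z) →
    (∀ x y x' y', Sq L F a x → Sq L F a y → Sq L F (Sum.elim x y) (Sum.elim x' y') → R x y → R x' y') →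
    (∃ x y, Sq L F a x ∧ Sq L F a y ∧ ¬ R x y) →
    ∃ u : ℚ → α → U, Idc L F u ∧ (∀ q, Sq L F a (u q)) ∧ ∀ p q, p ≠ q → ¬ R (u p) (u q)

/-- [TRI] triviality (TR): if `u` is indiscernible over `F` and every entry of `c`, then over `F` and `c`. -/
def St_TRI : Prop :=
  ∀ (L : FirstOrder.Language.{0, 0}) (U : Type) [L.Structure U], Cz L U →
    ∀ (α γ : Type) [Finite α] [Finite γ] (F : Set U) (u : ℚ → α → U) (c : γ → U), F.Countable → Idc L F u →
    (∀ k, Idc L (insert (c k) F) u) → Idc L (F ∪ range c) u

/-- [DPM] a single element does not break two mutually indiscernible sequences. -/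
def St_DPM : Prop :=
  ∀ (L : FirstOrder.Language.{0, 0}) (U : Type) [L.Structure U], Cz L U →
    ∀ (α β : Type) [Finite α] [Finite β] (F : Set U) (u : ℚ → α → U) (v : ℚ → β → U) (y : U), F.Countable →
    Mut L F u v → Idc L (insert y F) u ∨ Idc L (insert y F) v

/-- [LNK] the strong two-point form of LINK (helper45): for elements `y`, `o ∉ acl F` of one piece some `F`-indiscernible sequence of
elements with the strong type of `y` is broken by an element with the strong type of `o`. -/
def St_LNK : Prop :=
  ∀ (L : FirstOrder.Language.{0, 0}) (U : Type) [L.Structure U], Cz L U →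
    ∀ (F : Set U) (y o : U), F.Finite → o ∈ Pc L F y → (∃ x, x ≠ y ∧ x ∈ Pc L F y) →
    ∃ (u : ℚ → Fin 1 → U) (v : U), Idc L F u ∧ (∀ q, Sq L F (s1 y) (u q)) ∧ Sq L F (s1 o) (s1 v) ∧
      ¬ Idc L (insert v F) u

/-- [GPE] **GAP**, first form: for every non-constant `F`-indiscernible sequence of elements the piece of a term over finitely many
other terms is ended (StG). -/
def St_GPE : Prop :=
  ∀ (L : FirstOrder.Language.{0, 0}) (U : Type) [L.Structure U], Cz L U →
    ∀ (F : Set U) (u : ℚ → Fin 1 → U), F.Finite → Idc L F u → u 0 0 ≠ u 1 0 →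
    ∃ J : Set ℚ, J.Finite ∧ (0 : ℚ) ∉ J ∧ Edd L (F ∪ Tm u J) (u 0 0)

end Pool.Agent.TPY
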