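import Pool.Agent.TPY.Tqi

/-!
# TPY (port of TPX): pieces are invariant under equality of types
-/

set_option autoImplicit false
set_option linter.unusedVariables false

namespace Pool.Agent.TPY

open FirstOrder.Language Set
open scoped FirstOrder
open Pool.Agent.MNO

section

variable {L : FirstOrder.Language.{0, 0}} {U : Type} [L.Structure U] {A : Set U}

variable (L) in
/-- strong types over `A` have the extension property -/
def Exq (A : Set U) : Prop :=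
  ∀ (m n : ℕ) (u u' : Fin m → U) (c : Fin n → U), Sq L A u u' →
    ∃ c' : Fin n → U, Sq L A (Sum.elim u c) (Sum.elim u' c')

theorem exq_of (hC : Cz L U) (hA : A.Countable) : Exq L A := fun m n u u' c h => sq_ext hC hA h c

theorem exq_fin {α β : Type} [Finite α] [Finite β] (hx : Exq L A) {u u' : α → U} (h : Sq L A u u')
    (c : β → U) : ∃ c' : β → U, Sq L A (Sum.elim u c) (Sum.elim u' c') := by
  obtain ⟨m, ⟨e⟩⟩ := Finite.exists_equiv_fin α
  obtain ⟨n, ⟨f⟩⟩ := Finite.exists_equiv_fin β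
  obtain ⟨c', hc'⟩ := hx m n (fun i => u (e.symm i)) (fun i => u' (e.symm i)) (fun j => c (f.symm j))
    (sq_sub h _)
  have h2 := sq_sub hc' (Sum.map e f : α ⊕ β → Fin m ⊕ Fin n)
  refine ⟨fun j => c' (f j), ?_⟩
  have e1 : ∀ (u : α → U) (c : Fin n → U), (fun i => Sum.elim (fun i => u (e.symm i)) c (Sum.map e f i)) =
      Sum.elim u (fun j => c (f j)) := by
    intro u c
    funext i
    rcases i with i | i
    · show u (e.symm (e i)) = u i
      rw [Equiv.symm_apply_apply]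
    · rfl
  rw [e1, e1] at h2
  have e2 : (fun j => (fun j => c (f.symm j)) (f j)) = c := by
    funext j
    show c (f.symm (f j)) = c j
    rw [Equiv.symm_apply_apply]
  rw [e2] at h2
  exact h2

/-- subtuples of orthogonal tuples are orthogonal -/
theorem ort_sub (hx : Exq L A) {α β γ δ : Type} [Finite α] [Finite γ] {u : α → U} {w : β → U}
    (h : Ort L A u w) {v : γ → U} {z : δ → U} (hv : ∀ i, v i ∈ range u) (hz : ∀ j, z j ∈ range w) :
    Ort L A v z := by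
  choose f hf using hv
  choose g hg using hz
  intro v' hv'
  obtain ⟨u', hu'⟩ := exq_fin hx hv' u
  have h1 : Sq L A u u' := sq_sub hu' Sum.inr
  have h2 := h u' h1
  -- equal coordinates
  have h3 : ∀ i, v' i = u' (f i) := by
    intro i
    have h4 := (sq_dp hu' (P := fun v => v (Sum.inl i) = v (Sum.inr (f i))) (dp_eq _ _)).1 (hf i).symm
    exact h4
  have h5 := sq_sub h2 (Sum.map f g)
  have e : ∀ (u : α → U), (fun i => Sum.elim u w (Sum.map f g i)) = Sum.elim (fun i => u (f i)) z := by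
    intro u
    funext i
    rcases i with i | i
    · rfl
    · exact hg i
  rw [e, e] at h5
  have e1 : (fun i => u (f i)) = v := funext hf
  have e2 : (fun i => u' (f i)) = v' := funext fun i => (h3 i).symm
  rw [e1, e2] at h5
  exact h5

variable (L) in
/-- the set `I` of indices of the tuple `z` could come from a member of the algebra of `A` -/
structure Sp (A : Set U) {ι : Type} (z : ι → U) (I : Set ι) : Prop where
  inv : ∀ i j, Sq L A (s1 (z i)) (s1 (z j)) → i ∈ I → j ∈ I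
  ort : Ort L A (fun i : {i // i ∈ I} => z i) (fun i : {i // i ∉ I} => z i)

theorem sp_bf {Q : Set U} (hQ : BF L A Q) {ι : Type} [Finite ι] (z : ι → U) : Sp L A z {i | z i ∈ Q} := by
  refine ⟨fun i j h hi => hQ.inv _ _ h hi, fun u' hu' => ?_⟩
  exact bf_prd hQ (fun i => i.2) (fun j => j.2) hu'

theorem sp_tq (hC : Cz L U) (hA : A.Countable) {ι γ : Type} [Finite ι] [Countable γ] {z z' : ι → U} {c c' : γ → U}
    (h : Tq L A (Sum.elim z c) (Sum.elim z' c')) {I : Set ι} (hI : Sp L (A ∪ range c) z I) :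
    Sp L (A ∪ range c') z' I := by
  refine ⟨fun i j hij hi => ?_, ?_⟩
  · refine hI.inv i j ?_ hi
    have h1 := tq_sub (tq_symm h) (Sum.elim (Sum.elim (fun _ => Sum.inl i) (fun _ => Sum.inl j)) Sum.inr :
      (Fin 1 ⊕ Fin 1) ⊕ γ → ι ⊕ γ)
    have e : ∀ (z : ι → U) (c : γ → U), (fun k => Sum.elim z c ((Sum.elim (Sum.elim (fun _ => Sum.inl i)
        (fun _ => Sum.inl j)) Sum.inr : (Fin 1 ⊕ Fin 1) ⊕ γ → ι ⊕ γ) k)) =
        Sum.elim (Sum.elim (s1 (z i)) (s1 (z j))) c := by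
      intro z c
      funext k
      rcases k with (k | k) | k <;> rfl
    rw [e, e] at h1
    exact sq_tq h1 hij
  · refine ort_tq hC hA ?_ hI.ort
    have h1 := tq_sub h (Sum.elim (Sum.elim (fun i => Sum.inl i.1) (fun j => Sum.inl j.1)) Sum.inr :
      ({i // i ∈ I} ⊕ {i // i ∉ I}) ⊕ γ → ι ⊕ γ)
    have e : ∀ (z : ι → U) (c : γ → U), (fun k => Sum.elim z c ((Sum.elim (Sum.elim (fun i => Sum.inl i.1)
        (fun j => Sum.inl j.1)) Sum.inr : ({i // i ∈ I} ⊕ {i // i ∉ I}) ⊕ γ → ι ⊕ γ) k)) =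
        Sum.elim (Sum.elim (fun i : {i // i ∈ I} => z i) (fun i : {i // i ∉ I} => z i)) c := by
      intro z c
      funext k
      rcases k with (k | k) | k <;> rfl
    rw [e, e] at h1
    exact h1

/-- compactness -/
theorem pc_sp (hx : Exq L A) {x y : U}
    (h : ∀ (n : ℕ) (z : Fin n → U), ∃ I : Set (Fin 2 ⊕ Fin n), Sum.inl 0 ∈ I ∧ Sum.inl 1 ∉ I ∧
      Sp L A (Sum.elim ![x, y] z) I) : ∃ Q, BF L A Q ∧ x ∈ Q ∧ y ∉ Q := by
  classical
  -- the local solutions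
  have h1 : ∀ s : Finset U, ∃ Q : Set U, x ∈ Q ∧ y ∉ Q ∧ (∀ a ∈ s, ∀ b ∈ s, Sq L A (s1 a) (s1 b) → a ∈ Q → b ∈ Q) ∧
      ∀ (m n : ℕ) (u : Fin m → U) (w : Fin n → U), (∀ i, u i ∈ s ∧ u i ∈ Q) → (∀ j, w j ∈ s ∧ w j ∉ Q) →
        Ort L A u w := by
    intro s
    obtain ⟨n, z, hz⟩ := exists_enum s.finite_toSet
    obtain ⟨I, h2, h3, h4⟩ := h n z
    let v : Fin 2 ⊕ Fin n → U := Sum.elim ![x, y] z
    have hsz : ∀ a ∈ s, ∃ i, v i = a := by
      intro a ha
      have h5 : a ∈ range z := by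
        rw [hz]
        exact ha
      obtain ⟨i, hi⟩ := h5
      exact ⟨Sum.inr i, hi⟩
    have hI : ∀ i j, v i = v j → i ∈ I → j ∈ I := by
      intro i j hij hi
      refine h4.inv i j ?_ hi
      show Sq L A (s1 (v i)) (s1 (v j))
      rw [hij]
      exact sq_refl A _
    refine ⟨{a | ∃ i ∈ I, v i = a}, ⟨_, h2, rfl⟩, ?_, ?_, ?_⟩
    · rintro ⟨i, hi, hiy⟩
      exact h3 (hI i (Sum.inl 1) hiy hi)
    · rintro a ha b hb hab ⟨i, hi, rfl⟩
      obtain ⟨j, rfl⟩ := hsz b hb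
      exact ⟨j, h4.inv i j hab hi, rfl⟩
    · intro m k u w hu hw
      refine ort_sub hx h4.ort (fun i => ?_) (fun j => ?_)
      · obtain ⟨-, a, ha, hau⟩ := hu i
        exact ⟨⟨a, ha⟩, hau⟩
      · obtain ⟨h5, h6⟩ := hw j
        obtain ⟨a, ha⟩ := hsz _ h5
        refine ⟨⟨a, fun haI => h6 ⟨a, haI, ha⟩⟩, ha⟩
  choose Q hQx hQy hQi hQo using h1
  let 𝒰 : Ultrafilter (Finset U) := Ultrafilter.of Filter.atTop
  have h𝒰 : ∀ s : Finset U, {t | s ⊆ t} ∈ 𝒰 := fun s => Ultrafilter.of_le _ (Filter.mem_atTop s)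
  let R : Set U := {v | {s | v ∈ Q s} ∈ 𝒰}
  have hR : ∀ v : U, {s | v ∈ Q s ↔ v ∈ R} ∈ 𝒰 := by
    intro v
    by_cases hv : v ∈ R
    · have h2 : {s | v ∈ Q s} ∈ 𝒰 := hv
      filter_upwards [h2] with s hs
      exact ⟨fun _ => hv, fun _ => hs⟩
    · have h2 : {s | v ∈ Q s}ᶜ ∈ 𝒰 := (Ultrafilter.compl_mem_iff_notMem).2 hv
      filter_upwards [h2] with s hs
      exact ⟨fun h3 => absurd h3 hs, fun h3 => absurd h3 hv⟩
  -- a finite set of points
  have hfin : ∀ t : Set U, t.Finite → ∃ s : Finset U, ∀ v ∈ t, v ∈ s ∧ (v ∈ Q s ↔ v ∈ R) := by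
    intro t ht
    have h2 : (⋂ v ∈ t, {s | v ∈ Q s ↔ v ∈ R}) ∈ 𝒰 := (Filter.biInter_mem ht).2 fun v _ => hR v
    obtain ⟨s, hs, hs'⟩ := Ultrafilter.nonempty_of_mem (Filter.inter_mem h2 (h𝒰 ht.toFinset))
    refine ⟨s, fun v hv => ⟨hs' (ht.mem_toFinset.2 hv), ?_⟩⟩
    exact mem_iInter₂.1 hs v hv
  refine ⟨R, ⟨?_, ?_⟩, ?_, ?_⟩
  · intro a b hab ha
    obtain ⟨s, hs⟩ := hfin {a, b} (Set.toFinite _)
    exact (hs b (Or.inr rfl)).2.1 (hQi s a (hs a (Or.inl rfl)).1 b (hs b (Or.inr rfl)).1 hab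
      ((hs a (Or.inl rfl)).2.2 ha))
  · intro m n u u' w hu hu' hw huu'
    obtain ⟨s, hs⟩ := hfin (range u ∪ range w) ((finite_range _).union (finite_range _))
    exact hQo s m n u w (fun i => ⟨(hs _ (Or.inl ⟨i, rfl⟩)).1, (hs _ (Or.inl ⟨i, rfl⟩)).2.2 (hu i)⟩)
      (fun j => ⟨(hs _ (Or.inr ⟨j, rfl⟩)).1, fun h3 => hw j ((hs _ (Or.inr ⟨j, rfl⟩)).2.1 h3)⟩) u' huu'
  · show {s | x ∈ Q s} ∈ 𝒰
    exact Filter.mem_of_superset Filter.univ_mem fun s _ => hQx s
  · intro hy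
    obtain ⟨s, hs⟩ := hfin {y} (Set.toFinite _)
    exact hQy s ((hs y rfl).2.2 hy)

/-- pieces are invariant under equality of types -/
theorem pc_tq (hC : Cz L U) (hA : A.Countable) {γ : Type} [Countable γ] {x y x' y' : U} {c c' : γ → U}
    (h : Tq L A (Sum.elim ![x, y] c) (Sum.elim ![x', y'] c')) (hy : y ∈ Pc L (A ∪ range c) x) :
    y' ∈ Pc L (A ∪ range c') x' := by
  intro Q hQ hxQ
  by_contra hyQ
  have hAc : (A ∪ range c).Countable := hA.union (countable_range c)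
  obtain ⟨R, hR, hxR, hyR⟩ := pc_sp (exq_of hC hAc) (x := x) (y := y) (by
    intro n z
    obtain ⟨z', hz'⟩ := tq_ext hC hA h z
    refine ⟨{i | Sum.elim ![x', y'] z' i ∈ Q}, hxQ, hyQ, ?_⟩
    refine sp_tq hC hA ?_ (sp_bf hQ (Sum.elim ![x', y'] z'))
    have h1 := tq_sub (tq_symm hz') (Sum.elim (Sum.elim (fun i => Sum.inl (Sum.inl i)) Sum.inr)
      (fun i => Sum.inl (Sum.inr i)) : (Fin 2 ⊕ Fin n) ⊕ γ → ((Fin 2 ⊕ γ) ⊕ Fin n))
    have e : ∀ (p : Fin 2 → U) (c : γ → U) (z : Fin n → U), (fun i => (Sum.elim (Sum.elim p c) z)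
        ((Sum.elim (Sum.elim (fun i => Sum.inl (Sum.inl i)) Sum.inr)
      (fun i => Sum.inl (Sum.inr i)) : (Fin 2 ⊕ Fin n) ⊕ γ → ((Fin 2 ⊕ γ) ⊕ Fin n)) i)) =
        Sum.elim (Sum.elim p z) c := by
      intro p c z
      funext i
      rcases i with (i | i) | i <;> rfl
    rw [e, e] at h1
    exact h1)
  exact hyR (hy R hR hxR)

theorem pc_tq0 (hC : Cz L U) (hA : A.Countable) {x y x' y' : U}
    (h : Tq L A ![x, y] ![x', y']) (hy : y ∈ Pc L A x) : y' ∈ Pc L A x' := by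
  have h1 := pc_tq hC hA (γ := Empty) (c := fun e => e.elim) (c' := fun e => e.elim)
    (x := x) (y := y) (x' := x') (y' := y') (by
      have h2 := tq_add h (fun e : Empty => (e.elim : U)) (fun e => e.elim)
      exact h2) (by
      rw [range_eq_empty, union_empty]
      exact hy)
  rw [range_eq_empty, union_empty] at h1
  exact h1

end

end Pool.Agent.TPY
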