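import Pool.Agent.TPY.GBA

/-!
# TPY: GCP, every element of `Eb` breaks some copy (helper77)
-/

set_option autoImplicit false
set_option linter.unusedVariables false

namespace Pool.Agent.TPY

open FirstOrder.Language Set
open scoped FirstOrder
open Pool.Agent.MNO

section

variable {L : FirstOrder.Language.{0, 0}} {U : Type} [L.Structure U]

private theorem gcp_rg (x : U) : range (s1 x) = {x} := by
  ext y
  constructor
  · rintro ⟨i, rfl⟩
    rfl
  · rintro rfl
    exact ⟨0, rfl⟩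

private theorem gcp_ins (A : Set U) (c : U) : insert c A = A ∪ range (s1 c) := by
  rw [gcp_rg, union_singleton]

private theorem gcp_swap {F : Set U} {α β : Type} {x x' : α → U} {y y' : β → U}
    (h : Tq L F (Sum.elim x y) (Sum.elim x' y')) : Tq L F (Sum.elim y x) (Sum.elim y' x') := by
  have h1 := tq_sub h (Sum.elim Sum.inr Sum.inl : β ⊕ α → α ⊕ β)
  refine tq_congr h1 ?_ ?_
  · funext a
    rcases a with a | a <;> rfl
  · funext a
    rcases a with a | a <;> rfl

end

theorem thm_GCP (hTR : St_GTR) (hLK : St_GLK) : St_GCP := by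
  intro L U _ hC F z h c hc
  by_contra hno
  push Not at hno
  have hA : (G1 F z).Finite := g1_fin h
  have h0 : (0 : ℚ) ∈ Ioo (-1 : ℚ) 1 := ⟨by norm_num, by norm_num⟩
  have hh : (1 / 2 : ℚ) ∈ Ioo (-1 : ℚ) 1 := ⟨by norm_num, by norm_num⟩
  have hc0 : z 0 ∈ Pc L (G1 F z) c := pc_symm hC hA.countable hc
  have hch : z (1 / 2) ∈ Pc L (G1 F z) c := by
    rw [pc_eq hC hA.countable hc]
    exact gh_eb hC h hh
  have hne : z 0 ≠ z (1 / 2) := gh_ne h ⟨by norm_num, by norm_num⟩ ⟨by norm_num, by norm_num⟩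
    (by norm_num)
  obtain ⟨w, hw, hwI, hwN⟩ := hLK L U hC (G1 F z) c (z 0) hA hc0
    (nonalg hC hA.countable hc0 hch hne)
  have hIoo : Ioo (-3 : ℚ) 1 ⊆ Ioo (-4 : ℚ) 4 := fun s hs =>
    ⟨by linarith [hs.1], by linarith [hs.2]⟩
  -- (1)
  have hw1 : ∀ t, Ids L (insert (w t) F) (Ioo (-3) 1) z := by
    intro t
    obtain ⟨z'', hz''⟩ := sqc_ext hC hA.countable (sq_symm (hw t)) z
    have h1 := hno z'' (cpz_of hz'')
    exact ids_mv1 (tq_mono f_sub_g1 (tq_symm (cpc_tq hz''))) h1
  -- (2)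
  have hw2 : ∀ (n : ℕ) (i : Fin n → ℚ),
      Ids L (F ∪ range (fun k => w (i k))) (Ioo (-3) 1) z := by
    intro n i
    refine hTR L U hC F (range fun k => w (i k)) (Ioo (-3) 1) z h.fin (finite_range _)
      (opn_ioo _ _) (ids_set h.ind hIoo) ?_
    rintro b ⟨k, rfl⟩
    exact hw1 (i k)
  have hw2' : ∀ (n : ℕ) (i : Fin n → ℚ),
      Tq L F (Sum.elim (fun k => w (i k)) (s1 (z 0))) (Sum.elim (fun k => w (i k)) (s1 (z (-1)))) := by
    intro n i
    have h1 := hw2 n i 1 (fun _ => 0) (fun _ => -1) (Subsingleton.strictMono _)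
      (Subsingleton.strictMono _) (fun _ => ⟨by norm_num, by norm_num⟩)
      (fun _ => ⟨by norm_num, by norm_num⟩)
    rw [tq_fam] at h1
    exact gcp_swap h1
  -- (3)
  have hw3 : Ids L (insert (z 0) F) univ w := by
    intro n i j hi hj hi' hj'
    rw [gcp_ins, tq_fam]
    have h1 := hwI n i j hi hj hi' hj'
    have h2 := tq_mono f_sub_g1 (tq_add h1 (s1 (z (-1))) (fun _ => m1_g1))
    exact tq_trans (hw2' n i) (tq_trans h2 (tq_symm (hw2' n j)))
  -- (4)
  have hw4 := hTR L U hC F (insert (z 0) (G1 F z)) univ w h.fin (hA.insert _) opn_univ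
    (ids_par hwI f_sub_g1) (by
      rintro b (rfl | hb)
      · exact hw3
      · exact ids_par hwI (insert_subset hb f_sub_g1))
  exact hwN (ids_par hw4 subset_union_right)

end Pool.Agent.TPY
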