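import Pool.Agent.TPY.GBA

/-!
# TPY, module GFN: finite sets in `Eb` are left of some point
-/

set_option autoImplicit false
set_option linter.unusedVariables false

namespace Pool.Agent.TPY

open FirstOrder.Language Set
open scoped FirstOrder
open Pool.Agent.MNO

section

variable {L : FirstOrder.Language.{0, 0}} {U : Type} [L.Structure U] {F : Set U} {z z' : ℚ → U}

/-- the left side misses the right side -/
private theorem GFN_dis (hC : Cz L U) (h : GH L F z) {y c : U} (hy : z 1 ∉ Ll L F z y)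
    (hc : c ∈ Ll L F z y) : c ∉ Rr L F z y := by
  intro hc'
  refine hy ?_
  have h1 := pc_disj hC ((g0_fin h).insert y).countable hc hc'
  show z 1 ∈ Pc L (insert y (G0 F z)) (z (-1))
  rw [h1]
  exact mem_pc _

/-- the separation for a term of a copy -/
private theorem GFN_sep (hSP : St_GSP) (hC : Cz L U) (h : GH L F z) (hz : Cpz L (G1 F z) z z') {k : ℚ}
    (hk : -1 < k) (hk' : k < 1) : z 1 ∉ Ll L F z (z' k) := by
  obtain ⟨h', -, hm, hp, -, h0, -⟩ := gh_cp h hz
  have h1 := hSP L U hC F z' h' (-1) k 1 (by norm_num) hk hk' (by norm_num)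
  rw [h0, hm, hp] at h1
  exact h1

/-- right and left of the point `1/2` of a copy -/
private theorem GFN_uu (hUU : St_GUU) (hC : Cz L U) (h : GH L F z) (hz : Cpz L (G1 F z) z z') {d : U}
    (hd : d ∉ Rr L F z (z' 0)) (hE : d ∈ Eb L F z) :
    d ∉ Rr L F z (z' (1 / 2)) ∧ d ∈ Ll L F z (z' (1 / 2)) := by
  obtain ⟨h', -, hm, hp, -, h0, hg1⟩ := gh_cp h hz
  have e1 : ∀ y, Rr L F z' y = Rr L F z y := fun y => by
    unfold Rr
    rw [h0, hp]
  have e2 : ∀ y, Ll L F z' y = Ll L F z y := fun y => by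
    unfold Ll
    rw [h0, hm]
  have e3 : Eb L F z' = Eb L F z := by
    unfold Eb
    rw [hg1]
    exact pc_eq hC (g1_fin h).countable (pc_sq hC (cpz_sq1 hz 0))
  have h1 := hUU L U hC F z' h' d (1 / 2) (by norm_num) (by norm_num) (by rwa [e1])
  rw [e1, e2, e3] at h1
  exact ⟨h1.1, h1.2 hE⟩

/-- `u'` is not right of `u` -/
private theorem GFN_sub (hC : Cz L U) (h : GH L F z) {u u' : U} (hu : u' ∉ Rr L F z u) :
    Rr L F z u ⊆ Rr L F z u' := by
  have h1 : Pc L (insert u' (insert u (G0 F z))) (z 1) = Pc L (insert u (G0 F z)) (z 1) :=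
    nnl0 hC ((g0_fin h).insert u) hu
  show Pc L (insert u (G0 F z)) (z 1) ⊆ Pc L (insert u' (G0 F z)) (z 1)
  rw [← h1]
  exact pc_mono hC (((g0_fin h).insert u).insert u') (insert_subset_insert (subset_insert _ _)) _

end

/-- [GFN] every finite subset of `Eb` is outside `Rr (z' 0)` for some copy `z'` -/
theorem thm_GFN (hSP : St_GSP) (hLY : St_GLY) (hUU : St_GUU) : St_GFN := by
  intro L U _ hC F z h C hCf
  induction C, hCf using Set.Finite.induction_on with
  | empty => exact fun _ => ⟨z, fun n i => sq_refl _ _, empty_disjoint _⟩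
  | @insert c C hcC hCf ih =>
    intro hE
    obtain ⟨z', hz', hdC⟩ := ih fun x hx => hE (mem_insert_of_mem c hx)
    obtain ⟨z'', hz'', hc⟩ := hLY L U hC F z h c (hE (mem_insert c C))
    have h0 := GFN_dis hC h (GFN_sep hSP hC h hz'' (k := 0) (by norm_num) (by norm_num)) hc
    set u := z' (1 / 2) with hu
    set u' := z'' (1 / 2) with hu'
    obtain ⟨hc1, hc2⟩ := GFN_uu hUU hC h hz'' h0 (hE (mem_insert c C))
    have hC1 : ∀ d ∈ C, d ∉ Rr L F z u ∧ d ∈ Ll L F z u := fun d hd =>
      GFN_uu hUU hC h hz' (fun h' => Set.disjoint_left.1 hdC hd h') (hE (mem_insert_of_mem c hd))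
    have hsu := GFN_sep hSP hC h hz' (k := 1 / 2) (by norm_num) (by norm_num)
    have hsu' := GFN_sep hSP hC h hz'' (k := 1 / 2) (by norm_num) (by norm_num)
    rw [← hu] at hsu
    rw [← hu'] at hsu' hc1 hc2
    -- it is enough to find a good point
    have hfin : (c ∉ Rr L F z u) ∨ (∀ d ∈ C, d ∉ Rr L F z u') := by
      by_cases hA : u' ∈ Rr L F z u
      · by_cases hB : u ∈ Rr L F z u'
        · left
          have h1 : u' ∉ Ll L F z u := fun h' => GFN_dis hC h hsu h' hA
          have h2 : u ∉ Ll L F z u' := fun h' => GFN_dis hC h hsu' h' hB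
          have h3 : Pc L (insert u' (insert u (G0 F z))) (z (-1)) = Pc L (insert u (G0 F z)) (z (-1)) :=
            nnl0 hC ((g0_fin h).insert u) h1
          have h4 : Pc L (insert u (insert u' (G0 F z))) (z (-1)) = Pc L (insert u' (G0 F z)) (z (-1)) :=
            nnl0 hC ((g0_fin h).insert u') h2
          rw [insert_comm, h3] at h4
          refine GFN_dis hC h hsu ?_
          show c ∈ Pc L (insert u (G0 F z)) (z (-1))
          rw [h4]
          exact hc2
        · exact Or.inr fun d hd h' => (hC1 d hd).1 (GFN_sub hC h hB h')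
      · exact Or.inl fun h' => hc1 (GFN_sub hC h hA h')
    rcases hfin with hf | hf
    · obtain ⟨w, hw, hw0⟩ := gh_co hC h (gh_o h hz' (i := 1 / 2) ⟨by norm_num, by norm_num⟩)
      refine ⟨w, hw, ?_⟩
      rw [hw0, Set.disjoint_left]
      rintro d (rfl | hd)
      · exact hf
      · exact (hC1 d hd).1
    · obtain ⟨w, hw, hw0⟩ := gh_co hC h (gh_o h hz'' (i := 1 / 2) ⟨by norm_num, by norm_num⟩)
      refine ⟨w, hw, ?_⟩
      rw [hw0, Set.disjoint_left]
      rintro d (rfl | hd)
      · exact hc1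
      · exact hf d hd

end Pool.Agent.TPY
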