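import Pool.Agent.TPY.GBA
import Pool.Agent.TPY.Fre1

/-!
# TPY, GAP, module GLI: the end is linear
-/

set_option autoImplicit false
set_option linter.unusedVariables false

namespace Pool.Agent.TPY

open FirstOrder.Language Set
open scoped FirstOrder
open Pool.Agent.MNO

section

variable {L : FirstOrder.Language.{0, 0}} {U : Type} [L.Structure U] {F : Set U} {z : ℚ → U}

private theorem gli_s1 (v : Fin 1 → U) : s1 (v 0) = v := by
  funext i
  rw [Subsingleton.elim i 0]
  rfl

private theorem gli_rg (x : U) : range (s1 x) = {x} := by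
  ext y
  constructor
  · rintro ⟨i, rfl⟩
    rfl
  · rintro rfl
    exact ⟨0, rfl⟩

/-- transport of pieces along one parameter, `a`, `b` among the other parameters -/
private theorem gli_mv (hC : Cz L U) {A B : Set U} (hA : A.Countable) {a b x y : U} (hAB : A ⊆ B) (ha : a ∈ B)
    (hb : b ∈ B) (h : Tq L B (s1 x) (s1 y)) (hp : b ∈ Pc L (insert x A) a) : b ∈ Pc L (insert y A) a := by
  have h1 := tq_add h (![a, b] : Fin 2 → U) (by
    intro i
    fin_cases i
    · exact ha
    · exact hb)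
  have h2 := tq_sub h1 (Sum.swap : Fin 2 ⊕ Fin 1 → Fin 1 ⊕ Fin 2)
  have e : ∀ x : U, (fun i => (Sum.elim (s1 x) (![a, b] : Fin 2 → U)) (Sum.swap i : Fin 1 ⊕ Fin 2)) =
      Sum.elim ![a, b] (s1 x) := by
    intro x
    funext i
    rcases i with i | i <;> rfl
  rw [e, e] at h2
  have h3 := pc_tq hC hA (x := a) (y := b) (x' := a) (y' := b) (c := s1 x) (c' := s1 y) (tq_mono hAB h2) (by
    rw [gli_rg, union_singleton]
    exact hp)
  rw [gli_rg, union_singleton] at h3
  exact h3

end

theorem thm_GLI (hSP : St_GSP) (hLT : St_GLT) (hE : St_ENC) (hCCC : St_CCC) : St_GLI := by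
  intro L U _ hC F z h
  obtain ⟨p, hp, hN, hI, h3, h5⟩ := hLT L U hC F z h
  have hG := g1_fin h
  obtain ⟨e1, e2, e3, e4, e5, e6, e7⟩ := hE L U hC p hp hN (G1 F z) hG hI
  have h0 : Ets L (G1 F z) (s1 (z 0)) p := by
    have h6 := h5 ∅ 0 finite_empty (empty_subset _) ⟨by norm_num, by norm_num⟩ (fun e he => absurd he (notMem_empty _))
    rw [image_empty, union_empty] at h6
    exact h6
  have hEn : Pc L (G1 F z) (z 0) = En L (G1 F z) p := e1 _ _ Subset.rfl hG h0
  have hz0 : z 0 ∈ Eb L F z := mem_pc _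
  have hG0 := g0_fin h
  -- the first realisation
  have hG1 : (insert (z 0) (G1 F z)).Finite := hG.insert _
  obtain ⟨u, hu⟩ := gt_real hC hp hG1.countable
  obtain ⟨y, rfl⟩ : ∃ y, u = s1 y := ⟨u 0, (gli_s1 u).symm⟩
  have hy1 : Ets L (insert (z 0) (G1 F z)) (s1 y) p := hu
  have hy0 : Ets L (G1 F z) (s1 y) p := ets_mono (subset_insert _ _) hy1
  have hyo : Sq L (G1 F z) (s1 (z 0)) (s1 y) := ets_sq hp h0 hy0
  have hyE : y ∈ Eb L F z := pc_sq hC hyo
  have hyn : y ∈ En L (insert (z 0) (G1 F z)) p := by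
    rw [← e1 _ _ (subset_insert _ _) hG1 hy1]
    exact mem_pc _
  -- `y` and `z 1` over `G0, z (-1), z 0`
  have hy2 : Sq L (insert (z (-1)) (G0 F z) ∪ {z 0}) (s1 (z 1)) (s1 y) := by
    refine ets_sq hp (h3 {z 0} (finite_singleton _) (singleton_subset_iff.2 hz0)) (ets_mono ?_ hy1)
    rintro x ((rfl | hx) | rfl)
    · exact mem_insert_of_mem _ m1_g1
    · exact mem_insert_of_mem _ (g0_sub_g1 hx)
    · exact mem_insert _ _
  have hz0y : z 0 ∈ Ll L F z y := by
    refine gli_mv hC hG0.countable (B := insert (z (-1)) (G0 F z) ∪ {z 0}) (fun x hx => Or.inl (mem_insert_of_mem _ hx))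
      (Or.inl (mem_insert _ _)) (Or.inr rfl) (tq_of_sq hy2) ?_
    exact pc_sq hC (gh_ls h (k := 1) (i := -1) (j := 0) (by norm_num) (by norm_num) (by norm_num) (by norm_num)
      (by norm_num) (by norm_num))
  -- the second realisation
  have hG2 : (insert y (G1 F z)).Finite := hG.insert _
  obtain ⟨u, hu⟩ := gt_real hC hp hG2.countable
  obtain ⟨x, rfl⟩ : ∃ x, u = s1 x := ⟨u 0, (gli_s1 u).symm⟩
  have hx1 : Ets L (insert y (G1 F z)) (s1 x) p := hu
  have hx2 : Sq L (insert (z (-1)) (G0 F z) ∪ {y}) (s1 (z 1)) (s1 x) := by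
    refine ets_sq hp (h3 {y} (finite_singleton _) (singleton_subset_iff.2 hyE)) (ets_mono ?_ hx1)
    rintro x ((rfl | hx) | rfl)
    · exact mem_insert_of_mem _ m1_g1
    · exact mem_insert_of_mem _ (g0_sub_g1 hx)
    · exact mem_insert _ _
  have hxR : x ∈ Rr L F z y := by
    refine pc_sq hC (sq_mono ?_ hx2)
    rintro x (rfl | hx)
    · exact Or.inr rfl
    · exact Or.inl (mem_insert_of_mem _ hx)
  have hdis : z 0 ∉ Rr L F z y := by
    intro hR
    obtain ⟨z', hz', hz'0⟩ := gh_co hC h hyo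
    obtain ⟨h', -, e1', e2', -, e0', -⟩ := gh_cp h hz'
    have h6 := hSP L U hC F z' h' (-1) 0 1 (by norm_num) (by norm_num) (by norm_num) (by norm_num)
    rw [e1', e2', e0', hz'0] at h6
    have hcy : (insert y (G0 F z)).Countable := (hG0.insert _).countable
    -- both `z (-1)` and `z 1` are in the piece of `z 0`
    have h7 := pc_disj hC hcy hz0y hR
    have h8 : z 1 ∈ Pc L (insert y (G0 F z)) (z 1) := mem_pc _
    rw [← h7] at h8
    exact h6 h8
  have hnest : z 0 ∉ En L (insert y (G1 F z)) p := by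
    rw [← e1 _ _ (subset_insert _ _) hG2 hx1]
    intro h6
    have h7 : z 0 ∈ Pc L (insert y (G0 F z)) x := pc_mono hC hG2 (insert_subset_insert g0_sub_g1) x h6
    rw [pc_eq hC (hG0.insert _).countable hxR] at h7
    exact hdis h7
  have hN0 : ¬ N0 L (G1 F z) p := by
    intro hN0
    have h6 := hN0 (z 0) (by rw [← hEn]; exact mem_pc _) y (by rw [← hEn]; exact hyE) hyn
    exact hnest h6
  have hm : z (-1/2) ∈ Eb L F z := gh_eb hC h ⟨by norm_num, by norm_num⟩
  have hNF := hCCC L U hC p hp hN (G1 F z) hG hI hN0 (z (-1/2)) (by rw [← hEn]; exact hm)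
  refine ⟨p, hp, hN, hI, fun j hj hj' => ?_, hNF, fun i j hi hij hj => ?_⟩
  · have h6 := h5 {-1/2} j (finite_singleton _) (singleton_subset_iff.2 ⟨by norm_num, by norm_num⟩)
      ⟨by linarith, hj'⟩ (by
        rintro e rfl
        exact hj)
    rw [image_singleton, union_singleton] at h6
    exact h6
  · have h6 := h5 {i, -1/2} j (Set.toFinite _) (by
      rintro e (rfl | rfl)
      · exact ⟨by linarith, by linarith⟩
      · exact ⟨by norm_num, by norm_num⟩) ⟨by linarith, hj⟩ (by
        rintro e (rfl | rfl)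
        · exact hij
        · linarith)
    have e : G1 F z ∪ z '' {i, -1/2} = insert (z i) (insert (z (-1/2)) (G1 F z)) := by
      rw [image_pair]
      ext v
      simp only [mem_union, mem_insert_iff, mem_singleton_iff]
      tauto
    rw [e] at h6
    rw [← e1 _ _ ((subset_insert _ _).trans (subset_insert _ _)) ((hG.insert _).insert _) h6]
    exact mem_pc _

end Pool.Agent.TPY
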