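import Pool.Agent.TPY.GNR

/-!
# TPY: GLT (the limit type)
-/

set_option autoImplicit false
set_option linter.unusedVariables false

namespace Pool.Agent.TPY

open FirstOrder.Language Set
open scoped FirstOrder
open Pool.Agent.MNO

/-- the limit of a family of elements along an ultrafilter -/
def glt {L : FirstOrder.Language.{0, 0}} {U : Type} [L.Structure U] {I : Type} (𝒰 : Ultrafilter I) (u : I → U)
    (P : (Fin 1 → U) → Prop) : Prop := Dp L (univ : Set U) P ∧ ∀ᶠ C in (𝒰 : Filter I), P (s1 (u C))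

section

variable {L : FirstOrder.Language.{0, 0}} {U : Type} [L.Structure U]

theorem glt_gt {I : Type} (𝒰 : Ultrafilter I) (u : I → U) : GT L (glt (L := L) 𝒰 u) where
  dfn := fun P hP => hP.1
  ne := fun P hP => by
    obtain ⟨C, hC⟩ := hP.2.exists
    exact ⟨_, hC⟩
  and := fun P Q hP hQ => ⟨dp_and hP.1 hQ.1, hP.2.and hQ.2⟩
  max := fun P hP => by
    rcases Ultrafilter.em 𝒰 (fun C => P (s1 (u C))) with h | h
    · exact Or.inl ⟨hP, h⟩
    · exact Or.inr ⟨dp_not hP, h⟩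

end

theorem thm_GLT (hGNR : St_GNR) : St_GLT := by
  intro L U _ hC F z hz
  have hG1 : (G1 F z).Finite := (((hz.fin.insert _).insert _).insert _).insert _
  obtain ⟨I, hI⟩ : ∃ I : Type, I = {C : Set U // C.Finite ∧ C ⊆ Eb L F z} := ⟨_, rfl⟩
  subst hI
  have hne : Nonempty {C : Set U // C.Finite ∧ C ⊆ Eb L F z} := ⟨⟨∅, finite_empty, empty_subset _⟩⟩
  have hdir : IsDirectedOrder {C : Set U // C.Finite ∧ C ⊆ Eb L F z} := ⟨fun C D =>
    ⟨⟨C.1 ∪ D.1, C.2.1.union D.2.1, union_subset C.2.2 D.2.2⟩, fun v hv => Or.inl hv, fun v hv => Or.inr hv⟩⟩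
  have h0 : ∀ C : {C : Set U // C.Finite ∧ C ⊆ Eb L F z}, _ := fun C => hGNR L U hC F z hz C.1 C.2.1 C.2.2
  choose u hu1 hu2 hu3 hu4 hu5 using h0
  have hNB : (Filter.atTop : Filter {C : Set U // C.Finite ∧ C ⊆ Eb L F z}).NeBot := Filter.atTop_neBot
  obtain ⟨𝒰, h𝒰⟩ : ∃ 𝒰 : Ultrafilter {C : Set U // C.Finite ∧ C ⊆ Eb L F z},
      (𝒰 : Filter {C : Set U // C.Finite ∧ C ⊆ Eb L F z}) ≤ Filter.atTop := ⟨Ultrafilter.of _, Ultrafilter.of_le _⟩
  have hev : ∀ D : Set U, D.Finite → D ⊆ Eb L F z → ∀ᶠ C in (𝒰 : Filter {C : Set U // C.Finite ∧ C ⊆ Eb L F z}),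
      D ⊆ C.1 := by
    intro D hD hDE
    have h1 := h𝒰 (Filter.eventually_ge_atTop (⟨D, hD, hDE⟩ : {C : Set U // C.Finite ∧ C ⊆ Eb L F z}))
    exact h1
  refine ⟨glt (L := L) 𝒰 u, glt_gt 𝒰 u, ?_, ?_, ?_, ?_⟩
  · -- not realised
    rintro v ⟨-, h1⟩
    by_cases hv : v ∈ Eb L F z
    · obtain ⟨C, hC1, hC2⟩ := (h1.and (hev {v} (finite_singleton v) (singleton_subset_iff.2 hv))).exists
      refine hu2 C ?_
      have h2 : u C = v := hC1
      rw [h2]
      exact hC2 rfl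
    · obtain ⟨C, hC1⟩ := h1.exists
      have h2 : u C = v := hC1
      exact hv (h2 ▸ pc_sq hC (hu1 C))
  · -- invariance
    rintro n P hP d d' hdd ⟨-, h1⟩
    refine ⟨dp_par (dp_mono (subset_univ _) hP) d' (fun i => mem_univ _), ?_⟩
    have hEb : BF L (G1 F z) (Eb L F z) := pc_bf hC (z 0)
    have h2 := hev (range (fun j : {j // d j ∈ Eb L F z} => d j) ∪ range (fun j : {j // d j ∈ Eb L F z} => d' j))
      ((finite_range _).union (finite_range _)) (by
        rintro v (⟨j, rfl⟩ | ⟨j, rfl⟩)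
        · exact j.2
        · exact (bf_inv hEb hdd j).1 j.2)
    refine (h1.and h2).mono ?_
    rintro C ⟨hC1, hC2⟩
    -- the part in `Eb`
    have h3 : Sq L (insert (u C) (G1 F z)) (fun j : {j // d j ∈ Eb L F z} => d j)
        (fun j : {j // d j ∈ Eb L F z} => d' j) := by
      obtain ⟨m, ⟨e⟩⟩ := Finite.exists_equiv_fin {j // d j ∈ Eb L F z}
      have h4 := hu4 C m (fun k => d (e.symm k)) (fun k => d' (e.symm k))
        (fun k => hC2 (Or.inl ⟨e.symm k, rfl⟩)) (fun k => hC2 (Or.inr ⟨e.symm k, rfl⟩))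
        (sq_sub hdd (fun k => (e.symm k : Fin n)))
      have h5 := sq_sub h4 e
      simp only [Equiv.symm_apply_apply] at h5
      exact h5
    have h4 := sq_mono (subset_insert _ _) (sq_add h3 (s1 (u C)) (fun _ => Or.inl rfl))
    have h5 := sq_swap h4
    have hin : ∀ i, Sum.elim (s1 (u C)) (fun j : {j // d j ∈ Eb L F z} => d j) i ∈ Eb L F z := by
      rintro (i | i)
      · exact pc_sq hC (hu1 C)
      · exact i.2
    have h6 := bf_prd (w := fun j : {j // ¬ d j ∈ Eb L F z} => d j) hEb hin (fun j => j.2) h5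
    -- the part outside of `Eb`
    have h7 : Sq L (G1 F z) (fun j : {j // ¬ d j ∈ Eb L F z} => d j) (fun j : {j // ¬ d j ∈ Eb L F z} => d' j) :=
      sq_sub hdd (fun j : {j // ¬ d j ∈ Eb L F z} => (j : Fin n))
    have h8 := bf_prd (w := Sum.elim (s1 (u C)) (fun j : {j // d j ∈ Eb L F z} => d' j))
      (bf_compl hC hG1.countable hEb) (fun j => j.2) (by
        rintro (i | i)
        · exact fun h => h (pc_sq hC (hu1 C))
        · exact fun h => h ((bf_inv hEb hdd i).1 i.2)) h7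
    have h9 := sq_split (fun j => d j ∈ Eb L F z) (sq_trans h6 (sq_swap h8))
    exact (sq_dp h9 hP).1 hC1
  · -- over `z (-1)` and `C`
    intro C₀ hC₀ hC₀E E hE
    refine ⟨dp_mono (subset_univ _) (fe_cls hE _), ?_⟩
    refine (hev C₀ hC₀ hC₀E).mono fun C hCC => ?_
    exact hE.eqv.symm (hu3 C _ (fe_mono (union_subset_union_right _ hCC) hE))
  · intro X j hX hX1 hj hXj E hE
    refine ⟨dp_mono (subset_univ _) (fe_cls hE _), ?_⟩
    have hzE : ∀ i ∈ Ioo (-1 : ℚ) 1, z i ∈ Eb L F z := fun i hi =>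
      pc_sq hC (guu_s hC hG1 (gnr_ids hz) (guu_opn _ _) (i := 0) (i' := i) ⟨by norm_num, by norm_num⟩ hi)
    refine ((hev (z '' X) (hX.image z) (by
      rintro _ ⟨x, hx, rfl⟩
      exact hzE x (hX1 hx))).and (hev {z j} (finite_singleton _) (singleton_subset_iff.2 (hzE j hj)))).mono ?_
    rintro C ⟨hC1, hC2⟩
    exact hu5 C X j hX hX1 hj hXj hC1 (hC2 rfl) E hE

end Pool.Agent.TPY
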