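import Pool.Agent.TPY.GBA

/-!
# TPY: [GLY] every element of `Eb` is left of some point
-/

set_option autoImplicit false
set_option linter.unusedVariables false

namespace Pool.Agent.TPY

open FirstOrder.Language Set
open scoped FirstOrder
open Pool.Agent.MNO

private theorem gly_max {κ : Type} [Finite κ] (f : κ → ℚ) (hf : ∀ k, f k < 1) :
    ∃ i ∈ Ioo (-1 : ℚ) 1, ∀ k, f k < i := by
  classical
  have := Fintype.ofFinite κ
  let T : Finset ℚ := insert (-1) (Finset.univ.image f)
  have hT : T.Nonempty := ⟨-1, Finset.mem_insert_self _ _⟩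
  have h1 : T.max' hT < 1 := by
    have h2 := T.max'_mem hT
    rcases Finset.mem_insert.1 h2 with h3 | h3
    · rw [h3]
      norm_num
    · obtain ⟨k, -, hk⟩ := Finset.mem_image.1 h3
      rw [← hk]
      exact hf k
  have h2 : -1 ≤ T.max' hT := T.le_max' _ (Finset.mem_insert_self _ _)
  refine ⟨(T.max' hT + 1) / 2, ⟨by linarith, by linarith⟩, fun k => ?_⟩
  have h3 : f k ≤ T.max' hT :=
    T.le_max' _ (Finset.mem_insert_of_mem (Finset.mem_image_of_mem f (Finset.mem_univ k)))
  linarith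

/-- [GLY] -/
theorem thm_GLY (hCP : St_GCP) (hSP : St_GSP) : St_GLY := by
  intro L U _ hC F z h c hc
  by_contra hcon
  push Not at hcon
  obtain ⟨z', hz', hni⟩ := hCP L U hC F z h c hc
  apply hni
  obtain ⟨h', e3, em1, e1, e3', eG0, eG1⟩ := gh_cp h hz'
  have key : ∀ i ∈ Ioo (-1 : ℚ) 1, Ids L (insert c F) (Ioo (-3) i) z' := by
    intro i hi
    obtain ⟨z'', hz'', h0⟩ := gh_co hC h (gh_o h hz' hi)
    have hcL : c ∉ Pc L (insert (z' i) (G0 F z)) (z (-1)) := by
      have h1 := hcon z'' hz''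
      rw [h0] at h1
      exact h1
    have hk : (-3 : ℚ) < i := by linarith [hi.1]
    have hk' : i < (3 : ℚ) := by linarith [hi.2]
    have hA : (insert (z' i) (G0 F z)).Finite := (g0_fin h).insert _
    intro n p q hp hq hpS hqS
    have hl := gh_l h' hk hk'
    rw [eG0] at hl
    have h2 := ids_sq hl (opn_up (opn_ioo _ _)) hp hq hpS hqS
    have h3 : ∀ k, z' (p k) ∈ Pc L (insert (z' i) (G0 F z)) (z (-1)) := by
      intro k
      have h4 := ids_sq1 hl (opn_up (opn_ioo _ _)) (i := -1) (j := p k) ⟨by norm_num, hi.1⟩ (hpS k)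
      rw [em1] at h4
      exact pc_sq hC h4
    have h5 := of_pc hC hA h3 h2 (w := s1 c) (fun _ => hcL)
    refine tq_mono ?_ (tq_of_sq h5)
    refine insert_subset (Or.inr ⟨0, rfl⟩) ?_
    intro x hx
    exact Or.inl (mem_insert_of_mem _ (f_sub_g0 hx))
  intro n p q hp hq hpS hqS
  obtain ⟨i, hi, hlt⟩ := gly_max (κ := Fin n ⊕ Fin n) (Sum.elim p q) (by
    rintro (k | k)
    · exact (hpS k).2
    · exact (hqS k).2)
  exact key i hi n p q hp hq (fun k => ⟨(hpS k).1, hlt (Sum.inl k)⟩)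
    (fun k => ⟨(hqS k).1, hlt (Sum.inr k)⟩)

end Pool.Agent.TPY
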