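import Pool.Agent.TPY.GUU

/-!
# TPY: GNR (points near `z 1`)
-/

set_option autoImplicit false
set_option linter.unusedVariables false

namespace Pool.Agent.TPY

open FirstOrder.Language Set
open scoped FirstOrder
open Pool.Agent.MNO

section

variable {L : FirstOrder.Language.{0, 0}} {U : Type} [L.Structure U]

theorem gnr_s1 {A : Set U} {z z' : ℚ → U} (h : Cpz L A z z') (t : ℚ) : Sq L A (s1 (z t)) (s1 (z' t)) :=
  h 1 (fun _ => t)

/-- a copy of an ordered sequence -/
theorem gnr_gh {F : Set U} {z z' : ℚ → U} (h : GH L F z) (hc : Cpz L (G1 F z) z z') : GH L F z' := by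
  have hF : F ⊆ G1 F z := fun v hv => Or.inr (Or.inr (Or.inr (Or.inr hv)))
  refine ⟨h.fin, ?_, ?_⟩
  · intro n i j hi hj hi' hj'
    have h1 := tq_of_sq (sq_mono hF (hc n i))
    have h2 := tq_of_sq (sq_mono hF (hc n j))
    exact tq_trans (tq_symm h1) (tq_trans (h.ind n i j hi hj hi' hj') h2)
  · intro hq
    apply h.ord
    have h1 := tq_of_sq (sq_mono hF (hc 2 ![0, 1]))
    have h2 : Tq L F ![z 0, z 1] ![z' 0, z' 1] := by
      refine tq_congr h1 ?_ ?_ <;>
      · funext k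
        fin_cases k <;> rfl
    have h3 : Tq L F ![z 1, z 0] ![z' 1, z' 0] := by
      refine tq_congr (tq_sub h2 (![1, 0] : Fin 2 → Fin 2)) ?_ ?_ <;>
      · funext k
        fin_cases k <;> rfl
    exact tq_trans h2 (tq_trans hq (tq_symm h3))

theorem gnr_par {A : Set U} {z z' : ℚ → U} (hc : Cpz L A z z') {t : ℚ} (ht : z t ∈ A) : z' t = z t :=
  tq_par (tq_of_sq (gnr_s1 hc t)) 0 ht

theorem gnr_G0 {F : Set U} {z z' : ℚ → U} (hc : Cpz L (G1 F z) z z') : G0 F z' = G0 F z := by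
  have h1 : z' (-3) = z (-3) := gnr_par hc (Or.inr (Or.inr (Or.inl rfl)))
  have h2 : z' 3 = z 3 := gnr_par hc (Or.inr (Or.inr (Or.inr (Or.inl rfl))))
  unfold G0
  rw [h1, h2]

theorem gnr_G1 {F : Set U} {z z' : ℚ → U} (hc : Cpz L (G1 F z) z z') : G1 F z' = G1 F z := by
  have h1 : z' (-1) = z (-1) := gnr_par hc (Or.inl rfl)
  have h2 : z' 1 = z 1 := gnr_par hc (Or.inr (Or.inl rfl))
  have h3 := gnr_G0 hc
  unfold G1
  rw [h1, h2, h3]

theorem gnr_fin {F : Set U} (hF : F.Finite) (z : ℚ → U) : (G1 F z).Finite := ((guu_G0fin hF z).insert _).insert _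

/-- the sequence on `(-1, 1)` over `G1` -/
theorem gnr_ids {F : Set U} {z : ℚ → U} (h : GH L F z) : Ids L (G1 F z) (Ioo (-1) 1) z := by
  have h1 := guu_G0 h (X := {-1, 1}) (a := -1) (b := 1) (by norm_num) (by norm_num) (by
    rintro x (hx | hx)
    · rw [hx]
      constructor <;> norm_num
    · rw [mem_singleton_iff] at hx
      rw [hx]
      constructor <;> norm_num) (by
    rintro x (hx | hx)
    · exact Or.inl hx.le
    · rw [mem_singleton_iff] at hx
      exact Or.inr hx.ge)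
  refine guu_bm ?_ (Subset.refl _) h1
  rintro v (rfl | rfl | hv)
  · exact Or.inr ⟨-1, Or.inl rfl, rfl⟩
  · exact Or.inr ⟨1, Or.inr rfl, rfl⟩
  · exact Or.inl hv

theorem gnr_bd {X : Set ℚ} (hX : X.Finite) {a b : ℚ} (hab : a < b) (hXb : ∀ x ∈ X, x < b) :
    ∃ l, a < l ∧ l < b ∧ ∀ x ∈ X, x < l := by
  classical
  obtain ⟨m, hm, hm'⟩ := Order.exists_between_finsets (insert a hX.toFinset) {b} (by
    intro x hx y hy
    rw [Finset.mem_singleton] at hy
    rw [hy]
    rw [Finset.mem_insert, Set.Finite.mem_toFinset] at hx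
    rcases hx with rfl | hx
    · exact hab
    · exact hXb x hx)
  exact ⟨m, hm a (Finset.mem_insert_self _ _), hm' b (Finset.mem_singleton_self _), fun x hx =>
    hm _ (Finset.mem_insert_of_mem ((Set.Finite.mem_toFinset hX).2 hx))⟩

end

theorem thm_GNR (hGFN : St_GFN) (hGST : St_GST) (hGUU : St_GUU) (hGSP : St_GSP) : St_GNR := by
  intro L U _ hC F z hz C hCf hCE
  have hG0 : (G0 F z).Finite := guu_G0fin hz.fin z
  have hG1 : (G1 F z).Finite := gnr_fin hz.fin z
  obtain ⟨z', hz', hd'⟩ := hGFN L U hC F z hz C hCf hCE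
  -- `z 2` is outside `Eb`
  have h2E : z 2 ∉ Eb L F z := by
    intro h
    refine hGSP L U hC F z hz 0 1 2 (by norm_num) (by norm_num) (by norm_num) (by norm_num) ?_
    exact pc_mono hC (B := G1 F z) hG1 (subset_insert _ _) _ h
  have h20 : Sq L (insert (z 2) (G1 F z)) (s1 (z 0)) (s1 (z' 0)) := by
    have h1 := of_pc hC hG1 (x := z 0) (u := s1 (z 0)) (u' := s1 (z' 0)) (fun _ => mem_pc _) (gnr_s1 hz' 0)
      (w := s1 (z 2)) (fun _ => h2E)
    rw [guu_rg] at h1
    exact h1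
  obtain ⟨w, hw⟩ := sqc_ext hC (hG1.insert (z 2)).countable h20 z
  have hwc2 : Cpz L (insert (z 2) (G1 F z)) z w := fun n i => sq_right (hw n i)
  have hwc : Cpz L (G1 F z) z w := fun n i => sq_mono (subset_insert _ _) (hwc2 n i)
  have hw0 : w 0 = z' 0 := by
    have h1 := (tq_eq (tq_of_sq (hw 1 (fun _ => 0))) (Sum.inr 0) (Sum.inl 0)).1 rfl
    exact h1
  have hw2 : w 2 = z 2 := gnr_par hwc2 (Or.inl rfl)
  have hw1 : w 1 = z 1 := gnr_par hwc (Or.inr (Or.inl rfl))
  have hwm : w (-1) = z (-1) := gnr_par hwc (Or.inl rfl)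
  have hwG0 : G0 F w = G0 F z := gnr_G0 hwc
  have hwG1 : G1 F w = G1 F z := gnr_G1 hwc
  have hwH : GH L F w := gnr_gh hz hwc
  have hdC : Disjoint C (Rr L F w (w 0)) := by
    unfold Rr
    rw [hwG0, hw1, hw0]
    exact hd'
  -- the base `B`
  have hB0 := hGST L U hC F w hwH C hCf hdC
  rw [hwG0, hwm] at hB0
  obtain ⟨B, hBe⟩ : ∃ B, B = insert (w 0) (insert (z (-1)) (G0 F z)) ∪ C := ⟨_, rfl⟩
  rw [← hBe] at hB0
  have hBf : B.Finite := by
    rw [hBe]
    exact ((hG0.insert _).insert _).union hCf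
  have hAB : insert (z (-1)) (G0 F z) ∪ C ⊆ B := by
    rw [hBe]
    exact union_subset_union_left _ (subset_insert _ _)
  have m1 : (1 : ℚ) ∈ Ioo (0 : ℚ) 3 := ⟨by norm_num, by norm_num⟩
  have mh : (1 / 2 : ℚ) ∈ Ioo (0 : ℚ) 3 := ⟨by norm_num, by norm_num⟩
  have m2 : (2 : ℚ) ∈ Ioo (0 : ℚ) 3 := ⟨by norm_num, by norm_num⟩
  have hB1 : Sq L B (s1 (z 1)) (s1 (w (1 / 2))) := by
    have h1 := guu_s hC hBf hB0 (guu_opn _ _) m1 mh
    rw [hw1] at h1
    exact h1
  have hCu : ∀ d ∈ C, d ∉ Rr L F w (w 0) := fun d hd h => disjoint_left.1 hdC hd h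
  have hEw : Eb L F w = Eb L F z := by
    unfold Eb
    rw [hwG1]
    exact (pc_eq hC hG1.countable (pc_sq hC (gnr_s1 hwc 0)))
  refine ⟨w (1 / 2), ?_, ?_, ?_, ?_, ?_⟩
  · have h1 := guu_s hC hG1 (gnr_ids hz) (guu_opn _ _) (i := 0) (i' := 1 / 2) ⟨by norm_num, by norm_num⟩
      ⟨by norm_num, by norm_num⟩
    exact sq_trans h1 (gnr_s1 hwc (1 / 2))
  · intro hu
    refine hCu _ hu ?_
    unfold Rr
    refine pc_sq hC ?_
    rw [hw1, hwG0]
    refine sq_mono ?_ hB1
    rw [hBe]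
    rintro v (rfl | hv)
    · exact Or.inl (Or.inl rfl)
    · exact Or.inl (Or.inr (Or.inr hv))
  · exact sq_mono hAB hB1
  · intro n c c' hc hc' hcc
    have h1 : Tq L (insert (z (-1)) (G0 F z)) (Sum.elim (Sum.elim c c') (s1 (z 1)))
        (Sum.elim (Sum.elim c c') (s1 (w (1 / 2)))) := by
      have h2 := tq_mono (subset_union_left (t := C)) (tq_sub (tq_add (tq_mono hAB (tq_of_sq hB1)) (Sum.elim c c') (by
        rintro (k | k)
        · exact Or.inr (hc k)
        · exact Or.inr (hc' k))) (Sum.swap : (Fin n ⊕ Fin n) ⊕ Fin 1 → Fin 1 ⊕ (Fin n ⊕ Fin n)))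
      rw [sw, sw] at h2
      exact h2
    have h3 := sq_tq h1 (by
      rw [guu_rg]
      unfold G1 at hcc
      rw [insert_comm] at hcc
      exact hcc)
    rw [guu_rg] at h3
    have hcl : ∀ i, c i ∈ Ll L F w (w (1 / 2)) := fun i =>
      (hGUU L U hC F w hwH (c i) (1 / 2) (by norm_num) (by norm_num) (hCu _ (hc i))).2 (by
        rw [hEw]
        exact hCE (hc i))
    have h1l : z 1 ∉ Ll L F w (w (1 / 2)) := by
      intro h4
      refine hGSP L U hC F w hwH (-1) (1 / 2) 1 (by norm_num) (by norm_num) (by norm_num) (by norm_num) ?_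
      rw [hw1]
      exact h4
    unfold Ll at hcl h1l
    rw [hwG0, hwm] at hcl h1l
    have h5 := of hC ((hG0.insert (z (-1))).insert (w (1 / 2))) (A := insert (w (1 / 2)) (G0 F z))
      (insert_subset_insert (subset_insert _ _)) (pc_bf hC (z (-1))) hcl h3 (w := s1 (z 1)) (fun _ => h1l)
    rw [guu_rg] at h5
    refine sq_mono ?_ h5
    rintro v (rfl | rfl | rfl | hv)
    · exact Or.inr (Or.inl rfl)
    · exact Or.inr (Or.inr (Or.inl rfl))
    · exact Or.inl rfl
    · exact Or.inr (Or.inr (Or.inr hv))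
  · intro X j hXf hX1 hj hXj hXC hjC
    obtain ⟨H, hHe⟩ : ∃ H, H = insert (z (-1)) (G0 F z) ∪ z '' X := ⟨_, rfl⟩
    have hHB : H ⊆ B := by
      rw [hHe]
      exact (union_subset_union_right _ hXC).trans hAB
    -- (i)
    have h1 : Sq L (insert (z 2) H) (s1 (z 1)) (s1 (w (1 / 2))) := by
      have h2 := guu_name hB0 (S' := Ioo 0 2) (X := {2}) (fun s hs => ⟨hs.1, by have := hs.2; linarith⟩) (by
        rintro x hx
        rw [mem_singleton_iff] at hx
        rw [hx]
        exact m2) (by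
        rintro x hx
        rw [mem_singleton_iff] at hx
        rw [hx]
        exact Or.inr fun s hs => hs.2)
      rw [image_singleton, union_singleton, hw2] at h2
      have h3 := guu_s hC (hBf.insert _) h2 (guu_opn _ _) (i := 1) (i' := 1 / 2) ⟨by norm_num, by norm_num⟩
        ⟨by norm_num, by norm_num⟩
      rw [hw1] at h3
      exact sq_mono (insert_subset_insert hHB) h3
    -- (ii)
    have h4 : Sq L (insert (z 2) H) (s1 (z 1)) (s1 (z j)) := by
      obtain ⟨a, ha1, haj, haX⟩ := gnr_bd hXf (a := -1) (b := j) hj.1 hXj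
      have hj1 := hj.1
      have hj2 := hj.2
      have h5 := guu_G0 hz (X := X ∪ {-1, 2}) (a := a) (b := 2) (by linarith) (by norm_num) (by
        rintro x (hx | hx | hx)
        · have h6 := hX1 hx
          have h7 := h6.1
          have h8 := h6.2
          constructor <;> linarith
        · rw [hx]
          constructor <;> norm_num
        · rw [mem_singleton_iff] at hx
          rw [hx]
          constructor <;> norm_num) (by
        rintro x (hx | hx | hx)
        · exact Or.inl (haX x hx).le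
        · rw [hx]
          exact Or.inl ha1.le
        · rw [mem_singleton_iff] at hx
          exact Or.inr hx.ge)
      have hfin : (G0 F z ∪ z '' (X ∪ {-1, 2})).Finite :=
        hG0.union ((hXf.union (Set.toFinite _)).image z)
      have h6 := guu_s hC hfin h5 (guu_opn _ _) (i := 1) (i' := j) ⟨by linarith, by norm_num⟩ ⟨haj, by linarith⟩
      refine sq_mono ?_ h6
      rw [hHe]
      rintro v (rfl | (rfl | hv) | hv)
      · exact Or.inr ⟨2, Or.inr (Or.inr rfl), rfl⟩
      · exact Or.inr ⟨-1, Or.inr (Or.inl rfl), rfl⟩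
      · exact Or.inl hv
      · obtain ⟨x, hx, rfl⟩ := hv
        exact Or.inr ⟨x, Or.inl hx, rfl⟩
    -- (iii)
    have h5 := sq_trans (sq_symm h1) h4
    -- (iv)
    have h6 := guu_2 hB0 (i := 1 / 2) (j := 2) (i' := 1 / 2) (j' := 1) mh m2 mh m1 (by norm_num) (by norm_num)
    rw [hw2, hw1] at h6
    have h7 : Tq L H (Sum.elim (Sum.elim (s1 (w (1 / 2))) (s1 (z j))) (s1 (z 2)))
        (Sum.elim (Sum.elim (s1 (w (1 / 2))) (s1 (z j))) (s1 (z 1))) := by
      have h8 := tq_mono hHB (tq_sub (tq_add h6 (s1 (z j)) (fun _ => hAB (Or.inr hjC)))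
        (Sum.elim (Sum.elim (fun _ => Sum.inl 0) (fun _ => Sum.inr 0)) (fun _ => Sum.inl 1) :
          (Fin 1 ⊕ Fin 1) ⊕ Fin 1 → Fin 2 ⊕ Fin 1))
      refine tq_congr h8 ?_ ?_ <;>
      · funext k
        rcases k with (k | k) | k <;> rfl
    -- (v)
    have h8 := sq_tq h7 (by
      rw [guu_rg]
      exact h5)
    rw [guu_rg] at h8
    refine sq_mono ?_ h8
    rw [hHe]
    rintro v ((rfl | rfl | hv) | hv)
    · exact Or.inr (Or.inl (Or.inl rfl))
    · exact Or.inl rfl
    · exact Or.inr (Or.inl (Or.inr hv))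
    · exact Or.inr (Or.inr hv)

end Pool.Agent.TPY
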