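import Pool.Agent.TPY.GBA

/-!
# TPY: module GSP (`z k` separates `z i` and `z j`)
-/

set_option autoImplicit false
set_option linter.unusedVariables false

namespace Pool.Agent.TPY

open FirstOrder.Language Set
open scoped FirstOrder
open Pool.Agent.MNO

section

variable {L : FirstOrder.Language.{0, 0}} {U : Type} [L.Structure U] {F : Set U} {z : ℚ → U}

private theorem gsp_pair (h : GH L F z) {a b c d : ℚ} (ha : a ∈ Ioo (-4 : ℚ) 4) (hb : b ∈ Ioo (-4 : ℚ) 4)
    (hc : c ∈ Ioo (-4 : ℚ) 4) (hd : d ∈ Ioo (-4 : ℚ) 4) (h1 : a < b ↔ c < d) (h2 : b < a ↔ d < c) :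
    Tq L F ![z a, z b] ![z c, z d] := by
  have h3 := ids_pat h.ind (κ := Fin 2) (g := ![a, b]) (g' := ![c, d])
    (by intro k; fin_cases k; exacts [ha, hb]) (by intro k; fin_cases k; exacts [hc, hd])
    (by
      intro k l
      fin_cases k <;> fin_cases l
      · exact ⟨fun h => absurd h (lt_irrefl _), fun h => absurd h (lt_irrefl _)⟩
      · exact h1
      · exact h2
      · exact ⟨fun h => absurd h (lt_irrefl _), fun h => absurd h (lt_irrefl _)⟩)
  refine tq_congr h3 ?_ ?_ <;>
  · funext k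
    fin_cases k <;> rfl

/-- the types over `F` of the pairs `(w t, z 0)` and `(w t, z (-3))` -/
private theorem gsp_a (h : GH L F z) {x : U} (hx : Sq L (insert (z 0) (G0 F z)) (s1 (z (-1))) (s1 x)) :
    ¬ Tq L (insert x F) (s1 (z (-3))) (s1 (z 0)) := by
  intro hc
  -- parameters of the base
  have key : ∀ a : U, a ∈ insert (z 0) (G0 F z) → Tq L F ![z (-1), a] ![x, a] := by
    intro a ha
    have h1 := tq_add (tq_of_sq hx) (s1 a) (fun _ => ha)
    refine tq_mono (f_sub_g0.trans (subset_insert _ _)) (tq_congr (tq_sub h1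
      (![Sum.inl 0, Sum.inr 0] : Fin 2 → Fin 1 ⊕ Fin 1)) ?_ ?_) <;>
    · funext k
      fin_cases k <;> rfl
  have h1 := key (z 0) (mem_insert _ _)
  have h2 := key (z (-3)) (mem_insert_of_mem _ m3_g0)
  have h3 : Tq L F ![x, z (-3)] ![x, z 0] := by
    have h4 := tq_add hc (s1 x) (fun _ => mem_insert _ _)
    refine tq_mono (subset_insert _ _) (tq_congr (tq_sub h4
      (![Sum.inr 0, Sum.inl 0] : Fin 2 → Fin 1 ⊕ Fin 1)) ?_ ?_) <;>
    · funext k
      fin_cases k <;> rfl
  have h4 : Tq L F ![z (-1), z (-3)] ![z (-1), z 0] := tq_trans h2 (tq_trans h3 (tq_symm h1))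
  have h5 : Tq L F ![z 1, z 0] ![z (-1), z (-3)] :=
    gsp_pair h (by constructor <;> norm_num) (by constructor <;> norm_num) (by constructor <;> norm_num)
      (by constructor <;> norm_num) (by norm_num) (by norm_num)
  have h6 : Tq L F ![z (-1), z 0] ![z 0, z 1] :=
    gsp_pair h (by constructor <;> norm_num) (by constructor <;> norm_num) (by constructor <;> norm_num)
      (by constructor <;> norm_num) (by norm_num) (by norm_num)
  exact h.ord (tq_symm (tq_trans h5 (tq_trans h4 h6)))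

private theorem gsp_main (hC : Cz L U) (hTR : St_GTR) (hDP : St_GDP) (hLK : St_GLK) (h : GH L F z) :
    z 1 ∉ Pc L (insert (z 0) (G0 F z)) (z (-1)) := by
  intro hmem
  have hAf : (insert (z 0) (G0 F z)).Finite := (g0_fin h).insert _
  have hFA : F ⊆ insert (z 0) (G0 F z) := f_sub_g0.trans (subset_insert _ _)
  obtain ⟨w, hw1, hw2, hw3⟩ := hLK L U hC (insert (z 0) (G0 F z)) (z (-1)) (z 1) hAf hmem
    ⟨z (-2), gh_ne h (by constructor <;> norm_num) (by constructor <;> norm_num) (by norm_num),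
      gh_ls h (by norm_num) (by norm_num) (by norm_num) (by norm_num) (by norm_num) (by norm_num)⟩
  -- (a)
  have ha : ∀ t, Ids L (insert (w t) F) (Ioo 0 4) z := by
    intro t
    by_contra hcon
    unfold Ids at hcon
    push Not at hcon
    obtain ⟨n, i, j, hi, hj, hiS, hjS, hij⟩ := hcon
    obtain ⟨e, he0, hei, hej⟩ : ∃ e : ℚ, 0 < e ∧ (∀ k, e < i k) ∧ ∀ k, e < j k := by
      rcases Nat.eq_zero_or_pos n with rfl | hn
      · exact ⟨1, one_pos, fun k => k.elim0, fun k => k.elim0⟩
      · have hm : 0 < min (i ⟨0, hn⟩) (j ⟨0, hn⟩) := lt_min (hiS _).1 (hjS _).1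
        refine ⟨min (i ⟨0, hn⟩) (j ⟨0, hn⟩) / 2, by linarith, fun k => ?_, fun k => ?_⟩
        · have h1 : i ⟨0, hn⟩ ≤ i k := hi.monotone (Fin.mk_le_mk.2 (Nat.zero_le _))
          have h2 := min_le_left (i ⟨0, hn⟩) (j ⟨0, hn⟩)
          linarith
        · have h1 : j ⟨0, hn⟩ ≤ j k := hj.monotone (Fin.mk_le_mk.2 (Nat.zero_le _))
          have h2 := min_le_right (i ⟨0, hn⟩) (j ⟨0, hn⟩)
          linarith
    rcases hDP L U hC F (Ioo (-4) 4) z (w t) e h.fin (opn_ioo _ _) h.ind with h1 | h1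
    · refine gsp_a h (hw1 t) ?_
      have h2 := ids_pat h1 (κ := Fin 1) (g := fun _ => (-3 : ℚ)) (g' := fun _ => (0 : ℚ))
        (fun _ => ⟨by constructor <;> norm_num, show (-3 : ℚ) < e by linarith⟩)
        (fun _ => ⟨by constructor <;> norm_num, he0⟩) (fun _ _ => by simp)
      exact h2
    · exact hij (h1 n i j hi hj (fun k => ⟨⟨by linarith [(hiS k).1], (hiS k).2⟩, hei k⟩)
        (fun k => ⟨⟨by linarith [(hjS k).1], (hjS k).2⟩, hej k⟩))
  -- (b)
  have hb : ∀ W : Set U, W.Finite → W ⊆ range w → Tq L (F ∪ W) (s1 (z 1)) (s1 (z 3)) := by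
    intro W hW hWw
    have h1 := hTR L U hC F W (Ioo 0 4) z h.fin hW (opn_ioo _ _)
      (ids_set h.ind (fun s hs => ⟨by linarith [hs.1], hs.2⟩)) (fun b hb => by
        obtain ⟨t, rfl⟩ := hWw hb
        exact ha t)
    exact ids_pat h1 (κ := Fin 1) (g := fun _ => (1 : ℚ)) (g' := fun _ => (3 : ℚ))
      (fun _ => by constructor <;> norm_num) (fun _ => by constructor <;> norm_num) (fun _ _ => by simp)
  -- (c)
  have hc : Ids L (insert (z 1) F) univ w := by
    intro n i j hi hj _ _ P hP hPi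
    obtain ⟨Q, hQ, hPQ⟩ := dp_fam1 hP
    have h3 : z 3 ∈ insert (z 0) (G0 F z) := mem_insert_of_mem _ p3_g0
    have hmv : ∀ i : Fin n → ℚ, Q (Sum.elim (fun k => w (i k)) (fun _ => z 1)) ↔
        Q (Sum.elim (fun k => w (i k)) (fun _ => z 3)) := by
      intro i
      have h4 := hb (range (fun k => w (i k))) (finite_range _) (by
        rintro _ ⟨k, rfl⟩
        exact ⟨i k, rfl⟩)
      have h5 : Dp L (F ∪ range (fun k => w (i k))) (fun v : Fin 1 → U =>
          Q (Sum.elim (fun k => w (i k)) (fun _ => v 0))) := by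
        have h6 := dp_par (α := Fin 1) (dp_sub (dp_mono (subset_union_left (t := range (fun k => w (i k)))) hQ)
          (Sum.elim Sum.inr (fun _ => Sum.inl 0) : Fin n ⊕ Unit → Fin 1 ⊕ Fin n)) (fun k => w (i k))
          (fun k => Or.inr ⟨k, rfl⟩)
        refine dp_congr h6 fun v => iff_of_eq ?_
        congr 1
        funext k
        rcases k with k | k <;> rfl
      exact tq_iff h4 h5
    have h7 : Dp L (insert (z 0) (G0 F z)) (fun v : Fin n → U => Q (Sum.elim v (fun _ => z 3))) :=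
      dp_par1 (dp_mono hFA hQ) h3
    rw [hPQ] at hPi ⊢
    rw [hmv] at hPi ⊢
    exact hw2 n i j hi hj (fun _ => mem_univ _) (fun _ => mem_univ _) _ h7 hPi
  -- (d)
  apply hw3
  have h8 := hTR L U hC F (insert (z 1) (insert (z 0) (G0 F z))) univ w h.fin (hAf.insert _) opn_univ
    (ids_par hw2 hFA) (by
      rintro b (rfl | hb)
      · exact hc
      · exact ids_par hw2 (insert_subset hb hFA))
  exact ids_par h8 subset_union_right

end

theorem thm_GSP (hTR : St_GTR) (hDP : St_GDP) (hLK : St_GLK) : St_GSP := by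
  intro L U _ hC F z h i k j hi hik hkj hj hmem
  apply gsp_main hC hTR hDP hLK h
  have e : ∀ a : ℚ, F ∪ range (![z a, z (-3), z 3] : Fin 3 → U) = insert (z a) (G0 F z) := by
    intro a
    unfold G0
    ext x
    constructor
    · rintro (hx | ⟨l, rfl⟩)
      · exact Or.inr (Or.inr (Or.inr hx))
      · fin_cases l
        · exact Or.inl rfl
        · exact Or.inr (Or.inl rfl)
        · exact Or.inr (Or.inr (Or.inl rfl))
    · rintro (rfl | rfl | rfl | hx)
      · exact Or.inr ⟨0, rfl⟩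
      · exact Or.inr ⟨1, rfl⟩
      · exact Or.inr ⟨2, rfl⟩
      · exact Or.inl hx
  have h1 : Tq L F (Sum.elim ![z i, z j] ![z k, z (-3), z 3]) (Sum.elim ![z (-1), z 1] ![z 0, z (-3), z 3]) := by
    have h2 := ids_pat h.ind (κ := Fin 2 ⊕ Fin 3) (g := Sum.elim ![i, j] ![k, -3, 3])
      (g' := Sum.elim ![-1, 1] ![0, -3, 3]) (by
        rintro (l | l) <;> fin_cases l <;> constructor <;> simp <;> linarith) (by
        rintro (l | l) <;> fin_cases l <;> constructor <;> simp <;> norm_num) (by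
        rintro (l | l) (l' | l') <;> fin_cases l <;> fin_cases l' <;> simp <;>
          first | linarith | (norm_num; done) | (norm_num; linarith))
    refine tq_congr h2 ?_ ?_ <;>
    · funext l
      rcases l with l | l <;> fin_cases l <;> rfl
  have h3 := pc_tq hC h.fin.countable h1 (by rw [e]; exact hmem)
  rw [e] at h3
  exact h3

end Pool.Agent.TPY
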