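import Pool.Agent.TPY.GBA

/-!
# TPY, GAP, module GST: `z` is indiscernible on `(0, 3)` over any finite set outside `Rr (z 0)`
-/

set_option autoImplicit false
set_option linter.unusedVariables false

namespace Pool.Agent.TPY

open FirstOrder.Language Set
open scoped FirstOrder
open Pool.Agent.MNO

theorem thm_GST (hSP : St_GSP) : St_GST := by
  intro L U _ hC F z h D hD hDR n i j hi hj hiS hjS
  set A : Set U := insert (z 0) (G0 F z) with hAdef
  have hA : A.Finite := (g0_fin h).insert _
  have h1 : Sq L A (fun k => z (i k)) (fun k => z (j k)) :=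
    ids_sq (gh_r h (k := 0) (by norm_num) (by norm_num)) (opn_up (opn_ioo _ _)) hi hj hiS hjS
  have hin : ∀ q ∈ Ioo (0 : ℚ) 3, z q ∈ Rr L F z (z 0) := fun q hq =>
    pc_sq hC (gh_rs h (k := 0) (i := 1) (by norm_num) (by norm_num) (by norm_num) (by norm_num) hq.1 hq.2)
  have hm1 : z (-1) ∉ Rr L F z (z 0) := by
    intro h2
    have h3 := pc_symm hC hA.countable h2
    exact hSP L U hC F z h (-1) 0 1 (by norm_num) (by norm_num) (by norm_num) (by norm_num) h3
  -- the parameters outside
  let W : Set U := insert (z (-1)) D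
  have hW : W.Finite := hD.insert _
  have : Finite W := hW
  have hWR : ∀ w : W, (w : U) ∉ Rr L F z (z 0) := by
    rintro ⟨w, rfl | hw⟩
    · exact hm1
    · exact fun h2 => disjoint_left.1 hDR hw h2
  have h4 := of_pc hC hA (x := z 1) (u := fun k => z (i k)) (u' := fun k => z (j k)) (fun k => hin _ (hiS k)) h1
    (w := fun w : W => (w : U)) hWR
  have h5 := tq_of_sq h4
  refine tq_mono ?_ h5
  rintro x ((rfl | rfl | hx) | hx)
  · exact Or.inl (mem_insert _ _)
  · exact Or.inr ⟨⟨z (-1), mem_insert _ _⟩, rfl⟩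
  · exact Or.inl (mem_insert_of_mem _ hx)
  · exact Or.inr ⟨⟨x, mem_insert_of_mem _ hx⟩, rfl⟩

end Pool.Agent.TPY
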