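import Pool.Agent.TPY.GBA

/-!
# TPY: GUU (the points between `z 0` and `z 1`)
-/

set_option autoImplicit false
set_option linter.unusedVariables false

namespace Pool.Agent.TPY

open FirstOrder.Language Set
open scoped FirstOrder
open Pool.Agent.MNO

section

variable {L : FirstOrder.Language.{0, 0}} {U : Type} [L.Structure U]

theorem guu_name {A : Set U} {S S' X : Set ℚ} {z : ℚ → U} (h : Ids L A S z) (hS : S' ⊆ S) (hX : X ⊆ S)
    (hXS : ∀ x ∈ X, (∀ s ∈ S', x < s) ∨ (∀ s ∈ S', s < x)) : Ids L (A ∪ z '' X) S' z :=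
  ids_name h hX hS fun e he => (hXS e he).symm

theorem guu_rg (A : Set U) (u : U) : A ∪ range (s1 u) = insert u A := by
  ext v
  constructor
  · rintro (h | ⟨_, rfl⟩)
    · exact Or.inr h
    · exact Or.inl rfl
  · rintro (rfl | h)
    · exact Or.inr ⟨0, rfl⟩
    · exact Or.inl h

/-- transport of `y` in the piece of `x` over `A u` by types of triples -/
theorem guu_mv (hC : Cz L U) {A : Set U} (hA : A.Countable) {x y u x' y' u' : U}
    (h : Tq L A ![x, y, u] ![x', y', u']) (hy : y ∈ Pc L (insert u A) x) : y' ∈ Pc L (insert u' A) x' := by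
  have h0 := tq_sub h (Sum.elim ![0, 1] ![2] : Fin 2 ⊕ Fin 1 → Fin 3)
  have e : ∀ x y u : U, (fun i => (![x, y, u] : Fin 3 → U) ((Sum.elim ![0, 1] ![2] : Fin 2 ⊕ Fin 1 → Fin 3) i)) =
      Sum.elim ![x, y] (s1 u) := by
    intro x y u
    funext i
    rcases i with i | i <;> fin_cases i <;> rfl
  rw [e, e] at h0
  have h1 := pc_tq hC hA (γ := Fin 1) (c := s1 u) (c' := s1 u') h0 (by rw [guu_rg]; exact hy)
  rw [guu_rg] at h1
  exact h1

/-- the same with `d` in the base -/
theorem guu_mv1 (hC : Cz L U) {A : Set U} (hA : A.Countable) {d x u x' u' : U}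
    (h : Tq L (insert d A) ![u, x] ![u', x']) (hy : d ∈ Pc L (insert u A) x) : d ∈ Pc L (insert u' A) x' := by
  refine guu_mv hC hA (x := x) (y := d) (u := u) ?_ hy
  have h0 := tq_mono (subset_insert d A) (tq_sub (tq_add h (s1 d) (fun _ => Or.inl rfl))
    (![Sum.inl 1, Sum.inr 0, Sum.inl 0] : Fin 3 → Fin 2 ⊕ Fin 1))
  refine tq_congr h0 ?_ ?_ <;>
  · funext i
    fin_cases i <;> rfl

theorem guu_bm {A B : Set U} (hAB : A ⊆ B) {S T : Set ℚ} (hST : S ⊆ T) {z : ℚ → U} (h : Ids L B T z) :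
    Ids L A S z := fun n i j hi hj hi' hj' =>
  tq_mono hAB (h n i j hi hj (fun k => hST (hi' k)) (fun k => hST (hj' k)))

theorem guu_2 {A : Set U} {S : Set ℚ} {z : ℚ → U} (h : Ids L A S z) {i j i' j' : ℚ} (hi : i ∈ S) (hj : j ∈ S)
    (hi' : i' ∈ S) (hj' : j' ∈ S) (hij : i < j) (hij' : i' < j') : Tq L A ![z i, z j] ![z i', z j'] := by
  have h1 := h 2 ![i, j] ![i', j'] (by
      intro a b hab
      fin_cases a <;> fin_cases b
      · exact absurd hab (lt_irrefl _)
      · exact hij
      · exact absurd hab (by decide)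
      · exact absurd hab (lt_irrefl _)) (by
      intro a b hab
      fin_cases a <;> fin_cases b
      · exact absurd hab (lt_irrefl _)
      · exact hij'
      · exact absurd hab (by decide)
      · exact absurd hab (lt_irrefl _)) (by
      intro k
      fin_cases k
      · exact hi
      · exact hj) (by
      intro k
      fin_cases k
      · exact hi'
      · exact hj')
  refine tq_congr h1 ?_ ?_ <;>
  · funext k
    fin_cases k <;> rfl

theorem guu_1 {A : Set U} {S : Set ℚ} {z : ℚ → U} (h : Ids L A S z) {i i' : ℚ} (hi : i ∈ S)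
    (hi' : i' ∈ S) : Tq L A (s1 (z i)) (s1 (z i')) := by
  have h1 := h 1 (fun _ => i) (fun _ => i') (Subsingleton.strictMono _) (Subsingleton.strictMono _)
    (fun _ => hi) (fun _ => hi')
  exact h1

theorem guu_s (hC : Cz L U) {A : Set U} (hA : A.Finite) {S : Set ℚ} {z : ℚ → U} (h : Ids L A S z)
    (hS : Opn S) {i i' : ℚ} (hi : i ∈ S) (hi' : i' ∈ S) : Sq L A (s1 (z i)) (s1 (z i')) := by
  have h1 := ids_sq h (opn_up hS) (n := 1) (i := fun _ => i) (j := fun _ => i') (Subsingleton.strictMono _)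
    (Subsingleton.strictMono _) (fun _ => hi) (fun _ => hi')
  exact h1

theorem guu_opn (a b : ℚ) : Opn (Ioo a b) := by
  refine ⟨ordConnected_Ioo, fun s hs => ⟨?_, ?_⟩⟩
  · obtain ⟨t, ht, ht'⟩ := exists_between hs.1
    exact ⟨t, ⟨ht, ht'.trans hs.2⟩, ht'⟩
  · obtain ⟨t, ht, ht'⟩ := exists_between hs.2
    exact ⟨t, ⟨hs.1.trans ht, ht'⟩, ht⟩

theorem guu_G0fin {F : Set U} (hF : F.Finite) (z : ℚ → U) : (G0 F z).Finite := (hF.insert _).insert _

/-- the sequence over `G0` and the sequence over `G0` and one more term -/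
theorem guu_G0 {F : Set U} {z : ℚ → U} (h : GH L F z) {X : Set ℚ} {a b : ℚ} (ha : -3 ≤ a) (hb : b ≤ 3)
    (hX : X ⊆ Ioo (-4) 4) (hXab : ∀ x ∈ X, x ≤ a ∨ b ≤ x) : Ids L (G0 F z ∪ z '' X) (Ioo a b) z := by
  have h1 := guu_name h.ind (S' := Ioo a b) (X := X ∪ {-3, 3}) (by
      intro s hs
      have h1 := hs.1
      have h2 := hs.2
      constructor <;> linarith) (by
      rintro x (hx | hx | hx)
      · exact hX hx
      · rw [hx]
        constructor <;> norm_num
      · rw [mem_singleton_iff] at hx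
        rw [hx]
        constructor <;> norm_num) (by
      rintro x (hx | hx | hx)
      · rcases hXab x hx with h1 | h1
        · exact Or.inl fun s hs => lt_of_le_of_lt h1 hs.1
        · exact Or.inr fun s hs => lt_of_lt_of_le hs.2 h1
      · exact Or.inl fun s hs => by
          rw [hx]
          exact lt_of_le_of_lt ha hs.1
      · rw [mem_singleton_iff] at hx
        exact Or.inr fun s hs => by
          rw [hx]
          exact lt_of_lt_of_le hs.2 hb)
  refine guu_bm ?_ (Subset.refl _) h1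
  rintro v ((rfl | rfl | hv) | hv)
  · exact Or.inr ⟨-3, Or.inr (Or.inl rfl), rfl⟩
  · exact Or.inr ⟨3, Or.inr (Or.inr rfl), rfl⟩
  · exact Or.inl hv
  · obtain ⟨x, hx, rfl⟩ := hv
    exact Or.inr ⟨x, Or.inl hx, rfl⟩

/-- the sequence over `G0` and `z l` -/
theorem guu_G0l {F : Set U} {z : ℚ → U} (h : GH L F z) {l : ℚ} (hl : -3 < l) (hl' : l < 3) :
    Ids L (insert (z l) (G0 F z)) (Ioo (-3) l) z := by
  have h1 := guu_G0 h (X := {l}) (a := -3) (b := l) le_rfl hl'.le (by
    rintro x hx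
    rw [mem_singleton_iff] at hx
    rw [hx]
    constructor <;> linarith) (by
    rintro x hx
    rw [mem_singleton_iff] at hx
    exact Or.inr hx.ge)
  rw [image_singleton, union_singleton] at h1
  exact h1

theorem guu_bd {n : ℕ} (i j : Fin n → ℚ) {a b : ℚ} (hab : a < b) (hi : ∀ k, i k < b) (hj : ∀ k, j k < b) :
    ∃ l, a < l ∧ l < b ∧ (∀ k, i k < l) ∧ ∀ k, j k < l := by
  classical
  obtain ⟨m, hm, hm'⟩ := Order.exists_between_finsets (insert a (Finset.univ.image i ∪ Finset.univ.image j)) {b} (by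
    intro x hx y hy
    rw [Finset.mem_singleton] at hy
    rw [hy]
    rw [Finset.mem_insert, Finset.mem_union, Finset.mem_image, Finset.mem_image] at hx
    rcases hx with rfl | ⟨k, -, rfl⟩ | ⟨k, -, rfl⟩
    · exact hab
    · exact hi k
    · exact hj k)
  refine ⟨m, hm a (Finset.mem_insert_self _ _), hm' b (Finset.mem_singleton_self _), fun k => hm _ ?_, fun k => hm _ ?_⟩
  · exact Finset.mem_insert_of_mem (Finset.mem_union_left _ (Finset.mem_image_of_mem _ (Finset.mem_univ k)))
  · exact Finset.mem_insert_of_mem (Finset.mem_union_right _ (Finset.mem_image_of_mem _ (Finset.mem_univ k)))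

end

theorem thm_GUU (hGSP : St_GSP) (hGST : St_GST) : St_GUU := by
  intro L U _ hC F z hz d k hk0 hk1 hd
  have hG0 : (G0 F z).Finite := guu_G0fin hz.fin z
  have hGS := hGST L U hC F z hz {d} (finite_singleton d) (disjoint_singleton_left.2 hd)
  have h01 : Ids L (insert d (G0 F z)) (Ioo 0 3) z := by
    refine guu_bm ?_ (Subset.refl _) hGS
    rintro v (rfl | hv)
    · exact Or.inr rfl
    · exact Or.inl (Or.inr (Or.inr hv))
  have hm : (1 : ℚ) ∈ Ioo (0 : ℚ) 3 := by constructor <;> norm_num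
  have hkm : k ∈ Ioo (0 : ℚ) 3 := ⟨hk0, by linarith⟩
  refine ⟨?_, ?_⟩
  · intro hdk
    have c1 : ∀ l m : ℚ, 0 < l → l < m → m < 3 → d ∈ Pc L (insert (z l) (G0 F z)) (z m) := by
      intro l m hl hlm hm3
      exact guu_mv1 hC hG0.countable (guu_2 h01 (i := k) (j := 1) (i' := l) (j' := m) hkm hm
        ⟨hl, by linarith⟩ ⟨by linarith, hm3⟩ hk1 hlm) hdk
    have c3 : ∀ l : ℚ, 0 < l → l < 3 → Ids L (insert d (G0 F z)) (Ioo (-3) l) z := by
      intro l hl0 hl3 n i j hi hj hi' hj'
      have h1 : Ids L (insert (z l) (G0 F z)) (Ioo (-3) l) z := guu_G0l hz (by linarith) hl3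
      have hf : (insert (z l) (G0 F z)).Finite := hG0.insert _
      have h2 := ids_sq h1 (opn_up (guu_opn _ _)) hi hj hi' hj'
      have h0l : (0 : ℚ) ∈ Ioo (-3 : ℚ) l := ⟨by norm_num, hl0⟩
      have h3 := of_pc hC hf (x := z 0) (fun q => pc_sq hC (guu_s hC hf h1 (guu_opn _ _) h0l (hi' q))) h2
        (w := s1 d) (by
          intro _ hd'
          have h4 := c1 l ((l + 3) / 2) hl0 (by linarith) (by linarith)
          have h5 := pc_disj hC hf.countable h4 hd'
          refine hGSP L U hC F z hz 0 l ((l + 3) / 2) (by norm_num) hl0 (by linarith) (by linarith) ?_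
          rw [← h5]
          exact mem_pc _)
      rw [guu_rg] at h3
      exact tq_mono (insert_subset_insert (subset_insert _ _)) (tq_of_sq h3)
    have c4 : Ids L (insert d (G0 F z)) (Ioo (-3) 3) z := by
      intro n i j hi hj hi' hj'
      obtain ⟨l, hl0, hl3, hil, hjl⟩ := guu_bd i j (a := 0) (b := 3) (by norm_num) (fun k => (hi' k).2)
        (fun k => (hj' k).2)
      exact c3 l hl0 hl3 n i j hi hj (fun k => ⟨(hi' k).1, hil k⟩) (fun k => ⟨(hj' k).1, hjl k⟩)
    refine hd (guu_mv1 hC hG0.countable (guu_2 c4 (i := k) (j := 1) (i' := 0) (j' := 1) ⟨by linarith, hkm.2⟩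
      ⟨by norm_num, by norm_num⟩ ⟨by norm_num, by norm_num⟩ ⟨by norm_num, by norm_num⟩ hk1 (by norm_num)) hdk)
  · intro hdE
    -- `d` is in the piece of `z (-1)` over `G0, z 1`
    have h1 : Ids L (insert (z 1) (G0 F z)) (Ioo (-3) 1) z := guu_G0l hz (by norm_num) (by norm_num)
    have hf : (insert (z 1) (G0 F z)).Finite := hG0.insert _
    have h2 : d ∈ Pc L (insert (z 1) (G0 F z)) (z 0) := by
      refine pc_mono hC (B := G1 F z) (hf.insert _) ?_ _ hdE
      exact subset_insert _ _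
    have h3 : z 0 ∈ Pc L (insert (z 1) (G0 F z)) (z (-1)) :=
      pc_sq hC (guu_s hC hf h1 (guu_opn _ _) (i := -1) (i' := 0) ⟨by norm_num, by norm_num⟩
        ⟨by norm_num, by norm_num⟩)
    have h4 : d ∈ Pc L (insert (z 1) (G0 F z)) (z (-1)) := by
      rw [← pc_eq hC hf.countable h3]
      exact h2
    -- `z k` and `z 1` have the same type over `G0, z (-1), d`
    have h5 := guu_1 hGS (i := 1) (i' := k) hm hkm
    refine guu_mv hC hG0.countable (x := z (-1)) (y := d) (u := z 1) ?_ h4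
    have h6 := tq_mono (A := G0 F z) (fun v hv => Or.inl (Or.inr (Or.inr hv))) (tq_sub (tq_add h5
      (![z (-1), d] : Fin 2 → U) (by
        intro q
        fin_cases q
        · exact Or.inl (Or.inr (Or.inl rfl))
        · exact Or.inr rfl)) (![Sum.inr 0, Sum.inr 1, Sum.inl 0] : Fin 3 → Fin 1 ⊕ Fin 2))
    refine tq_congr h6 ?_ ?_ <;>
    · funext i
      fin_cases i <;> rfl

end Pool.Agent.TPY
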