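import Pool.Agent.TPY.GBA

/-!
# TPY [NTI]: naming finitely many terms of a sequence which is not totally indiscernible
-/

set_option autoImplicit false
set_option linter.unusedVariables false

namespace Pool.Agent.TPY

open FirstOrder.Language Set
open scoped FirstOrder
open Pool.Agent.MNO (Dp FE Sq Exa)

variable {L : FirstOrder.Language.{0, 0}} {U : Type} [L.Structure U]

/-- the increasing tuple with the values `0`, `1` at the places `k`, `k + 1` -/
private def nti_m {n : ℕ} (k : Fin n) (j : Fin (n + 1)) : ℚ :=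
  if j < k.castSucc then -4 - (n + 1) + (j : ℕ) else if j = k.castSucc then 0 else if j = k.succ then 1
    else 4 + (j : ℕ)

private theorem nti_lt {n : ℕ} (k : Fin n) (j : Fin (n + 1)) (hj : j < k.castSucc) :
    nti_m k j = -4 - (n + 1) + (j : ℕ) := by
  rw [nti_m, if_pos hj]

private theorem nti_a {n : ℕ} (k : Fin n) : nti_m k k.castSucc = 0 := by
  rw [nti_m, if_neg (lt_irrefl _), if_pos rfl]

private theorem nti_b {n : ℕ} (k : Fin n) : nti_m k k.succ = 1 := by
  have h1 : k.castSucc < k.succ := Fin.castSucc_lt_succ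
  rw [nti_m, if_neg (not_lt.2 h1.le), if_neg h1.ne', if_pos rfl]

private theorem nti_gt {n : ℕ} (k : Fin n) (j : Fin (n + 1)) (hj : k.succ < j) : nti_m k j = 4 + (j : ℕ) := by
  have h1 : k.castSucc < k.succ := Fin.castSucc_lt_succ
  rw [nti_m, if_neg (not_lt.2 (h1.trans hj).le), if_neg (h1.trans hj).ne', if_neg hj.ne']

private theorem nti_cases {n : ℕ} (k : Fin n) (j : Fin (n + 1)) :
    j < k.castSucc ∨ j = k.castSucc ∨ j = k.succ ∨ k.succ < j := by
  rw [Fin.lt_def, Fin.ext_iff, Fin.ext_iff, Fin.lt_def]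
  simp only [Fin.val_castSucc, Fin.val_succ]
  omega

private theorem nti_small {n : ℕ} (k : Fin n) (j : Fin (n + 1)) (hj : j < k.castSucc) : nti_m k j ≤ -4 := by
  rw [nti_lt k j hj]
  have h1 : ((j : ℕ) : ℚ) < n + 1 := by exact_mod_cast j.2
  linarith

private theorem nti_big {n : ℕ} (k : Fin n) (j : Fin (n + 1)) (hj : k.succ < j) : 4 ≤ nti_m k j := by
  rw [nti_gt k j hj]
  have h1 : (0 : ℚ) ≤ ((j : ℕ) : ℚ) := Nat.cast_nonneg _
  linarith

private theorem nti_mono {n : ℕ} (k : Fin n) : StrictMono (nti_m k) := by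
  intro i j hij
  have h0 : k.castSucc < k.succ := Fin.castSucc_lt_succ
  have hc : ((i : ℕ) : ℚ) < ((j : ℕ) : ℚ) := by exact_mod_cast hij
  rcases nti_cases k i with hi | rfl | rfl | hi
  · rcases nti_cases k j with hj | rfl | rfl | hj
    · rw [nti_lt k i hi, nti_lt k j hj]
      linarith
    · rw [nti_a]
      linarith [nti_small k i hi]
    · rw [nti_b]
      linarith [nti_small k i hi]
    · linarith [nti_small k i hi, nti_big k j hj]
  · rcases nti_cases k j with hj | rfl | rfl | hj
    · exact absurd hij (not_lt.2 hj.le)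
    · exact absurd hij (lt_irrefl _)
    · rw [nti_a, nti_b]
      norm_num
    · rw [nti_a]
      linarith [nti_big k j hj]
  · rcases nti_cases k j with hj | rfl | rfl | hj
    · exact absurd (hij.trans (hj.trans h0)) (lt_irrefl _)
    · exact absurd (hij.trans h0) (lt_irrefl _)
    · exact absurd hij (lt_irrefl _)
    · rw [nti_b]
      linarith [nti_big k j hj]
  · rcases nti_cases k j with hj | rfl | rfl | hj
    · exact absurd (hi.trans (hij.trans (hj.trans h0))) (lt_irrefl _)
    · exact absurd (hi.trans (hij.trans h0)) (lt_irrefl _)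
    · exact absurd (hi.trans hij) (lt_irrefl _)
    · rw [nti_gt k i hi, nti_gt k j hj]
      linarith

/-- adjacent transpositions -/
private theorem nti_swap {F : Set U} {z : ℚ → U} (hz : Ids L F univ z)
    (h : ∀ J : Set ℚ, J.Finite → (∀ e ∈ J, e ≤ -4 ∨ 4 ≤ e) → Tq L (F ∪ z '' J) ![z 0, z 1] ![z 1, z 0])
    {n : ℕ} (k : Fin n) (m : Fin (n + 1) → ℚ) (hm : StrictMono m) :
    Tq L F (fun j => z (m j)) (fun j => z (m (Equiv.swap k.castSucc k.succ j))) := by
  classical
  let W : Type := {j : Fin (n + 1) // j ≠ k.castSucc ∧ j ≠ k.succ}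
  have h1 := h (range fun j : W => nti_m k j.1) (finite_range _) (by
    rintro _ ⟨j, rfl⟩
    rcases nti_cases k j.1 with hj | hj | hj | hj
    · exact Or.inl (nti_small k _ hj)
    · exact absurd hj j.2.1
    · exact absurd hj j.2.2
    · exact Or.inr (nti_big k _ hj))
  have e1 : F ∪ z '' (range fun j : W => nti_m k j.1) = F ∪ range (fun j : W => z (nti_m k j.1)) := by
    rw [← range_comp]
    rfl
  rw [e1] at h1
  have h2 := tq_fam.1 h1
  have h3 := tq_sub h2 (fun j : Fin (n + 1) => if h : j = k.castSucc then Sum.inl 0 else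
    if h' : j = k.succ then Sum.inl 1 else (Sum.inr ⟨j, h, h'⟩ : Fin 2 ⊕ W))
  have h4 : Tq L F (fun j => z (nti_m k j)) (fun j => z (nti_m k (Equiv.swap k.castSucc k.succ j))) := by
    refine tq_congr h3 ?_ ?_
    · funext j
      by_cases hj : j = k.castSucc
      · simp only [hj, dite_true, nti_a, Sum.elim_inl, Matrix.cons_val_zero]
      · by_cases hj' : j = k.succ
        · have h0 : k.castSucc < k.succ := Fin.castSucc_lt_succ
          simp only [hj', h0.ne', dite_false, dite_true, nti_b, Sum.elim_inl, Matrix.cons_val_one]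
          rfl
        · simp only [hj, hj', dite_false, Sum.elim_inr]
    · funext j
      by_cases hj : j = k.castSucc
      · simp only [hj, dite_true, Equiv.swap_apply_left, nti_b, Sum.elim_inl, Matrix.cons_val_zero]
      · by_cases hj' : j = k.succ
        · have h0 : k.castSucc < k.succ := Fin.castSucc_lt_succ
          simp only [hj', h0.ne', dite_false, dite_true, Equiv.swap_apply_right, nti_a, Sum.elim_inl,
            Matrix.cons_val_one]
          rfl
        · simp only [hj, hj', dite_false, Sum.elim_inr, Equiv.swap_apply_of_ne_of_ne hj hj']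
  have h5 := hz (n + 1) m (nti_m k) hm (nti_mono k) (fun _ => mem_univ _) (fun _ => mem_univ _)
  exact tq_trans h5 (tq_trans h4 (tq_symm (tq_sub h5 (Equiv.swap k.castSucc k.succ))))

/-- all permutations -/
private theorem nti_perm {F : Set U} {z : ℚ → U} (hz : Ids L F univ z)
    (h : ∀ J : Set ℚ, J.Finite → (∀ e ∈ J, e ≤ -4 ∨ 4 ≤ e) → Tq L (F ∪ z '' J) ![z 0, z 1] ![z 1, z 0])
    {n : ℕ} (σ : Equiv.Perm (Fin n)) (m : Fin n → ℚ) (hm : StrictMono m) :
    Tq L F (fun j => z (m j)) (fun j => z (m (σ j))) := by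
  rcases n with _ | n
  · have e : (fun j => z (m j)) = fun j => z (m (σ j)) := funext fun j => j.elim0
    rw [← e]
    exact tq_refl _
  have h1 : σ ∈ Submonoid.closure (range fun i : Fin n => Equiv.swap i.castSucc i.succ) := by
    rw [Equiv.Perm.mclosure_swap_castSucc_succ]
    exact Submonoid.mem_top _
  induction h1 using Submonoid.closure_induction with
  | mem x hx =>
    obtain ⟨k, rfl⟩ := hx
    exact nti_swap hz h k m hm
  | one => exact tq_refl _
  | mul x y hx hy ihx ihy => exact tq_trans ihy (tq_sub ihx y)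

theorem thm_NTI : St_NTI := by
  intro L U _ hC F z hz hT
  by_contra hcon
  push Not at hcon
  apply hT
  have h1 : ∀ (n : ℕ) (i : Fin n → ℚ), Function.Injective i →
      ∃ m : Fin n → ℚ, StrictMono m ∧ Tq L F (fun k => z (m k)) (fun k => z (i k)) := by
    intro n i hi
    have hs : StrictMono (i ∘ Tuple.sort i) :=
      (Tuple.monotone_sort i).strictMono_of_injective (hi.comp (Tuple.sort i).injective)
    refine ⟨i ∘ Tuple.sort i, hs, ?_⟩
    refine tq_congr (nti_perm hz (fun J hJ hJ' => hcon J hJ hJ') (Tuple.sort i).symm _ hs) rfl ?_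
    funext k
    show z (i k) = z (i (Tuple.sort i ((Tuple.sort i).symm k)))
    rw [Equiv.apply_symm_apply]
  intro n i j hi hj _ _
  obtain ⟨m, hm, hm'⟩ := h1 n i hi
  obtain ⟨l, hl, hl'⟩ := h1 n j hj
  exact tq_trans (tq_symm hm') (tq_trans (hz n m l hm hl (fun _ => mem_univ _) (fun _ => mem_univ _)) hl')

end Pool.Agent.TPY
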