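import Pool.Agent.TPY.GBA

/-!
# TPY: DP for totally indiscernible sequences
-/

set_option autoImplicit false
set_option linter.unusedVariables false

namespace Pool.Agent.TPY

open FirstOrder.Language Set
open scoped FirstOrder
open Pool.Agent.MNO

/-- an injection of the rational numbers with prescribed values at finitely many places -/
private theorem TID_inj {ι : Type} {X : Set ι} (hX : X.Infinite) {κ : Type} [Finite κ] {g : κ → ℚ} {h : κ → ι}
    (hg : Function.Injective g) (hh : Function.Injective h) (hhX : ∀ k, h k ∈ X) :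
    ∃ f : ℚ → ι, Function.Injective f ∧ (∀ q, f q ∈ X) ∧ ∀ k, f (g k) = h k := by
  classical
  have h1 : (X \ range h).Infinite := hX.sdiff (finite_range h)
  let s : ℕ ↪ ι := (h1.natEmbedding _).trans (Function.Embedding.subtype _)
  have hsX : ∀ m, s m ∈ X := fun m => (h1.natEmbedding _ m).2.1
  have hsh : ∀ m, s m ∉ range h := fun m => (h1.natEmbedding _ m).2.2
  let f : ℚ → ι := fun q => if hq : ∃ k, g k = q then h hq.choose else s (Encodable.encode q)
  have f1 : ∀ k, f (g k) = h k := fun k => by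
    have hq : ∃ k', g k' = g k := ⟨k, rfl⟩
    have h2 : f (g k) = h hq.choose := dif_pos hq
    rw [h2]
    exact congrArg h (hg hq.choose_spec)
  have f2 : ∀ q, (¬ ∃ k, g k = q) → f q = s (Encodable.encode q) := fun q hq => dif_neg hq
  refine ⟨f, ?_, ?_, f1⟩
  · intro p q hpq
    by_cases hp : ∃ k, g k = p
    · obtain ⟨k, rfl⟩ := hp
      by_cases hq : ∃ k, g k = q
      · obtain ⟨l, rfl⟩ := hq
        rw [f1, f1] at hpq
        rw [hh hpq]
      · rw [f1, f2 q hq] at hpq
        exact absurd ⟨k, hpq⟩ (hsh _)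
    · by_cases hq : ∃ k, g k = q
      · obtain ⟨l, rfl⟩ := hq
        rw [f1, f2 p hp] at hpq
        exact absurd ⟨l, hpq.symm⟩ (hsh _)
      · rw [f2 p hp, f2 q hq] at hpq
        exact Encodable.encode_injective (s.injective hpq)
  · intro q
    by_cases hq : ∃ k, g k = q
    · obtain ⟨l, rfl⟩ := hq
      rw [f1]
      exact hhX l
    · rw [f2 q hq]
      exact hsX _

/-- if `z` is not totally indiscernible there are disjoint tuples of different type -/
private theorem TID_dis {L : FirstOrder.Language.{0, 0}} {U : Type} [L.Structure U] {B : Set U} {ι : Type}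
    {X : Set ι} {z : ι → U} (hX : X.Infinite) (h : ¬ Tis L B X z) :
    ∃ (n : ℕ) (i : Fin n ⊕ Fin n → ι), Function.Injective i ∧ (∀ k, i k ∈ X) ∧
      ¬ Tq L B (fun k => z (i (Sum.inl k))) (fun k => z (i (Sum.inr k))) := by
  classical
  unfold Tis at h
  push Not at h
  obtain ⟨n, i, j, hi, hj, hiX, hjX, hij⟩ := h
  have h1 : (X \ (range i ∪ range j)).Infinite := hX.sdiff ((finite_range i).union (finite_range j))
  let s : ℕ ↪ ι := (h1.natEmbedding _).trans (Function.Embedding.subtype _)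
  have hsX : ∀ m, s m ∈ X := fun m => (h1.natEmbedding _ m).2.1
  have hsh : ∀ m, s m ∉ range i ∪ range j := fun m => (h1.natEmbedding _ m).2.2
  let k : Fin n → ι := fun m => s m
  have hk : Function.Injective k := fun a b hab => Fin.ext (s.injective hab)
  have key : ∀ i : Fin n → ι, Function.Injective i → (∀ k, i k ∈ X) → (∀ a b, i a ≠ k b) →
      Function.Injective (Sum.elim i k) ∧ ∀ a, Sum.elim i k a ∈ X := by
    intro i hi hiX hne
    refine ⟨?_, ?_⟩
    · rintro (a | a) (b | b) hab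
      · exact congrArg Sum.inl (hi hab)
      · exact absurd hab (hne a b)
      · exact absurd hab.symm (hne b a)
      · exact congrArg Sum.inr (hk hab)
    · rintro (a | a)
      · exact hiX a
      · exact hsX _
  by_cases h2 : Tq L B (fun m => z (i m)) (fun m => z (k m))
  · have h3 := key j hj hjX (fun a b hab => hsh b (Or.inr ⟨a, hab⟩))
    refine ⟨n, Sum.elim j k, h3.1, h3.2, fun h4 => hij (tq_trans h2 (tq_symm h4))⟩
  · have h3 := key i hi hiX (fun a b hab => hsh b (Or.inl ⟨a, hab⟩))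
    exact ⟨n, Sum.elim i k, h3.1, h3.2, h2⟩

theorem thm_TID (hDP : St_GDP) : St_TID := by
  intro L U _ hC A ι X₁ X₂ z d hA hX₁ hX₂ hd hz
  by_contra hcon
  rw [not_or] at hcon
  obtain ⟨n, i, hi, hiX, hni⟩ := TID_dis hX₁ hcon.1
  obtain ⟨m, j, hj, hjX, hnj⟩ := TID_dis hX₂ hcon.2
  let a : Fin n ⊕ Fin n → ℚ := Sum.elim (fun k => (k : ℚ) - 2 * n) (fun k => (k : ℚ) - n)
  let b : Fin m ⊕ Fin m → ℚ := Sum.elim (fun k => (k : ℚ) + 1) (fun k => (k : ℚ) + m + 1)
  have ha : Function.Injective a := by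
    rintro (k | k) (l | l) hkl
    · have h1 : (k : ℚ) - 2 * n = (l : ℚ) - 2 * n := hkl
      have h2 : ((k : ℕ) : ℚ) = (l : ℕ) := by linarith
      exact congrArg Sum.inl (Fin.ext (Nat.cast_injective h2))
    · have h1 : (k : ℚ) - 2 * n = (l : ℚ) - n := hkl
      have h2 : ((k : ℕ) : ℚ) < n := Nat.cast_lt.2 k.2
      have h3 : (0 : ℚ) ≤ ((l : ℕ) : ℚ) := Nat.cast_nonneg _
      linarith
    · have h1 : (k : ℚ) - n = (l : ℚ) - 2 * n := hkl
      have h2 : ((l : ℕ) : ℚ) < n := Nat.cast_lt.2 l.2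
      have h3 : (0 : ℚ) ≤ ((k : ℕ) : ℚ) := Nat.cast_nonneg _
      linarith
    · have h1 : (k : ℚ) - n = (l : ℚ) - n := hkl
      have h2 : ((k : ℕ) : ℚ) = (l : ℕ) := by linarith
      exact congrArg Sum.inr (Fin.ext (Nat.cast_injective h2))
  have hb : Function.Injective b := by
    rintro (k | k) (l | l) hkl
    · have h1 : (k : ℚ) + 1 = (l : ℚ) + 1 := hkl
      have h2 : ((k : ℕ) : ℚ) = (l : ℕ) := by linarith
      exact congrArg Sum.inl (Fin.ext (Nat.cast_injective h2))
    · have h1 : (k : ℚ) + 1 = (l : ℚ) + m + 1 := hkl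
      have h2 : ((k : ℕ) : ℚ) < m := Nat.cast_lt.2 k.2
      have h3 : (0 : ℚ) ≤ ((l : ℕ) : ℚ) := Nat.cast_nonneg _
      linarith
    · have h1 : (k : ℚ) + m + 1 = (l : ℚ) + 1 := hkl
      have h2 : ((l : ℕ) : ℚ) < m := Nat.cast_lt.2 l.2
      have h3 : (0 : ℚ) ≤ ((k : ℕ) : ℚ) := Nat.cast_nonneg _
      linarith
    · have h1 : (k : ℚ) + m + 1 = (l : ℚ) + m + 1 := hkl
      have h2 : ((k : ℕ) : ℚ) = (l : ℕ) := by linarith
      exact congrArg Sum.inr (Fin.ext (Nat.cast_injective h2))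
  have ha0 : ∀ k, a k < 0 := by
    rintro (k | k)
    · show (k : ℚ) - 2 * n < 0
      have h2 : ((k : ℕ) : ℚ) < n := Nat.cast_lt.2 k.2
      have h3 : (0 : ℚ) ≤ (n : ℚ) := Nat.cast_nonneg _
      linarith
    · show (k : ℚ) - n < 0
      have h2 : ((k : ℕ) : ℚ) < n := Nat.cast_lt.2 k.2
      linarith
  have hb0 : ∀ k, 0 < b k := by
    rintro (k | k)
    · show 0 < (k : ℚ) + 1
      have h3 : (0 : ℚ) ≤ ((k : ℕ) : ℚ) := Nat.cast_nonneg _
      linarith
    · show 0 < (k : ℚ) + m + 1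
      have h3 : (0 : ℚ) ≤ ((k : ℕ) : ℚ) := Nat.cast_nonneg _
      have h4 : (0 : ℚ) ≤ (m : ℚ) := Nat.cast_nonneg _
      linarith
  obtain ⟨f, hf, hfX, hfe⟩ := TID_inj (X := X₁ ∪ X₂) (hX₁.mono subset_union_left)
    (g := Sum.elim a b) (h := Sum.elim i j) (by
      rintro (k | k) (l | l) hkl
      · exact congrArg Sum.inl (ha hkl)
      · exact absurd hkl (((ha0 k).trans (hb0 l)).ne)
      · exact absurd hkl (((ha0 l).trans (hb0 k)).ne')
      · exact congrArg Sum.inr (hb hkl)) (by
      rintro (k | k) (l | l) hkl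
      · exact congrArg Sum.inl (hi hkl)
      · exact absurd (hjX l) (disjoint_left.1 hd (by rw [← show i k = j l from hkl]; exact hiX k))
      · exact absurd (hjX k) (disjoint_left.1 hd (by rw [show j k = i l from hkl]; exact hiX l))
      · exact congrArg Sum.inr (hj hkl)) (by
      rintro (k | k)
      · exact Or.inl (hiX k)
      · exact Or.inr (hjX k))
  have h1 : Ids L A univ (fun q => z (f q)) := tis_ids hz hf.injOn fun q _ => hfX q
  rcases hDP L U hC A univ (fun q => z (f q)) d 0 hA opn_univ h1 with h2 | h2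
  · have h3 := h2 n (fun k => a (Sum.inl k)) (fun k => a (Sum.inr k))
      (fun k l hkl => by
        show (k : ℚ) - 2 * n < (l : ℚ) - 2 * n
        have : ((k : ℕ) : ℚ) < (l : ℕ) := Nat.cast_lt.2 hkl
        linarith)
      (fun k l hkl => by
        show (k : ℚ) - n < (l : ℚ) - n
        have : ((k : ℕ) : ℚ) < (l : ℕ) := Nat.cast_lt.2 hkl
        linarith)
      (fun k => ⟨mem_univ _, ha0 _⟩) (fun k => ⟨mem_univ _, ha0 _⟩)
    refine hni (tq_congr h3 ?_ ?_)
    · funext k
      exact congrArg z (hfe (Sum.inl (Sum.inl k))).symm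
    · funext k
      exact congrArg z (hfe (Sum.inl (Sum.inr k))).symm
  · have h3 := h2 m (fun k => b (Sum.inl k)) (fun k => b (Sum.inr k))
      (fun k l hkl => by
        show (k : ℚ) + 1 < (l : ℚ) + 1
        have : ((k : ℕ) : ℚ) < (l : ℕ) := Nat.cast_lt.2 hkl
        linarith)
      (fun k l hkl => by
        show (k : ℚ) + m + 1 < (l : ℚ) + m + 1
        have : ((k : ℕ) : ℚ) < (l : ℕ) := Nat.cast_lt.2 hkl
        linarith)
      (fun k => ⟨mem_univ _, hb0 _⟩) (fun k => ⟨mem_univ _, hb0 _⟩)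
    refine hnj (tq_congr h3 ?_ ?_)
    · funext k
      exact congrArg z (hfe (Sum.inr (Sum.inl k))).symm
    · funext k
      exact congrArg z (hfe (Sum.inr (Sum.inr k))).symm

end Pool.Agent.TPY
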