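import Pool.Agent.TPY.GBA

/-!
# TPY [TIF]: eventual total indiscernibility over finite sets
-/

set_option autoImplicit false
set_option linter.unusedVariables false

namespace Pool.Agent.TPY

open FirstOrder.Language Set
open scoped FirstOrder
open Pool.Agent.MNO (Dp FE Sq Exa)

theorem TIF_mono {L : FirstOrder.Language.{0, 0}} {U : Type} [L.Structure U] {A : Set U} {ι : Type}
    {X X' : Set ι} {z : ι → U} (hX : X' ⊆ X) (h : Tis L A X z) : Tis L A X' z :=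
  fun n i j hi hj hiX hjX => h n i j hi hj (fun k => hX (hiX k)) fun k => hX (hjX k)

theorem TIF_bd {n : ℕ} (i : Fin n → ℕ) : ∃ M, ∀ k, i k < M :=
  ⟨Finset.univ.sup i + 1, fun k => Nat.lt_succ_of_le (Finset.le_sup (Finset.mem_univ k))⟩

theorem TIF_one (hTD : St_TID) {L : FirstOrder.Language.{0, 0}} {U : Type} [L.Structure U]
    (hC : Cz L U) (A : Set U) (d : U) (z : ℕ → U) (hA : A.Finite) (h : Tis L A univ z) :
    ∃ N : ℕ, Tis L (insert d A) (Ici N) z := by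
  by_cases h0 : Tis L (insert d A) univ z
  · exact ⟨0, TIF_mono (subset_univ _) h0⟩
  have h1 : ∃ (n : ℕ) (i j : Fin n → ℕ), Function.Injective i ∧ Function.Injective j ∧
      ¬ Tq L (insert d A) (fun k => z (i k)) (fun k => z (j k)) := by
    by_contra hc
    refine h0 fun n i j hi hj _ _ => ?_
    by_contra hc'
    exact hc ⟨n, i, j, hi, hj, hc'⟩
  obtain ⟨n, i, j, hi, hj, hij⟩ := h1
  obtain ⟨M₁, hM₁⟩ := TIF_bd i
  obtain ⟨M₂, hM₂⟩ := TIF_bd j
  refine ⟨max M₁ M₂, ?_⟩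
  intro n' i' j' hi' hj' hiX hjX
  by_contra hij'
  obtain ⟨M₃, hM₃⟩ := TIF_bd i'
  obtain ⟨M₄, hM₄⟩ := TIF_bd j'
  obtain ⟨M, hM⟩ : ∃ M, M = max (max M₁ M₂) (max M₃ M₄) := ⟨_, rfl⟩
  have a1 : M₁ ≤ M := by omega
  have a2 : M₂ ≤ M := by omega
  have a3 : M₃ ≤ M := by omega
  have a4 : M₄ ≤ M := by omega
  obtain ⟨X₁, hX₁⟩ : ∃ X₁ : Set ℕ, X₁ = (range i' ∪ range j') ∪ {k | M ≤ k ∧ k % 2 = 0} :=
    ⟨_, rfl⟩
  obtain ⟨X₂, hX₂⟩ : ∃ X₂ : Set ℕ, X₂ = (range i ∪ range j) ∪ {k | M ≤ k ∧ k % 2 = 1} :=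
    ⟨_, rfl⟩
  have i1 : X₁.Infinite := by
    refine Set.infinite_of_injective_forall_mem (f := fun k : ℕ => 2 * (M + k))
      (fun a b hab => ?_) fun k => ?_
    · have : 2 * (M + a) = 2 * (M + b) := hab
      omega
    · rw [hX₁]
      refine Or.inr ⟨?_, ?_⟩
      · change M ≤ 2 * (M + k)
        omega
      · change 2 * (M + k) % 2 = 0
        omega
  have i2 : X₂.Infinite := by
    refine Set.infinite_of_injective_forall_mem (f := fun k : ℕ => 2 * (M + k) + 1)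
      (fun a b hab => ?_) fun k => ?_
    · have : 2 * (M + a) + 1 = 2 * (M + b) + 1 := hab
      omega
    · rw [hX₂]
      refine Or.inr ⟨?_, ?_⟩
      · change M ≤ 2 * (M + k) + 1
        omega
      · change (2 * (M + k) + 1) % 2 = 1
        omega
  have hdis : Disjoint X₁ X₂ := by
    rw [Set.disjoint_left]
    intro x hx1 hx2
    have b1 : (max M₁ M₂ ≤ x ∧ x < M) ∨ (M ≤ x ∧ x % 2 = 0) := by
      rw [hX₁] at hx1
      rcases hx1 with (⟨k, rfl⟩ | ⟨k, rfl⟩) | hx1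
      · exact Or.inl ⟨hiX k, lt_of_lt_of_le (hM₃ k) a3⟩
      · exact Or.inl ⟨hjX k, lt_of_lt_of_le (hM₄ k) a4⟩
      · exact Or.inr hx1
    have b2 : x < max M₁ M₂ ∨ (M ≤ x ∧ x % 2 = 1) := by
      rw [hX₂] at hx2
      rcases hx2 with (⟨k, rfl⟩ | ⟨k, rfl⟩) | hx2
      · exact Or.inl (lt_of_lt_of_le (hM₁ k) (le_max_left _ _))
      · exact Or.inl (lt_of_lt_of_le (hM₂ k) (le_max_right _ _))
      · exact Or.inr hx2
    omega
  rcases hTD L U hC A ℕ X₁ X₂ z d hA i1 i2 hdis (TIF_mono (subset_univ _) h) with h2 | h2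
  · refine hij' (h2 n' i' j' hi' hj' (fun k => ?_) fun k => ?_)
    · rw [hX₁]
      exact Or.inl (Or.inl ⟨k, rfl⟩)
    · rw [hX₁]
      exact Or.inl (Or.inr ⟨k, rfl⟩)
  · refine hij (h2 n i j hi hj (fun k => ?_) fun k => ?_)
    · rw [hX₂]
      exact Or.inl (Or.inl ⟨k, rfl⟩)
    · rw [hX₂]
      exact Or.inl (Or.inr ⟨k, rfl⟩)

/-- [TIF] a totally indiscernible sequence is eventually totally indiscernible over every finite
set -/
theorem thm_TIF (hTT : St_TTR) (hTD : St_TID) : St_TIF := by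
  intro L U _ hC A B z hA hB h
  have h1 : ∀ b : U, ∃ N : ℕ, Tis L (insert b A) (Ici N) z := fun b =>
    TIF_one hTD hC A b z hA h
  choose N hN using h1
  obtain ⟨M, hM⟩ : ∃ M, ∀ b ∈ B, N b ≤ M := by
    obtain ⟨M, hM⟩ := (hB.image N).bddAbove
    exact ⟨M, fun b hb => hM ⟨b, hb, rfl⟩⟩
  refine ⟨M, hTT L U hC A B ℕ (Ici M) z hA hB (Set.Ici_infinite M) (TIF_mono (subset_univ _) h) ?_⟩
  intro b hb
  exact TIF_mono (Ici_subset_Ici.2 (hM b hb)) (hN b)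

end Pool.Agent.TPY
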