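import Pool.Agent.TPY.GBA

/-!
# TPY [TIM]: two totally indiscernible sequences with three common terms have the same average

`TimEv z R`: the property `R` of sequences is true for `z ∘ j`, for all injective `j` with large values.
`TimAvg L z C w`: `w` is an average sequence of `z` over `C`.
-/

set_option autoImplicit false
set_option linter.unusedVariables false

namespace Pool.Agent.TPY

open FirstOrder.Language Set
open scoped FirstOrder
open Pool.Agent.MNO

section

variable {L : FirstOrder.Language.{0, 0}} {U : Type} [L.Structure U]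

/-! ### average sequences -/

/-- `R` is eventually true for the sequence `z` -/
def TimEv (z : ℕ → U) (R : (ℕ → U) → Prop) : Prop :=
  ∃ N : ℕ, ∀ j : ℕ → ℕ, Function.Injective j → (∀ k, N ≤ j k) → R (fun k => z (j k))

omit [L.Structure U] in
private theorem ev_and {z : ℕ → U} {R R' : (ℕ → U) → Prop} (h : TimEv z R) (h' : TimEv z R') :
    TimEv z (fun v => R v ∧ R' v) := by
  obtain ⟨N, hN⟩ := h
  obtain ⟨N', hN'⟩ := h'
  exact ⟨max N N', fun j hj hk => ⟨hN j hj fun k => (le_max_left _ _).trans (hk k),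
    hN' j hj fun k => (le_max_right _ _).trans (hk k)⟩⟩

omit [L.Structure U] in
private theorem ev_ex {z : ℕ → U} {R : (ℕ → U) → Prop} (h : TimEv z R) (M : ℕ) :
    ∃ N, M ≤ N ∧ R (fun k => z (N + k)) := by
  obtain ⟨N, hN⟩ := h
  exact ⟨max M N, le_max_left _ _, hN (fun k => max M N + k) (fun a b hab => by simpa using hab)
    fun k => (le_max_right M N).trans (Nat.le_add_right _ _)⟩

omit [L.Structure U] in
private theorem ev_all {z : ℕ → U} {G : Set ((ℕ → U) → Prop)} (hG : G.Finite) (h : ∀ P ∈ G, TimEv z P) :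
    TimEv z (fun v => ∀ P ∈ G, P v) := by
  induction G, hG using Set.Finite.induction_on with
  | empty => exact ⟨0, fun j _ _ P hP => absurd hP (notMem_empty P)⟩
  | @insert a t _ _ ih =>
    obtain ⟨N, hN⟩ := ev_and (h a (mem_insert a t)) (ih fun P hP => h P (mem_insert_of_mem a hP))
    refine ⟨N, fun j hj hk P hP => ?_⟩
    obtain ⟨h1, h2⟩ := hN j hj hk
    rcases hP with rfl | hP
    · exact h1
    · exact h2 P hP

private theorem ev_dich (hTF : St_TIF) (hC : Cz L U) {F A : Set U} (hF : F.Finite) {z : ℕ → U}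
    (hz : Tis L F univ z) {R : (ℕ → U) → Prop} (hR : Dp L A R) :
    TimEv z R ∨ TimEv z (fun v => ¬ R v) := by
  obtain ⟨B, hB, -, hRB⟩ := dp_fin hR
  obtain ⟨N, hN⟩ := hTF L U hC F B z hF hB hz
  have h1 : ∀ j j' : ℕ → ℕ, Function.Injective j → Function.Injective j' → (∀ k, N ≤ j k) →
      (∀ k, N ≤ j' k) → R (fun k => z (j k)) → R (fun k => z (j' k)) := by
    intro j j' hj hj' hk hk' h
    have h2 := tis_pat hN (g := j) (g' := j') hk hk' (fun a b => hj.eq_iff.trans hj'.eq_iff.symm)
    exact h2 R (dp_mono subset_union_right hRB) h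
  have h0 : Function.Injective fun k : ℕ => N + k := fun a b hab => by simpa using hab
  by_cases h : R (fun k => z (N + k))
  · exact Or.inl ⟨N, fun j hj hk => h1 _ j h0 hj (fun k => Nat.le_add_right _ _) hk h⟩
  · exact Or.inr ⟨N, fun j hj hk h' => h (h1 j _ hj h0 hk (fun k => Nat.le_add_right _ _) h')⟩

variable (L) in
/-- `w` is an average sequence of `z` over `C` -/
def TimAvg (z : ℕ → U) (C : Set U) (w : ℕ → U) : Prop := ∀ R, Dp L C R → TimEv z R → R w

private theorem avg_ex (hC : Cz L U) {C : Set U} (hCc : C.Countable) (z : ℕ → U) :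
    ∃ w, TimAvg L z C w := by
  obtain ⟨w, hw⟩ := sat_dp hC hCc (F := {R : (ℕ → U) → Prop | Dp L C R ∧ TimEv z R})
    (fun P hP => hP.1) (fun G hG hfin => by
      obtain ⟨N, -, hN⟩ := ev_ex (ev_all hfin fun P hP => (hG hP).2) 0
      exact ⟨_, hN⟩)
  exact ⟨w, fun R hR hR' => hw R ⟨hR, hR'⟩⟩

private theorem avg_ev (hTF : St_TIF) (hC : Cz L U) {F C : Set U} (hF : F.Finite) {z w : ℕ → U}
    (hz : Tis L F univ z) (hw : TimAvg L z C w) {R : (ℕ → U) → Prop} (hR : Dp L C R) (h : R w) :
    TimEv z R := by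
  rcases ev_dich hTF hC hF hz hR with h1 | h1
  · exact h1
  · exact absurd h (hw _ (dp_not hR) h1)

private theorem avg_tis (hTF : St_TIF) (hC : Cz L U) {F C : Set U} (hF : F.Finite) {z w : ℕ → U}
    (hz : Tis L F univ z) (hw : TimAvg L z C w) : Tis L C univ w := by
  intro n i j hi hj _ _ P hP hx
  have h1 : TimEv z (fun v => P (fun k => v (i k)) → P (fun k => v (j k))) := by
    obtain ⟨B, hB, -, hPB⟩ := dp_fin hP
    obtain ⟨N, hN⟩ := hTF L U hC F B z hF hB hz
    refine ⟨N, fun m hm hmN h => ?_⟩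
    exact hN n (fun k => m (i k)) (fun k => m (j k)) (hm.comp hi) (hm.comp hj) (fun k => hmN _)
      (fun k => hmN _) P (dp_mono subset_union_right hPB) h
  exact hw _ (dp_imp (dp_sub hP i) (dp_sub hP j)) h1 hx

/-- step (2) -/
private theorem tim_two (hTF : St_TIF) (hC : Cz L U) {F C : Set U} (hF : F.Finite) {z' w w' : ℕ → U}
    (hz' : Tis L F univ z') (hzC : range z' ⊆ C) (hw : Tis L C univ w)
    (hw' : TimAvg L z' (C ∪ range w) w') : Tis L (C ∪ range w') univ w := by
  intro n i j hi hj _ _ P hP hx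
  by_contra hcon
  obtain ⟨Q, hQ, hPQ⟩ := dp_fam hP
  rw [hPQ] at hx hcon
  have h1 : ∀ i : Fin n → ℕ, Dp L (C ∪ range w) (fun v : ℕ → U => Q (Sum.elim (fun k => w (i k)) v)) := by
    intro i
    have h2 := dp_sub (dp_mono (subset_union_left (s := C) (t := range w)) hQ)
      (Sum.swap : Fin n ⊕ ℕ → ℕ ⊕ Fin n)
    have h3 := dp_par h2 (fun k => w (i k)) (fun k => Or.inr ⟨i k, rfl⟩)
    refine dp_congr h3 fun v => iff_of_eq ?_
    congr 1
    funext a
    rcases a with a | a <;> rfl
  have h2 := avg_ev hTF hC hF hz' hw' (dp_and (h1 i) (dp_not (h1 j))) ⟨hx, hcon⟩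
  obtain ⟨N, -, h3, h4⟩ := ev_ex h2 0
  apply h4
  have h5 : Dp L C (fun v : Fin n → U => Q (Sum.elim v (fun k => z' (N + k)))) :=
    dp_par hQ _ (fun k => hzC ⟨_, rfl⟩)
  exact hw n i j hi hj (fun _ => mem_univ _) (fun _ => mem_univ _) _ h5 h3

/-- step (3) -/
private theorem tim_three (hTF : St_TIF) (hC : Cz L U) {F C : Set U} (hF : F.Finite) (hFC : F ⊆ C)
    {z w : ℕ → U} (hz : Tis L F univ z) (hzC : range z ⊆ C) (hw : TimAvg L z C w) :
    Tis L F univ (Sum.elim (fun e : Fin 3 => z e) w) := by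
  intro n i j hi hj _ _ P hP hx
  by_contra hcon
  have h1 : ∀ i : Fin n → Fin 3 ⊕ ℕ, Dp L C (fun v : ℕ → U =>
      P (fun k => Sum.elim (fun e : Fin 3 => z e) v (i k))) := by
    intro i
    have h2 := dp_sub (dp_mono hFC hP) (fun k => (Sum.swap (i k) : ℕ ⊕ Fin 3))
    have h3 := dp_par h2 (fun e : Fin 3 => z e) (fun e => hzC ⟨_, rfl⟩)
    refine dp_congr h3 fun v => iff_of_eq ?_
    congr 1
    funext a
    rcases i a with b | b <;> rfl
  have h2 := avg_ev hTF hC hF hz hw (dp_and (h1 i) (dp_not (h1 j))) ⟨hx, hcon⟩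
  obtain ⟨N, hN, h3, h4⟩ := ev_ex h2 3
  have h5 : Function.Injective (Sum.elim (fun e : Fin 3 => (e : ℕ)) (fun k : ℕ => N + k)) := by
    rintro (a | a) (b | b) hab
    · exact congrArg Sum.inl (Fin.ext hab)
    · have h6 : (a : ℕ) = N + b := hab
      have := a.2
      omega
    · have h6 : N + a = (b : ℕ) := hab
      have := b.2
      omega
    · have h6 : N + a = N + b := hab
      have h7 : a = b := by omega
      rw [h7]
  have h6 : ∀ i : Fin n → Fin 3 ⊕ ℕ, (fun k => Sum.elim (fun e : Fin 3 => z e) (fun k => z (N + k)) (i k)) =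
      fun k => z (Sum.elim (fun e : Fin 3 => (e : ℕ)) (fun k : ℕ => N + k) (i k)) := by
    intro i
    funext k
    rcases i k with b | b <;> rfl
  rw [h6] at h3 h4
  exact h4 (hz n _ _ (h5.comp hi) (h5.comp hj) (fun _ => mem_univ _) (fun _ => mem_univ _) P hP h3)

/-! ### moving -/

private theorem tim_phi {ι : Type} {A : Set U} {X Y : Set ι} {s : ι → U} {φ : ι → ι}
    (h : Tq L A s (fun a => s (φ a))) (hφ : Function.Injective φ) (hX : ∀ a ∈ X, φ a ∈ Y)
    (hY : Tis L A Y s) : Tis L A X s := by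
  intro n i j hi hj hiX hjX
  exact tq_trans (tq_sub h i) (tq_trans (hY n (fun k => φ (i k)) (fun k => φ (j k)) (hφ.comp hi)
    (hφ.comp hj) (fun k => hX _ (hiX k)) (fun k => hX _ (hjX k))) (tq_symm (tq_sub h j)))

private theorem inj2 : Function.Injective fun k : ℕ => 2 * k := fun a b hab => by
  have : 2 * a = 2 * b := hab
  omega

private theorem inj3 : Function.Injective fun k : ℕ => 2 * k + 1 := fun a b hab => by
  have : 2 * a + 1 = 2 * b + 1 := hab
  omega

private theorem range_s1 (x : U) : range (s1 x) = {x} := by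
  ext y
  constructor
  · rintro ⟨i, rfl⟩
    rfl
  · rintro rfl
    exact ⟨0, rfl⟩

/-- steps (4), (5) -/
private theorem tim_four (hC : Cz L U) (hTD : St_TID) {F C : Set U} (hF : F.Finite) (hFC : F ⊆ C)
    {a : Fin 3 → U} (ha : ∀ e, a e ∈ C) {w w' : ℕ → U} (hw : Tis L (C ∪ range w') univ w)
    (hw' : Tis L (C ∪ range w) univ w') (hs : Tis L F univ (Sum.elim a w)) :
    ∃ e₁ : Fin 3, ∀ e, e ≠ e₁ → ∀ j, Tis L (insert (w' j) F)
      (insert (Sum.inl e) (range Sum.inr) : Set (Fin 3 ⊕ ℕ)) (Sum.elim a w) := by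
  -- moving
  have hmv : ∀ φ : ℕ → ℕ, Function.Injective φ → Tq L (C ∪ range w') (Sum.elim a w)
      (fun x => Sum.elim a w (Sum.map id φ x)) := by
    intro φ hφ
    have h1 := tis_pat hw (g := fun k : ℕ => k) (g' := φ) (fun _ => mem_univ _) (fun _ => mem_univ _)
      (fun a b => hφ.eq_iff.symm)
    have h2 := tq_sub (tq_add h1 a (fun e => Or.inl (ha e))) (Sum.swap : Fin 3 ⊕ ℕ → ℕ ⊕ Fin 3)
    refine tq_congr h2 ?_ ?_
    · funext x
      rcases x with x | x <;> rfl
    · funext x
      rcases x with x | x <;> rfl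
  -- all `w' j` are the same
  have hj : ∀ (X : Set (Fin 3 ⊕ ℕ)) (j j' : ℕ), Tis L (insert (w' j) F) X (Sum.elim a w) →
      Tis L (insert (w' j') F) X (Sum.elim a w) := by
    intro X j j' h
    have e : ∀ c : U, insert c F = F ∪ range (s1 c) := fun c => by
      rw [range_s1, union_singleton]
    rw [e] at h ⊢
    refine tis_mv ?_ h
    have h1 := hw' 1 (fun _ => j) (fun _ => j') (fun x y _ => Subsingleton.elim x y)
      (fun x y _ => Subsingleton.elim x y) (fun _ => mem_univ _) (fun _ => mem_univ _)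
    have h2 := tq_sub (tq_add h1 (Sum.elim a w) (by
      rintro (x | x)
      · exact Or.inl (ha x)
      · exact Or.inr ⟨x, rfl⟩)) (Sum.swap : (Fin 3 ⊕ ℕ) ⊕ Fin 1 → Fin 1 ⊕ (Fin 3 ⊕ ℕ))
    have h3 := tq_mono (hFC.trans subset_union_left) h2
    refine tq_congr h3 ?_ ?_
    · funext x
      rcases x with x | x <;> rfl
    · funext x
      rcases x with x | x <;> rfl
  have h0 : ∀ e e' : Fin 3, e ≠ e' →
      Tis L (insert (w' 0) F) (insert (Sum.inl e) (range Sum.inr) : Set (Fin 3 ⊕ ℕ)) (Sum.elim a w) ∨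
      Tis L (insert (w' 0) F) (insert (Sum.inl e') (range Sum.inr) : Set (Fin 3 ⊕ ℕ)) (Sum.elim a w) := by
    intro e e' hee
    have hmono : insert (w' 0) F ⊆ C ∪ range w' := insert_subset (Or.inr ⟨0, rfl⟩) (hFC.trans subset_union_left)
    have hd : Disjoint (insert (Sum.inl e) (range fun k : ℕ => Sum.inr (2 * k)) : Set (Fin 3 ⊕ ℕ))
        (insert (Sum.inl e') (range fun k : ℕ => Sum.inr (2 * k + 1))) := by
      rw [Set.disjoint_left]
      rintro x (rfl | ⟨k, rfl⟩) (h | ⟨l, h⟩)
      · exact hee (Sum.inl_injective h)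
      · exact Sum.inr_ne_inl h
      · exact Sum.inr_ne_inl h
      · have h1 : 2 * l + 1 = 2 * k := Sum.inr_injective h
        omega
    have hi1 : (insert (Sum.inl e) (range fun k : ℕ => Sum.inr (2 * k)) : Set (Fin 3 ⊕ ℕ)).Infinite :=
      (infinite_range_of_injective (Sum.inr_injective.comp inj2)).mono (subset_insert _ _)
    have hi2 : (insert (Sum.inl e') (range fun k : ℕ => Sum.inr (2 * k + 1)) : Set (Fin 3 ⊕ ℕ)).Infinite :=
      (infinite_range_of_injective (Sum.inr_injective.comp inj3)).mono (subset_insert _ _)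
    rcases hTD L U hC F (Fin 3 ⊕ ℕ) _ _ (Sum.elim a w) (w' 0) hF hi1 hi2 hd
      (tis_set hs (subset_univ _)) with h | h
    · refine Or.inl (tim_phi (tq_mono hmono (hmv _ inj2)) (Sum.map_injective.2 ⟨Function.injective_id, inj2⟩) ?_ h)
      rintro x (rfl | ⟨k, rfl⟩)
      · exact mem_insert _ _
      · exact mem_insert_of_mem _ ⟨k, rfl⟩
    · refine Or.inr (tim_phi (tq_mono hmono (hmv _ inj3)) (Sum.map_injective.2 ⟨Function.injective_id, inj3⟩) ?_ h)
      rintro x (rfl | ⟨k, rfl⟩)
      · exact mem_insert _ _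
      · exact mem_insert_of_mem _ ⟨k, rfl⟩
  by_cases h : ∃ e₁ : Fin 3, ¬ Tis L (insert (w' 0) F)
      (insert (Sum.inl e₁) (range Sum.inr) : Set (Fin 3 ⊕ ℕ)) (Sum.elim a w)
  · obtain ⟨e₁, he₁⟩ := h
    refine ⟨e₁, fun e he j => hj _ 0 j ?_⟩
    rcases h0 e e₁ he with h1 | h1
    · exact h1
    · exact absurd h1 he₁
  · push Not at h
    exact ⟨0, fun e _ j => hj _ 0 j (h e)⟩

private theorem tim_lim {ι : Type} {A D : Set U} {X : Set ι} {s : ι → U}
    (h : ∀ B : Set U, B.Finite → B ⊆ D → Tis L (A ∪ B) X s) : Tis L (A ∪ D) X s := by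
  intro n i j hi hj hiX hjX P hP
  obtain ⟨B, hB, hBs, hPB⟩ := dp_fin hP
  refine h (B ∩ D) (hB.inter_of_left D) inter_subset_right n i j hi hj hiX hjX P (dp_mono ?_ hPB)
  intro x hx
  rcases hBs hx with h' | h'
  · exact Or.inl h'
  · exact Or.inr ⟨hx, h'⟩

private theorem tim_mix {A B : Set U} (hAB : A ⊆ B) {ι κ : Type} {X : Set ι} {s : ι → U}
    (hs : Tis L B X s) (T : Set κ) (g g' : κ → ι) (x y : κ → U) (hg : InjOn g T) (hg' : InjOn g' T)
    (hgX : ∀ l ∈ T, g l ∈ X) (hg'X : ∀ l ∈ T, g' l ∈ X) (hx : ∀ l ∈ T, x l = s (g l))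
    (hy : ∀ l ∈ T, y l = s (g' l)) (hxB : ∀ l, l ∉ T → x l ∈ B) (hxy : ∀ l, l ∉ T → y l = x l) :
    Tq L A x y := by
  classical
  have h1 := tis_pat hs (κ := T) (g := fun l => g l) (g' := fun l => g' l) (fun l => hgX l l.2)
    (fun l => hg'X l l.2) (fun a b => by
      rw [hg.eq_iff a.2 b.2, hg'.eq_iff a.2 b.2])
  have h2 := tq_sub (tq_add h1 (fun l : (Tᶜ : Set κ) => x l) (fun l => hxB l l.2))
    (fun l : κ => if h : l ∈ T then (Sum.inl ⟨l, h⟩ : T ⊕ (Tᶜ : Set κ)) else Sum.inr ⟨l, h⟩)
  refine tq_mono hAB (tq_congr h2 ?_ ?_)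
  · funext l
    by_cases h : l ∈ T
    · rw [dif_pos h]
      exact hx l h
    · rw [dif_neg h]
      rfl
  · funext l
    by_cases h : l ∈ T
    · rw [dif_pos h]
      exact hy l h
    · rw [dif_neg h]
      exact hxy l h

/-- step (6) -/
private theorem tim_six {F : Set U} {a : Fin 3 → U} {h : Fin 3} {w w' : ℕ → U}
    (h1 : Tis L (F ∪ range w') (insert (Sum.inl h) (range Sum.inr) : Set (Fin 3 ⊕ ℕ)) (Sum.elim a w))
    (h2 : Tis L (F ∪ range w) (insert (Sum.inl h) (range Sum.inr) : Set (Fin 3 ⊕ ℕ)) (Sum.elim a w'))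
    (h3 : Tis L F univ w) : Tis L F univ (Sum.elim w w') := by
  classical
  have key : ∀ (n : ℕ) (α β : Fin n → ℕ), Function.Injective α → Function.Injective β →
      ∀ S : Finset (Fin n), Tq L F (fun k => w (α k)) (fun k => if k ∈ S then w' (β k) else w (α k)) := by
    intro n α β hα hβ S
    induction S using Finset.induction_on with
    | empty => exact tq_congr (tq_refl (fun k => w (α k))) rfl (by funext k; simp)
    | insert k S hk ih =>
      refine tq_trans ih (tq_trans (y := fun l => if l = k then a h else if l ∈ S then w' (β l) else w (α l)) ?_ ?_)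
      · refine tim_mix subset_union_left h1 {l | l ∉ S} (fun l => Sum.inr (α l))
          (fun l => if l = k then Sum.inl h else Sum.inr (α l)) _ _ ?_ ?_ ?_ ?_ ?_ ?_ ?_ ?_
        · intro l _ m _ hlm
          exact hα (Sum.inr_injective hlm)
        · intro l _ m _ hlm
          have hlm' : (if l = k then Sum.inl h else Sum.inr (α l) : Fin 3 ⊕ ℕ) =
            if m = k then Sum.inl h else Sum.inr (α m) := hlm
          split_ifs at hlm' with h4 h5 h5
          · rw [h4, h5]
          · exact hα (Sum.inr_injective hlm')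
        · intro l _
          exact mem_insert_of_mem _ ⟨_, rfl⟩
        · intro l _
          show (if l = k then Sum.inl h else Sum.inr (α l) : Fin 3 ⊕ ℕ) ∈ _
          split_ifs with h4
          · exact mem_insert _ _
          · exact mem_insert_of_mem _ ⟨_, rfl⟩
        · intro l hl
          show (if l ∈ S then w' (β l) else w (α l)) = _
          rw [if_neg hl]
          rfl
        · intro l hl
          show (if l = k then a h else if l ∈ S then w' (β l) else w (α l)) =
            Sum.elim a w (if l = k then Sum.inl h else Sum.inr (α l))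
          split_ifs with h4 h5
          · rfl
          · exact absurd h5 hl
          · rfl
        · intro l hl
          have hl' : l ∈ S := not_not.1 hl
          show (if l ∈ S then w' (β l) else w (α l)) ∈ _
          rw [if_pos hl']
          exact Or.inr ⟨_, rfl⟩
        · intro l hl
          have hl' : l ∈ S := not_not.1 hl
          show (if l = k then a h else if l ∈ S then w' (β l) else w (α l)) = if l ∈ S then w' (β l) else w (α l)
          have hlk : l ≠ k := fun h4 => hk (h4 ▸ hl')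
          rw [if_neg hlk]
      · refine tim_mix subset_union_left h2 {l | l ∈ insert k S}
          (fun l => if l = k then Sum.inl h else Sum.inr (β l)) (fun l => Sum.inr (β l)) _ _ ?_ ?_ ?_ ?_ ?_ ?_ ?_ ?_
        · intro l _ m _ hlm
          have hlm' : (if l = k then Sum.inl h else Sum.inr (β l) : Fin 3 ⊕ ℕ) =
            if m = k then Sum.inl h else Sum.inr (β m) := hlm
          split_ifs at hlm' with h4 h5 h5
          · rw [h4, h5]
          · exact hβ (Sum.inr_injective hlm')
        · intro l _ m _ hlm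
          exact hβ (Sum.inr_injective hlm)
        · intro l _
          show (if l = k then Sum.inl h else Sum.inr (β l) : Fin 3 ⊕ ℕ) ∈ _
          split_ifs with h4
          · exact mem_insert _ _
          · exact mem_insert_of_mem _ ⟨_, rfl⟩
        · intro l _
          exact mem_insert_of_mem _ ⟨_, rfl⟩
        · intro l hl
          have hl' : l = k ∨ l ∈ S := Finset.mem_insert.1 hl
          show (if l = k then a h else if l ∈ S then w' (β l) else w (α l)) =
            Sum.elim a w' (if l = k then Sum.inl h else Sum.inr (β l))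
          split_ifs with h4 h5
          · rfl
          · rfl
          · exact absurd (hl'.resolve_left h4) h5
        · intro l hl
          have hl' : l ∈ insert k S := hl
          show (if l ∈ insert k S then w' (β l) else w (α l)) = _
          rw [if_pos hl']
          rfl
        · intro l hl
          have hl' : ¬ (l = k ∨ l ∈ S) := fun h4 => hl (Finset.mem_insert.2 h4)
          push Not at hl'
          show (if l = k then a h else if l ∈ S then w' (β l) else w (α l)) ∈ _
          rw [if_neg hl'.1, if_neg hl'.2]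
          exact Or.inr ⟨_, rfl⟩
        · intro l hl
          have hl'' : l ∉ insert k S := hl
          have hl' : ¬ (l = k ∨ l ∈ S) := fun h4 => hl (Finset.mem_insert.2 h4)
          push Not at hl'
          show (if l ∈ insert k S then w' (β l) else w (α l)) =
            if l = k then a h else if l ∈ S then w' (β l) else w (α l)
          rw [if_neg hl'', if_neg hl'.1, if_neg hl'.2]
  have key2 : ∀ (n : ℕ) (i : Fin n → ℕ ⊕ ℕ), Function.Injective i → ∃ α : Fin n → ℕ,
      Function.Injective α ∧ Tq L F (fun k => w (α k)) (fun k => Sum.elim w w' (i k)) := by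
    intro n i hi
    obtain ⟨M, hM⟩ : ∃ M : ℕ, ∀ k, Sum.elim (fun a : ℕ => a) (fun b : ℕ => b) (i k) < M := by
      obtain ⟨M, hM⟩ := (finite_range fun k => Sum.elim (fun a : ℕ => a) (fun b : ℕ => b) (i k)).bddAbove
      exact ⟨M + 1, fun k => Nat.lt_succ_of_le (hM ⟨k, rfl⟩)⟩
    have hα : Function.Injective fun k : Fin n => Sum.elim (fun a : ℕ => a) (fun _ : ℕ => M + k) (i k) := by
      intro k l hkl
      have hk := hM k
      have hl := hM l
      have hkl' : Sum.elim (fun a : ℕ => a) (fun _ : ℕ => M + (k : ℕ)) (i k) =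
        Sum.elim (fun a : ℕ => a) (fun _ : ℕ => M + (l : ℕ)) (i l) := hkl
      rcases hik : i k with b | b <;> rcases hil : i l with c | c <;>
        simp only [hik, hil, Sum.elim_inl, Sum.elim_inr] at hk hl hkl'
      · exact hi (by rw [hik, hil, hkl'])
      · omega
      · omega
      · exact Fin.ext (by omega)
    have hβ : Function.Injective fun k : Fin n => Sum.elim (fun _ : ℕ => M + k) (fun b : ℕ => b) (i k) := by
      intro k l hkl
      have hk := hM k
      have hl := hM l
      have hkl' : Sum.elim (fun _ : ℕ => M + (k : ℕ)) (fun a : ℕ => a) (i k) =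
        Sum.elim (fun _ : ℕ => M + (l : ℕ)) (fun a : ℕ => a) (i l) := hkl
      rcases hik : i k with b | b <;> rcases hil : i l with c | c <;>
        simp only [hik, hil, Sum.elim_inl, Sum.elim_inr] at hk hl hkl'
      · exact Fin.ext (by omega)
      · omega
      · omega
      · exact hi (by rw [hik, hil, hkl'])
    refine ⟨_, hα, ?_⟩
    have h5 := key n _ _ hα hβ (Finset.univ.filter fun k => (i k).isRight = true)
    refine tq_congr h5 rfl ?_
    funext k
    rcases hik : i k with b | b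
    · simp [hik]
    · simp [hik]
  intro n i j hi hj _ _
  obtain ⟨α, hα, h4⟩ := key2 n i hi
  obtain ⟨β, hβ, h5⟩ := key2 n j hj
  exact tq_trans (tq_symm h4) (tq_trans (h3 n α β hα hβ (fun _ => mem_univ _) (fun _ => mem_univ _)) h5)

/-- step (7), moving -/
private theorem tim_seven {C : Set U} {w w' : ℕ → U} (hw : Tis L (C ∪ range w') univ w)
    (hw' : Tis L (C ∪ range w) univ w') {φ : ℕ → ℕ} (hφ : Function.Injective φ) :
    Tq L C (Sum.elim w w') (fun x => Sum.elim w w' (Sum.map φ φ x)) := by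
  have h1 := tis_pat hw (g := fun k : ℕ => k) (g' := φ) (fun _ => mem_univ _) (fun _ => mem_univ _)
    (fun a b => hφ.eq_iff.symm)
  have h2 := tis_pat hw' (g := fun k : ℕ => k) (g' := φ) (fun _ => mem_univ _) (fun _ => mem_univ _)
    (fun a b => hφ.eq_iff.symm)
  have h3 : Tq L C (Sum.elim w w') (Sum.elim (fun k => w (φ k)) w') :=
    tq_mono subset_union_left (tq_add h1 w' (fun k => Or.inr ⟨k, rfl⟩))
  have h4 : Tq L C (Sum.elim (fun k => w (φ k)) w') (fun x => Sum.elim w w' (Sum.map φ φ x)) := by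
    have h5 := tq_sub (tq_mono (subset_union_left (s := C) (t := range w))
      (tq_add h2 (fun k => w (φ k)) (fun k => Or.inr ⟨φ k, rfl⟩))) (Sum.swap : ℕ ⊕ ℕ → ℕ ⊕ ℕ)
    refine tq_congr h5 ?_ ?_
    · funext x
      rcases x with x | x <;> rfl
    · funext x
      rcases x with x | x <;> rfl
  exact tq_trans h3 h4

end

theorem thm_TIM (hTT : St_TTR) (hTD : St_TID) (hTF : St_TIF) : St_TIM := by
  intro L U _ hC F D z z' hF hD hz hz' e0 e1 e2 P hP hPz
  have hze : ∀ e : Fin 3, z' e = z e := by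
    intro e
    fin_cases e
    · exact e0
    · exact e1
    · exact e2
  -- the sequences
  set C : Set U := F ∪ D ∪ (range z ∪ range z') with hCdef
  have hCc : C.Countable := (hF.union hD).countable.union ((countable_range z).union (countable_range z'))
  have hFC : F ⊆ C := fun x hx => Or.inl (Or.inl hx)
  have hDC : D ⊆ C := fun x hx => Or.inl (Or.inr hx)
  have hzC : range z ⊆ C := fun x hx => Or.inr (Or.inl hx)
  have hzC' : range z' ⊆ C := fun x hx => Or.inr (Or.inr hx)
  obtain ⟨w, hw⟩ := avg_ex hC hCc z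
  obtain ⟨w', hw'⟩ := avg_ex hC (hCc.union (countable_range w)) z'
  have hwC : Tis L C univ w := avg_tis hTF hC hF hz hw
  have hA' : Tis L (C ∪ range w) univ w' := avg_tis hTF hC hF hz' hw'
  have hA : Tis L (C ∪ range w') univ w := tim_two hTF hC hF hz' hzC' hwC hw'
  have hs : Tis L F univ (Sum.elim (fun e : Fin 3 => z e) w) := tim_three hTF hC hF hFC hz hzC hw
  have hs' : Tis L F univ (Sum.elim (fun e : Fin 3 => z e) w') := by
    have h1 := tim_three hTF hC hF (hFC.trans (subset_union_left (t := range w))) hz'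
      (hzC'.trans (subset_union_left (t := range w))) hw'
    have h2 : (fun e : Fin 3 => z' e) = fun e : Fin 3 => z e := funext hze
    rwa [h2] at h1
  obtain ⟨e₁, he₁⟩ := tim_four hC hTD hF hFC (a := fun e : Fin 3 => z e) (fun e => hzC ⟨_, rfl⟩) hA hA' hs
  obtain ⟨e₂, he₂⟩ := tim_four hC hTD hF hFC (a := fun e : Fin 3 => z e) (fun e => hzC ⟨_, rfl⟩) hA' hA hs'
  obtain ⟨h, hh1, hh2⟩ : ∃ h : Fin 3, h ≠ e₁ ∧ h ≠ e₂ := by
    revert e₁ e₂
    intro e₁ _ e₂ _
    fin_cases e₁ <;> fin_cases e₂ <;> first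
      | exact ⟨0, by decide, by decide⟩
      | exact ⟨1, by decide, by decide⟩
      | exact ⟨2, by decide, by decide⟩
  have hXi : (insert (Sum.inl h) (range Sum.inr) : Set (Fin 3 ⊕ ℕ)).Infinite :=
    (infinite_range_of_injective Sum.inr_injective).mono (subset_insert _ _)
  have g1 : Tis L (F ∪ range w') (insert (Sum.inl h) (range Sum.inr) : Set (Fin 3 ⊕ ℕ))
      (Sum.elim (fun e : Fin 3 => z e) w) := by
    refine tim_lim fun B hB hBs => ?_
    refine hTT L U hC F B (Fin 3 ⊕ ℕ) _ _ hF hB hXi (tis_set hs (subset_univ _)) fun b hb => ?_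
    obtain ⟨j, rfl⟩ := hBs hb
    exact he₁ h hh1 j
  have g2 : Tis L (F ∪ range w) (insert (Sum.inl h) (range Sum.inr) : Set (Fin 3 ⊕ ℕ))
      (Sum.elim (fun e : Fin 3 => z e) w') := by
    refine tim_lim fun B hB hBs => ?_
    refine hTT L U hC F B (Fin 3 ⊕ ℕ) _ _ hF hB hXi (tis_set hs' (subset_univ _)) fun b hb => ?_
    obtain ⟨j, rfl⟩ := hBs hb
    exact he₂ h hh2 j
  have ht : Tis L F univ (Sum.elim w w') := tim_six g1 g2 (tis_par hwC hFC)
  -- (7)
  have ht7 : ∀ d ∈ D, Tis L (insert d F) univ (Sum.elim w w') := by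
    intro d hd
    have hmono : insert d F ⊆ C := insert_subset (hDC hd) hFC
    have hi : ∀ f : ℕ → ℕ, Function.Injective f → (range (fun x : ℕ ⊕ ℕ => Sum.map f f x)).Infinite := by
      intro f hf
      exact infinite_range_of_injective (Sum.map_injective.2 ⟨hf, hf⟩)
    have hdj : Disjoint (range (fun x : ℕ ⊕ ℕ => Sum.map (fun k => 2 * k) (fun k => 2 * k) x))
        (range (fun x : ℕ ⊕ ℕ => Sum.map (fun k => 2 * k + 1) (fun k => 2 * k + 1) x)) := by
      rw [Set.disjoint_left]
      rintro _ ⟨x | x, rfl⟩ ⟨y | y, hy⟩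
      · have h1 : 2 * y + 1 = 2 * x := Sum.inl_injective hy
        omega
      · exact Sum.inr_ne_inl hy
      · exact Sum.inl_ne_inr hy
      · have h1 : 2 * y + 1 = 2 * x := Sum.inr_injective hy
        omega
    rcases hTD L U hC F (ℕ ⊕ ℕ) _ _ (Sum.elim w w') d hF (hi _ inj2) (hi _ inj3) hdj
      (tis_set ht (subset_univ _)) with h1 | h1
    · refine tim_phi (tq_mono hmono (tim_seven hA hA' inj2)) (Sum.map_injective.2 ⟨inj2, inj2⟩) ?_ h1
      exact fun x _ => ⟨x, rfl⟩
    · refine tim_phi (tq_mono hmono (tim_seven hA hA' inj3)) (Sum.map_injective.2 ⟨inj3, inj3⟩) ?_ h1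
      exact fun x _ => ⟨x, rfl⟩
  -- (8)
  have h8 : Tis L (F ∪ D) univ (Sum.elim w w') :=
    hTT L U hC F D (ℕ ⊕ ℕ) _ _ hF hD infinite_univ ht ht7
  have hPC : Dp L C P := dp_mono (fun x hx => Or.inl hx) hP
  have hP1 : Dp L C (fun v : ℕ → U => P (s1 (v 0))) := dp_sub hPC (fun _ : Fin 1 => (0 : ℕ))
  have hw0 : P (s1 (w 0)) := by
    refine hw (fun v => P (s1 (v 0))) hP1 ?_
    obtain ⟨N, hN⟩ := hPz
    exact ⟨N, fun j _ hj => hN _ (hj 0)⟩
  have hw1 : P (s1 (w' 0)) := by
    have h1 := h8 1 (fun _ => Sum.inl 0) (fun _ => Sum.inr 0) (fun x y _ => Subsingleton.elim x y)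
      (fun x y _ => Subsingleton.elim x y) (fun _ => mem_univ _) (fun _ => mem_univ _)
    exact h1 P hP hw0
  obtain ⟨N, hN⟩ := avg_ev hTF hC hF hz' hw' (R := fun v : ℕ → U => P (s1 (v 0)))
    (dp_mono subset_union_left hP1) hw1
  refine ⟨N, fun i hi => ?_⟩
  have h1 := hN (fun k => i + k) (fun a b hab => by simpa using hab) (fun k => hi.trans (Nat.le_add_right _ _))
  exact h1

end Pool.Agent.TPY
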