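import Pool.Agent.TPY.GBA

/-!
# TPY: the average type of a totally indiscernible sequence is invariant (`St_TIV`)
-/

set_option autoImplicit false
set_option linter.unusedVariables false

namespace Pool.Agent.TPY

open FirstOrder.Language Set
open scoped FirstOrder
open Pool.Agent.MNO

theorem thm_TIV (hTF : St_TIF) (hTM : St_TIM) : St_TIV := by
  intro L U _ hC F z hF hz h01
  -- different terms are different
  have hne : ∀ i j : ℕ, i ≠ j → z i ≠ z j := by
    intro i j hij he
    have h1 := tis_pat hz (κ := Fin 2) (g := ![i, j]) (g' := ![0, 1]) (fun _ => mem_univ _)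
      (fun _ => mem_univ _) (by
      intro a b
      fin_cases a <;> fin_cases b <;> simp [hij, hij.symm])
    exact h01 ((tq_eq h1 0 1).1 he)
  have hA : (F ∪ {z 0, z 1, z 2}).Finite := hF.union (((finite_singleton _).insert _).insert _)
  have hmem : ∀ k : ℕ, k < 3 → z k ∈ F ∪ {z 0, z 1, z 2} := by
    intro k hk
    right
    interval_cases k
    · exact Or.inl rfl
    · exact Or.inr (Or.inl rfl)
    · exact Or.inr (Or.inr rfl)
  -- the terms beyond the first three
  have hname : Tis L (F ∪ {z 0, z 1, z 2}) (Ici 3) z := by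
    have h1 := tis_name hz (J := {0, 1, 2}) (Y := Ici 3) (subset_univ _) (subset_univ _) (by
      refine disjoint_left.2 ?_
      rintro a (rfl | rfl | rfl) h
      · exact absurd (show 3 ≤ 0 from h) (by omega)
      · exact absurd (show 3 ≤ 1 from h) (by omega)
      · exact absurd (show 3 ≤ 2 from h) (by omega))
    refine tis_par h1 ?_
    rintro x (hx | rfl | rfl | rfl)
    · exact Or.inl hx
    · exact Or.inr ⟨0, Or.inl rfl, rfl⟩
    · exact Or.inr ⟨1, Or.inr (Or.inl rfl), rfl⟩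
    · exact Or.inr ⟨2, Or.inr (Or.inr rfl), rfl⟩
  refine ⟨fun P => Dp L univ P ∧ ∃ N, ∀ i, N ≤ i → P (s1 (z i)), ⟨fun P h => h.1, ?_, ?_, ?_⟩, ?_, ?_, ?_⟩
  · rintro P ⟨-, N, hN⟩
    exact ⟨_, hN N le_rfl⟩
  · rintro P Q ⟨hP, N, hN⟩ ⟨hQ, M, hM⟩
    exact ⟨dp_and hP hQ, max N M, fun i hi =>
      ⟨hN i ((le_max_left _ _).trans hi), hM i ((le_max_right _ _).trans hi)⟩⟩
  · intro P hP
    obtain ⟨B, hB, -, hPB⟩ := dp_fin hP
    obtain ⟨N, hN⟩ := hTF L U hC F B z hF hB hz
    have key : ∀ i, N ≤ i → (P (s1 (z N)) ↔ P (s1 (z i))) := by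
      intro i hi
      have h1 := tis_pat hN (κ := Fin 1) (g := fun _ => N) (g' := fun _ => i) (fun _ => self_mem_Ici)
        (fun _ => hi) (fun _ _ => by simp)
      exact tq_iff h1 (dp_mono subset_union_right hPB)
    by_cases h : P (s1 (z N))
    · exact Or.inl ⟨hP, N, fun i hi => (key i hi).1 h⟩
    · exact Or.inr ⟨dp_not hP, N, fun i hi h' => h ((key i hi).2 h')⟩
  · rintro u ⟨-, N, hN⟩
    have h1 : z N = u := hN N le_rfl
    have h2 : z (N + 1) = u := hN (N + 1) (Nat.le_succ N)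
    exact hne N (N + 1) (by omega) (h1.trans h2.symm)
  · rintro n P hP c c' hcc ⟨-, N, hN⟩
    obtain ⟨z', hz'⟩ := tq_ext' hC hA.countable (tq_of_sq hcc) z
    have h3 : ∀ k : ℕ, k < 3 → z' k = z k := fun k hk => tq_par hz' (Sum.inr k) (hmem k hk)
    have h4 : Tis L F univ z' := tis_mv0 (tq_mono subset_union_left (tq_sub hz' Sum.inr)) hz
    have h5 : ∀ i : ℕ, P (Sum.elim (s1 (z i)) c) → P (Sum.elim (s1 (z' i)) c') := by
      intro i hi
      have h6 := tq_sub hz' (Sum.elim (fun _ => Sum.inr i) Sum.inl : Fin 1 ⊕ Fin n → Fin n ⊕ ℕ)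
      refine tq_congr h6 ?_ ?_ P hP hi
      · funext a
        rcases a with a | a <;> rfl
      · funext a
        rcases a with a | a <;> rfl
    have h7 : Dp L (F ∪ ({z 0, z 1, z 2} ∪ range c')) (fun x : Fin 1 → U => P (Sum.elim x c')) := by
      refine dp_par (dp_mono ?_ hP) c' (fun i => Or.inr (Or.inr ⟨i, rfl⟩))
      rintro x (hx | hx)
      · exact Or.inl hx
      · exact Or.inr (Or.inl hx)
    have h8 : ({z 0, z 1, z 2} ∪ range c' : Set U).Finite :=
      (((finite_singleton _).insert _).insert _).union (finite_range _)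
    refine ⟨dp_mono (subset_univ _) h7, ?_⟩
    exact hTM L U hC F _ z' z hF h8 h4 hz (h3 0 (by omega)).symm (h3 1 (by omega)).symm
      (h3 2 (by omega)).symm _ h7 ⟨N, fun i hi => h5 i (hN i hi)⟩
  · intro i hi E hE
    refine ⟨dp_mono (subset_univ _) (fe_cls hE (s1 (z i))), 3, fun j hj => ?_⟩
    exact tis_sq1 hname (Ici_infinite 3) hj hi E hE

end Pool.Agent.TPY
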