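import Pool.Agent.TPY.GBA

/-!
# TPY, module TTR: TR for totally indiscernible sequences
-/

set_option autoImplicit false
set_option linter.unusedVariables false

namespace Pool.Agent.TPY

open FirstOrder.Language Set
open scoped FirstOrder
open Pool.Agent.MNO (Dp FE Sq Exa)

/-- a finite injective tuple in an infinite set extends to an injection of the rationals -/
private theorem TTR_inj {ι : Type} {X : Set ι} (hX : X.Infinite) {N : ℕ} (h : Fin N → ι)
    (hh : Function.Injective h) (hhX : ∀ m, h m ∈ X) :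
    ∃ f : ℚ → ι, Function.Injective f ∧ (∀ q, f q ∈ X) ∧ ∀ m : Fin N, f ((m : ℕ) : ℚ) = h m := by
  classical
  have hY : (X \ range h).Infinite := hX.sdiff (finite_range h)
  let g := hY.natEmbedding
  let e := Denumerable.eqv ℚ
  let f : ℚ → ι := fun q => if hq : ∃ m : Fin N, ((m : ℕ) : ℚ) = q then h hq.choose else g (e q)
  have f1 : ∀ q (hq : ∃ m : Fin N, ((m : ℕ) : ℚ) = q), f q = h hq.choose := fun q hq => dif_pos hq
  have f2 : ∀ q (hq : ¬ ∃ m : Fin N, ((m : ℕ) : ℚ) = q), f q = g (e q) := fun q hq => dif_neg hq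
  refine ⟨f, ?_, ?_, ?_⟩
  · intro q q' hqq
    by_cases hq : ∃ m : Fin N, ((m : ℕ) : ℚ) = q
    · by_cases hq' : ∃ m : Fin N, ((m : ℕ) : ℚ) = q'
      · rw [f1 q hq, f1 q' hq'] at hqq
        have h1 := hh hqq
        rw [← hq.choose_spec, ← hq'.choose_spec, h1]
      · rw [f1 q hq, f2 q' hq'] at hqq
        exact absurd ⟨_, hqq⟩ (g (e q')).2.2
    · by_cases hq' : ∃ m : Fin N, ((m : ℕ) : ℚ) = q'
      · rw [f2 q hq, f1 q' hq'] at hqq
        exact absurd ⟨_, hqq.symm⟩ (g (e q)).2.2
      · rw [f2 q hq, f2 q' hq'] at hqq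
        exact e.injective (g.injective (Subtype.ext hqq))
  · intro q
    by_cases hq : ∃ m : Fin N, ((m : ℕ) : ℚ) = q
    · rw [f1 q hq]
      exact hhX _
    · rw [f2 q hq]
      exact (g (e q)).2.1
  · intro m
    have hq : ∃ m' : Fin N, ((m' : ℕ) : ℚ) = ((m : ℕ) : ℚ) := ⟨m, rfl⟩
    rw [f1 _ hq]
    congr 1
    have h1 := hq.choose_spec
    exact Fin.ext (Nat.cast_injective h1)

private theorem TTR_opn : Opn (univ : Set ℚ) :=
  ⟨ordConnected_univ, fun s _ => ⟨⟨s - 1, mem_univ _, by linarith⟩, ⟨s + 1, mem_univ _, by linarith⟩⟩⟩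

private theorem TTR_ids {L : FirstOrder.Language.{0, 0}} {U : Type} [L.Structure U] {A : Set U}
    {ι : Type} {X : Set ι} {z : ι → U} (h : Tis L A X z) {f : ℚ → ι} (hf : Function.Injective f)
    (hfX : ∀ q, f q ∈ X) : Ids L A univ (fun q => z (f q)) := by
  intro n i j hi hj _ _
  exact h n (fun k => f (i k)) (fun k => f (j k)) (hf.comp hi.injective) (hf.comp hj.injective)
    (fun k => hfX _) (fun k => hfX _)

/-- the case of two disjoint tuples -/
private theorem TTR_disj (hTR : St_GTR) {L : FirstOrder.Language.{0, 0}} {U : Type}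
    [L.Structure U] (hC : Cz L U) {A B : Set U} {ι : Type} {X : Set ι} {z : ι → U} (hA : A.Finite)
    (hB : B.Finite) (hX : X.Infinite) (h : Tis L A X z) (hb : ∀ b ∈ B, Tis L (insert b A) X z)
    {n : ℕ} {i k : Fin n → ι} (hi : Function.Injective i) (hk : Function.Injective k)
    (hiX : ∀ m, i m ∈ X) (hkX : ∀ m, k m ∈ X) (hik : ∀ m m', i m ≠ k m') :
    Tq L (A ∪ B) (fun m => z (i m)) (fun m => z (k m)) := by
  have hh : Function.Injective (Fin.append i k) := by
    intro a b hab
    induction a using Fin.addCases with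
    | left a =>
      induction b using Fin.addCases with
      | left b =>
        rw [Fin.append_left, Fin.append_left] at hab
        rw [hi hab]
      | right b =>
        rw [Fin.append_left, Fin.append_right] at hab
        exact absurd hab (hik _ _)
    | right a =>
      induction b using Fin.addCases with
      | left b =>
        rw [Fin.append_left, Fin.append_right] at hab
        exact absurd hab.symm (hik _ _)
      | right b =>
        rw [Fin.append_right, Fin.append_right] at hab
        rw [hk hab]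
  have hhX : ∀ a, Fin.append i k a ∈ X := by
    intro a
    induction a using Fin.addCases with
    | left a =>
      rw [Fin.append_left]
      exact hiX _
    | right a =>
      rw [Fin.append_right]
      exact hkX _
  obtain ⟨f, hf, hfX, hfh⟩ := TTR_inj hX _ hh hhX
  have h1 := hTR L U hC A B univ (fun q => z (f q)) hA hB TTR_opn (TTR_ids h hf hfX)
    (fun b hbB => TTR_ids (hb b hbB) hf hfX)
  have h2 := h1 n (fun m => ((m : ℕ) : ℚ)) (fun m => ((n + (m : ℕ) : ℕ) : ℚ))
    (fun a b hab => by
      have h3 : (a : ℕ) < b := hab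
      show ((a : ℕ) : ℚ) < ((b : ℕ) : ℚ)
      exact Nat.cast_lt.2 h3)
    (fun a b hab => by
      have h3 : (a : ℕ) < b := hab
      have h4 : n + (a : ℕ) < n + b := by omega
      show ((n + (a : ℕ) : ℕ) : ℚ) < ((n + (b : ℕ) : ℕ) : ℚ)
      exact Nat.cast_lt.2 h4) (fun _ => mem_univ _) (fun _ => mem_univ _)
  have e1 : (fun m : Fin n => z (f ((m : ℕ) : ℚ))) = fun m => z (i m) := by
    funext m
    have h3 := hfh (Fin.castAdd n m)
    rw [Fin.append_left] at h3
    rw [← h3]
    rfl
  have e2 : (fun m : Fin n => z (f ((n + (m : ℕ) : ℕ) : ℚ))) = fun m => z (k m) := by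
    funext m
    have h3 := hfh (Fin.natAdd n m)
    rw [Fin.append_right] at h3
    rw [← h3]
    rfl
  rw [e1, e2] at h2
  exact h2

theorem thm_TTR (hTR : St_GTR) : St_TTR := by
  intro L U _ hC A B ι X z hA hB hX h hb n i j hi hj hiX hjX
  have hY : (X \ (range i ∪ range j)).Infinite := hX.sdiff ((finite_range i).union (finite_range j))
  let g := hY.natEmbedding
  let k : Fin n → ι := fun m => g (m : ℕ)
  have hk : Function.Injective k := fun a b hab =>
    Fin.ext (g.injective (Subtype.ext hab))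
  have hkX : ∀ m, k m ∈ X := fun m => (g (m : ℕ)).2.1
  have hik : ∀ m m', i m ≠ k m' := fun m m' he => (g (m' : ℕ)).2.2 (Or.inl ⟨m, he⟩)
  have hjk : ∀ m m', j m ≠ k m' := fun m m' he => (g (m' : ℕ)).2.2 (Or.inr ⟨m, he⟩)
  exact tq_trans (TTR_disj hTR hC hA hB hX h hb hi hk hiX hkX hik)
    (tq_symm (TTR_disj hTR hC hA hB hX h hb hj hk hjX hkX hjk))

end Pool.Agent.TPY
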