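import Pool.Agent.TPY.GFI
import Pool.Agent.TPY.GCP
import Pool.Agent.TPY.GSP
import Pool.Agent.TPY.GLY
import Pool.Agent.TPY.GST
import Pool.Agent.TPY.GUU
import Pool.Agent.TPY.GFN
import Pool.Agent.TPY.GNR
import Pool.Agent.TPY.GLT
import Pool.Agent.TPY.GLI
import Pool.Agent.TPY.TTR
import Pool.Agent.TPY.TID
import Pool.Agent.TPY.TIF
import Pool.Agent.TPY.TIM
import Pool.Agent.TPY.TIV
import Pool.Agent.TPY.NTI

/-!
# TPY, GAP: the GAP theorem from TR, DPM, LINK and the calculus of ends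
-/

set_option autoImplicit false
set_option linter.unusedVariables false

namespace Pool.Agent.TPY

/-- **GAP** -/
theorem thm_GAP (hTRI : St_TRI) (hDPM : St_DPM) (hLNK : St_LNK) (hENC : St_ENC) (hCCC : St_CCC) : St_GAP := by
  have hTR := thm_GTR hTRI
  have hDP := thm_GDP hDPM
  have hLK := thm_GLK hLNK
  have hCP := thm_GCP hTR hLK
  have hSP := thm_GSP hTR hDP hLK
  have hST := thm_GST hSP
  have hLY := thm_GLY hCP hSP
  have hUU := thm_GUU hSP hST
  have hFN := thm_GFN hSP hLY hUU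
  have hNR := thm_GNR hFN hST hUU hSP
  have hLT := thm_GLT hNR
  have hLI := thm_GLI hSP hLT hENC hCCC
  have hTT := thm_TTR hTR
  have hTD := thm_TID hDP
  have hTF := thm_TIF hTT hTD
  have hTM := thm_TIM hTT hTD hTF
  have hTV := thm_TIV hTF hTM
  exact thm_GFI hTV thm_NTI hLI

theorem thm_GPE' (hTRI : St_TRI) (hDPM : St_DPM) (hLNK : St_LNK) (hENC : St_ENC) (hCCC : St_CCC) : St_GPE :=
  thm_GPE (thm_GAP hTRI hDPM hLNK hENC hCCC)

end Pool.Agent.TPY
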