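import Pool.Agent.TPY.StM1

/-!
# TPY/COV: a big piece meets every strong type which occurs in the piece over a smaller set
-/

set_option autoImplicit false
set_option linter.unusedVariables false

namespace Pool.Agent.TPY

open FirstOrder.Language Set
open scoped FirstOrder
open Pool.Agent.MNO

/-- a strictly monotone map into the positive rationals -/
theorem cov_pos : ∃ f : ℚ → ℚ, StrictMono f ∧ ∀ q, 0 < f q := by
  refine ⟨fun q => if 0 ≤ q then q + 1 else 1 / (1 - q), ?_, ?_⟩
  · intro p q hpq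
    show (if 0 ≤ p then p + 1 else 1 / (1 - p)) < (if 0 ≤ q then q + 1 else 1 / (1 - q))
    by_cases hp : 0 ≤ p
    · have hq : 0 ≤ q := hp.trans hpq.le
      rw [if_pos hp, if_pos hq]
      linarith
    · push Not at hp
      rw [if_neg (not_le.2 hp)]
      have h1 : (1 : ℚ) < 1 - p := by linarith
      by_cases hq : 0 ≤ q
      · rw [if_pos hq]
        have h2 : 1 / (1 - p) < 1 := by
          rw [div_lt_one (by linarith)]
          exact h1
        linarith
      · push Not at hq
        rw [if_neg (not_le.2 hq)]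
        exact one_div_lt_one_div_of_lt (by linarith) (by linarith)
  · intro q
    show 0 < (if 0 ≤ q then q + 1 else 1 / (1 - q))
    by_cases hq : 0 ≤ q
    · rw [if_pos hq]
      linarith
    · push Not at hq
      rw [if_neg (not_le.2 hq)]
      exact one_div_pos.2 (by linarith)

section

variable {L : FirstOrder.Language.{0, 0}} {U : Type} [L.Structure U]

/-- a strong type which breaks `u` breaks every sequence with the increasing tuples of `u` -/
theorem cov_brk (hC : Cz L U) {F : Set U} (hF : F.Finite) {u : ℚ → Fin 1 → U} {o v : U}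
    (hov : Sq L F (s1 o) (s1 v)) (hbr : ¬ Idc L (insert v F) u) (z : ℚ → U)
    (hz : ∀ (N : ℕ) (I : Fin N → ℚ), StrictMono I → Sq L F (fun t => u (I t) 0) (fun t => z (I t))) :
    ∃ v' : U, Sq L F (s1 o) (s1 v') ∧ ∃ (m : ℕ) (i j : Fin m → ℚ), StrictMono i ∧ StrictMono j ∧
      ¬ Sq L (insert v' F) (fun k => z (i k)) (fun k => z (j k)) := by
  unfold Idc at hbr
  push Not at hbr
  obtain ⟨m, i, j, hi, hj, hP⟩ := hbr
  unfold Tq at hP
  push Not at hP
  obtain ⟨P, hPd, hP1, hP2⟩ := hP
  obtain ⟨N, I, -, e, hI, -, he, -⟩ := ot_enum (Sum.elim i j) (Sum.elim i j) (fun _ _ => Iff.rfl)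
  obtain ⟨Q, hQ, hPQ⟩ := dp_fam1 hPd
  obtain ⟨c, hc⟩ := sq_ext hC hF.countable (hz N I hI) (s1 v)
  refine ⟨c 0, sq_trans hov ?_, m, i, j, hi, hj, ?_⟩
  · have h1 := sq_s1 hc (Sum.inr 0)
    exact h1
  · intro h
    have e1 : ∀ k, i k = I (e (Sum.inl k)) := fun k => he (Sum.inl k)
    have e2 : ∀ k, j k = I (e (Sum.inr k)) := fun k => he (Sum.inr k)
    -- the two properties
    have hd : ∀ s : Fin m → Fin N, Dp L F (fun t : Fin N ⊕ Fin 1 → U =>
        Q (Sum.elim (fun x : Fin m × Fin 1 => t (Sum.inl (s x.1))) (fun _ => t (Sum.inr 0)))) := by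
      intro s
      refine dp_congr (dp_sub hQ (Sum.elim (fun x : Fin m × Fin 1 => Sum.inl (s x.1))
        (fun _ => Sum.inr 0))) fun t => iff_of_eq ?_
      congr 1
      funext x
      rcases x with x | x <;> rfl
    have h1 := sq_dp hc (hd (fun k => e (Sum.inl k)))
    have h2 := sq_dp hc (hd (fun k => e (Sum.inr k)))
    have h3 : Q (Sum.elim (fun x : Fin m × Fin 1 => z (i x.1)) (fun _ => c 0)) := by
      have h4 := h1.1 (by
        have h5 := (hPQ _).1 hP1
        have e3 : (fun x : Fin m × Fin 1 => Sum.elim (fun t => u (I t) 0) (s1 v)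
            (Sum.inl (e (Sum.inl x.1)) : Fin N ⊕ Fin 1)) = tms u i := by
          funext x
          show u (I (e (Sum.inl x.1))) 0 = u (i x.1) x.2
          rw [e1, Subsingleton.elim x.2 0]
        show Q (Sum.elim (fun x : Fin m × Fin 1 => Sum.elim (fun t => u (I t) 0) (s1 v)
            (Sum.inl (e (Sum.inl x.1)) : Fin N ⊕ Fin 1)) (fun _ => v))
        rw [e3]
        exact h5)
      have e4 : (fun x : Fin m × Fin 1 => z (i x.1)) = (fun x : Fin m × Fin 1 =>
          Sum.elim (fun t => z (I t)) c (Sum.inl (e (Sum.inl x.1)) : Fin N ⊕ Fin 1)) := by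
        funext x
        show z (i x.1) = z (I (e (Sum.inl x.1)))
        rw [e1]
      rw [e4]
      exact h4
    have h3' : ¬ Q (Sum.elim (fun x : Fin m × Fin 1 => z (j x.1)) (fun _ => c 0)) := by
      intro h6
      apply hP2
      rw [hPQ]
      have h4 := h2.2 (by
        have e4 : (fun x : Fin m × Fin 1 => z (j x.1)) = (fun x : Fin m × Fin 1 =>
            Sum.elim (fun t => z (I t)) c (Sum.inl (e (Sum.inr x.1)) : Fin N ⊕ Fin 1)) := by
          funext x
          show z (j x.1) = z (I (e (Sum.inr x.1)))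
          rw [e2]
        rw [e4] at h6
        exact h6)
      have e3 : tms u j = (fun x : Fin m × Fin 1 => Sum.elim (fun t => u (I t) 0) (s1 v)
          (Sum.inl (e (Sum.inr x.1)) : Fin N ⊕ Fin 1)) := by
        funext x
        show u (j x.1) x.2 = u (I (e (Sum.inr x.1))) 0
        rw [e2, Subsingleton.elim x.2 0]
      rw [e3]
      exact h4
    have hd' : Dp L (insert (c 0) F) (fun t : Fin m → U =>
        Q (Sum.elim (fun x : Fin m × Fin 1 => t x.1) (fun _ => c 0))) := by
      have h5 := dp_par1 (dp_mono (subset_insert (c 0) F) hQ) (mem_insert (c 0) F)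
      exact dp_sub h5 (fun x : Fin m × Fin 1 => x.1)
    exact h3' ((sq_dp h hd').1 h3)

end

/-- [COV] -/
theorem thm_COV (hLNK : St_LNK) (hHNG : St_HNG) (hIDB : St_IDB) (hIDS : St_IDS) (hGPE : St_GPE) : St_COV := by
  intro L U _ hC A₀ big hB F G y o h0 hFG hG hbig ho
  by_contra hcon
  push Not at hcon
  have hF : F.Finite := hG.subset hFG
  have hoy : o ≠ y := by
    rintro rfl
    exact hcon o (sq_refl F _) (mem_pc o)
  have hyG : y ∉ G := hB.b0 G y (h0.trans hFG) hG hbig
  obtain ⟨u, v, hu, huy, hov, hbr⟩ := hLNK L U hC F y o hF ho ⟨o, hoy, ho⟩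
  obtain ⟨n, D, hD⟩ := exists_enum hG
  obtain ⟨D', hD'⟩ := sq_ext hC hF.countable (huy 0) D
  obtain ⟨w, hw, hw1, hw2⟩ := hHNG L U hC (Fin 1) (Fin n) F u hF hu 1 (fun _ => 0) D' (by
    intro a b hab
    exact absurd hab (by rw [Subsingleton.elim a b]; exact lt_irrefl _))
  let yy : ℚ → U := fun q => w q (Sum.inl (0, 0))
  let DD : ℚ → Fin n → U := fun q j => w q (Sum.inr j)
  have hyD : ∀ q, Sq L F (Sum.elim (s1 y) D) (Sum.elim (s1 (yy q)) (DD q)) := by
    intro q
    refine sq_trans hD' ?_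
    have h1 := sq_sub (hw1 q) (Sum.elim (fun _ => Sum.inl (0, 0)) Sum.inr : Fin 1 ⊕ Fin n → (Fin 1 × Fin 1) ⊕ Fin n)
    refine sq_congr h1 ?_ ?_
    · funext x
      rcases x with x | x
      · show u 0 x = u 0 0
        rw [Subsingleton.elim x 0]
      · rfl
    · funext x
      rcases x with x | x <;> rfl
  -- increasing tuples
  have hinc : ∀ (f : ℚ → ℚ), StrictMono f → ∀ (N : ℕ) (I : Fin N → ℚ), StrictMono I →
      Sq L F (fun t => u (I t) 0) (fun t => yy (f (I t))) := by
    intro f hf N I hI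
    have hg : StrictMono (fun k : ℕ => (k : ℚ)) := fun a b hab => Nat.cast_lt.2 hab
    have h1 := hw2 N (fun t => f (I t)) (fun k : ℕ => (k : ℚ)) (fun a b hab => hf (hI hab)) hg
    have h2 := hIDS L U hC (Fin 1) F u hu N I (fun t => ((t : ℕ) : ℚ)) hI
      (fun a b hab => Nat.cast_lt.2 hab)
    have h3 := sq_sub h1 (fun t : Fin N => (t, ((0 : Fin 1), (0 : Fin 1))))
    have h4 := sq_sub h2 (fun t : Fin N => (t, (0 : Fin 1)))
    refine sq_trans h4 (sq_symm ?_)
    refine sq_congr h3 rfl ?_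
    funext t
    show u ((t : ℕ) : ℚ) 0 = u (((1 * (t : ℕ) + ((0 : Fin 1) : ℕ) : ℕ)) : ℚ) 0
    congr 2
    simp
  -- (1)
  have hone : ∀ f : ℚ → ℚ, StrictMono f → ∃ v' : U, Sq L F (s1 o) (s1 v') ∧
      ∃ (m : ℕ) (i j : Fin m → ℚ), StrictMono i ∧ StrictMono j ∧
      ¬ Sq L (insert v' F) (fun k => yy (f (i k))) (fun k => yy (f (j k))) := fun f hf =>
    cov_brk hC hF hov hbr (fun q => yy (f q)) (hinc f hf)
  -- (2)
  have hA : (F ∪ range (DD 0)).Finite := hF.union (finite_range _)
  have hbo : ∀ v' : U, Sq L F (s1 o) (s1 v') → v' ∉ Pc L (F ∪ range (DD 0)) (yy 0) := by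
    intro v' hv' hm
    obtain ⟨c, hc⟩ := sq_ext hC hF.countable (sq_symm (hyD 0)) (s1 v')
    have h1 : Sq L F (s1 o) (s1 (c 0)) := sq_trans hv' (sq_s1 hc (Sum.inr 0))
    have h2 : Tq L F (Sum.elim ![yy 0, v'] (DD 0)) (Sum.elim ![y, c 0] D) := by
      have h3 := tq_sub (tq_of_sq hc) (Sum.elim ![Sum.inl (Sum.inl 0), Sum.inr 0] (fun k => Sum.inl (Sum.inr k)))
      refine tq_congr h3 ?_ ?_
      · funext x
        rcases x with x | x
        · fin_cases x <;> rfl
        · rfl
      · funext x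
        rcases x with x | x
        · fin_cases x <;> rfl
        · rfl
    have h4 := pc_tq hC hF.countable h2 hm
    rw [hD, union_eq_self_of_subset_left hFG] at h4
    exact hcon (c 0) h1 h4
  have htr : ∀ p q : ℚ, p ≠ 0 → q ≠ 0 → (0 < p ↔ 0 < q) → yy p ∈ Pc L (F ∪ range (DD 0)) (yy 0) →
      yy q ∈ Pc L (F ∪ range (DD 0)) (yy 0) := by
    intro p q hp hq hpq hm
    have h1 : Tq L F (Sum.elim ![yy 0, yy p] (DD 0)) (Sum.elim ![yy 0, yy q] (DD 0)) := by
      have h2 := idc_ot hw (κ := Fin 2 ⊕ Fin n) (Sum.elim ![0, p] (fun _ => 0)) (Sum.elim ![0, q] (fun _ => 0))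
        (Sum.elim (fun _ => Sum.inl (0, 0)) Sum.inr) (by
          have hpq' : p < 0 ↔ q < 0 := by
            constructor
            · intro h
              rcases lt_trichotomy q 0 with h' | h' | h'
              · exact h'
              · exact absurd h' hq
              · exact absurd (hpq.2 h') (lt_asymm h)
            · intro h
              rcases lt_trichotomy p 0 with h' | h' | h'
              · exact h'
              · exact absurd h' hp
              · exact absurd (hpq.1 h') (lt_asymm h)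
          intro k l
          rcases k with k | k <;> rcases l with l | l
          · fin_cases k <;> fin_cases l <;> simp [hpq, hpq']
          · fin_cases k <;> simp [hpq']
          · fin_cases l <;> simp [hpq]
          · simp)
      refine tq_congr h2 ?_ ?_
      · funext x
        rcases x with x | x
        · fin_cases x <;> rfl
        · rfl
      · funext x
        rcases x with x | x
        · fin_cases x <;> rfl
        · rfl
    exact pc_tq hC hF.countable h1 hm
  have hkey : ∀ f : ℚ → ℚ, StrictMono f → ((∀ q, f q < 0) ∨ ∀ q, 0 < f q) →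
      ¬ ∀ q, yy (f q) ∈ Pc L (F ∪ range (DD 0)) (yy 0) := by
    intro f hf hf0 hall
    obtain ⟨v', hv', m, i, j, hi, hj, hn⟩ := hone f hf
    apply hn
    have h1 := (hIDB L U _ F w hw).1 {0} f hf (by
      intro s hs
      rw [mem_singleton_iff] at hs
      rw [hs]
      exact hf0)
    have h2 := (hIDB L U _ _ _ h1).2.2.2 (F ∪ range (DD 0)) (by
      refine union_subset_union_right F ?_
      rintro x ⟨k, rfl⟩
      exact ⟨0, rfl, Sum.inr k, rfl⟩)
    have h3 := (hIDB L U _ _ _ h2).2.2.1 (Fin 1) (fun _ => Sum.inl (0, 0))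
    have h4 := hIDS L U hC (Fin 1) (F ∪ range (DD 0)) _ h3 m i j hi hj
    have h5 := sq_sub h4 (fun k : Fin m => (k, (0 : Fin 1)))
    have h6 : Sq L (F ∪ range (DD 0)) (fun k => yy (f (i k))) (fun k => yy (f (j k))) := h5
    have h7 := of_pc hC hA (x := yy 0) (w := s1 v') (fun k => hall (i k)) h6 (fun _ => hbo v' hv')
    refine sq_mono ?_ h7
    rintro x (rfl | hx)
    · exact Or.inr ⟨0, rfl⟩
    · exact Or.inl (Or.inl hx)
  have hnb : ∀ q : ℚ, q ≠ 0 → yy q ∉ Pc L (F ∪ range (DD 0)) (yy 0) := by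
    intro q hq hm
    obtain ⟨f, hf, hf0⟩ := cov_pos
    rcases lt_or_gt_of_ne hq with h | h
    · refine hkey (fun x => - f (-x)) (fun a b hab => by
        have := hf (neg_lt_neg hab)
        show - f (-a) < - f (-b)
        linarith) (Or.inl fun x => by
        have := hf0 (-x)
        show - f (-x) < 0
        linarith) fun x => ?_
      have h1 := hf0 (-x)
      have h2 : - f (-x) < 0 := by linarith
      exact htr q (- f (-x)) hq h2.ne ⟨fun h3 => absurd h3 (lt_asymm h), fun h3 => absurd h3 (lt_asymm h2)⟩ hm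
    · refine hkey f hf (Or.inr hf0) fun x => ?_
      exact htr q (f x) hq (hf0 x).ne' ⟨fun _ => hf0 x, fun _ => h⟩ hm
  -- (3)
  have hne : yy 0 ≠ yy 1 := by
    intro heq
    have h1 : ∀ p q : ℚ, p < q → yy p = yy q := by
      intro p q hpq
      have h2 := idc_ot hw (κ := Fin 2) ![0, 1] ![p, q] (fun _ => Sum.inl (0, 0)) (by
        intro k l
        have h10 : ¬ (1 : ℚ) < 0 := by norm_num
        fin_cases k <;> fin_cases l <;> simp [hpq, not_lt.2 hpq.le, h10])
      exact (tq_eq h2 0 1).1 heq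
    have h2 : ∀ p q : ℚ, yy p = yy q := by
      intro p q
      rcases lt_trichotomy p q with h | h | h
      · exact h1 p q h
      · rw [h]
      · exact (h1 q p h).symm
    obtain ⟨v', hv', m, i, j, hi, hj, hn⟩ := hone id strictMono_id
    apply hn
    have h3 : (fun k => yy (id (i k))) = fun k => yy (id (j k)) := funext fun k => h2 _ _
    rw [h3]
    exact sq_refl _ _
  have hys : Idc L F (fun q => s1 (yy q)) := (hIDB L U _ F w hw).2.2.1 (Fin 1) (fun _ => Sum.inl (0, 0))
  obtain ⟨J, hJ, hJ0, hJE⟩ := hGPE L U hC F (fun q => s1 (yy q)) hF hys hne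
  have hTm : Tm (fun q => s1 (yy q)) J ⊆ yy '' J := by
    rintro x ⟨q, hq, k, rfl⟩
    exact ⟨q, hq, rfl⟩
  have hTf : (Tm (fun q => s1 (yy q)) J).Finite := (hJ.image yy).subset hTm
  have hb1 : big (F ∪ range (DD 0)) (yy 0) := by
    obtain ⟨nF, eF, heF⟩ := exists_enum hF
    have h1 := hB.inv (Fin nF ⊕ Fin n) (Sum.elim eF D) (Sum.elim eF (DD 0)) y (yy 0) (by
      have h2 := sq_add (hyD 0) eF (fun k => by rw [← heF]; exact ⟨k, rfl⟩)
      have h3 := sq_sub h2 (Sum.elim (Sum.elim Sum.inr (fun k => Sum.inl (Sum.inr k)))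
        (fun k => Sum.inl (Sum.inl k)) : (Fin nF ⊕ Fin n) ⊕ Fin 1 → (Fin 1 ⊕ Fin n) ⊕ Fin nF)
      refine tq_of_sq (sq_mono h0 (sq_congr h3 ?_ ?_))
      · funext x
        rcases x with (x | x) | x <;> rfl
      · funext x
        rcases x with (x | x) | x <;> rfl)
    rw [Sum.elim_range, Sum.elim_range, heF, hD, union_eq_self_of_subset_left hFG,
      union_eq_self_of_subset_left (h0.trans hFG), ← union_assoc, union_eq_self_of_subset_left h0] at h1
    exact h1 hbig
  have hy0 : yy 0 ∉ F ∪ range (DD 0) := hB.b0 _ _ (h0.trans subset_union_left) hA hb1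
  have hb2 : big (F ∪ range (DD 0) ∪ Tm (fun q => s1 (yy q)) J) (yy 0) := by
    refine hB.b5 _ _ _ (h0.trans subset_union_left) subset_union_left (hA.union hTf) ?_ hb1
    rintro x (hx | hx)
    · exact par_notMem hC hA.countable hx hy0
    · obtain ⟨q, hq, rfl⟩ := hTm hx
      exact hnb q (fun h => hJ0 (h ▸ hq))
  have hb3 : big (F ∪ Tm (fun q => s1 (yy q)) J) (yy 0) := by
    refine hB.b4 _ _ _ (h0.trans subset_union_left) ?_ (hA.union hTf) hb2
    exact union_subset_union_left _ subset_union_left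
  exact hB.b1 _ _ (h0.trans subset_union_left) (hF.union hTf) hJE hb3

end Pool.Agent.TPY
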