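import Pool.Agent.TPY.StI
import Pool.Agent.TPY.ECR

/-!
# TPY module EXT (helper34): Ramsey extraction
-/

set_option autoImplicit false
set_option linter.unusedVariables false

namespace Pool.Agent.TPY

open FirstOrder.Language Set
open scoped FirstOrder
open Pool.Agent.MNO

variable {L : FirstOrder.Language.{0, 0}} {U : Type} [L.Structure U]

/-- one step: a subsequence which is homogeneous for a finite equivalence relation -/
theorem ext_step {α : Type} {A : Set U} (w : ℕ → α → U) {n : ℕ}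
    {E : (Fin n × α → U) → (Fin n × α → U) → Prop} (hE : FE L A E) :
    ∃ φ : ℕ → ℕ, StrictMono φ ∧ ∀ v v' : Fin n → ℕ, StrictMono v → StrictMono v' →
      E (tms w (fun i => φ (v i))) (tms w (fun i => φ (v' i))) := by
  obtain ⟨s, hs, hs'⟩ := hE.fin
  have : Finite s := hs
  choose f hf hf' using hs'
  obtain ⟨φ, κ, hφ, hκ⟩ := ecr_ramsey n (fun v : Fin n → ℕ => (⟨f (tms w v), hf _⟩ : s))
  refine ⟨φ, hφ, fun v v' hv hv' => ?_⟩
  have h1 : f (tms w (fun i => φ (v i))) = f (tms w (fun i => φ (v' i))) :=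
    congrArg Subtype.val ((hκ v hv).trans (hκ v' hv').symm)
  have h2 := hf' (tms w (fun i => φ (v i)))
  rw [h1] at h2
  exact hE.eqv.trans h2 (hE.eqv.symm (hf' (tms w (fun i => φ (v' i)))))

/-- the index type of the finite equivalence relations on finite tuples of terms -/
def EIx (L : FirstOrder.Language.{0, 0}) {U : Type} [L.Structure U] (α : Type) (A : Set U) : Type :=
  Σ n : ℕ, {E : (Fin n × α → U) → (Fin n × α → U) → Prop // FE L A E}

theorem eix_cnt (hC : Cz L U) (α : Type) [Finite α] {A : Set U} (hA : A.Countable) :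
    Countable (EIx L α A) := by
  have h1 : ∀ n : ℕ, Countable {E : (Fin n × α → U) → (Fin n × α → U) → Prop // FE L A E} :=
    fun n => (fe_cnt hC hA).to_subtype
  exact inferInstanceAs (Countable (Σ n : ℕ, {E : (Fin n × α → U) → (Fin n × α → U) → Prop // FE L A E}))

theorem thm_EXT : St_EXT := by
  intro L U _ hC α _ A w hA
  have := eix_cnt (L := L) hC α hA
  have hne : Nonempty (EIx L α A) := ⟨⟨0, fun _ _ => True, fe_top A⟩⟩
  obtain ⟨e, he⟩ := exists_surjective_nat (EIx L α A)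
  -- the decreasing subsequences
  have hst : ∀ (k : ℕ) (φ : {φ : ℕ → ℕ // StrictMono φ}), ∃ ψ : {ψ : ℕ → ℕ // StrictMono ψ},
      ∀ v v' : Fin (e k).1 → ℕ, StrictMono v → StrictMono v' →
        (e k).2.1 (tms w (fun i => φ.1 (ψ.1 (v i)))) (tms w (fun i => φ.1 (ψ.1 (v' i)))) := by
    intro k φ
    obtain ⟨ψ, hψ, h⟩ := ext_step (fun l => w (φ.1 l)) (e k).2.2
    exact ⟨⟨ψ, hψ⟩, h⟩
  choose ψ hψ using hst
  let Φ : ℕ → {φ : ℕ → ℕ // StrictMono φ} := fun k => Nat.rec ⟨id, strictMono_id⟩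
    (fun k φ => ⟨fun l => φ.1 ((ψ k φ).1 l), φ.2.comp (ψ k φ).2⟩) k
  have hΦ : ∀ k, (Φ (k + 1)).1 = fun l => (Φ k).1 ((ψ k (Φ k)).1 l) := fun k => rfl
  have hmono : ∀ k K, k ≤ K → ∃ s : ℕ → ℕ, StrictMono s ∧ (Φ K).1 = fun l => (Φ k).1 (s l) := by
    intro k K hkK
    induction hkK with
    | refl => exact ⟨id, strictMono_id, rfl⟩
    | step _ ih =>
      obtain ⟨s, hs, hs'⟩ := ih
      rename_i m _
      refine ⟨fun l => s ((ψ m (Φ m)).1 l), hs.comp (ψ m (Φ m)).2, ?_⟩
      rw [Nat.succ_eq_add_one, hΦ, hs']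
  have hhom : ∀ k (v v' : Fin (e k).1 → ℕ), StrictMono v → StrictMono v' →
      (e k).2.1 (tms w (fun i => (Φ (k + 1)).1 (v i))) (tms w (fun i => (Φ (k + 1)).1 (v' i))) :=
    fun k v v' hv hv' => hψ k (Φ k) v v' hv hv'
  -- the chosen classes
  let p : ∀ k, Fin (e k).1 × α → U := fun k => tms w (fun i => (Φ (k + 1)).1 i)
  let B : Set U := A ∪ {x | ∃ l a, x = w l a}
  have hB : B.Countable := by
    refine hA.union ?_
    have h1 : {x | ∃ l a, x = w l a} = range (fun q : ℕ × α => w q.1 q.2) := by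
      ext x
      constructor
      · rintro ⟨l, a, rfl⟩
        exact ⟨(l, a), rfl⟩
      · rintro ⟨⟨l, a⟩, rfl⟩
        exact ⟨l, a, rfl⟩
    rw [h1]
    exact countable_range _
  obtain ⟨v, hv⟩ := sat_dp (α := ℚ × α) hC hB
    (F := {P | ∃ (k : ℕ) (i : Fin (e k).1 → ℚ), StrictMono i ∧
      P = fun v : ℚ × α → U => (e k).2.1 (fun x => v (i x.1, x.2)) (p k)}) (by
      rintro P ⟨k, i, -, rfl⟩
      have h1 := fe_cls (e k).2.2 (p k)
      have h2 := dp_sub h1 (fun x : Fin (e k).1 × α => (i x.1, x.2))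
      refine dp_mono (union_subset subset_union_left ?_) h2
      rintro x ⟨y, rfl⟩
      exact Or.inr ⟨_, _, rfl⟩)
    (by
      intro G hG hfin
      -- finitely many conditions involve finitely many indices
      have h1 : ∀ P ∈ G, ∃ (k : ℕ) (i : Fin (e k).1 → ℚ), StrictMono i ∧
          P = fun v : ℚ × α → U => (e k).2.1 (fun x => v (i x.1, x.2)) (p k) := fun P hP => hG hP
      choose! k i hi hP using h1
      obtain ⟨K, hK⟩ := (hfin.image k).bddAbove
      classical
      let T : Finset ℚ := hfin.toFinset.biUnion (fun P => Finset.univ.image (i P))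
      have hT : ∀ P ∈ G, ∀ a, i P a ∈ T := by
        intro P hP a
        exact Finset.mem_biUnion.2 ⟨P, hfin.mem_toFinset.2 hP, Finset.mem_image_of_mem _ (Finset.mem_univ a)⟩
      let m : ℚ → ℕ := fun q => (T.filter (· < q)).card
      have hm : ∀ q ∈ T, ∀ q' ∈ T, q < q' → m q < m q' := by
        intro q hq q' hq' h
        refine Finset.card_lt_card ((Finset.ssubset_iff_of_subset ?_).2 ⟨q, ?_, ?_⟩)
        · intro x hx
          rw [Finset.mem_filter] at hx ⊢
          exact ⟨hx.1, hx.2.trans h⟩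
        · exact Finset.mem_filter.2 ⟨hq, h⟩
        · intro hx
          exact lt_irrefl _ (Finset.mem_filter.1 hx).2
      refine ⟨fun x => w ((Φ (K + 1)).1 (m x.1)) x.2, fun P hPG => ?_⟩
      have hkK : k P + 1 ≤ K + 1 := Nat.succ_le_succ (hK (mem_image_of_mem k hPG))
      obtain ⟨s, hs, hs'⟩ := hmono _ _ hkK
      rw [hP P hPG]
      have h2 := hhom (k P) (fun a => s (m (i P a))) (fun a => a)
        (fun a b hab => hs (hm _ (hT P hPG a) _ (hT P hPG b) (hi P hPG hab))) (fun a b hab => hab)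
      have e1 : (tms w fun a => (Φ (k P + 1)).1 (s (m (i P a)))) =
          fun x : Fin (e (k P)).1 × α => w ((Φ (K + 1)).1 (m (i P x.1))) x.2 := by
        funext x
        rw [hs']
        rfl
      rw [e1] at h2
      exact h2)
  have key : ∀ t : EIx L α A, ∃ j : Fin t.1 → ℕ, StrictMono j ∧ ∀ i : Fin t.1 → ℚ, StrictMono i →
      t.2.1 (tms (fun q a => v (q, a)) i) (tms w j) := by
    intro t
    obtain ⟨k, rfl⟩ := he t
    refine ⟨fun a => (Φ (k + 1)).1 a, fun a b hab => (Φ (k + 1)).2 hab, fun i hi => ?_⟩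
    exact hv _ ⟨k, i, hi, rfl⟩
  refine ⟨fun q a => v (q, a), ?_, ?_⟩
  · intro n i j hi hj P hP hPi
    obtain ⟨s, -, hs⟩ := key ⟨n, fun x y => (P x ↔ P y), fe_of_dp hP⟩
    exact (hs j hj).2 ((hs i hi).1 hPi)
  · intro n i hi E hE
    obtain ⟨s, hs, hs'⟩ := key ⟨n, E, hE⟩
    exact ⟨s, hs, hs' i hi⟩

end Pool.Agent.TPY
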