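import Pool.Agent.TPY.IDB
import Pool.Agent.TPY.EXT

/-!
# TPY module HNG (helper34): hanging
-/

set_option autoImplicit false
set_option linter.unusedVariables false

namespace Pool.Agent.TPY

open FirstOrder.Language Set
open scoped FirstOrder
open Pool.Agent.MNO

variable {L : FirstOrder.Language.{0, 0}} {U : Type} [L.Structure U]

/-- tuples of terms with the same order pattern have the same strong type -/
theorem idc_spat (hC : Cz L U) {α : Type} [Finite α] {A : Set U} {u : ℚ → α → U} (hu : Idc L A u)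
    {κ : Type} [Finite κ] {c c' : κ → ℚ} (h : ∀ a b, c a < c b ↔ c' a < c' b) :
    Sq L A (fun x : κ × α => u (c x.1) x.2) (fun x : κ × α => u (c' x.1) x.2) := by
  classical
  have hf : (range c).Finite := finite_range c
  let s : Finset ℚ := hf.toFinset
  let e : Fin s.card → ℚ := s.orderEmbOfFin rfl
  have he : StrictMono e := (s.orderEmbOfFin rfl).strictMono
  have hes : ∀ k, e k ∈ range c := fun k => hf.mem_toFinset.1 (Finset.orderEmbOfFin_mem s rfl k)
  have hse : ∀ a, ∃ k, e k = c a := by
    intro a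
    have h1 : c a ∈ s := hf.mem_toFinset.2 ⟨a, rfl⟩
    have h2 : c a ∈ Set.range (s.orderEmbOfFin rfl) := by
      rw [Finset.range_orderEmbOfFin]
      exact h1
    exact h2
  choose a ha using hes
  choose k hk using hse
  have he' : StrictMono (fun k => c' (a k)) := by
    intro x y hxy
    refine (h _ _).1 ?_
    rw [ha, ha]
    exact he hxy
  have hc' : ∀ b, c' (a (k b)) = c' b := by
    intro b
    have h1 : c (a (k b)) = c b := (ha _).trans (hk b)
    refine le_antisymm (not_lt.1 fun h2 => ?_) (not_lt.1 fun h2 => ?_)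
    · exact absurd ((h _ _).2 h2) (by rw [h1]; exact lt_irrefl _)
    · exact absurd ((h _ _).2 h2) (by rw [h1]; exact lt_irrefl _)
  have h1 := sq_sub (thm_IDS L U hC α A u hu _ e (fun k => c' (a k)) he he')
    (fun x : κ × α => (k x.1, x.2))
  have e1 : (fun x : κ × α => tms u e (k x.1, x.2)) = fun x : κ × α => u (c x.1) x.2 := by
    funext x
    show u (e (k x.1)) x.2 = u (c x.1) x.2
    rw [hk]
  have e2 : (fun x : κ × α => tms u (fun k => c' (a k)) (k x.1, x.2)) =
      fun x : κ × α => u (c' x.1) x.2 := by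
    funext x
    show u (c' (a (k x.1))) x.2 = u (c' x.1) x.2
    rw [hc']
  rw [e1, e2] at h1
  exact h1

theorem thm_HNG : St_HNG := by
  intro L U _ hC α β _ _ F u hF hu k p a hp
  let c : ℕ → Fin k → ℚ := fun l b => ((k * l + b : ℕ) : ℚ)
  have hc : ∀ l, StrictMono (c l) := by
    intro l b b' hb
    have h1 : (k * l + b : ℕ) < (k * l + b' : ℕ) := by
      have := Fin.lt_def.1 hb
      omega
    show ((k * l + b : ℕ) : ℚ) < ((k * l + b' : ℕ) : ℚ)
    exact_mod_cast h1
  have h1 : ∀ l, ∃ a' : β → U, Sq L F (Sum.elim (tms u p) a) (Sum.elim (tms u (c l)) a') := fun l =>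
    sq_ext hC hF.countable (thm_IDS L U hC α F u hu k p (c l) hp (hc l)) a
  choose a' ha' using h1
  obtain ⟨v, hv, hvE⟩ := thm_EXT L U hC ((Fin k × α) ⊕ β) F (fun l => Sum.elim (tms u (c l)) (a' l)) hF.countable
  refine ⟨v, hv, fun q E hE => ?_, fun n i g hi hg E hE => ?_⟩
  · obtain ⟨j, -, hj⟩ := hvE 1 (fun _ => q) (fun a b hab => absurd hab (by
      have := Fin.lt_def.1 hab
      omega)) _ (fe_sub hE (fun x => ((0 : Fin 1), x)))
    have h2 : E (v q) (Sum.elim (tms u (c (j 0))) (a' (j 0))) := hj
    exact hE.eqv.trans (ha' (j 0) E hE) (hE.eqv.symm h2)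
  · obtain ⟨j, hj, hjE⟩ := hvE n i hi _ (fe_sub hE
      (fun x : Fin n × (Fin k × α) => (x.1, (Sum.inl x.2 : (Fin k × α) ⊕ β))))
    have h2 : E (fun x : Fin n × (Fin k × α) => v (i x.1) (Sum.inl x.2))
        (fun x : Fin n × (Fin k × α) => u (c (j x.1) x.2.1) x.2.2) := hjE
    refine hE.eqv.trans h2 ?_
    have h3 := idc_spat hC hu (κ := Fin n × Fin k) (c := fun z => c (j z.1) z.2)
      (c' := fun z => g (k * z.1 + z.2)) (by
        rintro ⟨x, y⟩ ⟨x', y'⟩
        show ((k * j x + y : ℕ) : ℚ) < ((k * j x' + y' : ℕ) : ℚ) ↔ g (k * x + y) < g (k * x' + y')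
        rw [hg.lt_iff_lt, Nat.cast_lt]
        rcases lt_trichotomy x x' with h | h | h
        · have h4 : j x + 1 ≤ j x' := hj h
          have h5 := Nat.mul_le_mul_left k h4
          have h6 : (x : ℕ) + 1 ≤ x' := Fin.lt_def.1 h
          have h7 := Nat.mul_le_mul_left k h6
          have h8 := y.2
          rw [mul_add, mul_one] at h5 h7
          constructor <;> intro _ <;> omega
        · subst h
          constructor <;> intro h9 <;> omega
        · have h4 : j x' + 1 ≤ j x := hj h
          have h5 := Nat.mul_le_mul_left k h4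
          have h6 : (x' : ℕ) + 1 ≤ x := Fin.lt_def.1 h
          have h7 := Nat.mul_le_mul_left k h6
          have h8 := y'.2
          rw [mul_add, mul_one] at h5 h7
          constructor <;> intro h9 <;> omega)
    have h4 := sq_sub h3 (fun x : Fin n × (Fin k × α) => ((x.1, x.2.1), x.2.2)) E hE
    exact h4

end Pool.Agent.TPY
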