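import Pool.Agent.TPY.IDS

/-!
# TPY module IDB (helper34): terms as parameters, reversal, patterns
-/

set_option autoImplicit false
set_option linter.unusedVariables false

namespace Pool.Agent.TPY

open FirstOrder.Language Set
open scoped FirstOrder
open Pool.Agent.MNO

variable {L : FirstOrder.Language.{0, 0}} {U : Type} [L.Structure U]

/-- tuples of terms with the same order pattern have the same type -/
theorem idc_pat {α : Type} {A : Set U} {u : ℚ → α → U} (hu : Idc L A u) {κ : Type} [Finite κ]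
    {c c' : κ → ℚ} (h : ∀ a b, c a < c b ↔ c' a < c' b) :
    Tq L A (fun x : κ × α => u (c x.1) x.2) (fun x : κ × α => u (c' x.1) x.2) := by
  classical
  have hf : (range c).Finite := finite_range c
  let s : Finset ℚ := hf.toFinset
  let e : Fin s.card → ℚ := s.orderEmbOfFin rfl
  have he : StrictMono e := (s.orderEmbOfFin rfl).strictMono
  have hes : ∀ k, e k ∈ range c := fun k => hf.mem_toFinset.1 (Finset.orderEmbOfFin_mem s rfl k)
  have hse : ∀ a, ∃ k, e k = c a := by
    intro a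
    have h1 : c a ∈ s := hf.mem_toFinset.2 ⟨a, rfl⟩
    have h2 : c a ∈ Set.range (s.orderEmbOfFin rfl) := by
      rw [Finset.range_orderEmbOfFin]
      exact h1
    exact h2
  choose a ha using hes
  choose k hk using hse
  have he' : StrictMono (fun k => c' (a k)) := by
    intro x y hxy
    refine (h _ _).1 ?_
    rw [ha, ha]
    exact he hxy
  have hc' : ∀ b, c' (a (k b)) = c' b := by
    intro b
    have h1 : c (a (k b)) = c b := (ha _).trans (hk b)
    refine le_antisymm (not_lt.1 fun h2 => ?_) (not_lt.1 fun h2 => ?_)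
    · exact absurd ((h _ _).2 h2) (by rw [h1]; exact lt_irrefl _)
    · exact absurd ((h _ _).2 h2) (by rw [h1]; exact lt_irrefl _)
  have h1 := tq_sub (hu _ e (fun k => c' (a k)) he he') (fun x : κ × α => (k x.1, x.2))
  have e1 : (fun x : κ × α => tms u e (k x.1, x.2)) = fun x : κ × α => u (c x.1) x.2 := by
    funext x
    show u (e (k x.1)) x.2 = u (c x.1) x.2
    rw [hk]
  have e2 : (fun x : κ × α => tms u (fun k => c' (a k)) (k x.1, x.2)) =
      fun x : κ × α => u (c' x.1) x.2 := by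
    funext x
    show u (c' (a (k x.1))) x.2 = u (c' x.1) x.2
    rw [hc']
  rw [e1, e2] at h1
  exact h1

/-- the same with terms as parameters -/
theorem idc_name {α : Type} {A : Set U} {u : ℚ → α → U} (hu : Idc L A u) {S : Set ℚ} {κ : Type} [Finite κ]
    {c c' : κ → ℚ} (h : ∀ a b, c a < c b ↔ c' a < c' b)
    (hS : ∀ s ∈ S, ∀ a, (c a < s ↔ c' a < s) ∧ (s < c a ↔ s < c' a)) :
    Tq L (A ∪ Tm u S) (fun x : κ × α => u (c x.1) x.2) (fun x : κ × α => u (c' x.1) x.2) := by
  intro P hP hPc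
  obtain ⟨B, hBf, hB, hBP⟩ := dp_fin hP
  let κ' : Type := {b // b ∈ B ∧ b ∉ A}
  have hκ' : Finite κ' := Set.Finite.subset hBf (fun b hb => hb.1)
  have h1 : ∀ b : κ', ∃ s ∈ S, ∃ k, b.1 = u s k := by
    intro b
    rcases hB b.2.1 with h1 | h1
    · exact absurd h1 b.2.2
    · exact h1
  choose t ht k hk using h1
  have hsub : B ⊆ A ∪ range (fun x : κ' × α => u (t x.1) x.2) := by
    intro b hb
    by_cases hbA : b ∈ A
    · exact Or.inl hbA
    · exact Or.inr ⟨(⟨b, hb, hbA⟩, k ⟨b, hb, hbA⟩), (hk ⟨b, hb, hbA⟩).symm⟩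
  obtain ⟨Q, hQ, hPQ⟩ := dp_fam (dp_mono hsub hBP)
  have h2 := idc_pat hu (κ := κ ⊕ κ') (c := Sum.elim c t) (c' := Sum.elim c' t) (by
    rintro (a | a) (b | b)
    · exact h a b
    · exact (hS _ (ht b) a).1
    · exact (hS _ (ht a) b).2
    · exact Iff.rfl)
  have h3 := tq_sub h2 (Sum.elim (fun x => (Sum.inl x.1, x.2)) (fun x => (Sum.inr x.1, x.2)) :
    (κ × α) ⊕ (κ' × α) → (κ ⊕ κ') × α) Q hQ
  have e1 : ∀ c : κ → ℚ, (fun x : (κ × α) ⊕ (κ' × α) =>
      (fun y : (κ ⊕ κ') × α => u (Sum.elim c t y.1) y.2)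
        ((Sum.elim (fun x => (Sum.inl x.1, x.2)) (fun x => (Sum.inr x.1, x.2)) :
    (κ × α) ⊕ (κ' × α) → (κ ⊕ κ') × α) x)) =
      Sum.elim (fun x : κ × α => u (c x.1) x.2) (fun x : κ' × α => u (t x.1) x.2) := by
    intro c
    funext x
    rcases x with x | x <;> rfl
  rw [e1 c, e1 c'] at h3
  exact (hPQ _).2 (h3 ((hPQ _).1 hPc))

theorem thm_IDB : St_IDB := by
  intro L U _ α _ A u hu
  refine ⟨fun S f hf hS n i j hi hj => ?_, fun n i j hi hj => ?_, fun β g n i j hi hj => ?_,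
    fun B hBA n i j hi hj => tq_mono hBA (hu n i j hi hj)⟩
  · refine idc_name hu (c := fun a => f (i a)) (c' := fun a => f (j a)) (fun a b => ?_) (fun s hs a => ?_)
    · exact ((hf.comp hi).lt_iff_lt).trans ((hf.comp hj).lt_iff_lt).symm
    · rcases hS s hs with h1 | h1
      · exact ⟨⟨fun _ => h1 _, fun _ => h1 _⟩, ⟨fun h2 => absurd h2 (lt_asymm (h1 _)),
          fun h2 => absurd h2 (lt_asymm (h1 _))⟩⟩
      · exact ⟨⟨fun h2 => absurd h2 (lt_asymm (h1 _)), fun h2 => absurd h2 (lt_asymm (h1 _))⟩,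
          ⟨fun _ => h1 _, fun _ => h1 _⟩⟩
  · exact idc_pat hu (c := fun a => -(i a)) (c' := fun a => -(j a)) (fun a b => by
      rw [neg_lt_neg_iff, neg_lt_neg_iff, hi.lt_iff_lt, hj.lt_iff_lt])
  · exact tq_sub (hu n i j hi hj) (fun x : Fin n × β => (x.1, g x.2))

end Pool.Agent.TPY
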