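import Pool.Agent.TPY.StL

/-!
# TPY: full T6, module LIM (helper60): a piece which is not ended is open
-/

set_option autoImplicit false
set_option linter.unusedVariables false

namespace Pool.Agent.TPY

open FirstOrder.Language Set
open scoped FirstOrder
open Pool.Agent.MNO

section

variable {L : FirstOrder.Language.{0, 0}} {U : Type} [L.Structure U]

private theorem s1_eta (x : Fin 1 → U) : s1 (x 0) = x := by
  funext k
  exact congrArg x (Subsingleton.elim 0 k)

/-- step 1: replace the coordinates in `W`, seen from a point outside of `W` -/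
private theorem lim_one {A W : Set U} (hW : BF L A W) {n : ℕ} {c c' : Fin n → U} (h : Sq L A c c')
    (d : Fin n → U) (hd1 : ∀ j, c j ∈ W → d j = c' j) (hd2 : ∀ j, c j ∉ W → d j = c j)
    {x : Fin 1 → U} (hx : x 0 ∉ W) : Sq L A (Sum.elim x c) (Sum.elim x d) := by
  classical
  have h1 : Sq L A (fun j : {j // c j ∈ W} => c j) (fun j : {j // c j ∈ W} => c' j) :=
    sq_sub h (fun j : {j // c j ∈ W} => (j : Fin n))
  have h2 := bf_prd hW (w := Sum.elim x (fun j : {j // c j ∉ W} => c j)) (fun j => j.2) (by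
    rintro (j | j)
    · have e : x j = x 0 := congrArg x (Subsingleton.elim j 0)
      show x j ∉ W
      rw [e]
      exact hx
    · exact j.2) h1
  let σ : Fin 1 ⊕ Fin n → {j // c j ∈ W} ⊕ (Fin 1 ⊕ {j // c j ∉ W}) := Sum.elim (fun k => Sum.inr (Sum.inl k))
    (fun j => if hj : c j ∈ W then Sum.inl ⟨j, hj⟩ else Sum.inr (Sum.inr ⟨j, hj⟩))
  have hσ1 : ∀ k (hk : c k ∈ W), σ (Sum.inr k) = Sum.inl ⟨k, hk⟩ := fun k hk => dif_pos hk
  have hσ2 : ∀ k (hk : c k ∉ W), σ (Sum.inr k) = Sum.inr (Sum.inr ⟨k, hk⟩) := fun k hk => dif_neg hk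
  have h3 := sq_sub h2 σ
  refine sq_congr h3 ?_ ?_
  · funext k
    rcases k with k | k
    · rfl
    · by_cases hk : c k ∈ W
      · rw [hσ1 k hk]
        rfl
      · rw [hσ2 k hk]
        rfl
  · funext k
    rcases k with k | k
    · rfl
    · by_cases hk : c k ∈ W
      · rw [hσ1 k hk]
        exact hd1 k hk
      · rw [hσ2 k hk]
        exact hd2 k hk

end

theorem thm_LIM (hULT : St_ULT) : St_LIM := by
  classical
  intro L U _ hC A b hA hb
  by_contra hcon
  have hcon' : ∀ E, FE L A E → ∃ y : U, E (s1 y) (s1 b) ∧ y ∉ Pc L A b := by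
    intro E hE
    by_contra h
    refine hcon ⟨E, hE, fun y hy => ?_⟩
    by_contra h'
    exact h ⟨y, hy, h'⟩
  have hW : BF L A (Pc L A b) := pc_bf hC b
  have hWc : BF L A (Pc L A b)ᶜ := bf_compl hC hA.countable hW
  have hT : FE L A (fun _ _ : Fin 1 → U => True) := by
    have h1 := fe_of_dp (L := L) (A := A) (P := fun _ : Fin 1 → U => True) dp_true
    refine ⟨dp_true, ⟨fun _ => trivial, fun _ => trivial, fun _ _ => trivial⟩, ?_⟩
    obtain ⟨s, hs, hs'⟩ := h1.fin
    refine ⟨s, hs, fun x => ?_⟩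
    obtain ⟨y, hy, -⟩ := hs' x
    exact ⟨y, hy, trivial⟩
  obtain ⟨r, hr, h2, h3⟩ := hULT L U (Fin 1) {E : (Fin 1 → U) → (Fin 1 → U) → Prop // FE L A E}
    (fun E => {x | x 0 ∉ Pc L A b ∧ E.1 x (s1 b)}) ⟨⟨_, hT⟩⟩ (by
      rintro ⟨E, hE⟩
      obtain ⟨y, hy, hy'⟩ := hcon' E hE
      exact ⟨s1 y, hy', hy⟩) (by
      rintro ⟨E, hE⟩ ⟨E', hE'⟩
      exact ⟨⟨_, fe_inter hE hE'⟩, fun x hx => ⟨⟨hx.1, hx.2.1⟩, ⟨hx.1, hx.2.2⟩⟩⟩)
  have hEts : Ets L A (s1 b) r := fun E hE =>
    h2 ⟨E, hE⟩ _ (dp_mono (subset_univ _) (fe_cls hE (s1 b))) fun x hx => hx.2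
  refine hb ⟨r, ⟨hr, ?_, ?_⟩, b, mem_pc b, hEts⟩
  · intro u hu
    have hs : Sq L A (s1 b) (s1 u) := by
      intro E hE
      obtain ⟨x, hx, hxu⟩ := h3 ⟨E, hE⟩ _ hu
      have e : x = s1 u := by rw [← s1_eta x, hxu]
      rw [← e]
      exact hE.eqv.symm hx.2
    obtain ⟨x, hx, hxu⟩ := h3 ⟨_, hT⟩ _ hu
    refine hx.1 ?_
    have e : x 0 = u := hxu
    rw [e]
    exact pc_sq hC hs
  · intro n P hP c c' hcc hrc
    have hu : ∀ e : Fin n → U, Dp L (univ : Set U) (fun x : Fin 1 → U => P (Sum.elim x e)) := fun e =>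
      dp_par (dp_mono (subset_univ _) hP) e fun _ => mem_univ _
    have hfin : (A ∪ (range c ∪ range c')).Finite := hA.union ((finite_range c).union (finite_range c'))
    let d : Fin n → U := fun j => if c j ∈ Pc L A b then c' j else c j
    have hd1 : ∀ j, c j ∈ Pc L A b → d j = c' j := fun j hj => if_pos hj
    have hd2 : ∀ j, c j ∉ Pc L A b → d j = c j := fun j hj => if_neg hj
    have hdm : ∀ j, d j ∈ A ∪ (range c ∪ range c') := by
      intro j
      by_cases hj : c j ∈ Pc L A b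
      · rw [hd1 j hj]
        exact Or.inr (Or.inr ⟨j, rfl⟩)
      · rw [hd2 j hj]
        exact Or.inr (Or.inl ⟨j, rfl⟩)
    -- step 1
    have hrd : r (fun x => P (Sum.elim x d)) := by
      by_contra h
      obtain ⟨x, hx, hx1, hx2⟩ := h3 ⟨_, hT⟩ _ (hr.and _ _ hrc ((gt_not hr (hu d)).2 h))
      exact hx2 ((sq_dp (lim_one hW hcc d hd1 hd2 hx.1) hP).1 hx1)
    -- step 2
    obtain ⟨u, hur⟩ := gt_real hC hr hfin.countable
    have hsu : Sq L A (s1 b) u := by
      intro E hE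
      obtain ⟨x, hx, hx'⟩ := hr.ne _ (hr.and _ _ (hEts E hE) (hur E (fe_mono subset_union_left hE)))
      exact hE.eqv.trans (hE.eqv.symm hx) hx'
    have hu0 : u 0 ∈ Pc L A b := pc_sq hC (by
      rw [s1_eta u]
      exact hsu)
    have hPd : P (Sum.elim u d) := (real_dp hr hur
      (dp_par (dp_mono subset_union_left hP) d hdm)).1 hrd
    have hcc' : ∀ j, c j ∈ Pc L A b ↔ c' j ∈ Pc L A b := fun j => bf_inv hW hcc j
    have hs2 : Sq L A (Sum.elim u c') (Sum.elim u d) := by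
      refine lim_one hWc (sq_symm hcc) d (fun j hj => ?_) (fun j hj => ?_) (fun h => h hu0)
      · exact hd2 j fun h => hj ((hcc' j).1 h)
      · exact hd1 j ((hcc' j).2 (by
          by_contra h
          exact hj h))
    have hPc : P (Sum.elim u c') := (sq_dp hs2 hP).2 hPd
    exact (real_dp hr hur (dp_par (dp_mono subset_union_left hP) c'
      fun j => Or.inr (Or.inr ⟨j, rfl⟩))).2 hPc

end Pool.Agent.TPY
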