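import Pool.Agent.TPY.IDF
import Pool.Agent.TPY.Tqp

/-!
# TPY/MB0 (helper45): tools for StM: transport of pieces along sequences, order types of terms of indiscernible sequences
-/

set_option autoImplicit false
set_option linter.unusedVariables false

namespace Pool.Agent.TPY

open FirstOrder.Language Set
open scoped FirstOrder
open Pool.Agent.MNO

variable {L : FirstOrder.Language.{0, 0}} {U : Type} [L.Structure U] {F G : Set U}

theorem ins_eq (x : U) (F : Set U) : F ∪ range (s1 x) = insert x F := by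
  ext y
  constructor
  · rintro (h | ⟨_, rfl⟩)
    · exact Or.inr h
    · exact Or.inl rfl
  · rintro (rfl | h)
    · exact Or.inr ⟨0, rfl⟩
    · exact Or.inl h

/-- membership in pieces over a part of a tuple -/
theorem pct_tq (hC : Cz L U) (hF : F.Countable) {β γ : Type} [Countable γ] {s t : β → U}
    (h : Tq L F s t) (g : γ → β) (b c : β) (hm : s c ∈ Pc L (F ∪ range fun k => s (g k)) (s b)) :
    t c ∈ Pc L (F ∪ range fun k => t (g k)) (t b) := by
  refine pc_tq hC hF (c := fun k => s (g k)) (c' := fun k => t (g k)) (x := s b) (y := s c) ?_ hm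
  have h1 := tq_sub h (Sum.elim ![b, c] g)
  refine tq_congr h1 ?_ ?_
  · funext i
    rcases i with i | i
    · fin_cases i <;> rfl
    · rfl
  · funext i
    rcases i with i | i
    · fin_cases i <;> rfl
    · rfl

/-- membership in pieces over one coordinate -/
theorem pcs_tq (hC : Cz L U) (hF : F.Countable) {β : Type} {s t : β → U}
    (h : Tq L F s t) (a b c : β) (hm : s c ∈ Pc L (insert (s a) F) (s b)) :
    t c ∈ Pc L (insert (t a) F) (t b) := by
  rw [← ins_eq] at hm ⊢
  exact pct_tq hC hF h (fun _ : Fin 1 => a) b c hm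

theorem pcs_iff (hC : Cz L U) (hF : F.Countable) {β : Type} {s t : β → U}
    (h : Tq L F s t) (a b c : β) : s c ∈ Pc L (insert (s a) F) (s b) ↔ t c ∈ Pc L (insert (t a) F) (t b) :=
  ⟨pcs_tq hC hF h a b c, pcs_tq hC hF (tq_symm h) a b c⟩

/-- inclusion of pieces -/
theorem pcs_le (hC : Cz L U) (hF : F.Countable) {β : Type} [Countable β] {s t : β → U}
    (h : Tq L F s t) (a b a' b' : β)
    (hm : Pc L (insert (s a) F) (s b) ⊆ Pc L (insert (s a') F) (s b')) :
    Pc L (insert (t a) F) (t b) ⊆ Pc L (insert (t a') F) (t b') := by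
  intro y hy
  obtain ⟨z, hz⟩ := tq_ext hC hF (tq_symm h) (s1 y)
  have h1 := pcs_tq hC hF hz (Sum.inl a) (Sum.inl b) (Sum.inr 0) hy
  have h2 := pcs_tq hC hF (tq_symm hz) (Sum.inl a') (Sum.inl b') (Sum.inr 0) (hm h1)
  exact h2

theorem pcs_eq (hC : Cz L U) (hF : F.Countable) {β : Type} [Countable β] {s t : β → U}
    (h : Tq L F s t) (a b a' b' : β)
    (hm : Pc L (insert (s a) F) (s b) = Pc L (insert (s a') F) (s b')) :
    Pc L (insert (t a) F) (t b) = Pc L (insert (t a') F) (t b') :=
  Subset.antisymm (pcs_le hC hF h a b a' b' hm.le) (pcs_le hC hF h a' b' a b hm.ge)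

/-- disjointness of pieces -/
theorem pcs_dj (hC : Cz L U) (hF : F.Countable) {β : Type} [Countable β] {s t : β → U}
    (h : Tq L F s t) (a b a' b' : β)
    (hm : ∀ v ∈ Pc L (insert (s a) F) (s b), v ∉ Pc L (insert (s a') F) (s b')) :
    ∀ v ∈ Pc L (insert (t a) F) (t b), v ∉ Pc L (insert (t a') F) (t b') := by
  intro y hy hy'
  obtain ⟨z, hz⟩ := tq_ext hC hF (tq_symm h) (s1 y)
  exact hm _ (pcs_tq hC hF hz (Sum.inl a) (Sum.inl b) (Sum.inr 0) hy)
    (pcs_tq hC hF hz (Sum.inl a') (Sum.inl b') (Sum.inr 0) hy')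

/-- elements of the base -/
theorem ins_tq {β : Type} {s t : β → U} (h : Tq L F s t) (a b : β) : s b ∈ insert (s a) F ↔ t b ∈ insert (t a) F := by
  have key : ∀ {s t : β → U}, Tq L F s t → s b ∈ insert (s a) F → t b ∈ insert (t a) F := by
    intro s t h hb
    rcases hb with hb | hb
    · exact Or.inl ((tq_eq h b a).1 hb)
    · exact Or.inr (by rw [tq_par h b hb]; exact hb)
  exact ⟨key h, key (tq_symm h)⟩

/-- two pieces over the same set are equal or disjoint -/
theorem pc_two (hC : Cz L U) (hG : G.Countable) (y z : U) :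
    Pc L G y = Pc L G z ∨ ∀ v ∈ Pc L G y, v ∉ Pc L G z := by
  by_cases h : ∃ v ∈ Pc L G y, v ∈ Pc L G z
  · obtain ⟨v, h1, h2⟩ := h
    exact Or.inl (pc_disj hC hG h1 h2)
  · push Not at h
    exact Or.inr h

/-- invariance of `big` -/
theorem big_sq {A₀ : Set U} {big : Set U → U → Prop} (hB : Bg L A₀ big) (h0 : A₀ ⊆ F) (hF : F.Finite)
    {β : Type} {s t : β → U} (h : Sq L F s t) (a b : β) (hb : big (insert (s a) F) (s b)) :
    big (insert (t a) F) (t b) := by
  obtain ⟨n, f, hf⟩ := exists_enum hF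
  have key : ∀ x : U, A₀ ∪ range (Sum.elim f (s1 x)) = insert x F := by
    intro x
    rw [Sum.elim_range, hf, ← union_assoc, union_eq_self_of_subset_left h0, ins_eq]
  have h1 := hB.inv (Fin n ⊕ Fin 1) (Sum.elim f (s1 (s a))) (Sum.elim f (s1 (t a))) (s b) (t b) (by
    have h2 := sq_add h f (fun i => by rw [← hf]; exact ⟨i, rfl⟩)
    have h3 := sq_sub h2 (Sum.elim (Sum.elim Sum.inr (fun _ => Sum.inl a)) (fun _ => Sum.inl b) :
      (Fin n ⊕ Fin 1) ⊕ Fin 1 → β ⊕ Fin n)
    refine tq_of_sq (sq_mono h0 (sq_congr h3 ?_ ?_))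
    · funext i
      rcases i with (i | i) | i <;> rfl
    · funext i
      rcases i with (i | i) | i <;> rfl)
  rw [key, key] at h1
  exact h1 hb

/-! ### order types of terms -/

section ot

variable {β κ : Type}

/-- the terms with indices `p` are an increasing tuple, reindexed; and the same for `p'` -/
theorem ot_enum [Finite κ] (p p' : κ → ℚ) (hp : ∀ k l, p k < p l ↔ p' k < p' l) :
    ∃ (n : ℕ) (i j : Fin n → ℚ) (e : κ → Fin n), StrictMono i ∧ StrictMono j ∧ (∀ k, p k = i (e k)) ∧
      ∀ k, p' k = j (e k) := by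
  classical
  have : Fintype κ := Fintype.ofFinite κ
  let S : Finset ℚ := Finset.univ.image p
  let i : Fin S.card ↪o ℚ := S.orderEmbOfFin rfl
  have hi : ∀ m, ∃ k, p k = i m := by
    intro m
    have h1 : i m ∈ S := S.orderEmbOfFin_mem rfl m
    obtain ⟨k, -, hk⟩ := Finset.mem_image.1 h1
    exact ⟨k, hk⟩
  choose c hc using hi
  have he : ∀ k, ∃ m, i m = p k := by
    intro k
    have h1 : p k ∈ Set.range (S.orderEmbOfFin rfl) := by
      rw [Finset.range_orderEmbOfFin]
      exact Finset.mem_coe.2 (Finset.mem_image_of_mem p (Finset.mem_univ k))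
    exact h1
  choose e he using he
  have heq : ∀ k l, p k = p l → p' k = p' l := by
    intro k l h
    rcases lt_trichotomy (p' k) (p' l) with h1 | h1 | h1
    · exact absurd h ((hp k l).2 h1).ne
    · exact h1
    · exact absurd h ((hp l k).2 h1).ne'
  refine ⟨S.card, i, fun m => p' (c m), e, i.strictMono, ?_, fun k => (he k).symm, fun k => ?_⟩
  · intro m m' hm
    have h1 := i.strictMono hm
    rw [← hc m, ← hc m'] at h1
    exact (hp _ _).1 h1
  · exact heq _ _ (by rw [hc, he])

/-- **terms of an indiscernible sequence with the same order type** -/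
theorem idc_ot {u : ℚ → β → U} (hu : Idc L F u) [Finite κ] (p p' : κ → ℚ) (c : κ → β)
    (hp : ∀ k l, p k < p l ↔ p' k < p' l) :
    Tq L F (fun k => u (p k) (c k)) (fun k => u (p' k) (c k)) := by
  obtain ⟨n, i, j, e, hi, hj, h1, h2⟩ := ot_enum p p' hp
  have h3 := tq_sub (hu n i j hi hj) (fun k => (e k, c k))
  refine tq_congr h3 ?_ ?_
  · funext k
    show u (p k) (c k) = u (i (e k)) (c k)
    rw [h1]
  · funext k
    show u (p' k) (c k) = u (j (e k)) (c k)
    rw [h2]

/-- the same for strong types; `hI` is the conclusion of `St_IDS` for `u` -/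
theorem ids_ot {u : ℚ → β → U}
    (hI : ∀ (n : ℕ) (i j : Fin n → ℚ), StrictMono i → StrictMono j → Sq L F (tms u i) (tms u j))
    [Finite κ] (p p' : κ → ℚ) (c : κ → β) (hp : ∀ k l, p k < p l ↔ p' k < p' l) :
    Sq L F (fun k => u (p k) (c k)) (fun k => u (p' k) (c k)) := by
  obtain ⟨n, i, j, e, hi, hj, h1, h2⟩ := ot_enum p p' hp
  have h3 := sq_sub (hI n i j hi hj) (fun k => (e k, c k))
  refine sq_congr h3 ?_ ?_
  · funext k
    show u (p k) (c k) = u (i (e k)) (c k)
    rw [h1]
  · funext k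
    show u (p' k) (c k) = u (j (e k)) (c k)
    rw [h2]

end ot

end Pool.Agent.TPY
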