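import Pool.Agent.TPY.HNG
import Pool.Agent.TPY.MB0
import Pool.Agent.TPY.Fre1

/-!
# TPY module LNK (helper45): the strong two-point form of LINK, without arrays

`Lk F b a`: some `F`-indiscernible sequence of elements with the strong type of `b` is broken by an element with the strong type of `a`.
`lk_T`: a single element which breaks an `F`-indiscernible sequence of TUPLES is linked with a coordinate (TR, NIP).
`lk_symm`, `lk_trans` (DPM), `lk_refl`; unlinked sets are orthogonal (`lk_prd`: BNI, TR); so the classes of `Lk` are in `BF F`.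
-/

set_option autoImplicit false
set_option linter.unusedVariables false

namespace Pool.Agent.TPY

open FirstOrder.Language Set
open scoped FirstOrder
open Pool.Agent.MNO

/-- `Lk F b a`: an `F`-indiscernible sequence in the strong type of `b` is broken by an element of the strong type of `a` -/
def Lk (L : FirstOrder.Language.{0, 0}) {U : Type} [L.Structure U] (F : Set U) (b a : U) : Prop :=
  ∃ (w : ℚ → Fin 1 → U) (v : U), Idc L F w ∧ (∀ q, Sq L F (s1 b) (w q)) ∧ Sq L F (s1 a) (s1 v) ∧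
    ¬ Idc L (insert v F) w

section

variable {L : FirstOrder.Language.{0, 0}} {U : Type} [L.Structure U] {F : Set U} {a b c a' b' : U}

theorem lk_inv (hb : Sq L F (s1 b) (s1 b')) (ha : Sq L F (s1 a) (s1 a')) (h : Lk L F b a) : Lk L F b' a' := by
  obtain ⟨w, v, h1, h2, h3, h4⟩ := h
  exact ⟨w, v, h1, fun q => sq_trans (sq_symm hb) (h2 q), sq_trans (sq_symm ha) h3, h4⟩

/-- TR for a set of single elements -/
theorem tri_set (hTRI : St_TRI) (hC : Cz L U) (hF : F.Countable) {α : Type} [Finite α] {u : ℚ → α → U}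
    (hu : Idc L F u) {S : Set U} (h : ∀ c ∈ S, Idc L (insert c F) u) : Idc L (F ∪ S) u := by
  intro n i j hi hj P hP
  obtain ⟨B, hB, hBF, hPB⟩ := dp_fin hP
  have : Finite (B ∩ S : Set U) := (hB.inter_of_left S).to_subtype
  have h1 := hTRI L U hC α (B ∩ S : Set U) F u Subtype.val hF hu (fun k => h k.1 k.2.2)
  rw [Subtype.range_val] at h1
  refine h1 n i j hi hj P (dp_mono ?_ hPB)
  intro x hx
  rcases hBF hx with h2 | h2
  · exact Or.inl h2
  · exact Or.inr ⟨hx, h2⟩

/-- **(T)**: if a single element breaks an `F`-indiscernible sequence of tuples, then it is linked with a coordinate -/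
theorem lk_T (hTRI : St_TRI) (hC : Cz L U) (hF : F.Finite) {α : Type} [Finite α] {u : ℚ → α → U}
    (hu : Idc L F u) (hn : ¬ Idc L (insert a F) u) : ∃ k : α, Lk L F a (u 0 k) := by
  by_contra hcon
  push Not at hcon
  -- the breaking formula
  obtain ⟨n, i, j, hi, hj, hij⟩ : ∃ (n : ℕ) (i j : Fin n → ℚ), StrictMono i ∧ StrictMono j ∧
      ¬ Tq L (insert a F) (tms u i) (tms u j) := by
    by_contra h
    push Not at h
    exact hn h
  rw [← ins_eq, tq_fam] at hij
  obtain ⟨Q, hQ, hQi, hQj⟩ : ∃ Q, Dp L F Q ∧ Q (Sum.elim (tms u i) (s1 a)) ∧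
      ¬ Q (Sum.elim (tms u j) (s1 a)) := by
    by_contra h
    push Not at h
    exact hij h
  -- one block
  obtain ⟨m, p, -, e, hp, -, hpe, -⟩ := ot_enum (Sum.elim i j) (Sum.elim i j) (fun _ _ => Iff.rfl)
  have he1 : StrictMono fun x : Fin n => e (Sum.inl x) := by
    intro x y hxy
    have h1 := hi hxy
    have h2 := hpe (Sum.inl x)
    have h3 := hpe (Sum.inl y)
    simp only [Sum.elim_inl] at h2 h3
    rw [h2, h3] at h1
    exact hp.lt_iff_lt.1 h1
  have he2 : StrictMono fun x : Fin n => e (Sum.inr x) := by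
    intro x y hxy
    have h1 := hj hxy
    have h2 := hpe (Sum.inr x)
    have h3 := hpe (Sum.inr y)
    simp only [Sum.elim_inr] at h2 h3
    rw [h2, h3] at h1
    exact hp.lt_iff_lt.1 h1
  obtain ⟨v, hv1, hv2, hv3⟩ := thm_HNG L U hC α (Fin 1) F u hF hu m p (s1 a) hp
  -- the pattern on every block
  have hQ1 : ∀ q, Q (Sum.elim (fun x : Fin n × α => v q (Sum.inl (e (Sum.inl x.1), x.2))) (fun k => v q (Sum.inr k))) := by
    intro q
    have h1 := tq_sub (tq_of_sq (hv2 q)) (Sum.elim (fun x : Fin n × α => Sum.inl (e (Sum.inl x.1), x.2)) Sum.inr :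
      (Fin n × α) ⊕ Fin 1 → (Fin m × α) ⊕ Fin 1)
    refine tq_congr h1 ?_ ?_ Q hQ hQi
    · funext x
      rcases x with x | x
      · show u (i x.1) x.2 = u (p (e (Sum.inl x.1))) x.2
        rw [← hpe]
        rfl
      · rfl
    · funext x
      rcases x with x | x <;> rfl
  have hQ2 : ∀ q, ¬ Q (Sum.elim (fun x : Fin n × α => v q (Sum.inl (e (Sum.inr x.1), x.2))) (fun k => v q (Sum.inr k))) := by
    intro q
    have h1 := tq_sub (tq_of_sq (hv2 q)) (Sum.elim (fun x : Fin n × α => Sum.inl (e (Sum.inr x.1), x.2)) Sum.inr :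
      (Fin n × α) ⊕ Fin 1 → (Fin m × α) ⊕ Fin 1)
    have h2 : Tq L F (Sum.elim (tms u j) (s1 a))
        (Sum.elim (fun x : Fin n × α => v q (Sum.inl (e (Sum.inr x.1), x.2))) (fun k => v q (Sum.inr k))) := by
      refine tq_congr h1 ?_ ?_
      · funext x
        rcases x with x | x
        · show u (j x.1) x.2 = u (p (e (Sum.inr x.1))) x.2
          rw [← hpe]
          rfl
        · rfl
      · funext x
        rcases x with x | x <;> rfl
    exact fun h => hQj ((tq_iff h2 hQ).2 h)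
  -- the sequence of the copies of `a`
  let w : ℚ → Fin 1 → U := fun q k => v q (Sum.inr k)
  have hw : Idc L F w := (thm_IDB L U _ F v hv1).2.2.1 (Fin 1) Sum.inr
  have hwa : ∀ q, Sq L F (s1 a) (w q) := fun q => sq_right (x := fun x : Fin m × α => tms u p x)
    (x' := fun x : Fin m × α => v q (Sum.inl x)) (sq_congr (hv2 q) rfl (by
      funext x
      rcases x with x | x <;> rfl))
  let S : Set U := {z | ∃ q x, z = v q (Sum.inl x)}
  have hwS : Idc L (F ∪ S) w := by
    refine tri_set hTRI hC hF.countable hw ?_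
    rintro c ⟨q, x, rfl⟩
    by_contra hb
    refine hcon x.2 ⟨w, v q (Sum.inl x), hw, hwa, ?_, hb⟩
    have h1 : Sq L F (s1 (tms u p x)) (s1 (v q (Sum.inl x))) := sq_s1 (hv2 q) (Sum.inl x)
    have h2 := thm_IDS L U hC α F u hu 1 (fun _ => 0) (fun _ => p x.1)
      (fun x y hxy => absurd hxy (by rw [Subsingleton.elim x y]; exact lt_irrefl _))
      (fun x y hxy => absurd hxy (by rw [Subsingleton.elim x y]; exact lt_irrefl _))
    have h3 : Sq L F (s1 (u 0 x.2)) (s1 (tms u p x)) := sq_s1 h2 (0, x.2)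
    exact sq_trans h3 h1
  have hwq : ∀ q q', Tq L (F ∪ S) (w q) (w q') := by
    intro q q'
    exact tq_sub (hwS 1 (fun _ => q) (fun _ => q')
      (fun x y hxy => absurd hxy (by rw [Subsingleton.elim x y]; exact lt_irrefl _))
      (fun x y hxy => absurd hxy (by rw [Subsingleton.elim x y]; exact lt_irrefl _))) (fun k : Fin 1 => ((0 : Fin 1), k))
  have hwr : ∀ q (ε : Fin n → Fin m), Q (Sum.elim (fun x : Fin n × α => v q (Sum.inl (ε x.1, x.2))) (w q)) ↔
      Q (Sum.elim (fun x : Fin n × α => v q (Sum.inl (ε x.1, x.2))) (w 0)) := by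
    intro q ε
    have h1 : Dp L (F ∪ S) fun z : Fin 1 → U => Q (Sum.elim (fun x : Fin n × α => v q (Sum.inl (ε x.1, x.2))) z) := by
      have h2 := dp_sub (dp_mono (subset_union_left : F ⊆ F ∪ S) hQ)
        (Sum.swap : (Fin n × α) ⊕ Fin 1 → Fin 1 ⊕ (Fin n × α))
      refine dp_congr (dp_par h2 (fun x : Fin n × α => v q (Sum.inl (ε x.1, x.2)))
        (fun x => Or.inr ⟨q, _, rfl⟩)) (fun z => ?_)
      refine iff_of_eq (congrArg Q ?_)
      funext x
      rcases x with x | x <;> rfl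
    exact tq_iff (hwq q 0) h1
  -- shattering
  obtain ⟨k, hk⟩ := nipx hC hQ
  refine hk ?_
  classical
  let ε : Set (Fin k) → Fin k → Fin n → Fin m := fun s l x => if l ∈ s then e (Sum.inl x) else e (Sum.inr x)
  have hε : ∀ s l, StrictMono (ε s l) := by
    intro s l x y hxy
    by_cases h : l ∈ s
    · show (if l ∈ s then e (Sum.inl x) else e (Sum.inr x)) < (if l ∈ s then e (Sum.inl y) else e (Sum.inr y))
      rw [if_pos h, if_pos h]
      exact he1 hxy
    · show (if l ∈ s then e (Sum.inl x) else e (Sum.inr x)) < (if l ∈ s then e (Sum.inl y) else e (Sum.inr y))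
      rw [if_neg h, if_neg h]
      exact he2 hxy
  let X : Set (Fin k) → Fin k × (Fin n × α) → U := fun s x => v ((x.1 : ℕ) : ℚ) (Sum.inl (ε s x.1 x.2.1, x.2.2))
  have hXX : ∀ s s', Tq L F (X s) (X s') := by
    intro s s'
    have h1 := tq_of_sq (hv3 k (fun l => ((l : ℕ) : ℚ)) (fun l => (l : ℚ))
      (fun x y hxy => Nat.cast_lt.2 (Fin.lt_def.1 hxy)) (fun x y hxy => Nat.cast_lt.2 hxy))
    have h2 : ∀ s, Tq L F (X s) (fun x : Fin k × (Fin n × α) => u ((m * x.1 + ε s x.1 x.2.1 : ℕ) : ℚ) x.2.2) := fun s =>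
      tq_sub h1 (fun x : Fin k × (Fin n × α) => (x.1, (ε s x.1 x.2.1, x.2.2)))
    have h3 : Tq L F (fun x : Fin k × (Fin n × α) => u ((m * x.1 + ε s x.1 x.2.1 : ℕ) : ℚ) x.2.2)
        (fun x : Fin k × (Fin n × α) => u ((m * x.1 + ε s' x.1 x.2.1 : ℕ) : ℚ) x.2.2) := by
      refine idc_ot hu (κ := Fin k × (Fin n × α)) (fun x => ((m * x.1 + ε s x.1 x.2.1 : ℕ) : ℚ))
        (fun x => ((m * x.1 + ε s' x.1 x.2.1 : ℕ) : ℚ)) (fun x => x.2.2) ?_
      have key : ∀ (s : Set (Fin k)) (x y : Fin k × (Fin n × α)),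
          ((m * x.1 + ε s x.1 x.2.1 : ℕ) : ℚ) < ((m * y.1 + ε s y.1 y.2.1 : ℕ) : ℚ) ↔
            x.1 < y.1 ∨ (x.1 = y.1 ∧ x.2.1 < y.2.1) := by
        rintro s ⟨x1, x2, x3⟩ ⟨y1, y2, y3⟩
        show ((m * x1 + ε s x1 x2 : ℕ) : ℚ) < ((m * y1 + ε s y1 y2 : ℕ) : ℚ) ↔ x1 < y1 ∨ (x1 = y1 ∧ x2 < y2)
        rw [Nat.cast_lt]
        rcases lt_trichotomy x1 y1 with h | h | h
        · have h4 : (x1 : ℕ) + 1 ≤ y1 := Fin.lt_def.1 h
          have h5 := Nat.mul_le_mul_left m h4
          rw [mul_add, mul_one] at h5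
          have h6 := (ε s x1 x2).2
          exact ⟨fun _ => Or.inl h, fun _ => by omega⟩
        · subst h
          constructor
          · intro h7
            refine Or.inr ⟨rfl, (hε s x1).lt_iff_lt.1 (Fin.lt_def.2 ?_)⟩
            omega
          · rintro (h7 | ⟨-, h7⟩)
            · exact absurd h7 (lt_irrefl _)
            · have h8 := Fin.lt_def.1 (hε s x1 h7)
              omega
        · have h4 : (y1 : ℕ) + 1 ≤ x1 := Fin.lt_def.1 h
          have h5 := Nat.mul_le_mul_left m h4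
          rw [mul_add, mul_one] at h5
          have h6 := (ε s y1 y2).2
          constructor
          · intro h7
            omega
          · rintro (h7 | ⟨h7, -⟩)
            · exact absurd h7 (lt_asymm h)
            · exact absurd h7 h.ne'
      intro x y
      rw [key s, key s']
    exact tq_trans (h2 s) (tq_trans h3 (tq_symm (h2 s')))
  have hy : ∀ s : Set (Fin k), ∃ y : Fin 1 → U, Tq L F (Sum.elim (X s) (w 0)) (Sum.elim (X univ) y) := fun s =>
    tq_ext hC hF.countable (hXX s univ) (w 0)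
  choose y hy using hy
  refine ⟨fun l x => X univ (l, x), y, fun l s => ?_⟩
  have h1 := tq_sub (hy s) (Sum.elim (fun x : Fin n × α => Sum.inl (l, x)) Sum.inr :
    (Fin n × α) ⊕ Fin 1 → (Fin k × (Fin n × α)) ⊕ Fin 1)
  have h2 : Tq L F (Sum.elim (fun x => X s (l, x)) (w 0)) (Sum.elim (fun x => X univ (l, x)) (y s)) := by
    refine tq_congr h1 ?_ ?_
    · funext x
      rcases x with x | x <;> rfl
    · funext x
      rcases x with x | x <;> rfl
  refine Iff.trans (tq_iff h2 hQ).symm ?_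
  have h3 := hwr ((l : ℕ) : ℚ) (ε s l)
  show Q (Sum.elim (fun x : Fin n × α => v ((l : ℕ) : ℚ) (Sum.inl (ε s l x.1, x.2))) (w 0)) ↔ l ∈ s
  rw [← h3]
  by_cases h : l ∈ s
  · have h4 : ε s l = fun x => e (Sum.inl x) := funext fun x => if_pos h
    rw [h4]
    exact ⟨fun _ => h, fun _ => hQ1 _⟩
  · have h4 : ε s l = fun x => e (Sum.inr x) := funext fun x => if_neg h
    rw [h4]
    exact ⟨fun h5 => absurd h5 (hQ2 _), fun h5 => absurd h5 h⟩

theorem lk_symm (hTRI : St_TRI) (hC : Cz L U) (hF : F.Finite) (h : Lk L F b a) : Lk L F a b := by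
  obtain ⟨w, v, h1, h2, h3, h4⟩ := h
  obtain ⟨k, hk⟩ := lk_T hTRI hC hF h1 h4
  have h5 : k = 0 := Subsingleton.elim _ _
  subst h5
  exact lk_inv (sq_symm h3) (sq_symm (sq_s1 (h2 0) 0)) hk

/-- an element which is not linked with (the strong type of) `b` does not break the sequences in the strong type of `b` -/
theorem lk_not (h : ¬ Lk L F b a) {w : ℚ → Fin 1 → U} (hw : Idc L F w) (hb : Sq L F (s1 b) (w 0)) (hC : Cz L U)
    {v : U} (hv : Sq L F (s1 a) (s1 v)) : Idc L (insert v F) w := by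
  by_contra h1
  refine h ⟨w, v, hw, fun q => sq_trans hb ?_, hv, h1⟩
  have h2 := thm_IDS L U hC (Fin 1) F w hw 1 (fun _ => 0) (fun _ => q)
    (fun x y hxy => absurd hxy (by rw [Subsingleton.elim x y]; exact lt_irrefl _))
    (fun x y hxy => absurd hxy (by rw [Subsingleton.elim x y]; exact lt_irrefl _))
  exact sq_sub h2 (fun k : Fin 1 => ((0 : Fin 1), k))

/-- **(TRANS)** -/
theorem lk_trans (hTRI : St_TRI) (hDPM : St_DPM) (hC : Cz L U) (hF : F.Finite) (h : Lk L F a b) (h' : Lk L F b c) :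
    Lk L F a c := by
  by_contra hac
  have hca : ¬ Lk L F c a := fun h1 => hac (lk_symm hTRI hC hF h1)
  obtain ⟨w, v, h1, h2, h3, h4⟩ := h
  obtain ⟨w', v', h1', h2', h3', h4'⟩ := lk_symm hTRI hC hF h'
  -- move `w'` so that it is broken by `v`
  have hFc := hF.countable
  obtain ⟨z, hz⟩ := sq_ext hC hFc (sq_trans (sq_symm h3') h3) (w' 0)
  obtain ⟨x, hx⟩ := tq_ext' hC hFc (tq_of_sq hz) (fun p : ℚ × Fin 1 => w' p.1 p.2)
  let t : ℚ → Fin 1 → U := fun q k => x (q, k)
  have ht : Idc L F t := by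
    intro n i j hi hj
    have e : ∀ i : Fin n → ℚ, Tq L F (tms w' i) (tms t i) := fun i =>
      tq_sub hx (fun p : Fin n × Fin 1 => Sum.inr (i p.1, p.2))
    exact tq_trans (tq_symm (e i)) (tq_trans (h1' n i j hi hj) (e j))
  have ht0 : Sq L F (s1 c) (t 0) := by
    refine sq_trans (sq_trans (h2' 0) (sq_right hz)) ?_
    have h5 : z = t 0 := by
      funext k
      exact (tq_eq hx (Sum.inl (Sum.inr k)) (Sum.inr ((0 : ℚ), k))).1 rfl
    rw [h5]
    exact sq_refl _ _
  have htv : ¬ Idc L (insert v F) t := by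
    intro h5
    refine h4' fun n i j hi hj => ?_
    have h6 := h5 n i j hi hj
    rw [← ins_eq, tq_fam] at h6 ⊢
    have e : ∀ i : Fin n → ℚ, Tq L F (Sum.elim (tms w' i) (s1 v')) (Sum.elim (tms t i) (s1 v)) := by
      intro i
      refine tq_congr (tq_sub hx (Sum.elim (fun p : Fin n × Fin 1 => Sum.inr (i p.1, p.2))
        (fun k : Fin 1 => Sum.inl (Sum.inl k)))) ?_ ?_
      · funext p
        rcases p with p | p <;> rfl
      · funext p
        rcases p with p | p <;> rfl
    exact tq_trans (e i) (tq_trans h6 (tq_symm (e j)))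
  -- they are mutually indiscernible
  have h5 : Idc L (F ∪ Tm t univ) w := by
    refine tri_set hTRI hC hFc h1 ?_
    rintro y ⟨q, -, k, rfl⟩
    refine lk_not hac h1 (h2 0) hC ?_
    have h6 := thm_IDS L U hC (Fin 1) F t ht 1 (fun _ => 0) (fun _ => q)
      (fun x y hxy => absurd hxy (by rw [Subsingleton.elim x y]; exact lt_irrefl _))
      (fun x y hxy => absurd hxy (by rw [Subsingleton.elim x y]; exact lt_irrefl _))
    have h7 : Sq L F (t 0) (s1 (t q k)) := sq_congr (sq_sub h6 (fun k : Fin 1 => ((0 : Fin 1), k))) rfl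
      (funext fun l => by
        show t q k = t q l
        rw [Subsingleton.elim k l])
    exact sq_trans ht0 h7
  have h6 : Idc L (F ∪ Tm w univ) t := by
    refine tri_set hTRI hC hFc ht ?_
    rintro y ⟨q, -, k, rfl⟩
    refine lk_not hca ht ht0 hC (sq_congr (h2 q) rfl (funext fun l => by
        show w q k = w q l
        rw [Subsingleton.elim k l]))
  rcases hDPM L U hC (Fin 1) (Fin 1) F w t v hFc ⟨h5, h6⟩ with h7 | h7
  · exact h4 h7
  · exact htv h7

/-- unlinked sets are orthogonal -/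
theorem lk_bf (hTRI : St_TRI) (hBNI : St_BNI) (hC : Cz L U) (hF : F.Finite) {X : Set U}
    (hX : ∀ x y : U, Sq L F (s1 x) (s1 y) → x ∈ X → y ∈ X) (hl : ∀ x ∈ X, ∀ y, y ∉ X → ¬ Lk L F x y) :
    BF L F X := by
  refine ⟨hX, fun m n u u' w hu hu' hw h => ?_⟩
  have hFc := hF.countable
  suffices hR : ∀ w' : Fin n → U, Sq L F w w' → Sq L (F ∪ range w') u u' by
    exact sq_mono subset_union_left (sq_add (hR w (sq_refl _ _)) w (fun i => Or.inr ⟨i, rfl⟩))
  by_contra hnot
  obtain ⟨s, hs1, hs2, hs3⟩ := hBNI L U hC (Fin m) F u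
    (fun v v' => ∀ w' : Fin n → U, Sq L F w w' → Sq L (F ∪ range w') v v') hF
    (fun v _ w' _ => sq_refl _ _) (fun v v' _ _ h w' hw' => sq_symm (h w' hw'))
    (fun _ _ _ _ _ _ h h' w' hw' => sq_trans (h w' hw') (h' w' hw')) (by
      intro v v' z z' hv hv' hvz hR w' hw'
      obtain ⟨w'', hw''⟩ := sq_ext hC hFc (sq_symm hvz) w'
      have h1 : Sq L F w w'' := sq_trans hw' (sq_right hw'')
      exact sq_tq (tq_of_sq (sq_symm hw'')) (hR w'' h1)) ⟨u, u', sq_refl _ _, h, hnot⟩
  refine hs3 0 1 zero_ne_one fun w' hw' => ?_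
  have h1 : Idc L (F ∪ range w') s := by
    refine tri_set hTRI hC hFc hs1 ?_
    rintro _ ⟨j, rfl⟩
    by_contra hb
    obtain ⟨k, hk⟩ := lk_T hTRI hC hF hs1 hb
    refine hl (s 0 k) (hX _ _ (sq_s1 (hs2 0) k) (hu k)) (w' j) ?_ (lk_symm hTRI hC hF hk)
    exact fun h2 => hw j (hX _ _ (sq_symm (sq_s1 hw' j)) h2)
  have h2 := thm_IDS L U hC (Fin m) _ s h1 1 (fun _ => 0) (fun _ => 1)
    (fun x y hxy => absurd hxy (by rw [Subsingleton.elim x y]; exact lt_irrefl _))
    (fun x y hxy => absurd hxy (by rw [Subsingleton.elim x y]; exact lt_irrefl _))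
  exact sq_sub h2 (fun k : Fin m => ((0 : Fin 1), k))

/-- **(REFL)** -/
theorem lk_refl (hBNI : St_BNI) (hC : Cz L U) (hF : F.Finite) {y : U} (h : ∃ x, x ≠ y ∧ x ∈ Pc L F y) :
    Lk L F y y := by
  have h1 : ∃ x, x ≠ y ∧ Sq L F (s1 y) (s1 x) := by
    by_contra hcon
    push Not at hcon
    obtain ⟨x, hxy, hx⟩ := h
    have h2 : BF L F {y} := by
      refine ⟨?_, fun m n u u' w hu hu' hw h => ?_⟩
      · rintro a b hab ha
        have h3 : a = y := ha
        subst h3
        by_contra h4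
        exact hcon b h4 hab
      · have h3 : u = u' := funext fun i => (hu i : u i = y).trans (hu' i : u' i = y).symm
        rw [h3]
        exact sq_refl _ _
    exact hxy (hx _ h2 rfl)
  obtain ⟨x, hxy, hx⟩ := h1
  obtain ⟨s, hs1, hs2, hs3⟩ := hBNI L U hC (Fin 1) F (s1 y) (fun v v' => v = v') hF
    (fun v _ => rfl) (fun v v' _ _ h => h.symm)
    (fun _ _ _ _ _ _ h h' => h.trans h') (by
      intro v v' z z' hv hv' hvz hR
      funext k
      exact (tq_eq (tq_of_sq hvz) (Sum.inl k) (Sum.inr k)).1 (congrFun hR k)) ⟨s1 x, s1 y, hx, sq_refl _ _, fun h2 =>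
      hxy (congrFun h2 0)⟩
  refine ⟨s, s 0 0, hs1, hs2, sq_congr (hs2 0) rfl (funext fun l => by
        show s 0 0 = s 0 l
        rw [Subsingleton.elim 0 l]), fun h2 => ?_⟩
  have h3 := h2 1 (fun _ => 0) (fun _ => 1)
    (fun x y hxy => absurd hxy (by rw [Subsingleton.elim x y]; exact lt_irrefl _))
    (fun x y hxy => absurd hxy (by rw [Subsingleton.elim x y]; exact lt_irrefl _))
  have h4 : tms s (fun _ : Fin 1 => 1) (0, 0) = tms s (fun _ : Fin 1 => 0) (0, 0) := tq_par h3 (0, 0) (Or.inl rfl)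
  refine hs3 0 1 zero_ne_one (funext fun k => ?_)
  rw [Subsingleton.elim k 0]
  exact h4.symm

end

theorem thm_LNK (hTRI : St_TRI) (hDPM : St_DPM) (hBNI : St_BNI) : St_LNK := by
  intro L U _ hC F y o hF ho hy
  have h1 := lk_refl hBNI hC hF hy
  have h2 : BF L F {v | Lk L F y v} := by
    refine lk_bf hTRI hBNI hC hF (fun x z hxz hx => ?_) (fun x hx z hz hxz => hz ?_)
    · exact lk_inv (sq_refl _ _) hxz hx
    · exact lk_trans hTRI hDPM hC hF hx hxz
  exact ho _ h2 h1

end Pool.Agent.TPY
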