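import Pool.Agent.TPY.StM1
import Pool.Agent.TPY.StM2

/-!
# TPY module M1: at most one big piece over `F x` inside a piece over `F` which contains `x`
-/

set_option autoImplicit false
set_option linter.unusedVariables false

namespace Pool.Agent.TPY

open FirstOrder.Language Set
open scoped FirstOrder
open Pool.Agent.MNO

variable {L : FirstOrder.Language.{0, 0}} {U : Type} [L.Structure U]

/-- membership depends only on the order of the two indices -/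
theorem m1_mem (hC : Cz L U) {F : Set U} (hF : F.Countable) {β : Type} {u : ℚ → β → U} (hu : Idc L F u)
    (a b : β) {p q p' q' : ℚ} (h : (p < q ∧ p' < q') ∨ (q < p ∧ q' < p')) :
    u q a ∈ Pc L (insert (u p a) F) (u p b) ↔ u q' a ∈ Pc L (insert (u p' a) F) (u p' b) := by
  have h3 := idc_ot hu (κ := Fin 3) ![p, p, q] ![p', p', q'] ![a, b, a] (by
    intro k l
    rcases h with ⟨h1, h2⟩ | ⟨h1, h2⟩ <;> fin_cases k <;> fin_cases l <;> simp [h1, h2, not_lt_of_gt h1, not_lt_of_gt h2])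
  exact pcs_iff hC hF h3 0 1 2

/-- equality of the pieces depends only on the order of the two indices -/
theorem m1_eq (hC : Cz L U) {F : Set U} (hF : F.Countable) {β : Type} {u : ℚ → β → U} (hu : Idc L F u)
    (a b : β) {p q p' q' : ℚ} (h : (p < q ∧ p' < q') ∨ (q < p ∧ q' < p'))
    (h' : Pc L (insert (u p a) F) (u p b) = Pc L (insert (u q a) F) (u q b)) :
    Pc L (insert (u p' a) F) (u p' b) = Pc L (insert (u q' a) F) (u q' b) := by
  have h3 := idc_ot hu (κ := Fin 4) ![p, p, q, q] ![p', p', q', q'] ![a, b, a, b] (by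
    intro k l
    rcases h with ⟨h1, h2⟩ | ⟨h1, h2⟩ <;> fin_cases k <;> fin_cases l <;> simp [h1, h2, not_lt_of_gt h1, not_lt_of_gt h2])
  exact pcs_eq hC hF h3 0 1 2 3 h'

theorem m1_seq (hNCN : St_NCN) (hPRV : St_PRV) (hNP : St_NP) (hC : Cz L U) {A₀ : Set U}
    {big : Set U → U → Prop} (hB : Bg L A₀ big) {F : Set U} {t : Fin 3 → U} (hAF : A₀ ⊆ F) (hF : F.Finite)
    (hx : t 0 ∈ Pc L F (t 1)) (h1 : big (insert (t 0) F) (t 1)) (h2 : big (insert (t 0) F) (t 2))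
    (hne : t 2 ∉ Pc L (insert (t 0) F) (t 1)) :
    ∃ u : ℚ → Fin 3 → U, Idc L F u ∧ (∀ q, Sq L F t (u q)) ∧
      (∀ p q, p ≠ q → Pc L (insert (u p 0) F) (u p 1) ≠ Pc L (insert (u q 0) F) (u q 1)) ∧
      (∀ p q, p ≠ q → u p 0 ∈ Pc L (insert (u q 0) F) (u q 1)) ∧
      ∀ p q, Pc L (insert (u p 0) F) (u p 2) = Pc L (insert (u q 0) F) (u q 2) := by
  have hFc := hF.countable
  have hsub : ∀ x, A₀ ⊆ insert x F := fun x => hAF.trans (subset_insert x F)
  obtain ⟨u, hu, hs, hd⟩ := hNCN L U hC (Fin 3) F t 0 1 hF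
    (hB.b0 _ _ (hsub _) (hF.insert _) h1) hx
  have hb1 : ∀ q, big (insert (u q 0) F) (u q 1) := fun q => big_sq hB hAF hF (hs q) 0 1 h1
  have hb2 : ∀ q, big (insert (u q 0) F) (u q 2) := fun q => big_sq hB hAF hF (hs q) 0 2 h2
  have hne' : ∀ q, u q 2 ∉ Pc L (insert (u q 0) F) (u q 1) := fun q hq =>
    hne (pcs_tq hC hFc (tq_symm (tq_of_sq (hs q))) 0 1 2 hq)
  have h01 : (0 : ℚ) < 1 := one_pos
  have hmem : ∀ p q, p ≠ q → u p 0 ∈ Pc L (insert (u q 0) F) (u q 1) := by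
    by_cases hα : u 1 0 ∈ Pc L (insert (u 0 0) F) (u 0 1)
    · by_cases hβ : u 0 0 ∈ Pc L (insert (u 1 0) F) (u 1 1)
      · intro p q hpq
        rcases lt_or_gt_of_ne hpq with h | h
        · exact (m1_mem hC hFc hu 0 1 (p := 1) (q := 0) (p' := q) (q' := p) (Or.inr ⟨h01, h⟩)).1 hβ
        · exact (m1_mem hC hFc hu 0 1 (p := 0) (q := 1) (p' := q) (q' := p) (Or.inl ⟨h01, h⟩)).1 hα
      · exfalso
        refine hNP L U hC A₀ big hB (Fin 3) F u 0 1 hAF hF hu (Or.inl ?_) (hb1 0)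
        intro p q hpq
        rcases lt_or_gt_of_ne hpq with h | h
        · exact iff_of_true ((m1_mem hC hFc hu 0 1 (p := 0) (q := 1) (p' := p) (q' := q)
            (Or.inl ⟨h01, h⟩)).1 hα) h
        · refine iff_of_false (fun h' => hβ ?_) (not_lt.2 (le_of_lt h))
          exact (m1_mem hC hFc hu 0 1 (p := 1) (q := 0) (p' := p) (q' := q)
            (Or.inr ⟨h01, h⟩)).2 h'
    · by_cases hβ : u 0 0 ∈ Pc L (insert (u 1 0) F) (u 1 1)
      · exfalso
        refine hNP L U hC A₀ big hB (Fin 3) F u 0 1 hAF hF hu (Or.inr ?_) (hb1 0)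
        intro p q hpq
        rcases lt_or_gt_of_ne hpq with h | h
        · refine iff_of_false (fun h' => hα ?_) (not_lt.2 h.le)
          exact (m1_mem hC hFc hu 0 1 (p := 0) (q := 1) (p' := p) (q' := q)
            (Or.inl ⟨h01, h⟩)).2 h'
        · exact iff_of_true ((m1_mem hC hFc hu 0 1 (p := 1) (q := 0) (p' := p) (q' := q)
            (Or.inr ⟨h01, h⟩)).1 hβ) h
      · exfalso
        refine hPRV L U hC A₀ big hB (Fin 3) F u 0 1 hAF hF hu ?_ hd (hb1 0)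
        intro p q hpq h'
        rcases lt_or_gt_of_ne hpq with h | h
        · exact hβ ((m1_mem hC hFc hu 0 1 (p := 1) (q := 0) (p' := q) (q' := p)
            (Or.inr ⟨h01, h⟩)).2 h')
        · exact hα ((m1_mem hC hFc hu 0 1 (p := 0) (q := 1) (p' := q) (q' := p)
            (Or.inl ⟨h01, h⟩)).2 h')
  refine ⟨u, hu, hs, hd, hmem, ?_⟩
  by_contra hcon
  push Not at hcon
  obtain ⟨p, q, hpq⟩ := hcon
  have hpq' : p ≠ q := by
    rintro rfl
    exact hpq rfl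
  refine hPRV L U hC A₀ big hB (Fin 3) F u 0 2 hAF hF hu ?_ ?_ (hb2 0)
  · intro p q hpq h'
    refine hne' q ?_
    rw [← pc_disj hC (hFc.insert _) h' (hmem p q hpq)]
    exact mem_pc _
  · intro p' q' hpq'' h'
    rcases lt_or_gt_of_ne hpq' with h | h <;> rcases lt_or_gt_of_ne hpq'' with h'' | h''
    · exact hpq (m1_eq hC hFc hu 0 2 (Or.inl ⟨h'', h⟩) h')
    · exact hpq (m1_eq hC hFc hu 0 2 (Or.inl ⟨h'', h⟩) h'.symm)
    · exact hpq (m1_eq hC hFc hu 0 2 (Or.inr ⟨h'', h⟩) h'.symm)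
    · exact hpq (m1_eq hC hFc hu 0 2 (Or.inr ⟨h'', h⟩) h')

theorem thm_M1 (hNCN : St_NCN) (hPRV : St_PRV) (hNP : St_NP) (hHNG : St_HNG) : St_M1 := by
  intro L U _ hC A₀ big hB F x d e hAF hF hx he h1 h2
  by_contra hne
  have hFc := hF.countable
  have hFc' : ∀ x, (insert x F).Countable := fun x => hFc.insert x
  obtain ⟨u, hu, hus, hu1, hu2, hu3⟩ := m1_seq hNCN hPRV hNP hC hB (t := ![x, d, e]) hAF hF hx h1 h2 hne
  obtain ⟨s, hs, hss, hs1, hs2, hs3⟩ := m1_seq hNCN hPRV hNP hC hB (t := ![x, e, d]) hAF hF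
    (by
      show x ∈ Pc L F e
      rw [pc_eq hC hFc he]
      exact hx) h2 h1 (fun h => hne (pc_symm hC (hFc' x) h))
  -- the triple `a`
  let σ : Fin 3 → Fin 3 := ![0, 2, 1]
  have e0 : Sq L F (fun k => s 0 (σ k)) (u 0) := by
    have h3 := sq_sub (hss 0) σ
    have h4 : (fun k => (![x, e, d] : Fin 3 → U) (σ k)) = ![x, d, e] := by
      funext k
      fin_cases k <;> rfl
    rw [h4] at h3
    exact sq_trans (sq_symm h3) (hus 0)
  obtain ⟨a, ha⟩ := sq_ext hC hFc e0 (fun k => s 1 (σ k))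
  have ha' := tq_of_sq ha
  have hba : big (insert (a 0) F) (a 1) := by
    have h3 : big (insert (s 1 0) F) (s 1 2) := big_sq hB hAF hF (hss 1) 0 2 h1
    exact big_sq hB hAF hF ha (Sum.inr 0) (Sum.inr 1) h3
  have a1 : Pc L (insert (a 0) F) (a 1) = Pc L (insert (u 0 0) F) (u 0 1) :=
    pcs_eq hC hFc ha' (Sum.inr 0) (Sum.inr 1) (Sum.inl 0) (Sum.inl 1) (hs3 1 0)
  have a2 : a 0 ∈ Pc L (insert (u 0 0) F) (u 0 2) :=
    pcs_tq hC hFc ha' (Sum.inl 0) (Sum.inl 2) (Sum.inr 0) (hs2 1 0 one_ne_zero)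
  have a3 : u 0 2 ∉ Pc L (insert (u 0 0) F) (u 0 1) := fun h =>
    hne (pcs_tq hC hFc (tq_symm (tq_of_sq (hus 0))) 0 1 2 h)
  -- hanging
  obtain ⟨v, hv, hv1, hv2⟩ := hHNG L U hC (Fin 3) (Fin 3) F u hF hu 1 (fun _ => 0) a
    (Subsingleton.strictMono _)
  let l0 : (Fin 1 × Fin 3) ⊕ Fin 3 := Sum.inl (0, 0)
  let l1 : (Fin 1 × Fin 3) ⊕ Fin 3 := Sum.inl (0, 1)
  let l2 : (Fin 1 × Fin 3) ⊕ Fin 3 := Sum.inl (0, 2)
  let r0 : (Fin 1 × Fin 3) ⊕ Fin 3 := Sum.inr 0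
  let r1 : (Fin 1 × Fin 3) ⊕ Fin 3 := Sum.inr 1
  have v1 : ∀ q, Pc L (insert (v q r0) F) (v q r1) = Pc L (insert (v q l0) F) (v q l1) := fun q =>
    pcs_eq hC hFc (tq_of_sq (hv1 q)) r0 r1 l0 l1 a1
  have v2 : ∀ q, v q r0 ∈ Pc L (insert (v q l0) F) (v q l2) := fun q =>
    pcs_tq hC hFc (tq_of_sq (hv1 q)) l0 l2 r0 a2
  have v3 : ∀ q, v q l2 ∉ Pc L (insert (v q l0) F) (v q l1) := fun q h =>
    a3 (pcs_tq hC hFc (tq_symm (tq_of_sq (hv1 q))) l0 l1 l2 h)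
  have key : ∀ p q, p < q → Pc L (insert (v p l0) F) (v p l1) ≠ Pc L (insert (v q l0) F) (v q l1) ∧
      Pc L (insert (v p l0) F) (v p l2) = Pc L (insert (v q l0) F) (v q l2) := by
    intro p q hpq
    have h3 := tq_of_sq (hv2 2 ![p, q] (fun n => (n : ℚ)) (by
      intro i j hij
      fin_cases i <;> fin_cases j
      · exact absurd hij (lt_irrefl _)
      · exact hpq
      · exact absurd hij (by decide)
      · exact absurd hij (lt_irrefl _)) (fun m n h => Nat.cast_lt.2 h))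
    constructor
    · intro h
      refine hu1 (((1 * 0 + 0 : ℕ) : ℚ)) (((1 * 1 + 0 : ℕ) : ℚ)) (by norm_num) ?_
      exact pcs_eq hC hFc h3 (0, (0, 0)) (0, (0, 1)) (1, (0, 0)) (1, (0, 1)) h
    · exact pcs_eq hC hFc (tq_symm h3) (0, (0, 0)) (0, (0, 2)) (1, (0, 0)) (1, (0, 2))
        (hu3 (((1 * 0 + 0 : ℕ) : ℚ)) (((1 * 1 + 0 : ℕ) : ℚ)))
  have key' : ∀ p q, p ≠ q → Pc L (insert (v p l0) F) (v p l1) ≠ Pc L (insert (v q l0) F) (v q l1) ∧
      Pc L (insert (v p l0) F) (v p l2) = Pc L (insert (v q l0) F) (v q l2) := by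
    intro p q hpq
    rcases lt_or_gt_of_ne hpq with h | h
    · exact key p q h
    · exact ⟨(key q p h).1.symm, (key q p h).2.symm⟩
  refine hPRV L U hC A₀ big hB _ F v r0 r1 hAF hF hv ?_ ?_ (big_sq hB hAF hF (hv1 0) r0 r1 hba)
  · intro p q hpq h
    have h3 := v2 p
    rw [(key' p q hpq).2] at h3
    rw [v1 q] at h
    refine v3 q ?_
    rw [← pc_disj hC (hFc' _) h3 h]
    exact mem_pc _
  · intro p q hpq
    rw [v1 p, v1 q]
    exact (key' p q hpq).1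

end Pool.Agent.TPY
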