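import Pool.Agent.TPY.StM2

/-!
# TPY modules M1T, CAL: uniqueness of the big piece over all finite bases; the calculus
-/

set_option autoImplicit false
set_option linter.unusedVariables false

namespace Pool.Agent.TPY

open FirstOrder.Language Set
open scoped FirstOrder
open Pool.Agent.MNO (Dp FE Sq Exa)

theorem thm_M1T (hM1 : St_M1) : St_M1T := by
  intro L U _ hC A₀ big hB B C y y' hAB hBC hCf hy' hbig hbig'
  have key : ∀ D : Set U, D.Finite → ∀ C : Set U, C = B ∪ D → big C y → big C y' → y' ∈ Pc L C y := by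
    intro D hD
    induction D, hD using Set.Finite.induction_on with
    | empty =>
      intro C hC' _ _
      rw [hC', union_empty]
      exact hy'
    | @insert a D haD hD ih =>
      intro C hC' h1 h2
      have hBf : B.Finite := hCf.subset hBC
      have hE : (B ∪ D).Finite := hBf.union hD
      have eC : C = insert a (B ∪ D) := by rw [hC', union_insert]
      have hsub : A₀ ⊆ B ∪ D := hAB.trans subset_union_left
      have hCf' : C.Finite := by rw [eC]; exact hE.insert a
      have hle : B ∪ D ⊆ C := by rw [eC]; exact subset_insert a _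
      have g1 := hB.b4 (B ∪ D) C y hsub hle hCf' h1
      have g2 := hB.b4 (B ∪ D) C y' hsub hle hCf' h2
      have g3 := ih (B ∪ D) rfl g1 g2
      by_cases ha : a ∈ Pc L (B ∪ D) y
      · rw [eC] at h1 h2 ⊢
        exact hM1 L U hC A₀ big hB (B ∪ D) a y y' hsub hE ha g3 h1 h2
      · have hy0 : y ∉ B ∪ D := hB.b0 _ _ hsub hE g1
        rw [eC, nnl1 hC hE hy0 ha]
        exact g3
  exact key (C \ B) (hCf.subset diff_subset) C (union_diff_cancel hBC).symm hbig hbig'

theorem thm_CAL (hM : St_M1T) : St_CAL := by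
  intro L U _ hC A₀ big hB
  have c1 : ∀ (B C : Set U) (y y' : U), A₀ ⊆ B → B ⊆ C → C.Finite → y' ∈ Pc L B y → big C y' → big B y := by
    intro B C y y' h1 h2 h3 h4 h5
    have hBf := h3.subset h2
    exact hB.pc B y' y h1 hBf (pc_symm hC hBf.countable h4) (hB.b4 B C y' h1 h2 h3 h5)
  have c4 : ∀ (B : Set U) (y w : U), A₀ ⊆ B → B.Finite → big B y → w ∈ B → w ∉ Pc L B y := by
    intro B y w h1 h2 h3 h4
    exact par_notMem hC h2.countable h4 (hB.b0 B y h1 h2 h3)
  have c2 : ∀ (B C : Set U) (y : U), A₀ ⊆ B → B.Finite → A₀ ⊆ C → C.Finite → big B y →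
      (∀ w ∈ C, w ∉ Pc L B y) →
      big (B ∪ C) y ∧ Pc L (B ∪ C) y = Pc L B y ∧ big C y ∧ Pc L B y ⊆ Pc L C y := by
    intro B C y h1 h2 h3 h4 h5 h6
    have hf := h2.union h4
    have g0 : ∀ w ∈ B ∪ C, w ∉ Pc L B y := by
      rintro w (hw | hw)
      · exact c4 B y w h1 h2 h5 hw
      · exact h6 w hw
    have g1 := hB.b5 B (B ∪ C) y h1 subset_union_left hf g0 h5
    have g2 : Pc L (B ∪ C) y = Pc L B y := nnl hC h2 hf subset_union_left g0
    refine ⟨g1, g2, hB.b4 C (B ∪ C) y h3 subset_union_right hf g1, ?_⟩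
    rw [← g2]
    exact pc_mono hC hf subset_union_right y
  refine ⟨c1, c2, ?_, c4⟩
  intro F x x' y y' h1 h2 h3 h4 h5 h6 h7
  have e : insert x F ∪ insert x' F = insert x' F ∪ insert x F := union_comm _ _
  have hx : A₀ ⊆ insert x F := h1.trans (subset_insert _ _)
  have hx' : A₀ ⊆ insert x' F := h1.trans (subset_insert _ _)
  have hxf := h2.insert x
  have hxf' := h2.insert x'
  obtain ⟨g1, g2, -, -⟩ := c2 (insert x F) (insert x' F) y hx hxf hx' hxf' h4 (by
    rintro w (rfl | hw)
    · exact h6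
    · exact c4 _ y w hx hxf h4 (mem_insert_of_mem x hw))
  obtain ⟨g1', g2', -, -⟩ := c2 (insert x' F) (insert x F) y' hx' hxf' hx hxf h5 (by
    rintro w (rfl | hw)
    · exact h7
    · exact c4 _ y' w hx' hxf' h5 (mem_insert_of_mem x' hw))
  have hf := hxf.union hxf'
  have g3 := hM L U hC A₀ big hB F (insert x F ∪ insert x' F) y y' h1
    ((subset_insert x F).trans subset_union_left) hf h3 g1 (by rw [e]; exact g1')
  rw [← g2, ← g2', ← e]
  exact (pc_eq hC hf.countable g3).symm

end Pool.Agent.TPY
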