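import Pool.Agent.TPY.StM1

/-!
# TPY [NCN] H(t) is not constant (helper90)
-/

set_option autoImplicit false
set_option linter.unusedVariables false

namespace Pool.Agent.TPY

open FirstOrder.Language Set
open scoped FirstOrder
open Pool.Agent.MNO (Dp FE Sq Exa sq_sub)

theorem thm_NCN (hUBD : St_UBD) (hBNI : St_BNI) : St_NCN := by
  intro L U _ hC β _ F t a b hF hd hx
  have hFc : F.Countable := hF.countable
  refine hBNI L U hC β F t (fun s s' => Pc L (insert (s a) F) (s b) = Pc L (insert (s' a) F) (s' b))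
    hF (fun _ _ => rfl) (fun _ _ _ _ h => h.symm) (fun _ _ _ _ _ _ h h' => h.trans h')
    (fun x y x' y' _ _ h hm => pcs_eq hC hFc (tq_of_sq h) (Sum.inl a) (Sum.inl b) (Sum.inr a)
      (Sum.inr b) hm) ?_
  by_contra hc
  push Not at hc
  have h1 : BF L F (Pc L (insert (t a) F) (t b)) := by
    refine hUBD L U hC F (t a) (t b) hF hd fun x' d' h => ?_
    obtain ⟨t', ht'⟩ := sq_ext hC hFc h t
    have h2 : Sq L F t t' := sq_sub ht' (fun i => Sum.inr i)
    have h3 : x' = t' a := (tq_eq (tq_of_sq ht') (Sum.inl 0) (Sum.inr a)).1 rfl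
    have h4 : d' = t' b := (tq_eq (tq_of_sq ht') (Sum.inl 1) (Sum.inr b)).1 rfl
    rw [h3, h4]
    exact (hc t t' (Pool.Agent.MNO.sq_refl F t) h2).symm
  have h2 : t a ∈ Pc L (insert (t a) F) (t b) := hx _ h1 (fun Q _ h => h)
  exact par_notMem hC (hFc.insert _) (mem_insert _ _) hd h2

end Pool.Agent.TPY
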