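import Pool.Agent.TPY.StM1
import Pool.Agent.TPY.StM2

/-!
# TPY module NN (helper72): no nested pairs

For elements `a`, `b` of the piece `P = Pc F z` the relation `b ∈ e(a)` is `big (F a) b`.
-/

set_option autoImplicit false
set_option linter.unusedVariables false

namespace Pool.Agent.TPY

open FirstOrder.Language Set
open scoped FirstOrder
open Pool.Agent.MNO

section

variable {L : FirstOrder.Language.{0, 0}} {U : Type} [L.Structure U] {A₀ : Set U} {big : Set U → U → Prop}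

/-- `big` is invariant under equality of types over a finite base -/
theorem nn_big (hB : Bg L A₀ big) {F : Set U} (hAF : A₀ ⊆ F) (hF : F.Finite) {γ : Type} [Finite γ]
    {a a' : γ → U} {z z' : U} (h : Tq L F (Sum.elim a (s1 z)) (Sum.elim a' (s1 z')))
    (hb : big (F ∪ range a) z) : big (F ∪ range a') z' := by
  have : Finite F := hF
  have e : ∀ a : γ → U, A₀ ∪ range (Sum.elim a (fun c : F => (c : U))) = F ∪ range a := by
    intro a
    rw [Sum.elim_range, Subtype.range_coe, union_comm (range a) F, ← union_assoc, union_eq_self_of_subset_left hAF]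
  rw [← e] at hb ⊢
  refine hB.inv (γ ⊕ F) _ _ z z' ?_ hb
  have h1 := tq_sub (tq_mono hAF (tq_add h (fun c : F => (c : U)) (fun c => c.2)))
    (Sum.elim (Sum.elim (fun i => Sum.inl (Sum.inl i)) Sum.inr) (fun i => Sum.inl (Sum.inr i)) :
      (γ ⊕ F) ⊕ Fin 1 → (γ ⊕ Fin 1) ⊕ F)
  have e1 : ∀ (a : γ → U) (z : U), (fun i => (Sum.elim (Sum.elim a (s1 z)) (fun c : F => (c : U)))
      ((Sum.elim (Sum.elim (fun i => Sum.inl (Sum.inl i)) Sum.inr) (fun i => Sum.inl (Sum.inr i)) :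
      (γ ⊕ F) ⊕ Fin 1 → (γ ⊕ Fin 1) ⊕ F) i)) = Sum.elim (Sum.elim a (fun c : F => (c : U))) (s1 z) := by
    intro a z
    funext i
    rcases i with (i | i) | i <;> rfl
  rw [e1, e1] at h1
  exact h1

/-- the same for pairs -/
theorem nn_pair (hB : Bg L A₀ big) {F : Set U} (hAF : A₀ ⊆ F) (hF : F.Finite) {a b a' b' : U}
    (h : Sq L F ![a, b] ![a', b']) (hb : big (insert a F) b) : big (insert a' F) b' := by
  have e : ∀ a : U, insert a F = F ∪ range (s1 a) := by
    intro a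
    ext v
    constructor
    · rintro (rfl | hv)
      · exact Or.inr ⟨0, rfl⟩
      · exact Or.inl hv
    · rintro (hv | ⟨i, rfl⟩)
      · exact Or.inr hv
      · exact Or.inl rfl
  rw [e] at hb ⊢
  refine nn_big hB hAF hF ?_ hb
  have h1 := tq_sub (tq_of_sq h) (Sum.elim (fun _ => 0) (fun _ => 1) : Fin 1 ⊕ Fin 1 → Fin 2)
  have e1 : ∀ a b : U, (fun i => (![a, b] : Fin 2 → U) ((Sum.elim (fun _ => 0) (fun _ => 1) :
      Fin 1 ⊕ Fin 1 → Fin 2) i)) = Sum.elim (s1 a) (s1 b) := by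
    intro a b
    funext i
    rcases i with i | i <;> rfl
  rw [e1, e1] at h1
  exact h1

/-- uniqueness -/
theorem nn_uniq (hM : St_M1T) (hC : Cz L U) (hB : Bg L A₀ big) {F : Set U} (hAF : A₀ ⊆ F) (hF : F.Finite)
    {z a b c : U} (hb : b ∈ Pc L F z) (hc : c ∈ Pc L F z) (h : big (insert a F) b) (h' : big (insert a F) c) :
    c ∈ Pc L (insert a F) b := by
  refine hM L U hC A₀ big hB F (insert a F) b c hAF (subset_insert a F) (hF.insert a) ?_ h h'
  rw [pc_eq hC hF.countable hb]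
  exact hc

/-- the basic law: `c ∈ e(b)` implies `a ∈ e(b)` or `c ∈ e(a)` -/
theorem nn_law (hK : St_CAL) (hC : Cz L U) (hB : Bg L A₀ big) {F : Set U} (hAF : A₀ ⊆ F) (hF : F.Finite)
    (a b c : U) (h : big (insert b F) c) : big (insert b F) a ∨ big (insert a F) c := by
  obtain ⟨-, c2, -, c4⟩ := hK L U hC A₀ big hB
  by_cases h1 : big (insert b F) a
  · exact Or.inl h1
  · right
    have hb' : A₀ ⊆ insert b F := hAF.trans (subset_insert _ _)
    have ha' : A₀ ⊆ insert a F := hAF.trans (subset_insert _ _)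
    refine (c2 (insert b F) (insert a F) c hb' (hF.insert b) ha' (hF.insert a) h ?_).2.2.1
    rintro w (rfl | hw)
    · exact fun h2 => h1 (hB.pc _ c w hb' (hF.insert b) h2 h)
    · exact c4 _ c w hb' (hF.insert b) h (mem_insert_of_mem b hw)

/-- the sequence of part (1) -/
theorem nn_chain (hC : Cz L U) {F : Set U} (hF : F.Finite) {x x' : U} (hs : Sq L F (s1 x) (s1 x')) :
    ∃ X : ℕ → U, ∀ l, Sq L F ![x, x'] ![X l, X (l + 1)] := by
  have step : ∀ p : {p : U × U // Sq L F ![x, x'] ![p.1, p.2]}, ∃ c : U, Sq L F ![x, x'] ![p.1.2, c] := by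
    rintro ⟨⟨a, b⟩, hab⟩
    have h1 : Sq L F (s1 x) (s1 a) := sq_sub hab (fun _ => 0)
    have h2 : Sq L F (s1 x') (s1 b) := sq_sub hab (fun _ => 1)
    have h3 : Sq L F (s1 a) (s1 b) := sq_trans (sq_symm h1) (sq_trans hs h2)
    obtain ⟨c, hc⟩ := sq_ext hC hF.countable h3 (s1 b)
    refine ⟨c 0, sq_trans hab ?_⟩
    have h4 := sq_sub hc (![Sum.inl 0, Sum.inr 0] : Fin 2 → Fin 1 ⊕ Fin 1)
    refine sq_congr h4 ?_ ?_
    · funext i
      refine Fin.cases rfl (fun j => ?_) i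
      rw [Subsingleton.elim j 0]
      rfl
    · funext i
      refine Fin.cases rfl (fun j => ?_) i
      rw [Subsingleton.elim j 0]
      rfl
  choose f hf using step
  let s : ℕ → {p : U × U // Sq L F ![x, x'] ![p.1, p.2]} := fun n =>
    Nat.rec ⟨(x, x'), sq_refl F _⟩ (fun _ p => ⟨(p.1.2, f p), hf p⟩) n
  exact ⟨fun l => (s l).1.1, fun l => (s l).2⟩

/-- the indiscernible sequence of part (2), (3) -/
theorem nn_seq (hM : St_M1T) (hK : St_CAL) (hO : St_OPD) (hE : St_EXT) (hC : Cz L U) (hB : Bg L A₀ big)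
    {F : Set U} (hAF : A₀ ⊆ F) (hF : F.Finite) {z x x' : U} (hx : x ∈ Pc L F z) (hx' : x' ∈ Pc L F z)
    (hs : Sq L F (s1 x) (s1 x')) (h : big (insert x F) x') (h' : ¬ big (insert x' F) x) :
    ∃ u : ℚ → Fin 2 → U, Idc L F u ∧ (∀ q, Sq L F ![x, x'] (u q)) ∧
      (∀ p q, p < q → big (insert (u p 0) F) (u q 0)) ∧
      ∀ p q, p < q → ¬ big (insert (u q 0) F) (u p 0) ∧ ¬ big (insert (u q 0) F) (u p 1) := by
  obtain ⟨X, hX⟩ := nn_chain hC hF hs
  have inP : ∀ a b : U, Sq L F ![x, x'] ![a, b] → a ∈ Pc L F z ∧ b ∈ Pc L F z := by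
    intro a b hab
    exact ⟨(bf_inv1 (pc_bf hC z) (sq_sub hab (fun _ => 0))).1 hx,
      (bf_inv1 (pc_bf hC z) (sq_sub hab (fun _ => 1))).1 hx'⟩
  -- the chain
  have c1 : ∀ l, big (insert (X l) F) (X (l + 1)) := fun l => nn_pair hB hAF hF (hX l) h
  have c2 : ∀ l, ¬ big (insert (X (l + 1)) F) (X l) := by
    intro l h1
    refine h' (nn_pair hB hAF hF (sq_sub (sq_symm (hX l)) ![1, 0] |> fun h => sq_congr h ?_ ?_) h1)
    · funext i
      fin_cases i <;> rfl
    · funext i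
      fin_cases i <;> rfl
  have c3 : ∀ l k c, big (insert (X (l + k)) F) c → big (insert (X l) F) c := by
    intro l k
    induction k with
    | zero => exact fun c hc => hc
    | succ k ih =>
      intro c hc
      exact ih c ((nn_law hK hC hB hAF hF _ _ c hc).resolve_left (c2 (l + k)))
  have c4 : ∀ l m, l < m → ¬ big (insert (X m) F) (X l) := by
    intro l m hlm h1
    obtain ⟨k, rfl⟩ := Nat.exists_eq_add_of_le (Nat.succ_le_of_lt hlm)
    exact c2 l (c3 (l + 1) k _ h1)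
  obtain ⟨u, hu, hext⟩ := hE L U hC (Fin 2) F (fun l k => X (2 * l + k)) hF.countable
  have hq : ∀ q, Sq L F ![x, x'] (u q) := by
    intro q E hE'
    obtain ⟨j, -, hj⟩ := hext 1 (fun _ => q) (Subsingleton.strictMono _) _ (fe_sub hE' (fun k : Fin 2 => ((0 : Fin 1), k)))
    have h1 := hX (2 * j 0) E hE'
    refine hE'.eqv.trans h1 (hE'.eqv.symm ?_)
    refine (iff_of_eq ?_).1 hj
    congr 1
    funext i
    fin_cases i <;> rfl
  have hbig : ∀ q, big (insert (u q 0) F) (u q 1) := fun q =>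
    nn_pair hB hAF hF (sq_congr (hq q) rfl (by
      funext i
      fin_cases i <;> rfl)) h
  have huP : ∀ q, u q 0 ∈ Pc L F z ∧ u q 1 ∈ Pc L F z := fun q => inP _ _ (sq_congr (hq q) rfl (by
    funext i
    fin_cases i <;> rfl))
  -- the point `u p κ` is not in `e(u q 0)`
  have key : ∀ (p q : ℚ) (κ : Fin 2), p < q → ¬ big (insert (u q 0) F) (u p κ) := by
    intro p q κ hpq h1
    have hκ : u p κ ∈ Pc L F z := by
      fin_cases κ
      · exact (huP p).1
      · exact (huP p).2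
    have e : ∀ a : U, insert a F = F ∪ range (s1 a) := by
      intro a
      ext v
      constructor
      · rintro (rfl | hv)
        · exact Or.inr ⟨0, rfl⟩
        · exact Or.inl hv
      · rintro (hv | ⟨i, rfl⟩)
        · exact Or.inr hv
        · exact Or.inl rfl
    have hqf : A₀ ⊆ insert (u q 0) F := hAF.trans (subset_insert _ _)
    have h2 : u p κ ∈ Pc L (insert (u q 0) F) (u q 1) := nn_uniq hM hC hB hAF hF (huP q).2 hκ (hbig q) h1
    have h3 : ¬ Edd L (insert (u q 0) F) (u q 1) := fun h4 => hB.b1 _ _ hqf (hF.insert _) h4 (hbig q)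
    rw [e] at h2 h3
    obtain ⟨E, hE', hE''⟩ := hO L U hC (Fin 1) F (s1 (u q 0)) (u p κ) (u q 1) hF h3 h2
    obtain ⟨j, hj, hj'⟩ := hext 2 ![p, q] (by
      intro a b hab
      fin_cases a <;> fin_cases b
      · exact absurd hab (lt_irrefl _)
      · exact hpq
      · exact absurd hab (by decide)
      · exact absurd hab (lt_irrefl _)) _
      (fe_sub hE' (Sum.elim (fun _ => ((0 : Fin 2), κ)) (Sum.elim (fun _ => ((1 : Fin 2), (0 : Fin 2)))
        (fun _ => ((1 : Fin 2), (1 : Fin 2))))))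
    have hlt : j 0 < j 1 := hj (by decide)
    have h5 := hE'' (s1 (X (2 * j 1))) (X (2 * j 0 + κ)) (X (2 * j 1 + 1)) (by
      have h6 := sq_trans (sq_symm (hq q)) (hX (2 * j 1))
      have h7 := sq_sub h6 (Sum.elim (fun _ => 0) (fun _ => 1) : Fin 1 ⊕ Fin 1 → Fin 2)
      refine sq_congr h7 ?_ ?_
      · funext i
        rcases i with i | i <;> rfl
      · funext i
        rcases i with i | i <;> rfl) (by
      refine hE'.eqv.symm ((iff_of_eq ?_).1 hj')
      congr 1
      · funext i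
        rcases i with i | i | i <;> rfl
      · funext i
        rcases i with i | i | i <;> rfl)
    rw [← e] at h5
    have h8 : A₀ ⊆ insert (X (2 * j 1)) F := hAF.trans (subset_insert _ _)
    refine c4 (2 * j 0 + κ) (2 * j 1) ?_ (hB.pc _ _ _ h8 (hF.insert _) h5 (c1 _))
    have := κ.2
    omega
  refine ⟨u, hu, hq, fun p q hpq => ?_, fun p q hpq => ⟨key p q 0 hpq, key p q 1 hpq⟩⟩
  exact (nn_law hK hC hB hAF hF (u q 0) (u p 0) (u p 1) (hbig p)).resolve_right (key p q 1 hpq)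

/-- the core: no proper nesting -/
theorem nn_core (hM : St_M1T) (hK : St_CAL) (hN : St_NP) (hO : St_OPD) (hE : St_EXT) (hC : Cz L U) (hB : Bg L A₀ big)
    {F : Set U} (hAF : A₀ ⊆ F) (hF : F.Finite) {z x x' : U} (hx : x ∈ Pc L F z) (hx' : x' ∈ Pc L F z)
    (hs : Sq L F (s1 x) (s1 x')) (h : big (insert x F) x') : big (insert x' F) x := by
  by_contra h'
  obtain ⟨u, hu, hq, h1, h2⟩ := nn_seq hM hK hO hE hC hB hAF hF hx hx' hs h h'
  have hbig : ∀ q, big (insert (u q 0) F) (u q 1) := fun q =>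
    nn_pair hB hAF hF (sq_congr (hq q) rfl (by
      funext i
      fin_cases i <;> rfl)) h
  have huP : ∀ q, u q 0 ∈ Pc L F z ∧ u q 1 ∈ Pc L F z := fun q =>
    ⟨(bf_inv1 (pc_bf hC z) (sq_sub (hq q) (fun _ => 0))).1 hx, (bf_inv1 (pc_bf hC z) (sq_sub (hq q) (fun _ => 1))).1 hx'⟩
  refine hN L U hC A₀ big hB (Fin 2) F u 0 1 hAF hF hu (Or.inl fun p q hpq => ⟨fun h3 => ?_, fun h3 => ?_⟩) (hbig 0)
  · rcases lt_or_gt_of_ne hpq with h4 | h4
    · exact h4
    · exact absurd (hB.pc _ _ _ (hAF.trans (subset_insert _ _)) (hF.insert _) h3 (hbig p)) (h2 q p h4).1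
  · exact nn_uniq hM hC hB hAF hF (huP p).2 (huP q).1 (hbig p) (h1 p q h3)

end

theorem thm_NN (hM : St_M1T) (hK : St_CAL) (hN : St_NP) (hO : St_OPD) (hE : St_EXT) (hS : St_IDS) (hD : St_IDB) :
    St_NN := by
  intro L U _ hC A₀ big hB F z x x' y y' hAF hF hx hx' hs hy hy' h h'
  have hyy : y' ∈ Pc L F y := by
    rw [pc_eq hC hF.countable hy]
    exact hy'
  have g : A₀ ⊆ insert x F := hAF.trans (subset_insert _ _)
  have g' : A₀ ⊆ insert x' F := hAF.trans (subset_insert _ _)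
  by_cases h1 : x' ∈ Pc L (insert x F) y
  · right
    refine ⟨h1, ?_⟩
    have h2 := hB.pc _ _ _ g (hF.insert _) h1 h
    have h3 := nn_core hM hK hN hO hE hC hB hAF hF hx hx' hs h2
    exact nn_uniq hM hC hB hAF hF hy' hx h' h3
  · by_cases h2 : x ∈ Pc L (insert x' F) y'
    · exfalso
      have h3 := hB.pc _ _ _ g' (hF.insert _) h2 h'
      have h4 := nn_core hM hK hN hO hE hC hB hAF hF hx' hx (sq_symm hs) h3
      exact h1 (nn_uniq hM hC hB hAF hF hy hx' h h4)
    · left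
      exact (hK L U hC A₀ big hB).2.2.1 F x x' y y' hAF hF hyy h h' h1 h2

end Pool.Agent.TPY
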