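import Pool.Agent.TPY.StM1

/-!
# TPY: the pieces of a nested indiscernible sequence are not big (assembly)
-/

set_option autoImplicit false
set_option linter.unusedVariables false

namespace Pool.Agent.TPY

open FirstOrder.Language Set
open scoped FirstOrder
open Pool.Agent.MNO (Dp FE Sq Exa)

private theorem np_up (hNPN : St_NPN) (hNPE : St_NPE) {L : FirstOrder.Language.{0, 0}} {U : Type} [L.Structure U]
    (hC : Cz L U) {A₀ : Set U} {big : Set U → U → Prop} (hB : Bg L A₀ big) {β : Type} [Finite β] {F : Set U}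
    {u : ℚ → β → U} {a b : β} (h0 : A₀ ⊆ F) (hF : F.Finite) (hN : Nst L F u a b) :
    ¬ big (insert (u 0 a) F) (u 0 b) := by
  intro hb
  have hc : ∀ x : U, (insert x F).Countable := fun x => (hF.insert x).countable
  have hm : ∀ q : ℚ, 0 < q → u q a ∈ Pc L (insert (u 0 a) F) (u 0 b) := fun q hq =>
    (hN.2 0 q hq.ne).2 hq
  have hx : u 0 a ∉ Pc L (insert (u (1 / 2) a) F) (u (3 / 4) a) := by
    have h1 : u (3 / 4) a ∈ Pc L (insert (u (1 / 2) a) F) (u (1 / 2) b) :=
      (hN.2 (1 / 2) (3 / 4) (by norm_num)).2 (by norm_num)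
    rw [pc_eq hC (hc _) h1]
    intro h2
    have h3 := (hN.2 (1 / 2) 0 (by norm_num)).1 h2
    norm_num at h3
  refine hB.b1 _ _ (h0.trans (subset_insert _ _)) (hF.insert _) ?_ hb
  exact hNPE L U hC F (u 0 a) (u 0 b) (u (1 / 4) a) (u (1 / 2) a) (u (3 / 4) a) hF
    (hB.b0 _ _ (h0.trans (subset_insert _ _)) (hF.insert _) hb) (hm _ (by norm_num)) (hm _ (by norm_num)) hx
    (hNPN L U hC A₀ big hB β F u a b h0 hF hN hb)

theorem thm_NP (hNPN : St_NPN) (hNPE : St_NPE) (hIDB : St_IDB) : St_NP := by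
  intro L U _ hC A₀ big hB β _ F u a b h0 hF hI h
  rcases h with h | h
  · exact np_up hNPN hNPE hC hB h0 hF ⟨hI, h⟩
  · have h1 : Idc L F (fun q => u (-q)) := (hIDB L U β F u hI).2.1
    have h2 := np_up hNPN hNPE hC hB (u := fun q => u (-q)) (a := a) (b := b) h0 hF ⟨h1, fun p q hpq => by
      have h3 := h (-p) (-q) (fun h4 => hpq (neg_injective h4))
      rw [neg_lt_neg_iff] at h3
      exact h3⟩
    simp only [neg_zero] at h2
    exact h2

end Pool.Agent.TPY
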