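import Pool.Agent.TPY.StM1

/-!
# TPY [NPA]: (N) (i), for a nested sequence with big pieces
-/

set_option autoImplicit false
set_option linter.unusedVariables false

namespace Pool.Agent.TPY

open FirstOrder.Language Set
open scoped FirstOrder
open Pool.Agent.MNO

/-- [NPA] (N) (i), for a nested sequence with big pieces -/
theorem thm_NPA (hCOV : St_COV) (hIDS : St_IDS) : St_NPA := by
  intro L U _ hC A₀ big hB β _ F u a b h0 hF hN hb
  obtain ⟨hI, hN2⟩ := hN
  have hI' := hIDS L U hC β F u hI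
  have hA : ∀ q, big (insert (u q a) F) (u q b) ∧ u q b ∉ insert (u q a) F := by
    intro q
    have h1 : Sq L F (u 0) (u q) :=
      ids_ot hI' (κ := β) (fun _ => 0) (fun _ => q) id (fun _ _ => by simp)
    have h2 := big_sq hB h0 hF h1 a b hb
    exact ⟨h2, hB.b0 _ _ (h0.trans (subset_insert _ _)) (hF.insert _) h2⟩
  have hst : ∀ p q, p < q → Pc L (insert (u p a) (insert (u q a) F)) (u q b) =
      Pc L (insert (u q a) F) (u q b) := by
    intro p q hpq
    refine nnl1 hC (hF.insert _) (hA q).2 ?_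
    rw [hN2 q p hpq.ne']
    exact not_lt.2 hpq.le
  have hmid : ∀ p q, p < q → Pc L (insert (u p a) F) (u q b) =
      Pc L (insert (u p a) F) (u p b) ∧
      Pc L (insert (u q a) F) (u q b) ⊆ Pc L (insert (u p a) F) (u q b) := by
    intro p q hpq
    have h1 : Pc L (insert (u q a) F) (u q b) ⊆ Pc L (insert (u p a) F) (u q b) := by
      rw [← hst p q hpq]
      exact pc_mono hC ((hF.insert _).insert _) (insert_subset_insert (subset_insert _ _)) _
    obtain ⟨r, hr⟩ : ∃ r : ℚ, q < r := ⟨q + 1, by linarith⟩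
    have h2 : u r a ∈ Pc L (insert (u q a) F) (u q b) := (hN2 q r hr.ne).2 hr
    have h3 : u r a ∈ Pc L (insert (u p a) F) (u p b) :=
      (hN2 p r (hpq.trans hr).ne).2 (hpq.trans hr)
    exact ⟨pc_disj hC (hF.insert _).countable (h1 h2) h3, h1⟩
  refine ⟨hA, fun p q hpq => ?_, fun v hv => ?_⟩
  · rw [← (hmid p q hpq).1]
    exact (hmid p q hpq).2
  · have h01 : (0 : ℚ) < 1 := by norm_num
    have hG : big (insert (u 1 a) (insert (u 0 a) F)) (u 1 b) := by
      rw [insert_comm]
      refine hB.b5 (insert (u 1 a) F) _ _ (h0.trans (subset_insert _ _)) (subset_insert _ _)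
        ((hF.insert _).insert _) ?_ (hA 1).1
      rintro w (rfl | hw)
      · rw [hN2 1 0 h01.ne']
        exact not_lt.2 h01.le
      · exact par_notMem hC (hF.insert _).countable hw (hA 1).2
    have hv' : v ∈ Pc L (insert (u 0 a) F) (u 1 b) := by
      rw [(hmid 0 1 h01).1]
      exact hv
    obtain ⟨o', ho1, ho2⟩ := hCOV L U hC A₀ big hB (insert (u 0 a) F)
      (insert (u 1 a) (insert (u 0 a) F)) (u 1 b) v (h0.trans (subset_insert _ _))
      (subset_insert _ _) ((hF.insert _).insert _) hG hv'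
    have ho3 : o' ∈ Pc L (insert (u 1 a) F) (u 1 b) := by
      refine pc_mono hC ((hF.insert _).insert _) ?_ _ ho2
      exact insert_subset_insert (subset_insert _ _)
    obtain ⟨c', hc'⟩ := sq_ext hC (hF.insert _).countable (sq_symm ho1) ![u 1 a, u 1 b]
    refine ⟨c' 0, c' 1, ?_, ?_⟩
    · refine sq_congr (sq_sub hc' Sum.inr) rfl ?_
      funext i
      fin_cases i <;> rfl
    · have h1 : Tq L F (Sum.elim (s1 o') ![u 1 a, u 1 b]) (Sum.elim (s1 v) c') :=
        tq_of_sq (sq_mono (subset_insert _ _) hc')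
      exact pcs_tq hC hF.countable h1 (Sum.inr 0) (Sum.inr 1) (Sum.inl 0) ho3

end Pool.Agent.TPY
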