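import Pool.Agent.TPY.StM1

/-!
# TPY, NPB: (N) (ii), the induction (helper14)
-/

set_option autoImplicit false
set_option linter.unusedVariables false

namespace Pool.Agent.TPY

open FirstOrder.Language Set
open scoped FirstOrder
open Pool.Agent.MNO

theorem thm_NPB (hNPA : St_NPA) (hNPM : St_NPM) : St_NPB := by
  intro L U _ hC A₀ big hB β _ F u a b h0 hF hN hbig
  obtain ⟨hP1, -, hP3⟩ := hNPA L U hC A₀ big hB β F u a b h0 hF hN hbig
  -- `x_0` is not in `insert x_1 F`
  have hne : u 0 a ≠ u 1 a := by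
    intro e
    have h1 := (hN.2 0 1 (by norm_num)).2 (by norm_num)
    rw [← e] at h1
    exact par_notMem hC (hF.insert _).countable (mem_insert _ _) (hP1 0).2 h1
  have hx01 : u 0 a ∉ insert (u 1 a) F := by
    rintro (h1 | h1)
    · exact hne h1
    · have h2 := idc_ot hN.1 (κ := Unit) (fun _ => 0) (fun _ => 1) (fun _ => a) (fun k l => by simp)
      exact hne (tq_par h2 () h1).symm
  -- the first fact on all pairs `(z, f)`
  have hx : ∀ z f : U, Sq L (insert (u 0 a) F) ![u 1 a, u 1 b] ![z, f] → u 0 a ∉ Pc L (insert z F) f := by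
    intro z f hz hcon
    have h1 : Tq L F (Sum.elim ![z, f] (s1 (u 0 a))) (Sum.elim ![u 1 a, u 1 b] (s1 (u 0 a))) :=
      tq_symm (tq_of_sq (sq_mono (subset_insert _ _) (sq_add hz (s1 (u 0 a)) fun i => mem_insert _ _)))
    have h2 := pcs_tq hC hF.countable h1 (Sum.inl 0) (Sum.inl 1) (Sum.inr 0) hcon
    have h3 := (hN.2 1 0 (by norm_num)).1 h2
    norm_num at h3
  have hx' : ∀ z f : U, Sq L (insert (u 0 a) F) ![u 1 a, u 1 b] ![z, f] → u 0 a ∉ insert z F := by
    intro z f hz hcon
    have h1 : Tq L F (Sum.elim ![z, f] (s1 (u 0 a))) (Sum.elim ![u 1 a, u 1 b] (s1 (u 0 a))) :=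
      tq_symm (tq_of_sq (sq_mono (subset_insert _ _) (sq_add hz (s1 (u 0 a)) fun i => mem_insert _ _)))
    exact hx01 ((ins_tq h1 (Sum.inl 0) (Sum.inr 0)).1 hcon)
  intro n
  induction n with
  | zero => exact fun c _ => ⟨u 1 a, u 1 b, sq_refl _ _, fun i => i.elim0⟩
  | succ n ih =>
    intro c hc
    obtain ⟨z, f, hz, hzc⟩ := ih (fun i => c i.castSucc) (fun i => hc _)
    by_cases hcn : c (Fin.last n) ∈ Pc L (insert z F) (u 0 a)
    swap
    · refine ⟨z, f, hz, fun i => ?_⟩
      refine Fin.lastCases ?_ (fun j => ?_) i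
      · exact hcn
      · exact hzc j
    obtain ⟨z', f', hz', hcz'⟩ := hP3 (c (Fin.last n)) (hc _)
    have hG : ∀ z : U, (insert z F).Countable := fun z => (hF.insert z).countable
    -- a point of `T(z)` is not in `H(z)`
    have hdj : ∀ z f : U, Sq L (insert (u 0 a) F) ![u 1 a, u 1 b] ![z, f] → ∀ v ∈ Pc L (insert z F) (u 0 a),
        v ∉ Pc L (insert z F) f := by
      intro z f hz v hv hv'
      refine hx z f hz ?_
      rw [pc_disj hC (hG z) hv' hv]
      exact mem_pc _
    have hcn' : c (Fin.last n) ∉ Pc L (insert z' F) (u 0 a) := fun h => hdj z' f' hz' _ h hcz'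
    by_cases h1 : z ∈ Pc L (insert z' F) (u 0 a)
    · by_cases h2 : z' ∈ Pc L (insert z F) (u 0 a)
      · exfalso
        have h3 := hNPM L U hC A₀ big hB β F u a b h0 hF hN hbig z f z' f' hz hz' (hdj z f hz _ h2)
          (hdj z' f' hz' _ h1)
        refine hdj z f hz _ hcn ?_
        rw [h3]
        exact hcz'
      · exfalso
        refine hcn' ?_
        have h3 : Pc L (insert z' (insert z F)) (u 0 a) = Pc L (insert z F) (u 0 a) := 
          nnl1 hC (hF.insert z) (hx' z f hz) h2
        rw [← h3] at hcn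
        refine pc_mono hC ((hF.insert z).insert z') ?_ _ hcn
        exact insert_subset_insert (subset_insert _ _)
    · refine ⟨z', f', hz', fun i => ?_⟩
      refine Fin.lastCases ?_ (fun j => ?_) i
      · exact hcn'
      · intro hj
        have h3 : Pc L (insert z (insert z' F)) (u 0 a) = Pc L (insert z' F) (u 0 a) := 
          nnl1 hC (hF.insert z') (hx' z' f' hz') h1
        rw [← h3] at hj
        refine hzc j (pc_mono hC ((hF.insert z').insert z) ?_ _ hj)
        exact insert_subset_insert (subset_insert _ _)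

end Pool.Agent.TPY
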