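import Pool.Agent.TPY.StM1

/-!
# TPY, module NPM (helper45): the mutual case of (N)
-/

set_option autoImplicit false
set_option linter.unusedVariables false

namespace Pool.Agent.TPY

open FirstOrder.Language Set
open scoped FirstOrder
open Pool.Agent.MNO

theorem thm_NPM (hNPA : St_NPA) (hPRV : St_PRV) (hHNG : St_HNG) : St_NPM := by
  intro L U _ hC A₀ big hB β _ F u a b h0 hF hN hb z f z' f' h1 h2 hz' hz
  by_contra hne
  obtain ⟨hA1, hA2, -⟩ := hNPA L U hC A₀ big hB β F u a b h0 hF hN hb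
  have hFc : F.Countable := hF.countable
  have hGf : (insert (u 0 a) F).Finite := hF.insert _
  -- conjugate `(z, f)` to `(x_1, d_1)`
  obtain ⟨c, hc⟩ := sq_ext hC hGf.countable (sq_symm h1) ![z', f']
  have hx0 : ∀ i : Fin 1, s1 (u 0 a) i ∈ insert (u 0 a) F := fun _ => Or.inl rfl
  have h3 := sq_mono (subset_insert (u 0 a) F) (sq_add hc (s1 (u 0 a)) hx0)
  have h4 : Sq L (insert (u 0 a) F) ![u 1 a, u 1 b] c := sq_trans h2 (sq_right hc)
  have h5 := sq_mono (subset_insert (u 0 a) F) (sq_add h4 (s1 (u 0 a)) hx0)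
  have t3 := tq_of_sq h3
  have t5 := tq_of_sq h5
  have f1 : c 0 ∉ Pc L (insert (u 1 a) F) (u 1 b) := fun h => hz'
    ((pcs_iff hC hFc t3 (Sum.inl (Sum.inl 0)) (Sum.inl (Sum.inl 1)) (Sum.inl (Sum.inr 0))).2 h)
  have f2 : u 1 a ∉ Pc L (insert (c 0) F) (c 1) := fun h => hz
    ((pcs_iff hC hFc t3 (Sum.inl (Sum.inr 0)) (Sum.inl (Sum.inr 1)) (Sum.inl (Sum.inl 0))).2 h)
  have f3 : Pc L (insert (u 1 a) F) (u 1 b) ≠ Pc L (insert (c 0) F) (c 1) := fun h => hne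
    (pcs_eq hC hFc (tq_symm t3) (Sum.inl (Sum.inl 0)) (Sum.inl (Sum.inl 1)) (Sum.inl (Sum.inr 0))
      (Sum.inl (Sum.inr 1)) h)
  -- `H_0`
  have hd1 : u 1 b ∈ Pc L (insert (u 0 a) F) (u 0 b) := hA2 0 1 zero_lt_one (mem_pc _)
  have hH0 : Pc L (insert (u 0 a) F) (u 1 b) = Pc L (insert (u 0 a) F) (u 0 b) :=
    pc_eq hC hGf.countable hd1
  have hf2 : c 1 ∈ Pc L (insert (u 0 a) F) (u 1 b) := pc_sq hC (sq_s1 h4 1)
  have hH0' : Pc L (insert (u 0 a) F) (c 1) = Pc L (insert (u 0 a) F) (u 0 b) :=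
    (pc_eq hC hGf.countable hf2).trans hH0
  have hx1 : u 1 a ∈ Pc L (insert (u 0 a) F) (u 1 b) := by
    rw [hH0]
    exact (hN.2 0 1 zero_ne_one).2 zero_lt_one
  have f4 : c 0 ∈ Pc L (insert (u 0 a) F) (u 0 b) := by
    rw [← hH0']
    exact (pcs_iff hC hFc t5 (Sum.inr 0) (Sum.inl 1) (Sum.inl 0)).1 hx1
  have f5 : Pc L (insert (c 0) F) (c 1) ⊆ Pc L (insert (u 0 a) F) (u 0 b) := by
    rw [← hH0']
    refine pcs_le hC hFc t5 (Sum.inl 0) (Sum.inl 1) (Sum.inr 0) (Sum.inl 1) ?_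
    show Pc L (insert (u 1 a) F) (u 1 b) ⊆ Pc L (insert (u 0 a) F) (u 1 b)
    rw [hH0]
    exact hA2 0 1 zero_lt_one
  have f6 : c 1 ∉ insert (c 0) F := fun h => (hA1 1).2
    ((ins_tq t5 (Sum.inl 0) (Sum.inl 1)).2 h)
  -- disjoint
  have g1 := nnl1 hC (hF.insert (u 1 a)) (hA1 1).2 f1
  have g2 := nnl1 hC (hF.insert (c 0)) f6 f2
  have f7 : ∀ v ∈ Pc L (insert (c 0) F) (c 1), v ∉ Pc L (insert (u 1 a) F) (u 1 b) := by
    rcases pc_two hC (G := insert (c 0) (insert (u 1 a) F)) ((hF.insert _).insert _).countable (c 1) (u 1 b)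
      with h | h
    · exfalso
      rw [g1, Set.insert_comm, g2] at h
      exact f3 h.symm
    · rw [g1, Set.insert_comm, g2] at h
      exact h
  -- hanging
  have hp : StrictMono (![0, 1] : Fin 2 → ℚ) := by
    intro i j hij
    fin_cases i <;> fin_cases j
    · exact absurd hij (lt_irrefl _)
    · exact zero_lt_one
    · exact absurd hij (by decide)
    · exact absurd hij (lt_irrefl _)
  obtain ⟨v, hv1, hv2, hv3⟩ := hHNG L U hC β (Fin 2) F u hF hN.1 2 ![0, 1] c hp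
  have k1 : ∀ p q, p < q → Pc L (insert (v q (Sum.inl (0, a))) F) (v q (Sum.inl (0, b))) ⊆
      Pc L (insert (v p (Sum.inl (1, a))) F) (v p (Sum.inl (1, b))) := by
    intro p q hpq
    have hi : StrictMono (![p, q] : Fin 2 → ℚ) := by
      intro i j hij
      fin_cases i <;> fin_cases j
      · exact absurd hij (lt_irrefl _)
      · exact hpq
      · exact absurd hij (by decide)
      · exact absurd hij (lt_irrefl _)
    have h6 := hv3 2 ![p, q] (fun n => (n : ℚ)) hi (fun m n hmn => Nat.cast_lt.2 hmn)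
    refine pcs_le hC hFc (tq_of_sq (sq_symm h6)) (1, (0, a)) (1, (0, b)) (0, (1, a)) (0, (1, b)) ?_
    show Pc L (insert (u ((2 * 1 + 0 : ℕ) : ℚ) a) F) (u ((2 * 1 + 0 : ℕ) : ℚ) b) ⊆
      Pc L (insert (u ((2 * 0 + 1 : ℕ) : ℚ) a) F) (u ((2 * 0 + 1 : ℕ) : ℚ) b)
    exact hA2 _ _ (by norm_num)
  have k2 : ∀ q, Pc L (insert (v q (Sum.inr 0)) F) (v q (Sum.inr 1)) ⊆
      Pc L (insert (v q (Sum.inl (0, a))) F) (v q (Sum.inl (0, b))) := fun q =>
    pcs_le hC hFc (tq_of_sq (hv2 q)) (Sum.inr 0) (Sum.inr 1) (Sum.inl (0, a)) (Sum.inl (0, b)) f5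
  have k3 : ∀ q, ∀ w ∈ Pc L (insert (v q (Sum.inr 0)) F) (v q (Sum.inr 1)),
      w ∉ Pc L (insert (v q (Sum.inl (1, a))) F) (v q (Sum.inl (1, b))) := fun q =>
    pcs_dj hC hFc (tq_of_sq (hv2 q)) (Sum.inr 0) (Sum.inr 1) (Sum.inl (1, a)) (Sum.inl (1, b)) f7
  have k4 : ∀ q, v q (Sum.inr 0) ∈ Pc L (insert (v q (Sum.inl (0, a))) F) (v q (Sum.inl (0, b))) := fun q =>
    pcs_tq hC hFc (tq_of_sq (hv2 q)) (Sum.inl (0, a)) (Sum.inl (0, b)) (Sum.inr 0) f4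
  have k5 : ∀ q, v q (Sum.inr 0) ∉ Pc L (insert (v q (Sum.inl (1, a))) F) (v q (Sum.inl (1, b))) := fun q h =>
    f1 ((pcs_iff hC hFc (tq_of_sq (hv2 q)) (Sum.inl (1, a)) (Sum.inl (1, b)) (Sum.inr 0)).2 h)
  refine hPRV L U hC A₀ big hB _ F v (Sum.inr 0) (Sum.inr 1) h0 hF hv1 ?_ ?_ ?_
  · intro p q hpq h
    rcases lt_or_gt_of_ne hpq with h6 | h6
    · exact k5 p (k1 p q h6 (k2 q h))
    · exact k3 q _ h (k1 q p h6 (k4 p))
  · have key : ∀ p q, p < q → Pc L (insert (v p (Sum.inr 0)) F) (v p (Sum.inr 1)) ≠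
        Pc L (insert (v q (Sum.inr 0)) F) (v q (Sum.inr 1)) := by
      intro p q hpq h
      have h6 : v q (Sum.inr 1) ∈ Pc L (insert (v q (Sum.inr 0)) F) (v q (Sum.inr 1)) := mem_pc _
      have h7 := h6
      rw [← h] at h7
      exact k3 p _ h7 (k1 p q hpq (k2 q h6))
    intro p q hpq
    rcases lt_or_gt_of_ne hpq with h6 | h6
    · exact key p q h6
    · exact (key q p h6).symm
  · have h6 : big (insert (u 1 a) F) (u 1 b) := (hA1 1).1
    have h7 : big (insert (c 0) F) (c 1) := big_sq hB h0 hF (s := ![u 1 a, u 1 b]) (t := c)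
      (sq_mono (subset_insert _ _) h4) 0 1 h6
    exact big_sq hB h0 hF (hv2 0) (Sum.inr 0) (Sum.inr 1) h7

end Pool.Agent.TPY
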