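import Pool.Agent.TPY.StM1

/-!
# TPY [NPN]: near elements
-/

set_option autoImplicit false
set_option linter.unusedVariables false

namespace Pool.Agent.TPY

open FirstOrder.Language Set
open scoped FirstOrder
open Pool.Agent.MNO

/-- a strictly monotone map with values below `1` which fixes the indices up to `3 / 4` -/
theorem npn_f : ∃ f : ℚ → ℚ, StrictMono f ∧ (∀ q, f q < 1) ∧ ∀ q ≤ 3 / 4, f q = q := by
  refine ⟨fun q => if q ≤ 3 / 4 then q else 1 - 1 / (16 * q - 8), ?_, ?_, ?_⟩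
  · intro p q hpq
    show (if p ≤ 3 / 4 then p else 1 - 1 / (16 * p - 8)) < if q ≤ 3 / 4 then q else 1 - 1 / (16 * q - 8)
    by_cases hq : q ≤ 3 / 4
    · rw [if_pos hq, if_pos (hpq.le.trans hq)]
      exact hpq
    · have h1 : (4 : ℚ) < 16 * q - 8 := by
        push Not at hq
        linarith
      rw [if_neg hq]
      by_cases hp : p ≤ 3 / 4
      · rw [if_pos hp]
        have h2 : 1 / (16 * q - 8) < 1 / 4 := one_div_lt_one_div_of_lt (by norm_num) h1
        linarith
      · rw [if_neg hp]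
        push Not at hp
        have h2 : 1 / (16 * q - 8) < 1 / (16 * p - 8) := one_div_lt_one_div_of_lt (by linarith) (by linarith)
        linarith
  · intro q
    show (if q ≤ 3 / 4 then q else 1 - 1 / (16 * q - 8)) < 1
    by_cases hq : q ≤ 3 / 4
    · rw [if_pos hq]
      linarith
    · rw [if_neg hq]
      push Not at hq
      have h2 : 0 < 1 / (16 * q - 8) := by
        apply one_div_pos.2
        linarith
      linarith
  · intro q hq
    exact if_pos hq

/-- [NPN] near elements -/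
theorem thm_NPN (hNPB : St_NPB) (hIDB : St_IDB) (hIDS : St_IDS) : St_NPN := by
  intro L U _ hC A₀ big hB β _ F u a b h0 hF hN hb n c hc
  obtain ⟨z, f, hzf, hcz⟩ := hNPB L U hC A₀ big hB β F u a b h0 hF hN hb n c hc
  have hFc : F.Countable := hF.countable
  obtain ⟨y, hy⟩ := sq_ext hC (hFc.insert (u 0 a)) hzf ![u (1 / 4) a, u (1 / 2) a, u (3 / 4) a]
  -- over `F`, with `x_0`
  have hy' : Sq L F (Sum.elim (Sum.elim ![u 1 a, u 1 b] ![u (1 / 4) a, u (1 / 2) a, u (3 / 4) a]) (s1 (u 0 a)))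
      (Sum.elim (Sum.elim ![z, f] y) (s1 (u 0 a))) :=
    sq_mono (subset_insert _ _) (sq_add hy (s1 (u 0 a)) fun _ => mem_insert _ _)
  -- left of `1`
  obtain ⟨φ, hφ, hφ1, hφ2⟩ := npn_f
  have hv := (hIDB L U β F u hN.1).1 {1} φ hφ (fun s hs => Or.inl fun q => by
    rw [mem_singleton_iff.1 hs]
    exact hφ1 q)
  have hI := hIDS L U hC β _ _ hv
  have hsub : F ∪ range (s1 (u 1 a)) ⊆ F ∪ Tm u {1} := by
    refine union_subset_union_right F ?_
    rintro _ ⟨_, rfl⟩
    exact ⟨1, mem_singleton _, a, rfl⟩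
  have e0 : φ 0 = 0 := hφ2 0 (by norm_num)
  have e1 : φ (1 / 4) = 1 / 4 := hφ2 _ (by norm_num)
  have e2 : φ (1 / 2) = 1 / 2 := hφ2 _ (by norm_num)
  have e3 : φ (3 / 4) = 3 / 4 := hφ2 _ (by norm_num)
  have s1' : Sq L (F ∪ range (s1 (u 1 a))) ![u 0 a, u (1 / 4) a] ![u (1 / 2) a, u (3 / 4) a] := by
    have h1 := ids_ot hI (κ := Fin 2) ![0, 1 / 4] ![1 / 2, 3 / 4] (fun _ => a) (by
      intro k l
      fin_cases k <;> fin_cases l <;> simp <;> norm_num)
    refine sq_mono hsub (sq_congr h1 ?_ ?_)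
    · funext k
      fin_cases k
      · show u 0 a = u (φ 0) a
        rw [e0]
      · show u (1 / 4) a = u (φ (1 / 4)) a
        rw [e1]
    · funext k
      fin_cases k
      · show u (1 / 2) a = u (φ (1 / 2)) a
        rw [e2]
      · show u (3 / 4) a = u (φ (3 / 4)) a
        rw [e3]
  have s2' : Sq L (F ∪ range (s1 (u 1 a))) ![u 0 a] ![u (1 / 4) a] := by
    have h1 := ids_ot hI (κ := Fin 1) ![0] ![1 / 4] (fun _ => a) (by
      intro k l
      fin_cases k
      fin_cases l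
      simp)
    refine sq_mono hsub (sq_congr h1 ?_ ?_)
    · funext k
      fin_cases k
      show u 0 a = u (φ 0) a
      rw [e0]
    · funext k
      fin_cases k
      show u (1 / 4) a = u (φ (1 / 4)) a
      rw [e1]
  -- transport to `z`
  have t1 : Sq L (F ∪ range (s1 z)) ![u 0 a, y 0] ![y 1, y 2] := by
    refine sq_tq (x := ![u 0 a, u (1 / 4) a]) (y := ![u (1 / 2) a, u (3 / 4) a]) (c := s1 (u 1 a)) ?_ s1'
    have h1 := sq_sub hy' (Sum.elim (Sum.elim ![Sum.inr 0, Sum.inl (Sum.inr 0)]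
      ![Sum.inl (Sum.inr 1), Sum.inl (Sum.inr 2)]) (fun _ => Sum.inl (Sum.inl 0)) :
        (Fin 2 ⊕ Fin 2) ⊕ Fin 1 → (Fin 2 ⊕ Fin 3) ⊕ Fin 1)
    refine tq_congr (tq_of_sq h1) ?_ ?_
    · funext i
      rcases i with (i | i) | i <;> fin_cases i <;> rfl
    · funext i
      rcases i with (i | i) | i <;> fin_cases i <;> rfl
  have t2 : Sq L (F ∪ range (s1 z)) ![u 0 a] ![y 0] := by
    refine sq_tq (x := ![u 0 a]) (y := ![u (1 / 4) a]) (c := s1 (u 1 a)) ?_ s2'
    have h1 := sq_sub hy' (Sum.elim (Sum.elim ![Sum.inr 0] ![Sum.inl (Sum.inr 0)])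
      (fun _ => Sum.inl (Sum.inl 0)) : (Fin 1 ⊕ Fin 1) ⊕ Fin 1 → (Fin 2 ⊕ Fin 3) ⊕ Fin 1)
    refine tq_congr (tq_of_sq h1) ?_ ?_
    · funext i
      rcases i with (i | i) | i <;> fin_cases i <;> rfl
    · funext i
      rcases i with (i | i) | i <;> fin_cases i <;> rfl
  rw [ins_eq] at t1 t2
  have p0 : u 0 a ∈ Pc L (insert z F) (u 0 a) := mem_pc _
  have p1 : y 0 ∈ Pc L (insert z F) (u 0 a) := pc_sq hC (sq_congr t2 (by
    funext i
    fin_cases i
    rfl) (by
    funext i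
    fin_cases i
    rfl))
  refine ⟨y 0, y 1, y 2, ?_, ?_⟩
  · refine sq_congr (sq_sub hy (Sum.inr : Fin 3 → Fin 2 ⊕ Fin 3)) rfl ?_
    funext i
    fin_cases i <;> rfl
  · have h1 : Sq L (insert z F ∪ range c) ![u 0 a, y 0] ![y 1, y 2] := by
      refine of_pc hC (hF.insert z) (x := u 0 a) ?_ t1 hcz
      intro i
      fin_cases i
      · exact p0
      · exact p1
    exact sq_mono (union_subset_union_left _ (subset_insert _ _)) h1

end Pool.Agent.TPY
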