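import Pool.Agent.TPY.StL
import Pool.Agent.TPY.Tqp

/-!
# TPY, OPD: openness of pieces which are not ended, uniformly on an orbit (helper14)
-/

set_option autoImplicit false
set_option linter.unusedVariables false

namespace Pool.Agent.TPY

open FirstOrder.Language Set
open scoped FirstOrder
open Pool.Agent.MNO

section

variable {L : FirstOrder.Language.{0, 0}} {U : Type} [L.Structure U]

theorem OPD_s1 (v : Fin 1 → U) : s1 (v 0) = v := by
  funext i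
  show v 0 = v i
  rw [Subsingleton.elim i 0]

/-- membership in the piece of `d` over `F`, `x` depends only on the type of `(w, x, d)` over `F` -/
theorem OPD_pc (hC : Cz L U) {F : Set U} (hF : F.Finite) {γ : Type} [Finite γ] {x x' : γ → U} {w w' d d' : U}
    (h : Tq L F (Sum.elim (s1 w) (Sum.elim x (s1 d))) (Sum.elim (s1 w') (Sum.elim x' (s1 d'))))
    (hw : w ∈ Pc L (F ∪ range x) d) : w' ∈ Pc L (F ∪ range x') d' := by
  refine pc_tq hC hF.countable (x := d) (y := w) (x' := d') (y' := w') ?_ hw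
  have h1 := tq_sub h (Sum.elim ![Sum.inr (Sum.inr 0), Sum.inl 0] (fun i => Sum.inr (Sum.inl i)) :
    Fin 2 ⊕ γ → Fin 1 ⊕ (γ ⊕ Fin 1))
  have e : ∀ (x : γ → U) (w d : U), (fun i => (Sum.elim (s1 w) (Sum.elim x (s1 d)) : Fin 1 ⊕ (γ ⊕ Fin 1) → U)
      ((Sum.elim ![Sum.inr (Sum.inr 0), Sum.inl 0] (fun i => Sum.inr (Sum.inl i)) :
      Fin 2 ⊕ γ → Fin 1 ⊕ (γ ⊕ Fin 1)) i)) = Sum.elim ![d, w] x := by
    intro x w d
    funext i
    rcases i with i | i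
    · fin_cases i <;> rfl
    · rfl
  rw [e, e] at h1
  exact h1

end

theorem thm_OPD (hULT : St_ULT) (hLIM : St_LIM) : St_OPD := by
  intro L U _ hC γ _ F x w d hF hne hw
  by_contra hcon
  push Not at hcon
  have hA : (F ∪ range x).Finite := hF.union (finite_range x)
  -- the counterexamples can be moved to `x`, `d`
  have h1 : ∀ E : (Fin 1 ⊕ (γ ⊕ Fin 1) → U) → (Fin 1 ⊕ (γ ⊕ Fin 1) → U) → Prop, FE L F E →
      ∃ v : Fin 1 → U, v 0 ∉ Pc L (F ∪ range x) d ∧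
        E (Sum.elim v (Sum.elim x (s1 d))) (Sum.elim (s1 w) (Sum.elim x (s1 d))) := by
    intro E hE
    obtain ⟨x', w', d', h2, h3, h4⟩ := hcon E hE
    obtain ⟨c, hc⟩ := sq_ext hC hF.countable (sq_symm h2) (s1 w')
    have h5 := sq_swap hc
    refine ⟨c, fun hcP => h4 ?_, hE.eqv.trans (hE.eqv.symm (h5 E hE)) h3⟩
    refine OPD_pc hC hF (w := c 0) (x := x) (d := d) ?_ hcP
    rw [OPD_s1]
    exact tq_symm (tq_of_sq h5)
  let ι : Type := {E : (Fin 1 ⊕ (γ ⊕ Fin 1) → U) → (Fin 1 ⊕ (γ ⊕ Fin 1) → U) → Prop // FE L F E}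
  let S : ι → Set (Fin 1 → U) := fun E => {v | v 0 ∉ Pc L (F ∪ range x) d ∧
        E.1 (Sum.elim v (Sum.elim x (s1 d))) (Sum.elim (s1 w) (Sum.elim x (s1 d)))}
  obtain ⟨r, hr, hr1, hr2⟩ := hULT L U (Fin 1) ι S ⟨⟨_, fe_top F⟩⟩ (fun E => h1 E.1 E.2) (by
    rintro ⟨E, hE⟩ ⟨E', hE'⟩
    exact ⟨⟨_, fe_inter hE hE'⟩, fun v hv => ⟨⟨hv.1, hv.2.1⟩, ⟨hv.1, hv.2.2⟩⟩⟩)
  -- a realisation of the limit over `F`, `x`, `d`
  have hG : ((F ∪ range x) ∪ range (s1 d)).Finite := hA.union (finite_range _)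
  obtain ⟨v, hv⟩ := gt_real hC hr hG.countable
  have hsq : Sq L F (Sum.elim (s1 w) (Sum.elim x (s1 d))) (Sum.elim v (Sum.elim x (s1 d))) := by
    intro E hE
    have h2 : FE L ((F ∪ range x) ∪ range (s1 d)) (fun y z : Fin 1 → U =>
        E (Sum.elim y (Sum.elim x (s1 d))) (Sum.elim z (Sum.elim x (s1 d)))) := by
      refine fe_add ⟨dp_mono (subset_union_left.trans subset_union_left) hE.dfn, hE.eqv, hE.fin⟩ ?_
      rintro (i | i)
      · exact Or.inl (Or.inr ⟨i, rfl⟩)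
      · exact Or.inr ⟨i, rfl⟩
    have h3 : r (fun y => E (Sum.elim y (Sum.elim x (s1 d))) (Sum.elim (s1 w) (Sum.elim x (s1 d)))) :=
      hr1 ⟨E, hE⟩ _ (dp_mono (subset_univ _) (fe_cls h2 (s1 w))) (fun y hy => hy.2)
    obtain ⟨y, hy, hy'⟩ := hr.ne _ (hr.and _ _ h3 (hv _ h2))
    exact hE.eqv.trans (hE.eqv.symm hy) hy'
  have hvP : v 0 ∈ Pc L (F ∪ range x) d := by
    refine OPD_pc hC hF (w := w) (x := x) (d := d) ?_ hw
    rw [OPD_s1]
    exact tq_of_sq hsq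
  have he : Pc L (F ∪ range x) (v 0) = Pc L (F ∪ range x) d := pc_eq hC hA.countable hvP
  -- the piece of `v` is open
  obtain ⟨E', hE', hE''⟩ := hLIM L U hC (F ∪ range x) (v 0) hA (by
    rintro ⟨q, hq, z, hz, hz'⟩
    rw [he] at hz
    exact hne ⟨q, hq, z, hz, hz'⟩)
  obtain ⟨y, hy, hy'⟩ := hr2 ⟨_, fe_top F⟩ _
    (hv E' ⟨dp_mono subset_union_left hE'.dfn, hE'.eqv, hE'.fin⟩)
  refine hy.1 ?_
  rw [← he]
  refine hE'' (y 0) ?_
  rw [OPD_s1, OPD_s1]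
  exact hy'

end Pool.Agent.TPY
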