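import Pool.Agent.TPY.StM1

/-!
# TPY module PRV (helper72): private pieces are not big
-/

set_option autoImplicit false
set_option linter.unusedVariables false

namespace Pool.Agent.TPY

open FirstOrder.Language Set
open scoped FirstOrder
open Pool.Agent.MNO

theorem prv_fin {U α : Type} [Finite α] (u : ℚ → α → U) {S : Set ℚ} (hS : S.Finite) : (Tm u S).Finite := by
  have e : Tm u S = ⋃ q ∈ S, range (u q) := by
    ext x
    simp only [mem_iUnion, mem_range, exists_prop]
    constructor
    · rintro ⟨q, hq, k, rfl⟩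
      exact ⟨q, hq, k, rfl⟩
    · rintro ⟨q, hq, k, rfl⟩
      exact ⟨q, hq, k, rfl⟩
  rw [e]
  exact hS.biUnion fun q _ => finite_range _

theorem thm_PRV (hG : St_GPE) (hD : St_IDB) (hS : St_IDS) : St_PRV := by
  intro L U _ hC A₀ big hB β _ F u a b hAF hF hu h1 h2 hb
  have hsq : ∀ q, Sq L F (u 0) (u q) := fun q =>
    sq_sub (hS L U hC β F u hu 1 (fun _ => 0) (fun _ => q) (Subsingleton.strictMono _) (Subsingleton.strictMono _))
      (fun k => ((0 : Fin 1), k))
  have hbq : ∀ q, big (insert (u q a) F) (u q b) := fun q => big_sq hB hAF hF (hsq q) a b hb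
  have hA : ∀ q, A₀ ⊆ insert (u q a) F := fun q => hAF.trans (subset_insert _ _)
  have hf : ∀ q, (insert (u q a) F).Finite := fun q => hF.insert _
  have hnb : ∀ q, u q b ∉ insert (u q a) F := fun q => hB.b0 _ _ (hA q) (hf q) (hbq q)
  have hdis : ∀ p q, p ≠ q → u q b ∉ Pc L (insert (u p a) F) (u p b) := by
    intro p q hpq
    have k1 := nnl1 hC (hf p) (hnb p) (h1 q p hpq.symm)
    have k2 := nnl1 hC (hf q) (hnb q) (h1 p q hpq)
    rw [insert_comm] at k2
    rcases pc_two hC ((hf p).insert (u q a)).countable (u p b) (u q b) with h3 | h3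
    · exact absurd (k1.symm.trans (h3.trans k2)) (h2 p q hpq)
    · intro h4
      rw [← k1] at h4
      exact h3 _ h4 (mem_pc _)
  have hv : Idc L F (fun q (_ : Fin 1) => u q b) := (hD L U β F u hu).2.2.1 (Fin 1) (fun _ => b)
  obtain ⟨J, hJ, h0J, hJe⟩ := hG L U hC F _ hF hv (fun h => hdis 0 1 (by norm_num) (by
    have h5 : u 0 b = u 1 b := h
    rw [← h5]
    exact mem_pc _))
  have hGf : (F ∪ Tm (fun q (_ : Fin 1) => u q b) J).Finite := hF.union (prv_fin _ hJ)
  have hAG : A₀ ⊆ F ∪ Tm (fun q (_ : Fin 1) => u q b) J := hAF.trans subset_union_left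
  have h3 := hB.b5 (insert (u 0 a) F) (insert (u 0 a) (F ∪ Tm (fun q (_ : Fin 1) => u q b) J)) (u 0 b) (hA 0)
    (insert_subset_insert subset_union_left) (hGf.insert _) (by
      rintro w (hw | hw | hw)
      · rw [hw]
        exact par_notMem hC (hf 0).countable (mem_insert _ _) (hnb 0)
      · exact par_notMem hC (hf 0).countable (mem_insert_of_mem _ hw) (hnb 0)
      · obtain ⟨q, hq, -, rfl⟩ := hw
        exact hdis 0 q fun h => h0J (by rw [h]; exact hq)) hb
  have h4 := hB.b4 _ _ _ hAG (subset_insert _ _) (hGf.insert _) h3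
  exact hB.b1 _ _ hAG hGf hJe h4

end Pool.Agent.TPY
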