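import Pool.Agent.TPY.StM1

/-!
# TPY, module UBD: a piece over `F x` which does not depend on `x` is in the algebra of `F`
-/

set_option autoImplicit false
set_option linter.unusedVariables false

namespace Pool.Agent.TPY

open FirstOrder.Language Set
open scoped FirstOrder
open Pool.Agent.MNO

section

variable {L : FirstOrder.Language.{0, 0}} {U : Type} [L.Structure U] {F : Set U}

theorem ubd_eta (c : Fin 2 → U) : c = ![c 0, c 1] := by
  funext i
  fin_cases i <;> rfl

/-- a pair with the strong type over `F` of two terms, which has the same strong type over `G` -/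
theorem ubd_pair (hC : Cz L U) {α : Type} [Finite α] {G : Set U} (hG : G.Countable) (hFG : F ⊆ G)
    {u : ℚ → α → U}
    (hI : ∀ (n : ℕ) (i j : Fin n → ℚ), StrictMono i → StrictMono j → Sq L F (tms u i) (tms u j)) :
    ∃ v : α ⊕ α → U, Sq L F (Sum.elim (u 0) (u 1)) v ∧
      Sq L G (fun i => v (Sum.inl i)) (fun i => v (Sum.inr i)) := by
  have hB : (G ∪ range (Sum.elim (u 0) (u 1))).Countable := hG.union (countable_range _)
  obtain ⟨v, hv⟩ := sat_dp hC hB (F := {P : (α ⊕ α → U) → Prop |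
      (∃ E, FE L F E ∧ P = fun v => E (Sum.elim (u 0) (u 1)) v) ∨
      (∃ E, FE L G E ∧ P = fun v => E (fun i => v (Sum.inl i)) (fun i => v (Sum.inr i)))}) (by
      rintro P (⟨E, hE, rfl⟩ | ⟨E, hE, rfl⟩)
      · refine dp_mono ?_ (fe_def hE (Sum.elim (u 0) (u 1)))
        exact union_subset_union_left _ hFG
      · exact dp_mono subset_union_left hE.dfn) (by
      intro S hS hfin
      have h2 : ∀ P : (α ⊕ α → U) → Prop,
          ∃ (E' : (α ⊕ α → U) → (α ⊕ α → U) → Prop) (E : (α → U) → (α → U) → Prop),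
          FE L F E' ∧ FE L G E ∧ (P ∈ S → ∀ v : α ⊕ α → U, E' (Sum.elim (u 0) (u 1)) v →
            E (fun i => v (Sum.inl i)) (fun i => v (Sum.inr i)) → P v) := by
        intro P
        by_cases hP : P ∈ S
        · rcases hS hP with ⟨E, hE, rfl⟩ | ⟨E, hE, rfl⟩
          · exact ⟨E, _, hE, fe_top G, fun _ v h1 _ => h1⟩
          · exact ⟨_, E, fe_top F, hE, fun _ v _ h1 => h1⟩
        · exact ⟨_, _, fe_top F, fe_top G, fun h => absurd h hP⟩
      choose e' e he' he hP using h2
      obtain ⟨E', hE', hE'2⟩ := fe_inf (hfin.image e') (by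
        rintro _ ⟨P, -, rfl⟩
        exact he' P)
      obtain ⟨E, hE, hE2⟩ := fe_inf (hfin.image e) (by
        rintro _ ⟨P, -, rfl⟩
        exact he P)
      obtain ⟨k, hk⟩ := fe_num hE
      obtain ⟨i, j, hij, hEij⟩ := hk (fun i => u ((i : ℕ) : ℚ))
      have hij' : (((i : Fin (k + 1)) : ℕ) : ℚ) < ((j : ℕ) : ℚ) := by exact_mod_cast hij
      have h3 : Sq L F (Sum.elim (u 0) (u 1)) (Sum.elim (u ((i : ℕ) : ℚ)) (u ((j : ℕ) : ℚ))) := by
        have h4 := ids_ot hI (κ := α ⊕ α) (Sum.elim (fun _ => 0) (fun _ => 1))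
          (Sum.elim (fun _ => ((i : ℕ) : ℚ)) (fun _ => ((j : ℕ) : ℚ))) (Sum.elim id id) (by
            rintro (a | a) (b | b)
            · exact ⟨fun h => absurd h (lt_irrefl _), fun h => absurd h (lt_irrefl _)⟩
            · exact ⟨fun _ => hij', fun _ => zero_lt_one⟩
            · exact ⟨fun h => absurd h (not_lt.2 zero_le_one), fun h => absurd h (not_lt.2 hij'.le)⟩
            · exact ⟨fun h => absurd h (lt_irrefl _), fun h => absurd h (lt_irrefl _)⟩)
        refine sq_congr h4 ?_ ?_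
        · funext a
          rcases a with a | a <;> rfl
        · funext a
          rcases a with a | a <;> rfl
      refine ⟨Sum.elim (u ((i : ℕ) : ℚ)) (u ((j : ℕ) : ℚ)), fun P hPS => ?_⟩
      exact hP P hPS _ (hE'2 _ (mem_image_of_mem e' hPS) _ _ (h3 E' hE'))
        (hE2 _ (mem_image_of_mem e hPS) _ _ hEij))
  refine ⟨v, fun E hE => hv _ (Or.inl ⟨E, hE, rfl⟩), fun E hE => hv _ (Or.inr ⟨E, hE, rfl⟩)⟩

end

theorem thm_UBD (hBNI : St_BNI) (hIDS : St_IDS) : St_UBD := by
  intro L U _ hC F x d hF hd h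
  have hFc : F.Countable := hF.countable
  have hxd : x ∉ Pc L (insert x F) d := par_notMem hC (hF.insert x).countable (mem_insert x F) hd
  have hinv : ∀ y y' : U, Sq L F (s1 y) (s1 y') → y ∈ Pc L (insert x F) d →
      y' ∈ Pc L (insert x F) d := by
    intro y y' hy hm
    obtain ⟨c', hc'⟩ := sq_ext hC hFc hy ![x, d]
    have h1 : Sq L F ![x, d] ![c' 0, c' 1] := by
      rw [← ubd_eta c']
      exact sq_right hc'
    have h2 := h _ _ h1
    rw [← h2]
    exact pcs_tq hC hFc (tq_of_sq hc') (Sum.inr 0) (Sum.inr 1) (Sum.inl 0) hm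
  -- invariance of the relation
  have hS : ∀ {α : Type} [Finite α] (x0 y0 x1 y1 : α → U), (∀ i, x0 i ∈ Pc L (insert x F) d) →
      Sq L F (Sum.elim x0 y0) (Sum.elim x1 y1) → Sq L (insert x F) x0 y0 →
      Sq L (insert x F) x1 y1 := by
    intro α _ x0 y0 x1 y1 hx0 hxy hs
    obtain ⟨c', hc'⟩ := sq_ext hC hFc hxy ![x, d]
    have h1 : Sq L F ![x, d] ![c' 0, c' 1] := by
      rw [← ubd_eta c']
      exact sq_right hc'
    have h2 := h _ _ h1
    have h3 : Tq L F (Sum.elim (Sum.elim x0 y0) (s1 x)) (Sum.elim (Sum.elim x1 y1) (s1 (c' 0))) := by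
      have h4 := tq_sub (tq_of_sq hc') (Sum.map id (fun _ => 0) :
        (α ⊕ α) ⊕ Fin 1 → (α ⊕ α) ⊕ Fin 2)
      refine tq_congr h4 ?_ ?_
      · funext i
        rcases i with i | i <;> rfl
      · funext i
        rcases i with i | i <;> rfl
    have h5 : Sq L (insert (c' 0) F) x1 y1 := by
      rw [← ins_eq]
      refine sq_tq h3 ?_
      rw [ins_eq]
      exact hs
    have hx1 : ∀ i, x1 i ∈ Pc L (insert (c' 0) F) (c' 1) := by
      intro i
      rw [h2]
      exact hinv _ _ (sq_s1 (sq_left hxy) i) (hx0 i)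
    have h6 := of_pc hC (hF.insert (c' 0)) hx1 h5 (w := s1 x) (fun _ => by
      show x ∉ _
      rw [h2]
      exact hxd)
    refine sq_mono ?_ h6
    rintro y (rfl | hy)
    · exact Or.inr ⟨0, rfl⟩
    · exact Or.inl (Or.inr hy)
  have hA : ∀ (m : ℕ) (u u' : Fin m → U), (∀ i, u i ∈ Pc L (insert x F) d) → Sq L F u u' →
      Sq L (insert x F) u u' := by
    intro m u u' hu huu
    by_contra hcon
    have hR : ∀ v : Fin m → U, Sq L F u v → ∀ i, v i ∈ Pc L (insert x F) d := fun v hv i =>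
      hinv _ _ (sq_s1 hv i) (hu i)
    obtain ⟨s, hs1, hs2, hs3⟩ := hBNI L U hC (Fin m) F u (fun v v' => Sq L (insert x F) v v') hF
      (fun v _ => sq_refl _ v) (fun v v' _ _ hv => sq_symm hv)
      (fun v v' v'' _ _ _ h1 h2 => sq_trans h1 h2)
      (fun v v' w w' hv _ hvw hvv => hS v v' w w' (hR v hv) hvw hvv)
      ⟨u, u', sq_refl F u, huu, hcon⟩
    obtain ⟨v, hv1, hv2⟩ := ubd_pair hC (hF.insert x).countable (subset_insert x F)
      (hIDS L U hC (Fin m) F s hs1)
    apply hs3 0 1 zero_ne_one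
    have e : v = Sum.elim (fun i => v (Sum.inl i)) (fun i => v (Sum.inr i)) := by
      funext i
      rcases i with i | i <;> rfl
    refine hS _ _ (s 0) (s 1) ?_ ?_ hv2
    · refine hR _ (sq_trans (hs2 0) ?_)
      exact sq_sub hv1 Sum.inl
    · rw [← e]
      exact sq_symm hv1
  refine ⟨hinv, fun m n u u' w hu hu' hw huu => ?_⟩
  have h1 := of_pc hC (hF.insert x) hu (hA m u u' hu huu) hw
  have h2 := sq_add h1 w (fun i => Or.inr ⟨i, rfl⟩)
  refine sq_mono ?_ h2
  exact (subset_insert x F).trans subset_union_left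

end Pool.Agent.TPY
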