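import Pool.Agent.TPY.StL

/-!
# TPY: full T6, module ULT (helper60): limit types
-/

set_option autoImplicit false
set_option linter.unusedVariables false

namespace Pool.Agent.TPY

open FirstOrder.Language Set
open scoped FirstOrder
open Pool.Agent.MNO

theorem thm_ULT : St_ULT := by
  intro L U _ α ι S hι hne hdir
  have hF : (⨅ i, Filter.principal (S i)).NeBot := by
    refine Filter.iInf_neBot_of_directed' ?_ fun i => Filter.principal_neBot_iff.2 (hne i)
    intro i j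
    obtain ⟨k, hk⟩ := hdir i j
    exact ⟨k, Filter.principal_mono.2 fun x hx => (hk hx).1, Filter.principal_mono.2 fun x hx => (hk hx).2⟩
  obtain ⟨𝒰, h𝒰⟩ := Ultrafilter.exists_le (⨅ i, Filter.principal (S i))
  have hS : ∀ i, S i ∈ 𝒰 := fun i =>
    h𝒰 ((iInf_le (fun i => Filter.principal (S i)) i) (Filter.mem_principal_self (S i)))
  refine ⟨fun P => Dp L (univ : Set U) P ∧ {x | P x} ∈ 𝒰, ⟨fun P h => h.1, ?_, ?_, ?_⟩, ?_, ?_⟩
  · intro P h
    obtain ⟨x, hx⟩ := 𝒰.nonempty_of_mem h.2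
    exact ⟨x, hx⟩
  · intro P Q hP hQ
    exact ⟨dp_and hP.1 hQ.1, Filter.inter_mem hP.2 hQ.2⟩
  · intro P hP
    by_cases h : {x | P x} ∈ 𝒰
    · exact Or.inl ⟨hP, h⟩
    · exact Or.inr ⟨dp_not hP, Ultrafilter.compl_mem_iff_notMem.2 h⟩
  · intro i P hP h
    exact ⟨hP, Filter.mem_of_superset (hS i) h⟩
  · intro i P h
    obtain ⟨x, hx, hx'⟩ := 𝒰.nonempty_of_mem (Filter.inter_mem (hS i) h.2)
    exact ⟨x, hx, hx'⟩

end Pool.Agent.TPY
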