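import Pool.Agent.TPY.StM2
import Pool.Agent.TPY.Fre1

/-!
# TPY: module UNB (a facing indiscernible sequence through a good element)

`unb_ubd` is the unboundedness of a piece over `F x` inside the piece of `x` over `F` (from BNI, DPM, IDS, IDB): its
conjugates are not all equal.  No `big` is needed.
-/

set_option autoImplicit false
set_option linter.unusedVariables false

namespace Pool.Agent.TPY

open FirstOrder.Language Set
open scoped FirstOrder
open Pool.Agent.MNO

section

variable {L : FirstOrder.Language.{0, 0}} {U : Type} [L.Structure U]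

theorem unb_rng (x : U) (F : Set U) : F ∪ range (s1 x) = insert x F := by
  have h1 : range (s1 x) = {x} := range_const
  rw [h1, union_comm, singleton_union]

/-- transport of membership in a piece over one more element -/
theorem unb_pc (hC : Cz L U) {F : Set U} (hF : F.Countable) {x y v x' y' v' : U}
    (h : Sq L F ![x, y, v] ![x', y', v']) (hv : v ∈ Pc L (insert x F) y) :
    v' ∈ Pc L (insert x' F) y' := by
  have h1 : Sq L F (Sum.elim ![y, v] (s1 x)) (Sum.elim ![y', v'] (s1 x')) := by
    refine sq_cov h ?_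
    rintro (i | i)
    · fin_cases i
      · exact ⟨1, rfl, rfl⟩
      · exact ⟨2, rfl, rfl⟩
    · exact ⟨0, rfl, rfl⟩
  have h2 := pc_tq hC hF (tq_of_sq h1) (by rw [unb_rng]; exact hv)
  rw [unb_rng] at h2
  exact h2

/-- transport of equality of strong types over one more element -/
theorem unb_sq {α : Type} [Finite α] {F : Set U} {v v' w w' : α → U} {x x' : U}
    (h : Sq L F (Sum.elim (Sum.elim v v') (s1 x)) (Sum.elim (Sum.elim w w') (s1 x')))
    (hv : Sq L (insert x F) v v') : Sq L (insert x' F) w w' := by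
  have h1 := sq_tq (tq_of_sq h) (by rw [unb_rng]; exact hv)
  rw [unb_rng] at h1
  exact h1

/-- transport of `big` over one more element -/
theorem unb_big {A₀ : Set U} {big : Set U → U → Prop} (hB : Bg L A₀ big) {F : Set U} (hAF : A₀ ⊆ F)
    (hF : F.Finite) {x y x' y' : U} (h : Sq L F ![x, y] ![x', y']) (hb : big (insert x F) y) :
    big (insert x' F) y' := by
  have : Finite F := hF.to_subtype
  have e : ∀ x : U, A₀ ∪ range (Sum.elim (Subtype.val : F → U) (s1 x)) = insert x F := by
    intro x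
    rw [Sum.elim_range, Subtype.range_val, ← union_assoc, union_eq_self_of_subset_left hAF, unb_rng]
  have h1 := hB.inv (F ⊕ Fin 1) (Sum.elim (Subtype.val : F → U) (s1 x))
    (Sum.elim (Subtype.val : F → U) (s1 x')) y y' (by
      refine tq_of_sq (sq_mono hAF (sq_cov (sq_add h (Subtype.val : F → U) (fun i => i.2)) ?_))
      rintro ((i | i) | i)
      · exact ⟨Sum.inr i, rfl, rfl⟩
      · exact ⟨Sum.inl 0, rfl, rfl⟩
      · exact ⟨Sum.inl 1, rfl, rfl⟩)
  rw [e, e] at h1
  exact h1 hb

/-! ### two strictly monotone maps of the rational numbers -/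

private noncomputable def gp (q : ℚ) : ℚ := if 0 ≤ q then 1 + q else 1 / (1 - q)

private theorem gp_pos (q : ℚ) : 0 < gp q := by
  unfold gp
  split_ifs with h
  · linarith
  · apply one_div_pos.2
    linarith

private theorem gp_mono : StrictMono gp := by
  intro p q hpq
  unfold gp
  split_ifs with h1 h2 h2
  · linarith
  · linarith
  · have h3 : 1 / (1 - p) < 1 := by
      rw [div_lt_one (by linarith)]
      linarith
    linarith
  · exact one_div_lt_one_div_of_lt (by linarith) (by linarith)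

private theorem gn_mono : StrictMono (fun q => - gp (-q)) := by
  intro p q hpq
  have h1 := gp_mono (show -q < -p by linarith)
  show - gp (-p) < - gp (-q)
  linarith

/-- a single element does not break an indiscernible sequence into different strong types -/
theorem unb_dp (hDPM : St_DPM) (hIDS : St_IDS) (hIDB : St_IDB) (hC : Cz L U) {α : Type} [Finite α] {F : Set U}
    (hF : F.Finite) {u : ℚ → α → U} (hu : Idc L F u) (x : U) :
    ∃ p q, p ≠ q ∧ Sq L (insert x F) (u p) (u q) := by
  have hI := (hIDB L U α F u hu).1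
  have key : ∀ f : ℚ → ℚ, StrictMono f → Idc L (insert x F) (fun q => u (f q)) →
      ∃ p q, p ≠ q ∧ Sq L (insert x F) (u p) (u q) := by
    intro f hf h
    have hm : ∀ a : ℚ, StrictMono (fun _ : Fin 1 => a) := by
      intro a i j hij
      exact absurd hij (by rw [Subsingleton.elim i j]; exact lt_irrefl _)
    have h1 := hIDS L U hC α (insert x F) _ h 1 (fun _ => 0) (fun _ => 1) (hm 0) (hm 1)
    refine ⟨f 0, f 1, ?_, ?_⟩
    · exact (hf (show (0 : ℚ) < 1 by norm_num)).ne
    · exact sq_sub h1 (fun k : α => ((0 : Fin 1), k))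
  have hTm : ∀ f : ℚ → ℚ, Tm (fun q => u (f q)) univ ⊆ Tm u (range f) := by
    rintro f z ⟨q, -, k, rfl⟩
    exact ⟨f q, ⟨q, rfl⟩, k, rfl⟩
  have h1 : Idc L (F ∪ Tm (fun q => u (gp q)) univ) (fun q => u (- gp (-q))) := by
    have h2 := hI (range gp) (fun q => - gp (-q)) gn_mono (by
      rintro _ ⟨p, rfl⟩
      left
      intro q
      have := gp_pos p
      have := gp_pos (-q)
      show - gp (-q) < gp p
      linarith)
    exact (hIDB L U α _ _ h2).2.2.2 _ (union_subset_union_right F (hTm gp))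
  have h3 : Idc L (F ∪ Tm (fun q => u (- gp (-q))) univ) (fun q => u (gp q)) := by
    have h2 := hI (range (fun q => - gp (-q))) gp gp_mono (by
      rintro _ ⟨p, rfl⟩
      right
      intro q
      have := gp_pos q
      have := gp_pos (-p)
      show - gp (-p) < gp q
      linarith)
    exact (hIDB L U α _ _ h2).2.2.2 _ (union_subset_union_right F (hTm (fun q => - gp (-q))))
  rcases hDPM L U hC α α F _ _ x hF.countable ⟨h1, h3⟩ with h4 | h4
  · exact key _ gn_mono h4
  · exact key _ gp_mono h4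

/-- **unbounded**: `x` in the piece of `y` over `F`, but not in the piece of `y` over `F x`: the conjugates of `Pc (F x) y` over `F`
are not all equal -/
theorem unb_ubd (hBNI : St_BNI) (hDPM : St_DPM) (hIDS : St_IDS) (hIDB : St_IDB) (hC : Cz L U) {F : Set U}
    (hF : F.Finite) {x y : U} (hxy : x ∈ Pc L F y) (hxD : x ∉ Pc L (insert x F) y) :
    ∃ x' y', Sq L F ![x, y] ![x', y'] ∧ Pc L (insert x' F) y' ≠ Pc L (insert x F) y := by
  by_contra hcon
  push Not at hcon
  have hFc : F.Countable := hF.countable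
  have hFx : (insert x F).Finite := hF.insert x
  have hinv : ∀ v w, Sq L F (s1 v) (s1 w) → v ∈ Pc L (insert x F) y → w ∈ Pc L (insert x F) y := by
    intro v w h hv
    obtain ⟨c', hc'⟩ := sq_ext hC hFc h (![x, y] : Fin 2 → U)
    have h1 : Sq L F ![x, y] ![c' 0, c' 1] := by
      refine sq_cov hc' ?_
      intro i
      refine ⟨Sum.inr i, rfl, ?_⟩
      fin_cases i <;> rfl
    rw [← hcon _ _ h1]
    refine unb_pc hC hFc (v := v) (sq_cov hc' ?_) hv
    intro i
    fin_cases i
    · exact ⟨Sum.inr 0, rfl, rfl⟩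
    · exact ⟨Sum.inr 1, rfl, rfl⟩
    · exact ⟨Sum.inl 0, rfl, rfl⟩
  have hbf : BF L F (Pc L (insert x F) y) := by
    refine ⟨hinv, fun m n u u' w hu hu' hw h => ?_⟩
    have hkey : Sq L (insert x F) u u' := by
      by_contra hnot
      have hcls : ∀ v : Fin m → U, Sq L F u v → ∀ i, v i ∈ Pc L (insert x F) y := fun v hv i =>
        hinv _ _ (sq_s1 hv i) (hu i)
      obtain ⟨s, hs1, hs2, hs3⟩ := hBNI L U hC (Fin m) F u (fun v v' => Sq L (insert x F) v v') hF
        (fun v _ => sq_refl _ _) (fun v v' _ _ h => sq_symm h) (fun _ _ _ _ _ _ h h' => sq_trans h h') (by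
          intro v v' w w' hv hv' hvw hR
          obtain ⟨c', hc'⟩ := sq_ext hC hFc hvw (![x, y] : Fin 2 → U)
          have h1 : Sq L F ![x, y] ![c' 0, c' 1] := by
            refine sq_cov hc' ?_
            intro i
            refine ⟨Sum.inr i, rfl, ?_⟩
            fin_cases i <;> rfl
          have h2 : Sq L (insert (c' 0) F) w w' := by
            refine unb_sq (v := v) (v' := v') (x := x) (sq_cov hc' ?_) hR
            rintro (i | i)
            · exact ⟨Sum.inl i, rfl, rfl⟩
            · exact ⟨Sum.inr 0, rfl, rfl⟩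
          have h3 : BF L (insert (c' 0) F) (Pc L (insert x F) y) := by
            rw [← hcon _ _ h1]
            exact pc_bf hC _
          have h4 : ∀ i, w i ∈ Pc L (insert x F) y := fun i =>
            hinv _ _ (sq_s1 (sq_left hvw) i) (hcls v hv i)
          have h5 := of hC (hF.insert (c' 0)) (Subset.refl _) h3 h4 h2 (w := s1 x) (fun _ => hxD)
          refine sq_mono ?_ h5
          rintro z (rfl | hz)
          · exact Or.inr ⟨0, rfl⟩
          · exact Or.inl (Or.inr hz)) ⟨u, u', sq_refl _ _, h, hnot⟩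
      obtain ⟨p, q, hpq, h6⟩ := unb_dp hDPM hIDS hIDB hC hF hs1 x
      exact hs3 p q hpq h6
    exact sq_mono (subset_insert x F) (bf_prd (pc_bf hC y) hu hw hkey)
  exact hxD (hxy _ hbf (mem_pc y))

end

theorem thm_UNB (hDPM : St_DPM) (hNN : St_NN) (hBNI : St_BNI) (hIDS : St_IDS) (hIDB : St_IDB) : St_UNB := by
  intro L U _ hC A₀ big hB F z x y hAF hF hx hy hb
  have hFc : F.Countable := hF.countable
  have hFx : (insert x F).Finite := hF.insert x
  have hAx : A₀ ⊆ insert x F := hAF.trans (subset_insert x F)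
  -- `x` is not in the piece
  have hxD : x ∉ Pc L (insert x F) y := fun h =>
    hB.b0 _ _ hAx hFx (hB.pc _ _ _ hAx hFx h hb) (mem_insert x F)
  have hxy : x ∈ Pc L F y := by
    rw [pc_eq hC hFc hy]
    exact hx
  obtain ⟨x', y', h1, h2⟩ := unb_ubd hBNI hDPM hIDS hIDB hC hF hxy hxD
  obtain ⟨s, hs1, hs2, hs3⟩ := hBNI L U hC (Fin 2) F ![x, y]
    (fun v w => Pc L (insert (v 0) F) (v 1) = Pc L (insert (w 0) F) (w 1)) hF (fun _ _ => rfl)
    (fun _ _ _ _ h => h.symm) (fun _ _ _ _ _ _ h h' => h.trans h') (by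
      intro v w v' w' hv hw hvw hR
      -- inclusion in one direction
      have key : ∀ v w v' w' : Fin 2 → U, Sq L F (Sum.elim v w) (Sum.elim v' w') →
          Pc L (insert (v 0) F) (v 1) = Pc L (insert (w 0) F) (w 1) →
          Pc L (insert (v' 0) F) (v' 1) ⊆ Pc L (insert (w' 0) F) (w' 1) := by
        intro v w v' w' h hR o ho
        obtain ⟨c, hc⟩ := sq_ext hC hFc (sq_symm h) (s1 o)
        have h3 : c 0 ∈ Pc L (insert (v 0) F) (v 1) := by
          refine unb_pc hC hFc (sq_cov hc ?_) ho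
          intro i
          fin_cases i
          · exact ⟨Sum.inl (Sum.inl 0), rfl, rfl⟩
          · exact ⟨Sum.inl (Sum.inl 1), rfl, rfl⟩
          · exact ⟨Sum.inr 0, rfl, rfl⟩
        rw [hR] at h3
        refine unb_pc hC hFc (sq_cov (sq_symm hc) ?_) h3
        intro i
        fin_cases i
        · exact ⟨Sum.inl (Sum.inr 0), rfl, rfl⟩
        · exact ⟨Sum.inl (Sum.inr 1), rfl, rfl⟩
        · exact ⟨Sum.inr 0, rfl, rfl⟩
      exact Subset.antisymm (key v w v' w' hvw hR) (key w v w' v' (sq_swap hvw) hR.symm))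
    ⟨![x, y], ![x', y'], sq_refl _ _, h1, fun h => h2 h.symm⟩
  have hq : ∀ q, Sq L F ![x, y] ![s q 0, s q 1] := by
    intro q
    refine sq_cov (hs2 q) ?_
    intro i
    refine ⟨i, rfl, ?_⟩
    fin_cases i <;> rfl
  have hq0 : ∀ q, Sq L F (s1 x) (s1 (s q 0)) := fun q => sq_sub (hs2 q) (fun _ : Fin 1 => 0)
  have hq1 : ∀ q, Sq L F (s1 y) (s1 (s q 1)) := fun q => sq_sub (hs2 q) (fun _ : Fin 1 => 1)
  have hmem : ∀ {a b : U}, a ∈ Pc L F z → Sq L F (s1 a) (s1 b) → b ∈ Pc L F z := fun ha hab =>
    (pc_bf hC z).inv _ _ hab ha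
  refine ⟨fun q _ => s q 0, (hIDB L U (Fin 2) F s hs1).2.2.1 (Fin 1) (fun _ => 0), hq0, fun p q hpq => ?_⟩
  have hbp : big (insert (s p 0) F) (s p 1) := unb_big hB hAF hF (hq p) hb
  have hbq : big (insert (s q 0) F) (s q 1) := unb_big hB hAF hF (hq q) hb
  have h3 := hNN L U hC A₀ big hB F z (s p 0) (s q 0) (s p 1) (s q 1) hAF hF (hmem hx (hq0 p)) (hmem hx (hq0 q))
    (sq_trans (sq_symm (hq0 p)) (hq0 q)) (hmem hy (hq1 p)) (hmem hy (hq1 q)) hbp hbq
  rcases h3 with h3 | ⟨h3, -⟩
  · exact absurd h3 (hs3 p q hpq)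
  · exact hB.pc _ _ _ (hAF.trans (subset_insert _ F)) (hF.insert _) h3 hbp

end Pool.Agent.TPY
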