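import Pool.Agent.TPY.StM2

/-!
# TPY module XJN: in a facing system every term is in the big piece of finitely many other terms
-/

set_option autoImplicit false
set_option linter.unusedVariables false

namespace Pool.Agent.TPY

open FirstOrder.Language Set
open scoped FirstOrder
open Pool.Agent.MNO (Dp FE Sq Exa)

variable {L : FirstOrder.Language.{0, 0}} {U : Type} [L.Structure U]

/-- the terms of `u` with index in a union -/
theorem xjn_tm (u : ℚ → Fin 1 → U) (F : Set U) (m : ℚ) (f : ℚ → ℚ) (W : Set ℚ) :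
    F ∪ Tm u (insert m (f '' W)) = insert (u m 0) F ∪ Tm (fun q => u (f q)) W := by
  ext x
  constructor
  · rintro (h | ⟨q, hq, k, rfl⟩)
    · exact Or.inl (Or.inr h)
    · rcases hq with rfl | ⟨p, hp, rfl⟩
      · rw [Subsingleton.elim k 0]
        exact Or.inl (Or.inl rfl)
      · exact Or.inr ⟨p, hp, k, rfl⟩
  · rintro ((rfl | h) | ⟨p, hp, k, rfl⟩)
    · exact Or.inr ⟨m, Or.inl rfl, 0, rfl⟩
    · exact Or.inl h
    · exact Or.inr ⟨f p, Or.inr ⟨p, hp, rfl⟩, k, rfl⟩

/-- passing to one side of a term -/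
theorem xjn_step (hXTH : St_XTH) (hXNO : St_XNO) (hM1T : St_M1T) (hIDB : St_IDB) (hC : Cz L U)
    {A₀ : Set U} {big : Set U → U → Prop} (hB : Bg L A₀ big) {F : Set U} {z : U} {u : ℚ → Fin 1 → U}
    (h : Fcs L A₀ big F z u) {m : ℚ} {f : ℚ → ℚ} (hf : StrictMono f) (hm : (∀ q, f q < m) ∨ ∀ q, m < f q)
    {z' : U} (hz' : z' ∈ Pc L F z) (hbig : big (insert (u m 0) F) z') :
    Fcs L A₀ big (insert (u m 0) F) z' (fun q => u (f q)) := by
  have hne : ∀ q, m ≠ f q := by
    intro q e
    rcases hm with hm | hm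
    · exact absurd (hm q) (by rw [← e]; exact lt_irrefl _)
    · exact absurd (hm q) (by rw [← e]; exact lt_irrefl _)
  have hFf := h.fin.insert (u m 0)
  have hsub : A₀ ⊆ insert (u m 0) F := h.sub.trans (subset_insert _ _)
  have e1 : F ∪ Tm u {m} = insert (u m 0) F := by
    ext x
    constructor
    · rintro (hx | ⟨q, hq, k, rfl⟩)
      · exact Or.inr hx
      · rw [Subsingleton.elim k 0, mem_singleton_iff.1 hq]
        exact Or.inl rfl
    · rintro (rfl | hx)
      · exact Or.inr ⟨m, rfl, 0, rfl⟩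
      · exact Or.inl hx
  have hzz : Pc L F z' = Pc L F z := pc_eq hC h.fin.countable hz'
  refine ⟨hsub, hFf, ?_, ?_, ?_, ?_⟩
  · have h1 := (hIDB L U (Fin 1) F u h.ind).1 {m} f hf (by
      rintro s rfl
      exact hm)
    rw [e1] at h1
    exact h1
  · intro q
    exact h.fac m (f q) (hne q) z' hz' hbig
  · intro W hW
    obtain ⟨y, hy, hy'⟩ := h.good (insert m (f '' W)) ((hW.image f).insert m)
    rw [xjn_tm] at hy'
    refine ⟨y, ?_, hy'⟩
    have hTf : (Tm (fun q => u (f q)) W).Finite := by
      refine (hW.image fun q => u (f q) 0).subset ?_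
      rintro x ⟨q, hq, k, rfl⟩
      rw [Subsingleton.elim k 0]
      exact ⟨q, hq, rfl⟩
    have h2 := hB.b4 (insert (u m 0) F) _ y hsub subset_union_left (hFf.union hTf) hy'
    refine hM1T L U hC A₀ big hB F (insert (u m 0) F) z' y h.sub (subset_insert _ _) hFf ?_ hbig h2
    rw [hzz]
    exact hy
  · intro p q hpq y hy hy'
    have e2 : insert (u (f p) 0) (insert (u m 0) F) = F ∪ {u m 0, u (f p) 0} := by
      ext x
      constructor
      · rintro (rfl | rfl | hx)
        · exact Or.inr (Or.inr rfl)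
        · exact Or.inr (Or.inl rfl)
        · exact Or.inl hx
      · rintro (hx | rfl | hx)
        · exact Or.inr (Or.inr hx)
        · exact Or.inr (Or.inl rfl)
        · exact Or.inl hx
    have hy2 : y ∈ Pc L F z := by
      rw [← hzz]
      exact pc_mono1 hC h.fin _ _ hy
    have hy3 : big (F ∪ {u m 0, u (f p) 0}) y := by
      rw [← e2]
      exact hy'
    by_contra hcon
    refine hXNO L U hC A₀ big hB F z u h (hXTH L U hC A₀ big hB F z u h m (f p) (f q) y (hne p) (hne q)
      (fun e => hpq (hf.injective e)) hy2 hy3 ?_)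
    rw [← e2]
    exact hcon

/-- strictly monotone maps onto the two sides of a rational -/
theorem xjn_map (m : ℚ) : (∃ f : ℚ → ℚ, StrictMono f ∧ (∀ q, f q < m) ∧ ∀ r < m, ∃ q, f q = r) ∧
    ∃ f : ℚ → ℚ, StrictMono f ∧ (∀ q, m < f q) ∧ ∀ r, m < r → ∃ q, f q = r := by
  haveI : Nonempty (Iio m) := ⟨⟨m - 1, by simp⟩⟩
  haveI : Nonempty (Ioi m) := ⟨⟨m + 1, by simp⟩⟩
  obtain ⟨e1⟩ := Order.iso_of_countable_dense ℚ (Iio m)
  obtain ⟨e2⟩ := Order.iso_of_countable_dense ℚ (Ioi m)
  refine ⟨⟨fun q => (e1 q : ℚ), fun a b hab => e1.strictMono hab, fun q => (e1 q).2, fun r hr => ?_⟩,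
    ⟨fun q => (e2 q : ℚ), fun a b hab => e2.strictMono hab, fun q => (e2 q).2, fun r hr => ?_⟩⟩
  · exact ⟨e1.symm ⟨r, hr⟩, congrArg Subtype.val (e1.apply_symm_apply ⟨r, hr⟩)⟩
  · exact ⟨e2.symm ⟨r, hr⟩, congrArg Subtype.val (e2.apply_symm_apply ⟨r, hr⟩)⟩

theorem thm_XJN (hXTH : St_XTH) (hXNO : St_XNO) (hM1T : St_M1T) (hIDB : St_IDB) : St_XJN := by
  intro L U _ hC A₀ big hB
  have key : ∀ n : ℕ, ∀ (F : Set U) (z : U) (u : ℚ → Fin 1 → U), Fcs L A₀ big F z u →
      ∀ (J : Set ℚ) (r : ℚ), J.Finite → J.ncard = n → r ∉ J → ∀ y ∈ Pc L F z, big (F ∪ Tm u J) y →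
      u r 0 ∈ Pc L (F ∪ Tm u J) y := by
    intro n
    induction n with
    | zero =>
      intro F z u h J r hJ hn hr y hy hbig
      have hJ0 : J = ∅ := (ncard_eq_zero hJ).1 hn
      have e : F ∪ Tm u J = F := by
        rw [hJ0]
        refine union_eq_self_of_subset_right ?_
        rintro x ⟨q, hq, -⟩
        exact absurd hq (notMem_empty q)
      rw [e, pc_eq hC h.fin.countable hy]
      exact h.mem r
    | succ n ih =>
      intro F z u h J r hJ hn hr y hy hbig
      have hJne : J.Nonempty := by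
        rw [nonempty_iff_ne_empty]
        rintro rfl
        rw [ncard_empty] at hn
        omega
      have hS : (insert r J).Finite := hJ.insert r
      have hSne : (insert r J).Nonempty := ⟨r, Or.inl rfl⟩
      obtain ⟨M, hM, hM'⟩ := hS.exists_maximal hSne
      obtain ⟨m0, hm0, hm0'⟩ := hS.exists_minimal hSne
      obtain ⟨m, f, hmJ, hf, hm, hsurj⟩ : ∃ (m : ℚ) (f : ℚ → ℚ), m ∈ J ∧ StrictMono f ∧
          ((∀ q, f q < m) ∨ ∀ q, m < f q) ∧ ∀ s ∈ insert r J, s ≠ m → ∃ q, f q = s := by
        by_cases hMr : M = r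
        · have hm0r : m0 ≠ r := by
            rintro rfl
            obtain ⟨j, hj⟩ := hJne
            have h1 : j ≤ m0 := by
              by_contra hc
              have := hM' (Or.inr hj) (by rw [hMr]; exact (not_le.1 hc).le)
              rw [hMr] at this
              exact hc this
            have h2 : m0 ≤ j := by
              by_contra hc
              exact hc (hm0' (Or.inr hj) (not_le.1 hc).le)
            exact hr (by rw [le_antisymm h2 h1]; exact hj)
          obtain ⟨-, f, hf1, hf2, hf3⟩ := xjn_map m0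
          refine ⟨m0, f, ?_, hf1, Or.inr hf2, fun s hs hsm => hf3 s ?_⟩
          · rcases hm0 with h1 | h1
            · exact absurd h1 hm0r
            · exact h1
          · by_contra hc
            exact hsm (le_antisymm (not_lt.1 hc) (hm0' hs (not_lt.1 hc)))
        · obtain ⟨⟨f, hf1, hf2, hf3⟩, -⟩ := xjn_map M
          refine ⟨M, f, ?_, hf1, Or.inl hf2, fun s hs hsm => hf3 s ?_⟩
          · rcases hM with h1 | h1
            · exact absurd h1 hMr
            · exact h1
          · by_contra hc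
            exact hsm (le_antisymm (hM' hs (not_lt.1 hc)) (not_lt.1 hc))
      have hne : ∀ q, f q ≠ m := by
        intro q e
        rcases hm with hm | hm
        · exact absurd (hm q) (by rw [e]; exact lt_irrefl _)
        · exact absurd (hm q) (by rw [e]; exact lt_irrefl _)
      have hJ' : J = insert m (f '' (f ⁻¹' J)) := by
        ext s
        constructor
        · intro hs
          by_cases hsm : s = m
          · exact Or.inl hsm
          · obtain ⟨q, rfl⟩ := hsurj s (Or.inr hs) hsm
            exact Or.inr ⟨q, hs, rfl⟩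
        · rintro (rfl | ⟨q, hq, rfl⟩)
          · exact hmJ
          · exact hq
      have hJ'f : (f ⁻¹' J).Finite := hJ.preimage hf.injective.injOn
      have hcard : (f ⁻¹' J).ncard = n := by
        have h1 : m ∉ f '' (f ⁻¹' J) := by
          rintro ⟨q, -, hq⟩
          exact hne q hq
        have h2 := ncard_insert_of_notMem h1 (hJ'f.image f)
        rw [← hJ', ncard_image_of_injective _ hf.injective, hn] at h2
        omega
      obtain ⟨r', rfl⟩ := hsurj r (Or.inl rfl) (fun e => hr (by rw [e]; exact hmJ))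
      have e1 : F ∪ Tm u J = insert (u m 0) F ∪ Tm (fun q => u (f q)) (f ⁻¹' J) := by
        conv_lhs => rw [hJ']
        exact xjn_tm u F m f _
      have hTf : (Tm (fun q => u (f q)) (f ⁻¹' J)).Finite := by
        refine (hJ'f.image fun q => u (f q) 0).subset ?_
        rintro x ⟨q, hq, k, rfl⟩
        rw [Subsingleton.elim k 0]
        exact ⟨q, hq, rfl⟩
      rw [e1] at hbig ⊢
      have h2 := hB.b4 (insert (u m 0) F) _ y (h.sub.trans (subset_insert _ _)) subset_union_left
        ((h.fin.insert _).union hTf) hbig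
      exact ih (insert (u m 0) F) y (fun q => u (f q))
        (xjn_step hXTH hXNO hM1T hIDB hC hB h hf hm hy h2) (f ⁻¹' J) r' hJ'f hcard hr y (mem_pc y) hbig
  intro F z u h J r hJ hr y hy hbig
  exact key _ F z u h J r hJ rfl hr y hy hbig

end Pool.Agent.TPY
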