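import Pool.Agent.TPY.StI
import Pool.Agent.TPY.MB0

/-!
# TPY/StM1 (helper45): (PRV), (COV), (N) of full T6 (text: GC_T6_X_helper26.md, sections 0 - 2), with proofs in the docstrings

A sequence is `u : ℚ → β → U` with two distinguished coordinates `a b : β`; `x_q := u q a`, `d_q := u q b`,
`H_q := Pc L (insert (u q a) F) (u q b)`: the piece of `d_q` over `F x_q`.  `hB : Bg L A₀ big`, `A₀ ⊆ F`, `F` finite.

Tools of `MB0.lean` (proved): for `h : Tq L F s t` (`s t : β → U`): `pcs_tq` (membership in pieces), `pcs_le` (inclusion),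
`pcs_eq` (equality), `pcs_dj` (disjointness); `big_sq` (invariance of `big (insert x F) d` under `Sq F`), `pc_two` (two pieces over
the same set are equal or disjoint), `stay` (`x ∉ Pc (insert y F) d`, `d ∉ insert y F`: the piece is a piece over `insert x (insert y F)`),
`idc_ot`, `ids_ot` (terms of an indiscernible sequence with indices of the same order type).
Frame: `nnl1`, `pc_mono`, `pc_eq`, `pc_disj`, `pc_par`, `par_notMem`, `of_pc`, `bf_prd`, `bf_compl`, `bf_inv`, `pc_iff` (Fr3),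
`sq_ext`, `sq_tq` (Tqi), `pc_tq` (Tqp).
-/

set_option autoImplicit false
set_option linter.unusedVariables false

namespace Pool.Agent.TPY

open FirstOrder.Language Set
open scoped FirstOrder
open Pool.Agent.MNO (Dp FE Sq Exa)

section

variable (L : FirstOrder.Language.{0, 0}) {U : Type} [L.Structure U]

/-- nested sequence: `x_q ∈ H_p` iff `p < q` (`p ≠ q`) -/
def Nst (F : Set U) {β : Type} (u : ℚ → β → U) (a b : β) : Prop :=
  Idc L F u ∧ ∀ p q, p ≠ q → (u q a ∈ Pc L (insert (u p a) F) (u p b) ↔ p < q)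

end

/-- [UBD] a piece over `F x` which does not depend on `(x, d)` (in its strong type over `F`) is in the algebra of `F`.
PROOF.  `R := Pc (insert x F) d`.  `inv`: `y ∈ R`, `Sq F y y'`; `sq_ext`: `Sq F (y, x, d) (y', x', d')`, so `y' ∈ Pc (insert x' F) d' = R`
(`pc_tq`).  `prd`: let `Sq F u u'`, in `R`, `w` outside of `R`.  It is enough that `Sq (insert x F) u u'`: then `of_pc` over
`insert x F` gives `Sq (insert x F ∪ range w) u u'` and `sq_add`.  Suppose not.  `S v v' := Sq (insert x F) v v'` is an equivalence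
relation; on the strong type of `u` over `F` it is invariant under `Sq F`: let `Sq F (v, v') (w, w')` and `S v v'`; `sq_ext`:
`x', d'` with `Sq F (v, v', x, d) (w, w', x', d')`; `sq_tq`: `Sq (insert x' F) w w'`; `w, w'` are in `R = Pc (insert x' F) d'` (by `inv`), and
`x ∉ R` (`x ∈ insert x F`, `par_notMem`): `of_pc` over `insert x' F`: `Sq (insert x' F ∪ {x}) w w'`, so `S w w'`.  BNI: an
`F`-indiscernible `(u_q)` in this strong type with not `S u_p u_q` for all `p ≠ q`.  (`u`, `u'` are the points where `S` fails.)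
But some pair `(v, v')` with `Sq F (u_0, u_1) (v, v')` satisfies `S v v'`: `sat_dp` with the parameters `F ∪ {x} ∪ u_0 ∪ u_1`, for the countable
set of the properties `E' (v, v') (u_0, u_1)`, `E' ∈ FE F`, and `E v v'`, `E ∈ FE (insert x F)`: finitely many `E` are replaced by their
intersection `E` (`fe_and` or `fe_ball`), which has at most `k` classes: two of the terms `u_0, .., u_k` are `E`-equivalent,
and all pairs of terms have the same strong type over `F` (IDS).  Invariance of `S`: `S u_0 u_1`.  Contradiction. -/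
def St_UBD : Prop :=
  ∀ (L : FirstOrder.Language.{0, 0}) (U : Type) [L.Structure U], Cz L U →
    ∀ (F : Set U) (x d : U), F.Finite → d ∉ insert x F →
    (∀ x' d' : U, Sq L F ![x, d] ![x', d'] → Pc L (insert x' F) d' = Pc L (insert x F) d) →
    BF L F (Pc L (insert x F) d)

/-- [NCN] the piece `H(t)` of the second coordinate over the first one is not constant.  `x = t a`, `d = t b` in one piece over `F`.
PROOF.  BNI for `R t t' := (H(t) = H(t'))` on the strong type of `t` (invariance: `pcs_eq`).  If `R` is trivial, then UBD (extend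
`Sq F ![x, d] ![x', d']` to a copy `t'` of `t`, `sq_ext`): `H(t)` is in `BF F`; it contains `d` and not `x` (`par_notMem`); but
`x ∈ Pc F d`: contradiction (`pc_iff`). -/
def St_NCN : Prop :=
  ∀ (L : FirstOrder.Language.{0, 0}) (U : Type) [L.Structure U], Cz L U →
    ∀ (β : Type) [Finite β] (F : Set U) (t : β → U) (a b : β), F.Finite → t b ∉ insert (t a) F →
    t a ∈ Pc L F (t b) →
    ∃ u : ℚ → β → U, Idc L F u ∧ (∀ q, Sq L F t (u q)) ∧
      ∀ p q, p ≠ q → Pc L (insert (u p a) F) (u p b) ≠ Pc L (insert (u q a) F) (u q b)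

/-- [PRV] private pieces are not big.
PROOF.  Suppose that `H_0` is big, so all `H_q` are big (`big_sq`, IDS), `d_q ∉ insert x_q F` (B0).  Let `p ≠ q`: `stay`: `H_p`, `H_q` are
pieces over `insert x_p (insert x_q F)` (`Set.insert_comm`), different, so disjoint (`pc_two`); so `d_q ∉ H_p`.  The sequence
`v_q := (d_q)` of elements is `F`-indiscernible (IDB) and `d_0 ≠ d_1`.  GPE: `J` finite, `0 ∉ J`, the piece of `d_0` over
`G := F ∪ Tm v J` is ended.  `B := insert x_0 G`.  `H_0` contains no element of `B`: `x_0` and `F`: `par_notMem`; `d_q`, `q ∈ J`.  (B5) for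
`insert x_0 F ⊆ B`: `big B d_0`; (B4) for `G ⊆ B`: `big G d_0`; (B1). -/
def St_PRV : Prop :=
  ∀ (L : FirstOrder.Language.{0, 0}) (U : Type) [L.Structure U], Cz L U →
    ∀ (A₀ : Set U) (big : Set U → U → Prop), Bg L A₀ big →
    ∀ (β : Type) [Finite β] (F : Set U) (u : ℚ → β → U) (a b : β), A₀ ⊆ F → F.Finite → Idc L F u →
    (∀ p q, p ≠ q → u p a ∉ Pc L (insert (u q a) F) (u q b)) →
    (∀ p q, p ≠ q → Pc L (insert (u p a) F) (u p b) ≠ Pc L (insert (u q a) F) (u q b)) →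
    ¬ big (insert (u 0 a) F) (u 0 b)

/-- [COV] a big piece over `G` meets every strong type over `F ⊆ G` which occurs in the piece over `F`.
PROOF.  Suppose not: (*) no `o'` with `Sq F o o'` is in `Pc G y`.  So `o ≠ y` (`o' := y`), `y ∉ G` (B0).  LNK for `F`, `y`, `o`: an
`F`-indiscernible `(u_q)` of elements with `Sq F y u_q` and `v` with `Sq F o v`, `u` not indiscernible over `insert v F`.
`D : Fin n → U` with range `G` (`exists_enum`); `sq_ext`: `D'` with `Sq F (y, D) (u_0, D')`.  HNG (`k = 1`, `p = 0`, `a = D'`): an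
`F`-indiscernible sequence of pairs `(y_q, D_q)` with `Sq F (y, D) (y_q, D_q)`, increasing tuples of `(y_q)` have the strong type over `F`
of the increasing tuples of `(u_q)`.
(1) For every strictly monotone `f : ℚ → ℚ` there are `v'` with `Sq F o v'` and strictly monotone `i, j : Fin m → ℚ` with not
`Sq (insert v' F) (y_(f i)) (y_(f j))` (as tuples): `u` is not indiscernible over `insert v F`: `P` definable over `F`, `P (u_i, v)`,
not `P (u_j, v)`; let `T` be the finite set of the indices in `i`, `j`, enumerated increasingly; the tuple `u_T` has the strong type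
over `F` of the tuple of the terms `y_(f t)`, `t = 0, .., |T| - 1`; `sq_ext` for `v`.
(2) `b := Pc (F ∪ range D_0) y_0`; by (*) (transported by `Sq F (y, D) (y_0, D_0)`, `pc_tq`) it contains no `v'` with `Sq F o v'`.
The sequence `(y_q)`, `q > 0`, is indiscernible over `F ∪ range D_0 ∪ {y_0}` (IDB, `S = {0}`, `f : ℚ → (0, ∞)` strictly
monotone), so `y_q ∈ b` for all `q > 0` or for no `q > 0` (`pc_tq`).  Suppose for all.  For `v'`, `i`, `j` as in (1) for this `f`: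
`Sq (F ∪ range D_0) (y_(f i)) (y_(f j))` (IDS), all entries in `b`, `v' ∉ b`: `of_pc`: contradiction to (1).  So `y_q ∉ b` for `q > 0`;
in the same way (reversed sequence, IDB; or `f : ℚ → (-∞, 0)`) `y_q ∉ b` for `q < 0`.
(3) `y_0 ≠ y_1`: otherwise all terms are equal, against (1).  GPE: `J` finite, `0 ∉ J`, the piece of `y_0` over
`F ∪ Tm y J` is ended.  `big (F ∪ range D_0) y_0` (Bg.inv for the tuples (enumeration of `F`, `D`), (the same, `D_0`)).
`B := F ∪ range D_0 ∪ Tm y J`: `b` contains no element of `B` (`y_0 ∉ F ∪ range D_0` (B0), `par_notMem`, (2)): (B5), (B4), (B1). -/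
def St_COV : Prop :=
  ∀ (L : FirstOrder.Language.{0, 0}) (U : Type) [L.Structure U], Cz L U →
    ∀ (A₀ : Set U) (big : Set U → U → Prop), Bg L A₀ big →
    ∀ (F G : Set U) (y o : U), A₀ ⊆ F → F ⊆ G → G.Finite → big G y → o ∈ Pc L F y →
    ∃ o' : U, Sq L F (s1 o) (s1 o') ∧ o' ∈ Pc L G y

/-- [NPA] (N) (i), for a nested sequence with big pieces.
PROOF.  All `H_q` are big (`big_sq`, IDS), `d_q ∉ insert x_q F` (B0).
(1) `p < q`: `x_p ∉ H_q`; `stay`: `H_q = Pc (insert x_p (insert x_q F)) d_q`, big (B5); `x_r`, `r > q`, is in `H_p` and in `H_q`, so `H_q ⊆ H_p`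
(`pc_mono`, `pc_disj`).  `big G d_1` for `G := insert x_1 (insert x_0 F)` in (2).
(2) `v ∈ H_0`: `d_1 ∈ H_1 ⊆ H_0`, so `H_0 = Pc (insert x_0 F) d_1`; COV for `insert x_0 F ⊆ G`, `y := d_1`, `o := v`: `o'` with
`Sq (insert x_0 F) v o'`, `o' ∈ Pc G d_1 = H_1`; `sq_ext`: `(z, f)` with `Sq (insert x_0 F) (o', x_1, d_1) (v, z, f)`; `pcs_tq`. -/
def St_NPA : Prop :=
  ∀ (L : FirstOrder.Language.{0, 0}) (U : Type) [L.Structure U], Cz L U →
    ∀ (A₀ : Set U) (big : Set U → U → Prop), Bg L A₀ big →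
    ∀ (β : Type) [Finite β] (F : Set U) (u : ℚ → β → U) (a b : β), A₀ ⊆ F → F.Finite → Nst L F u a b →
    big (insert (u 0 a) F) (u 0 b) →
    (∀ q, big (insert (u q a) F) (u q b) ∧ u q b ∉ insert (u q a) F) ∧
    (∀ p q, p < q → Pc L (insert (u q a) F) (u q b) ⊆ Pc L (insert (u p a) F) (u p b)) ∧
    ∀ v ∈ Pc L (insert (u 0 a) F) (u 0 b), ∃ z f : U,
      Sq L (insert (u 0 a) F) ![u 1 a, u 1 b] ![z, f] ∧ v ∈ Pc L (insert z F) f

/-- [NPM] the mutual case.
PROOF.  Suppose that the two pieces are different.  `sq_ext`: we may assume `(z, f) = (x_1, d_1)` (apply `pcs_tq`, `pcs_eq` over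
`insert x_0 F`, which give the statements over `F` and `x_0`; or use `Sq F` of the tuples with `x_0`, `d_0` as further entries).  So let
`w' = (z', f')`, `Sq (insert x_0 F) (x_1, d_1) (z', f')`, `z' ∉ H_1`, `x_1 ∉ H(w') := Pc (insert z' F) f'`, `H(w') ≠ H_1`.  By transport
(`Sq (insert x_0 F)`; `x_0` is a parameter, so use `sq_add` to have `Sq F (x_0, d_0?..)`: only `x_0` is needed because
`H_0 = Pc (insert x_0 F) d_1`): `z' ∈ H_0`, `H(w') ⊆ H_0`, `f' ∉ insert z' F`.  `stay` twice: `H(w')`, `H_1` are pieces over `insert z' (insert x_1 F)`,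
so they are disjoint.
HNG with `k = 2`, `p = (0, 1)`, the tuple `(z', f')`: an `F`-indiscernible sequence `v` of `(t_q, s_q, (z_q, f_q))`; for every `q`
`Sq F (u_0, u_1, z', f') (t_q, s_q, z_q, f_q)`: so `H(z_q, f_q) ⊆ H(t_q)`, `H(z_q, f_q) ∩ H(s_q) = ∅`, `z_q ∈ H(t_q)`, `z_q ∉ H(s_q)`
(`pcs_le`, `pcs_dj`, `pcs_tq`); for `p < q` `(t_p, s_p, t_q, s_q)` has the strong type over `F` of `(u_0, u_1, u_2, u_3)` (`g n = n`), so
`H(t_q) ⊆ H(s_p)` (NPA (2)).  So for `p < q`: `H(z_q, f_q) ⊆ H(s_p)` is disjoint from `H(z_p, f_p)`; `z_q ∉ H(z_p, f_p)`;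
`z_p ∉ H(s_p) ⊇ H(z_q, f_q)`.  PRV (for `v`, coordinates `Sum.inr 0`, `Sum.inr 1`): `H(z_0, f_0)` is not big; but
`Sq F (x_0, d_0) (x_1, d_1)` (IDS), `Sq F (x_1, d_1) (z', f')`, `Sq F (z', f') (z_0, f_0)`: `big_sq`. -/
def St_NPM : Prop :=
  ∀ (L : FirstOrder.Language.{0, 0}) (U : Type) [L.Structure U], Cz L U →
    ∀ (A₀ : Set U) (big : Set U → U → Prop), Bg L A₀ big →
    ∀ (β : Type) [Finite β] (F : Set U) (u : ℚ → β → U) (a b : β), A₀ ⊆ F → F.Finite → Nst L F u a b →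
    big (insert (u 0 a) F) (u 0 b) →
    ∀ z f z' f' : U, Sq L (insert (u 0 a) F) ![u 1 a, u 1 b] ![z, f] →
    Sq L (insert (u 0 a) F) ![u 1 a, u 1 b] ![z', f'] → z' ∉ Pc L (insert z F) f → z ∉ Pc L (insert z' F) f' →
    Pc L (insert z F) f = Pc L (insert z' F) f'

/-- [NPB] (N) (ii): finitely many elements of `H_0` are outside of the piece of `x_0` over some `F z`.
PROOF.  Induction on `n`.  `n = 0`: `(z, f) := (x_1, d_1)`.  Step: `c = (c', c_n)`.  `(z, f)` for `c'`; write `T(z) := Pc (insert z F) x_0`.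
Facts for every `(z, f)` with `Sq (insert x_0 F) (x_1, d_1) (z, f)` (transport from `(x_1, d_1)`, NPA, `Nst`; `sq_add` for `x_0`):
`x_0 ∉ Pc (insert z F) f`, `f ∉ insert z F`, `x_0 ∉ insert z F` (as `x_0 ≠ x_1`, `x_0 ∉ F`: otherwise `x_0 = x_1 ∈ H_0`, `par_notMem`).
If `c_n ∉ T(z)`: done.  Let `c_n ∈ T(z)`.  NPA (3): `(z', f')` with `c_n ∈ Pc (insert z' F) f' =: H'`; so `c_n ∉ T(z')` (otherwise
`T(z') = H'` (`pc_disj`) contains `x_0`).  Case `z ∉ T(z')`: `T(z') = Pc (insert z (insert z' F)) x_0 ⊆ T(z)` (`nnl1`, `pc_mono`), so `(z', f')` is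
good for `c`.  Case `z ∈ T(z')`, `z' ∉ T(z)`: in the same way `T(z) ⊆ T(z')`, `c_n ∈ T(z')`: no.  Case `z ∈ T(z')`, `z' ∈ T(z)`:
`H := Pc (insert z F) f` and `T(z)` are different pieces over `insert z F` (`x_0`), so `z' ∉ H`, `c_n ∉ H`; `z ∉ H'`; NPM: `H = H'`, but
`c_n ∈ H'`: contradiction. -/
def St_NPB : Prop :=
  ∀ (L : FirstOrder.Language.{0, 0}) (U : Type) [L.Structure U], Cz L U →
    ∀ (A₀ : Set U) (big : Set U → U → Prop), Bg L A₀ big →
    ∀ (β : Type) [Finite β] (F : Set U) (u : ℚ → β → U) (a b : β), A₀ ⊆ F → F.Finite → Nst L F u a b →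
    big (insert (u 0 a) F) (u 0 b) →
    ∀ (n : ℕ) (c : Fin n → U), (∀ i, c i ∈ Pc L (insert (u 0 a) F) (u 0 b)) → ∃ z f : U,
      Sq L (insert (u 0 a) F) ![u 1 a, u 1 b] ![z, f] ∧ ∀ i, c i ∉ Pc L (insert z F) (u 0 a)

/-- [NPN] near elements.
PROOF.  NPB: `(z, f)`; `sq_ext`: `y₁, y₂, y₃` with `Sq (insert x_0 F) (x_(1/4), x_(1/2), x_(3/4), x_1, d_1) (y₁, y₂, y₃, z, f)`.  The part of `u`
left of `1` is indiscernible over `insert x_1 F` (IDB), so (IDS) `Sq (insert x_1 F) (x_0, x_(1/4)) (x_(1/2), x_(3/4))` and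
`Sq (insert x_1 F) x_0 x_q` for `q = 1/4, 1/2, 3/4`; `sq_tq` (with `sq_add` for `x_0`): `Sq (insert z F) (x_0, y₁) (y₂, y₃)`, and all four
elements are in `T := Pc (insert z F) x_0` (`pc_sq`).  `c` is outside of `T`: `of_pc`: `Sq (insert z F ∪ range c) (x_0, y₁) (y₂, y₃)`;
`sq_mono`. -/
def St_NPN : Prop :=
  ∀ (L : FirstOrder.Language.{0, 0}) (U : Type) [L.Structure U], Cz L U →
    ∀ (A₀ : Set U) (big : Set U → U → Prop), Bg L A₀ big →
    ∀ (β : Type) [Finite β] (F : Set U) (u : ℚ → β → U) (a b : β), A₀ ⊆ F → F.Finite → Nst L F u a b →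
    big (insert (u 0 a) F) (u 0 b) →
    ∀ (n : ℕ) (c : Fin n → U), (∀ i, c i ∈ Pc L (insert (u 0 a) F) (u 0 b)) → ∃ y₁ y₂ y₃ : U,
      Sq L (insert (u 0 a) F) ![u (1 / 4) a, u (1 / 2) a, u (3 / 4) a] ![y₁, y₂, y₃] ∧
      Sq L (F ∪ range c) ![u 0 a, y₁] ![y₂, y₃]

/-- [NPE] the end.  Abstract form: `R = Pc G d`, `G = insert x F`, with near elements for all finite tuples of `R`: `R` is ended.
(`m₁, m₂, m₃` are `x_(1/4), x_(1/2), x_(3/4)`.)
PROOF.  `R = Pc G m₁ = Pc G d`.  For a finite set `c ⊆ R` (as a tuple) let `S_c` be the set of the `y₂` as in the hypothesis; `S_(c ∪ c') ⊆ S_c ∩ S_c'`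
(`sq_mono`).  ULT (index: finite subsets of `R`, as subtype of `Set U`; tuples by `exists_enum`): `r`.
`Ets G m₂ r`: `E ∈ FE G`: `E y₂ m₂` for all `y₂ ∈ S_∅`.
`Nal r`: let `r (x = e)`; ULT: `e ∈ S_∅`, so `Sq G m₂ e`, `e ∈ R` (`m₂ ∈ R`); and `e ∈ S_{e}`: `Sq (F ∪ {e}) (x, y₁) (e, y₃)`, so `x = e`; but
`x ∉ R` (`par_notMem`).
`Inv G r`: let `Q` be definable over `G`, `Sq G c c'`, `r (Q(·, c))`.  Let `I := {j | c j ∈ R} = {j | c' j ∈ R}` (`bf_inv`), `c₁`, `c₁'`
the parts with index in `I`, `c₂`, `c₂'` the other parts.  CLAIM: for `y₂ ∈ S_(c₁ ∪ c₁')`: `Sq G (y₂, c) (y₂, c')`.  PROOF of the claim: `y₁, y₃`.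
`Sq (insert x F) c₁ c₁'` and `Sq (F ∪ c₁ ∪ c₁') (x, y₁) (y₂, y₃)`, so (`sq_add`) `Sq F (x, y₁, c₁, c₁') (y₂, y₃, c₁, c₁')`: `sq_tq`:
`Sq (insert y₂ F) c₁ c₁'`; `pcs_tq`: `c₁, c₁' ⊆ Pc (insert y₂ F) y₃` (as `R = Pc (insert x F) y₁`: `y₁ ∈ R` because `Sq G m₁ y₁`).
`x ∉ Pc (insert y₂ F) y₃` (hypothesis `x ∉ Pc (insert m₂ F) m₃`, `Sq F (x, m₂, m₃) (x, y₂, y₃)` (`sq_add`), `pcs_tq`).  `of_pc` over
`insert y₂ F`: `Sq (insert y₂ F ∪ {x}) c₁ c₁'`, so `Sq G (y₂, c₁) (y₂, c₁')` (`sq_mono`, `sq_add`).  `y₂ ∈ R` (`Sq G m₂ y₂`).  `bf_prd`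
for `R` over `G`: `Sq G ((y₂, c₁), c₂) ((y₂, c₁'), c₂)`; `bf_prd` for the complement of `R`: `Sq G (c₂, (y₂, c₁')) (c₂', (y₂, c₁'))`.  QED claim.
So `Q(y, c) → Q(y, c')` for all `y ∈ S_(c₁ ∪ c₁')`: `r (Q(·, c'))` (otherwise `r` contains the negation, `r.and`, ULT).
So `Gd G r`, `Ets G m₂ r`, `m₂ ∈ Pc G d`: `Edd G d`. -/
def St_NPE : Prop :=
  ∀ (L : FirstOrder.Language.{0, 0}) (U : Type) [L.Structure U], Cz L U →
    ∀ (F : Set U) (x d m₁ m₂ m₃ : U), F.Finite → d ∉ insert x F → m₁ ∈ Pc L (insert x F) d → m₂ ∈ Pc L (insert x F) d →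
    x ∉ Pc L (insert m₂ F) m₃ →
    (∀ (n : ℕ) (c : Fin n → U), (∀ i, c i ∈ Pc L (insert x F) d) → ∃ y₁ y₂ y₃ : U,
      Sq L (insert x F) ![m₁, m₂, m₃] ![y₁, y₂, y₃] ∧ Sq L (F ∪ range c) ![x, y₁] ![y₂, y₃]) →
    Edd L (insert x F) d

/-- [NP] **(N)**: the pieces of a nested indiscernible sequence are not big.
PROOF.  NPN and NPE for `x = x_0`, `d = d_0`, `m_i = x_(1/4), x_(1/2), x_(3/4)` (in `H_0` by `Nst`; `x_0 ∉ Pc (insert x_(1/2) F) x_(3/4) = H_(1/2)`
because `x_(3/4) ∈ H_(1/2)` and `x_0 ∉ H_(1/2)`): the piece of `d_0` over `insert x_0 F` is ended: (B1). -/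
def St_NP : Prop :=
  ∀ (L : FirstOrder.Language.{0, 0}) (U : Type) [L.Structure U], Cz L U →
    ∀ (A₀ : Set U) (big : Set U → U → Prop), Bg L A₀ big →
    ∀ (β : Type) [Finite β] (F : Set U) (u : ℚ → β → U) (a b : β), A₀ ⊆ F → F.Finite → Idc L F u →
    (∀ p q, p ≠ q → (u q a ∈ Pc L (insert (u p a) F) (u p b) ↔ p < q)) ∨
      (∀ p q, p ≠ q → (u q a ∈ Pc L (insert (u p a) F) (u p b) ↔ q < p)) →
    ¬ big (insert (u 0 a) F) (u 0 b)

end Pool.Agent.TPY
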