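import Pool.Agent.TPY.StM2
import Pool.Agent.TPY.StM1

/-!
# TPY/XNO: a facing system does not have constant `e(u_p, u_q)` (helper79)
-/

set_option autoImplicit false
set_option linter.unusedVariables false

namespace Pool.Agent.TPY

open FirstOrder.Language Set
open scoped FirstOrder
open Pool.Agent.MNO

section

variable {L : FirstOrder.Language.{0, 0}} {U : Type} [L.Structure U]

/-- invariance of `big` over a base `F` -/
theorem xno_big {A₀ : Set U} {big : Set U → U → Prop} (hB : Bg L A₀ big) {F : Set U} (hA : A₀ ⊆ F)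
    (hF : F.Finite) {γ : Type} [Finite γ] {a a' : γ → U} {z z' : U}
    (h : Sq L F (Sum.elim a (s1 z)) (Sum.elim a' (s1 z'))) (hb : big (F ∪ range a) z) :
    big (F ∪ range a') z' := by
  obtain ⟨n, f, hf⟩ := exists_enum hF
  have h1 := sq_mono hA (sq_add h f (fun i => by rw [← hf]; exact ⟨i, rfl⟩))
  have h2 := sq_sub h1 (Sum.elim (Sum.elim Sum.inr (fun i => Sum.inl (Sum.inl i)))
    (fun i => Sum.inl (Sum.inr i)) : (Fin n ⊕ γ) ⊕ Fin 1 → (γ ⊕ Fin 1) ⊕ Fin n)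
  have e : ∀ (a : γ → U) (z : U), (fun i => Sum.elim (Sum.elim a (s1 z)) f
      ((Sum.elim (Sum.elim Sum.inr (fun i => Sum.inl (Sum.inl i)))
    (fun i => Sum.inl (Sum.inr i)) : (Fin n ⊕ γ) ⊕ Fin 1 → (γ ⊕ Fin 1) ⊕ Fin n) i)) =
      Sum.elim (Sum.elim f a) (s1 z) := by
    intro a z
    funext i
    rcases i with (i | i) | i <;> rfl
  rw [e, e] at h2
  have e2 : ∀ a : γ → U, A₀ ∪ range (Sum.elim f a) = F ∪ range a := by
    intro a
    rw [Sum.elim_range, hf, ← union_assoc, union_eq_self_of_subset_left hA]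
  have h3 := hB.inv (Fin n ⊕ γ) _ _ z z' (tq_of_sq h2) (by rw [e2]; exact hb)
  rw [e2] at h3
  exact h3

/-- invariance of pieces under equality of strong types -/
theorem xno_pc (hC : Cz L U) {F : Set U} (hF : F.Finite) {γ : Type} [Finite γ] {a a' : γ → U}
    {x v x' v' : U} (h : Sq L F (Sum.elim ![x, v] a) (Sum.elim ![x', v'] a')) :
    v ∈ Pc L (F ∪ range a) x ↔ v' ∈ Pc L (F ∪ range a') x' :=
  ⟨pc_tq hC hF.countable (tq_of_sq h), pc_tq hC hF.countable (tq_of_sq (sq_symm h))⟩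

end

section

variable {L : FirstOrder.Language.{0, 0}} {U : Type} [L.Structure U]

/-- the index map used for indiscernibility below `1` -/
theorem xno_idx : ∃ f : ℚ → ℚ, StrictMono f ∧ (∀ q, f q < 1) ∧ f (-1) = -1 ∧ f 0 = 0 := by
  have h0 : ∀ q : ℚ, 0 ≤ q → 0 < 1 + q := fun q hq => by linarith
  refine ⟨fun q => if q ≤ 0 then q else q / (1 + q), ?_, ?_, ?_, ?_⟩
  · intro p q hpq
    by_cases hp : p ≤ 0
    · by_cases hq : q ≤ 0
      · simp only [if_pos hp, if_pos hq]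
        exact hpq
      · simp only [if_pos hp, if_neg hq]
        push Not at hq
        have h1 : 0 < q / (1 + q) := div_pos hq (h0 q hq.le)
        linarith
    · have hq : ¬ q ≤ 0 := fun h => hp (by linarith)
      simp only [if_neg hp, if_neg hq]
      push Not at hp hq
      rw [div_lt_div_iff₀ (h0 p hp.le) (h0 q hq.le)]
      nlinarith
  · intro q
    by_cases hq : q ≤ 0
    · simp only [if_pos hq]
      linarith
    · simp only [if_neg hq]
      push Not at hq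
      rw [div_lt_one (h0 q hq.le)]
      linarith
  · simp
  · simp

/-- the combinatorial core: `x0, x1, x2, xm = u_0, u_1, u_2, u_(-1)` -/
theorem xno_core (hM1T : St_M1T) (hCAL : St_CAL) (hNN : St_NN) (hC : Cz L U) {A₀ : Set U}
    {big : Set U → U → Prop} (hB : Bg L A₀ big) {F : Set U} (hA : A₀ ⊆ F) (hF : F.Finite)
    {x0 x1 x2 xm y₀ y1 : U} (hx0F : x0 ∉ F)
    (hm1 : x1 ∈ Pc L (insert x0 F) y₀)
    (h01 : big (F ∪ {x0, x1}) y₀) (h02 : big (F ∪ {x0, x2}) y₀) (h0m : big (F ∪ {x0, xm}) y₀)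
    (e02 : Pc L (F ∪ {x0, x2}) y₀ = Pc L (F ∪ {x0, x1}) y₀)
    (e0m : Pc L (F ∪ {x0, xm}) y₀ = Pc L (F ∪ {x0, x1}) y₀)
    (e12 : Pc L (F ∪ {x1, x2}) y₀ = Pc L (F ∪ {x0, x1}) y₀)
    (n0 : x0 ∉ Pc L (F ∪ {x0, x1}) y₀) (n1 : x1 ∉ Pc L (F ∪ {x0, x1}) y₀)
    (n2 : x2 ∉ Pc L (F ∪ {x0, x1}) y₀)
    (hsq : Sq L (F ∪ {x1, x2}) (s1 x0) (s1 xm))
    (hy1 : y1 ∈ Pc L (F ∪ {x0, x1}) y₀) (hxy : Sq L (insert x0 F) (s1 x1) (s1 y1)) : False := by
  obtain ⟨cM, cD, cE, cP⟩ := hCAL L U hC A₀ big hB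
  have hF0 : (insert x0 F).Finite := hF.insert x0
  have hA0 : A₀ ⊆ insert x0 F := hA.trans (subset_insert _ _)
  have i1 : ∀ w : U, F ∪ {x0, w} = insert w (insert x0 F) := by
    intro w
    ext v
    simp only [mem_union, mem_insert_iff, mem_singleton_iff]
    tauto
  -- the copies
  obtain ⟨c', hc'⟩ := sq_ext hC hF0.countable hxy ![x2, xm, y₀]
  set y2 : U := c' 0 with hy2
  set ym : U := c' 1 with hym
  set c : U := c' 2 with hc
  have hW0 : Sq L (insert x0 F) (![x1, x2, xm, y₀] : Fin 4 → U) ![y1, y2, ym, c] := by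
    have h1 := sq_sub hc' (![Sum.inl 0, Sum.inr 0, Sum.inr 1, Sum.inr 2] : Fin 4 → Fin 1 ⊕ Fin 3)
    refine sq_congr h1 ?_ ?_
    · funext i
      fin_cases i <;> rfl
    · funext i
      fin_cases i <;> rfl
  have hW : Sq L F (![x0, x1, x2, xm, y₀] : Fin 5 → U) ![x0, y1, y2, ym, c] := by
    have h1 := sq_mono (subset_insert x0 F) (sq_add hW0 (fun _ : Fin 1 => x0) (fun _ => mem_insert _ _))
    have h2 := sq_sub h1 (![Sum.inr 0, Sum.inl 0, Sum.inl 1, Sum.inl 2, Sum.inl 3] : Fin 5 → Fin 4 ⊕ Fin 1)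
    refine sq_congr h2 ?_ ?_
    · funext i
      fin_cases i <;> rfl
    · funext i
      fin_cases i <;> rfl
  have r2 : ∀ v w : U, range (![v, w] : Fin 2 → U) = {v, w} := by
    intro v w
    ext t
    simp only [Matrix.range_cons, Matrix.range_empty, union_empty, mem_union, mem_insert_iff, mem_singleton_iff]
  -- transfers
  have tb1 : big (F ∪ {x0, y1}) c := by
    have h1 : Sq L F (Sum.elim ![x0, x1] (s1 y₀)) (Sum.elim ![x0, y1] (s1 c)) := by
      refine sq_congr (sq_sub hW (Sum.elim ![0, 1] (fun _ => 4) : Fin 2 ⊕ Fin 1 → Fin 5)) ?_ ?_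
      · funext i
        rcases i with i | i <;> fin_cases i <;> rfl
      · funext i
        rcases i with i | i <;> fin_cases i <;> rfl
    have h2 := xno_big hB hA hF h1 (by rw [r2]; exact h01)
    rw [r2] at h2
    exact h2
  have tb2 : big (F ∪ {x0, y2}) c := by
    have h1 : Sq L F (Sum.elim ![x0, x2] (s1 y₀)) (Sum.elim ![x0, y2] (s1 c)) := by
      refine sq_congr (sq_sub hW (Sum.elim ![0, 2] (fun _ => 4) : Fin 2 ⊕ Fin 1 → Fin 5)) ?_ ?_
      · funext i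
        rcases i with i | i <;> fin_cases i <;> rfl
      · funext i
        rcases i with i | i <;> fin_cases i <;> rfl
    have h2 := xno_big hB hA hF h1 (by rw [r2]; exact h02)
    rw [r2] at h2
    exact h2
  have t2 : y1 ∉ Pc L (F ∪ {x0, y2}) c := by
    have h1 : Sq L F (Sum.elim ![y₀, x1] ![x0, x2]) (Sum.elim ![c, y1] ![x0, y2]) := by
      refine sq_congr (sq_sub hW (Sum.elim ![4, 1] ![0, 2] : Fin 2 ⊕ Fin 2 → Fin 5)) ?_ ?_
      · funext i
        rcases i with i | i <;> fin_cases i <;> rfl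
      · funext i
        rcases i with i | i <;> fin_cases i <;> rfl
    have h2 := xno_pc hC hF h1
    rw [r2, r2, e02] at h2
    exact fun h => n1 (h2.2 h)
  have t3 : y2 ∉ Pc L (F ∪ {x0, y1}) c := by
    have h1 : Sq L F (Sum.elim ![y₀, x2] ![x0, x1]) (Sum.elim ![c, y2] ![x0, y1]) := by
      refine sq_congr (sq_sub hW (Sum.elim ![4, 2] ![0, 1] : Fin 2 ⊕ Fin 2 → Fin 5)) ?_ ?_
      · funext i
        rcases i with i | i <;> fin_cases i <;> rfl
      · funext i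
        rcases i with i | i <;> fin_cases i <;> rfl
    have h2 := xno_pc hC hF h1
    rw [r2, r2] at h2
    exact fun h => n2 (h2.2 h)
  have t4 : x0 ∉ Pc L (F ∪ {y1, y2}) c := by
    have h1 : Sq L F (Sum.elim ![y₀, x0] ![x1, x2]) (Sum.elim ![c, x0] ![y1, y2]) := by
      refine sq_congr (sq_sub hW (Sum.elim ![4, 0] ![1, 2] : Fin 2 ⊕ Fin 2 → Fin 5)) ?_ ?_
      · funext i
        rcases i with i | i <;> fin_cases i <;> rfl
      · funext i
        rcases i with i | i <;> fin_cases i <;> rfl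
    have h2 := xno_pc hC hF h1
    rw [r2, r2, e12] at h2
    exact fun h => n0 (h2.2 h)
  have hcy : Sq L (insert x0 F) (s1 y₀) (s1 c) := by
    refine sq_congr (sq_sub hW0 (fun _ : Fin 1 => (3 : Fin 4))) ?_ ?_
    · funext i
      rfl
    · funext i
      rfl
  have hcP : c ∈ Pc L (insert x0 F) y₀ := pc_sq hC hcy
  have fin2 : ∀ (v w : U), (F ∪ {v, w}).Finite := fun v w => hF.union (toFinite _)
  have sub2 : ∀ (v w : U), A₀ ⊆ F ∪ {v, w} := fun v w => hA.trans subset_union_left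
  -- `x1` is in `b'`
  have hy1P : y1 ∈ Pc L (insert x0 F) y₀ := by
    rw [i1] at hy1
    exact pc_mono1 hC hF0 x1 y₀ hy1
  have hx1b : x1 ∈ Pc L (F ∪ {x0, y1}) c := by
    have h1 := hNN L U hC A₀ big hB (insert x0 F) y₀ x1 y1 y₀ c hA0 hF0 hm1 hy1P hxy (mem_pc y₀) hcP
      (by rw [← i1]; exact h01) (by rw [← i1]; exact tb1)
    rw [← i1, ← i1] at h1
    rcases h1 with h1 | h1
    · exfalso
      rw [h1] at hy1
      exact cP _ c y1 (sub2 _ _) (fin2 _ _) tb1 (Or.inr (Or.inr rfl)) hy1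
    · exact h1.2
  -- (1)
  have key1 : ∀ xk : U, big (F ∪ {x0, xk}) y₀ → Pc L (F ∪ {x0, xk}) y₀ = Pc L (F ∪ {x0, x1}) y₀ →
      xk ∈ Pc L (F ∪ {x0, y1}) c := by
    intro xk hb he
    by_contra hk
    obtain ⟨-, -, h3, h4⟩ := cD (F ∪ {x0, y1}) (F ∪ {x0, xk}) c (sub2 _ _) (fin2 _ _) (sub2 _ _) (fin2 _ _) tb1 (by
      rintro w (hw | hw | hw)
      · exact cP _ c w (sub2 _ _) (fin2 _ _) tb1 (Or.inl hw)
      · rw [hw]
        exact cP _ c x0 (sub2 _ _) (fin2 _ _) tb1 (Or.inr (Or.inl rfl))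
      · rw [mem_singleton_iff] at hw
        rw [hw]
        exact hk)
    have h5 := hM1T L U hC A₀ big hB (insert x0 F) (F ∪ {x0, xk}) y₀ c hA0 (by rw [i1]; exact subset_insert _ _)
      (fin2 _ _) hcP hb h3
    have h6 := pc_eq hC (fin2 _ _).countable h5
    rw [he] at h6
    have h7 := h4 hx1b
    rw [h6] at h7
    exact n1 h7
  have hx2b := key1 x2 h02 e02
  have hxmb := key1 xm h0m e0m
  -- (2)
  have hy2b : y2 ∈ Pc L (F ∪ {x0, x1}) y₀ := by
    by_contra hk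
    obtain ⟨-, -, h3, h4⟩ := cD (F ∪ {x0, x1}) (F ∪ {x0, y2}) y₀ (sub2 _ _) (fin2 _ _) (sub2 _ _) (fin2 _ _) h01 (by
      rintro w (hw | hw | hw)
      · exact cP _ y₀ w (sub2 _ _) (fin2 _ _) h01 (Or.inl hw)
      · rw [hw]
        exact n0
      · rw [mem_singleton_iff] at hw
        rw [hw]
        exact hk)
    have h5 := hM1T L U hC A₀ big hB (insert x0 F) (F ∪ {x0, y2}) y₀ c hA0 (by rw [i1]; exact subset_insert _ _)
      (fin2 _ _) hcP h3 tb2
    have h6 := pc_eq hC (fin2 _ _).countable h5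
    have h7 := h4 hy1
    rw [← h6] at h7
    exact t2 h7
  -- (3)
  have nx0b : x0 ∉ Pc L (F ∪ {x0, y1}) c := cP _ c x0 (sub2 _ _) (fin2 _ _) tb1 (Or.inr (Or.inl rfl))
  have hx01 : x0 ≠ x1 := by
    intro h
    have h1 := hx1b
    rw [← h] at h1
    exact nx0b h1
  have hx02 : x0 ≠ x2 := by
    intro h
    have h1 := hx2b
    rw [← h] at h1
    exact nx0b h1
  have hx0y1 : x0 ≠ y1 := by
    intro h
    have h1 := hy1
    rw [← h] at h1
    exact n0 h1
  have hx0y2 : x0 ≠ y2 := by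
    intro h
    have h1 := hy2b
    rw [← h] at h1
    exact n0 h1
  have hcF : c ∉ F ∪ {x0, y1} := hB.b0 _ c (sub2 _ _) (fin2 _ _) tb1
  have hcG : c ∉ F ∪ {y1, y2} := by
    rintro (h | h | h)
    · exact hcF (Or.inl h)
    · exact hcF (Or.inr (Or.inr h))
    · rw [mem_singleton_iff] at h
      have h1 := mem_pc (L := L) (A := F ∪ {x0, y1}) c
      rw [h] at t3 h1
      exact t3 h1
  have hx0G : x0 ∉ F ∪ {x1, x2} := by
    rintro (h | h | h)
    · exact hx0F h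
    · exact hx01 h
    · exact hx02 h
  have hx0G' : x0 ∉ F ∪ {y1, y2} := by
    rintro (h | h | h)
    · exact hx0F h
    · exact hx0y1 h
    · exact hx0y2 h
  have eb : Pc L (F ∪ {y1, y2}) c = Pc L (F ∪ {x0, y1}) c := by
    have h1 := nnl1 hC (fin2 y1 y2) hcG t4
    have h2 := nnl1 hC (fin2 x0 y1) hcF t3
    have h3 : insert x0 (F ∪ {y1, y2}) = insert y2 (F ∪ {x0, y1}) := by
      ext v
      simp only [mem_union, mem_insert_iff, mem_singleton_iff]
      tauto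
    rw [← h1, h3, h2]
  have hU : F ∪ {x1, x2} ∪ {y1, y2} = F ∪ {y1, y2} ∪ {x1, x2} := by
    ext v
    simp only [mem_union, mem_insert_iff, mem_singleton_iff]
    tauto
  have hUf : (F ∪ {x1, x2} ∪ {y1, y2}).Finite := (fin2 x1 x2).union (toFinite _)
  have hyA : ∀ y : U, y ∈ Pc L (F ∪ {x0, x1}) y₀ → y ∉ Pc L (F ∪ {x1, x2}) x0 := by
    intro y hy h
    rw [← e12] at hy
    have h1 := pc_disj hC (fin2 x1 x2).countable h hy
    have h2 := mem_pc (L := L) (A := F ∪ {x1, x2}) x0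
    rw [h1, e12] at h2
    exact n0 h2
  have eA : Pc L (F ∪ {x1, x2} ∪ {y1, y2}) x0 = Pc L (F ∪ {x1, x2}) x0 := by
    refine nnl' hC (fin2 x1 x2) hUf subset_union_left hx0G ?_
    rintro v (hv | hv | hv) hv'
    · exact absurd hv hv'
    · rw [hv]
      exact hyA y1 hy1
    · rw [mem_singleton_iff] at hv
      rw [hv]
      exact hyA y2 hy2b
  have hxA : ∀ x : U, x ∈ Pc L (F ∪ {x0, y1}) c → x ∉ Pc L (F ∪ {y1, y2}) x0 := by
    intro x hx h
    rw [← eb] at hx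
    have h1 := pc_disj hC (fin2 y1 y2).countable h hx
    have h2 := mem_pc (L := L) (A := F ∪ {y1, y2}) x0
    rw [h1] at h2
    exact t4 h2
  have eA' : Pc L (F ∪ {x1, x2} ∪ {y1, y2}) x0 = Pc L (F ∪ {y1, y2}) x0 := by
    refine nnl' hC (fin2 y1 y2) hUf (by rw [hU]; exact subset_union_left) hx0G' ?_
    rintro v ((hv | hv | hv) | hv) hv'
    · exact absurd (Or.inl hv) hv'
    · rw [hv]
      exact hxA x1 hx1b
    · rw [mem_singleton_iff] at hv
      rw [hv]
      exact hxA x2 hx2b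
    · exact absurd (Or.inr hv) hv'
  have h1 : xm ∈ Pc L (F ∪ {x1, x2}) x0 := pc_sq hC hsq
  rw [← eA, eA'] at h1
  exact hxA xm hxmb h1

/-- the statement, given the covering property over `F u_0` -/
theorem xno_fin (hM1T : St_M1T) (hCAL : St_CAL) (hNN : St_NN) (hIDS : St_IDS) (hIDB : St_IDB)
    (hC : Cz L U) {A₀ : Set U} {big : Set U → U → Prop} (hB : Bg L A₀ big) {F : Set U} {z : U}
    {u : ℚ → Fin 1 → U} (hf : Fcs L A₀ big F z u) {y₀ : U} (hy₀ : y₀ ∈ Pc L F z)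
    (h : ∀ p q, p ≠ q → big (F ∪ {u p 0, u q 0}) y₀ ∧
      ∀ v, v ∈ Pc L (F ∪ {u p 0, u q 0}) y₀ ↔ v ∈ Pc L (F ∪ {u 0 0, u 1 0}) y₀)
    (hn : ∀ r, u r 0 ∉ Pc L (F ∪ {u 0 0, u 1 0}) y₀)
    (hcov : u 1 0 ∈ Pc L (insert (u 0 0) F) y₀ → ∃ y1 ∈ Pc L (F ∪ {u 0 0, u 1 0}) y₀,
      Sq L (insert (u 0 0) F) (s1 (u 1 0)) (s1 y1)) : False := by
  obtain ⟨cM, cD, cE, cP⟩ := hCAL L U hC A₀ big hB
  have hF := hf.fin
  have hA := hf.sub
  have hm1 : u 1 0 ∈ Pc L (insert (u 0 0) F) y₀ := by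
    refine hf.fac 0 1 (by norm_num) y₀ hy₀ (hB.b4 _ _ y₀ (hA.trans (subset_insert _ _)) ?_
      (hF.union (toFinite _)) (h 0 1 (by norm_num)).1)
    rintro v (hv | hv)
    · exact Or.inr (Or.inl hv)
    · exact Or.inl hv
  obtain ⟨y1, hy1, hxy⟩ := hcov hm1
  have hbF : big F z := hB.pc F y₀ z hA hF (pc_symm hC hF.countable hy₀)
    (hB.b4 F _ y₀ hA subset_union_left (hF.union (toFinite _)) (h 0 1 (by norm_num)).1)
  have hx0F : u 0 0 ∉ F := fun hx => cP F z _ hA hF hbF hx (hf.mem 0)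
  have hsq : Sq L (F ∪ {u 1 0, u 2 0}) (s1 (u 0 0)) (s1 (u (-1) 0)) := by
    obtain ⟨f, f1, f2, f3, f4⟩ := xno_idx
    have h1 := (hIDB L U (Fin 1) F u hf.ind).1 {1, 2} f f1 (by
      rintro s (hs | hs)
      · left
        intro q
        rw [hs]
        exact f2 q
      · left
        intro q
        rw [mem_singleton_iff] at hs
        rw [hs]
        have := f2 q
        linarith)
    have h2 := hIDS L U hC (Fin 1) _ _ h1 1 (fun _ => 0) (fun _ => -1)
      (fun a b hab => absurd hab (by omega)) (fun a b hab => absurd hab (by omega))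
    have h3 := sq_sub h2 (fun _ : Fin 1 => ((0 : Fin 1), (0 : Fin 1)))
    have h4 : F ∪ Tm u {1, 2} = F ∪ {u 1 0, u 2 0} := by
      congr 1
      ext v
      constructor
      · rintro ⟨q, (hq | hq), k, hv⟩
        · left
          rw [hv, hq, Subsingleton.elim k 0]
        · right
          rw [mem_singleton_iff] at hq
          rw [hv, hq, Subsingleton.elim k 0]
          rfl
      · rintro (hv | hv)
        · exact ⟨1, Or.inl rfl, 0, hv⟩
        · exact ⟨2, Or.inr rfl, 0, hv⟩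
    rw [h4] at h3
    refine sq_congr h3 ?_ ?_
    · funext i
      simp only [s1, tms, f4]
    · funext i
      simp only [s1, tms, f3]
  have hext : ∀ p q, p ≠ q → Pc L (F ∪ {u p 0, u q 0}) y₀ = Pc L (F ∪ {u 0 0, u 1 0}) y₀ :=
    fun p q hpq => Set.ext (h p q hpq).2
  exact xno_core hM1T hCAL hNN hC hB hA hF hx0F hm1 (h 0 1 (by norm_num)).1 (h 0 2 (by norm_num)).1
    (h 0 (-1) (by norm_num)).1 (hext 0 2 (by norm_num)) (hext 0 (-1) (by norm_num))
    (hext 1 2 (by norm_num)) (hn 0) (hn 1) (hn 2) hsq hy1 hxy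

end

theorem thm_XNO (hCOV : St_COV) (hM1T : St_M1T) (hCAL : St_CAL) (hNN : St_NN) (hIDS : St_IDS)
    (hIDB : St_IDB) : St_XNO := by
  rintro L U _ hC A₀ big hB F z u hf ⟨y₀, hy₀, h, hn⟩
  refine xno_fin hM1T hCAL hNN hIDS hIDB hC hB hf hy₀ h hn fun hm1 => ?_
  have hF0 : insert (u 0 0) F ⊆ F ∪ {u 0 0, u 1 0} := by
    rintro v (hv | hv)
    · exact Or.inr (Or.inl hv)
    · exact Or.inl hv
  obtain ⟨o, ho, ho'⟩ := hCOV L U hC A₀ big hB (insert (u 0 0) F) (F ∪ {u 0 0, u 1 0}) y₀ (u 1 0)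
    (hf.sub.trans (subset_insert _ _)) hF0 (hf.fin.union (toFinite _)) (h 0 1 (by norm_num)).1 hm1
  exact ⟨o, ho', ho⟩

end Pool.Agent.TPY

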