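import Pool.Agent.TPY.StM2

/-!
# TPY module XPC: an indiscernible sequence in a big piece all of whose finite sets are good has no facing pair
-/

set_option autoImplicit false
set_option linter.unusedVariables false

namespace Pool.Agent.TPY

open FirstOrder.Language Set
open scoped FirstOrder
open Pool.Agent.MNO (Dp FE Sq Exa sq_refl sq_symm sq_trans sq_sub sq_mono sq_add exists_enum)

section

variable {L : FirstOrder.Language.{0, 0}} {U : Type} [L.Structure U]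

private theorem xpc_rs (F : Set U) (a : U) : F ∪ range (s1 a) = insert a F := by
  ext x
  constructor
  · rintro (h | ⟨i, rfl⟩)
    · exact Or.inr h
    · exact Or.inl rfl
  · rintro (rfl | h)
    · exact Or.inr ⟨0, rfl⟩
    · exact Or.inl h

/-- invariance of `big` under equality of strong types over a finite base -/
private theorem xpc_big {A₀ : Set U} {big : Set U → U → Prop} (hB : Bg L A₀ big) {F : Set U} (hA : A₀ ⊆ F)
    (hF : F.Finite) {γ : Type} [Finite γ] {a a' : γ → U} {z z' : U}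
    (hs : Sq L F (Sum.elim a (s1 z)) (Sum.elim a' (s1 z'))) (hb : big (F ∪ range a) z) :
    big (F ∪ range a') z' := by
  obtain ⟨n, c, hc⟩ := exists_enum hF
  have hr : ∀ a : γ → U, A₀ ∪ range (Sum.elim c a) = F ∪ range a := by
    intro a
    rw [← hc] at hA ⊢
    ext x
    constructor
    · rintro (h | ⟨i | i, rfl⟩)
      · exact Or.inl (hA h)
      · exact Or.inl ⟨i, rfl⟩
      · exact Or.inr ⟨i, rfl⟩
    · rintro (⟨i, rfl⟩ | ⟨i, rfl⟩)
      · exact Or.inr ⟨Sum.inl i, rfl⟩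
      · exact Or.inr ⟨Sum.inr i, rfl⟩
  have h1 : Tq L A₀ (Sum.elim (Sum.elim a (s1 z)) c) (Sum.elim (Sum.elim a' (s1 z')) c) := by
    refine tq_mono hA (tq_add (tq_of_sq hs) c fun k => ?_)
    rw [← hc]
    exact ⟨k, rfl⟩
  have h2 := tq_sub h1 (Sum.elim (Sum.elim (fun k => Sum.inr k) (fun k => Sum.inl (Sum.inl k)))
    (fun k => Sum.inl (Sum.inr k)) : (Fin n ⊕ γ) ⊕ Fin 1 → (γ ⊕ Fin 1) ⊕ Fin n)
  have e : ∀ (a : γ → U) (z : U), (fun k => Sum.elim (Sum.elim a (s1 z)) c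
      ((Sum.elim (Sum.elim (fun k => Sum.inr k) (fun k => Sum.inl (Sum.inl k)))
    (fun k => Sum.inl (Sum.inr k)) : (Fin n ⊕ γ) ⊕ Fin 1 → (γ ⊕ Fin 1) ⊕ Fin n) k)) =
      Sum.elim (Sum.elim c a) (s1 z) := by
    intro a z
    funext k
    rcases k with (k | k) | k <;> rfl
  rw [e, e] at h2
  have h3 := hB.inv (Fin n ⊕ γ) (Sum.elim c a) (Sum.elim c a') z z' h2
  rw [hr, hr] at h3
  exact h3 hb

/-- facing is invariant under equality of strong types -/
private theorem xpc_inv (hM : St_M1T) (hC : Cz L U) {A₀ : Set U} {big : Set U → U → Prop} (hB : Bg L A₀ big)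
    {F : Set U} (hA : A₀ ⊆ F) (hF : F.Finite) {a b a' b' z y : U}
    (hs : Sq L F (Sum.elim (s1 a) (s1 b)) (Sum.elim (s1 a') (s1 b')))
    (hy : y ∈ Pc L F z) (hb : big (insert a F) y) (hby : b ∈ Pc L (insert a F) y) :
    ∀ y' ∈ Pc L F z, big (insert a' F) y' → b' ∈ Pc L (insert a' F) y' := by
  intro y' hy' hb'
  obtain ⟨c, hc⟩ := sq_ext hC hF.countable (sq_symm hs) (s1 y')
  have hc0 : c = s1 (c 0) := by
    funext i
    rw [Subsingleton.elim i 0]
    rfl
  rw [hc0] at hc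
  have h1 : Sq L F (s1 y') (s1 (c 0)) := sq_sub hc (fun i : Fin 1 => Sum.inr i)
  have h2 : Sq L F (Sum.elim (s1 a') (s1 y')) (Sum.elim (s1 a) (s1 (c 0))) := by
    have h3 := sq_sub hc (Sum.elim (fun i => Sum.inl (Sum.inl i)) (fun i => Sum.inr i) :
      Fin 1 ⊕ Fin 1 → (Fin 1 ⊕ Fin 1) ⊕ Fin 1)
    have e : ∀ a b y : U, (fun k => Sum.elim (Sum.elim (s1 a) (s1 b)) (s1 y)
        ((Sum.elim (fun i => Sum.inl (Sum.inl i)) (fun i => Sum.inr i) :
      Fin 1 ⊕ Fin 1 → (Fin 1 ⊕ Fin 1) ⊕ Fin 1) k)) = Sum.elim (s1 a) (s1 y) := by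
      intro a b y
      funext k
      rcases k with k | k <;> rfl
    rw [e, e] at h3
    exact h3
  have h4 : c 0 ∈ Pc L F y := by
    have h5 : c 0 ∈ Pc L F y' := pc_sq hC h1
    rw [pc_eq hC hF.countable hy, ← pc_eq hC hF.countable hy']
    exact h5
  have h6 : big (insert a F) (c 0) := by
    have h7 := xpc_big hB hA hF h2 (by
      rw [xpc_rs]
      exact hb')
    rw [xpc_rs] at h7
    exact h7
  have h8 := hM L U hC A₀ big hB F (insert a F) y (c 0) hA (subset_insert a F) (hF.insert a) h4 hb h6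
  have h9 : b ∈ Pc L (insert a F) (c 0) := by
    rw [pc_eq hC (hF.insert a).countable h8]
    exact hby
  have h10 : Tq L F (Sum.elim ![c 0, b] (s1 a)) (Sum.elim ![y', b'] (s1 a')) := by
    have h11 := tq_symm (tq_sub (tq_of_sq hc) (Sum.elim ![Sum.inr 0, Sum.inl (Sum.inr 0)]
      (fun i => Sum.inl (Sum.inl i)) : Fin 2 ⊕ Fin 1 → (Fin 1 ⊕ Fin 1) ⊕ Fin 1))
    have e : ∀ a b y : U, (fun k => Sum.elim (Sum.elim (s1 a) (s1 b)) (s1 y)
        ((Sum.elim ![Sum.inr 0, Sum.inl (Sum.inr 0)]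
      (fun i => Sum.inl (Sum.inl i)) : Fin 2 ⊕ Fin 1 → (Fin 1 ⊕ Fin 1) ⊕ Fin 1) k)) =
        Sum.elim ![y, b] (s1 a) := by
      intro a b y
      funext k
      rcases k with k | k
      · fin_cases k <;> rfl
      · rfl
    rw [e, e] at h11
    exact h11
  have h12 := pc_tq hC hF.countable h10 (by
    rw [xpc_rs]
    exact h9)
  rw [xpc_rs] at h12
  exact h12

private theorem xpc_pair (hI : St_IDS) (hC : Cz L U) {F : Set U} {u : ℚ → Fin 1 → U} (hu : Idc L F u)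
    {p q p' q' : ℚ} (h : p < q) (h' : p' < q') :
    Sq L F (Sum.elim (s1 (u p 0)) (s1 (u q 0))) (Sum.elim (s1 (u p' 0)) (s1 (u q' 0))) := by
  have hm : ∀ p q : ℚ, p < q → StrictMono ![p, q] := by
    intro p q h a b hab
    fin_cases a <;> fin_cases b
    · exact absurd hab (lt_irrefl _)
    · exact h
    · exact absurd hab (by decide)
    · exact absurd hab (lt_irrefl _)
  have h1 := hI L U hC (Fin 1) F u hu 2 ![p, q] ![p', q'] (hm p q h) (hm p' q' h')
  have h2 := sq_sub h1 (Sum.elim (fun _ => (0, 0)) (fun _ => (1, 0)) : Fin 1 ⊕ Fin 1 → Fin 2 × Fin 1)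
  have e : ∀ p q : ℚ, (fun k => tms u ![p, q] ((Sum.elim (fun _ => (0, 0)) (fun _ => (1, 0)) :
      Fin 1 ⊕ Fin 1 → Fin 2 × Fin 1) k)) = Sum.elim (s1 (u p 0)) (s1 (u q 0)) := by
    intro p q
    funext k
    rcases k with k | k <;> rfl
  rw [e, e] at h2
  exact h2

private theorem xpc_swap {F : Set U} {a b a' b' : U}
    (h : Sq L F (Sum.elim (s1 a) (s1 b)) (Sum.elim (s1 a') (s1 b'))) :
    Sq L F (Sum.elim (s1 b) (s1 a)) (Sum.elim (s1 b') (s1 a')) := by
  have h2 := sq_sub h (Sum.swap : Fin 1 ⊕ Fin 1 → Fin 1 ⊕ Fin 1)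
  have e : ∀ a b : U, (fun k => Sum.elim (s1 a) (s1 b) ((Sum.swap : Fin 1 ⊕ Fin 1 → Fin 1 ⊕ Fin 1) k)) =
      Sum.elim (s1 b) (s1 a) := by
    intro a b
    funext k
    rcases k with k | k <;> rfl
  rw [e, e] at h2
  exact h2

private theorem xpc_tm (F : Set U) (u : ℚ → Fin 1 → U) (p : ℚ) : F ∪ Tm u {p} = insert (u p 0) F := by
  ext x
  constructor
  · rintro (h | ⟨q, hq, k, rfl⟩)
    · exact Or.inr h
    · rw [mem_singleton_iff] at hq
      rw [hq, Subsingleton.elim k 0]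
      exact Or.inl rfl
  · rintro (rfl | h)
    · exact Or.inr ⟨p, rfl, 0, rfl⟩
    · exact Or.inl h

private theorem xpc_tmf (u : ℚ → Fin 1 → U) {J : Set ℚ} (hJ : J.Finite) : (Tm u J).Finite := by
  refine (hJ.image fun q => u q 0).subset ?_
  rintro x ⟨q, hq, k, rfl⟩
  rw [Subsingleton.elim k 0]
  exact ⟨q, hq, rfl⟩

end

theorem thm_XPC (hXJN : St_XJN) (hNN : St_NN) (hM : St_M1T) (hCAL : St_CAL) (hGPE : St_GPE) (hIDS : St_IDS) :
    St_XPC := by
  intro L U _ hC A₀ big hB F z u hA hF hu hmem hgood p q y hpq hy hby hq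
  obtain ⟨-, -, -, c4⟩ := hCAL L U hC A₀ big hB
  have hg1 : ∀ p : ℚ, ∃ y ∈ Pc L F z, big (insert (u p 0) F) y := by
    intro p
    obtain ⟨y, h1, h2⟩ := hgood {p} (finite_singleton p)
    rw [xpc_tm] at h2
    exact ⟨y, h1, h2⟩
  have hsx : ∀ p q : ℚ, Sq L F (s1 (u p 0)) (s1 (u q 0)) := by
    intro p q
    have h1 := hIDS L U hC (Fin 1) F u hu 1 ![p] ![q] (Subsingleton.strictMono _) (Subsingleton.strictMono _)
    have h2 := sq_sub h1 (fun k : Fin 1 => (k, (0 : Fin 1)))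
    have e : ∀ p : ℚ, (fun k : Fin 1 => tms u ![p] (k, (0 : Fin 1))) = s1 (u p 0) := by
      intro p
      funext k
      rw [Subsingleton.elim k 0]
      rfl
    rw [e, e] at h2
    exact h2
  -- the reversed pair
  have hrev : ∃ y' ∈ Pc L F z, big (insert (u q 0) F) y' ∧ u p 0 ∈ Pc L (insert (u q 0) F) y' := by
    obtain ⟨y', h1, h2⟩ := hg1 q
    refine ⟨y', h1, h2, ?_⟩
    rcases hNN L U hC A₀ big hB F z (u p 0) (u q 0) y y' hA hF (hmem p) (hmem q) (hsx p q) hy h1 hby h2 with h3 | h3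
    · exfalso
      rw [h3] at hq
      exact c4 (insert (u q 0) F) y' (u q 0) (hA.trans (subset_insert _ _)) (hF.insert _) h2
        (mem_insert _ _) hq
    · exact h3.2
  obtain ⟨y', hy', hby', hp⟩ := hrev
  have hfac : ∀ a b : ℚ, a ≠ b → ∀ w ∈ Pc L F z, big (insert (u a 0) F) w → u b 0 ∈ Pc L (insert (u a 0) F) w := by
    intro a b hab
    rcases lt_or_gt_of_ne hpq with h1 | h1
    · rcases lt_or_gt_of_ne hab with h2 | h2
      · exact xpc_inv hM hC hB hA hF (xpc_pair hIDS hC hu h1 h2) hy hby hq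
      · exact xpc_inv hM hC hB hA hF (xpc_swap (xpc_pair hIDS hC hu h1 h2)) hy' hby' hp
    · rcases lt_or_gt_of_ne hab with h2 | h2
      · exact xpc_inv hM hC hB hA hF (xpc_pair hIDS hC hu h1 h2) hy' hby' hp
      · exact xpc_inv hM hC hB hA hF (xpc_swap (xpc_pair hIDS hC hu h1 h2)) hy hby hq
  have hS : Fcs L A₀ big F z u := ⟨hA, hF, hu, hmem, hgood, hfac⟩
  have hne : u 0 0 ≠ u 1 0 := by
    intro he
    obtain ⟨w, h1, h2⟩ := hg1 0
    have h3 := hfac 0 1 zero_ne_one w h1 h2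
    rw [← he] at h3
    exact c4 (insert (u 0 0) F) w (u 0 0) (hA.trans (subset_insert _ _)) (hF.insert _) h2 (mem_insert _ _) h3
  obtain ⟨J, hJ, h0, hE⟩ := hGPE L U hC F u hF hu hne
  obtain ⟨w, h1, h2⟩ := hgood J hJ
  have h3 := hXJN L U hC A₀ big hB F z u hS J 0 hJ h0 w h1 h2
  have hfin : (F ∪ Tm u J).Finite := hF.union (xpc_tmf u hJ)
  have hsub : A₀ ⊆ F ∪ Tm u J := hA.trans subset_union_left
  exact hB.b1 (F ∪ Tm u J) (u 0 0) hsub hfin hE (hB.pc (F ∪ Tm u J) w (u 0 0) hsub hfin h3 h2)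

end Pool.Agent.TPY
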