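import Pool.Agent.TPY.StM2
import Pool.Agent.TPY.Tqp

/-!
# TPY: XTH, three points of a facing system (helper77)
-/

set_option autoImplicit false

namespace Pool.Agent.TPY

open FirstOrder.Language Set
open scoped FirstOrder
open Pool.Agent.MNO

section

variable {L : FirstOrder.Language.{0, 0}} {U : Type} [L.Structure U]

/-- invariance of big pieces and of the membership in them, over a finite base `F ⊇ A₀` -/
private theorem xth_inv (hC : Cz L U) {A₀ : Set U} {big : Set U → U → Prop} (hB : Bg L A₀ big)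
    {F : Set U} (hF : A₀ ⊆ F) (hFf : F.Finite) {γ : Type} [Finite γ] {a a' : γ → U}
    {y v y' v' : U} (h : Sq L F (Sum.elim a ![y, v]) (Sum.elim a' ![y', v']))
    (hb : big (F ∪ range a) y) (hv : v ∈ Pc L (F ∪ range a) y) :
    big (F ∪ range a') y' ∧ v' ∈ Pc L (F ∪ range a') y' := by
  refine ⟨?_, ?_⟩
  · obtain ⟨n, b, hbF⟩ := exists_enum hFf
    have h1 := sq_add h b (fun i => by rw [← hbF]; exact ⟨i, rfl⟩)
    have h2 := sq_sub h1 (Sum.elim (Sum.elim (fun i => Sum.inl (Sum.inl i)) (fun i => Sum.inr i))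
      (fun _ => Sum.inl (Sum.inr 0)) : (γ ⊕ Fin n) ⊕ Fin 1 → (γ ⊕ Fin 2) ⊕ Fin n)
    have e : ∀ (a : γ → U) (y v : U), (fun i => Sum.elim (Sum.elim a ![y, v]) b
        ((Sum.elim (Sum.elim (fun i => Sum.inl (Sum.inl i)) (fun i => Sum.inr i))
      (fun _ => Sum.inl (Sum.inr 0)) : (γ ⊕ Fin n) ⊕ Fin 1 → (γ ⊕ Fin 2) ⊕ Fin n) i)) =
        Sum.elim (Sum.elim a b) (s1 y) := by
      intro a y v
      funext i
      rcases i with (i | i) | i
      · rfl
      · rfl
      · rfl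
    rw [e, e] at h2
    have h3 := hB.inv (γ ⊕ Fin n) (Sum.elim a b) (Sum.elim a' b) y y' (tq_of_sq (sq_mono hF h2))
    have e2 : ∀ a : γ → U, A₀ ∪ range (Sum.elim a b) = F ∪ range a := by
      intro a
      rw [Sum.elim_range, hbF]
      ext x
      constructor
      · rintro (h | h | h)
        · exact Or.inl (hF h)
        · exact Or.inr h
        · exact Or.inl h
      · rintro (h | h)
        · exact Or.inr (Or.inr h)
        · exact Or.inr (Or.inl h)
    rw [e2, e2] at h3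
    exact h3 hb
  · have h1 := sq_sub h (Sum.elim Sum.inr Sum.inl : Fin 2 ⊕ γ → γ ⊕ Fin 2)
    have e : ∀ (a : γ → U) (y v : U), (fun i => Sum.elim a ![y, v]
        ((Sum.elim Sum.inr Sum.inl : Fin 2 ⊕ γ → γ ⊕ Fin 2) i)) = Sum.elim ![y, v] a := by
      intro a y v
      funext i
      rcases i with i | i <;> rfl
    rw [e, e] at h1
    exact pc_tq hC hFf.countable (tq_of_sq h1) hv

/-- a strictly monotone map of `ℚ` onto the positive numbers -/
private theorem xth_g : ∃ g : ℚ → ℚ, StrictMono g ∧ (∀ t, 0 < g t) ∧ ∀ s, 0 < s → ∃ t, g t = s := by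
  refine ⟨fun t => if t ≤ 0 then (1 - t)⁻¹ else 1 + t, ?_, ?_, ?_⟩
  · intro a b hab
    show (if a ≤ 0 then (1 - a)⁻¹ else 1 + a) < if b ≤ 0 then (1 - b)⁻¹ else 1 + b
    by_cases hb : b ≤ 0
    · have ha : a ≤ 0 := hab.le.trans hb
      rw [if_pos ha, if_pos hb]
      exact inv_strictAnti₀ (by linarith) (by linarith)
    · rw [if_neg hb]
      by_cases ha : a ≤ 0
      · rw [if_pos ha]
        have : (1 - a)⁻¹ ≤ 1 := inv_le_one_of_one_le₀ (by linarith)
        linarith [not_le.1 hb]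
      · rw [if_neg ha]
        linarith
  · intro t
    show 0 < if t ≤ 0 then (1 - t)⁻¹ else 1 + t
    by_cases ht : t ≤ 0
    · rw [if_pos ht]
      exact inv_pos.2 (by linarith)
    · rw [if_neg ht]
      linarith [not_le.1 ht]
  · intro s hs
    by_cases h1 : s ≤ 1
    · refine ⟨1 - s⁻¹, ?_⟩
      have h2 : 1 ≤ s⁻¹ := (one_le_inv₀ hs).2 h1
      show (if 1 - s⁻¹ ≤ 0 then (1 - (1 - s⁻¹))⁻¹ else 1 + (1 - s⁻¹)) = s
      rw [if_pos (by linarith), sub_sub_cancel, inv_inv]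
    · refine ⟨s - 1, ?_⟩
      show (if s - 1 ≤ 0 then (1 - (s - 1))⁻¹ else 1 + (s - 1)) = s
      rw [if_neg (by linarith [not_le.1 h1])]
      ring

private theorem xth_f1 (t a b : ℚ) (ha : t < a) (hb : t < b) : ∃ f : ℚ → ℚ, StrictMono f ∧
    (∀ q, t < f q) ∧ ∃ a' b', f a' = a ∧ f b' = b := by
  obtain ⟨g, hg, hg0, hgs⟩ := xth_g
  obtain ⟨a', ha'⟩ := hgs (a - t) (by linarith)
  obtain ⟨b', hb'⟩ := hgs (b - t) (by linarith)
  refine ⟨fun x => t + g x, fun x y hxy => by have := hg hxy; show t + g x < t + g y; linarith,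
    fun q => by have := hg0 q; show t < t + g q; linarith, a', b', ?_, ?_⟩
  · show t + g a' = a
    rw [ha']; ring
  · show t + g b' = b
    rw [hb']; ring

private theorem xth_f2 (t a b : ℚ) (ha : a < t) (hb : b < t) : ∃ f : ℚ → ℚ, StrictMono f ∧
    (∀ q, f q < t) ∧ ∃ a' b', f a' = a ∧ f b' = b := by
  obtain ⟨g, hg, hg0, hgs⟩ := xth_g
  obtain ⟨a', ha'⟩ := hgs (t - a) (by linarith)
  obtain ⟨b', hb'⟩ := hgs (t - b) (by linarith)
  refine ⟨fun x => t - g (-x), fun x y hxy => by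
    have := hg (neg_lt_neg hxy); show t - g (-x) < t - g (-y); linarith,
    fun q => by have := hg0 (-q); show t - g (-q) < t; linarith, -a', -b', ?_, ?_⟩
  · show t - g (- -a') = a
    rw [neg_neg, ha']; ring
  · show t - g (- -b') = b
    rw [neg_neg, hb']; ring

/-- terms on the same side of `u t` have the same strong type over `F`, `u t` -/
private theorem xth_sq (hC : Cz L U) (hIDS : St_IDS) (hIDB : St_IDB) {F : Set U}
    {u : ℚ → Fin 1 → U} (hu : Idc L F u) (t a b : ℚ) (h : (t < a ∧ t < b) ∨ (a < t ∧ b < t)) :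
    Sq L (insert (u t 0) F) (s1 (u a 0)) (s1 (u b 0)) := by
  obtain ⟨f, hf, hft, a', b', hfa, hfb⟩ : ∃ f : ℚ → ℚ, StrictMono f ∧
      ((∀ q, f q < t) ∨ ∀ q, t < f q) ∧ ∃ a' b', f a' = a ∧ f b' = b := by
    rcases h with ⟨h1, h2⟩ | ⟨h1, h2⟩
    · obtain ⟨f, hf, hft, h3⟩ := xth_f1 t a b h1 h2
      exact ⟨f, hf, Or.inr hft, h3⟩
    · obtain ⟨f, hf, hft, h3⟩ := xth_f2 t a b h1 h2
      exact ⟨f, hf, Or.inl hft, h3⟩
  have h1 := (hIDB L U (Fin 1) F u hu).1 {t} f hf (fun s hs => by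
    rw [mem_singleton_iff] at hs
    rw [hs]
    exact hft)
  have e : F ∪ Tm u {t} = insert (u t 0) F := by
    ext x
    constructor
    · rintro (h | ⟨q, hq, k, hk⟩)
      · exact Or.inr h
      · rw [mem_singleton_iff] at hq
        rw [hq, Subsingleton.elim k 0] at hk
        exact Or.inl hk
    · rintro (h | h)
      · exact Or.inr ⟨t, rfl, 0, h⟩
      · exact Or.inl h
  rw [e] at h1
  have h2 := hIDS L U hC (Fin 1) _ _ h1 1 (fun _ => a') (fun _ => b')
    (Subsingleton.strictMono _) (Subsingleton.strictMono _)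
  have h3 := sq_sub h2 (fun _ : Fin 1 => ((0 : Fin 1), (0 : Fin 1)))
  have e3 : ∀ c : ℚ, (fun i : Fin 1 => tms (fun q => u (f q)) (fun _ : Fin 1 => c)
      ((fun _ : Fin 1 => ((0 : Fin 1), (0 : Fin 1))) i)) = s1 (u (f c) 0) := fun c => rfl
  rw [e3, e3, hfa, hfb] at h3
  exact h3

end

theorem thm_XTH (hM1T : St_M1T) (hCAL : St_CAL) (hNN : St_NN) (hIDS : St_IDS) (hIDB : St_IDB) :
    St_XTH := by
  intro L U _ hC A₀ big hB F z u hS p₀ q₀ r₀ y₀ hpq₀ hpr₀ hqr₀ hy₀ hb₀ hr₀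
  obtain ⟨-, -, -, hCAL4⟩ := hCAL L U hC A₀ big hB
  have hFc : F.Countable := hS.fin.countable
  -- bases
  have hsub1 : ∀ a : U, F ⊆ insert a F := fun a => subset_insert a F
  have hset : ∀ a b : U, insert b (insert a F) = F ∪ {a, b} := by
    intro a b
    ext x
    simp only [mem_insert_iff, mem_union, mem_singleton_iff]
    tauto
  have hfin1 : ∀ a : U, (insert a F).Finite := fun a => hS.fin.insert a
  have hfin2 : ∀ a b : U, (F ∪ {a, b}).Finite := fun a b => hS.fin.union (Set.toFinite _)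
  -- uniqueness
  have huniq : ∀ (C : Set U), F ⊆ C → C.Finite → ∀ y y', y ∈ Pc L F z → y' ∈ Pc L F z →
      big C y → big C y' → Pc L C y = Pc L C y' := by
    intro C hFC hCf y y' hy hy' hb hb'
    have h1 : y' ∈ Pc L F y := by
      rw [pc_eq hC hFc hy]
      exact hy'
    exact (pc_eq hC hCf.countable (hM1T L U hC A₀ big hB F C y y' hS.sub hFC hCf h1 hb hb')).symm
  have hgood2 : ∀ p q, ∃ y ∈ Pc L F z, big (F ∪ {u p 0, u q 0}) y := by
    intro p q
    obtain ⟨y, hy, hb⟩ := hS.good {p, q} (Set.toFinite _)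
    refine ⟨y, hy, ?_⟩
    have e : Tm u {p, q} = {u p 0, u q 0} := by
      ext x
      constructor
      · rintro ⟨s, hs, k, hk⟩
        rw [Subsingleton.elim k 0] at hk
        rcases hs with hs | hs
        · left
          rw [hk, hs]
        · right
          rw [mem_singleton_iff] at hs ⊢
          rw [hk, hs]
      · rintro (h | h)
        · exact ⟨p, Or.inl rfl, 0, h⟩
        · exact ⟨q, Or.inr rfl, 0, h⟩
    rw [e] at hb
    exact hb
  choose Y hYP hYb using hgood2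
  -- the piece `e(u_p, u_q)`
  obtain ⟨e, he⟩ : ∃ e : ℚ → ℚ → Set U, ∀ p q, e p q = Pc L (F ∪ {u p 0, u q 0}) (Y p q) :=
    ⟨fun p q => Pc L (F ∪ {u p 0, u q 0}) (Y p q), fun _ _ => rfl⟩
  have heU : ∀ p q y, y ∈ Pc L F z → big (F ∪ {u p 0, u q 0}) y →
      Pc L (F ∪ {u p 0, u q 0}) y = e p q := by
    intro p q y hy hb
    rw [he]
    exact huniq _ subset_union_left (hfin2 _ _) _ _ hy (hYP p q) hb (hYb p q)
  have hsymm : ∀ p q, e p q = e q p := by
    intro p q
    have h1 := hYb p q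
    have h2 := he p q
    rw [pair_comm (u p 0) (u q 0)] at h1 h2
    rw [h2]
    exact heU q p _ (hYP p q) h1
  have hpar1 : ∀ p q, u p 0 ∉ e p q := by
    intro p q
    rw [he]
    exact hCAL4 _ _ _ (hS.sub.trans subset_union_left) (hfin2 _ _) (hYb p q)
      (Or.inr (Or.inl rfl))
  have hpar2 : ∀ p q, u q 0 ∉ e p q := by
    intro p q
    rw [hsymm]
    exact hpar1 q p
  -- NN
  have hNN' : ∀ t a b, t ≠ a → t ≠ b → Sq L (insert (u t 0) F) (s1 (u a 0)) (s1 (u b 0)) →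
      (e t a = e t b ∧ u b 0 ∉ e t a ∧ u a 0 ∉ e t b) ∨ (u b 0 ∈ e t a ∧ u a 0 ∈ e t b) := by
    intro t a b hta htb hsq
    obtain ⟨yt, hyt, hbt⟩ : ∃ y ∈ Pc L F z, big (insert (u t 0) F) y := by
      refine ⟨Y t a, hYP t a, hB.b4 _ _ _ (hS.sub.trans (hsub1 _)) ?_ (hfin2 _ _) (hYb t a)⟩
      rw [← hset]
      exact subset_insert _ _
    have hmem : ∀ c, t ≠ c → Y t c ∈ Pc L (insert (u t 0) F) yt := by
      intro c _
      have h1 : big (insert (u t 0) F) (Y t c) :=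
        hB.b4 _ _ _ (hS.sub.trans (hsub1 _)) (by
          rw [← hset]
          exact subset_insert _ _) (hfin2 _ _) (hYb t c)
      rw [huniq _ (hsub1 _) (hfin1 _) yt (Y t c) hyt (hYP t c) hbt h1]
      exact mem_pc _
    have hb1 : ∀ c, big (insert (u c 0) (insert (u t 0) F)) (Y t c) := by
      intro c
      rw [hset]
      exact hYb t c
    have h1 := hNN L U hC A₀ big hB (insert (u t 0) F) yt (u a 0) (u b 0) (Y t a) (Y t b)
      (hS.sub.trans (hsub1 _)) (hfin1 _) (hS.fac t a hta yt hyt hbt) (hS.fac t b htb yt hyt hbt) hsq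
      (hmem a hta) (hmem b htb) (hb1 a) (hb1 b)
    rw [hset, hset, ← he, ← he] at h1
    rcases h1 with h1 | h1
    · left
      refine ⟨h1, ?_, ?_⟩
      · rw [h1]
        exact hpar2 t b
      · rw [← h1]
        exact hpar2 t a
    · right
      exact h1
  have hlo : ∀ a b c, a < b → b < c →
      (e a b = e a c ∧ u c 0 ∉ e a b ∧ u b 0 ∉ e a c) ∨ (u c 0 ∈ e a b ∧ u b 0 ∈ e a c) := by
    intro a b c hab hbc
    exact hNN' a b c hab.ne (hab.trans hbc).ne
      (xth_sq hC hIDS hIDB hS.ind a b c (Or.inl ⟨hab, hab.trans hbc⟩))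
  have hhi : ∀ a b c, a < b → b < c →
      (e a c = e b c ∧ u b 0 ∉ e a c ∧ u a 0 ∉ e b c) ∨ (u b 0 ∈ e a c ∧ u a 0 ∈ e b c) := by
    intro a b c hab hbc
    have h1 := hNN' c a b (hab.trans hbc).ne' hbc.ne'
      (xth_sq hC hIDS hIDB hS.ind c a b (Or.inr ⟨hab.trans hbc, hbc⟩))
    rw [hsymm c a, hsymm c b] at h1
    exact h1
  -- invariance
  have hinv : ∀ a b c a' b' c', a < b → b < c → a' < b' → b' < c' → u b 0 ∈ e a c →
      u b' 0 ∈ e a' c' := by
    intro a b c a' b' c' hab hbc hab' hbc' hm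
    have hmono : ∀ x y z : ℚ, x < y → y < z → StrictMono ![x, y, z] := by
      intro x y z hxy hyz
      rw [Fin.strictMono_iff_lt_succ]
      intro i
      fin_cases i
      · exact hxy
      · exact hyz
    have h0 := hIDS L U hC (Fin 1) F u hS.ind 3 ![a, b, c] ![a', b', c'] (hmono _ _ _ hab hbc)
      (hmono _ _ _ hab' hbc')
    obtain ⟨w, hw⟩ := sq_ext hC hFc h0 (s1 (Y a c))
    have hw2 := sq_sub hw (Sum.elim (fun i : Fin 2 => Sum.inl ((![0, 2] : Fin 2 → Fin 3) i, (0 : Fin 1)))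
      ![Sum.inr (0 : Fin 1), Sum.inl ((1 : Fin 3), (0 : Fin 1))] :
        Fin 2 ⊕ Fin 2 → (Fin 3 × Fin 1) ⊕ Fin 1)
    have e2 : ∀ (i : Fin 3 → ℚ) (w : Fin 1 → U), (fun k => Sum.elim (tms u i) w
        ((Sum.elim (fun i : Fin 2 => Sum.inl ((![0, 2] : Fin 2 → Fin 3) i, (0 : Fin 1)))
      ![Sum.inr (0 : Fin 1), Sum.inl ((1 : Fin 3), (0 : Fin 1))] :
        Fin 2 ⊕ Fin 2 → (Fin 3 × Fin 1) ⊕ Fin 1) k)) =
        Sum.elim ![u (i 0) 0, u (i 2) 0] ![w 0, u (i 1) 0] := by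
      intro i w
      funext k
      rcases k with k | k
      · fin_cases k <;> rfl
      · fin_cases k <;> rfl
    rw [e2, e2] at hw2
    have hrange : ∀ x y : U, range ![x, y] = {x, y} := by
      intro x y
      rw [Matrix.range_cons, Matrix.range_cons, Matrix.range_empty, union_empty]
      rfl
    have h3 := xth_inv hC hB hS.sub hS.fin (a := ![u a 0, u c 0]) (a' := ![u a' 0, u c' 0])
      (y := Y a c) (v := u b 0) (y' := w 0) (v' := u b' 0) hw2 (by
      rw [hrange]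
      exact hYb a c) (by
      rw [hrange, heU _ _ _ (hYP a c) (hYb a c)]
      exact hm)
    rw [hrange] at h3
    have h4 : w 0 ∈ Pc L F z := by
      rw [← pc_eq hC hFc (hYP a c)]
      exact pc_sq hC (sq_s1 (sq_right hw) 0)
    have h5 : Pc L (F ∪ {u a' 0, u c' 0}) (w 0) = e a' c' := heU _ _ _ h4 h3.1
    rw [← h5]
    exact h3.2
  -- one triple fails
  have hone : ∃ a b c, a < b ∧ b < c ∧ u b 0 ∉ e a c := by
    have key : ∀ p q r : ℚ, p < q → p ≠ r → q ≠ r → u r 0 ∉ e p q →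
        ∃ a b c, a < b ∧ b < c ∧ u b 0 ∉ e a c := by
      intro p q r hpq hpr hqr hn
      rcases lt_or_gt_of_ne hpr with h1 | h1
      · rcases lt_or_gt_of_ne hqr with h2 | h2
        · refine ⟨p, q, r, hpq, h2, ?_⟩
          rcases hlo p q r hpq h2 with h3 | h3
          · exact h3.2.2
          · exact absurd h3.1 hn
        · exact ⟨p, r, q, h1, h2, hn⟩
      · refine ⟨r, p, q, h1, hpq, ?_⟩
        rcases hhi r p q h1 hpq with h3 | h3
        · exact h3.2.1
        · exact absurd h3.2 hn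
    have hn : u r₀ 0 ∉ e p₀ q₀ := by
      rw [← heU p₀ q₀ y₀ hy₀ hb₀]
      exact hr₀
    rcases lt_or_gt_of_ne hpq₀ with h | h
    · exact key p₀ q₀ r₀ h hpr₀ hqr₀ hn
    · rw [hsymm] at hn
      exact key q₀ p₀ r₀ h hqr₀ hpr₀ hn
  obtain ⟨a₁, b₁, c₁, hab₁, hbc₁, hn₁⟩ := hone
  have hall : ∀ a b c, a < b → b < c → u b 0 ∉ e a c := fun a b c hab hbc hm =>
    hn₁ (hinv a b c a₁ b₁ c₁ hab hbc hab₁ hbc₁ hm)
  have hlo' : ∀ a b c, a < b → b < c → e a b = e a c ∧ u c 0 ∉ e a b := by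
    intro a b c hab hbc
    rcases hlo a b c hab hbc with h | h
    · exact ⟨h.1, h.2.1⟩
    · exact absurd h.2 (hall a b c hab hbc)
  have hhi' : ∀ a b c, a < b → b < c → e a c = e b c ∧ u a 0 ∉ e b c := by
    intro a b c hab hbc
    rcases hhi a b c hab hbc with h | h
    · exact ⟨h.1, h.2.2⟩
    · exact absurd h.1 (hall a b c hab hbc)
  have heq1 : ∀ p q, p < q → e p q = e 0 1 := by
    intro p q hpq
    obtain ⟨c, hqc, h1c⟩ : ∃ c : ℚ, q < c ∧ 1 < c :=
      ⟨max q 1 + 1, by linarith [le_max_left q 1], by linarith [le_max_right q 1]⟩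
    rw [(hlo' p q c hpq hqc).1, (hlo' 0 1 c one_pos h1c).1]
    rcases lt_trichotomy p 0 with h | h | h
    · exact (hhi' p 0 c h (by linarith)).1
    · rw [h]
    · exact ((hhi' 0 p c h (hpq.trans hqc)).1).symm
  have heq2 : ∀ p q, p ≠ q → e p q = e 0 1 := by
    intro p q hpq
    rcases lt_or_gt_of_ne hpq with h | h
    · exact heq1 p q h
    · rw [hsymm]
      exact heq1 q p h
  refine ⟨Y 0 1, hYP 0 1, ?_, ?_⟩
  · intro p q hpq
    have h1 : Y 0 1 ∈ Pc L (F ∪ {u p 0, u q 0}) (Y p q) := by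
      rw [← he, heq2 p q hpq, he]
      exact mem_pc _
    have h2 : big (F ∪ {u p 0, u q 0}) (Y 0 1) :=
      hB.pc _ _ _ (hS.sub.trans subset_union_left) (hfin2 _ _) h1 (hYb p q)
    refine ⟨h2, fun v => ?_⟩
    rw [heU p q _ (hYP 0 1) h2, heU 0 1 _ (hYP 0 1) (hYb 0 1), heq2 p q hpq]
  · intro r
    rw [← he]
    rcases lt_trichotomy r 0 with h | h | h
    · exact (hhi' r 0 1 h one_pos).2
    · rw [h]
      exact hpar1 0 1
    · rcases lt_trichotomy r 1 with h' | h' | h'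
      · exact hall 0 r 1 h h'
      · rw [h']
        exact hpar2 0 1
      · exact (hlo' 0 1 r one_pos h').2

end Pool.Agent.TPY
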