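import Pool.Agent.TPY.AllN
import Pool.Agent.TPY.AllG
import Pool.Agent.TPY.LNK
import Pool.Agent.TPY.HNG
import Pool.Agent.TPY.IDB
import Pool.Agent.TPY.EXT
import Pool.Agent.TPY.ULT
import Pool.Agent.TPY.LIM
import Pool.Agent.TPY.OPD
import Pool.Agent.TPY.UBD
import Pool.Agent.TPY.NCN
import Pool.Agent.TPY.COV
import Pool.Agent.TPY.PRV
import Pool.Agent.TPY.NPA
import Pool.Agent.TPY.NPM
import Pool.Agent.TPY.NPB
import Pool.Agent.TPY.NPN
import Pool.Agent.TPY.NPE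
import Pool.Agent.TPY.NP
import Pool.Agent.TPY.M1
import Pool.Agent.TPY.M1T
import Pool.Agent.TPY.NN
import Pool.Agent.TPY.UNB
import Pool.Agent.TPY.XTH
import Pool.Agent.TPY.XNO
import Pool.Agent.TPY.XJN
import Pool.Agent.TPY.XPC

/-!
# TPY/ALLM (helper47): the statements of `StI`, `StL`, `StM1`, `StM2`, `StG` are theorems
-/

set_option autoImplicit false
set_option linter.unusedVariables false

namespace Pool.Agent.TPY

theorem m_IDS : St_IDS := r_IDS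
theorem m_TRI : St_TRI := r_TRI
theorem m_DPM : St_DPM := r_DPM
theorem m_BNI : St_BNI := r_BNI
theorem m_EXT : St_EXT := thm_EXT
theorem m_IDB : St_IDB := thm_IDB
theorem m_HNG : St_HNG := thm_HNG
theorem m_LNK : St_LNK := thm_LNK m_TRI m_DPM m_BNI
theorem m_GAP : St_GAP := thm_GAP m_TRI m_DPM m_LNK k_ENC n_CCC
theorem m_GPE : St_GPE := thm_GPE m_GAP
theorem m_ULT : St_ULT := thm_ULT
theorem m_LIM : St_LIM := thm_LIM m_ULT
theorem m_OPD : St_OPD := thm_OPD m_ULT m_LIM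
theorem m_UBD : St_UBD := thm_UBD m_BNI m_IDS
theorem m_NCN : St_NCN := thm_NCN m_UBD m_BNI
theorem m_COV : St_COV := thm_COV m_LNK m_HNG m_IDB m_IDS m_GPE
theorem m_PRV : St_PRV := thm_PRV m_GPE m_IDB m_IDS
theorem m_NPA : St_NPA := thm_NPA m_COV m_IDS
theorem m_NPM : St_NPM := thm_NPM m_NPA m_PRV m_HNG
theorem m_NPB : St_NPB := thm_NPB m_NPA m_NPM
theorem m_NPN : St_NPN := thm_NPN m_NPB m_IDB m_IDS
theorem m_NPE : St_NPE := thm_NPE m_ULT
theorem m_NP : St_NP := thm_NP m_NPN m_NPE m_IDB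
theorem m_M1 : St_M1 := thm_M1 m_NCN m_PRV m_NP m_HNG
theorem m_M1T : St_M1T := thm_M1T m_M1
theorem m_CAL : St_CAL := thm_CAL m_M1T
theorem m_NN : St_NN := thm_NN m_M1T m_CAL m_NP m_OPD m_EXT m_IDS m_IDB
theorem m_UNB : St_UNB := thm_UNB m_DPM m_NN m_BNI m_IDS m_IDB
theorem m_XTH : St_XTH := thm_XTH m_M1T m_CAL m_NN m_IDS m_IDB
theorem m_XNO : St_XNO := thm_XNO m_COV m_M1T m_CAL m_NN m_IDS m_IDB
theorem m_XJN : St_XJN := thm_XJN m_XTH m_XNO m_M1T m_IDB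
/-- no facing indiscernible sequence all of whose finite sets are good -/
theorem m_XPC : St_XPC := thm_XPC m_XJN m_NN m_M1T m_CAL m_GPE m_IDS

end Pool.Agent.TPY
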