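import Pool.Agent.TPY.StLN
import Pool.Agent.TPY.MB0

/-!
# TPY/CHI (helper1): facing is an open condition
-/

set_option autoImplicit false
set_option linter.unusedVariables false

namespace Pool.Agent.TPY

open FirstOrder.Language Set
open scoped FirstOrder
open Pool.Agent.MNO

section

variable {L : FirstOrder.Language.{0, 0}} {U : Type} [L.Structure U]

/-- invariance of `big`, one additional parameter -/
private theorem big1 {F A₀ : Set U} {big : Set U → U → Prop} (hB : Bg L A₀ big) (h0 : A₀ ⊆ F)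
    (hF : F.Finite) {x y x' y' : U} (h : Tq L F (Sum.elim (s1 x) (s1 y)) (Sum.elim (s1 x') (s1 y')))
    (hb : big (insert x F) y) : big (insert x' F) y' := by
  obtain ⟨n, f, hf⟩ := exists_enum hF
  have key : ∀ x : U, A₀ ∪ range (Sum.elim f (s1 x)) = insert x F := by
    intro x
    rw [Sum.elim_range, hf, ← union_assoc, union_eq_self_of_subset_left h0, ins_eq]
  have h1 := hB.inv (Fin n ⊕ Fin 1) (Sum.elim f (s1 x)) (Sum.elim f (s1 x')) y y' (by
    have h2 := tq_add h f (fun i => by rw [← hf]; exact ⟨i, rfl⟩)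
    have h3 := tq_sub h2 (Sum.elim (Sum.elim Sum.inr (fun _ => Sum.inl (Sum.inl 0)))
      (fun _ => Sum.inl (Sum.inr 0)) : (Fin n ⊕ Fin 1) ⊕ Fin 1 → (Fin 1 ⊕ Fin 1) ⊕ Fin n)
    refine tq_mono h0 (tq_congr h3 ?_ ?_)
    · funext i
      rcases i with (i | i) | i <;> rfl
    · funext i
      rcases i with (i | i) | i <;> rfl)
  rw [key, key] at h1
  exact h1 hb

/-- invariance of `big` -/
private theorem big0 {A A₀ : Set U} {big : Set U → U → Prop} (hB : Bg L A₀ big) (h0 : A₀ ⊆ A)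
    (hA : A.Finite) {y y' : Fin 1 → U} (h : Tq L A y y') (hb : big A (y 0)) : big A (y' 0) := by
  obtain ⟨n, f, hf⟩ := exists_enum hA
  have key : A₀ ∪ range f = A := by
    rw [hf, union_eq_self_of_subset_left h0]
  have h1 := hB.inv (Fin n) f f (y 0) (y' 0) (by
    have h2 := tq_add h f (fun i => by rw [← hf]; exact ⟨i, rfl⟩)
    have h3 := tq_sub h2 (Sum.elim Sum.inr (fun _ => Sum.inl 0) : Fin n ⊕ Fin 1 → Fin 1 ⊕ Fin n)
    refine tq_mono h0 (tq_congr h3 ?_ ?_)
    · funext i
      rcases i with i | i <;> rfl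
    · funext i
      rcases i with i | i <;> rfl)
  rw [key] at h1
  exact h1 hb

end

theorem thm_CHI (hLIM : St_LIM) (hDFI : St_DFI) : St_CHI := by
  intro L U _ hC A₀ big hB F x y h0 hF hb
  have hA : (insert x F).Finite := hF.insert x
  have h0A : A₀ ⊆ insert x F := h0.trans (subset_insert x F)
  have hne : ¬ Edd L (insert x F) y := fun he => hB.b1 _ y h0A hA he hb
  obtain ⟨E, hE, hEy⟩ := hLIM L U hC (insert x F) y hA hne
  -- the property `K`
  have hKy : ∀ v'' : Fin 1 → U, E v'' (s1 y) → big (insert x F) (v'' 0) := by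
    intro v'' hv
    have e : v'' = s1 (v'' 0) := by
      funext i
      rw [Subsingleton.elim i 0]
      rfl
    rw [e] at hv
    exact hB.pc _ y _ h0A hA (hEy _ hv) hb
  have hKd : Dp L (univ : Set U) (fun v : Fin 1 → U => ∀ v'' : Fin 1 → U, E v'' v →
      big (insert x F) (v'' 0)) := by
    obtain ⟨s, hs, hs'⟩ := hE.fin
    have h1 : Dp L (univ : Set U) (fun v : Fin 1 → U => ∃ a ∈ s,
        (∀ v'' : Fin 1 → U, E v'' a → big (insert x F) (v'' 0)) ∧ E v a) :=
      dp_bex hs fun a _ => dp_and (dp_const _) (dp_mono (subset_univ _) (fe_cls hE a))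
    refine dp_congr h1 fun v => ?_
    constructor
    · intro hv
      obtain ⟨a, ha, hva⟩ := hs' v
      exact ⟨a, ha, fun v'' h2 => hv v'' (hE.eqv.trans h2 (hE.eqv.symm hva)), hva⟩
    · rintro ⟨a, ha, hKa, hva⟩ v'' h2
      exact hKa v'' (hE.eqv.trans h2 hva)
  have hKi : ∀ v v' : Fin 1 → U, Tq L (insert x F) v v' →
      (∀ v'' : Fin 1 → U, E v'' v → big (insert x F) (v'' 0)) →
      ∀ v'' : Fin 1 → U, E v'' v' → big (insert x F) (v'' 0) := by
    intro v v' hvv hK v'' hv
    obtain ⟨w, hw⟩ := tq_ext hC hA.countable (tq_symm hvv) v''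
    have h1 : Dp L (insert x F) (fun u : Fin 1 ⊕ Fin 1 → U =>
        E (fun i => u (Sum.inr i)) (fun i => u (Sum.inl i))) := dp_sub hE.dfn Sum.swap
    have h2 := (tq_iff hw h1).1 hv
    have h3 := hK w h2
    exact big0 hB h0A hA (tq_sub (tq_symm hw) Sum.inr) h3
  have hK : Dp L (insert x F) (fun v : Fin 1 → U => ∀ v'' : Fin 1 → U, E v'' v →
      big (insert x F) (v'' 0)) := hDFI L U hC (Fin 1) (insert x F) _ hA.countable hKd hKi
  have hK2 : Dp L (F ∪ range (s1 x)) (fun v : Fin 1 → U => ∀ v'' : Fin 1 → U, E v'' v →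
      big (insert x F) (v'' 0)) := by
    rw [ins_eq]
    exact hK
  obtain ⟨Q, hQ, hKQ⟩ := dp_fam hK2
  refine ⟨fun w => Q (fun i => w (Sum.swap i)), dp_sub hQ Sum.swap, ?_, ?_⟩
  · have h1 := (hKQ (s1 y)).1 hKy
    have e : (fun i => Sum.elim (s1 x) (s1 y) (Sum.swap i)) = Sum.elim (s1 y) (s1 x) := by
      funext i
      rcases i with i | i <;> rfl
    show Q (fun i => Sum.elim (s1 x) (s1 y) (Sum.swap i))
    rw [e]
    exact h1
  · intro x' y' hx hχ
    obtain ⟨c, hc⟩ := tq_ext hC hF.countable (tq_symm hx) (s1 y')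
    have h1 : Q (fun i => Sum.elim (s1 x) c (Sum.swap i)) :=
      (tq_iff hc (P := fun w : Fin 1 ⊕ Fin 1 → U => Q (fun i => w (Sum.swap i)))
        (dp_sub hQ Sum.swap)).1 hχ
    have e : (fun i => Sum.elim (s1 x) c (Sum.swap i)) = Sum.elim c (s1 x) := by
      funext i
      rcases i with i | i <;> rfl
    rw [e] at h1
    have h2 := (hKQ c).2 h1 c (hE.eqv.refl c)
    have ec : c = s1 (c 0) := by
      funext i
      rw [Subsingleton.elim i 0]
      rfl
    rw [ec] at hc
    exact big1 hB h0 hF (tq_symm hc) h2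

end Pool.Agent.TPY
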