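import Pool.Agent.TPY.StLN

/-!
TPY, DFI: invariant definable properties are definable over `A` (helper44)
-/

set_option autoImplicit false
set_option linter.unusedVariables false

namespace Pool.Agent.TPY

open FirstOrder.Language Set
open scoped FirstOrder
open Pool.Agent.MNO (Dp FE Sq Exa dp_congr dp_mono dp_not dp_and dp_ball dp_fin)

theorem thm_DFI : St_DFI := by
  intro L U _ hC α _ A P hA hP hinv
  obtain ⟨C, hCf, -, hPC⟩ := dp_fin hP
  have hB : (A ∪ C).Countable := hA.union hCf.countable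
  have hPB : Dp L (A ∪ C) P := dp_mono subset_union_right hPC
  -- every point has a neighbourhood definable over `A`
  have h1 : ∀ x, P x → ∃ D : (α → U) → Prop, Dp L A D ∧ D x ∧ ∀ y, D y → P y := by
    intro x hx
    by_contra hcon
    have hs := sat_dp hC hB (F := {Q : (α → U) → Prop | (Dp L A Q ∧ Q x) ∨ Q = fun v => ¬ P v})
      (by
        rintro Q (⟨hQ, -⟩ | rfl)
        · exact dp_mono subset_union_left hQ
        · exact dp_not hPB)
      (by
        intro G hG hGf
        by_contra hno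
        refine hcon ⟨fun v => ∀ Q ∈ {Q | Q ∈ G ∧ Dp L A Q ∧ Q x}, Q v,
          dp_ball (hGf.subset fun Q hQ => hQ.1) (fun Q hQ => hQ.2.1), fun Q hQ => hQ.2.2,
          fun y hy => ?_⟩
        by_contra hPy
        refine hno ⟨y, fun Q hQ => ?_⟩
        rcases hG hQ with h | rfl
        · exact hy Q ⟨hQ, h⟩
        · exact hPy)
    obtain ⟨y, hy⟩ := hs
    exact hy _ (Or.inr rfl) (hinv x y (fun Q hQ hQx => hy Q (Or.inl ⟨hQ, hQx⟩)) hx)
  -- finitely many are enough
  by_contra hcon
  have hs := sat_dp hC hB (F := {Q : (α → U) → Prop | Q = P ∨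
      ∃ D : (α → U) → Prop, Dp L A D ∧ (∀ y, D y → P y) ∧ Q = fun v => ¬ D v})
    (by
      rintro Q (rfl | ⟨D, hD, -, rfl⟩)
      · exact hPB
      · exact dp_mono subset_union_left (dp_not hD))
    (by
      intro G hG hGf
      by_contra hno
      have h2 : Dp L A (fun v : α → U => ∀ Q ∈ {Q : (α → U) → Prop | Q ∈ G ∧
          ∃ D : (α → U) → Prop, Dp L A D ∧ (∀ y, D y → P y) ∧ Q = fun v => ¬ D v}, Q v) := by
        refine dp_ball (hGf.subset fun Q hQ => hQ.1) ?_
        rintro Q ⟨-, D, hD, -, rfl⟩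
        exact dp_not hD
      refine hcon (dp_congr (dp_not h2) fun y => ⟨fun hy h3 => hno ⟨y, fun Q hQ => ?_⟩, fun hy => ?_⟩)
      · rcases hG hQ with rfl | h
        · exact hy
        · exact h3 Q ⟨hQ, h⟩
      · by_contra hPy
        refine hy ?_
        rintro Q ⟨-, D, -, hD, rfl⟩
        exact fun h => hPy (hD y h))
  obtain ⟨x, hx⟩ := hs
  obtain ⟨D, hD, hDx, hDP⟩ := h1 x (hx P (Or.inl rfl))
  exact hx _ (Or.inr ⟨D, hD, hDP, rfl⟩) hDx

end Pool.Agent.TPY
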