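import Pool.Agent.TPY.StG

/-!
# TPY: basic lemmas for the modules of `StG.lean`
-/

set_option autoImplicit false
set_option linter.unusedVariables false

namespace Pool.Agent.TPY

open FirstOrder.Language Set
open scoped FirstOrder
open Pool.Agent.MNO

variable {L : FirstOrder.Language.{0, 0}} {U : Type} [L.Structure U] {A B : Set U} {S S' : Set ℚ}
  {z z' : ℚ → U}

/-! ### patterns -/

/-- equality of types of infinite tuples is a property of the finite subtuples -/
theorem tq_fin {α : Type} {x y : α → U}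
    (h : ∀ s : Set α, s.Finite → Tq L A (fun i : s => x i) (fun i : s => y i)) : Tq L A x y := by
  intro P hP hx
  obtain ⟨s, hs, Q, hQ, hPQ⟩ := dp_ffin hP
  rw [hPQ] at hx ⊢
  exact h s hs Q hQ hx

/-- tuples of rationals with the same pattern factor through increasing tuples -/
theorem pat_fac {κ : Type} [Finite κ] {g g' : κ → ℚ} (hp : ∀ a b, g a < g b ↔ g' a < g' b) :
    ∃ (n : ℕ) (m m' : Fin n → ℚ) (f : κ → Fin n), StrictMono m ∧ StrictMono m' ∧ (∀ a, g a = m (f a)) ∧
      (∀ a, g' a = m' (f a)) ∧ ∀ k, ∃ a, m k = g a ∧ m' k = g' a := by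
  classical
  have := Fintype.ofFinite κ
  let T : Finset ℚ := Finset.univ.image g
  let m : Fin T.card ↪o ℚ := T.orderEmbOfFin rfl
  have h1 : ∀ a : κ, ∃ k : Fin T.card, m k = g a := by
    intro a
    have h : g a ∈ range m := by
      have h' : (range m : Set ℚ) = T := Finset.range_orderEmbOfFin T rfl
      rw [h']
      exact Finset.mem_coe.2 (Finset.mem_image_of_mem g (Finset.mem_univ a))
    exact h
  choose f hf using h1
  have h2 : ∀ k : Fin T.card, ∃ a : κ, m k = g a := by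
    intro k
    have h : m k ∈ T := Finset.orderEmbOfFin_mem T rfl k
    obtain ⟨a, -, ha⟩ := Finset.mem_image.1 h
    exact ⟨a, ha.symm⟩
  choose e he using h2
  have heq : ∀ a b, g a = g b → g' a = g' b := by
    intro a b hab
    rcases lt_trichotomy (g' a) (g' b) with h | h | h
    · exact absurd ((hp a b).2 h) (by rw [hab]; exact lt_irrefl _)
    · exact h
    · exact absurd ((hp b a).2 h) (by rw [hab]; exact lt_irrefl _)
  refine ⟨T.card, m, fun k => g' (e k), f, m.strictMono, fun k l hkl => (hp _ _).1 ?_,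
    fun a => (hf a).symm, fun a => heq _ _ ?_, fun k => ⟨e k, he k, rfl⟩⟩
  · rw [← he, ← he]
    exact m.strictMono hkl
  · rw [← he, hf]

/-- tuples with the same pattern have the same type -/
theorem ids_pat (h : Ids L A S z) {κ : Type} {g g' : κ → ℚ} (hg : ∀ a, g a ∈ S) (hg' : ∀ a, g' a ∈ S)
    (hp : ∀ a b, g a < g b ↔ g' a < g' b) : Tq L A (fun a => z (g a)) (fun a => z (g' a)) := by
  refine tq_fin fun s hs => ?_
  have : Finite s := hs
  obtain ⟨n, m, m', f, hm, hm', h1, h2, h3⟩ := pat_fac (κ := s) (g := fun a => g a) (g' := fun a => g' a)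
    (fun a b => hp a b)
  have h4 := h n m m' hm hm' (fun k => by
    obtain ⟨a, ha, -⟩ := h3 k
    rw [ha]
    exact hg a) (fun k => by
    obtain ⟨a, -, ha⟩ := h3 k
    rw [ha]
    exact hg' a)
  have h5 := tq_sub h4 f
  have e1 : (fun a : s => z (g a)) = fun a => z (m (f a)) := funext fun a => by rw [h1]
  have e2 : (fun a : s => z (g' a)) = fun a => z (m' (f a)) := funext fun a => by rw [h2]
  rw [e1, e2]
  exact h5

theorem ids_set (h : Ids L A S z) (hS : S' ⊆ S) : Ids L A S' z :=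
  fun n i j hi hj h1 h2 => h n i j hi hj (fun k => hS (h1 k)) (fun k => hS (h2 k))

theorem ids_par (h : Ids L B S z) (hAB : A ⊆ B) : Ids L A S z :=
  fun n i j hi hj h1 h2 => tq_mono hAB (h n i j hi hj h1 h2)

/-- naming terms -/
theorem ids_name (h : Ids L A S z) {J : Set ℚ} (hJ : J ⊆ S) (hS : S' ⊆ S)
    (hJS : ∀ e ∈ J, (∀ s ∈ S', s < e) ∨ ∀ s ∈ S', e < s) : Ids L (A ∪ z '' J) S' z := by
  intro n i j hi hj hiS hjS
  have e : A ∪ z '' J = A ∪ range (fun e : J => z e) := by
    congr 1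
    ext x
    constructor
    · rintro ⟨q, hq, rfl⟩
      exact ⟨⟨q, hq⟩, rfl⟩
    · rintro ⟨q, rfl⟩
      exact ⟨q, q.2, rfl⟩
  rw [e, tq_fam]
  have h1 := ids_pat h (κ := Fin n ⊕ J) (g := Sum.elim i Subtype.val) (g' := Sum.elim j Subtype.val)
    (by
      rintro (a | a)
      · exact hS (hiS a)
      · exact hJ a.2) (by
      rintro (a | a)
      · exact hS (hjS a)
      · exact hJ a.2) (by
      rintro (a | a) (b | b)
      · exact (hi.lt_iff_lt).trans (hj.lt_iff_lt).symm
      · show i a < (b : ℚ) ↔ j a < (b : ℚ)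
        rcases hJS b b.2 with h' | h'
        · exact ⟨fun _ => h' _ (hjS a), fun _ => h' _ (hiS a)⟩
        · exact ⟨fun h2 => absurd h2 (not_lt.2 (h' _ (hiS a)).le),
            fun h2 => absurd h2 (not_lt.2 (h' _ (hjS a)).le)⟩
      · show (a : ℚ) < i b ↔ (a : ℚ) < j b
        rcases hJS a a.2 with h' | h'
        · exact ⟨fun h2 => absurd h2 (not_lt.2 (h' _ (hiS b)).le),
            fun h2 => absurd h2 (not_lt.2 (h' _ (hjS b)).le)⟩
        · exact ⟨fun _ => h' _ (hjS b), fun _ => h' _ (hiS b)⟩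
      · exact Iff.rfl)
  refine tq_congr h1 ?_ ?_
  · funext a
    rcases a with a | a <;> rfl
  · funext a
    rcases a with a | a <;> rfl

theorem ids_name1 (h : Ids L A S z) {e : ℚ} (he : e ∈ S) (hS : S' ⊆ S)
    (heS : (∀ s ∈ S', s < e) ∨ ∀ s ∈ S', e < s) : Ids L (insert (z e) A) S' z := by
  have h1 := ids_name h (J := {e}) (singleton_subset_iff.2 he) hS (by
    rintro _ rfl
    exact heS)
  rw [image_singleton, union_singleton] at h1
  exact h1

/-- equality of strong types -/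
theorem ids_sq (h : Ids L A S z) (hS : ∀ s ∈ S, ∃ t ∈ S, s < t) {n : ℕ} {i j : Fin n → ℚ}
    (hi : StrictMono i) (hj : StrictMono j) (hiS : ∀ k, i k ∈ S) (hjS : ∀ k, j k ∈ S) :
    Sq L A (fun k => z (i k)) (fun k => z (j k)) := by
  rcases Nat.eq_zero_or_pos n with rfl | hn
  · have e : (fun k => z (i k)) = fun k => z (j k) := funext fun k => k.elim0
    rw [e]
    exact sq_refl A _
  -- an increasing sequence beyond `i` and `j`
  obtain ⟨s, hs, hsS, hsi, hsj⟩ : ∃ s : ℕ → ℚ, StrictMono s ∧ (∀ m, s m ∈ S) ∧ (∀ k, i k < s 0) ∧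
      ∀ k, j k < s 0 := by
    choose f hfS hf using hS
    let k0 : Fin n := ⟨n - 1, by omega⟩
    have hk0 : ∀ k : Fin n, k ≤ k0 := fun k => by
      have := k.2
      show k.1 ≤ n - 1
      omega
    have hM : max (i k0) (j k0) ∈ S := by
      rcases max_choice (i k0) (j k0) with h' | h'
      · rw [h']
        exact hiS k0
      · rw [h']
        exact hjS k0
    let t : ℕ → {x : ℚ // x ∈ S} := fun m =>
      Nat.rec ⟨f _ hM, hfS _ hM⟩ (fun _ x => ⟨f x.1 x.2, hfS x.1 x.2⟩) m
    have htS : ∀ m, (t m).1 ∈ S := fun m => (t m).2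
    have htm : StrictMono fun m => (t m).1 := strictMono_nat_of_lt_succ fun m => hf _ (htS m)
    refine ⟨fun m => (t m).1, htm, htS, fun k => ?_, fun k => ?_⟩
    · exact lt_of_le_of_lt ((hi.monotone (hk0 k)).trans (le_max_left _ _)) (hf _ hM)
    · exact lt_of_le_of_lt ((hj.monotone (hk0 k)).trans (le_max_right _ _)) (hf _ hM)
  intro E hE
  obtain ⟨k, hk⟩ := fe_num hE
  let T : ℕ → Fin n → ℚ := fun m l => s (n * m + l)
  obtain ⟨a, b, hab, hE1⟩ := hk (fun m => fun l => z (T m l))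
  have hab' : (a : ℕ) < b := hab
  have key : ∀ i : Fin n → ℚ, StrictMono i → (∀ k, i k ∈ S) → (∀ k, i k < s 0) →
      E (fun k => z (i k)) (fun k => z (T 0 k)) := by
    intro i hi hiS hsi
    have h1 := ids_pat h (κ := Fin n ⊕ Fin n) (g := Sum.elim (T a) (T b)) (g' := Sum.elim i (T 0))
      (by
        rintro (l | l)
        · exact hsS _
        · exact hsS _) (by
        rintro (l | l)
        · exact hiS _
        · exact hsS _) (by
        have hlt : ∀ l l' : Fin n, n * (a : ℕ) + l < n * (b : ℕ) + l' := by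
          intro l l'
          have h1 : n * (a : ℕ) + n ≤ n * (b : ℕ) := by
            have h2 : n * ((a : ℕ) + 1) ≤ n * (b : ℕ) := Nat.mul_le_mul_left n hab'
            rw [Nat.mul_add, Nat.mul_one] at h2
            exact h2
          have := l.2
          omega
        rintro (l | l) (l' | l')
        · show s _ < s _ ↔ i l < i l'
          rw [hs.lt_iff_lt, hi.lt_iff_lt]
          constructor
          · intro h'
            show l.1 < l'.1
            omega
          · intro h'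
            have h2 : l.1 < l'.1 := h'
            omega
        · refine ⟨fun _ => ?_, fun _ => hs (hlt l l')⟩
          show i l < s (n * 0 + l')
          exact lt_of_lt_of_le (hsi l) (hs.monotone (Nat.zero_le _))
        · constructor
          · intro h'
            exact absurd (show s _ < s _ from h') (not_lt.2 (hs.monotone (hlt l' l).le))
          · intro h'
            refine absurd (show s (n * 0 + l) < i l' from h') (not_lt.2 ?_)
            exact (lt_of_lt_of_le (hsi l') (hs.monotone (Nat.zero_le _))).le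
        · show s _ < s _ ↔ s _ < s _
          rw [hs.lt_iff_lt, hs.lt_iff_lt]
          omega)
    have h2 := (tq_iff h1 hE.dfn).1
    exact h2 hE1
  exact hE.eqv.trans (key i hi hiS hsi) (hE.eqv.symm (key j hj hjS hsj))

theorem ids_sqp (h : Ids L A S z) (hS : ∀ s ∈ S, ∃ t ∈ S, s < t) {κ : Type} [Finite κ] {g g' : κ → ℚ}
    (hg : ∀ a, g a ∈ S) (hg' : ∀ a, g' a ∈ S) (hp : ∀ a b, g a < g b ↔ g' a < g' b) :
    Sq L A (fun a => z (g a)) (fun a => z (g' a)) := by
  obtain ⟨n, m, m', f, hm, hm', h1, h2, h3⟩ := pat_fac hp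
  have h4 := ids_sq h hS hm hm' (fun k => by
    obtain ⟨a, ha, -⟩ := h3 k
    rw [ha]
    exact hg a) (fun k => by
    obtain ⟨a, -, ha⟩ := h3 k
    rw [ha]
    exact hg' a)
  have h5 := sq_sub h4 f
  have e1 : (fun a : κ => z (g a)) = fun a => z (m (f a)) := funext fun a => by rw [h1]
  have e2 : (fun a : κ => z (g' a)) = fun a => z (m' (f a)) := funext fun a => by rw [h2]
  rw [e1, e2]
  exact h5

theorem ids_sq1 (h : Ids L A S z) (hS : ∀ s ∈ S, ∃ t ∈ S, s < t) {i j : ℚ} (hi : i ∈ S) (hj : j ∈ S) :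
    Sq L A (s1 (z i)) (s1 (z j)) :=
  ids_sqp h hS (κ := Fin 1) (g := fun _ => i) (g' := fun _ => j) (fun _ => hi) (fun _ => hj)
    (fun _ _ => by simp)

theorem opn_ioo (a b : ℚ) : Opn (Ioo a b) :=
  ⟨ordConnected_Ioo, fun s hs => ⟨⟨(a + s) / 2, ⟨by linarith [hs.1], by linarith [hs.1, hs.2]⟩, by linarith [hs.1]⟩,
    ⟨(s + b) / 2, ⟨by linarith [hs.1, hs.2], by linarith [hs.2]⟩, by linarith [hs.2]⟩⟩⟩

theorem opn_univ : Opn (univ : Set ℚ) :=
  ⟨ordConnected_univ, fun s _ => ⟨⟨s - 1, mem_univ _, by linarith⟩, ⟨s + 1, mem_univ _, by linarith⟩⟩⟩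

theorem opn_up {S : Set ℚ} (h : Opn S) : ∀ s ∈ S, ∃ t ∈ S, s < t := fun s hs => (h.2 s hs).2

/-! ### copies -/

/-- copies with parameters -/
def Cpc (L : FirstOrder.Language.{0, 0}) {U : Type} [L.Structure U] (A : Set U) {γ κ : Type} (c : γ → U)
    (w : κ → U) (c' : γ → U) (w' : κ → U) : Prop :=
  ∀ (n : ℕ) (i : Fin n → κ), Sq L A (Sum.elim c (fun k => w (i k))) (Sum.elim c' (fun k => w' (i k)))

theorem cpc_sq {γ κ δ : Type} [Finite δ] {c c' : γ → U} {w w' : κ → U} (h : Cpc L A c w c' w') (f : δ → κ) :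
    Sq L A (Sum.elim c (fun k => w (f k))) (Sum.elim c' (fun k => w' (f k))) := by
  obtain ⟨n, ⟨e⟩⟩ := Finite.exists_equiv_fin δ
  have h1 := sq_sub (h n (fun k => f (e.symm k))) (Sum.map id e : γ ⊕ δ → γ ⊕ Fin n)
  refine sq_congr h1 ?_ ?_
  · funext a
    rcases a with a | a
    · rfl
    · show w (f a) = w (f (e.symm (e a)))
      rw [e.symm_apply_apply]
  · funext a
    rcases a with a | a
    · rfl
    · show w' (f a) = w' (f (e.symm (e a)))
      rw [e.symm_apply_apply]

theorem cpc_sq0 {γ κ δ : Type} [Finite δ] {c c' : γ → U} {w w' : κ → U} (h : Cpc L A c w c' w') (f : δ → κ) :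
    Sq L A (fun k => w (f k)) (fun k => w' (f k)) := sq_right (cpc_sq h f)

theorem cpc_tq {γ κ : Type} {c c' : γ → U} {w w' : κ → U} (h : Cpc L A c w c' w') :
    Tq L A (Sum.elim w c) (Sum.elim w' c') := by
  refine tq_fin fun s hs => ?_
  classical
  have : Finite s := hs
  -- the `κ`-part of `s`
  let t : Type := {k : κ // Sum.inl k ∈ s}
  have ht : Finite t := Finite.of_injective (fun k : t => (⟨Sum.inl k.1, k.2⟩ : s)) (by
    intro a b hab
    have h1 := congrArg Subtype.val hab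
    exact Subtype.ext (Sum.inl_injective h1))
  have h1 := tq_of_sq (cpc_sq h (fun k : t => k.1))
  have h2 := tq_sub h1 (fun a : s => match a with
    | ⟨Sum.inl k, hk⟩ => (Sum.inr ⟨k, hk⟩ : γ ⊕ t)
    | ⟨Sum.inr c, _⟩ => Sum.inl c)
  refine tq_congr h2 ?_ ?_
  · funext a
    obtain ⟨a | a, ha⟩ := a <;> rfl
  · funext a
    obtain ⟨a | a, ha⟩ := a <;> rfl

/-- the extension property for countable tuples -/
theorem sqc_ext (hC : Cz L U) {γ κ : Type} [Finite γ] [Countable κ] (hA : A.Countable) {c c' : γ → U}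
    (h : Sq L A c c') (w : κ → U) : ∃ w' : κ → U, Cpc L A c w c' w' := by
  classical
  obtain ⟨x0⟩ := hC.ne
  have hB : (A ∪ range c' ∪ (range c ∪ range w)).Countable :=
    (hA.union (countable_range _)).union ((countable_range _).union (countable_range _))
  obtain ⟨w', hw'⟩ := sat_dp hC hB
    (F := {P : (κ → U) → Prop | ∃ (n : ℕ) (i : Fin n → κ) (E : (γ ⊕ Fin n → U) → (γ ⊕ Fin n → U) → Prop),
      FE L A E ∧ P = fun x => E (Sum.elim c' (fun k => x (i k))) (Sum.elim c (fun k => w (i k)))}) (by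
      rintro P ⟨n, i, E, hE, rfl⟩
      have h1 := fe_cls hE (Sum.elim c (fun k => w (i k)))
      have h2 : Dp L (A ∪ range c' ∪ (range c ∪ range w)) (fun v : κ ⊕ γ → U =>
          E (fun k => v (Sum.elim (fun a => Sum.inr a) (fun a => Sum.inl (i a)) k))
            (Sum.elim c (fun k => w (i k)))) := by
        refine dp_mono ?_ (dp_sub h1 (Sum.elim (fun a => Sum.inr a) (fun a => Sum.inl (i a)) : γ ⊕ Fin n → κ ⊕ γ))
        refine union_subset (fun x hx => Or.inl (Or.inl hx)) ?_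
        rintro x ⟨a | a, rfl⟩
        · exact Or.inr (Or.inl ⟨a, rfl⟩)
        · exact Or.inr (Or.inr ⟨i a, rfl⟩)
      have h3 := dp_par h2 c' (fun i => Or.inl (Or.inr ⟨i, rfl⟩))
      refine dp_congr h3 fun v => iff_of_eq ?_
      congr 1
      funext a
      rcases a with a | a <;> rfl) (by
      intro G hG hfin
      have h2 : ∀ P : (κ → U) → Prop, ∃ (n : ℕ) (i : Fin n → κ)
          (E : (γ ⊕ Fin n → U) → (γ ⊕ Fin n → U) → Prop), P ∈ G → FE L A E ∧
          P = fun x => E (Sum.elim c' (fun k => x (i k))) (Sum.elim c (fun k => w (i k))) := by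
        intro P
        by_cases hP : P ∈ G
        · obtain ⟨n, i, E, hE, hE'⟩ := hG hP
          exact ⟨n, i, E, fun _ => ⟨hE, hE'⟩⟩
        · exact ⟨0, fun k => k.elim0, fun _ _ => True, fun h => absurd h hP⟩
      choose n i E hE using h2
      let s : Set κ := ⋃ P ∈ G, range (i P)
      have hs : s.Finite := hfin.biUnion fun P _ => finite_range _
      have : Finite s := hs
      obtain ⟨d, hd⟩ := sq_ext hC hA h (fun k : s => w k)
      refine ⟨fun k => if hk : k ∈ s then d ⟨k, hk⟩ else x0, fun P hP => ?_⟩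
      obtain ⟨h3, h4⟩ := hE P hP
      rw [h4]
      have hi : ∀ k, i P k ∈ s := fun k => mem_biUnion hP ⟨k, rfl⟩
      have h5 := sq_sub hd (Sum.map id (fun k => ⟨i P k, hi k⟩) : γ ⊕ Fin (n P) → γ ⊕ s) _ h3
      show E P (Sum.elim c' (fun k => if hk : i P k ∈ s then d ⟨i P k, hk⟩ else x0))
        (Sum.elim c (fun k => w (i P k)))
      have e1 : (Sum.elim c' (fun k => if hk : i P k ∈ s then d ⟨i P k, hk⟩ else x0) : γ ⊕ Fin (n P) → U) =
          fun a => Sum.elim c' d (Sum.map id (fun k => ⟨i P k, hi k⟩) a) := by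
        funext a
        rcases a with a | a
        · rfl
        · show (if hk : i P a ∈ s then d ⟨i P a, hk⟩ else x0) = _
          rw [dif_pos (hi a)]
          rfl
      have e2 : (Sum.elim c (fun k => w (i P k)) : γ ⊕ Fin (n P) → U) =
          fun a => Sum.elim c (fun k : s => w k) (Sum.map id (fun k => ⟨i P k, hi k⟩) a) := by
        funext a
        rcases a with a | a <;> rfl
      rw [e1, e2]
      exact h3.eqv.symm h5)
  refine ⟨w', fun n i E hE => hE.eqv.symm (hw' _ ⟨n, i, E, hE, rfl⟩)⟩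

/-- transport of indiscernibility -/
theorem ids_mv {γ : Type} {c c' : γ → U} (h : Tq L A (Sum.elim z c) (Sum.elim z' c'))
    (hz : Ids L (A ∪ range c) S z) : Ids L (A ∪ range c') S z' := by
  intro n i j hi hj hiS hjS P hP hx
  obtain ⟨Q, hQ, hPQ⟩ := dp_fam hP
  rw [hPQ] at hx ⊢
  have h1 : ∀ i : Fin n → ℚ, Q (Sum.elim (fun k => z (i k)) c) ↔ Q (Sum.elim (fun k => z' (i k)) c') := by
    intro i
    have h2 := tq_sub h (Sum.map i id : Fin n ⊕ γ → ℚ ⊕ γ)
    have h3 := tq_iff h2 hQ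
    have e1 : (fun a => Sum.elim z c ((Sum.map i id : Fin n ⊕ γ → ℚ ⊕ γ) a)) =
        Sum.elim (fun k => z (i k)) c := by
      funext a
      rcases a with a | a <;> rfl
    have e2 : (fun a => Sum.elim z' c' ((Sum.map i id : Fin n ⊕ γ → ℚ ⊕ γ) a)) =
        Sum.elim (fun k => z' (i k)) c' := by
      funext a
      rcases a with a | a <;> rfl
    rw [e1, e2] at h3
    exact h3
  rw [← h1]
  rw [← h1] at hx
  have h4 := hz n i j hi hj hiS hjS (fun x => Q (Sum.elim x c)) (by
    have h5 := dp_mono (subset_union_left (s := A) (t := range c)) hQ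
    exact dp_par h5 c (fun a => Or.inr ⟨a, rfl⟩))
  exact h4 hx

private theorem rgs (x : U) : range (s1 x) = {x} := by
  ext y
  constructor
  · rintro ⟨i, rfl⟩
    rfl
  · rintro rfl
    exact ⟨0, rfl⟩

theorem ids_mv1 {c c' : U} (h : Tq L A (Sum.elim z (s1 c)) (Sum.elim z' (s1 c')))
    (hz : Ids L (insert c A) S z) : Ids L (insert c' A) S z' := by
  have e : ∀ c : U, insert c A = A ∪ range (s1 c) := fun c => by
    rw [rgs, union_singleton]
  rw [e] at hz ⊢
  exact ids_mv h hz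

theorem ids_mv0 (h : Tq L A z z') (hz : Ids L A S z) : Ids L A S z' := by
  intro n i j hi hj hiS hjS
  exact tq_trans (tq_symm (tq_sub h i)) (tq_trans (hz n i j hi hj hiS hjS) (tq_sub h j))

theorem cpz_cpc {z z' : ℚ → U} : Cpz L A z z' ↔ ∀ (n : ℕ) (i : Fin n → ℚ), Sq L A (fun k => z (i k)) (fun k => z' (i k)) :=
  Iff.rfl

theorem cpz_of {γ : Type} {c c' : γ → U} (h : Cpc L A c z c' z') : Cpz L A z z' :=
  fun n i => sq_right (h n i)

theorem cpz_sq (h : Cpz L A z z') {κ : Type} [Finite κ] (f : κ → ℚ) : Sq L A (fun k => z (f k)) (fun k => z' (f k)) := by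
  obtain ⟨n, ⟨e⟩⟩ := Finite.exists_equiv_fin κ
  have h1 := sq_sub (h n (fun k => f (e.symm k))) e
  refine sq_congr h1 ?_ ?_
  · funext a
    show _ = z (f (e.symm (e a)))
    rw [e.symm_apply_apply]
  · funext a
    show _ = z' (f (e.symm (e a)))
    rw [e.symm_apply_apply]

theorem cpz_sq1 (h : Cpz L A z z') (i : ℚ) : Sq L A (s1 (z i)) (s1 (z' i)) :=
  cpz_sq h (κ := Fin 1) (fun _ => i)

theorem cpz_tq (h : Cpz L A z z') : Tq L A z z' := by
  refine tq_fin fun s hs => ?_
  have : Finite s := hs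
  exact tq_of_sq (cpz_sq h (fun k : s => k.1))

theorem cpz_symm (h : Cpz L A z z') : Cpz L A z' z := fun n i => sq_symm (h n i)

theorem cpz_trans {z'' : ℚ → U} (h : Cpz L A z z') (h' : Cpz L A z' z'') : Cpz L A z z'' :=
  fun n i => sq_trans (h n i) (h' n i)

theorem cpz_mono (hAB : A ⊆ B) (h : Cpz L B z z') : Cpz L A z z' := fun n i => sq_mono hAB (h n i)

theorem cpz_par (h : Cpz L A z z') {i : ℚ} (hi : z i ∈ A) : z' i = z i :=
  tq_par (cpz_tq h) i hi

/-- a copy with prescribed term -/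
theorem cpz_ex (hC : Cz L U) (hA : A.Countable) {i : ℚ} {y : U} (h : Sq L A (s1 (z i)) (s1 y)) :
    ∃ z', Cpz L A z z' ∧ z' i = y := by
  obtain ⟨z', hz'⟩ := sqc_ext hC hA h z
  refine ⟨z', cpz_of hz', ?_⟩
  have h1 := tq_of_sq (hz' 1 (fun _ => i))
  have h2 := (tq_eq h1 (Sum.inl 0) (Sum.inr 0)).1 rfl
  exact h2.symm

/-! ### totally indiscernible sequences -/

section tis

variable {ι : Type} {X Y : Set ι} {u : ι → U}

/-- injective tuples of any length, finite or not -/
theorem tis_pat (h : Tis L A X u) {κ : Type} {g g' : κ → ι} (hg : ∀ a, g a ∈ X) (hg' : ∀ a, g' a ∈ X)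
    (hp : ∀ a b, g a = g b ↔ g' a = g' b) : Tq L A (fun a => u (g a)) (fun a => u (g' a)) := by
  classical
  refine tq_fin fun s hs => ?_
  have : Finite s := hs
  -- the values of `g`
  have hfin : Finite (range (fun a : s => g a)) := (finite_range _)
  obtain ⟨n, ⟨e⟩⟩ := Finite.exists_equiv_fin (range (fun a : s => g a))
  have h1 : ∀ k : Fin n, ∃ a : s, g a = (e.symm k : ι) := fun k => by
    obtain ⟨a, ha⟩ := (e.symm k).2
    exact ⟨a, ha⟩
  choose f hf using h1
  have h2 : Function.Injective fun k => (e.symm k : ι) := fun k l hkl => e.symm.injective (Subtype.ext hkl)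
  have h3 : Function.Injective fun k => g' (f k) := fun k l hkl => by
    have h4 := (hp _ _).2 hkl
    rw [hf, hf] at h4
    exact h2 h4
  have h5 := h n (fun k => (e.symm k : ι)) (fun k => g' (f k)) h2 h3 (fun k => by
    show (e.symm k : ι) ∈ X
    rw [← hf]
    exact hg _) (fun k => hg' _)
  have h6 := tq_sub h5 (fun a : s => e ⟨g a, ⟨a, rfl⟩⟩)
  have h7 : ∀ a : s, (e.symm (e ⟨g a, ⟨a, rfl⟩⟩) : ι) = g a := fun a => by rw [e.symm_apply_apply]
  refine tq_congr h6 ?_ ?_
  · funext a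
    show u (g a) = u _
    rw [h7]
  · funext a
    show u (g' a) = u _
    have h8 : g (f (e ⟨g a, ⟨a, rfl⟩⟩)) = g a := by rw [hf, h7]
    rw [(hp _ _).1 h8]

theorem tis_set (h : Tis L A X u) (hY : Y ⊆ X) : Tis L A Y u :=
  fun n i j hi hj h1 h2 => h n i j hi hj (fun k => hY (h1 k)) (fun k => hY (h2 k))

theorem tis_par (h : Tis L B X u) (hAB : A ⊆ B) : Tis L A X u :=
  fun n i j hi hj h1 h2 => tq_mono hAB (h n i j hi hj h1 h2)

/-- naming terms -/
theorem tis_name (h : Tis L A X u) {J : Set ι} (hJ : J ⊆ X) (hY : Y ⊆ X) (hJY : Disjoint J Y) :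
    Tis L (A ∪ u '' J) Y u := by
  intro n i j hi hj hiY hjY
  have e : A ∪ u '' J = A ∪ range (fun e : J => u e) := by
    congr 1
    ext x
    constructor
    · rintro ⟨q, hq, rfl⟩
      exact ⟨⟨q, hq⟩, rfl⟩
    · rintro ⟨q, rfl⟩
      exact ⟨q, q.2, rfl⟩
  rw [e, tq_fam]
  have hne : ∀ (i : Fin n → ι), (∀ k, i k ∈ Y) → ∀ (a : Fin n) (b : J), i a ≠ (b : ι) := by
    intro i hi a b hab
    exact disjoint_left.1 hJY b.2 (by rw [← hab]; exact hi a)
  have h1 := tis_pat h (κ := Fin n ⊕ J) (g := Sum.elim i Subtype.val) (g' := Sum.elim j Subtype.val)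
    (by
      rintro (a | a)
      · exact hY (hiY a)
      · exact hJ a.2) (by
      rintro (a | a)
      · exact hY (hjY a)
      · exact hJ a.2) (by
      rintro (a | a) (b | b)
      · exact hi.eq_iff.trans hj.eq_iff.symm
      · exact ⟨fun h' => absurd h' (hne i hiY a b), fun h' => absurd h' (hne j hjY a b)⟩
      · exact ⟨fun h' => absurd h'.symm (hne i hiY b a), fun h' => absurd h'.symm (hne j hjY b a)⟩
      · exact Iff.rfl)
  refine tq_congr h1 ?_ ?_
  · funext a
    rcases a with a | a <;> rfl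
  · funext a
    rcases a with a | a <;> rfl

theorem tis_name1 (h : Tis L A X u) {e : ι} (he : e ∈ X) (hY : Y ⊆ X) (heY : e ∉ Y) :
    Tis L (insert (u e) A) Y u := by
  have h1 := tis_name h (J := {e}) (singleton_subset_iff.2 he) hY (disjoint_singleton_left.2 heY)
  rw [image_singleton, union_singleton] at h1
  exact h1

/-- equality of strong types -/
theorem tis_sq (h : Tis L A X u) (hX : X.Infinite) {κ : Type} [Finite κ] {i j : κ → ι}
    (hi : Function.Injective i) (hj : Function.Injective j) (hiX : ∀ k, i k ∈ X) (hjX : ∀ k, j k ∈ X) :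
    Sq L A (fun k => u (i k)) (fun k => u (j k)) := by
  classical
  -- an injective sequence in `X`, disjoint from `i` and `j`
  let D : Set ι := range i ∪ range j
  have hD : D.Finite := (finite_range _).union (finite_range _)
  have hXD : (X \ D).Infinite := hX.sdiff hD
  let s : ℕ ↪ ι := (hXD.natEmbedding _).trans (Function.Embedding.subtype _)
  have hsX : ∀ m, s m ∈ X := fun m => (hXD.natEmbedding _ m).2.1
  have hsD : ∀ m, s m ∉ D := fun m => (hXD.natEmbedding _ m).2.2
  obtain ⟨n, ⟨e⟩⟩ := Finite.exists_equiv_fin κ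
  intro E hE
  obtain ⟨N, hN⟩ := fe_num hE
  let T : ℕ → κ → ι := fun m l => s (n * m + e l)
  obtain ⟨a, b, hab, hE1⟩ := hN (fun m => fun l => u (T m l))
  have hab' : (a : ℕ) < b := hab
  have hT : ∀ m, Function.Injective (T m) := fun m l l' hl => by
    have h1 := s.injective hl
    have h2 : (e l : ℕ) = e l' := by omega
    exact e.injective (Fin.ext h2)
  have key : ∀ i : κ → ι, Function.Injective i → (∀ k, i k ∈ X) → range i ⊆ D →
      E (fun k => u (i k)) (fun k => u (T 0 k)) := by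
    intro i hi hiX hiD
    have h1 := tis_pat h (κ := κ ⊕ κ) (g := Sum.elim (T a) (T b)) (g' := Sum.elim i (T 0))
      (by
        rintro (l | l)
        · exact hsX _
        · exact hsX _) (by
        rintro (l | l)
        · exact hiX _
        · exact hsX _) (by
        have hlt : ∀ l l' : κ, T (a : ℕ) l ≠ T (b : ℕ) l' := by
          intro l l' hl
          have h1 := s.injective hl
          have h3 : n * (a : ℕ) + n ≤ n * (b : ℕ) := by
            have h2 : n * ((a : ℕ) + 1) ≤ n * (b : ℕ) := Nat.mul_le_mul_left n hab'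
            rw [Nat.mul_add, Nat.mul_one] at h2
            exact h2
          have := (e l).2
          omega
        have hne : ∀ l l' : κ, i l ≠ T 0 l' := by
          intro l l' hl
          exact hsD (n * 0 + e l') (hiD ⟨l, hl⟩)
        rintro (l | l) (l' | l')
        · exact (hT a).eq_iff.trans hi.eq_iff.symm
        · exact ⟨fun h' => absurd h' (hlt l l'), fun h' => absurd h' (hne l l')⟩
        · exact ⟨fun h' => absurd h'.symm (hlt l' l), fun h' => absurd h'.symm (hne l' l)⟩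
        · exact (hT b).eq_iff.trans (hT 0).eq_iff.symm)
    exact (tq_iff h1 hE.dfn).1 hE1
  exact hE.eqv.trans (key i hi hiX subset_union_left) (hE.eqv.symm (key j hj hjX subset_union_right))

theorem tis_sq1 (h : Tis L A X u) (hX : X.Infinite) {i j : ι} (hi : i ∈ X) (hj : j ∈ X) :
    Sq L A (s1 (u i)) (s1 (u j)) :=
  tis_sq h hX (κ := Fin 1) (i := fun _ => i) (j := fun _ => j) (fun a b _ => Subsingleton.elim a b)
    (fun a b _ => Subsingleton.elim a b) (fun _ => hi) (fun _ => hj)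

/-- transport -/
theorem tis_mv {γ : Type} {u' : ι → U} {c c' : γ → U} (h : Tq L A (Sum.elim u c) (Sum.elim u' c'))
    (hz : Tis L (A ∪ range c) X u) : Tis L (A ∪ range c') X u' := by
  intro n i j hi hj hiS hjS P hP hx
  obtain ⟨Q, hQ, hPQ⟩ := dp_fam hP
  rw [hPQ] at hx ⊢
  have h1 : ∀ i : Fin n → ι, Q (Sum.elim (fun k => u (i k)) c) ↔ Q (Sum.elim (fun k => u' (i k)) c') := by
    intro i
    have h2 := tq_sub h (Sum.map i id : Fin n ⊕ γ → ι ⊕ γ)
    have h3 := tq_iff h2 hQ
    have e1 : (fun a => Sum.elim u c ((Sum.map i id : Fin n ⊕ γ → ι ⊕ γ) a)) =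
        Sum.elim (fun k => u (i k)) c := by
      funext a
      rcases a with a | a <;> rfl
    have e2 : (fun a => Sum.elim u' c' ((Sum.map i id : Fin n ⊕ γ → ι ⊕ γ) a)) =
        Sum.elim (fun k => u' (i k)) c' := by
      funext a
      rcases a with a | a <;> rfl
    rw [e1, e2] at h3
    exact h3
  rw [← h1]
  rw [← h1] at hx
  have h4 := hz n i j hi hj hiS hjS (fun x => Q (Sum.elim x c)) (by
    have h5 := dp_mono (subset_union_left (s := A) (t := range c)) hQ
    exact dp_par h5 c (fun a => Or.inr ⟨a, rfl⟩))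
  exact h4 hx

theorem tis_mv0 {u' : ι → U} (h : Tq L A u u') (hz : Tis L A X u) : Tis L A X u' := by
  intro n i j hi hj hiS hjS
  exact tq_trans (tq_symm (tq_sub h i)) (tq_trans (hz n i j hi hj hiS hjS) (tq_sub h j))

/-- a totally indiscernible sequence along an injection -/
theorem tis_ids (h : Tis L A X u) {f : ℚ → ι} {S : Set ℚ} (hf : InjOn f S) (hfX : ∀ q ∈ S, f q ∈ X) :
    Ids L A S (fun q => u (f q)) := by
  intro n i j hi hj hiS hjS
  exact h n (fun k => f (i k)) (fun k => f (j k)) (fun a b hab => hi.injective (hf (hiS a) (hiS b) hab))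
    (fun a b hab => hj.injective (hf (hjS a) (hjS b) hab)) (fun k => hfX _ (hiS k)) (fun k => hfX _ (hjS k))

end tis

/-! ### pieces -/

/-- `nnl1` without the hypothesis that `z` is not a parameter -/
theorem nnl0 (hC : Cz L U) (hA : A.Finite) {w z : U} (h : w ∉ Pc L A z) : Pc L (insert w A) z = Pc L A z := by
  by_cases hz : z ∈ A
  · rw [pc_par hz, pc_par (mem_insert_of_mem w hz)]
  · exact nnl1 hC hA hz h

/-- elements of a piece with at least two elements are not algebraic -/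
theorem nonalg (hC : Cz L U) (hA : A.Countable) {c x y : U} (hx : x ∈ Pc L A c) (hy : y ∈ Pc L A c) (hxy : x ≠ y) :
    ∃ x', x' ≠ c ∧ Sq L A (s1 c) (s1 x') := by
  by_contra hcon
  push Not at hcon
  have h1 : BF L A {c} := by
    refine ⟨?_, ?_⟩
    · rintro a b hab rfl
      by_contra hb
      exact hcon b hb hab
    · intro m n u u' w hu hu' hw h
      have e : u = u' := funext fun i => by
        rw [mem_singleton_iff.1 (hu i), mem_singleton_iff.1 (hu' i)]
      rw [e]
      exact sq_refl A _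
  have h2 : Pc L A c ⊆ {c} := pc_sub h1 rfl
  exact hxy ((h2 hx : x = c).trans (h2 hy : y = c).symm)

/-! ### the ordered case -/

section gh

variable {F : Set U}

theorem g0_fin (h : GH L F z) : (G0 F z).Finite := (h.fin.insert _).insert _

theorem g1_fin (h : GH L F z) : (G1 F z).Finite := ((g0_fin h).insert _).insert _

theorem g0_sub_g1 : G0 F z ⊆ G1 F z := (subset_insert _ _).trans (subset_insert _ _)

theorem f_sub_g0 : F ⊆ G0 F z := (subset_insert _ _).trans (subset_insert _ _)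

theorem f_sub_g1 : F ⊆ G1 F z := f_sub_g0.trans g0_sub_g1

theorem m1_g1 : z (-1) ∈ G1 F z := mem_insert _ _

theorem p1_g1 : z 1 ∈ G1 F z := mem_insert_of_mem _ (mem_insert _ _)

theorem m3_g0 : z (-3) ∈ G0 F z := mem_insert _ _

theorem p3_g0 : z 3 ∈ G0 F z := mem_insert_of_mem _ (mem_insert _ _)

/-- copies are ordered sequences with the same `G0`, `G1` -/
theorem gh_cp (h : GH L F z) (hz : Cpz L (G1 F z) z z') : GH L F z' ∧ z' (-3) = z (-3) ∧ z' (-1) = z (-1) ∧
    z' 1 = z 1 ∧ z' 3 = z 3 ∧ G0 F z' = G0 F z ∧ G1 F z' = G1 F z := by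
  have h3 : z' (-3) = z (-3) := cpz_par hz (g0_sub_g1 m3_g0)
  have h1 : z' (-1) = z (-1) := cpz_par hz m1_g1
  have h1' : z' 1 = z 1 := cpz_par hz p1_g1
  have h3' : z' 3 = z 3 := cpz_par hz (g0_sub_g1 p3_g0)
  have e0 : G0 F z' = G0 F z := by
    unfold G0
    rw [h3, h3']
  have e1 : G1 F z' = G1 F z := by
    unfold G1
    rw [h1, h1', e0]
  have hT : Tq L F z z' := tq_mono f_sub_g1 (cpz_tq hz)
  refine ⟨⟨h.fin, ids_mv0 hT h.ind, fun h4 => h.ord ?_⟩, h3, h1, h1', h3', e0, e1⟩
  have h5 := tq_sub hT (![0, 1] : Fin 2 → ℚ)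
  have h6 := tq_sub hT (![1, 0] : Fin 2 → ℚ)
  have e2 : ∀ (z : ℚ → U) (a b : ℚ), (fun i => z ((![a, b] : Fin 2 → ℚ) i)) = ![z a, z b] := by
    intro z a b
    funext i
    fin_cases i <;> rfl
  rw [e2, e2] at h5 h6
  exact tq_trans h5 (tq_trans h4 (tq_symm h6))

/-- different terms are different -/
theorem gh_ne (h : GH L F z) {i j : ℚ} (hi : i ∈ Ioo (-4 : ℚ) 4) (hj : j ∈ Ioo (-4 : ℚ) 4) (hij : i < j) : z i ≠ z j := by
  intro he
  have h1 := ids_pat h.ind (κ := Fin 2) (g := ![i, j]) (g' := ![0, 1]) (by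
    intro a
    fin_cases a
    · exact hi
    · exact hj) (by
    intro a
    fin_cases a
    · exact ⟨by norm_num, by norm_num⟩
    · exact ⟨by norm_num, by norm_num⟩) (by
    intro a b
    fin_cases a <;> fin_cases b <;> simp [hij, not_lt.2 hij.le])
  have h2 := (tq_eq h1 0 1).1 he
  have h3 : z 0 = z 1 := h2
  refine h.ord ?_
  rw [h3]
  exact tq_refl _

theorem gh_ne' (h : GH L F z) {i j : ℚ} (hi : i ∈ Ioo (-4 : ℚ) 4) (hj : j ∈ Ioo (-4 : ℚ) 4) (hij : i ≠ j) : z i ≠ z j := by
  rcases lt_or_gt_of_ne hij with h' | h'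
  · exact gh_ne h hi hj h'
  · exact (gh_ne h hj hi h').symm

/-- terms are not parameters -/
theorem gh_nf (h : GH L F z) {i : ℚ} (hi : i ∈ Ioo (-4 : ℚ) 4) : z i ∉ F := by
  intro hz
  have key : ∀ j ∈ Ioo (-4 : ℚ) 4, z j = z i := fun j hj => by
    have h1 := ids_pat h.ind (κ := Fin 1) (g := fun _ => i) (g' := fun _ => j) (fun _ => hi) (fun _ => hj)
      (fun _ _ => by simp)
    exact tq_par h1 0 hz
  refine gh_ne h (i := 0) (j := 1) ⟨by norm_num, by norm_num⟩ ⟨by norm_num, by norm_num⟩ (by norm_num) ?_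
  rw [key 0 ⟨by norm_num, by norm_num⟩, key 1 ⟨by norm_num, by norm_num⟩]

/-- `(k, 3)` over `G0` and `z k` -/
theorem gh_r (h : GH L F z) {k : ℚ} (hk : -3 < k) (hk' : k < 3) : Ids L (insert (z k) (G0 F z)) (Ioo k 3) z := by
  have h1 := ids_name h.ind (J := {k, -3, 3}) (S' := Ioo k 3) (by
    rintro e (rfl | rfl | rfl)
    · exact ⟨by linarith, by linarith⟩
    · exact ⟨by norm_num, by norm_num⟩
    · exact ⟨by norm_num, by norm_num⟩) (fun s hs => ⟨by linarith [hs.1], by linarith [hs.2]⟩) (by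
    rintro e (rfl | rfl | rfl)
    · exact Or.inr fun s hs => hs.1
    · exact Or.inr fun s hs => by linarith [hs.1]
    · exact Or.inl fun s hs => hs.2)
  refine ids_par h1 ?_
  rintro x (rfl | rfl | rfl | hx)
  · exact Or.inr ⟨k, by simp, rfl⟩
  · exact Or.inr ⟨-3, by simp, rfl⟩
  · exact Or.inr ⟨3, by simp, rfl⟩
  · exact Or.inl hx

/-- `(-3, k)` over `G0` and `z k` -/
theorem gh_l (h : GH L F z) {k : ℚ} (hk : -3 < k) (hk' : k < 3) : Ids L (insert (z k) (G0 F z)) (Ioo (-3) k) z := by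
  have h1 := ids_name h.ind (J := {k, -3, 3}) (S' := Ioo (-3) k) (by
    rintro e (rfl | rfl | rfl)
    · exact ⟨by linarith, by linarith⟩
    · exact ⟨by norm_num, by norm_num⟩
    · exact ⟨by norm_num, by norm_num⟩) (fun s hs => ⟨by linarith [hs.1], by linarith [hs.2]⟩) (by
    rintro e (rfl | rfl | rfl)
    · exact Or.inl fun s hs => hs.2
    · exact Or.inr fun s hs => hs.1
    · exact Or.inl fun s hs => by linarith [hs.2])
  refine ids_par h1 ?_
  rintro x (rfl | rfl | rfl | hx)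
  · exact Or.inr ⟨k, by simp, rfl⟩
  · exact Or.inr ⟨-3, by simp, rfl⟩
  · exact Or.inr ⟨3, by simp, rfl⟩
  · exact Or.inl hx

/-- terms right of `k` have the same strong type over `G0, z k` -/
theorem gh_rs (h : GH L F z) {k i j : ℚ} (hk : -3 < k) (hk' : k < 3) (hi : k < i) (hi' : i < 3) (hj : k < j) (hj' : j < 3) :
    Sq L (insert (z k) (G0 F z)) (s1 (z i)) (s1 (z j)) :=
  ids_sq1 (gh_r h hk hk') (opn_up (opn_ioo _ _)) ⟨hi, hi'⟩ ⟨hj, hj'⟩

theorem gh_ls (h : GH L F z) {k i j : ℚ} (hk : -3 < k) (hk' : k < 3) (hi : i < k) (hi' : -3 < i) (hj : j < k) (hj' : -3 < j) :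
    Sq L (insert (z k) (G0 F z)) (s1 (z i)) (s1 (z j)) :=
  ids_sq1 (gh_l h hk hk') (opn_up (opn_ioo _ _)) ⟨hi', hi⟩ ⟨hj', hj⟩

/-- `(-1, 1)` over `G1` -/
theorem gh_m (h : GH L F z) : Ids L (G1 F z) (Ioo (-1) 1) z := by
  have h1 := ids_name h.ind (J := {-1, 1, -3, 3}) (S' := Ioo (-1) 1) (by
    rintro e (rfl | rfl | rfl | rfl) <;> exact ⟨by norm_num, by norm_num⟩)
    (fun s hs => ⟨by linarith [hs.1], by linarith [hs.2]⟩) (by
    rintro e (rfl | rfl | rfl | rfl)
    · exact Or.inr fun s hs => hs.1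
    · exact Or.inl fun s hs => hs.2
    · exact Or.inr fun s hs => by linarith [hs.1]
    · exact Or.inl fun s hs => by linarith [hs.2])
  refine ids_par h1 ?_
  rintro x (rfl | rfl | rfl | rfl | hx)
  · exact Or.inr ⟨-1, by simp, rfl⟩
  · exact Or.inr ⟨1, by simp, rfl⟩
  · exact Or.inr ⟨-3, by simp, rfl⟩
  · exact Or.inr ⟨3, by simp, rfl⟩
  · exact Or.inl hx

theorem gh_ms (h : GH L F z) {i j : ℚ} (hi : i ∈ Ioo (-1 : ℚ) 1) (hj : j ∈ Ioo (-1 : ℚ) 1) :
    Sq L (G1 F z) (s1 (z i)) (s1 (z j)) := ids_sq1 (gh_m h) (opn_up (opn_ioo _ _)) hi hj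

theorem gh_eb (hC : Cz L U) (h : GH L F z) {i : ℚ} (hi : i ∈ Ioo (-1 : ℚ) 1) : z i ∈ Eb L F z :=
  pc_sq hC (gh_ms h ⟨by norm_num, by norm_num⟩ hi)

/-- points with the strong type of `z 0` are in `Eb` -/
theorem o_eb (hC : Cz L U) {y : U} (hy : Sq L (G1 F z) (s1 (z 0)) (s1 y)) : y ∈ Eb L F z := pc_sq hC hy

/-- copies through a given point -/
theorem gh_co (hC : Cz L U) (h : GH L F z) {y : U} (hy : Sq L (G1 F z) (s1 (z 0)) (s1 y)) :
    ∃ z', Cpz L (G1 F z) z z' ∧ z' 0 = y := cpz_ex hC (g1_fin h).countable hy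

/-- terms of copies -/
theorem gh_o (h : GH L F z) (hz : Cpz L (G1 F z) z z') {i : ℚ} (hi : i ∈ Ioo (-1 : ℚ) 1) :
    Sq L (G1 F z) (s1 (z 0)) (s1 (z' i)) :=
  sq_trans (gh_ms h ⟨by norm_num, by norm_num⟩ hi) (cpz_sq1 hz i)

/-- `Eb` lies in the piece of `z 0` over `G0, z 1`, which contains `z (-1)` -/
theorem eb_sub (hC : Cz L U) (h : GH L F z) : Eb L F z ⊆ Pc L (insert (z 1) (G0 F z)) (z (-1)) := by
  have h1 : Eb L F z ⊆ Pc L (insert (z 1) (G0 F z)) (z 0) :=
    pc_mono hC (g1_fin h) (by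
      unfold G1
      exact subset_insert _ _) (z 0)
  have h2 := pc_sq hC (gh_ls h (k := 1) (i := 0) (j := -1) (by norm_num) (by norm_num) (by norm_num) (by norm_num)
    (by norm_num) (by norm_num))
  rw [pc_eq hC ((g0_fin h).insert _).countable h2] at *
  exact h1

end gh

end Pool.Agent.TPY
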