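import Pool.Agent.TPY.StLN
import Pool.Agent.TPY.GBA

/-!
# TPY module GPL: the linear case of GAP
-/

set_option autoImplicit false
set_option linter.unusedVariables false

namespace Pool.Agent.TPY

open FirstOrder.Language Set
open scoped FirstOrder
open Pool.Agent.MNO (Dp FE Sq Exa)

section

variable {L : FirstOrder.Language.{0, 0}} {U : Type} [L.Structure U]

private theorem gpl_eta (u : ℚ → Fin 1 → U) (q : ℚ) : u q = s1 (u q 0) := by
  funext k
  rw [Subsingleton.elim k 0]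
  rfl

private theorem gpl_tm (u : ℚ → Fin 1 → U) (J : Set ℚ) : Tm u J = (fun q => u q 0) '' J := by
  ext x
  constructor
  · rintro ⟨q, hq, k, rfl⟩
    exact ⟨q, hq, by rw [Subsingleton.elim k 0]⟩
  · rintro ⟨q, hq, rfl⟩
    exact ⟨q, hq, 0, rfl⟩

private theorem gpl_ids {F : Set U} {u : ℚ → Fin 1 → U} (hu : Idc L F u) : Ids L F univ (fun q => u q 0) := by
  intro n i j hi hj _ _
  exact tq_sub (hu n i j hi hj) (fun k : Fin n => (k, (0 : Fin 1)))

/-- a sequence with two equal terms is totally indiscernible -/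
private theorem gpl_ne {F : Set U} {z : ℚ → U} (hz : Ids L F univ z) (h01 : z 0 = z 1) : Tis L F univ z := by
  have h1 : ∀ p q : ℚ, p < q → z p = z q := by
    intro p q hpq
    have h2 := ids_pat hz (κ := Fin 2) (g := ![0, 1]) (g' := ![p, q]) (fun _ => mem_univ _) (fun _ => mem_univ _) (by
      intro a b
      fin_cases a <;> fin_cases b <;> simp [hpq, not_lt.2 hpq.le])
    exact (tq_eq h2 0 1).1 h01
  have h3 : ∀ p q : ℚ, z p = z q := by
    intro p q
    rcases lt_trichotomy p q with h | h | h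
    · exact h1 p q h
    · rw [h]
    · exact (h1 q p h).symm
  intro n i j _ _ _ _
  have e : (fun k => z (i k)) = fun k => z (j k) := funext fun k => h3 _ _
  rw [e]
  exact tq_refl _

end

theorem thm_GPL (hGAP : St_GAP) (hLQF : St_LQF) (hLIN : St_LIN) (hENC : St_ENC) (hIDS : St_IDS) (hIDB : St_IDB) :
    St_GPL := by
  intro L U _ hC F u hF hu hT
  let z : ℚ → U := fun q => u q 0
  have hz : Ids L F univ z := gpl_ids hu
  have h01 : z 0 ≠ z 1 := fun h => hT (gpl_ne hz h)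
  obtain ⟨J₀, a₀, b₀, r, hJ₀, ha, hb, hJab, hGT, hNal, hInv, hEts, hlin⟩ := hGAP L U hC F z hF hz h01
  obtain ⟨hNF, hlt⟩ := hlin hT
  have hHf : (F ∪ z '' J₀).Finite := hF.union (hJ₀.image z)
  have hLQ := hLQF L U hC r (F ∪ z '' J₀) hHf ⟨hGT, hNal, hInv⟩ hNF
  have hP : ∀ i : ℚ, a₀ < i → i < b₀ → z i ∈ En L (F ∪ z '' J₀) r := by
    intro i h1 h2
    have h3 := (hENC L U hC r hGT hNal (F ∪ z '' J₀) hHf hInv).1 (F ∪ z '' J₀) (z i) (Subset.refl _) hHf (hEts i h1 h2)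
    rw [← h3]
    exact mem_pc _
  have hi₁ : a₀ < a₀ / 2 := by linarith
  have hi₁' : a₀ / 2 < 0 := by linarith
  have hL := (hLIN L U hC (F ∪ z '' J₀) (En L (F ∪ z '' J₀) r) (ltr L (F ∪ z '' J₀) r) hLQ
    (z (a₀ / 2)) (hP _ hi₁ (hi₁'.trans hb)) (z 0) (hP _ ha hb) (hlt _ _ hi₁ hi₁' hb)).1
  let J : Set ℚ := insert 0 (insert (a₀ / 2) J₀)
  have hJ : J.Finite := (hJ₀.insert _).insert _
  have hz1 : z '' J = insert (z 0) (insert (z (a₀ / 2)) (z '' J₀)) := by
    rw [image_insert_eq, image_insert_eq]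
  have hT1 : F ∪ Tm u J = F ∪ z '' J := by
    rw [gpl_tm]
  have hT2 : F ∪ Tm u J = insert (z 0) (insert (z (a₀ / 2)) (F ∪ z '' J₀)) := by
    rw [hT1, hz1, union_insert, union_insert]
  refine ⟨J, 0, b₀, {v | v ∈ En L (F ∪ z '' J₀) r ∧ ltr L (F ∪ z '' J₀) r (z 0) v}, ltr L (F ∪ z '' J₀) r, hJ, hb, ?_, ?_, ?_, ?_⟩
  · rw [hT2]
    exact hL
  · intro i h1 h2
    exact ⟨hP i (ha.trans h1) h2, hlt 0 i ha h1 h2⟩
  · intro i j h1 h2 h3 h4
    have h5 : Ids L (F ∪ z '' J) (Ioo 0 b₀) z := by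
      refine ids_name hz (subset_univ _) (subset_univ _) ?_
      rintro e (rfl | rfl | he)
      · exact Or.inr fun s hs => hs.1
      · exact Or.inr fun s hs => hi₁'.trans hs.1
      · rcases hJab e he with h | h
        · exact Or.inr fun s hs => lt_of_le_of_lt h (ha.trans hs.1)
        · exact Or.inl fun s hs => lt_of_lt_of_le hs.2 h
    have h6 := ids_sq1 h5 (opn_up (opn_ioo _ _)) (i := i) (j := j) ⟨h1, h2⟩ ⟨h3, h4⟩
    rw [hT1, gpl_eta u i, gpl_eta u j]
    exact h6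
  · intro i j h1 h2 h3
    exact hlt i j (ha.trans h1) h2 h3

end Pool.Agent.TPY
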