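import Pool.Agent.TPY.Tq0

/-!
# TPY, module LSA (helper73): Lascar steps over copies of a countable set of parameters
-/

set_option autoImplicit false
set_option linter.unusedVariables false

namespace Pool.Agent.TPY

open FirstOrder.Language Set
open scoped FirstOrder
open Pool.Agent.MNO

section

variable {L : FirstOrder.Language.{0, 0}} {U : Type} [L.Structure U] {A : Set U}

/-! ### countably many types over a finite set -/

theorem types_zero (hC : Cz L U) (β : Type) [Finite β] :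
    ∃ s : Set (β → U), s.Countable ∧ ∀ x, ∃ y ∈ s, Tq L (∅ : Set U) x y := by
  obtain ⟨n, ⟨e⟩⟩ := Finite.exists_equiv_fin β
  obtain ⟨s, hs, h⟩ := hC.sml n
  refine ⟨(fun y : Fin n → U => fun i => y (e i)) '' s, hs.image _, fun x => ?_⟩
  obtain ⟨y, hy, hxy⟩ := h (fun i => x (e.symm i))
  refine ⟨_, ⟨y, hy, rfl⟩, ?_⟩
  refine tq_congr (tq_sub hxy e) ?_ rfl
  funext i
  rw [e.symm_apply_apply]

theorem types_fin (hC : Cz L U) (hA : A.Finite) (β : Type) [Finite β] :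
    ∃ e : ℕ → (β → U), ∀ x, ∃ n, Tq L A x (e n) := by
  classical
  obtain ⟨k, b, rfl⟩ := exists_enum hA
  obtain ⟨s, hs, hs'⟩ := types_zero hC (β ⊕ Fin k)
  obtain ⟨u0⟩ := hC.ne
  have h1 : ∀ t : β ⊕ Fin k → U, ∃ y : β → U, (∃ x : β → U, Tq L (∅ : Set U) (Sum.elim x b) t) →
      Tq L (∅ : Set U) (Sum.elim y b) t := by
    intro t
    by_cases h : ∃ x : β → U, Tq L (∅ : Set U) (Sum.elim x b) t
    · obtain ⟨x, hx⟩ := h
      exact ⟨x, fun _ => hx⟩
    · exact ⟨fun _ => u0, fun h' => absurd h' h⟩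
  choose y hy using h1
  have hne : s.Nonempty := by
    obtain ⟨t, ht, -⟩ := hs' (fun _ => u0)
    exact ⟨t, ht⟩
  obtain ⟨e, he⟩ := hs.exists_eq_range hne
  refine ⟨fun n => y (e n), fun x => ?_⟩
  obtain ⟨t, ht, hxt⟩ := hs' (Sum.elim x b)
  rw [he] at ht
  obtain ⟨n, rfl⟩ := ht
  refine ⟨n, ?_⟩
  have h3 : Tq L (∅ : Set U) (Sum.elim x b) (Sum.elim (y (e n)) b) :=
    tq_trans hxt (tq_symm (hy (e n) ⟨x, hxt⟩))
  have h5 := tq_fam.2 h3
  rw [empty_union] at h5
  exact h5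

/-! ### quantifiers over infinite tuples -/

theorem dp_exc (hne : Nonempty U) {α β : Type} {P : (α ⊕ β → U) → Prop} (hP : Dp L A P) :
    Dp L A (fun v : α → U => ∃ w : β → U, P (Sum.elim v w)) := by
  classical
  obtain ⟨x0⟩ := hne
  obtain ⟨s, hs, R, hR, hqR⟩ := dp_ffin hP
  have : Finite s := hs
  let sβ : Set β := {j | Sum.inr j ∈ s}
  have hsβ : sβ.Finite := hs.preimage Sum.inr_injective.injOn
  have : Finite sβ := hsβ
  let σ : s → α ⊕ sβ := fun k => match k with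
    | ⟨Sum.inl i, _⟩ => Sum.inl i
    | ⟨Sum.inr j, hj⟩ => Sum.inr ⟨j, hj⟩
  have hD : Dp L A (fun v : α ⊕ sβ → U => R (fun k => v (σ k))) := dp_sub hR σ
  refine dp_congr (dp_ex hD) fun v => ⟨?_, ?_⟩
  · rintro ⟨w, hw⟩
    refine ⟨fun j => w j, ?_⟩
    have h1 := (hqR _).1 hw
    have e : (fun k : s => Sum.elim v w k) = fun k : s => Sum.elim v (fun j : sβ => w j) (σ k) := by
      funext k
      obtain ⟨i | j, hk⟩ := k <;> rfl
    rw [e] at h1
    exact h1
  · rintro ⟨y, hy⟩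
    let x : β → U := fun j => if hj : j ∈ sβ then y ⟨j, hj⟩ else x0
    refine ⟨x, (hqR _).2 ?_⟩
    have e : (fun k : s => Sum.elim v x k) = fun k => Sum.elim v y (σ k) := by
      funext k
      obtain ⟨i | j, hk⟩ := k
      · rfl
      · show x j = y ⟨j, hk⟩
        exact dif_pos hk
    rw [e]
    exact hy

/-! ### steps -/

variable (L) in
/-- one step: `x`, `y` have the same type over `A` and a copy of `μ` -/
def Lst (A : Set U) {κ : Type} (μ : κ → U) {α : Type} (x y : α → U) : Prop :=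
  ∃ ν : κ → U, Tq L A μ ν ∧ Tq L A (Sum.elim x ν) (Sum.elim y ν)

variable (L) in
/-- `n` steps -/
def Lsd (A : Set U) {κ : Type} (μ : κ → U) {α : Type} : ℕ → (α → U) → (α → U) → Prop
  | 0, x, y => x = y
  | n + 1, x, y => ∃ z, Lsd A μ n x z ∧ Lst L A μ z y

variable (L) in
/-- finitely many steps -/
def Lsc (A : Set U) {κ : Type} (μ : κ → U) {α : Type} (x y : α → U) : Prop := ∃ n, Lsd L A μ n x y

variable {κ : Type} {μ : κ → U} {α β : Type}

theorem lst_refl (x : α → U) : Lst L A μ x x := ⟨μ, tq_refl _, tq_refl _⟩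

theorem lst_symm {x y : α → U} (h : Lst L A μ x y) : Lst L A μ y x := by
  obtain ⟨ν, h1, h2⟩ := h
  exact ⟨ν, h1, tq_symm h2⟩

theorem lst_tq {x y : α → U} (h : Lst L A μ x y) : Tq L A x y := by
  obtain ⟨ν, h1, h2⟩ := h
  exact tq_sub h2 Sum.inl

theorem lst_sub {x y : α → U} (h : Lst L A μ x y) (f : β → α) :
    Lst L A μ (fun i => x (f i)) (fun i => y (f i)) := by
  obtain ⟨ν, h1, h2⟩ := h
  refine ⟨ν, h1, tq_congr (tq_sub h2 (Sum.map f id)) ?_ ?_⟩ <;>
  · funext i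
    rcases i with i | i <;> rfl

theorem lst_ext (hC : Cz L U) [Countable κ] [Countable α] [Countable β] (hA : A.Countable) {x y : α → U}
    (h : Lst L A μ x y) (z : β → U) : ∃ z' : β → U, Lst L A μ (Sum.elim x z) (Sum.elim y z') := by
  obtain ⟨ν, h1, h2⟩ := h
  obtain ⟨z', hz'⟩ := tq_ext' hC hA h2 z
  refine ⟨z', ν, h1, tq_congr (tq_sub hz' (Sum.elim (Sum.elim (fun i => Sum.inl (Sum.inl i)) Sum.inr)
    (fun i => Sum.inl (Sum.inr i)) : (α ⊕ β) ⊕ κ → (α ⊕ κ) ⊕ β)) ?_ ?_⟩ <;>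
  · funext i
    rcases i with (i | i) | i <;> rfl

theorem lst_inv (hC : Cz L U) [Countable κ] [Countable α] (hA : A.Countable) {x y x' y' : α → U}
    (h : Tq L A (Sum.elim x y) (Sum.elim x' y')) (hs : Lst L A μ x y) : Lst L A μ x' y' := by
  obtain ⟨ν, h1, h2⟩ := hs
  obtain ⟨ν', hν'⟩ := tq_ext' hC hA h ν
  refine ⟨ν', tq_trans h1 (tq_congr (tq_sub hν' Sum.inr) rfl rfl), ?_⟩
  have h3 : Tq L A (Sum.elim x ν) (Sum.elim x' ν') := by
    refine tq_congr (tq_sub hν' (Sum.elim (fun i => Sum.inl (Sum.inl i)) Sum.inr : α ⊕ κ → (α ⊕ α) ⊕ κ)) ?_ ?_ <;>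
    · funext i
      rcases i with i | i <;> rfl
  have h4 : Tq L A (Sum.elim y ν) (Sum.elim y' ν') := by
    refine tq_congr (tq_sub hν' (Sum.elim (fun i => Sum.inl (Sum.inr i)) Sum.inr : α ⊕ κ → (α ⊕ α) ⊕ κ)) ?_ ?_ <;>
    · funext i
      rcases i with i | i <;> rfl
  exact tq_trans (tq_symm h3) (tq_trans h2 h4)

/-! ### chains -/

theorem lsd_le {x y : α → U} {m n : ℕ} (hmn : m ≤ n) (h : Lsd L A μ m x y) : Lsd L A μ n x y := by
  induction n, hmn using Nat.le_induction with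
  | base => exact h
  | succ n hmn ih => exact ⟨y, ih, lst_refl y⟩

theorem lsd_comp {x y z : α → U} {m n : ℕ} (h : Lsd L A μ m x y) (h' : Lsd L A μ n y z) :
    Lsd L A μ (m + n) x z := by
  induction n generalizing z with
  | zero =>
    have e : y = z := h'
    rw [← e]
    exact h
  | succ n ih =>
    obtain ⟨w, hw, hw'⟩ := h'
    exact ⟨w, ih hw, hw'⟩

theorem lsd_one {x y : α → U} (h : Lst L A μ x y) : Lsd L A μ 1 x y := ⟨x, rfl, h⟩

theorem lsd_symm {x y : α → U} {n : ℕ} (h : Lsd L A μ n x y) : Lsd L A μ n y x := by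
  induction n generalizing y with
  | zero =>
    have e : x = y := h
    exact e.symm
  | succ n ih =>
    obtain ⟨w, hw, hw'⟩ := h
    have h1 := lsd_comp (lsd_one (lst_symm hw')) (ih hw)
    rw [Nat.add_comm] at h1
    exact h1

theorem lsd_tq {x y : α → U} {n : ℕ} (h : Lsd L A μ n x y) : Tq L A x y := by
  induction n generalizing y with
  | zero =>
    have e : x = y := h
    rw [e]
    exact tq_refl y
  | succ n ih =>
    obtain ⟨w, hw, hw'⟩ := h
    exact tq_trans (ih hw) (lst_tq hw')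

theorem lsd_sub {x y : α → U} {n : ℕ} (h : Lsd L A μ n x y) (f : β → α) :
    Lsd L A μ n (fun i => x (f i)) (fun i => y (f i)) := by
  induction n generalizing y with
  | zero =>
    have e : x = y := h
    rw [e]
    exact rfl
  | succ n ih =>
    obtain ⟨w, hw, hw'⟩ := h
    exact ⟨_, ih hw, lst_sub hw' f⟩

theorem lsd_ext (hC : Cz L U) [Countable κ] [Countable α] [Countable β] (hA : A.Countable) {x y : α → U}
    {n : ℕ} (h : Lsd L A μ n x y) (z : β → U) :
    ∃ z' : β → U, Lsd L A μ n (Sum.elim x z) (Sum.elim y z') := by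
  induction n generalizing y with
  | zero =>
    have e : x = y := h
    rw [e]
    exact ⟨z, rfl⟩
  | succ n ih =>
    obtain ⟨w, hw, hw'⟩ := h
    obtain ⟨z1, h1⟩ := ih hw
    obtain ⟨z2, h2⟩ := lst_ext hC hA hw' z1
    exact ⟨z2, _, h1, h2⟩

theorem lsd_inv (hC : Cz L U) [Countable κ] [Countable α] (hA : A.Countable) {n : ℕ} {x y x' y' : α → U}
    (h : Tq L A (Sum.elim x y) (Sum.elim x' y')) (hs : Lsd L A μ n x y) : Lsd L A μ n x' y' := by
  induction n generalizing y y' with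
  | zero =>
    have e : x = y := hs
    show x' = y'
    funext i
    have h1 := (tq_eq h (Sum.inl i) (Sum.inr i)).1 (congrFun e i)
    exact h1
  | succ n ih =>
    obtain ⟨w, hw, hw'⟩ := hs
    obtain ⟨w', hw''⟩ := tq_ext' hC hA h w
    refine ⟨w', ih (y := w) (y' := w') ?_ hw, lst_inv hC hA ?_ hw'⟩
    · refine tq_congr (tq_sub hw'' (Sum.elim (fun i => Sum.inl (Sum.inl i)) Sum.inr : α ⊕ α → (α ⊕ α) ⊕ α)) ?_ ?_ <;>
      · funext i
        rcases i with i | i <;> rfl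
    · refine tq_congr (tq_sub hw'' (Sum.elim Sum.inr (fun i => Sum.inl (Sum.inr i)) : α ⊕ α → (α ⊕ α) ⊕ α)) ?_ ?_ <;>
      · funext i
        rcases i with i | i <;> rfl

theorem lsc_refl (x : α → U) : Lsc L A μ x x := ⟨0, rfl⟩

theorem lsc_symm {x y : α → U} (h : Lsc L A μ x y) : Lsc L A μ y x := by
  obtain ⟨n, h⟩ := h
  exact ⟨n, lsd_symm h⟩

theorem lsc_trans {x y z : α → U} (h : Lsc L A μ x y) (h' : Lsc L A μ y z) : Lsc L A μ x z := by
  obtain ⟨m, h⟩ := h
  obtain ⟨n, h'⟩ := h'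
  exact ⟨m + n, lsd_comp h h'⟩

theorem lsc_tq {x y : α → U} (h : Lsc L A μ x y) : Tq L A x y := by
  obtain ⟨n, h⟩ := h
  exact lsd_tq h

theorem lsc_sub {x y : α → U} (h : Lsc L A μ x y) (f : β → α) :
    Lsc L A μ (fun i => x (f i)) (fun i => y (f i)) := by
  obtain ⟨n, h⟩ := h
  exact ⟨n, lsd_sub h f⟩

theorem lsc_ext (hC : Cz L U) [Countable κ] [Countable α] [Countable β] (hA : A.Countable) {x y : α → U}
    (h : Lsc L A μ x y) (z : β → U) : ∃ z' : β → U, Lsc L A μ (Sum.elim x z) (Sum.elim y z') := by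
  obtain ⟨n, h⟩ := h
  obtain ⟨z', h'⟩ := lsd_ext hC hA h z
  exact ⟨z', n, h'⟩

theorem lsc_inv (hC : Cz L U) [Countable κ] [Countable α] (hA : A.Countable) {x y x' y' : α → U}
    (h : Tq L A (Sum.elim x y) (Sum.elim x' y')) (hs : Lsc L A μ x y) : Lsc L A μ x' y' := by
  obtain ⟨n, hs⟩ := hs
  exact ⟨n, lsd_inv hC hA h hs⟩

/-! ### closed relations -/

variable (L) in
/-- the relation `R` is closed over `A` -/
def Cl2 (A : Set U) {α β : Type} (R : (α → U) → (β → U) → Prop) : Prop :=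
  ∀ x y, (∀ δ : (α ⊕ β → U) → Prop, Dp L A δ → (∀ x' y', R x' y' → δ (Sum.elim x' y')) → δ (Sum.elim x y)) →
    R x y

theorem cl2_eq [Finite α] : Cl2 L A (fun x y : α → U => x = y) := by
  intro x y h
  have h1 := h (fun v => ∀ i : α, v (Sum.inl i) = v (Sum.inr i)) (dp_all_fin fun i => dp_eq _ _) (by
    rintro x' y' rfl i
    rfl)
  exact funext h1

theorem cl2_comp (hC : Cz L U) [Countable α] [Countable β] {γ : Type} [Countable γ] (hA : A.Countable)
    {R : (α → U) → (β → U) → Prop} {S : (β → U) → (γ → U) → Prop} (hR : Cl2 L A R) (hS : Cl2 L A S) :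
    Cl2 L A (fun x y => ∃ z, R x z ∧ S z y) := by
  intro x y h
  obtain ⟨z, hz⟩ := sat_dp hC (α := β) (B := A ∪ range (Sum.elim x y))
    (hA.union (countable_range _))
    (F := {P | (∃ δ : (α ⊕ β → U) → Prop, Dp L A δ ∧ (∀ x' y', R x' y' → δ (Sum.elim x' y')) ∧
        P = fun z => δ (Sum.elim x z)) ∨
      (∃ δ : (β ⊕ γ → U) → Prop, Dp L A δ ∧ (∀ x' y', S x' y' → δ (Sum.elim x' y')) ∧
        P = fun z => δ (Sum.elim z y))}) (by
      rintro P (⟨δ, hδ, -, rfl⟩ | ⟨δ, hδ, -, rfl⟩)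
      · have h2 := dp_par (dp_sub (dp_mono (subset_union_left (s := A) (t := range (Sum.elim x y))) hδ)
          (Sum.swap : α ⊕ β → β ⊕ α)) x (fun i => Or.inr ⟨Sum.inl i, rfl⟩)
        refine dp_congr h2 fun v => iff_of_eq (congrArg δ ?_)
        funext i
        rcases i with i | i <;> rfl
      · exact dp_par (dp_mono (subset_union_left (s := A) (t := range (Sum.elim x y))) hδ) y
          (fun i => Or.inr ⟨Sum.inr i, rfl⟩)) (by
      intro G hG hfin
      -- one formula for each member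
      have h2 : ∀ P : (β → U) → Prop, ∃ (δ : (α ⊕ β → U) → Prop) (ε : (β ⊕ γ → U) → Prop), Dp L A δ ∧ Dp L A ε ∧
          (∀ x' y', R x' y' → δ (Sum.elim x' y')) ∧ (∀ x' y', S x' y' → ε (Sum.elim x' y')) ∧
          (P ∈ G → ∀ z, δ (Sum.elim x z) → ε (Sum.elim z y) → P z) := by
        intro P
        by_cases hP : P ∈ G
        · rcases hG hP with ⟨δ, hδ, h3, rfl⟩ | ⟨δ, hδ, h3, rfl⟩
          · exact ⟨δ, fun _ => True, hδ, dp_true, h3, fun _ _ _ => trivial, fun _ z h4 _ => h4⟩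
          · exact ⟨fun _ => True, δ, dp_true, hδ, fun _ _ _ => trivial, h3, fun _ z _ h4 => h4⟩
        · exact ⟨fun _ => True, fun _ => True, dp_true, dp_true, fun _ _ _ => trivial, fun _ _ _ => trivial,
            fun h => absurd h hP⟩
      choose δ ε hδ hε hδR hεS hP using h2
      have h4 := h (fun v => ∃ z : β → U, ∀ P ∈ G, δ P (Sum.elim (fun i => v (Sum.inl i)) z) ∧
          ε P (Sum.elim z (fun i => v (Sum.inr i)))) (by
        refine dp_exc hC.ne (P := fun w : (α ⊕ γ) ⊕ β → U => ∀ P ∈ G,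
          δ P (Sum.elim (fun i => w (Sum.inl (Sum.inl i))) (fun j => w (Sum.inr j))) ∧
          ε P (Sum.elim (fun j => w (Sum.inr j)) (fun i => w (Sum.inl (Sum.inr i))))) ?_
        refine dp_ball hfin fun P _ => dp_and ?_ ?_
        · refine dp_congr (dp_sub (hδ P) (Sum.elim (fun i => Sum.inl (Sum.inl i)) Sum.inr :
            α ⊕ β → (α ⊕ γ) ⊕ β)) fun v => iff_of_eq (congrArg (δ P) ?_)
          funext i
          rcases i with i | i <;> rfl
        · refine dp_congr (dp_sub (hε P) (Sum.elim Sum.inr (fun i => Sum.inl (Sum.inr i)) :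
            β ⊕ γ → (α ⊕ γ) ⊕ β)) fun v => iff_of_eq (congrArg (ε P) ?_)
          funext i
          rcases i with i | i <;> rfl) (by
        rintro x' y' ⟨z, hz, hz'⟩
        exact ⟨z, fun P _ => ⟨hδR P _ _ hz, hεS P _ _ hz'⟩⟩)
      obtain ⟨z, hz⟩ := h4
      exact ⟨z, fun P hPG => hP P hPG z (hz P hPG).1 (hz P hPG).2⟩)
  refine ⟨z, hR _ _ fun δ hδ h1 => ?_, hS _ _ fun δ hδ h1 => ?_⟩
  · exact hz _ (Or.inl ⟨δ, hδ, h1, rfl⟩)
  · exact hz _ (Or.inr ⟨δ, hδ, h1, rfl⟩)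

theorem lst_clo (hC : Cz L U) [Countable κ] [Countable α] (hA : A.Countable) :
    Cl2 L A (Lst L A μ (α := α)) := by
  have h1 : Cl2 L A (fun (x : α → U) (w : α ⊕ κ → U) => (∀ i, w (Sum.inl i) = x i) ∧
      Tq L A μ (fun k => w (Sum.inr k))) := by
    intro x w h
    refine ⟨fun i => ?_, fun P hP hμ => ?_⟩
    · exact h (fun v => v (Sum.inr (Sum.inl i)) = v (Sum.inl i)) (dp_eq _ _) fun x' w' h' => h'.1 i
    · exact h (fun v => P (fun k => v (Sum.inr (Sum.inr k)))) (dp_sub hP _) fun x' w' h' => h'.2 P hP hμ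
  have h2 : Cl2 L A (fun (w : α ⊕ κ → U) (y : α → U) => Tq L A w (Sum.elim y (fun k => w (Sum.inr k)))) := by
    intro w y h P hP hw
    refine h (fun v => P (fun j => v (Sum.inl j)) → P (Sum.elim (fun i => v (Sum.inr i))
      (fun k => v (Sum.inl (Sum.inr k))))) (dp_imp (dp_sub hP _) ?_) (fun w' y' h' => h' P hP) hw
    refine dp_congr (dp_sub hP (Sum.elim Sum.inr (fun k => Sum.inl (Sum.inr k)) : α ⊕ κ → (α ⊕ κ) ⊕ α)) fun v =>
      iff_of_eq (congrArg P ?_)
    funext i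
    rcases i with i | i <;> rfl
  intro x y h
  obtain ⟨w, ⟨hw, hw'⟩, hw''⟩ := cl2_comp hC hA h1 h2 x y (fun δ hδ h' => h δ hδ fun x' y' hxy => by
    obtain ⟨ν, h3, h4⟩ := hxy
    exact h' x' y' ⟨Sum.elim x' ν, ⟨fun i => rfl, h3⟩, h4⟩)
  refine ⟨fun k => w (Sum.inr k), hw', tq_congr hw'' ?_ rfl⟩
  funext j
  rcases j with j | j
  · exact (hw j).symm
  · rfl

theorem lsd_clo (hC : Cz L U) [Countable κ] [Finite α] (hA : A.Countable) (n : ℕ) :
    Cl2 L A (Lsd L A μ n (α := α)) := by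
  induction n with
  | zero => exact cl2_eq
  | succ n ih => exact cl2_comp hC hA ih (lst_clo hC hA)

end

end Pool.Agent.TPY
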