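import Pool.Agent.TPY.StLN
import Pool.Agent.TPY.LSA

/-!
# TPY, module IXD: isolated types are dense
-/

set_option autoImplicit false
set_option linter.unusedVariables false

namespace Pool.Agent.TPY

open FirstOrder.Language Set
open scoped FirstOrder
open Pool.Agent.MNO

theorem thm_IXD : St_IXD := by
  intro L U _ hC α _ A P hA hP hne
  classical
  by_contra hcon
  push Not at hcon
  obtain ⟨e, he⟩ := types_fin hC hA α
  have step : ∀ (Q : {Q : (α → U) → Prop // Dp L A Q ∧ (∃ x, Q x) ∧ ∀ x, Q x → P x})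
      (t : α → U), ∃ Q' : {Q : (α → U) → Prop // Dp L A Q ∧ (∃ x, Q x) ∧ ∀ x, Q x → P x},
        (∀ x, Q'.1 x → Q.1 x) ∧ ¬ Q'.1 t := by
    rintro ⟨Q, hQ, ⟨x, hx⟩, hQP⟩ t
    by_cases ht : Q t
    · have h1 : ¬ Isl L A t := hcon t (hQP t ht)
      have h2 : ∃ v, Q v ∧ ¬ Tq L A t v := by
        by_contra h3
        push Not at h3
        exact h1 ⟨Q, hQ, ht, h3⟩
      obtain ⟨v, hv, hv'⟩ := h2
      unfold Tq at hv'
      push Not at hv'
      obtain ⟨D, hD, hDt, hDv⟩ := hv'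
      exact ⟨⟨fun x => Q x ∧ ¬ D x, dp_and hQ (dp_not hD), ⟨v, hv, hDv⟩,
        fun x hx => hQP x hx.1⟩, fun x hx => hx.1, fun h => h.2 hDt⟩
    · exact ⟨⟨Q, hQ, ⟨x, hx⟩, hQP⟩, fun _ h => h, ht⟩
  choose nx hnx1 hnx2 using step
  let Q : ℕ → {Q : (α → U) → Prop // Dp L A Q ∧ (∃ x, Q x) ∧ ∀ x, Q x → P x} := fun n =>
    Nat.rec ⟨P, hP, hne, fun _ h => h⟩ (fun k q => nx q (e k)) n
  have hQs : ∀ n, Q (n + 1) = nx (Q n) (e n) := fun n => rfl
  have hanti : ∀ m n, m ≤ n → ∀ x, (Q n).1 x → (Q m).1 x := by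
    intro m n hmn
    induction n, hmn using Nat.le_induction with
    | base => exact fun _ h => h
    | succ n hmn ih =>
      intro x hx
      rw [hQs] at hx
      exact ih x (hnx1 _ _ _ hx)
  obtain ⟨x, hx⟩ := sat_dp hC hA.countable (F := Set.range fun n => (Q n).1)
    (by
      rintro _ ⟨n, rfl⟩
      exact (Q n).2.1)
    (by
      intro G hG hGf
      have hf : ∀ R ∈ G, ∃ n, (Q n).1 = R := fun R hR => hG hR
      choose! f hf using hf
      obtain ⟨N, hN⟩ := (hGf.image f).bddAbove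
      obtain ⟨v, hv⟩ := (Q N).2.2.1
      refine ⟨v, fun R hR => ?_⟩
      have h1 : f R ≤ N := hN ⟨R, hR, rfl⟩
      have h2 := hanti _ _ h1 v hv
      rw [hf R hR] at h2
      exact h2)
  obtain ⟨n, hn⟩ := he x
  have h1 : (Q (n + 1)).1 x := hx _ ⟨n + 1, rfl⟩
  have h2 : (Q (n + 1)).1 (e n) := hn _ (Q (n + 1)).2.1 h1
  rw [hQs] at h2
  exact hnx2 _ _ h2

end Pool.Agent.TPY
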