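import Pool.Agent.TPY.StLN

/-!
# TPY: a definable order without a last class on a strong type: the piece is ended (`St_LNB`)
-/

set_option autoImplicit false
set_option linter.unusedVariables false

namespace Pool.Agent.TPY

open FirstOrder.Language Set
open scoped FirstOrder
open Pool.Agent.MNO

theorem thm_LNB (hECR : St_ECR) : St_LNB := by
  intro L U _ hC A Θ lt y y' hA h hy hy' hlt hyy
  -- points with the strong type of `y`
  have hΘ : ∀ v, Sq L A (s1 y) (s1 v) → Θ v := fun v hv => (tq_iff (tq_of_sq hv) h.dfΘ).1 hy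
  have hδ : Dp L A (fun v : Fin 1 ⊕ Fin 1 → U =>
      Θ (v (Sum.inr 0)) ∧ Θ (v (Sum.inl 0)) ∧ lt (v (Sum.inr 0)) (v (Sum.inl 0))) := by
    have h1 := dp_sub h.dfΘ (fun _ : Fin 1 => (Sum.inr 0 : Fin 1 ⊕ Fin 1))
    have h2 := dp_sub h.dfΘ (fun _ : Fin 1 => (Sum.inl 0 : Fin 1 ⊕ Fin 1))
    have h3 := dp_sub h.dfl (Sum.swap : Fin 1 ⊕ Fin 1 → Fin 1 ⊕ Fin 1)
    exact dp_and h1 (dp_and h2 h3)
  have hO : Cpo L A y (fun _ y₂ y₁ => Θ y₁ ∧ Θ y₂ ∧ lt y₁ y₂) := by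
    refine ⟨hA, fun n => dp_mono (subset_univ _) hδ, ?_, fun n y z h1 => h1, ?_, ?_, ?_, ?_⟩
    · intro n a b a' b' hab h1
      exact (tq_iff (tq_of_sq hab) hδ).1 h1
    · rintro n z hz ⟨h1, -, h2⟩
      exact h.irr z h1 h2
    · rintro a b c ha hb hc ⟨n, h1, h2, h3⟩ ⟨m, h4, h5, h6⟩
      exact ⟨0, h4, h2, h.tra c b a h4 h1 h2 h6 h3⟩
    · rintro a b c ha hb hc ⟨n, h1, h2, h3⟩
      rcases h.neg c b a h1 (hΘ b hb) h2 h3 with h4 | h4
      · exact Or.inr ⟨0, h1, hΘ b hb, h4⟩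
      · exact Or.inl ⟨0, hΘ b hb, h2, h4⟩
    · intro z hz
      obtain ⟨c, hc⟩ := sq_ext hC hA.countable hz (s1 y')
      have e : c = s1 (c 0) := funext fun i => by
        rw [Subsingleton.elim i 0]
        rfl
      have h1 : Sq L A (s1 y) (s1 (c 0)) := by
        rw [← e]
        exact sq_trans hyy (sq_right hc)
      refine ⟨c 0, h1, 0, hΘ z hz, hΘ _ h1, ?_⟩
      exact (tq_iff (tq_of_sq hc) h.dfl).1 hlt
  obtain ⟨r, h1, h2, h3, h4⟩ := hECR L U hC A y _ hO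
  exact ⟨r, ⟨h1, h4, h2⟩, y, mem_pc y, h3⟩

end Pool.Agent.TPY
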