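import Pool.Agent.TPY.StLN
import Pool.Agent.TPY.MB0

/-!
# TPY, module LNR: the linear case: facing indiscernible sequences in an isolated type are totally indiscernible
-/

set_option autoImplicit false
set_option linter.unusedVariables false

namespace Pool.Agent.TPY

open FirstOrder.Language Set
open scoped FirstOrder
open Pool.Agent.MNO

section

variable {L : FirstOrder.Language.{0, 0}} {U : Type} [L.Structure U] {F : Set U}

private theorem lnr_eta (a : Fin 1 → U) : s1 (a 0) = a := by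
  funext i
  fin_cases i
  rfl

/-- `big F x` depends only on the type of `x` over `F` -/
private theorem lnr_big {A₀ : Set U} {big : Set U → U → Prop} (hB : Bg L A₀ big) (h0 : A₀ ⊆ F)
    (hF : F.Finite) {x y : U} (h : Tq L F (s1 x) (s1 y)) (hb : big F x) : big F y := by
  obtain ⟨n, f, hf⟩ := exists_enum hF
  have key : A₀ ∪ range f = F := by
    rw [hf, union_eq_self_of_subset_left h0]
  have h1 := hB.inv (Fin n) f f x y (by
    have h2 := tq_add h f (fun i => by rw [← hf]; exact ⟨i, rfl⟩)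
    have h3 := tq_sub h2 (Sum.swap : Fin n ⊕ Fin 1 → Fin 1 ⊕ Fin n)
    refine tq_mono h0 (tq_congr h3 ?_ ?_)
    · funext i
      rcases i with i | i <;> rfl
    · funext i
      rcases i with i | i <;> rfl)
  rw [key] at h1
  exact h1 hb

private theorem lnr_fin (w : ℚ → Fin 1 → U) {W : Set ℚ} (hW : W.Finite) : (Tm w W).Finite := by
  refine (hW.image (fun q => w q 0)).subset ?_
  rintro v ⟨q, hq, k, rfl⟩
  refine ⟨q, hq, ?_⟩
  have : k = 0 := Subsingleton.elim _ _
  rw [this]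

end

theorem thm_LNR (hODD : St_ODD) (hODE : St_ODE) (hIXD : St_IXD) (hASC : St_ASC) (hLNB : St_LNB)
    (hLNS : St_LNS) (hXPC : St_XPC) : St_LNR := by
  intro L U _ hC hIso A₀ big hB hB3 F z u h0 hF hz hu hm hIsl hbig
  by_contra hT
  have hFc : F.Countable := hF.countable
  have hx0 : s1 (u 0 0) = u 0 := lnr_eta (u 0)
  have hbx : big F (u 0 0) := hB.pc F z (u 0 0) h0 hF (hm 0) hz
  have hnE : ¬ Edd L F (u 0 0) := fun h => hB.b1 F (u 0 0) h0 hF h hbx
  obtain ⟨n, T, χ, c₀, hTd, hχd, hP0, hchi⟩ := hODE L U hC hIso A₀ big hB F z u h0 hF hu hm hbig hT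
  obtain ⟨hPd, hDlo⟩ := hODD L U hC F (u 0 0) n T χ hF hnE (by rw [hx0]; exact hIsl) hTd hχd
  obtain ⟨c, hPc, hIc⟩ := hIXD L U hC (Fin n ⊕ Fin 2) F (fun c => Ptc L F (u 0 0) T χ c) hF hPd
    ⟨c₀, hP0⟩
  set p' : U := c (Sum.inr 0) with hp'
  have hbp : big F p' := lnr_big hB h0 hF (hPc.typ (Sum.inr 0)).1 hbx
  obtain ⟨z', hz', hbz'⟩ := hB3 F p' (Fin n ⊕ Fin 2) c h0 hF hbp (fun i => (hPc.typ i).2) hIc
  have hAf : (F ∪ range c).Finite := hF.union (finite_range c)
  have h0A : A₀ ⊆ F ∪ range c := h0.trans subset_union_left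
  have hD := hDlo c hPc
  obtain ⟨y, y', hy, hy', hlt, hsq⟩ := hASC L U hC (F ∪ range c) (Tht T c) (Tlt T c)
    hAf.countable hD
  by_cases hyz : y ∈ Pc L (F ∪ range c) z'
  · have h1 := hLNB L U hC (F ∪ range c) (Tht T c) (Tlt T c) y y' hAf hD hy hy' hlt hsq
    refine hB.b1 (F ∪ range c) z' h0A hAf ?_ hbz'
    obtain ⟨r, hr, w, hw, hw'⟩ := h1
    refine ⟨r, hr, w, ?_, hw'⟩
    rw [← pc_eq hC hAf.countable hyz]
    exact hw
  · obtain ⟨w, hw1, hw2, hw3⟩ := hLNS L U hC (F ∪ range c) (Tht T c) (Tlt T c) y y' hAf hD hy hy'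
      hlt hsq
    have hΘ : ∀ q, Tht T c (w q 0) := fun q => (sq_dp (hw2 q) hD.dfΘ).1 hy
    have hout : ∀ q, w q 0 ∉ Pc L (F ∪ range c) z' := by
      intro q hq
      apply hyz
      refine (bf_inv1 (pc_bf hC z') (y := w q 0) ?_).2 hq
      rw [lnr_eta]
      exact hw2 q
    have hmem : ∀ q, w q 0 ∈ Pc L F p' := fun q => (hPc.tht _ (hΘ q)).2
    have hgood : ∀ W : Set ℚ, W.Finite → ∃ y ∈ Pc L F p', big (F ∪ Tm w W) y := by
      intro W hW
      refine ⟨z', hz', ?_⟩
      have hBf : (F ∪ range c ∪ Tm w W).Finite := hAf.union (lnr_fin w hW)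
      have h1 := hB.b5 (F ∪ range c) (F ∪ range c ∪ Tm w W) z' h0A subset_union_left hBf (by
        rintro v (hv | ⟨q, hq, k, rfl⟩)
        · exact par_notMem hC hAf.countable hv (hB.b0 _ z' h0A hAf hbz')
        · have : k = 0 := Subsingleton.elim _ _
          rw [this]
          exact hout q) hbz'
      refine hB.b4 (F ∪ Tm w W) (F ∪ range c ∪ Tm w W) z' (h0.trans subset_union_left) ?_ hBf h1
      exact union_subset_union_left _ subset_union_left
    have hb01 : big (insert (w 0 0) F) (w 1 0) := by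
      refine hchi (w 0 0) (w 1 0) ?_ (hPc.chi _ _ (hΘ 0) (hΘ 1) (hw3 0 1 zero_lt_one))
      rw [← hx0]
      exact (hPc.tht _ (hΘ 0)).1
    exact hXPC L U hC A₀ big hB F p' w h0 hF
      (fun m i j hi hj => tq_mono subset_union_left (hw1 m i j hi hj)) hmem hgood 0 1 (w 1 0)
      zero_ne_one (hmem 1) hb01 (mem_pc _)

end Pool.Agent.TPY
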