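import Pool.Agent.TPY.StLN

/-!
# TPY, LNS: an increasing indiscernible sequence (helper14)
-/

set_option autoImplicit false
set_option linter.unusedVariables false

namespace Pool.Agent.TPY

open FirstOrder.Language Set
open scoped FirstOrder
open Pool.Agent.MNO

theorem thm_LNS (hEXT : St_EXT) : St_LNS := by
  intro L U _ hC A Θ lt y y' hA hD hy hy' hlt hsq
  -- the sequence of type `ω`
  have h1 : ∀ z : U, ∃ z' : U, Sq L A (s1 y) (s1 z) →
      Sq L A (Sum.elim (s1 y) (s1 y')) (Sum.elim (s1 z) (s1 z')) := by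
    intro z
    by_cases hz : Sq L A (s1 y) (s1 z)
    · obtain ⟨c, hc⟩ := sq_ext hC hA.countable hz (s1 y')
      have e : s1 (c 0) = c := by
        funext i
        show c 0 = c i
        rw [Subsingleton.elim i 0]
      refine ⟨c 0, fun _ => ?_⟩
      rw [e]
      exact hc
    · exact ⟨z, fun h => absurd h hz⟩
  choose g hg using h1
  have h2 : ∀ l : ℕ, Sq L A (s1 y) (s1 (g^[l] y)) := by
    intro l
    induction l with
    | zero => exact sq_refl _ _
    | succ l ih =>
      rw [Function.iterate_succ_apply']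
      exact sq_trans hsq (sq_right (hg _ ih))
  have hΘ : ∀ l : ℕ, Θ (g^[l] y) := fun l => (sq_dp (h2 l) hD.dfΘ).1 hy
  have h3 : ∀ l : ℕ, lt (g^[l] y) (g^[l + 1] y) := by
    intro l
    have h4 := (sq_dp (hg _ (h2 l)) hD.dfl).1 hlt
    rw [Function.iterate_succ_apply']
    exact h4
  have h4 : ∀ l k : ℕ, lt (g^[l] y) (g^[l + k + 1] y) := by
    intro l k
    induction k with
    | zero => exact h3 l
    | succ k ih => exact hD.tra _ _ _ (hΘ _) (hΘ _) (hΘ _) ih (h3 _)
  have h5 : ∀ l m : ℕ, l < m → lt (g^[l] y) (g^[m] y) := by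
    intro l m hlm
    obtain ⟨k, rfl⟩ := Nat.exists_eq_add_of_lt hlm
    exact h4 l k
  obtain ⟨w, hw, hw'⟩ := hEXT L U hC (Fin 1) A (fun l => s1 (g^[l] y)) hA.countable
  refine ⟨w, hw, fun q E hE => ?_, fun p q hpq => ?_⟩
  · obtain ⟨j, -, hj⟩ := hw' 1 (fun _ => q) (fun a b hab => absurd hab (by
      rw [Subsingleton.elim a b]
      exact lt_irrefl _)) _ (fe_sub hE (fun i : Fin 1 => ((0 : Fin 1), i)))
    have h6 : E (w q) (s1 (g^[j 0] y)) := hj
    exact hE.eqv.trans (h2 (j 0) E hE) (hE.eqv.symm h6)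
  · have h6 : Dp L A (fun x : Fin 2 × Fin 1 → U => lt (x (0, 0)) (x (1, 0))) :=
      dp_sub hD.dfl (Sum.elim (fun _ => (0, 0)) (fun _ => (1, 0)))
    obtain ⟨j, hj, hj'⟩ := hw' 2 ![p, q] (by
      intro a b hab
      fin_cases a <;> fin_cases b
      · exact absurd hab (lt_irrefl _)
      · exact hpq
      · exact absurd hab (by decide)
      · exact absurd hab (lt_irrefl _)) _ (fe_of_dp h6)
    have h7 : lt (w p 0) (w q 0) ↔ lt (g^[j 0] y) (g^[j 1] y) := hj'
    exact h7.2 (h5 _ _ (hj (by decide)))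

end Pool.Agent.TPY
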