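import Pool.Agent.TPY.StLN

/-!
# TPY [ODD]: `Ptc` is first order over `F`, and gives `Dlo` over `F ∪ range c`
-/

set_option autoImplicit false
set_option linter.unusedVariables false

namespace Pool.Agent.TPY

open FirstOrder.Language Set
open scoped FirstOrder
open Pool.Agent.MNO

section

variable {L : FirstOrder.Language.{0, 0}} {U : Type} [L.Structure U] {F : Set U} {n : ℕ}
  {T : (Fin 1 ⊕ (Fin n ⊕ Fin 2) → U) → Prop} {χ : (Fin 1 ⊕ Fin 1 → U) → Prop} {δ : Type}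

private theorem d_tht (hT : Dp L F T) (e : Fin n ⊕ Fin 2 → δ) (a : δ) :
    Dp L F (fun V : δ → U => Tht T (fun i => V (e i)) (V a)) := by
  refine dp_congr (dp_sub hT (Sum.elim (fun _ => a) e)) fun V => iff_of_eq (congrArg T ?_)
  funext i
  rcases i with i | i <;> rfl

private theorem d_tlt (hT : Dp L F T) (e : Fin n ⊕ Fin 2 → δ) (a b : δ) :
    Dp L F (fun V : δ → U => Tlt T (fun i => V (e i)) (V a) (V b)) := by
  refine dp_congr (dp_sub hT (Sum.elim (fun _ => a) (Sum.elim (fun i => e (Sum.inl i))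
    ![e (Sum.inr 0), b]))) fun V => iff_of_eq (congrArg T ?_)
  funext i
  rcases i with i | i | i
  · rfl
  · rfl
  · fin_cases i <;> rfl

private theorem d_chi (hχ : Dp L F χ) (a b : δ) :
    Dp L F (fun V : δ → U => χ (Sum.elim (s1 (V a)) (s1 (V b)))) := by
  refine dp_congr (dp_sub hχ (Sum.elim (fun _ => a) (fun _ => b))) fun V => iff_of_eq (congrArg χ ?_)
  funext i
  rcases i with i | i <;> rfl

end

theorem thm_ODD (hSPD : St_SPD) : St_ODD := by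
  intro L U _ hC F x n T χ hF hE hI hT hχ
  have hS0 := hSPD L U hC F x hF hE hI
  have hS : ∀ (δ : Type) (a b : δ), Dp L F (fun V : δ → U => Tq L F (s1 x) (s1 (V a)) ∧
      Tq L F (s1 x) (s1 (V b)) ∧ V b ∈ Pc L F (V a)) := fun δ a b =>
    dp_sub hS0 (Sum.elim (fun _ => a) (fun _ => b))
  constructor
  · have h1 := dp_ex1 (d_tht hT (δ := (Fin n ⊕ Fin 2) ⊕ Unit) Sum.inl (Sum.inr ()))
    have h2 := dp_all1 (dp_imp (d_tht hT (δ := (Fin n ⊕ Fin 2) ⊕ Unit) Sum.inl (Sum.inr ()))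
      (dp_not (d_tlt hT Sum.inl (Sum.inr ()) (Sum.inr ()))))
    let e3 : Fin n ⊕ Fin 2 → (((Fin n ⊕ Fin 2) ⊕ Unit) ⊕ Unit) ⊕ Unit := fun i => Sum.inl (Sum.inl (Sum.inl i))
    let x3 : (((Fin n ⊕ Fin 2) ⊕ Unit) ⊕ Unit) ⊕ Unit := Sum.inl (Sum.inl (Sum.inr ()))
    let y3 : (((Fin n ⊕ Fin 2) ⊕ Unit) ⊕ Unit) ⊕ Unit := Sum.inl (Sum.inr ())
    let z3 : (((Fin n ⊕ Fin 2) ⊕ Unit) ⊕ Unit) ⊕ Unit := Sum.inr ()
    have h3 := dp_all1 (dp_all1 (dp_all1 (dp_imp (d_tht hT e3 x3) (dp_imp (d_tht hT e3 y3)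
      (dp_imp (d_tht hT e3 z3) (dp_imp (d_tlt hT e3 x3 y3) (dp_imp (d_tlt hT e3 y3 z3)
        (d_tlt hT e3 x3 z3))))))))
    have h4 := dp_all1 (dp_all1 (dp_all1 (dp_imp (d_tht hT e3 x3) (dp_imp (d_tht hT e3 y3)
      (dp_imp (d_tht hT e3 z3) (dp_imp (d_tlt hT e3 x3 z3) (dp_or (d_tlt hT e3 x3 y3)
        (d_tlt hT e3 y3 z3))))))))
    let e2 : Fin n ⊕ Fin 2 → ((Fin n ⊕ Fin 2) ⊕ Unit) ⊕ Unit := fun i => Sum.inl (Sum.inl i)
    let x2 : ((Fin n ⊕ Fin 2) ⊕ Unit) ⊕ Unit := Sum.inl (Sum.inr ())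
    let y2 : ((Fin n ⊕ Fin 2) ⊕ Unit) ⊕ Unit := Sum.inr ()
    have h5 := dp_all1 (dp_imp (d_tht hT (δ := (Fin n ⊕ Fin 2) ⊕ Unit) Sum.inl (Sum.inr ()))
      (dp_ex1 (dp_and (d_tht hT e2 y2) (d_tlt hT e2 x2 y2))))
    have h6 := dp_all_fin (ι := Fin n ⊕ Fin 2) fun i => hS (Fin n ⊕ Fin 2) (Sum.inr 0) i
    have h7 := dp_all1 (dp_imp (d_tht hT (δ := (Fin n ⊕ Fin 2) ⊕ Unit) Sum.inl (Sum.inr ()))
      (hS ((Fin n ⊕ Fin 2) ⊕ Unit) (Sum.inl (Sum.inr 0)) (Sum.inr ())))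
    have h8 := dp_all1 (dp_all1 (dp_imp (d_tht hT e2 x2) (dp_imp (d_tht hT e2 y2)
      (dp_imp (d_tlt hT e2 x2 y2) (d_chi hχ x2 y2)))))
    refine dp_congr (dp_and h1 (dp_and h2 (dp_and h3 (dp_and h4 (dp_and h5 (dp_and h6 (dp_and h7 h8))))))) fun c => ?_
    constructor
    · intro h
      exact ⟨h.ne, h.irr, h.tra, h.neg, h.nmx, fun i => ⟨(h.typ (Sum.inr 0)).1, h.typ i⟩,
        fun v hv => ⟨(h.typ (Sum.inr 0)).1, h.tht v hv⟩, h.chi⟩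
    · rintro ⟨g1, g2, g3, g4, g5, g6, g7, g8⟩
      exact ⟨g1, g2, g3, g4, g5, fun i => (g6 i).2, fun v hv => (g7 v hv).2, g8⟩
  · intro c h
    refine ⟨?_, ?_, h.ne, h.irr, h.tra, h.neg, h.nmx⟩
    · have h1 := dp_mono (subset_union_left (s := F) (t := range c))
        (d_tht hT (δ := Fin 1 ⊕ (Fin n ⊕ Fin 2)) Sum.inr (Sum.inl 0))
      exact dp_par h1 c (fun i => Or.inr ⟨i, rfl⟩)
    · have h1 := dp_mono (subset_union_left (s := F) (t := range c))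
        (d_tlt hT (δ := (Fin 1 ⊕ Fin 1) ⊕ (Fin n ⊕ Fin 2)) Sum.inr (Sum.inl (Sum.inl 0)) (Sum.inl (Sum.inr 0)))
      exact dp_par h1 c (fun i => Or.inr ⟨i, rfl⟩)

end Pool.Agent.TPY
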