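import Pool.Agent.TPY.StLN
import Pool.Agent.TPY.MB0

/-!
# TPY, module ODE: the sequence gives one `c` (helper24)
-/

set_option autoImplicit false
set_option linter.unusedVariables false

namespace Pool.Agent.TPY

open FirstOrder.Language Set
open scoped FirstOrder
open Pool.Agent.MNO

theorem thm_ODE (hGPL : St_GPL) (hTHE : St_THE) (hCHI : St_CHI) : St_ODE := by
  intro L U _ hC hIso A₀ big hB F z u hA hF hu hz hbig hTis
  have hFc : F.Countable := hF.countable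
  obtain ⟨J, a, b, E, lt, hJ, hab, hLin, hE, hsq, hlt⟩ := hGPL L U hC F u hF hu hTis
  -- the enumeration of the parameters
  have hTm : (Tm u J).Finite := by
    refine (hJ.image fun q => u q 0).subset ?_
    rintro x ⟨q, hq, k, rfl⟩
    exact ⟨q, hq, by rw [Subsingleton.elim k 0]⟩
  obtain ⟨n, h, hh⟩ := exists_enum hTm
  rw [← hh] at hLin hsq
  -- the three indices
  have ha1 : a < a + (b - a) / 4 := by linarith
  have h12 : a + (b - a) / 4 < a + (b - a) / 2 := by linarith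
  have h23 : a + (b - a) / 2 < a + 3 * (b - a) / 4 := by linarith
  have h3b : a + 3 * (b - a) / 4 < b := by linarith
  generalize a + (b - a) / 4 = i₁ at ha1 h12
  generalize a + (b - a) / 2 = i₂ at h12 h23
  generalize a + 3 * (b - a) / 4 = i₃ at h23 h3b
  have ha2 : a < i₂ := ha1.trans h12
  have ha3 : a < i₃ := ha2.trans h23
  have h2b : i₂ < b := h23.trans h3b
  have h1b : i₁ < b := h12.trans h2b
  have hp : u i₁ 0 ∈ E := hE i₁ ha1 h1b
  have hx : u i₂ 0 ∈ E := hE i₂ ha2 h2b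
  have hq : u i₃ 0 ∈ E := hE i₃ ha3 h3b
  have hpx : lt (u i₁ 0) (u i₂ 0) := hlt i₁ i₂ ha1 h12 h2b
  have hxq : lt (u i₂ 0) (u i₃ 0) := hlt i₂ i₃ ha2 h23 h3b
  have hpq : lt (u i₁ 0) (u i₃ 0) := hlt i₁ i₃ ha1 (h12.trans h23) h3b
  have hspx : Sq L (F ∪ range h) (s1 (u i₁ 0)) (s1 (u i₂ 0)) := by
    rw [s1_eta, s1_eta]
    exact hsq i₁ i₂ ha1 h1b ha2 h2b
  have hspq : Sq L (F ∪ range h) (s1 (u i₁ 0)) (s1 (u i₃ 0)) := by
    rw [s1_eta, s1_eta]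
    exact hsq i₁ i₃ ha1 h1b ha3 h3b
  obtain ⟨T, hT, hT'⟩ := hTHE L U hC hIso F n h E lt (u i₁ 0) (u i₂ 0) (u i₃ 0) hF hLin hp hx hq
    hpx hxq hspx hspq
  obtain ⟨χ, hχ, hχ1, hχ2⟩ := hCHI L U hC A₀ big hB F (u i₁ 0) (u i₂ 0) hA hF
    (hbig i₁ i₂ h12.ne)
  -- all terms have the same type
  have htq : ∀ i j : ℚ, Tq L F (s1 (u i 0)) (s1 (u j 0)) := by
    intro i j
    rw [s1_eta, s1_eta]
    exact idc_ot hu (κ := Fin 1) (fun _ => i) (fun _ => j) id fun k l => by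
      simp only [lt_self_iff_false]
  -- the set and the order
  have hTht : ∀ v, Tht T (Sum.elim h ![u i₁ 0, u i₃ 0]) v ↔
      Sq L (F ∪ range h) (s1 (u i₁ 0)) (s1 v) ∧ lt (u i₁ 0) v ∧ lt v (u i₃ 0) :=
    fun v => hT' (u i₃ 0) hspq hpq v
  have hTlt : ∀ v v', Tht T (Sum.elim h ![u i₁ 0, u i₃ 0]) v →
      Tht T (Sum.elim h ![u i₁ 0, u i₃ 0]) v' →
      (Tlt T (Sum.elim h ![u i₁ 0, u i₃ 0]) v v' ↔ lt v v') := by
    intro v v' hv hv'
    obtain ⟨h1, h2, h3⟩ := (hTht v).1 hv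
    obtain ⟨h1', h2', h3'⟩ := (hTht v').1 hv'
    have h4 := hT' v' h1' h2' v
    constructor
    · intro h5
      exact (h4.1 h5).2.2
    · intro h5
      exact h4.2 ⟨h1, h2, h5⟩
  have hinE : ∀ v, Sq L (F ∪ range h) (s1 (u i₁ 0)) (s1 v) → v ∈ E := fun v hv =>
    hLin.bf.inv _ _ hv hp
  have hΘE : ∀ v, Tht T (Sum.elim h ![u i₁ 0, u i₃ 0]) v → v ∈ E := fun v hv =>
    hinE v ((hTht v).1 hv).1
  refine ⟨n, T, χ, Sum.elim h ![u i₁ 0, u i₃ 0], hT, hχ, ⟨?_, ?_, ?_, ?_, ?_, ?_, ?_, ?_⟩, ?_⟩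
  · exact ⟨u i₂ 0, (hTht _).2 ⟨hspx, hpx, hxq⟩⟩
  · intro v hv h1
    exact hLin.irr v (hΘE v hv) ((hTlt v v hv hv).1 h1)
  · intro x y z hx hy hz h1 h2
    rw [hTlt x z hx hz]
    exact hLin.tra x (hΘE x hx) y (hΘE y hy) z (hΘE z hz) ((hTlt x y hx hy).1 h1)
      ((hTlt y z hy hz).1 h2)
  · intro x y z hx hy hz h1
    rw [hTlt x y hx hy, hTlt y z hy hz]
    exact hLin.neg x (hΘE x hx) y (hΘE y hy) z (hΘE z hz) ((hTlt x z hx hz).1 h1)
  · intro v hv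
    obtain ⟨h1, h2, h3⟩ := (hTht v).1 hv
    obtain ⟨z', hz1, hz2, hz3⟩ := hLin.gap {v} {u i₃ 0} (finite_singleton _) (finite_singleton _)
      (singleton_subset_iff.2 (hΘE v hv)) (singleton_subset_iff.2 hq)
      (by
        intro d hd w hw
        rw [mem_singleton_iff.1 hd, mem_singleton_iff.1 hw]
        exact h3) (u i₁ 0) hp
    have h4 : lt v z' := hz2 v (mem_singleton v)
    have h5 : lt z' (u i₃ 0) := hz3 _ (mem_singleton _)
    have h6 : lt (u i₁ 0) z' := hLin.tra _ hp v (hΘE v hv) z' (hinE z' hz1) h2 h4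
    have h7 : Tht T (Sum.elim h ![u i₁ 0, u i₃ 0]) z' := (hTht z').2 ⟨hz1, h6, h5⟩
    exact ⟨z', h7, (hTlt v z' hv h7).2 h4⟩
  · have key : ∀ i, ∃ q : ℚ, (Sum.elim h ![u i₁ 0, u i₃ 0] : Fin n ⊕ Fin 2 → U) i = u q 0 := by
      rintro (i | i)
      · have h1 : h i ∈ Tm u J := by
          rw [← hh]
          exact ⟨i, rfl⟩
        obtain ⟨q, -, k, hk⟩ := h1
        refine ⟨q, ?_⟩
        rw [Sum.elim_inl, hk, Subsingleton.elim k 0]
      · fin_cases i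
        · exact ⟨i₁, rfl⟩
        · exact ⟨i₃, rfl⟩
    intro i
    obtain ⟨q, hq'⟩ := key i
    rw [hq']
    refine ⟨htq 0 q, ?_⟩
    have h1 : Pc L F (u i₁ 0) = Pc L F z := pc_eq hC hFc (hz i₁)
    change u q 0 ∈ Pc L F (u i₁ 0)
    rw [h1]
    exact hz q
  · intro v hv
    obtain ⟨h1, h2, h3⟩ := (hTht v).1 hv
    have h4 : Sq L F (s1 (u i₁ 0)) (s1 v) := sq_mono subset_union_left h1
    exact ⟨tq_trans (htq 0 i₁) (tq_of_sq h4), pc_sq hC h4⟩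
  · intro v v' hv hv' h1
    obtain ⟨h2, -, -⟩ := (hTht v).1 hv
    obtain ⟨h3, -, -⟩ := (hTht v').1 hv'
    have h4 := (hTlt v v' hv hv').1 h1
    have h5 := lin_ort hLin (u := s1 (u i₁ 0)) (u' := s1 v) (w := s1 (u i₂ 0)) (w' := s1 v')
      (fun _ => hp) (fun _ => hx) h2 (sq_trans (sq_symm hspx) h3) (fun _ _ => hpx) fun _ _ => h4
    exact tq_of_sq (sq_mono subset_union_left h5) _ hχ hχ1
  · intro x' y' h1 h2
    refine hχ2 x' y' (tq_trans (htq i₁ 0) ?_) h2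
    rw [s1_eta]
    exact h1

end Pool.Agent.TPY
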