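import Pool.Agent.TPY.StR

/-!
# TPY [RCH]: coheir sequences over a countable elementary submodel
-/

set_option autoImplicit false
set_option linter.unusedVariables false

namespace Pool.Agent.TPY

open FirstOrder.Language Set
open scoped FirstOrder
open Pool.Agent.WOM (IsEl)
open Pool.Agent.MNO

private theorem rch_s1 {U : Type} (u : Fin 1 → U) : s1 (u 0) = u := by
  funext i
  rw [Subsingleton.elim i 0]
  rfl

theorem thm_RCH (hULT : St_ULT) : St_RCH := by
  intro L U _ hC N x hN hel
  -- the family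
  let ι : Type := {P : (Fin 1 → U) → Prop // Dp L N P ∧ P (s1 x)}
  have hne : ∀ P : (Fin 1 → U) → Prop, Dp L N P → P (s1 x) → ∃ m ∈ N, P (s1 m) := by
    intro P hP hx
    obtain ⟨m, hm, hmN⟩ := hel {u | P (s1 u)} (by
      have h1 : Dp L N (fun v : Fin 1 → U => P (s1 (v 0))) := dp_congr hP fun v => by rw [rch_s1]
      exact h1) ⟨x, hx⟩
    exact ⟨m, hmN, hm⟩
  obtain ⟨r, hr, h1, h2⟩ := hULT L U (Fin 1) ι (fun P => {v | v 0 ∈ N ∧ P.1 v})
    ⟨⟨fun _ => True, dp_true, trivial⟩⟩ (fun P => by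
      obtain ⟨m, hm, hm'⟩ := hne P.1 P.2.1 P.2.2
      exact ⟨s1 m, hm, hm'⟩) (fun P Q => ⟨⟨fun v => P.1 v ∧ Q.1 v, dp_and P.2.1 Q.2.1, P.2.2, Q.2.2⟩,
        fun v hv => ⟨⟨hv.1, hv.2.1⟩, ⟨hv.1, hv.2.2⟩⟩⟩)
  have hco : ∀ Q : (Fin 1 → U) → Prop, r Q → ∃ m ∈ N, Q (s1 m) := by
    intro Q hQ
    obtain ⟨v, hv, hQv⟩ := h2 ⟨fun _ => True, dp_true, trivial⟩ Q hQ
    exact ⟨v 0, hv.1, by rw [rch_s1]; exact hQv⟩
  obtain ⟨z, hz⟩ := morley hC hr hN
  have hset : ∀ i : ℕ, N ∪ {v | ∃ j < i, v = z j 0} = N ∪ ⋃ j ∈ {j | j < i}, range (z j) := by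
    intro i
    congr 1
    ext v
    simp only [mem_ofPred_eq, mem_iUnion, mem_range, exists_prop]
    constructor
    · rintro ⟨j, hj, rfl⟩
      exact ⟨j, hj, 0, rfl⟩
    · rintro ⟨j, hj, k, rfl⟩
      exact ⟨j, hj, by rw [Subsingleton.elim k 0]⟩
  have hreal : ∀ (i : ℕ) (P : (Fin 1 → U) → Prop), Dp L (N ∪ {v | ∃ j < i, v = z j 0}) P →
      (r P ↔ P (s1 (z i 0))) := by
    intro i P hP
    rw [rch_s1]
    exact real_dp hr (hz i) (by rw [← hset]; exact hP)
  refine ⟨fun i => z i 0, ?_, ?_, ?_⟩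
  · intro i P hP hx
    exact (hreal i P (dp_mono subset_union_left hP)).1
      (h1 ⟨P, hP, hx⟩ P (dp_mono (subset_univ _) hP) fun v hv => hv.2)
  · intro i P hP hPi
    exact hco P ((hreal i P hP).2 hPi)
  · intro n
    induction n with
    | zero =>
      intro i j _ _
      have e : (fun k => z (i k) 0) = fun k : Fin 0 => z (j k) 0 := funext fun k => k.elim0
      rw [e]
      exact tq_refl _
    | succ n ih =>
      intro i j hi hj P hP hPi
      have hi' : StrictMono (fun k : Fin n => i k.castSucc) := fun a b hab => hi (Fin.castSucc_lt_castSucc_iff.2 hab)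
      have hj' : StrictMono (fun k : Fin n => j k.castSucc) := fun a b hab => hj (Fin.castSucc_lt_castSucc_iff.2 hab)
      have hT := ih _ _ hi' hj'
      let f : Fin (n + 1) → Fin 1 ⊕ Fin n := Fin.lastCases (Sum.inl 0) (fun k => Sum.inr k)
      have hf1 : f (Fin.last n) = Sum.inl 0 := Fin.lastCases_last
      have hf2 : ∀ k : Fin n, f k.castSucc = Sum.inr k := fun k => Fin.lastCases_castSucc k
      have hQ : Dp L N (fun v : Fin 1 ⊕ Fin n → U => P (fun k => v (f k))) := dp_sub hP f
      have key : ∀ i : Fin (n + 1) → ℕ, StrictMono i →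
          ((r fun v => P (fun k => Sum.elim v (fun k : Fin n => z (i k.castSucc) 0) (f k))) ↔
            P (fun k => z (i k) 0)) := by
        intro i hi
        have h3 := hreal (i (Fin.last n))
          (fun v => P (fun k => Sum.elim v (fun k : Fin n => z (i k.castSucc) 0) (f k)))
          (dp_par (dp_mono subset_union_left hQ) (fun k : Fin n => z (i k.castSucc) 0)
            (fun k => Or.inr ⟨_, hi (Fin.castSucc_lt_last k), rfl⟩))
        rw [h3]
        have e : (fun k => Sum.elim (s1 (z (i (Fin.last n)) 0)) (fun k : Fin n => z (i k.castSucc) 0) (f k)) =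
            fun k => z (i k) 0 := by
          funext k
          refine Fin.lastCases ?_ (fun k => ?_) k
          · rw [hf1]
            rfl
          · rw [hf2]
            rfl
        rw [e]
      rw [← key j hj]
      rw [← key i hi] at hPi
      by_contra hcon
      have h4 := (hr.max (fun v => P (fun k => Sum.elim v (fun k : Fin n => z (j k.castSucc) 0) (f k)))
        (dp_par (dp_mono (subset_univ _) hQ) _ fun _ => mem_univ _)).resolve_left hcon
      obtain ⟨m, hm, hm1, hm2⟩ := hco _ (hr.and _ _ hPi h4)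
      apply hm2
      have h5 := dp_par (dp_sub hQ (Sum.swap : Fin 1 ⊕ Fin n → Fin n ⊕ Fin 1)) (s1 m) (fun _ => hm)
      have e2 : ∀ c : Fin n → U, (fun k => Sum.elim (s1 m) c (f k)) =
          fun k => Sum.elim c (s1 m) (Sum.swap (f k)) := by
        intro c
        funext k
        rcases f k with a | a <;> rfl
      rw [e2]
      rw [e2] at hm1
      exact hT _ h5 hm1

end Pool.Agent.TPY
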