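import Pool.Agent.TPY.StR
import Pool.Agent.TPY.Brg2

/-!
# TPY: module RCL (facing is open)
-/

set_option autoImplicit false
set_option linter.unusedVariables false

namespace Pool.Agent.TPY

open FirstOrder.Language Set
open scoped FirstOrder
open Pool.Agent.MNO

theorem thm_RCL (hREG : St_REG) (hRDG : St_RDG) (hLIM : St_LIM) : St_RCL := by
  classical
  intro L U _ hC A₀ big A z x hG v hv w hw
  obtain ⟨R1, -, -, -, R5, -⟩ := hREG L U hC A₀ big hG.bg A z hG.sub hG.fin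
  have hAc : A.Countable := hG.fin.countable
  have hBf : (insert v A).Finite := hG.fin.insert v
  by_contra hcon
  push Not at hcon
  -- points outside of the piece
  have h1 : ∀ θ : (Fin 1 → U) → Prop, Dp L (insert v A) θ → θ (s1 w) →
      ∃ y, y ∉ Eg L big A z v ∧ θ (s1 y) := by
    intro θ hθ hθw
    obtain ⟨Q, hQ, hθQ⟩ := dp_fam1 hθ
    have hψ : Dp L A (fun t : Fin 2 → U => Q (Sum.elim (fun _ => t 1) (fun _ => t 0))) := by
      refine dp_congr (dp_sub hQ (Sum.elim (fun _ => 1) (fun _ => 0) : Fin 1 ⊕ Unit → Fin 2)) fun t => iff_of_eq ?_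
      congr 1
      funext k
      rcases k with k | k <;> rfl
    obtain ⟨v', hv', w', hw', hw''⟩ := hcon _ hψ ((hθQ (s1 w)).1 hθw)
    obtain ⟨c, hc⟩ := tq_ext hC hAc (tq_trans (tq_symm hv'.2) hv.2) (s1 w')
    have h2 : Tq L A ![v', w'] ![v, c 0] := by
      refine tq_congr (tq_sub hc (![Sum.inl 0, Sum.inr 0] : Fin 2 → Fin 1 ⊕ Fin 1)) ?_ ?_ <;>
      · funext k
        fin_cases k <;> rfl
    refine ⟨c 0, fun h => hw'' (R5 v (c 0) v' w' hv.1 hv'.1 (tq_symm h2) h), ?_⟩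
    exact (hθQ (s1 (c 0))).2 ((tq_iff h2 hψ).1 hw')
  -- the ultrafilter
  let Φ : Set (Set {y : U // y ∉ Eg L big A z v}) :=
    {T | ∃ θ : (Fin 1 → U) → Prop, Dp L (insert v A) θ ∧ θ (s1 w) ∧ T = {y | θ (s1 y.1)}}
  have hne : (Filter.generate Φ).NeBot := by
    rw [Filter.generate_neBot_iff]
    intro t ht htf
    have h2 : ∀ T : Set {y : U // y ∉ Eg L big A z v}, ∃ θ : (Fin 1 → U) → Prop, Dp L (insert v A) θ ∧ θ (s1 w) ∧
        (T ∈ t → T = {y | θ (s1 y.1)}) := by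
      intro T
      by_cases hT : T ∈ t
      · obtain ⟨θ, h3, h4, h5⟩ := ht hT
        exact ⟨θ, h3, h4, fun _ => h5⟩
      · exact ⟨fun _ => True, dp_true, trivial, fun h => absurd h hT⟩
    choose f hf1 hf2 hf3 using h2
    obtain ⟨y, hy, hy'⟩ := h1 (fun u => ∀ T ∈ t, f T u) (dp_ball htf fun T _ => hf1 T) (fun T _ => hf2 T)
    refine ⟨⟨y, hy⟩, fun T hT => ?_⟩
    rw [hf3 T hT]
    exact hy' T hT
  let 𝒰 : Ultrafilter {y : U // y ∉ Eg L big A z v} := Ultrafilter.of (Filter.generate Φ)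
  have h𝒰 : ∀ θ : (Fin 1 → U) → Prop, Dp L (insert v A) θ → θ (s1 w) →
      {y : {y : U // y ∉ Eg L big A z v} | θ (s1 y.1)} ∈ 𝒰 := fun θ h h' =>
    Ultrafilter.of_le _ (Filter.mem_generate_of_mem ⟨θ, h, h', rfl⟩)
  obtain ⟨w₀, hw₀⟩ := lim_ex hC 𝒰 (fun y => y.1) hBf.countable
  have h3 : Tq L (insert v A) (s1 w) (s1 w₀) := by
    intro θ hθ hθw
    obtain ⟨y, hy⟩ := Ultrafilter.nonempty_of_mem (Filter.inter_mem (h𝒰 θ hθ hθw) (hw₀ _ (fe_of_dp hθ)))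
    exact hy.2.1 hy.1
  have h4 : Tq L A ![v, w] ![v, w₀] := by
    have h5 := tq_add h3 (s1 v) (fun _ => mem_insert v A)
    refine tq_mono (subset_insert v A) (tq_congr (tq_sub h5 (![Sum.inr 0, Sum.inl 0] : Fin 2 → Fin 1 ⊕ Fin 1))
      ?_ ?_) <;>
    · funext k
      fin_cases k <;> rfl
  have h5 : w₀ ∈ Eg L big A z v := R5 v w v w₀ hv.1 hv.1 h4 hw
  obtain ⟨h6, h7, -⟩ := R1 v w₀ h5
  obtain ⟨E, hE, hE'⟩ := hLIM L U hC (insert v A) w₀ hBf (fun h =>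
    hG.bg.b1 _ _ (hG.sub.trans (subset_insert v A)) hBf h h7)
  obtain ⟨y, hy⟩ := Ultrafilter.nonempty_of_mem (hw₀ E hE)
  have h8 : y.1 ∈ Pc L (insert v A) w₀ := hE' y.1 hy
  have h9 : Pc L (insert v A) w₀ ⊆ Eg L big A z v := h6.ge
  exact y.2 (h9 h8)

end Pool.Agent.TPY
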