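import Pool.Agent.TPY.StR

/-!
# TPY, module RDE: definable properties which are invariant under strong types
-/

set_option autoImplicit false
set_option linter.unusedVariables false

namespace Pool.Agent.TPY

open FirstOrder.Language Set
open scoped FirstOrder
open Pool.Agent.WOM (IsEl)
open Pool.Agent.MNO

section

variable {L : FirstOrder.Language.{0, 0}} {U : Type} [L.Structure U] {α : Type}

/-- nonempty definable properties of tuples are satisfied in elementary submodels -/
private theorem RDE_el {M : Set U} (hM : IsEl L M) :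
    ∀ (n : ℕ) {P : (Fin n → U) → Prop}, Dp L M P → (∃ x, P x) → ∃ y, (∀ i, y i ∈ M) ∧ P y
  | 0, P, _, ⟨x, hx⟩ => ⟨x, fun i => i.elim0, hx⟩
  | n + 1, P, hP, ⟨x, hx⟩ => by
    have h1 : Dp L M (fun v : Fin n ⊕ Unit → U =>
        P (fun i => v (Fin.cases (motive := fun _ => Fin n ⊕ Unit) (Sum.inr ())
          (fun j => Sum.inl j) i))) :=
      dp_sub hP (fun i => Fin.cases (motive := fun _ => Fin n ⊕ Unit) (Sum.inr ())
        (fun j => Sum.inl j) i)
    have h2 := dp_ex (dp_sub h1 (Sum.swap : Fin n ⊕ Unit → Unit ⊕ Fin n))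
    obtain ⟨y, hy, hyM⟩ := hM _ (def1_of_dp h2) (by
      refine ⟨x 0, fun j => x j.succ, ?_⟩
      have e : (fun i : Fin (n + 1) => (Sum.elim (fun _ : Unit => x 0) (fun j : Fin n => x j.succ))
          (Sum.swap (Fin.cases (motive := fun _ => Fin n ⊕ Unit) (Sum.inr ())
            (fun j => Sum.inl j) i))) = x := by
        funext i
        refine Fin.cases rfl (fun j => rfl) i
      show P _
      rw [e]
      exact hx)
    obtain ⟨w, hw⟩ := hy
    have h3 := dp_par h1 (fun _ : Unit => y) (fun _ => hyM)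
    obtain ⟨z, hz, hzP⟩ := RDE_el hM n h3 ⟨w, by
      have e : (fun i : Fin (n + 1) => (Sum.elim w (fun _ : Unit => y))
          (Fin.cases (motive := fun _ => Fin n ⊕ Unit) (Sum.inr ()) (fun j => Sum.inl j) i)) =
          (fun i : Fin (n + 1) => (Sum.elim (fun _ : Unit => y) w)
            (Sum.swap (Fin.cases (motive := fun _ => Fin n ⊕ Unit) (Sum.inr ())
              (fun j => Sum.inl j) i))) := by
        funext i
        refine Fin.cases rfl (fun j => rfl) i
      rw [e]
      exact hw⟩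
    refine ⟨_, fun i => ?_, hzP⟩
    refine Fin.cases hyM (fun j => hz j) i

private theorem RDE_el' {M : Set U} (hM : IsEl L M) [Finite α] {P : (α → U) → Prop}
    (hP : Dp L M P) (h : ∃ x, P x) : ∃ y, (∀ i, y i ∈ M) ∧ P y := by
  obtain ⟨n, ⟨e⟩⟩ := Finite.exists_equiv_fin α
  obtain ⟨x, hx⟩ := h
  obtain ⟨y, hy, hyP⟩ := RDE_el hM n (dp_sub hP e) ⟨fun i => x (e.symm i), by
    have e1 : (fun i => x (e.symm (e i))) = x := by
      funext i
      rw [e.symm_apply_apply]
    rw [e1]
    exact hx⟩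
  exact ⟨_, fun i => hy _, hyP⟩

/-- an elementary submodel contains representatives of all classes -/
private theorem RDE_rep [Finite α] {A N : Set U} {E : (α → U) → (α → U) → Prop} (hE : FE L A E)
    (hN : IsEl L N) (hAN : A ⊆ N) : ∃ (κ : Type) (_ : Finite κ) (a : κ → α → U),
      (∀ q i, a q i ∈ N) ∧ ∀ x, ∃ q, E x (a q) := by
  classical
  let S : Setoid (α → U) := ⟨E, hE.eqv⟩
  have hfin : Finite (Quotient S) := by
    obtain ⟨s, hs, hs'⟩ := hE.fin
    have : Finite s := hs
    refine Finite.of_surjective (fun x : s => (Quotient.mk S x.1)) fun q => ?_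
    obtain ⟨x, rfl⟩ := Quotient.exists_rep q
    obtain ⟨y, hy, hxy⟩ := hs' x
    exact ⟨⟨y, hy⟩, Quotient.sound (s := S) (hE.eqv.symm hxy)⟩
  have h1 : Dp L N (fun v : Quotient S × α → U => ∀ q q' : Quotient S, q ≠ q' →
      ¬ E (fun i => v (q, i)) (fun i => v (q', i))) := by
    refine dp_mono hAN (dp_all_fin fun q => dp_all_fin fun q' => dp_imp (dp_const _) (dp_not ?_))
    have h2 := dp_sub hE.dfn (Sum.elim (fun i => (q, i)) (fun i => (q', i)) :
      α ⊕ α → Quotient S × α)
    exact h2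
  obtain ⟨y, hyN, hy⟩ := RDE_el' hN h1 ⟨fun v => v.1.out v.2, fun q q' hq h' => hq (by
    rw [← Quotient.out_eq q, ← Quotient.out_eq q']
    exact Quotient.sound (s := S) h')⟩
  refine ⟨Quotient S, hfin, fun q i => y (q, i), fun q i => hyN _, fun x => ?_⟩
  have h3 : Function.Injective (fun q : Quotient S => Quotient.mk S (fun i => y (q, i))) := by
    intro q q' hq
    by_contra hne
    exact hy q q' hne (Quotient.exact (s := S) hq)
  obtain ⟨q, hq⟩ := Finite.surjective_of_injective h3 (Quotient.mk S x)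
  exact ⟨q, hE.eqv.symm (Quotient.exact (s := S) hq)⟩

end

/-- [RDE] definable properties which are invariant under `Sq A` are unions of classes of a member of `FE A` -/
theorem thm_RDE : St_RDE := by
  intro L U _ hC α _ A P hA hP hinv
  obtain ⟨B, hB, -, hPB⟩ := dp_fin hP
  have h1 : ∃ E, FE L A E ∧ ∀ x y, E x y → P x → P y := by
    by_contra hcon
    push Not at hcon
    obtain ⟨v, hv⟩ := sat_dp hC (α := α ⊕ α) (hA.union hB).countable
      (F := {Q | ∃ E, FE L A E ∧ Q = fun v => E (fun i => v (Sum.inl i)) (fun i => v (Sum.inr i))} ∪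
        {fun v => P (fun i => v (Sum.inl i)) ∧ ¬ P (fun i => v (Sum.inr i))}) (by
      rintro Q (⟨E, hE, rfl⟩ | hQ)
      · exact dp_mono subset_union_left hE.dfn
      · rw [mem_singleton_iff] at hQ
        subst hQ
        exact dp_and (dp_mono subset_union_right (dp_sub hPB Sum.inl))
          (dp_not (dp_mono subset_union_right (dp_sub hPB Sum.inr)))) (by
      intro G hG hfin
      classical
      have h2 : ∀ Q : (α ⊕ α → U) → Prop, ∃ E : (α → U) → (α → U) → Prop, FE L A E ∧
          ((∃ E, FE L A E ∧ Q = fun v => E (fun i => v (Sum.inl i)) (fun i => v (Sum.inr i))) →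
            Q = fun v => E (fun i => v (Sum.inl i)) (fun i => v (Sum.inr i))) := by
        intro Q
        by_cases hQ : ∃ E, FE L A E ∧ Q = fun v => E (fun i => v (Sum.inl i)) (fun i => v (Sum.inr i))
        · obtain ⟨E, hE, hE'⟩ := hQ
          exact ⟨E, hE, fun _ => hE'⟩
        · exact ⟨_, fe_top A, fun h' => absurd h' hQ⟩
      choose e he he' using h2
      obtain ⟨E, hE, hE'⟩ := fe_inf (A := A) (G := e '' G) (hfin.image e) (by
        rintro _ ⟨t, _, rfl⟩
        exact he t)
      obtain ⟨x, y, hxy, hx, hy⟩ := hcon E hE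
      refine ⟨Sum.elim x y, fun Q hQ => ?_⟩
      rcases hG hQ with h3 | h3
      · rw [he' Q h3]
        exact hE' _ ⟨Q, hQ, rfl⟩ x y hxy
      · rw [mem_singleton_iff] at h3
        subst h3
        exact ⟨hx, hy⟩)
    have h3 := hv _ (Or.inr rfl)
    refine h3.2 (hinv _ _ (fun E hE => ?_) h3.1)
    exact hv _ (Or.inl ⟨E, hE, rfl⟩)
  refine ⟨h1, fun N hN hAN => ?_⟩
  obtain ⟨E, hE, hEP⟩ := h1
  obtain ⟨κ, _, a, haN, ha⟩ := RDE_rep hE hN hAN
  have h4 : Dp L N (fun x : α → U => ∃ q, E x (a q) ∧ P (a q)) := by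
    refine dp_ex_fin fun q => dp_and (dp_mono ?_ (fe_cls hE (a q))) (dp_const _)
    refine union_subset hAN ?_
    rintro _ ⟨i, rfl⟩
    exact haN q i
  refine dp_congr h4 fun x => ⟨fun hx => ?_, ?_⟩
  · obtain ⟨q, hq⟩ := ha x
    exact ⟨q, hq, hEP _ _ hq hx⟩
  · rintro ⟨q, hq, hPq⟩
    exact hEP _ _ (hE.eqv.symm hq) hPq

end Pool.Agent.TPY
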