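import Pool.Agent.TPY.StR
import Pool.Agent.TPY.MB0

/-!
# TPY module RDG (helper90): the points of `Dz` are good, `Rf` is an equivalence relation on `Dz`
-/

set_option autoImplicit false
set_option linter.unusedVariables false

namespace Pool.Agent.TPY

open FirstOrder.Language Set
open scoped FirstOrder
open Pool.Agent.MNO

private theorem rdg_swap {L : FirstOrder.Language.{0, 0}} {U : Type} [L.Structure U] {A : Set U} {v w v' w' : U}
    (h : Tq L A ![v, w] ![v', w']) : Tq L A ![w, v] ![w', v'] := by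
  refine tq_congr (tq_sub h (![1, 0] : Fin 2 → Fin 2)) ?_ ?_ <;>
  · funext k
    fin_cases k <;> rfl

theorem thm_RDG (hREG : St_REG) : St_RDG := by
  intro L U _ hC A₀ big A z x hG
  obtain ⟨r1, r2, r3, r4, r5, r6⟩ := hREG L U hC A₀ big hG.bg A z hG.sub hG.fin
  have hAc : A.Countable := hG.fin.countable
  -- the points of `Dz` are good
  have e1 : ∀ v ∈ Dz L A z x, (Eg L big A z v).Nonempty := by
    intro v hv
    obtain ⟨y, hy, hb⟩ := hG.b3 A z (Fin 1) (s1 x) hG.sub hG.fin hG.bz (fun _ => hG.mem) hG.iso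
    rw [ins_eq] at hb
    have hyE : y ∈ Eg L big A z x := ⟨y, hy, hb, mem_pc y⟩
    obtain ⟨c, hc⟩ := tq_ext hC hAc hv.2 (s1 y)
    have h2 : Tq L A ![x, y] ![v, c 0] := by
      refine tq_congr (tq_sub hc (![Sum.inl 0, Sum.inr 0] : Fin 2 → Fin 1 ⊕ Fin 1)) ?_ ?_ <;>
      · funext k
        fin_cases k <;> rfl
    exact ⟨c 0, r5 x y v (c 0) hG.mem hv.1 h2 hyE⟩
  refine ⟨e1, ?_, ?_, ?_, ?_⟩
  · intro v hv w hw
    constructor
    · rintro ⟨h1, h2⟩
      exact r4 v w (e1 v hv) (e1 w hw) h1 h2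
    · intro h
      refine ⟨?_, ?_⟩
      · rw [h]
        exact r2 w
      · rw [← h]
        exact r2 v
  · rintro v w v' w' hv hw hv' hw' h ⟨h1, h2⟩
    refine ⟨fun h3 => h1 (r5 v' w' v w hv' hv (tq_symm h) h3), fun h3 => h2 (r5 w' v' w v hw' hw ?_ h3)⟩
    exact tq_symm (rdg_swap h)
  · intro v v' h hv
    refine ⟨?_, tq_trans hv.2 (tq_of_sq h)⟩
    rw [← pc_eq hC hAc hv.1]
    exact pc_sq hC h
  · intro v w v' w' hv hw hv' h
    refine ⟨⟨hv', tq_trans hv.2 ?_⟩, ⟨?_, tq_trans hw.2 ?_⟩⟩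
    · exact tq_sub h (fun _ : Fin 1 => (0 : Fin 2))
    · have h1 : w ∈ Pc L A v := by
        rw [pc_eq hC hAc hv.1]
        exact hw.1
      have h2 := pc_tq0 hC hAc h h1
      rw [pc_eq hC hAc hv'] at h2
      exact h2
    · exact tq_sub h (fun _ : Fin 1 => (1 : Fin 2))

end Pool.Agent.TPY
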