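import Pool.Agent.TPY.StR
import Pool.Agent.TPY.ULT
import Pool.Agent.TPY.Tqp

/-!
# TPY: full T6, module RDZ: the points of a piece with a given isolated type form a definable set
-/

set_option autoImplicit false
set_option linter.unusedVariables false

namespace Pool.Agent.TPY

open FirstOrder.Language Set
open scoped FirstOrder
open Pool.Agent.MNO

section

variable {L : FirstOrder.Language.{0, 0}} {U : Type} [L.Structure U]

private theorem rdz_eta (x : Fin 1 → U) : s1 (x 0) = x := by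
  funext k
  exact congrArg x (Subsingleton.elim 0 k)

/-- a limit point: same type over `B`, and the strong type over `A` is a limit of points of `W` -/
private theorem rdz_lim (hC : Cz L U) {A B : Set U} (hAB : A ⊆ B) (hB : B.Countable) {W : Set U}
    {v : U} (h : ∀ θ : (Fin 1 → U) → Prop, Dp L B θ → θ (s1 v) → ∃ v' ∈ W, θ (s1 v')) :
    ∃ v₀ : U, Tq L B (s1 v) (s1 v₀) ∧
      ∀ E : (Fin 1 → U) → (Fin 1 → U) → Prop, FE L A E → ∃ y ∈ W, E (s1 y) (s1 v₀) := by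
  obtain ⟨r, hr, h2, h3⟩ := thm_ULT L U (Fin 1) {θ : (Fin 1 → U) → Prop // Dp L B θ ∧ θ (s1 v)}
    (fun θ => {x | x 0 ∈ W ∧ θ.1 x}) ⟨⟨fun _ => True, dp_true, trivial⟩⟩ (by
      rintro ⟨θ, hθ, hθv⟩
      obtain ⟨v', hv', hθ'⟩ := h θ hθ hθv
      exact ⟨s1 v', hv', hθ'⟩) (by
      rintro ⟨θ, hθ, hθv⟩ ⟨θ', hθ', hθv'⟩
      exact ⟨⟨fun x => θ x ∧ θ' x, dp_and hθ hθ', hθv, hθv'⟩,
        fun x hx => ⟨⟨hx.1, hx.2.1⟩, ⟨hx.1, hx.2.2⟩⟩⟩)
  obtain ⟨u, hu⟩ := gt_real hC hr hB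
  refine ⟨u 0, ?_, ?_⟩
  · intro P hP hPv
    rw [rdz_eta]
    exact (real_dp hr hu hP).1 (h2 ⟨P, hP, hPv⟩ P (dp_mono (subset_univ _) hP) fun x hx => hx.2)
  · intro E hE
    have h4 := hu E (fe_mono hAB hE)
    obtain ⟨x, hx, hxE⟩ := h3 ⟨fun _ => True, dp_true, trivial⟩ _ h4
    refine ⟨x 0, hx.1, ?_⟩
    rw [rdz_eta, rdz_eta]
    exact hxE

private theorem rdz_pair {A : Set U} {x v v' : U} (h : Tq L (insert x A) (s1 v) (s1 v')) :
    Tq L A ![x, v] ![x, v'] := by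
  have h1 := tq_add (tq_mono (L := L) (le_refl (insert x A)) h) (fun _ : Unit => x)
    (fun _ => mem_insert x A)
  have h2 := tq_mono (subset_insert x A) (tq_sub h1 (![Sum.inr (), Sum.inl 0] : Fin 2 → Fin 1 ⊕ Unit))
  refine tq_congr h2 ?_ ?_
  · funext k
    fin_cases k <;> rfl
  · funext k
    fin_cases k <;> rfl

end

theorem thm_RDZ (hREG : St_REG) (hLIM : St_LIM) : St_RDZ := by
  classical
  intro L U _ hC A₀ big A z x hG
  have hAc : A.Countable := hG.fin.countable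
  have hBf : (insert x A).Finite := hG.fin.insert x
  have hPx : Pc L A x = Pc L A z := pc_eq hC hAc hG.mem
  obtain ⟨χ, hχ, hχx, hχt⟩ := hG.iso
  -- openness around a point of a big piece
  have hopen : ∀ v₀ : U, big A v₀ →
      ∃ E : (Fin 1 → U) → (Fin 1 → U) → Prop, FE L A E ∧ ∀ y : U, E (s1 y) (s1 v₀) → y ∈ Pc L A v₀ := by
    intro v₀ hv₀
    exact hLIM L U hC A v₀ hG.fin fun h => hG.bg.b1 A v₀ hG.sub hG.fin h hv₀
  have hbx : big A x := hG.bg.pc A z x hG.sub hG.fin hG.mem hG.bz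
  have hbig : ∀ v₀ : U, Tq L A (s1 x) (s1 v₀) → big A v₀ := by
    intro v₀ hv₀
    have hAf : Finite A := hG.fin
    have h1 := hG.bg.inv A (fun a : A => (a : U)) (fun a : A => (a : U)) x v₀ (by
      have h2 := tq_add hv₀ (fun a : A => (a : U)) (fun a => a.2)
      have h3 := tq_sub h2 (Sum.swap : A ⊕ Fin 1 → Fin 1 ⊕ A)
      refine tq_congr (tq_mono hG.sub h3) ?_ ?_
      · funext k
        rcases k with k | k <;> rfl
      · funext k
        rcases k with k | k <;> rfl)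
    have e : A₀ ∪ range (fun a : A => (a : U)) = A := by
      rw [Subtype.range_coe]
      exact union_eq_self_of_subset_left hG.sub
    rw [e] at h1
    exact h1 hbx
  -- the claim
  let T1 : Set ((Fin 1 → U) → Prop) := {θ | Dp L (insert x A) θ ∧
    ∀ v', χ (s1 v') → θ (s1 v') → v' ∈ Pc L A z}
  let T2 : Set ((Fin 1 → U) → Prop) := {θ | Dp L (insert x A) θ ∧
    ∀ v', χ (s1 v') → θ (s1 v') → v' ∉ Pc L A z}
  have hclaim : ∀ v, χ (s1 v) → ∃ θ ∈ T1 ∪ T2, θ (s1 v) := by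
    intro v hv
    by_contra hcon
    push Not at hcon
    by_cases hvP : v ∈ Pc L A z
    · obtain ⟨v₀, h1, h2⟩ := rdz_lim hC (A := A) (subset_insert x A) hBf.countable
        (W := {y | χ (s1 y) ∧ y ∉ Pc L A z}) (v := v) (by
          intro θ hθ hθv
          by_contra hn
          push Not at hn
          refine hcon θ (Or.inl ⟨hθ, fun v' hv' hθ' => ?_⟩) hθv
          by_contra hnP
          exact hn v' ⟨hv', hnP⟩ hθ')
      have h3 : v₀ ∈ Pc L A x := pc_tq0 hC hAc (rdz_pair h1) (by rw [hPx]; exact hvP)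
      rw [hPx] at h3
      have h4 : big A v₀ := hG.bg.pc A z v₀ hG.sub hG.fin h3 hG.bz
      obtain ⟨E, hE, hE'⟩ := hopen v₀ h4
      obtain ⟨y, hy, hyE⟩ := h2 E hE
      have h5 := hE' y hyE
      rw [pc_eq hC hAc h3] at h5
      exact hy.2 h5
    · obtain ⟨v₀, h1, h2⟩ := rdz_lim hC (A := A) (subset_insert x A) hBf.countable
        (W := {y | χ (s1 y) ∧ y ∈ Pc L A z}) (v := v) (by
          intro θ hθ hθv
          by_contra hn
          push Not at hn
          refine hcon θ (Or.inr ⟨hθ, fun v' hv' hθ' => ?_⟩) hθv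
          intro hnP
          exact hn v' ⟨hv', hnP⟩ hθ')
      have h3 : v₀ ∉ Pc L A z := by
        intro h3
        rw [← hPx] at h3
        apply hvP
        rw [← hPx]
        exact pc_tq0 hC hAc (tq_symm (rdz_pair h1)) h3
      have h4 : big A v₀ := hbig v₀ (tq_trans (hχt _ hv) (tq_mono (subset_insert x A) h1))
      obtain ⟨E, hE, hE'⟩ := hopen v₀ h4
      obtain ⟨y, hy, hyE⟩ := h2 E hE
      have h5 := hE' y hyE
      apply h3
      rw [← pc_disj hC hAc h5 hy.2]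
      exact mem_pc v₀
  -- compactness
  have hcomp : ∃ G ⊆ (insert χ ((fun θ x => ¬ θ x) '' (T1 ∪ T2)) : Set ((Fin 1 → U) → Prop)),
      G.Finite ∧ ∀ v, ∃ P ∈ G, ¬ P v := by
    by_contra hcon
    push Not at hcon
    obtain ⟨v, hv⟩ := sat_dp hC hBf.countable
      (F := (insert χ ((fun θ x => ¬ θ x) '' (T1 ∪ T2)) : Set ((Fin 1 → U) → Prop))) (by
        rintro P (rfl | ⟨θ, hθ, rfl⟩)
        · exact dp_mono (subset_insert x A) hχ
        · rcases hθ with hθ | hθ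
          · exact dp_not hθ.1
          · exact dp_not hθ.1) hcon
    have hχv : χ v := hv χ (mem_insert _ _)
    obtain ⟨θ, hθ, hθv⟩ := hclaim (v 0) (by rw [rdz_eta]; exact hχv)
    rw [rdz_eta] at hθv
    exact hv _ (mem_insert_of_mem _ ⟨θ, hθ, rfl⟩) hθv
  obtain ⟨G, hGsub, hGfin, hGcov⟩ := hcomp
  -- the finitely many sets inside the piece
  let S : Set ((Fin 1 → U) → Prop) := {P | P ∈ G ∧ (∃ θ ∈ T1, P = fun x => ¬ θ x)}
  have hSfin : S.Finite := hGfin.subset fun P hP => hP.1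
  have hΔB : Dp L (insert x A) (fun v : Fin 1 → U => χ v ∧ ∃ P ∈ S, ¬ P v) := by
    refine dp_and (dp_mono (subset_insert x A) hχ) (dp_bex hSfin ?_)
    rintro P ⟨-, θ, hθ, rfl⟩
    exact dp_not (dp_not hθ.1)
  have hDz : ∀ v, v ∈ Dz L A z x ↔ (χ (s1 v) ∧ ∃ P ∈ S, ¬ P (s1 v)) := by
    intro v
    constructor
    · rintro ⟨hvP, hvt⟩
      have hχv : χ (s1 v) := hvt χ hχ hχx
      refine ⟨hχv, ?_⟩
      obtain ⟨P, hP, hPv⟩ := hGcov (s1 v)
      rcases hGsub hP with rfl | ⟨θ, hθ, rfl⟩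
      · exact absurd hχv hPv
      · rcases hθ with hθ | hθ
        · exact ⟨_, ⟨hP, θ, hθ, rfl⟩, hPv⟩
        · exact absurd hvP (hθ.2 v hχv (not_not.1 hPv))
    · rintro ⟨hχv, P, ⟨-, θ, hθ, rfl⟩, hPv⟩
      exact ⟨hθ.2 v hχv (not_not.1 hPv), hχt _ hχv⟩
  obtain ⟨Q, hQ, hQΔ⟩ := dp_fam1 hΔB
  let σ : Fin 1 ⊕ Unit → Fin 2 := Sum.elim (fun _ => 0) (fun _ => 1)
  have hσ : ∀ v w : U, (fun i => (![v, w] : Fin 2 → U) (σ i)) = Sum.elim (s1 v) (fun _ => w) := by
    intro v w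
    funext i
    rcases i with i | i <;> rfl
  refine ⟨fun p => Q (fun i => p (σ i)), dp_sub hQ σ, ?_⟩
  have hx' : ∀ v, v ∈ Dz L A z x ↔ Q (Sum.elim (s1 v) (fun _ => x)) := fun v => by
    rw [hDz v, ← hQΔ (s1 v)]
  intro w hw v
  obtain ⟨c', hc'⟩ := tq_ext hC hAc (tq_symm hw.2) (s1 v)
  have e : c' = s1 (c' 0) := (rdz_eta c').symm
  rw [e] at hc'
  have h1 : Tq L A ![w, v] ![x, c' 0] := by
    have h2 := tq_sub hc' (![Sum.inl 0, Sum.inr 0] : Fin 2 → Fin 1 ⊕ Fin 1)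
    refine tq_congr h2 ?_ ?_
    · funext k
      fin_cases k <;> rfl
    · funext k
      fin_cases k <;> rfl
  have hPw : Pc L A w = Pc L A z := pc_eq hC hAc hw.1
  have hvv : Tq L A (s1 v) (s1 (c' 0)) := by
    have h2 := tq_sub h1 (fun _ : Fin 1 => (1 : Fin 2))
    exact h2
  have h3 : v ∈ Dz L A z x ↔ c' 0 ∈ Dz L A z x := by
    constructor
    · rintro ⟨h4, h5⟩
      refine ⟨?_, tq_trans h5 hvv⟩
      rw [← hPx]
      rw [← hPw] at h4
      exact pc_tq0 hC hAc h1 h4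
    · rintro ⟨h4, h5⟩
      refine ⟨?_, tq_trans h5 (tq_symm hvv)⟩
      rw [← hPw]
      rw [← hPx] at h4
      exact pc_tq0 hC hAc (tq_symm h1) h4
  rw [h3, hx' (c' 0)]
  show _ ↔ Q (fun i => (![v, w] : Fin 2 → U) (σ i))
  rw [hσ]
  have h6 : Tq L A ![v, w] ![c' 0, x] := by
    have h2 := tq_sub h1 (![1, 0] : Fin 2 → Fin 2)
    refine tq_congr h2 ?_ ?_
    · funext k
      fin_cases k <;> rfl
    · funext k
      fin_cases k <;> rfl
  have h7 := tq_iff h6 (dp_sub hQ σ)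
  rw [hσ, hσ] at h7
  exact h7.symm

end Pool.Agent.TPY
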