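import Pool.Agent.TPY.StI

/-!
# TPY/StL (helper34): limits of elements; pieces without an end are OPEN
-/

set_option autoImplicit false
set_option linter.unusedVariables false

namespace Pool.Agent.TPY

open FirstOrder.Language Set
open scoped FirstOrder
open Pool.Agent.MNO (Dp FE Sq Exa)

/-- [ULT] limits.  A family of sets of tuples which is closed under finite intersections and has no empty member has a limit type
`r` (the definable members of an ultrafilter): `r P` as soon as `P` holds on a member of the family, and if `r P` then `P` holds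
somewhere on every member.
PROOF.  `𝒰` an ultrafilter on `α → U` which contains the family; `r P :↔ Dp L univ P ∧ {x | P x} ∈ 𝒰`. -/
def St_ULT : Prop :=
  ∀ (L : FirstOrder.Language.{0, 0}) (U : Type) [L.Structure U] (α : Type) (ι : Type) (S : ι → Set (α → U)),
    Nonempty ι → (∀ i, (S i).Nonempty) → (∀ i j, ∃ k, S k ⊆ S i ∩ S j) →
    ∃ r : ((α → U) → Prop) → Prop, GT L r ∧
      (∀ (i : ι) (P : (α → U) → Prop), Dp L (univ : Set U) P → (∀ x ∈ S i, P x) → r P) ∧
      ∀ (i : ι) (P : (α → U) → Prop), r P → ∃ x ∈ S i, P x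

/-- [LIM] (helper58 (e)) a piece (not of an algebraic element) which is not ended is OPEN: it contains a class of a finite equivalence
relation over `A` around each of its elements.
PROOF.  Suppose that for every `E ∈ FE A` some `y ∉ P := Pc A b` has `E y b`.  `S_E := {y | y ∉ P ∧ E y b}`, closed under
intersections (`fe_and`); ULT: `r`.  `Ets A b r` (ULT (2), `fe_cls`).  `Nal r`: if `r (x = u)` then `u ∈ S_E` for all `E` (ULT (3)),
so `Sq A b u`, `u ∈ P` (`pc_sq`), but `u ∉ P`.  `Inv A r`: let `Q` be definable over `A`, `c =* c'` over `A`,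
`r (Q(x, c))`.  Split the coordinates of `c`: `c₁` in `P`, `c₂` outside of `P`; `c'` has the same splitting (`bf_inv`).
(1) For EVERY `y ∉ P`: `(c₁, (y, c₂)) =* (c'₁, (y, c₂))` over `A` (`bf_prd` for `P`, `(y, c₂)` outside), so `Q(y, c₁, c₂) ↔
Q(y, c'₁, c₂)`; so `r (Q(x, c'₁, c₂))` (otherwise `r` contains the negation; `r.and`; ULT (3) gives `y ∉ P` with both).
(2) Realise `r` over the finite set `A c c'` (`gt_real`): `x`, `Sq A b x` (`Ets`), so `x ∈ P`, and `r (Q'(x)) ↔ Q'(x)` for `Q'` over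
`A c c'`.  `((x, c'₁), c₂) =* ((x, c'₁), c'₂)` over `A` (`bf_prd` for the complement of `P`): `Q(x, c'₁, c₂) → Q(x, c'₁, c'₂)`.
So `r (Q(x, c'))`.  So `Gd A r`, `Ets A b r`: `Edd A b`. -/
def St_LIM : Prop :=
  ∀ (L : FirstOrder.Language.{0, 0}) (U : Type) [L.Structure U], Cz L U →
    ∀ (A : Set U) (b : U), A.Finite → ¬ Edd L A b →
    ∃ E : (Fin 1 → U) → (Fin 1 → U) → Prop, FE L A E ∧ ∀ y : U, E (s1 y) (s1 b) → y ∈ Pc L A b

/-- [OPD] openness, uniformly on an orbit.  `x` a tuple, `w ∈ Pc (F x) d`, this piece not ended: all `(w', x', d')` which are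
`E`-near to `(w, x, d)` over `F` (for a suitable `E ∈ FE F`) and such that `(x', d') =* (x, d)` over `F` satisfy
`w' ∈ Pc (F x') d'`.
PROOF.  Suppose not.  `FE F` is countable and directed: for every `E` there is a counterexample `(w', x', d')`; move it by `sq_ext`
(`Sq F (x', d') (x, d)`) to `(w_E, x, d)` with `Sq F (w', x', d') (w_E, x, d)`, so `E (w_E, x, d) (w, x, d)` and
`w_E ∉ Pc (F x) d` (membership in a piece is invariant under equality of types over `F`, `pc_tq`).  `S_E := {v | v ∉ Pc (F x) d ∧ E (v, x, d) (w, x, d)}`; ULT: `r`;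
realise `r` over the finite set `F x d`: `v` with `r (E' (·) v)` for all `E' ∈ FE (F x d)`.  `Sq F (v, x, d) (w, x, d)`: for
`E ∈ FE F`: `r (E ((·), x, d) (w, x, d))` (ULT (2)) and `r (E ((·), x, d) (v, x, d))`.  So `v ∈ Pc (F x) d` (invariance), this piece
is the piece of `v`, not ended; LIM over `F x`: `E' ∈ FE (F x)` with `E' y v → y ∈ Pc (F x) v`; `r (E' (·) v)`, ULT (3): some
`y ∈ S_E` with `E' y v`: `y ∈ Pc (F x) d`, contradiction. -/
def St_OPD : Prop :=
  ∀ (L : FirstOrder.Language.{0, 0}) (U : Type) [L.Structure U], Cz L U →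
    ∀ (γ : Type) [Finite γ] (F : Set U) (x : γ → U) (w d : U), F.Finite → ¬ Edd L (F ∪ range x) d →
    w ∈ Pc L (F ∪ range x) d →
    ∃ E : (Fin 1 ⊕ (γ ⊕ Fin 1) → U) → (Fin 1 ⊕ (γ ⊕ Fin 1) → U) → Prop, FE L F E ∧
      ∀ (x' : γ → U) (w' d' : U), Sq L F (Sum.elim x (s1 d)) (Sum.elim x' (s1 d')) →
        E (Sum.elim (s1 w') (Sum.elim x' (s1 d'))) (Sum.elim (s1 w) (Sum.elim x (s1 d))) →
        w' ∈ Pc L (F ∪ range x') d'

end Pool.Agent.TPY
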