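import Pool.Agent.TPY.StR
import Pool.Agent.TPY.StL

/-!
# TPY: FREE, module RED (helper80): the criterion for an end of a piece
-/

set_option autoImplicit false
set_option linter.unusedVariables false

namespace Pool.Agent.TPY

open FirstOrder.Language Set
open scoped FirstOrder
open Pool.Agent.MNO

theorem thm_RED (hULT : St_ULT) : St_RED := by
  classical
  intro L U _ hC A z x hA hx hy
  have hAc : A.Countable := hA.countable
  have hW : BF L A (Pc L A z) := pc_bf hC z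
  have hWc : BF L A (Pc L A z)ᶜ := bf_compl hC hAc hW
  have hxP : ∀ y : U, Sq L A (s1 x) (s1 y) → y ∈ Pc L A z := fun y h => (bf_inv1 hW h).1 hx
  obtain ⟨r, hr, h2, h3⟩ := hULT L U (Fin 1) {B : Set U // B.Finite ∧ B ⊆ Pc L A z}
    (fun B => {w | ∃ y : U, w = s1 y ∧ Sq L A (s1 x) (s1 y) ∧ y ∉ B.1 ∧
      ∀ (n : ℕ) (c c' : Fin n → U), (∀ i, c i ∈ B.1) → (∀ i, c' i ∈ B.1) → Sq L A c c' →
        Sq L (insert y A) c c'}) ⟨⟨∅, finite_empty, empty_subset _⟩⟩ (by
      rintro ⟨B, hB, hBP⟩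
      obtain ⟨y, h1, h2, h3⟩ := hy B hB hBP
      exact ⟨s1 y, y, rfl, h1, h2, h3⟩) (by
      rintro ⟨B, hB, hBP⟩ ⟨B', hB', hBP'⟩
      refine ⟨⟨B ∪ B', hB.union hB', union_subset hBP hBP'⟩, ?_⟩
      rintro w ⟨y, rfl, h1, h2, h3⟩
      exact ⟨⟨y, rfl, h1, fun h => h2 (Or.inl h), fun n c c' hc hc' => h3 n c c' (fun i => Or.inl (hc i))
          (fun i => Or.inl (hc' i))⟩,
        ⟨y, rfl, h1, fun h => h2 (Or.inr h), fun n c c' hc hc' => h3 n c c' (fun i => Or.inr (hc i))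
          (fun i => Or.inr (hc' i))⟩⟩)
  have hEts : Ets L A (s1 x) r := fun E hE =>
    h2 ⟨∅, finite_empty, empty_subset _⟩ _ (dp_mono (subset_univ _) (fe_cls hE (s1 x))) (by
      rintro w ⟨y, rfl, h1, -, -⟩
      exact hE.eqv.symm (h1 E hE))
  refine ⟨r, ⟨hr, ?_, ?_⟩, x, hx, hEts⟩
  · -- not realised
    intro u hu
    have hs : Sq L A (s1 x) (s1 u) := by
      obtain ⟨w, ⟨y, rfl, h1, -, -⟩, hwu⟩ := h3 ⟨∅, finite_empty, empty_subset _⟩ _ hu
      have e : y = u := hwu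
      rw [← e]
      exact h1
    obtain ⟨w, ⟨y, rfl, -, h1, -⟩, hwu⟩ := h3 ⟨{u}, finite_singleton u, singleton_subset_iff.2 (hxP u hs)⟩ _ hu
    have e : y = u := hwu
    exact h1 e
  · -- invariance
    intro n P hP d d' hdd hrd
    by_contra hcon
    have hu : ∀ e : Fin n → U, Dp L (univ : Set U) (fun x : Fin 1 → U => P (Sum.elim x e)) := fun e =>
      dp_par (dp_mono (subset_univ _) hP) e fun _ => mem_univ _
    have hBf : (range (fun j : {j // d j ∈ Pc L A z} => d j) ∪ range (fun j : {j // d j ∈ Pc L A z} => d' j)).Finite :=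
      (finite_range _).union (finite_range _)
    have hBP : range (fun j : {j // d j ∈ Pc L A z} => d j) ∪ range (fun j : {j // d j ∈ Pc L A z} => d' j) ⊆
        Pc L A z := by
      rintro v (⟨j, rfl⟩ | ⟨j, rfl⟩)
      · exact j.2
      · exact (bf_inv hW hdd j).1 j.2
    obtain ⟨w, ⟨y, rfl, hy1, hy2, hy3⟩, hw1, hw2⟩ := h3 ⟨_, hBf, hBP⟩ _ (hr.and _ _ hrd ((gt_not hr (hu d')).2 hcon))
    refine hw2 ?_
    -- the part in `Pc`
    have h3 : Sq L (insert y A) (fun j : {j // d j ∈ Pc L A z} => d j)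
        (fun j : {j // d j ∈ Pc L A z} => d' j) := by
      obtain ⟨m, ⟨e⟩⟩ := Finite.exists_equiv_fin {j // d j ∈ Pc L A z}
      have h4 := hy3 m (fun k => d (e.symm k)) (fun k => d' (e.symm k))
        (fun k => Or.inl ⟨e.symm k, rfl⟩) (fun k => Or.inr ⟨e.symm k, rfl⟩)
        (sq_sub hdd (fun k => (e.symm k : Fin n)))
      have h5 := sq_sub h4 e
      simp only [Equiv.symm_apply_apply] at h5
      exact h5
    have h4 := sq_mono (subset_insert _ _) (sq_add h3 (s1 y) (fun _ => Or.inl rfl))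
    have h5 := sq_swap h4
    have hin : ∀ i, Sum.elim (s1 y) (fun j : {j // d j ∈ Pc L A z} => d j) i ∈ Pc L A z := by
      rintro (i | i)
      · exact hxP y hy1
      · exact i.2
    have h6 := bf_prd (w := fun j : {j // ¬ d j ∈ Pc L A z} => d j) hW hin (fun j => j.2) h5
    -- the part outside of `Pc`
    have h7 : Sq L A (fun j : {j // ¬ d j ∈ Pc L A z} => d j) (fun j : {j // ¬ d j ∈ Pc L A z} => d' j) :=
      sq_sub hdd (fun j : {j // ¬ d j ∈ Pc L A z} => (j : Fin n))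
    have h8 := bf_prd (w := Sum.elim (s1 y) (fun j : {j // d j ∈ Pc L A z} => d' j))
      hWc (fun j => j.2) (by
        rintro (i | i)
        · exact fun h => h (hxP y hy1)
        · exact fun h => h ((bf_inv hW hdd i).1 i.2)) h7
    have h9 := sq_split (fun j => d j ∈ Pc L A z) (sq_trans h6 (sq_swap h8))
    exact (sq_dp h9 hP).1 hw1

end Pool.Agent.TPY
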