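import Pool.Agent.TPY.StR
import Pool.Agent.TPY.MB0

/-!
# TPY module REG (helper31): calculus of `Eg`
-/

set_option autoImplicit false
set_option linter.unusedVariables false

namespace Pool.Agent.TPY

open FirstOrder.Language Set
open scoped FirstOrder
open Pool.Agent.MNO

section

variable {L : FirstOrder.Language.{0, 0}} {U : Type} [L.Structure U] {F : Set U}

/-- invariance of `big` under equality of types -/
theorem big_tq {A₀ : Set U} {big : Set U → U → Prop} (hB : Bg L A₀ big) (h0 : A₀ ⊆ F) (hF : F.Finite)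
    {β : Type} {s t : β → U} (h : Tq L F s t) (a b : β) (hb : big (insert (s a) F) (s b)) :
    big (insert (t a) F) (t b) := by
  obtain ⟨n, f, hf⟩ := exists_enum hF
  have key : ∀ x : U, A₀ ∪ range (Sum.elim f (s1 x)) = insert x F := by
    intro x
    rw [Sum.elim_range, hf, ← union_assoc, union_eq_self_of_subset_left h0, ins_eq]
  have h1 := hB.inv (Fin n ⊕ Fin 1) (Sum.elim f (s1 (s a))) (Sum.elim f (s1 (t a))) (s b) (t b) (by
    have h2 := tq_add h f (fun i => by rw [← hf]; exact ⟨i, rfl⟩)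
    have h3 := tq_sub h2 (Sum.elim (Sum.elim Sum.inr (fun _ => Sum.inl a)) (fun _ => Sum.inl b) :
      (Fin n ⊕ Fin 1) ⊕ Fin 1 → β ⊕ Fin n)
    refine tq_mono h0 (tq_congr h3 ?_ ?_)
    · funext i
      rcases i with (i | i) | i <;> rfl
    · funext i
      rcases i with (i | i) | i <;> rfl)
  rw [key, key] at h1
  exact h1 hb

end

theorem thm_REG (hM : St_M1T) : St_REG := by
  intro L U _ hC A₀ big hB A z hA₀ hA
  have e1 : ∀ x v, v ∈ Eg L big A z x →
      Eg L big A z x = Pc L (insert x A) v ∧ big (insert x A) v ∧ v ∈ Pc L A z := by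
    rintro x v ⟨y, hy, hb, hv⟩
    have hxA := hA.insert x
    have h0 : A₀ ⊆ insert x A := hA₀.trans (subset_insert _ _)
    have hvy := pc_eq hC hxA.countable hv
    have hvb := hB.pc _ _ _ h0 hxA hv hb
    have hvA : v ∈ Pc L A z := by
      rw [← pc_eq hC hA.countable hy]
      exact pc_mono1 hC hA x y hv
    refine ⟨?_, hvb, hvA⟩
    rw [hvy]
    ext w
    constructor
    · rintro ⟨y', hy', hb', hw⟩
      have h1 : y' ∈ Pc L A y := by
        rw [pc_eq hC hA.countable hy]
        exact hy'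
      have h2 := hM L U hC A₀ big hB A (insert x A) y y' hA₀ (subset_insert _ _) hxA h1 hb hb'
      rw [← pc_eq hC hxA.countable h2]
      exact hw
    · intro hw
      exact ⟨y, hy, hb, hw⟩
  have e2 : ∀ x, x ∉ Eg L big A z x := by
    intro x hx
    exact hB.b0 _ _ (hA₀.trans (subset_insert _ _)) (hA.insert x) (e1 x x hx).2.1 (mem_insert x A)
  have e3 : ∀ (x v : U) (W : Set U), W.Finite → v ∈ Eg L big A z x → (∀ w ∈ W, w ∉ Eg L big A z x) →
      big (insert x A ∪ W) v ∧ Pc L (insert x A ∪ W) v = Eg L big A z x := by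
    intro x v W hW hv hWe
    obtain ⟨h1, h2, h3⟩ := e1 x v hv
    have hxA := hA.insert x
    have h0 : A₀ ⊆ insert x A := hA₀.trans (subset_insert _ _)
    have hnv : v ∉ insert x A := hB.b0 _ _ h0 hxA h2
    have g0 : ∀ w ∈ insert x A ∪ W, w ∉ Pc L (insert x A) v := by
      rintro w (hw | hw)
      · exact par_notMem hC hxA.countable hw hnv
      · rw [← h1]
        exact hWe w hw
    refine ⟨hB.b5 _ _ v h0 subset_union_left (hxA.union hW) g0 h2, ?_⟩
    rw [nnl hC hxA (hxA.union hW) subset_union_left g0, ← h1]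
  have e4 : ∀ x x', (Eg L big A z x).Nonempty → (Eg L big A z x').Nonempty → x' ∉ Eg L big A z x →
      x ∉ Eg L big A z x' → Eg L big A z x = Eg L big A z x' := by
    rintro x x' ⟨v, hv⟩ ⟨v', hv'⟩ hx' hx
    obtain ⟨g1, g2⟩ := e3 x v {x'} (finite_singleton _) hv (by rintro w rfl; exact hx')
    obtain ⟨g1', g2'⟩ := e3 x' v' {x} (finite_singleton _) hv' (by rintro w rfl; exact hx)
    have e : insert x' A ∪ {x} = insert x A ∪ {x'} := by
      ext w
      simp only [mem_union, mem_insert_iff, mem_singleton_iff]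
      tauto
    rw [e] at g1' g2'
    have hf : (insert x A ∪ {x'}).Finite := (hA.insert x).union (finite_singleton _)
    have h1 : v' ∈ Pc L A v := by
      rw [pc_eq hC hA.countable (e1 x v hv).2.2]
      exact (e1 x' v' hv').2.2
    have h2 := hM L U hC A₀ big hB A (insert x A ∪ {x'}) v v' hA₀
      ((subset_insert _ _).trans subset_union_left) hf h1 g1 g1'
    rw [← g2, ← g2']
    exact (pc_eq hC hf.countable h2).symm
  have e5 : ∀ x v x' v', x ∈ Pc L A z → x' ∈ Pc L A z → Tq L A ![x, v] ![x', v'] → v ∈ Eg L big A z x →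
      v' ∈ Eg L big A z x' := by
    intro x v x' v' hx hx' ht hv
    obtain ⟨h1, h2, h3⟩ := e1 x v hv
    have h4 : v ∈ Pc L A x := by
      rw [pc_eq hC hA.countable hx]
      exact h3
    have h5 := pc_tq0 hC hA.countable ht h4
    rw [pc_eq hC hA.countable hx'] at h5
    have h6 := big_tq hB hA₀ hA ht 0 1 h2
    exact ⟨v', h5, h6, mem_pc v'⟩
  refine ⟨e1, e2, e3, e4, e5, ?_⟩
  rintro x u ⟨v, hv⟩ hu
  by_contra hne
  obtain ⟨g1, g2⟩ := e3 x v {u} (finite_singleton _) hv (by rintro w rfl; exact hne)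
  have h1 : big (insert u A) v := by
    refine hB.b4 (insert u A) (insert x A ∪ {u}) v (hA₀.trans (subset_insert _ _)) ?_
      ((hA.insert x).union (finite_singleton _)) g1
    rintro w (rfl | hw)
    · exact Or.inr rfl
    · exact Or.inl (Or.inr hw)
  have h2 : v ∈ Eg L big A z u := ⟨v, (e1 x v hv).2.2, h1, mem_pc v⟩
  rw [hu] at h2
  exact h2

end Pool.Agent.TPY
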