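import Pool.Agent.TPY.StR
import Pool.Agent.TPY.GBA

/-!
# TPY module RF1: countably many types of invariant relations over a countable elementary submodel (majority rule)
-/

set_option autoImplicit false
set_option linter.unusedVariables false

namespace Pool.Agent.TPY

open FirstOrder.Language Set
open scoped FirstOrder
open Pool.Agent.WOM (IsEl)
open Pool.Agent.MNO

section

variable {L : FirstOrder.Language.{0, 0}} {U : Type} [L.Structure U]

/-- more than `K` of the `M` properties hold -/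
private def rmaj {M n : ℕ} (K : ℕ) (φ : U → (Fin n → U) → Prop) (v : Fin M → U) (c : Fin n → U) : Prop :=
  ∃ s : Finset (Fin M), K < s.card ∧ ∀ t, t ∈ s → φ (v t) c

private theorem rmaj_dp {N : Set U} {M n : ℕ} (K : ℕ) {φ : U → (Fin n → U) → Prop}
    (h : Dp L N (fun v : Fin 1 ⊕ Fin n → U => φ (v (Sum.inl 0)) (fun i => v (Sum.inr i)))) {β : Type}
    (f : Fin M → β) (g : Fin n → β) :
    Dp L N (fun w : β → U => rmaj K φ (fun t => w (f t)) (fun i => w (g i))) := by
  refine dp_ex_fin (ι := Finset (Fin M)) fun s => dp_and (dp_const _) (dp_all_fin fun t => dp_imp (dp_const _) ?_)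
  exact dp_sub h (Sum.elim (fun _ => f t) g)

/-- the same relations with the same majorities -/
private def rxi {k : ℕ} (n : Fin k → ℕ) (φ : ∀ j : Fin k, U → (Fin (n j) → U) → Prop) (K M : ℕ)
    (v w : Fin M → U) : Prop :=
  ∀ (j : Fin k) (c : Fin (n j) → U), rmaj K (φ j) v c ↔ rmaj K (φ j) w c

private theorem rxi_dp {N : Set U} {k : ℕ} {n : Fin k → ℕ} {φ : ∀ j : Fin k, U → (Fin (n j) → U) → Prop}
    (h : ∀ j, Dp L N (fun v : Fin 1 ⊕ Fin (n j) → U => φ j (v (Sum.inl 0)) (fun i => v (Sum.inr i)))) (K M : ℕ) :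
    Dp L N (fun w : Fin M ⊕ Fin M → U => rxi n φ K M (fun t => w (Sum.inl t)) (fun t => w (Sum.inr t))) := by
  refine dp_all_fin fun j => dp_all (P := fun u : (Fin M ⊕ Fin M) ⊕ Fin (n j) → U =>
    (rmaj K (φ j) (fun t => u (Sum.inl (Sum.inl t))) (fun i => u (Sum.inr i)) ↔
      rmaj K (φ j) (fun t => u (Sum.inl (Sum.inr t))) (fun i => u (Sum.inr i)))) ?_
  exact dp_iff (rmaj_dp K (h j) (fun t => Sum.inl (Sum.inl t)) Sum.inr)
    (rmaj_dp K (h j) (fun t => Sum.inl (Sum.inr t)) Sum.inr)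

/-- the last terms of a coheir sequence can be replaced by elements of the model -/
private theorem rcoh {N : Set U} {y : ℕ → U}
    (hch : ∀ (i : ℕ) (P : (Fin 1 → U) → Prop), Dp L (N ∪ {v | ∃ j < i, v = y j}) P → P (s1 (y i)) →
      ∃ m ∈ N, P (s1 m)) (a : ℕ) :
    ∀ (M : ℕ) (Q : (Fin a ⊕ Fin M → U) → Prop), Dp L N Q →
      Q (Sum.elim (fun t : Fin a => y t) (fun t : Fin M => y (a + t))) →
      ∃ m : Fin M → U, (∀ t, m t ∈ N) ∧ Q (Sum.elim (fun t : Fin a => y t) m) := by
  intro M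
  induction M with
  | zero =>
    intro Q _ h
    exact ⟨_, fun t => t.elim0, h⟩
  | succ M ih =>
    intro Q hQ h
    let f : Fin a ⊕ Fin (M + 1) → Fin 1 ⊕ (Fin a ⊕ Fin M) :=
      Sum.elim (fun t => Sum.inr (Sum.inl t)) (fun t => Fin.lastCases (motive := fun _ => Fin 1 ⊕ (Fin a ⊕ Fin M))
        (Sum.inl 0) (fun t => Sum.inr (Sum.inr t)) t)
    have ef : ∀ (x : Fin 1 → U) (p : Fin a → U) (q : Fin M → U),
        (fun i => (Sum.elim x (Sum.elim p q)) (f i)) = Sum.elim p (Fin.snoc (α := fun _ => U) q (x 0)) := by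
      intro x p q
      funext i
      rcases i with t | t
      · rfl
      · refine Fin.lastCases ?_ (fun t => ?_) t
        · simp only [f, Sum.elim_inr, Fin.lastCases_last, Sum.elim_inl, Fin.snoc_last]
        · simp only [f, Sum.elim_inr, Fin.lastCases_castSucc, Fin.snoc_castSucc]
    -- the last term
    have h1 : Dp L (N ∪ {v | ∃ j < a + M, v = y j}) (fun x : Fin 1 → U =>
        Q (fun i => (Sum.elim x (Sum.elim (fun t : Fin a => y t) (fun t : Fin M => y (a + t)))) (f i))) := by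
      refine dp_par (dp_mono subset_union_left (dp_sub hQ f)) _ fun i => ?_
      rcases i with t | t
      · exact Or.inr ⟨t, by omega, rfl⟩
      · exact Or.inr ⟨a + t, by omega, rfl⟩
    obtain ⟨m, hm, hm'⟩ := hch (a + M) _ h1 (by
      rw [ef]
      have e : (Fin.snoc (α := fun _ => U) (fun t : Fin M => y (a + t)) (s1 (y (a + M)) 0)) =
          fun t : Fin (M + 1) => y (a + t) := by
        funext t
        refine Fin.lastCases ?_ (fun t => ?_) t
        · rw [Fin.snoc_last]
          rfl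
        · rw [Fin.snoc_castSucc]
          rfl
      rw [e]
      exact h)
    rw [ef] at hm'
    -- the others
    have h2 : Dp L N (fun w : Fin a ⊕ Fin M → U => Q (fun i => (Sum.elim w (fun _ : Fin 1 => m))
        (Sum.swap (f i)))) := by
      have h3 := dp_sub (dp_sub hQ f) (Sum.swap : Fin 1 ⊕ (Fin a ⊕ Fin M) → (Fin a ⊕ Fin M) ⊕ Fin 1)
      exact dp_par h3 (fun _ => m) (fun _ => hm)
    have e2 : ∀ (p : Fin a → U) (q : Fin M → U),
        (fun i => (Sum.elim (Sum.elim p q) (fun _ : Fin 1 => m)) (Sum.swap (f i))) =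
          Sum.elim p (Fin.snoc (α := fun _ => U) q m) := by
      intro p q
      rw [← ef (fun _ => m) p q]
      funext i
      rcases f i with t | t <;> rfl
    obtain ⟨q, hq, hq'⟩ := ih _ h2 (by
      rw [e2]
      exact hm')
    rw [e2] at hq'
    refine ⟨_, fun t => ?_, hq'⟩
    refine Fin.lastCases ?_ (fun t => ?_) t
    · rw [Fin.snoc_last]
      exact hm
    · rw [Fin.snoc_castSucc]
      exact hq t

/-- types over an elementary submodel determine strong types -/
private theorem rsq (hRDE : St_RDE) (hC : Cz L U) {A N : Set U} (hA : A.Finite) (hN : IsEl L N) (hAN : A ⊆ N)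
    {x y : Fin 1 → U} (h : Tq L N x y) : Sq L A x y := by
  intro E hE
  have h1 : Dp L (univ : Set U) (fun v : Fin 1 → U => E v x) := by
    have h2 := dp_par (dp_mono (subset_univ A) hE.dfn) x (fun _ => mem_univ _)
    exact h2
  have h2 := (hRDE L U hC (Fin 1) A (fun v => E v x) hA h1
    (fun u v huv hu => hE.eqv.trans (hE.eqv.symm (huv E hE)) hu)).2 N hN hAN
  exact hE.eqv.symm (h _ h2 (hE.eqv.refl x))

/-- majorities in a sequence with few exceptions -/
private theorem rmaj_inv {n K : ℕ} {φ : U → (Fin n → U) → Prop} {y : ℕ → U} {c : Fin n → U}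
    (hK : ∀ i i' : Fin K → ℕ, Function.Injective i → Function.Injective i' → (∀ t, φ (y (i t)) c) →
      ∃ t, φ (y (i' t)) c)
    (τ τ' : Fin (2 * K + 1) → ℕ) (hτ : Function.Injective τ) (hτ' : Function.Injective τ')
    (h : rmaj K φ (fun t => y (τ t)) c) : rmaj K φ (fun t => y (τ' t)) c := by
  classical
  by_contra hcon
  obtain ⟨s, hs, hs'⟩ := h
  let p : Finset (Fin (2 * K + 1)) := Finset.univ.filter fun t => φ (y (τ' t)) c
  let q : Finset (Fin (2 * K + 1)) := Finset.univ.filter fun t => ¬ φ (y (τ' t)) c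
  have hp : p.card ≤ K := by
    by_contra hp
    exact hcon ⟨p, by omega, fun t ht => (Finset.mem_filter.1 ht).2⟩
  have hpq : p.card + q.card = 2 * K + 1 := by
    have h1 := Finset.card_filter_add_card_filter_not (s := (Finset.univ : Finset (Fin (2 * K + 1))))
      (fun t => φ (y (τ' t)) c)
    rw [Finset.card_univ, Fintype.card_fin] at h1
    exact h1
  have hq : K ≤ q.card := by omega
  obtain ⟨t, ht⟩ := hK (fun t => τ (s.orderEmbOfCardLe hs.le t)) (fun t => τ' (q.orderEmbOfCardLe hq t))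
    (hτ.comp (s.orderEmbOfCardLe hs.le).injective) (hτ'.comp (q.orderEmbOfCardLe hq).injective)
    (fun t => hs' _ (Finset.orderEmbOfCardLe_mem s hs.le t))
  exact (Finset.mem_filter.1 (Finset.orderEmbOfCardLe_mem q hq t)).2 ht

end

/-- [RF1] -/
theorem thm_RF1 (hRDE : St_RDE) (hRCH : St_RCH) (hRNI : St_RNI) : St_RF1 := by
  classical
  intro L U _ hC A a D R hS N hNc hNE hAN k n φ hφ
  have hcN : Countable N := hNc.to_subtype
  -- definability over `N`
  have hdp : ∀ j, Dp L N (fun v : Fin 1 ⊕ Fin (n j) → U => φ j (v (Sum.inl 0)) (fun i => v (Sum.inr i))) := by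
    intro j
    refine (hRDE L U hC (Fin 1 ⊕ Fin (n j)) A _ hS.fin (hφ j).dfn (fun x y hxy hx => ?_)).2 N hNE hAN
    refine (hφ j).inv _ _ _ _ ?_ hx
    refine sq_congr hxy ?_ ?_ <;>
    · funext i
      rcases i with i | i
      · show _ = _
        rw [Subsingleton.elim i 0]
        rfl
      · rfl
  -- the constant
  have hk := fun j => hRNI L U hC A (n j) (φ j) hS.fin (hφ j).dfn (hφ j).inv
  choose kk hkk using hk
  let K : ℕ := Finset.univ.sup kk
  have hK : ∀ (j : Fin k) (y : ℕ → U), Tis L A univ y → ∀ (c : Fin (n j) → U) (i i' : Fin K → ℕ),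
      Function.Injective i → Function.Injective i' → (∀ t, φ j (y (i t)) c) → ∃ t, φ j (y (i' t)) c := by
    intro j y hy c i i' hi hi' h
    have hle : kk j ≤ K := Finset.le_sup (f := kk) (Finset.mem_univ j)
    obtain ⟨t, ht⟩ := hkk j y hy c (fun t => i (Fin.castLE hle t)) (fun t => i' (Fin.castLE hle t))
      (hi.comp (Fin.castLE_injective hle)) (hi'.comp (Fin.castLE_injective hle)) (fun t => h _)
    exact ⟨_, ht⟩
  -- the codes
  let M : ℕ := 2 * K + 1
  refine Set.Countable.mono ?_ ((countable_range (fun m : N =>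
    ({p | φ p.1 (m : U) (fun i => (p.2 i : U))} : Set (Σ j : Fin k, (Fin (n j) → N))))).union
    (countable_range (fun m : Fin M → N =>
    ({p | rmaj K (φ p.1) (fun t => (m t : U)) (fun i => (p.2 i : U))} : Set (Σ j : Fin k, (Fin (n j) → N))))))
  rintro S ⟨x, hx, rfl⟩
  obtain ⟨y, hy, hch, hind⟩ := hRCH L U hC N x hNc hNE
  have hys : ∀ i, Sq L A (s1 a) (s1 (y i)) := fun i =>
    sq_trans hx (rsq hRDE hC hS.fin hNE hAN (hy i))
  have hyx : ∀ (i : ℕ) (j : Fin k) (c : Fin (n j) → N), φ j x (fun t => (c t : U)) ↔ φ j (y i) (fun t => (c t : U)) := by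
    intro i j c
    have h1 := dp_par (hdp j) (fun t => (c t : U)) (fun t => (c t).2)
    exact tq_iff (hy i) h1
  by_cases hR : R (y 0) (y 1)
  · left
    have hyD : ∀ i, y i ∈ D := fun i => hS.sub _ (hys i)
    have hR' := hS.sym _ (hyD 0) _ (hyD 1) hR
    have h1 : Dp L (N ∪ {v | ∃ j < 1, v = y j}) (fun v : Fin 1 → U =>
        ∀ (j : Fin k) (c : Fin (n j) → U), φ j (y 0) c ↔ φ j (v 0) c) := by
      refine dp_all_fin fun j => dp_all (P := fun u : Fin 1 ⊕ Fin (n j) → U =>
        (φ j (y 0) (fun i => u (Sum.inr i)) ↔ φ j (u (Sum.inl 0)) (fun i => u (Sum.inr i)))) ?_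
      refine dp_iff ?_ (dp_mono subset_union_left (hdp j))
      have h2 := dp_sub (dp_mono (B := N ∪ {v | ∃ j < 1, v = y j}) subset_union_left (hdp j))
        (Sum.elim (fun _ => Sum.inr ()) (fun i => Sum.inl (Sum.inr i)) : Fin 1 ⊕ Fin (n j) →
          (Fin 1 ⊕ Fin (n j)) ⊕ Unit)
      exact dp_par h2 (fun _ => y 0) (fun _ => Or.inr ⟨0, Nat.zero_lt_one, rfl⟩)
    obtain ⟨m, hm, hm'⟩ := hch 1 _ h1 (fun j c =>
      ⟨(hφ j).sat _ (hyD 0) _ (hyD 1) c hR, (hφ j).sat _ (hyD 1) _ (hyD 0) c hR'⟩)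
    refine ⟨⟨m, hm⟩, ?_⟩
    ext ⟨j, c⟩
    exact ((hyx 0 j c).trans (hm' j _)).symm
  · right
    have htis : Tis L A univ y := hS.tis y hys (fun l i j hi hj => tq_mono hAN (hind l i j hi hj)) hR
    have h1 : rxi n φ K M (fun t : Fin M => y t) (fun t : Fin M => y (M + t)) := by
      intro j c
      have e1 : Function.Injective (fun t : Fin M => (t : ℕ)) := Fin.val_injective
      have e2 : Function.Injective (fun t : Fin M => M + (t : ℕ)) := fun s t hst => by
        have : M + (s : ℕ) = M + (t : ℕ) := hst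
        exact Fin.ext (by omega)
      exact ⟨rmaj_inv (hK j y htis c) _ _ e1 e2, rmaj_inv (hK j y htis c) _ _ e2 e1⟩
    obtain ⟨m, hm, hm'⟩ := rcoh hch M M _ (rxi_dp hdp K M) h1
    refine ⟨fun t => ⟨m t, hm t⟩, ?_⟩
    ext ⟨j, c⟩
    have h2 : rmaj K (φ j) (fun t : Fin M => y t) (fun i => (c i : U)) ↔
        rmaj K (φ j) m (fun i => (c i : U)) := hm' j _
    have h3 : rmaj K (φ j) (fun t : Fin M => y t) (fun i => (c i : U)) ↔ φ j x (fun i => (c i : U)) := by
      constructor
      · rintro ⟨s, hs, hs'⟩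
        obtain ⟨t, ht⟩ := Finset.card_pos.1 (lt_of_le_of_lt (Nat.zero_le K) hs)
        exact (hyx _ j c).2 (hs' t ht)
      · intro h
        refine ⟨Finset.univ, ?_, fun t _ => (hyx _ j c).1 h⟩
        rw [Finset.card_univ, Fintype.card_fin]
        show K < 2 * K + 1
        omega
    exact h2.symm.trans h3

end Pool.Agent.TPY
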