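import Pool.Agent.TPY.GBA
import Pool.Agent.TPY.StI

/-!
# TPY, GAP, module GBR: the inputs of GAP from TR, DPM, LINK (`StI.lean`)
-/

set_option autoImplicit false
set_option linter.unusedVariables false

namespace Pool.Agent.TPY

open FirstOrder.Language Set
open scoped FirstOrder
open Pool.Agent.MNO

section

variable {L : FirstOrder.Language.{0, 0}} {U : Type} [L.Structure U] {A B : Set U} {S : Set ℚ}
  {z : ℚ → U}

/-- open convex sets are isomorphic to the rationals -/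
theorem opn_iso (hS : Opn S) (hne : S.Nonempty) : Nonempty (ℚ ≃o S) := by
  have h1 : S.OrdConnected := hS.1
  have : Nonempty S := hne.to_subtype
  have : NoMinOrder S := ⟨fun a => by
    obtain ⟨t, ht, hta⟩ := (hS.2 a a.2).1
    exact ⟨⟨t, ht⟩, hta⟩⟩
  have : NoMaxOrder S := ⟨fun a => by
    obtain ⟨t, ht, hta⟩ := (hS.2 a a.2).2
    exact ⟨⟨t, ht⟩, hta⟩⟩
  have : DenselyOrdered S := ⟨fun a b hab => by
    obtain ⟨c, hac, hcb⟩ := exists_between (show (a : ℚ) < b from hab)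
    exact ⟨⟨c, h1.out a.2 b.2 ⟨hac.le, hcb.le⟩⟩, hac, hcb⟩⟩
  exact Order.iso_of_countable_dense ℚ S

theorem idc_ids (e : ℚ ≃o S) : Ids L A S z ↔ Idc L A (fun q => s1 (z (e q))) := by
  constructor
  · intro h n i j hi hj
    have h1 := h n (fun k => (e (i k) : ℚ)) (fun k => (e (j k) : ℚ))
      (fun a b hab => e.strictMono (hi hab)) (fun a b hab => e.strictMono (hj hab))
      (fun k => (e (i k)).2) (fun k => (e (j k)).2)
    exact tq_sub h1 (Prod.fst : Fin n × Fin 1 → Fin n)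
  · intro h n i j hi hj hiS hjS
    have h1 := h n (fun k => e.symm ⟨i k, hiS k⟩) (fun k => e.symm ⟨j k, hjS k⟩)
      (fun a b hab => e.symm.strictMono (show (⟨i a, hiS a⟩ : S) < ⟨i b, hiS b⟩ from hi hab))
      (fun a b hab => e.symm.strictMono (show (⟨j a, hjS a⟩ : S) < ⟨j b, hjS b⟩ from hj hab))
    have h2 := tq_sub h1 (fun k : Fin n => ((k, 0) : Fin n × Fin 1))
    refine tq_congr h2 ?_ ?_
    · funext k
      show z (i k) = z (e (e.symm ⟨i k, hiS k⟩))
      rw [e.apply_symm_apply]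
    · funext k
      show z (j k) = z (e (e.symm ⟨j k, hjS k⟩))
      rw [e.apply_symm_apply]

theorem ids_empty (hS : ¬ S.Nonempty) : Ids L A S z := by
  intro n i j hi hj hiS hjS
  rcases Nat.eq_zero_or_pos n with rfl | hn
  · have e : (fun k => z (i k)) = fun k => z (j k) := funext fun k => k.elim0
    rw [e]
    exact tq_refl _
  · exact absurd ⟨_, hiS ⟨0, hn⟩⟩ hS

theorem opn_iio (hS : Opn S) (e : ℚ) : Opn (S ∩ Iio e) := by
  have h1 : S.OrdConnected := hS.1
  refine ⟨h1.inter ordConnected_Iio, ?_⟩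
  rintro s ⟨hs, hse⟩
  obtain ⟨⟨t, ht, hts⟩, t', ht', hst'⟩ := hS.2 s hs
  have hse' : s < e := hse
  refine ⟨⟨t, ⟨ht, lt_trans hts hse'⟩, hts⟩, min t' ((s + e) / 2), ⟨?_, ?_⟩, ?_⟩
  · refine h1.out hs ht' ⟨le_min hst'.le (by linarith), min_le_left _ _⟩
  · have h2 : (s + e) / 2 < e := by linarith
    exact lt_of_le_of_lt (min_le_right t' ((s + e) / 2)) h2
  · exact lt_min hst' (by linarith)

theorem opn_ioi (hS : Opn S) (e : ℚ) : Opn (S ∩ Ioi e) := by
  have h1 : S.OrdConnected := hS.1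
  refine ⟨h1.inter ordConnected_Ioi, ?_⟩
  rintro s ⟨hs, hse⟩
  obtain ⟨⟨t, ht, hts⟩, t', ht', hst'⟩ := hS.2 s hs
  have hse' : e < s := hse
  refine ⟨⟨max t ((s + e) / 2), ⟨?_, ?_⟩, ?_⟩, t', ⟨ht', lt_trans hse' hst'⟩, hst'⟩
  · refine h1.out ht hs ⟨le_max_left _ _, max_le hts.le (by linarith)⟩
  · have h2 : e < (s + e) / 2 := by linarith
    exact lt_of_lt_of_le h2 (le_max_right t ((s + e) / 2))
  · exact max_lt hts (by linarith)

end

theorem thm_GTR (h : St_TRI) : St_GTR := by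
  intro L U _ hC A B S z hA hB hS hz hb
  by_cases hne : S.Nonempty
  · obtain ⟨e⟩ := opn_iso hS hne
    have : Finite B := hB
    have h1 := h L U hC (Fin 1) B A (fun q => s1 (z (e q))) (fun b => (b : U)) hA.countable
      ((idc_ids e).1 hz) (fun b => (idc_ids e).1 (hb b b.2))
    rw [Subtype.range_coe] at h1
    exact (idc_ids e).2 h1
  · exact ids_empty hne

theorem thm_GDP (h : St_DPM) : St_GDP := by
  intro L U _ hC A S z d e hA hS hz
  by_cases h1 : (S ∩ Iio e).Nonempty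
  · by_cases h2 : (S ∩ Ioi e).Nonempty
    · obtain ⟨f⟩ := opn_iso (opn_iio hS e) h1
      obtain ⟨g⟩ := opn_iso (opn_ioi hS e) h2
      have hTm : ∀ (T : Set ℚ) (g : ℚ ≃o T), A ∪ Tm (fun q => s1 (z (g q))) univ ⊆ A ∪ z '' T := by
        intro T g
        refine union_subset_union_right A ?_
        rintro x ⟨q, -, k, rfl⟩
        exact ⟨g q, (g q).2, rfl⟩
      have h3 := h L U hC (Fin 1) (Fin 1) A (fun q => s1 (z (f q))) (fun q => s1 (z (g q))) d hA.countable
        ⟨(idc_ids f).1 (ids_par (ids_name hz (J := S ∩ Ioi e) inter_subset_left inter_subset_left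
          (fun a ha => Or.inl fun s hs => lt_trans hs.2 ha.2)) (hTm _ g)),
        (idc_ids g).1 (ids_par (ids_name hz (J := S ∩ Iio e) inter_subset_left inter_subset_left
          (fun a ha => Or.inr fun s hs => lt_trans ha.2 hs.2)) (hTm _ f))⟩
      rcases h3 with h3 | h3
      · exact Or.inl ((idc_ids f).2 h3)
      · exact Or.inr ((idc_ids g).2 h3)
    · exact Or.inr (ids_empty h2)
  · exact Or.inl (ids_empty h1)

theorem thm_GLK (h : St_LNK) : St_GLK := by
  intro L U _ hC A c v hA hv hx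
  obtain ⟨x, hxc, hx⟩ := hx
  obtain ⟨u, v', hu, huc, hv', hbr⟩ := h L U hC A c v hA hv ⟨x, hxc, pc_sq hC hx⟩
  have hu1 : ∀ q, u q = s1 (u q 0) := fun q => by
    funext i
    rw [Subsingleton.elim i 0]
    rfl
  obtain ⟨w, hw⟩ := sqc_ext hC hA.countable (sq_symm hv') (fun q : ℚ => u q 0)
  have hT := cpc_tq hw
  have hcp : Cpz L A (fun q : ℚ => u q 0) w := cpz_of hw
  have e : (fun q : ℚ => s1 ((fun q : ℚ => u q 0) q)) = u := funext fun q => (hu1 q).symm
  let f : ℚ ≃o (univ : Set ℚ) := OrderIso.Set.univ.symm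
  have e' : (fun q : ℚ => s1 ((fun q : ℚ => u q 0) (f q))) = u := e
  refine ⟨w, fun t => ?_, ?_, fun hbr' => hbr ?_⟩
  · have h1 := huc t
    rw [hu1 t] at h1
    exact sq_trans h1 (cpz_sq1 hcp t)
  · refine ids_mv0 (cpz_tq hcp) ((idc_ids f).2 ?_)
    rw [e']
    exact hu
  · have h2 := ids_mv1 (tq_symm hT) hbr'
    have h3 := (idc_ids f).1 h2
    rw [e'] at h3
    exact h3

end Pool.Agent.TPY
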