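import Pool.Agent.TPY.StR2
import Pool.Agent.TPY.GBR
import Pool.Agent.TPY.REG

/-!
# TPY module RFA (helper97): the strong type of `x` is stable modulo `Rf`
-/

set_option autoImplicit false
set_option linter.unusedVariables false

namespace Pool.Agent.TPY

open FirstOrder.Language Set
open scoped FirstOrder
open Pool.Agent.MNO

theorem thm_RFA (hREG : St_REG) (hRDG : St_RDG) (hNN : St_NN) (hEXT : St_EXT) : St_RFA := by
  intro L U _ hC A₀ big A z x hG hn
  have hB := hG.bg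
  have h0 := hG.sub
  have hA := hG.fin
  obtain ⟨g1, g2, g3, g4, g5, g6⟩ := hREG L U hC A₀ big hB A z h0 hA
  obtain ⟨d1, d2, d3, d4, d5⟩ := hRDG L U hC A₀ big A z x hG
  have hxD : x ∈ Dz L A z x := ⟨hG.mem, tq_refl _⟩
  have hD : ∀ v, Sq L A (s1 x) (s1 v) → v ∈ Dz L A z x := fun v hv => d4 x v hv hxD
  -- two points of the strong type of `x`
  have two : ∀ a b, Sq L A (s1 x) (s1 a) → Sq L A (s1 x) (s1 b) → b ∈ Eg L big A z a →
      big (insert a A) b ∧ big (insert b A) a := by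
    intro a b ha hb hab
    obtain ⟨q1, q2, q3⟩ := g1 a b hab
    obtain ⟨v, hv⟩ := d1 b (hD b hb)
    obtain ⟨r1, r2, r3⟩ := g1 b v hv
    have haP : a ∈ Pc L A z := (hD a ha).1
    rcases hNN L U hC A₀ big hB A z a b b v h0 hA haP q3 (sq_trans (sq_symm ha) hb) q3 r3 q2 r2 with h1 | h1
    · exfalso
      rw [← q1, ← r1] at h1
      refine g2 b ?_
      rw [← h1]
      exact hab
    · refine ⟨q2, ?_⟩
      have h2 : a ∈ Eg L big A z b := by
        rw [r1]
        exact h1.2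
      exact (g1 b a h2).2.1
  refine ⟨hA, hD, fun v hv w hw hvw => ⟨hvw.2, hvw.1⟩, ?_⟩
  intro w hw hind hR
  obtain ⟨u, hu, hex⟩ := hEXT L U hC (Fin 1) A (fun n => s1 (w n)) hA.countable
  have hu1 : ∀ q, u q = s1 (u q 0) := fun q => by
    funext i
    rw [Subsingleton.elim i 0]
    rfl
  -- types of increasing tuples
  have ha : ∀ (n : ℕ) (i : Fin n → ℚ) (j : Fin n → ℕ), StrictMono i → StrictMono j →
      Tq L A (fun k => u (i k) 0) (fun k => w (j k)) := by
    intro n i j hi hj P hP hx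
    have hP' : Dp L A (fun v : Fin n × Fin 1 → U => P (fun k => v (k, 0))) := dp_sub hP (fun k => (k, 0))
    obtain ⟨j0, hj0, h1⟩ := hex n i hi _ (fe_of_dp hP')
    have h2 : P (fun k => w (j0 k)) := h1.1 hx
    exact hind n j0 j hj0 hj P hP h2
  have hb : ∀ q, Sq L A (s1 x) (s1 (u q 0)) := by
    intro q E hE
    obtain ⟨j, hj, h1⟩ := hex 1 (fun _ => q) (Subsingleton.strictMono _) _
      (fe_sub hE (fun k : Fin 1 => ((k, 0) : Fin 1 × Fin 1)))
    have e1 : (fun k : Fin 1 => tms u (fun _ : Fin 1 => q) (k, 0)) = s1 (u q 0) := rfl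
    have e2 : (fun k : Fin 1 => tms (fun n => s1 (w n)) j (k, 0)) = s1 (w (j 0)) := by
      funext k
      rw [Subsingleton.elim k 0]
      rfl
    have h2 : E (fun k : Fin 1 => tms u (fun _ : Fin 1 => q) (k, 0))
      (fun k : Fin 1 => tms (fun n => s1 (w n)) j (k, 0)) := h1
    rw [e1, e2] at h2
    exact hE.eqv.trans (hw (j 0) E hE) (hE.eqv.symm h2)
  have hpair : ∀ (n : ℕ) (v : ℕ → U) (a b : ℕ), (fun k : Fin 2 => v ((![a, b] : Fin 2 → ℕ) k)) = ![v a, v b] := by
    intro n v a b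
    funext k
    fin_cases k <;> rfl
  have hpair' : ∀ (v : ℚ → Fin 1 → U) (a b : ℚ), (fun k : Fin 2 => v ((![a, b] : Fin 2 → ℚ) k) 0) =
      ![v a 0, v b 0] := by
    intro v a b
    funext k
    fin_cases k <;> rfl
  have hsm : ∀ a b : ℚ, a < b → StrictMono (![a, b] : Fin 2 → ℚ) := by
    intro a b hab i j hij
    fin_cases i <;> fin_cases j
    · exact absurd hij (lt_irrefl _)
    · exact hab
    · exact absurd hij (by decide)
    · exact absurd hij (lt_irrefl _)
  have hsm' : StrictMono (![0, 1] : Fin 2 → ℕ) := by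
    intro i j hij
    fin_cases i <;> fin_cases j
    · exact absurd hij (lt_irrefl _)
    · exact one_pos
    · exact absurd hij (by decide)
    · exact absurd hij (lt_irrefl _)
  have huP : ∀ q, u q 0 ∈ Pc L A z := fun q => (hD _ (hb q)).1
  have hwP : ∀ i, w i ∈ Pc L A z := fun i => (hD _ (hw i)).1
  have h01 : Tq L A ![u 0 0, u 1 0] ![w 0, w 1] := by
    have h1 := ha 2 ![0, 1] ![0, 1] (hsm 0 1 one_pos) hsm'
    rw [hpair 0, hpair'] at h1
    exact h1
  have hR' : ¬ Rf L big A z (u 0 0) (u 1 0) := fun h => hR (d3 _ _ _ _ (huP 0) (huP 1) (hwP 0) (hwP 1) h01 h)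
  have hbig : big (insert (u 0 0) A) (u 1 0) ∧ big (insert (u 1 0) A) (u 0 0) := by
    by_cases h1 : u 1 0 ∈ Eg L big A z (u 0 0)
    · exact two _ _ (hb 0) (hb 1) h1
    · by_cases h2 : u 0 0 ∈ Eg L big A z (u 1 0)
      · exact (two _ _ (hb 1) (hb 0) h2).symm
      · exact absurd ⟨h1, h2⟩ hR'
  have hlt : ∀ p q : ℚ, p < q → Tq L A ![u 0 0, u 1 0] ![u p 0, u q 0] := by
    intro p q hpq
    have h1 := tq_sub (hu 2 ![0, 1] ![p, q] (hsm 0 1 one_pos) (hsm p q hpq)) (fun k : Fin 2 => ((k, 0) : Fin 2 × Fin 1))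
    have e1 : ∀ a b : ℚ, (fun k : Fin 2 => tms u (![a, b] : Fin 2 → ℚ) (k, 0)) = ![u a 0, u b 0] := hpair' u
    rw [e1, e1] at h1
    exact h1
  have hT := hn u hu (fun q => by rw [hu1 q]; exact hb q) (by
    intro p q hpq
    rcases lt_or_gt_of_ne hpq with h1 | h1
    · exact big_tq hB h0 hA (hlt p q h1) 0 1 hbig.1
    · exact big_tq hB h0 hA (hlt q p h1) 1 0 hbig.2)
  -- back to `w`
  have hwu : ∀ (n : ℕ) (i : Fin n → ℕ), Tq L A (fun k => w (i k)) (fun k => u ((i k : ℕ) : ℚ) 0) := by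
    intro n i
    obtain ⟨m, g, g', f, hg, -, hgf, -, hgs⟩ := pat_fac (κ := Fin n) (g := fun k => ((i k : ℕ) : ℚ))
      (g' := fun k => ((i k : ℕ) : ℚ)) (fun _ _ => Iff.rfl)
    choose e he _ using hgs
    have hsi : StrictMono fun k => i (e k) := by
      intro a b hab
      have h1 := hg hab
      rw [he, he] at h1
      exact_mod_cast h1
    have h1 := tq_sub (ha m g (fun k => i (e k)) hg hsi) f
    have e1 : (fun k => u (g (f k)) 0) = fun k => u ((i k : ℕ) : ℚ) 0 := by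
      funext k
      rw [← hgf]
    have e2 : (fun k => w (i (e (f k)))) = fun k => w (i k) := by
      funext k
      have h2 : ((i (e (f k)) : ℕ) : ℚ) = ((i k : ℕ) : ℚ) := by
        rw [← he, ← hgf]
      have h3 : i (e (f k)) = i k := by exact_mod_cast h2
      rw [h3]
    rw [e1, e2] at h1
    exact tq_symm h1
  intro n i j hi hj _ _
  refine tq_trans (hwu n i) (tq_trans ?_ (tq_symm (hwu n j)))
  refine hT n (fun k => ((i k : ℕ) : ℚ)) (fun k => ((j k : ℕ) : ℚ)) (fun a b hab => hi ?_) (fun a b hab => hj ?_)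
    (fun _ => mem_univ _) (fun _ => mem_univ _)
  · have h1 : ((i a : ℕ) : ℚ) = ((i b : ℕ) : ℚ) := hab
    exact_mod_cast h1
  · have h1 : ((j a : ℕ) : ℚ) = ((j b : ℕ) : ℚ) := hab
    exact_mod_cast h1

end Pool.Agent.TPY
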