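import Pool.Agent.TPY.StR2
import Pool.Agent.TPY.GBR
import Pool.Agent.TPY.MB0

/-!
# TPY module RFC (helper97): facing sequences through a given good point
-/

set_option autoImplicit false
set_option linter.unusedVariables false

namespace Pool.Agent.TPY

open FirstOrder.Language Set
open scoped FirstOrder
open Pool.Agent.MNO

theorem thm_RFC (hUNB : St_UNB) : St_RFC := by
  intro L U _ hC A₀ big hB A z u h0 hA hu hne
  obtain ⟨v, y, hy, hby, hv⟩ := hne
  obtain ⟨s', hs', hsu, hbs⟩ := hUNB L U hC A₀ big hB A z u y h0 hA hu hy hby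
  have hu1 : ∀ q, s' q = s1 (s' q 0) := fun q => by
    funext i
    rw [Subsingleton.elim i 0]
    rfl
  have h1 : Sq L A (s1 (s' 0 0)) (s1 u) := by
    rw [← hu1 0]
    exact sq_symm (hsu 0)
  obtain ⟨w, hw⟩ := sqc_ext hC hA.countable h1 (fun q : ℚ => s' q 0)
  have hcp : Cpz L A (fun q : ℚ => s' q 0) w := cpz_of hw
  let f : ℚ ≃o (univ : Set ℚ) := OrderIso.Set.univ.symm
  have e : (fun q : ℚ => s1 ((fun q : ℚ => s' q 0) (f q))) = s' := funext fun q => (hu1 q).symm
  have hI : Ids L A univ (fun q : ℚ => s' q 0) := (idc_ids f).2 (by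
    rw [e]
    exact hs')
  have hIw : Ids L A univ w := ids_mv0 (cpz_tq hcp) hI
  have huw : ∀ q, Sq L A (s1 u) (s1 (w q)) := fun q => by
    have h2 := hsu q
    rw [hu1 q] at h2
    exact sq_trans h2 (cpz_sq1 hcp q)
  refine ⟨fun q => s1 (w q), (idc_ids f).1 hIw, ?_, huw, fun p q hpq => ?_⟩
  · have h2 := tq_of_sq (hw 1 (fun _ => 0))
    exact ((tq_eq h2 (Sum.inl 0) (Sum.inr 0)).1 rfl).symm
  · have h2 : w q ∈ Pc L A z := by
      have h3 := pc_sq hC (huw q)
      rw [pc_eq hC hA.countable hu] at h3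
      exact h3
    refine ⟨w q, h2, ?_, mem_pc _⟩
    have h3 := cpz_sq hcp (![p, q] : Fin 2 → ℚ)
    exact big_sq hB h0 hA h3 0 1 (hbs p q hpq)

end Pool.Agent.TPY
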