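import Pool.Agent.TPY.StR2
import Pool.Agent.TPY.MB0

/-!
# TPY/RFD: the type of a generic point over a model inside its big piece is invariant
-/

set_option autoImplicit false
set_option linter.unusedVariables false

namespace Pool.Agent.TPY

open FirstOrder.Language Set
open scoped FirstOrder
open Pool.Agent.MNO

theorem rfd_pos : ∃ f : ℚ → ℚ, StrictMono f ∧ ∀ q, 0 < f q := by
  refine ⟨fun q => if 0 ≤ q then q + 1 else 1 / (1 - q), ?_, ?_⟩
  · intro p q hpq
    show (if 0 ≤ p then p + 1 else 1 / (1 - p)) < (if 0 ≤ q then q + 1 else 1 / (1 - q))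
    by_cases hp : 0 ≤ p
    · have hq : 0 ≤ q := hp.trans hpq.le
      rw [if_pos hp, if_pos hq]
      linarith
    · push Not at hp
      rw [if_neg (not_le.2 hp)]
      have h1 : (1 : ℚ) < 1 - p := by linarith
      by_cases hq : 0 ≤ q
      · rw [if_pos hq]
        have h2 : 1 / (1 - p) < 1 := by
          rw [div_lt_one (by linarith)]
          exact h1
        linarith
      · push Not at hq
        rw [if_neg (not_le.2 hq)]
        exact one_div_lt_one_div_of_lt (by linarith) (by linarith)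
  · intro q
    show 0 < (if 0 ≤ q then q + 1 else 1 / (1 - q))
    by_cases hq : 0 ≤ q
    · rw [if_pos hq]
      linarith
    · push Not at hq
      rw [if_neg (not_le.2 hq)]
      exact one_div_pos.2 (by linarith)

theorem thm_RFD (hREG : St_REG) (hRDG : St_RDG) (hIDS : St_IDS) (hIDB : St_IDB) (hDPM : St_DPM) : St_RFD := by
  intro L U _ hC A₀ big A z x hG N y hy hNE hmv hlas n c c' hcN hcP hc'N hcc
  obtain ⟨hR1, hR2, -, -, -, -⟩ := hREG L U hC A₀ big hG.bg A z hG.sub hG.fin
  obtain ⟨-, hD2, -, -, -⟩ := hRDG L U hC A₀ big A z x hG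
  refine hlas n c c' (fun d d' => Sq L (insert y A) d d') hcN hc'N hcc
    ⟨fun d => sq_refl _ d, fun h => sq_symm h, fun h h' => sq_trans h h'⟩ ?_
  intro u hu huN hcu
  rcases Nat.eq_zero_or_pos n with rfl | hn
  · have e : u 0 = u 1 := funext fun k => k.elim0
    show Sq L (insert y A) (u 0) (u 1)
    rw [e]
    exact sq_refl _ _
  have huE : ∀ q k, u q k ∈ Eg L big A z y := fun q k =>
    hNE _ (huN q k) ((bf_inv (pc_bf hC z) (hcu q) k).1 (hcP k))
  have key : ∀ h : ℚ → ℚ, StrictMono h → Idc L (insert y A) (fun q => u (h q)) →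
      Sq L (insert y A) (u 0) (u 1) := by
    intro h hh hI
    have h1 : Sq L (insert y A) (u (h 0)) (u (h 1)) :=
      ids_ot (hIDS L U hC (Fin n) _ _ hI) (κ := Fin n) (fun _ => 0) (fun _ => 1) (fun k => k) (fun k l => by simp)
    have h2 : Sq L A (fun k : Fin n ⊕ Fin n => u (Sum.elim (fun _ => h 0) (fun _ => h 1) k) (Sum.elim id id k))
        (fun k : Fin n ⊕ Fin n => u (Sum.elim (fun _ => 0) (fun _ => 1) k) (Sum.elim id id k)) := by
      refine ids_ot (hIDS L U hC (Fin n) _ _ hu) (κ := Fin n ⊕ Fin n) (Sum.elim (fun _ => h 0) (fun _ => h 1))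
        (Sum.elim (fun _ => 0) (fun _ => 1)) (Sum.elim id id) ?_
      have h01 : h 0 < h 1 := hh (by norm_num)
      rintro (k | k) (l | l)
      · show h 0 < h 0 ↔ (0 : ℚ) < 0
        simp
      · show h 0 < h 1 ↔ (0 : ℚ) < 1
        exact ⟨fun _ => by norm_num, fun _ => h01⟩
      · show h 1 < h 0 ↔ (1 : ℚ) < 0
        exact ⟨fun h3 => absurd h3 (not_lt.2 h01.le), fun h3 => absurd h3 (by norm_num)⟩
      · show h 1 < h 1 ↔ (1 : ℚ) < 1
        simp
    obtain ⟨e⟩ : Nonempty (Fin n ⊕ Fin n ≃ Fin (n + n)) := ⟨finSumFinEquiv⟩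
    obtain ⟨x', hRx, hxD, hSq⟩ := hmv (n + n)
      (fun i => u (Sum.elim (fun _ => h 0) (fun _ => h 1) (e.symm i))
        (Sum.elim id id (e.symm i)))
      (fun i => u (Sum.elim (fun _ => 0) (fun _ => 1) (e.symm i))
        (Sum.elim id id (e.symm i)))
      (fun i => huN _ _) (fun i => huN _ _) (sq_sub h2 e.symm)
    have h3 := sq_sub hSq (Sum.elim (Sum.elim (fun k => Sum.inr (e (Sum.inl k)))
      (fun k => Sum.inr (e (Sum.inr k)))) (fun k => Sum.inl k) :
        (Fin n ⊕ Fin n) ⊕ Fin 1 → Fin 1 ⊕ Fin (n + n))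
    have h4 : Sq L A (Sum.elim (Sum.elim (u (h 0)) (u (h 1))) (s1 y))
        (Sum.elim (Sum.elim (u 0) (u 1)) (s1 x')) := by
      refine sq_congr h3 ?_ ?_ <;>
      · funext k
        rcases k with (k | k) | k
        · simp only [Sum.elim_inl, Sum.elim_inr, Equiv.symm_apply_apply, id]
        · simp only [Sum.elim_inl, Sum.elim_inr, Equiv.symm_apply_apply, id]
        · rfl
    have h5 := sq_tq (tq_of_sq h4) (by
      rw [ins_eq]
      exact h1)
    rw [ins_eq] at h5
    have hEq : Eg L big A z x' = Eg L big A z y := (hD2 x' hxD y hy).1 hRx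
    have hv0 : u 0 ⟨0, hn⟩ ∈ Eg L big A z x' := by
      rw [hEq]
      exact huE _ _
    have hP := (hR1 x' _ hv0).1
    have h6 := of_pc hC (hG.fin.insert x') (x := u 0 ⟨0, hn⟩) (u := u 0) (u' := u 1) (fun i => by
      rw [← hP, hEq]
      exact huE _ _) h5 (w := s1 y) (fun _ => by
      rw [← hP, hEq]
      exact hR2 y)
    refine sq_mono ?_ h6
    rintro v (rfl | hv)
    · exact Or.inr ⟨0, rfl⟩
    · exact Or.inl (Or.inr hv)
  obtain ⟨g, hg, hg0⟩ := rfd_pos
  have hf : StrictMono (fun q : ℚ => - g (-q)) := fun p q hpq => neg_lt_neg (hg (neg_lt_neg hpq))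
  have hIB := (hIDB L U (Fin n) A u hu).1
  have hM : Mut L A (fun q => u ((fun q : ℚ => - g (-q)) q)) (fun q => u (g q)) := by
    constructor
    · have h1 := hIB (range g) (fun q : ℚ => - g (-q)) hf (by
        rintro _ ⟨s, rfl⟩
        exact Or.inl fun q => by
          have h2 := hg0 s
          have h3 := hg0 (-q)
          show - g (-q) < g s
          linarith)
      intro m i j hi hj
      refine tq_mono ?_ (h1 m i j hi hj)
      refine union_subset_union_right A ?_
      rintro _ ⟨q, -, k, rfl⟩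
      exact ⟨g q, ⟨q, rfl⟩, k, rfl⟩
    · have h1 := hIB (range fun q : ℚ => - g (-q)) g hg (by
        rintro _ ⟨s, rfl⟩
        exact Or.inr fun q => by
          have h2 := hg0 q
          have h3 := hg0 (-s)
          show - g (-s) < g q
          linarith)
      intro m i j hi hj
      refine tq_mono ?_ (h1 m i j hi hj)
      refine union_subset_union_right A ?_
      rintro _ ⟨q, -, k, rfl⟩
      exact ⟨- g (-q), ⟨q, rfl⟩, k, rfl⟩
  rcases hDPM L U hC (Fin n) (Fin n) A _ _ y hG.fin.countable hM with h1 | h1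
  · exact key _ hf h1
  · exact key _ hg h1

end Pool.Agent.TPY
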