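import Pool.Agent.TPY.StR2

/-!
# TPY module RFR (helper31): **FREE**
-/

set_option autoImplicit false
set_option linter.unusedVariables false

namespace Pool.Agent.TPY

open FirstOrder.Language Set
open scoped FirstOrder
open Pool.Agent.WOM (IsEl)
open Pool.Agent.MNO (Dp FE Sq Exa)

theorem thm_RFR (hREG : St_REG) (hRSP : St_RSP) (hRHN : St_RHN) (hRGN : St_RGN) (hRST : St_RST) (hRED : St_RED)
    (hRGE : St_RGE) (hRFA : St_RFA) (hRFC : St_RFC) (hRFD : St_RFD) : St_RFR := by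
  intro L U _ hC A₀ big A z x hG
  by_contra hne
  have hall : ∀ u : ℚ → Fin 1 → U, Idc L A u → (∀ q, Sq L A (s1 x) (u q)) →
      (∀ p q, p ≠ q → big (insert (u p 0) A) (u q 0)) → Tis L A univ (fun q => u q 0) := by
    intro u h1 h2 h3
    by_contra h4
    exact hne ⟨u, h1, h2, h3, h4⟩
  have hst := hRFA L U hC A₀ big A z x hG hall
  have hsp := hRSP L U hC A₀ big A z x hG
  have hed : Edd L A z := by
    refine hRED L U hC A z x hG.fin hG.mem fun B hB hBP => ?_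
    have hΦ : ∀ u : U, ∃ X : Set U, X.Countable ∧ (u ∈ Pc L A z → (Eg L big A z u).Nonempty →
        ∃ s : ℚ → Fin 1 → U, Idc L A s ∧ s 0 0 = u ∧ (∀ q, s q 0 ∈ X) ∧ (∀ q, Sq L A (s1 u) (s q)) ∧
          ∀ p q, p ≠ q → s q 0 ∈ Eg L big A z (s p 0)) := by
      intro u
      by_cases h : u ∈ Pc L A z ∧ (Eg L big A z u).Nonempty
      · obtain ⟨s, h1, h2, h3, h4⟩ := hRFC L U hC A₀ big hG.bg A z u hG.sub hG.fin h.1 h.2
        exact ⟨range (fun q => s q 0), countable_range _, fun _ _ => ⟨s, h1, h2, fun q => ⟨q, rfl⟩, h3, h4⟩⟩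
      · exact ⟨∅, countable_empty, fun h1 h2 => absurd ⟨h1, h2⟩ h⟩
    choose Φ hΦc hΦ using hΦ
    obtain ⟨N, hN, hAN, hBN, hel, hΦN, hLas, -⟩ := hRHN L U hC A B Φ hG.fin hB.countable hΦc
    obtain ⟨y, hy⟩ := hRGN L U hC A x _ _ hst N hN
    have hyD : y ∈ Dz L A z x := hst.sub y hy.1
    have hsub : ∀ v ∈ N, v ∈ Pc L A z → v ∈ Eg L big A z y := by
      refine hRGE L U hC A₀ big A z x hG N (fun u hu huP huE => ?_) y hy
      obtain ⟨s, h1, h2, h3, h4, h5⟩ := hΦ u huP huE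
      exact ⟨s, h1, h2, fun q => hΦN u hu (h3 q), h4, h5⟩
    refine ⟨y, hy.1, fun hyB => ?_, fun n c c' hc hc' hcc => ?_⟩
    · exact (hREG L U hC A₀ big hG.bg A z hG.sub hG.fin).2.1 y (hsub y (hBN hyB) (hBP hyB))
    · exact hRFD L U hC A₀ big A z x hG N y hyD hsub (hRST L U hC A x _ _ hG.fin hst.sub hsp N y hy) hLas n c c'
        (fun i => hBN (hc i)) (fun i => hBP (hc i)) (fun i => hBN (hc' i)) hcc
  exact hG.bg.b1 A z hG.sub hG.fin hed hG.bz

end Pool.Agent.TPY
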