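import Pool.Agent.TPY.StR

/-!
# TPY module RGE (helper72): the big piece of a generic point contains the points of `C`
-/

set_option autoImplicit false
set_option linter.unusedVariables false

namespace Pool.Agent.TPY

open FirstOrder.Language Set
open scoped FirstOrder
open Pool.Agent.WOM (IsEl)
open Pool.Agent.MNO

private theorem rge_fin {U α : Type} [Finite α] (u : ℚ → α → U) {S : Set ℚ} (hS : S.Finite) : (Tm u S).Finite := by
  have e : Tm u S = ⋃ q ∈ S, range (u q) := by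
    ext x
    simp only [mem_iUnion, mem_range, exists_prop]
    constructor
    · rintro ⟨q, hq, k, rfl⟩
      exact ⟨q, hq, k, rfl⟩
    · rintro ⟨q, hq, k, rfl⟩
      exact ⟨q, hq, k, rfl⟩
  rw [e]
  exact hS.biUnion fun q _ => finite_range _

theorem thm_RGE (hREG : St_REG) (hRDG : St_RDG) (hRSP : St_RSP) (hRST : St_RST) (hXPC : St_XPC) : St_RGE := by
  intro L U _ hC A₀ big A z x hG C hCs x' hx' u huC huP
  obtain ⟨r1, r2, r3, r4, r5, r6⟩ := hREG L U hC A₀ big hG.bg A z hG.sub hG.fin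
  obtain ⟨d1, d2, d3, d4, d5⟩ := hRDG L U hC A₀ big A z x hG
  have hxD : x ∈ Dz L A z x := ⟨hG.mem, tq_refl _⟩
  have hxD' : x' ∈ Dz L A z x := d4 x x' hx'.1 hxD
  have hne := d1 x' hxD'
  by_contra hu
  rcases (Eg L big A z u).eq_empty_or_nonempty with hE | hE
  · exact hu (r6 x' u hne hE)
  obtain ⟨s, hs, hs0, hsC, hsq, hsE⟩ := hCs u huC huP hE
  have e1 : ∀ q, s q = fun _ => s q 0 := fun q => funext fun k => by rw [Subsingleton.elim k 0]
  have key : ∀ q, s q 0 ∉ Eg L big A z x' := by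
    intro q hq
    obtain ⟨x'', hR, hxD'', h1⟩ := hRST L U hC A x (Dz L A z x) (Rf L big A z) hG.fin (fun v hv => d4 x v hv hxD)
      (hRSP L U hC A₀ big A z x hG) C x' hx' 1 (fun _ => u) (fun _ => s q 0) (fun _ => huC) (fun _ => hsC q)
      (sq_congr (hsq q) rfl (e1 q).symm)
    have h2 := (d2 x'' hxD'' x' hxD').1 hR
    rw [← h2] at hq
    refine hu (r5 x'' (s q 0) x' u hxD''.1 hxD'.1 ?_ hq)
    have h3 := tq_sub (tq_symm (tq_of_sq h1)) (![Sum.inl 0, Sum.inr 0] : Fin 2 → Fin 1 ⊕ Fin 1)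
    refine tq_congr h3 ?_ ?_
    · funext i
      fin_cases i <;> rfl
    · funext i
      fin_cases i <;> rfl
  obtain ⟨v, hv⟩ := hne
  have hP : ∀ q, s q 0 ∈ Pc L A z := fun q => (bf_inv (pc_bf hC z) (hsq q) 0).1 huP
  obtain ⟨y, hy, hby, h1⟩ := hsE 0 1 (by norm_num)
  refine hXPC L U hC A₀ big hG.bg A z s hG.sub hG.fin hs hP (fun W hW => ⟨v, (r1 x' v hv).2.2, ?_⟩) 0 1 y
    (by norm_num) hy hby h1
  have h2 := (r3 x' v (Tm s W) (rge_fin s hW) hv (by
    rintro w ⟨q, hq, k, rfl⟩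
    rw [Subsingleton.elim k 0]
    exact key q)).1
  exact hG.bg.b4 _ _ _ (hG.sub.trans subset_union_left) (union_subset_union_left _ (subset_insert _ _))
    ((hG.fin.insert _).union (rge_fin s hW)) h2

end Pool.Agent.TPY
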