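import Pool.Agent.TPY.Fr1

/-!
# TPY: equality of types (helper73)
-/

set_option autoImplicit false
set_option linter.unusedVariables false

namespace Pool.Agent.TPY

open FirstOrder.Language Set
open scoped FirstOrder
open Pool.Agent.MNO

section tq

variable {L : FirstOrder.Language.{0, 0}} {U : Type} [L.Structure U] {A B : Set U}

theorem tq_refl {α : Type} (x : α → U) : Tq L A x x := fun _ _ h => h

theorem tq_iff {α : Type} {x y : α → U} (h : Tq L A x y) {P : (α → U) → Prop} (hP : Dp L A P) :
    P x ↔ P y := by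
  refine ⟨h P hP, fun h1 => ?_⟩
  by_contra h2
  exact h _ (dp_not hP) h2 h1

theorem tq_symm {α : Type} {x y : α → U} (h : Tq L A x y) : Tq L A y x :=
  fun _ hP => (tq_iff h hP).2

theorem tq_trans {α : Type} {x y z : α → U} (h : Tq L A x y) (h' : Tq L A y z) : Tq L A x z :=
  fun P hP h1 => h' P hP (h P hP h1)

theorem tq_mono {α : Type} (hAB : A ⊆ B) {x y : α → U} (h : Tq L B x y) : Tq L A x y :=
  fun P hP => h P (dp_mono hAB hP)

theorem tq_sub {α β : Type} {x y : α → U} (h : Tq L A x y) (f : β → α) :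
    Tq L A (fun i => x (f i)) (fun i => y (f i)) := fun P hP => h _ (dp_sub hP f)

theorem tq_of_sq {α : Type} {x y : α → U} (h : Sq L A x y) : Tq L A x y :=
  fun P hP => (sq_dp h hP).1

/-- parameters from `A` may be added -/
theorem tq_add {α β : Type} {x y : α → U} (h : Tq L A x y) (c : β → U) (hc : ∀ i, c i ∈ A) :
    Tq L A (Sum.elim x c) (Sum.elim y c) := fun P hP => h _ (dp_par hP c hc)

/-- parameters become variables -/
theorem tq_fam {α β : Type} {x y : α → U} {c : β → U} :
    Tq L (A ∪ range c) x y ↔ Tq L A (Sum.elim x c) (Sum.elim y c) := by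
  constructor
  · intro h
    exact tq_mono subset_union_left (tq_add h c fun i => Or.inr ⟨i, rfl⟩)
  · intro h P hP
    obtain ⟨Q, hQ, hPQ⟩ := dp_fam hP
    rw [hPQ, hPQ]
    exact h Q hQ

/-- equal tuples -/
theorem tq_par {α : Type} {x y : α → U} (h : Tq L A x y) (i : α) (hi : x i ∈ A) : y i = x i :=
  (tq_iff h (P := fun v => v i = x i) (dp_eqc i hi)).1 rfl

theorem tq_eq {α : Type} {x y : α → U} (h : Tq L A x y) (i j : α) : x i = x j ↔ y i = y j :=
  tq_iff h (dp_eq i j)

end tq

section ext

variable {L : FirstOrder.Language.{0, 0}} {U : Type} [L.Structure U] {A B : Set U}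

/-- extension of equality of types -/
theorem tq_ext (hC : Cz L U) {α β : Type} [Countable α] [Finite β] (hA : A.Countable)
    {u u' : α → U} (h : Tq L A u u') (c : β → U) :
    ∃ c' : β → U, Tq L A (Sum.elim u c) (Sum.elim u' c') := by
  have hB : (A ∪ range u').Countable := hA.union (countable_range _)
  obtain ⟨c', hc'⟩ := sat_dp hC hB (F := {P : (β → U) → Prop | ∃ Q, Dp L A Q ∧ Q (Sum.elim u c) ∧
      P = fun x => Q (Sum.elim u' x)}) (by
      rintro P ⟨Q, hQ, -, rfl⟩
      have h2 := dp_sub (dp_mono (subset_union_left (s := A) (t := range u')) hQ) (Sum.swap : α ⊕ β → β ⊕ α)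
      have h3 := dp_par h2 u' (fun i => Or.inr ⟨i, rfl⟩)
      refine dp_congr h3 fun v => iff_of_eq ?_
      congr 1
      funext i
      rcases i with i | i <;> rfl) (by
      intro G hG hfin
      have h2 : ∀ P : (β → U) → Prop, ∃ Q : (α ⊕ β → U) → Prop, Dp L A Q ∧ Q (Sum.elim u c) ∧
          (P ∈ G → P = fun x => Q (Sum.elim u' x)) := by
        intro P
        by_cases hP : P ∈ G
        · obtain ⟨Q, hQ, hQ', h3⟩ := hG hP
          exact ⟨Q, hQ, hQ', fun _ => h3⟩
        · exact ⟨fun _ => True, dp_true, trivial, fun h => absurd h hP⟩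
      choose q hq hq' hq'' using h2
      obtain ⟨x, hx⟩ := h (fun v => ∃ x : β → U, ∀ P ∈ G, q P (Sum.elim v x))
        (dp_ex (dp_ball hfin fun P _ => hq P)) ⟨c, fun P _ => hq' P⟩
      refine ⟨x, fun P hP => ?_⟩
      rw [hq'' P hP]
      exact hx P hP)
  refine ⟨c', fun Q hQ hx => ?_⟩
  exact hc' _ ⟨Q, hQ, hx, rfl⟩

/-- definable properties depend on finitely many variables -/
theorem dp_ffin {α : Type} {P : (α → U) → Prop} (hP : Dp L A P) :
    ∃ (s : Set α) (_ : s.Finite) (Q : (s → U) → Prop), Dp L A Q ∧ ∀ v, P v ↔ Q (fun i => v i) := by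
  classical
  obtain ⟨φ, hφ⟩ := dp_form hP
  let t : Finset (A ⊕ α) := φ.freeVarFinset
  let s : Set α := {i | Sum.inr i ∈ t}
  have hs : s.Finite := t.finite_toSet.preimage (Sum.inr_injective.injOn)
  let g : t → A ⊕ s := fun x => match x with
    | ⟨Sum.inl a, _⟩ => Sum.inl a
    | ⟨Sum.inr i, hi⟩ => Sum.inr ⟨i, hi⟩
  let ψ : L.Formula (A ⊕ s) := FirstOrder.Language.Formula.relabel g (φ.restrictFreeVar id : L.Formula t)
  refine ⟨s, hs, fun w => ψ.Realize (Sum.elim (fun a : A => (a : U)) w), dp_of_form ψ fun w => Iff.rfl, fun v => ?_⟩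
  rw [hφ]
  show _ ↔ (FirstOrder.Language.Formula.relabel g (φ.restrictFreeVar id : L.Formula t)).Realize _
  rw [FirstOrder.Language.Formula.realize_relabel]
  have e : (Sum.elim (fun a : A => (a : U)) (fun i : s => v i)) ∘ g =
      (Sum.elim (fun a : A => (a : U)) v : A ⊕ α → U) ∘ Subtype.val := by
    funext x
    obtain ⟨x | x, hx⟩ := x <;> rfl
  rw [e]
  symm
  exact FirstOrder.Language.BoundedFormula.realize_restrictFreeVar
    (Sum.elim (fun a : A => (a : U)) v : A ⊕ α → U) (fun a => rfl)

theorem dp_fml {α : Type} (φ : L.Formula α) : Dp L A (fun v : α → U => φ.Realize v) :=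
  dp_of_form (φ.relabel Sum.inr) fun v => by
    rw [FirstOrder.Language.Formula.realize_relabel]
    rfl

theorem tq_congr {α : Type} {x y x' y' : α → U} (h : Tq L A x y) (hx : x' = x) (hy : y' = y) :
    Tq L A x' y' := by
  rw [hx, hy]
  exact h

theorem sq_congr {α : Type} {x y x' y' : α → U} (h : Sq L A x y) (hx : x' = x) (hy : y' = y) :
    Sq L A x' y' := by
  rw [hx, hy]
  exact h

/-- extension of equality of types by countable tuples -/
theorem tq_ext' (hC : Cz L U) {α β : Type} [Countable α] [Countable β] (hA : A.Countable)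
    {u u' : α → U} (h : Tq L A u u') (c : β → U) :
    ∃ c' : β → U, Tq L A (Sum.elim u c) (Sum.elim u' c') := by
  have hB : (A ∪ range u').Countable := hA.union (countable_range _)
  obtain ⟨x0⟩ := hC.ne
  obtain ⟨c', hc'⟩ := sat_dp hC hB (F := {P : (β → U) → Prop | ∃ Q, Dp L A Q ∧ Q (Sum.elim u c) ∧
      P = fun x => Q (Sum.elim u' x)}) (by
      rintro P ⟨Q, hQ, -, rfl⟩
      have h2 := dp_sub (dp_mono (subset_union_left (s := A) (t := range u')) hQ) (Sum.swap : α ⊕ β → β ⊕ α)
      have h3 := dp_par h2 u' (fun i => Or.inr ⟨i, rfl⟩)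
      refine dp_congr h3 fun v => iff_of_eq ?_
      congr 1
      funext i
      rcases i with i | i <;> rfl) (by
      intro G hG hfin
      have h2 : ∀ P : (β → U) → Prop, ∃ Q : (α ⊕ β → U) → Prop, Dp L A Q ∧ Q (Sum.elim u c) ∧
          (P ∈ G → P = fun x => Q (Sum.elim u' x)) := by
        intro P
        by_cases hP : P ∈ G
        · obtain ⟨Q, hQ, hQ', h3⟩ := hG hP
          exact ⟨Q, hQ, hQ', fun _ => h3⟩
        · exact ⟨fun _ => True, dp_true, trivial, fun h => absurd h hP⟩
      choose q hq hq' hq'' using h2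
      obtain ⟨s, hs, R, hR, hqR⟩ := dp_ffin (dp_ball hfin fun P _ => hq P)
      -- the variables in `β`
      have : Finite s := hs
      let sβ : Set β := {j | Sum.inr j ∈ s}
      have hsβ : sβ.Finite := hs.preimage Sum.inr_injective.injOn
      have : Finite sβ := hsβ
      let ext : (α → U) → (sβ → U) → s → U := fun u y k => match k with
        | ⟨Sum.inl i, _⟩ => u i
        | ⟨Sum.inr j, hj⟩ => y ⟨j, hj⟩
      let σ : s → α ⊕ sβ := fun k => match k with
        | ⟨Sum.inl i, _⟩ => Sum.inl i
        | ⟨Sum.inr j, hj⟩ => Sum.inr ⟨j, hj⟩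
      have hext : ∀ u y, (fun k => Sum.elim u y (σ k)) = ext u y := by
        intro u y
        funext k
        obtain ⟨i | j, hk⟩ := k <;> rfl
      have hD : Dp L A (fun v : α ⊕ sβ → U => R (fun k => v (σ k))) := dp_sub hR σ
      obtain ⟨y, hy⟩ := h (fun v => ∃ y : sβ → U, R (fun k => Sum.elim v y (σ k))) (dp_ex hD)
        ⟨fun j => c j, by
          have h3 := (hqR (Sum.elim u c)).1 fun P _ => hq' P
          rw [hext]
          have e : ext u (fun j => c j) = fun k : s => Sum.elim u c k := by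
            funext k
            obtain ⟨i | j, hk⟩ := k <;> rfl
          rw [e]
          exact h3⟩
      classical
      let x : β → U := fun j => if hj : j ∈ sβ then y ⟨j, hj⟩ else x0
      have hx : ∀ P ∈ G, q P (Sum.elim u' x) := by
        refine (hqR _).2 ?_
        have e : (fun k : s => Sum.elim u' x k) = fun k => Sum.elim u' y (σ k) := by
          rw [hext]
          funext k
          obtain ⟨i | j, hk⟩ := k
          · rfl
          · show x j = y ⟨j, hk⟩
            exact dif_pos hk
        rw [e]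
        exact hy
      refine ⟨x, fun P hP => ?_⟩
      rw [hq'' P hP]
      exact hx P hP)
  refine ⟨c', fun Q hQ hx => ?_⟩
  exact hc' _ ⟨Q, hQ, hx, rfl⟩

end ext

end Pool.Agent.TPY
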