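import Pool.Agent.TPY.Fr3
import Pool.Agent.TPY.XUU
import Pool.Agent.TPY.Tq0

/-!
# TPY (port of TPX): strong types and pieces are invariant under equality of types
-/

set_option autoImplicit false
set_option linter.unusedVariables false

namespace Pool.Agent.TPY

open FirstOrder.Language Set
open scoped FirstOrder
open Pool.Agent.MNO

section sq

variable {L : FirstOrder.Language.{0, 0}} {U : Type} [L.Structure U] {A : Set U}

/-- the number of classes of a definable relation -/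
theorem dp_num {α γ : Type} [Finite α] {Q : ((α ⊕ α) ⊕ γ → U) → Prop} (hQ : Dp L A Q) (k : ℕ) :
    Dp L A (fun c : γ → U => ∃ z : Fin (k + 1) × α → U, ∀ p : Fin (k + 1) × Fin (k + 1), p.1 < p.2 →
      ¬ Q (Sum.elim (Sum.elim (fun j => z (p.1, j)) (fun j => z (p.2, j))) c)) := by
  have h1 : Dp L A (fun v : γ ⊕ (Fin (k + 1) × α) → U => ∀ p : Fin (k + 1) × Fin (k + 1), p.1 < p.2 →
      ¬ Q (Sum.elim (Sum.elim (fun j => v (Sum.inr (p.1, j))) (fun j => v (Sum.inr (p.2, j))))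
        (fun i => v (Sum.inl i)))) := by
    refine dp_all_fin fun p => dp_imp (dp_const _) (dp_not ?_)
    refine dp_congr (dp_sub hQ (Sum.elim (Sum.elim (fun j => Sum.inr (p.1, j)) (fun j => Sum.inr (p.2, j)))
      (fun i => Sum.inl i))) fun v => iff_of_eq ?_
    congr 1
    funext i
    rcases i with (i | i) | i <;> rfl
  exact dp_ex h1

/-- strong types are invariant under equality of types -/
theorem sq_tq {α γ : Type} [Finite α] {x y x' y' : α → U} {c c' : γ → U}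
    (h : Tq L A (Sum.elim (Sum.elim x y) c) (Sum.elim (Sum.elim x' y') c'))
    (hs : Sq L (A ∪ range c) x y) : Sq L (A ∪ range c') x' y' := by
  intro E hE
  obtain ⟨k, hk⟩ := fe_num hE
  obtain ⟨Q, hQ, hEQ⟩ := dp_fam hE.dfn
  have hEQ' : ∀ u v, E u v ↔ Q (Sum.elim (Sum.elim u v) c') := fun u v => hEQ (Sum.elim u v)
  have hc : Tq L A c c' := tq_sub h Sum.inr
  have hsub : ∀ {γ' : Type} (f g : α → γ') (e : γ → γ'), Dp L A (fun v : γ' → U =>
      Q (Sum.elim (Sum.elim (fun j => v (f j)) (fun j => v (g j))) (fun i => v (e i)))) := by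
    intro γ' f g e
    refine dp_congr (dp_sub hQ (Sum.elim (Sum.elim f g) e)) fun v => iff_of_eq ?_
    congr 1
    funext j
    rcases j with (j | j) | j <;> rfl
  -- `Q (x, y, c)` is a finite equivalence relation
  have hrefl : ∀ u : α → U, Q (Sum.elim (Sum.elim u u) c) := by
    have h1 := hsub (γ' := γ ⊕ α) Sum.inr Sum.inr Sum.inl
    exact (tq_iff hc (dp_all h1)).2 fun u => (hEQ' u u).1 (hE.eqv.refl u)
  have hsymm : ∀ u v : α → U, Q (Sum.elim (Sum.elim u v) c) → Q (Sum.elim (Sum.elim v u) c) := by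
    have h1 := dp_all (dp_imp (hsub (γ' := γ ⊕ (α ⊕ α)) (fun j => Sum.inr (Sum.inl j))
      (fun j => Sum.inr (Sum.inr j)) Sum.inl) (hsub (γ' := γ ⊕ (α ⊕ α)) (fun j => Sum.inr (Sum.inr j))
      (fun j => Sum.inr (Sum.inl j)) Sum.inl))
    have h2 := (tq_iff hc h1).2 fun w hw => (hEQ' _ _).1 (hE.eqv.symm ((hEQ' _ _).2 hw))
    exact fun u v huv => h2 (Sum.elim u v) huv
  have htrans : ∀ u v w : α → U, Q (Sum.elim (Sum.elim u v) c) → Q (Sum.elim (Sum.elim v w) c) →
      Q (Sum.elim (Sum.elim u w) c) := by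
    have h1 := dp_all (dp_imp (hsub (γ' := γ ⊕ (α ⊕ (α ⊕ α))) (fun j => Sum.inr (Sum.inl j))
      (fun j => Sum.inr (Sum.inr (Sum.inl j))) Sum.inl) (dp_imp
      (hsub (γ' := γ ⊕ (α ⊕ (α ⊕ α))) (fun j => Sum.inr (Sum.inr (Sum.inl j)))
      (fun j => Sum.inr (Sum.inr (Sum.inr j))) Sum.inl)
      (hsub (γ' := γ ⊕ (α ⊕ (α ⊕ α))) (fun j => Sum.inr (Sum.inl j))
      (fun j => Sum.inr (Sum.inr (Sum.inr j))) Sum.inl)))
    have h2 := (tq_iff hc h1).2 fun w hw hw' =>
      (hEQ' _ _).1 (hE.eqv.trans ((hEQ' _ _).2 hw) ((hEQ' _ _).2 hw'))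
    exact fun u v w huv hvw => h2 (Sum.elim u (Sum.elim v w)) huv hvw
  have hFE : FE L (A ∪ range c) (fun u v : α → U => Q (Sum.elim (Sum.elim u v) c)) := by
    refine ⟨?_, ⟨hrefl, fun {u v} h => hsymm u v h, fun {u v w} h h' => htrans u v w h h'⟩, ?_⟩
    · have h1 := dp_par (dp_mono (subset_union_left (s := A) (t := range c)) hQ) c
        (fun i => Or.inr ⟨i, rfl⟩)
      refine dp_congr h1 fun v => iff_of_eq ?_
      congr 1
      congr 1
      funext j
      rcases j with j | j <;> rfl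
    · refine fin_of_num (k := k) hsymm fun z => ?_
      by_contra hz
      push Not at hz
      obtain ⟨z', hz'⟩ := (tq_iff hc (dp_num hQ k)).1 ⟨fun p => z p.1 p.2, fun p hp => hz p.1 p.2 hp⟩
      obtain ⟨a, b, hab, h1⟩ := hk (fun p j => z' (p, j))
      exact hz' (a, b) hab ((hEQ' _ _).1 h1)
  have h3 := hs _ hFE
  exact (hEQ' _ _).2 ((tq_iff h hQ).1 h3)

end sq

/-! ### orthogonality of tuples -/

section ort

variable {L : FirstOrder.Language.{0, 0}} {U : Type} [L.Structure U] {A : Set U}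

variable (L) in
/-- the tuples `u`, `w` are orthogonal over `A` -/
def Ort (A : Set U) {α β : Type} (u : α → U) (w : β → U) : Prop :=
  ∀ u' : α → U, Sq L A u u' → Sq L A (Sum.elim u w) (Sum.elim u' w)

theorem ort_tq (hC : Cz L U) (hA : A.Countable) {α β γ : Type} [Finite α] [Finite β] [Countable γ]
    {u u' : α → U} {w w' : β → U} {c c' : γ → U}
    (h : Tq L A (Sum.elim (Sum.elim u w) c) (Sum.elim (Sum.elim u' w') c'))
    (hs : Ort L (A ∪ range c) u w) : Ort L (A ∪ range c') u' w' := by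
  intro v' hv'
  obtain ⟨v, hv⟩ := tq_ext hC hA (tq_symm h) v'
  -- `((u', w'), c'), v'` and `((u, w), c), v`
  have h1 : Tq L A (Sum.elim (Sum.elim u' v') c') (Sum.elim (Sum.elim u v) c) := by
    have h2 := tq_sub hv (Sum.elim (Sum.elim (fun i => Sum.inl (Sum.inl (Sum.inl i))) Sum.inr)
      (fun i => Sum.inl (Sum.inr i)) : (α ⊕ α) ⊕ γ → (((α ⊕ β) ⊕ γ) ⊕ α))
    have e : ∀ (u : α → U) (w : β → U) (c : γ → U) (v : α → U),
        (fun i => (Sum.elim (Sum.elim (Sum.elim u w) c) v) ((Sum.elim (Sum.elim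
          (fun i => Sum.inl (Sum.inl (Sum.inl i))) Sum.inr)
      (fun i => Sum.inl (Sum.inr i)) : (α ⊕ α) ⊕ γ → (((α ⊕ β) ⊕ γ) ⊕ α)) i)) =
        Sum.elim (Sum.elim u v) c := by
      intro u w c v
      funext i
      rcases i with (i | i) | i <;> rfl
    rw [e, e] at h2
    exact h2
  have h3 : Sq L (A ∪ range c) u v := sq_tq h1 hv'
  have h4 := hs v h3
  have h5 : Tq L A (Sum.elim (Sum.elim (Sum.elim u w) (Sum.elim v w)) c)
      (Sum.elim (Sum.elim (Sum.elim u' w') (Sum.elim v' w')) c') := by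
    have h2 := tq_sub (tq_symm hv) (Sum.elim (Sum.elim (fun i => Sum.inl (Sum.inl i))
      (Sum.elim Sum.inr (fun i => Sum.inl (Sum.inl (Sum.inr i)))))
      (fun i => Sum.inl (Sum.inr i)) : ((α ⊕ β) ⊕ (α ⊕ β)) ⊕ γ → (((α ⊕ β) ⊕ γ) ⊕ α))
    have e : ∀ (u : α → U) (w : β → U) (c : γ → U) (v : α → U),
        (fun i => (Sum.elim (Sum.elim (Sum.elim u w) c) v) ((Sum.elim (Sum.elim (fun i => Sum.inl (Sum.inl i))
      (Sum.elim Sum.inr (fun i => Sum.inl (Sum.inl (Sum.inr i)))))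
      (fun i => Sum.inl (Sum.inr i)) : ((α ⊕ β) ⊕ (α ⊕ β)) ⊕ γ → (((α ⊕ β) ⊕ γ) ⊕ α)) i)) =
        Sum.elim (Sum.elim (Sum.elim u w) (Sum.elim v w)) c := by
      intro u w c v
      funext i
      rcases i with (i | i | i) | i
      · rcases i with i | i <;> rfl
      · rfl
      · rfl
      · rfl
    rw [e, e] at h2
    exact h2
  exact sq_tq h5 h4

end ort

end Pool.Agent.TPY
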