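import Pool.Agent.TPY.StI
import Pool.Agent.TPY.Tqi

/-!
# TPY modules IDS, IDB (helper34): indiscernible sequences and strong types; terms as parameters
-/

set_option autoImplicit false
set_option linter.unusedVariables false

namespace Pool.Agent.TPY

open FirstOrder.Language Set
open scoped FirstOrder
open Pool.Agent.MNO

variable {L : FirstOrder.Language.{0, 0}} {U : Type} [L.Structure U]

theorem sm_append {m n : ℕ} {i : Fin m → ℚ} {j : Fin n → ℚ} (hi : StrictMono i) (hj : StrictMono j)
    (h : ∀ a b, i a < j b) : StrictMono (Fin.append i j) := by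
  intro a b hab
  induction a using Fin.addCases with
  | left a =>
    induction b using Fin.addCases with
    | left b =>
      rw [Fin.append_left, Fin.append_left]
      exact hi (Fin.lt_def.2 (by simpa using Fin.lt_def.1 hab))
    | right b =>
      rw [Fin.append_left, Fin.append_right]
      exact h a b
  | right a =>
    induction b using Fin.addCases with
    | left b =>
      exfalso
      have := Fin.lt_def.1 hab
      simp only [Fin.val_natAdd, Fin.val_castAdd] at this
      have := b.2
      omega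
    | right b =>
      rw [Fin.append_right, Fin.append_right]
      exact hj (Fin.lt_def.2 (by simpa using Fin.lt_def.1 hab))

/-- definable relations between two blocks of an indiscernible sequence -/
theorem idc_rel {α : Type} {A : Set U} {u : ℚ → α → U} (hu : Idc L A u) {m n : ℕ}
    {P : (Fin m × α → U) → (Fin n × α → U) → Prop}
    (hP : Dp L A (fun v : (Fin m × α) ⊕ (Fin n × α) → U => P (fun x => v (Sum.inl x)) (fun x => v (Sum.inr x))))
    {i i' : Fin m → ℚ} {j j' : Fin n → ℚ} (hi : StrictMono i) (hj : StrictMono j) (h : ∀ a b, i a < j b)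
    (hi' : StrictMono i') (hj' : StrictMono j') (h' : ∀ a b, i' a < j' b)
    (h1 : P (tms u i) (tms u j)) : P (tms u i') (tms u j') := by
  have h2 := dp_sub hP (Sum.elim (fun x => (Fin.castAdd n x.1, x.2)) (fun x => (Fin.natAdd m x.1, x.2)) :
    (Fin m × α) ⊕ (Fin n × α) → Fin (m + n) × α)
  have h3 := hu (m + n) (Fin.append i j) (Fin.append i' j') (sm_append hi hj h) (sm_append hi' hj' h') _ h2
  have e1 : ∀ (i : Fin m → ℚ) (j : Fin n → ℚ),
      (fun x : Fin m × α => tms u (Fin.append i j) ((Sum.elim (fun x => (Fin.castAdd n x.1, x.2))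
        (fun x => (Fin.natAdd m x.1, x.2)) : (Fin m × α) ⊕ (Fin n × α) → Fin (m + n) × α) (Sum.inl x))) =
        tms u i := by
    intro i j
    funext x
    show u (Fin.append i j (Fin.castAdd n x.1)) x.2 = u (i x.1) x.2
    rw [Fin.append_left]
  have e2 : ∀ (i : Fin m → ℚ) (j : Fin n → ℚ),
      (fun x : Fin n × α => tms u (Fin.append i j) ((Sum.elim (fun x => (Fin.castAdd n x.1, x.2))
        (fun x => (Fin.natAdd m x.1, x.2)) : (Fin m × α) ⊕ (Fin n × α) → Fin (m + n) × α) (Sum.inr x))) =
        tms u j := by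
    intro i j
    funext x
    show u (Fin.append i j (Fin.natAdd m x.1)) x.2 = u (j x.1) x.2
    rw [Fin.append_right]
  have h4 : P (fun x : Fin m × α => tms u (Fin.append i j) ((Sum.elim (fun x => (Fin.castAdd n x.1, x.2))
        (fun x => (Fin.natAdd m x.1, x.2)) : (Fin m × α) ⊕ (Fin n × α) → Fin (m + n) × α) (Sum.inl x)))
      (fun x : Fin n × α => tms u (Fin.append i j) ((Sum.elim (fun x => (Fin.castAdd n x.1, x.2))
        (fun x => (Fin.natAdd m x.1, x.2)) : (Fin m × α) ⊕ (Fin n × α) → Fin (m + n) × α) (Sum.inr x))) := by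
    rw [e1, e2]
    exact h1
  have h5 : P (fun x : Fin m × α => tms u (Fin.append i' j') ((Sum.elim (fun x => (Fin.castAdd n x.1, x.2))
        (fun x => (Fin.natAdd m x.1, x.2)) : (Fin m × α) ⊕ (Fin n × α) → Fin (m + n) × α) (Sum.inl x)))
      (fun x : Fin n × α => tms u (Fin.append i' j') ((Sum.elim (fun x => (Fin.castAdd n x.1, x.2))
        (fun x => (Fin.natAdd m x.1, x.2)) : (Fin m × α) ⊕ (Fin n × α) → Fin (m + n) × α) (Sum.inr x))) :=
    h3 h4
  rw [e1, e2] at h5
  exact h5

theorem thm_IDS : St_IDS := by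
  intro L U _ hC α _ A u hu n i j hi hj E hE
  -- a bound for all indices
  obtain ⟨M, hM⟩ : ∃ M : ℚ, (∀ a, i a < M) ∧ ∀ a, j a < M := by
    obtain ⟨M, hM⟩ := (Set.finite_range i).bddAbove
    obtain ⟨M', hM'⟩ := (Set.finite_range j).bddAbove
    refine ⟨max M M' + 1, fun a => ?_, fun a => ?_⟩
    · have := hM (mem_range_self a)
      have := le_max_left M M'
      linarith
    · have := hM' (mem_range_self a)
      have := le_max_right M M'
      linarith
  let k : ℕ → Fin n → ℚ := fun l a => M + ((l * n + a : ℕ) : ℚ)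
  have hk : ∀ l, StrictMono (k l) := by
    intro l a b hab
    have h1 : (l * n + a : ℕ) < (l * n + b : ℕ) := by
      have := Fin.lt_def.1 hab
      omega
    have h2 : ((l * n + a : ℕ) : ℚ) < ((l * n + b : ℕ) : ℚ) := by exact_mod_cast h1
    show M + _ < M + _
    linarith
  have hkk : ∀ l l', l < l' → ∀ a b, k l a < k l' b := by
    intro l l' hl a b
    have h1 : (l * n + a : ℕ) < (l' * n + b : ℕ) := by
      have h3 := a.2
      have h4 : (l + 1) * n ≤ l' * n := Nat.mul_le_mul_right n hl
      have h5 : (l + 1) * n = l * n + n := by ring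
      omega
    have h2 : ((l * n + a : ℕ) : ℚ) < ((l' * n + b : ℕ) : ℚ) := by exact_mod_cast h1
    show M + _ < M + _
    linarith
  have hMk : ∀ l a, M ≤ k l a := by
    intro l a
    have h2 : (0 : ℚ) ≤ ((l * n + a : ℕ) : ℚ) := Nat.cast_nonneg _
    show M ≤ M + _
    linarith
  obtain ⟨N, hN⟩ := fe_num hE
  obtain ⟨l, l', hl, hE1⟩ := hN (fun l => tms u (k l))
  have h1 : ∀ i : Fin n → ℚ, StrictMono i → (∀ a, i a < M) → E (tms u i) (tms u (k 0)) := by
    intro i hi hiM
    exact idc_rel hu hE.dfn (hk l) (hk l') (hkk l l' hl) hi (hk 0)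
      (fun a b => lt_of_lt_of_le (hiM a) (hMk 0 b)) hE1
  exact hE.eqv.trans (h1 i hi hM.1) (hE.eqv.symm (h1 j hj hM.2))

end Pool.Agent.TPY
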