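import Pool.Agent.TPY.StR
import Pool.Agent.TPY.IDS

/-!
# TPY/RGN: generic points exist over countable sets
-/

set_option autoImplicit false
set_option linter.unusedVariables false

namespace Pool.Agent.TPY

open FirstOrder.Language Set
open scoped FirstOrder
open Pool.Agent.WOM (IsEl)
open Pool.Agent.MNO

namespace RGNx

/-- finite sets of values have finite sets of preimages -/
theorem pull {ι κ : Type} (f : ι → κ) {G : Set κ} (hG : G.Finite) :
    ∃ F : Set ι, F.Finite ∧ ∀ P ∈ G, (∃ i, P = f i) → ∃ i ∈ F, P = f i := by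
  induction G, hG using Set.Finite.induction_on with
  | empty => exact ⟨∅, finite_empty, fun P hP => absurd hP (notMem_empty _)⟩
  | @insert a s _ _ ih =>
    obtain ⟨F, hF, h⟩ := ih
    by_cases ha : ∃ i, a = f i
    · obtain ⟨i, hi⟩ := ha
      refine ⟨insert i F, hF.insert i, ?_⟩
      rintro P (rfl | hP) hPi
      · exact ⟨i, mem_insert _ _, hi⟩
      · obtain ⟨j, hj, hj'⟩ := h P hP hPi
        exact ⟨j, mem_insert_of_mem _ hj, hj'⟩
    · refine ⟨F, hF, ?_⟩
      rintro P (rfl | hP) hPi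
      · exact absurd hPi ha
      · exact h P hP hPi

theorem mono2 {x y : ℚ} (h : x < y) : StrictMono (![x, y] : Fin 2 → ℚ) := by
  rw [Fin.strictMono_iff_lt_succ]
  intro i
  have : i = 0 := Subsingleton.elim _ _
  subst this
  exact h

section

variable {L : FirstOrder.Language.{0, 0}} {U : Type} [L.Structure U]

theorem dfn (hRDE : St_RDE) (hC : Cz L U) {A D : Set U} {R : U → U → Prop} {n : ℕ}
    {φ : U → (Fin n → U) → Prop} (hA : A.Finite) (hφ : Ivr L A D R φ) {N : Set U} (hN : IsEl L N)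
    (hAN : A ⊆ N) :
    Dp L N (fun v : Fin 1 ⊕ Fin n → U => φ (v (Sum.inl 0)) (fun i => v (Sum.inr i))) := by
  refine (hRDE L U hC (Fin 1 ⊕ Fin n) A _ hA hφ.dfn ?_).2 N hN hAN
  intro x y hxy hx
  refine hφ.inv _ _ _ _ ?_ hx
  refine sq_congr hxy ?_ ?_
  · funext i
    rcases i with i | i
    · have : i = 0 := Subsingleton.elim _ _
      subst this
      rfl
    · rfl
  · funext i
    rcases i with i | i
    · have : i = 0 := Subsingleton.elim _ _
      subst this
      rfl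
    · rfl

theorem dfn1 (hRDE : St_RDE) (hC : Cz L U) {A D : Set U} {R : U → U → Prop} {n : ℕ}
    {φ : U → (Fin n → U) → Prop} (hA : A.Finite) (hφ : Ivr L A D R φ) {N : Set U} (hN : IsEl L N)
    (hAN : A ⊆ N) {c : Fin n → U} (hc : ∀ i, c i ∈ N) :
    Dp L N (fun v : Fin 1 → U => φ (v 0) c) :=
  dp_par (dfn hRDE hC hA hφ hN hAN) c hc

theorem s1_eta (v : Fin 1 → U) : s1 (v 0) = v := by
  funext i
  have : i = 0 := Subsingleton.elim _ _
  subst this
  rfl

variable (L) in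
/-- permutations of `N` which preserve strong types -/
def Hm (A : Set U) {N : Set U} (g : N ≃ N) : Prop :=
  ∀ (m : ℕ) (d : Fin m → N), Sq L A (fun i => (d i : U)) (fun i => (g (d i) : U))

/-- the finite step -/
theorem step (hRDE : St_RDE) (hRF1 : St_RF1) (hRTP : St_RTP) (hC : Cz L U) {A : Set U} {a : U}
    {D : Set U} {R : U → U → Prop} (hS : Stv L A a D R) {N : Set U} (hNc : N.Countable)
    (hAN : A ⊆ N) (hN : IsEl L N)
    (hLas : ∀ (n : ℕ) (c c' : Fin n → U) (R : (Fin n → U) → (Fin n → U) → Prop), (∀ i, c i ∈ N) →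
      (∀ i, c' i ∈ N) → Sq L A c c' → Equivalence R →
      (∀ u : ℚ → Fin n → U, Idc L A u → (∀ q k, u q k ∈ N) → (∀ q, Sq L A c (u q)) → R (u 0) (u 1)) →
      R c c')
    (hHom : ∀ (n : ℕ) (c c' : Fin n → N), Sq L A (fun i => (c i : U)) (fun i => (c' i : U)) →
      ∃ g : N ≃ N, (∀ i, g (c i) = c' i) ∧ Hm L A g)
    (k : ℕ) (n : Fin k → ℕ) (φ : ∀ j : Fin k, U → (Fin (n j) → U) → Prop)
    (hφ : ∀ j, Ivr L A D R (φ j)) :
    ∃ x, Sq L A (s1 a) (s1 x) ∧ ∀ (j : Fin k) (c c' : Fin (n j) → N),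
      Sq L A (fun i => (c i : U)) (fun i => (c' i : U)) →
      φ j x (fun i => (c i : U)) → φ j x (fun i => (c' i : U)) := by
  classical
  have : Countable N := hNc.to_subtype
  have hAc : A.Countable := hS.fin.countable
  let ι := Σ j : Fin k, (Fin (n j) → N)
  let cod : U → Set ι := fun x => {p | φ p.1 x (fun i => (p.2 i : U))}
  let X : Set (Set ι) := {S | ∃ x, Sq L A (s1 a) (s1 x) ∧ S = cod x}
  have hXc : X.Countable := hRF1 L U hC A a D R hS N hNc hN hAN k n φ hφ
  have hXne : X.Nonempty := ⟨cod a, a, sq_refl _ _, rfl⟩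
  -- closed
  have hcl : ∀ T : Set ι, (∀ F : Set ι, F.Finite → ∃ S ∈ X, ∀ i ∈ F, (i ∈ S ↔ i ∈ T)) → T ∈ X := by
    intro T hT
    have hBc : (N ∪ range (s1 a)).Countable := hNc.union (countable_range _)
    obtain ⟨v, hv⟩ := sat_dp (α := Fin 1) hC hBc
      (F := {P | ∃ E, FE L A E ∧ P = fun v => E v (s1 a)} ∪
        {P | ∃ p : ι, P = fun v => (φ p.1 (v 0) (fun i => (p.2 i : U)) ↔ p ∈ T)}) (by
        rintro P (⟨E, hE, rfl⟩ | ⟨p, rfl⟩)
        · exact dp_mono (union_subset_union_left _ hAN) (fe_cls hE (s1 a))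
        · exact dp_iff (dp_mono subset_union_left
            (dfn1 hRDE hC hS.fin (hφ p.1) hN hAN fun i => (p.2 i).2)) (dp_const _)) (by
        intro G hG hfin
        obtain ⟨F, hF, hF'⟩ := pull (fun p : ι => fun v : Fin 1 → U =>
          (φ p.1 (v 0) (fun i => (p.2 i : U)) ↔ p ∈ T)) hfin
        obtain ⟨S, ⟨x, hx, rfl⟩, hS'⟩ := hT F hF
        refine ⟨s1 x, fun P hP => ?_⟩
        rcases hG hP with ⟨E, hE, rfl⟩ | h1
        · exact hE.eqv.symm (hx E hE)
        · obtain ⟨p, hp, rfl⟩ := hF' P hP h1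
          exact hS' p hp)
    refine ⟨v 0, ?_, ?_⟩
    · intro E hE
      rw [s1_eta]
      exact hE.eqv.symm (hv _ (Or.inl ⟨E, hE, rfl⟩))
    · ext p
      exact (hv _ (Or.inr ⟨p, rfl⟩)).symm
  -- the permutations
  let act : (N ≃ N) → (ι ≃ ι) := fun g =>
    Equiv.sigmaCongrRight fun j => Equiv.arrowCongr (Equiv.refl _) g
  have hact : ∀ (g : N ≃ N) (p : ι), act g p = ⟨p.1, fun i => g (p.2 i)⟩ := fun g p => rfl
  let Γ : Set (ι ≃ ι) := {f | ∃ g : N ≃ N, Hm L A g ∧ f = act g}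
  have hsymm : ∀ f ∈ Γ, f.symm ∈ Γ := by
    rintro f ⟨g, hg, rfl⟩
    refine ⟨g.symm, fun m d => ?_, rfl⟩
    have h1 := hg m (fun i => g.symm (d i))
    simp only [Equiv.apply_symm_apply] at h1
    exact sq_symm h1
  have hinv : ∀ S ∈ X, ∀ f ∈ Γ, f ⁻¹' S ∈ X := by
    rintro S ⟨x, hx, rfl⟩ f ⟨g, hg, rfl⟩
    apply hcl
    intro F hF
    have hE : (⋃ p ∈ F, range p.2 : Set N).Finite := hF.biUnion fun p _ => finite_range _
    obtain ⟨m, d, hd⟩ := exists_enum hE
    obtain ⟨x', hx'⟩ := sq_ext hC hAc (sq_symm (hg m d)) (s1 x)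
    refine ⟨cod (x' 0), ⟨x' 0, ?_, rfl⟩, ?_⟩
    · rw [s1_eta]
      exact sq_trans hx (sq_right hx')
    · intro p hp
      have h1 : ∀ i, ∃ t, d t = p.2 i := by
        intro i
        have h2 : p.2 i ∈ (⋃ p ∈ F, range p.2 : Set N) := by
          simp only [mem_iUnion]
          exact ⟨p, hp, i, rfl⟩
        rw [← hd] at h2
        exact h2
      choose τ hτ using h1
      have h3 : Sq L A (Sum.elim (s1 x) (fun i => (g (p.2 i) : U)))
          (Sum.elim (s1 (x' 0)) (fun i => (p.2 i : U))) := by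
        refine sq_congr (sq_sub hx' (Sum.elim Sum.inr (fun i => Sum.inl (τ i)) :
          Fin 1 ⊕ Fin (n p.1) → Fin m ⊕ Fin 1)) ?_ ?_
        · funext i
          rcases i with i | i
          · rfl
          · show (g (p.2 i) : U) = g (d (τ i))
            rw [hτ]
        · funext i
          rcases i with i | i
          · show s1 (x' 0) i = x' i
            rw [s1_eta]
          · show (p.2 i : U) = d (τ i)
            rw [hτ]
      constructor
      · intro h4
        exact (hφ p.1).inv _ _ _ _ (sq_symm h3) h4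
      · intro h4
        exact (hφ p.1).inv _ _ _ _ h3 h4
  obtain ⟨Y, hYX, hYf, ⟨S0, hS0⟩, hYinv⟩ := hRTP ι X Γ hXne hXc hcl hsymm hinv
  obtain ⟨x, hx, hS0x⟩ := hYX hS0
  refine ⟨x, hx, fun j c c' hcc hc => ?_⟩
  let R1 : (Fin (n j) → U) → (Fin (n j) → U) → Prop := fun d d' => d = d' ∨
    ∃ e e' : Fin (n j) → N, (∀ i, (e i : U) = d i) ∧ (∀ i, (e' i : U) = d' i) ∧
      ∀ S ∈ Y, (((⟨j, e⟩ : ι) ∈ S) ↔ ((⟨j, e'⟩ : ι) ∈ S))
  have hR1 : Equivalence R1 := by
    refine ⟨fun d => Or.inl rfl, ?_, ?_⟩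
    · rintro d d' (rfl | ⟨e, e', he, he', h⟩)
      · exact Or.inl rfl
      · exact Or.inr ⟨e', e, he', he, fun S hS => (h S hS).symm⟩
    · rintro d d' d'' (rfl | ⟨e, e', he, he', h⟩) h'
      · exact h'
      · rcases h' with rfl | ⟨e1, e1', he1, he1', h1⟩
        · exact Or.inr ⟨e, e', he, he', h⟩
        · have h2 : e' = e1 := by
            funext i
            exact Subtype.ext ((he' i).trans (he1 i).symm)
          subst h2
          exact Or.inr ⟨e, e1', he, he1', fun S hS => (h S hS).trans (h1 S hS)⟩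
  have h5 : R1 (fun i => (c i : U)) (fun i => (c' i : U)) := by
    refine hLas (n j) _ _ R1 (fun i => (c i).2) (fun i => (c' i).2) hcc hR1 ?_
    intro u hu huN hcu
    let e : ℚ → Fin (n j) → N := fun q i => ⟨u q i, huN q i⟩
    obtain ⟨p, -, q, -, hpq, heq⟩ := (infinite_univ (α := ℕ)).exists_ne_map_eq_of_mapsTo
      (f := fun t : ℕ => {S | S ∈ Y ∧ (⟨j, e (t : ℚ)⟩ : ι) ∈ S}) (t := {Z | Z ⊆ Y})
      (fun t _ => fun S hS => hS.1) hYf.finite_subsets
    have key : ∀ p q : ℕ, p < q →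
        {S | S ∈ Y ∧ (⟨j, e (p : ℚ)⟩ : ι) ∈ S} = {S | S ∈ Y ∧ (⟨j, e (q : ℚ)⟩ : ι) ∈ S} →
        R1 (u 0) (u 1) := by
      intro p q hpq heq
      have hm1 : StrictMono (![(p : ℚ), (q : ℚ)] : Fin 2 → ℚ) :=
        mono2 (by exact_mod_cast hpq)
      have hm2 : StrictMono (![(0 : ℚ), (1 : ℚ)] : Fin 2 → ℚ) := mono2 (by norm_num)
      have h6 := thm_IDS L U hC _ A u hu 2 _ _ hm1 hm2
      obtain ⟨g, hg, hgH⟩ := hHom (n j + n j)
        (fun i => Sum.elim (e p) (e q) (finSumFinEquiv.symm i))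
        (fun i => Sum.elim (e 0) (e 1) (finSumFinEquiv.symm i)) (by
          refine sq_congr (sq_sub h6 (fun i : Fin (n j + n j) =>
            Sum.elim (fun t => ((0 : Fin 2), t)) (fun t => ((1 : Fin 2), t))
              (finSumFinEquiv.symm i))) ?_ ?_
          · funext i
            rcases finSumFinEquiv.symm i with t | t <;> rfl
          · funext i
            rcases finSumFinEquiv.symm i with t | t <;> rfl)
      have hgp : ∀ t, g (e p t) = e 0 t := by
        intro t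
        have h7 := hg (finSumFinEquiv (Sum.inl t))
        rw [Equiv.symm_apply_apply] at h7
        exact h7
      have hgq : ∀ t, g (e q t) = e 1 t := by
        intro t
        have h7 := hg (finSumFinEquiv (Sum.inr t))
        rw [Equiv.symm_apply_apply] at h7
        exact h7
      refine Or.inr ⟨e 0, e 1, fun i => rfl, fun i => rfl, fun S hS => ?_⟩
      have h8 := hYinv S hS (act g) ⟨g, hgH, rfl⟩
      have h9 : (⟨j, e p⟩ : ι) ∈ act g ⁻¹' S ↔ (⟨j, e q⟩ : ι) ∈ act g ⁻¹' S := by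
        have h10 := congrArg (fun Z : Set (Set ι) => (act g ⁻¹' S) ∈ Z) heq
        simp only [mem_ofPred_eq, h8, true_and] at h10
        exact iff_of_eq h10
      have h11 : (⟨j, e p⟩ : ι) ∈ act g ⁻¹' S ↔ (⟨j, e 0⟩ : ι) ∈ S := by
        rw [mem_preimage, hact]
        have : (fun i => g (e p i)) = e 0 := funext hgp
        rw [this]
      have h12 : (⟨j, e q⟩ : ι) ∈ act g ⁻¹' S ↔ (⟨j, e 1⟩ : ι) ∈ S := by
        rw [mem_preimage, hact]
        have : (fun i => g (e q i)) = e 1 := funext hgq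
        rw [this]
      exact h11.symm.trans (h9.trans h12)
    rcases lt_or_gt_of_ne hpq with h | h
    · exact key p q h heq
    · exact key q p h heq.symm
  rcases h5 with h5 | ⟨e, e', he, he', h⟩
  · rw [← h5]
    exact hc
  · have h1 : e = c := by
      funext i
      exact Subtype.ext (he i)
    have h2 : e' = c' := by
      funext i
      exact Subtype.ext (he' i)
    subst h1
    subst h2
    have h3 := (h S0 hS0).1 (by rw [hS0x]; exact hc)
    rw [hS0x] at h3
    exact h3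

end

end RGNx

theorem thm_RGN (hRDE : St_RDE) (hRHN : St_RHN) (hRF1 : St_RF1) (hRTP : St_RTP) : St_RGN := by
  intro L U _ hC A a D R hS C hCc
  obtain ⟨N, hNc, hAN, hCN, hN, -, hLas, hHom⟩ := hRHN L U hC A C (fun _ => ∅) hS.fin hCc
    (fun _ => countable_empty)
  have hBc : (N ∪ range (s1 a)).Countable := hNc.union (countable_range _)
  have htriv : Ivr L A D R (fun (_ : U) (_ : Fin 0 → U) => True) :=
    ⟨dp_true, fun _ _ _ _ _ _ => trivial, fun _ _ _ _ _ _ _ => trivial⟩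
  obtain ⟨v, hv⟩ := sat_dp (α := Fin 1) hC hBc
    (F := {P | ∃ E, FE L A E ∧ P = fun v => E v (s1 a)} ∪
      {P | ∃ (n : ℕ) (φ : U → (Fin n → U) → Prop), Ivr L A D R φ ∧ ∃ c c' : Fin n → N,
        Sq L A (fun i => (c i : U)) (fun i => (c' i : U)) ∧
        P = fun v => φ (v 0) (fun i => (c i : U)) → φ (v 0) (fun i => (c' i : U))}) (by
      rintro P (⟨E, hE, rfl⟩ | ⟨n, φ, hφ, c, c', -, rfl⟩)
      · exact dp_mono (union_subset_union_left _ hAN) (fe_cls hE (s1 a))
      · exact dp_mono subset_union_left (dp_imp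
          (RGNx.dfn1 hRDE hC hS.fin hφ hN hAN fun i => (c i).2)
          (RGNx.dfn1 hRDE hC hS.fin hφ hN hAN fun i => (c' i).2))) (by
      intro G hG hfin
      obtain ⟨k, z, hz⟩ := exists_enum hfin
      have h1 : ∀ j : Fin k, ∃ (n : ℕ) (φ : U → (Fin n → U) → Prop), Ivr L A D R φ ∧
          ((∃ E, FE L A E ∧ z j = fun v => E v (s1 a)) ∨ ∃ c c' : Fin n → N,
            Sq L A (fun i => (c i : U)) (fun i => (c' i : U)) ∧
            z j = fun v => φ (v 0) (fun i => (c i : U)) → φ (v 0) (fun i => (c' i : U))) := by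
        intro j
        have h2 : z j ∈ G := by
          rw [← hz]
          exact ⟨j, rfl⟩
        rcases hG h2 with h3 | ⟨n, φ, hφ, c, c', h4, h5⟩
        · exact ⟨0, _, htriv, Or.inl h3⟩
        · exact ⟨n, φ, hφ, Or.inr ⟨c, c', h4, h5⟩⟩
      choose n φ hφ h2 using h1
      obtain ⟨x, hx, hx'⟩ := RGNx.step hRDE hRF1 hRTP hC hS hNc hAN hN hLas hHom k n φ hφ
      refine ⟨s1 x, fun P hP => ?_⟩
      rw [← hz] at hP
      obtain ⟨j, rfl⟩ := hP
      rcases h2 j with ⟨E, hE, h3⟩ | ⟨c, c', h3, h4⟩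
      · rw [h3]
        exact hE.eqv.symm (hx E hE)
      · rw [h4]
        exact hx' j c c' h3)
  refine ⟨v 0, ?_, ?_⟩
  · intro E hE
    rw [RGNx.s1_eta]
    exact hE.eqv.symm (hv _ (Or.inl ⟨E, hE, rfl⟩))
  · intro n φ hφ c c' hc hc' hcc
    exact hv _ (Or.inr ⟨n, φ, hφ, fun i => ⟨c i, hCN (hc i)⟩, fun i => ⟨c' i, hCN (hc' i)⟩, hcc, rfl⟩)

end Pool.Agent.TPY
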