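import Pool.Agent.TPY.StR
import Pool.Agent.TPY.GBA
import Pool.Agent.MNO.STG

/-!
# TPY module RHN (helper31): countable homogeneous elementary submodels closed under Lascar chains
-/

set_option autoImplicit false
set_option linter.unusedVariables false

namespace Pool.Agent.TPY

open FirstOrder.Language Set
open scoped FirstOrder
open Pool.Agent.WOM (IsEl)
open Pool.Agent.MNO

/-- closure of a countable set under a countable operator -/
theorem rhn_clo {U : Type} (g : Set U → Set U) (h1 : ∀ D : Set U, D.Countable → (g D).Countable)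
    (h2 : ∀ D, D ⊆ g D) {B : Set U} (hB : B.Countable) :
    ∃ N : Set U, B ⊆ N ∧ N.Countable ∧ ∀ B' : Set U, B'.Finite → B' ⊆ N →
      ∃ D : Set U, D.Countable ∧ B' ⊆ D ∧ g D ⊆ N := by
  let D : ℕ → Set U := fun n => g^[n] B
  have e : ∀ n, D (n + 1) = g (D n) := fun n => Function.iterate_succ_apply' g n B
  have hD : ∀ n, (D n).Countable := by
    intro n
    induction n with
    | zero => exact hB
    | succ n ih =>
      rw [e]
      exact h1 _ ih
  have hDs : ∀ n, D n ⊆ D (n + 1) := by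
    intro n
    rw [e]
    exact h2 _
  have hmono : Monotone D := monotone_nat_of_le_succ hDs
  refine ⟨⋃ n, D n, fun x hx => mem_iUnion.2 ⟨0, hx⟩, countable_iUnion hD, ?_⟩
  intro B' hB' hB'N
  obtain ⟨n, hn⟩ : ∃ n, B' ⊆ D n := by
    have h3 : ∀ x ∈ B', ∃ n, x ∈ D n := fun x hx => mem_iUnion.1 (hB'N hx)
    choose! m hm using h3
    obtain ⟨N, hN⟩ := (hB'.image m).bddAbove
    exact ⟨N, fun x hx => hmono (hN ⟨x, hx, rfl⟩) (hm x hx)⟩
  refine ⟨D n, hD n, hn, ?_⟩
  rw [← e]
  exact subset_iUnion D (n + 1)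

section chain

variable {L : FirstOrder.Language.{0, 0}} {U : Type} [L.Structure U] {A : Set U}

/-- one step of a Lascar chain -/
def Rsp (L : FirstOrder.Language.{0, 0}) {U : Type} [L.Structure U] (A : Set U) {α : Type} (c x y : α → U) : Prop :=
  ∃ u : ℚ → α → U, Idc L A u ∧ (∀ q, Sq L A c (u q)) ∧ u 0 = x ∧ u 1 = y

theorem rsp_mv (hC : Cz L U) (hA : A.Finite) {α : Type} [Finite α] {c x y x' y' : α → U} (h : Rsp L A c x y)
    (h' : Sq L A (Sum.elim x y) (Sum.elim x' y')) : Rsp L A c x' y' := by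
  obtain ⟨u, hu, hc, rfl, rfl⟩ := h
  obtain ⟨w', hw'⟩ := sqc_ext hC hA.countable h' (fun p : ℚ × α => u p.1 p.2)
  have h1 : ∀ {κ : Type} [Finite κ] (f : κ → ℚ × α), Sq L A (fun k => u (f k).1 (f k).2) (fun k => w' (f k)) :=
    fun f => cpc_sq0 hw' f
  have h0 : ∀ k, w' (0, k) = x' k := by
    intro k
    have h2 := tq_of_sq (cpc_sq hw' (fun _ : Fin 1 => ((0 : ℚ), k)))
    exact ((tq_eq h2 (Sum.inr 0) (Sum.inl (Sum.inl k))).1 rfl)
  have h01 : ∀ k, w' (1, k) = y' k := by
    intro k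
    have h2 := tq_of_sq (cpc_sq hw' (fun _ : Fin 1 => ((1 : ℚ), k)))
    exact ((tq_eq h2 (Sum.inr 0) (Sum.inl (Sum.inr k))).1 rfl)
  refine ⟨fun q k => w' (q, k), ?_, ?_, funext h0, funext h01⟩
  · intro n i j hi hj
    have h2 := tq_of_sq (h1 (fun p : Fin n × α => (i p.1, p.2)))
    have h3 := tq_of_sq (h1 (fun p : Fin n × α => (j p.1, p.2)))
    exact tq_trans (tq_symm h2) (tq_trans (hu n i j hi hj) h3)
  · intro q
    exact sq_trans (hc q) (h1 (fun k : α => (q, k)))

theorem rsp_gen_mv (hC : Cz L U) (hA : A.Finite) {α : Type} [Finite α] {c x y : α → U}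
    (h : Relation.EqvGen (Rsp L A c) x y) : ∀ x' y', Sq L A (Sum.elim x y) (Sum.elim x' y') →
    Relation.EqvGen (Rsp L A c) x' y' := by
  induction h with
  | rel x y h => exact fun x' y' h' => Relation.EqvGen.rel _ _ (rsp_mv hC hA h h')
  | refl x =>
    intro x' y' h'
    have e : x' = y' := by
      funext k
      exact (tq_eq (tq_of_sq h') (Sum.inl k) (Sum.inr k)).1 rfl
    rw [e]
    exact Relation.EqvGen.refl _
  | symm x y h ih =>
    intro x' y' h'
    exact Relation.EqvGen.symm _ _ (ih y' x' (sq_swap h'))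
  | trans x y z h1 h2 ih1 ih2 =>
    intro x' z' h'
    obtain ⟨y', hy'⟩ := sq_ext hC hA.countable h' y
    refine Relation.EqvGen.trans _ y' _ (ih1 x' y' ?_) (ih2 y' z' ?_)
    · have h3 := sq_sub hy' (Sum.elim (fun k => Sum.inl (Sum.inl k)) Sum.inr : α ⊕ α → (α ⊕ α) ⊕ α)
      refine sq_congr h3 ?_ ?_ <;>
      · funext k
        rcases k with k | k <;> rfl
    · have h3 := sq_sub hy' (Sum.elim Sum.inr (fun k => Sum.inl (Sum.inr k)) : α ⊕ α → (α ⊕ α) ⊕ α)
      refine sq_congr h3 ?_ ?_ <;>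
      · funext k
        rcases k with k | k <;> rfl

/-- all tuples of one strong type are connected by Lascar chains -/
theorem rsp_all (hBNI : St_BNI) (hC : Cz L U) (hA : A.Finite) {α : Type} [Finite α] {c x y : α → U}
    (hx : Sq L A c x) (hy : Sq L A c y) : Relation.EqvGen (Rsp L A c) x y := by
  by_contra hne
  obtain ⟨u, hu, huc, hud⟩ := hBNI L U hC α A c (Relation.EqvGen (Rsp L A c)) hA
    (fun x _ => Relation.EqvGen.refl x) (fun x y _ _ h => Relation.EqvGen.symm _ _ h)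
    (fun x y z _ _ _ h h' => Relation.EqvGen.trans _ _ _ h h')
    (fun x y x' y' _ _ h h' => rsp_gen_mv hC hA h' x' y' h) ⟨x, y, hx, hy, hne⟩
  exact hud 0 1 (by norm_num) (Relation.EqvGen.rel _ _ ⟨u, hu, huc, rfl, rfl⟩)

/-- the countable set of all entries of a chain -/
theorem rsp_cnt {α : Type} [Countable α] {c x y : α → U} (h : Relation.EqvGen (Rsp L A c) x y) :
    ∃ X : Set U, X.Countable ∧ ∀ N : Set U, X ⊆ N → ∀ R : (α → U) → (α → U) → Prop, Equivalence R →
      (∀ u : ℚ → α → U, Idc L A u → (∀ q k, u q k ∈ N) → (∀ q, Sq L A c (u q)) → R (u 0) (u 1)) → R x y := by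
  induction h with
  | rel x y h =>
    obtain ⟨u, hu, huc, rfl, rfl⟩ := h
    refine ⟨range (fun p : ℚ × α => u p.1 p.2), countable_range _, fun N hN R _ hR => ?_⟩
    exact hR u hu (fun q k => hN ⟨(q, k), rfl⟩) huc
  | refl x => exact ⟨∅, countable_empty, fun N _ R hR _ => hR.refl x⟩
  | symm x y h ih =>
    obtain ⟨X, hX, hX'⟩ := ih
    exact ⟨X, hX, fun N hN R hR h => hR.symm (hX' N hN R hR h)⟩
  | trans x y z h1 h2 ih1 ih2 =>
    obtain ⟨X, hX, hX'⟩ := ih1
    obtain ⟨Y, hY, hY'⟩ := ih2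
    exact ⟨X ∪ Y, hX.union hY, fun N hN R hR h => hR.trans (hX' N (subset_union_left.trans hN) R hR h)
      (hY' N (subset_union_right.trans hN) R hR h)⟩

end chain

theorem thm_RHN (hBNI : St_BNI) : St_RHN := by
  classical
  intro L U _ hC A C Φ hA hCc hΦ
  obtain ⟨u0⟩ := hC.ne
  -- choices
  have hf : ∀ P : (Fin 1 → U) → Prop, ∃ x : U, (∃ x, P x) → P (s1 x) := by
    intro P
    by_cases h : ∃ x, P x
    · obtain ⟨x, hx⟩ := h
      refine ⟨x 0, fun _ => ?_⟩
      have e : s1 (x 0) = x := by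
        funext i
        fin_cases i
        rfl
      rw [e]
      exact hx
    · exact ⟨u0, fun h' => absurd h' h⟩
  choose f hf using hf
  have hW : ∀ (n : ℕ) (c c' : Fin n → U) (d : U), ∃ d' : U, Sq L A c c' →
      Sq L A (Sum.elim c (s1 d)) (Sum.elim c' (s1 d')) := by
    intro n c c' d
    by_cases h : Sq L A c c'
    · obtain ⟨d', hd'⟩ := sq_ext hC hA.countable h (s1 d)
      refine ⟨d' 0, fun _ => ?_⟩
      have e : s1 (d' 0) = d' := by
        funext i
        fin_cases i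
        rfl
      rw [e]
      exact hd'
    · exact ⟨u0, fun h' => absurd h' h⟩
  choose W hW using hW
  have hX : ∀ (n : ℕ) (c c' : Fin n → U), ∃ X : Set U, X.Countable ∧ (Sq L A c c' →
      ∀ N : Set U, X ⊆ N → ∀ R : (Fin n → U) → (Fin n → U) → Prop, Equivalence R →
      (∀ u : ℚ → Fin n → U, Idc L A u → (∀ q k, u q k ∈ N) → (∀ q, Sq L A c (u q)) → R (u 0) (u 1)) → R c c') := by
    intro n c c'
    by_cases h : Sq L A c c'
    · obtain ⟨X, hX, hX'⟩ := rsp_cnt (rsp_all hBNI hC hA (sq_refl A c) h)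
      exact ⟨X, hX, fun _ => hX'⟩
    · exact ⟨∅, countable_empty, fun h' => absurd h' h⟩
  choose X hXc hX using hX
  let T : Set U → (n : ℕ) → Set (Fin n → U) := fun D n => {c | ∀ i, c i ∈ D}
  have hT : ∀ D : Set U, D.Countable → ∀ n, (T D n).Countable := fun D hD n =>
    Set.countable_pi (fun _ => hD)
  let g : Set U → Set U := fun D => D ∪ (⋃ P ∈ {P : (Fin 1 → U) → Prop | Dp L D P}, {f P}) ∪ (⋃ u ∈ D, Φ u) ∪
    ⋃ n : ℕ, ⋃ c ∈ T D n, ⋃ c' ∈ T D n, (X n c c' ∪ ⋃ d ∈ D, {W n c c' d})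
  have hg1 : ∀ D : Set U, D.Countable → (g D).Countable := by
    intro D hD
    refine ((hD.union ((dp_cnt hC hD).biUnion fun P _ => countable_singleton _)).union
      (hD.biUnion fun u _ => hΦ u)).union (countable_iUnion fun n => (hT D hD n).biUnion fun c _ =>
        (hT D hD n).biUnion fun c' _ => (hXc n c c').union (hD.biUnion fun d _ => countable_singleton _))
  have hg2 : ∀ D, D ⊆ g D := fun D x hx => Or.inl (Or.inl (Or.inl hx))
  obtain ⟨N, hBN, hN, hcl⟩ := rhn_clo g hg1 hg2 (hA.countable.union hCc)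
  have hgf : ∀ D (P : (Fin 1 → U) → Prop), Dp L D P → f P ∈ g D := fun D P hP =>
    Or.inl (Or.inl (Or.inr (mem_biUnion (show P ∈ {P : (Fin 1 → U) → Prop | Dp L D P} from hP) rfl)))
  have hgX : ∀ D n (c c' : Fin n → U), c ∈ T D n → c' ∈ T D n → X n c c' ⊆ g D := by
    intro D n c c' hc hc' x hx
    exact Or.inr (mem_iUnion.2 ⟨n, mem_biUnion hc (mem_biUnion hc' (Or.inl hx))⟩)
  have hgW : ∀ D n (c c' : Fin n → U) (d : U), c ∈ T D n → c' ∈ T D n → d ∈ D → W n c c' d ∈ g D := by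
    intro D n c c' d hc hc' hd
    exact Or.inr (mem_iUnion.2 ⟨n, mem_biUnion hc (mem_biUnion hc' (Or.inr (mem_biUnion hd rfl)))⟩)
  -- homogeneity, one step
  have hom : ∀ (n : ℕ) (c c' : Fin n → U) (d : U), (∀ i, c i ∈ N) → (∀ i, c' i ∈ N) → d ∈ N → Sq L A c c' →
      ∃ d' ∈ N, Sq L A (Sum.elim c (s1 d)) (Sum.elim c' (s1 d')) := by
    intro n c c' d hc hc' hd h
    obtain ⟨D, hD, hB', hgD⟩ := hcl (range c ∪ range c' ∪ {d})
      (((finite_range c).union (finite_range c')).union (finite_singleton d)) (by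
        rintro x ((⟨i, rfl⟩ | ⟨i, rfl⟩) | rfl)
        · exact hc i
        · exact hc' i
        · exact hd)
    refine ⟨W n c c' d, hgD (hgW D n c c' d (fun i => hB' (Or.inl (Or.inl ⟨i, rfl⟩)))
      (fun i => hB' (Or.inl (Or.inr ⟨i, rfl⟩))) (hB' (Or.inr rfl))), hW n c c' d h⟩
  have hel : IsEl L N := by
    intro s hs hne
    have h1 : Dp L N (fun v : Fin 1 → U => v 0 ∈ s) := hs
    obtain ⟨B', hB'f, hB'N, hPB⟩ := dp_fin h1
    obtain ⟨D, hD, hB', hgD⟩ := hcl B' hB'f hB'N
    obtain ⟨y, hy⟩ := hne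
    refine ⟨f (fun v : Fin 1 → U => v 0 ∈ s), ?_, hgD (hgf D _ (dp_mono hB' hPB))⟩
    exact hf (fun v : Fin 1 → U => v 0 ∈ s) ⟨s1 y, hy⟩
  refine ⟨N, hN, subset_union_left.trans hBN, subset_union_right.trans hBN, hel, ?_, ?_, ?_⟩
  · intro u hu x hx
    obtain ⟨D, hD, hB', hgD⟩ := hcl {u} (finite_singleton u) (by rintro _ rfl; exact hu)
    exact hgD (Or.inl (Or.inr (mem_biUnion (hB' rfl) hx)))
  · intro n c c' R hc hc' hcc hR h
    obtain ⟨D, hD, hB', hgD⟩ := hcl (range c ∪ range c') ((finite_range c).union (finite_range c')) (by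
        rintro x (⟨i, rfl⟩ | ⟨i, rfl⟩)
        · exact hc i
        · exact hc' i)
    exact hX n c c' hcc N ((hgX D n c c' (fun i => hB' (Or.inl ⟨i, rfl⟩))
      (fun i => hB' (Or.inr ⟨i, rfl⟩))).trans hgD) R hR h
  · intro n c c' hcc
    have hNc : Countable N := hN.to_subtype
    have hNn : Nonempty N := by
      obtain ⟨y, -, hy⟩ := hel univ (by
        have h1 : Dp L N (fun v : Fin 1 → U => True) := dp_true
        exact h1) ⟨u0, trivial⟩
      exact ⟨⟨y, hy⟩⟩
    let P : Set (N × N) → Prop := fun s => ∀ (m : ℕ) (h : Fin m → N × N), (∀ i, h i ∈ s) →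
      Sq L A (fun i => ((h i).1 : U)) (fun i => ((h i).2 : U))
    -- extension in one direction for tuples
    have ext1 : ∀ (m : ℕ) (a b : Fin m → N), Sq L A (fun i => (a i : U)) (fun i => (b i : U)) → ∀ x : N,
        ∃ y : N, Sq L A (Sum.elim (fun i => (a i : U)) (s1 (x : U))) (Sum.elim (fun i => (b i : U)) (s1 (y : U))) := by
      intro m a b h x
      obtain ⟨d', hd', h'⟩ := hom m _ _ x (fun i => (a i).2) (fun i => (b i).2) x.2 h
      exact ⟨⟨d', hd'⟩, h'⟩
    have hP : ∀ (s : Set (N × N)) (m : ℕ) (h : Fin m → N × N), range h = s → ∀ (x y : N),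
        Sq L A (Sum.elim (fun i => ((h i).1 : U)) (s1 (x : U))) (Sum.elim (fun i => ((h i).2 : U)) (s1 (y : U))) →
        P (insert (x, y) s) := by
      intro s m h hs x y hxy k t ht
      have h1 : ∀ i, ∃ j : Fin m ⊕ Fin 1, t i = Sum.elim h (fun _ => (x, y)) j := by
        intro i
        rcases ht i with h2 | h2
        · exact ⟨Sum.inr 0, h2⟩
        · rw [← hs] at h2
          obtain ⟨j, hj⟩ := h2
          exact ⟨Sum.inl j, hj.symm⟩
      choose φ hφ using h1
      have h2 := sq_sub hxy φ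
      refine sq_congr h2 ?_ ?_
      · funext i
        rw [hφ i]
        rcases φ i with j | j <;> rfl
      · funext i
        rw [hφ i]
        rcases φ i with j | j <;> rfl
    obtain ⟨e, he1, he2⟩ := STG.baf (U := N) P (fun s t hs hts m h ht => hs m h fun i => hts (ht i))
      (s0 := range fun i => (c i, c' i)) (finite_range _) (by
        intro m h hh
        choose φ hφ using hh
        have h2 := sq_sub hcc φ
        refine sq_congr h2 ?_ ?_
        · funext i
          rw [← hφ i]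
        · funext i
          rw [← hφ i]) (by
        intro s hs hPs x
        obtain ⟨m, h, hh⟩ := exists_enum hs
        have h1 := hPs m h (fun i => by rw [← hh]; exact ⟨i, rfl⟩)
        obtain ⟨y, hy⟩ := ext1 m (fun i => (h i).1) (fun i => (h i).2) h1 x
        exact ⟨y, hP s m h hh x y hy⟩) (by
        intro s hs hPs y
        obtain ⟨m, h, hh⟩ := exists_enum hs
        have h1 := hPs m h (fun i => by rw [← hh]; exact ⟨i, rfl⟩)
        obtain ⟨x, hx⟩ := ext1 m (fun i => (h i).2) (fun i => (h i).1) (sq_symm h1) y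
        exact ⟨x, hP s m h hh x y (sq_symm hx)⟩) (by
        intro s hs hPs a ha b hb
        have h1 := hPs 2 ![a, b] (by
          intro i
          fin_cases i
          · exact ha
          · exact hb)
        have h2 := tq_eq (tq_of_sq h1) 0 1
        have h3 : ((a.1 : U) = (b.1 : U)) ↔ ((a.2 : U) = (b.2 : U)) := h2
        rw [Subtype.coe_inj, Subtype.coe_inj] at h3
        exact h3)
    refine ⟨e, fun i => he1 _ ⟨i, rfl⟩, fun m d => ?_⟩
    have h1 := he2 (range d) (finite_range d) m (fun i => (d i, e (d i))) (fun i => ⟨d i, ⟨i, rfl⟩, rfl⟩)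
    exact h1

end Pool.Agent.TPY
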