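import Pool.Agent.TPY.StR

/-!
# TPY/RIS: isolated types are dense (helper79)
-/

set_option autoImplicit false
set_option linter.unusedVariables false

namespace Pool.Agent.TPY

open FirstOrder.Language Set
open scoped FirstOrder
open Pool.Agent.MNO

section

variable {L : FirstOrder.Language.{0, 0}} {U : Type} [L.Structure U]

/-- over a finite set there are countably many types of elements -/
theorem ris_cnt (hC : Cz L U) {A : Set U} (hA : A.Finite) :
    ∃ S : Set (Fin 1 → U), S.Countable ∧ ∀ x, ∃ y ∈ S, Tq L A x y := by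
  obtain ⟨n, a, rfl⟩ := exists_enum hA
  obtain ⟨s, hs, hs'⟩ := hC.sml (1 + n)
  have h1 : ∀ y : Fin (1 + n) → U, ∃ x : Fin 1 → U,
      (∃ x' : Fin 1 → U, Tq L (∅ : Set U) (fun i => Sum.elim x' a (finSumFinEquiv.symm i)) y) →
      Tq L (∅ : Set U) (fun i => Sum.elim x a (finSumFinEquiv.symm i)) y := by
    intro y
    by_cases h : ∃ x' : Fin 1 → U, Tq L (∅ : Set U) (fun i => Sum.elim x' a (finSumFinEquiv.symm i)) y
    · obtain ⟨x, hx⟩ := h
      exact ⟨x, fun _ => hx⟩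
    · exact ⟨fun _ => y (Fin.castAdd n 0), fun h' => absurd h' h⟩
  choose g hg using h1
  refine ⟨g '' s, hs.image g, fun x => ?_⟩
  obtain ⟨y, hy, hxy⟩ := hs' (fun i => Sum.elim x a (finSumFinEquiv.symm i))
  refine ⟨g y, mem_image_of_mem g hy, ?_⟩
  have h2 := tq_trans hxy (tq_symm (hg y ⟨x, hxy⟩))
  have h3 := tq_sub h2 (finSumFinEquiv : Fin 1 ⊕ Fin n → Fin (1 + n))
  have h4 : Tq L (∅ : Set U) (Sum.elim x a) (Sum.elim (g y) a) := by
    refine tq_congr h3 ?_ ?_ <;> · funext i; simp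
  have h5 := tq_fam.2 h4
  rwa [empty_union] at h5

end

theorem thm_RIS : St_RIS := by
  intro L U _ hC A W hA hW hne
  by_contra hcon
  have hni : ∀ y : Fin 1 → U, W y → ∀ P : (Fin 1 → U) → Prop, Dp L A P → P y →
      ∃ v, P v ∧ ¬ Tq L A y v := by
    intro y hy P hP hPy
    by_contra h
    have e : s1 (y 0) = y := by
      funext i
      exact congrArg y (Subsingleton.elim 0 i)
    refine hcon ⟨y 0, by rw [e]; exact hy, P, hP, by rw [e]; exact hPy, fun v hv => ?_⟩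
    rw [e]
    by_contra h'
    exact h ⟨v, hv, h'⟩
  obtain ⟨S, hS, hS'⟩ := ris_cnt hC hA
  have hSne : S.Nonempty := by
    obtain ⟨x, _⟩ := hne
    obtain ⟨y, hy, _⟩ := hS' x
    exact ⟨y, hy⟩
  obtain ⟨f, rfl⟩ := hS.exists_eq_range hSne
  have step : ∀ (y : Fin 1 → U) (P : {P : (Fin 1 → U) → Prop // Dp L A P ∧ (∀ x, P x → W x) ∧ ∃ x, P x}),
      ∃ Q : {P : (Fin 1 → U) → Prop // Dp L A P ∧ (∀ x, P x → W x) ∧ ∃ x, P x},
        (∀ x, Q.1 x → P.1 x) ∧ ¬ Q.1 y := by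
    rintro y ⟨P, hP, hPW, hPne⟩
    by_cases hy : P y
    · obtain ⟨v, hv, hv'⟩ := hni y (hPW y hy) P hP hy
      have h1 : ∃ R : (Fin 1 → U) → Prop, Dp L A R ∧ R y ∧ ¬ R v := by
        by_contra h
        refine hv' fun R hR hRy => ?_
        by_contra h'
        exact h ⟨R, hR, hRy, h'⟩
      obtain ⟨R, hR, hRy, hRv⟩ := h1
      exact ⟨⟨fun x => P x ∧ ¬ R x, dp_and hP (dp_not hR), fun x hx => hPW x hx.1, v, hv, hRv⟩,
        fun x hx => hx.1, fun h => h.2 hRy⟩
    · exact ⟨⟨P, hP, hPW, hPne⟩, fun x hx => hx, hy⟩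
  choose nx hnx1 hnx2 using step
  let q : ℕ → {P : (Fin 1 → U) → Prop // Dp L A P ∧ (∀ x, P x → W x) ∧ ∃ x, P x} :=
    fun n => Nat.rec ⟨W, hW, fun x hx => hx, hne⟩ (fun n P => nx (f n) P) n
  have hq : ∀ n, q (n + 1) = nx (f n) (q n) := fun n => rfl
  have hmono : ∀ m n, m ≤ n → ∀ x, (q n).1 x → (q m).1 x := by
    intro m n hmn
    induction n, hmn using Nat.le_induction with
    | base => exact fun x hx => hx
    | succ n hmn ih =>
      intro x hx
      rw [hq] at hx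
      exact ih x (hnx1 _ _ x hx)
  obtain ⟨v, hv⟩ := sat_dp hC hA.countable (F := range fun n => (q n).1) (by
    rintro _ ⟨n, rfl⟩
    exact (q n).2.1) (by
    intro G hG hfin
    have h1 : ∃ N, ∀ P ∈ G, ∃ n ≤ N, (q n).1 = P := by
      induction G, hfin using Set.Finite.induction_on with
      | empty => exact ⟨0, fun P hP => hP.elim⟩
      | @insert a G _ _ ih =>
        obtain ⟨N, hN⟩ := ih ((subset_insert _ _).trans hG)
        obtain ⟨m, hm⟩ := hG (mem_insert a G)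
        refine ⟨max N m, fun P hP => ?_⟩
        rcases mem_insert_iff.1 hP with rfl | hP
        · exact ⟨m, le_max_right _ _, hm⟩
        · obtain ⟨n, hn, hn'⟩ := hN P hP
          exact ⟨n, hn.trans (le_max_left _ _), hn'⟩
    obtain ⟨N, hN⟩ := h1
    obtain ⟨x, hx⟩ := (q N).2.2.2
    refine ⟨x, fun P hP => ?_⟩
    obtain ⟨n, hn, rfl⟩ := hN P hP
    exact hmono n N hn x hx)
  obtain ⟨_, ⟨n, rfl⟩, hn⟩ := hS' v
  have h1 : (q (n + 1)).1 v := hv _ ⟨n + 1, rfl⟩
  have h2 : (q (n + 1)).1 (f n) := hn _ (q (n + 1)).2.1 h1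
  rw [hq] at h2
  exact hnx2 (f n) (q n) h2

end Pool.Agent.TPY
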