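import Pool.Agent.TPY.StR

/-!
# TPY: module RIX (helper75): every big piece contains a point with isolated type
-/

set_option autoImplicit false
set_option linter.unusedVariables false

namespace Pool.Agent.TPY

open FirstOrder.Language Set
open scoped FirstOrder
open Pool.Agent.MNO

private theorem rix_eta {U : Type} (x : Fin 1 → U) : s1 (x 0) = x := by
  funext k
  exact congrArg x (Subsingleton.elim 0 k)

/-- a class of a finite equivalence relation without a point of the type of `z` -/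
private theorem rix_cls {L : FirstOrder.Language.{0, 0}} {U : Type} [L.Structure U] (hC : Cz L U)
    {A : Set U} (hA : A.Finite) {E : (Fin 1 → U) → (Fin 1 → U) → Prop} (hE : FE L A E)
    (z t : Fin 1 → U) (h : ¬ ∃ y, E y t ∧ Tq L A z y) :
    ∃ ζ : (Fin 1 → U) → Prop, Dp L A ζ ∧ ζ z ∧ ∀ y, E y t → ¬ ζ y := by
  by_contra hcon
  push Not at hcon
  apply h
  obtain ⟨y, hy⟩ := sat_dp hC (B := A ∪ range t)
    (hA.countable.union (countable_range _))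
    (F := insert (fun y => E y t) {P : (Fin 1 → U) → Prop | Dp L A P ∧ P z}) (by
      rintro P (rfl | ⟨hP, -⟩)
      · exact fe_cls hE t
      · exact dp_mono subset_union_left hP) (by
      intro G hG hfin
      have h1 : Dp L A (fun y : Fin 1 → U => ∀ P ∈ G ∩ {P : (Fin 1 → U) → Prop | Dp L A P ∧ P z}, P y) :=
        dp_ball (hfin.inter_of_left _) fun P hP => hP.2.1
      obtain ⟨y, hy, hy'⟩ := hcon _ h1 fun P hP => hP.2.2
      refine ⟨y, fun P hP => ?_⟩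
      rcases hG hP with rfl | h2
      · exact hy
      · exact hy' P ⟨hP, h2⟩)
  refine ⟨y, hy _ (mem_insert _ _), fun P hP hz => hy P (mem_insert_of_mem _ ⟨hP, hz⟩)⟩

theorem thm_RIX (hLIM : St_LIM) (hRIS : St_RIS) : St_RIX := by
  intro L U _ hC A₀ big hB A z hA₀ hA hz
  have hnE : ¬ Edd L A z := fun h => hB.b1 A z hA₀ hA h hz
  obtain ⟨E, hE, hEz⟩ := hLIM L U hC A z hA hnE
  obtain ⟨s, hs, hs'⟩ := hE.fin
  have h1 : ∀ t : Fin 1 → U, ∃ ζ : (Fin 1 → U) → Prop, Dp L A ζ ∧ ζ (s1 z) ∧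
      ((¬ ∃ y, E y t ∧ Tq L A (s1 z) y) → ∀ y, E y t → ¬ ζ y) := by
    intro t
    by_cases ht : ∃ y, E y t ∧ Tq L A (s1 z) y
    · exact ⟨fun _ => True, dp_true, trivial, fun h => absurd ht h⟩
    · obtain ⟨ζ, h2, h3, h4⟩ := rix_cls hC hA hE (s1 z) t ht
      exact ⟨ζ, h2, h3, fun _ => h4⟩
  choose ζ hζ1 hζ2 hζ3 using h1
  have hζ : Dp L A (fun y : Fin 1 → U => ∀ t ∈ s, ζ t y) := dp_ball hs fun t _ => hζ1 t
  have hW : Dp L A (fun y : Fin 1 → U => ∃ z' : Fin 1 → U, (∀ t ∈ s, ζ t z') ∧ E y z') := by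
    have h2 : Dp L A (fun v : Fin 1 ⊕ Fin 1 → U => (∀ t ∈ s, ζ t (fun i => v (Sum.inr i))) ∧
        E (fun i => v (Sum.inl i)) (fun i => v (Sum.inr i))) :=
      dp_and (dp_sub hζ (Sum.inr : Fin 1 → Fin 1 ⊕ Fin 1)) hE.dfn
    exact dp_ex h2
  obtain ⟨y, ⟨z', hz1, hz2⟩, P, hP, hPy, hPt⟩ := hRIS L U hC A _ hA hW
    ⟨s1 z, s1 z, fun t _ => hζ2 t, hE.eqv.refl _⟩
  obtain ⟨t, ht, hzt⟩ := hs' z'
  have h2 : ∃ y, E y t ∧ Tq L A (s1 z) y := by
    by_contra h3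
    exact hζ3 t h3 z' hzt (hz1 t ht)
  obtain ⟨w, hw1, hw2⟩ := h2
  have hyw : E (s1 y) w := hE.eqv.trans hz2 (hE.eqv.trans hzt (hE.eqv.symm hw1))
  obtain ⟨c, hc⟩ := tq_ext hC hA.countable (tq_symm hw2) (s1 y)
  have h4 : E c (s1 z) := hc (fun v : Fin 1 ⊕ Fin 1 → U =>
    E (fun i => v (Sum.inr i)) (fun i => v (Sum.inl i))) (dp_sub hE.dfn Sum.swap) hyw
  have h5 : Tq L A (s1 y) c := tq_sub hc Sum.inr
  refine ⟨c 0, hEz _ (by rw [rix_eta]; exact h4), ?_⟩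
  rw [rix_eta]
  exact ⟨P, hP, h5 P hP hPy, fun v hv => tq_trans (tq_symm h5) (hPt v hv)⟩

end Pool.Agent.TPY
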