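import Pool.Agent.TPY.StR
import Pool.Agent.TPY.StK
import Pool.Agent.TPY.GBA

/-!
# TPY: [RNI] totally indiscernible sequences and NIP
-/

set_option autoImplicit false
set_option linter.unusedVariables false

namespace Pool.Agent.TPY

open FirstOrder.Language Set
open scoped FirstOrder
open Pool.Agent.MNO

/-- [RNI] -/
theorem thm_RNI (hNPP : St_NPP) : St_RNI := by
  classical
  intro L U _ hC A n φ hA hφ hinv
  obtain ⟨B, hB, -, hφB⟩ := dp_fin hφ
  obtain ⟨k, hk⟩ := hNPP L U hC (Fin 1) (Fin n) B (fun x y => φ (x 0) y) hB hφB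
  refine ⟨k, fun z hz c i i' hi hi' hall => ?_⟩
  by_contra hcon
  push Not at hcon
  apply hk
  have key : ∀ s : Set (Fin k), ∃ y : Fin n → U, ∀ t : Fin k, φ (z (t : ℕ)) y ↔ t ∈ s := by
    intro s
    let j : Fin k → ℕ := fun t => if t ∈ s then i t else i' t
    have hj1 : ∀ t, t ∈ s → j t = i t := fun t ht => if_pos ht
    have hj2 : ∀ t, t ∉ s → j t = i' t := fun t ht => if_neg ht
    have hjs : ∀ t, φ (z (j t)) c ↔ t ∈ s := by
      intro t
      by_cases ht : t ∈ s
      · rw [hj1 t ht]
        exact ⟨fun _ => ht, fun _ => hall t⟩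
      · rw [hj2 t ht]
        exact ⟨fun h => absurd h (hcon t), fun h => absurd h ht⟩
    have hj : Function.Injective j := by
      intro a b hab
      by_cases ha : a ∈ s
      · by_cases hb : b ∈ s
        · rw [hj1 a ha, hj1 b hb] at hab
          exact hi hab
        · exact absurd ((hjs b).1 (by
            rw [← hab]
            exact (hjs a).2 ha)) hb
      · by_cases hb : b ∈ s
        · exact absurd ((hjs a).1 (by
            rw [hab]
            exact (hjs b).2 hb)) ha
        · rw [hj2 a ha, hj2 b hb] at hab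
          exact hi' hab
    have h1 : Sq L A (fun t => z (j t)) (fun t : Fin k => z (t : ℕ)) :=
      tis_sq hz infinite_univ hj Fin.val_injective (fun _ => mem_univ _) (fun _ => mem_univ _)
    obtain ⟨y, hy⟩ := sq_ext hC hA.countable h1 c
    refine ⟨y, fun t => ?_⟩
    have h2 := sq_sub hy (Sum.map (fun _ => t) id : Fin 1 ⊕ Fin n → Fin k ⊕ Fin n)
    have h3 : Sq L A (Sum.elim (s1 (z (j t))) c) (Sum.elim (s1 (z (t : ℕ))) y) := by
      refine sq_congr h2 ?_ ?_
      · funext a
        rcases a with a | a <;> rfl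
      · funext a
        rcases a with a | a <;> rfl
    rw [← hjs t]
    exact ⟨hinv _ _ _ _ (sq_symm h3), hinv _ _ _ _ h3⟩
  choose y hy using key
  exact ⟨fun t => s1 (z (t : ℕ)), y, fun t s => hy s t⟩

end Pool.Agent.TPY
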