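import Pool.Agent.TPY.StR
import Pool.Agent.TPY.Tq0

/-!
# TPY, module RPP: separation of two classes of a closed equivalence relation by a saturated
definable set
-/

set_option autoImplicit false
set_option linter.unusedVariables false

namespace Pool.Agent.TPY

open FirstOrder.Language Set
open scoped FirstOrder
open Pool.Agent.WOM (IsEl)
open Pool.Agent.MNO

section

variable {L : FirstOrder.Language.{0, 0}} {U : Type} [L.Structure U]

/-- no point of `θ` is related to a point of `θ'` -/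
private def rppSep (D : U → Prop) (R : U → U → Prop) (θ θ' : (Fin 1 → U) → Prop) : Prop :=
  ∀ v w, D v → D w → θ (s1 v) → θ' (s1 w) → ¬ R v w

private theorem rpp_s1 (x : Fin 1 → U) : s1 (x 0) = x := by
  funext i
  rw [Subsingleton.elim i 0]
  rfl

private theorem rpp_pair (x : Fin 2 → U) : ![x 0, x 1] = x := by
  funext i
  fin_cases i <;> rfl

/-- compactness -/
private theorem rpp_cpt (hC : Cz L U) {B : Set U} (hB : B.Countable) {D : U → Prop}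
    {R : U → U → Prop} (hD : Dp L B (fun v : Fin 1 → U => D (v 0)))
    (hcl : ∀ v w, D v → D w → ¬ R v w → ∃ ψ : (Fin 2 → U) → Prop, Dp L B ψ ∧ ψ ![v, w] ∧
      ∀ v' w', D v' → D w' → ψ ![v', w'] → ¬ R v' w')
    (T T' : Set ((Fin 1 → U) → Prop)) (hT : ∀ P ∈ T, Dp L B P) (hT' : ∀ P ∈ T', Dp L B P)
    (hno : ∀ v w, D v → D w → (∀ P ∈ T, P (s1 v)) → (∀ P ∈ T', P (s1 w)) → ¬ R v w) :
    ∃ G G' : Set ((Fin 1 → U) → Prop), (G ⊆ T ∧ G.Finite) ∧ (G' ⊆ T' ∧ G'.Finite) ∧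
      ∀ v w, D v → D w → (∀ P ∈ G, P (s1 v)) → (∀ P ∈ G', P (s1 w)) → ¬ R v w := by
  by_contra hcon
  push Not at hcon
  let φ : Fin 2 → ((Fin 1 → U) → Prop) → ((Fin 2 → U) → Prop) := fun i P v => P (s1 (v i))
  have hinj : ∀ i, Function.Injective (φ i) := by
    intro i P Q h
    funext x
    have h1 := congrFun h (fun _ => x 0)
    change P (s1 (x 0)) = Q (s1 (x 0)) at h1
    rwa [rpp_s1] at h1
  have hdφ : ∀ i (P : (Fin 1 → U) → Prop), Dp L B P → Dp L B (φ i P) := fun i P hP =>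
    dp_sub hP (fun _ => i)
  let F : Set ((Fin 2 → U) → Prop) := {Q | (∃ P ∈ T, Q = φ 0 P) ∨ (∃ P ∈ T', Q = φ 1 P) ∨
    (∃ i : Fin 2, Q = fun v => D (v i)) ∨ ∃ ψ, Dp L B ψ ∧
      (∀ v' w', D v' → D w' → ψ ![v', w'] → ¬ R v' w') ∧ Q = fun v => ¬ ψ v}
  obtain ⟨x, hx⟩ := sat_dp hC hB (F := F) (by
    rintro Q (⟨P, hP, rfl⟩ | ⟨P, hP, rfl⟩ | ⟨i, rfl⟩ | ⟨ψ, hψ, -, rfl⟩)
    · exact hdφ 0 P (hT P hP)
    · exact hdφ 1 P (hT' P hP)
    · exact dp_sub hD (fun _ => i)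
    · exact dp_not hψ) (by
    intro G0 hG0 hfin
    obtain ⟨v, w, hv, hw, h1, h2, hR⟩ := hcon (T ∩ φ 0 ⁻¹' G0) (T' ∩ φ 1 ⁻¹' G0)
      ⟨inter_subset_left, (hfin.preimage (hinj 0).injOn).inter_of_right T⟩
      ⟨inter_subset_left, (hfin.preimage (hinj 1).injOn).inter_of_right T'⟩
    refine ⟨![v, w], fun Q hQ => ?_⟩
    rcases hG0 hQ with ⟨P, hP, rfl⟩ | ⟨P, hP, rfl⟩ | ⟨i, rfl⟩ | ⟨ψ, hψ, hψ', rfl⟩
    · exact h1 P ⟨hP, hQ⟩
    · exact h2 P ⟨hP, hQ⟩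
    · fin_cases i
      · exact hv
      · exact hw
    · exact fun h => hψ' v w hv hw h hR)
  have hv : D (x 0) := hx _ (Or.inr (Or.inr (Or.inl ⟨0, rfl⟩)))
  have hw : D (x 1) := hx _ (Or.inr (Or.inr (Or.inl ⟨1, rfl⟩)))
  have hR : ¬ R (x 0) (x 1) := hno (x 0) (x 1) hv hw
    (fun P hP => hx _ (Or.inl ⟨P, hP, rfl⟩)) (fun P hP => hx _ (Or.inr (Or.inl ⟨P, hP, rfl⟩)))
  obtain ⟨ψ, hψ, h1, h2⟩ := hcl _ _ hv hw hR
  rw [rpp_pair] at h1
  exact hx _ (Or.inr (Or.inr (Or.inr ⟨ψ, hψ, h2, rfl⟩))) h1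

/-- a formula of the type of `u` separated from `θ` -/
private theorem rpp_left (hC : Cz L U) {B : Set U} (hB : B.Countable) {D : U → Prop}
    {R : U → U → Prop} (hD : Dp L B (fun v : Fin 1 → U => D (v 0)))
    (hcl : ∀ v w, D v → D w → ¬ R v w → ∃ ψ : (Fin 2 → U) → Prop, Dp L B ψ ∧ ψ ![v, w] ∧
      ∀ v' w', D v' → D w' → ψ ![v', w'] → ¬ R v' w')
    {θ : (Fin 1 → U) → Prop} (hθ : Dp L B θ) (u : U)
    (hno : ∀ v w, D v → D w → θ (s1 v) → Tq L B (s1 u) (s1 w) → ¬ R v w) :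
    ∃ τ, Dp L B τ ∧ τ (s1 u) ∧ rppSep D R θ τ := by
  obtain ⟨G, G', ⟨hG, -⟩, ⟨hG', hfin⟩, h⟩ := rpp_cpt hC hB hD hcl {θ}
    {P | Dp L B P ∧ P (s1 u)} (by rintro P rfl; exact hθ) (fun P hP => hP.1)
    (fun v w hv hw h1 h2 => hno v w hv hw (h1 θ rfl) (fun P hP hPu => h2 P ⟨hP, hPu⟩))
  refine ⟨fun x => ∀ P ∈ G', P x, dp_ball hfin (fun P hP => (hG' hP).1),
    fun P hP => (hG' hP).2, fun v w hv hw h1 h2 => h v w hv hw (fun P hP => ?_) h2⟩
  have : P = θ := hG hP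
  rw [this]
  exact h1

private theorem rpp_right (hC : Cz L U) {B : Set U} (hB : B.Countable) {D : U → Prop}
    {R : U → U → Prop} (hD : Dp L B (fun v : Fin 1 → U => D (v 0)))
    (hcl : ∀ v w, D v → D w → ¬ R v w → ∃ ψ : (Fin 2 → U) → Prop, Dp L B ψ ∧ ψ ![v, w] ∧
      ∀ v' w', D v' → D w' → ψ ![v', w'] → ¬ R v' w')
    {θ : (Fin 1 → U) → Prop} (hθ : Dp L B θ) (u : U)
    (hno : ∀ v w, D v → D w → Tq L B (s1 u) (s1 v) → θ (s1 w) → ¬ R v w) :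
    ∃ τ, Dp L B τ ∧ τ (s1 u) ∧ rppSep D R τ θ := by
  obtain ⟨G, G', ⟨hG, hfin⟩, ⟨hG', -⟩, h⟩ := rpp_cpt hC hB hD hcl {P | Dp L B P ∧ P (s1 u)}
    {θ} (fun P hP => hP.1) (by rintro P rfl; exact hθ)
    (fun v w hv hw h1 h2 => hno v w hv hw (fun P hP hPu => h1 P ⟨hP, hPu⟩) (h2 θ rfl))
  refine ⟨fun x => ∀ P ∈ G, P x, dp_ball hfin (fun P hP => (hG hP).1),
    fun P hP => (hG hP).2, fun v w hv hw h1 h2 => h v w hv hw h1 (fun P hP => ?_)⟩
  have : P = θ := hG' hP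
  rw [this]
  exact h2

/-- countably many types over a finite set -/
private theorem rpp_types (hC : Cz L U) {B : Set U} (hB : B.Finite) :
    ∃ s : Set U, s.Countable ∧ ∀ v, ∃ u ∈ s, Tq L B (s1 v) (s1 u) := by
  classical
  obtain ⟨n, b, rfl⟩ := exists_enum hB
  obtain ⟨s, hs, hs'⟩ := hC.sml (1 + n)
  let e : Fin 1 ⊕ Fin n ≃ Fin (1 + n) := finSumFinEquiv
  let f : (Fin (1 + n) → U) → U := fun y =>
    if h : ∃ u, Tq L (∅ : Set U) (fun i => Sum.elim (s1 u) b (e.symm i)) y then h.choose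
    else hC.ne.some
  refine ⟨f '' s, hs.image f, fun v => ?_⟩
  obtain ⟨y, hy, h1⟩ := hs' (fun i => Sum.elim (s1 v) b (e.symm i))
  refine ⟨f y, mem_image_of_mem f hy, ?_⟩
  have hex : ∃ u, Tq L (∅ : Set U) (fun i => Sum.elim (s1 u) b (e.symm i)) y := ⟨v, h1⟩
  have hfy : f y = hex.choose := dif_pos hex
  have h2 := hex.choose_spec
  rw [← hfy] at h2
  have h3 := tq_trans h1 (tq_symm h2)
  have h4 := tq_sub h3 e
  simp only [Equiv.symm_apply_apply] at h4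
  have h5 := (tq_fam (A := (∅ : Set U)) (c := b)).2 h4
  rwa [empty_union] at h5

end

/-- **RPP.** -/
theorem thm_RPP : St_RPP := by
  classical
  intro L U _ hC B D R hBf hD hrefl hsymm htrans hinv hcl x y hxB hDx hDy hxy
  have hB : B.Countable := hBf.countable
  -- (0)
  obtain ⟨θy, hθy, hθyy, hsep0⟩ := rpp_left hC hB hD hcl
    (θ := fun v : Fin 1 → U => v 0 = x) (dp_eqc 0 hxB) y (by
      intro v w hv hw hvx htq hR
      have hvx' : v = x := hvx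
      subst hvx'
      refine hxy (hinv v w v y hv hw ?_ hR)
      have h1 := tq_add (tq_symm htq) (fun _ : Fin 1 => v) (fun _ => hxB)
      refine tq_congr (tq_sub h1 (![Sum.inr 0, Sum.inl 0] : Fin 2 → Fin 1 ⊕ Fin 1)) ?_ ?_
      · funext i
        fin_cases i <;> rfl
      · funext i
        fin_cases i <;> rfl)
  -- the step
  have step : ∀ (θ θ' : (Fin 1 → U) → Prop) (u : U), Dp L B θ → Dp L B θ' →
      rppSep D R θ θ' → D u → ∃ η η' : (Fin 1 → U) → Prop, Dp L B η ∧ Dp L B η' ∧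
        rppSep D R η η' ∧ (∀ v, θ v → η v) ∧ (∀ v, θ' v → η' v) ∧ (η (s1 u) ∨ η' (s1 u)) := by
    intro θ θ' u hθ hθ' hsep hu
    by_cases hcase : ∀ v w, D v → D w → θ (s1 v) → Tq L B (s1 u) (s1 w) → ¬ R v w
    · obtain ⟨τ, hτ, hτu, h1⟩ := rpp_left hC hB hD hcl hθ u hcase
      exact ⟨θ, fun v => θ' v ∨ τ v, hθ, dp_or hθ' hτ,
        fun v w hv hw h2 h3 => h3.elim (fun h => hsep v w hv hw h2 h) (fun h => h1 v w hv hw h2 h),
        fun v h => h, fun v h => Or.inl h, Or.inr (Or.inr hτu)⟩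
    · push Not at hcase
      obtain ⟨v, w, hv, hw, hθv, htw, hR⟩ := hcase
      obtain ⟨τ, hτ, hτu, h1⟩ := rpp_right hC hB hD hcl hθ' u (by
        intro w' v' hw' hv' htw' hθv' hR'
        obtain ⟨c, hc⟩ := tq_ext hC hB (tq_trans (tq_symm htw') htw) (fun _ : Fin 1 => v')
        have h2 : Tq L B ![w', v'] ![w, c 0] := by
          refine tq_congr (tq_sub hc (![Sum.inl 0, Sum.inr 0] : Fin 2 → Fin 1 ⊕ Fin 1)) ?_ ?_
          · funext i
            fin_cases i <;> rfl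
          · funext i
            fin_cases i <;> rfl
        have h3 : Tq L B (s1 v') (s1 (c 0)) := tq_sub hc (fun _ : Fin 1 => Sum.inr 0)
        have h4 : D (c 0) := h3 _ hD hv'
        have h5 : θ' (s1 (c 0)) := h3 _ hθ' hθv'
        have h6 : R w (c 0) := hinv w' v' w (c 0) hw' hv' h2 hR'
        exact hsep v (c 0) hv h4 hθv h5 (htrans v w (c 0) hv hw h4 hR h6))
      exact ⟨fun v => θ v ∨ τ v, θ', dp_or hθ hτ, hθ',
        fun v w hv hw h2 h3 => h2.elim (fun h => hsep v w hv hw h h3) (fun h => h1 v w hv hw h h3),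
        fun v h => Or.inl h, fun v h => h, Or.inl (Or.inr hτu)⟩
  obtain ⟨s, hs, hs'⟩ := rpp_types hC hBf
  obtain ⟨t, ht⟩ : ∃ t : ℕ → U, s ∩ {u | D u} ⊆ range t := by
    rcases (s ∩ {u | D u}).eq_empty_or_nonempty with h0 | h0
    · exact ⟨fun _ => x, by rw [h0]; exact empty_subset _⟩
    · obtain ⟨t, ht⟩ := (hs.mono inter_subset_left).exists_eq_range h0
      exact ⟨t, ht.subset⟩
  let S : Type := {p : ((Fin 1 → U) → Prop) × ((Fin 1 → U) → Prop) //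
    Dp L B p.1 ∧ Dp L B p.2 ∧ rppSep D R p.1 p.2}
  have hstep : ∀ (p : S) (n : ℕ), ∃ q : S, (∀ v, p.1.1 v → q.1.1 v) ∧ (∀ v, p.1.2 v → q.1.2 v) ∧
      (D (t n) → q.1.1 (s1 (t n)) ∨ q.1.2 (s1 (t n))) := by
    intro p n
    by_cases hn : D (t n)
    · obtain ⟨η, η', h1, h2, h3, h4, h5, h6⟩ := step p.1.1 p.1.2 (t n) p.2.1 p.2.2.1 p.2.2.2 hn
      exact ⟨⟨(η, η'), h1, h2, h3⟩, h4, h5, fun _ => h6⟩
    · exact ⟨p, fun v h => h, fun v h => h, fun h => absurd h hn⟩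
  choose nx hnx using hstep
  let q0 : S := ⟨(fun v => v 0 = x, θy), dp_eqc 0 hxB, hθy, hsep0⟩
  let q : ℕ → S := fun n => Nat.rec q0 (fun n p => nx p n) n
  have hq : ∀ n, q (n + 1) = nx (q n) n := fun n => rfl
  have hmono : ∀ n m, n ≤ m → (∀ v, (q n).1.1 v → (q m).1.1 v) ∧
      (∀ v, (q n).1.2 v → (q m).1.2 v) := by
    intro n m hnm
    induction m, hnm using Nat.le_induction with
    | base => exact ⟨fun v h => h, fun v h => h⟩
    | succ m _ ih =>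
      rw [hq]
      exact ⟨fun v h => (hnx (q m) m).1 v (ih.1 v h), fun v h => (hnx (q m) m).2.1 v (ih.2 v h)⟩
  -- the cover
  have hcov : ∃ N, ∀ v, D v → (q N).1.1 (s1 v) ∨ (q N).1.2 (s1 v) := by
    by_contra hcon
    push Not at hcon
    let F : Set ((Fin 1 → U) → Prop) := {Q | (∃ n, Q = fun v => ¬ ((q n).1.1 v ∨ (q n).1.2 v)) ∨
      Q = fun v => D (v 0)}
    obtain ⟨v, hv⟩ := sat_dp hC hB (F := F) (by
      rintro Q (⟨n, rfl⟩ | rfl)
      · exact dp_not (dp_or (q n).2.1 (q n).2.2.1)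
      · exact hD) (by
      intro G hG hfin
      have hN : ∃ N, ∀ Q ∈ G, (∃ n ≤ N, Q = fun v => ¬ ((q n).1.1 v ∨ (q n).1.2 v)) ∨
          Q = fun v => D (v 0) := by
        have h1 : ∀ Q : (Fin 1 → U) → Prop, ∃ n, Q ∈ G →
            (Q = fun v => ¬ ((q n).1.1 v ∨ (q n).1.2 v)) ∨ Q = fun v => D (v 0) := by
          intro Q
          by_cases hQ : Q ∈ G
          · rcases hG hQ with ⟨n, hn⟩ | h
            · exact ⟨n, fun _ => Or.inl hn⟩
            · exact ⟨0, fun _ => Or.inr h⟩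
          · exact ⟨0, fun h => absurd h hQ⟩
        choose i hi using h1
        obtain ⟨N, hN⟩ := (hfin.image i).bddAbove
        exact ⟨N, fun Q hQ => (hi Q hQ).imp (fun h => ⟨i Q, hN (mem_image_of_mem i hQ), h⟩) id⟩
      obtain ⟨N, hN⟩ := hN
      obtain ⟨v, hv, h1, h2⟩ := hcon N
      refine ⟨s1 v, fun Q hQ => ?_⟩
      rcases hN Q hQ with ⟨n, hn, rfl⟩ | rfl
      · rintro (h | h)
        · exact h1 ((hmono n N hn).1 _ h)
        · exact h2 ((hmono n N hn).2 _ h)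
      · exact hv)
    have hDv : D (v 0) := hv _ (Or.inr rfl)
    obtain ⟨u, hu, htq⟩ := hs' (v 0)
    have hDu : D u := htq _ hD hDv
    obtain ⟨n, hn⟩ := ht ⟨hu, hDu⟩
    have h1 := (hnx (q n) n).2.2 (by rw [hn]; exact hDu)
    rw [← hq, hn] at h1
    have h2 := hv _ (Or.inl ⟨n + 1, rfl⟩)
    refine h2 ?_
    rw [← rpp_s1 v]
    exact h1.imp (tq_symm htq _ (q (n + 1)).2.1) (tq_symm htq _ (q (n + 1)).2.2.1)
  obtain ⟨N, hN⟩ := hcov
  have hsep := (q N).2.2.2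
  refine ⟨(q N).1.1, (q N).2.1, (hmono 0 N (Nat.zero_le _)).1 _ rfl, fun h => ?_, ?_⟩
  · exact hsep y y hDy hDy h ((hmono 0 N (Nat.zero_le _)).2 _ hθyy) (hrefl y hDy)
  · intro v w hv hw hR h
    exact (hN w hw).resolve_right fun h' => hsep v w hv hw h h' hR

end Pool.Agent.TPY
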