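import Pool.Agent.TPY.StR
import Pool.Agent.TPY.Fr2
import Pool.Agent.TPY.Tq0

/-!
# TPY: RSP, `Rf` on `Dz` is an intersection of definable equivalence relations (helper77)
-/

set_option autoImplicit false
set_option linter.unusedVariables false

namespace Pool.Agent.TPY

open FirstOrder.Language Set
open scoped FirstOrder
open Pool.Agent.MNO

private theorem rsp_pair {U : Type} (u : Fin 2 → U) : ![u 0, u 1] = u := by
  funext i
  fin_cases i <;> rfl

theorem thm_RSP (hRDG : St_RDG) (hRDZ : St_RDZ) (hRCL : St_RCL) (hRPP : St_RPP) : St_RSP := by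
  intro L U _ hC A₀ big A z x hG v hv w hw hvw
  have hAc : A.Countable := hG.fin.countable
  obtain ⟨-, g2, g3, g4, g5⟩ := hRDG L U hC A₀ big A z x hG
  obtain ⟨Δ, hΔ, hΔ'⟩ := hRDZ L U hC A₀ big A z x hG
  -- `D` is definable over `insert v A`
  have hDB : Dp L (insert v A) (fun u : Fin 1 → U => u 0 ∈ Dz L A z x) := by
    have h1 : Dp L (insert v A) (fun u : Fin 1 ⊕ Unit → U => Δ ![u (Sum.inl 0), u (Sum.inr ())]) := by
      have h2 := dp_sub (dp_mono (subset_insert v A) hΔ) (![Sum.inl 0, Sum.inr ()] : Fin 2 → Fin 1 ⊕ Unit)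
      refine dp_congr h2 fun u => iff_of_eq ?_
      congr 1
      funext i
      fin_cases i <;> rfl
    refine dp_congr (dp_par1 h1 (mem_insert v A)) fun u => ?_
    exact hΔ' v hv (u 0)
  have rfr : ∀ a ∈ Dz L A z x, Rf L big A z a a := fun a ha => (g2 a ha a ha).2 rfl
  have rsy : ∀ a ∈ Dz L A z x, ∀ b ∈ Dz L A z x, Rf L big A z a b → Rf L big A z b a :=
    fun a ha b hb h => ⟨h.2, h.1⟩
  obtain ⟨δ, hδ, hδv, hδw, hδi⟩ := hRPP L U hC (insert v A) (fun a => a ∈ Dz L A z x) (Rf L big A z)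
    (hG.fin.insert v) hDB rfr (fun a b ha hb h => rsy a ha b hb h)
    (fun a b c ha hb hc h h' => (g2 a ha c hc).2 (((g2 a ha b hb).1 h).trans ((g2 b hb c hc).1 h')))
    (by
      intro a b a' b' ha hb h hR
      have ha' : a' ∈ Dz L A z x := by
        have h1 := tq_sub h (fun _ : Fin 1 => (0 : Fin 2))
        exact h1 _ hDB ha
      have h2 := tq_mono (subset_insert v A) h
      have h3 := g5 a b a' b' ha hb ha'.1 h2
      exact g3 a b a' b' ha.1 hb.1 ha'.1 h3.2.1 h2 hR)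
    (by
      intro a b ha hb hR
      have h1 : b ∈ Eg L big A z a ∨ a ∈ Eg L big A z b := by
        by_contra hcon
        push Not at hcon
        exact hR hcon
      rcases h1 with h1 | h1
      · obtain ⟨ψ, hψ, hψ1, hψ2⟩ := hRCL L U hC A₀ big A z x hG a ha b h1
        exact ⟨ψ, dp_mono (subset_insert v A) hψ, hψ1, fun a' b' ha' hb' h2 h3 => h3.1 (hψ2 a' ha' b' h2)⟩
      · obtain ⟨ψ, hψ, hψ1, hψ2⟩ := hRCL L U hC A₀ big A z x hG b hb a h1
        refine ⟨fun u => ψ ![u 1, u 0], ?_, hψ1, fun a' b' ha' hb' h2 h3 => h3.2 (hψ2 b' hb' a' h2)⟩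
        have h2 := dp_sub (dp_mono (subset_insert v A) hψ) (![1, 0] : Fin 2 → Fin 2)
        refine dp_congr h2 fun u => iff_of_eq ?_
        congr 1
        funext i
        fin_cases i <;> rfl) v w (mem_insert v A) hv hw hvw
  obtain ⟨Q0, hQ0, hQ0'⟩ := dp_fam1 hδ
  -- `Q` over `A` with two variables
  obtain ⟨Q, hQ, hQ'⟩ : ∃ Q : (Fin 2 → U) → Prop, Dp L A Q ∧ ∀ a, δ (s1 a) ↔ Q ![a, v] := by
    refine ⟨fun u => Q0 (Sum.elim (s1 (u 0)) (fun _ => u 1)), ?_, fun a => hQ0' (s1 a)⟩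
    have h2 := dp_sub hQ0 (Sum.elim (fun _ => 0) (fun _ => 1) : Fin 1 ⊕ Unit → Fin 2)
    refine dp_congr h2 fun u => iff_of_eq ?_
    congr 1
    funext i
    rcases i with i | i <;> rfl
  have key : ∀ a ∈ Dz L A z x, ∀ b ∈ Dz L A z x, Rf L big A z a b → ∀ c ∈ Dz L A z x, Q ![a, c] → Q ![b, c] := by
    intro a ha b hb hR c hc hac
    have h0 : Tq L A (s1 c) (s1 v) := tq_trans (tq_symm hc.2) hv.2
    obtain ⟨e, he⟩ := tq_ext hC hAc h0 ![a, b]
    have h1 : ∀ (n : ℕ) (f : Fin n → Fin 1 ⊕ Fin 2), Tq L A (fun i => Sum.elim (s1 c) ![a, b] (f i))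
        (fun i => Sum.elim (s1 v) e (f i)) := fun n f => tq_sub he f
    have hca : Tq L A ![c, a] ![v, e 0] := by
      refine tq_congr (h1 2 ![Sum.inl 0, Sum.inr 0]) ?_ ?_ <;> · funext i; fin_cases i <;> rfl
    have hcb : Tq L A ![c, b] ![v, e 1] := by
      refine tq_congr (h1 2 ![Sum.inl 0, Sum.inr 1]) ?_ ?_ <;> · funext i; fin_cases i <;> rfl
    have hab : Tq L A ![a, b] ![e 0, e 1] := by
      refine tq_congr (h1 2 ![Sum.inr 0, Sum.inr 1]) ?_ ?_ <;> · funext i; fin_cases i <;> rfl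
    have hac' : Tq L A ![a, c] ![e 0, v] := by
      refine tq_congr (h1 2 ![Sum.inr 0, Sum.inl 0]) ?_ ?_ <;> · funext i; fin_cases i <;> rfl
    have hbc' : Tq L A ![b, c] ![e 1, v] := by
      refine tq_congr (h1 2 ![Sum.inr 1, Sum.inl 0]) ?_ ?_ <;> · funext i; fin_cases i <;> rfl
    have he0 := (g5 c a v (e 0) hc ha hv.1 hca).2
    have he1 := (g5 c b v (e 1) hc hb hv.1 hcb).2
    have hR' : Rf L big A z (e 0) (e 1) := g3 a b (e 0) (e 1) ha.1 hb.1 he0.1 he1.1 hab hR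
    have h2 : Q ![e 0, v] := hac' Q hQ hac
    have h3 : Q ![e 1, v] := (hQ' _).1 (hδi _ _ he0 he1 hR' ((hQ' _).2 h2))
    exact (tq_iff hbc' hQ).2 h3
  refine ⟨fun a b => ∀ c ∈ Dz L A z x, (Q ![a, c] ↔ Q ![b, c]), ?_, ?_, ?_, ?_, ?_⟩
  · -- definable
    have hQu : Dp L (univ : Set U) Q := dp_mono (subset_univ _) hQ
    have h1 : Dp L (univ : Set U) (fun u : Fin 2 ⊕ Unit → U => u (Sum.inr ()) ∈ Dz L A z x) :=
      dp_sub (dp_mono (subset_univ _) hDB) (fun _ : Fin 1 => (Sum.inr () : Fin 2 ⊕ Unit))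
    have h2 : ∀ j : Fin 2, Dp L (univ : Set U) (fun u : Fin 2 ⊕ Unit → U => Q ![u (Sum.inl j), u (Sum.inr ())]) := by
      intro j
      refine dp_congr (dp_sub hQu (![Sum.inl j, Sum.inr ()] : Fin 2 → Fin 2 ⊕ Unit)) fun u => iff_of_eq ?_
      congr 1
      funext i
      fin_cases i <;> rfl
    exact dp_all1 (dp_imp h1 (dp_iff (h2 0) (h2 1)))
  · refine ⟨fun a c _ => Iff.rfl, fun {a b} h c hc => (h c hc).symm, fun {a b d} h h' c hc => (h c hc).trans (h' c hc)⟩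
  · intro a b a' b' h hE c' hc'
    obtain ⟨e, he⟩ := sq_ext hC hAc (sq_symm h) (s1 c')
    have hc : e 0 ∈ Dz L A z x := by
      refine g4 c' (e 0) ?_ hc'
      exact sq_sub he (fun _ : Fin 1 => (Sum.inr 0 : Fin 2 ⊕ Fin 1))
    have h1 : ∀ j : Fin 2, (Q ![![a', b'] j, c'] ↔ Q ![![a, b] j, e 0]) := by
      intro j
      have h2 := sq_sub he (![Sum.inl j, Sum.inr 0] : Fin 2 → Fin 2 ⊕ Fin 1)
      have h3 := tq_of_sq h2
      refine tq_iff (tq_congr h3 ?_ ?_) hQ <;> · funext i; fin_cases i <;> rfl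
    exact (h1 0).trans ((hE (e 0) hc).trans (h1 1).symm)
  · intro a ha b hb hR c hc
    exact ⟨key a ha b hb hR c hc, key b hb a ha (rsy a ha b hb hR) c hc⟩
  · intro hE
    exact hδw ((hQ' w).2 ((hE v hv).1 ((hQ' v).1 hδv)))

end Pool.Agent.TPY
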