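import Pool.Agent.TPY.StR

/-!
# TPY: RTP (a countable compact space has a finite invariant set)
-/

set_option autoImplicit false
set_option linter.unusedVariables false

namespace Pool.Agent.TPY

open Set

/-- a nonempty countable compact subset of a Cantor cube contains a finite nonempty invariant subset -/
theorem rtp_core {ι : Type} (X : Set (ι → Bool)) (Γ : Set (ι ≃ ι)) (hX : X.Nonempty) (hXc : X.Countable)
    (hcl : IsClosed X) (hinv : ∀ x ∈ X, ∀ f ∈ Γ, (fun i => x (f i)) ∈ X) :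
    ∃ Y ⊆ X, Y.Finite ∧ Y.Nonempty ∧ ∀ x ∈ Y, ∀ f ∈ Γ, (fun i => x (f i)) ∈ Y := by
  classical
  obtain ⟨Y, hY⟩ := zorn_superset {Y : Set (ι → Bool) | Y ⊆ X ∧ IsClosed Y ∧ Y.Nonempty ∧
      ∀ x ∈ Y, ∀ f ∈ Γ, (fun i => x (f i)) ∈ Y} (by
    intro c hc hch
    rcases c.eq_empty_or_nonempty with rfl | hne
    · exact ⟨X, ⟨Subset.refl _, hcl, hX, hinv⟩, fun s hs => absurd hs (notMem_empty s)⟩
    · have : Nonempty c := hne.to_subtype
      refine ⟨⋂₀ c, ⟨?_, isClosed_sInter fun Y hY => (hc hY).2.1, ?_, ?_⟩, fun s hs => sInter_subset_of_mem hs⟩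
      · obtain ⟨Y, hY⟩ := hne
        exact (sInter_subset_of_mem hY).trans (hc hY).1
      · refine IsCompact.nonempty_sInter_of_directed_nonempty_isCompact_isClosed ?_
          (fun Y hY => (hc hY).2.2.1) (fun Y hY => (hc hY).2.1.isCompact) (fun Y hY => (hc hY).2.1)
        intro a ha b hb
        rcases hch.total ha hb with h | h
        · exact ⟨a, ha, Subset.refl a, h⟩
        · exact ⟨b, hb, h, Subset.refl b⟩
      · intro x hx f hf Y hY
        exact (hc hY).2.2.2 x (hx Y hY) f hf)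
  obtain ⟨⟨hYX, hYcl, hYne, hYinv⟩, hmin⟩ := hY
  -- the isolated points
  obtain ⟨I, hI⟩ : ∃ I : Set (ι → Bool), I = ⋃₀ {O | IsOpen O ∧ ∃ y, O ∩ Y = {y}} := ⟨_, rfl⟩
  have hIo : IsOpen I := by
    rw [hI]
    exact isOpen_sUnion fun O hO => hO.1
  -- an isolated point exists (Baire)
  have hiso : ∃ O : Set (ι → Bool), IsOpen O ∧ ∃ y, O ∩ Y = {y} := by
    have : CompactSpace Y := isCompact_iff_compactSpace.1 hYcl.isCompact
    have : Nonempty Y := hYne.to_subtype
    have : Countable Y := (hXc.mono hYX).to_subtype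
    obtain ⟨y, hy⟩ := nonempty_interior_of_iUnion_of_closed (X := Y) (f := fun y : Y => {y})
      (fun y => isClosed_singleton) (by
        ext y
        simp)
    obtain ⟨w, hw⟩ := hy
    have hwy : w = y := mem_singleton_iff.1 (interior_subset hw)
    have hop : IsOpen (interior ({y} : Set Y)) := isOpen_interior
    obtain ⟨O, hO, hOy⟩ := isOpen_induced_iff.1 hop
    refine ⟨O, hO, y, ?_⟩
    ext v
    constructor
    · rintro ⟨hv, hvY⟩
      have h1 : (⟨v, hvY⟩ : Y) ∈ interior ({y} : Set Y) := by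
        rw [← hOy]
        exact hv
      have h2 : (⟨v, hvY⟩ : Y) = y := mem_singleton_iff.1 (interior_subset h1)
      exact congrArg Subtype.val h2
    · rintro rfl
      refine ⟨?_, y.2⟩
      have h1 : y ∈ interior ({y} : Set Y) := hwy ▸ hw
      rw [← hOy] at h1
      exact h1
  -- `Y` without the isolated points is empty
  have hemp : ¬ (Y \ I).Nonempty := by
    intro hne
    have h1 : Y \ I ∈ {Y : Set (ι → Bool) | Y ⊆ X ∧ IsClosed Y ∧ Y.Nonempty ∧
        ∀ x ∈ Y, ∀ f ∈ Γ, (fun i => x (f i)) ∈ Y} := by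
      refine ⟨sdiff_subset.trans hYX, hYcl.sdiff hIo, hne, ?_⟩
      rintro x ⟨hxY, hxI⟩ f hf
      refine ⟨hYinv x hxY f hf, fun h2 => hxI ?_⟩
      rw [hI] at h2 ⊢
      obtain ⟨O, ⟨hO, y, hy⟩, hxO⟩ := h2
      have hcont : Continuous (fun x : ι → Bool => fun i => x (f i)) :=
        continuous_pi fun i => continuous_apply (f i)
      refine ⟨(fun x : ι → Bool => fun i => x (f i)) ⁻¹' O, ⟨hO.preimage hcont, x, ?_⟩, hxO⟩
      have h3 : (fun i => x (f i)) = y := by
        have h4 : (fun i => x (f i)) ∈ O ∩ Y := ⟨hxO, hYinv x hxY f hf⟩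
        rw [hy] at h4
        exact h4
      ext w
      constructor
      · rintro ⟨hw, hwY⟩
        have h4 : (fun i => w (f i)) ∈ O ∩ Y := ⟨hw, hYinv w hwY f hf⟩
        rw [hy, mem_singleton_iff, ← h3] at h4
        funext i
        have h5 := congrFun h4 (f.symm i)
        simp only [Equiv.apply_symm_apply] at h5
        exact h5
      · rintro rfl
        exact ⟨hxO, hxY⟩
    have h2 := hmin h1 sdiff_subset
    obtain ⟨O, hO, y, hy⟩ := hiso
    have h3 : y ∈ O ∩ Y := by
      rw [hy]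
      rfl
    have h4 := (h2 h3.2).2
    apply h4
    rw [hI]
    exact ⟨O, ⟨hO, y, hy⟩, h3.1⟩
  have hYI : Y ⊆ I := by
    intro y hy
    by_contra h
    exact hemp ⟨y, hy, h⟩
  refine ⟨Y, hYX, ?_, hYne, hYinv⟩
  -- compactness
  rw [hI] at hYI
  obtain ⟨T, hT, hTf, hYT⟩ := hYcl.isCompact.elim_finite_subcover_image (b := {O | IsOpen O ∧ ∃ y, O ∩ Y = {y}})
    (c := fun O => O) (fun O hO => hO.1) (by
      rw [← sUnion_eq_biUnion]
      exact hYI)
  have h1 : Y ⊆ ⋃ O ∈ T, O ∩ Y := by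
    intro y hy
    have h2 := hYT hy
    rw [mem_iUnion₂] at h2 ⊢
    obtain ⟨O, hO, hyO⟩ := h2
    exact ⟨O, hO, hyO, hy⟩
  refine (hTf.biUnion fun O hO => ?_).subset h1
  obtain ⟨-, y, hy⟩ := hT hO
  rw [hy]
  exact finite_singleton y

theorem thm_RTP : St_RTP := by
  classical
  intro ι _ X Γ hX hXc hcl hsymm hinv
  let e : Set ι → (ι → Bool) := fun S i => decide (i ∈ S)
  have he : ∀ (S : Set ι) (i : ι), e S i = true ↔ i ∈ S := fun S i => decide_eq_true_iff
  have hej : Function.Injective e := by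
    intro S T h
    ext i
    rw [← he S, ← he T, h]
  let d : (ι → Bool) → Set ι := fun x => {i | x i = true}
  have hed : ∀ x, e (d x) = x := by
    intro x
    funext i
    rcases h : x i with _ | _
    · have : ¬ (e (d x) i = true) := by
        rw [he]
        intro h1
        have h2 : x i = true := h1
        rw [h] at h2
        exact absurd h2 (by decide)
      exact Bool.eq_false_iff.2 this
    · exact (he _ _).2 h
  obtain ⟨Y, hY1, hY2, hY3, hY4⟩ := rtp_core (e '' X) Γ (hX.image e) (hXc.image e) (by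
    rw [← isOpen_compl_iff, isOpen_iff_mem_nhds]
    intro x hx
    -- `d x` is not in `X`
    have hdx : d x ∉ X := fun h => hx ⟨d x, h, hed x⟩
    have h1 : ∃ F : Set ι, F.Finite ∧ ∀ S ∈ X, ∃ i ∈ F, ¬ (i ∈ S ↔ i ∈ d x) := by
      by_contra hcon
      push Not at hcon
      exact hdx (hcl (d x) fun F hF => hcon F hF)
    obtain ⟨F, hF, hFX⟩ := h1
    have h2 : {y : ι → Bool | ∀ i ∈ F, y i = x i} ∈ nhds x := by
      have h3 : IsOpen {y : ι → Bool | ∀ i ∈ F, y i = x i} := by
        have h4 : {y : ι → Bool | ∀ i ∈ F, y i = x i} = ⋂ i ∈ F, {y : ι → Bool | y i = x i} := by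
          ext y
          simp
        rw [h4]
        refine hF.isOpen_biInter fun i _ => ?_
        have h5 : Continuous (fun y : ι → Bool => y i) := continuous_apply i
        exact IsOpen.preimage h5 (isOpen_discrete ({x i} : Set Bool))
      exact h3.mem_nhds fun i _ => rfl
    refine Filter.mem_of_superset h2 ?_
    rintro y hy ⟨S, hS, rfl⟩
    obtain ⟨i, hi, hi'⟩ := hFX S hS
    apply hi'
    have h3 := hy i hi
    rw [← he S i, h3]
    exact Iff.rfl) (by
    rintro _ ⟨S, hS, rfl⟩ f hf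
    exact ⟨f ⁻¹' S, hinv S hS f hf, rfl⟩)
  refine ⟨e ⁻¹' Y, ?_, hY2.preimage hej.injOn, ?_, ?_⟩
  · intro S hS
    obtain ⟨T, hT, hTS⟩ := hY1 hS
    rw [← hej hTS]
    exact hT
  · obtain ⟨x, hx⟩ := hY3
    refine ⟨d x, ?_⟩
    show e (d x) ∈ Y
    rw [hed]
    exact hx
  · intro S hS f hf
    exact hY4 _ hS f hf

end Pool.Agent.TPY
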