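import Pool.Agent.TPY.FRV
import Pool.Agent.TPY.StF

/-!
# TPY: a free end is contained in a free union of clusters consisting of elements with the types of the end (helper8)
-/

set_option autoImplicit false
set_option linter.unusedVariables false

namespace Pool.Agent.TPY

open FirstOrder.Language Set
open scoped FirstOrder
open Pool.Agent.MNO

section

variable {L : FirstOrder.Language.{0, 0}} {U : Type} [L.Structure U]
variable {r : ((Fin 1 → U) → Prop) → Prop} {A : Set U}

/-- restriction of a free union of clusters -/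
theorem frev_sub {E E' : Set U} {cl : U → U → Prop} (h : FreV L A E cl) (hE : E' ⊆ E) (hb : BF L A E')
    (ht : ∀ x y : U, Tq L A (s1 x) (s1 y) → x ∈ E' → y ∈ E') : FreV L A E' cl where
  fin := h.fin
  bf := hb
  tqE := ht
  tqc := fun x y x' y' hT hx hy hc => h.tqc x y x' y' hT (hE hx) (hE hy) hc
  rfl := fun x hx => h.rfl x (hE hx)
  sym := fun x hx y hy => h.sym x (hE hx) y (hE hy)
  tra := fun x hx y hy z hz => h.tra x (hE hx) y (hE hy) z (hE hz)
  ort := fun m n u u' w w' hu hw => h.ort m n u u' w w' (fun i => hE (hu i)) fun j => hE (hw j)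
  inf := fun z hz D hD hDE => h.inf z (hE hz) D hD (hDE.trans hE)

variable (L) in
/-- the elements with the types over `A` of the elements of the end -/
def TE (A : Set U) (r : ((Fin 1 → U) → Prop) → Prop) : Set U :=
  {y | ∃ x ∈ En L A r, Tq L A (s1 x) (s1 y)}

theorem te_bf (hC : Cz L U) (h : Fr0 L A r) : BF L A (TE L A r) := by
  have e : TE L A r = ⋃₀ {Q | ∃ y ∈ TE L A r, Q = Pc L A y} := by
    ext y
    constructor
    · intro hy
      exact ⟨_, ⟨y, hy, rfl⟩, mem_pc y⟩
    · rintro ⟨_, ⟨y₁, ⟨x, hx, hT⟩, rfl⟩, hy⟩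
      obtain ⟨w, hw⟩ := tq_ext hC h.fin.countable (tq_symm hT) (s1 y)
      rw [← s1_eq w] at hw
      have h1 : w 0 ∈ Pc L A x := by
        refine pc_tq0 hC h.fin.countable ?_ hy
        refine tq_congr (tq_sub hw ![Sum.inl 0, Sum.inr 0]) ?_ ?_
        · funext i
          fin_cases i <;> rfl
        · funext i
          fin_cases i <;> rfl
      rw [fr_pc hC h hx] at h1
      exact ⟨w 0, h1, tq_symm (tq_sub hw (Sum.inr : Fin 1 → Fin 1 ⊕ Fin 1))⟩
  rw [e]
  refine bf_sUnion hC h.fin.countable ?_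
  rintro _ ⟨y, -, rfl⟩
  exact pc_bf hC y

/-- **FRV with types** -/
theorem frx (hC : Cz L U) (h : Fr0 L A r) : FreV L A (TE L A r) (Cl0 L A) := by
  refine frev_sub (fre_v hC h.fin) ?_ (te_bf hC h) ?_
  · rintro y ⟨x, hx, hT⟩
    exact fe0_tq hC hT ⟨r, h, hx⟩
  · rintro y y' hT' ⟨x, hx, hT⟩
    exact ⟨x, hx, tq_trans hT hT'⟩

/-- an element of the end over `A` outside the end over `B` is in the cluster of an element of `B` -/
theorem frx_out (hC : Cz L U) (h : Fr0 L A r) {B : Set U} (hAB : A ⊆ B) (hB : B.Finite) {z : U}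
    (hz : z ∈ En L A r) (hz' : z ∉ En L B r) : ∃ b ∈ B, b ∈ En L A r ∧ Cl0 L A b z := by
  have h1 : ∃ b ∈ B, z ∉ En L (insert b A) r := by
    by_contra hcon
    push Not at hcon
    have h2 := fr_c' hC hB h hz hcon
    rw [union_eq_self_of_subset_left hAB] at h2
    exact hz' h2
  obtain ⟨b, hb, hbz⟩ := h1
  have h2 : b ∈ En L A r := by
    by_contra h3
    rw [fr_add hC h h3] at hbz
    exact hbz hz
  exact ⟨b, hb, h2, (fr_cl0 hC h h2 hz).2 hbz⟩

end

end Pool.Agent.TPY
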