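import Pool.Agent.TPY.StF
import Pool.Agent.TPY.FAM
import Pool.Agent.TPY.Fre1

/-!
# TPY (port of TPX), module LBN (helper47): orthogonality to the points below, and in both directions
-/

set_option autoImplicit false
set_option linter.unusedVariables false
set_option linter.unusedSectionVars false

namespace Pool.Agent.TPY

open FirstOrder.Language Set
open scoped FirstOrder
open Pool.Agent.MNO

section

variable {L : FirstOrder.Language.{0, 0}} {U : Type} [L.Structure U]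

/-- the common core: a relation with parameters `δ` which are in good position -/
theorem lbn_core (hFAM : St_FAM) (hC : Cz L U) {α γ : Type} [Finite α] [Finite γ] {A : Set U}
    (hA : A.Finite) (a : α → U) (δ : γ → U) (Ok : (γ → U) → (α → U) → Prop)
    (h1 : ∀ δ' x δ'' x', Sq L A (Sum.elim δ' x) (Sum.elim δ'' x') → Ok δ' x → Ok δ'' x')
    (h2 : ∀ (k : ℕ) (z : Fin k → α → U), (∀ i, Sq L A a (z i)) →
      ∃ δ', Sq L A δ δ' ∧ ∀ i, Ok δ' (z i))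
    (h3 : ∀ x x' δ' δ'', Sq L A a x → Sq L A a x' → Sq L A δ δ' → Sq L A δ δ'' → Ok δ' x → Ok δ' x' →
      Ok δ'' x → Ok δ'' x' → Sq L (A ∪ (range x ∪ range x')) δ' δ'') :
    ∀ x x', Sq L A a x → Sq L A a x' → Ok δ x → Ok δ x' → Sq L (A ∪ range δ) x x' := by
  intro x x' hx hx' ho ho' E hE
  obtain ⟨F, hF, hFf, hFE⟩ := hFAM L U hC α γ A δ E hE
  have key1 : ∀ (u v : α → U) (δ' δ'' : γ → U), Sq L (A ∪ (range u ∪ range v)) δ' δ'' →
      (F δ' u v ↔ F δ'' u v) := by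
    intro u v δ' δ'' h
    have h5 := dp_mono (subset_union_left (s := A) (t := range u ∪ range v))
      (dp_sub hF (Sum.swap : (α ⊕ α) ⊕ γ → γ ⊕ (α ⊕ α)))
    have h6 := dp_par h5 (Sum.elim u v) (by
      rintro (i | i)
      · exact Or.inr (Or.inl ⟨i, rfl⟩)
      · exact Or.inr (Or.inr ⟨i, rfl⟩))
    exact sq_dp h h6
  have key2 : ∀ (u v u' v' : α → U) (δ' δ'' : γ → U),
      Sq L A (Sum.elim (Sum.elim u v) δ') (Sum.elim (Sum.elim u' v') δ'') →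
      (F δ' u v ↔ F δ'' u' v') := fun u v u' v' δ' δ'' h => sq_dp h hF
  obtain ⟨k, hk⟩ := fe_num hE
  have main := bnd hC hA a (fun u v => ∃ δ', Sq L A δ δ' ∧ Ok δ' u ∧ Ok δ' v ∧ F δ' u v)
    (by
      rintro u v _ _ ⟨δ', hδ, hu, hv, hf⟩
      exact ⟨δ', hδ, hv, hu, (hFf δ').eqv.symm hf⟩)
    (by
      rintro u v w hu hv hw ⟨δ1, hδ1, a1, a2, a3⟩ ⟨δ2, hδ2, b1, b2, b3⟩
      obtain ⟨δ', hδ', hO⟩ := h2 3 ![u, v, w] (by
        intro i
        fin_cases i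
        · exact hu
        · exact hv
        · exact hw)
      have o1 : Ok δ' u := hO 0
      have o2 : Ok δ' v := hO 1
      have o3 : Ok δ' w := hO 2
      refine ⟨δ', hδ', o1, o3, (hFf δ').eqv.trans (y := v) ?_ ?_⟩
      · exact (key1 u v δ1 δ' (h3 u v δ1 δ' hu hv hδ1 hδ' a1 a2 o1 o2)).1 a3
      · exact (key1 v w δ2 δ' (h3 v w δ2 δ' hv hw hδ2 hδ' b1 b2 o2 o3)).1 b3)
    (by
      rintro u v u' v' hu hv h ⟨δ1, hδ1, a1, a2, a3⟩
      obtain ⟨δ2, hδ2⟩ := sq_ext hC hA.countable h δ1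
      refine ⟨δ2, sq_trans hδ1 (sq_right hδ2), h1 δ1 u δ2 u' (sq_cov hδ2 ?_) a1,
        h1 δ1 v δ2 v' (sq_cov hδ2 ?_) a2, (key2 u v u' v' δ1 δ2 hδ2).1 a3⟩
      · rintro (i | i)
        · exact ⟨Sum.inr i, rfl, rfl⟩
        · exact ⟨Sum.inl (Sum.inl i), rfl, rfl⟩
      · rintro (i | i)
        · exact ⟨Sum.inr i, rfl, rfl⟩
        · exact ⟨Sum.inl (Sum.inr i), rfl, rfl⟩)
    k
    (by
      intro z hz
      obtain ⟨δ', hδ', hO⟩ := h2 (k + 1) z hz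
      obtain ⟨zf, hzf⟩ := sq_ext hC hA.countable (sq_symm hδ')
        (fun p : Fin (k + 1) × α => z p.1 p.2)
      obtain ⟨i, j, hij, hE'⟩ := hk (fun i b => zf (i, b))
      refine ⟨i, j, hij, δ', hδ', hO i, hO j, ?_⟩
      refine (key2 (z i) (z j) (fun b => zf (i, b)) (fun b => zf (j, b)) δ' δ (sq_cov hzf ?_)).2
        ((hFE _ _).2 hE')
      rintro ((b | b) | b)
      · exact ⟨Sum.inr (i, b), rfl, rfl⟩
      · exact ⟨Sum.inr (j, b), rfl, rfl⟩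
      · exact ⟨Sum.inl b, rfl, rfl⟩)
  obtain ⟨δ', hδ', o1, o2, hf⟩ := main x x' hx hx'
  refine (hFE x x').1 ((key1 x x' δ' δ ?_).1 hf)
  exact h3 x x' δ' δ hx hx' hδ' (sq_refl A δ) o1 o2 ho ho'

variable {A P : Set U} {lt : U → U → Prop}

theorem lo0_mem (hC : Cz L U) (h : LO0 L A P lt) {x y : U} (hxy : Sq L A (s1 x) (s1 y))
    (hx : x ∈ P) : y ∈ P := by
  have h1 := pc_sq hC hxy
  rw [h.pc x hx] at h1
  exact h1

theorem lo0_mems (hC : Cz L U) (h : LO0 L A P lt) {α : Type} {x y : α → U} (hxy : Sq L A x y)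
    (hx : ∀ i, x i ∈ P) (i : α) : y i ∈ P :=
  lo0_mem hC h (sq_cov hxy (fun _ => ⟨i, rfl, rfl⟩)) (hx i)

theorem lo0_lt (h : LO0 L A P lt) {α : Type} {x y : α → U} (hxy : Sq L A x y) (i j : α)
    (hi : x i ∈ P) (hj : x j ∈ P) (hlt : lt (x i) (x j)) : lt (y i) (y j) := by
  refine h.inv _ _ _ _ (sq_cov hxy ?_) hi hj hlt
  intro k
  fin_cases k
  · exact ⟨i, rfl, rfl⟩
  · exact ⟨j, rfl, rfl⟩

/-- copies below a finite set -/
theorem lo0_bel (hC : Cz L U) (h : LO0 L A P lt) {γ : Type} [Finite γ] (δ : γ → U)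
    (hδ : ∀ i, δ i ∈ P) {X : Set U} (hX : X.Finite) (hXP : X ⊆ P) :
    ∃ δ' : γ → U, Sq L A δ δ' ∧ (∀ i, δ' i ∈ P) ∧ ∀ i, ∀ x ∈ X, lt (δ' i) x := by
  obtain ⟨z, hz⟩ := h.ne
  obtain ⟨t, ht, htδ, -⟩ := h.gap (range δ) ∅ (finite_range δ) finite_empty
    (range_subset_iff.2 hδ) (empty_subset _) (fun d _ w hw => absurd hw (notMem_empty _)) z hz
  have htP := lo0_mem hC h ht hz
  obtain ⟨t', ht', -, htX⟩ := h.gap ∅ X finite_empty hX (empty_subset _) hXP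
    (fun d hd => absurd hd (notMem_empty _)) t htP
  have htP' := lo0_mem hC h ht' htP
  obtain ⟨δ', hδ'⟩ := sq_ext hC h.fin.countable ht' δ
  have hP : ∀ i, δ' i ∈ P := lo0_mems hC h (sq_right hδ') hδ
  refine ⟨δ', sq_right hδ', hP, fun i x hx => ?_⟩
  have h1 : lt (δ' i) t' :=
    lo0_lt h hδ' (Sum.inr i) (Sum.inl 0) (hδ i) htP (htδ (δ i) ⟨i, rfl⟩)
  exact h.tra (δ' i) (hP i) t' htP' x (hXP hx) h1 (htX x hx)

/-- copies above a finite set -/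
theorem lo0_abv (hC : Cz L U) (h : LO0 L A P lt) {γ : Type} [Finite γ] (δ : γ → U)
    (hδ : ∀ i, δ i ∈ P) {X : Set U} (hX : X.Finite) (hXP : X ⊆ P) :
    ∃ δ' : γ → U, Sq L A δ δ' ∧ (∀ i, δ' i ∈ P) ∧ ∀ i, ∀ x ∈ X, lt x (δ' i) := by
  obtain ⟨z, hz⟩ := h.ne
  obtain ⟨t, ht, -, htδ⟩ := h.gap ∅ (range δ) finite_empty (finite_range δ) (empty_subset _)
    (range_subset_iff.2 hδ) (fun d hd => absurd hd (notMem_empty _)) z hz
  have htP := lo0_mem hC h ht hz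
  obtain ⟨t', ht', htX, -⟩ := h.gap X ∅ hX finite_empty hXP (empty_subset _)
    (fun d _ w hw => absurd hw (notMem_empty _)) t htP
  have htP' := lo0_mem hC h ht' htP
  obtain ⟨δ', hδ'⟩ := sq_ext hC h.fin.countable ht' δ
  have hP : ∀ i, δ' i ∈ P := lo0_mems hC h (sq_right hδ') hδ
  refine ⟨δ', sq_right hδ', hP, fun i x hx => ?_⟩
  have h1 : lt t' (δ' i) :=
    lo0_lt h hδ' (Sum.inl 0) (Sum.inr i) htP (hδ i) (htδ (δ i) ⟨i, rfl⟩)
  exact h.tra x (hXP hx) t' htP' (δ' i) (hP i) (htX x hx) h1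

/-- orthogonality to the points below -/
theorem lo0_one (hFAM : St_FAM) (hC : Cz L U) (h : LO0 L A P lt) {α : Type} [Finite α] {n : ℕ}
    (δ : Fin n → U) (hδ : ∀ i, δ i ∈ P) (x x' : α → U) (hx : ∀ i, x i ∈ P) (hxx : Sq L A x x')
    (hlt : ∀ d i, lt (δ d) (x i)) (hlt' : ∀ d i, lt (δ d) (x' i)) :
    Sq L (A ∪ range δ) x x' := by
  have hx' := lo0_mems hC h hxx hx
  refine lbn_core hFAM hC h.fin x δ
    (fun e y => (∀ d, e d ∈ P) ∧ (∀ i, y i ∈ P) ∧ ∀ d i, lt (e d) (y i)) ?_ ?_ ?_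
    x x' (sq_refl A x) hxx ⟨hδ, hx, hlt⟩ ⟨hδ, hx', hlt'⟩
  · rintro e y e' y' hs ⟨h1, h2, h3⟩
    exact ⟨lo0_mems hC h (sq_left hs) h1, lo0_mems hC h (sq_right hs) h2,
      fun d i => lo0_lt h hs (Sum.inl d) (Sum.inr i) (h1 d) (h2 i) (h3 d i)⟩
  · intro k z hz
    have hzP : ∀ i b, z i b ∈ P := fun i => lo0_mems hC h (hz i) hx
    obtain ⟨δ', h1, h2, h3⟩ := lo0_bel hC h δ hδ (X := range (fun p : Fin k × α => z p.1 p.2))
      (finite_range _) (by rintro _ ⟨p, rfl⟩; exact hzP p.1 p.2)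
    exact ⟨δ', h1, fun i => ⟨h2, hzP i, fun d b => h3 d _ ⟨(i, b), rfl⟩⟩⟩
  · rintro y y' e e' - - he he' ⟨a1, a2, a3⟩ ⟨-, b2, b3⟩ ⟨c1, -, c3⟩ ⟨-, -, d3⟩
    refine h.orl n e e' (range y ∪ range y') ((finite_range y).union (finite_range y')) ?_ a1
      (sq_trans (sq_symm he) he') ?_
    · rintro _ (⟨i, rfl⟩ | ⟨i, rfl⟩)
      · exact a2 i
      · exact b2 i
    · rintro _ (⟨j, rfl⟩ | ⟨j, rfl⟩) i
      · exact ⟨a3 i j, c3 i j⟩
      · exact ⟨b3 i j, d3 i j⟩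

/-- orthogonality to the points of a finite set below -/
theorem lo0_one' (hFAM : St_FAM) (hC : Cz L U) (h : LO0 L A P lt) {α : Type} [Finite α]
    {D : Set U} (hD : D.Finite) (hDP : D ⊆ P) (x x' : α → U) (hx : ∀ i, x i ∈ P)
    (hxx : Sq L A x x') (hlt : ∀ d ∈ D, ∀ i, lt d (x i) ∧ lt d (x' i)) : Sq L (A ∪ D) x x' := by
  obtain ⟨n, δ, rfl⟩ := exists_enum hD
  exact lo0_one hFAM hC h δ (fun i => hDP ⟨i, rfl⟩) x x' hx hxx (fun d i => (hlt _ ⟨d, rfl⟩ i).1)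
    fun d i => (hlt _ ⟨d, rfl⟩ i).2

/-- orthogonality in both directions -/
theorem lo0_two (hFAM : St_FAM) (hC : Cz L U) (h : LO0 L A P lt) {α : Type} [Finite α]
    [Nonempty α] {n p : ℕ} (δ : Fin n → U) (ω : Fin p → U) (hδ : ∀ i, δ i ∈ P) (hω : ∀ i, ω i ∈ P)
    (x x' : α → U) (hx : ∀ i, x i ∈ P) (hxx : Sq L A x x')
    (hlt : ∀ d i, lt (δ d) (x i)) (hlt' : ∀ d i, lt (δ d) (x' i))
    (hgt : ∀ d i, lt (x i) (ω d)) (hgt' : ∀ d i, lt (x' i) (ω d)) :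
    Sq L (A ∪ range (Sum.elim δ ω)) x x' := by
  have hx' := lo0_mems hC h hxx hx
  obtain ⟨i₀⟩ := (inferInstance : Nonempty α)
  have hδω : ∀ d j, lt (δ d) (ω j) := fun d j =>
    h.tra _ (hδ d) _ (hx i₀) _ (hω j) (hlt d i₀) (hgt j i₀)
  refine lbn_core hFAM hC h.fin x (Sum.elim δ ω)
    (fun e y => (∀ d, e d ∈ P) ∧ (∀ i, y i ∈ P) ∧ (∀ d i, lt (e (Sum.inl d)) (y i)) ∧
      ∀ d i, lt (y i) (e (Sum.inr d))) ?_ ?_ ?_
    x x' (sq_refl A x) hxx ⟨?_, hx, hlt, hgt⟩ ⟨?_, hx', hlt', hgt'⟩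
  · rintro e y e' y' hs ⟨h1, h2, h3, h4⟩
    exact ⟨lo0_mems hC h (sq_left hs) h1, lo0_mems hC h (sq_right hs) h2,
      fun d i => lo0_lt h hs (Sum.inl (Sum.inl d)) (Sum.inr i) (h1 _) (h2 i) (h3 d i),
      fun d i => lo0_lt h hs (Sum.inr i) (Sum.inl (Sum.inr d)) (h2 i) (h1 _) (h4 d i)⟩
  · intro k z hz
    have hzP : ∀ i b, z i b ∈ P := fun i => lo0_mems hC h (hz i) hx
    obtain ⟨δ', a1, a2, a3⟩ := lo0_bel hC h δ hδ (X := range (fun p : Fin k × α => z p.1 p.2))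
      (finite_range _) (by rintro _ ⟨p, rfl⟩; exact hzP p.1 p.2)
    obtain ⟨ω', b1, b2, b3⟩ := lo0_abv hC h ω hω
      (X := range (fun p : Fin k × α => z p.1 p.2) ∪ range δ')
      ((finite_range _).union (finite_range _)) (by
        rintro _ (⟨p, rfl⟩ | ⟨i, rfl⟩)
        · exact hzP p.1 p.2
        · exact a2 i)
    obtain ⟨δ'', hδ''⟩ := sq_ext hC h.fin.countable b1 δ
    have c1 : ∀ d j, lt (δ'' d) (ω' j) := fun d j =>
      lo0_lt h hδ'' (Sum.inr d) (Sum.inl j) (hδ d) (hω j) (hδω d j)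
    have c2 : ∀ d, δ'' d ∈ P := lo0_mems hC h (sq_right hδ'') hδ
    have c3 : Sq L (A ∪ range ω') δ'' δ' := by
      refine h.orl n δ'' δ' (range ω') (finite_range ω') (range_subset_iff.2 b2) c2
        (sq_trans (sq_symm (sq_right hδ'')) a1) ?_
      rintro _ ⟨j, rfl⟩ i
      exact ⟨c1 i j, b3 j _ (Or.inr ⟨i, rfl⟩)⟩
    have c4 : Sq L A (Sum.elim δ'' ω') (Sum.elim δ' ω') :=
      sq_mono subset_union_left (sq_add c3 ω' fun i => Or.inr ⟨i, rfl⟩)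
    have c5 : Sq L A (Sum.elim δ ω) (Sum.elim δ'' ω') := by
      refine sq_cov hδ'' ?_
      rintro (i | i)
      · exact ⟨Sum.inr i, rfl, rfl⟩
      · exact ⟨Sum.inl i, rfl, rfl⟩
    refine ⟨Sum.elim δ' ω', sq_trans c5 c4, fun i => ⟨?_, hzP i, fun d b => a3 d _ ⟨(i, b), rfl⟩,
      fun d b => b3 d _ (Or.inl ⟨(i, b), rfl⟩)⟩⟩
    rintro (d | d)
    · exact a2 d
    · exact b2 d
  · rintro y y' e e' - - he he' ⟨a1, a2, a3, a4⟩ ⟨-, b2, b3, b4⟩ ⟨c1, -, c3, c4⟩ ⟨-, -, d3, d4⟩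
    have hee := sq_trans (sq_symm he) he'
    have hl : Sq L A (fun i => e (Sum.inl i)) (fun i => e' (Sum.inl i)) := sq_sub hee Sum.inl
    have hr : Sq L A (fun i => e (Sum.inr i)) (fun i => e' (Sum.inr i)) := sq_sub hee Sum.inr
    have st1 : Sq L (A ∪ (range y ∪ range y' ∪ range (fun i => e (Sum.inr i))))
        (fun i => e (Sum.inl i)) (fun i => e' (Sum.inl i)) := by
      refine h.orl n _ _ _ (((finite_range y).union (finite_range y')).union (finite_range _)) ?_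
        (fun i => a1 _) hl ?_
      · rintro _ ((⟨i, rfl⟩ | ⟨i, rfl⟩) | ⟨i, rfl⟩)
        · exact a2 i
        · exact b2 i
        · exact a1 _
      · rintro _ ((⟨j, rfl⟩ | ⟨j, rfl⟩) | ⟨j, rfl⟩) i
        · exact ⟨a3 i j, c3 i j⟩
        · exact ⟨b3 i j, d3 i j⟩
        · exact ⟨h.tra _ (a1 _) _ (a2 i₀) _ (a1 _) (a3 i i₀) (a4 j i₀),
            h.tra _ (c1 _) _ (a2 i₀) _ (a1 _) (c3 i i₀) (a4 j i₀)⟩
    have st2 : Sq L (A ∪ (range y ∪ range y' ∪ range (fun i => e' (Sum.inl i))))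
        (fun i => e (Sum.inr i)) (fun i => e' (Sum.inr i)) := by
      refine lo0_one' hFAM hC h (((finite_range y).union (finite_range y')).union (finite_range _))
        ?_ _ _ (fun i => a1 _) hr ?_
      · rintro _ ((⟨i, rfl⟩ | ⟨i, rfl⟩) | ⟨i, rfl⟩)
        · exact a2 i
        · exact b2 i
        · exact c1 _
      · rintro _ ((⟨j, rfl⟩ | ⟨j, rfl⟩) | ⟨j, rfl⟩) i
        · exact ⟨a4 i j, c4 i j⟩
        · exact ⟨b4 i j, d4 i j⟩
        · exact ⟨h.tra _ (c1 _) _ (a2 i₀) _ (a1 _) (c3 j i₀) (a4 i i₀),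
            h.tra _ (c1 _) _ (a2 i₀) _ (c1 _) (c3 j i₀) (c4 i i₀)⟩
    have hsub : A ∪ (range y ∪ range y') ⊆ A ∪ (range y ∪ range y' ∪ range (fun i => e (Sum.inr i))) :=
      union_subset_union_right _ subset_union_left
    have hsub' : A ∪ (range y ∪ range y') ⊆ A ∪ (range y ∪ range y' ∪ range (fun i => e' (Sum.inl i))) :=
      union_subset_union_right _ subset_union_left
    have t1 := sq_mono hsub (sq_add st1 (fun i => e (Sum.inr i)) fun i => Or.inr (Or.inr ⟨i, rfl⟩))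
    have t2 := sq_mono hsub' (sq_add st2 (fun i => e' (Sum.inl i)) fun i => Or.inr (Or.inr ⟨i, rfl⟩))
    refine sq_trans (y := Sum.elim (fun i => e' (Sum.inl i)) (fun i => e (Sum.inr i))) ?_ ?_
    · refine sq_cov t1 ?_
      rintro (i | i)
      · exact ⟨Sum.inl i, rfl, rfl⟩
      · exact ⟨Sum.inr i, rfl, rfl⟩
    · refine sq_cov t2 ?_
      rintro (i | i)
      · exact ⟨Sum.inr i, rfl, rfl⟩
      · exact ⟨Sum.inl i, rfl, rfl⟩
  · rintro (d | d)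
    · exact hδ d
    · exact hω d
  · rintro (d | d)
    · exact hδ d
    · exact hω d

end

/-- [LBN] orthogonality to the points below, and in both directions -/
theorem thm_LBN : St_LBN := by
  intro L U _ hC A P lt h
  refine ⟨h, ?_⟩
  intro m u u' D W hD hW hDP hWP hu huu hDu hWu
  rcases m with _ | m
  · have hm : u = u' := funext fun i => i.elim0
    rw [hm]
    exact sq_refl _ _
  · obtain ⟨n, δ, rfl⟩ := exists_enum hD
    obtain ⟨p, ω, rfl⟩ := exists_enum hW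
    have h1 := lo0_two thm_FAM hC h δ ω (fun i => hDP ⟨i, rfl⟩) (fun i => hWP ⟨i, rfl⟩) u u' hu huu
      (fun d i => (hDu _ ⟨d, rfl⟩ i).1) (fun d i => (hDu _ ⟨d, rfl⟩ i).2)
      (fun d i => (hWu _ ⟨d, rfl⟩ i).1) (fun d i => (hWu _ ⟨d, rfl⟩ i).2)
    rw [Set.Sum.elim_range, ← union_assoc] at h1
    exact h1

end Pool.Agent.TPY
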