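import Pool.Agent.TPY.StF

/-!
# TPY module LQX (helper8): linear pieces over more parameters outside the piece
-/

set_option autoImplicit false
set_option linter.unusedVariables false

namespace Pool.Agent.TPY

open FirstOrder.Language Set
open scoped FirstOrder
open Pool.Agent.MNO

section

variable {L : FirstOrder.Language.{0, 0}} {U : Type} [L.Structure U]

theorem lqx_of (hC : Cz L U) {A B D P : Set U} (hAB : A ⊆ B) (hB : B.Finite) (hD : D.Finite) (hP : BF L A P)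
    (hBP : ∀ b ∈ B, b ∉ P) {α : Type} [Finite α] {u u' : α → U} (hu : ∀ i, u i ∈ P)
    (h : Sq L (A ∪ D) u u') : Sq L (B ∪ D) u u' := by
  obtain ⟨k, b, hb⟩ := exists_enum hB
  have h1 := of (w := b) hC ((hB.subset hAB).union hD) subset_union_left hP hu h
    (fun j => hBP _ (by rw [← hb]; exact ⟨j, rfl⟩))
  rw [hb] at h1
  refine sq_mono ?_ h1
  rintro v (hv | hv)
  · exact Or.inr hv
  · exact Or.inl (Or.inr hv)

/-- a linear piece over more parameters outside the piece -/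
theorem lqx_lo0 (hC : Cz L U) {A B P : Set U} {lt : U → U → Prop} (h : LO0 L A P lt) (hAB : A ⊆ B)
    (hB : B.Finite) (hBP : ∀ b ∈ B, b ∉ P) : LO0 L B P lt := by
  have hbf : BF L A P := by
    obtain ⟨x, hx⟩ := h.ne
    rw [← h.pc x hx]
    exact pc_bf hC x
  refine ⟨hB, h.ne, fun x hx => ?_, fun x y x' y' hs => h.inv x y x' y' (sq_mono hAB hs), h.irr, h.tra,
    h.neg, fun D W hD hW hDP hWP hDW z hz => ?_, fun m u u' W hW hWP hu hs hlt => ?_⟩
  · have h1 : Pc L B x = Pc L A x := by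
      refine nnl' hC h.fin hB hAB (fun hxA => hBP x (hAB hxA) hx) (fun b hb _ hbx => ?_)
      rw [h.pc x hx] at hbx
      exact hBP b hb hbx
    rw [h1, h.pc x hx]
  · obtain ⟨z', h1, h2, h3⟩ := h.gap D W hD hW hDP hWP hDW z hz
    refine ⟨z', ?_, h2, h3⟩
    have h4 := lqx_of hC (D := ∅) hAB hB finite_empty hbf hBP (u := s1 z) (u' := s1 z') (fun _ => hz)
      (by rw [union_empty]; exact h1)
    rw [union_empty] at h4
    exact h4
  · exact lqx_of hC hAB hB hW hbf hBP hu (h.orl m u u' W hW hWP hu (sq_mono hAB hs) hlt)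

theorem lqx_lo (hC : Cz L U) {A B P : Set U} {lt : U → U → Prop} (h : LO L A P lt) (hAB : A ⊆ B)
    (hB : B.Finite) (hBP : ∀ b ∈ B, b ∉ P) : LO L B P lt := by
  have hbf : BF L A P := by
    obtain ⟨x, hx⟩ := h.lo0.ne
    rw [← h.lo0.pc x hx]
    exact pc_bf hC x
  refine ⟨lqx_lo0 hC h.lo0 hAB hB hBP, fun m u u' D W hD hW hDP hWP hu hs h1 h2 => ?_⟩
  have h3 := h.ort m u u' D W hD hW hDP hWP hu (sq_mono hAB hs) h1 h2
  rw [union_assoc] at h3 ⊢
  exact lqx_of hC hAB hB (hD.union hW) hbf hBP hu h3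

theorem lqx_up (hC : Cz L U) {A B P : Set U} {lt : U → U → Prop} (h : LQ L A P lt) (hAB : A ⊆ B)
    (hB : B.Finite) (hBP : ∀ b ∈ B, b ∉ P) : LQ L B P lt :=
  ⟨lqx_lo hC h.lo hAB hB hBP, fun y₁ y₂ u v u' v' h1 h2 h3 h4 h5 h6 =>
    h.cn y₁ y₂ u v u' v' h1 h2 h3 h4 h5 (tq_mono hAB h6)⟩

/-- the part below a point -/
theorem lqx_dn (hLOH : St_LOH) (hC : Cz L U) {A P : Set U} {lt : U → U → Prop} (h : LQ L A P lt) {y : U}
    (hy : y ∈ P) : LQ L (insert y A) {v | v ∈ P ∧ lt v y} lt :=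
  ⟨(hLOH L U hC A P lt h.lo).2.2.1 y hy, fun y₁ y₂ u v u' v' h1 h2 h3 h4 h5 h6 =>
    h.cn y₁ y₂ u v u' v' h1.1 h2.1 h3.1 h4.1 h5 (tq_mono (subset_insert y A) h6)⟩

end

end Pool.Agent.TPY
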