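import Pool.Agent.TPY.Tqp
import Pool.Agent.TPY.DefB
import Pool.Agent.TPC.Defs

/-!
# TPY (port of TPX), bridge, part 1: pieces of the countable saturated model `U` and of the countably saturated model `V`
-/

set_option autoImplicit false
set_option linter.unusedVariables false

namespace Pool.Agent.TPY

open FirstOrder.Language Set
open scoped FirstOrder
open Pool.Agent.MNO
open Pool.Agent.WOM (tp Mon IsEl IsoM CtU Fx Orb Isd)

section

variable {L : FirstOrder.Language.{0, 0}} {U : Type} [L.Structure U] {A : Set U}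

theorem sq_tq0 {α : Type} [Finite α] {x y x' y' : α → U} (h : Tq L A (Sum.elim x y) (Sum.elim x' y'))
    (hs : Sq L A x y) : Sq L A x' y' := by
  have h1 := sq_tq (γ := Empty) (c := fun e => e.elim) (c' := fun e => e.elim)
    (x := x) (y := y) (x' := x') (y' := y') (tq_add h (fun e : Empty => (e.elim : U)) (fun e => e.elim)) (by
      rw [range_eq_empty, union_empty]
      exact hs)
  rw [range_eq_empty, union_empty] at h1
  exact h1

theorem exq_mon (hM : Mon L U) (hA : A.Finite) : Exq L A := by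
  intro m n u u' c h
  obtain ⟨g, hg, hgu⟩ := nx_of_sq hM hA h
  refine ⟨fun j => g (c j), ?_⟩
  have h1 := nx_sq hg (Sum.elim u c)
  have e : (fun i => g (Sum.elim u c i)) = Sum.elim u' (fun j => g (c j)) := by
    funext i
    rcases i with i | i
    · exact hgu i
    · rfl
  rw [e] at h1
  exact h1

theorem bf_compl' (hx : Exq L A) {Q : Set U} (hQ : BF L A Q) : BF L A Qᶜ := by
  refine ⟨fun x y h hx hy => hx (hQ.inv _ _ (sq_symm h) hy), fun m n u u' w hu hu' hw h => ?_⟩
  have hw' : ∀ j, w j ∈ Q := fun j => by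
    by_contra hc
    exact hw j hc
  obtain ⟨c, hc⟩ := exq_fin hx h w
  have h1 : Sq L A c w := sq_symm (sq_right hc)
  have h2 := bf_prd hQ (u := c) (u' := w) (w := u') (fun j => (bf_inv hQ h1 j).2 (hw' j)) hu' h1
  exact sq_trans hc (sq_swap h2)

theorem bq_iff (hM : Mon L U) (hA : A.Finite) {Q : Set U} : Pool.Agent.TPC.Bq L A Q ↔ BF L A Q := by
  classical
  constructor
  · intro h
    refine ⟨fun x y hxy hx => ?_, fun m n u u' w hu hu' hw huu' => ?_⟩
    · obtain ⟨g, hg, hgx⟩ := nx_of_sq hM hA hxy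
      have h1 := (h.inv g hg x).2 hx
      have h2 : g x = y := hgx 0
      rw [h2] at h1
      exact h1
    · obtain ⟨g, hg, hgu⟩ := nx_of_sq hM hA huu'
      obtain ⟨f, hf, hf1, hf2⟩ := h.glu g hg
      have h1 := nx_sq hf (Sum.elim u w)
      have e : (fun i => f (Sum.elim u w i)) = Sum.elim u' w := by
        funext i
        rcases i with i | i
        · show f (u i) = u' i
          rw [hf1 _ (hu i), hgu]
        · exact hf2 _ (hw i)
      rw [e] at h1
      exact h1
  · intro h
    have hinv : ∀ g : U ≃[L] U, Nx L A g → ∀ x, g x ∈ Q ↔ x ∈ Q := by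
      intro g hg x
      have h1 : Sq L A (s1 x) (s1 (g x)) := nx_sq hg (s1 x)
      exact (bf_inv1 h h1).symm
    refine ⟨hinv, fun g hg => ?_⟩
    have hinv' : ∀ x, g.symm x ∈ Q ↔ x ∈ Q := hinv g.symm (nx_symm hg)
    let f : U ≃ U := {
      toFun := fun x => if x ∈ Q then g x else x
      invFun := fun x => if x ∈ Q then g.symm x else x
      left_inv := by
        intro x
        by_cases hx : x ∈ Q
        · have h1 : g x ∈ Q := (hinv g hg x).2 hx
          simp only [if_pos hx, if_pos h1]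
          exact g.symm_apply_apply x
        · simp only [if_neg hx]
      right_inv := by
        intro x
        by_cases hx : x ∈ Q
        · have h1 : g.symm x ∈ Q := (hinv' x).2 hx
          simp only [if_pos hx, if_pos h1]
          exact g.apply_symm_apply x
        · simp only [if_neg hx] }
    have hf1 : ∀ x ∈ Q, f x = g x := fun x hx => if_pos hx
    have hf2 : ∀ x, x ∉ Q → f x = x := fun x hx => if_neg hx
    obtain ⟨k, hk, hkf⟩ := nx_lim f (A := A) (by
      intro s hs
      obtain ⟨n, z, hz⟩ := exists_enum hs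
      have h1 : Sq L A (fun i : {i // z i ∈ Q} => z i) (fun i : {i // z i ∈ Q} => g (z i)) := nx_sq hg _
      have h2 := bf_prd h (w := fun i : {i // z i ∉ Q} => z i) (fun i => i.2) (fun j => j.2) h1
      have h3 := sq_sub h2 (fun i : Fin n => if hi : z i ∈ Q then Sum.inl ⟨i, hi⟩ else Sum.inr ⟨i, hi⟩)
      have e1 : (fun i : Fin n => Sum.elim (fun i : {i // z i ∈ Q} => z i) (fun i : {i // z i ∉ Q} => z i)
          (if hi : z i ∈ Q then Sum.inl ⟨i, hi⟩ else Sum.inr ⟨i, hi⟩)) = z := by
        funext i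
        by_cases hi : z i ∈ Q
        · rw [dif_pos hi]
          rfl
        · rw [dif_neg hi]
          rfl
      have e2 : (fun i : Fin n => Sum.elim (fun i : {i // z i ∈ Q} => g (z i)) (fun i : {i // z i ∉ Q} => z i)
          (if hi : z i ∈ Q then Sum.inl ⟨i, hi⟩ else Sum.inr ⟨i, hi⟩)) = fun i => f (z i) := by
        funext i
        by_cases hi : z i ∈ Q
        · rw [dif_pos hi, hf1 _ hi]
          rfl
        · rw [dif_neg hi, hf2 _ hi]
          rfl
      rw [e1, e2] at h3
      obtain ⟨k, hk, hkz⟩ := nx_of_sq hM hA h3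
      refine ⟨k, hk, fun x hx => ?_⟩
      rw [← hz] at hx
      obtain ⟨i, rfl⟩ := hx
      exact hkz i)
    exact ⟨k, hk, fun x hx => (hkf x).trans (hf1 x hx), fun x hx => (hkf x).trans (hf2 x hx)⟩

theorem pq_eq (hM : Mon L U) (hA : A.Finite) (x : U) : Pool.Agent.TPC.Pq L A x = Pc L A x := by
  ext y
  constructor
  · intro h Q hQ hx
    exact (h Q ((bq_iff hM hA).2 hQ)).1 hx
  · intro h Q hQ
    have hQ' := (bq_iff hM hA).1 hQ
    refine ⟨fun hx => h Q hQ' hx, fun hy => ?_⟩
    by_contra hx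
    exact h Qᶜ (bf_compl' (exq_mon hM hA) hQ') hx hy

end

/-! ### elementary embeddings -/

section emb

variable {L : FirstOrder.Language.{0, 0}} {U V : Type} [L.Structure U] [L.Structure V] {i : U → V}

theorem pre_img (hi : Emb L i) (A : Set U) : i ⁻¹' (i '' A) = A := preimage_image_eq A hi.inj

theorem sq_emb (hi : Emb L i) {A : Set U} (hA : A.Finite) {α : Type} [Finite α] (x y : α → U) :
    Sq L (i '' A) (fun j => i (x j)) (fun j => i (y j)) ↔ Sq L A x y := by
  constructor
  · intro h
    have h1 := sq_pull hi (hA.image i) (image_subset_range i A) h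
    rw [pre_img hi] at h1
    exact h1
  · intro h E hE
    have h1 := fe_pull hi (hA.image i) (image_subset_range i A) hE
    rw [pre_img hi] at h1
    exact h _ h1

theorem tq_emb (hi : Emb L i) {A : Set U} (hA : A.Finite) {α : Type} [Finite α] (x y : α → U) :
    Tq L (i '' A) (fun j => i (x j)) (fun j => i (y j)) ↔ Tq L A x y := by
  constructor
  · intro h P hP hx
    obtain ⟨Q, hQ, hPQ⟩ := dp_push hi hA hP
    exact (hPQ y).1 (h Q hQ ((hPQ x).2 hx))
  · intro h P hP hx
    have h1 := dp_pull hi (hA.image i) (image_subset_range i A) hP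
    rw [pre_img hi] at h1
    exact h _ h1 hx

/-- the types over finite sets of tuples of `V` are realised in `U` -/
theorem rlz (hi : Emb L i) (hM : Mon L U) {A : Set U} (hA : A.Finite) {α : Type} [Finite α] (v : α → V) :
    ∃ w : α → U, Tq L (i '' A) v (fun j => i (w j)) := by
  obtain ⟨w, hw⟩ := dp_sat hM hA (F := {P : (α → U) → Prop | ∃ Q : (α → V) → Prop, Dp L (i '' A) Q ∧ Q v ∧
      P = fun w => Q (fun j => i (w j))}) (by
      rintro P ⟨Q, hQ, -, rfl⟩
      have h1 := dp_pull hi (hA.image i) (image_subset_range i A) hQ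
      rw [pre_img hi] at h1
      exact h1) (by
      intro G hG hfin
      have h2 : ∀ P : (α → U) → Prop, ∃ Q : (α → V) → Prop, Dp L (i '' A) Q ∧ Q v ∧
          (P ∈ G → P = fun w => Q (fun j => i (w j))) := by
        intro P
        by_cases hP : P ∈ G
        · obtain ⟨Q, hQ, hQ', h3⟩ := hG hP
          exact ⟨Q, hQ, hQ', fun _ => h3⟩
        · exact ⟨fun _ => True, dp_true, trivial, fun h => absurd h hP⟩
      choose q hq hq' hq'' using h2
      obtain ⟨w, hw⟩ := el_ex hi (hA.image i) (image_subset_range i A)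
        (dp_ball hfin fun P _ => hq P) ⟨v, fun P _ => hq' P⟩
      refine ⟨w, fun P hP => ?_⟩
      rw [hq'' P hP]
      exact hw P hP)
  exact ⟨w, fun Q hQ hv => hw _ ⟨Q, hQ, hv, rfl⟩⟩

theorem ort_emb (hi : Emb L i) (hM : Mon L U) {A : Set U} (hA : A.Finite) {α β : Type}
    [Finite α] [Finite β] (u : α → U) (w : β → U) :
    Ort L (i '' A) (fun j => i (u j)) (fun j => i (w j)) ↔ Ort L A u w := by
  constructor
  · intro h u' hu'
    have h1 := h (fun j => i (u' j)) ((sq_emb hi hA u u').2 hu')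
    rw [← elim_comp, ← elim_comp] at h1
    exact (sq_emb hi hA _ _).1 h1
  · intro h v hv
    -- the type of `v` over `A u w`
    obtain ⟨u', hu'⟩ := rlz hi hM (hA.union ((finite_range u).union (finite_range w))) v
    have hA' : i '' (A ∪ (range u ∪ range w)) = i '' A ∪ (range (fun j => i (u j)) ∪ range (fun j => i (w j))) := by
      rw [image_union, image_union, ← range_comp, ← range_comp]
      rfl
    rw [hA'] at hu'
    have h1 := tq_mono subset_union_left (tq_sub (tq_add hu' (fun j => i (u j)) (fun j => Or.inr (Or.inl ⟨j, rfl⟩)))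
      (Sum.swap : α ⊕ α → α ⊕ α))
    have h2 : Sq L (i '' A) (fun j => i (u j)) (fun j => i (u' j)) := by
      refine sq_tq0 (x := fun j => i (u j)) (y := v) ?_ hv
      refine tq_congr h1 ?_ ?_ <;>
      · funext j
        rcases j with j | j <;> rfl
    have h3 := h u' ((sq_emb hi hA u u').1 h2)
    have h4 := (sq_emb hi hA _ _).2 h3
    have h5 := tq_mono subset_union_left (tq_sub (tq_symm (tq_add hu'
      (Sum.elim (fun j => i (u j)) (fun j => i (w j))) (by
        rintro (j | j)
        · exact Or.inr (Or.inl ⟨j, rfl⟩)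
        · exact Or.inr (Or.inr ⟨j, rfl⟩))))
      (Sum.elim Sum.inr (Sum.elim Sum.inl (fun j => Sum.inr (Sum.inr j))) :
        (α ⊕ β) ⊕ (α ⊕ β) → α ⊕ (α ⊕ β)))
    refine sq_tq0 (x := fun j => i (Sum.elim u w j)) (y := fun j => i (Sum.elim u' w j)) ?_ h4
    refine tq_congr h5 ?_ ?_ <;>
    · funext j
      rcases j with (j | j) | (j | j) <;> rfl

/-- members of the algebra of `V` restrict to members of the algebra of `U` -/
theorem bf_pre (hi : Emb L i) {A : Set U} (hA : A.Finite) {Q : Set V} (hQ : BF L (i '' A) Q) :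
    BF L A (i ⁻¹' Q) := by
  refine ⟨fun x y h hx => hQ.inv _ _ ?_ hx, fun m n u u' w hu hu' hw h => ?_⟩
  · have h1 := (sq_emb hi hA (s1 x) (s1 y)).2 h
    exact h1
  · have h1 := hQ.prd m n (fun j => i (u j)) (fun j => i (u' j)) (fun j => i (w j)) hu hu' hw
      ((sq_emb hi hA u u').2 h)
    rw [← elim_comp, ← elim_comp] at h1
    exact (sq_emb hi hA _ _).1 h1

theorem sp_emb (hi : Emb L i) (hM : Mon L U) {A : Set U} (hA : A.Finite) {ι : Type} [Finite ι]
    (z : ι → U) (I : Set ι) : Sp L (i '' A) (fun j => i (z j)) I ↔ Sp L A z I := by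
  constructor
  · intro h
    refine ⟨fun j k hjk hj => h.inv j k ?_ hj, (ort_emb hi hM hA _ _).1 h.ort⟩
    exact (sq_emb hi hA (s1 (z j)) (s1 (z k))).2 hjk
  · intro h
    refine ⟨fun j k hjk hj => h.inv j k ?_ hj, (ort_emb hi hM hA _ _).2 h.ort⟩
    exact (sq_emb hi hA (s1 (z j)) (s1 (z k))).1 hjk

theorem sp_tq0 (hC : Cz L V) {A : Set V} (hA : A.Countable) {ι : Type} [Finite ι] {z z' : ι → V}
    (h : Tq L A z z') {I : Set ι} (hI : Sp L A z I) : Sp L A z' I := by
  have h1 := sp_tq hC hA (γ := Empty) (c := fun e => e.elim) (c' := fun e => e.elim)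
    (z := z) (z' := z') (tq_add h (fun e : Empty => (e.elim : V)) (fun e => e.elim)) (I := I) (by
      rw [range_eq_empty, union_empty]
      exact hI)
  rw [range_eq_empty, union_empty] at h1
  exact h1

/-- the pieces of `U` and of `V` -/
theorem pc_emb (hC : Cz L V) (hi : Emb L i) (hM : Mon L U) {A : Set U} (hA : A.Finite) (x y : U) :
    i y ∈ Pc L (i '' A) (i x) ↔ y ∈ Pc L A x := by
  constructor
  · intro h R hR hx
    by_contra hy
    obtain ⟨Q, hQ, hxQ, hyQ⟩ := pc_sp (exq_of hC (hA.image i).countable) (x := i x) (y := i y) (by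
      intro n z
      obtain ⟨w, hw⟩ := rlz hi hM (hA.union (Set.toFinite {x, y})) z
      refine ⟨{k | Sum.elim ![x, y] w k ∈ R}, hx, hy, ?_⟩
      refine sp_tq0 hC (hA.image i).countable (z := fun j => i (Sum.elim ![x, y] w j)) ?_
        ((sp_emb hi hM hA _ _).2 (sp_bf hR _))
      have hA' : i '' (A ∪ {x, y}) = i '' A ∪ {i x, i y} := by
        rw [image_union, image_pair]
      rw [hA'] at hw
      have h1 := tq_mono subset_union_left (tq_sub (tq_symm (tq_add hw (![i x, i y] : Fin 2 → V) (by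
        intro k
        right
        fin_cases k
        · exact Or.inl rfl
        · exact Or.inr rfl))) (Sum.swap : Fin 2 ⊕ Fin n → Fin n ⊕ Fin 2))
      refine tq_congr h1 ?_ ?_
      · funext j
        rcases j with j | j
        · fin_cases j <;> rfl
        · rfl
      · funext j
        rcases j with j | j <;> rfl)
    exact hyQ (h Q hQ hxQ)
  · intro h Q hQ hx
    exact h (i ⁻¹' Q) (bf_pre hi hA hQ) hx

/-- points of `V` in the image of another embedding -/
theorem emb_ext (hC : Cz L V) (hi : Emb L i) (hM : Mon L U) {A : Set U} (hA : A.Finite) {n : ℕ}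
    (b : Fin n → V) : ∃ j : U → V, Emb L j ∧ (∀ a ∈ A, j a = i a) ∧ ∀ k, b k ∈ range j := by
  have hcU : Countable U := hM.ctb
  obtain ⟨w, hw⟩ := rlz hi hM hA b
  -- the type of `i` over `i A`
  obtain ⟨v, hv⟩ := tq_ext' hC (hA.image i).countable (tq_symm hw) i
  have h1 : Tq L (∅ : Set V) i v := by
    exact tq_mono (empty_subset _) (tq_sub hv Sum.inr)
  have hva : ∀ a ∈ A, v a = i a := by
    intro a ha
    exact tq_par (tq_sub hv Sum.inr) a ⟨a, ha, rfl⟩
  have hvw : ∀ k, v (w k) = b k := by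
    intro k
    exact ((tq_eq hv (Sum.inr (w k)) (Sum.inl k)).1 rfl)
  refine ⟨v, ⟨?_, ?_, ?_⟩, hva, fun k => ⟨w k, hvw k⟩⟩
  · intro x y hxy
    exact hi.inj ((tq_eq h1 x y).2 hxy)
  · intro s hs hne
    have hs' : Dp L (range v) (fun w : Fin 1 → V => w 0 ∈ s) := hs
    obtain ⟨Q, hQ, hsQ⟩ := dp_fam0 hs'
    have hsw : ∀ x, x ∈ s ↔ Q (Sum.elim (s1 x) v) := fun x => hsQ (s1 x)
    -- the property of the tuple
    have h2 : Dp L (∅ : Set V) (fun t : U → V => ∃ x : Fin 1 → V, Q (Sum.elim x t)) := by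
      have h3 := dp_ex (α := U) (β := Fin 1) (dp_sub hQ (Sum.swap : Fin 1 ⊕ U → U ⊕ Fin 1))
      refine dp_congr h3 fun t => exists_congr fun x => iff_of_eq ?_
      congr 1
      funext k
      rcases k with k | k <;> rfl
    obtain ⟨x, hx⟩ := hne
    obtain ⟨y, hy⟩ := (tq_iff h1 h2).2 ⟨s1 x, (hsw x).1 hx⟩
    have h4 : Dp L (range i) (fun w : Fin 1 → V => Q (Sum.elim w i)) :=
      dp_par (dp_mono (empty_subset _) hQ) i (fun k => ⟨k, rfl⟩)
    obtain ⟨z, hz, ⟨u, rfl⟩⟩ := hi.el {z | Q (Sum.elim (s1 z) i)} (by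
      refine dp_congr h4 fun w => iff_of_eq ?_
      show Q (Sum.elim (s1 (w 0)) i) = Q (Sum.elim w i)
      congr 2
      funext k
      fin_cases k
      rfl) ⟨y 0, by
        have e : s1 (y 0) = y := by
          funext k
          fin_cases k
          rfl
        show Q (Sum.elim (s1 (y 0)) i)
        rw [e]
        exact hy⟩
    refine ⟨v u, (hsw _).2 ?_, u, rfl⟩
    have h5 : Dp L (∅ : Set V) (fun t : U → V => Q (Sum.elim (s1 (t u)) t)) := by
      refine dp_congr (dp_sub hQ (Sum.elim (fun _ => u) id : Fin 1 ⊕ U → U)) fun t => iff_of_eq ?_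
      congr 1
      funext k
      rcases k with k | k <;> rfl
    exact (tq_iff h1 h5).1 hz
  · intro α _ φ t
    rw [hi.fm α φ t]
    exact tq_iff h1 (P := fun v => φ.Realize (fun j => v (t j))) (dp_sub (dp_fml φ) t)

end emb

end Pool.Agent.TPY
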