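import Pool.Agent.TPY.AllN
import Pool.Agent.TPY.StF

/-!
# TPY (port of TPX) module NIL (helper97): ends which become linear after `N` independent points
-/

set_option autoImplicit false
set_option linter.unusedVariables false

namespace Pool.Agent.TPY

open FirstOrder.Language Set
open scoped FirstOrder
open Pool.Agent.MNO

section

variable {L : FirstOrder.Language.{0, 0}} {U : Type} [L.Structure U]

theorem nil_le {m n : ℕ} (h : m ≤ n) {A : Set U} {x : U} (hx : NiceV L m A x) : NiceV L n A x := by
  induction n with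
  | zero =>
    obtain rfl : m = 0 := by omega
    exact hx
  | succ n ih =>
    rcases Nat.lt_or_ge n m with h1 | h1
    · obtain rfl : m = n + 1 := by omega
      exact hx
    · exact Or.inl (ih h1)

theorem nil_triv (n : ℕ) {A : Set U} {x : U} (h : Pc L A x = {x}) : NiceV L n A x := by
  have h0 : NiceV L 0 A x := Or.inl h
  exact nil_le (Nat.zero_le n) h0

/-- extension of an initial segment of an independent sequence -/
theorem nil_ext (hC : Cz L U) {A : Set U} (hA : A.Finite) {r : ((Fin 1 → U) → Prop) → Prop}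
    (hG : Gd L A r) {k : ℕ} {x : ℕ → U} (hx : Ind L A r k x) :
    ∃ x' : ℕ → U, pre x' k = pre x k ∧ ∀ i, x' i ∈ En L (A ∪ pre x' i) r := by
  have hB : (A ∪ pre x k).Finite := hA.union (trl_pre_fin x k)
  obtain ⟨z, hz⟩ := mo_ex0 hC hG.gt hB.countable
  let x' : ℕ → U := fun i => if i < k then x i else z (i - k) 0
  have hlt : ∀ i < k, x' i = x i := fun i hi => if_pos hi
  have hge : ∀ i, k ≤ i → x' i = z (i - k) 0 := fun i hi => if_neg (by omega)
  have hp : ∀ i ≤ k, pre x' i = pre x i := by
    intro i hi
    ext y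
    constructor
    · rintro ⟨j, hj, rfl⟩
      exact ⟨j, hj, hlt j (by omega)⟩
    · rintro ⟨j, hj, rfl⟩
      exact ⟨j, hj, (hlt j (by omega)).symm⟩
  refine ⟨x', hp k le_rfl, fun i => ?_⟩
  rcases Nat.lt_or_ge i k with hi | hi
  · rw [hp i hi.le, hlt i hi]
    exact hx i hi
  · rw [hge i hi]
    have h1 := hz (i - k + 1) (i - k) (Nat.lt_succ_self _)
    rw [← s1_eq (z (i - k))] at h1
    refine e_mem hG.gt hG.nal (ets_mono ?_ h1)
    rintro y (hy | ⟨j, hj, rfl⟩)
    · exact Or.inl (Or.inl hy)
    · rcases Nat.lt_or_ge j k with hj' | hj'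
      · rw [hlt j hj']
        exact Or.inl (Or.inr ⟨j, hj', rfl⟩)
      · rw [hge j hj']
        exact Or.inr ⟨j - k, by omega, 0, rfl⟩

theorem nil_ne {A : Set U} {y z y' z' : U} (h : Sq L A (Sum.elim (s1 y) (s1 z)) (Sum.elim (s1 y') (s1 z')))
    (hne : z ≠ y) : z' ≠ y' := by
  intro he
  apply hne
  have h3 := sq_dp h (dp_eq (L := L) (Sum.inr (0 : Fin 1)) (Sum.inl (0 : Fin 1)))
  exact h3.2 he

end

/-- [NIL] -/
theorem thm_NIL (hLQF : St_LQF) (hLOH : St_LOH) (hNI2 : St_NI2) (hINR : St_INR) : St_NIL := by
  intro L U _ hC r A hA hG N hN z hz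
  have main : ∀ j ≤ N, ∀ x : ℕ → U, Ind L A r (N - j) x → ∀ z₀ ∈ En L (A ∪ pre x (N - j)) r,
      NiceV L (j + 2) (A ∪ pre x (N - j)) z₀ := by
    -- the linear case
    have hlin : ∀ (j k : ℕ) (x : ℕ → U), NF L (A ∪ pre x k) r → ∀ z₀ ∈ En L (A ∪ pre x k) r,
        NiceV L (j + 2) (A ∪ pre x k) z₀ := by
      intro j k x hNF z₀ hz₀
      have hB : (A ∪ pre x k).Finite := hA.union (trl_pre_fin x k)
      have hGB : Gd L (A ∪ pre x k) r := ⟨hG.gt, hG.nal, inv_up subset_union_left hG.inv⟩
      exact nil_le (by omega) (hNI2 L U hC _ _ _ (hLQF L U hC r _ hB hGB hNF) z₀ hz₀)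
    intro j
    induction j with
    | zero =>
      intro _ x hx z₀ hz₀
      exact hlin 0 (N - 0) x (hN x hx) z₀ hz₀
    | succ j ih =>
      intro hj x hx z₀ hz₀
      set k := N - (j + 1) with hk
      have hkN : N - j = k + 1 := by omega
      by_cases hNF : NF L (A ∪ pre x k) r
      · exact hlin (j + 1) k x hNF z₀ hz₀
      set B := A ∪ pre x k with hBdef
      have hAB : A ⊆ B := subset_union_left
      have hB : B.Finite := hA.union (trl_pre_fin x k)
      have hIB : Inv L B r := inv_up hAB hG.inv
      have hGB : Gd L B r := ⟨hG.gt, hG.nal, hIB⟩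
      have hbf : BF L B (En L B r) := e_bf hC hG.gt hG.inv hAB hB
      right
      intro y hy z hz
      rw [e_eq hC hG.gt hG.nal hG.inv hAB hB hz₀] at hy hz
      by_cases hzy : z = y
      · right
        rw [hzy]
        exact nil_triv (j + 2) (pc_par (mem_insert y B))
      by_cases hzE : z ∈ En L (insert y B) r
      · right
        let x' : ℕ → U := fun i => if i < k then x i else y
        have hlt : ∀ i < k, x' i = x i := fun i hi => if_pos hi
        have hxk : x' k = y := if_neg (lt_irrefl k)
        have hp : ∀ i ≤ k, pre x' i = pre x i := by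
          intro i hi
          ext v
          constructor
          · rintro ⟨l, hl, rfl⟩
            exact ⟨l, hl, hlt l (by omega)⟩
          · rintro ⟨l, hl, rfl⟩
            exact ⟨l, hl, (hlt l (by omega)).symm⟩
        have hp' : A ∪ pre x' (k + 1) = insert y B := by
          rw [trl_pre_succ, hxk, hp k le_rfl, union_insert]
        have hx' : Ind L A r (k + 1) x' := by
          intro i hi
          rw [hp i (by omega)]
          rcases Nat.lt_succ_iff_lt_or_eq.1 hi with h | rfl
          · rw [hlt i h]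
            exact hx i h
          · rw [hxk]
            exact hy
        have h1 := ih (by omega) x' (by rw [hkN]; exact hx') z (by rw [hkN, hp']; exact hzE)
        rw [hkN, hp'] at h1
        exact h1
      left
      by_cases hN0 : N0 L B r
      · -- (b)
        obtain ⟨x', hx'k, hx'⟩ := nil_ext hC hA hG hx
        have hCf : (A ∪ pre x' N).Finite := hA.union (trl_pre_fin x' N)
        have hBC : B ⊆ A ∪ pre x' N := by
          rw [hBdef, ← hx'k]
          exact union_subset_union_right A (trl_pre_mono x' (by omega))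
        have hNFC : NF L (A ∪ pre x' N) r := hN x' fun i _ => hx' i
        obtain ⟨y', hyy, hy'⟩ := e_rea hC hG.gt hG.nal hG.inv (B := B) hAB hBC hCf hy
        obtain ⟨z'', hz''⟩ := sq_ext hC hB.countable hyy (s1 z)
        set z' := z'' 0 with hz'
        have hs : Sq L B (Sum.elim (s1 y) (s1 z)) (Sum.elim (s1 y') (s1 z')) := by
          rw [hz', s1_eq]
          exact hz''
        have hz'B : z' ∈ En L B r := (bf_inv1 hbf (sq_right hs)).1 hz
        have hy'B : y' ∈ En L B r := (bf_inv1 hbf hyy).1 hy
        have hz'y : z' ∉ En L (insert y' B) r := by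
          intro h
          exact hzE ((e_mv1 hC hG.gt hG.inv hAB hB (sq_swap hs)).2 h)
        have hxC : ∀ i, k ≤ i → i < N → x' i ∈ En L (insert y' B) r := by
          intro i hi hiN
          have h1 : x' i ∈ En L B r := by
            refine e_mono hC hG.gt hG.nal hG.inv hAB ?_ (hA.union (trl_pre_fin x' i)) (hx' i)
            rw [hBdef, ← hx'k]
            exact union_subset_union_right A (trl_pre_mono x' hi)
          refine hN0 (x' i) h1 y' hy'B ?_
          refine e_mono hC hG.gt hG.nal hG.inv (hAB.trans (subset_insert _ B)) ?_ hCf hy'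
          exact insert_subset (Or.inr ⟨i, hiN, rfl⟩) hBC
        have hxB : ∀ i, k ≤ i → x' i ∈ En L B r := by
          intro i hi
          refine e_mono hC hG.gt hG.nal hG.inv hAB ?_ (hA.union (trl_pre_fin x' i)) (hx' i)
          rw [hBdef, ← hx'k]
          exact union_subset_union_right A (trl_pre_mono x' hi)
        have h1 : InrV L B y' z' := by
          refine hINR L U hC r A hA hG B (A ∪ pre x' N) y' z' (x' k) hAB hBC hCf hNFC hy' hz'B hz'y
            (nil_ne hs hzy) ?_ (Or.inr ⟨k, by omega, rfl⟩)
            (fun h => e_par hC hG.gt hG.nal hG.inv hAB hB h (hxB k le_rfl)) (hxB k le_rfl) ?_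
          · rintro c (hc | ⟨i, hi, rfl⟩) hcB
            · exact absurd (hAB hc) hcB
            · rcases Nat.lt_or_ge i k with hik | hik
              · refine absurd ?_ hcB
                rw [hBdef, ← hx'k]
                exact Or.inr ⟨i, hik, rfl⟩
              · exact hxC i hik hi
          · intro v hv hvy hyv
            apply hvy
            have hvB : v ∈ En L B r := e_mono hC hG.gt hG.nal hG.inv hAB hBC hCf hv
            refine hN0 v hvB y' hy'B ?_
            exact e_mono hC hG.gt hG.nal hG.inv (hAB.trans (subset_insert _ B))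
              (insert_subset_insert hBC) (hCf.insert v) hyv
        obtain ⟨D, y₁, z₁, E, lt, q1, q2, q3, q4⟩ := h1
        refine ⟨D, y₁, z₁, E, lt, q1, q2, sq_trans (sq_cov hs ?_) q3, q4⟩
        intro i
        fin_cases i
        · exact ⟨Sum.inl 0, rfl, rfl⟩
        · exact ⟨Sum.inr 0, rfl, rfl⟩
      · -- (a)
        have h0 : ∃ z₁ z₂ : U, Sq L B (s1 y) (s1 z₁) ∧ Sq L B (s1 y) (s1 z₂) ∧
            z₁ ∈ En L (insert z₂ B) r ∧ z₂ ∈ En L (insert z₁ B) r := by
          by_contra hcon
          push Not at hcon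
          exact hNF (n_CMP L U hC r hG.gt hG.nal B hB hIB y hy fun z₁ z₂ h1 h2 h3 =>
            hcon z₁ z₂ h1 h2 h3.1 h3.2)
        obtain ⟨z₁, z₂, hz₁, hz₂, h12, h21⟩ := h0
        obtain ⟨x'', hx''⟩ := sq_ext hC hB.countable (sq_symm hz₁) (s1 z₂)
        set x₁ := x'' 0 with hx₁
        have hs : Sq L B (Sum.elim (s1 z₁) (s1 z₂)) (Sum.elim (s1 y) (s1 x₁)) := by
          rw [hx₁, s1_eq]
          exact hx''
        have hyx : y ∈ En L (insert x₁ B) r := (e_mv1 hC hG.gt hG.inv hAB hB hs).1 h12
        have hxy : x₁ ∈ En L (insert y B) r := (e_mv1 hC hG.gt hG.inv hAB hB (sq_swap hs)).1 h21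
        have hsq : Sq L B (s1 y) (s1 x₁) := sq_trans hz₂ (sq_right hs)
        have hx₁B : x₁ ∈ En L B r := (bf_inv1 hbf hsq).1 hy
        have hCf : (insert x₁ B).Finite := hB.insert x₁
        have hBC : B ⊆ insert x₁ B := subset_insert x₁ B
        have hNFC : NF L (insert x₁ B) r :=
          n_CCC L U hC r hG.gt hG.nal B hB hIB hN0 x₁ hx₁B
        have hGC : Gd L (insert x₁ B) r := ⟨hG.gt, hG.nal, inv_up (hAB.trans hBC) hG.inv⟩
        have hLO := (hLQF L U hC r (insert x₁ B) hCf hGC hNFC).lo
        refine hINR L U hC r A hA hG B (insert x₁ B) y z x₁ hAB hBC hCf hNFC hyx hz hzE hzy ?_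
          (mem_insert x₁ B) (fun h => e_par hC hG.gt hG.nal hG.inv hAB hB h hx₁B) hx₁B ?_
        · rintro c (rfl | hc) hcB
          · exact hxy
          · exact absurd hc hcB
        · intro v hv hvy hyv
          apply hvy
          obtain ⟨v', hyv', -, hv'y⟩ := hLO.lo0.gap ∅ {y} finite_empty (finite_singleton y)
            (empty_subset _) (singleton_subset_iff.2 hyx) (fun d hd => absurd hd (notMem_empty d)) y hyx
          have hv'y' : y ∈ En L (insert v' (insert x₁ B)) r := hv'y y rfl
          have hv'C : v' ∈ En L (insert x₁ B) r :=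
            (bf_inv1 (e_bf hC hG.gt hG.inv (hAB.trans hBC) hCf) hyv').1 hyx
          have h1 : Sq L B (s1 x₁) (s1 v') := sq_trans (sq_symm hsq) (sq_mono hBC hyv')
          have h2 : Sq L (insert y B) (s1 x₁) (s1 v') := by
            refine e_sta hC hG.gt hG.nal hG.inv hAB hB h1 ?_
            rw [range_s1, range_s1, union_singleton, union_singleton]
            exact hv'y'
          have hbfy : BF L (insert y B) (En L (insert y B) r) :=
            e_bf hC hG.gt hG.inv (hAB.trans (subset_insert y B)) (hB.insert y)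
          have h3 : v' ∈ En L (insert y B) r := (bf_inv1 hbfy h2).1 hxy
          have hdn := (hLOH L U hC _ _ _ hLO).2.2.1 y hyx
          have h4 : v ∈ Pc L (insert y (insert x₁ B)) v' := by
            rw [hdn.lo0.pc v' ⟨hv'C, hv'y'⟩]
            exact ⟨hv, hyv⟩
          exact pc_sub (bf_mono hC (hCf.insert y) (insert_subset_insert hBC) hbfy) h3 h4
  have h := main N le_rfl (fun _ => z)
  rw [Nat.sub_self] at h
  have e : A ∪ pre (fun _ => z) 0 = A := by rw [trl_pre_zero, union_empty]
  rw [e] at h
  exact h (fun i hi => absurd hi (Nat.not_lt_zero i)) z hz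

end Pool.Agent.TPY
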