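import Pool.Agent.TPY.INRD
import Pool.Agent.TPY.NIL

/-!
# TPY module RIG (helper8): an element of a non-linear end of type L which leaves the end is inner
-/

set_option autoImplicit false
set_option linter.unusedVariables false

namespace Pool.Agent.TPY

open FirstOrder.Language Set
open scoped FirstOrder
open Pool.Agent.MNO

section

variable {L : FirstOrder.Language.{0, 0}} {U : Type} [L.Structure U]

/-- [RIG] -/
theorem rig_nl (hLIN : St_LIN) (hLQF : St_LQF) (hLOH : St_LOH) (hC : Cz L U)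
    {r : ((Fin 1 → U) → Prop) → Prop} {B : Set U} (hB : B.Finite) (hG : Gd L B r) {N : ℕ}
    (hN : ∀ x : ℕ → U, Ind L B r N x → NF L (B ∪ pre x N) r) (hNF : ¬ NF L B r) {y z : U}
    (hy : y ∈ En L B r) (hz : z ∈ En L B r) (hzE : z ∉ En L (insert y B) r) (hzy : z ≠ y) :
    InrD L B y (Pc L (insert y B) z) := by
  have hAB : B ⊆ B := Subset.rfl
  have hIB : Inv L B r := hG.inv
  have hbf : BF L B (En L B r) := e_bf hC hG.gt hG.inv hAB hB
  by_cases hN0 : N0 L B r
  · -- (b)
    obtain ⟨x', -, hx'⟩ := nil_ext hC hB hG (k := 0) (x := fun _ => y)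
      (fun i hi => absurd hi (Nat.not_lt_zero i))
    have hCf : (B ∪ pre x' N).Finite := hB.union (trl_pre_fin x' N)
    obtain ⟨y', hyy, hy'⟩ := e_rea hC hG.gt hG.nal hG.inv (B := B) hAB
      (subset_union_left (t := pre x' N)) hCf hy
    have hrg : range (fun i : Fin N => x' i) = pre x' N := by
      ext v
      constructor
      · rintro ⟨i, rfl⟩
        exact ⟨i, i.2, rfl⟩
      · rintro ⟨i, hi, rfl⟩
        exact ⟨⟨i, hi⟩, rfl⟩
    obtain ⟨c, hc⟩ := sq_ext hC hB.countable (sq_symm hyy) (fun i : Fin N => x' i)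
    let x : ℕ → U := fun i => if h : i < N then c ⟨i, h⟩ else y
    have hxc : ∀ i (h : i < N), x i = c ⟨i, h⟩ := fun i h => dif_pos h
    have hrgx : ∀ k ≤ N, range (fun i : Fin k => x i) = pre x k := by
      intro k _
      ext v
      constructor
      · rintro ⟨i, rfl⟩
        exact ⟨i, i.2, rfl⟩
      · rintro ⟨i, hi, rfl⟩
        exact ⟨⟨i, hi⟩, rfl⟩
    have hrgx' : ∀ k ≤ N, range (fun i : Fin k => x' i) = pre x' k := by
      intro k _
      ext v
      constructor
      · rintro ⟨i, rfl⟩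
        exact ⟨i, i.2, rfl⟩
      · rintro ⟨i, hi, rfl⟩
        exact ⟨⟨i, hi⟩, rfl⟩
    have hInd : Ind L B r N x := by
      intro k hk
      rw [← hrgx k hk.le]
      refine (e_mv hC hG.gt hG.inv hAB hB (c := fun i : Fin k => x' i) (y := x' k) (sq_cov hc ?_)).1 ?_
      · rintro (i | i)
        · exact ⟨Sum.inr ⟨k, hk⟩, rfl, (hxc k hk).symm⟩
        · exact ⟨Sum.inr ⟨i, i.2.trans hk⟩, rfl, (hxc i (i.2.trans hk)).symm⟩
      · rw [hrgx' k hk.le]
        exact hx' k
    have hCf' : (B ∪ pre x N).Finite := hB.union (trl_pre_fin x N)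
    have hyC : y ∈ En L (B ∪ pre x N) r := by
      rw [← hrgx N le_rfl]
      refine (e_mv hC hG.gt hG.inv hAB hB (c := fun i : Fin N => x' i) (y := y') (sq_cov hc ?_)).1 ?_
      · rintro (i | i)
        · exact ⟨Sum.inl i, rfl, rfl⟩
        · exact ⟨Sum.inr i, rfl, (hxc i i.2).symm⟩
      · rw [hrg]
        exact hy'
    have hNFC := hN x hInd
    have hN1 : 0 < N := by
      rcases Nat.eq_zero_or_pos N with h | h
      · exfalso
        apply hNF
        rw [h, trl_pre_zero, union_empty] at hNFC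
        exact hNFC
      · exact h
    have hxB : ∀ i < N, x i ∈ En L B r := fun i hi =>
      e_mono hC hG.gt hG.nal hG.inv hAB subset_union_left (hB.union (trl_pre_fin x i)) (hInd i hi)
    have hxy : ∀ i < N, x i ∈ En L (insert y B) r := by
      intro i hi
      refine hN0 (x i) (hxB i hi) y hy ?_
      exact e_mono hC hG.gt hG.nal hG.inv (hAB.trans (subset_insert _ B))
        (insert_subset (Or.inr ⟨i, hi, rfl⟩) subset_union_left) hCf' hyC
    refine inrd_mono (inr_dir hLIN hLQF hC hB hG hAB subset_union_left hCf' hNFC hyC hz hzE hzy ?_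
      (c₀ := x 0) (Or.inr ⟨0, hN1, rfl⟩) (fun h => e_par hC hG.gt hG.nal hG.inv hAB hB h (hxB 0 hN1))
      (hxB 0 hN1) ?_) subset_union_left
    · rintro v (hv | ⟨i, hi, rfl⟩) hvB
      · exact absurd hv hvB
      · exact hxy i hi
    · intro v hv hvy hyv
      apply hvy
      have hvB : v ∈ En L B r := e_mono hC hG.gt hG.nal hG.inv hAB subset_union_left hCf' hv
      refine hN0 v hvB y hy ?_
      exact e_mono hC hG.gt hG.nal hG.inv (hAB.trans (subset_insert _ B))
        (insert_subset_insert subset_union_left) (hCf'.insert v) hyv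
  · -- (a)
    have h0 : ∃ z₁ z₂ : U, Sq L B (s1 y) (s1 z₁) ∧ Sq L B (s1 y) (s1 z₂) ∧
        z₁ ∈ En L (insert z₂ B) r ∧ z₂ ∈ En L (insert z₁ B) r := by
      by_contra hcon
      push Not at hcon
      exact hNF (n_CMP L U hC r hG.gt hG.nal B hB hIB y hy fun z₁ z₂ h1 h2 h3 =>
        hcon z₁ z₂ h1 h2 h3.1 h3.2)
    obtain ⟨z₁, z₂, hz₁, hz₂, h12, h21⟩ := h0
    obtain ⟨x'', hx''⟩ := sq_ext hC hB.countable (sq_symm hz₁) (s1 z₂)
    set x₁ := x'' 0 with hx₁
    have hs : Sq L B (Sum.elim (s1 z₁) (s1 z₂)) (Sum.elim (s1 y) (s1 x₁)) := by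
      rw [hx₁, s1_eq]
      exact hx''
    have hyx : y ∈ En L (insert x₁ B) r := (e_mv1 hC hG.gt hG.inv hAB hB hs).1 h12
    have hxy : x₁ ∈ En L (insert y B) r := (e_mv1 hC hG.gt hG.inv hAB hB (sq_swap hs)).1 h21
    have hsq : Sq L B (s1 y) (s1 x₁) := sq_trans hz₂ (sq_right hs)
    have hx₁B : x₁ ∈ En L B r := (bf_inv1 hbf hsq).1 hy
    have hCf : (insert x₁ B).Finite := hB.insert x₁
    have hBC : B ⊆ insert x₁ B := subset_insert x₁ B
    have hNFC : NF L (insert x₁ B) r :=
      n_CCC L U hC r hG.gt hG.nal B hB hIB hN0 x₁ hx₁B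
    have hGC : Gd L (insert x₁ B) r := ⟨hG.gt, hG.nal, inv_up (hAB.trans hBC) hG.inv⟩
    have hLO := (hLQF L U hC r (insert x₁ B) hCf hGC hNFC).lo
    refine inrd_mono (inr_dir hLIN hLQF hC hB hG hAB hBC hCf hNFC hyx hz hzE hzy ?_
      (mem_insert x₁ B) (fun h => e_par hC hG.gt hG.nal hG.inv hAB hB h hx₁B) hx₁B ?_) hBC
    · rintro c (rfl | hc) hcB
      · exact hxy
      · exact absurd hc hcB
    · intro v hv hvy hyv
      apply hvy
      obtain ⟨v', hyv', -, hv'y⟩ := hLO.lo0.gap ∅ {y} finite_empty (finite_singleton y)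
        (empty_subset _) (singleton_subset_iff.2 hyx) (fun d hd => absurd hd (notMem_empty d)) y hyx
      have hv'y' : y ∈ En L (insert v' (insert x₁ B)) r := hv'y y rfl
      have hv'C : v' ∈ En L (insert x₁ B) r :=
        (bf_inv1 (e_bf hC hG.gt hG.inv (hAB.trans hBC) hCf) hyv').1 hyx
      have h1 : Sq L B (s1 x₁) (s1 v') := sq_trans (sq_symm hsq) (sq_mono hBC hyv')
      have h2 : Sq L (insert y B) (s1 x₁) (s1 v') := by
        refine e_sta hC hG.gt hG.nal hG.inv hAB hB h1 ?_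
        rw [range_s1, range_s1, union_singleton, union_singleton]
        exact hv'y'
      have hbfy : BF L (insert y B) (En L (insert y B) r) :=
        e_bf hC hG.gt hG.inv (hAB.trans (subset_insert y B)) (hB.insert y)
      have h3 : v' ∈ En L (insert y B) r := (bf_inv1 hbfy h2).1 hxy
      have hdn := (hLOH L U hC _ _ _ hLO).2.2.1 y hyx
      have h4 : v ∈ Pc L (insert y (insert x₁ B)) v' := by
        rw [hdn.lo0.pc v' ⟨hv'C, hv'y'⟩]
        exact ⟨hv, hyv⟩
      exact pc_sub (bf_mono hC (hCf.insert y) (insert_subset_insert hBC) hbfy) h3 h4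

end

end Pool.Agent.TPY
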