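import Pool.Agent.TPY.StB
import Pool.Agent.TPY.RIG
import Pool.Agent.TPY.LQX
import Pool.Agent.TPY.FRX
import Pool.Agent.TPY.NI2
import Pool.Agent.TPY.LOF
import Pool.Agent.TPY.LBN
import Pool.Agent.TPY.CUP

/-!
# TPY module S1 (helper8): the structure chapter for ended pieces
-/

set_option autoImplicit false
set_option linter.unusedVariables false

namespace Pool.Agent.TPY

open FirstOrder.Language Set
open scoped FirstOrder
open Pool.Agent.MNO

theorem f_LQF : St_LQF := thm_LQF thm_LOF thm_LBN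
theorem f_LIN : St_LIN := thm_LIN thm_LOH thm_CUP
theorem f_NI2 : St_NI2 := thm_NI2 f_LIN
theorem f_INR : St_INR := thm_INR f_LIN f_LQF
theorem f_NIL : St_NIL := thm_NIL f_LQF thm_LOH f_NI2 f_INR

section

variable {L : FirstOrder.Language.{0, 0}} {U : Type} [L.Structure U]

/-- type L: linear after `N` independent points -/
theorem s1_N (hC : Cz L U) {A : Set U} {r : ((Fin 1 → U) → Prop) → Prop} (hA : A.Finite)
    (hG : Gd L A r) (hT : ¬ TS L A r) :
    ∃ N : ℕ, ∀ x : ℕ → U, Ind L A r N x → NF L (A ∪ pre x N) r := by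
  unfold TS at hT
  push Not at hT
  obtain ⟨B, hAB, hB, h1⟩ := hT
  exact n_TRL L U hC r hG.gt hG.nal A hA hG.inv B hAB hB h1

/-- an infinite independent sequence -/
theorem s1_ind (hC : Cz L U) {A : Set U} (hA : A.Finite) {r : ((Fin 1 → U) → Prop) → Prop}
    (hG : Gd L A r) : ∃ x : ℕ → U, ∀ k, x k ∈ En L (A ∪ pre x k) r := by
  obtain ⟨x, -, hx⟩ := nil_ext hC hA hG (k := 0) (x := fun _ => Classical.choice hC.ne)
    (fun i hi => absurd hi (Nat.not_lt_zero i))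
  exact ⟨x, hx⟩

theorem s1_fr0 {A : Set U} (hA : A.Finite) {r : ((Fin 1 → U) → Prop) → Prop}
    (hG : Gd L A r) (hT : TS L A r) : Fr0 L A r := ⟨hA, hG.gt, hG.nal, hG.inv, hT⟩

end

/-- [NEN] ended pieces are nice -/
theorem thm_NEN : St_NEN := by
  intro L U _ hC r A hA hG z hz
  by_cases hT : TS L A r
  · have h := s1_fr0 hA hG hT
    refine ⟨0, Or.inr (Or.inr ⟨TE L A r, Cl0 L A, frx hC h, ?_⟩)⟩
    rw [fr_pc hC h hz]
    exact fun y hy => ⟨y, hy, fun P _ hP => hP⟩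
  · obtain ⟨N, hN⟩ := s1_N hC hA hG hT
    exact ⟨N + 2, f_NIL L U hC r A hA hG N hN z hz⟩

/-- [REB] realisation -/
theorem thm_REB : St_REB := by
  intro L U _ hC r A hA hG
  by_cases hT : TS L A r
  · have h := s1_fr0 hA hG hT
    exact ⟨A, TE L A r, hA, Subset.rfl, Or.inr ⟨Cl0 L A, frx hC h⟩,
      fun y hy => ⟨y, ⟨y, hy, fun P _ hP => hP⟩, sq_refl A _⟩⟩
  · obtain ⟨N, hN'⟩ := s1_N hC hA hG hT
    obtain ⟨x', hx'⟩ := s1_ind hC hA hG
    have hCf : (A ∪ pre x' N).Finite := hA.union (trl_pre_fin x' N)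
    have hGC : Gd L (A ∪ pre x' N) r := ⟨hG.gt, hG.nal, inv_up subset_union_left hG.inv⟩
    have hNF : NF L (A ∪ pre x' N) r := hN' x' fun k _ => hx' k
    have hLQ := f_LQF L U hC r (A ∪ pre x' N) hCf hGC hNF
    obtain ⟨b₁, -, hb₁⟩ := e_real hC hGC.gt hGC.nal hGC.inv Subset.rfl hCf
    obtain ⟨b₂, -, hb₂⟩ := e_real hC hGC.gt hGC.nal hGC.inv (subset_insert b₁ (A ∪ pre x' N))
      (hCf.insert b₁)
    have hb₂' : b₂ ∈ En L (A ∪ pre x' N) r := e_mono hC hGC.gt hGC.nal hGC.inv Subset.rfl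
      (subset_insert b₁ _) (hCf.insert b₁) hb₂
    have hLV := (f_LIN L U hC (A ∪ pre x' N) _ _ hLQ b₁ hb₁ b₂ hb₂' hb₂).1
    refine ⟨_, _, (hCf.insert b₁).insert b₂, ?_, Or.inl ⟨_, hLV⟩, fun y hy => ?_⟩
    · exact subset_union_left.trans ((subset_insert b₁ _).trans (subset_insert b₂ _))
    · obtain ⟨z, hz, hz'⟩ := e_rea hC hG.gt hG.nal hG.inv (B := A) (C := insert b₂ (A ∪ pre x' N))
        Subset.rfl (subset_union_left.trans (subset_insert b₂ _)) (hCf.insert b₂) hy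
      exact ⟨z, ⟨e_mono hC hGC.gt hGC.nal hGC.inv Subset.rfl (subset_insert b₂ _) (hCf.insert b₂) hz',
        hz'⟩, hz⟩

/-- [S1] the pieces over `B` of the elements of an ended piece over `A ⊆ B` -/
theorem thm_S1 : St_S1 := by
  intro L U _ hC r A hA hG B hAB hB z hz
  by_cases hzB : z ∈ B
  · exact Or.inl ⟨0, nil_triv 0 (pc_par hzB)⟩
  by_cases hze : z ∈ En L B r
  · exact Or.inl (thm_NEN L U hC r B hB ⟨hG.gt, hG.nal, inv_up hAB hG.inv⟩ z hze)
  by_cases hT : TS L A r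
  · have h := s1_fr0 hA hG hT
    obtain ⟨b, hb, hbe, hcl⟩ := frx_out hC h hAB hB hz hze
    exact Or.inr (Or.inr ⟨TE L A r, Cl0 L A, b, frx hC h, fun y hy => ⟨y, hy, fun P _ hP => hP⟩,
      fun y hy => hy, hb, ⟨b, hbe, fun P _ hP => hP⟩, hcl⟩)
  -- type L: a maximal base
  have hfin : {F : Set U | A ⊆ F ∧ F ⊆ B ∧ z ∈ En L F r}.Finite :=
    hB.finite_subsets.subset fun F hF => hF.2.1
  obtain ⟨F, -, hF⟩ := hfin.exists_le_maximal (a := A) ⟨Subset.rfl, hAB, hz⟩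
  obtain ⟨hAF, hFB, hzF⟩ := hF.prop
  have hFf : F.Finite := hB.subset hFB
  have hGF : Gd L F r := ⟨hG.gt, hG.nal, inv_up hAF hG.inv⟩
  have hout : ∀ y ∈ B, y ∉ F → z ∉ En L (insert y F) r := by
    intro y hyB hyF h1
    have h2 := hF.le_of_ge (y := insert y F) ⟨hAF.trans (subset_insert y F), insert_subset hyB hFB, h1⟩
      (subset_insert y F)
    exact hyF (h2 (mem_insert y F))
  have hin : ∀ y ∈ B, y ∉ F → y ∈ En L F r := by
    intro y hyB hyF
    by_contra h1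
    have h2 := hout y hyB hyF
    rw [e_add hC hG.gt hG.nal hG.inv hAF hFf h1] at h2
    exact h2 hzF
  have hex : ∃ y ∈ B, y ∉ F := by
    by_contra hcon
    push Not at hcon
    have h1 : F = B := Subset.antisymm hFB hcon
    rw [h1] at hzF
    exact hze hzF
  have hTF : ¬ TS L F r := by
    intro h1
    apply hT
    intro C hAC hCf
    by_contra h2
    have h3 := (n_NMO L U hC r hG.gt hG.nal C hCf (inv_up hAC hG.inv) (C ∪ F) subset_union_left
      (hCf.union hFf)).1 h2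
    exact h3 (h1 (C ∪ F) subset_union_right (hCf.union hFf))
  by_cases hNF : NF L F r
  · -- linear
    have hLQ := f_LQF L U hC r F hFf hGF hNF
    have hlo := hLQ.lo.lo0
    by_cases hcl : ∃ y ∈ B, y ∉ F ∧ ¬ ltr L F r z y
    · obtain ⟨y, hyB, hyF, hzy⟩ := hcl
      have hy := hin y hyB hyF
      have hbf := (thm_LOH L U hC _ _ _ hLQ.lo).2.2.2.1 y hy
      have h1 : Pc L B z ⊆ {v | v ∈ En L F r ∧ ¬ ltr L F r y v ∧ ¬ ltr L F r v y} := by
        refine (pc_mono hC hB (insert_subset hyB hFB) z).trans (pc_sub hbf ⟨hzF, ?_, hzy⟩)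
        exact hout y hyB hyF
      obtain ⟨H, E, lt, h2, h3, h4, h5, h6, h7⟩ := inrd_lin f_LIN hC hLQ hy (R := Pc L B z)
        (fun v hv => h1 hv) (fun v hv hvF => e_par hC hG.gt hG.nal hG.inv hAF hFf hvF (h1 hv).1)
      exact Or.inr (Or.inl ⟨H, E, lt, y, h2, hAF.trans h3, hyB, h4, h5, h6, h7⟩)
    · push Not at hcl
      obtain ⟨y₀, hy₀B, hy₀F⟩ := hex
      obtain ⟨b, hb, hbmin⟩ := fin_max (P := En L F r) (lt := fun x y => ltr L F r y x)
        (fun x hx => hlo.irr x hx) (fun x hx y hy z hz h1 h2 => hlo.tra z hz y hy x hx h2 h1)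
        (D := B \ F) (hB.subset sdiff_subset) (fun y hy => hin y hy.1 hy.2) ⟨y₀, hy₀B, hy₀F⟩
      have hbP := hin b hb.1 hb.2
      have hLQ' := lqx_up hC (B := B) (lqx_dn thm_LOH hC hLQ hbP) (insert_subset hb.1 hFB) hB (by
        intro y hyB hyP
        by_cases hyF : y ∈ F
        · exact e_par hC hG.gt hG.nal hG.inv hAF hFf hyF hyP.1
        · exact hbmin y ⟨hyB, hyF⟩ hyP.2)
      exact Or.inl ⟨2, f_NI2 L U hC B _ _ hLQ' z ⟨hzF, hcl b hb.1 hb.2⟩⟩
  · -- inner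
    obtain ⟨N, hN⟩ := s1_N hC hFf hGF hTF
    obtain ⟨y, hyB, hyF⟩ := hex
    have hne : z ≠ y := by
      rintro rfl
      exact hzB hyB
    obtain ⟨H, E, lt, h2, h3, h4, h5, h6, h7⟩ := inrd_sub (rig_nl f_LIN f_LQF thm_LOH hC hFf hGF hN hNF
      (hin y hyB hyF) hzF (hout y hyB hyF) hne) (pc_mono hC hB (insert_subset hyB hFB) z)
    exact Or.inr (Or.inl ⟨H, E, lt, y, h2, hAF.trans h3, hyB, h4, h5, h6, h7⟩)

end Pool.Agent.TPY
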