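import Pool.Agent.TPY.StLN

/-!
# TPY, module SPD (helper41): `in the same piece` is definable on an isolated type which is not ended
-/

set_option autoImplicit false
set_option linter.unusedVariables false

namespace Pool.Agent.TPY

open FirstOrder.Language Set
open scoped FirstOrder
open Pool.Agent.MNO

section

variable {L : FirstOrder.Language.{0, 0}} {U : Type} [L.Structure U] {F : Set U}

private lemma SPD_s1 (a : Fin 1 → U) : s1 (a 0) = a := by
  funext i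
  rw [Subsingleton.elim i 0]
  rfl

/-- a finite equivalence relation is invariant -/
private lemma SPD_fe {E : (Fin 1 → U) → (Fin 1 → U) → Prop} (hE : FE L F E) {a b a' b' : Fin 1 → U}
    (h : Tq L F (Sum.elim b a) (Sum.elim b' a')) (hab : E a b) : E a' b' :=
  h _ (dp_sub hE.dfn (Sum.swap : Fin 1 ⊕ Fin 1 → Fin 1 ⊕ Fin 1)) hab

/-- nearness to any realisation of the type -/
private lemma SPD_near (hC : Cz L U) (hF : F.Finite) {E : (Fin 1 → U) → (Fin 1 → U) → Prop}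
    (hE : FE L F E) {x : U} (hEx : ∀ y : U, E (s1 y) (s1 x) → y ∈ Pc L F x) {x' y' : U}
    (hx : Tq L F (s1 x) (s1 x')) (hy : E (s1 y') (s1 x')) : y' ∈ Pc L F x' := by
  obtain ⟨c, hc⟩ := tq_ext hC hF.countable (tq_symm hx) (s1 y')
  have h1 : E c (s1 x) := SPD_fe hE hc hy
  have h2 : c 0 ∈ Pc L F x := by
    apply hEx
    rw [SPD_s1]
    exact h1
  refine pc_tq0 hC hF.countable (x := x) (y := c 0) ?_ h2
  refine tq_congr (tq_sub (tq_symm hc) (![Sum.inl 0, Sum.inr 0] : Fin 2 → Fin 1 ⊕ Fin 1)) ?_ ?_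
  · funext i
    fin_cases i <;> rfl
  · funext i
    fin_cases i <;> rfl

end

/-- [SPD] `in the same piece` is definable on an isolated type which is not ended -/
theorem thm_SPD (hLIM : St_LIM) (hDFI : St_DFI) : St_SPD := by
  intro L U _ hC F x hF hEd hI
  obtain ⟨E, hE, hEx⟩ := hLIM L U hC F x hF hEd
  obtain ⟨D, hD, hDx, hDT⟩ := hI
  have hDiff : ∀ v : Fin 1 → U, Tq L F (s1 x) v ↔ D v := fun v => ⟨fun h => h D hD hDx, hDT v⟩
  have hA : F.Countable := hF.countable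
  refine hDFI L U hC (Fin 1 ⊕ Fin 1) F _ hA ?_ ?_
  · obtain ⟨s, hs, hsE⟩ := hE.fin
    let K : (Fin 1 → U) → (Fin 1 → U) → Prop := fun a b =>
      ∃ x' y' : U, D (s1 x') ∧ D (s1 y') ∧ E (s1 x') a ∧ E (s1 y') b ∧ y' ∈ Pc L F x'
    have hEa : ∀ a : Fin 1 → U, Dp L (univ : Set U) (fun v : Fin 1 → U => E v a) := by
      intro a
      have h1 := dp_par (dp_mono (subset_univ F) hE.dfn) a (fun _ => mem_univ _)
      exact h1
    have hd1 : Dp L (univ : Set U) (fun v : Fin 1 ⊕ Fin 1 → U =>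
        (D (fun i => v (Sum.inl i)) ∧ D (fun i => v (Sum.inr i))) ∧
          ∃ a ∈ s, ∃ b ∈ s, (E (fun i => v (Sum.inl i)) a ∧ E (fun i => v (Sum.inr i)) b) ∧ K a b) := by
      refine dp_and (dp_and ?_ ?_) (dp_bex hs fun a ha => dp_bex hs fun b hb =>
        dp_and (dp_and ?_ ?_) (dp_const _))
      · exact dp_sub (dp_mono (subset_univ F) hD) (Sum.inl : Fin 1 → Fin 1 ⊕ Fin 1)
      · exact dp_sub (dp_mono (subset_univ F) hD) (Sum.inr : Fin 1 → Fin 1 ⊕ Fin 1)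
      · exact dp_sub (hEa a) (Sum.inl : Fin 1 → Fin 1 ⊕ Fin 1)
      · exact dp_sub (hEa b) (Sum.inr : Fin 1 → Fin 1 ⊕ Fin 1)
    refine dp_congr hd1 fun v => ?_
    have e1 : s1 (v (Sum.inl 0)) = fun i => v (Sum.inl i) := SPD_s1 (fun i => v (Sum.inl i))
    have e2 : s1 (v (Sum.inr 0)) = fun i => v (Sum.inr i) := SPD_s1 (fun i => v (Sum.inr i))
    rw [← e1, ← e2]
    constructor
    · rintro ⟨h1, h2, h3⟩
      obtain ⟨a, ha, hEa'⟩ := hsE (s1 (v (Sum.inl 0)))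
      obtain ⟨b, hb, hEb'⟩ := hsE (s1 (v (Sum.inr 0)))
      have h1' := (hDiff _).1 h1
      have h2' := (hDiff _).1 h2
      exact ⟨⟨h1', h2'⟩, a, ha, b, hb, ⟨hEa', hEb'⟩, _, _, h1', h2', hEa', hEb', h3⟩
    · rintro ⟨⟨h1, h2⟩, a, -, b, -, ⟨h3, h4⟩, x', y', h5, h6, h7, h8, h9⟩
      have h10 : v (Sum.inl 0) ∈ Pc L F x' := SPD_near hC hF hE hEx (hDT _ h5)
        (hE.eqv.trans h3 (hE.eqv.symm h7))
      have h11 : v (Sum.inr 0) ∈ Pc L F y' := SPD_near hC hF hE hEx (hDT _ h6)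
        (hE.eqv.trans h4 (hE.eqv.symm h8))
      refine ⟨hDT _ h1, hDT _ h2, ?_⟩
      rw [pc_eq hC hA h10, ← pc_eq hC hA h9]
      exact h11
  · rintro v v' hv ⟨h1, h2, h3⟩
    refine ⟨tq_trans h1 (tq_sub hv (fun _ : Fin 1 => Sum.inl 0)),
      tq_trans h2 (tq_sub hv (fun _ : Fin 1 => Sum.inr 0)), ?_⟩
    refine pc_tq0 hC hA ?_ h3
    refine tq_congr (tq_sub hv (![Sum.inl 0, Sum.inr 0] : Fin 2 → Fin 1 ⊕ Fin 1)) ?_ ?_
    · funext i
      fin_cases i <;> rfl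
    · funext i
      fin_cases i <;> rfl

end Pool.Agent.TPY
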