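import Pool.Agent.TPY.StLN

/-!
# TPY: module THE (few models: the type between two points is isolated and defines the order)
-/

set_option autoImplicit false
set_option linter.unusedVariables false

namespace Pool.Agent.TPY

open FirstOrder.Language Set
open scoped FirstOrder
open Pool.Agent.MNO

section

variable {L : FirstOrder.Language.{0, 0}} {U : Type} [L.Structure U]

/-- sorting variables: `(x, (h, p, q))` and `((x, p, q), h)` -/
theorem the_srt {F : Set U} {n : ℕ} {h : Fin n → U} {x p q v p' z' : U}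
    (h1 : Tq L F (Sum.elim (s1 x) (Sum.elim h ![p, q])) (Sum.elim (s1 v) (Sum.elim h ![p', z']))) :
    Tq L (F ∪ range h) ![x, p, q] ![v, p', z'] := by
  refine tq_fam.2 (tq_congr (tq_sub h1 (Sum.elim ![Sum.inl 0, Sum.inr (Sum.inr 0), Sum.inr (Sum.inr 1)]
    (fun i => Sum.inr (Sum.inl i)) : Fin 3 ⊕ Fin n → Fin 1 ⊕ (Fin n ⊕ Fin 2))) ?_ ?_) <;>
  · funext k
    rcases k with k | k
    · fin_cases k <;> rfl
    · rfl

end

theorem thm_THE : St_THE := by
  intro L U _ hC hI F n h E lt p x q hF hL hp hx hq hpx hxq hspx hspq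
  have hpq : lt p q := hL.tra _ hp _ hx _ hq hpx hxq
  have hc : F ∪ range h ∪ {p, q} = F ∪ range (Sum.elim h ![p, q]) := by
    rw [Sum.elim_range, Matrix.range_cons, Matrix.range_cons, Matrix.range_empty, union_empty, union_assoc]
    rfl
  obtain ⟨P, hP, hPx, hPv⟩ := hI _ E lt hL p hp q hq x hx hpx hxq
  rw [hc] at hP hPv
  obtain ⟨T, hT, hPT⟩ := dp_fam hP
  refine ⟨T, hT, fun z' hz' hpz' v => ?_⟩
  have hz'E : z' ∈ E := hL.tqE _ _ (tq_of_sq hz') hp
  have hsq : Sq L (F ∪ range h) (Sum.elim (s1 p) (s1 q)) (Sum.elim (s1 p) (s1 z')) :=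
    lin_ort hL (fun _ => hp) (fun _ => hq) (sq_refl _ _) (sq_trans (sq_symm hspq) hz') (fun _ _ => hpq)
      (fun _ _ => hpz')
  have hcz : Tq L F (Sum.elim h ![p, q]) (Sum.elim h ![p, z']) := by
    refine tq_congr (tq_sub (tq_fam.1 (tq_of_sq hsq)) (Sum.elim (fun i => Sum.inr i)
      ![Sum.inl (Sum.inl 0), Sum.inl (Sum.inr 0)] : Fin n ⊕ Fin 2 → (Fin 1 ⊕ Fin 1) ⊕ Fin n)) ?_ ?_ <;>
    · funext k
      rcases k with k | k
      · rfl
      · fin_cases k <;> rfl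
  constructor
  · intro hTv
    obtain ⟨v₀, hv₀⟩ := tq_ext hC hF.countable (tq_symm hcz) (s1 v)
    have h1 : Tq L F (Sum.elim (s1 v) (Sum.elim h ![p, z'])) (Sum.elim v₀ (Sum.elim h ![p, q])) := by
      refine tq_congr (tq_sub hv₀ (Sum.swap : Fin 1 ⊕ (Fin n ⊕ Fin 2) → (Fin n ⊕ Fin 2) ⊕ Fin 1)) ?_ ?_ <;>
      · funext k
        rcases k with k | k <;> rfl
    have h2 : P v₀ := (hPT v₀).2 (h1 T hT hTv)
    have h3 : Tq L F (Sum.elim (s1 x) (Sum.elim h ![p, q])) (Sum.elim (s1 v) (Sum.elim h ![p, z'])) :=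
      tq_trans (tq_fam.1 (hPv v₀ h2)) (tq_symm h1)
    have h4 := the_srt h3
    have h5 : Tq L (F ∪ range h) (s1 x) (s1 v) := by
      refine tq_congr (tq_sub h4 (fun _ => 0 : Fin 1 → Fin 3)) ?_ ?_ <;>
      · funext k
        rfl
    have h6 : Tq L (F ∪ range h) ![p, x] ![p, v] := by
      refine tq_congr (tq_sub h4 (![1, 0] : Fin 2 → Fin 3)) ?_ ?_ <;>
      · funext k
        fin_cases k <;> rfl
    have h7 : Tq L (F ∪ range h) ![x, q] ![v, z'] := by
      refine tq_congr (tq_sub h4 (![0, 2] : Fin 2 → Fin 3)) ?_ ?_ <;>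
      · funext k
        fin_cases k <;> rfl
    have h8 : Tq L (F ∪ range h) (Sum.elim (s1 p) (s1 x)) (Sum.elim (s1 p) (s1 v)) := by
      refine tq_congr (tq_sub h4 (Sum.elim (fun _ => 1) (fun _ => 0) : Fin 1 ⊕ Fin 1 → Fin 3)) ?_ ?_ <;>
      · funext k
        rcases k with k | k <;> rfl
    exact ⟨sq_tq0 h8 hspx, hL.tql _ _ _ _ h6 hp hx hpx, hL.tql _ _ _ _ h7 hx hq hxq⟩
  · rintro ⟨hspv, hpv, hvz⟩
    have h1 : Sq L (F ∪ range h) (Sum.elim (s1 p) (s1 x)) (Sum.elim (s1 p) (s1 v)) :=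
      lin_ort hL (fun _ => hp) (fun _ => hx) (sq_refl _ _) (sq_trans (sq_symm hspx) hspv) (fun _ _ => hpx)
        (fun _ _ => hpv)
    have h2 : Sq L (F ∪ range h) (Sum.elim (Sum.elim (s1 p) (s1 x)) (s1 q))
        (Sum.elim (Sum.elim (s1 p) (s1 v)) (s1 z')) := by
      refine lin_ort hL ?_ (fun _ => hq) h1 (sq_trans (sq_symm hspq) hz') ?_ ?_
      · rintro (j | j)
        · exact hp
        · exact hx
      · rintro (j | j) _
        · exact hpq
        · exact hxq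
      · rintro (j | j) _
        · exact hpz'
        · exact hvz
    have h3 : Tq L F (Sum.elim (s1 x) (Sum.elim h ![p, q])) (Sum.elim (s1 v) (Sum.elim h ![p, z'])) := by
      refine tq_congr (tq_sub (tq_fam.1 (tq_of_sq h2)) (Sum.elim (fun _ => Sum.inl (Sum.inl (Sum.inr 0)))
        (Sum.elim (fun i => Sum.inr i) ![Sum.inl (Sum.inl (Sum.inl 0)), Sum.inl (Sum.inr 0)]) :
          Fin 1 ⊕ (Fin n ⊕ Fin 2) → ((Fin 1 ⊕ Fin 1) ⊕ Fin 1) ⊕ Fin n)) ?_ ?_ <;>
      · funext k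
        rcases k with k | k | k
        · rfl
        · rfl
        · fin_cases k <;> rfl
    exact h3 T hT ((hPT _).1 hPx)

end Pool.Agent.TPY
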