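import Pool.Agent.TPY.ALLM
import Pool.Agent.TPY.S1
import Pool.Agent.TPY.NPP
import Pool.Agent.TPY.ECR
import Pool.Agent.TPY.REG
import Pool.Agent.TPY.RDG
import Pool.Agent.TPY.RDZ
import Pool.Agent.TPY.RCL
import Pool.Agent.TPY.RPP
import Pool.Agent.TPY.RSP
import Pool.Agent.TPY.RDE
import Pool.Agent.TPY.RHN
import Pool.Agent.TPY.RCH
import Pool.Agent.TPY.RNI
import Pool.Agent.TPY.RTP
import Pool.Agent.TPY.RF1
import Pool.Agent.TPY.RGN
import Pool.Agent.TPY.RST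
import Pool.Agent.TPY.RED
import Pool.Agent.TPY.RGE
import Pool.Agent.TPY.RFA
import Pool.Agent.TPY.RFC
import Pool.Agent.TPY.RFD
import Pool.Agent.TPY.RFR
import Pool.Agent.TPY.RIS
import Pool.Agent.TPY.RIX
import Pool.Agent.TPY.RNB
import Pool.Agent.TPY.DFI
import Pool.Agent.TPY.IXD
import Pool.Agent.TPY.CHI
import Pool.Agent.TPY.SPD
import Pool.Agent.TPY.GPL
import Pool.Agent.TPY.THE
import Pool.Agent.TPY.ODD
import Pool.Agent.TPY.ODE
import Pool.Agent.TPY.ASC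
import Pool.Agent.TPY.LNB
import Pool.Agent.TPY.LNS
import Pool.Agent.TPY.LNR

/-!
# TPY/ALLR (helper47): FREE (`StR`), LINEAR (`StLN`) and NOBIG
-/

set_option autoImplicit false
set_option linter.unusedVariables false

namespace Pool.Agent.TPY

/-! ### LINEAR -/

theorem m_DFI : St_DFI := thm_DFI
theorem m_IXD : St_IXD := thm_IXD
theorem m_CHI : St_CHI := thm_CHI m_LIM m_DFI
theorem m_SPD : St_SPD := thm_SPD m_LIM m_DFI
theorem m_GPL : St_GPL := thm_GPL m_GAP f_LQF f_LIN k_ENC m_IDS m_IDB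
theorem m_THE : St_THE := thm_THE
theorem m_ODD : St_ODD := thm_ODD m_SPD
theorem m_ODE : St_ODE := thm_ODE m_GPL m_THE m_CHI
theorem m_ASC : St_ASC := thm_ASC
theorem m_LNB : St_LNB := thm_LNB thm_ECR
theorem m_LNS : St_LNS := thm_LNS m_EXT
/-- facing indiscernible sequences in an isolated type are totally indiscernible -/
theorem m_LNR : St_LNR := thm_LNR m_ODD m_ODE m_IXD m_ASC m_LNB m_LNS m_XPC

/-! ### FREE -/

theorem m_REG : St_REG := thm_REG m_M1T
theorem m_RDG : St_RDG := thm_RDG m_REG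
theorem m_RDZ : St_RDZ := thm_RDZ m_REG m_LIM
theorem m_RCL : St_RCL := thm_RCL m_REG m_RDG m_LIM
theorem m_RPP : St_RPP := thm_RPP
theorem m_RSP : St_RSP := thm_RSP m_RDG m_RDZ m_RCL m_RPP
theorem m_RDE : St_RDE := thm_RDE
theorem m_RHN : St_RHN := thm_RHN m_BNI
theorem m_RCH : St_RCH := thm_RCH m_ULT
theorem m_RNI : St_RNI := thm_RNI thm_NPP
theorem m_RTP : St_RTP := thm_RTP
theorem m_RST : St_RST := thm_RST m_RDE
theorem m_RED : St_RED := thm_RED m_ULT
theorem m_RGE : St_RGE := thm_RGE m_REG m_RDG m_RSP m_RST m_XPC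
theorem m_RFA : St_RFA := thm_RFA m_REG m_RDG m_NN m_EXT
theorem m_RFC : St_RFC := thm_RFC m_UNB
theorem m_RFD : St_RFD := thm_RFD m_REG m_RDG m_IDS m_IDB m_DPM
theorem m_RIS : St_RIS := thm_RIS
theorem m_RIX : St_RIX := thm_RIX m_LIM m_RIS

theorem m_RF1 : St_RF1 := thm_RF1 m_RDE m_RCH m_RNI
theorem m_RGN : St_RGN := thm_RGN m_RDE m_RHN m_RF1 m_RTP

/-- FREE: in a big piece some facing indiscernible sequence is not totally indiscernible -/
theorem m_RFR : St_RFR := thm_RFR m_REG m_RSP m_RHN m_RGN m_RST m_RED m_RGE m_RFA m_RFC m_RFD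

/-- NOBIG -/
theorem m_RNB : St_RNB := thm_RNB m_RIX m_RFR m_LNR

end Pool.Agent.TPY
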