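import Pool.Agent.TPY.StLN

/-!
# TPY, module ASC: comparable points with the same strong type
-/

set_option autoImplicit false
set_option linter.unusedVariables false

namespace Pool.Agent.TPY

open FirstOrder.Language Set
open scoped FirstOrder
open Pool.Agent.MNO

section

variable {L : FirstOrder.Language.{0, 0}} {U : Type} [L.Structure U]

private theorem ASC_chain {A : Set U} {Θ : U → Prop} {lt : U → U → Prop} (h : Dlo L A Θ lt) :
    ∃ y : ℕ → U, (∀ k, Θ (y k)) ∧ ∀ i j, i < j → lt (y i) (y j) := by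
  obtain ⟨v0, hv0⟩ := h.ne
  have h1 : ∀ v : {v // Θ v}, ∃ w : {v // Θ v}, lt v w := by
    intro v
    obtain ⟨w, hw, hvw⟩ := h.nmx v v.2
    exact ⟨⟨w, hw⟩, hvw⟩
  choose f hf using h1
  let y : ℕ → {v // Θ v} := fun k => f^[k] ⟨v0, hv0⟩
  have hy : ∀ k, lt (y k) (y (k + 1)) := by
    intro k
    have h2 : y (k + 1) = f (y k) := Function.iterate_succ_apply' f k _
    rw [h2]
    exact hf _
  refine ⟨fun k => y k, fun k => (y k).2, fun i j hij => ?_⟩
  induction j, hij using Nat.le_induction with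
  | base => exact hy i
  | succ j _ ih => exact h.tra _ _ _ (y i).2 (y j).2 (y (j + 1)).2 ih (hy j)

end

theorem thm_ASC : St_ASC := by
  intro L U _ hC A Θ lt hA hD
  obtain ⟨y, hyΘ, hylt⟩ := ASC_chain hD
  let P0 : (Fin 1 ⊕ Fin 1 → U) → Prop := fun v =>
    Θ (v (Sum.inl 0)) ∧ Θ (v (Sum.inr 0)) ∧ lt (v (Sum.inl 0)) (v (Sum.inr 0))
  let PE : ((Fin 1 → U) → (Fin 1 → U) → Prop) → (Fin 1 ⊕ Fin 1 → U) → Prop := fun E v =>
    E (fun i => v (Sum.inl i)) (fun i => v (Sum.inr i))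
  have hP0 : Dp L A P0 := by
    refine dp_and ?_ (dp_and ?_ hD.dfl)
    · exact dp_sub hD.dfΘ (Sum.inl : Fin 1 → Fin 1 ⊕ Fin 1)
    · exact dp_sub hD.dfΘ (Sum.inr : Fin 1 → Fin 1 ⊕ Fin 1)
  obtain ⟨v, hv⟩ := sat_dp (α := Fin 1 ⊕ Fin 1) hC hA
    (F := {P | P = P0 ∨ ∃ E, FE L A E ∧ P = PE E}) (by
      rintro P (rfl | ⟨E, hE, rfl⟩)
      · exact hP0
      · exact hE.dfn) (by
      intro G hG hfin
      have h2 : ∀ P : (Fin 1 ⊕ Fin 1 → U) → Prop, ∃ E, FE L A E ∧ (P ∈ G → P = P0 ∨ P = PE E) := by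
        intro P
        by_cases hP : P ∈ G
        · rcases hG hP with h3 | ⟨E, hE, h3⟩
          · exact ⟨_, fe_top A, fun _ => Or.inl h3⟩
          · exact ⟨E, hE, fun _ => Or.inr h3⟩
        · exact ⟨_, fe_top A, fun h => absurd h hP⟩
      choose e he he' using h2
      obtain ⟨E, hE, hEG⟩ := fe_inf (hfin.image e) (by
        rintro _ ⟨P, -, rfl⟩
        exact he P)
      obtain ⟨N, hN⟩ := fe_num hE
      obtain ⟨i, j, hij, hEij⟩ := hN (fun k => s1 (y k))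
      refine ⟨Sum.elim (s1 (y i)) (s1 (y j)), fun P hP => ?_⟩
      rcases he' P hP with h3 | h3
      · rw [h3]
        exact ⟨hyΘ _, hyΘ _, hylt _ _ hij⟩
      · rw [h3]
        exact hEG _ ⟨P, hP, rfl⟩ _ _ hEij)
  have h1 := hv P0 (Or.inl rfl)
  refine ⟨v (Sum.inl 0), v (Sum.inr 0), h1.1, h1.2.1, h1.2.2, fun E hE => ?_⟩
  have h2 := hv (PE E) (Or.inr ⟨E, hE, rfl⟩)
  have e1 : s1 (v (Sum.inl 0)) = fun i : Fin 1 => v (Sum.inl i) := by
    funext i
    fin_cases i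
    rfl
  have e2 : s1 (v (Sum.inr 0)) = fun i : Fin 1 => v (Sum.inr i) := by
    funext i
    fin_cases i
    rfl
  rw [e1, e2]
  exact h2

end Pool.Agent.TPY
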