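import Pool.Agent.TPY.NES

/-!
# TPY (port of TPX) module CHN: the chain lemma (helper31)
-/

set_option autoImplicit false
set_option linter.unusedVariables false

namespace Pool.Agent.TPY

open FirstOrder.Language Set
open scoped FirstOrder
open Pool.Agent.MNO

variable {L : FirstOrder.Language.{0, 0}} {U : Type} [L.Structure U]

/-- an element which is missed by the ends over fewer `z` than `x` is orthogonal to `r` over `A x` -/
theorem chn_core (hBXX : St_BXX) (hC : Cz L U) {r p : ((Fin 1 → U) → Prop) → Prop} (hr : GT L r)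
    (hN : Nal r) {A : Set U} (hA : A.Finite) (hI : Inv L A r) (hp : GT L p) (hIp : Inv L A p)
    (h1 : ∀ v ∈ En L A r, ∀ z : U, Ets L (insert v A) (s1 z) p → v ∉ En L (insert z A) r)
    {x y : U} (hx : x ∈ En L A r)
    (hS : ∀ z, Ets L A (s1 z) p → x ∉ En L (insert z A) r → y ∉ En L (insert z A) r) :
    y ∉ En L (insert x A) r := by
  intro hyx
  have hIx : Inv L (insert x A) r := inv_up (subset_insert x A) hI
  refine hyx (or_of hC hr (hA.insert x) hIx fun n z zo hz hzo => ?_)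
  obtain ⟨z₀', hz₀'⟩ := gt_real hC hp (B := insert x A) (hA.insert x).countable
  obtain ⟨z₀, rfl⟩ : ∃ z₀, z₀' = s1 z₀ := ⟨z₀' 0, (s1_eq z₀').symm⟩
  have hz₀ : Ets L (insert x A) (s1 z₀) p := hz₀'
  obtain ⟨z', hz'⟩ := mo_ex0 hC hr (C := insert x A ∪ {z₀})
    ((hA.insert x).countable.union (countable_singleton _))
  have h2 : Sq L (insert x A) (fl n z) (fl n z') :=
    mo_uni0 hC hr (hA.insert x) hIx hz (mo_mono subset_union_left le_rfl (hz' n))
  obtain ⟨y'', hy'⟩ := sq_ext hC (hA.insert x).countable h2 (s1 y)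
  obtain ⟨y', rfl⟩ : ∃ y', y'' = s1 y' := ⟨y'' 0, (s1_eq y'').symm⟩
  have h3 : Sq L (insert x A) (s1 y') (s1 y) := sq_symm (sq_right hy')
  obtain ⟨z₁', hz₁⟩ := sq_ext hC (hA.insert x).countable h3 (s1 z₀)
  obtain ⟨z₁, rfl⟩ : ∃ z₁, z₁' = s1 z₁ := ⟨z₁' 0, (s1_eq z₁').symm⟩
  have hz₁E : Ets L (insert x A) (s1 z₁) p := ets_congr hp hz₀ (sq_right hz₁)
  have hxz₀ : x ∉ En L (insert z₀ A) r := h1 x hx z₀ hz₀
  have hyz₁ : y ∉ En L (insert z₁ A) r :=
    hS z₁ (ets_mono (subset_insert x A) hz₁E) (h1 x hx z₁ hz₁E)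
  have hyz₀ : y' ∉ En L (insert z₀ A) r := fun h =>
    hyz₁ ((nes_mv1 hC hr hA hI (sq_mono (subset_insert x A) hz₁)).1 h)
  have hIz : Inv L (insert z₀ A) r := inv_up (subset_insert z₀ A) hI
  have hzf : (insert z₀ A).Finite := hA.insert z₀
  obtain ⟨z'', hz''⟩ := mo_ex0 hC hr (C := insert x A ∪ {z₀} ∪ {y'})
    (((hA.insert x).countable.union (countable_singleton _)).union (countable_singleton _))
  have hs1 : insert z₀ A ⊆ insert x A ∪ {z₀} :=
    insert_subset (Or.inr rfl) ((subset_insert x A).trans subset_union_left)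
  have h4 : Sq L (insert z₀ A) (fl n z') (fl n z'') :=
    mo_uni0 hC hr hzf hIz (mo_mono hs1 le_rfl (hz' n))
      (mo_mono (hs1.trans subset_union_left) le_rfl (hz'' n))
  have hin : ∀ i, fl n z' i ∈ En L (insert z₀ A) r := by
    obtain ⟨w, hw, hwe⟩ := en_real hBXX hC hr hN hI (subset_insert z₀ A) hzf
    rintro ⟨i, a⟩
    have h5 : Sq L (insert z₀ A) (s1 w) (z' i) :=
      ets_sq hr hw (ets_mono (hs1.trans subset_union_left) (hz' n i i.2))
    exact (hBXX L U hC (Fin 1) r hr _ hzf hIz).inv _ _ (sq_s1 h5 a) hwe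
  have h6 := of hC hzf Subset.rfl (hBXX L U hC (Fin 1) r hr _ hzf hIz) hin h4
    (w := Sum.elim (s1 x) (s1 y')) (by
      rintro (j | j)
      · exact hxz₀
      · exact hyz₀)
  have hs2 : insert x A ⊆ insert z₀ A ∪ range (Sum.elim (s1 x) (s1 y')) :=
    insert_subset (Or.inr ⟨Sum.inl 0, rfl⟩) ((subset_insert z₀ A).trans subset_union_left)
  have h7 : Sq L (insert x A) (Sum.elim (fl n z') (s1 y')) (Sum.elim (fl n z'') (s1 y')) :=
    sq_mono hs2 (sq_add h6 (s1 y') fun _ => Or.inr ⟨Sum.inr 0, rfl⟩)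
  have h8 : Sq L (insert x A) (Sum.elim (fl n z'') (s1 y')) (Sum.elim (fl n zo) (s1 y)) := by
    refine mo_uni hC hr (hA.insert x) hIx h3 (mo_mono ?_ le_rfl (hz'' n)) hzo
    rw [range_s1]
    exact union_subset_union_left _ subset_union_left
  exact sq_trans hy' (sq_trans h7 h8)

/-- [CHN] the chain lemma -/
theorem thm_CHN (hBXX : St_BXX) : St_CHN := by
  intro L U _ hC r hr hN A hA hI p hp hIp h1 h2 x hx y hy hyx hxy
  -- the ends over realisations of `p` form a chain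
  have hch : ∀ z₁ z₂ : U, Ets L A (s1 z₁) p → Ets L A (s1 z₂) p →
      En L (insert z₁ A) r ⊆ En L (insert z₂ A) r ∨ En L (insert z₂ A) r ⊆ En L (insert z₁ A) r := by
    have hsub : ∀ z₁ z₂ : U, z₁ ∉ En L (insert z₂ A) r →
        En L (insert z₂ A) r ⊆ En L (insert z₁ A) r := by
      intro z₁ z₂ h
      rw [← en_add hBXX hC hr hN hI (subset_insert z₂ A) (hA.insert z₂) h]
      refine en_mono hBXX hC hr hN hI (subset_insert z₁ A) ?_ ((hA.insert z₂).insert z₁)
      exact insert_subset_insert (subset_insert z₂ A)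
    intro z₁ z₂ hz₁ hz₂
    by_cases h : z₁ ∈ En L (insert z₂ A) r
    · exact Or.inl (hsub z₂ z₁ fun h' => h2 z₁ z₂ hz₁ hz₂ ⟨h, h'⟩)
    · exact Or.inr (hsub z₁ z₂ h)
  by_cases hS : ∀ z, Ets L A (s1 z) p → x ∉ En L (insert z A) r → y ∉ En L (insert z A) r
  · exact chn_core hBXX hC hr hN hA hI hp hIp h1 hx hS hyx
  · push Not at hS
    obtain ⟨z₁, hz₁, hxz₁, hyz₁⟩ := hS
    refine chn_core hBXX hC hr hN hA hI hp hIp h1 hy (fun z hz hyz hxz => ?_) hxy
    rcases hch z₁ z hz₁ hz with h | h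
    · exact hyz (h hyz₁)
    · exact hxz₁ (h hxz)

end Pool.Agent.TPY
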