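import Pool.Agent.TPY.StK
import Pool.Agent.TPY.Fre1

/-!
# TPY (port of TPX) module RLE: realising `r` over `acl^eq(A c)` is invariant under `Sq A`
-/

set_option autoImplicit false
set_option linter.unusedVariables false

namespace Pool.Agent.TPY

open FirstOrder.Language Set
open scoped FirstOrder
open Pool.Agent.MNO

/-- [RLE] -/
theorem thm_RLE : St_RLE := by
  intro L U _ hC α γ _ _ A r hA hr hI z z' c c' h hz
  have h1 : Rl L A r c z := rl_of_ets (B := A ∪ range c) subset_union_left
    (fun i => Or.inr ⟨i, rfl⟩) hz
  exact rl_ets' hC hr hI hA.countable (rl_mv hC hr hI hA.countable h1 h)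

end Pool.Agent.TPY
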