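import Pool.Agent.TPY.StK
import Pool.Agent.TPY.Fre1
import Pool.Agent.TPY.CDP
import Pool.Agent.TPY.FAM
import Pool.Agent.TPY.RLE

/-!
# TPY (port of TPX): TRS (helper97)
-/

set_option autoImplicit false
set_option linter.unusedVariables false

namespace Pool.Agent.TPY

open FirstOrder.Language Set
open scoped FirstOrder
open Pool.Agent.MNO

variable {L : FirstOrder.Language.{0, 0}} {U : Type} [L.Structure U]

/-! ### small lemmas -/

/-- an invariant type is invariant over more parameters -/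
theorem trs_inv {α : Type} {r : ((α → U) → Prop) → Prop} {A B : Set U} (hAB : A ⊆ B)
    (hI : Inv L A r) : Inv L B r := by
  intro n P hP c c' h h1
  obtain ⟨B₀, hB₀, hB₀B, hP₀⟩ := dp_fin hP
  obtain ⟨m, b, hb⟩ := exists_enum hB₀
  rw [← hb] at hP₀
  obtain ⟨Q, hQ, hPQ⟩ := dp_fam0 hP₀
  have hQ' : Dp L A (fun v : α ⊕ (Fin n ⊕ Fin m) → U =>
      Q (fun i => v ((Sum.elim (Sum.elim Sum.inl (fun j => Sum.inr (Sum.inl j)))
        (fun j => Sum.inr (Sum.inr j)) : (α ⊕ Fin n) ⊕ Fin m → α ⊕ (Fin n ⊕ Fin m)) i))) :=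
    dp_mono (empty_subset _) (dp_sub hQ _)
  have e : ∀ (x : α → U) (d : Fin n → U), (fun i => (Sum.elim x (Sum.elim d b) :
      α ⊕ (Fin n ⊕ Fin m) → U) ((Sum.elim (Sum.elim Sum.inl (fun j => Sum.inr (Sum.inl j)))
        (fun j => Sum.inr (Sum.inr j)) : (α ⊕ Fin n) ⊕ Fin m → α ⊕ (Fin n ⊕ Fin m)) i)) =
      Sum.elim (Sum.elim x d) b := by
    intro x d
    funext i
    rcases i with (i | i) | i <;> rfl
  have e2 : ∀ d : Fin n → U, (fun x : α → U => P (Sum.elim x d)) = (fun x : α → U =>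
      Q (fun i => (Sum.elim x (Sum.elim d b) :
      α ⊕ (Fin n ⊕ Fin m) → U) ((Sum.elim (Sum.elim Sum.inl (fun j => Sum.inr (Sum.inl j)))
        (fun j => Sum.inr (Sum.inr j)) : (α ⊕ Fin n) ⊕ Fin m → α ⊕ (Fin n ⊕ Fin m)) i))) := by
    intro d
    funext x
    rw [e x d]
    exact propext (hPQ _)
  rw [e2] at h1 ⊢
  refine inv_any hI hQ' (sq_mono hAB (sq_add h b ?_)) h1
  intro i
  exact hB₀B (by rw [← hb]; exact ⟨i, rfl⟩)

theorem trs_rg_fin {α : Type} [Finite α] (n : ℕ) (z : ℕ → α → U) : (rg n z).Finite := by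
  have h : rg n z = ⋃ i ∈ Finset.range n, range (z i) := by
    ext x
    simp only [rg, mem_ofPred_eq, mem_iUnion, Finset.mem_range, mem_range]
    constructor
    · rintro ⟨i, hi, a, ha⟩
      exact ⟨i, hi, a, ha.symm⟩
    · rintro ⟨i, hi, a, ha⟩
      exact ⟨i, hi, a, ha.symm⟩
  rw [h]
  exact (Finset.range n).finite_toSet.biUnion (fun i _ => finite_range _)

theorem trs_rg_zero {α : Type} (z : ℕ → α → U) : rg 0 z = ∅ := by
  ext x
  simp [rg]

theorem trs_ets_mono {α : Type} {r : ((α → U) → Prop) → Prop} {a : α → U} {B B' : Set U}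
    (hB : B ⊆ B') (ha : Ets L B' a r) : Ets L B a r := fun E hE => ha E (fe_mono hB hE)

theorem trs_or {α γ : Type} [Finite α] [Finite γ] (hORC : St_ORC) (hC : Cz L U)
    {s : ((α → U) → Prop) → Prop} (hs : GT L s) {A : Set U} (hA : A.Finite) (hI : Inv L A s)
    {c c' : γ → U} (h : Sq L A c c') (ho : Or L A s c) : Or L A s c' := by
  have h1 := (hORC L U hC α s hs A hA hI).1 γ (Fin 0) c c' (fun i => i.elim0) (fun i => i.elim0)
    (sq_cov h (fun i => by
      rcases i with i | i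
      · exact ⟨i, rfl, rfl⟩
      · exact i.elim0))
  rw [range_eq_empty, union_empty] at h1
  exact h1 ho

/-- a recursion with growing countable sets -/
theorem trs_rec {X : Type} (D₀ : Set U) (hD₀ : D₀.Countable) (Q : Set U → X → Prop)
    (e : X → Set U) (he : ∀ x, (e x).Countable)
    (h : ∀ D : Set U, D.Countable → D₀ ⊆ D → ∃ x, Q D x) :
    ∃ (D : ℕ → Set U) (x : ℕ → X), (∀ i, D₀ ⊆ D i) ∧ (∀ i, Q (D i) (x i)) ∧
      (∀ i k, i ≤ k → D i ⊆ D k) ∧ (∀ i k, i < k → e (x i) ⊆ D k) := by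
  have h' : ∀ D : {D : Set U // D.Countable ∧ D₀ ⊆ D}, ∃ x, Q D.1 x := fun D => h D.1 D.2.1 D.2.2
  choose f hf using h'
  let G : {D : Set U // D.Countable ∧ D₀ ⊆ D} → {D : Set U // D.Countable ∧ D₀ ⊆ D} :=
    fun D => ⟨D.1 ∪ e (f D), D.2.1.union (he _), D.2.2.trans subset_union_left⟩
  let D : ℕ → {D : Set U // D.Countable ∧ D₀ ⊆ D} := fun n => G^[n] ⟨D₀, hD₀, Subset.rfl⟩
  have hD : ∀ n, (D (n + 1)).1 = (D n).1 ∪ e (f (D n)) := by
    intro n
    have : D (n + 1) = G (D n) := Function.iterate_succ_apply' G n _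
    rw [this]
  have hmono : ∀ i k, i ≤ k → (D i).1 ⊆ (D k).1 := by
    intro i k hik
    induction k, hik using Nat.le_induction with
    | base => exact Subset.rfl
    | succ n _ ih => exact ih.trans (by rw [hD]; exact subset_union_left)
  refine ⟨fun n => (D n).1, fun n => f (D n), fun i => (D i).2.2, fun i => hf (D i), hmono, ?_⟩
  intro i k hik
  exact (subset_union_right (s := (D i).1)).trans ((hD i).symm.subset.trans (hmono _ _ hik))

/-! ### the array -/

end Pool.Agent.TPY
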