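import Pool.Agent.TPY.StN
import Pool.Agent.TPY.TRS

/-!
# TPY (port of TPX): F1R (helper97)
-/

set_option autoImplicit false
set_option linter.unusedVariables false

namespace Pool.Agent.TPY

open FirstOrder.Language Set
open scoped FirstOrder
open Pool.Agent.MNO

theorem thm_F1R (hENC : St_ENC) (hCCC : St_CCC) : St_F1R := by
  intro L U _ hC r hr hn A hA hI w x₁ x₂ x₃ hw hx₁ hx₂ hx₃ hnw
  obtain ⟨e1, e2, e3, e4, e5, e6, e7⟩ := hENC L U hC r hr hn A hA hI
  by_contra hcon
  push Not at hcon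
  obtain ⟨n0, n1, n2, n3⟩ := hcon
  have hNF := hCCC L U hC r hr hn (insert w A) (hA.insert w) (trs_inv (subset_insert _ _) hI) hnw x₁ hx₁
  have mono : ∀ {B C : Set U} {y : U}, A ⊆ B → B ⊆ C → C.Finite → y ∈ En L C r → y ∈ En L B r :=
    fun hAB hBC hC hy => e2 _ _ hAB hBC hC hy
  have f1 : (insert x₁ (insert w A)).Finite := (hA.insert w).insert x₁
  have f2 : (insert x₂ (insert x₁ (insert w A))).Finite := f1.insert x₂
  have hx₃' : x₃ ∈ En L (insert x₁ (insert w A)) r :=
    mono (by intro y hy; simp [hy]) (subset_insert _ _) f2 hx₃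
  have hstar := hNF x₂ hx₂ x₃ hx₃' hx₃
  have a1 : x₁ ∈ En L A r := mono Subset.rfl (subset_insert _ _) (hA.insert w) hx₁
  have a2 : w ∈ En L (insert x₁ A) r := n0 w hw x₁ a1 hx₁
  have a3 : x₂ ∈ En L (insert x₁ A) r := mono (subset_insert _ _)
    (insert_subset_insert (subset_insert _ _)) f1 hx₂
  have a4 : x₃ ∈ En L (insert x₁ A) r := mono (subset_insert _ _)
    (insert_subset_insert (subset_insert _ _)) f1 hx₃'
  have a5 : w ∈ En L (insert x₂ (insert x₁ A)) r := n1 w a2 x₂ a3 (by rwa [insert_comm])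
  have a6 : w ∈ En L (insert x₃ (insert x₁ A)) r := n1 w a2 x₃ a4 (by rwa [insert_comm])
  have a7 : x₃ ∈ En L (insert x₂ (insert x₁ A)) r := mono (by intro y hy; simp [hy])
    (by intro y hy; simp only [mem_insert_iff] at hy ⊢; tauto) f2 hx₃
  have a8 : x₂ ∈ En L (insert x₃ (insert x₁ A)) r := n1 x₂ a3 x₃ a4 a7
  have c1 : insert x₂ (insert x₁ (insert w A)) = insert w (insert x₂ (insert x₁ A)) := by
    ext y; simp only [mem_insert_iff]; tauto
  have a9 : w ∈ En L (insert x₃ (insert x₂ (insert x₁ A))) r :=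
    n2 w a5 x₃ a7 (by rwa [c1] at hx₃)
  have c2 : insert x₃ (insert x₂ (insert x₁ A)) = insert x₂ (insert x₃ (insert x₁ A)) := by
    ext y; simp only [mem_insert_iff]; tauto
  have a10 := n3 x₂ a8 w a6 (by rwa [c2] at a9)
  have c3 : insert w (insert x₃ (insert x₁ A)) = insert x₃ (insert x₁ (insert w A)) := by
    ext y; simp only [mem_insert_iff]; tauto
  rw [c3] at a10
  exact hstar a10

end Pool.Agent.TPY
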