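import Pool.Agent.TPY.StN
import Pool.Agent.TPY.ENC

/-!
# TPY (port of TPX) module NES: a nested pair gives an invariant type all of whose realisations are beyond everything (helper31)
-/

set_option autoImplicit false
set_option linter.unusedVariables false

namespace Pool.Agent.TPY

open FirstOrder.Language Set
open scoped FirstOrder
open Pool.Agent.MNO

variable {L : FirstOrder.Language.{0, 0}} {U : Type} [L.Structure U]

theorem nes_un (A : Set U) (x : U) : A ∪ range (s1 x) = insert x A := by
  rw [range_s1, union_comm]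
  rfl

/-- membership in ends over one more parameter is invariant -/
theorem nes_mv1 (hC : Cz L U) {r : ((Fin 1 → U) → Prop) → Prop} {A : Set U} (hr : GT L r)
    (hA : A.Finite) (hI : Inv L A r) {x x' z z' : U}
    (h : Sq L A (Sum.elim (s1 x) (s1 z)) (Sum.elim (s1 x') (s1 z'))) :
    x ∈ En L (insert z A) r ↔ x' ∈ En L (insert z' A) r := by
  have h1 := en_mv hC hr hA hI (c := s1 z) (c' := s1 z') h
  rw [nes_un, nes_un] at h1
  exact h1

/-- realisations of an invariant type over conjugate elements -/
theorem nes_pair (hC : Cz L U) {p : ((Fin 1 → U) → Prop) → Prop} {A : Set U} (hp : GT L p)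
    (hA : A.Finite) (hI : Inv L A p) {x x' z z' : U} (h : Sq L A (s1 x) (s1 x'))
    (hz : Ets L (insert x A) (s1 z) p) (hz' : Ets L (insert x' A) (s1 z') p) :
    Sq L A (Sum.elim (s1 x) (s1 z)) (Sum.elim (s1 x') (s1 z')) := by
  refine sq_swap (rl_sq hC hp hI hA.countable h ?_ ?_)
  · exact rl_of_ets (subset_insert x A) (fun _ => mem_insert x A) hz
  · exact rl_of_ets (subset_insert x' A) (fun _ => mem_insert x' A) hz'

/-- [NES] -/
theorem thm_NES (hDIV : St_DIV) (hBXX : St_BXX) : St_NES := by
  intro L U _ hC r hr hN A hA hI c z hc hz hcz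
  obtain ⟨p, hp, hpN, hIp, hEp⟩ := hDIV L U hC r hr hN A hA hI (insert c A) z (subset_insert c A)
    (hA.insert c) hz
  refine ⟨p, hp, hpN, hIp, hEp, ?_⟩
  -- the set `Y`
  let Y : Set U := {x | x ∈ En L A r ∧ ∃ z', Ets L (insert x A) (s1 z') p ∧ x ∈ En L (insert z' A) r}
  have hYall : ∀ x ∈ Y, ∀ z', Ets L (insert x A) (s1 z') p → x ∈ En L (insert z' A) r := by
    rintro x ⟨-, z₁, h1, h2⟩ z' hz'
    exact (nes_mv1 hC hr hA hI (nes_pair hC hp hA hIp (sq_refl A (s1 x)) h1 hz')).1 h2
  have hBF : BF L A Y := by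
    refine ⟨fun x y h hx => ?_, fun m n u u' w hu hu' hw h => ?_⟩
    · have hy : y ∈ En L A r := (hBXX L U hC (Fin 1) r hr A hA hI).inv x y h hx.1
      obtain ⟨z', hz'⟩ := gt_real hC hp (B := insert y A) (hA.insert y).countable
      obtain ⟨z₁, hz₁, h1⟩ := hx.2
      refine ⟨hy, z' 0, ?_, ?_⟩
      · rw [s1_eq]
        exact hz'
      · refine (nes_mv1 hC hr hA hI (nes_pair hC hp hA hIp h hz₁ ?_)).1 h1
        rw [s1_eq]
        exact hz'
    · obtain ⟨z', hz'⟩ := gt_real hC hp (B := A ∪ range u ∪ range u' ∪ range w)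
        (((hA.countable.union (countable_range _)).union (countable_range _)).union
          (countable_range _))
      have hz1 : Ets L (A ∪ range u ∪ range u' ∪ range w) (s1 (z' 0)) p := by
        rw [s1_eq]
        exact hz'
      have hui : ∀ i, u i ∈ En L (insert (z' 0) A) r := fun i =>
        hYall _ (hu i) _ (ets_mono (insert_subset (Or.inl (Or.inl (Or.inr ⟨i, rfl⟩)))
          (subset_union_left.trans (subset_union_left.trans subset_union_left))) hz1)
      have hwj : ∀ j, w j ∉ En L (insert (z' 0) A) r := by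
        intro j hj
        refine hw j ⟨en_mono hBXX hC hr hN hI Subset.rfl (subset_insert _ A) (hA.insert _) hj,
          z' 0, ?_, hj⟩
        exact ets_mono (insert_subset (Or.inr ⟨j, rfl⟩)
          (subset_union_left.trans (subset_union_left.trans subset_union_left))) hz1
      have h1 : Sq L (A ∪ range (s1 (z' 0))) u u' := by
        refine li hC hA hp hIp h (rl_of_ets (subset_union_left.trans
          (subset_union_left.trans subset_union_left)) ?_ hz1)
        rintro (i | i)
        · exact Or.inl (Or.inl (Or.inr ⟨i, rfl⟩))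
        · exact Or.inl (Or.inr ⟨i, rfl⟩)
      rw [nes_un] at h1
      exact sq_mono (subset_insert _ A) (bf_prd (hBXX L U hC (Fin 1) r hr _ (hA.insert _)
        (inv_up (subset_insert _ A) hI)) hui hwj h1)
  intro x hx z' hz' hxz
  have hxY : x ∈ Y := ⟨hx, z', hz', hxz⟩
  have h1 : c ∈ Pc L A x := by
    rw [en_eq hBXX hC hr hN hI Subset.rfl hA hx]
    exact hc
  exact hcz (hYall c (pc_sub hBF hxY h1) z hEp)

end Pool.Agent.TPY
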