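import Pool.Agent.TPY.ENC

/-!
# TPY (port of TPX) module REA: strong types in the end over `B` occur in the end over `C ⊇ B`
-/

set_option autoImplicit false
set_option linter.unusedVariables false

namespace Pool.Agent.TPY

open FirstOrder.Language Set
open scoped FirstOrder
open Pool.Agent.MNO

/-- [REA] -/
theorem thm_REA (hBXX : St_BXX) : St_REA := by
  intro L U _ hC r hr hN A hA hI B C y hAB hBC hCf hy
  have hB : B.Finite := hCf.subset hBC
  have hIB : Inv L B r := inv_up hAB hI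
  have hIC : Inv L C r := inv_up hBC hIB
  have h0 : ¬ ∀ (n : ℕ) (z z' : ℕ → Fin 1 → U), Mo L B r n z → Mo L (B ∪ range (s1 y)) r n z' →
      Sq L B (Sum.elim (fl n z) (s1 y)) (Sum.elim (fl n z') (s1 y)) :=
    fun h => hy (or_of hC hr hB hIB h)
  push Not at h0
  obtain ⟨n, z, z₀, hz, hz₀, hne⟩ := h0
  obtain ⟨z', hz'⟩ := mo_ex0 hC hr (C := C) hCf.countable
  obtain ⟨y', hy'⟩ := sq_ext hC hB.countable
    (mo_uni0 hC hr hB hIB hz (mo_mono hBC le_rfl (hz' n))) (s1 y)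
  rw [← s1_eq y'] at hy'
  refine ⟨y' 0, sq_right hy', ?_⟩
  by_contra hn
  obtain ⟨z'', hz''⟩ := mo_ex0 hC hr (C := C ∪ range (s1 (y' 0)))
    (hCf.countable.union (countable_range _))
  have h1 := mo_uni0 hC hr hCf hIC (hz' n) (mo_mono subset_union_left le_rfl (hz'' n))
  obtain ⟨w, hw, hwe⟩ := en_real hBXX hC hr hN hI (hAB.trans hBC) hCf
  have h2 : ∀ z : ℕ → Fin 1 → U, Mo L C r n z → ∀ i, fl n z i ∈ En L C r := by
    rintro z hz ⟨i, a⟩
    have h3 : Sq L C (s1 w) (z i) := ets_sq hr hw (ets_mono subset_union_left (hz i i.2))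
    exact (hBXX L U hC (Fin 1) r hr C hCf hIC).inv _ _ (sq_s1 h3 a) hwe
  have h3 := bf_prd (hBXX L U hC (Fin 1) r hr C hCf hIC) (h2 z' (hz' n)) (w := s1 (y' 0))
    (fun j => hn) h1
  have h4 := mo_uni hC hr hB hIB (c := s1 (y' 0)) (c' := s1 y) (sq_symm (sq_right hy'))
    (mo_mono (union_subset_union_left _ hBC) le_rfl (hz'' n)) hz₀
  exact hne (sq_trans hy' (sq_trans (sq_mono hBC h3) h4))

end Pool.Agent.TPY
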