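import Pool.Agent.TPY.FAC
import Pool.Agent.TPY.REA

/-!
# TPY (port of TPX) module UNE (helper68): uniqueness of the end if there are no nested pairs
-/

set_option autoImplicit false
set_option linter.unusedVariables false

namespace Pool.Agent.TPY

open FirstOrder.Language Set
open scoped FirstOrder
open Pool.Agent.MNO

variable {L : FirstOrder.Language.{0, 0}} {U : Type} [L.Structure U]

/-- one step: a new parameter `c` in the common end `P` over `B` -/
theorem une_step (hBXX : St_BXX) (hREA : St_REA) (hDIV : St_DIV) (hC : Cz L U)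
    {r p : ((Fin 1 → U) → Prop) → Prop} (hr : GT L r) (hN : Nal r) (hp : GT L p) (hNp : Nal p)
    {B : Set U} (hB : B.Finite) (hI : Inv L B r) (hIp : Inv L B p) (h0 : N0 L B r)
    (hP : En L B p = En L B r) {c : U} (hc : c ∈ En L B r) :
    En L (insert c B) p = En L (insert c B) r := by
  by_contra hne
  have hS : B ⊆ B := Subset.refl B
  have hBc : B ⊆ insert c B := subset_insert c B
  have hcf : (insert c B).Finite := hB.insert c
  -- the two ends over `B c` are disjoint
  have hdis : ∀ y, y ∈ En L (insert c B) p → y ∉ En L (insert c B) r := by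
    intro y hy hy'
    apply hne
    rw [← en_eq hBXX hC hr hN hI hBc hcf hy', ← en_eq hBXX hC hp hNp hIp hBc hcf hy]
  obtain ⟨c', hcc, hc'⟩ := hREA L U hC r hr hN B hB hI B (insert c B) c hS hBc hcf hc
  have hBr := hBXX L U hC (Fin 1) r hr (insert c B) hcf (inv_up hBc hI)
  -- the claim
  have hcl : ∀ z', Sq L (insert c B) (s1 c') (s1 z') →
      BF L (insert z' B) (En L (insert c B) p) := by
    intro z' hz'
    have hBz : B ⊆ insert z' B := subset_insert z' B
    have hzf : (insert z' B).Finite := hB.insert z'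
    have e1 : z' ∈ En L (insert c B) r := hBr.inv _ _ hz' hc'
    have e2 : c ∈ En L (insert z' B) r :=
      h0 c hc z' (en_mono hBXX hC hr hN hI hS hBc hcf e1) e1
    have e3 : z' ∉ En L (insert c B) p := fun h => hdis z' h e1
    have hcz : Sq L B (s1 z') (s1 c) := sq_symm (sq_trans hcc (sq_mono hBc hz'))
    have e4 : c ∉ En L (insert z' B) p := by
      intro h
      obtain ⟨w, hw⟩ := sq_ext hC hB.countable hcz (s1 c)
      rw [← s1_eq w] at hw
      exact hdis (w 0) ((en_mv1 hC hp hB hIp (sq_swap hw)).1 h)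
        ((en_mv1 hC hr hB hI (sq_swap hw)).1 e2)
    have h1 : En L (insert z' (insert c B)) p = En L (insert c B) p :=
      en_add hBXX hC hp hNp hIp hBc hcf e3
    have h2 : En L (insert c (insert z' B)) p = En L (insert z' B) p :=
      en_add hBXX hC hp hNp hIp hBz hzf e4
    rw [← h1, insert_comm, h2]
    exact hBXX L U hC (Fin 1) p hp (insert z' B) hzf (inv_up hBz hIp)
  obtain ⟨q, hq, -, hqI, hqE⟩ := hDIV L U hC r hr hN B hB hI (insert c B) c' hBc hcf hc'
  have hBF := bf_desc hC hB hcf hBc hq hqI hqE hcl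
  obtain ⟨w, -, hw⟩ := en_real hBXX hC hp hNp hIp hBc hcf
  have hw' : w ∈ En L B p := en_mono hBXX hC hp hNp hIp hS hBc hcf hw
  have h3 : Pc L B w ⊆ En L (insert c B) p := pc_sub hBF hw
  rw [en_eq hBXX hC hp hNp hIp hS hB hw', hP] at h3
  exact hdis c' (h3 (en_mono hBXX hC hr hN hI hS hBc hcf hc')) hc'

/-- [UNE] -/
theorem thm_UNE (hBXX : St_BXX) (hREA : St_REA) (hDIV : St_DIV) : St_UNE := by
  intro L U _ hC r p hr hN hp hNp A hA hI hIp h0 hP B hAB hB
  have key : ∀ s : Set U, s.Finite → En L (A ∪ s) p = En L (A ∪ s) r := by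
    intro s hs
    induction s, hs using Set.Finite.induction_on with
    | empty =>
      rw [union_empty]
      exact hP
    | @insert c s _ hs ih =>
      have hf : (A ∪ s).Finite := hA.union hs
      have hA' : A ⊆ A ∪ s := subset_union_left
      rw [union_insert]
      by_cases hc : c ∈ En L (A ∪ s) r
      · exact une_step hBXX hREA hDIV hC hr hN hp hNp hf (inv_up hA' hI) (inv_up hA' hIp)
          (h0 _ hA' hf) ih hc
      · rw [en_add hBXX hC hr hN hI hA' hf hc,
          en_add hBXX hC hp hNp hIp hA' hf (by rw [ih]; exact hc), ih]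
  have h1 := key B hB
  rw [union_eq_right.2 hAB] at h1
  exact h1

end Pool.Agent.TPY
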