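import Pool.Agent.TPY.AllK
import Pool.Agent.TPY.FAC
import Pool.Agent.TPY.NES
import Pool.Agent.TPY.CHN
import Pool.Agent.TPY.CCC
import Pool.Agent.TPY.CMP
import Pool.Agent.TPY.NMO
import Pool.Agent.TPY.F1R
import Pool.Agent.TPY.TRL
import Pool.Agent.TPY.UNE

/-!
# TPY (port of TPX): all statements of `StN.lean` are theorems
-/

set_option autoImplicit false
set_option linter.unusedVariables false

namespace Pool.Agent.TPY

theorem n_FAC : St_FAC := thm_FAC k_BXX k_DIV
theorem n_NES : St_NES := thm_NES k_DIV k_BXX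
theorem n_CHN : St_CHN := thm_CHN k_BXX
theorem n_CCC : St_CCC := thm_CCC k_BXX n_FAC n_NES n_CHN
theorem n_CMP : St_CMP := thm_CMP k_REA n_NES n_CHN
theorem n_NMO : St_NMO := thm_NMO k_ENC n_CCC
theorem n_F1R : St_F1R := thm_F1R k_ENC n_CCC
theorem n_TRL : St_TRL := thm_TRL k_ENC k_REA n_CCC n_NMO n_F1R
theorem n_UNE : St_UNE := thm_UNE k_BXX k_REA k_DIV

end Pool.Agent.TPY
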