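import Pool.Agent.TPY.EXT
import Pool.Agent.TPY.LSD

/-!
# TPY module BNI (helper73): Lascar = strong, for sequences
-/

set_option autoImplicit false
set_option linter.unusedVariables false

namespace Pool.Agent.TPY

open FirstOrder.Language Set
open scoped FirstOrder
open Pool.Agent.MNO

/-- **BNI** -/
theorem thm_BNI : St_BNI := by
  intro L U _ hC α _ F a R hF hr hs ht hi hn
  obtain ⟨w, hw1, hw2, hw3⟩ := bnd_seq hC hF a R hs ht (fun x y x' y' hx hy h hR => hi x y x' y' hx hy h hR) hn
  obtain ⟨u, hu, hE⟩ := thm_EXT L U hC α F w hF.countable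
  have h1 : ∀ q, Sq L F a (u q) := by
    intro q E hEF
    obtain ⟨j, hj, h⟩ := hE 1 (fun _ => q) (fun x y h => absurd h (by
      rw [Subsingleton.elim x y]
      exact lt_irrefl _)) _ (fe_sub hEF (fun k : α => ((0 : Fin 1), k)))
    exact hEF.eqv.trans (hw1 (j 0) E hEF) (hEF.eqv.symm h)
  have h2 : ∀ p q, p < q → Sq L F (Sum.elim (u p) (u q)) (Sum.elim (w 0) (w 1)) := by
    intro p q hpq E hEF
    have hm : StrictMono (![p, q] : Fin 2 → ℚ) := by
      intro x y h
      have hx : x = 0 := by
        apply Fin.ext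
        have := Fin.lt_def.1 h
        have := y.2
        show x.1 = 0
        omega
      have hy : y = 1 := by
        apply Fin.ext
        have := Fin.lt_def.1 h
        have := y.2
        show y.1 = 1
        omega
      rw [hx, hy]
      exact hpq
    obtain ⟨j, hj, h⟩ := hE 2 ![p, q] hm _
      (fe_sub hEF (Sum.elim (fun k : α => ((0 : Fin 2), k)) (fun k : α => ((1 : Fin 2), k))))
    have e1 : (fun k : α ⊕ α => tms u ![p, q] (Sum.elim (fun k : α => ((0 : Fin 2), k)) (fun k : α => ((1 : Fin 2), k)) k)) =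
        Sum.elim (u p) (u q) := by
      funext k
      rcases k with k | k <;> rfl
    have e2 : (fun k : α ⊕ α => tms w j (Sum.elim (fun k : α => ((0 : Fin 2), k)) (fun k : α => ((1 : Fin 2), k)) k)) =
        Sum.elim (w (j 0)) (w (j 1)) := by
      funext k
      rcases k with k | k <;> rfl
    rw [e1, e2] at h
    exact hEF.eqv.trans h (hw2 (j 0) (j 1) (hj (by decide)) E hEF)
  have h3 : ∀ p q, p < q → ¬ R (u p) (u q) := fun p q hpq hR =>
    hw3 0 1 (by decide) (hi _ _ _ _ (h1 p) (h1 q) (h2 p q hpq) hR)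
  refine ⟨u, hu, h1, fun p q hpq hR => ?_⟩
  rcases lt_or_gt_of_ne hpq with h | h
  · exact h3 p q h hR
  · exact h3 q p h (hs _ _ (h1 p) (h1 q) hR)

end Pool.Agent.TPY
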