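import Pool.Agent.TPT.ALL
import Pool.Agent.TPY.IDS
import Pool.Agent.TPY.BNI

/-!
# TPY/ROOT (helper8): the roots of the structure chapter over `Cz`: IDS, TR, DPM (TPT), BNI (LST, helper73)
-/

set_option autoImplicit false

namespace Pool.Agent.TPY

theorem r_IDS : St_IDS := thm_IDS
theorem r_TRI : St_TRI := Pool.Agent.TPT.all_TRI
theorem r_DPM : St_DPM := Pool.Agent.TPT.all_DPM
theorem r_BNI : St_BNI := thm_BNI

end Pool.Agent.TPY
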