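import Pool.Agent.TPY.AllG
import Pool.Agent.TPY.AllN
import Pool.Agent.TPY.LNK
import Pool.Agent.TPY.ROOT

/-!
# TPY, GAP: unconditional
-/

set_option autoImplicit false
set_option linter.unusedVariables false

namespace Pool.Agent.TPY

theorem g_LNK : St_LNK := thm_LNK r_TRI r_DPM r_BNI
theorem g_GAP : St_GAP := thm_GAP r_TRI r_DPM g_LNK k_ENC n_CCC
theorem g_GPE : St_GPE := thm_GPE g_GAP

end Pool.Agent.TPY
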