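import Pool.Agent.TPY.DPO

/-!
# TPY module BXX (helper8): the end of `r` over `A` is in the algebra of `A`, without extension bases
-/

set_option autoImplicit false
set_option linter.unusedVariables false

namespace Pool.Agent.TPY

open FirstOrder.Language Set
open scoped FirstOrder
open Pool.Agent.MNO

section

variable {L : FirstOrder.Language.{0, 0}} {U : Type} [L.Structure U]

/-- a sequence of orthogonal tuples which is indiscernible over `A` is indiscernible over the terms of a Morley sequence -/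
theorem bxx_idc (hIDS : St_IDS) (hC : Cz L U) {α β : Type} [Finite α] [Finite β]
    {r : ((α → U) → Prop) → Prop} (hr : GT L r) {A : Set U} (hA : A.Finite) (hI : Inv L A r)
    {I : ℚ → β → U} (hI0 : Idc L A I)
    (hor : ∀ (n : ℕ) (p q : Fin n → ℚ), Or L A r (Sum.elim (tms I p) (tms I q))) {n : ℕ}
    {z : ℕ → α → U} (hz : Mo L A r n z) : Idc L (A ∪ rg n z) I := by
  intro m p q hp hq
  have h1 := hIDS L U hC β A I hI0 m p q hp hq
  have h2 := hor m p q n z hz
  rw [Set.Sum.elim_range, ← union_assoc] at h2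
  have h3 := mo_li hC hr hA hI h1 h2
  exact fun P hP => (sq_dp h3 hP).1

end

/-- [BXX] the end of `r` over `A` is in the algebra of `A` -/
theorem thm_BXX (hIDS : St_IDS) (hBNI : St_BNI) (hTRI : St_TRI) (hDPM : St_DPM) (hORC : St_ORC)
    (hTRT : St_TRT) : St_BXX := by
  intro L U _ hC α _ r hr A hA hI
  have h0 : BF L A (En L A r)ᶜ := by
    refine ⟨fun x y h hx => ?_, fun m n u u' w hu hu' hw h => ?_⟩
    · intro hy
      exact hx fun hx' => hy (or_mv0 hC hr hA hI h hx')
    by_contra hcon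
    obtain ⟨o1, o2, o3, o4, o5, o6⟩ := hORC L U hC α r hr A hA hI
    have hEn : ∀ (n : ℕ) (w w' : Fin n → U), Sq L A w w' → (∀ j, w j ∈ En L A r) →
        ∀ j, w' j ∈ En L A r := by
      intro n w w' hs hw j hj
      exact hw j (or_mv0 hC hr hA hI (sq_s1 (sq_symm hs) j) hj)
    have hw' : ∀ j, w j ∈ En L A r := fun j => by
      by_contra h1
      exact hw j h1
    obtain ⟨I, hI1, hI2, hI3⟩ := hBNI L U hC (Fin m) A u
      (fun x y => ∀ w : Fin n → U, (∀ j, w j ∈ En L A r) → Sq L A (Sum.elim x w) (Sum.elim y w)) hA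
      (fun x _ w _ => sq_refl A _) (fun x y _ _ hxy w hw => sq_symm (hxy w hw))
      (fun x y z _ _ _ hxy hyz w hw => sq_trans (hxy w hw) (hyz w hw))
      (fun x y x' y' _ _ hs hxy w hw => by
        obtain ⟨w₁, hw₁⟩ := sq_ext hC hA.countable (sq_symm hs) w
        have h1 := hxy w₁ (hEn n w w₁ (sq_right hw₁) hw)
        have h2 : Sq L A (Sum.elim x' w) (Sum.elim x w₁) := by
          refine sq_cov hw₁ ?_
          rintro (a | a)
          · exact ⟨Sum.inl (Sum.inl a), rfl, rfl⟩
          · exact ⟨Sum.inr a, rfl, rfl⟩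
        have h3 : Sq L A (Sum.elim y' w) (Sum.elim y w₁) := by
          refine sq_cov hw₁ ?_
          rintro (a | a)
          · exact ⟨Sum.inl (Sum.inr a), rfl, rfl⟩
          · exact ⟨Sum.inr a, rfl, rfl⟩
        exact sq_trans h2 (sq_trans h1 (sq_symm h3)))
      ⟨u, u', sq_refl A u, h, fun h1 => hcon (h1 w hw')⟩
    have h1 := hI3 0 1 zero_ne_one
    push Not at h1
    obtain ⟨w₁, hw₁, hw₁'⟩ := h1
    -- a single entry breaks `I`
    have h2 : ∃ k, ¬ Idc L (insert (w₁ k) A) I := by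
      by_contra h3
      push Not at h3
      have h4 := hTRI L U hC (Fin m) (Fin n) A I w₁ hA.countable hI1 h3
      exact hw₁' (sq_mono subset_union_left (sq_add (ids_pair hIDS hC h4 0 1) w₁ fun k => Or.inr ⟨k, rfl⟩))
    obtain ⟨k, hk⟩ := h2
    obtain ⟨N, z, v, hz, hv, hnv⟩ := o3 (Fin 1) (s1 (w₁ k)) (hw₁ k)
    have hIe : ∀ q a, Or L A r (s1 (I q a)) := by
      intro q a
      refine or_mv0 hC hr hA hI (sq_s1 (hI2 q) a) ?_
      by_contra h3
      exact hu a h3
    have hA' : (A ∪ rg N z).Finite := hA.union (rg_fin N z)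
    have hI' : Inv L (A ∪ rg N z) r := inv_up subset_union_left hI
    obtain ⟨J, hJ0, hJ1, hJ⟩ := lex hC hr hA' hI' hv (D := {w₁ k}) (countable_singleton _)
    have hm1 : Idc L (A ∪ rg N z ∪ Tm I univ) J := by
      refine moq_mut1 hC hA' hr hI' hJ fun n' i hi => ?_
      refine o4 _ _ N z (hTRT L U hC α (Fin n' × Fin m) r hr A hA hI _ ?_) hz
      rintro ⟨a, b⟩
      have h3 : s1 (fl n' (sqn I i) (a, b)) = s1 (I (i a) b) := by
        show s1 (sqn I i a b) = _
        rw [sqn_eq]
      rw [h3]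
      exact hIe _ _
    have hm2 : Idc L (A ∪ rg N z ∪ Tm J univ) I := by
      refine idc_fin fun C hCs hCf => ?_
      obtain ⟨n', i, hi, hCi⟩ := tm_fin hCf hCs
      obtain ⟨x, hx, hx1, hx2⟩ := dpo_cat thm_MOC hC hr hz (moq_mo hJ hi)
      refine idc_mono ?_ (bxx_idc hIDS hC hr hA hI hI1 (fun l p q => ?_) hx)
      · refine hCi.trans ?_
        rintro y ((hy | ⟨t, ht, a, rfl⟩) | ⟨t, ht, a, rfl⟩)
        · exact Or.inl hy
        · exact Or.inr ⟨t, by omega, a, by rw [hx1 t ht]⟩
        · exact Or.inr ⟨N + t, by omega, a, by rw [hx2 t]⟩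
      · refine hTRT L U hC α _ r hr A hA hI _ ?_
        rintro (⟨a, b⟩ | ⟨a, b⟩)
        · exact hIe _ _
        · exact hIe _ _
    rcases hDPM L U hC (Fin m) α (A ∪ rg N z) I J (w₁ k) hA'.countable ⟨hm2, hm1⟩ with h3 | h3
    · exact hk (idc_mono (insert_subset_insert subset_union_left) h3)
    · rw [← union_singleton] at h3
      refine lex_brk hIDS hC hr hJ1 ?_ h3
      rw [hJ0, ← range_s1, union_right_comm]
      exact hnv
  have h1 := bf_compl hC hA.countable h0
  rw [compl_compl] at h1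
  exact h1

end Pool.Agent.TPY
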