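import Pool.Agent.TPY.StI
import Pool.Agent.TPY.Tq0
import Pool.Agent.TPY.Fre1

/-!
# TPY module LSC8 (helper8): strong types over finite sets are chains of neighbours in indiscernible sequences, from St_BNI
-/

set_option autoImplicit false
set_option linter.unusedVariables false

namespace Pool.Agent.TPY

open FirstOrder.Language Set
open scoped FirstOrder
open Pool.Agent.MNO

section

variable {L : FirstOrder.Language.{0, 0}} {U : Type} [L.Structure U]

variable (L) in
/-- `x`, `y` are the terms `0`, `1` of an `A`-indiscernible sequence -/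
def Nbr (A : Set U) {α : Type} (x y : α → U) : Prop := ∃ I : ℚ → α → U, Idc L A I ∧ I 0 = x ∧ I 1 = y

theorem nbr_mv (hC : Cz L U) {α : Type} [Finite α] {A : Set U} (hA : A.Countable) {x y x' y' : α → U}
    (h : Tq L A (Sum.elim x y) (Sum.elim x' y')) (hN : Nbr L A x y) : Nbr L A x' y' := by
  obtain ⟨I, hI, h0, h1⟩ := hN
  have : Countable α := Finite.to_countable
  obtain ⟨c, hc⟩ := tq_ext' hC hA h (fun p : ℚ × α => I p.1 p.2)
  refine ⟨fun q a => c (q, a), ?_, ?_, ?_⟩
  · have key : ∀ (n : ℕ) (i : Fin n → ℚ), Tq L A (tms I i) (tms (fun q a => c (q, a)) i) := fun n i =>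
      tq_sub hc fun p : Fin n × α => Sum.inr (i p.1, p.2)
    intro n i j hi hj
    exact tq_trans (tq_symm (key n i)) (tq_trans (hI n i j hi hj) (key n j))
  · funext a
    have h2 := (tq_eq hc (Sum.inr ((0 : ℚ), a)) (Sum.inl (Sum.inl a))).1 (by
      show I 0 a = x a
      rw [h0])
    exact h2
  · funext a
    have h2 := (tq_eq hc (Sum.inr ((1 : ℚ), a)) (Sum.inl (Sum.inr a))).1 (by
      show I 1 a = y a
      rw [h1])
    exact h2

theorem nbr_gen (hC : Cz L U) {α : Type} [Finite α] {A : Set U} (hA : A.Countable) {x y : α → U}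
    (h : Relation.EqvGen (Nbr L A) x y) : ∀ x' y' : α → U, Sq L A (Sum.elim x y) (Sum.elim x' y') →
    Relation.EqvGen (Nbr L A) x' y' := by
  induction h with
  | rel x y h =>
    intro x' y' hs
    exact Relation.EqvGen.rel _ _ (nbr_mv hC hA (tq_of_sq hs) h)
  | refl x =>
    intro x' y' hs
    have e : x' = y' := by
      funext a
      exact (tq_eq (tq_of_sq hs) (Sum.inl a) (Sum.inr a)).1 rfl
    rw [e]
    exact Relation.EqvGen.refl _
  | symm x y _ ih =>
    intro x' y' hs
    exact Relation.EqvGen.symm _ _ (ih y' x' (sq_swap hs))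
  | trans x y z _ _ ih1 ih2 =>
    intro x' z' hs
    obtain ⟨y', hy'⟩ := sq_ext hC hA hs y
    refine Relation.EqvGen.trans _ y' _ (ih1 x' y' (sq_cov hy' ?_)) (ih2 y' z' (sq_cov hy' ?_))
    · rintro (a | a)
      · exact ⟨Sum.inl (Sum.inl a), rfl, rfl⟩
      · exact ⟨Sum.inr a, rfl, rfl⟩
    · rintro (a | a)
      · exact ⟨Sum.inr a, rfl, rfl⟩
      · exact ⟨Sum.inl (Sum.inr a), rfl, rfl⟩

/-- Lascar = strong, chains of neighbours in indiscernible sequences -/
theorem bni_chain (hBNI : St_BNI) (hC : Cz L U) {α : Type} [Finite α] {A : Set U} (hA : A.Finite)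
    {x y : α → U} (h : Sq L A x y) : Relation.EqvGen (Nbr L A) x y := by
  by_contra hcon
  obtain ⟨u, hu, -, hu'⟩ := hBNI L U hC α A x (Relation.EqvGen (Nbr L A)) hA
    (fun z _ => Relation.EqvGen.refl z) (fun z w _ _ h => Relation.EqvGen.symm _ _ h)
    (fun z w v _ _ _ h h' => Relation.EqvGen.trans _ _ _ h h')
    (fun z w z' w' _ _ hs h => nbr_gen hC hA.countable h z' w' hs)
    ⟨x, y, sq_refl A x, h, hcon⟩
  exact hu' 0 1 zero_ne_one (Relation.EqvGen.rel _ _ ⟨u, hu, rfl, rfl⟩)

end

end Pool.Agent.TPY
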