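import Pool.Agent.TPY.TRSn

/-!
# TPY module DPO (helper8, from helper97's DPO of TPX): one element is orthogonal to one of two orthogonal types,
from St_DPM
-/

set_option autoImplicit false
set_option linter.unusedVariables false

namespace Pool.Agent.TPY

open FirstOrder.Language Set
open scoped FirstOrder
open Pool.Agent.MNO

variable {L : FirstOrder.Language.{0, 0}} {U : Type} [L.Structure U]

theorem dpo_rg {α : Type} (n : ℕ) (z : ℕ → α → U) : range (fl n z) = rg n z := (rg_eq n z).symm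

/-- finitely many entries of terms -/
theorem tm_fin {α : Type} {A C : Set U} {K : ℚ → α → U} (hC : C.Finite) (h : C ⊆ A ∪ Tm K univ) :
    ∃ (n : ℕ) (i : Fin n → ℚ), StrictMono i ∧ C ⊆ A ∪ rg n (sqn K i) := by
  classical
  have h1 : ∀ x : U, ∃ q : ℚ, x ∈ C → x ∉ A → ∃ k, x = K q k := by
    intro x
    by_cases hx : x ∈ C
    · rcases h hx with hA | ⟨q, -, k, hk⟩
      · exact ⟨0, fun _ h2 => absurd hA h2⟩
      · exact ⟨q, fun _ _ => ⟨k, hk⟩⟩
    · exact ⟨0, fun h2 => absurd h2 hx⟩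
  choose q hq using h1
  let S : Finset ℚ := hC.toFinset.image q
  refine ⟨S.card, S.orderEmbOfFin rfl, (S.orderEmbOfFin rfl).strictMono, fun x hx => ?_⟩
  by_cases hA : x ∈ A
  · exact Or.inl hA
  · right
    have h2 : q x ∈ S := Finset.mem_image_of_mem q (hC.mem_toFinset.2 hx)
    have h3 : q x ∈ range (S.orderEmbOfFin rfl) := by
      rw [Finset.range_orderEmbOfFin]
      exact h2
    obtain ⟨k, hk⟩ := h3
    obtain ⟨a, ha⟩ := hq x hx hA
    refine ⟨k, k.2, a, ?_⟩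
    rw [sqn_eq, hk]
    exact ha

/-- Morley sequences of orthogonal types are mutually indiscernible -/
theorem moq_mut1 {α β : Type} [Finite α] [Finite β] (hC : Cz L U) {r : ((β → U) → Prop) → Prop} {A : Set U} (hA : A.Finite) (hr : GT L r) (hrI : Inv L A r)
    {J : ℚ → α → U} {K : ℚ → β → U} (hK : Moq L A r K)
    (H : ∀ (n : ℕ) (i : Fin n → ℚ), StrictMono i → Or L A r (fl n (sqn J i))) :
    Idc L (A ∪ Tm J univ) K := by
  refine idc_fin fun C hCs hCf => ?_
  obtain ⟨n, i, hi, hCi⟩ := tm_fin hCf hCs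
  have h1 := moq_or hK (H n i hi)
  rw [← rg_eq] at h1
  exact idc_mono hCi (moq_idc hC hr (hA.union (rg_fin _ _)) (inv_up subset_union_left hrI) h1)

theorem dpo_core (hIDS : St_IDS) (hDPM : St_DPM) (hORC : St_ORC) (hC : Cz L U)
    {α β : Type} [Finite α] [Finite β] {s : ((α → U) → Prop) → Prop}
    {r : ((β → U) → Prop) → Prop} (hs : GT L s) (hr : GT L r) {A : Set U}
    (hA : A.Finite) (hsI : Inv L A s) (hrI : Inv L A r)
    (H : ∀ (n : ℕ) (z : ℕ → α → U), Mo L A s n z → Or L A r (fl n z)) (v : U)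
    (u₀ : α → U) (hu₀ : Ets L A u₀ s) (hu₁ : ¬ Ets L (A ∪ {v}) u₀ s)
    (w₀ : β → U) (hw₀ : Ets L A w₀ r) (hw₁ : ¬ Ets L (A ∪ {v}) w₀ r) : False := by
  obtain ⟨J, hJ0, hJ1, hJ⟩ := lex hC hs hA hsI hu₀ (D := {v}) (countable_singleton v)
  obtain ⟨K, hK0, hK1, hK⟩ := lex hC hr hA hrI hw₀ (D := {v}) (countable_singleton v)
  have h1 : Idc L (A ∪ Tm J univ) K :=
    moq_mut1 hC hA hr hrI hK fun n i hi => H n _ (moq_mo hJ hi)
  have h2 : Idc L (A ∪ Tm K univ) J :=
    moq_mut1 hC hA hs hsI hJ fun n i hi =>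
      (hORC L U hC β r hr A hA hrI).2.2.2.2.1 α s hs hsI H n _ (moq_mo hK hi)
  rcases hDPM L U hC α β A J K v hA.countable ⟨h2, h1⟩ with h3 | h3
  · rw [← union_singleton] at h3
    refine lex_brk hIDS hC hs hJ1 ?_ h3
    rw [hJ0]
    exact hu₁
  · rw [← union_singleton] at h3
    refine lex_brk hIDS hC hr hK1 ?_ h3
    rw [hK0]
    exact hw₁

/-- concatenation of Morley sequences -/
theorem dpo_cat (hMOC : St_MOC) (hC : Cz L U) {α : Type} [Finite α]
    {s : ((α → U) → Prop) → Prop} (hs : GT L s) {A : Set U} {m n : ℕ} {z y : ℕ → α → U}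
    (hz : Mo L A s m z) (hy : Mo L (A ∪ rg m z) s n y) :
    ∃ x : ℕ → α → U, Mo L A s (m + n) x ∧ (∀ i < m, x i = z i) ∧ ∀ i, x (m + i) = y i := by
  refine ⟨fun i => if i < m then z i else y (i - m), ?_, fun i hi => if_pos hi, fun i => ?_⟩
  · intro j hj
    by_cases hjm : j < m
    · have h1 := hz j hjm
      simp only [if_pos hjm]
      refine trs_ets_mono ?_ h1
      rintro x (hx | ⟨t, ht, q, rfl⟩)
      · exact Or.inl hx
      · refine Or.inr ⟨t, ht, q, ?_⟩
        simp [show t < m by omega]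
    · have h1 := hy (j - m) (by omega)
      simp only [if_neg hjm]
      refine trs_ets_mono ?_ h1
      rintro x (hx | ⟨t, ht, q, rfl⟩)
      · exact Or.inl (Or.inl hx)
      · by_cases htm : t < m
        · exact Or.inl (Or.inr ⟨t, htm, q, by simp [htm]⟩)
        · exact Or.inr ⟨t - m, by omega, q, by simp [htm]⟩
  · simp

theorem thm_DPO (hIDS : St_IDS) (hDPM : St_DPM) (hMOC : St_MOC) (hORC : St_ORC) : St_DPO := by
  intro L U _ hC α β _ _ s r hs hr A hA hsI hrI H v hv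
  by_contra hcon
  obtain ⟨m1, m2, m3, m4, m5, m6, m7, m8, m9⟩ := hMOC L U hC α s hs
  obtain ⟨n1, n2, n3, n4, n5, n6, n7, n8, n9⟩ := hMOC L U hC β r hr
  obtain ⟨-, -, o3, -, -, -⟩ := hORC L U hC α s hs A hA hsI
  obtain ⟨-, -, -, -, o5, -⟩ := hORC L U hC β r hr A hA hrI
  obtain ⟨n, z, u, hz, hu, hnu⟩ := o3 _ _ hv
  have hr1 : range (s1 v) = {v} := by
    ext y
    simp [s1, eq_comm]
  unfold Or at hcon
  push Not at hcon
  obtain ⟨m, w, hw, hwn⟩ := hcon
  -- `z` and `u` as one sequence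
  obtain ⟨x, hx, hx1, hx2⟩ := dpo_cat hMOC hC hs (n := 1) (y := fun _ => u) hz (by
    intro j hj
    obtain rfl : j = 0 := by omega
    rw [trs_rg_zero, union_empty]
    exact hu)
  have hwx : Mo L (A ∪ range (fl (n + 1) x)) r m w := H _ _ hx _ _ hw
  rw [dpo_rg] at hwx
  have hzx : rg n z ⊆ rg (n + 1) x := by
    rintro y ⟨t, ht, q, rfl⟩
    exact ⟨t, by omega, q, by rw [hx1 t ht]⟩
  have hwn' : ¬ Mo L (A ∪ rg n z ∪ {v}) r m w := by
    intro h
    refine hwn (n2 _ _ m m w ?_ le_rfl h)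
    rw [hr1]
    exact union_subset_union_left _ subset_union_left
  have hk : ∃ k < m, ¬ Ets L (A ∪ rg n z ∪ {v} ∪ rg k w) (w k) r := by
    by_contra hc
    push Not at hc
    exact hwn' hc
  obtain ⟨k, hkm, hk⟩ := hk
  have hxw : Mo L (A ∪ range (fl m w)) s (n + 1) x :=
    o5 α s hs hsI H m w hw _ _ hx
  rw [dpo_rg] at hxw
  have hA₂ : (A ∪ rg n z ∪ rg k w).Finite := (hA.union (trs_rg_fin _ _)).union (trs_rg_fin _ _)
  refine dpo_core hIDS hDPM hORC hC hs hr hA₂ (trs_inv (subset_union_left.trans subset_union_left) hsI)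
    (trs_inv (subset_union_left.trans subset_union_left) hrI) ?_ v u ?_ ?_ (w k) ?_ ?_
  · intro n' y hy n'' w' hw'
    obtain ⟨x', hx', hx1', hx2'⟩ := dpo_cat hMOC hC hs (n := n') (y := y) hz
      (m2 _ _ n' n' y subset_union_left le_rfl hy)
    obtain ⟨w'', hw'', hw1'', hw2''⟩ := dpo_cat hMOC hC hr (m := k) (z := w) (n := n'') (y := w')
      (n2 _ _ k m w Subset.rfl (by omega) hw) (n2 _ _ n'' n'' w' (by
        rintro y (hy | hy)
        · exact Or.inl (Or.inl hy)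
        · exact Or.inr hy) le_rfl hw')
    have h1 := H _ _ hx' _ _ hw''
    rw [dpo_rg] at h1 ⊢
    intro j hj
    have h2 := h1 (k + j) (by omega)
    rw [hw2''] at h2
    refine trs_ets_mono ?_ h2
    rintro y (((( hy | ⟨t, ht, q, rfl⟩) | ⟨t, ht, q, rfl⟩) | ⟨t, ht, q, rfl⟩) | ⟨t, ht, q, rfl⟩)
    · exact Or.inl (Or.inl hy)
    · exact Or.inl (Or.inr ⟨t, by omega, q, by rw [hx1' t ht]⟩)
    · exact Or.inr ⟨t, by omega, q, by rw [hw1'' t ht]⟩
    · exact Or.inl (Or.inr ⟨n + t, by omega, q, by rw [hx2' t]⟩)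
    · exact Or.inr ⟨k + t, by omega, q, by rw [hw2'' t]⟩
  · have h1 := hxw n (by omega)
    have h2 : x n = u := hx2 0
    rw [h2] at h1
    refine trs_ets_mono ?_ h1
    rintro y ((hy | ⟨t, ht, q, rfl⟩) | ⟨t, ht, q, rfl⟩)
    · exact Or.inl (Or.inl hy)
    · exact Or.inr ⟨t, ht, q, by rw [hx1 t ht]⟩
    · exact Or.inl (Or.inr ⟨t, by omega, q, rfl⟩)
  · intro h
    refine hnu (trs_ets_mono ?_ h)
    rw [hr1]
    rintro y ((hy | hy) | hy)
    · exact Or.inl (Or.inl (Or.inl hy))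
    · exact Or.inr hy
    · exact Or.inl (Or.inl (Or.inr hy))
  · refine trs_ets_mono ?_ (hwx k hkm)
    rintro y ((hy | hy) | hy)
    · exact Or.inl (Or.inl hy)
    · exact Or.inl (Or.inr (hzx hy))
    · exact Or.inr hy
  · intro h
    refine hk (trs_ets_mono ?_ h)
    rintro y (((hy | hy) | hy) | hy)
    · exact Or.inl (Or.inl (Or.inl hy))
    · exact Or.inl (Or.inl (Or.inr hy))
    · exact Or.inr hy
    · exact Or.inl (Or.inr hy)

end Pool.Agent.TPY
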