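import Pool.Agent.TPY.MOC

/-!
# TPY (port of TPX) module MGP: positions in a Morley sequence
-/

set_option autoImplicit false
set_option linter.unusedVariables false

namespace Pool.Agent.TPY

open FirstOrder.Language Set
open scoped FirstOrder
open Pool.Agent.MNO

/-- [MGP] terms on the same side of a block of a Morley sequence are conjugate over it -/
theorem thm_MGP : St_MGP := by
  intro L U _ hC α _ r hr B hB hI n z hz i j k k' hij hjn hk hk' h
  rcases h with ⟨h1, h2⟩ | ⟨h1, h2⟩
  · have h3 : Mo L (B ∪ range (z k) ∪ range (z k')) r (j - i) (fun l => z (i + l)) := by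
      intro l hl
      refine ets_mono ?_ (hz (i + l) (by omega))
      refine union_subset (union_subset (union_subset subset_union_left ?_) ?_) ?_
      · rintro _ ⟨a, rfl⟩
        exact Or.inr ⟨k, by omega, a, rfl⟩
      · rintro _ ⟨a, rfl⟩
        exact Or.inr ⟨k', by omega, a, rfl⟩
      · rintro _ ⟨m, hm, a, rfl⟩
        exact Or.inr ⟨i + m, by omega, a, rfl⟩
    refine sq_mono (union_subset_union_right _ ?_) (mo_li hC hr hB hI (mo_sq hr hz hk hk') h3)
    rintro x ⟨l, hil, hlj, a, rfl⟩
    refine ⟨l - i, by omega, a, ?_⟩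
    show z l a = z (i + (l - i)) a
    congr 1
    omega
  · refine ets_sq hr (ets_mono ?_ (hz k hk)) (ets_mono ?_ (hz k' hk'))
    · refine union_subset_union_right _ ?_
      rintro x ⟨l, hil, hlj, a, rfl⟩
      exact ⟨l, by omega, a, rfl⟩
    · refine union_subset_union_right _ ?_
      rintro x ⟨l, hil, hlj, a, rfl⟩
      exact ⟨l, by omega, a, rfl⟩

end Pool.Agent.TPY
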