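import Pool.Agent.TPY.ENC

/-!
# TPY (port of TPX) module STA: an element in the end over `B`, `z`, `z'` does not distinguish `z` and `z'`
-/

set_option autoImplicit false
set_option linter.unusedVariables false

namespace Pool.Agent.TPY

open FirstOrder.Language Set
open scoped FirstOrder
open Pool.Agent.MNO

/-- [STA] -/
theorem thm_STA (hDIV : St_DIV) : St_STA := by
  intro L U _ hC r hr hN A hA hI γ _ B z z' x hAB hB h hx
  obtain ⟨p, hp, -, hIp, hE⟩ := hDIV L U hC r hr hN B hB (inv_up hAB hI) (B ∪ range z ∪ range z') x
    (subset_union_left.trans subset_union_left)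
    ((hB.union (finite_range _)).union (finite_range _)) hx
  have h1 : Rl L B p (Sum.elim z z') (s1 x) := by
    refine rl_of_ets (B := B ∪ range z ∪ range z') (subset_union_left.trans subset_union_left) ?_ hE
    rintro (i | i)
    · exact Or.inl (Or.inr ⟨i, rfl⟩)
    · exact Or.inr ⟨i, rfl⟩
  have h2 := li hC hB hp hIp h h1
  rw [range_s1] at h2
  refine sq_mono ?_ h2
  rintro y (rfl | hy)
  · exact Or.inr rfl
  · exact Or.inl hy

end Pool.Agent.TPY
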