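import Pool.Agent.TPY.LEX
import Pool.Agent.TPY.StI
import Pool.Agent.TPY.TRS
import Pool.Agent.TPY.ENC

/-!
# TPY module TRSn (helper8): TRS from triviality of indiscernible sequences
-/

set_option autoImplicit false
set_option linter.unusedVariables false

namespace Pool.Agent.TPY

open FirstOrder.Language Set
open scoped FirstOrder
open Pool.Agent.MNO

section

variable {L : FirstOrder.Language.{0, 0}} {U : Type} [L.Structure U]
variable {α : Type} {r : ((α → U) → Prop) → Prop} {A B : Set U}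

/-- Morley sequences indexed by `ℚ` and orthogonality -/
theorem moq_or {γ : Type} {c : γ → U} {J : ℚ → α → U} (h : Moq L A r J) (ho : Or L A r c) :
    Moq L (A ∪ range c) r J := fun n z i hi hz => ho n z (h n z i hi hz)

/-- two terms of a sequence -/
theorem ids_pair (hIDS : St_IDS) (hC : Cz L U) [Finite α] {J : ℚ → α → U} (h : Idc L B J) (p q : ℚ) :
    Sq L B (J p) (J q) := by
  have h1 := hIDS L U hC α B J h 1 (fun _ => p) (fun _ => q) (Subsingleton.strictMono _)
    (Subsingleton.strictMono _)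
  exact sq_cov h1 fun a => ⟨(0, a), rfl, rfl⟩

/-- a Morley sequence which is broken at `0` -/
theorem lex_brk (hIDS : St_IDS) (hC : Cz L U) [Finite α] (hr : GT L r) {D : Set U} {J : ℚ → α → U}
    (hJ : ∀ q, 0 < q → Ets L (A ∪ D) (J q) r) (h0 : ¬ Ets L (A ∪ D) (J 0) r) : ¬ Idc L (A ∪ D) J :=
  fun h => h0 (ets_congr hr (hJ 1 one_pos) (ids_pair hIDS hC h 1 0))

end

/-- [TRS] -/
theorem thm_TRS (hIDS : St_IDS) (hTRI : St_TRI) (hORC : St_ORC) : St_TRS := by
  intro L U _ hC α γ _ _ s hs A hA hI a c ha hc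
  by_contra hcon
  obtain ⟨o1, o2, o3, o4, o5, o6⟩ := hORC L U hC α s hs A hA hI
  obtain ⟨n, z, u, hz, hu, hnu⟩ := o3 _ _ hcon
  have hA' : (A ∪ rg n z).Finite := hA.union (rg_fin n z)
  have hI' : Inv L (A ∪ rg n z) s := inv_up subset_union_left hI
  have e : A ∪ rg n z ∪ range (Sum.elim a (s1 c)) = A ∪ range (Sum.elim a (s1 c)) ∪ rg n z :=
    union_right_comm _ _ _
  rw [← e] at hnu
  obtain ⟨J, hJ0, hJ1, hJ⟩ := lex hC hs hA' hI' hu (D := range (Sum.elim a (s1 c))) (countable_range _)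
  have ha' := o4 _ a n z ha hz
  have hc' := o4 _ (s1 c) n z hc hz
  have h1 : ∀ k, Idc L (insert (Sum.elim a (s1 c) k) (A ∪ rg n z)) J := by
    intro k
    have h2 : Or L (A ∪ rg n z) s (s1 (Sum.elim a (s1 c) k)) := by
      rcases k with k | k
      · exact or_cov ha' fun _ => ⟨k, rfl⟩
      · exact or_cov hc' fun _ => ⟨k, rfl⟩
    have h3 := moq_or hJ h2
    rw [range_s1, union_singleton] at h3
    exact moq_idc hC hs (hA'.insert _) (inv_up (subset_insert _ _) hI') h3
  refine lex_brk hIDS hC hs hJ1 ?_ (hTRI L U hC α (γ ⊕ Fin 1) _ J _ hA'.countable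
    (moq_idc hC hs hA' hI' hJ) h1)
  rw [hJ0]
  exact hnu

end Pool.Agent.TPY
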