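import Pool.Agent.TPY.StK

/-!
# TPY (port of TPX): TRT (helper97)
-/

set_option autoImplicit false
set_option linter.unusedVariables false

namespace Pool.Agent.TPY

open FirstOrder.Language Set
open scoped FirstOrder
open Pool.Agent.MNO

theorem thm_TRT (hTRS : St_TRS) (hORC : St_ORC) : St_TRT := by
  intro L U _ hC α γ _ _ s hs A hA hI a ha
  obtain ⟨o1, o2, o3, o4, o5, o6⟩ := hORC L U hC α s hs A hA hI
  obtain ⟨n, ⟨e⟩⟩ := Finite.exists_equiv_fin γ
  have key : ∀ (n : ℕ) (b : Fin n → U), (∀ i, Or L A s (s1 (b i))) → Or L A s b := by
    intro n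
    induction n with
    | zero =>
      intro b _ n z hz
      rw [range_eq_empty, union_empty]
      exact hz
    | succ n ih =>
      intro b hb
      have h1 := hTRS L U hC α (Fin n) s hs A hA hI (fun i => b i.castSucc) (b (Fin.last n))
        (ih _ (fun i => hb _)) (hb _)
      have h2 := o6 _ _ _ (fun i : Fin (n + 1) => (finSumFinEquiv (m := n) (n := 1)).symm i) h1
      convert h2 using 1
      funext i
      refine Fin.lastCases ?_ (fun j => ?_) i
      · have : (finSumFinEquiv (m := n) (n := 1)).symm (Fin.last n) = Sum.inr 0 := by
          rw [Equiv.symm_apply_eq]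
          ext
          simp
        rw [this]
        rfl
      · have : (finSumFinEquiv (m := n) (n := 1)).symm j.castSucc = Sum.inl j := by
          rw [Equiv.symm_apply_eq]
          ext
          simp
        rw [this]
        rfl
  have h1 := key n (fun i => a (e.symm i)) (fun i => ha _)
  have h2 := o6 _ _ _ e h1
  convert h2 using 1
  funext i
  simp

end Pool.Agent.TPY
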