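import Pool.Agent.TPY.ROOT
import Pool.Agent.TPY.TRT
import Pool.Agent.TPY.TRSn
import Pool.Agent.TPY.DPO
import Pool.Agent.TPY.BXX
import Pool.Agent.TPY.DIV
import Pool.Agent.TPY.ENC
import Pool.Agent.TPY.REA
import Pool.Agent.TPY.STA
import Pool.Agent.TPY.MGP
import Pool.Agent.TPY.CDP
import Pool.Agent.TPY.NPP
import Pool.Agent.TPY.FAM

/-!
# TPY: the statements of `StK.lean` over `Cz` (roots `r_IDS`, `r_TRI`, `r_DPM`, `r_BNI`: `ROOT.lean`)
-/

set_option autoImplicit false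
set_option linter.unusedVariables false

namespace Pool.Agent.TPY

open FirstOrder.Language Set
open scoped FirstOrder
open Pool.Agent.MNO

theorem k_TRS : St_TRS := thm_TRS r_IDS r_TRI thm_ORC
theorem k_TRT : St_TRT := thm_TRT k_TRS thm_ORC
theorem k_DPO : St_DPO := thm_DPO r_IDS r_DPM thm_MOC thm_ORC
theorem k_BXX : St_BXX := thm_BXX r_IDS r_BNI r_TRI r_DPM thm_ORC k_TRT
theorem k_ENC : St_ENC := thm_ENC k_BXX
theorem k_REA : St_REA := thm_REA k_BXX
theorem k_DIV : St_DIV := thm_DIV r_IDS r_BNI thm_ORC k_REA k_ENC thm_NPP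
theorem k_STA : St_STA := thm_STA k_DIV

/-! ### the calculus of ends, unconditional -/

variable {L : FirstOrder.Language.{0, 0}} {U : Type} [L.Structure U]
variable {r : ((Fin 1 → U) → Prop) → Prop} {A B C : Set U}

theorem e_bf (hC : Cz L U) (hr : GT L r) (hI : Inv L A r) (hAB : A ⊆ B) (hB : B.Finite) :
    BF L B (En L B r) := k_BXX L U hC (Fin 1) r hr B hB (inv_up hAB hI)

theorem e_pc (hC : Cz L U) (hr : GT L r) (hN : Nal r) (hI : Inv L A r) {w : U} (hAB : A ⊆ B)
    (hB : B.Finite) (hw : Ets L B (s1 w) r) : Pc L B w = En L B r :=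
  en_pc k_BXX hC hr hN hI hAB hB hw

theorem e_real (hC : Cz L U) (hr : GT L r) (hN : Nal r) (hI : Inv L A r) (hAB : A ⊆ B)
    (hB : B.Finite) : ∃ w, Ets L B (s1 w) r ∧ w ∈ En L B r := en_real k_BXX hC hr hN hI hAB hB

theorem e_eq (hC : Cz L U) (hr : GT L r) (hN : Nal r) (hI : Inv L A r) {y : U} (hAB : A ⊆ B)
    (hB : B.Finite) (hy : y ∈ En L B r) : Pc L B y = En L B r := en_eq k_BXX hC hr hN hI hAB hB hy

theorem e_mono (hC : Cz L U) (hr : GT L r) (hN : Nal r) (hI : Inv L A r) (hAB : A ⊆ B)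
    (hBC : B ⊆ C) (hCf : C.Finite) : En L C r ⊆ En L B r := en_mono k_BXX hC hr hN hI hAB hBC hCf

theorem e_par (hC : Cz L U) (hr : GT L r) (hN : Nal r) (hI : Inv L A r) {b : U} (hAB : A ⊆ B)
    (hB : B.Finite) (hb : b ∈ B) : b ∉ En L B r := en_par k_BXX hC hr hN hI hAB hB hb

theorem e_add (hC : Cz L U) (hr : GT L r) (hN : Nal r) (hI : Inv L A r) {c : U} (hAB : A ⊆ B)
    (hB : B.Finite) (hc : c ∉ En L B r) : En L (insert c B) r = En L B r :=
  en_add k_BXX hC hr hN hI hAB hB hc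

/-- strong types in the end over `B` occur in the end over `C` -/
theorem e_rea (hC : Cz L U) (hr : GT L r) (hN : Nal r) (hI : Inv L A r) {y : U} (hAB : A ⊆ B)
    (hBC : B ⊆ C) (hCf : C.Finite) (hy : y ∈ En L B r) :
    ∃ y', Sq L B (s1 y) (s1 y') ∧ y' ∈ En L C r :=
  k_REA L U hC r hr hN B (hCf.subset hBC) (inv_up hAB hI) B C y Subset.rfl hBC hCf hy

/-- strong types over `B` in the end over `B` have extensions which are invariant over `A` -/
theorem e_div (hC : Cz L U) (hr : GT L r) (hN : Nal r) (hA : A.Finite) (hI : Inv L A r) {y : U}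
    (hAB : A ⊆ B) (hB : B.Finite) (hy : y ∈ En L B r) :
    ∃ p : ((Fin 1 → U) → Prop) → Prop, GT L p ∧ Nal p ∧ Inv L A p ∧ Ets L B (s1 y) p :=
  k_DIV L U hC r hr hN A hA hI B y hAB hB hy

/-- an element in the end over `B`, `z`, `z'` does not distinguish `z` and `z'` -/
theorem e_sta (hC : Cz L U) (hr : GT L r) (hN : Nal r) (hI : Inv L A r) {γ : Type} [Finite γ]
    {z z' : γ → U} {x : U} (hAB : A ⊆ B) (hB : B.Finite) (h : Sq L B z z')
    (hx : x ∈ En L (B ∪ range z ∪ range z') r) : Sq L (insert x B) z z' :=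
  k_STA L U hC r hr hN B hB (inv_up hAB hI) γ B z z' x Subset.rfl hB h hx

/-- realisations of `r` are in the end -/
theorem e_mem (hr : GT L r) (hN : Nal r) {w : U} (hw : Ets L B (s1 w) r) : w ∈ En L B r :=
  nal_or hr hN hw

/-- ends under equality of strong types over a smaller base -/
theorem e_mv (hC : Cz L U) (hr : GT L r) (hI : Inv L A r) {γ : Type} [Finite γ]
    {c c' : γ → U} {y y' : U} (hAB : A ⊆ B) (hB : B.Finite)
    (h : Sq L B (Sum.elim (s1 y) c) (Sum.elim (s1 y') c')) :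
    y ∈ En L (B ∪ range c) r ↔ y' ∈ En L (B ∪ range c') r := en_mv hC hr hB (inv_up hAB hI) h

/-- the version for one parameter -/
theorem e_mv1 (hC : Cz L U) (hr : GT L r) (hI : Inv L A r) {c c' y y' : U} (hAB : A ⊆ B) (hB : B.Finite)
    (h : Sq L B (Sum.elim (s1 y) (s1 c)) (Sum.elim (s1 y') (s1 c'))) :
    y ∈ En L (insert c B) r ↔ y' ∈ En L (insert c' B) r := by
  have h1 := e_mv hC hr hI hAB hB h
  rw [range_s1, range_s1, union_singleton, union_singleton] at h1
  exact h1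

end Pool.Agent.TPY
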