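import Pool.Agent.TPY.Brg4
import Pool.Agent.MNO.PRM

/-!
# TPY (port of TPX), assembly, part 1: naming parameters in `V`
-/

set_option autoImplicit false
set_option linter.unusedVariables false

namespace Pool.Agent.TPY

open FirstOrder.Language Set
open scoped FirstOrder
open Pool.Agent.MNO
open Pool.Agent.WOM (tp Mon IsEl IsoM CtU Fx Orb Isd CtT PerfT ThS)

section cst

variable {L : FirstOrder.Language.{0, 0}} {M : Type} [L.Structure M] {κ : Type}

/-- the structure with the constants `c` -/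
@[reducible] def cst (L : FirstOrder.Language.{0, 0}) {M : Type} [L.Structure M] {κ : Type} (c : κ → M) :
    (L[[κ]]).Structure M :=
  @FirstOrder.Language.withConstantsStructure L M _ κ (FirstOrder.Language.constantsOn.structure c)

/-- the constants become variables -/
noncomputable def cvf {β : Type} (φ : (L[[κ]]).Formula β) : L.Formula (κ ⊕ β) :=
  FirstOrder.Language.BoundedFormula.constantsVarsEquiv φ

/-- variables become constants -/
noncomputable def cvg {β : Type} (ψ : L.Formula (κ ⊕ β)) : (L[[κ]]).Formula β :=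
  FirstOrder.Language.BoundedFormula.constantsVarsEquiv.symm ψ

theorem cvf_cvg {β : Type} (ψ : L.Formula (κ ⊕ β)) : cvf (cvg ψ) = ψ :=
  FirstOrder.Language.BoundedFormula.constantsVarsEquiv.apply_symm_apply ψ

theorem cst_fml (c : κ → M) {β : Type} (φ : (L[[κ]]).Formula β) (v : β → M) :
    @FirstOrder.Language.Formula.Realize (L[[κ]]) M (cst L c) β φ v ↔
      (cvf φ).Realize (Sum.elim c v) := by
  let _ := FirstOrder.Language.constantsOn.structure c
  exact (FirstOrder.Language.BoundedFormula.realize_constantsVarsEquiv (φ := φ)).symm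

theorem cst_fml' (c : κ → M) {β : Type} (ψ : L.Formula (κ ⊕ β)) (v : β → M) :
    @FirstOrder.Language.Formula.Realize (L[[κ]]) M (cst L c) β (cvg ψ) v ↔
      ψ.Realize (Sum.elim c v) := by
  rw [cst_fml, cvf_cvg]

theorem cst_down (c : κ → M) {B : Set M} {α : Type} {P : (α → M) → Prop}
    (h : @Dp (L[[κ]]) M (cst L c) B α P) : Dp L (range c ∪ B) P := by
  obtain ⟨φ, hφ⟩ := @dp_form (L[[κ]]) M (cst L c) B α P h
  have h1 : Dp L (∅ : Set M) (fun w : κ ⊕ (B ⊕ α) → M =>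
      (cvf φ).Realize w) :=
    dp_fml _
  have h2 : Dp L (range c ∪ B) (fun w : α ⊕ (κ ⊕ B) → M =>
      (cvf φ).Realize
        (fun k => w ((Sum.elim (fun k => Sum.inr (Sum.inl k)) (Sum.elim (fun b => Sum.inr (Sum.inr b))
          (fun a => Sum.inl a)) : κ ⊕ (B ⊕ α) → α ⊕ (κ ⊕ B)) k))) :=
    dp_mono (empty_subset _) (dp_sub h1 _)
  refine dp_congr (dp_par h2 (Sum.elim c (fun b : B => (b : M))) (by
    rintro (k | b)
    · exact Or.inl ⟨k, rfl⟩
    · exact Or.inr b.2)) fun v => ?_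
  rw [hφ, cst_fml]
  apply iff_of_eq
  congr 1
  funext k
  rcases k with k | k | k <;> rfl

theorem cst_up (c : κ → M) {B : Set M} {α : Type} {P : (α → M) → Prop}
    (h : Dp L (range c ∪ B) P) : @Dp (L[[κ]]) M (cst L c) B α P := by
  have e : range c ∪ B = range (Sum.elim c (fun b : B => (b : M)) : κ ⊕ B → M) := by
    rw [Sum.elim_range, Subtype.range_coe]
  rw [e] at h
  obtain ⟨ψ, hψ⟩ := dp_form0 h
  let ψ' : L.Formula (κ ⊕ (B ⊕ α)) := ψ.relabel (Sum.elim (fun a => Sum.inr (Sum.inr a))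
    (Sum.elim (fun k => Sum.inl k) (fun b => Sum.inr (Sum.inl b))))
  refine @dp_of_form (L[[κ]]) M (cst L c) B α P
    (cvg ψ') fun v => ?_
  rw [hψ, cst_fml']
  show _ ↔ (ψ.relabel _).Realize _
  rw [FirstOrder.Language.Formula.realize_relabel]
  apply iff_of_eq
  congr 1
  funext k
  rcases k with k | k | k <;> rfl

theorem cst_dp (c : κ → M) {B : Set M} {α : Type} {P : (α → M) → Prop} :
    @Dp (L[[κ]]) M (cst L c) B α P ↔ Dp L (range c ∪ B) P := ⟨cst_down c, cst_up c⟩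

theorem cst_fe (c : κ → M) {B : Set M} {α : Type} {E : (α → M) → (α → M) → Prop} :
    @FE (L[[κ]]) M (cst L c) B α E ↔ FE L (range c ∪ B) E :=
  ⟨fun h => ⟨cst_down c (@FE.dfn _ _ (cst L c) _ _ _ h), @FE.eqv _ _ (cst L c) _ _ _ h,
    @FE.fin _ _ (cst L c) _ _ _ h⟩,
    fun h => @FE.mk _ _ (cst L c) _ _ _ (cst_up c h.dfn) h.eqv h.fin⟩

theorem cst_sq (c : κ → M) {B : Set M} {α : Type} {x y : α → M} :
    @Sq (L[[κ]]) M (cst L c) B α x y ↔ Sq L (range c ∪ B) x y :=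
  ⟨fun h E hE => h E ((cst_fe c).2 hE), fun h E hE => h E ((cst_fe c).1 hE)⟩

theorem cst_tq (c : κ → M) {B : Set M} {α : Type} {x y : α → M} :
    @Tq (L[[κ]]) M (cst L c) B α x y ↔ Tq L (range c ∪ B) x y :=
  ⟨fun h P hP => h P (cst_up c hP), fun h P hP => h P (cst_down c hP)⟩

theorem cst_gt (c : κ → M) {α : Type} {r : ((α → M) → Prop) → Prop} (h : GT L r) :
    @GT (L[[κ]]) M (cst L c) α r := by
  refine @GT.mk (L[[κ]]) M (cst L c) α r (fun P hP => cst_up c ?_) h.ne h.and fun P hP => h.max P ?_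
  · exact dp_mono subset_union_right (h.dfn P hP)
  · exact dp_mono (subset_univ _) (cst_down c hP)

theorem cst_eba (c : κ → M) {B : Set M} (h : EBA L (range c ∪ B)) : @EBA (L[[κ]]) M (cst L c) B := by
  intro n a
  obtain ⟨r, hr, hI, hE⟩ := h n a
  refine ⟨r, cst_gt c hr, ?_, fun E hE' => hE E ((cst_fe c).1 hE')⟩
  intro m P hP u u' hu hr'
  exact hI m P (cst_down c hP) u u' ((cst_sq c).1 hu) hr'

theorem cst_sat (c : κ → M) (hκ : Countable κ) (h : Pool.Agent.MST.SatW L M) :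
    @Pool.Agent.MST.SatW (L[[κ]]) M (cst L c) := by
  intro ι ρ hι hρ d F hF
  let f : (L[[κ]]).Formula (ι ⊕ ρ) → L.Formula (ι ⊕ (κ ⊕ ρ)) := fun φ =>
    FirstOrder.Language.Formula.relabel (Sum.elim (fun k => Sum.inr (Sum.inl k)) (Sum.elim (fun a => Sum.inl a) (fun b => Sum.inr (Sum.inr b)))) (cvf φ)
  have hf : ∀ φ x, (f φ).Realize (Sum.elim x (Sum.elim c d)) ↔
      @FirstOrder.Language.Formula.Realize (L[[κ]]) M (cst L c) _ φ (Sum.elim x d) := by
    intro φ x
    rw [cst_fml]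
    show (FirstOrder.Language.Formula.relabel _ _).Realize _ ↔ _
    rw [FirstOrder.Language.Formula.realize_relabel]
    apply iff_of_eq
    congr 1
    funext k
    rcases k with k | k | k <;> rfl
  obtain ⟨x, hx⟩ := h ι (κ ⊕ ρ) (Sum.elim c d) (f '' F) (by
    intro G hG hfin
    choose! g hg hg' using fun φ (hφ : φ ∈ G) => hG hφ
    obtain ⟨x, hx⟩ := hF (g '' G) (by
      rintro _ ⟨φ, hφ, rfl⟩
      exact hg φ hφ) (hfin.image g)
    refine ⟨x, fun φ hφ => ?_⟩
    rw [← hg' φ hφ, hf]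
    exact hx _ ⟨φ, hφ, rfl⟩)
  exact ⟨x, fun φ hφ => (hf φ x).1 (hx _ ⟨φ, hφ, rfl⟩)⟩

theorem cst_ctb (hκ : Countable κ) (hL : Countable L.Symbols) : Countable (L[[κ]]).Symbols := by
  rw [← Cardinal.mk_le_aleph0_iff]
  have h1 := FirstOrder.Language.card_withConstants L κ
  show (L[[κ]]).card ≤ _
  rw [h1, Cardinal.add_le_aleph0]
  refine ⟨?_, ?_⟩
  · rw [Cardinal.lift_le_aleph0]
    exact Cardinal.mk_le_aleph0_iff.2 hL
  · rw [Cardinal.lift_le_aleph0]
    exact Cardinal.mk_le_aleph0_iff.2 hκ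

/-- no independence property with the constants named -/
theorem cst_nip [Finite κ] (c : κ → M)
    (h : ∀ (m n : ℕ) (P : (Fin m ⊕ Fin n → M) → Prop), Dp L (∅ : Set M) P →
      ∃ k, ¬ Sh (fun (x : Fin m → M) (y : Fin n → M) => P (Sum.elim x y)) k)
    (m n : ℕ) (P : (Fin m ⊕ Fin n → M) → Prop) (hP : @Dp (L[[κ]]) M (cst L c) ∅ _ P) :
    ∃ k, ¬ Sh (fun (x : Fin m → M) (y : Fin n → M) => P (Sum.elim x y)) k := by
  obtain ⟨q, ⟨e⟩⟩ := Finite.exists_equiv_fin κ
  have h1 := cst_down c hP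
  rw [union_empty] at h1
  obtain ⟨Q, hQ, hPQ⟩ := dp_fam0 h1
  have h2 := dp_sub hQ (Sum.elim (Sum.elim (fun i => Sum.inl (Fin.castAdd q i)) (fun i => Sum.inr i))
    (fun k => Sum.inl (Fin.natAdd m (e k))) : (Fin m ⊕ Fin n) ⊕ κ → Fin (m + q) ⊕ Fin n)
  obtain ⟨k, hk⟩ := h (m + q) n _ h2
  refine ⟨k, fun ⟨x, y, hxy⟩ => hk ⟨fun i => Fin.append (x i) (fun t => c (e.symm t)), y, fun i s => ?_⟩⟩
  rw [← hxy i s]
  have h3 := hPQ (Sum.elim (x i) (y s))
  refine Iff.trans ?_ h3.symm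
  show Q _ ↔ Q _
  apply iff_of_eq
  congr 1
  funext t
  rcases t with (t | t) | t
  · exact Fin.append_left (x i) (fun t => c (e.symm t)) t
  · rfl
  · exact (Fin.append_right (x i) (fun t => c (e.symm t)) (e t)).trans (congrArg c (e.symm_apply_apply t))

/-- no exact arrays with the constants named -/
theorem cst_cod [Finite κ] (c : κ → M)
    (h : ∀ (m n : ℕ) (P : (Fin m → M) → (Fin n → M) → M → Prop),
      Dp L (∅ : Set M) (fun v : (Fin m ⊕ Fin n) ⊕ Unit → M =>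
        P (fun i => v (Sum.inl (Sum.inl i))) (fun i => v (Sum.inl (Sum.inr i))) (v (Sum.inr ()))) →
      ∃ k, ¬ Exa P k)
    (m n : ℕ) (P : (Fin m → M) → (Fin n → M) → M → Prop)
    (hP : @Dp (L[[κ]]) M (cst L c) ∅ _ (fun v : (Fin m ⊕ Fin n) ⊕ Unit → M =>
        P (fun i => v (Sum.inl (Sum.inl i))) (fun i => v (Sum.inl (Sum.inr i))) (v (Sum.inr ())))) :
    ∃ k, ¬ Exa P k := by
  obtain ⟨q, ⟨e⟩⟩ := Finite.exists_equiv_fin κ
  have h1 := cst_down c hP
  rw [union_empty] at h1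
  obtain ⟨Q, hQ, hPQ⟩ := dp_fam0 h1
  have h3 := dp_sub hQ (Sum.elim (Sum.elim (Sum.elim
    (fun i => Sum.inl (Sum.inl (Fin.castAdd q i))) (fun i => Sum.inl (Sum.inr i)))
    (fun _ => Sum.inr ())) (fun i => Sum.inl (Sum.inl (Fin.natAdd m (e i)))) :
      ((Fin m ⊕ Fin n) ⊕ Unit) ⊕ κ → (Fin (m + q) ⊕ Fin n) ⊕ Unit)
  obtain ⟨k, hk⟩ := h (m + q) n (fun x y z => Q (Sum.elim (Sum.elim (Sum.elim
    (fun i => x (Fin.castAdd q i)) y) (fun _ => z)) (fun i => x (Fin.natAdd m (e i))))) (by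
      refine dp_congr h3 (fun v => ?_)
      apply iff_of_eq
      congr 1
      funext i
      rcases i with ((i | i) | i) | i <;> rfl)
  refine ⟨k, fun ⟨x, y, z, h⟩ => hk ⟨fun i => Fin.append (x i) (fun t => c (e.symm t)), y, z,
    fun i j a b => ?_⟩⟩
  rw [← h i j a b]
  have h4 := hPQ (Sum.elim (Sum.elim (x i) (y j)) (fun _ => z a b))
  refine Iff.trans ?_ h4.symm
  show Q _ ↔ Q _
  apply iff_of_eq
  congr 1
  funext t
  rcases t with ((t | t) | t) | t
  · exact Fin.append_left (x i) (fun t => c (e.symm t)) t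
  · rfl
  · rfl
  · exact (Fin.append_right (x i) (fun t => c (e.symm t)) (e t)).trans (congrArg c (e.symm_apply_apply t))

end cst

end Pool.Agent.TPY
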