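import Pool.Agent.TPY.Brg3

/-!
# TPY (port of TPX), bridge, part 4: `HypV L V` gives `TPC.Hyp L U`
-/

set_option autoImplicit false
set_option linter.unusedVariables false

namespace Pool.Agent.TPY

open FirstOrder.Language Set
open scoped FirstOrder
open Pool.Agent.MNO
open Pool.Agent.WOM (tp Mon IsEl IsoM CtU Fx Orb Isd)

section

variable {L : FirstOrder.Language.{0, 0}} {U V : Type} [L.Structure U] [L.Structure V] {i : U → V}

theorem bf_aut (g : U ≃[L] U) {A Q : Set U} (hQ : BF L (g '' A) Q) : BF L A (g ⁻¹' Q) := by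
  refine ⟨fun x y h hx => ?_, fun m n u u' w hu hu' hw h => ?_⟩
  · exact hQ.inv _ _ (sq_img g h) hx
  · have h1 := hQ.prd m n (fun k => g (u k)) (fun k => g (u' k)) (fun k => g (w k)) hu hu' hw (sq_img g h)
    have h2 := sq_img g.symm h1
    rw [img_symm_img] at h2
    refine sq_congr h2 ?_ ?_ <;>
    · funext k
      rcases k with k | k
      · exact (g.symm_apply_apply _).symm
      · exact (g.symm_apply_apply _).symm

theorem pc_aut (g : U ≃[L] U) {A : Set U} {x y : U} (h : y ∈ Pc L A x) : g y ∈ Pc L (g '' A) (g x) :=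
  fun Q hQ hx => h _ (bf_aut g hQ) hx

theorem im_congr {i j : U → V} {A : Set U} (h : ∀ a ∈ A, j a = i a) : j '' A = i '' A := by
  ext v
  constructor
  · rintro ⟨a, ha, rfl⟩
    exact ⟨a, ha, (h a ha).symm⟩
  · rintro ⟨a, ha, rfl⟩
    exact ⟨a, ha, h a ha⟩

/-- inner pieces -/
theorem inr_of (hC : Cz L V) (hi : Emb L i) (hM : Mon L U) {A : Set U} (hA : A.Finite) {y z : U}
    (h : InrV L (i '' A) (i y) (i z)) : Pool.Agent.TPC.Inr L A y z := by
  obtain ⟨B, y', z', E, lt, hB, hAB, hs, hL, hyE, hdis, hin⟩ := h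
  obtain ⟨n, b, hb⟩ := exists_enum ((hB.insert z').insert y')
  obtain ⟨j, hj, hja, hjb⟩ := emb_ext hC hi hM ((hA.insert z).insert y) b
  have hBj : insert y' (insert z' B) ⊆ range j := by
    rw [← hb]
    rintro _ ⟨k, rfl⟩
    exact hjb k
  obtain ⟨y₀, hy₀⟩ := hBj (mem_insert _ _)
  obtain ⟨z₀, hz₀⟩ := hBj (mem_insert_of_mem _ (mem_insert _ _))
  have hBr : B ⊆ range j := fun c hc => hBj (mem_insert_of_mem _ (mem_insert_of_mem _ hc))
  have hB₀ : j '' (j ⁻¹' B) = B := image_preimage_eq_of_subset hBr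
  have hB₀f : (j ⁻¹' B).Finite := hB.preimage hj.inj.injOn
  have hjA : j '' A = i '' A := im_congr fun a ha => hja a (mem_insert_of_mem _ (mem_insert_of_mem _ ha))
  have hjy : j y = i y := hja y (mem_insert _ _)
  have hjz : j z = i z := hja z (mem_insert_of_mem _ (mem_insert _ _))
  -- the automorphism
  have h1 : Sq L A ![y, z] ![y₀, z₀] := by
    refine (sq_emb hj hA _ _).1 ?_
    rw [hjA]
    refine sq_congr hs ?_ ?_
    · rw [img_pair, hjy, hjz]
    · rw [img_pair, hy₀, hz₀]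
  obtain ⟨g, hg, hgy⟩ := nx_of_sq hM hA h1
  have hgy0 : g y = y₀ := hgy 0
  have hgz0 : g z = z₀ := hgy 1
  have hL' : LinV L (j '' (j ⁻¹' B)) E lt := by
    rw [hB₀]
    exact hL
  -- the piece
  have h2 : ∀ v ∈ Pool.Agent.TPC.Pq L (insert y A) z, j (g v) ∈ Pc L (insert y' (i '' A)) z' := by
    intro v hv
    rw [pq_eq hM (hA.insert y)] at hv
    have h3 := pc_aut g hv
    have e : g '' insert y A = insert y₀ A := by
      rw [image_insert_eq, hgy0]
      congr 1
      ext x
      constructor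
      · rintro ⟨a, ha, rfl⟩
        rw [hg.1 a ha]
        exact ha
      · intro hx
        exact ⟨x, hx, hg.1 x hx⟩
    rw [e, hgz0] at h3
    have h4 := (pc_emb hC hj hM (hA.insert y₀) z₀ (g v)).2 h3
    rw [image_insert_eq, hjA, hy₀, hz₀] at h4
    exact h4
  refine ⟨j ⁻¹' B, g, j ⁻¹' E, fun a b => lt (j a) (j b), hB₀f, ?_, hg, lin_of hC hj hM hL', ?_, ?_, ?_⟩
  · intro a ha
    have h3 : j a ∈ j '' A := ⟨a, ha, rfl⟩
    rw [hjA] at h3
    exact hAB h3
  · show j (g y) ∈ E
    rw [hgy0, hy₀]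
    exact hyE
  · rw [disjoint_left]
    rintro _ ⟨v, hv, rfl⟩ hB'
    exact (disjoint_left.1 hdis) (h2 v hv) hB'
  · intro v hv
    obtain ⟨h3, h4, h5⟩ := hin _ (h2 v hv)
    refine ⟨h3, ?_, ?_⟩
    · show ¬ lt (j (g y)) (j (g v))
      rw [hgy0, hy₀]
      exact h4
    · show ¬ lt (j (g v)) (j (g y))
      rw [hgy0, hy₀]
      exact h5

theorem pq_pre (hC : Cz L V) (hi : Emb L i) (hM : Mon L U) {A : Set U} (hA : A.Finite) (x : U) :
    Pool.Agent.TPC.Pq L A x = i ⁻¹' Pc L (i '' A) (i x) := by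
  rw [pq_eq hM hA]
  ext y
  exact (pc_emb hC hi hM hA x y).symm

theorem nice_of (hC : Cz L V) (hi : Emb L i) (hM : Mon L U) (n : ℕ) : ∀ {A : Set U}, A.Finite → ∀ {x : U},
    NiceV L n (i '' A) (i x) → Pool.Agent.TPC.Nice L n A x := by
  induction n with
  | zero =>
    intro A hA x h
    rcases h with h | ⟨lt, h⟩ | ⟨E, cl, h, h'⟩
    · left
      rw [pq_pre hC hi hM hA, h]
      ext y
      exact ⟨fun h1 => hi.inj h1, fun h1 => congrArg i h1⟩
    · right
      left
      rw [pq_pre hC hi hM hA]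
      exact ⟨_, lin_of hC hi hM h⟩
    · right
      right
      rw [pq_pre hC hi hM hA]
      exact ⟨_, _, fre_of hi hM h, fun y hy => h' hy⟩
  | succ n ih =>
    intro A hA x h
    rcases h with h | h
    · exact Or.inl (ih hA h)
    · right
      intro y hy z hz
      rw [pq_pre hC hi hM hA] at hy hz
      rcases h (i y) hy (i z) hz with h1 | h1
      · exact Or.inl (inr_of hC hi hM hA h1)
      · right
        rw [← image_insert_eq] at h1
        exact ih (hA.insert y) h1

/-- **the bridge** -/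
theorem hyp_of (hC : Cz L V) (hi : Emb L i) (hM : Mon L U) (h : HypV L V) : Pool.Agent.TPC.Hyp L U := by
  refine ⟨fun A x hA => ?_, fun A x hA => ?_⟩
  · rcases h.rea (i '' A) (i x) (hA.image i) with ⟨s, hs, hs'⟩ | ⟨B, E, hB, hAB, hLF, hR⟩
    · left
      refine ⟨i ⁻¹' s, hs.preimage hi.inj.injOn, ?_⟩
      rw [pq_pre hC hi hM hA]
      exact fun y hy => hs' hy
    · right
      obtain ⟨n, b, hb⟩ := exists_enum hB
      obtain ⟨j, hj, hja, hjb⟩ := emb_ext hC hi hM (hA.insert x) b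
      have hBr : B ⊆ range j := by
        rw [← hb]
        rintro _ ⟨k, rfl⟩
        exact hjb k
      have hB₀ : j '' (j ⁻¹' B) = B := image_preimage_eq_of_subset hBr
      have hB₀f : (j ⁻¹' B).Finite := hB.preimage hj.inj.injOn
      have hjA : j '' A = i '' A := im_congr fun a ha => hja a (mem_insert_of_mem _ ha)
      have hjx : j x = i x := hja x (mem_insert _ _)
      have hAB' : A ⊆ j ⁻¹' B := by
        intro a ha
        have h3 : j a ∈ j '' A := ⟨a, ha, rfl⟩
        rw [hjA] at h3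
        exact hAB h3
      have hE : ∀ x y : V, Tq L B (s1 x) (s1 y) → x ∈ E → y ∈ E := by
        rcases hLF with ⟨lt, hL⟩ | ⟨cl, hL⟩
        · exact hL.tqE
        · exact hL.tqE
      refine ⟨j ⁻¹' B, j ⁻¹' E, hB₀f, hAB', ?_, ?_⟩
      · rcases hLF with ⟨lt, hL⟩ | ⟨cl, hL⟩
        · left
          rw [← hB₀] at hL
          exact ⟨_, lin_of hC hj hM hL⟩
        · right
          rw [← hB₀] at hL
          exact ⟨_, fre_of hj hM hL⟩
      · intro y hy
        rw [pq_pre hC hj hM hA, hjA, hjx] at hy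
        obtain ⟨z, hz, hyz⟩ := hR _ hy
        obtain ⟨y', hy'⟩ := mv hj hM hB₀f (finite_singleton y) z
        have h4 : Sq L (j '' A) (s1 (j y)) (s1 (j y')) := by
          refine sq_tq0 (x := s1 (j y)) (y := s1 z) ?_ (by
            rw [hjA]
            exact hyz)
          refine tq_mono (image_mono hAB') (tq_congr (tq_sub (mv2 hy' rfl) (Sum.elim (fun _ => 0) (fun _ => 1) :
            Fin 1 ⊕ Fin 1 → Fin 2)) ?_ ?_) <;>
          · funext k
            rcases k with k | k <;> rfl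
        obtain ⟨g, hg, hgy⟩ := nx_pt hM hA ((sq_pt hj hA).1 h4)
        refine ⟨g, hg, ?_⟩
        rw [hgy]
        have h5 := mv1 hy'
        rw [hB₀] at h5
        exact hE _ _ h5 hz
  · obtain ⟨n, hn⟩ := h.nic (i '' A) (i x) (hA.image i)
    exact ⟨n, nice_of hC hi hM n hA hn⟩

end

end Pool.Agent.TPY
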