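import Pool.Agent.TPY.StK
import Pool.Agent.TPY.RLE

/-!
# TPY (port of TPX) module MOC: calculus of Morley sequences
-/

set_option autoImplicit false
set_option linter.unusedVariables false

namespace Pool.Agent.TPY

open FirstOrder.Language Set
open scoped FirstOrder
open Pool.Agent.MNO

variable {L : FirstOrder.Language.{0, 0}} {U : Type} [L.Structure U]

/-- the empty tuple -/
def s0 : Fin 0 → U := Fin.elim0

/-- invariance over larger sets -/
theorem inv_up {α : Type} {r : ((α → U) → Prop) → Prop} {A B : Set U} (hAB : A ⊆ B)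
    (hI : Inv L A r) : Inv L B r := by
  intro n P hP c c' h h1
  obtain ⟨B0, hB0, hB0B, hP0⟩ := dp_fin hP
  obtain ⟨p, b, rfl⟩ := exists_enum hB0
  obtain ⟨Q, hQ, hPQ⟩ := dp_fam0 hP0
  have h2 : Sq L A (Sum.elim c b) (Sum.elim c' b) :=
    sq_mono hAB (sq_add h b (fun i => hB0B ⟨i, rfl⟩))
  have h3 := inv_any (β := Fin n ⊕ Fin p) hI (P := fun v => Q (fun i => v ((Sum.elim (Sum.elim
    (fun i => Sum.inl i) (fun i => Sum.inr (Sum.inl i))) (fun i => Sum.inr (Sum.inr i)) :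
      (α ⊕ Fin n) ⊕ Fin p → α ⊕ (Fin n ⊕ Fin p)) i)))
    (dp_sub (dp_mono (empty_subset A) hQ) _) h2
  have e : ∀ c : Fin n → U, (fun x : α → U => Q (fun i => Sum.elim x (Sum.elim c b) ((Sum.elim (Sum.elim
    (fun i => Sum.inl i) (fun i => Sum.inr (Sum.inl i))) (fun i => Sum.inr (Sum.inr i)) :
      (α ⊕ Fin n) ⊕ Fin p → α ⊕ (Fin n ⊕ Fin p)) i))) = fun x => P (Sum.elim x c) := by
    intro c
    funext x
    rw [hPQ]
    congr 1
    funext i
    rcases i with (i | i) | i <;> rfl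
  simp only [e] at h3
  exact h3 h1

section mo

variable {α : Type} {r : ((α → U) → Prop) → Prop}

theorem rg_eq (n : ℕ) (z : ℕ → α → U) : rg n z = range (fl n z) := by
  ext x
  constructor
  · rintro ⟨i, hi, a, rfl⟩
    exact ⟨(⟨i, hi⟩, a), rfl⟩
  · rintro ⟨⟨i, a⟩, rfl⟩
    exact ⟨i, i.2, a, rfl⟩

theorem rg_mono {m n : ℕ} (h : m ≤ n) (z : ℕ → α → U) : rg m z ⊆ rg n z := by
  rintro x ⟨i, hi, a, rfl⟩
  exact ⟨i, hi.trans_le h, a, rfl⟩

theorem rg_mem {i n : ℕ} (h : i < n) (z : ℕ → α → U) (a : α) : z i a ∈ rg n z := ⟨i, h, a, rfl⟩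

theorem rg_fin [Finite α] (n : ℕ) (z : ℕ → α → U) : (rg n z).Finite := by
  rw [rg_eq]
  exact finite_range _

theorem rg_succ (n : ℕ) (z : ℕ → α → U) : rg (n + 1) z = rg n z ∪ range (z n) := by
  ext x
  constructor
  · rintro ⟨i, hi, a, rfl⟩
    rcases Nat.lt_succ_iff_lt_or_eq.1 hi with h | h
    · exact Or.inl ⟨i, h, a, rfl⟩
    · subst h
      exact Or.inr ⟨a, rfl⟩
  · rintro (⟨i, hi, a, rfl⟩ | ⟨a, rfl⟩)
    · exact ⟨i, hi.trans (Nat.lt_succ_self n), a, rfl⟩
    · exact ⟨n, Nat.lt_succ_self n, a, rfl⟩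

theorem rg_congr {n : ℕ} {z z' : ℕ → α → U} (h : ∀ i < n, z i = z' i) : rg n z = rg n z' := by
  ext x
  constructor
  · rintro ⟨i, hi, a, rfl⟩
    exact ⟨i, hi, a, by rw [h i hi]⟩
  · rintro ⟨i, hi, a, rfl⟩
    exact ⟨i, hi, a, by rw [h i hi]⟩

theorem fl_congr {n : ℕ} {z z' : ℕ → α → U} (h : ∀ i < n, z i = z' i) : fl n z = fl n z' := by
  funext v
  show z v.1 v.2 = z' v.1 v.2
  rw [h v.1 v.1.2]

theorem mo_mono {B C : Set U} {m n : ℕ} {z : ℕ → α → U} (hBC : B ⊆ C) (hmn : m ≤ n)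
    (h : Mo L C r n z) : Mo L B r m z := fun j hj =>
  ets_mono (union_subset_union_left _ hBC) (h j (hj.trans_le hmn))

theorem mo_congr {B : Set U} {n : ℕ} {z z' : ℕ → α → U} (he : ∀ i < n, z i = z' i)
    (h : Mo L B r n z) : Mo L B r n z' := by
  intro j hj
  rw [← he j hj, ← rg_congr (fun i hi => he i (hi.trans hj))]
  exact h j hj

/-- existence -/
theorem mo_ex [Finite α] (hC : Cz L U) (hr : GT L r) {C : Set U} (hCc : C.Countable) (n : ℕ)
    (z : ℕ → α → U) : ∃ z' : ℕ → α → U, (∀ i < n, z' i = z i) ∧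
      ∀ j, n ≤ j → Ets L (C ∪ rg j z') (z' j) r := by
  obtain ⟨w, hw⟩ := morley (A := C ∪ rg n z) hC hr (hCc.union (rg_fin n z).countable)
  refine ⟨fun j => if j < n then z j else w (j - n), fun i hi => if_pos hi, fun j hj E hE => ?_⟩
  show r (fun x => E x ((fun j => if j < n then z j else w (j - n)) j))
  have e : (fun j => if j < n then z j else w (j - n)) j = w (j - n) := if_neg (not_lt.2 hj)
  rw [e]
  refine hw (j - n) E (fe_mono ?_ hE)
  refine union_subset (subset_union_left.trans subset_union_left) ?_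
  rintro x ⟨i, hi, a, rfl⟩
  by_cases hin : i < n
  · refine Or.inl (Or.inr ⟨i, hin, a, ?_⟩)
    show (if i < n then z i else w (i - n)) a = z i a
    rw [if_pos hin]
  · refine Or.inr (mem_biUnion (show i - n ∈ {i | i < j - n} from ?_) ⟨a, ?_⟩)
    · show i - n < j - n
      omega
    · show w (i - n) a = (if i < n then z i else w (i - n)) a
      rw [if_neg hin]

/-- a Morley sequence over `C`, first `n` terms given -/
theorem mo_ex0 [Finite α] (hC : Cz L U) (hr : GT L r) {C : Set U} (hCc : C.Countable) :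
    ∃ z : ℕ → α → U, ∀ n, Mo L C r n z := by
  have := hC.ne
  obtain ⟨z, -, hz⟩ := mo_ex hC hr hCc 0 (fun _ _ => Classical.arbitrary U)
  exact ⟨z, fun n j _ => hz j (Nat.zero_le j)⟩

theorem mo_mv [Finite α] (hC : Cz L U) (hr : GT L r) {γ : Type} [Finite γ] {A : Set U} {n : ℕ}
    {z z' : ℕ → α → U} {c c' : γ → U} (hA : A.Finite) (hI : Inv L A r)
    (h : Sq L A (Sum.elim (fl n z) c) (Sum.elim (fl n z') c')) (hz : Mo L (A ∪ range c) r n z) :
    Mo L (A ∪ range c') r n z' := by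
  intro j hj
  have h1 : Sq L A (Sum.elim (z j) (Sum.elim c (fl j z))) (Sum.elim (z' j) (Sum.elim c' (fl j z'))) := by
    refine sq_cov h ?_
    rintro (a | i | ⟨i, a⟩)
    · exact ⟨Sum.inl (⟨j, hj⟩, a), rfl, rfl⟩
    · exact ⟨Sum.inr i, rfl, rfl⟩
    · exact ⟨Sum.inl (⟨i, i.2.trans hj⟩, a), rfl, rfl⟩
  have e : ∀ (c : γ → U) (z : ℕ → α → U), A ∪ range (Sum.elim c (fl j z)) = A ∪ range c ∪ rg j z := by
    intro c z
    rw [Set.Sum.elim_range, rg_eq, union_assoc]
  have h2 := thm_RLE L U hC α (γ ⊕ Fin j × α) A r hA hr hI (z j) (z' j) _ _ h1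
    (by rw [e]; exact hz j hj)
  rw [e] at h2
  exact h2

theorem mo_uni [Finite α] (hC : Cz L U) (hr : GT L r) {γ : Type} [Finite γ] {A : Set U} {n : ℕ}
    {z z' : ℕ → α → U} {c c' : γ → U} (hA : A.Finite) (hI : Inv L A r)
    (h : Sq L A c c') (hz : Mo L (A ∪ range c) r n z) (hz' : Mo L (A ∪ range c') r n z') :
    Sq L A (Sum.elim (fl n z) c) (Sum.elim (fl n z') c') := by
  induction n with
  | zero =>
    refine sq_cov h ?_
    rintro (⟨i, a⟩ | i)
    · exact i.elim0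
    · exact ⟨i, rfl, rfl⟩
  | succ n ih =>
    have h1 := ih (mo_mono Subset.rfl (Nat.le_succ n) hz) (mo_mono Subset.rfl (Nat.le_succ n) hz')
    have h2 : ∀ (c : γ → U) (z : ℕ → α → U), Mo L (A ∪ range c) r (n + 1) z →
        Rl L A r (Sum.elim (fl n z) c) (z n) := by
      intro c z hz
      refine rl_of_ets (B := A ∪ range c ∪ rg n z) (subset_union_left.trans subset_union_left) ?_
        (hz n (Nat.lt_succ_self n))
      rintro (⟨i, a⟩ | i)
      · exact Or.inr ⟨i, i.2, a, rfl⟩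
      · exact Or.inl (Or.inr ⟨i, rfl⟩)
    refine sq_cov (rl_sq hC hr hI hA.countable h1 (h2 c z hz) (h2 c' z' hz')) ?_
    rintro (⟨i, a⟩ | i)
    · rcases Nat.lt_succ_iff_lt_or_eq.1 i.2 with hi | hi
      · exact ⟨Sum.inr (Sum.inl (⟨i, hi⟩, a)), rfl, rfl⟩
      · refine ⟨Sum.inl a, ?_, ?_⟩
        · show z n a = z i a
          rw [hi]
        · show z' n a = z' i a
          rw [hi]
    · exact ⟨Sum.inr (Sum.inr i), rfl, rfl⟩

theorem mo_sub {B : Set U} {m n : ℕ} {z : ℕ → α → U} {f : ℕ → ℕ} (hf : ∀ i j, i < j → j < m → f i < f j)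
    (hfn : ∀ i < m, f i < n) (hz : Mo L B r n z) : Mo L B r m (fun i => z (f i)) := by
  intro j hj
  refine ets_mono (union_subset_union_right _ ?_) (hz (f j) (hfn j hj))
  rintro x ⟨i, hi, a, rfl⟩
  exact ⟨f i, hf i j hi hj, a, rfl⟩

theorem mo_li [Finite α] (hC : Cz L U) (hr : GT L r) {γ : Type} [Finite γ] {B : Set U} {n : ℕ}
    {z : ℕ → α → U} {v v' : γ → U} (hB : B.Finite) (hI : Inv L B r) (h : Sq L B v v')
    (hz : Mo L (B ∪ range v ∪ range v') r n z) : Sq L (B ∪ rg n z) v v' := by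
  induction n with
  | zero =>
    have e : rg 0 z = ∅ := by
      ext x
      constructor
      · rintro ⟨i, hi, -⟩
        exact absurd hi (Nat.not_lt_zero i)
      · exact fun hx => absurd hx (notMem_empty x)
    rw [e, union_empty]
    exact h
  | succ n ih =>
    have h1 := ih (mo_mono Subset.rfl (Nat.le_succ n) hz)
    have h2 : Rl L (B ∪ rg n z) r (Sum.elim v v') (z n) := by
      refine rl_of_ets (B := B ∪ range v ∪ range v' ∪ rg n z) ?_ ?_ (hz n (Nat.lt_succ_self n))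
      · exact union_subset_union_left _ (subset_union_left.trans subset_union_left)
      · rintro (i | i)
        · exact Or.inl (Or.inl (Or.inr ⟨i, rfl⟩))
        · exact Or.inl (Or.inr ⟨i, rfl⟩)
    have h3 := li hC (hB.union (rg_fin n z)) hr (inv_up subset_union_left hI) h1 h2
    rw [rg_succ, ← union_assoc]
    exact h3

theorem mo_sq [Finite α] (hr : GT L r) {B : Set U} {n : ℕ} {z : ℕ → α → U} (hz : Mo L B r n z)
    {i j : ℕ} (hi : i < n) (hj : j < n) : Sq L B (z i) (z j) :=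
  ets_sq hr (ets_mono subset_union_left (hz i hi)) (ets_mono subset_union_left (hz j hj))

theorem mo_app {B : Set U} {m n : ℕ} {z : ℕ → α → U} (hz : Mo L B r m z)
    (h : ∀ j < n, Ets L (B ∪ rg (m + j) z) (z (m + j)) r) : Mo L B r (m + n) z := by
  intro j hj
  by_cases h1 : j < m
  · exact hz j h1
  · have h2 := h (j - m) (by omega)
    have e : m + (j - m) = j := by omega
    rw [e] at h2
    exact h2

theorem mo_uni0 [Finite α] (hC : Cz L U) (hr : GT L r) {B : Set U} {n : ℕ}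
    {z z' : ℕ → α → U} (hB : B.Finite) (hI : Inv L B r) (hz : Mo L B r n z) (hz' : Mo L B r n z') :
    Sq L B (fl n z) (fl n z') := by
  have e : B ∪ range (s0 : Fin 0 → U) = B := by
    rw [range_eq_empty, union_empty]
  have h1 := mo_uni hC hr (c := (s0 : Fin 0 → U)) (c' := s0) hB hI (sq_refl B s0)
    (by rw [e]; exact hz) (by rw [e]; exact hz')
  exact sq_left h1

end mo

/-- [MOC] calculus of Morley sequences -/
theorem thm_MOC : St_MOC := by
  intro L U _ hC α _ r hr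
  refine ⟨fun C n z hCc => mo_ex hC hr hCc n z, fun B C m n z hBC hmn h => mo_mono hBC hmn h,
    fun γ _ A n z z' c c' hA hI h hz => mo_mv hC hr hA hI h hz,
    fun γ _ A n z z' c c' hA hI h hz hz' => mo_uni hC hr hA hI h hz hz',
    fun B m n z f hf hfn hz => mo_sub hf hfn hz,
    fun γ _ B n z v v' hB hI h hz => mo_li hC hr hB hI h hz,
    fun B n z hz i hi j hj => mo_sq hr hz hi hj,
    fun B m n z hz h => mo_app hz h,
    fun B n z z' hB hI hz hz' => mo_uni0 hC hr hB hI hz hz'⟩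

end Pool.Agent.TPY
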