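import Pool.Agent.TPY.DVA
import Pool.Agent.TPY.ARR
import Pool.Agent.TPY.FAM
import Pool.Agent.TPY.MOC

/-!
# TPY [DVB] (helper8, after helper45's DVA): the array of DIV without generic copies (one-sided arrays)
-/

set_option autoImplicit false
set_option linter.unusedVariables false

namespace Pool.Agent.TPY

open FirstOrder.Language Set
open scoped FirstOrder
open Pool.Agent.MNO

open DVA

theorem dvb {L : FirstOrder.Language.{0, 0}} {U : Type} [L.Structure U] (hC : Cz L U)
    {r : ((Fin 1 → U) → Prop) → Prop} (hr : GT L r) {A : Set U} (hA : A.Finite) (hI : Inv L A r)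
    {γ δ : Type} [Finite γ] [Finite δ] (x : γ → U) (y : U) (n : ℕ) (z z' : ℕ → Fin 1 → U)
    {P : (Fin 1 ⊕ δ → U) → Prop} (hP : Dp L A P) (hz' : Mo L (A ∪ range x ∪ {y}) r n z')
    (hzy : ¬ Sq L (A ∪ range x) (Sum.elim (fl n z) (s1 y)) (Sum.elim (fl n z') (s1 y)))
    (hall : ∀ N : ℕ, ∃ (d : ℕ → δ → U) (z₀ : ℕ → Fin 1 → U) (y' : U),
      (∀ i < N, Sq L A (fl (N - i) d) (fl (N - i) (fun k => d (i + k)))) ∧
      Mo L (A ∪ range x ∪ rg N d) r n z₀ ∧
      Sq L (A ∪ range x) (Sum.elim (fl n z) (s1 y)) (Sum.elim (fl n z₀) (s1 y')) ∧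
      ∀ j, 0 < j → j < N → ¬ (P (Sum.elim (s1 y') (d j)) ↔ P (Sum.elim (s1 y') (d 0)))) : False := by
  obtain ⟨m1, m2, -, m4, m5, m6, -, m8, m9⟩ := thm_MOC L U hC (Fin 1) r hr
  have hAx : (A ∪ range x).Finite := hA.union (finite_range x)
  -- the relation
  have h1 : ∃ E, FE L (A ∪ range x) E ∧ ¬ E (Sum.elim (fl n z) (s1 y)) (Sum.elim (fl n z') (s1 y)) := by
    by_contra hcon
    push Not at hcon
    exact hzy hcon
  obtain ⟨E, hE, hEn⟩ := h1
  obtain ⟨F, hFd, hFE, hF⟩ := thm_FAM L U hC ((Fin n × Fin 1) ⊕ Fin 1) γ A x E hE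
  -- the formula
  let Q : (γ ⊕ (δ ⊕ δ) → U) → ((Fin n × Fin 1) ⊕ (Fin n × Fin 1) → U) → U → Prop := fun X Y v =>
    ¬ (P (Sum.elim (s1 v) (fun i => X (Sum.inr (Sum.inl i)))) ↔
        P (Sum.elim (s1 v) (fun i => X (Sum.inr (Sum.inr i))))) ∧
    ¬ F (fun i => X (Sum.inl i)) (Sum.elim (fun i => Y (Sum.inl i)) (s1 v))
        (Sum.elim (fun i => Y (Sum.inr i)) (s1 v))
  have hQ : Dp L A (fun v : ((γ ⊕ (δ ⊕ δ)) ⊕ ((Fin n × Fin 1) ⊕ (Fin n × Fin 1))) ⊕ Unit → U =>
      Q (fun i => v (Sum.inl (Sum.inl i))) (fun i => v (Sum.inl (Sum.inr i))) (v (Sum.inr ()))) := by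
    have hPs : ∀ f : δ → ((γ ⊕ (δ ⊕ δ)) ⊕ ((Fin n × Fin 1) ⊕ (Fin n × Fin 1))) ⊕ Unit,
        Dp L A (fun v : ((γ ⊕ (δ ⊕ δ)) ⊕ ((Fin n × Fin 1) ⊕ (Fin n × Fin 1))) ⊕ Unit → U =>
          P (Sum.elim (s1 (v (Sum.inr ()))) (fun i => v (f i)))) := by
      intro f
      refine dp_congr (dp_sub hP (Sum.elim (fun _ => Sum.inr ()) f)) fun v => iff_of_eq ?_
      congr 1
      funext i
      rcases i with i | i <;> rfl
    refine dp_and (dp_not (dp_iff (hPs (fun i => Sum.inl (Sum.inl (Sum.inr (Sum.inl i)))))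
      (hPs (fun i => Sum.inl (Sum.inl (Sum.inr (Sum.inr i))))))) (dp_not ?_)
    refine dp_congr (dp_sub hFd (Sum.elim (Sum.elim
      (Sum.elim (fun i => Sum.inl (Sum.inr (Sum.inl i))) (fun _ => Sum.inr ()))
      (Sum.elim (fun i => Sum.inl (Sum.inr (Sum.inr i))) (fun _ => Sum.inr ())))
      (fun i => Sum.inl (Sum.inl (Sum.inl i))))) fun v => iff_of_eq ?_
    congr 1
    · funext i
      rcases i with i | i <;> rfl
    · funext i
      rcases i with i | i <;> rfl
  refine arr hC hQ fun K => ?_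
  set N : ℕ := 2 * K with hNK
  obtain ⟨d, z₀, y', hd, hz₀, hy', hPd⟩ := hall N
  -- the sequence `Z`
  obtain ⟨Z, hZ0, hZ⟩ := m1 (A ∪ range x ∪ rg N d ∪ {y'}) n z₀
    (((hAx.union (rg_fin N d)).union (finite_singleton y')).countable)
  have hz₀Z : Mo L (A ∪ range x ∪ rg N d) r n Z := by
    intro j hj
    have h1 := hz₀ j hj
    rw [hZ0 j hj]
    refine ets_mono (union_subset_union_right _ ?_) h1
    rintro u ⟨k, hk, a, rfl⟩
    exact ⟨k, hk, a, by rw [hZ0 k (by omega)]⟩
  have hZM : ∀ m, Mo L (A ∪ range x ∪ rg N d) r m Z := by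
    intro m
    refine m2 _ _ m (n + m) Z (Subset.refl _) (by omega) (m8 _ n m Z hz₀Z fun j hj => ?_)
    exact ets_mono (union_subset_union_left _ subset_union_left) (hZ (n + j) (by omega))
  -- the copies of `x`
  have hX : ∀ i : ℕ, ∃ xi : γ → U, i < N →
      Sq L A (Sum.elim (fl (N - i) d) x) (Sum.elim (fl (N - i) (fun k => d (i + k))) xi) := by
    intro i
    by_cases hi : i < N
    · obtain ⟨xi, hxi⟩ := sq_ext hC hA.countable (hd i hi) x
      exact ⟨xi, fun _ => hxi⟩
    · exact ⟨x, fun h => absurd h hi⟩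
  choose X hX using hX
  -- the sequence `W`
  set CW : Set U := A ∪ rg N d ∪ ⋃ i ∈ {i | i < N}, range (X i) with hCW
  have hCWc : CW.Countable := ((hA.union (rg_fin N d)).countable).union
    ((Set.finite_lt_nat N).countable.biUnion fun i _ => countable_range _)
  obtain ⟨W, -, hW⟩ := m1 CW 0 z₀ hCWc
  have hW' : ∀ j, Ets L (CW ∪ rg j W) (W j) r := fun j => hW j (Nat.zero_le j)
  have hB1C : ∀ i, i < N → A ∪ rg (N - i) (fun k => d (i + k)) ∪ range (X i) ⊆ CW := by
    intro i hi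
    refine union_subset (union_subset (subset_union_left.trans subset_union_left) ?_) ?_
    · exact ((rg_shift i (N - i) d).trans (rg_mono (by omega) d)).trans
        (subset_union_right.trans subset_union_left)
    · exact (subset_biUnion_of_mem (u := fun i => range (X i)) (show i ∈ {i | i < N} from hi)).trans
        subset_union_right
  -- the copies of `y'`
  have hY : ∀ i j : ℕ, ∃ yij : Fin 1 → U, i < N → j < N →
      Sq L A (Sum.elim (Sum.elim (fl ((N - j) * n) Z) (Sum.elim (fl (N - i) d) x)) (s1 y'))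
        (Sum.elim (Sum.elim (fl ((N - j) * n) (fun k => W (j * n + k)))
          (Sum.elim (fl (N - i) (fun k => d (i + k))) (X i))) yij) := by
    intro i j
    by_cases hi : i < N
    · have h1 : Sq L A (Sum.elim (fl ((N - j) * n) Z) (Sum.elim (fl (N - i) d) x))
          (Sum.elim (fl ((N - j) * n) (fun k => W (j * n + k)))
            (Sum.elim (fl (N - i) (fun k => d (i + k))) (X i))) := by
        refine m4 ((Fin (N - i) × δ) ⊕ γ) A ((N - j) * n) Z (fun k => W (j * n + k)) _ _ hA hI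
          (hX i hi) ?_ ?_
        · refine m2 _ _ _ _ _ ?_ (le_refl _) (hZM ((N - j) * n))
          rw [Set.Sum.elim_range, rg_range]
          refine union_subset (subset_union_left.trans subset_union_left) (union_subset ?_ ?_)
          · exact (rg_mono (by omega) d).trans subset_union_right
          · exact subset_union_right.trans subset_union_left
        · refine mo_of hW' _ _ ?_
          rw [Set.Sum.elim_range, rg_range, ← union_assoc]
          exact (hB1C i hi).trans subset_union_left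
      obtain ⟨y0, hy0⟩ := sq_ext hC hA.countable h1 (s1 y')
      exact ⟨y0, fun _ _ => hy0⟩
    · exact ⟨s1 y', fun h => absurd h hi⟩
  choose Y hY using hY
  -- transport
  have T1 : ∀ i j k, i < N → j < N → i + k < N →
      (P (Sum.elim (Y i j) (d (i + k))) ↔ P (Sum.elim (s1 y') (d k))) := by
    intro i j k hi hj hk
    refine (sq_dp (sq_cov (hY i j hi hj) ?_) hP).symm
    rintro (a | a)
    · exact ⟨Sum.inr a, rfl, rfl⟩
    · exact ⟨Sum.inl (Sum.inr (Sum.inl (⟨k, by omega⟩, a))), rfl, rfl⟩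
  have hlt : ∀ j m (k : Fin n), j + m < N → m * n + k < (N - j) * n := by
    intro j m k h
    calc m * n + k < m * n + n := by have := k.2; omega
      _ = (m + 1) * n := by ring
      _ ≤ (N - j) * n := Nat.mul_le_mul_right n (by omega)
  have T2 : ∀ i j m m', i < N → j < N → j + m < N → j + m' < N →
      (F (X i) (Sum.elim (fl n (fun k => W ((j + m) * n + k))) (Y i j))
        (Sum.elim (fl n (fun k => W ((j + m') * n + k))) (Y i j)) ↔
      F x (Sum.elim (fl n (fun k => Z (m * n + k))) (s1 y'))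
        (Sum.elim (fl n (fun k => Z (m' * n + k))) (s1 y'))) := by
    intro i j m m' hi hj hm hm'
    have key := (sq_dp (sq_cov (x := Sum.elim (Sum.elim
        (Sum.elim (fl n (fun k => Z (m * n + k))) (s1 y'))
        (Sum.elim (fl n (fun k => Z (m' * n + k))) (s1 y'))) x)
      (y := Sum.elim (Sum.elim
        (Sum.elim (fl n (fun k => W ((j + m) * n + k))) (Y i j))
        (Sum.elim (fl n (fun k => W ((j + m') * n + k))) (Y i j))) (X i)) (hY i j hi hj) ?_) hFd).symm
    · exact key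
    · rintro ((a | a) | a)
      · rcases a with a | a
        · refine ⟨Sum.inl (Sum.inl (⟨m * n + a.1, hlt j m a.1 hm⟩, a.2)), rfl, ?_⟩
          show W (j * n + (m * n + a.1)) a.2 = W ((j + m) * n + a.1) a.2
          congr 1
          ring_nf
        · exact ⟨Sum.inr a, rfl, rfl⟩
      · rcases a with a | a
        · refine ⟨Sum.inl (Sum.inl (⟨m' * n + a.1, hlt j m' a.1 hm'⟩, a.2)), rfl, ?_⟩
          show W (j * n + (m' * n + a.1)) a.2 = W ((j + m') * n + a.1) a.2
          congr 1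
          ring_nf
        · exact ⟨Sum.inr a, rfl, rfl⟩
      · exact ⟨Sum.inl (Sum.inr (Sum.inr a)), rfl, rfl⟩
  -- the classes of the blocks of `Z`
  have hy's : Sq L (A ∪ range x) (s1 y') (s1 y) := sq_symm (sq_right hy')
  have Z1 : ∀ m, 1 ≤ m → F x (Sum.elim (fl n (fun k => Z (m * n + k))) (s1 y')) (Sum.elim (fl n z') (s1 y)) := by
    intro m hm
    have h1 : Mo L (A ∪ range x ∪ range (s1 y')) r n (fun k => Z (m * n + k)) := by
      intro j hj
      refine ets_mono ?_ (hZ (m * n + j) (by nlinarith))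
      refine union_subset ?_ ((rg_shift (m * n) j Z).trans subset_union_right)
      rw [range_s1]
      refine union_subset ?_ ?_
      · exact subset_union_left.trans (subset_union_left.trans subset_union_left)
      · exact subset_union_right.trans subset_union_left
    have h2 : Mo L (A ∪ range x ∪ range (s1 y)) r n z' := by
      rw [range_s1]
      exact hz'
    have h3 := m4 (Fin 1) (A ∪ range x) n (fun k => Z (m * n + k)) z' (s1 y') (s1 y) hAx
      (inv_up subset_union_left hI) hy's h1 h2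
    exact h3 _ (hFE x)
  have Z0 : F x (Sum.elim (fl n z) (s1 y)) (Sum.elim (fl n (fun k => Z (0 * n + k))) (s1 y')) := by
    have e : fl n (fun k => Z (0 * n + k)) = fl n z₀ := by
      funext a
      show Z (0 * n + a.1) a.2 = z₀ a.1 a.2
      rw [zero_mul, zero_add, hZ0 a.1 a.1.2]
    rw [e]
    exact hy' _ (hFE x)
  have hEn' : ¬ F x (Sum.elim (fl n z) (s1 y)) (Sum.elim (fl n z') (s1 y)) := fun h => hEn ((hF _ _).1 h)
  -- the array
  refine ⟨true, true, fun k => Sum.elim (X (2 * k)) (Sum.elim (d (2 * k)) (d (2 * k + 1))),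
    fun l => Sum.elim (fl n (fun k => W ((2 * l : ℕ) * n + k))) (fl n (fun k => W ((2 * l + 1 : ℕ) * n + k))),
    fun a b => Y (2 * a) (2 * b) 0, fun a ha b hb => ?_⟩
  have hs1 : s1 (Y (2 * a) (2 * b) 0) = Y (2 * a) (2 * b) := by
    funext i
    rw [Subsingleton.elim i 0]
    rfl
  have hQv : ∀ k l : ℕ, Q (Sum.elim (X (2 * k)) (Sum.elim (d (2 * k)) (d (2 * k + 1))))
      (Sum.elim (fl n (fun k => W ((2 * l : ℕ) * n + k))) (fl n (fun k => W ((2 * l + 1 : ℕ) * n + k))))
      (Y (2 * a) (2 * b) 0) ↔ (¬ (P (Sum.elim (Y (2 * a) (2 * b)) (d (2 * k))) ↔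
        P (Sum.elim (Y (2 * a) (2 * b)) (d (2 * k + 1)))) ∧
      ¬ F (X (2 * k)) (Sum.elim (fl n (fun k => W ((2 * l : ℕ) * n + k))) (Y (2 * a) (2 * b)))
        (Sum.elim (fl n (fun k => W ((2 * l + 1 : ℕ) * n + k))) (Y (2 * a) (2 * b)))) := by
    intro k l
    show (¬ (P (Sum.elim (s1 (Y (2 * a) (2 * b) 0)) (d (2 * k))) ↔
      P (Sum.elim (s1 (Y (2 * a) (2 * b) 0)) (d (2 * k + 1)))) ∧
    ¬ F (X (2 * k)) (Sum.elim (fl n (fun k => W ((2 * l : ℕ) * n + k))) (s1 (Y (2 * a) (2 * b) 0)))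
        (Sum.elim (fl n (fun k => W ((2 * l + 1 : ℕ) * n + k))) (s1 (Y (2 * a) (2 * b) 0)))) ↔ _
    rw [hs1]
  have hne : ∀ m, 0 < m → m < N → (P (Sum.elim (s1 y') (d m)) ↔ ¬ P (Sum.elim (s1 y') (d 0))) := by
    intro m h1 h2
    have h3 := hPd m h1 h2
    tauto
  refine ⟨(hQv a b).2 ⟨?_, ?_⟩, fun k hk hak => ?_, fun l hl hbl => ?_⟩
  · have h1 := T1 (2 * a) (2 * b) 0 (by omega) (by omega) (by omega)
    have h2 := T1 (2 * a) (2 * b) 1 (by omega) (by omega) (by omega)
    rw [add_zero] at h1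
    have h3 := hne 1 (by omega) (by omega)
    rw [h1, h2, h3]
    tauto
  · have h6 := T2 (2 * a) (2 * b) 0 1 (by omega) (by omega) (by omega) (by omega)
    rw [add_zero] at h6
    intro h7
    exact hEn' ((hFE x).eqv.trans Z0 ((hFE x).eqv.trans (h6.1 h7) (Z1 1 (le_refl 1))))
  · have hak : a < k := hak
    rw [hQv]
    rintro ⟨h5, -⟩
    obtain ⟨m, hm⟩ : ∃ m, k = a + m := ⟨k - a, by omega⟩
    have h1 := T1 (2 * a) (2 * b) (2 * m) (by omega) (by omega) (by omega)
    have h2 := T1 (2 * a) (2 * b) (2 * m + 1) (by omega) (by omega) (by omega)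
    have e1 : 2 * a + 2 * m = 2 * k := by omega
    have e2 : 2 * a + (2 * m + 1) = 2 * k + 1 := by omega
    rw [e1] at h1
    rw [e2] at h2
    have h3 := hne (2 * m) (by omega) (by omega)
    have h4 := hne (2 * m + 1) (by omega) (by omega)
    exact h5 (h1.trans (h3.trans (h4.symm.trans h2.symm)))
  · have hbl : b < l := hbl
    rw [hQv]
    rintro ⟨-, h5⟩
    obtain ⟨m, hm⟩ : ∃ m, l = b + m := ⟨l - b, by omega⟩
    have h6 := T2 (2 * a) (2 * b) (2 * m) (2 * m + 1) (by omega) (by omega) (by omega) (by omega)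
    have e1 : 2 * b + 2 * m = 2 * l := by omega
    have e2 : 2 * b + (2 * m + 1) = 2 * l + 1 := by omega
    rw [e1, e2] at h6
    exact h5 (h6.2 ((hFE x).eqv.trans (Z1 _ (by omega)) ((hFE x).eqv.symm (Z1 _ (by omega)))))

end Pool.Agent.TPY
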