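import Pool.Agent.MNO.NFE
import Pool.Agent.MST.SAW

/-!
# TPY (port of TPX): Vaught's conjecture for monadically NIP theories whose finite sets are extension bases (T6')

Definitions of the frame.  `U` is a countably saturated model (in general uncountable), `A` a finite set of parameters.
No automorphisms: `MNO.Sq L A u u'` (the tuples `u`, `u'` have the same strong type over `A`) is used instead.
-/

set_option autoImplicit false
set_option linter.unusedVariables false

namespace Pool.Agent.TPY

open FirstOrder.Language Set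
open scoped FirstOrder
open Pool.Agent.MNO (Dp FE Sq Exa)

section

variable (L : FirstOrder.Language.{0, 0}) {U : Type} [L.Structure U]

/-- the tuples `x`, `y` have the same type over `A` -/
def Tq (A : Set U) {α : Type} (x y : α → U) : Prop := ∀ P : (α → U) → Prop, Dp L A P → P x → P y

/-- a complete type over `U` in the variables `α`: an ultrafilter of definable properties -/
structure GT {α : Type} (r : ((α → U) → Prop) → Prop) : Prop where
  dfn : ∀ P, r P → Dp L (univ : Set U) P
  ne : ∀ P, r P → ∃ x, P x
  and : ∀ P Q, r P → r Q → r (fun x => P x ∧ Q x)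
  max : ∀ P, Dp L (univ : Set U) P → r P ∨ r (fun x => ¬ P x)

/-- `r` is invariant over `A` -/
def Inv (A : Set U) {α : Type} (r : ((α → U) → Prop) → Prop) : Prop :=
  ∀ (n : ℕ) (P : (α ⊕ Fin n → U) → Prop), Dp L A P → ∀ c c' : Fin n → U, Sq L A c c' →
    r (fun x => P (Sum.elim x c)) → r (fun x => P (Sum.elim x c'))

/-- `r` contains the strong type of `a` over `A` -/
def Ets (A : Set U) {α : Type} (a : α → U) (r : ((α → U) → Prop) → Prop) : Prop :=
  ∀ E, FE L A E → r (fun x => E x a)

/-- `u` realises the restriction of `r` to `acl^eq(A)` and `c` -/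
def Rl (A : Set U) {α β : Type} (r : ((α → U) → Prop) → Prop) (c : β → U) (u : α → U) : Prop :=
  ∀ E, FE L A E → r (fun x => E (Sum.elim x c) (Sum.elim u c))

/-- `F` shatters a set with `k` elements -/
def Sh {α β : Type} (F : α → β → Prop) (k : ℕ) : Prop :=
  ∃ (x : Fin k → α) (y : Set (Fin k) → β), ∀ i s, F (x i) (y s) ↔ i ∈ s

variable (U) in
/-- The context (no extension bases). -/
structure Cz : Prop where
  ctL : Countable L.Symbols
  ne : Nonempty U
  sat : Pool.Agent.MST.SatW L U
  /-- there are countably many types over the empty set -/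
  sml : ∀ n : ℕ, ∃ s : Set (Fin n → U), s.Countable ∧ ∀ x, ∃ y ∈ s, Tq L (∅ : Set U) x y
  /-- no formula has the independence property -/
  nip : ∀ (m n : ℕ) (P : (Fin m ⊕ Fin n → U) → Prop), Dp L (∅ : Set U) P →
    ∃ k, ¬ Sh (fun (x : Fin m → U) (y : Fin n → U) => P (Sum.elim x y)) k
  /-- no formula has exact arrays of arbitrary size -/
  cod : ∀ (m n : ℕ) (P : (Fin m → U) → (Fin n → U) → U → Prop),
    Dp L (∅ : Set U) (fun v : (Fin m ⊕ Fin n) ⊕ Unit → U =>
      P (fun i => v (Sum.inl (Sum.inl i))) (fun i => v (Sum.inl (Sum.inr i))) (v (Sum.inr ()))) →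
    ∃ k, ¬ Exa P k

/-! ### pieces -/

/-- the tuple of one element -/
def s1 (x : U) : Fin 1 → U := fun _ => x

/-- `Q` is in the algebra `B_A`: `Q` is invariant over `A` and tuples of `Q` with the same strong type over `A` have the
same strong type over `A` and any tuple outside `Q` -/
structure BF (A Q : Set U) : Prop where
  inv : ∀ x y : U, Sq L A (s1 x) (s1 y) → x ∈ Q → y ∈ Q
  prd : ∀ (m n : ℕ) (u u' : Fin m → U) (w : Fin n → U), (∀ i, u i ∈ Q) → (∀ i, u' i ∈ Q) →
    (∀ j, w j ∉ Q) → Sq L A u u' → Sq L A (Sum.elim u w) (Sum.elim u' w)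

/-- the piece of `x` over `A` -/
def Pc (A : Set U) (x : U) : Set U := {y | ∀ Q, BF L A Q → x ∈ Q → y ∈ Q}

end

end Pool.Agent.TPY
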