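import Pool.Agent.TPY.StK

/-!
# TPY (port of TPX): statements, second part (helper58), with proofs in the docstrings: nested and facing pairs, the chain lemma,
transfer to arbitrary sequences (F1).

`r` is a type of elements (`GT L r`, `Nal r`, `Inv L A r`), `e(B) := En L B r` for finite `B ⊇ A`; it is a piece over `B`
(ENC).  All statements are for the base `A`; they can be used with every finite `B ⊇ A` in place of `A`.
`(x, y)` FACING over `A`: `x, y ∈ e(A)`, `y ∈ e(A x)`, `x ∈ e(A y)`.  NESTED: `y ∈ e(A x)`, `x ∉ e(A y)`.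
(NNL) if `c ∉ e(B)` then `e(B c) = e(B)`; so if `x ∉ e(A y)` then `e(A y) = e(A x y) ⊆ e(A x)` (ENC (4), (2)).
-/

set_option autoImplicit false
set_option linter.unusedVariables false

namespace Pool.Agent.TPY

open FirstOrder.Language Set
open scoped FirstOrder
open Pool.Agent.MNO (Dp FE Sq Exa)

section

variable (L : FirstOrder.Language.{0, 0}) {U : Type} [L.Structure U]

/-- no nested pair in the end over `B` -/
def N0 (B : Set U) (r : ((Fin 1 → U) → Prop) → Prop) : Prop :=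
  ∀ x ∈ En L B r, ∀ y ∈ En L B r, y ∈ En L (insert x B) r → x ∈ En L (insert y B) r

/-- no facing pair in the end over `B` (the end is linear) -/
def NF (B : Set U) (r : ((Fin 1 → U) → Prop) → Prop) : Prop :=
  ∀ x ∈ En L B r, ∀ y ∈ En L B r, y ∈ En L (insert x B) r → x ∉ En L (insert y B) r

/-- the elements `x 0, .., x (k-1)` -/
def pre (x : ℕ → U) (k : ℕ) : Set U := {v | ∃ i < k, v = x i}

/-- `x 0, .., x (n-1)` is an independent sequence over `B`: each term is in the end over the earlier terms -/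
def Ind (B : Set U) (r : ((Fin 1 → U) → Prop) → Prop) (n : ℕ) (x : ℕ → U) : Prop :=
  ∀ k < n, x k ∈ En L (B ∪ pre x k) r

end

/-- [FAC] the elements outside `e(A z₁)` and outside `e(A z₂)` are different if `z₁`, `z₂` are facing.
PROOF.  Suppose `c ∉ e(A z₁)`, `c ∉ e(A z₂)`.  `R := Pc (A z₁) c`.  `z₂ ∈ e(A z₁)`, a piece over `A z₁` which does not contain `c`
(ENC (7)), so `z₂ ∉ R`, and `c ∉ A ∪ {z₁}` (ENC (5), `c ≠ z₁`), so `R = Pc (A z₁ z₂) c` (`nnl1`).  By symmetry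
`Pc (A z₂) c = Pc (A z₁ z₂) c = R`.  So `R` is in `BF (A z₂)`.  CLAIM: `R` is in `BF (A z')` for all `z'` with `Sq (A z₁) z₂ z'`: take
`c'` with `Sq (A z₁) (z₂, c) (z', c')`; then `c' ∈ R` (`bf_inv1`), so `Pc (A z₁) c' = R`, and by ENC (3) `z₁`, `z'` are facing over
`A`, `c' ∉ e(A z₁)`, `c' ∉ e(A z')`, `c' ≠ z₁`, `c' ≠ z'`; the argument above for `z₁, z', c'`.
DIV (`z₂ ∈ e(A z₁)`): `p`, invariant over `A`, contains the strong type of `z₂` over `A z₁`.  `R` is in `BF A`: `inv`: `Sq A y y'`,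
`y ∈ R`; `z'` realises `p` over `acl^eq(A z₁ y y')`: `Sq (A z₁) z₂ z'`; LI: `Sq (A z') y y'`, `R ∈ BF (A z')`: `y' ∈ R`.  `prd`:
`Sq A u u'`, in `R`, `w` outside; `z'` realises `p` over `acl^eq(A z₁ u u' w)`; LI: `Sq (A z') u u'`; `prd` over `A z'`, `sq_mono`.
So `R ∈ BF A`, and `e(A)` is a piece over `A` which meets `R` (in `c`), so `e(A) ⊆ R`, `z₂ ∈ R`: contradiction. -/
def St_FAC : Prop :=
  ∀ (L : FirstOrder.Language.{0, 0}) (U : Type) [L.Structure U], Cz L U →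
    ∀ (r : ((Fin 1 → U) → Prop) → Prop), GT L r → Nal r → ∀ (A : Set U), A.Finite → Inv L A r →
    ∀ z₁ z₂ c : U, z₁ ∈ En L A r → z₂ ∈ En L A r → c ∈ En L A r → z₂ ∈ En L (insert z₁ A) r →
    z₁ ∈ En L (insert z₂ A) r → c ≠ z₁ → c ≠ z₂ → c ∈ En L (insert z₁ A) r ∨ c ∈ En L (insert z₂ A) r

/-- [NES] a nested pair `(c, z)` gives an invariant type all of whose realisations are beyond everything.
PROOF.  DIV (`z ∈ e(A c)`): `p`.  `Y := {x ∈ e(A) | x ∈ e(A z')` for the `z'` which realise `p` over `acl^eq(A x)}` (for one `z'`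
= for all `z'`: `rl_sq` and ENC (3)).  `Y` is in `BF A`: `inv`: `rl_sq`, ENC (3).  `prd`: `Sq A u u'`, in `Y`, `w` outside `Y`; `z'`
realises `p` over `acl^eq(A u u' w)`; LI: `Sq (A z') u u'`; the entries of `u`, `u'` are in `e(A z')`, those of `w` are not
(`e(A z') ⊆ e(A)`, ENC (2)); `e(A z') ∈ BF (A z')` (BXX over `A z'`): `Sq (A z') (u, w) (u', w)`.  `c ∉ Y` (as `Ets (A c) z p`,
`c ∉ e(A z)`).  `e(A)` is a piece over `A` which contains `c`, so `Y` is empty. -/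
def St_NES : Prop :=
  ∀ (L : FirstOrder.Language.{0, 0}) (U : Type) [L.Structure U], Cz L U →
    ∀ (r : ((Fin 1 → U) → Prop) → Prop), GT L r → Nal r → ∀ (A : Set U), A.Finite → Inv L A r →
    ∀ c z : U, c ∈ En L A r → z ∈ En L (insert c A) r → c ∉ En L (insert z A) r →
    ∃ p : ((Fin 1 → U) → Prop) → Prop, GT L p ∧ Nal p ∧ Inv L A p ∧ Ets L (insert c A) (s1 z) p ∧
      ∀ x ∈ En L A r, ∀ z' : U, Ets L (insert x A) (s1 z') p → x ∉ En L (insert z' A) r

/-- [CHN] the chain lemma.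
PROOF.  `O := {z | Ets A z p}`, `S v := {z ∈ O | v ∉ e(A z)}`.  For `z₁, z₂ ∈ O`: `e(A z₁) ⊆ e(A z₂)` or `e(A z₂) ⊆ e(A z₁)` (not
facing, NNL).  So for `x, y ∈ e(A)`: `S x ⊆ S y` or `S y ⊆ S x`.  Let `(x, y)` be facing and, by symmetry, `S x ⊆ S y`.  We
show `Or (A x) r y`, so `y ∉ e(A x)`: contradiction.  ORC (2) over `A x`: let `z` be Morley (`r`) over `A x`, `z°` Morley over
`A x y`, length `n`.  Let `z₀` realise `p` over `acl^eq(A x)`, `z'` Morley (`r`) over `A x z₀`: `Sq (A x) z z'` (MOC (9)), so `y'` with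
`Sq (A x) (z, y) (z', y')`.  `z₀ ∈ S x` (hypothesis (1)).  `z₀ ∈ S y'`: take `z₁` with `Sq (A x) (y', z₀) (y, z₁)`; `z₁` realises `p`
over `acl^eq(A x)`, so `z₁ ∈ S x ⊆ S y`, and ENC (3).  So `x, y' ∉ e(A z₀)`; the entries of `z'` are in `e(A z₀)` (ENC (1)).  Let
`z''` be Morley over `A x y' z₀`: `Sq (A z₀) z' z''` (MOC (9)), `of` over `A z₀`: `Sq (A z₀ x y') z' z''`.  So
`Sq (A x) (z', y') (z'', y')` and `Sq (A x) (z'', y') (z°, y)` (MOC (4)).  Together `Sq (A x) (z, y) (z°, y)`. -/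
def St_CHN : Prop :=
  ∀ (L : FirstOrder.Language.{0, 0}) (U : Type) [L.Structure U], Cz L U →
    ∀ (r : ((Fin 1 → U) → Prop) → Prop), GT L r → Nal r → ∀ (A : Set U), A.Finite → Inv L A r →
    ∀ p : ((Fin 1 → U) → Prop) → Prop, GT L p → Inv L A p →
    (∀ v ∈ En L A r, ∀ z : U, Ets L (insert v A) (s1 z) p → v ∉ En L (insert z A) r) →
    (∀ z₁ z₂ : U, Ets L A (s1 z₁) p → Ets L A (s1 z₂) p →
      ¬ (z₁ ∈ En L (insert z₂ A) r ∧ z₂ ∈ En L (insert z₁ A) r)) → NF L A r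

/-- [CCC] a nested pair over `A` makes all ends `e(A c)`, `c ∈ e(A)`, linear.
PROOF.  NES: `p`.  CHN for the base `A c` and `p`.  (1): `v ∈ e(A c) ⊆ e(A)`, `z` realises `p` over `acl^eq(A c v)`: `v ∉ e(A z)`, which
contains `e(A c z)`.  (2): let `z₁, z₂` realise `p` over `acl^eq(A c)`, facing over `A c`, so facing over `A` (ENC (2); they are in
`e(A)`), `c ∉ e(A z₁)`, `c ∉ e(A z₂)` (NES), `c ≠ z₁, z₂` (ENC (5): `z₁ ∈ e(A c z₂)`): contradiction to FAC. -/
def St_CCC : Prop :=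
  ∀ (L : FirstOrder.Language.{0, 0}) (U : Type) [L.Structure U], Cz L U →
    ∀ (r : ((Fin 1 → U) → Prop) → Prop), GT L r → Nal r → ∀ (A : Set U), A.Finite → Inv L A r →
    ¬ N0 L A r → ∀ c ∈ En L A r, NF L (insert c A) r

/-- [CMP] if no two elements with the strong type of `o` are facing then the end is linear.
PROOF.  REA: `o' ∈ e(A o)`, `Sq A o o'`; not facing, so `o ∉ e(A o')`.  NES for `c := o`, `z := o'`: `p`; CHN: (1) is in NES, (2) the
realisations of `p` over `acl^eq(A)` have the strong type of `o' ` over `A`. -/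
def St_CMP : Prop :=
  ∀ (L : FirstOrder.Language.{0, 0}) (U : Type) [L.Structure U], Cz L U →
    ∀ (r : ((Fin 1 → U) → Prop) → Prop), GT L r → Nal r → ∀ (A : Set U), A.Finite → Inv L A r →
    ∀ o ∈ En L A r, (∀ z₁ z₂ : U, Sq L A (s1 o) (s1 z₁) → Sq L A (s1 o) (s1 z₂) →
      ¬ (z₁ ∈ En L (insert z₂ A) r ∧ z₂ ∈ En L (insert z₁ A) r)) → NF L A r

/-- [NMO] monotonicity.
PROOF.  (1) Induction on `B \ A`; `B = A c`.  `c ∉ e(A)`: `e(A c x) = e(A x)` for `x = ` nothing or `x ∈ e(A)` (NNL, `e(A x) ⊆ e(A)`),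
so a nested pair over `A` is nested over `A c`.  `c ∈ e(A)`: CCC: `NF (A c)`; ENC (6): `x ∈ e(A c)`, `y ∈ e(A c x)`: not facing, so
nested.  (2) `B = A c`.  `c ∉ e(A)`: as before.  `c ∈ e(A)`: `NF A` gives not `N0 A` (ENC (6)): CCC. -/
def St_NMO : Prop :=
  ∀ (L : FirstOrder.Language.{0, 0}) (U : Type) [L.Structure U], Cz L U →
    ∀ (r : ((Fin 1 → U) → Prop) → Prop), GT L r → Nal r → ∀ (A : Set U), A.Finite → Inv L A r →
    ∀ B : Set U, A ⊆ B → B.Finite → (¬ N0 L A r → ¬ N0 L B r) ∧ (NF L A r → NF L B r) ∧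
      (NF L A r → ¬ N0 L A r)

/-- [F1R] replacing a parameter by three points.
PROOF.  Suppose that there is no nested pair over `A`, `A x₁`, `A x₁ x₂`, `A x₁ x₃`.  CCC for the base `A w`, `c := x₁`: no facing
pair in `e(A w x₁)`.  `x₂, x₃ ∈ e(A w x₁)`, `x₃ ∈ e(A w x₁ x₂)`, so `x₂ ∉ e(A w x₁ x₃)` (*).  `N0 A`: `x₁ ∈ e(A w)`, so `w ∈ e(A x₁)`.
`N0 (A x₁)`: `x₂ ∈ e(A x₁ w)` gives `w ∈ e(A x₁ x₂)`; `x₃ ∈ e(A x₁ w)` gives `w ∈ e(A x₁ x₃)`; `x₃ ∈ e(A x₁ x₂)` gives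
`x₂ ∈ e(A x₁ x₃)`.  `N0 (A x₁ x₂)`: `x₃ ∈ e(A x₁ x₂ w)` gives `w ∈ e(A x₁ x₂ x₃)`.  `N0 (A x₁ x₃)` (for `x₂`, `w`): `w ∈ e(A x₁ x₃ x₂)`
gives `x₂ ∈ e(A x₁ x₃ w)`: contradiction to (*).  (`Set.insert_comm`, ENC (2).) -/
def St_F1R : Prop :=
  ∀ (L : FirstOrder.Language.{0, 0}) (U : Type) [L.Structure U], Cz L U →
    ∀ (r : ((Fin 1 → U) → Prop) → Prop), GT L r → Nal r → ∀ (A : Set U), A.Finite → Inv L A r →
    ∀ w x₁ x₂ x₃ : U, w ∈ En L A r → x₁ ∈ En L (insert w A) r → x₂ ∈ En L (insert x₁ (insert w A)) r →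
    x₃ ∈ En L (insert x₂ (insert x₁ (insert w A))) r → ¬ N0 L (insert w A) r →
    ¬ N0 L A r ∨ ¬ N0 L (insert x₁ A) r ∨ ¬ N0 L (insert x₂ (insert x₁ A)) r ∨
      ¬ N0 L (insert x₃ (insert x₁ A)) r

/-- [TRL] **transfer**: if there is a nested pair over some finite set then every long independent sequence makes the end
linear.
PROOF.  Let `C = A ∪ {c_1, .., c_m}`; omit the `c_i` with `c_i ∉ e(A c_1 .. c_(i-1))` (`e(A c_(<i) c_i D) = e(A c_(<i) D)` for all
`D`), so `c_i ∈ e(A c_(<i))` and there is a nested pair over `A c_1 .. c_m`.  `N := 3 m + 1`.  Let `x` be as in the statement.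
(i) There is `c' = (c'_1, .., c'_m)` with `Sq A c c'` and `x_k ∈ e(A c' x_(<k))` for all `k < N`: induction on `k`: `c'` for `k`;
REA over `A x_(<k)`: `x'` with `Sq (A x_(<k)) x_k x'`, `x' ∈ e(A x_(<k) c')`; `sq_ext`: `c''` with
`Sq (A x_(<k)) (x', c') (x_k, c'')`; ENC (3) for the base `A x_(<k)` and for the base `A`, all earlier statements are preserved
(`Sq (A x_(<k)) c' c''`).  `N0` is invariant (ENC (3)), so there is a nested pair over `A c'_1 .. c'_m`.  Write `c` for `c'`.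
(ii) For `j = m, .., 0` there is `n ≤ 3 (m - j)` with a nested pair over `A c_1 .. c_j x_(<n)`.  `j = m`: `n = 0`.  Step `j → j - 1`:
if there is a nested pair over `A c_(<j) x_(<k)` for some `k ≤ n + 3`: done (NMO (1)).  Otherwise let `w = c_j`, `B = A c_(<j) x_(<n)`.
By induction on `k ≤ n`: `w ∈ e(A c_(<j) x_(<k))`: `x_k ∈ e(A c_(<j) x_(<k) w)` (ENC (2)) and `N0 (A c_(<j) x_(<k))` give
`w ∈ e(A c_(<j) x_(<k+1))`.  F1R for `B`, `w`, `x_n, x_(n+1), x_(n+2)`: nested pair over `B`, `B x_n`, `B x_n x_(n+1)` (excluded) or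
`B x_n x_(n+2)`, so over `B x_n x_(n+1) x_(n+2)` (NMO (1)): excluded.
(iii) `j = 0`: nested pair over `A x_(<n)`, `n ≤ 3 m`; CCC with `c := x_n`, NMO (2). -/
def St_TRL : Prop :=
  ∀ (L : FirstOrder.Language.{0, 0}) (U : Type) [L.Structure U], Cz L U →
    ∀ (r : ((Fin 1 → U) → Prop) → Prop), GT L r → Nal r → ∀ (A : Set U), A.Finite → Inv L A r →
    ∀ C : Set U, A ⊆ C → C.Finite → ¬ N0 L C r →
    ∃ N : ℕ, ∀ x : ℕ → U, Ind L A r N x → NF L (A ∪ pre x N) r

/-- [UNE] uniqueness of the end if there are no nested pairs at all: `p` is another type of elements of the piece `e(A)`.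
PROOF.  Induction on `B \ A`: let `En B p = En B r =: P` and `B' = B c`.  If `c ∉ P`: NNL for both.  Let `c ∈ P` and suppose
`En (B c) p ≠ En (B c) r`; both are pieces over `B c` (ENC (7)), so they are disjoint.  REA for `r`: `c' ∈ En (B c) r`, `Sq B c c'`.
`N0 B`: `c ∈ En (B c') r`.  By ENC (3) `En (B c') p`, `En (B c') r` are different, so disjoint.  `c' ∉ En (B c) p`, so
`En (B c) p = En (B c c') p` (NNL); `c ∉ En (B c') p`, so `En (B c') p = En (B c c') p`.  So `R := En (B c) p = En (B c') p` is in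
`BF (B c')`, and this holds for every `c''` with `Sq (B c) c' c''` in place of `c'`.  DIV for `r` over `B` (`c' ∈ En (B c) r`): `q`,
invariant over `B`.  As in FAC `R` is in `BF B`; `R ⊆ P` is nonempty, `P` is a piece over `B`, so `R = P`: contradiction
(`En (B c) r ⊆ P` is nonempty and disjoint from `R`). -/
def St_UNE : Prop :=
  ∀ (L : FirstOrder.Language.{0, 0}) (U : Type) [L.Structure U], Cz L U →
    ∀ (r p : ((Fin 1 → U) → Prop) → Prop), GT L r → Nal r → GT L p → Nal p → ∀ (A : Set U), A.Finite →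
    Inv L A r → Inv L A p → (∀ B : Set U, A ⊆ B → B.Finite → N0 L B r) → En L A p = En L A r →
    ∀ B : Set U, A ⊆ B → B.Finite → En L B p = En L B r

end Pool.Agent.TPY
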