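import Pool.Agent.TPY.AllK
import Pool.Agent.TPY.StN

/-!
# TPY (port of TPX), the free case (helper58's (7)), part 1: if there are no nested pairs over any finite set then elements in different
clusters are orthogonal
-/

set_option autoImplicit false
set_option linter.unusedVariables false

namespace Pool.Agent.TPY

open FirstOrder.Language Set
open scoped FirstOrder
open Pool.Agent.MNO

variable {L : FirstOrder.Language.{0, 0}} {U : Type} [L.Structure U]

variable (L) in
/-- a non-realised `A`-invariant type of elements without nested pairs over any finite `B ⊇ A` -/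
structure Fr0 (A : Set U) (r : ((Fin 1 → U) → Prop) → Prop) : Prop where
  fin : A.Finite
  gt : GT L r
  nal : Nal r
  inv : Inv L A r
  n0 : ∀ B : Set U, A ⊆ B → B.Finite → ∀ x ∈ En L B r, ∀ y ∈ En L B r, y ∈ En L (insert x B) r →
    x ∈ En L (insert y B) r

section fra

variable {r : ((Fin 1 → U) → Prop) → Prop} {A B : Set U}

theorem fr_up (h : Fr0 L A r) (hAB : A ⊆ B) (hB : B.Finite) : Fr0 L B r :=
  ⟨hB, h.gt, h.nal, inv_up hAB h.inv, fun C hBC hCf => h.n0 C (hAB.trans hBC) hCf⟩

theorem fr_mono (hC : Cz L U) (h : Fr0 L A r) {C : Set U} (hAB : A ⊆ B) (hBC : B ⊆ C)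
    (hCf : C.Finite) : En L C r ⊆ En L B r := e_mono hC h.gt h.nal h.inv hAB hBC hCf

/-- symmetry -/
theorem fr_sym (hC : Cz L U) (h : Fr0 L A r) {x y : U} (hx : x ∈ En L A r)
    (hy : y ∈ En L (insert x A) r) : x ∈ En L (insert y A) r :=
  h.n0 A Subset.rfl h.fin x hx y (fr_mono hC h Subset.rfl (subset_insert x A) (h.fin.insert x) hy) hy

/-- elements outside the end do not change it -/
theorem fr_add (hC : Cz L U) (h : Fr0 L A r) {c : U} (hc : c ∉ En L A r) :
    En L (insert c A) r = En L A r := e_add hC h.gt h.nal h.inv Subset.rfl h.fin hc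

/-- clusters -/
theorem fr_cl (hC : Cz L U) (h : Fr0 L A r) {x y : U} (hx : x ∈ En L A r) (hy : y ∈ En L A r)
    (hxy : y ∉ En L (insert x A) r) : En L (insert x A) r = En L (insert y A) r := by
  have h1 := fr_add hC (fr_up h (subset_insert x A) (h.fin.insert x)) hxy
  have h2 : x ∉ En L (insert y A) r := fun h3 => hxy (fr_sym hC h hy h3)
  have h3 := fr_add hC (fr_up h (subset_insert y A) (h.fin.insert y)) h2
  rw [← h1, ← h3, insert_comm]

/-- (a) strong types over `A` of elements of the end over `A x` -/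
theorem fr_a (hC : Cz L U) (h : Fr0 L A r) {x y z : U} (hx : x ∈ En L A r)
    (hy : y ∈ En L (insert x A) r) (hz : z ∈ En L (insert x A) r) (hs : Sq L A (s1 y) (s1 z)) :
    Sq L (insert x A) (s1 y) (s1 z) := by
  have hyA : y ∈ En L A r := fr_mono hC h Subset.rfl (subset_insert x A) (h.fin.insert x) hy
  have hzA : z ∈ En L A r := fr_mono hC h Subset.rfl (subset_insert x A) (h.fin.insert x) hz
  have hC3 : (insert x (insert y (insert z A))).Finite := ((h.fin.insert z).insert y).insert x
  obtain ⟨t, ht, hte⟩ := e_rea (C := insert x (insert y (insert z A))) hC h.gt h.nal h.inv Subset.rfl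
    (fun v hv => Or.inr (Or.inr (Or.inr hv))) hC3 hyA
  have key : ∀ v, v ∈ En L A r → v ∈ En L (insert x A) r → Sq L A (s1 v) (s1 t) →
      insert x (insert v A) ⊆ insert x (insert y (insert z A)) → Sq L (insert x A) (s1 v) (s1 t) := by
    intro v hvA hv hvt hsub
    have hv' := fr_up h (subset_insert v A) (h.fin.insert v)
    have h1 : t ∈ En L (insert x (insert v A)) r :=
      fr_mono hC h ((subset_insert v A).trans (subset_insert x _)) hsub hC3 hte
    have h2 := fr_sym hC hv' (fr_sym hC h hx hv) h1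
    refine e_sta hC h.gt h.nal h.inv Subset.rfl h.fin hvt ?_
    rw [range_s1, range_s1, union_singleton, union_singleton]
    exact h2
  refine sq_trans (key y hyA hy ht ?_) (sq_symm (key z hzA hz (sq_trans (sq_symm hs) ht) ?_))
  · rintro v (rfl | rfl | hv)
    · exact Or.inl rfl
    · exact Or.inr (Or.inl rfl)
    · exact Or.inr (Or.inr (Or.inr hv))
  · rintro v (rfl | rfl | hv)
    · exact Or.inl rfl
    · exact Or.inr (Or.inr (Or.inl rfl))
    · exact Or.inr (Or.inr (Or.inr hv))

/-- (a') the same for finite sets -/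
theorem fr_a' (hC : Cz L U) (h : Fr0 L A r) {W : Set U} (hW : W.Finite) {y z : U}
    (hy : y ∈ En L (A ∪ W) r) (hz : z ∈ En L (A ∪ W) r) (hs : Sq L A (s1 y) (s1 z)) :
    Sq L (A ∪ W) (s1 y) (s1 z) := by
  induction W, hW using Set.Finite.induction_on with
  | empty =>
    rw [union_empty]
    exact hs
  | @insert w W _ hW ih =>
    have hAW : (A ∪ W).Finite := h.fin.union hW
    have hsub : A ∪ W ⊆ A ∪ insert w W := union_subset_union_right _ (subset_insert w W)
    have hfin : (A ∪ insert w W).Finite := h.fin.union (hW.insert w)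
    have hy' := fr_mono hC h subset_union_left hsub hfin hy
    have hz' := fr_mono hC h subset_union_left hsub hfin hz
    have h1 := ih hy' hz'
    have h2 := fr_up h subset_union_left hAW
    have e : A ∪ insert w W = insert w (A ∪ W) := union_insert
    rw [e] at hy hz ⊢
    by_cases hw : w ∈ En L (A ∪ W) r
    · exact fr_a hC h2 hw hy hz h1
    · have h3 := of (w := s1 w) hC hAW Subset.rfl (e_bf hC h2.gt h2.inv Subset.rfl hAW)
        (u := s1 y) (u' := s1 z) (fun i => hy') h1 (fun j => hw)
      rw [range_s1, union_singleton] at h3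
      exact h3

/-- existence of independent sequences with prescribed strong types -/
theorem fr_ind (hC : Cz L U) (h : Fr0 L A r) (τ : ℕ → U) (hτ : ∀ n, τ n ∈ En L A r) :
    ∃ s : ℕ → U, ∀ n, Sq L A (s1 (τ n)) (s1 (s n)) ∧ s n ∈ En L (A ∪ pre s n) r := by
  have h1 : ∀ (n : ℕ) (F : {F : Set U // A ⊆ F ∧ F.Finite}), ∃ y, Sq L A (s1 (τ n)) (s1 y) ∧
      y ∈ En L F.1 r := fun n F => e_rea hC h.gt h.nal h.inv Subset.rfl F.2.1 F.2.2 (hτ n)
  choose p hp hp' using h1
  let st : ℕ → {F : Set U // A ⊆ F ∧ F.Finite} := fun n => Nat.rec ⟨A, Subset.rfl, h.fin⟩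
    (fun k F => ⟨insert (p k F) F.1, F.2.1.trans (subset_insert _ _), F.2.2.insert _⟩) n
  have hst : ∀ n, (st (n + 1)).1 = insert (p n (st n)) (st n).1 := fun n => rfl
  have hst2 : ∀ n, A ∪ pre (fun k => p k (st k)) n = (st n).1 := by
    intro n
    induction n with
    | zero =>
      show A ∪ pre _ 0 = A
      have e : pre (fun k => p k (st k)) 0 = ∅ := by
        ext v
        constructor
        · rintro ⟨i, hi, -⟩
          exact absurd hi (Nat.not_lt_zero i)
        · exact fun hv => absurd hv (notMem_empty v)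
      rw [e, union_empty]
    | succ n ih =>
      rw [hst, ← ih]
      ext v
      constructor
      · rintro (hv | ⟨i, hi, rfl⟩)
        · exact Or.inr (Or.inl hv)
        · rcases Nat.lt_succ_iff_lt_or_eq.1 hi with hi | rfl
          · exact Or.inr (Or.inr ⟨i, hi, rfl⟩)
          · exact Or.inl rfl
      · rintro (rfl | hv | ⟨i, hi, rfl⟩)
        · exact Or.inr ⟨n, Nat.lt_succ_self n, rfl⟩
        · exact Or.inl hv
        · exact Or.inr ⟨i, hi.trans (Nat.lt_succ_self n), rfl⟩
  refine ⟨fun n => p n (st n), fun n => ⟨hp n (st n), ?_⟩⟩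
  rw [hst2]
  exact hp' n (st n)

/-- independent sequences are symmetric -/
theorem fr_any (hC : Cz L U) (h : Fr0 L A r) {s : ℕ → U} (hs : ∀ n, s n ∈ En L (A ∪ pre s n) r)
    (k m : ℕ) : s k ∈ En L (A ∪ {v | ∃ i < k + 1 + m, i ≠ k ∧ v = s i}) r := by
  have hfin : ∀ m : ℕ, (A ∪ {v | ∃ i < m, i ≠ k ∧ v = s i}).Finite := by
    intro m
    refine h.fin.union (((finite_Iio m).image s).subset ?_)
    rintro v ⟨i, hi, -, rfl⟩
    exact ⟨i, hi, rfl⟩
  induction m with
  | zero =>
    have e : A ∪ {v | ∃ i < k + 1 + 0, i ≠ k ∧ v = s i} = A ∪ pre s k := by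
      ext v
      constructor
      · rintro (hv | ⟨i, hi, hik, rfl⟩)
        · exact Or.inl hv
        · exact Or.inr ⟨i, by omega, rfl⟩
      · rintro (hv | ⟨i, hi, rfl⟩)
        · exact Or.inl hv
        · exact Or.inr ⟨i, by omega, by omega, rfl⟩
    rw [e]
    exact hs k
  | succ m ih =>
    have h1 := fr_up h (B := A ∪ {v | ∃ i < k + 1 + m, i ≠ k ∧ v = s i}) subset_union_left (hfin _)
    have h2 : s (k + 1 + m) ∈ En L (insert (s k) (A ∪ {v | ∃ i < k + 1 + m, i ≠ k ∧ v = s i})) r := by
      have e : insert (s k) (A ∪ {v | ∃ i < k + 1 + m, i ≠ k ∧ v = s i}) = A ∪ pre s (k + 1 + m) := by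
        ext v
        constructor
        · rintro (rfl | hv | ⟨i, hi, hik, rfl⟩)
          · exact Or.inr ⟨k, by omega, rfl⟩
          · exact Or.inl hv
          · exact Or.inr ⟨i, hi, rfl⟩
        · rintro (hv | ⟨i, hi, rfl⟩)
          · exact Or.inr (Or.inl hv)
          · by_cases hik : i = k
            · exact Or.inl (by rw [hik])
            · exact Or.inr (Or.inr ⟨i, hi, hik, rfl⟩)
      rw [e]
      exact hs _
    have h3 := fr_sym hC h1 ih h2
    have e : insert (s (k + 1 + m)) (A ∪ {v | ∃ i < k + 1 + m, i ≠ k ∧ v = s i}) =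
        A ∪ {v | ∃ i < k + 1 + (m + 1), i ≠ k ∧ v = s i} := by
      ext v
      constructor
      · rintro (rfl | hv | ⟨i, hi, hik, rfl⟩)
        · exact Or.inr ⟨k + 1 + m, by omega, by omega, rfl⟩
        · exact Or.inl hv
        · exact Or.inr ⟨i, by omega, hik, rfl⟩
      · rintro (hv | ⟨i, hi, hik, rfl⟩)
        · exact Or.inr (Or.inl hv)
        · by_cases hi' : i = k + 1 + m
          · exact Or.inl (by rw [hi'])
          · exact Or.inr (Or.inr ⟨i, by omega, hik, rfl⟩)
    rw [e] at h3
    exact h3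

theorem fr_any' (hC : Cz L U) (h : Fr0 L A r) {s : ℕ → U} (hs : ∀ n, s n ∈ En L (A ∪ pre s n) r)
    (k : ℕ) {J : Set ℕ} (hJ : J.Finite) (hk : k ∉ J) : s k ∈ En L (A ∪ s '' J) r := by
  obtain ⟨m, hm⟩ := hJ.bddAbove
  refine fr_mono hC h subset_union_left ?_ ?_ (fr_any hC h hs k m)
  · refine union_subset_union_right _ ?_
    rintro _ ⟨i, hi, rfl⟩
    have h1 := hm hi
    exact ⟨i, by omega, fun h2 => hk (by rw [← h2]; exact hi), rfl⟩
  · refine h.fin.union (((finite_Iio (k + 1 + m)).image s).subset ?_)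
    rintro v ⟨i, hi, -, rfl⟩
    exact ⟨i, hi, rfl⟩

end fra

end Pool.Agent.TPY
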