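import Pool.Agent.TPY.FRA
import Pool.Agent.TPY.UNE

/-!
# TPY (port of TPX), the free case, part 2: exact arrays, orthogonality of clusters
-/

set_option autoImplicit false
set_option linter.unusedVariables false

namespace Pool.Agent.TPY

open FirstOrder.Language Set
open scoped FirstOrder
open Pool.Agent.MNO

theorem k_UNE : St_UNE := thm_UNE k_BXX k_REA k_DIV

variable {L : FirstOrder.Language.{0, 0}} {U : Type} [L.Structure U]

section frb

variable {r : ((Fin 1 → U) → Prop) → Prop} {A : Set U}

/-- (c) for `a`, `c` in the end -/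
theorem fr_c (hC : Cz L U) (h : Fr0 L A r) {a c y : U} (ha : a ∈ En L A r) (hc : c ∈ En L A r)
    (hya : y ∈ En L (insert a A) r) (hyc : y ∈ En L (insert c A) r) :
    y ∈ En L (insert a (insert c A)) r := by
  classical
  by_contra hn
  have hfa := h.fin.insert a
  have hfc := h.fin.insert c
  have hyA : y ∈ En L A r := fr_mono hC h Subset.rfl (subset_insert a A) hfa hya
  have hca : c ∈ En L (insert a A) r := by
    by_contra hca
    have h1 := fr_add hC (fr_up h (subset_insert a A) hfa) hca
    rw [insert_comm, h1] at hn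
    exact hn hya
  obtain ⟨y₀, hy₀, hy₀e⟩ := e_rea (C := insert a (insert c A)) hC h.gt h.nal h.inv Subset.rfl
    ((subset_insert c A).trans (subset_insert a _)) (hfc.insert a) hyA
  have hrg : ∀ a c : U, A ∪ range (Sum.elim (s1 a) (s1 c)) = insert a (insert c A) := by
    intro a c
    rw [Set.Sum.elim_range, range_s1, range_s1, ← union_assoc, union_singleton, union_singleton,
      insert_comm]
  have hne : ¬ Sq L A (Sum.elim (s1 y) (Sum.elim (s1 a) (s1 c)))
      (Sum.elim (s1 y₀) (Sum.elim (s1 a) (s1 c))) := by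
    intro hs
    have h1 := e_mv hC h.gt h.inv Subset.rfl h.fin hs
    rw [hrg] at h1
    exact hn (h1.2 hy₀e)
  unfold Sq at hne
  push Not at hne
  obtain ⟨E, hE, hEne⟩ := hne
  -- the array
  have hP : Dp L (A ∪ range (Sum.elim (s1 y) (Sum.elim (s1 a) (s1 c))))
      (fun v : (Fin 1 ⊕ Fin 1) ⊕ Unit → U => E (Sum.elim (s1 (v (Sum.inr ())))
        (Sum.elim (fun i => v (Sum.inl (Sum.inl i))) (fun i => v (Sum.inl (Sum.inr i)))))
        (Sum.elim (s1 y) (Sum.elim (s1 a) (s1 c)))) := by
    have h1 := dp_sub (fe_cls hE (Sum.elim (s1 y) (Sum.elim (s1 a) (s1 c))))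
      (Sum.elim (fun _ => Sum.inr ()) (Sum.elim (fun i => Sum.inl (Sum.inl i))
        (fun i => Sum.inl (Sum.inr i))) : Fin 1 ⊕ (Fin 1 ⊕ Fin 1) → (Fin 1 ⊕ Fin 1) ⊕ Unit)
    refine dp_congr h1 fun v => iff_of_eq ?_
    congr 1
    funext i
    rcases i with i | i | i <;> rfl
  obtain ⟨k, hk⟩ := thm_CDP L U hC (Fin 1) (Fin 1) _ (fun x v w => E (Sum.elim (s1 w) (Sum.elim x v))
    (Sum.elim (s1 y) (Sum.elim (s1 a) (s1 c)))) (h.fin.union (finite_range _)) hP
  obtain ⟨s, hs⟩ := fr_ind hC h (fun n => if n < k then a else c) (by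
    intro n
    show (if n < k then a else c) ∈ En L A r
    by_cases hn : n < k
    · rw [if_pos hn]
      exact ha
    · rw [if_neg hn]
      exact hc)
  have hs2 : ∀ n, s n ∈ En L (A ∪ pre s n) r := fun n => (hs n).2
  have hrow : ∀ i, i < k → Sq L A (s1 a) (s1 (s i)) := by
    intro i hi
    have h1 : Sq L A (s1 (if i < k then a else c)) (s1 (s i)) := (hs i).1
    rw [if_pos hi] at h1
    exact h1
  have hcol : ∀ j, Sq L A (s1 c) (s1 (s (k + j))) := by
    intro j
    have h1 : Sq L A (s1 (if k + j < k then a else c)) (s1 (s (k + j))) := (hs (k + j)).1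
    rw [if_neg (by omega)] at h1
    exact h1
  have hsA : ∀ n, s n ∈ En L A r := by
    intro n
    have h1 := fr_any' hC h hs2 n finite_empty (notMem_empty n)
    rw [image_empty, union_empty] at h1
    exact h1
  have hs1 : ∀ i j, j ≠ i → s j ∈ En L (insert (s i) A) r := by
    intro i j hij
    have h1 := fr_any' hC h hs2 j (finite_singleton i) (by simpa using hij)
    rw [image_singleton, union_singleton] at h1
    exact h1
  have hs3 : ∀ i l m, i ≠ l → i ≠ m → s i ∈ En L (insert (s l) (insert (s m) A)) r := by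
    intro i l m hil him
    have h1 := fr_any' hC h hs2 i (J := {l, m}) (toFinite _) (by simp [hil, him])
    rw [image_insert_eq, image_singleton, union_insert, union_singleton] at h1
    exact h1
  have hs4 : ∀ j i l m, j ≠ i → j ≠ l → j ≠ m →
      s j ∈ En L (insert (s i) (insert (s l) (insert (s m) A))) r := by
    intro j i l m hji hjl hjm
    have h1 := fr_any' hC h hs2 j (J := {i, l, m}) (toFinite _) (by simp [hji, hjl, hjm])
    rw [image_insert_eq, image_insert_eq, image_singleton, union_insert, union_insert,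
      union_singleton] at h1
    exact h1
  -- the pairs
  have hpair : ∀ i j, i < k → Sq L A (Sum.elim (s1 a) (s1 c)) (Sum.elim (s1 (s i)) (s1 (s (k + j)))) := by
    intro i j hi
    obtain ⟨c', hc'⟩ := sq_ext hC h.fin.countable (hrow i hi) (s1 c)
    rw [← s1_eq c'] at hc'
    have h1 : c' 0 ∈ En L (insert (s i) A) r :=
      (e_mv1 hC h.gt h.inv Subset.rfl h.fin (sq_swap hc')).1 hca
    have h2 := fr_a hC h (hsA i) h1 (hs1 i (k + j) (by omega))
      (sq_trans (sq_symm (sq_right hc')) (hcol j))
    have h3 := sq_mono (subset_insert (s i) A) (sq_add h2 (s1 (s i)) (fun _ => Or.inl rfl))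
    exact sq_trans hc' (sq_swap h3)
  have hex : ∀ (i j : Fin k), ∃ z : U, Sq L A (Sum.elim (s1 y) (Sum.elim (s1 a) (s1 c)))
      (Sum.elim (s1 z) (Sum.elim (s1 (s i)) (s1 (s (k + j))))) := by
    intro i j
    obtain ⟨z, hz⟩ := sq_ext hC h.fin.countable (hpair i j i.2) (s1 y)
    rw [← s1_eq z] at hz
    exact ⟨z 0, sq_swap hz⟩
  choose z hz using hex
  refine hk ⟨fun i => s1 (s i), fun j => s1 (s (k + j)), z, fun i j l m => ⟨fun h1 => ?_, ?_⟩⟩
  swap
  · rintro ⟨rfl, rfl⟩
    exact hE.eqv.symm (hz i j E hE)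
  by_contra hcon
  -- the position of the code `z l m`
  have T1 : z l m ∉ En L (insert (s l) (insert (s (k + m)) A)) r := by
    intro h2
    have h3 := e_mv hC h.gt h.inv Subset.rfl h.fin (hz l m)
    rw [hrg, hrg] at h3
    exact hn (h3.2 h2)
  have T2 : z l m ∈ En L (insert (s l) A) r := by
    refine (e_mv1 hC h.gt h.inv Subset.rfl h.fin (c := a) (y := y) ?_).1 hya
    refine sq_cov (hz l m) ?_
    rintro (t | t)
    · exact ⟨Sum.inl t, rfl, rfl⟩
    · exact ⟨Sum.inr (Sum.inl t), rfl, rfl⟩
  have T3 : z l m ∈ En L (insert (s (k + m)) A) r := by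
    refine (e_mv1 hC h.gt h.inv Subset.rfl h.fin (c := c) (y := y) ?_).1 hyc
    refine sq_cov (hz l m) ?_
    rintro (t | t)
    · exact ⟨Sum.inl t, rfl, rfl⟩
    · exact ⟨Sum.inr (Sum.inr t), rfl, rfl⟩
  have T4 : z l m ∈ En L A r := fr_mono hC h Subset.rfl (subset_insert _ A) (h.fin.insert _) T2
  have hDf : (insert (s l) (insert (s (k + m)) A)).Finite := (h.fin.insert _).insert _
  have hDs : A ⊆ insert (s l) (insert (s (k + m)) A) := (subset_insert _ A).trans (subset_insert _ _)
  have hD := fr_up h hDs hDf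
  have hDz := fr_add hC hD T1
  have hil : (l : ℕ) < k := l.2
  have claim : z l m ∈ En L (insert (s i) (insert (s (k + j)) A)) r := by
    by_cases hi : i = l
    · subst hi
      have hj : j ≠ m := fun h => hcon ⟨rfl, h⟩
      have hj' : (j : ℕ) ≠ m := fun h => hj (Fin.ext h)
      have h2 := hs3 (k + j) i (k + m) (by have := i.2; omega) (by omega)
      rw [← hDz] at h2
      have h3 : s (k + j) ∈ En L (insert (z i m) (insert (s i) A)) r := by
        refine fr_mono hC h ((subset_insert _ A).trans (subset_insert _ _)) ?_ (hDf.insert _) h2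
        exact insert_subset_insert (insert_subset_insert (subset_insert _ A))
      have h4 := fr_sym hC (fr_up h (subset_insert (s i) A) (h.fin.insert _)) T2 h3
      rw [insert_comm] at h4
      exact h4
    · have hi' : (i : ℕ) ≠ l := fun h => hi (Fin.ext h)
      have h2 := hs3 i l (k + m) hi' (by have := i.2; omega)
      have h2' : s i ∈ En L (insert (z l m) (insert (s l) (insert (s (k + m)) A))) r := by
        rw [hDz]
        exact h2
      by_cases hj : j = m
      · subst hj
        have h3 : s i ∈ En L (insert (z l j) (insert (s (k + j)) A)) r := by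
          refine fr_mono hC h ((subset_insert _ A).trans (subset_insert _ _)) ?_ (hDf.insert _) h2'
          exact insert_subset_insert (subset_insert _ _)
        exact fr_sym hC (fr_up h (subset_insert _ A) (h.fin.insert _)) T3 h3
      · have hj' : (j : ℕ) ≠ m := fun h => hj (Fin.ext h)
        have h3 := hs4 (k + j) i l (k + m) (by have := i.2; omega) (by omega) (by omega)
        have h4 : z l m ∉ En L (insert (s i) (insert (s l) (insert (s (k + m)) A))) r := fun h5 =>
          T1 (fr_mono hC h hDs (subset_insert _ _) (hDf.insert _) h5)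
        have h5 := fr_add hC (fr_up h (hDs.trans (subset_insert _ _)) (hDf.insert _)) h4
        rw [← h5] at h3
        have h6 : s (k + j) ∈ En L (insert (z l m) (insert (s i) A)) r := by
          refine fr_mono hC h ((subset_insert _ A).trans (subset_insert _ _)) ?_
            ((hDf.insert _).insert _) h3
          exact insert_subset_insert (insert_subset_insert hDs)
        have h7 : s i ∈ En L (insert (z l m) A) r :=
          fr_mono hC h (subset_insert _ A) (insert_subset_insert hDs) (hDf.insert _) h2'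
        have h8 := fr_sym hC h T4 h7
        have h9 := fr_sym hC (fr_up h (subset_insert (s i) A) (h.fin.insert _)) h8 h6
        rw [insert_comm] at h9
        exact h9
  -- contradiction
  obtain ⟨y', hy'⟩ := sq_ext hC h.fin.countable (hpair i j i.2) (s1 y₀)
  rw [← s1_eq y'] at hy'
  have h2 : y' 0 ∈ En L (insert (s i) (insert (s (k + j)) A)) r := by
    have h3 := e_mv hC h.gt h.inv Subset.rfl h.fin (sq_swap hy')
    rw [hrg, hrg] at h3
    exact h3.1 hy₀e
  have h3 : Sq L A (s1 (y' 0)) (s1 (z l m)) :=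
    sq_trans (sq_symm (sq_right hy')) (sq_trans (sq_symm hy₀) (sq_left (hz l m)))
  have h4 := fr_a' hC h (W := range (Sum.elim (s1 (s i)) (s1 (s (k + j))))) (finite_range _)
    (by rw [hrg]; exact h2) (by rw [hrg]; exact claim) h3
  have h5 := sq_mono subset_union_left (sq_add h4 (Sum.elim (s1 (s i)) (s1 (s (k + j))))
    (fun t => Or.inr ⟨t, rfl⟩))
  exact hEne (hE.eqv.trans (hE.eqv.symm h1) (hE.eqv.symm (sq_trans (sq_swap hy') h5 E hE)))

/-- (c) -/
theorem fr_cg (hC : Cz L U) (h : Fr0 L A r) {a c y : U}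
    (hya : y ∈ En L (insert a A) r) (hyc : y ∈ En L (insert c A) r) :
    y ∈ En L (insert a (insert c A)) r := by
  by_cases hc : c ∈ En L A r
  · by_cases ha : a ∈ En L A r
    · exact fr_c hC h ha hc hya hyc
    · have h1 := fr_up h (subset_insert c A) (h.fin.insert c)
      rw [fr_add hC h1 fun h2 => ha (fr_mono hC h Subset.rfl (subset_insert c A) (h.fin.insert c) h2)]
      exact hyc
  · have h1 := fr_up h (subset_insert a A) (h.fin.insert a)
    rw [insert_comm, fr_add hC h1 fun h2 => hc (fr_mono hC h Subset.rfl (subset_insert a A)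
      (h.fin.insert a) h2)]
    exact hya

/-- (c') for finite sets -/
theorem fr_c' (hC : Cz L U) {W : Set U} (hW : W.Finite) : ∀ {A : Set U}, Fr0 L A r → ∀ {y : U},
    y ∈ En L A r → (∀ w ∈ W, y ∈ En L (insert w A) r) → y ∈ En L (A ∪ W) r := by
  induction W, hW using Set.Finite.induction_on with
  | empty =>
    intro A h y hy _
    rw [union_empty]
    exact hy
  | @insert w W _ hW ih =>
    intro A h y hy hw
    have h1 := ih (fr_up h (subset_insert w A) (h.fin.insert w)) (hw w (mem_insert w W))
      (fun v hv => fr_cg hC h (hw v (mem_insert_of_mem w hv)) (hw w (mem_insert w W)))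
    have e : A ∪ insert w W = insert w A ∪ W := by
      rw [union_insert, insert_union]
    rw [e]
    exact h1

/-- (d) tuples with the same strong type over `A` in the end over `A a` -/
theorem fr_d (hC : Cz L U) (h : Fr0 L A r) {α : Type} [Finite α] {u u' : α → U} {a : U}
    (hu : ∀ i, u i ∈ En L (insert a A) r) (hu' : ∀ i, u' i ∈ En L (insert a A) r) (hs : Sq L A u u') :
    Sq L (insert a A) u u' := by
  by_cases ha : a ∈ En L A r
  · refine e_sta hC h.gt h.nal h.inv Subset.rfl h.fin hs ?_
    rw [union_assoc]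
    refine fr_c' hC ((finite_range _).union (finite_range _)) h ha ?_
    rintro w (⟨i, rfl⟩ | ⟨i, rfl⟩)
    · exact fr_sym hC h ha (hu i)
    · exact fr_sym hC h ha (hu' i)
  · rw [fr_add hC h ha] at hu hu'
    have h3 := of (w := s1 a) hC h.fin Subset.rfl (e_bf hC h.gt h.inv Subset.rfl h.fin)
      (u := u) (u' := u') hu hs (fun j => ha)
    rw [range_s1, union_singleton] at h3
    exact h3

/-- (d') for finite sets -/
theorem fr_d' (hC : Cz L U) (h : Fr0 L A r) {W : Set U} (hW : W.Finite) {α : Type} [Finite α]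
    {u u' : α → U} (hu : ∀ i, u i ∈ En L A r) (hu' : ∀ i, u' i ∈ En L A r)
    (huW : ∀ i, ∀ w ∈ W, u i ∈ En L (insert w A) r) (huW' : ∀ i, ∀ w ∈ W, u' i ∈ En L (insert w A) r)
    (hs : Sq L A u u') : Sq L (A ∪ W) u u' := by
  induction W, hW using Set.Finite.induction_on with
  | empty =>
    rw [union_empty]
    exact hs
  | @insert w W _ hW ih =>
    have h1 := ih (fun i v hv => huW i v (mem_insert_of_mem w hv))
      (fun i v hv => huW' i v (mem_insert_of_mem w hv))
    have h2 := fr_up h (B := A ∪ W) subset_union_left (h.fin.union hW)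
    have e : A ∪ insert w W = insert w (A ∪ W) := union_insert
    rw [e]
    refine fr_d hC h2 (fun i => ?_) (fun i => ?_) h1
    · rw [← e]
      exact fr_c' hC (hW.insert w) h (hu i) (huW i)
    · rw [← e]
      exact fr_c' hC (hW.insert w) h (hu' i) (huW' i)

/-- elements of the end are not algebraic -/
theorem fr_na (hC : Cz L U) (h : Fr0 L A r) {y : U} (hy : y ∈ En L A r) :
    ∃ y₂, y₂ ≠ y ∧ Sq L A (s1 y) (s1 y₂) := by
  obtain ⟨y₂, hs, he⟩ := e_rea (C := insert y A) hC h.gt h.nal h.inv Subset.rfl (subset_insert y A)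
    (h.fin.insert y) hy
  refine ⟨y₂, ?_, hs⟩
  rintro rfl
  exact e_par hC h.gt h.nal h.inv (subset_insert y₂ A) (h.fin.insert y₂) (mem_insert y₂ A) he

/-- all ends of the piece are the same -/
theorem fr_une (hC : Cz L U) (h : Fr0 L A r) {p : ((Fin 1 → U) → Prop) → Prop} (hp : GT L p)
    (hN : Nal p) (hI : Inv L A p) {y : U} (hy : y ∈ En L A r) (hyp : Ets L A (s1 y) p) {B : Set U}
    (hAB : A ⊆ B) (hB : B.Finite) : En L B p = En L B r := by
  refine k_UNE L U hC r p h.gt h.nal hp hN A h.fin h.inv hI h.n0 ?_ B hAB hB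
  rw [← e_pc hC hp hN hI Subset.rfl h.fin hyp, e_eq hC h.gt h.nal h.inv Subset.rfl h.fin hy]

end frb

end Pool.Agent.TPY
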