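import Pool.Agent.TPY.Defs

/-!
# TPY (port of TPX), frame, part 1: saturation, extension property, invariant types, bounded relations
-/

set_option autoImplicit false
set_option linter.unusedVariables false

namespace Pool.Agent.TPY

open FirstOrder.Language Set
open scoped FirstOrder
open Pool.Agent.MNO

variable {L : FirstOrder.Language.{0, 0}} {U : Type} [L.Structure U]

/-! ### saturation -/

/-- a countable set is the range of a tuple with a countable index type -/
theorem exists_cenum {B : Set U} (hB : B.Countable) :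
    ∃ (κ : Type) (_ : Countable κ) (b : κ → U), range b = B := by
  have : Countable B := hB.to_subtype
  refine ⟨B, this, fun b => b, ?_⟩
  ext x
  constructor
  · rintro ⟨y, rfl⟩
    exact y.2
  · intro hx
    exact ⟨⟨x, hx⟩, rfl⟩

/-- saturation for properties of tuples, with countably many parameters -/
theorem sat_dp (hC : Cz L U) {α : Type} [Countable α] {B : Set U} (hB : B.Countable)
    {F : Set ((α → U) → Prop)} (hF : ∀ P ∈ F, Dp L B P)
    (h : ∀ G ⊆ F, G.Finite → ∃ v, ∀ P ∈ G, P v) : ∃ v, ∀ P ∈ F, P v := by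
  obtain ⟨κ, _, b, rfl⟩ := exists_cenum hB
  have h1 := hC.sat α κ b
    {φ : L.Formula (α ⊕ κ) | ∃ P ∈ F, ∀ v, P v ↔ φ.Realize (Sum.elim v b)} (by
      intro G hG hfin
      have h2 : ∀ φ : L.Formula (α ⊕ κ), ∃ P : (α → U) → Prop, φ ∈ G →
          P ∈ F ∧ ∀ v, P v ↔ φ.Realize (Sum.elim v b) := by
        intro φ
        by_cases hφ : φ ∈ G
        · obtain ⟨P, hP, hP'⟩ := hG hφ
          exact ⟨P, fun _ => ⟨hP, hP'⟩⟩
        · exact ⟨fun _ => True, fun h => absurd h hφ⟩
      choose p hp using h2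
      obtain ⟨v, hv⟩ := h (p '' G) (by
        rintro _ ⟨φ, hφ, rfl⟩
        exact (hp φ hφ).1) (hfin.image p)
      exact ⟨v, fun φ hφ => ((hp φ hφ).2 v).1 (hv _ (mem_image_of_mem p hφ))⟩)
  obtain ⟨v, hv⟩ := h1
  refine ⟨v, fun P hP => ?_⟩
  obtain ⟨φ, hφ⟩ := dp_form0 (hF P hP)
  exact (hφ v).2 (hv φ ⟨P, hP, hφ⟩)

/-- there are countably many definable properties -/
theorem dp_cnt (hC : Cz L U) {α : Type} [Countable α] {B : Set U} (hB : B.Countable) :
    {P : (α → U) → Prop | Dp L B P}.Countable := by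
  have : Countable B := hB.to_subtype
  have : Countable L.Symbols := hC.ctL
  refine (countable_range (fun (φ : L.Formula (B ⊕ α)) (v : α → U) =>
    φ.Realize (Sum.elim (fun a : B => (a : U)) v))).mono ?_
  intro P hP
  obtain ⟨φ, hφ⟩ := dp_form hP
  exact ⟨φ, funext fun v => propext (hφ v).symm⟩

theorem fe_cnt (hC : Cz L U) {α : Type} [Countable α] {B : Set U} (hB : B.Countable) :
    {E : (α → U) → (α → U) → Prop | FE L B E}.Countable := by
  have h1 := dp_cnt (α := α ⊕ α) hC hB
  have h2 : {E : (α → U) → (α → U) → Prop | FE L B E} ⊆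
      (fun (P : (α ⊕ α → U) → Prop) (x y : α → U) => P (Sum.elim x y)) ''
        {P : (α ⊕ α → U) → Prop | Dp L B P} := by
    intro E hE
    exact ⟨_, hE.dfn, rfl⟩
  exact (h1.image _).mono h2

/-- the definable class of a finite equivalence relation -/
theorem fe_cls {α : Type} [Finite α] {A : Set U} {E : (α → U) → (α → U) → Prop} (hE : FE L A E)
    (a : α → U) : Dp L (A ∪ range a) (fun x => E x a) :=
  dp_congr (fe_def hE a) fun x => ⟨fun h => hE.eqv.symm h, fun h => hE.eqv.symm h⟩

/-! ### global types -/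

section types

variable {α : Type} {r : ((α → U) → Prop) → Prop}

theorem gt_mono (hr : GT L r) {P Q : (α → U) → Prop} (hP : r P) (hQ : Dp L (univ : Set U) Q)
    (h : ∀ x, P x → Q x) : r Q := by
  rcases hr.max Q hQ with h1 | h1
  · exact h1
  · obtain ⟨x, hx, hx'⟩ := hr.ne _ (hr.and _ _ hP h1)
    exact absurd (h x hx) hx'

theorem gt_not (hr : GT L r) {P : (α → U) → Prop} (hP : Dp L (univ : Set U) P) :
    r (fun x => ¬ P x) ↔ ¬ r P := by
  constructor
  · intro h h'
    obtain ⟨x, hx, hx'⟩ := hr.ne _ (hr.and _ _ h' h)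
    exact hx' hx
  · intro h
    rcases hr.max P hP with h1 | h1
    · exact absurd h1 h
    · exact h1

theorem gt_and (hr : GT L r) {P Q : (α → U) → Prop} (hP : Dp L (univ : Set U) P)
    (hQ : Dp L (univ : Set U) Q) : r (fun x => P x ∧ Q x) ↔ r P ∧ r Q :=
  ⟨fun h => ⟨gt_mono hr h hP fun x hx => hx.1, gt_mono hr h hQ fun x hx => hx.2⟩,
    fun h => hr.and _ _ h.1 h.2⟩

theorem gt_true (hr : GT L r) : r (fun _ => True) := by
  rcases hr.max (fun _ => True) dp_true with h | h
  · exact h
  · obtain ⟨x, hx⟩ := hr.ne _ h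
    exact absurd trivial hx

theorem gt_all (hr : GT L r) {G : Set ((α → U) → Prop)} (hG : G.Finite) (h : ∀ P ∈ G, r P) :
    r (fun x => ∀ P ∈ G, P x) := by
  induction G, hG using Set.Finite.induction_on with
  | empty => exact gt_mono hr (gt_true hr) (dp_ball finite_empty (fun i hi => absurd hi (notMem_empty _))) (fun x _ P hP => absurd hP (notMem_empty _))
  | @insert a t _ ht ih =>
    have h1 := ih fun P hP => h P (mem_insert_of_mem a hP)
    refine gt_mono hr (hr.and _ _ (h a (mem_insert a t)) h1) (dp_ball (ht.insert a) (fun P hP => hr.dfn P (h P hP))) ?_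
    rintro x ⟨h2, h3⟩ P (rfl | hP)
    · exact h2
    · exact h3 P hP

/-- one of finitely many -/
theorem gt_ex (hr : GT L r) {ι : Type} {s : Set ι} (hs : s.Finite) {P : ι → (α → U) → Prop}
    (hP : ∀ i ∈ s, Dp L (univ : Set U) (P i)) (h : r (fun x => ∃ i ∈ s, P i x)) :
    ∃ i ∈ s, r (P i) := by
  by_contra hcon
  push Not at hcon
  have h1 : r (fun x => ∀ Q ∈ (fun i => fun x => ¬ P i x) '' s, Q x) := by
    refine gt_all hr (hs.image _) ?_
    rintro _ ⟨i, hi, rfl⟩
    exact (gt_not hr (hP i hi)).2 (hcon i hi)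
  obtain ⟨x, ⟨i, hi, hx⟩, hx'⟩ := hr.ne _ (hr.and _ _ h h1)
  exact hx' _ ⟨i, hi, rfl⟩ hx

/-- a class of a finite equivalence relation belongs to a global type -/
theorem gt_fe (hr : GT L r) [Finite α] {A : Set U} {E : (α → U) → (α → U) → Prop} (hE : FE L A E) :
    ∃ a, r (fun x => E x a) := by
  obtain ⟨s, hs, hs'⟩ := hE.fin
  obtain ⟨a, -, ha⟩ := gt_ex hr hs (P := fun a x => E x a)
    (fun a _ => dp_mono (subset_univ _) (fe_cls hE a))
    (gt_mono hr (gt_true hr) (dp_bex hs fun a _ => dp_mono (subset_univ _) (fe_cls hE a))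
      (fun x _ => hs' x))
  exact ⟨a, ha⟩

/-- a global type is realised over any countable set, together with its strong type -/
theorem gt_real (hC : Cz L U) [Finite α] (hr : GT L r) {B : Set U} (hB : B.Countable) :
    ∃ u, ∀ E, FE L B E → r (fun x => E x u) := by
  have h1 : ∀ E : (α → U) → (α → U) → Prop, ∃ a : α → U, FE L B E → r (fun x => E x a) := by
    intro E
    by_cases hE : FE L B E
    · obtain ⟨a, ha⟩ := gt_fe hr hE
      exact ⟨a, fun _ => ha⟩
    · obtain ⟨x⟩ := hC.ne
      exact ⟨fun _ => x, fun h => absurd h hE⟩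
  choose a ha using h1
  set D : Set U := B ∪ ⋃ E ∈ {E : (α → U) → (α → U) → Prop | FE L B E}, range (a E) with hD
  have hDc : D.Countable := by
    refine hB.union ((fe_cnt hC hB).biUnion fun E _ => countable_range _)
  obtain ⟨u, hu⟩ := sat_dp hC hDc
    (F := {P | ∃ E, FE L B E ∧ P = fun x => E x (a E)}) (by
      rintro P ⟨E, hE, rfl⟩
      refine dp_mono ?_ (fe_cls hE (a E))
      refine union_subset_union_right B ?_
      intro x hx
      exact mem_biUnion (show E ∈ {E | FE L B E} from hE) hx) (by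
      intro G hG hfin
      have h2 := gt_all hr hfin (fun P hP => by
        obtain ⟨E, hE, rfl⟩ := hG hP
        exact ha E hE)
      exact hr.ne _ h2)
  refine ⟨u, fun E hE => ?_⟩
  have h3 : E u (a E) := hu _ ⟨E, hE, rfl⟩
  refine gt_mono hr (ha E hE) (dp_mono (subset_univ _) (fe_cls hE u)) fun x hx => ?_
  exact hE.eqv.trans hx (hE.eqv.symm h3)

/-- `u` realises the definable properties of `r` -/
theorem real_dp (hr : GT L r) {B : Set U} {u : α → U} (hu : ∀ E, FE L B E → r (fun x => E x u))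
    {P : (α → U) → Prop} (hP : Dp L B P) : r P ↔ P u := by
  have h1 := hu _ (fe_of_dp hP)
  constructor
  · intro h
    obtain ⟨x, hx, hx'⟩ := hr.ne _ (hr.and _ _ h h1)
    exact hx'.1 hx
  · intro h
    exact gt_mono hr h1 (dp_mono (subset_univ _) hP) fun x hx => hx.2 h

end types

/-! ### the extension property -/

/-- the trace of a finite equivalence relation on the first variables -/
theorem fe_proj {α β : Type} [Finite α] [Finite β] {A : Set U}
    {E : (α ⊕ β → U) → (α ⊕ β → U) → Prop} (hE : FE L A E) :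
    FE L A (fun u v : α → U => ∀ d : α ⊕ β → U,
      (∃ c : β → U, E (Sum.elim u c) d) ↔ ∃ c : β → U, E (Sum.elim v c) d) := by
  refine ⟨?_, ⟨fun _ _ => Iff.rfl, fun h d => (h d).symm, fun h h' d => (h d).trans (h' d)⟩, ?_⟩
  · -- definability
    have h1 : ∀ f : α → (α ⊕ α) ⊕ (α ⊕ β),
        Dp L A (fun v : (α ⊕ α) ⊕ (α ⊕ β) → U => ∃ c : β → U,
          E (Sum.elim (fun i => v (f i)) c) (fun i => v (Sum.inr i))) := by
      intro f
      have h2 : Dp L A (fun v : ((α ⊕ α) ⊕ (α ⊕ β)) ⊕ β → U =>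
          E (Sum.elim (fun i => v (Sum.inl (f i))) (fun j => v (Sum.inr j)))
            (fun i => v (Sum.inl (Sum.inr i)))) := by
        have h3 := dp_sub hE.dfn (Sum.elim
          (Sum.elim (fun i => Sum.inl (f i)) (fun j => Sum.inr j))
          (fun i => Sum.inl (Sum.inr i)) : (α ⊕ β) ⊕ (α ⊕ β) → ((α ⊕ α) ⊕ (α ⊕ β)) ⊕ β)
        refine dp_congr h3 fun v => iff_of_eq ?_
        congr 1
        funext i
        rcases i with i | i <;> rfl
      exact dp_ex h2
    have h4 := dp_all (dp_iff (h1 (fun i => Sum.inl (Sum.inl i))) (h1 (fun i => Sum.inl (Sum.inr i))))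
    exact h4
  · obtain ⟨s, hs, hs'⟩ := hE.fin
    -- the class of `u` is given by a subset of `s`
    classical
    let t : (α → U) → Set (α ⊕ β → U) := fun u => {d | d ∈ s ∧ ∃ c : β → U, E (Sum.elim u c) d}
    have ht : (range t).Finite := (hs.powerset).subset (by
      rintro _ ⟨u, rfl⟩
      exact fun d hd => hd.1)
    obtain ⟨w, hw, hw'⟩ : ∃ w : Set (α → U), w.Finite ∧ ∀ u, ∃ v ∈ w, t u = t v := by
      obtain ⟨w, -, hw⟩ := exists_subset_bijOn (univ : Set (α → U)) t
      refine ⟨w, Set.Finite.of_finite_image (by rw [hw.image_eq, image_univ]; exact ht) hw.injOn,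
        fun u => ?_⟩
      have h5 : t u ∈ t '' w := by
        rw [hw.image_eq]
        exact ⟨u, mem_univ u, rfl⟩
      obtain ⟨v, hv, e⟩ := h5
      exact ⟨v, hv, e.symm⟩
    refine ⟨w, hw, fun u => ?_⟩
    obtain ⟨v, hv, e⟩ := hw' u
    refine ⟨v, hv, fun d => ?_⟩
    obtain ⟨d', hd', hdd'⟩ := hs' d
    have h6 : ∀ z : α → U, (∃ c : β → U, E (Sum.elim z c) d) ↔ d' ∈ t z := by
      intro z
      constructor
      · rintro ⟨c, hc⟩
        exact ⟨hd', c, hE.eqv.trans hc hdd'⟩
      · rintro ⟨-, c, hc⟩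
        exact ⟨c, hE.eqv.trans hc (hE.eqv.symm hdd')⟩
    rw [h6 u, h6 v, e]

/-- the extension property of strong types -/
theorem sq_ext (hC : Cz L U) {α β : Type} [Finite α] [Finite β] {A : Set U} (hA : A.Countable)
    {u u' : α → U} (h : Sq L A u u') (c : β → U) :
    ∃ c' : β → U, Sq L A (Sum.elim u c) (Sum.elim u' c') := by
  have hB : (A ∪ range u' ∪ range (Sum.elim u c)).Countable :=
    (hA.union (countable_range _)).union (countable_range _)
  obtain ⟨c', hc'⟩ := sat_dp hC hB
    (F := {P : (β → U) → Prop | ∃ E, FE L A E ∧ P = fun x => E (Sum.elim u' x) (Sum.elim u c)}) (by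
      rintro P ⟨E, hE, rfl⟩
      have h1 := fe_cls hE (Sum.elim u c)
      have h2 : Dp L (A ∪ range u' ∪ range (Sum.elim u c)) (fun v : β ⊕ α → U =>
          E (fun i => v (Sum.swap i)) (Sum.elim u c)) :=
        dp_mono (union_subset_union_left _ subset_union_left) (dp_sub h1 Sum.swap)
      have h3 := dp_par h2 u' (fun i => Or.inl (Or.inr ⟨i, rfl⟩))
      refine dp_congr h3 fun v => iff_of_eq ?_
      congr 1
      funext i
      rcases i with i | i <;> rfl) (by
      intro G hG hfin
      have h2 : ∀ P : (β → U) → Prop, ∃ E, FE L A E ∧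
          ((∃ E, FE L A E ∧ P = fun x => E (Sum.elim u' x) (Sum.elim u c)) →
            P = fun x => E (Sum.elim u' x) (Sum.elim u c)) := by
        intro P
        by_cases hP : ∃ E, FE L A E ∧ P = fun x => E (Sum.elim u' x) (Sum.elim u c)
        · obtain ⟨E, hE, hE'⟩ := hP
          exact ⟨E, hE, fun _ => hE'⟩
        · exact ⟨_, fe_top A, fun h' => absurd h' hP⟩
      choose e he he' using h2
      obtain ⟨E, hE, hE'⟩ := fe_inf (A := A) (G := e '' G) (hfin.image e) (by
        rintro _ ⟨t, _, rfl⟩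
        exact he t)
      obtain ⟨x, hx⟩ := (h _ (fe_proj hE) (Sum.elim u c)).1 ⟨c, hE.eqv.refl _⟩
      refine ⟨x, fun P hP => ?_⟩
      rw [he' P (hG hP)]
      exact hE' (e P) ⟨P, hP, rfl⟩ _ _ hx)
  exact ⟨c', fun E hE => hE.eqv.symm (hc' _ ⟨E, hE, rfl⟩)⟩

end Pool.Agent.TPY
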