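import Pool.Agent.TPY.Fr2

/-!
# TPY (port of TPX), frame, part 3: the Boolean algebra `B_A` and the pieces
-/

set_option autoImplicit false
set_option linter.unusedVariables false

namespace Pool.Agent.TPY

open FirstOrder.Language Set
open scoped FirstOrder
open Pool.Agent.MNO

variable {L : FirstOrder.Language.{0, 0}} {U : Type} [L.Structure U]

section bf

variable {A B Q R : Set U} {α β γ : Type}

theorem sq_s1 {A : Set U} {u u' : α → U} (h : Sq L A u u') (i : α) :
    Sq L A (s1 (u i)) (s1 (u' i)) := sq_sub h (fun _ : Fin 1 => i)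

/-- coordinates of tuples with the same strong type -/
theorem bf_inv (hQ : BF L A Q) {u u' : α → U} (h : Sq L A u u') (i : α) : u i ∈ Q ↔ u' i ∈ Q :=
  ⟨fun h1 => hQ.inv _ _ (sq_s1 h i) h1, fun h1 => hQ.inv _ _ (sq_symm (sq_s1 h i)) h1⟩

theorem bf_inv1 (hQ : BF L A Q) {x y : U} (h : Sq L A (s1 x) (s1 y)) : x ∈ Q ↔ y ∈ Q :=
  ⟨fun h1 => hQ.inv _ _ h h1, fun h1 => hQ.inv _ _ (sq_symm h) h1⟩

theorem bf_prd [Finite α] [Finite β] (hQ : BF L A Q) {u u' : α → U} {w : β → U}
    (hu : ∀ i, u i ∈ Q) (hw : ∀ j, w j ∉ Q) (h : Sq L A u u') :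
    Sq L A (Sum.elim u w) (Sum.elim u' w) := by
  obtain ⟨m, ⟨e⟩⟩ := Finite.exists_equiv_fin α
  obtain ⟨n, ⟨f⟩⟩ := Finite.exists_equiv_fin β
  have h1 := hQ.prd m n (fun i => u (e.symm i)) (fun i => u' (e.symm i)) (fun j => w (f.symm j))
    (fun i => hu _) (fun i => (bf_inv hQ h _).1 (hu _)) (fun j => hw _) (sq_sub h _)
  have h2 := sq_sub h1 (Sum.map e f : α ⊕ β → Fin m ⊕ Fin n)
  have e1 : ∀ u : α → U, (fun i => Sum.elim (fun i => u (e.symm i)) (fun j => w (f.symm j))
      (Sum.map e f i)) = Sum.elim u w := by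
    intro u
    funext i
    rcases i with i | i
    · show u (e.symm (e i)) = u i
      rw [e.symm_apply_apply]
    · show w (f.symm (f i)) = w i
      rw [f.symm_apply_apply]
  rw [e1, e1] at h2
  exact h2

theorem bf_univ : BF L A (univ : Set U) := by
  refine ⟨fun _ _ _ _ => mem_univ _, fun m n u u' w _ _ hw h => ?_⟩
  intro E hE
  rcases Nat.eq_zero_or_pos n with rfl | hn
  · have h1 := sq_sub h (fun i : Fin m ⊕ Fin 0 => Sum.elim id (fun j => j.elim0) i)
    have e : ∀ u : Fin m → U, (fun i : Fin m ⊕ Fin 0 => u (Sum.elim id (fun j => j.elim0) i)) =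
        Sum.elim u w := by
      intro u
      funext i
      rcases i with i | i
      · rfl
      · exact i.elim0
    rw [e, e] at h1
    exact h1 E hE
  · exact absurd (mem_univ _) (hw ⟨0, hn⟩)

theorem bf_compl (hC : Cz L U) (hA : A.Countable) (hQ : BF L A Q) : BF L A Qᶜ := by
  refine ⟨fun x y h hx hy => hx (hQ.inv _ _ (sq_symm h) hy), fun m n u u' w hu hu' hw h => ?_⟩
  have hw' : ∀ j, w j ∈ Q := fun j => by
    by_contra hc
    exact hw j hc
  obtain ⟨c, hc⟩ := sq_ext hC hA h w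
  -- `(u, w)` and `(u', c)`; now `c` and `w` have the same strong type in `Q`
  have h1 : Sq L A c w := sq_symm (sq_right hc)
  have h2 := bf_prd hQ (u := c) (u' := w) (w := u') (fun j => (bf_inv hQ h1 j).2 (hw' j)) hu' h1
  exact sq_trans hc (sq_swap h2)

/-- splitting a tuple -/
theorem sq_split {u u' : α → U} {v v' : β → U} (P : β → Prop)
    (h : Sq L A (Sum.elim (Sum.elim u (fun j : {j // P j} => v j)) (fun j : {j // ¬ P j} => v j))
      (Sum.elim (Sum.elim u' (fun j : {j // P j} => v' j)) (fun j : {j // ¬ P j} => v' j))) :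
    Sq L A (Sum.elim u v) (Sum.elim u' v') := by
  classical
  have h1 := sq_sub h (Sum.elim (fun i => Sum.inl (Sum.inl i))
    (fun j => if hj : P j then Sum.inl (Sum.inr ⟨j, hj⟩) else Sum.inr ⟨j, hj⟩) :
      α ⊕ β → (α ⊕ {j // P j}) ⊕ {j // ¬ P j})
  have e : ∀ (u : α → U) (v : β → U), (fun i => Sum.elim (Sum.elim u (fun j : {j // P j} => v j))
      (fun j : {j // ¬ P j} => v j) ((Sum.elim (fun i => Sum.inl (Sum.inl i))
    (fun j => if hj : P j then Sum.inl (Sum.inr ⟨j, hj⟩) else Sum.inr ⟨j, hj⟩) :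
      α ⊕ β → (α ⊕ {j // P j}) ⊕ {j // ¬ P j}) i)) = Sum.elim u v := by
    intro u v
    funext i
    rcases i with i | j
    · rfl
    · by_cases hj : P j
      · show Sum.elim (Sum.elim u (fun j : {j // P j} => v j)) (fun j : {j // ¬ P j} => v j)
          (if hj : P j then Sum.inl (Sum.inr ⟨j, hj⟩) else Sum.inr ⟨j, hj⟩) = v j
        rw [dif_pos hj]
        rfl
      · show Sum.elim (Sum.elim u (fun j : {j // P j} => v j)) (fun j : {j // ¬ P j} => v j)
          (if hj : P j then Sum.inl (Sum.inr ⟨j, hj⟩) else Sum.inr ⟨j, hj⟩) = v j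
        rw [dif_neg hj]
        rfl
  rw [e, e] at h1
  exact h1

theorem sq_empty [IsEmpty β] {u u' : α → U} {v v' : β → U} (h : Sq L A u u') :
    Sq L A (Sum.elim u v) (Sum.elim u' v') := by
  have h1 := sq_sub h (Sum.elim id (fun j => isEmptyElim j) : α ⊕ β → α)
  have e : ∀ (u : α → U) (v : β → U), (fun i => u ((Sum.elim id (fun j => isEmptyElim j) : α ⊕ β → α) i)) =
      Sum.elim u v := by
    intro u v
    funext i
    rcases i with i | j
    · rfl
    · exact isEmptyElim j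
  rw [e u v, e u' v'] at h1
  exact h1

theorem bf_sInter (hC : Cz L U) {S : Set (Set U)} (hS : ∀ Q ∈ S, BF L A Q) : BF L A (⋂₀ S) := by
  refine ⟨fun x y h hx Q hQ => (hS Q hQ).inv x y h (hx Q hQ), fun m n u u' w hu hu' hw h => ?_⟩
  -- induction on the number of elements of `w`
  have key : ∀ (k : ℕ) (β : Type) [Finite β], Nat.card β = k → ∀ v : β → U, (∀ j, v j ∉ ⋂₀ S) →
      Sq L A (Sum.elim u v) (Sum.elim u' v) := by
    intro k
    induction k using Nat.strong_induction_on with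
    | _ k ih =>
      intro β _ hβ v hv
      rcases isEmpty_or_nonempty β with he | ⟨⟨j₀⟩⟩
      · exact sq_empty h
      obtain ⟨Q, hQ, hvQ⟩ : ∃ Q ∈ S, v j₀ ∉ Q := by
        have h1 := hv j₀
        simpa [mem_sInter] using h1
      have hlt : Nat.card {j // v j ∈ Q} < k := by
        rw [← hβ]
        exact Finite.card_subtype_lt (p := fun j => v j ∈ Q) hvQ
      have h5 := ih _ hlt {j // v j ∈ Q} rfl (fun j => v j) (fun j => hv j)
      refine sq_split (fun j => v j ∈ Q) ?_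
      exact bf_prd (hS Q hQ) (u := Sum.elim u (fun j : {j // v j ∈ Q} => v j)) (by
        rintro (i | j)
        · exact hu i Q hQ
        · exact j.2) (fun j => j.2) h5
  exact key n (Fin n) (Nat.card_fin n) w hw

theorem bf_inter (hC : Cz L U) (hQ : BF L A Q) (hR : BF L A R) : BF L A (Q ∩ R) := by
  have h1 := bf_sInter (A := A) hC (S := {Q, R}) (by
    rintro T (hT | hT)
    · rw [hT]
      exact hQ
    · rw [mem_singleton_iff] at hT
      rw [hT]
      exact hR)
  rw [sInter_pair] at h1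
  exact h1

theorem bf_union (hC : Cz L U) (hA : A.Countable) (hQ : BF L A Q) (hR : BF L A R) :
    BF L A (Q ∪ R) := by
  have h1 := bf_compl hC hA (bf_inter hC (bf_compl hC hA hQ) (bf_compl hC hA hR))
  rw [compl_inter, compl_compl, compl_compl] at h1
  exact h1

theorem bf_diff (hC : Cz L U) (hA : A.Countable) (hQ : BF L A Q) (hR : BF L A R) :
    BF L A (Q \ R) := bf_inter hC hQ (bf_compl hC hA hR)

theorem bf_sUnion (hC : Cz L U) (hA : A.Countable) {S : Set (Set U)} (hS : ∀ Q ∈ S, BF L A Q) :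
    BF L A (⋃₀ S) := by
  have h1 := bf_compl hC hA (bf_sInter hC (S := compl '' S) (by
    rintro _ ⟨Q, hQ, rfl⟩
    exact bf_compl hC hA (hS Q hQ)))
  have e : (⋂₀ (compl '' S))ᶜ = ⋃₀ S := by
    rw [compl_sInter]
    congr 1
    ext Q
    constructor
    · rintro ⟨_, ⟨R, hR, rfl⟩, rfl⟩
      rw [compl_compl]
      exact hR
    · intro hQ
      exact ⟨Qᶜ, ⟨Q, hQ, rfl⟩, compl_compl Q⟩
  rw [e] at h1
  exact h1

/-- algebraic elements -/
theorem bf_alg {x : U} {D : U → Prop} (hD : Dp L A (fun v : Fin 1 → U => D (v 0)))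
    (hfin : {y | D y}.Finite) (hx : D x) : BF L A {x} := by
  have key : ∀ y, Sq L A (s1 x) (s1 y) → y = x := by
    intro y h
    have h1 := h (fun u v => (D (u 0) ∨ D (v 0)) → u 0 = v 0) ⟨?_, ?_, ?_⟩
    · exact (h1 (Or.inl hx)).symm
    · refine dp_imp (dp_or (dp_sub hD (fun _ => Sum.inl 0)) (dp_sub hD (fun _ => Sum.inr 0))) ?_
      exact dp_eq (Sum.inl 0) (Sum.inr 0)
    · refine ⟨fun _ _ => rfl, fun h h' => (h (h'.symm)).symm, fun {a b c} h h' h'' => ?_⟩
      rcases h'' with h2 | h2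
      · have h3 := h (Or.inl h2)
        rw [h3] at h2
        exact h3.trans (h' (Or.inl h2))
      · have h3 := h' (Or.inr h2)
        rw [← h3] at h2
        exact (h (Or.inr h2)).trans h3
    · by_cases hall : ∀ y, D y
      · have hU : (univ : Set U).Finite := by
          have e : {y | D y} = univ := by
            ext y
            simp [hall y]
          rw [← e]
          exact hfin
        have : Finite U := Set.finite_univ_iff.1 hU
        exact ⟨univ, Set.toFinite _, fun u => ⟨u, mem_univ _, fun _ => rfl⟩⟩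
      · push Not at hall
        obtain ⟨y₀, hy₀⟩ := hall
        refine ⟨s1 '' {y | D y} ∪ {s1 y₀}, (hfin.image _).union (finite_singleton _), fun u => ?_⟩
        by_cases hu : D (u 0)
        · exact ⟨s1 (u 0), Or.inl ⟨u 0, hu, rfl⟩, fun _ => rfl⟩
        · exact ⟨s1 y₀, Or.inr rfl, fun h' => h'.elim (fun h => absurd h hu) (fun h => absurd h hy₀)⟩
  refine ⟨fun a y h ha => ?_, fun m n u u' w hu hu' hw h => ?_⟩
  · rw [mem_singleton_iff] at ha
    rw [ha] at h
    exact key y h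
  · have e : u = u' := by
      funext i
      have h1 := hu i
      have h2 := hu' i
      rw [mem_singleton_iff] at h1 h2
      rw [h1, h2]
    rw [e]
    exact sq_refl A _

/-- **OF**: tuples of `Q` with the same strong type over `B` have the same strong type over `B` and any finite tuple
outside `Q` -/
theorem of (hC : Cz L U) [Finite α] [Finite β] (hB : B.Finite) (hAB : A ⊆ B) (hQ : BF L A Q)
    {u u' : α → U} (hu : ∀ i, u i ∈ Q) (h : Sq L B u u') {w : β → U} (hw : ∀ j, w j ∉ Q) :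
    Sq L (B ∪ range w) u u' := by
  intro E hE
  obtain ⟨k, hk⟩ := fe_num hE
  obtain ⟨n, b, hb⟩ := exists_enum hB
  have key : ∀ x y x' y', Sq L B u x → Sq L B u y → Sq L B (Sum.elim x y) (Sum.elim x' y') →
      E x y → E x' y' := by
    intro x y x' y' hx hy hxy hE'
    have hd : Dp L (A ∪ range (Sum.elim w b : β ⊕ Fin n → U)) (fun v : α ⊕ α → U =>
        E (fun i => v (Sum.inl i)) (fun i => v (Sum.inr i))) := by
      refine dp_mono ?_ hE.dfn
      rw [← hb]
      rintro c (⟨i, rfl⟩ | ⟨i, rfl⟩)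
      · exact Or.inr ⟨Sum.inr i, rfl⟩
      · exact Or.inr ⟨Sum.inl i, rfl⟩
    obtain ⟨Q₀, hQ₀, hQE⟩ := dp_fam hd
    -- add the parameters `b`
    have h1 := sq_mono hAB (sq_add hxy b (fun i => by rw [← hb]; exact ⟨i, rfl⟩))
    -- add `w`, with the splitting of `b`
    have hxQ : ∀ i, x i ∈ Q := fun i => (bf_inv hQ (sq_mono hAB hx) i).1 (hu i)
    have hyQ : ∀ i, y i ∈ Q := fun i => (bf_inv hQ (sq_mono hAB hy) i).1 (hu i)
    -- the part of `b` inside `Q`
    have h2 : Sq L A (Sum.elim (Sum.elim x y) (fun j : {j // b j ∈ Q} => b j))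
        (Sum.elim (Sum.elim x' y') (fun j : {j // b j ∈ Q} => b j)) := by
      have h3 := sq_sub h1 (Sum.map id (fun j : {j // b j ∈ Q} => (j : Fin n)) :
        (α ⊕ α) ⊕ {j // b j ∈ Q} → (α ⊕ α) ⊕ Fin n)
      have e : ∀ v : α ⊕ α → U, (fun i => Sum.elim v b ((Sum.map id
          (fun j : {j // b j ∈ Q} => (j : Fin n)) :
        (α ⊕ α) ⊕ {j // b j ∈ Q} → (α ⊕ α) ⊕ Fin n) i)) =
          Sum.elim v (fun j : {j // b j ∈ Q} => b j) := by
        intro v
        funext i
        rcases i with i | i <;> rfl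
      rw [e, e] at h3
      exact h3
    have h4 := bf_prd hQ (w := Sum.elim w (fun j : {j // ¬ b j ∈ Q} => b j)) (by
      rintro ((i | i) | j)
      · exact hxQ i
      · exact hyQ i
      · exact j.2) (by
      rintro (j | j)
      · exact hw j
      · exact j.2) h2
    classical
    have h5 := sq_sub h4 (Sum.elim (fun i => Sum.inl (Sum.inl i))
      (Sum.elim (fun j => Sum.inr (Sum.inl j))
        (fun j => if hj : b j ∈ Q then Sum.inl (Sum.inr ⟨j, hj⟩) else Sum.inr (Sum.inr ⟨j, hj⟩))) :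
        (α ⊕ α) ⊕ (β ⊕ Fin n) →
          ((α ⊕ α) ⊕ {j // b j ∈ Q}) ⊕ (β ⊕ {j // ¬ b j ∈ Q}))
    have e : ∀ v : α ⊕ α → U, (fun i => Sum.elim (Sum.elim v (fun j : {j // b j ∈ Q} => b j))
        (Sum.elim w (fun j : {j // ¬ b j ∈ Q} => b j))
        ((Sum.elim (fun i => Sum.inl (Sum.inl i))
      (Sum.elim (fun j => Sum.inr (Sum.inl j))
        (fun j => if hj : b j ∈ Q then Sum.inl (Sum.inr ⟨j, hj⟩) else Sum.inr (Sum.inr ⟨j, hj⟩))) :
        (α ⊕ α) ⊕ (β ⊕ Fin n) →
          ((α ⊕ α) ⊕ {j // b j ∈ Q}) ⊕ (β ⊕ {j // ¬ b j ∈ Q})) i)) =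
        Sum.elim v (Sum.elim w b) := by
      intro v
      funext i
      rcases i with i | (i | i)
      · rfl
      · rfl
      · by_cases hj : b i ∈ Q
        · show Sum.elim (Sum.elim v (fun j : {j // b j ∈ Q} => b j))
            (Sum.elim w (fun j : {j // ¬ b j ∈ Q} => b j))
            (if hj : b i ∈ Q then Sum.inl (Sum.inr ⟨i, hj⟩) else Sum.inr (Sum.inr ⟨i, hj⟩)) = b i
          rw [dif_pos hj]
          rfl
        · show Sum.elim (Sum.elim v (fun j : {j // b j ∈ Q} => b j))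
            (Sum.elim w (fun j : {j // ¬ b j ∈ Q} => b j))
            (if hj : b i ∈ Q then Sum.inl (Sum.inr ⟨i, hj⟩) else Sum.inr (Sum.inr ⟨i, hj⟩)) = b i
          rw [dif_neg hj]
          rfl
    rw [e, e] at h5
    exact (hQE (Sum.elim x' y')).2 ((sq_dp h5 hQ₀).1 ((hQE (Sum.elim x y)).1 hE'))
  exact bnd hC hB u E (fun x y _ _ h1 => hE.eqv.symm h1) (fun x y z _ _ _ h1 h2 => hE.eqv.trans h1 h2)
    key k (fun z _ => hk z) u u' (sq_refl B u) h

/-- the algebra grows with the parameters -/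
theorem bf_mono (hC : Cz L U) (hB : B.Finite) (hAB : A ⊆ B) (hQ : BF L A Q) : BF L B Q := by
  refine ⟨fun x y h hx => hQ.inv x y (sq_mono hAB h) hx, fun m n u u' w hu hu' hw h => ?_⟩
  exact sq_mono subset_union_left (sq_add (of hC hB hAB hQ hu h hw) w (fun i => Or.inr ⟨i, rfl⟩))

/-- descent: subsets of `P` in the algebra of `B`, if `P` is in the algebra of `A` and misses `B` -/
theorem bf_down (hC : Cz L U) (hA : A.Finite) (hB : B.Finite) (hAB : A ⊆ B) {P : Set U}
    (hP : BF L A P) (hd : ∀ b ∈ B, b ∉ P) (hR : BF L B R) (hRP : R ⊆ P) : BF L A R := by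
  obtain ⟨n, b, hb⟩ := exists_enum hB
  have key : ∀ {γ : Type} [Finite γ] {u u' : γ → U}, (∀ i, u i ∈ P) → Sq L A u u' → Sq L B u u' := by
    intro γ _ u u' hu h
    have h1 := of hC hA (Subset.refl A) hP hu h (w := b) (fun j => hd _ (by rw [← hb]; exact ⟨j, rfl⟩))
    refine sq_mono ?_ h1
    rw [hb]
    exact subset_union_right
  refine ⟨fun x y h hx => hR.inv x y (key (fun _ => hRP hx) h) hx, fun m n u u' w hu hu' hw h => ?_⟩
  exact sq_mono hAB (hR.prd m n u u' w hu hu' hw (key (fun i => hRP (hu i)) h))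

/-! ### pieces -/

theorem pc_bf (hC : Cz L U) (x : U) : BF L A (Pc L A x) := by
  have h1 := bf_sInter hC (S := {Q | BF L A Q ∧ x ∈ Q}) (fun Q hQ => hQ.1)
  have e : ⋂₀ {Q | BF L A Q ∧ x ∈ Q} = Pc L A x := by
    ext y
    exact ⟨fun h Q hQ hx => h Q ⟨hQ, hx⟩, fun h Q hQ => h Q hQ.1 hQ.2⟩
  rw [e] at h1
  exact h1

theorem mem_pc (x : U) : x ∈ Pc L A x := fun Q _ hx => hx

theorem pc_sub (hQ : BF L A Q) {x : U} (hx : x ∈ Q) : Pc L A x ⊆ Q := fun y hy => hy Q hQ hx

theorem pc_eq (hC : Cz L U) (hA : A.Countable) {x y : U} (h : y ∈ Pc L A x) :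
    Pc L A y = Pc L A x := by
  refine Subset.antisymm (pc_sub (pc_bf hC x) h) fun z hz Q hQ hy => ?_
  by_contra hzQ
  by_cases hxQ : x ∈ Q
  · exact hzQ (hz Q hQ hxQ)
  · exact h Qᶜ (bf_compl hC hA hQ) hxQ hy

theorem pc_symm (hC : Cz L U) (hA : A.Countable) {x y : U} (h : y ∈ Pc L A x) : x ∈ Pc L A y := by
  rw [pc_eq hC hA h]
  exact mem_pc x

/-- two pieces are equal or disjoint -/
theorem pc_disj (hC : Cz L U) (hA : A.Countable) {x y z : U} (h : z ∈ Pc L A x) (h' : z ∈ Pc L A y) :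
    Pc L A x = Pc L A y := (pc_eq hC hA h).symm.trans (pc_eq hC hA h')

/-- a member of the algebra is a union of pieces -/
theorem pc_iff (hC : Cz L U) (hA : A.Countable) (hQ : BF L A Q) {x y : U} (h : y ∈ Pc L A x) :
    x ∈ Q ↔ y ∈ Q := ⟨fun hx => h Q hQ hx, fun hy => pc_symm hC hA h Q hQ hy⟩

theorem pc_sq (hC : Cz L U) {x y : U} (h : Sq L A (s1 x) (s1 y)) : y ∈ Pc L A x :=
  fun Q hQ hx => hQ.inv x y h hx

theorem pc_mono (hC : Cz L U) (hB : B.Finite) (hAB : A ⊆ B) (x : U) : Pc L B x ⊆ Pc L A x :=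
  pc_sub (bf_mono hC hB hAB (pc_bf hC x)) (mem_pc x)

/-- **NNL**: a piece over `A` which misses `B` is a piece over `B` -/
theorem nnl (hC : Cz L U) (hA : A.Finite) (hB : B.Finite) (hAB : A ⊆ B) {x : U}
    (hd : ∀ b ∈ B, b ∉ Pc L A x) : Pc L B x = Pc L A x :=
  Subset.antisymm (pc_mono hC hB hAB x)
    (pc_sub (bf_down hC hA hB hAB (pc_bf hC x) hd (pc_bf hC x) (pc_mono hC hB hAB x)) (mem_pc x))

/-- **PROD**: strong types are determined piece by piece -/
theorem prod (hC : Cz L U) (hA : A.Countable) [Finite β] {v v' : β → U}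
    (h : ∀ j₀, Sq L A (fun j : {j // v j ∈ Pc L A (v j₀)} => v j)
      (fun j : {j // v j ∈ Pc L A (v j₀)} => v' j)) : Sq L A v v' := by
  have key : ∀ (k : ℕ) (β : Type) [Finite β], Nat.card β = k → ∀ v v' : β → U,
      (∀ j₀, Sq L A (fun j : {j // v j ∈ Pc L A (v j₀)} => v j)
        (fun j : {j // v j ∈ Pc L A (v j₀)} => v' j)) → Sq L A v v' := by
    intro k
    induction k using Nat.strong_induction_on with
    | _ k ih =>
      intro β _ hβ v v' h
      rcases isEmpty_or_nonempty β with he | ⟨⟨j₀⟩⟩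
      · have e : v = v' := funext fun j => isEmptyElim j
        rw [e]
        exact sq_refl A _
      have hlt : Nat.card {j // ¬ v j ∈ Pc L A (v j₀)} < k := by
        rw [← hβ]
        exact Finite.card_subtype_lt (p := fun j => ¬ v j ∈ Pc L A (v j₀)) (x := j₀)
          (fun h => h (mem_pc _))
      have h1 := ih _ hlt {j // ¬ v j ∈ Pc L A (v j₀)} rfl (fun j => v j) (fun j => v' j) (fun j₁ => by
        have h2 := sq_sub (h j₁) (fun j : {j : {j // ¬ v j ∈ Pc L A (v j₀)} //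
          v j ∈ Pc L A (v j₁)} => (⟨j.1.1, j.2⟩ : {j // v j ∈ Pc L A (v j₁)}))
        exact h2)
      have h3 := h j₀
      have hin : ∀ j : {j // v j ∈ Pc L A (v j₀)}, v j ∈ Pc L A (v j₀) := fun j => j.2
      have hout : ∀ j : {j // ¬ v j ∈ Pc L A (v j₀)}, v j ∉ Pc L A (v j₀) := fun j => j.2
      have hout' : ∀ j : {j // ¬ v j ∈ Pc L A (v j₀)}, v' j ∉ Pc L A (v j₀) := fun j hj =>
        hout j ((bf_inv (pc_bf hC (v j₀)) h1 j).2 hj)
      have hin' : ∀ j : {j // v j ∈ Pc L A (v j₀)}, v' j ∈ Pc L A (v j₀) := fun j =>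
        (bf_inv (pc_bf hC (v j₀)) h3 j).1 (hin j)
      have h4 := bf_prd (pc_bf hC (v j₀)) hin hout h3
      have h5 := bf_prd (bf_compl hC hA (pc_bf hC (v j₀))) (u := fun j : {j // ¬ v j ∈ Pc L A (v j₀)} => v j)
        (u' := fun j => v' j) (w := fun j : {j // v j ∈ Pc L A (v j₀)} => v' j) hout
        (fun j hj => hj (hin' j)) h1
      have h6 := sq_trans h4 (sq_swap h5)
      -- put the two parts together
      classical
      have h7 := sq_sub h6 (fun j => if hj : v j ∈ Pc L A (v j₀) then Sum.inl ⟨j, hj⟩ else Sum.inr ⟨j, hj⟩ :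
        β → {j // v j ∈ Pc L A (v j₀)} ⊕ {j // ¬ v j ∈ Pc L A (v j₀)})
      have e : ∀ t : β → U, (fun j => Sum.elim (fun j : {j // v j ∈ Pc L A (v j₀)} => t j)
          (fun j : {j // ¬ v j ∈ Pc L A (v j₀)} => t j)
          (if hj : v j ∈ Pc L A (v j₀) then Sum.inl ⟨j, hj⟩ else Sum.inr ⟨j, hj⟩)) = t := by
        intro t
        funext j
        by_cases hj : v j ∈ Pc L A (v j₀)
        · rw [dif_pos hj]
          rfl
        · rw [dif_neg hj]
          rfl
      have h8 : Sq L A (fun j => Sum.elim (fun j : {j // v j ∈ Pc L A (v j₀)} => v j)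
          (fun j : {j // ¬ v j ∈ Pc L A (v j₀)} => v j)
          (if hj : v j ∈ Pc L A (v j₀) then Sum.inl ⟨j, hj⟩ else Sum.inr ⟨j, hj⟩))
          (fun j => Sum.elim (fun j : {j // v j ∈ Pc L A (v j₀)} => v' j)
          (fun j : {j // ¬ v j ∈ Pc L A (v j₀)} => v' j)
          (if hj : v j ∈ Pc L A (v j₀) then Sum.inl ⟨j, hj⟩ else Sum.inr ⟨j, hj⟩)) := h7
      rw [e v, e v'] at h8
      exact h8
  exact key _ β rfl v v' h

/-! ### parameters, the pretree law -/

theorem bf_par {a : U} (ha : a ∈ A) : BF L A {a} := by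
  refine bf_alg (D := fun y => y = a) (dp_eqc 0 ha) ?_ rfl
  rw [ofPred_eq_eq_singleton]
  exact finite_singleton a

/-- the piece of a parameter -/
theorem pc_par {a : U} (ha : a ∈ A) : Pc L A a = {a} :=
  Subset.antisymm (pc_sub (bf_par ha) rfl) (by
    rintro x hx
    rw [mem_singleton_iff] at hx
    rw [hx]
    exact mem_pc a)

theorem par_notMem (hC : Cz L U) (hA : A.Countable) {a z : U} (ha : a ∈ A) (hz : z ∉ A) :
    a ∉ Pc L A z := by
  intro h
  have h1 := pc_symm hC hA h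
  rw [pc_par ha, mem_singleton_iff] at h1
  rw [h1] at hz
  exact hz ha

/-- **NNL** for the piece of `z ∉ A` -/
theorem nnl' (hC : Cz L U) (hA : A.Finite) (hB : B.Finite) (hAB : A ⊆ B) {z : U} (hz : z ∉ A)
    (hd : ∀ b ∈ B, b ∉ A → b ∉ Pc L A z) : Pc L B z = Pc L A z := by
  refine nnl hC hA hB hAB fun b hb => ?_
  by_cases hbA : b ∈ A
  · exact par_notMem hC hA.countable hbA hz
  · exact hd b hb hbA

/-- **NNL** for one new parameter -/
theorem nnl1 (hC : Cz L U) (hA : A.Finite) {w z : U} (hz : z ∉ A) (h : w ∉ Pc L A z) :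
    Pc L (insert w A) z = Pc L A z := by
  refine nnl' hC hA (hA.insert w) (subset_insert w A) hz ?_
  rintro b (rfl | hb) hb'
  · exact h
  · exact absurd hb hb'

/-- **the pretree law**: a piece over `A x` which misses `y` is contained in the piece over `A y` of `x`, or it is a
piece over `A y` too -/
theorem pretree (hC : Cz L U) (hA : A.Finite) {x y z : U} (hzA : z ∉ A) (hzx : z ≠ x) (hzy : z ≠ y)
    (h : y ∉ Pc L (insert x A) z) (h' : x ∉ Pc L (insert y A) z) :
    Pc L (insert x A) z = Pc L (insert y A) z := by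
  have h1 := nnl1 hC (hA.insert x) (z := z) (w := y) (by
    rintro (h2 | h2)
    · exact hzx h2
    · exact hzA h2) h
  have h3 := nnl1 hC (hA.insert y) (z := z) (w := x) (by
    rintro (h2 | h2)
    · exact hzy h2
    · exact hzA h2) h'
  rw [← h1, ← h3, insert_comm]

/-- pieces over more parameters refine -/
theorem pc_mono1 (hC : Cz L U) (hA : A.Finite) (w x : U) : Pc L (insert w A) x ⊆ Pc L A x :=
  pc_mono hC (hA.insert w) (subset_insert w A) x

/-- **OF** for pieces: `u =* u'` over `A` in one piece, `w` outside: `u =* u'` over `A w` -/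
theorem of_pc (hC : Cz L U) [Finite α] [Finite β] (hA : A.Finite) {x : U}
    {u u' : α → U} (hu : ∀ i, u i ∈ Pc L A x) (h : Sq L A u u') {w : β → U}
    (hw : ∀ j, w j ∉ Pc L A x) : Sq L (A ∪ range w) u u' :=
  of hC hA (Subset.refl A) (pc_bf hC x) hu h hw

end bf

end Pool.Agent.TPY
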