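import Pool.Agent.TPY.GBR
import Pool.Agent.TPY.Fre1

/-!
# TPY, GAP, module GFI: the GAP theorem from its modules
-/

set_option autoImplicit false
set_option linter.unusedVariables false

namespace Pool.Agent.TPY

open FirstOrder.Language Set
open scoped FirstOrder
open Pool.Agent.MNO

section

variable {L : FirstOrder.Language.{0, 0}} {U : Type} [L.Structure U]

private theorem gfi_inv {α : Type} {r : ((α → U) → Prop) → Prop} {A B : Set U} (hB : B.Finite) (hAB : A ⊆ B)
    (h : Inv L A r) : Inv L B r := by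
  intro n P hP c c' hc
  obtain ⟨m, b, hb⟩ := exists_enum hB
  have hP' : Dp L (A ∪ range b) P := dp_mono (by rw [hb]; exact subset_union_right) hP
  obtain ⟨Q, hQ, hPQ⟩ := dp_fam hP'
  -- reorder: `Q ((x, c), b)` as a property of `(x, (c, b))`
  have h1 : Dp L A (fun v : α ⊕ (Fin n ⊕ Fin m) → U =>
      Q (fun i => v (Sum.elim (Sum.elim (fun a => Sum.inl a) (fun a => Sum.inr (Sum.inl a)))
        (fun a => Sum.inr (Sum.inr a)) i))) := dp_sub hQ _
  have hsq : Sq L A (Sum.elim c b) (Sum.elim c' b) :=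
    sq_mono hAB (sq_add hc b (fun i => by rw [← hb]; exact ⟨i, rfl⟩))
  have h2 := inv_any h h1 hsq
  have e : ∀ (c : Fin n → U) (x : α → U), Q (fun i => (Sum.elim x (Sum.elim c b) : α ⊕ (Fin n ⊕ Fin m) → U)
      (Sum.elim (Sum.elim (fun a => Sum.inl a) (fun a => Sum.inr (Sum.inl a))) (fun a => Sum.inr (Sum.inr a)) i)) ↔
      P (Sum.elim x c) := by
    intro c x
    rw [hPQ]
    refine iff_of_eq ?_
    congr 1
    funext i
    rcases i with (i | i) | i <;> rfl
  simp only [e] at h2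
  exact h2

end

theorem thm_GFI (hTV : St_TIV) (hNT : St_NTI) (hLI : St_GLI) : St_GAP := by
  intro L U _ hC F z hF hz h01
  by_cases hT : Tis L F univ z
  · -- totally indiscernible
    have hT1 : Tis L F univ (fun n : ℕ => z ((n : ℚ) + 1)) := by
      intro n i j hi hj _ _
      refine hT n (fun k => ((i k : ℕ) : ℚ) + 1) (fun k => ((j k : ℕ) : ℚ) + 1) (fun a b hab => hi ?_)
        (fun a b hab => hj ?_) (fun _ => mem_univ _) (fun _ => mem_univ _)
      · have h1 : ((i a : ℕ) : ℚ) + 1 = ((i b : ℕ) : ℚ) + 1 := hab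
        have h2 : ((i a : ℕ) : ℚ) = ((i b : ℕ) : ℚ) := by linarith
        exact_mod_cast h2
      · have h1 : ((j a : ℕ) : ℚ) + 1 = ((j b : ℕ) : ℚ) + 1 := hab
        have h2 : ((j a : ℕ) : ℚ) = ((j b : ℕ) : ℚ) := by linarith
        exact_mod_cast h2
    have hne : (fun n : ℕ => z ((n : ℚ) + 1)) 0 ≠ (fun n : ℕ => z ((n : ℚ) + 1)) 1 := by
      intro he
      have h1 := tis_pat hT (κ := Fin 2) (g := ![0, 1]) (g' := ![1, 2]) (fun _ => mem_univ _) (fun _ => mem_univ _)
        (by
          intro a b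
          fin_cases a <;> fin_cases b <;> simp)
      have h2 := (tq_eq h1 0 1).2 (by
        show z 1 = z 2
        have he' : z (((0 : ℕ) : ℚ) + 1) = z (((1 : ℕ) : ℚ) + 1) := he
        have e1 : ((0 : ℕ) : ℚ) + 1 = 1 := by norm_num
        have e2 : ((1 : ℕ) : ℚ) + 1 = 2 := by norm_num
        rw [e1, e2] at he'
        exact he')
      exact h01 h2
    obtain ⟨r, hr, hN, hI, hE⟩ := hTV L U hC F _ hF hT1 hne
    have eJ : F ∪ {(fun n : ℕ => z ((n : ℚ) + 1)) 0, (fun n : ℕ => z ((n : ℚ) + 1)) 1,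
        (fun n : ℕ => z ((n : ℚ) + 1)) 2} = F ∪ z '' {1, 2, 3} := by
      have e1 : ((0 : ℕ) : ℚ) + 1 = 1 := by norm_num
      have e2 : ((1 : ℕ) : ℚ) + 1 = 2 := by norm_num
      have e3 : ((2 : ℕ) : ℚ) + 1 = 3 := by norm_num
      show F ∪ {z (((0 : ℕ) : ℚ) + 1), z (((1 : ℕ) : ℚ) + 1), z (((2 : ℕ) : ℚ) + 1)} = _
      rw [e1, e2, e3, image_insert_eq, image_insert_eq, image_singleton]
    rw [eJ] at hI hE
    have hfin : ({1, 2, 3} : Set ℚ).Finite := Set.toFinite _
    refine ⟨{1, 2, 3}, -1, 1, r, hfin, by norm_num, by norm_num, ?_, hr, hN, hI, fun i hi hi' => ?_,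
      fun h => absurd hT h⟩
    · rintro e (rfl | rfl | rfl)
      · exact Or.inr le_rfl
      · exact Or.inr (by norm_num)
      · exact Or.inr (by norm_num)
    · have h4 := hE 3 le_rfl
      have h5 : Tis L (F ∪ z '' {1, 2, 3}) ({1, 2, 3}ᶜ : Set ℚ) z :=
        tis_name hT (subset_univ _) (subset_univ _) disjoint_compl_right
      have hi1 : i ∈ ({1, 2, 3}ᶜ : Set ℚ) := by
        rintro (rfl | rfl | rfl)
        · exact lt_irrefl _ hi'
        · norm_num at hi'
        · norm_num at hi'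
      have h41 : (((3 : ℕ) : ℚ) + 1) ∈ ({1, 2, 3}ᶜ : Set ℚ) := by
        rintro (h | h | h)
        · norm_num at h
        · norm_num at h
        · rw [mem_singleton_iff] at h
          norm_num at h
      exact ets_congr hr h4 (tis_sq1 h5 hfin.infinite_compl h41 hi1)
  · obtain ⟨J, hJ, hJ4, hord⟩ := hNT L U hC F z hz hT
    have hF' : (F ∪ z '' J).Finite := hF.union (hJ.image z)
    have hGH : GH L (F ∪ z '' J) z := by
      refine ⟨hF', ?_, hord⟩
      refine ids_name hz (subset_univ _) (subset_univ _) fun e he => ?_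
      rcases hJ4 e he with h' | h'
      · exact Or.inr fun s hs => lt_of_le_of_lt h' hs.1
      · exact Or.inl fun s hs => lt_of_lt_of_le hs.2 h'
    obtain ⟨p, hp, hN, hI, hE, hNF, hlt⟩ := hLI L U hC _ z hGH
    have eJ : F ∪ z '' (J ∪ {-3, -1, -1/2, 1, 3}) = insert (z (-1/2)) (G1 (F ∪ z '' J) z) := by
      unfold G1 G0
      rw [image_union, image_insert_eq, image_insert_eq, image_insert_eq, image_insert_eq, image_singleton]
      ext x
      simp only [mem_union, mem_insert_iff, mem_singleton_iff]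
      tauto
    have hfin : (J ∪ {-3, -1, -1/2, 1, 3} : Set ℚ).Finite := hJ.union (Set.toFinite _)
    refine ⟨J ∪ {-3, -1, -1/2, 1, 3}, -1/2, 1, p, hfin, by norm_num, by norm_num, ?_, hp, hN, ?_, fun i hi hi' => ?_,
      fun _ => ⟨?_, fun i j hi hij hj => ?_⟩⟩
    · rintro e (he | rfl | rfl | rfl | rfl | rfl)
      · rcases hJ4 e he with h' | h'
        · exact Or.inl (by linarith)
        · exact Or.inr (by linarith)
      · exact Or.inl (by norm_num)
      · exact Or.inl (by norm_num)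
      · exact Or.inl le_rfl
      · exact Or.inr le_rfl
      · exact Or.inr (by norm_num)
    · rw [eJ]
      exact gfi_inv ((g1_fin hGH).insert _) (subset_insert _ _) hI
    · rw [eJ]
      exact hE i hi hi'
    · rw [eJ]
      exact hNF
    · rw [eJ]
      exact hlt i j hi hij hj

/-- GAP for `Idc` -/
theorem thm_GPE (hG : St_GAP) : St_GPE := by
  intro L U _ hC F u hF hu h01
  have hu1 : ∀ q, u q = s1 (u q 0) := fun q => by
    funext i
    rw [Subsingleton.elim i 0]
    rfl
  let f : ℚ ≃o (univ : Set ℚ) := OrderIso.Set.univ.symm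
  have e' : (fun q : ℚ => s1 ((fun q : ℚ => u q 0) (f q))) = u := funext fun q => (hu1 q).symm
  have hz : Ids L F univ (fun q : ℚ => u q 0) := (idc_ids f).2 (by
    rw [e']
    exact hu)
  obtain ⟨J, a, b, r, hJ, ha, hb, hab, hr, hN, hI, hE, -⟩ := hG L U hC F (fun q : ℚ => u q 0) hF hz h01
  have eJ : F ∪ Tm u J = F ∪ (fun q : ℚ => u q 0) '' J := by
    congr 1
    ext x
    constructor
    · rintro ⟨q, hq, k, rfl⟩
      rw [Subsingleton.elim k 0]
      exact ⟨q, hq, rfl⟩
    · rintro ⟨q, hq, rfl⟩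
      exact ⟨q, hq, 0, rfl⟩
  refine ⟨J, hJ, fun h0 => ?_, r, ?_, u 0 0, mem_pc _, ?_⟩
  · rcases hab 0 h0 with h' | h'
    · linarith
    · linarith
  · rw [eJ]
    exact ⟨hr, hN, hI⟩
  · rw [eJ]
    exact hE 0 ha hb

end Pool.Agent.TPY
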