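import Pool.Agent.TPY.LIN
import Pool.Agent.TPY.LQF
import Pool.Agent.TPY.ALB

/-!
# TPY (port of TPX) module INR: the other pieces over `F y` are inner
-/

set_option autoImplicit false
set_option linter.unusedVariables false

namespace Pool.Agent.TPY

open FirstOrder.Language Set
open scoped FirstOrder
open Pool.Agent.MNO

section inr

variable {L : FirstOrder.Language.{0, 0}} {U : Type} [L.Structure U]
variable {r : ((Fin 1 → U) → Prop) → Prop} {A F C : Set U}

/-- elements of the piece of `z` over `F y` are not in the end over `F y` -/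
theorem inr_out (hC : Cz L U) (hG : Gd L A r) (hAF : A ⊆ F) (hF : F.Finite) {y z v : U}
    (hzy : z ∉ En L (insert y F) r) (hv : v ∈ Pc L (insert y F) z) : v ∉ En L (insert y F) r :=
  fun h => hzy ((pc_iff hC (hF.insert y).countable
    (e_bf hC hG.gt hG.inv (hAF.trans (subset_insert y F)) (hF.insert y)) hv).2 h)

/-- the piece of `z` over `F y` is a piece over `C y` -/
theorem inr_key (hC : Cz L U) (hG : Gd L A r) (hAF : A ⊆ F) (hFC : F ⊆ C) (hCf : C.Finite) {y z : U}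
    (hz : z ∈ En L F r) (hzy : z ∉ En L (insert y F) r) (hne : z ≠ y)
    (hcC : ∀ c ∈ C, c ∉ F → c ∈ En L (insert y F) r) : Pc L (insert y C) z = Pc L (insert y F) z := by
  have hF := hCf.subset hFC
  refine nnl' hC (hF.insert y) (hCf.insert y) (insert_subset_insert hFC) ?_ ?_
  · rintro (h | h)
    · exact hne h
    · exact e_par hC hG.gt hG.nal hG.inv hAF hF h hz
  · intro b hb hb' hbz
    rcases hb with hb | hb
    · exact hb' (Or.inl hb)
    · exact inr_out hC hG hAF hF hzy hbz (hcC b hb fun h => hb' (Or.inr h))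

/-- outside `e(C)` the piece over `F y` is a piece over `C` -/
theorem inr_key' (hC : Cz L U) (hG : Gd L A r) (hAF : A ⊆ F) (hFC : F ⊆ C) (hCf : C.Finite) {y z : U}
    (hy : y ∈ En L C r) (hzC : z ∉ En L C r)
    (hz : z ∈ En L F r) (hzy : z ∉ En L (insert y F) r) (hne : z ≠ y)
    (hcC : ∀ c ∈ C, c ∉ F → c ∈ En L (insert y F) r) : Pc L (insert y F) z = Pc L C z := by
  have hF := hCf.subset hFC
  rw [← inr_key hC hG hAF hFC hCf hz hzy hne hcC]
  refine nnl1 hC hCf (fun h => ?_) (fun h => ?_)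
  · refine hzy (hcC z h fun h' => ?_)
    exact e_par hC hG.gt hG.nal hG.inv hAF hF h' hz
  · exact hzC ((pc_iff hC hCf.countable (e_bf hC hG.gt hG.inv (hAF.trans hFC) hCf) h).2 hy)

end inr

/-- [INR] the other pieces over `F y` are inner -/
theorem thm_INR (hLIN : St_LIN) (hLQF : St_LQF) : St_INR := by
  intro L U _ hC r A hA hG F C y z c₀ hAF hFC hCf hNF hy hz hzy hne hcC hc₀ hc₀F hc₀e hv
  have hF := hCf.subset hFC
  have hAC := hAF.trans hFC
  have hbC : BF L C (En L C r) := e_bf hC hG.gt hG.inv hAC hCf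
  have hbF : BF L F (En L F r) := e_bf hC hG.gt hG.inv hAF hF
  have hzC : z ∈ En L C r := by
    by_contra hzC
    have hR := inr_key' hC hG hAF hFC hCf hy hzC hz hzy hne hcC
    have h1 : BF L F (Pc L C z) := by
      refine thm_ALB L U hC r A hA hG F C (Pc L C z) y hAF hFC hCf hy fun y'' hyy => ?_
      obtain ⟨z'', hzz⟩ := sq_ext hC hCf.countable hyy (s1 z)
      rw [← s1_eq z''] at hzz
      have h2 : Sq L C (s1 z) (s1 (z'' 0)) := sq_right hzz
      have hy'' : y'' ∈ En L C r := (bf_inv1 hbC hyy).1 hy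
      have hzC'' : z'' 0 ∉ En L C r := fun h => hzC ((bf_inv1 hbC h2).2 h)
      have hz'' : z'' 0 ∈ En L F r := (bf_inv1 hbF (sq_mono hFC h2)).1 hz
      have hzy'' : z'' 0 ∉ En L (insert y'' F) r := fun h =>
        hzy ((e_mv1 hC hG.gt hG.inv hAF hF (sq_swap (sq_mono hFC hzz))).2 h)
      have hne'' : z'' 0 ≠ y'' := fun h => hzC'' (by rw [h]; exact hy'')
      have hcC'' : ∀ c ∈ C, c ∉ F → c ∈ En L (insert y'' F) r := by
        intro c hc hcF
        refine (e_mv1 hC hG.gt hG.inv hAF hF (sq_mono hFC (sq_swap ?_))).1 (hcC c hc hcF)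
        exact sq_add hyy (s1 c) (fun _ => hc)
      have h3 := inr_key' hC hG hAF hFC hCf hy'' hzC'' hz'' hzy'' hne'' hcC''
      rw [← pc_eq hC hCf.countable (pc_sq hC h2), ← h3]
      exact pc_bf hC _
    have h4 : c₀ ∈ Pc L C z := by
      refine pc_sub h1 (mem_pc z) ?_
      rw [e_eq hC hG.gt hG.nal hG.inv hAF hF hz]
      exact hc₀e
    rw [← hR] at h4
    exact inr_out hC hG hAF hF hzy h4 (hcC c₀ hc₀ hc₀F)
  have hLQ := hLQF L U hC r C hCf ⟨hG.gt, hG.nal, inv_up hAC hG.inv⟩ hNF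
  have hlo := hLQ.lo.lo0
  have hRC : ∀ v ∈ Pc L (insert y F) z, v ∈ En L C r ∧ ¬ ltr L C r y v ∧ ¬ ltr L C r v y := by
    intro v hvR
    have hvn := inr_out hC hG hAF hF hzy hvR
    have hvC : v ∈ En L C r := by
      rw [← inr_key hC hG hAF hFC hCf hz hzy hne hcC] at hvR
      exact pc_sub (bf_mono hC (hCf.insert y) (subset_insert y C) hbC) hzC hvR
    refine ⟨hvC, fun h => hvn ?_, hv v hvC hvn⟩
    exact e_mono hC hG.gt hG.nal hG.inv (hAF.trans (subset_insert y F)) (insert_subset_insert hFC)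
      (hCf.insert y) h
  obtain ⟨b₂, hb₂, -, hb₂y⟩ := hlo.gap ∅ {y} finite_empty (finite_singleton y) (empty_subset _)
    (singleton_subset_iff.2 hy) (fun d hd => absurd hd (notMem_empty d)) y hy
  have hb₂P : b₂ ∈ En L C r := (bf_inv1 hbC hb₂).1 hy
  have hb₂y : ltr L C r b₂ y := hb₂y y rfl
  obtain ⟨b₁, hb₁, -, hb₁b⟩ := hlo.gap ∅ {b₂} finite_empty (finite_singleton b₂) (empty_subset _)
    (singleton_subset_iff.2 hb₂P) (fun d hd => absurd hd (notMem_empty d)) y hy
  have hb₁P : b₁ ∈ En L C r := (bf_inv1 hbC hb₁).1 hy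
  have hb₁b : ltr L C r b₁ b₂ := hb₁b b₂ rfl
  obtain ⟨hL, -, -⟩ := hLIN L U hC C _ _ hLQ b₁ hb₁P b₂ hb₂P hb₁b
  refine ⟨insert b₂ (insert b₁ C), y, z, {v | v ∈ En L C r ∧ ltr L C r b₂ v}, ltr L C r,
    (hCf.insert b₁).insert b₂, hFC.trans ((subset_insert b₁ C).trans (subset_insert b₂ _)), sq_refl F _,
    hL, ⟨hy, hb₂y⟩, ?_, ?_⟩
  · rw [Set.disjoint_left]
    intro v hvR hvB
    obtain ⟨hvP, h3, h4⟩ := hRC v hvR
    rcases hvB with rfl | rfl | hvC
    · exact h4 hb₂y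
    · exact h4 (hlo.tra _ hvP b₂ hb₂P y hy hb₁b hb₂y)
    · exact e_par hC hG.gt hG.nal hG.inv hAC hCf hvC hvP
  · intro v hvR
    obtain ⟨hvP, h3, h4⟩ := hRC v hvR
    refine ⟨⟨hvP, ?_⟩, h3, h4⟩
    rcases hlo.neg b₂ hb₂P v hvP y hy hb₂y with h5 | h5
    · exact h5
    · exact absurd h5 h4

end Pool.Agent.TPY
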