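import Pool.Agent.TPY.INR

/-!
# TPY module INRD (helper8): the other pieces over `F y` are inner, direct form (no copies)
-/

set_option autoImplicit false
set_option linter.unusedVariables false

namespace Pool.Agent.TPY

open FirstOrder.Language Set
open scoped FirstOrder
open Pool.Agent.MNO

section

variable {L : FirstOrder.Language.{0, 0}} {U : Type} [L.Structure U]

variable (L) in
/-- the set `R` is inside the cluster of `y` in a linear piece over `H ⊇ F`, and `R` misses `H` -/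
def InrD (F : Set U) (y : U) (R : Set U) : Prop :=
  ∃ (H : Set U) (E : Set U) (lt : U → U → Prop), H.Finite ∧ F ⊆ H ∧ LinV L H E lt ∧ y ∈ E ∧
    Disjoint R H ∧ ∀ v ∈ R, v ∈ E ∧ ¬ lt y v ∧ ¬ lt v y

theorem inrd_sub {F : Set U} {y : U} {R R' : Set U} (h : InrD L F y R) (hR : R' ⊆ R) : InrD L F y R' := by
  obtain ⟨H, E, lt, h1, h2, h3, h4, h5, h6⟩ := h
  exact ⟨H, E, lt, h1, h2, h3, h4, h5.mono_left hR, fun v hv => h6 v (hR hv)⟩

theorem inrd_mono {F F' : Set U} {y : U} {R : Set U} (h : InrD L F y R) (hF : F' ⊆ F) : InrD L F' y R := by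
  obtain ⟨H, E, lt, h1, h2, h3⟩ := h
  exact ⟨H, E, lt, h1, hF.trans h2, h3⟩

/-- a set in a cluster of a linear piece is inner -/
theorem inrd_lin (hLIN : St_LIN) (hC : Cz L U) {C P : Set U} {lt : U → U → Prop} (hLQ : LQ L C P lt)
    {y : U} (hy : y ∈ P) {R : Set U} (hR : ∀ v ∈ R, v ∈ P ∧ ¬ lt y v ∧ ¬ lt v y)
    (hRC : ∀ v ∈ R, v ∉ C) : InrD L C y R := by
  have hlo := hLQ.lo.lo0
  have hCf := hlo.fin
  have hbC : BF L C P := by
    rw [← hlo.pc y hy]
    exact pc_bf hC y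
  obtain ⟨b₂, hb₂, -, hb₂y⟩ := hlo.gap ∅ {y} finite_empty (finite_singleton y) (empty_subset _)
    (singleton_subset_iff.2 hy) (fun d hd => absurd hd (notMem_empty d)) y hy
  have hb₂P : b₂ ∈ P := (bf_inv1 hbC hb₂).1 hy
  have hb₂y : lt b₂ y := hb₂y y rfl
  obtain ⟨b₁, hb₁, -, hb₁b⟩ := hlo.gap ∅ {b₂} finite_empty (finite_singleton b₂) (empty_subset _)
    (singleton_subset_iff.2 hb₂P) (fun d hd => absurd hd (notMem_empty d)) y hy
  have hb₁P : b₁ ∈ P := (bf_inv1 hbC hb₁).1 hy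
  have hb₁b : lt b₁ b₂ := hb₁b b₂ rfl
  obtain ⟨hL, -, -⟩ := hLIN L U hC C _ _ hLQ b₁ hb₁P b₂ hb₂P hb₁b
  refine ⟨insert b₂ (insert b₁ C), {v | v ∈ P ∧ lt b₂ v}, lt,
    (hCf.insert b₁).insert b₂, (subset_insert b₁ C).trans (subset_insert b₂ _),
    hL, ⟨hy, hb₂y⟩, ?_, ?_⟩
  · rw [Set.disjoint_left]
    intro v hvR hvB
    obtain ⟨hvP, h3, h4⟩ := hR v hvR
    rcases hvB with rfl | rfl | hvC
    · exact h4 hb₂y
    · exact h4 (hlo.tra _ hvP b₂ hb₂P y hy hb₁b hb₂y)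
    · exact hRC v hvR hvC
  · intro v hvR
    obtain ⟨hvP, h3, h4⟩ := hR v hvR
    refine ⟨⟨hvP, ?_⟩, h3, h4⟩
    rcases hlo.neg b₂ hb₂P v hvP y hy hb₂y with h5 | h5
    · exact h5
    · exact absurd h5 h4

end

/-- [INRD] the other pieces over `F y` are inner: direct form of INR -/
theorem inr_dir (hLIN : St_LIN) (hLQF : St_LQF) {L : FirstOrder.Language.{0, 0}} {U : Type}
    [L.Structure U] (hC : Cz L U) {r : ((Fin 1 → U) → Prop) → Prop} {A : Set U} (hA : A.Finite)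
    (hG : Gd L A r) {F C : Set U} {y z c₀ : U} (hAF : A ⊆ F) (hFC : F ⊆ C) (hCf : C.Finite)
    (hNF : NF L C r) (hy : y ∈ En L C r) (hz : z ∈ En L F r) (hzy : z ∉ En L (insert y F) r)
    (hne : z ≠ y) (hcC : ∀ c ∈ C, c ∉ F → c ∈ En L (insert y F) r) (hc₀ : c₀ ∈ C) (hc₀F : c₀ ∉ F)
    (hc₀e : c₀ ∈ En L F r)
    (hv : ∀ v ∈ En L C r, v ∉ En L (insert y F) r → y ∉ En L (insert v C) r) :
    InrD L C y (Pc L (insert y F) z) := by
  have hF := hCf.subset hFC
  have hAC := hAF.trans hFC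
  have hbC : BF L C (En L C r) := e_bf hC hG.gt hG.inv hAC hCf
  have hbF : BF L F (En L F r) := e_bf hC hG.gt hG.inv hAF hF
  have hzC : z ∈ En L C r := by
    by_contra hzC
    have hR := inr_key' hC hG hAF hFC hCf hy hzC hz hzy hne hcC
    have h1 : BF L F (Pc L C z) := by
      refine thm_ALB L U hC r A hA hG F C (Pc L C z) y hAF hFC hCf hy fun y'' hyy => ?_
      obtain ⟨z'', hzz⟩ := sq_ext hC hCf.countable hyy (s1 z)
      rw [← s1_eq z''] at hzz
      have h2 : Sq L C (s1 z) (s1 (z'' 0)) := sq_right hzz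
      have hy'' : y'' ∈ En L C r := (bf_inv1 hbC hyy).1 hy
      have hzC'' : z'' 0 ∉ En L C r := fun h => hzC ((bf_inv1 hbC h2).2 h)
      have hz'' : z'' 0 ∈ En L F r := (bf_inv1 hbF (sq_mono hFC h2)).1 hz
      have hzy'' : z'' 0 ∉ En L (insert y'' F) r := fun h =>
        hzy ((e_mv1 hC hG.gt hG.inv hAF hF (sq_swap (sq_mono hFC hzz))).2 h)
      have hne'' : z'' 0 ≠ y'' := fun h => hzC'' (by rw [h]; exact hy'')
      have hcC'' : ∀ c ∈ C, c ∉ F → c ∈ En L (insert y'' F) r := by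
        intro c hc hcF
        refine (e_mv1 hC hG.gt hG.inv hAF hF (sq_mono hFC (sq_swap ?_))).1 (hcC c hc hcF)
        exact sq_add hyy (s1 c) (fun _ => hc)
      have h3 := inr_key' hC hG hAF hFC hCf hy'' hzC'' hz'' hzy'' hne'' hcC''
      rw [← pc_eq hC hCf.countable (pc_sq hC h2), ← h3]
      exact pc_bf hC _
    have h4 : c₀ ∈ Pc L C z := by
      refine pc_sub h1 (mem_pc z) ?_
      rw [e_eq hC hG.gt hG.nal hG.inv hAF hF hz]
      exact hc₀e
    rw [← hR] at h4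
    exact inr_out hC hG hAF hF hzy h4 (hcC c₀ hc₀ hc₀F)
  have hLQ := hLQF L U hC r C hCf ⟨hG.gt, hG.nal, inv_up hAC hG.inv⟩ hNF
  have hRC : ∀ v ∈ Pc L (insert y F) z, v ∈ En L C r ∧ ¬ ltr L C r y v ∧ ¬ ltr L C r v y := by
    intro v hvR
    have hvn := inr_out hC hG hAF hF hzy hvR
    have hvC : v ∈ En L C r := by
      rw [← inr_key hC hG hAF hFC hCf hz hzy hne hcC] at hvR
      exact pc_sub (bf_mono hC (hCf.insert y) (subset_insert y C) hbC) hzC hvR
    refine ⟨hvC, fun h => hvn ?_, hv v hvC hvn⟩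
    exact e_mono hC hG.gt hG.nal hG.inv (hAF.trans (subset_insert y F)) (insert_subset_insert hFC)
      (hCf.insert y) h
  exact inrd_lin hLIN hC hLQ hy hRC fun v hvR hvC =>
    e_par hC hG.gt hG.nal hG.inv hAC hCf hvC (hRC v hvR).1

end Pool.Agent.TPY
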