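import Pool.Agent.TPY.IDF
import Pool.Agent.TPY.MOC

/-!
# TPY module LEX (helper8): Morley sequences indexed by the rational numbers through a given realisation
-/

set_option autoImplicit false
set_option linter.unusedVariables false

namespace Pool.Agent.TPY

open FirstOrder.Language Set
open scoped FirstOrder
open Pool.Agent.MNO

section

variable {L : FirstOrder.Language.{0, 0}} {U : Type} [L.Structure U]
variable {α : Type} {r : ((α → U) → Prop) → Prop} {A B : Set U}

variable (L) in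
/-- all increasing finite tuples of terms of `J` are Morley sequences of `r` over `B` -/
def Moq (B : Set U) {α : Type} (r : ((α → U) → Prop) → Prop) (J : ℚ → α → U) : Prop :=
  ∀ (n : ℕ) (z : ℕ → α → U) (i : Fin n → ℚ), StrictMono i → (∀ k : Fin n, z k = J (i k)) → Mo L B r n z

/-- the terms as a sequence indexed by `ℕ` -/
def sqn {n : ℕ} (J : ℚ → α → U) (i : Fin n → ℚ) : ℕ → α → U := fun k => if h : k < n then J (i ⟨k, h⟩) else J 0

theorem sqn_eq {n : ℕ} (J : ℚ → α → U) (i : Fin n → ℚ) (k : Fin n) : sqn J i k = J (i k) := dif_pos k.2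

theorem sqn_fl {n : ℕ} (J : ℚ → α → U) (i : Fin n → ℚ) : fl n (sqn J i) = tms J i := by
  funext p
  show sqn J i p.1 p.2 = J (i p.1) p.2
  rw [sqn_eq]

theorem moq_mo {n : ℕ} {J : ℚ → α → U} (h : Moq L B r J) {i : Fin n → ℚ} (hi : StrictMono i) :
    Mo L B r n (sqn J i) := h n _ i hi (sqn_eq J i)

theorem moq_mono {J : ℚ → α → U} (hAB : A ⊆ B) (h : Moq L B r J) : Moq L A r J :=
  fun n z i hi hz => mo_mono hAB le_rfl (h n z i hi hz)

theorem idc_fin {J : ℚ → α → U} (h : ∀ C ⊆ B, C.Finite → Idc L C J) : Idc L B J := by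
  intro n i j hi hj P hP
  obtain ⟨C, hCf, hCB, hP'⟩ := dp_fin hP
  exact h C hCB hCf n i j hi hj P hP'

theorem idc_mono {J : ℚ → α → U} (hAB : A ⊆ B) (h : Idc L B J) : Idc L A J :=
  fun n i j hi hj P hP => h n i j hi hj P (dp_mono hAB hP)

theorem moq_idc [Finite α] (hC : Cz L U) (hr : GT L r) (hB : B.Finite) (hI : Inv L B r) {J : ℚ → α → U}
    (h : Moq L B r J) : Idc L B J := by
  intro n i j hi hj
  have h1 := mo_uni0 hC hr hB hI (moq_mo h hi) (moq_mo h hj)
  rw [sqn_fl, sqn_fl] at h1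
  exact fun P hP => (sq_dp h1 hP).1

/-- strong types -/
theorem moq_sq [Finite α] (hC : Cz L U) (hr : GT L r) (hB : B.Finite) (hI : Inv L B r) {J : ℚ → α → U}
    (h : Moq L B r J) {n : ℕ} {i j : Fin n → ℚ} (hi : StrictMono i) (hj : StrictMono j) :
    Sq L B (tms J i) (tms J j) := by
  have h1 := mo_uni0 hC hr hB hI (moq_mo h hi) (moq_mo h hj)
  rw [sqn_fl, sqn_fl] at h1
  exact h1

/-- **LEX**: a Morley sequence indexed by `ℚ` with given term at `0`, the terms at `q > 0` realise `r` over `A ∪ D` -/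
theorem lex [Finite α] (hC : Cz L U) (hr : GT L r) (hA : A.Finite) (hI : Inv L A r) {u : α → U}
    (hu : Ets L A u r) {D : Set U} (hD : D.Countable) :
    ∃ J : ℚ → α → U, J 0 = u ∧ (∀ q, 0 < q → Ets L (A ∪ D) (J q) r) ∧ Moq L A r J := by
  classical
  obtain ⟨g, hg0, hg⟩ := mo_ex hC hr (C := A ∪ D) (hA.countable.union hD) 1 (fun _ => u)
  have hg0 : g 0 = u := hg0 0 one_pos
  have hgM : ∀ n, Mo L A r n g := by
    intro n j _
    rcases Nat.eq_zero_or_pos j with rfl | hj
    · rw [hg0]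
      refine ets_mono ?_ hu
      refine union_subset Subset.rfl ?_
      rintro x ⟨i, hi, -⟩
      exact absurd hi (Nat.not_lt_zero i)
    · exact ets_mono (union_subset_union_left _ subset_union_left) (hg j hj)
  -- increasing tuples of `g`
  have hgS : ∀ (n : ℕ) (i : Fin n → ℕ), StrictMono i →
      Sq L A (tms g i) (tms g (fun k : Fin n => (k : ℕ))) := by
    intro n i hi
    obtain ⟨N, hN⟩ : ∃ N, ∀ k, i k < N := by
      obtain ⟨N, hN⟩ := (finite_range i).bddAbove
      exact ⟨N + 1, fun k => Nat.lt_succ_of_le (hN ⟨k, rfl⟩)⟩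
    let f : ℕ → ℕ := fun k => if h : k < n then i ⟨k, h⟩ else 0
    have hf : ∀ k (h : k < n), f k = i ⟨k, h⟩ := fun k h => dif_pos h
    have h1 : Mo L A r n (fun k => g (f k)) := by
      refine mo_sub (n := N) ?_ ?_ (hgM N)
      · intro a b hab hb
        rw [hf a (hab.trans hb), hf b hb]
        exact hi hab
      · intro a ha
        rw [hf a ha]
        exact hN _
    have h2 := mo_uni0 hC hr hA hI h1 (hgM n)
    refine sq_congr h2 ?_ rfl
    funext p
    show g (i p.1) p.2 = g (f p.1) p.2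
    rw [hf p.1 p.1.2]
  -- left extension
  have hleft : ∀ m N : ℕ, ∃ h : ℕ → α → U, (∀ k < N, h (m + k) = g k) ∧
      Sq L A (fl (m + N) h) (fl (m + N) g) := by
    intro m N
    have h1 : Sq L A (fl N (fun k => g (m + k))) (fl N g) := by
      refine mo_uni0 hC hr hA hI (mo_sub (n := m + N) (fun a b hab _ => by omega) (fun a ha => by omega)
        (hgM (m + N))) (hgM N)
    obtain ⟨t, ht⟩ := sq_ext hC hA.countable h1 (fl m g)
    refine ⟨fun k => if hk : k < m then fun a => t (⟨k, hk⟩, a) else g (k - m), fun k hk => ?_, ?_⟩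
    · have e : ¬ (m + k < m) := by omega
      show (if hk : m + k < m then fun a => t (⟨m + k, hk⟩, a) else g (m + k - m)) = g k
      rw [dif_neg e]
      congr 1
      omega
    · refine sq_symm (sq_cov ht ?_)
      rintro ⟨k, a⟩
      by_cases hk : (k : ℕ) < m
      · refine ⟨Sum.inr (⟨k, hk⟩, a), rfl, ?_⟩
        show t (⟨k, hk⟩, a) = (if hk : (k : ℕ) < m then fun a => t (⟨k, hk⟩, a) else g (k - m)) a
        rw [dif_pos hk]
      · have hk' := k.2
        refine ⟨Sum.inl (⟨k - m, by omega⟩, a), ?_, ?_⟩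
        · show g (m + (k - m)) a = g k a
          congr 1
          omega
        · show g (k - m) a = (if hk : (k : ℕ) < m then fun a => t (⟨k, hk⟩, a) else g (k - m)) a
          rw [dif_neg hk]
  -- good families
  let Good : Finset ℚ → (ℚ × α → U) → Prop := fun S v =>
    (∀ a, v (0, a) = u a) ∧ (∀ q ∈ S, 0 < q → Sq L (A ∪ D) (fun a => v (q, a)) (g 1)) ∧
      ∀ (n : ℕ) (i : Fin n → ℚ), StrictMono i → (∀ k, i k ∈ S) →
        Sq L A (fun p : Fin n × α => v (i p.1, p.2)) (tms g (fun k : Fin n => (k : ℕ)))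
  have hgood : ∀ S : Finset ℚ, (0 : ℚ) ∈ S → ∃ v, Good S v := by
    intro S h0
    let ρ : ℚ → ℕ := fun q => (S.filter (fun s => s < q)).card
    have hρ : ∀ p ∈ S, ∀ q, p < q → ρ p < ρ q := by
      intro p hp q hpq
      refine Finset.card_lt_card ⟨fun s hs => ?_, fun hsub => ?_⟩
      · rw [Finset.mem_filter] at hs ⊢
        exact ⟨hs.1, hs.2.trans hpq⟩
      · have h1 : p ∈ S.filter (fun s => s < q) := Finset.mem_filter.2 ⟨hp, hpq⟩
        have h2 := hsub h1
        rw [Finset.mem_filter] at h2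
        exact lt_irrefl p h2.2
    have hρN : ∀ q, ρ q ≤ S.card := fun q => Finset.card_filter_le _ _
    obtain ⟨h, hh, hhS⟩ := hleft (ρ 0) (S.card + 1)
    refine ⟨fun p => h (ρ p.1) p.2, fun a => ?_, fun q hq hq0 => ?_, fun n i hi hiS => ?_⟩
    · have h1 := hh 0 (Nat.succ_pos _)
      rw [add_zero] at h1
      show h (ρ 0) a = u a
      rw [h1, hg0]
    · have h1 := hρ 0 h0 q hq0
      have h2 := hρN q
      obtain ⟨k, hk⟩ : ∃ k, ρ q = ρ 0 + k := ⟨ρ q - ρ 0, by omega⟩
      show Sq L (A ∪ D) (h (ρ q)) (g 1)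
      rw [hk, hh k (by omega)]
      exact ets_sq hr (ets_mono subset_union_left (hg k (by omega)))
        (ets_mono subset_union_left (hg 1 le_rfl))
    · have h1 : StrictMono (fun k => ρ (i k)) := fun a b hab => hρ _ (hiS a) _ (hi hab)
      refine sq_trans ?_ (hgS n (fun k => ρ (i k)) h1)
      refine sq_cov hhS ?_
      rintro ⟨k, a⟩
      have h2 := hρN (i k)
      exact ⟨(⟨ρ (i k), by omega⟩, a), rfl, rfl⟩
  -- compactness
  set Bp : Set U := A ∪ D ∪ ⋃ k : ℕ, range (g k) with hBp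
  have hBpc : Bp.Countable := (hA.countable.union hD).union (countable_iUnion fun k => countable_range _)
  have hgB : ∀ k a, g k a ∈ Bp := fun k a => Or.inr (mem_iUnion.2 ⟨k, a, rfl⟩)
  have : Countable α := Finite.to_countable
  obtain ⟨v, hv⟩ := sat_dp hC hBpc
    (F := {P : (ℚ × α → U) → Prop | Dp L Bp P ∧ ∃ S : Finset ℚ, ∀ v, Good S v → P v})
    (fun P hP => hP.1) (by
      intro G hG hGf
      have h1 : ∀ P : (ℚ × α → U) → Prop, ∃ S : Finset ℚ, P ∈ G → ∀ v, Good S v → P v := by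
        intro P
        by_cases hP : P ∈ G
        · obtain ⟨S, hS⟩ := (hG hP).2
          exact ⟨S, fun _ => hS⟩
        · exact ⟨∅, fun h => absurd h hP⟩
      choose s hs using h1
      obtain ⟨v, hv1, hv2, hv3⟩ := hgood (insert 0 (hGf.toFinset.biUnion s)) (Finset.mem_insert_self _ _)
      refine ⟨v, fun P hP => hs P hP v ?_⟩
      have hsub : s P ⊆ insert 0 (hGf.toFinset.biUnion s) := fun q hq =>
        Finset.mem_insert_of_mem (Finset.mem_biUnion.2 ⟨P, hGf.mem_toFinset.2 hP, hq⟩)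
      exact ⟨hv1, fun q hq => hv2 q (hsub hq), fun n i hi hiS => hv3 n i hi fun k => hsub (hiS k)⟩)
  have hJ0 : ∀ a, v (0, a) = u a := by
    intro a
    refine hv (fun v => v (0, a) = u a) ⟨?_, ∅, fun w hw => hw.1 a⟩
    have h1 : Dp L Bp (fun w : (ℚ × α) ⊕ Fin 1 → U => w (Sum.inl (0, a)) = w (Sum.inr 0)) := dp_eq _ _
    exact dp_par h1 (s1 (u a)) (fun _ => by rw [← hg0]; exact hgB 0 a)
  have hJ1 : ∀ q : ℚ, 0 < q → Sq L (A ∪ D) (fun a => v (q, a)) (g 1) := by
    intro q hq E hE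
    refine hv (fun v => E (fun a => v (q, a)) (g 1)) ⟨?_, {q}, fun w hw =>
      hw.2.1 q (Finset.mem_singleton_self q) hq E hE⟩
    refine dp_mono (union_subset subset_union_left ?_) (dp_sub (fe_cls hE (g 1)) fun a => (q, a))
    rintro _ ⟨a, rfl⟩
    exact hgB 1 a
  have hJ2 : ∀ (n : ℕ) (i : Fin n → ℚ), StrictMono i →
      Sq L A (fun p : Fin n × α => v (i p.1, p.2)) (tms g (fun k : Fin n => (k : ℕ))) := by
    intro n i hi E hE
    refine hv (fun v => E (fun p : Fin n × α => v (i p.1, p.2)) (tms g (fun k : Fin n => (k : ℕ))))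
      ⟨?_, Finset.univ.image i, fun w hw =>
        hw.2.2 n i hi (fun k => Finset.mem_image_of_mem i (Finset.mem_univ k)) E hE⟩
    refine dp_mono (union_subset (subset_union_left.trans subset_union_left) ?_)
      (dp_sub (fe_cls hE (tms g (fun k : Fin n => (k : ℕ)))) fun p : Fin n × α => (i p.1, p.2))
    rintro _ ⟨p, rfl⟩
    exact hgB _ _
  refine ⟨fun q a => v (q, a), funext hJ0, fun q hq => ?_, fun n z i hi hz => ?_⟩
  · exact ets_congr hr (ets_mono subset_union_left (hg 1 le_rfl)) (sq_symm (hJ1 q hq))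
  · have e0 : A ∪ range (s0 : Fin 0 → U) = A := by
      rw [range_eq_empty, union_empty]
    have h1 : Sq L A (fl n g) (fl n z) := by
      refine sq_symm (sq_congr (hJ2 n i hi) ?_ rfl)
      funext p
      show z p.1 p.2 = v (i p.1, p.2)
      rw [hz p.1]
    have h2 := mo_mv hC hr (γ := Fin 0) (c := s0) (c' := s0) hA hI (n := n) (z := g) (z' := z) (by
      refine sq_cov h1 ?_
      rintro (p | p)
      · exact ⟨p, rfl, rfl⟩
      · exact p.elim0) (by rw [e0]; exact hgM n)
    rw [e0] at h2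
    exact h2

end

end Pool.Agent.TPY
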