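import Pool.Agent.TPY.LSA
import Mathlib.Order.Zorn
import Mathlib.Order.Filter.Ultrafilter.Defs

/-!
# TPY, module LSB (helper73): the Lascar distance is bounded in a small theory
-/

set_option autoImplicit false
set_option linter.unusedVariables false

namespace Pool.Agent.TPY

open FirstOrder.Language Set
open scoped FirstOrder
open Pool.Agent.MNO

section

variable {L : FirstOrder.Language.{0, 0}} {U : Type} [L.Structure U] {A : Set U} {κ : Type} {μ : κ → U} {α : Type}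

/-- consistent families of definable properties extend to global types -/
theorem gt_ext {F : Set ((α → U) → Prop)} (hF : ∀ P ∈ F, Dp L (univ : Set U) P)
    (h : ∀ G ⊆ F, G.Finite → ∃ x, ∀ P ∈ G, P x) : ∃ r, GT L r ∧ ∀ P ∈ F, r P := by
  classical
  let S : Set (Set (α → U)) := (fun P : (α → U) → Prop => {x | P x}) '' F
  have hne : (Filter.generate S).NeBot := by
    rw [Filter.generate_neBot_iff]
    intro t ht htf
    obtain ⟨x, hx⟩ := h {P | P ∈ F ∧ {x | P x} ∈ t} (fun P hP => hP.1) (by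
      refine Finite.of_finite_image (f := fun P : (α → U) → Prop => {x | P x}) (htf.subset ?_) ?_
      · rintro _ ⟨P, hP, rfl⟩
        exact hP.2
      · intro P _ Q _ hPQ
        funext x
        exact congrFun hPQ x)
    refine ⟨x, ?_⟩
    intro s hs
    obtain ⟨P, hP, rfl⟩ := ht hs
    exact hx P ⟨hP, hs⟩
  let p : Ultrafilter (α → U) := Ultrafilter.of (Filter.generate S)
  refine ⟨fun P => Dp L (univ : Set U) P ∧ {x | P x} ∈ p, ⟨fun P hP => hP.1, fun P hP => ?_, fun P Q hP hQ => ?_,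
    fun P hP => ?_⟩, fun P hP => ⟨hF P hP, ?_⟩⟩
  · obtain ⟨x, hx⟩ := Ultrafilter.nonempty_of_mem hP.2
    exact ⟨x, hx⟩
  · exact ⟨dp_and hP.1 hQ.1, Filter.inter_mem hP.2 hQ.2⟩
  · rcases Ultrafilter.mem_or_compl_mem p {x | P x} with h3 | h3
    · exact Or.inl ⟨hP, h3⟩
    · exact Or.inr ⟨dp_not hP, h3⟩
  · exact Ultrafilter.of_le (Filter.generate S) (Filter.mem_generate_of_mem ⟨P, hP, rfl⟩)

/-- finitely many definable properties have a common tuple of parameters -/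
theorem fam_fin {G : Set ((α → U) → Prop)} (hG : G.Finite) (hd : ∀ P ∈ G, Dp L (univ : Set U) P) :
    ∃ (m : ℕ) (b : Fin m → U) (φ : ((α → U) → Prop) → ((α ⊕ Fin m → U) → Prop)),
      ∀ P ∈ G, Dp L A (φ P) ∧ P = fun x => φ P (Sum.elim x b) := by
  classical
  have h1 : ∀ P : (α → U) → Prop, ∃ B : Set U, B.Finite ∧ (P ∈ G → Dp L B P) := by
    intro P
    by_cases hP : P ∈ G
    · obtain ⟨B, hB, -, h2⟩ := dp_fin (hd P hP)
      exact ⟨B, hB, fun _ => h2⟩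
    · exact ⟨∅, finite_empty, fun h => absurd h hP⟩
  choose B hB hB' using h1
  obtain ⟨m, b, hb⟩ := exists_enum (hG.biUnion fun P _ => hB P)
  have h2 : ∀ P : (α → U) → Prop, ∃ φ : (α ⊕ Fin m → U) → Prop, P ∈ G → Dp L A φ ∧ P = fun x => φ (Sum.elim x b) := by
    intro P
    by_cases hP : P ∈ G
    · have h3 : Dp L (A ∪ range b) P := dp_mono (by
        rw [hb]
        intro x hx
        exact Or.inr (mem_biUnion hP hx)) (hB' P hP)
      obtain ⟨Q, hQ, hPQ⟩ := dp_fam h3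
      exact ⟨Q, fun _ => ⟨hQ, funext fun x => propext (hPQ x)⟩⟩
    · exact ⟨fun _ => True, fun h => absurd h hP⟩
  choose φ hφ using h2
  exact ⟨m, b, φ, hφ⟩

/-- an invariant family of properties whose negations are consistent -/
structure Ph (L : FirstOrder.Language.{0, 0}) {U : Type} [L.Structure U] (A : Set U) {κ : Type} (μ : κ → U)
    {α : Type} (a₀ : α → U) (Φ : Set ((α → U) → Prop)) : Prop where
  dfn : ∀ P ∈ Φ, Dp L (univ : Set U) P
  typ : ∀ P, Dp L A P → ¬ P a₀ → P ∈ Φ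
  inv : ∀ (γ : Type) [Finite γ] (φ : (α ⊕ γ → U) → Prop) (c c' : γ → U), Dp L A φ → Lsc L A μ c c' →
    (fun x => φ (Sum.elim x c)) ∈ Φ → (fun x => φ (Sum.elim x c')) ∈ Φ
  con : ∀ G ⊆ Φ, G.Finite → ∃ x, ∀ P ∈ G, ¬ P x

/-- equality of two instances is a definable property of the parameters -/
theorem dp_same [Finite α] {γ δ : Type} {φ : (α ⊕ γ → U) → Prop} {ψ : (α ⊕ δ → U) → Prop} (hφ : Dp L A φ)
    (hψ : Dp L A ψ) : Dp L A (fun v : γ ⊕ δ → U => ∀ x : α → U,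
      φ (Sum.elim x fun k => v (Sum.inl k)) ↔ ψ (Sum.elim x fun k => v (Sum.inr k))) := by
  refine dp_all (P := fun w : (γ ⊕ δ) ⊕ α → U => φ (Sum.elim (fun i => w (Sum.inr i)) fun k => w (Sum.inl (Sum.inl k))) ↔
    ψ (Sum.elim (fun i => w (Sum.inr i)) fun k => w (Sum.inl (Sum.inr k)))) (dp_iff ?_ ?_)
  · refine dp_congr (dp_sub hφ (Sum.elim Sum.inr (fun k => Sum.inl (Sum.inl k)) : α ⊕ γ → (γ ⊕ δ) ⊕ α)) fun v =>
      iff_of_eq (congrArg φ ?_)
    funext i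
    rcases i with i | i <;> rfl
  · refine dp_congr (dp_sub hψ (Sum.elim Sum.inr (fun k => Sum.inl (Sum.inr k)) : α ⊕ δ → (γ ⊕ δ) ⊕ α)) fun v =>
      iff_of_eq (congrArg ψ ?_)
    funext i
    rcases i with i | i <;> rfl

theorem ph_bot [Finite α] (a₀ : α → U) : Ph L A μ a₀ {P | Dp L A P ∧ ¬ P a₀} := by
  refine ⟨fun P hP => dp_mono (subset_univ _) hP.1, fun P hP h => ⟨hP, h⟩, ?_, fun G hG _ => ⟨a₀, fun P hP => (hG hP).2⟩⟩
  intro γ _ φ c c' hφ hcc' h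
  have h1 := (tq_iff (lsc_tq hcc') (P := fun c'' : γ → U => ∀ x : α → U,
    φ (Sum.elim x c) ↔ φ (Sum.elim x c'')) (by
      have h2 : Dp L A (fun v : Empty ⊕ γ → U => ∀ x : α → U,
          φ (Sum.elim x c) ↔ φ (Sum.elim x fun k => v (Sum.inr k))) := by
        have h3 : Dp L A (fun v : α ⊕ Empty → U => φ (Sum.elim (fun i => v (Sum.inl i)) c)) :=
          dp_sub h.1 Sum.inl
        exact dp_same (δ := γ) h3 hφ
      have h4 := dp_sub h2 (Sum.elim (fun e => e.elim) id : Empty ⊕ γ → γ)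
      exact h4)).1 fun x => Iff.rfl
  have e : (fun x => φ (Sum.elim x c')) = fun x => φ (Sum.elim x c) := funext fun x => propext (h1 x).symm
  rw [e]
  exact h

theorem ph_max [Finite α] (a₀ : α → U) : ∃ Φ, Maximal (Ph L A μ a₀) Φ := by
  obtain ⟨m, -, hm⟩ := zorn_subset_nonempty {Φ | Ph L A μ a₀ Φ} (by
    intro c hc hch hne
    refine ⟨⋃₀ c, ⟨?_, ?_, ?_, ?_⟩, fun s hs => subset_sUnion_of_mem hs⟩
    · rintro P ⟨s, hs, hP⟩
      exact (hc hs).dfn P hP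
    · intro P hP hPa
      obtain ⟨s, hs⟩ := hne
      exact ⟨s, hs, (hc hs).typ P hP hPa⟩
    · rintro γ _ φ c₁ c₂ hφ h ⟨s, hs, hP⟩
      exact ⟨s, hs, (hc hs).inv γ φ c₁ c₂ hφ h hP⟩
    · intro G hG hfin
      obtain ⟨s, hs, hGs⟩ := hch.directedOn.exists_mem_subset_of_finite_of_subset_sUnion hne hfin hG
      exact (hc hs).con G hGs hfin) _ (ph_bot a₀)
  exact ⟨m, hm⟩

variable (L) in
/-- `τ (·, a)` is consistent with the negations of `Φ` -/
def Cc {U : Type} [L.Structure U] {α : Type} (Φ : Set ((α → U) → Prop)) (a : α → U) (τ : (α ⊕ α → U) → Prop) : Prop :=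
  ∀ G ⊆ Φ, G.Finite → ∃ x, τ (Sum.elim x a) ∧ ∀ P ∈ G, ¬ P x

/-- transport of a finite part of `Φ` and of a tuple -/
theorem ph_move (hC : Cz L U) [Countable κ] [Finite α] (hA : A.Countable) {a₀ : α → U} {Φ : Set ((α → U) → Prop)}
    (hΦ : Ph L A μ a₀ Φ) {G : Set ((α → U) → Prop)} (hG : G ⊆ Φ) (hfin : G.Finite) {γ : Type} [Finite γ]
    {w w' : γ → U} (hw : Lsc L A μ w w') {ψ : (α ⊕ γ → U) → Prop} (hψ : Dp L A ψ)
    (h : ∀ x, ψ (Sum.elim x w) → ∃ P ∈ G, P x) {q : ((α → U) → Prop) → Prop} (hq : GT L q)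
    (hqΦ : ∀ P ∈ Φ, q (fun x => ¬ P x)) (hqψ : q (fun x => ψ (Sum.elim x w'))) : False := by
  obtain ⟨m, b, φ, hφ⟩ := fam_fin (A := A) hfin (fun P hP => hΦ.dfn P (hG hP))
  obtain ⟨b', hb'⟩ := lsc_ext hC hA hw b
  -- the statement about `w`, `b`
  have h1 : Dp L A (fun v : γ ⊕ Fin m → U => ∀ x : α → U, ψ (Sum.elim x fun k => v (Sum.inl k)) →
      ∃ P ∈ G, φ P (Sum.elim x fun k => v (Sum.inr k))) := by
    refine dp_all (P := fun u : (γ ⊕ Fin m) ⊕ α → U => ψ (Sum.elim (fun i => u (Sum.inr i)) fun k => u (Sum.inl (Sum.inl k))) →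
      ∃ P ∈ G, φ P (Sum.elim (fun i => u (Sum.inr i)) fun k => u (Sum.inl (Sum.inr k))))
      (dp_imp ?_ (dp_bex hfin fun P hP => ?_))
    · refine dp_congr (dp_sub hψ (Sum.elim Sum.inr (fun k => Sum.inl (Sum.inl k)) : α ⊕ γ → (γ ⊕ Fin m) ⊕ α)) fun v =>
        iff_of_eq (congrArg ψ ?_)
      funext i
      rcases i with i | i <;> rfl
    · refine dp_congr (dp_sub (hφ P hP).1 (Sum.elim Sum.inr (fun k => Sum.inl (Sum.inr k)) :
        α ⊕ Fin m → (γ ⊕ Fin m) ⊕ α)) fun v => iff_of_eq (congrArg (φ P) ?_)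
      funext i
      rcases i with i | i <;> rfl
  have h2 := (tq_iff (lsc_tq hb') h1).1 (fun x hx => by
    obtain ⟨P, hP, hPx⟩ := h x hx
    refine ⟨P, hP, ?_⟩
    have h3 := (hφ P hP).2
    rw [h3] at hPx
    exact hPx)
  have hbb : Lsc L A μ b b' := lsc_sub hb' Sum.inr
  have h4 : q (fun x => ∀ Q ∈ (fun P : (α → U) → Prop => fun x : α → U => ¬ φ P (Sum.elim x b')) '' G, Q x) := by
    refine gt_all hq (hfin.image _) ?_
    rintro _ ⟨P, hP, rfl⟩
    refine hqΦ _ (hΦ.inv (Fin m) (φ P) b b' (hφ P hP).1 hbb ?_)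
    rw [← (hφ P hP).2]
    exact hG hP
  obtain ⟨x, hx, hx'⟩ := hq.ne _ (hq.and _ _ hqψ h4)
  obtain ⟨P, hP, hPx⟩ := h2 x hx
  exact hx' _ ⟨P, hP, rfl⟩ hPx

/-- **the Lascar distance is bounded** -/
theorem lsd_bd (hC : Cz L U) (hA : A.Finite) [Countable κ] (hμ : A ⊆ range μ) [Finite α] (a₀ : α → U) :
    ∃ K, ∀ x y, Tq L A a₀ x → Lsc L A μ x y → Lsd L A μ K x y := by
  classical
  obtain ⟨Φ, hmax⟩ := ph_max (L := L) (A := A) (μ := μ) a₀
  have hΦ : Ph L A μ a₀ Φ := hmax.prop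
  obtain ⟨q, hq, hqF⟩ := gt_ext (L := L) (F := {P : (α → U) → Prop | ∃ Q ∈ Φ, P = fun x => ¬ Q x}) (by
    rintro P ⟨Q, hQ, rfl⟩
    exact dp_not (hΦ.dfn Q hQ)) (by
    intro G hG hfin
    obtain ⟨x, hx⟩ := hΦ.con {Q | Q ∈ Φ ∧ (fun x => ¬ Q x) ∈ G} (fun Q hQ => hQ.1) (by
      refine Finite.of_finite_image (f := fun Q : (α → U) → Prop => fun x : α → U => ¬ Q x) (hfin.subset ?_) ?_
      · rintro _ ⟨Q, hQ, rfl⟩
        exact hQ.2
      · intro P _ Q _ hPQ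
        funext x
        have h1 := congrFun hPQ x
        exact propext (not_iff_not.1 (iff_of_eq h1)))
    refine ⟨x, fun P hP => ?_⟩
    obtain ⟨Q, hQ, rfl⟩ := hG hP
    exact hx Q ⟨hQ, hP⟩)
  have hqΦ : ∀ P ∈ Φ, q (fun x => ¬ P x) := fun P hP => hqF _ ⟨P, hP, rfl⟩
  -- realisations of `q`
  have hreal : ∀ B : Set U, B.Countable → ∃ y, ∀ P, Dp L B P → (q P ↔ P y) := by
    intro B hB
    obtain ⟨y, hy⟩ := sat_dp hC (α := α) hB (F := {P | Dp L B P ∧ q P}) (fun P hP => hP.1) (by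
      intro G hG hfin
      exact hq.ne _ (gt_all hq hfin fun P hP => (hG hP).2))
    refine ⟨y, fun P hP => ⟨fun h => hy P ⟨hP, h⟩, fun h => ?_⟩⟩
    by_contra h1
    exact hy _ ⟨dp_not hP, (gt_not hq (dp_mono (subset_univ _) hP)).2 h1⟩ h
  obtain ⟨a, ha⟩ := hreal (range μ) (countable_range _)
  have hTa : Tq L A a₀ a := by
    intro P hP hPa
    by_contra h1
    have h2 := hqΦ _ (hΦ.typ (fun x => ¬ P x) (dp_not hP) (not_not.2 hPa))
    obtain ⟨x, hx, hx'⟩ := hq.ne _ (hq.and _ _ h2 ((ha _ (dp_mono hμ (dp_not hP))).2 h1))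
    exact hx hx'
  have htr : ∀ (a' : α → U), Lsc L A μ a a' → ∀ ψ : (α ⊕ α → U) → Prop, Dp L A ψ →
      q (fun x => ψ (Sum.elim x a')) → Cc L Φ a ψ := by
    intro a' ha' ψ hψ hqψ
    by_contra hcon
    unfold Cc at hcon
    push Not at hcon
    obtain ⟨G, hG, hfin, h⟩ := hcon
    exact ph_move hC hA.countable hΦ hG hfin ha' hψ h hq hqΦ hqψ
  have hc0 : ∀ ψ : (α ⊕ α → U) → Prop, Dp L A ψ → ¬ Cc L Φ a ψ → ∀ a', Lsc L A μ a a' →
      ¬ q (fun x => ψ (Sum.elim x a')) := fun ψ hψ h a' ha' h' => h (htr a' ha' ψ hψ h')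
  -- an isolated type
  obtain ⟨τ, hτ, hτc, hτi⟩ : ∃ τ : (α ⊕ α → U) → Prop, Dp L A τ ∧ Cc L Φ a τ ∧ ∀ σ, Dp L A σ →
      ¬ (Cc L Φ a (fun v => τ v ∧ σ v) ∧ Cc L Φ a (fun v => τ v ∧ ¬ σ v)) := by
    by_contra hno
    push Not at hno
    obtain ⟨e, he⟩ := types_fin hC hA (α ⊕ α)
    let S : Type := {τ : (α ⊕ α → U) → Prop // Dp L A τ ∧ Cc L Φ a τ}
    have step : ∀ (n : ℕ) (t : S), ∃ t' : S, (∀ v, t'.1 v → t.1 v) ∧ ¬ t'.1 (e n) := by
      rintro n ⟨τ, hτ, hτc⟩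
      obtain ⟨σ, hσ, h1, h2⟩ := hno τ hτ hτc
      by_cases h : σ (e n)
      · exact ⟨⟨fun v => τ v ∧ ¬ σ v, dp_and hτ (dp_not hσ), h2⟩, fun v hv => hv.1, fun hv => hv.2 h⟩
      · exact ⟨⟨fun v => τ v ∧ σ v, dp_and hτ hσ, h1⟩, fun v hv => hv.1, fun hv => h hv.2⟩
    choose f hf hf' using step
    let t : ℕ → S := fun n => Nat.rec ⟨fun _ => True, dp_true, fun G hG hfin => by
      obtain ⟨x, hx⟩ := hΦ.con G hG hfin
      exact ⟨x, trivial, hx⟩⟩ f n
    have hmono : ∀ m n, m ≤ n → ∀ v, (t n).1 v → (t m).1 v := by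
      intro m n hmn
      induction n, hmn using Nat.le_induction with
      | base => exact fun v h => h
      | succ n hmn ih => exact fun v h => ih v (hf n (t n) v h)
    obtain ⟨x, hx⟩ := sat_dp hC (α := α) (B := A ∪ range a) (hA.countable.union (countable_range _))
      (F := {P | ∃ n, P = fun x => (t n).1 (Sum.elim x a)}) (by
        rintro P ⟨n, rfl⟩
        exact dp_par (dp_mono subset_union_left (t n).2.1) a (fun i => Or.inr ⟨i, rfl⟩)) (by
        intro G hG hfin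
        have h1 : ∀ P : (α → U) → Prop, ∃ n, P ∈ G → P = fun x => (t n).1 (Sum.elim x a) := by
          intro P
          by_cases hP : P ∈ G
          · obtain ⟨n, hn⟩ := hG hP
            exact ⟨n, fun _ => hn⟩
          · exact ⟨0, fun h => absurd h hP⟩
        choose n hn using h1
        obtain ⟨N, hN⟩ := (hfin.image n).bddAbove
        obtain ⟨x, hx, -⟩ := (t N).2.2 ∅ (empty_subset _) finite_empty
        refine ⟨x, fun P hP => ?_⟩
        rw [hn P hP]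
        exact hmono _ _ (hN ⟨P, hP, rfl⟩) _ hx)
    obtain ⟨n, hn⟩ := he (Sum.elim x a)
    exact hf' n (t n) ((tq_iff hn (t (n + 1)).2.1).1 (hx _ ⟨n + 1, rfl⟩))
  -- maximality of `Φ`
  obtain ⟨ι, _, t, ht, G, hG, hGf, hcov⟩ : ∃ (ι : Type) (_ : Finite ι) (t : ι → (α → U)), (∀ i, Lsc L A μ a (t i)) ∧
      ∃ G ⊆ Φ, G.Finite ∧ ∀ x, (∀ P ∈ G, ¬ P x) → ∃ i, τ (Sum.elim x (t i)) := by
    let Φ' : Set ((α → U) → Prop) := Φ ∪ {P | ∃ a', Lsc L A μ a a' ∧ P = fun x => τ (Sum.elim x a')}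
    have h1 : ¬ Ph L A μ a₀ Φ' := by
      intro h1
      have h2 : Φ' ⊆ Φ := hmax.le_of_ge h1 subset_union_left
      have h3 : (fun x => τ (Sum.elim x a)) ∈ Φ := h2 (Or.inr ⟨a, lsc_refl a, rfl⟩)
      obtain ⟨x, hx, hx'⟩ := hτc {fun x => τ (Sum.elim x a)} (by
        rintro _ rfl
        exact h3) (finite_singleton _)
      exact hx' _ rfl hx
    have h2 : ∀ P ∈ Φ', Dp L (univ : Set U) P := by
      rintro P (hP | ⟨a', -, rfl⟩)
      · exact hΦ.dfn P hP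
      · exact dp_par (dp_mono (subset_univ _) hτ) a' (fun i => mem_univ _)
    have h3 : ∀ (γ : Type) [Finite γ] (φ : (α ⊕ γ → U) → Prop) (c c' : γ → U), Dp L A φ → Lsc L A μ c c' →
        (fun x => φ (Sum.elim x c)) ∈ Φ' → (fun x => φ (Sum.elim x c')) ∈ Φ' := by
      rintro γ _ φ c c' hφ hcc (h | ⟨a', ha', h⟩)
      · exact Or.inl (hΦ.inv γ φ c c' hφ hcc h)
      · obtain ⟨a'', ha''⟩ := lsc_ext hC hA.countable hcc a'
        refine Or.inr ⟨a'', lsc_trans ha' (lsc_sub ha'' Sum.inr), ?_⟩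
        have h4 := (tq_iff (lsc_tq ha'') (dp_same hφ hτ)).1 (fun x => iff_of_eq (congrFun h x))
        exact funext fun x => propext (h4 x)
    have h4 : ¬ ∀ G ⊆ Φ', G.Finite → ∃ x, ∀ P ∈ G, ¬ P x := fun h =>
      h1 ⟨h2, fun P hP hPa => Or.inl (hΦ.typ P hP hPa), h3, h⟩
    push Not at h4
    obtain ⟨G', hG', hfin, hcov⟩ := h4
    have h5 : ∀ P : {P : (α → U) → Prop // P ∈ G' ∧ P ∉ Φ}, ∃ a', Lsc L A μ a a' ∧ P.1 = fun x => τ (Sum.elim x a') := by
      rintro ⟨P, hP, hP'⟩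
      rcases hG' hP with h | h
      · exact absurd h hP'
      · exact h
    choose t ht ht' using h5
    refine ⟨{P : (α → U) → Prop // P ∈ G' ∧ P ∉ Φ}, ?_, t, ht, {P | P ∈ G' ∧ P ∈ Φ}, fun P hP => hP.2,
      hfin.subset fun P hP => hP.1, fun x hx => ?_⟩
    · exact (hfin.subset (fun P hP => hP.1) : {P | P ∈ G' ∧ P ∉ Φ}.Finite).to_subtype
    · obtain ⟨P, hP, hPx⟩ := hcov x
      have h6 : P ∉ Φ := fun h => hx P ⟨hP, h⟩ hPx
      refine ⟨⟨P, hP, h6⟩, ?_⟩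
      have h7 := ht' ⟨P, hP, h6⟩
      have h8 : P x = τ (Sum.elim x (t ⟨P, hP, h6⟩)) := congrFun h7 x
      rw [← h8]
      exact hPx
  -- a common bound
  choose d hd using ht
  obtain ⟨N, hN⟩ := (finite_range d).bddAbove
  have hdN : ∀ i, Lsd L A μ N a (t i) := fun i => lsd_le (hN ⟨i, rfl⟩) (hd i)
  -- the claim
  have claim : ∀ a'', Lsc L A μ a a'' → ∃ (b y : α → U), Lsd L A μ N a'' b ∧ Lsc L A μ a b ∧ Lst L A μ a y ∧
      ∀ σ, Dp L A σ → (σ (Sum.elim y b) ↔ Cc L Φ a (fun v => τ v ∧ σ v)) := by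
    intro a'' ha''
    obtain ⟨u, hu⟩ := lsc_ext hC hA.countable ha'' (fun p : ι × α => t p.1 p.2)
    -- `t''`
    let t'' : ι → (α → U) := fun i j => u (i, j)
    have hti : ∀ i, Lsc L A μ (t i) (t'' i) := by
      intro i
      exact lsc_sub hu (fun j => Sum.inr (i, j))
    have htd : ∀ i, Lsd L A μ N a'' (t'' i) := by
      intro i
      refine lsd_inv hC hA.countable ?_ (hdN i)
      refine tq_congr (tq_sub (lsc_tq hu) (Sum.elim Sum.inl (fun j => Sum.inr (i, j)) : α ⊕ α → α ⊕ (ι × α))) ?_ ?_ <;>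
      · funext j
        rcases j with j | j <;> rfl
    have hqt : ∃ i, q (fun x => τ (Sum.elim x (t'' i))) := by
      by_contra hcon
      push Not at hcon
      have h1 : ∀ i, Dp L (univ : Set U) (fun x => τ (Sum.elim x (t'' i))) := fun i =>
        dp_par (dp_mono (subset_univ _) hτ) (t'' i) (fun j => mem_univ _)
      have hd0 : ∀ i, Dp L A (fun v : α ⊕ (ι × α) → U => τ (Sum.elim (fun j => v (Sum.inl j))
          (fun j => v (Sum.inr (i, j))))) := by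
        intro i
        refine dp_congr (dp_sub hτ (Sum.elim Sum.inl (fun j => Sum.inr (i, j)) : α ⊕ α → α ⊕ (ι × α))) fun v =>
          iff_of_eq (congrArg τ ?_)
        funext j
        rcases j with j | j <;> rfl
      refine ph_move hC hA.countable hΦ hG hGf (w := fun p : ι × α => t p.1 p.2) (w' := u)
        (lsc_sub hu Sum.inr) (ψ := fun v => ∀ i, ¬ τ (Sum.elim (fun j => v (Sum.inl j)) (fun j => v (Sum.inr (i, j)))))
        (dp_all_fin fun i => dp_not (hd0 i)) (fun x hx => ?_) hq hqΦ ?_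
      · by_contra h2
        push Not at h2
        obtain ⟨i, hi⟩ := hcov x h2
        exact hx i hi
      · have h3 : q (fun x => ∀ Q ∈ range (fun i : ι => fun x : α → U => ¬ τ (Sum.elim x (t'' i))), Q x) := by
          refine gt_all hq (finite_range _) ?_
          rintro _ ⟨i, rfl⟩
          exact (gt_not hq (h1 i)).2 (hcon i)
        refine gt_mono hq h3 (dp_all_fin fun i => dp_not (h1 i)) fun x hx i => hx _ ⟨i, rfl⟩
    obtain ⟨i, hi⟩ := hqt
    obtain ⟨y, hy⟩ := hreal (range μ ∪ range (t'' i)) ((countable_range _).union (countable_range _))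
    have hb : Lsc L A μ a (t'' i) := lsc_trans ⟨N, hdN i⟩ (hti i)
    refine ⟨t'' i, y, htd i, hb, ⟨μ, tq_refl _, ?_⟩, fun σ hσ => ?_⟩
    · refine tq_fam.1 ?_
      rw [union_eq_self_of_subset_left hμ]
      intro P hP hPa
      exact (hy P (dp_mono subset_union_left hP)).1 ((ha P hP).2 hPa)
    · have hdσ : ∀ ρ : (α ⊕ α → U) → Prop, Dp L A ρ → (q (fun x => ρ (Sum.elim x (t'' i))) ↔ ρ (Sum.elim y (t'' i))) := by
        intro ρ hρ
        exact hy _ (dp_par (dp_mono (hμ.trans subset_union_left) hρ) (t'' i) fun j => Or.inr ⟨j, rfl⟩)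
      have hall : ∀ ρ : (α ⊕ α → U) → Prop, Dp L A ρ → ρ (Sum.elim y (t'' i)) → Cc L Φ a (fun v => τ v ∧ ρ v) := by
        intro ρ hρ h1
        refine htr _ hb _ (dp_and hτ hρ) ?_
        exact hq.and _ _ hi ((hdσ ρ hρ).2 h1)
      refine ⟨hall σ hσ, fun h1 => ?_⟩
      by_contra h2
      exact hτi σ hσ ⟨h1, hall _ (dp_not hσ) h2⟩
  -- the reference pair
  obtain ⟨b₀, y₀, -, hb₀, hy₀, hσ₀⟩ := claim a (lsc_refl a)
  obtain ⟨n₀, hn₀⟩ : Lsc L A μ y₀ b₀ := lsc_trans (lsc_symm ⟨1, lsd_one hy₀⟩) hb₀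
  refine ⟨1 + n₀ + N, fun x y hx hxy => ?_⟩
  obtain ⟨y', hy'⟩ := tq_ext hC hA.countable (tq_trans (tq_symm hx) hTa) y
  obtain ⟨b, z, h1, -, h3, h4⟩ := claim y' (lsc_inv hC hA.countable hy' hxy)
  have h5 : Tq L A (Sum.elim y₀ b₀) (Sum.elim z b) := fun σ hσ h => (h4 σ hσ).2 ((hσ₀ σ hσ).1 h)
  have h6 : Lsd L A μ n₀ z b := lsd_inv hC hA.countable h5 hn₀
  have h7 : Lsd L A μ (1 + n₀ + N) a y' := lsd_comp (lsd_comp (lsd_one h3) h6) (lsd_symm h1)
  exact lsd_inv hC hA.countable (tq_symm hy') h7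

end

end Pool.Agent.TPY
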