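import Pool.Agent.TPY.LSB

/-!
# TPY, module LSC (helper73): closed invariant relations which contain the Lascar steps contain equality of strong types
-/

set_option autoImplicit false
set_option linter.unusedVariables false

namespace Pool.Agent.TPY

open FirstOrder.Language Set
open scoped FirstOrder
open Pool.Agent.MNO

section

variable {L : FirstOrder.Language.{0, 0}} {U : Type} [L.Structure U] {A : Set U} {α : Type}

theorem lfin_rep {X Y : Type} [Finite Y] (f : X → Y) : ∃ s : Set X, s.Finite ∧ ∀ x, ∃ y ∈ s, f x = f y := by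
  obtain ⟨w, -, hw⟩ := exists_subset_bijOn (univ : Set X) f
  refine ⟨w, Set.Finite.of_finite_image (Set.toFinite _) hw.injOn, fun u => ?_⟩
  have h5 : f u ∈ f '' w := by
    rw [hw.image_eq]
    exact ⟨u, mem_univ u, rfl⟩
  obtain ⟨v, hv, e⟩ := h5
  exact ⟨v, hv, e.symm⟩

/-- finite conjunctions in a family closed under conjunction -/
theorem fam_and {X Y : Type} {Γ : Set (X → Prop)} (h0 : (fun _ => True) ∈ Γ)
    (h2 : ∀ P ∈ Γ, ∀ Q ∈ Γ, (fun x => P x ∧ Q x) ∈ Γ) {G : Set Y} (hG : G.Finite) (f : Y → X → Prop)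
    (hf : ∀ y ∈ G, f y ∈ Γ) : ∃ P ∈ Γ, ∀ x, P x → ∀ y ∈ G, f y x := by
  induction G, hG using Set.Finite.induction_on with
  | empty => exact ⟨_, h0, fun x _ y hy => absurd hy (notMem_empty _)⟩
  | @insert b t _ _ ih =>
    obtain ⟨P, hP, hP'⟩ := ih fun y hy => hf y (mem_insert_of_mem b hy)
    refine ⟨_, h2 P hP (f b) (hf b (mem_insert b t)), ?_⟩
    rintro x ⟨h3, h4⟩ y (rfl | hy)
    · exact h4
    · exact hP' x h3 y hy

/-- separation by formulas -/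
theorem sep_cpt (hC : Cz L U) (hA : A.Finite) [Finite α] {a x : α → U} {E : (α → U) → (α → U) → Prop}
    (hcl : Cl2 L A E) {Γ Γ' : Set ((α ⊕ α → U) → Prop)} (hd : ∀ P ∈ Γ, Dp L A P) (hd' : ∀ P ∈ Γ', Dp L A P)
    (h0 : (fun _ => True) ∈ Γ) (h0' : (fun _ => True) ∈ Γ') (h2 : ∀ P ∈ Γ, ∀ Q ∈ Γ, (fun x => P x ∧ Q x) ∈ Γ)
    (h2' : ∀ P ∈ Γ', ∀ Q ∈ Γ', (fun x => P x ∧ Q x) ∈ Γ')
    (h : ∀ v v' : α → U, Tq L A a v → Tq L A a v' → (∀ P ∈ Γ, P (Sum.elim v x)) → (∀ P ∈ Γ', P (Sum.elim v' x)) →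
      ¬ E v v') : ∃ θ ∈ Γ, ∃ θ' ∈ Γ', ∀ v v' : α → U, Tq L A a v → Tq L A a v' → θ (Sum.elim v x) →
        θ' (Sum.elim v' x) → ¬ E v v' := by
  classical
  by_contra hno
  push Not at hno
  have hB : (A ∪ range x).Countable := hA.countable.union (countable_range _)
  obtain ⟨w, hw⟩ := sat_dp hC (α := α ⊕ α) hB
    (F := {C | (∃ P ∈ Γ, C = fun w => P (Sum.elim (fun i => w (Sum.inl i)) x)) ∨
      (∃ P ∈ Γ', C = fun w => P (Sum.elim (fun i => w (Sum.inr i)) x)) ∨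
      (∃ P, Dp L A P ∧ P a ∧ C = fun w => P (fun i => w (Sum.inl i))) ∨
      (∃ P, Dp L A P ∧ P a ∧ C = fun w => P (fun i => w (Sum.inr i))) ∨
      (∃ δ, Dp L A δ ∧ (∀ x' y', E x' y' → δ (Sum.elim x' y')) ∧ C = δ)}) (by
      rintro C (⟨P, hP, rfl⟩ | ⟨P, hP, rfl⟩ | ⟨P, hP, -, rfl⟩ | ⟨P, hP, -, rfl⟩ | ⟨δ, hδ, -, rfl⟩)
      · have h3 := dp_par (dp_mono (subset_union_left (s := A) (t := range x)) (hd P hP)) x (fun i => Or.inr ⟨i, rfl⟩)
        exact dp_sub h3 Sum.inl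
      · have h3 := dp_par (dp_mono (subset_union_left (s := A) (t := range x)) (hd' P hP)) x (fun i => Or.inr ⟨i, rfl⟩)
        exact dp_sub h3 Sum.inr
      · exact dp_sub (dp_mono subset_union_left hP) Sum.inl
      · exact dp_sub (dp_mono subset_union_left hP) Sum.inr
      · exact dp_mono subset_union_left hδ) (by
      intro G hG hfin
      have h3 : ∀ C : (α ⊕ α → U) → Prop, ∃ θ θ' : (α ⊕ α → U) → Prop, θ ∈ Γ ∧ θ' ∈ Γ' ∧ (C ∈ G →
          ∀ v v' : α → U, Tq L A a v → Tq L A a v' → E v v' → θ (Sum.elim v x) → θ' (Sum.elim v' x) →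
            C (Sum.elim v v')) := by
        intro C
        by_cases hC : C ∈ G
        · rcases hG hC with (⟨P, hP, rfl⟩ | ⟨P, hP, rfl⟩ | ⟨P, hP, hPa, rfl⟩ | ⟨P, hP, hPa, rfl⟩ | ⟨δ, hδ, h4, rfl⟩)
          · exact ⟨P, fun _ => True, hP, h0', fun _ v v' _ _ _ h5 _ => h5⟩
          · exact ⟨fun _ => True, P, h0, hP, fun _ v v' _ _ _ _ h5 => h5⟩
          · exact ⟨fun _ => True, fun _ => True, h0, h0', fun _ v v' h5 _ _ _ _ => h5 P hP hPa⟩
          · exact ⟨fun _ => True, fun _ => True, h0, h0', fun _ v v' _ h5 _ _ _ => h5 P hP hPa⟩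
          · exact ⟨fun _ => True, fun _ => True, h0, h0', fun _ v v' _ _ h5 _ _ => h4 v v' h5⟩
        · exact ⟨fun _ => True, fun _ => True, h0, h0', fun h => absurd h hC⟩
      choose f f' hf hf' hff using h3
      obtain ⟨θ, hθ, hθf⟩ := fam_and h0 h2 hfin f (fun C _ => hf C)
      obtain ⟨θ', hθ', hθf'⟩ := fam_and h0' h2' hfin f' (fun C _ => hf' C)
      obtain ⟨v, v', h4, h5, h6, h7, h8⟩ := hno θ hθ θ' hθ'
      exact ⟨Sum.elim v v', fun C hC => hff C hC v v' h4 h5 h8 (hθf _ h6 C hC) (hθf' _ h7 C hC)⟩)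
  refine h (fun i => w (Sum.inl i)) (fun i => w (Sum.inr i)) (fun P hP hPa => ?_) (fun P hP hPa => ?_)
    (fun P hP => ?_) (fun P hP => ?_) (hcl _ _ fun δ hδ h3 => ?_)
  · exact hw _ (Or.inr (Or.inr (Or.inl ⟨P, hP, hPa, rfl⟩)))
  · exact hw _ (Or.inr (Or.inr (Or.inr (Or.inl ⟨P, hP, hPa, rfl⟩))))
  · exact hw _ (Or.inl ⟨P, hP, rfl⟩)
  · exact hw _ (Or.inr (Or.inl ⟨P, hP, rfl⟩))
  · have h4 := hw δ (Or.inr (Or.inr (Or.inr (Or.inr ⟨δ, hδ, h3, rfl⟩))))
    have e : Sum.elim (fun i => w (Sum.inl i)) (fun i => w (Sum.inr i)) = w := by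
      funext i
      rcases i with i | i <;> rfl
    rw [e]
    exact h4

/-- the family of the properties of a tuple -/
def Tpf (L : FirstOrder.Language.{0, 0}) {U : Type} [L.Structure U] (A : Set U) {β : Type} (s : β → U) :
    Set ((β → U) → Prop) := {P | Dp L A P ∧ P s}

/-- the family of the consequences of a property -/
def Csq (L : FirstOrder.Language.{0, 0}) {U : Type} [L.Structure U] (A : Set U) {β : Type} (θ : (β → U) → Prop) :
    Set ((β → U) → Prop) := {P | Dp L A P ∧ ∀ v, θ v → P v}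

/-- (3a) an invariant definable set -/
theorem ppz_a (hC : Cz L U) (hA : A.Finite) [Finite α] {a x y : α → U} {E : (α → U) → (α → U) → Prop}
    (hcl : Cl2 L A E) (hinv : ∀ x y x' y', Tq L A (Sum.elim x y) (Sum.elim x' y') → E x y → E x' y')
    (hr : ∀ x, Tq L A a x → E x x) (hs : ∀ x y, Tq L A a x → Tq L A a y → E x y → E y x)
    (ht : ∀ x y z, Tq L A a x → Tq L A a y → Tq L A a z → E x y → E y z → E x z)
    (hx : Tq L A a x) (hy : Tq L A a y) (hxy : ¬ E x y) :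
    ∃ Q : (α ⊕ α → U) → Prop, Dp L A Q ∧ Q (Sum.elim x x) ∧ ¬ Q (Sum.elim y x) ∧
      ∀ v w, Tq L A a v → Tq L A a w → E v w → Q (Sum.elim v x) → Q (Sum.elim w x) := by
  classical
  obtain ⟨e, he⟩ := types_fin hC hA (α ⊕ α)
  let Sep : ((α ⊕ α → U) → Prop) → ((α ⊕ α → U) → Prop) → Prop := fun θ θ' =>
    ∀ v v' : α → U, Tq L A a v → Tq L A a v' → θ (Sum.elim v x) → θ' (Sum.elim v' x) → ¬ E v v'
  have tpt : ∀ s : α ⊕ α → U, (fun _ => True) ∈ Tpf L A s := fun s => ⟨dp_true, trivial⟩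
  have tpa : ∀ s : α ⊕ α → U, ∀ P ∈ Tpf L A s, ∀ Q ∈ Tpf L A s, (fun x => P x ∧ Q x) ∈ Tpf L A s :=
    fun s P hP Q hQ => ⟨dp_and hP.1 hQ.1, hP.2, hQ.2⟩
  have cst : ∀ θ : (α ⊕ α → U) → Prop, (fun _ => True) ∈ Csq L A θ := fun θ => ⟨dp_true, fun _ _ => trivial⟩
  have csa : ∀ θ : (α ⊕ α → U) → Prop, ∀ P ∈ Csq L A θ, ∀ Q ∈ Csq L A θ, (fun x => P x ∧ Q x) ∈ Csq L A θ :=
    fun θ P hP Q hQ => ⟨dp_and hP.1 hQ.1, fun v hv => ⟨hP.2 v hv, hQ.2 v hv⟩⟩
  -- the start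
  obtain ⟨θ₀, hθ₀, θ₀', hθ₀', hsep₀⟩ := sep_cpt hC hA (a := a) (x := x) hcl (Γ := Tpf L A (Sum.elim x x))
    (Γ' := Tpf L A (Sum.elim y x)) (fun P hP => hP.1) (fun P hP => hP.1) (tpt _) (tpt _) (tpa _) (tpa _) (by
      intro v v' hv hv' h1 h2 h3
      have h4 : Tq L A (Sum.elim x x) (Sum.elim v x) := fun P hP hPx => h1 P ⟨hP, hPx⟩
      have h5 : Tq L A (Sum.elim y x) (Sum.elim v' x) := fun P hP hPx => h2 P ⟨hP, hPx⟩
      have h6 : v = x := funext fun i => (tq_eq h4 (Sum.inl i) (Sum.inr i)).1 rfl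
      rw [h6] at h3
      refine hxy (hinv x v' x y ?_ h3)
      refine tq_congr (tq_sub (tq_symm h5) (Sum.elim Sum.inr Sum.inl : α ⊕ α → α ⊕ α)) ?_ ?_ <;>
      · funext i
        rcases i with i | i <;> rfl)
  let S : Type := {p : ((α ⊕ α → U) → Prop) × ((α ⊕ α → U) → Prop) // Dp L A p.1 ∧ Dp L A p.2 ∧ Sep p.1 p.2}
  have step : ∀ (n : ℕ) (p : S), ∃ p' : S, (∀ v, p.1.1 v → p'.1.1 v) ∧ (∀ v, p.1.2 v → p'.1.2 v) ∧
      (p'.1.1 (e n) ∨ p'.1.2 (e n)) := by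
    rintro n ⟨⟨θ, θ'⟩, hθ, hθ', hsep⟩
    by_cases hA1 : ∃ w v', Tq L A a w ∧ Tq L A a v' ∧ Tq L A (e n) (Sum.elim w x) ∧ θ' (Sum.elim v' x) ∧ E w v'
    · obtain ⟨τ, hτ, ρ, hρ, hsep'⟩ := sep_cpt hC hA (a := a) (x := x) hcl (Γ := Csq L A θ) (Γ' := Tpf L A (e n))
        (fun P hP => hP.1) (fun P hP => hP.1) (cst _) (tpt _) (csa _) (tpa _) (by
        intro v w₂ hv hw₂ h1 h2 h3
        obtain ⟨w, v', hw, hv', h4, h5, h6⟩ := hA1
        have h7 : θ (Sum.elim v x) := h1 θ ⟨hθ, fun _ h => h⟩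
        have h8 : Tq L A (e n) (Sum.elim w₂ x) := fun P hP hPx => h2 P ⟨hP, hPx⟩
        obtain ⟨v'', hv''⟩ := tq_ext hC hA.countable (tq_trans (tq_symm h4) h8) v'
        have h9 : Tq L A (Sum.elim v' x) (Sum.elim v'' x) := by
          refine tq_congr (tq_sub hv'' (Sum.elim Sum.inr (fun i => Sum.inl (Sum.inr i)) : α ⊕ α → (α ⊕ α) ⊕ α)) ?_ ?_ <;>
          · funext i
            rcases i with i | i <;> rfl
        have h10 : Tq L A (Sum.elim w v') (Sum.elim w₂ v'') := by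
          refine tq_congr (tq_sub hv'' (Sum.elim (fun i => Sum.inl (Sum.inl i)) Sum.inr : α ⊕ α → (α ⊕ α) ⊕ α)) ?_ ?_ <;>
          · funext i
            rcases i with i | i <;> rfl
        have h11 : Tq L A a v'' := tq_trans hv' (tq_sub h9 Sum.inl)
        exact hsep v v'' hv h11 h7 ((tq_iff h9 hθ').1 h5) (ht v w₂ v'' hv hw₂ h11 h3 (hinv _ _ _ _ h10 h6)))
      refine ⟨⟨(θ, fun v => θ' v ∨ ρ v), hθ, dp_or hθ' hρ.1, ?_⟩, fun v h => h, fun v h => Or.inl h,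
        Or.inr (Or.inr hρ.2)⟩
      rintro v v' hv hv' h1 (h2 | h2)
      · exact hsep v v' hv hv' h1 h2
      · exact hsep' v v' hv hv' (hτ.2 _ h1) h2
    · obtain ⟨τ, hτ, ρ, hρ, hsep'⟩ := sep_cpt hC hA (a := a) (x := x) hcl (Γ := Tpf L A (e n)) (Γ' := Csq L A θ')
        (fun P hP => hP.1) (fun P hP => hP.1) (tpt _) (cst _) (tpa _) (csa _) (by
        intro w v' hw hv' h1 h2 h3
        exact hA1 ⟨w, v', hw, hv', fun P hP hPx => h1 P ⟨hP, hPx⟩, h2 θ' ⟨hθ', fun _ h => h⟩, h3⟩)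
      refine ⟨⟨(fun v => θ v ∨ τ v, θ'), dp_or hθ hτ.1, hθ', ?_⟩, fun v h => Or.inl h, fun v h => h,
        Or.inl (Or.inr hτ.2)⟩
      rintro v v' hv hv' (h1 | h1) h2
      · exact hsep v v' hv hv' h1 h2
      · exact hsep' v v' hv hv' h1 (hρ.2 _ h2)
  choose f hf1 hf2 hf3 using step
  let t : ℕ → S := fun n => Nat.rec ⟨(θ₀, θ₀'), hθ₀.1, hθ₀'.1, hsep₀⟩ f n
  have hm1 : ∀ m n, m ≤ n → ∀ v, (t m).1.1 v → (t n).1.1 v := by
    intro m n hmn
    induction n, hmn using Nat.le_induction with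
    | base => exact fun v h => h
    | succ n hmn ih => exact fun v h => hf1 n (t n) v (ih v h)
  have hm2 : ∀ m n, m ≤ n → ∀ v, (t m).1.2 v → (t n).1.2 v := by
    intro m n hmn
    induction n, hmn using Nat.le_induction with
    | base => exact fun v h => h
    | succ n hmn ih => exact fun v h => hf2 n (t n) v (ih v h)
  -- the cover
  obtain ⟨N, hN⟩ : ∃ N, ∀ v, Tq L A a v → (t N).1.1 (Sum.elim v x) ∨ (t N).1.2 (Sum.elim v x) := by
    by_contra hno
    push Not at hno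
    obtain ⟨v, hv⟩ := sat_dp hC (α := α) (B := A ∪ range x) (hA.countable.union (countable_range _))
      (F := {C | (∃ P, Dp L A P ∧ P a ∧ C = P) ∨
        (∃ n, C = fun v => ¬ (t n).1.1 (Sum.elim v x) ∧ ¬ (t n).1.2 (Sum.elim v x))}) (by
        rintro C (⟨P, hP, -, hCP⟩ | ⟨n, rfl⟩)
        · rw [hCP]
          exact dp_mono subset_union_left hP
        · refine dp_and (dp_not ?_) (dp_not ?_)
          · exact dp_par (dp_mono subset_union_left (t n).2.1) x (fun i => Or.inr ⟨i, rfl⟩)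
          · exact dp_par (dp_mono subset_union_left (t n).2.2.1) x (fun i => Or.inr ⟨i, rfl⟩)) (by
        intro G hG hfin
        have h1 : ∀ C : (α → U) → Prop, ∃ n, C ∈ G → ∀ v, Tq L A a v → ¬ (t n).1.1 (Sum.elim v x) →
            ¬ (t n).1.2 (Sum.elim v x) → C v := by
          intro C
          by_cases hC : C ∈ G
          · rcases hG hC with (⟨P, hP, hPa, hCP⟩ | ⟨n, rfl⟩)
            · exact ⟨0, fun _ v hv _ _ => by
                rw [hCP]
                exact hv P hP hPa⟩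
            · exact ⟨n, fun _ v _ h2 h3 => ⟨h2, h3⟩⟩
          · exact ⟨0, fun h => absurd h hC⟩
        choose n hn using h1
        obtain ⟨M, hM⟩ := (hfin.image n).bddAbove
        obtain ⟨v, hv, h2, h3⟩ := hno M
        exact ⟨v, fun C hC => hn C hC v hv (fun h => h2 (hm1 _ _ (hM ⟨C, hC, rfl⟩) _ h))
          (fun h => h3 (hm2 _ _ (hM ⟨C, hC, rfl⟩) _ h))⟩)
    obtain ⟨n, hn⟩ := he (Sum.elim v x)
    have h1 := hv _ (Or.inr ⟨n + 1, rfl⟩)
    rcases hf3 n (t n) with h2 | h2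
    · exact h1.1 ((tq_iff hn (t (n + 1)).2.1).2 h2)
    · exact h1.2 ((tq_iff hn (t (n + 1)).2.2.1).2 h2)
  refine ⟨(t N).1.1, (t N).2.1, hm1 0 N (Nat.zero_le N) _ hθ₀.2, fun h => ?_, fun v w hv hw hvw h => ?_⟩
  · exact (t N).2.2.2 y y hy hy h (hm2 0 N (Nat.zero_le N) _ hθ₀'.2) (hr y hy)
  · rcases hN w hw with h1 | h1
    · exact h1
    · exact absurd hvw ((t N).2.2.2 v w hv hw h h1)

/-- (3b) finitely many instances -/
theorem ppz_b (hC : Cz L U) (hA : A.Finite) [Finite α] {a : α → U} {E : (α → U) → (α → U) → Prop}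
    {M : Set U} (hM : M.Countable) (hAM : A ⊆ M) (hME : ∀ x y, Tq L A a x → Tq L M x y → E x y)
    {Q : (α ⊕ α → U) → Prop} (hQ : Dp L A Q)
    (hQE : ∀ z v w, Tq L A a z → Tq L A a v → Tq L A a w → E v w → Q (Sum.elim v z) → Q (Sum.elim w z))
    (hs : ∀ x y, Tq L A a x → Tq L A a y → E x y → E y x) :
    {D : Set (α → U) | ∃ z, Tq L A a z ∧ D = {v | Tq L A a v ∧ Q (Sum.elim v z)}}.Finite := by
  classical
  by_contra hinf
  have hinf : {D : Set (α → U) | ∃ z, Tq L A a z ∧ D = {v | Tq L A a v ∧ Q (Sum.elim v z)}}.Infinite := hinf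
  -- types over `M` determine the set
  have h0 : ∀ y z, Tq L A a y → Tq L M y z → ∀ v, Tq L A a v → Q (Sum.elim v y) → Q (Sum.elim v z) := by
    intro y z hy hyz v hv hQv
    obtain ⟨v', hv'⟩ := tq_ext hC hM hyz v
    have h1 : Tq L M v v' := tq_sub hv' Sum.inr
    have h2 : Q (Sum.elim v' z) := by
      have h3 : Tq L M (Sum.elim v y) (Sum.elim v' z) := by
        refine tq_congr (tq_sub hv' (Sum.elim Sum.inr Sum.inl : α ⊕ α → α ⊕ α)) ?_ ?_ <;>
        · funext i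
          rcases i with i | i <;> rfl
      exact (tq_iff h3 (dp_mono hAM hQ)).1 hQv
    have hz : Tq L A a z := tq_trans hy (tq_mono hAM hyz)
    have hv'' : Tq L A a v' := tq_trans hv (tq_mono hAM h1)
    exact hQE z v' v hz hv'' hv (hs _ _ hv hv'' (hME v v' hv h1)) h2
  obtain ⟨w, hw⟩ := sat_dp hC (α := (α ⊕ α) ⊕ α) hM
    (F := {C | (∃ P, Dp L A P ∧ P a ∧ C = fun w => P (fun i => w (Sum.inl (Sum.inl i)))) ∨
      (∃ P, Dp L A P ∧ P a ∧ C = fun w => P (fun i => w (Sum.inl (Sum.inr i)))) ∨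
      (∃ P, Dp L A P ∧ P a ∧ C = fun w => P (fun i => w (Sum.inr i))) ∨
      (∃ P, Dp L M P ∧ C = fun w => P (fun i => w (Sum.inl (Sum.inl i))) ↔ P (fun i => w (Sum.inl (Sum.inr i)))) ∨
      C = fun w => ¬ (Q (Sum.elim (fun i => w (Sum.inr i)) (fun i => w (Sum.inl (Sum.inl i)))) ↔
        Q (Sum.elim (fun i => w (Sum.inr i)) (fun i => w (Sum.inl (Sum.inr i)))))}) (by
      rintro C (⟨P, hP, -, rfl⟩ | ⟨P, hP, -, rfl⟩ | ⟨P, hP, -, rfl⟩ | ⟨P, hP, rfl⟩ | rfl)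
      · exact dp_sub (dp_mono hAM hP) (fun i => Sum.inl (Sum.inl i))
      · exact dp_sub (dp_mono hAM hP) (fun i => Sum.inl (Sum.inr i))
      · exact dp_sub (dp_mono hAM hP) Sum.inr
      · exact dp_iff (dp_sub hP (fun i => Sum.inl (Sum.inl i))) (dp_sub hP (fun i => Sum.inl (Sum.inr i)))
      · refine dp_not (dp_iff ?_ ?_)
        · refine dp_congr (dp_sub (dp_mono hAM hQ) (Sum.elim Sum.inr (fun i => Sum.inl (Sum.inl i)) :
            α ⊕ α → (α ⊕ α) ⊕ α)) fun v => iff_of_eq (congrArg Q ?_)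
          funext i
          rcases i with i | i <;> rfl
        · refine dp_congr (dp_sub (dp_mono hAM hQ) (Sum.elim Sum.inr (fun i => Sum.inl (Sum.inr i)) :
            α ⊕ α → (α ⊕ α) ⊕ α)) fun v => iff_of_eq (congrArg Q ?_)
          funext i
          rcases i with i | i <;> rfl) (by
      intro G hG hfin
      have h1 : ∀ C : ((α ⊕ α) ⊕ α → U) → Prop, ∃ ψ : (α → U) → Prop, C ∈ G → ∀ y z v, Tq L A a y → Tq L A a z →
          Tq L A a v → (ψ y ↔ ψ z) → ¬ (Q (Sum.elim v y) ↔ Q (Sum.elim v z)) → C (Sum.elim (Sum.elim y z) v) := by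
        intro C
        by_cases hC : C ∈ G
        · rcases hG hC with (⟨P, hP, hPa, hCP⟩ | ⟨P, hP, hPa, hCP⟩ | ⟨P, hP, hPa, hCP⟩ | ⟨P, hP, hCP⟩ | hCP)
          · exact ⟨fun _ => True, fun _ y z v hy _ _ _ _ => by
              rw [hCP]
              exact hy P hP hPa⟩
          · exact ⟨fun _ => True, fun _ y z v _ hz _ _ _ => by
              rw [hCP]
              exact hz P hP hPa⟩
          · exact ⟨fun _ => True, fun _ y z v _ _ hv _ _ => by
              rw [hCP]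
              exact hv P hP hPa⟩
          · exact ⟨P, fun _ y z v _ _ _ h2 _ => by
              rw [hCP]
              exact h2⟩
          · exact ⟨fun _ => True, fun _ y z v _ _ _ _ h2 => by
              rw [hCP]
              exact h2⟩
        · exact ⟨fun _ => True, fun h => absurd h hC⟩
      choose ψ hψ using h1
      have : Finite G := hfin.to_subtype
      have : Fintype (G → Prop) := Fintype.ofFinite _
      obtain ⟨T, hT, hTc⟩ := hinf.exists_subset_card_eq (Fintype.card (G → Prop) + 1)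
      have h2 : ∀ D : T, ∃ z, Tq L A a z ∧ D.1 = {v | Tq L A a v ∧ Q (Sum.elim v z)} := fun D => hT D.2
      choose z hz hzD using h2
      obtain ⟨D, D', hne, heq⟩ := Fintype.exists_ne_map_eq_of_card_lt (fun (D : T) (C : G) => ψ C.1 (z D)) (by
        rw [Fintype.card_coe, hTc]
        exact Nat.lt_succ_self _)
      have h3 : ∃ v, Tq L A a v ∧ ¬ (Q (Sum.elim v (z D)) ↔ Q (Sum.elim v (z D'))) := by
        by_contra hcon
        push Not at hcon
        refine hne (Subtype.ext ?_)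
        rw [hzD D, hzD D']
        ext v
        constructor
        · rintro ⟨h4, h5⟩
          exact ⟨h4, (hcon v h4).1 h5⟩
        · rintro ⟨h4, h5⟩
          exact ⟨h4, (hcon v h4).2 h5⟩
      obtain ⟨v, hv, hv'⟩ := h3
      exact ⟨Sum.elim (Sum.elim (z D) (z D')) v, fun C hC => hψ C hC _ _ _ (hz D) (hz D') hv
        (iff_of_eq (congrFun heq ⟨C, hC⟩)) hv'⟩)
  have hy : Tq L A a (fun i => w (Sum.inl (Sum.inl i))) := fun P hP hPa => hw _ (Or.inl ⟨P, hP, hPa, rfl⟩)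
  have hz : Tq L A a (fun i => w (Sum.inl (Sum.inr i))) := fun P hP hPa =>
    hw _ (Or.inr (Or.inl ⟨P, hP, hPa, rfl⟩))
  have hv : Tq L A a (fun i => w (Sum.inr i)) := fun P hP hPa => hw _ (Or.inr (Or.inr (Or.inl ⟨P, hP, hPa, rfl⟩)))
  have hyz : Tq L M (fun i => w (Sum.inl (Sum.inl i))) (fun i => w (Sum.inl (Sum.inr i))) := fun P hP h =>
    (hw _ (Or.inr (Or.inr (Or.inr (Or.inl ⟨P, hP, rfl⟩))))).1 h
  exact hw _ (Or.inr (Or.inr (Or.inr (Or.inr rfl)))) ⟨h0 _ _ hy hyz _ hv, h0 _ _ hz (tq_symm hyz) _ hv⟩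

/-- **Pillay-Poizat**: closed invariant equivalence relations with bounded classes contain equality of strong types -/
theorem sq_of_clo (hC : Cz L U) (hA : A.Finite) [Finite α] {a : α → U} {E : (α → U) → (α → U) → Prop}
    (hcl : Cl2 L A E) (hinv : ∀ x y x' y', Tq L A (Sum.elim x y) (Sum.elim x' y') → E x y → E x' y')
    (hr : ∀ x, Tq L A a x → E x x) (hs : ∀ x y, Tq L A a x → Tq L A a y → E x y → E y x)
    (ht : ∀ x y z, Tq L A a x → Tq L A a y → Tq L A a z → E x y → E y z → E x z)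
    {M : Set U} (hM : M.Countable) (hAM : A ⊆ M) (hME : ∀ x y, Tq L A a x → Tq L M x y → E x y)
    {x y : α → U} (hx : Tq L A a x) (hxy : Sq L A x y) : E x y := by
  classical
  by_contra hcon
  have hy : Tq L A a y := tq_trans hx (tq_of_sq hxy)
  obtain ⟨Q, hQ, hQx, hQy, hQ0⟩ := ppz_a hC hA hcl hinv hr hs ht hx hy hcon
  have hQE : ∀ z v w, Tq L A a z → Tq L A a v → Tq L A a w → E v w → Q (Sum.elim v z) → Q (Sum.elim w z) := by
    intro z v w hz hv hw hvw hQv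
    obtain ⟨c, hc⟩ := tq_ext hC hA.countable (tq_trans (tq_symm hz) hx) (Sum.elim v w)
    have h1 : Tq L A (Sum.elim v w) (Sum.elim (fun i => c (Sum.inl i)) (fun i => c (Sum.inr i))) := by
      refine tq_congr (tq_sub hc Sum.inr) rfl ?_
      funext i
      rcases i with i | i <;> rfl
    have h2 : Tq L A (Sum.elim v z) (Sum.elim (fun i => c (Sum.inl i)) x) := by
      refine tq_congr (tq_sub hc (Sum.elim (fun i => Sum.inr (Sum.inl i)) Sum.inl : α ⊕ α → α ⊕ (α ⊕ α))) ?_ ?_ <;>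
      · funext i
        rcases i with i | i <;> rfl
    have h3 : Tq L A (Sum.elim w z) (Sum.elim (fun i => c (Sum.inr i)) x) := by
      refine tq_congr (tq_sub hc (Sum.elim (fun i => Sum.inr (Sum.inr i)) Sum.inl : α ⊕ α → α ⊕ (α ⊕ α))) ?_ ?_ <;>
      · funext i
        rcases i with i | i <;> rfl
    exact (tq_iff h3 hQ).2 (hQ0 _ _ (tq_trans hv (tq_sub h2 Sum.inl)) (tq_trans hw (tq_sub h3 Sum.inl))
      (hinv _ _ _ _ h1 hvw) ((tq_iff h2 hQ).1 hQv))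
  have hfin := ppz_b hC hA hM hAM hME hQ hQE hs
  -- representatives
  let ι : Type := {D : Set (α → U) | ∃ z, Tq L A a z ∧ D = {v | Tq L A a v ∧ Q (Sum.elim v z)}}
  have : Finite ι := hfin.to_subtype
  have h1 : ∀ D : ι, ∃ z, Tq L A a z ∧ D.1 = {v | Tq L A a v ∧ Q (Sum.elim v z)} := fun D => D.2
  choose z hz hzD using h1
  let b : ι × α → U := fun p => z p.1 p.2
  let T : (ι × α → U) → (α → U) → (α → U) → Prop := fun b v v' =>
    ∀ i : ι, Q (Sum.elim v fun j => b (i, j)) ↔ Q (Sum.elim v' fun j => b (i, j))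
  have hTd : Dp L A (fun w : (ι × α) ⊕ (α ⊕ α) → U => T (fun p => w (Sum.inl p)) (fun i => w (Sum.inr (Sum.inl i)))
      (fun i => w (Sum.inr (Sum.inr i)))) := by
    refine dp_all_fin fun i => dp_iff ?_ ?_
    · refine dp_congr (dp_sub hQ (Sum.elim (fun j => Sum.inr (Sum.inl j)) (fun j => Sum.inl (i, j)) :
        α ⊕ α → (ι × α) ⊕ (α ⊕ α))) fun v => iff_of_eq (congrArg Q ?_)
      funext j
      rcases j with j | j <;> rfl
    · refine dp_congr (dp_sub hQ (Sum.elim (fun j => Sum.inr (Sum.inr j)) (fun j => Sum.inl (i, j)) :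
        α ⊕ α → (ι × α) ⊕ (α ⊕ α))) fun v => iff_of_eq (congrArg Q ?_)
      funext j
      rcases j with j | j <;> rfl
  have hT1 : ∀ v v', Tq L A a v → Tq L A a v' → T b v v' → ∀ w, Tq L A a w →
      (Q (Sum.elim v w) ↔ Q (Sum.elim v' w)) := by
    intro v v' hv hv' h w hw
    let D : ι := ⟨{v | Tq L A a v ∧ Q (Sum.elim v w)}, w, hw, rfl⟩
    have h2 : {v | Tq L A a v ∧ Q (Sum.elim v w)} = {v | Tq L A a v ∧ Q (Sum.elim v (z D))} := hzD D
    have h3 : ∀ u, Tq L A a u → (Q (Sum.elim u w) ↔ Q (Sum.elim u (z D))) := by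
      intro u hu
      constructor
      · intro h4
        have h5 : u ∈ {v | Tq L A a v ∧ Q (Sum.elim v w)} := ⟨hu, h4⟩
        rw [h2] at h5
        exact h5.2
      · intro h4
        have h5 : u ∈ {v | Tq L A a v ∧ Q (Sum.elim v (z D))} := ⟨hu, h4⟩
        rw [← h2] at h5
        exact h5.2
    exact (h3 v hv).trans ((h D).trans (h3 v' hv').symm)
  -- copies of `b` give the same relation
  have hT2 : ∀ b', Tq L A b b' → ∀ v v', Tq L A a v → Tq L A a v' → (T b' v v' ↔ T b v v') := by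
    intro b' hb' v v' hv hv'
    constructor
    · intro h i
      obtain ⟨c, hc⟩ := tq_ext hC hA.countable (tq_symm hb') (Sum.elim (Sum.elim v v') (z i))
      -- `b', ((v, v'), z i)` and `b, c`
      have e : c = Sum.elim (Sum.elim (fun k => c (Sum.inl (Sum.inl k))) (fun k => c (Sum.inl (Sum.inr k))))
          (fun k => c (Sum.inr k)) := by
        funext k
        rcases k with (k | k) | k <;> rfl
      have h2 : T b (fun k => c (Sum.inl (Sum.inl k))) (fun k => c (Sum.inl (Sum.inr k))) := by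
        have h3 := dp_sub hTd (Sum.map id Sum.inl : (ι × α) ⊕ (α ⊕ α) → (ι × α) ⊕ ((α ⊕ α) ⊕ α))
        exact (tq_iff hc h3).1 h
      have h4 : Tq L A (Sum.elim (Sum.elim v v') (z i)) c := tq_sub hc Sum.inr
      have h5 := hT1 _ _ (tq_trans hv (tq_sub h4 (fun k => Sum.inl (Sum.inl k))))
        (tq_trans hv' (tq_sub h4 (fun k => Sum.inl (Sum.inr k)))) h2 _
        (tq_trans (hz i) (tq_sub h4 (fun k => Sum.inr k)))
      have h6 : Tq L A (Sum.elim v (z i)) (Sum.elim (fun k => c (Sum.inl (Sum.inl k))) fun k => c (Sum.inr k)) := by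
        refine tq_congr (tq_sub h4 (Sum.elim (fun k => Sum.inl (Sum.inl k)) Sum.inr : α ⊕ α → (α ⊕ α) ⊕ α)) ?_ ?_ <;>
        · funext k
          rcases k with k | k <;> rfl
      have h7 : Tq L A (Sum.elim v' (z i)) (Sum.elim (fun k => c (Sum.inl (Sum.inr k))) fun k => c (Sum.inr k)) := by
        refine tq_congr (tq_sub h4 (Sum.elim (fun k => Sum.inl (Sum.inr k)) Sum.inr : α ⊕ α → (α ⊕ α) ⊕ α)) ?_ ?_ <;>
        · funext k
          rcases k with k | k <;> rfl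
      exact (tq_iff h6 hQ).trans (h5.trans (tq_iff h7 hQ).symm)
    · intro h i
      have h2 : Tq L A a (fun j => b' (i, j)) := tq_trans (hz i) (tq_sub hb' (fun j => (i, j)))
      exact hT1 v v' hv hv' h _ h2
  -- compactness
  obtain ⟨P₀, hP₀, hP₀a, R₀, hR₀, hR₀b, hPR⟩ : ∃ P₀ : (α → U) → Prop, Dp L A P₀ ∧ P₀ a ∧
      ∃ R₀ : (ι × α → U) → Prop, Dp L A R₀ ∧ R₀ b ∧ ∀ v v' b' b'', P₀ v → P₀ v' → R₀ b' → R₀ b'' →
        T b' v v' → T b'' v v' := by
    by_contra hno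
    push Not at hno
    obtain ⟨w, hw⟩ := sat_dp hC (α := ((ι × α) ⊕ (ι × α)) ⊕ (α ⊕ α)) hA.countable
      (F := {C | (∃ P, Dp L A P ∧ P a ∧ C = fun w => P (fun i => w (Sum.inr (Sum.inl i)))) ∨
        (∃ P, Dp L A P ∧ P a ∧ C = fun w => P (fun i => w (Sum.inr (Sum.inr i)))) ∨
        (∃ R, Dp L A R ∧ R b ∧ C = fun w => R (fun i => w (Sum.inl (Sum.inl i)))) ∨
        (∃ R, Dp L A R ∧ R b ∧ C = fun w => R (fun i => w (Sum.inl (Sum.inr i)))) ∨
        C = fun w => T (fun i => w (Sum.inl (Sum.inl i))) (fun i => w (Sum.inr (Sum.inl i)))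
            (fun i => w (Sum.inr (Sum.inr i))) ∧ ¬ T (fun i => w (Sum.inl (Sum.inr i)))
            (fun i => w (Sum.inr (Sum.inl i))) (fun i => w (Sum.inr (Sum.inr i)))}) (by
        rintro C (⟨P, hP, -, rfl⟩ | ⟨P, hP, -, rfl⟩ | ⟨P, hP, -, rfl⟩ | ⟨P, hP, -, rfl⟩ | rfl)
        · exact dp_sub hP _
        · exact dp_sub hP _
        · exact dp_sub hP _
        · exact dp_sub hP _
        · refine dp_and ?_ (dp_not ?_)
          · exact dp_sub hTd (Sum.map Sum.inl id : (ι × α) ⊕ (α ⊕ α) → ((ι × α) ⊕ (ι × α)) ⊕ (α ⊕ α))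
          · exact dp_sub hTd (Sum.map Sum.inr id : (ι × α) ⊕ (α ⊕ α) → ((ι × α) ⊕ (ι × α)) ⊕ (α ⊕ α))) (by
        intro G hG hfin
        have h2 : ∀ C : (((ι × α) ⊕ (ι × α)) ⊕ (α ⊕ α) → U) → Prop, ∃ (P : (α → U) → Prop) (R : (ι × α → U) → Prop),
            P ∈ Tpf L A a ∧ R ∈ Tpf L A b ∧ (C ∈ G → ∀ v v' b' b'', P v → P v' → R b' → R b'' →
              T b' v v' → ¬ T b'' v v' → C (Sum.elim (Sum.elim b' b'') (Sum.elim v v'))) := by
          intro C
          by_cases hC : C ∈ G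
          · rcases hG hC with (⟨P, hP, hPa, hCP⟩ | ⟨P, hP, hPa, hCP⟩ | ⟨R, hR, hRb, hCP⟩ | ⟨R, hR, hRb, hCP⟩ | hCP)
            · exact ⟨P, fun _ => True, ⟨hP, hPa⟩, ⟨dp_true, trivial⟩, fun _ v v' b' b'' h3 _ _ _ _ _ => by
                rw [hCP]
                exact h3⟩
            · exact ⟨P, fun _ => True, ⟨hP, hPa⟩, ⟨dp_true, trivial⟩, fun _ v v' b' b'' _ h3 _ _ _ _ => by
                rw [hCP]
                exact h3⟩
            · exact ⟨fun _ => True, R, ⟨dp_true, trivial⟩, ⟨hR, hRb⟩, fun _ v v' b' b'' _ _ h3 _ _ _ => by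
                rw [hCP]
                exact h3⟩
            · exact ⟨fun _ => True, R, ⟨dp_true, trivial⟩, ⟨hR, hRb⟩, fun _ v v' b' b'' _ _ _ h3 _ _ => by
                rw [hCP]
                exact h3⟩
            · exact ⟨fun _ => True, fun _ => True, ⟨dp_true, trivial⟩, ⟨dp_true, trivial⟩,
                fun _ v v' b' b'' _ _ _ _ h3 h4 => by
                rw [hCP]
                exact ⟨h3, h4⟩⟩
          · exact ⟨fun _ => True, fun _ => True, ⟨dp_true, trivial⟩, ⟨dp_true, trivial⟩, fun h => absurd h hC⟩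
        choose P R hP hR hPR using h2
        obtain ⟨P₀, hP₀, hP₀'⟩ := fam_and (X := α → U) (Γ := Tpf L A a) ⟨dp_true, trivial⟩
          (fun P hP Q hQ => ⟨dp_and hP.1 hQ.1, hP.2, hQ.2⟩) hfin P (fun C _ => hP C)
        obtain ⟨R₀, hR₀, hR₀'⟩ := fam_and (X := ι × α → U) (Γ := Tpf L A b) ⟨dp_true, trivial⟩
          (fun P hP Q hQ => ⟨dp_and hP.1 hQ.1, hP.2, hQ.2⟩) hfin R (fun C _ => hR C)
        obtain ⟨v, v', b', b'', h3, h4, h5, h6, h7, h8⟩ := hno P₀ hP₀.1 hP₀.2 R₀ hR₀.1 hR₀.2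
        exact ⟨Sum.elim (Sum.elim b' b'') (Sum.elim v v'), fun C hC => hPR C hC v v' b' b'' (hP₀' _ h3 C hC)
          (hP₀' _ h4 C hC) (hR₀' _ h5 C hC) (hR₀' _ h6 C hC) h7 h8⟩)
    have hv : Tq L A a (fun i => w (Sum.inr (Sum.inl i))) := fun P hP hPa => hw _ (Or.inl ⟨P, hP, hPa, rfl⟩)
    have hv' : Tq L A a (fun i => w (Sum.inr (Sum.inr i))) := fun P hP hPa =>
      hw _ (Or.inr (Or.inl ⟨P, hP, hPa, rfl⟩))
    have hb' : Tq L A b (fun i => w (Sum.inl (Sum.inl i))) := fun P hP hPa =>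
      hw _ (Or.inr (Or.inr (Or.inl ⟨P, hP, hPa, rfl⟩)))
    have hb'' : Tq L A b (fun i => w (Sum.inl (Sum.inr i))) := fun P hP hPa =>
      hw _ (Or.inr (Or.inr (Or.inr (Or.inl ⟨P, hP, hPa, rfl⟩))))
    have h2 := hw _ (Or.inr (Or.inr (Or.inr (Or.inr rfl))))
    exact h2.2 ((hT2 _ hb'' _ _ hv hv').2 ((hT2 _ hb' _ _ hv hv').1 h2.1))
  -- the finite equivalence relation
  have hF : FE L A (fun v v' : α → U => (P₀ v ∧ P₀ v' ∧ ∃ b', R₀ b' ∧ T b' v v') ∨ (¬ P₀ v ∧ ¬ P₀ v')) := by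
    have key : ∀ v v', P₀ v → P₀ v' → ((∃ b', R₀ b' ∧ T b' v v') ↔ T b v v') := fun v v' hv hv' =>
      ⟨fun ⟨b', h2, h3⟩ => hPR v v' b' b hv hv' h2 hR₀b h3, fun h2 => ⟨b, hR₀b, h2⟩⟩
    refine ⟨?_, ⟨fun v => ?_, fun {v v'} h => ?_, fun {v v' v''} h h' => ?_⟩, ?_⟩
    · refine dp_or (dp_and (dp_sub hP₀ Sum.inl) (dp_and (dp_sub hP₀ Sum.inr) ?_))
        (dp_and (dp_not (dp_sub hP₀ Sum.inl)) (dp_not (dp_sub hP₀ Sum.inr)))
      refine dp_ex (P := fun w : (α ⊕ α) ⊕ (ι × α) → U => R₀ (fun p => w (Sum.inr p)) ∧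
        T (fun p => w (Sum.inr p)) (fun i => w (Sum.inl (Sum.inl i))) (fun i => w (Sum.inl (Sum.inr i))))
        (dp_and (dp_sub hR₀ Sum.inr) (dp_sub hTd (Sum.swap : (ι × α) ⊕ (α ⊕ α) → (α ⊕ α) ⊕ (ι × α))))
    · by_cases hv : P₀ v
      · exact Or.inl ⟨hv, hv, b, hR₀b, fun i => Iff.rfl⟩
      · exact Or.inr ⟨hv, hv⟩
    · rcases h with ⟨h2, h3, b', h4, h5⟩ | ⟨h2, h3⟩
      · exact Or.inl ⟨h3, h2, b', h4, fun i => (h5 i).symm⟩
      · exact Or.inr ⟨h3, h2⟩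
    · rcases h with ⟨h2, h3, h4⟩ | ⟨h2, h3⟩
      · rcases h' with ⟨h5, h6, h7⟩ | ⟨h5, h6⟩
        · refine Or.inl ⟨h2, h6, b, hR₀b, fun i => ?_⟩
          exact ((key _ _ h2 h3).1 h4 i).trans ((key _ _ h5 h6).1 h7 i)
        · exact absurd h3 h5
      · rcases h' with ⟨h5, h6, h7⟩ | ⟨h5, h6⟩
        · exact absurd h5 h3
        · exact Or.inr ⟨h2, h6⟩
    · obtain ⟨s, hs1, hs2⟩ := lfin_rep (fun v : α → U => ((P₀ v, fun i => Q (Sum.elim v fun j => b (i, j))) :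
        Prop × (ι → Prop)))
      refine ⟨s, hs1, fun v => ?_⟩
      obtain ⟨v', hv', h2⟩ := hs2 v
      refine ⟨v', hv', ?_⟩
      have h3 : P₀ v = P₀ v' := congrArg Prod.fst h2
      have h4 : T b v v' := fun i => iff_of_eq (congrFun (congrArg Prod.snd h2) i)
      by_cases hv : P₀ v
      · have h5 : P₀ v' := by
          rw [← h3]
          exact hv
        exact Or.inl ⟨hv, h5, b, hR₀b, h4⟩
      · have h5 : ¬ P₀ v' := by
          rw [← h3]
          exact hv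
        exact Or.inr ⟨hv, h5⟩
  rcases hxy _ hF with ⟨h2, h3, b', h4, h5⟩ | ⟨h2, h3⟩
  · have h6 := hPR x y b' b h2 h3 h4 hR₀b h5
    exact hQy ((hT1 x y hx hy h6 x hx).1 hQx)
  · exact h2 (hx P₀ hP₀ hP₀a)

/-- **LST**: equality of strong types over a finite set is a chain of Lascar steps -/
theorem lsc_of_sq (hC : Cz L U) (hA : A.Finite) {κ : Type} [Countable κ] {μ : κ → U} (hμ : A ⊆ range μ) [Finite α]
    {x y : α → U} (h : Sq L A x y) : Lsc L A μ x y := by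
  obtain ⟨K, hK⟩ := lsd_bd hC hA hμ x
  have hK' : ∀ u v, Tq L A x u → Lsc L A μ u v → Lsd L A μ (K + 1) u v := fun u v hu h =>
    lsd_le (Nat.le_succ K) (hK u v hu h)
  refine ⟨K + 1, ?_⟩
  refine sq_of_clo hC hA (a := x) (E := Lsd L A μ (K + 1)) (lsd_clo hC hA.countable (K + 1))
    (fun u v u' v' h1 h2 => lsd_inv hC hA.countable h1 h2)
    (fun u hu => hK' u u hu (lsc_refl u)) (fun u v _ hv h1 => lsd_symm h1)
    (fun u v w hu _ _ h1 h2 => hK' u w hu (lsc_trans ⟨_, h1⟩ ⟨_, h2⟩)) (M := range μ) (countable_range _) hμ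
    (fun u v hu h1 => hK' u v hu ⟨1, lsd_one ⟨μ, tq_refl _, ?_⟩⟩) (tq_refl x) h
  refine tq_fam.1 ?_
  rw [union_eq_self_of_subset_left hμ]
  exact h1

end

end Pool.Agent.TPY
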