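import Pool.Agent.TPY.StM1
import Pool.Agent.TPY.StL

/-!
# TPY: NPE, a piece with near elements is ended (helper47)
-/

set_option autoImplicit false
set_option linter.unusedVariables false

namespace Pool.Agent.TPY

open FirstOrder.Language Set
open scoped FirstOrder
open Pool.Agent.MNO

section

variable {L : FirstOrder.Language.{0, 0}} {U : Type} [L.Structure U]

private theorem NPE_s1 (a : Fin 1 → U) : s1 (a 0) = a := by
  funext k
  rw [Subsingleton.elim k 0]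
  rfl

/-- the claim -/
private theorem NPE_claim (hC : Cz L U) {F : Set U} {x d m₁ m₂ m₃ y₁ y₂ y₃ : U} (hF : F.Finite)
    (h1 : m₁ ∈ Pc L (insert x F) d) (h2 : m₂ ∈ Pc L (insert x F) d) (hx : x ∉ Pc L (insert m₂ F) m₃)
    (hm : Sq L (insert x F) ![m₁, m₂, m₃] ![y₁, y₂, y₃]) {C : Set U}
    (hC1 : Sq L (F ∪ C) ![x, y₁] ![y₂, y₃]) {n : ℕ} {c c' : Fin n → U} (h : Sq L (insert x F) c c')
    (hcC : ∀ j, c j ∈ Pc L (insert x F) d → c j ∈ C ∧ c' j ∈ C) :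
    Sq L (insert x F) (Sum.elim (s1 y₂) c) (Sum.elim (s1 y₂) c') := by
  classical
  have hG : (insert x F).Finite := hF.insert x
  have hR : BF L (insert x F) (Pc L (insert x F) d) := pc_bf hC d
  let I := {j // c j ∈ Pc L (insert x F) d}
  let J := {j // c j ∉ Pc L (insert x F) d}
  let c₁ : I → U := fun j => c j
  let c₁' : I → U := fun j => c' j
  let c₂ : J → U := fun j => c j
  let c₂' : J → U := fun j => c' j
  have hc₁' : ∀ j, c₁' j ∈ Pc L (insert x F) d := fun j => (bf_inv hR h _).1 j.2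
  have hc₂' : ∀ j, c₂' j ∉ Pc L (insert x F) d := fun j h1 => j.2 ((bf_inv hR h _).2 h1)
  have k1 : Sq L (insert x F) c₁ c₁' := sq_sub h (fun j : I => (j : Fin n))
  have k2 : Sq L F (Sum.elim ![x, y₁] (Sum.elim c₁ c₁')) (Sum.elim ![y₂, y₃] (Sum.elim c₁ c₁')) := by
    refine sq_mono subset_union_left (sq_add hC1 (Sum.elim c₁ c₁') ?_)
    rintro (j | j)
    · exact Or.inr (hcC _ j.2).1
    · exact Or.inr (hcC _ j.2).2
  have t2 := tq_of_sq k2
  have hy₁ : y₁ ∈ Pc L (insert x F) d := by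
    have h3 : Sq L (insert x F) (s1 m₁) (s1 y₁) := sq_sub hm (fun _ : Fin 1 => (0 : Fin 3))
    exact (bf_inv1 hR h3).1 h1
  have hy₂ : y₂ ∈ Pc L (insert x F) d := by
    have h3 : Sq L (insert x F) (s1 m₂) (s1 y₂) := sq_sub hm (fun _ : Fin 1 => (1 : Fin 3))
    exact (bf_inv1 hR h3).1 h2
  have hRy : Pc L (insert x F) y₁ = Pc L (insert x F) d := pc_eq hC hG.countable hy₁
  have k3 : Sq L (insert y₂ F) c₁ c₁' := by
    have h4 := sq_tq (A := F) (c := s1 x) (c' := s1 y₂) (x := c₁) (y := c₁') (x' := c₁) (y' := c₁')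
      (tq_congr (tq_sub t2 (Sum.elim Sum.inr (fun _ => Sum.inl 0) : (I ⊕ I) ⊕ Fin 1 → Fin 2 ⊕ (I ⊕ I))) (by
        funext k
        rcases k with k | k
        · rfl
        · rfl) (by
        funext k
        rcases k with k | k
        · rfl
        · rfl)) (by
        rw [ins_eq]
        exact k1)
    rw [ins_eq] at h4
    exact h4
  have k4 : ∀ j, c₁ j ∈ Pc L (insert y₂ F) y₃ := fun j =>
    pcs_tq hC hF.countable t2 (Sum.inl 0) (Sum.inl 1) (Sum.inr (Sum.inl j)) (by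
      show c₁ j ∈ Pc L (insert x F) y₁
      rw [hRy]
      exact j.2)
  have k5 : x ∉ Pc L (insert y₂ F) y₃ := by
    have h4 : Sq L F (Sum.elim ![m₁, m₂, m₃] (s1 x)) (Sum.elim ![y₁, y₂, y₃] (s1 x)) :=
      sq_mono (subset_insert x F) (sq_add hm (s1 x) fun _ => mem_insert x F)
    intro h5
    exact hx (pcs_tq hC hF.countable (tq_symm (tq_of_sq h4)) (Sum.inl 1) (Sum.inl 2) (Sum.inr 0) h5)
  have k6 : Sq L (insert y₂ F ∪ range (s1 x)) c₁ c₁' :=
    of_pc hC (hF.insert y₂) k4 k3 (w := s1 x) (fun _ => k5)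
  have k7 : Sq L (insert x F) (Sum.elim c₁ (s1 y₂)) (Sum.elim c₁' (s1 y₂)) := by
    refine sq_mono ?_ (sq_add k6 (s1 y₂) fun _ => Or.inl (mem_insert _ _))
    rintro v (rfl | hv)
    · exact Or.inr ⟨0, rfl⟩
    · exact Or.inl (Or.inr hv)
  have k8 : Sq L (insert x F) (Sum.elim (Sum.elim c₁ (s1 y₂)) c₂) (Sum.elim (Sum.elim c₁' (s1 y₂)) c₂) := by
    refine bf_prd hR ?_ (fun j => j.2) k7
    rintro (j | j)
    · exact j.2
    · exact hy₂
  have k9 : Sq L (insert x F) (Sum.elim c₂ (Sum.elim c₁' (s1 y₂))) (Sum.elim c₂' (Sum.elim c₁' (s1 y₂))) := by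
    refine bf_prd (bf_compl hC hG.countable hR) (fun j => j.2) ?_ (sq_sub h (fun j : J => (j : Fin n)))
    rintro (j | j) h4
    · exact h4 (hc₁' j)
    · exact h4 hy₂
  have k10 : Sq L (insert x F) (Sum.elim (Sum.elim c₁' (s1 y₂)) c₂) (Sum.elim (Sum.elim c₁' (s1 y₂)) c₂') := by
    refine sq_congr (sq_sub k9 (Sum.swap : (I ⊕ Fin 1) ⊕ J → J ⊕ (I ⊕ Fin 1))) ?_ ?_ <;>
    · funext k
      rcases k with k | k <;> rfl
  have k11 := sq_sub (sq_trans k8 k10) (Sum.elim (fun _ => Sum.inl (Sum.inr 0)) (fun j : Fin n =>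
    if hj : c j ∈ Pc L (insert x F) d then Sum.inl (Sum.inl ⟨j, hj⟩) else Sum.inr ⟨j, hj⟩) :
      Fin 1 ⊕ Fin n → (I ⊕ Fin 1) ⊕ J)
  refine sq_congr k11 ?_ ?_
  · funext k
    rcases k with k | k
    · rfl
    · simp only [Sum.elim_inr]
      split_ifs <;> rfl
  · funext k
    rcases k with k | k
    · rfl
    · simp only [Sum.elim_inr]
      split_ifs <;> rfl

end

theorem thm_NPE (hULT : St_ULT) : St_NPE := by
  classical
  intro L U _ hC F x d m₁ m₂ m₃ hF hd hm₁ hm₂ hx hnear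
  have hG : (insert x F).Finite := hF.insert x
  have hR : BF L (insert x F) (Pc L (insert x F) d) := pc_bf hC d
  -- the family
  let ι := {C : Set U // C.Finite ∧ C ⊆ Pc L (insert x F) d}
  let S : ι → Set (Fin 1 → U) := fun C => {y | ∃ y₁ y₃ : U, Sq L (insert x F) ![m₁, m₂, m₃] ![y₁, y 0, y₃] ∧
    Sq L (F ∪ C) ![x, y₁] ![y 0, y₃]}
  have hmono : ∀ C C' : ι, (C : Set U) ⊆ C' → S C' ⊆ S C := by
    rintro C C' h y ⟨y₁, y₃, h1, h2⟩
    exact ⟨y₁, y₃, h1, sq_mono (union_subset_union_right F h) h2⟩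
  obtain ⟨r, hr, hr1, hr2⟩ := hULT L U (Fin 1) ι S ⟨⟨∅, finite_empty, empty_subset _⟩⟩ (by
    rintro ⟨C, hCf, hCR⟩
    obtain ⟨n, c, hc⟩ := exists_enum hCf
    obtain ⟨y₁, y₂, y₃, h1, h2⟩ := hnear n c (fun i => hCR (by
      rw [← hc]
      exact ⟨i, rfl⟩))
    rw [hc] at h2
    exact ⟨s1 y₂, y₁, y₃, h1, h2⟩) (by
    rintro ⟨C, hCf, hCR⟩ ⟨C', hCf', hCR'⟩
    refine ⟨⟨C ∪ C', hCf.union hCf', union_subset hCR hCR'⟩, subset_inter ?_ ?_⟩
    · exact hmono ⟨C, hCf, hCR⟩ ⟨C ∪ C', hCf.union hCf', union_subset hCR hCR'⟩ subset_union_left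
    · exact hmono ⟨C', hCf', hCR'⟩ ⟨C ∪ C', hCf.union hCf', union_subset hCR hCR'⟩ subset_union_right)
  have hS2 : ∀ (C : ι) (y : Fin 1 → U), y ∈ S C → Sq L (insert x F) (s1 m₂) (s1 (y 0)) := by
    rintro C y ⟨y₁, y₃, h1, -⟩
    exact sq_sub h1 (fun _ : Fin 1 => (1 : Fin 3))
  let C₀ : ι := ⟨∅, finite_empty, empty_subset _⟩
  refine ⟨r, ⟨hr, ?_, ?_⟩, m₂, hm₂, ?_⟩
  · -- not realised
    intro e he
    obtain ⟨y, hy, hye⟩ := hr2 C₀ _ he
    have h1 := hS2 _ _ hy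
    have hye' : y 0 = e := hye
    rw [hye'] at h1
    have h2 : e ∈ Pc L (insert x F) d := (bf_inv1 hR h1).1 hm₂
    obtain ⟨z, ⟨y₁, y₃, -, h4⟩, hze⟩ := hr2 ⟨{e}, finite_singleton e, singleton_subset_iff.2 h2⟩ _ he
    have hze' : z 0 = e := hze
    have h5 := tq_par (tq_symm (tq_of_sq h4)) (0 : Fin 2) (by
      show z 0 ∈ F ∪ {e}
      exact Or.inr hze')
    have h6 : x = z 0 := h5
    rw [hze'] at h6
    rw [← h6] at h2
    exact par_notMem hC hG.countable (mem_insert x F) hd h2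
  · -- invariant
    intro n P hP c c' hcc h
    by_contra hcon
    have hPd : ∀ c : Fin n → U, Dp L (univ : Set U) (fun y : Fin 1 → U => P (Sum.elim y c)) := fun c =>
      dp_par (dp_mono (subset_univ _) hP) c (fun i => mem_univ _)
    have h1 := (hr.max _ (hPd c')).resolve_left hcon
    have h2 := hr.and _ _ h h1
    let T : Set (Fin n) := {j | c j ∈ Pc L (insert x F) d}
    let C : ι := ⟨c '' T ∪ c' '' T, (T.toFinite.image c).union (T.toFinite.image c'), by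
      rintro _ (⟨j, hj, rfl⟩ | ⟨j, hj, rfl⟩)
      · exact hj
      · exact (bf_inv hR hcc j).1 hj⟩
    obtain ⟨y, ⟨y₁, y₃, h3, h4⟩, h5, h6⟩ := hr2 C _ h2
    have h7 := NPE_claim hC hF hm₁ hm₂ hx h3 h4 hcc
      (fun j hj => ⟨Or.inl ⟨j, hj, rfl⟩, Or.inr ⟨j, hj, rfl⟩⟩)
    rw [NPE_s1 y] at h7
    exact h6 ((tq_of_sq h7) P hP h5)
  · -- the strong type
    intro E hE
    refine hr1 C₀ _ (dp_mono (subset_univ _) (fe_cls hE (s1 m₂))) fun y hy => ?_
    have h1 := hS2 _ _ hy E hE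
    rw [NPE_s1 y] at h1
    exact hE.eqv.symm h1

end Pool.Agent.TPY
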