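import Pool.Agent.TPY.StR

/-!
# TPY: full T6, module RST (helper60): a generic point can be moved inside its class
-/

set_option autoImplicit false
set_option linter.unusedVariables false

namespace Pool.Agent.TPY

open FirstOrder.Language Set
open scoped FirstOrder
open Pool.Agent.MNO

section

variable {L : FirstOrder.Language.{0, 0}} {U : Type} [L.Structure U]

/-- there are only countably many unions of classes of members of `FE A` -/
private theorem rst_cnt (hC : Cz L U) {α : Type} [Finite α] {A : Set U} (hA : A.Countable) :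
    {P : (α → U) → Prop | ∃ E, FE L A E ∧ ∀ x y, E x y → P x → P y}.Countable := by
  have h1 : {P : (α → U) → Prop | ∃ E, FE L A E ∧ ∀ x y, E x y → P x → P y} ⊆
      ⋃ E ∈ {E : (α → U) → (α → U) → Prop | FE L A E},
        {P : (α → U) → Prop | ∀ x y, E x y → P x → P y} := by
    rintro P ⟨E, hE, hP⟩
    exact mem_biUnion (show E ∈ {E : (α → U) → (α → U) → Prop | FE L A E} from hE) hP
  refine (Set.Countable.biUnion (fe_cnt hC hA) fun E hE => ?_).mono h1
  have hE' : FE L A E := hE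
  obtain ⟨s, hs, hs'⟩ := hE'.fin
  refine Set.Finite.countable (Set.Finite.of_injOn (f := fun P : (α → U) → Prop => {y | y ∈ s ∧ P y})
    (t := {b | b ⊆ s}) (fun P _ y hy => hy.1) ?_ hs.finite_subsets)
  intro P hP Q hQ hPQ
  funext x
  obtain ⟨y, hy, hxy⟩ := hs' x
  have h2 : P y ↔ Q y := by
    have h3 := Set.ext_iff.1 hPQ y
    exact ⟨fun h => (h3.1 ⟨hy, h⟩).2, fun h => (h3.2 ⟨hy, h⟩).2⟩
  apply propext
  constructor
  · intro h
    exact hQ _ _ (hE'.eqv.symm hxy) (h2.1 (hP _ _ hxy h))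
  · intro h
    exact hP _ _ (hE'.eqv.symm hxy) (h2.2 (hQ _ _ hxy h))

private theorem pair_eta (u : Fin 2 → U) : ![u 0, u 1] = u := by
  funext k
  fin_cases k <;> rfl

/-- the relations which are used -/
private structure Er (L : FirstOrder.Language.{0, 0}) {U : Type} [L.Structure U] (A D : Set U)
    (R : U → U → Prop) (E : U → U → Prop) : Prop where
  dfn : Dp L (univ : Set U) (fun u : Fin 2 → U => E (u 0) (u 1))
  eqv : Equivalence E
  inv : ∀ a b a' b', Sq L A ![a, b] ![a', b'] → E a b → E a' b'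
  sat : ∀ a ∈ D, ∀ b ∈ D, R a b → E a b

private theorem er_top (A D : Set U) (R : U → U → Prop) : Er L A D R (fun _ _ => True) :=
  ⟨dp_true, ⟨fun _ => trivial, fun _ => trivial, fun _ _ => trivial⟩, fun _ _ _ _ _ _ => trivial,
    fun _ _ _ _ _ => trivial⟩

private theorem er_inter {A D : Set U} {R : U → U → Prop} {E E' : U → U → Prop} (h : Er L A D R E)
    (h' : Er L A D R E') : Er L A D R (fun x y => E x y ∧ E' x y) :=
  ⟨dp_and h.dfn h'.dfn, ⟨fun x => ⟨h.eqv.refl x, h'.eqv.refl x⟩,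
      fun hxy => ⟨h.eqv.symm hxy.1, h'.eqv.symm hxy.2⟩,
      fun hxy hyz => ⟨h.eqv.trans hxy.1 hyz.1, h'.eqv.trans hxy.2 hyz.2⟩⟩,
    fun a b a' b' hs he => ⟨h.inv a b a' b' hs he.1, h'.inv a b a' b' hs he.2⟩,
    fun a ha b hb hab => ⟨h.sat a ha b hb hab, h'.sat a ha b hb hab⟩⟩

/-- the property used for genericity -/
private theorem rst_ivr (hC : Cz L U) {A D : Set U} (hA : A.Finite) {R : U → U → Prop} {E : U → U → Prop}
    (h : Er L A D R E) {n : ℕ} {F : (Fin 1 ⊕ Fin n → U) → (Fin 1 ⊕ Fin n → U) → Prop} (hF : FE L A F)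
    (y : Fin 1 ⊕ Fin n → U) :
    Ivr L A D R (fun (v : U) (d : Fin n → U) => ∃ v', E v' v ∧ F (Sum.elim (s1 v') d) y) := by
  refine ⟨?_, ?_, ?_⟩
  · have h1 : Dp L (univ : Set U) (fun w : (Fin 1 ⊕ Fin n) ⊕ Unit → U =>
        E (w (Sum.inr ())) (w (Sum.inl (Sum.inl 0)))) :=
      dp_sub h.dfn (![Sum.inr (), Sum.inl (Sum.inl 0)] : Fin 2 → (Fin 1 ⊕ Fin n) ⊕ Unit)
    have h2 := dp_sub (dp_mono (subset_univ _) (fe_cls hF y))
      (Sum.elim (fun _ => Sum.inr ()) (fun i => Sum.inl (Sum.inr i)) :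
        Fin 1 ⊕ Fin n → (Fin 1 ⊕ Fin n) ⊕ Unit)
    have h3 : Dp L (univ : Set U) (fun w : (Fin 1 ⊕ Fin n) ⊕ Unit → U =>
        F (Sum.elim (s1 (w (Sum.inr ()))) (fun i => w (Sum.inl (Sum.inr i)))) y) := by
      refine dp_congr h2 fun w => iff_of_eq ?_
      congr 1
      funext k
      rcases k with k | k <;> rfl
    exact dp_ex1 (dp_and h1 h3)
  · rintro v d v₁ d₁ hs ⟨v', hE, hF'⟩
    obtain ⟨w, hw⟩ := sq_ext hC hA.countable hs (s1 v')
    refine ⟨w 0, h.inv v' v (w 0) v₁ ?_ hE, ?_⟩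
    · have h1 := sq_sub hw (![Sum.inr 0, Sum.inl (Sum.inl 0)] : Fin 2 → (Fin 1 ⊕ Fin n) ⊕ Fin 1)
      refine sq_congr h1 ?_ ?_ <;>
      · funext k
        fin_cases k <;> rfl
    · have h1 := sq_sub hw (Sum.elim (fun k => Sum.inr k) (fun i => Sum.inl (Sum.inr i)) :
        Fin 1 ⊕ Fin n → (Fin 1 ⊕ Fin n) ⊕ Fin 1)
      have h2 : Sq L A (Sum.elim (s1 v') d) (Sum.elim (s1 (w 0)) d₁) := by
        refine sq_congr h1 ?_ ?_
        · funext k
          rcases k with k | k <;> rfl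
        · funext k
          rcases k with k | k
          · exact congrArg w (Subsingleton.elim 0 k)
          · rfl
      exact hF.eqv.trans (hF.eqv.symm (h2 F hF)) hF'
  · rintro v hv v₁ hv₁ d hR ⟨v', hE, hF'⟩
    exact ⟨v', h.eqv.trans hE (h.sat v hv v₁ hv₁ hR), hF'⟩

end

theorem thm_RST (hRDE : St_RDE) : St_RST := by
  classical
  intro L U _ hC A a D R hA hD hE C x hx n c c' hc hc' hcc
  -- the parameters
  have hB : ∀ P : (Fin 2 → U) → Prop, ∃ B : Set U, B.Finite ∧ (Dp L (univ : Set U) P → Dp L B P) := by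
    intro P
    by_cases hP : Dp L (univ : Set U) P
    · obtain ⟨B, hB, -, hB'⟩ := dp_fin hP
      exact ⟨B, hB, fun _ => hB'⟩
    · exact ⟨∅, finite_empty, fun h => absurd h hP⟩
  choose B hBf hBd using hB
  have hcnt := rst_cnt hC (α := Fin 2) hA.countable
  let B0 : Set U := ⋃ P ∈ {P : (Fin 2 → U) → Prop | ∃ E, FE L A E ∧ ∀ x y, E x y → P x → P y}, B P
  have hB0 : B0.Countable := Set.Countable.biUnion hcnt fun P _ => (hBf P).countable
  let Bt : Set U := B0 ∪ (A ∪ (insert x (range c ∪ range c')))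
  have hBt : Bt.Countable := hB0.union (hA.countable.union
    (((countable_range c).union (countable_range c')).insert x))
  have hxB : x ∈ Bt := Or.inr (Or.inr (mem_insert _ _))
  have hcB : ∀ i, c i ∈ Bt := fun i => Or.inr (Or.inr (mem_insert_of_mem _ (Or.inl ⟨i, rfl⟩)))
  have hcB' : ∀ i, c' i ∈ Bt := fun i => Or.inr (Or.inr (mem_insert_of_mem _ (Or.inr ⟨i, rfl⟩)))
  have hEB : ∀ E, Er L A D R E → Dp L Bt (fun u : Fin 2 → U => E (u 0) (u 1)) := by
    intro E hE
    have h1 := (hRDE L U hC (Fin 2) A (fun u => E (u 0) (u 1)) hA hE.dfn (by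
      intro u v huv
      refine hE.inv (u 0) (u 1) (v 0) (v 1) ?_
      rw [pair_eta, pair_eta]
      exact huv)).1
    refine dp_mono ?_ (hBd _ hE.dfn)
    intro b hb
    exact Or.inl (mem_biUnion (show (fun u : Fin 2 → U => E (u 0) (u 1)) ∈
      {P : (Fin 2 → U) → Prop | ∃ E, FE L A E ∧ ∀ x y, E x y → P x → P y} from h1) hb)
  -- compactness
  obtain ⟨v, hv⟩ := sat_dp hC hBt
    (F := {Q : (Fin 1 → U) → Prop | (∃ E, Er L A D R E ∧ Q = fun v => E (v 0) x) ∨
      ∃ F, FE L A F ∧ Q = fun v => F (Sum.elim v c') (Sum.elim (s1 x) c)}) (by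
      rintro Q (⟨E, hE, rfl⟩ | ⟨F, hF, rfl⟩)
      · exact dp_par1 (dp_sub (hEB E hE) (![Sum.inl 0, Sum.inr ()] : Fin 2 → Fin 1 ⊕ Unit)) hxB
      · refine dp_par (dp_mono ?_ (fe_cls hF (Sum.elim (s1 x) c))) c' hcB'
        rintro b (hb | ⟨i, rfl⟩)
        · exact Or.inr (Or.inl hb)
        · rcases i with i | i
          · exact hxB
          · exact hcB i) (by
      intro G hG hfin
      have key : ∀ G : Set ((Fin 1 → U) → Prop), G.Finite →
          G ⊆ {Q : (Fin 1 → U) → Prop | (∃ E, Er L A D R E ∧ Q = fun v => E (v 0) x) ∨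
            ∃ F, FE L A F ∧ Q = fun v => F (Sum.elim v c') (Sum.elim (s1 x) c)} →
          ∃ E F, Er L A D R E ∧ FE L A F ∧ ∀ v : Fin 1 → U, E (v 0) x →
            F (Sum.elim v c') (Sum.elim (s1 x) c) → ∀ Q ∈ G, Q v := by
        intro G hG
        induction G, hG using Set.Finite.induction_on with
        | empty =>
          intro _
          have hT : FE L A (fun _ _ : Fin 1 ⊕ Fin n → U => True) := by
            have h1 := fe_of_dp (L := L) (A := A) (P := fun _ : Fin 1 ⊕ Fin n → U => True) dp_true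
            refine ⟨dp_true, ⟨fun _ => trivial, fun _ => trivial, fun _ _ => trivial⟩, ?_⟩
            obtain ⟨s, hs, hs'⟩ := h1.fin
            refine ⟨s, hs, fun x => ?_⟩
            obtain ⟨y, hy, -⟩ := hs' x
            exact ⟨y, hy, trivial⟩
          exact ⟨_, _, er_top A D R, hT, fun v _ _ Q hQ => absurd hQ (notMem_empty _)⟩
        | @insert Q G _ _ ih =>
          intro hQG
          obtain ⟨E, F, hE, hF, hEF⟩ := ih fun P hP => hQG (mem_insert_of_mem _ hP)
          rcases hQG (mem_insert _ _) with ⟨E', hE', rfl⟩ | ⟨F', hF', rfl⟩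
          · refine ⟨_, F, er_inter hE hE', hF, fun v h1 h2 P hP => ?_⟩
            rcases hP with rfl | hP
            · exact h1.2
            · exact hEF v h1.1 h2 P hP
          · refine ⟨E, _, hE, fe_inter hF hF', fun v h1 h2 P hP => ?_⟩
            rcases hP with rfl | hP
            · exact h2.2
            · exact hEF v h1 h2.1 P hP
      obtain ⟨E, F, hE, hF, hEF⟩ := key G hfin hG
      obtain ⟨v', h1, h2⟩ := hx.2 n _ (rst_ivr hC hA hE hF (Sum.elim (s1 x) c)) c c' hc hc' hcc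
        ⟨x, hE.eqv.refl x, hF.eqv.refl _⟩
      exact ⟨s1 v', hEF (s1 v') h1 h2⟩)
  have hvs : s1 (v 0) = v := by
    funext k
    exact congrArg v (Subsingleton.elim 0 k)
  have hs : Sq L A (Sum.elim (s1 x) c) (Sum.elim (s1 (v 0)) c') := by
    rw [hvs]
    intro F hF
    exact hF.eqv.symm (hv _ (Or.inr ⟨F, hF, rfl⟩))
  have hvD : v 0 ∈ D := hD _ (sq_trans hx.1 (sq_sub hs Sum.inl))
  have hxD : x ∈ D := hD _ hx.1
  refine ⟨v 0, ?_, hvD, hs⟩
  by_contra hR
  obtain ⟨E, h1, h2, h3, h4, h5⟩ := hE (v 0) hvD x hxD hR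
  exact h5 (hv _ (Or.inl ⟨E, ⟨h1, h2, h3, h4⟩, rfl⟩))

end Pool.Agent.TPY
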