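import Pool.Agent.TPY.StF

/-!
# TPY: statements, part B (helper8): the structure chapter for ended pieces, without extension bases

`Gd L A r`: `r` is a type of elements, not realised, invariant over `A`; `e(B) = En L B r` for finite `B ⊇ A`; `e(A)` is an
ENDED piece over `A`.  `St_S1`: the pieces over `B` of the elements of an ended piece over `A ⊆ B` are nice, or inner, or
in the cluster of an element of `B` in a free union of clusters over `A`.  `St_REB`: realisation.
Type S: `TS L A r`.  Type L: not `TS L A r`.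
-/

set_option autoImplicit false
set_option linter.unusedVariables false

namespace Pool.Agent.TPY

open FirstOrder.Language Set
open scoped FirstOrder
open Pool.Agent.MNO (Dp FE Sq Exa)

/-- [NEN] ended pieces are nice.
PROOF.  Type S: FRV: `NiceV 0`.  Type L: TRL: `N` as in NIL; NIL. -/
def St_NEN : Prop :=
  ∀ (L : FirstOrder.Language.{0, 0}) (U : Type) [L.Structure U], Cz L U →
    ∀ (r : ((Fin 1 → U) → Prop) → Prop) (A : Set U), A.Finite → Gd L A r → ∀ z ∈ En L A r, ∃ n, NiceV L n A z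

/-- [REB] every strong type over `A` in the ended piece `e(A)` occurs in one linear piece or free union over `B ⊇ A`.
PROOF.  Type S: FRX (`TE L A r`).  Type L: an independent sequence `x_0, .., x_(N-1)` over `A`, `C = A ∪ pre x N`, `NF C r`, LQF;
`b₁, b₂` in `e(C)`, `lt b₁ b₂` (`gap`); `B = C b₁ b₂`, `E = {v | v ∈ e(C) ∧ lt b₂ v}`, LIN; REA. -/
def St_REB : Prop :=
  ∀ (L : FirstOrder.Language.{0, 0}) (U : Type) [L.Structure U], Cz L U →
    ∀ (r : ((Fin 1 → U) → Prop) → Prop) (A : Set U), A.Finite → Gd L A r →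
    ∃ (B E : Set U), B.Finite ∧ A ⊆ B ∧ ((∃ lt, LinV L B E lt) ∨ ∃ cl, FreV L B E cl) ∧
      ∀ y ∈ En L A r, ∃ z ∈ E, Sq L A (s1 y) (s1 z)

/-- [S1] the pieces over `B` of the elements of an ended piece over `A ⊆ B`.
PROOF.  `z ∈ B`: `Pc B z = {z}` (`pc_par`).  `z ∈ e(B)`: NEN over `B`.  Let `z ∉ B`, `z ∉ e(B)`.
Type S: `frx_out`: `z ∉ e(A b)` for some `b ∈ B` (TRG), so `b ∈ e(A)` (NNL) and `b`, `z` are in the same cluster of `TE L A r`.
Type L: let `F` be maximal with `A ⊆ F ⊆ B` and `z ∈ e(F)`.  For every `y ∈ B \ F`: `z ∉ e(F y)`, so `y ∈ e(F)` (NNL).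
(1) `NF F r`: `P := e(F)` is a linear piece over `F` (LQF), `B \ F ⊆ P`, not `lt y z` for `y ∈ B \ F`.  If there is `y ∈ B \ F` with
not `lt z y` then `Pc B z` is in the cluster of `y` (LOH (4)): INNER (`inrd_lin`, LIN).  Otherwise `z` is below `B \ F`; `b` minimal in
`B \ F`: `P' := P_(<b)` satisfies LQ over `F b` and misses `B`, so it satisfies LQ over `B` (LQX): NI2: `NiceV 2 B z`.
(2) not `NF F r`: RIG for `F`, any `y ∈ B \ F`: the piece of `z` over `F y` is inner (as in NIL, but the linear base is moved to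
`y` instead of `y` to the base), and it contains `Pc B z`. -/
def St_S1 : Prop :=
  ∀ (L : FirstOrder.Language.{0, 0}) (U : Type) [L.Structure U], Cz L U →
    ∀ (r : ((Fin 1 → U) → Prop) → Prop) (A : Set U), A.Finite → Gd L A r →
    ∀ B : Set U, A ⊆ B → B.Finite → ∀ z ∈ En L A r,
    (∃ n, NiceV L n B z) ∨
    (∃ (H E : Set U) (lt : U → U → Prop) (y : U), H.Finite ∧ A ⊆ H ∧ y ∈ B ∧ LinV L H E lt ∧ y ∈ E ∧
      Disjoint (Pc L B z) H ∧ ∀ v ∈ Pc L B z, v ∈ E ∧ ¬ lt y v ∧ ¬ lt v y) ∨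
    ∃ (E : Set U) (cl : U → U → Prop) (b : U), FreV L A E cl ∧ En L A r ⊆ E ∧
      (∀ y ∈ E, ∃ x ∈ En L A r, Tq L A (s1 x) (s1 y)) ∧ b ∈ B ∧ b ∈ E ∧ cl b z

end Pool.Agent.TPY
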