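import Pool.Agent.TPY.StN
import Pool.Agent.TPY.Brg1

/-!
# TPY: the GAP theorem (helper31's proof, shortened by helper97), statements with proofs in the docstrings

`F` finite, `z : ℚ → U` an `F`-indiscernible nonconstant sequence of elements.  GAP (`St_GAP`): for some finite `J` and some
interval `(a, b)` around `0` which misses `J` there is a type `r` which is invariant over `F ∪ z '' J`, not realised, and contains
the strong type of `z i` over `F ∪ z '' J` (`a < i < b`); if `z` is not totally indiscernible over `F` then the end of `r` is linear and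
`z i << z j` for `a < i < j < b`.

CONVENTIONS.  `Ids A S z`: increasing tuples of `z` with indices in `S` have the same TYPE over `A` (`A` arbitrary).  `~_A` means `Tq A`,
`=*_A` means `Sq A`.  Lemmas `ids_name` (naming terms), `ids_sq` (`Ids`, `A` finite, no last element of `S`: same strong type over `A`),
`ids_mv`, `ids_cp` (transport), `sqc_ext` (copies), `nnl0`, `nonalg`, `gh_..` are in `GBA.lean`.

THE ORDERED CASE (`GH F z`): everything happens in `Ioo (-4) 4`.  `G0 = F, z (-3), z 3`; `G1 = G0, z (-1), z 1`; `Eb` is the piece of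
`z 0` over `G1`; `Ll y`, `Rr y` are the pieces over `G0, y` of `z (-1)` and `z 1`.  A COPY is a `z'` with `Cpz G1 z z'`; then `z'` and
`z` agree at `-3, -1, 1, 3` and `GH F z'`, `G0 F z' = G0 F z`, .. (`gh_cp`); so all statements about `z` can be used for every copy.
Every `y` with `z 0 =*_G1 y` is `z' 0` for some copy `z'` (`sqc_ext`); for `-1 < i < 1` and a copy `z'`: `z 0 =*_G1 z' i`.
-/

set_option autoImplicit false
set_option linter.unusedVariables false

namespace Pool.Agent.TPY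

open FirstOrder.Language Set
open scoped FirstOrder
open Pool.Agent.MNO (Dp FE Sq Exa)

section

variable (L : FirstOrder.Language.{0, 0}) {U : Type} [L.Structure U]

/-- the increasing finite tuples of `z` with indices in `S` have the same type over `A` -/
def Ids (A : Set U) (S : Set ℚ) (z : ℚ → U) : Prop :=
  ∀ (n : ℕ) (i j : Fin n → ℚ), StrictMono i → StrictMono j → (∀ k, i k ∈ S) → (∀ k, j k ∈ S) →
    Tq L A (fun k => z (i k)) (fun k => z (j k))

/-- total indiscernibility, index set `X` -/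
def Tis (A : Set U) {ι : Type} (X : Set ι) (z : ι → U) : Prop :=
  ∀ (n : ℕ) (i j : Fin n → ι), Function.Injective i → Function.Injective j → (∀ k, i k ∈ X) → (∀ k, j k ∈ X) →
    Tq L A (fun k => z (i k)) (fun k => z (j k))

/-- `z'` is a copy of `z` over `acl^eq(A)` -/
def Cpz (A : Set U) (z z' : ℚ → U) : Prop :=
  ∀ (n : ℕ) (i : Fin n → ℚ), Sq L A (fun k => z (i k)) (fun k => z' (i k))

variable {L} in
/-- convex sets of rationals without end points -/
def Opn (S : Set ℚ) : Prop := S.OrdConnected ∧ ∀ s ∈ S, (∃ t ∈ S, t < s) ∧ ∃ t ∈ S, s < t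

/-- `F` and the terms `-3`, `3` -/
def G0 (F : Set U) (z : ℚ → U) : Set U := insert (z (-3)) (insert (z 3) F)

/-- `F` and the terms `-3`, `-1`, `1`, `3` -/
def G1 (F : Set U) (z : ℚ → U) : Set U := insert (z (-1)) (insert (z 1) (G0 F z))

/-- the piece of `z (-1)` over `G0` and `y` -/
def Ll (F : Set U) (z : ℚ → U) (y : U) : Set U := Pc L (insert y (G0 F z)) (z (-1))

/-- the piece of `z 1` over `G0` and `y` -/
def Rr (F : Set U) (z : ℚ → U) (y : U) : Set U := Pc L (insert y (G0 F z)) (z 1)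

/-- the piece of `z 0` over `G1` -/
def Eb (F : Set U) (z : ℚ → U) : Set U := Pc L (G1 F z) (z 0)

/-- an ordered indiscernible sequence -/
structure GH (F : Set U) (z : ℚ → U) : Prop where
  fin : F.Finite
  ind : Ids L F (Ioo (-4) 4) z
  ord : ¬ Tq L F ![z 0, z 1] ![z 1, z 0]

end

/-! ### Input -/

/-- [GTR] **TR**: a sequence which is indiscernible over `A` and every element of `B` is indiscernible over `A ∪ B`. -/
def St_GTR : Prop :=
  ∀ (L : FirstOrder.Language.{0, 0}) (U : Type) [L.Structure U], Cz L U →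
    ∀ (A B : Set U) (S : Set ℚ) (z : ℚ → U), A.Finite → B.Finite → Opn S → Ids L A S z →
    (∀ b ∈ B, Ids L (insert b A) S z) → Ids L (A ∪ B) S z

/-- [GDP] **DP** (from DPM: the parts before and after `e` are mutually indiscernible over `A`): an element does not break both
sides of a place. -/
def St_GDP : Prop :=
  ∀ (L : FirstOrder.Language.{0, 0}) (U : Type) [L.Structure U], Cz L U →
    ∀ (A : Set U) (S : Set ℚ) (z : ℚ → U) (d : U) (e : ℚ), A.Finite → Opn S → Ids L A S z →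
    Ids L (insert d A) (S ∩ Iio e) z ∨ Ids L (insert d A) (S ∩ Ioi e) z

/-- [GLK] **LINK** (helper45): `v` in the piece of `c` over `A`, `c` not algebraic over `A`; then `v` breaks an indiscernible
sequence of elements with the strong type of `c`. -/
def St_GLK : Prop :=
  ∀ (L : FirstOrder.Language.{0, 0}) (U : Type) [L.Structure U], Cz L U →
    ∀ (A : Set U) (c v : U), A.Finite → v ∈ Pc L A c → (∃ x, x ≠ c ∧ Sq L A (s1 c) (s1 x)) →
    ∃ w : ℚ → U, (∀ t, Sq L A (s1 c) (s1 (w t))) ∧ Ids L A univ w ∧ ¬ Ids L (insert v A) univ w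

/-! ### The ordered case -/

/-- [GCP] every element of `Eb` breaks some copy in `(-3, 1)`.
PROOF.  Suppose not.  `A := G1 F z`.  `c` is not algebraic over `A`: `z 0 =*_A z (1/2)` (`ids_sq`), both in `Eb = Pc A c`, different
(`ord`); `nonalg`.  GLK for `c`, `v := z 0`: `w`.  (1) `Ids (insert (w t) F) (Ioo (-3) 1) z`: `c =*_A w t`, so (`sqc_ext`) there is `z''`
with `(w t, z) =*_A (c, z'')`; `z''` is a copy of `z`, so `Ids (insert c F) (Ioo (-3) 1) z''` (assumption); `ids_mv`.  (2) GTR: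
`Ids (F ∪ W) (Ioo (-3) 1) z` for every finite set `W` of terms of `w`; so `z 0 ~_(F ∪ W) z (-1)`.  (3) `Ids (insert (z 0) F) univ w`:
for increasing `i, j`: `(w_i, z 0) ~_F (w_i, z (-1)) ~_F (w_j, z (-1)) ~_F (w_j, z 0)` by (2), as `w` is `A`-indiscernible and `z (-1) ∈ A`.
(4) `Ids (insert a F) univ w` for `a ∈ A`; GTR (`F` and `B := insert (z 0) A`): `Ids (insert (z 0) A) univ w`: contradiction. -/
def St_GCP : Prop :=
  ∀ (L : FirstOrder.Language.{0, 0}) (U : Type) [L.Structure U], Cz L U →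
    ∀ (F : Set U) (z : ℚ → U), GH L F z → ∀ c ∈ Eb L F z,
    ∃ z', Cpz L (G1 F z) z z' ∧ ¬ Ids L (insert c F) (Ioo (-3) 1) z'

/-- [GSP] (SEP) `z k` separates `z i` and `z j` over `G0`, `i < k < j`.
PROOF.  By `pc_tq` and `Ids F (Ioo (-4) 4) z` for `(z (-3), z i, z k, z j, z 3)` and `(z (-3), z (-1), z 0, z 1, z 3)` it is enough
to show it for `i, k, j = -1, 0, 1`.  Suppose `z 1 ∈ Pc A (z (-1))`, `A := insert (z 0) (G0 F z)`.  `z (-1)` is not algebraic over
`A`: `z (-1) =*_A z (-2)` (`ids_sq` on `(-3, 0)`), different (`ord`).  GLK for `c := z (-1)`, `v := z 1`: `w`, `z (-1) =*_A w t`.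
(a) `(w t, z 0) ~_F (z (-1), z 0) ~_F (z 0, z 1)`, `(w t, z (-3)) ~_F (z (-1), z (-3)) ~_F (z 1, z 0)`; by `ord` not
`z (-3) ~ z 0` over `F, w t`.  So `Ids (insert (w t) F) (Ioo 0 4) z`: otherwise there are tuples `i, j` in `(0, 4)` of
different type over `F, w t`; take `0 < e < i, j`: both sides of `e` are broken, against GDP.  (b) GTR: `Ids (F ∪ W) (Ioo 0 4) z` for
finite sets `W` of terms of `w`; so `z 1 ~_(F ∪ W) z 3`.  (c) `Ids (insert (z 1) F) univ w`: `(w_i, z 1) ~_F (w_i, z 3) ~_F (w_j, z 3)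
~_F (w_j, z 1)` (`z 3 ∈ A`).  (d) GTR as in GCP (4): `Ids (insert (z 1) A) univ w`: contradiction. -/
def St_GSP : Prop :=
  ∀ (L : FirstOrder.Language.{0, 0}) (U : Type) [L.Structure U], Cz L U →
    ∀ (F : Set U) (z : ℚ → U), GH L F z → ∀ i k j : ℚ, -3 < i → i < k → k < j → j < 3 →
    z j ∉ Pc L (insert (z k) (G0 F z)) (z i)

/-- [GLY] (0) every element of `Eb` is in `Ll (z' 0)` for some copy `z'`.
PROOF.  Suppose not; let `z'` be any copy and `-1 < i < 1`.  `z 0 =*_G1 z' i` (`ids_sq`, copy); `sqc_ext`: `z''` with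
`(z 0, z) =*_G1 (z' i, z'')`: a copy with `z'' 0 = z' i`; so `c ∉ Ll (z' i)`.  All `z' j`, `-3 < j < i`, are in `Ll (z' i)`
(`z' (-1) = z (-1)`; `z' j =* z' (-1)` over `G0, z' i` by `ids_sq`), so `Ids (insert c F) (Ioo (-3) i) z'` (`of_pc`: increasing tuples of
`z'` in `(-3, i)` have the same strong type over `G0, z' i`, so over `G0, z' i, c`).  This for all `i < 1` gives
`Ids (insert c F) (Ioo (-3) 1) z'`, for all copies `z'`: against GCP. -/
def St_GLY : Prop :=
  ∀ (L : FirstOrder.Language.{0, 0}) (U : Type) [L.Structure U], Cz L U →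
    ∀ (F : Set U) (z : ℚ → U), GH L F z → ∀ c ∈ Eb L F z, ∃ z', Cpz L (G1 F z) z z' ∧ c ∈ Ll L F z (z' 0)

/-- [GST] (*) `z` is indiscernible on `(0, 3)` over `G0, z (-1), z 0` and any finite set outside `Rr (z 0)`.
PROOF.  `A := insert (z 0) (G0 F z)`.  `ids_name`: `Ids A (Ioo 0 3) z`; `ids_sq`: increasing tuples `i, j` in `(0, 3)`: `z_i =*_A z_j`.
All `z k`, `0 < k < 3`, are in `Rr (z 0)` (`pc_sq`), `z (-1)` is not (GSP); `of_pc`: `z_i =* z_j` over `A ∪ {z (-1)} ∪ D`. -/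
def St_GST : Prop :=
  ∀ (L : FirstOrder.Language.{0, 0}) (U : Type) [L.Structure U], Cz L U →
    ∀ (F : Set U) (z : ℚ → U), GH L F z → ∀ D : Set U, D.Finite → Disjoint D (Rr L F z (z 0)) →
    Ids L (insert (z 0) (insert (z (-1)) (G0 F z)) ∪ D) (Ioo 0 3) z

/-- [GUU] (1), (2) for `0 < k < 1`: `d ∉ Rr (z 0)` gives `d ∉ Rr (z k)`; if moreover `d ∈ Eb` then `d ∈ Ll (z k)`.
PROOF.  (1) Suppose `d ∈ Rr (z k)`.  GST (`D = {d}`): `Ids (insert d (G0 F z)) (Ioo 0 3) z`.  Let `0 < l < 3` and `l < m < 3`: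
`(z l, z m) ~ (z k, z 1)` over `G0, d`, so `d ∈ Pc (insert (z l) G0) (z m)` (`pc_tq`).  The piece `Q` of the `z i`, `-3 < i < l`, over
`G0, z l` (one piece, `ids_sq`) does not contain `z m` (GSP), so `d ∉ Q`; `of_pc`: `Ids (insert d (G0 F z)) (Ioo (-3) l) z`.  This
for all `l < 3`: `Ids (insert d (G0 F z)) (Ioo (-3) 3) z`.  So `(z k, z 1) ~ (z 0, z 1)` over `G0, d` and `d ∈ Rr (z 0)` (`pc_tq`).
(2) GST (`D = {d}`): `z k ~ z 1` over `G0, z (-1), d`.  `d ∈ Eb ⊆ Pc (insert (z 1) G0) (z 0) = Pc (insert (z 1) G0) (z (-1))`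
(`pc_mono`; `ids_sq` on `(-3, 1)`); `pc_tq`: `d ∈ Pc (insert (z k) G0) (z (-1))`. -/
def St_GUU : Prop :=
  ∀ (L : FirstOrder.Language.{0, 0}) (U : Type) [L.Structure U], Cz L U →
    ∀ (F : Set U) (z : ℚ → U), GH L F z → ∀ (d : U) (k : ℚ), 0 < k → k < 1 → d ∉ Rr L F z (z 0) →
    d ∉ Rr L F z (z k) ∧ (d ∈ Eb L F z → d ∈ Ll L F z (z k))

/-- [GFN] (3), (4) every finite subset of `Eb` is outside `Rr (z' 0)` for some copy `z'`.
PROOF.  Induction on `C`; let `c'` be a new element, `z'` a copy for `C`.  GLY: a copy `z''` with `c' ∈ Ll (z'' 0)`, so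
`c' ∉ Rr (z'' 0)` (GSP for `z''`; different pieces are disjoint).  `u := z' (1/2)`, `u' := z'' (1/2)`.  GUU for `z'` and `z''`:
`C` is outside `Rr u`, `C ⊆ Ll u`; `c' ∉ Rr u'`, `c' ∈ Ll u'`.  (A) `u' ∉ Rr u`: `nnl0`: `Rr u = Pc (u', u, G0) (z 1) ⊆ Rr u'`, so `c' ∉ Rr u`:
take `u`.  (B) `u ∉ Rr u'`: in the same way `Rr u' ⊆ Rr u`: take `u'`.  (C) `u' ∈ Rr u` and `u ∈ Rr u'`: `u' ∉ Ll u`, `u ∉ Ll u'` (GSP),
so `Ll u = Pc (u', u, G0) (z (-1)) = Ll u'` (`nnl0`), which contains `C` and `c'`: take `u`.  Finally `sqc_ext`: a copy `z*` with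
`z* 0 = u` (`u'`). -/
def St_GFN : Prop :=
  ∀ (L : FirstOrder.Language.{0, 0}) (U : Type) [L.Structure U], Cz L U →
    ∀ (F : Set U) (z : ℚ → U), GH L F z → ∀ C : Set U, C.Finite → C ⊆ Eb L F z →
    ∃ z', Cpz L (G1 F z) z z' ∧ Disjoint C (Rr L F z (z' 0))

/-- [GNR] (6) points `u` near `z 1`.
PROOF.  GFN: `z'`.  `z 2 ∉ Eb`: `Eb ⊆ Pc (insert (z 1) G0) (z 0)`, GSP.  So `z 0 =* z' 0` over `G1, z 2` (`of_pc`), and (`sqc_ext`) there
is `z°` with `(z 0, z) =* (z' 0, z°)` over `G1, z 2`: a copy with `z° 0 = z' 0`, `z° 2 = z 2`, `GH F z°`.  `u := z° (1/2)`.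
`B := insert (z° 0) (insert (z (-1)) G0) ∪ C`.  GST for `z°`: `Ids B (Ioo 0 3) z°`.
(n1) `z 0 =*_G1 z (1/2) =*_G1 u`.  (n2) `u ∈ Rr (z° 0)`.  (n3) `ids_sq`, `z° 1 = z 1`.
(n4) `A := insert (z (-1)) G0`.  `u ~ z 1` over `A ∪ C`; `sq_tq`: `c =* c'` over `A, z 1` gives `c =* c'` over `A, u`.  The entries of
`c`, `c'` are in `Ll u` (GUU (2) for `z°`), `z 1` is not (GSP for `z°`); `Ll u` is in `BF (insert u G0)`; `of` over `insert u A`:
`c =* c'` over `A, u, z 1`.
(n5) `H := insert (z (-1)) G0 ∪ z '' X`.  (i) `ids_name`, `ids_sq` for `Ids B (Ioo 0 3) z°` (name `z° 2 = z 2`): `u =* z 1` over `B, z 2`, so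
over `H, z 2`.  (ii) `z 1 =* z j` over `H, z 2` (`ids_name`, `ids_sq` for `z`, indices above `X` and below `2`).  (iii) So `u =* z j` over
`H, z 2`.  (iv) `Ids B (Ioo 0 3) z°`, name `z° (1/2) = u`: `z 2 ~ z 1` over `B, u`, so over `H, z j, u`.  (v) `sq_tq`: `u =* z j` over
`H, z 1`. -/
def St_GNR : Prop :=
  ∀ (L : FirstOrder.Language.{0, 0}) (U : Type) [L.Structure U], Cz L U →
    ∀ (F : Set U) (z : ℚ → U), GH L F z → ∀ C : Set U, C.Finite → C ⊆ Eb L F z →
    ∃ u : U, Sq L (G1 F z) (s1 (z 0)) (s1 u) ∧ u ∉ C ∧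
      Sq L (insert (z (-1)) (G0 F z) ∪ C) (s1 (z 1)) (s1 u) ∧
      (∀ (n : ℕ) (c c' : Fin n → U), (∀ k, c k ∈ C) → (∀ k, c' k ∈ C) → Sq L (G1 F z) c c' →
        Sq L (insert u (G1 F z)) c c') ∧
      (∀ (X : Set ℚ) (j : ℚ), X.Finite → X ⊆ Ioo (-1) 1 → j ∈ Ioo (-1 : ℚ) 1 → (∀ e ∈ X, e < j) → z '' X ⊆ C →
        z j ∈ C → Sq L (G1 F z ∪ z '' X) (s1 u) (s1 (z j)))

/-- [GLT] the limit type.
PROOF.  For finite `C ⊆ Eb` let `u_C` be as in GNR; `𝒰` an ultrafilter on the finite subsets of `Eb` which contains all cones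
`{C | D ⊆ C}`, `p P := ` (`P` is definable over `U` and `P (s1 u_C)` for `𝒰`-almost all `C`).  GT: clear.  Nal: `p (x = v)` gives
`u_C = v` for some `C` containing `v` if `v ∈ Eb` (against (n2)), and `u_C ∈ Eb` (n1), `pc_sq`.  Inv over `G1`: `P` definable over
`G1`, `d =*_G1 d'` (finite tuples).  `d = (c, e)`, `c` in `Eb`, `e` outside, `d' = (c', e')` in the same way (`bf_inv`), `c =*_G1 c'`,
`e =*_G1 e'`.  Let `C` contain the entries of `c, c'`: (n4): `(u_C, c) =*_G1 (u_C, c')`, in `Eb`; `Eb ∈ BF G1`: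
`(u_C, c, e) =*_G1 (u_C, c', e')` (`bf_prd`, `prod` / `sq_split`), so `P (u_C, d) ↔ P (u_C, d')`.  The last two: (n3), (n5) for almost
all `C` (`E (s1 u_C) (s1 (z 1))` for all `C ⊇ C₀`). -/
def St_GLT : Prop :=
  ∀ (L : FirstOrder.Language.{0, 0}) (U : Type) [L.Structure U], Cz L U →
    ∀ (F : Set U) (z : ℚ → U), GH L F z →
    ∃ p : ((Fin 1 → U) → Prop) → Prop, GT L p ∧ Nal p ∧ Inv L (G1 F z) p ∧
      (∀ C : Set U, C.Finite → C ⊆ Eb L F z → Ets L (insert (z (-1)) (G0 F z) ∪ C) (s1 (z 1)) p) ∧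
      (∀ (X : Set ℚ) (j : ℚ), X.Finite → X ⊆ Ioo (-1) 1 → j ∈ Ioo (-1 : ℚ) 1 → (∀ e ∈ X, e < j) →
        Ets L (G1 F z ∪ z '' X) (s1 (z j)) p)

/-- [GLI] (7) LINEAR.
PROOF.  `p` of GLT, `G := G1 F z`.  `En G p = Pc G (z 0) = Eb` (ENC (1); `X = ∅`, `j = 0`).  CLAIM: `¬ N0 G p`.  Let `z*` realise `p` over
`acl^eq(G, z 0)` (`gt_real`): `Ets (insert (z 0) G) z* p`.  `z 0 ∈ En G p`; `z* ∈ En (insert (z 0) G) p` (ENC (1), `mem_pc`), so
`z* ∈ En G p`.  `z 0 ∉ En (insert z* G) p`: `C = {z 0}`: `z* =* z 1` over `G0, z (-1), z 0`.  `z 0 ∈ Pc (insert (z 1) G0) (z (-1))`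
(`ids_sq` on `(-3, 1)`, `pc_sq`); `pc_tq`: `z 0 ∈ Ll z*`.  Let `z**` realise `p` over `acl^eq(G, z*)`; `C = {z*}`: `z** =* z 1` over
`G0, z (-1), z*`, so `z** ∈ Rr z*` (`pc_sq`), and `En (insert z* G) p = Pc (insert z* G) z** ⊆ Rr z*` (`pc_mono`, `pc_eq`).  `z* =*_G z 0`
(both realise `p`), so there is a copy `z'` with `z' 0 = z*`, and `Ll z*`, `Rr z*` are disjoint (GSP for `z'`).  CCC: `NF (insert c G) p`
for all `c ∈ En G p`; `c := z (-1/2)` (`X = ∅`).  The last two statements: `Ets (G ∪ z '' X) (z j) p` for `X = {-1/2}` and for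
`X = {-1/2, i}`, ENC (1). -/
def St_GLI : Prop :=
  ∀ (L : FirstOrder.Language.{0, 0}) (U : Type) [L.Structure U], Cz L U →
    ∀ (F : Set U) (z : ℚ → U), GH L F z →
    ∃ p : ((Fin 1 → U) → Prop) → Prop, GT L p ∧ Nal p ∧ Inv L (G1 F z) p ∧
      (∀ j : ℚ, -1/2 < j → j < 1 → Ets L (insert (z (-1/2)) (G1 F z)) (s1 (z j)) p) ∧
      NF L (insert (z (-1/2)) (G1 F z)) p ∧
      (∀ i j : ℚ, -1/2 < i → i < j → j < 1 → z j ∈ En L (insert (z i) (insert (z (-1/2)) (G1 F z))) p)

/-! ### The totally indiscernible case -/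

/-- [TTR] TR for totally indiscernible sequences.
PROOF.  Let `i, j : Fin n → ι` be injective, in `X`.  Choose `k : Fin n → ι` injective in `X`, disjoint from `i` and `j`.  There is an
injection `f : ℚ → ι` into `X` with `f m = i m`, `f (n + m) = k m`.  `z ∘ f` satisfies `Ids A univ`, `Ids (insert b A) univ`, so (GTR)
`Ids (A ∪ B) univ (z ∘ f)`: `z_i ~ z_k` over `A ∪ B`.  In the same way `z_j ~ z_k`. -/
def St_TTR : Prop :=
  ∀ (L : FirstOrder.Language.{0, 0}) (U : Type) [L.Structure U], Cz L U →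
    ∀ (A B : Set U) (ι : Type) (X : Set ι) (z : ι → U), A.Finite → B.Finite → X.Infinite → Tis L A X z →
    (∀ b ∈ B, Tis L (insert b A) X z) → Tis L (A ∪ B) X z

/-- [TID] DP for totally indiscernible sequences.
PROOF.  Otherwise there are injective tuples `i, j` in `X₁` of different type over `A, d`; choosing `k` in `X₁` disjoint from both we
may assume that `i, j` are disjoint.  The same for `i', j'` in `X₂`.  An injection `f : ℚ → ι` into `X₁ ∪ X₂` which enumerates
`i, j` on `0, .., 2 n - 1` and `i', j'` on `2 n + 1, ..`: GDP for `z ∘ f` and `e := 2 n` is contradicted. -/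
def St_TID : Prop :=
  ∀ (L : FirstOrder.Language.{0, 0}) (U : Type) [L.Structure U], Cz L U →
    ∀ (A : Set U) (ι : Type) (X₁ X₂ : Set ι) (z : ι → U) (d : U), A.Finite → X₁.Infinite → X₂.Infinite →
    Disjoint X₁ X₂ → Tis L A (X₁ ∪ X₂) z → Tis L (insert d A) X₁ z ∨ Tis L (insert d A) X₂ z

/-- [TIF] a totally indiscernible sequence is eventually totally indiscernible over every finite set.
PROOF.  By TTR (on `Ici N`, `N` the maximum) it is enough to consider `B = {d}`.  If `z` is not t.i. over `A, d` there are `i, j` of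
different type over `A, d`; let `N` be larger than all entries.  `Ici N`: if `i', j'` in `Ici N` have different type over `A, d` then
let `X₁` be the set of the entries of `i', j'` and of the even numbers beyond them, `X₂` the set of the entries of `i, j` and of
the odd numbers beyond: TID. -/
def St_TIF : Prop :=
  ∀ (L : FirstOrder.Language.{0, 0}) (U : Type) [L.Structure U], Cz L U →
    ∀ (A B : Set U) (z : ℕ → U), A.Finite → B.Finite → Tis L A univ z → ∃ N : ℕ, Tis L (A ∪ B) (Ici N) z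

/-- [TIM] two totally indiscernible sequences with three common terms have the same average.
PROOF.  `P` is EVENTUALLY true for `z` if `P (z_j)` for all injective tuples `j` in `Ici N`, for some `N`.  By TIF, for `P` definable over
any set: `P` or `¬ P` is eventually true for `z`.
(0) AVERAGE SEQUENCES: for every countable `C` there is `w : ℕ → U` such that `P (w_i)` for all injective `i` and all `P` which are
definable over `C` and eventually true for `z` [`sat_dp` for `α = ℕ`; finitely many `P`: `w k := z (N + k)`].  So `P (w_i)` iff `P` is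
eventually true for `z`; `w` is t.i. over `C`.
`C := F ∪ D ∪ range z ∪ range z'`; `w` the average sequence of `z` over `C`; `w'` the average sequence of `z'` over `C ∪ range w`.
(1) `w'` is t.i. over `C ∪ range w`.  (2) `w` is t.i. over `C ∪ range w'`: `Q (w_i, w'_m)` iff `Q (w_i, z'_m')` eventually (in `m'`) iff (as
`w` is t.i. over `C`) `Q (w_j, z'_m')` eventually iff `Q (w_j, w'_m)`.
(3) `s := (z 0, z 1, z 2) + w` (index type `Fin 3 ⊕ ℕ`) is t.i. over `F` [`Q (z_0, z_1, z_2, w_i)` iff `Q (z_0, z_1, z_2, z_j)` eventually], and so is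
`s' := (z 0, z 1, z 2) + w'`.
(4) There is `e₁ : Fin 3` such that `{z e} + w` is t.i. over `F, w' j` for all `e ≠ e₁` and all `j`.  [Fix `j`.  Suppose it fails for
`e ≠ e'`.  TID for `X₁ = {e} + evens`, `X₂ = {e'} + odds` of `s`: say `{z e} + (even terms of w)` is t.i. over `F, w' j`; by (2) any tuple
of `{z e} + w` can be moved into it over `F, w' j, z e`: contradiction.  The set of the exceptional `e` is the same for all `j` by (1).]
(5) In the same way there is `e₂` such that `{z e} + w'` is t.i. over `F, w k` for all `e ≠ e₂`, `k` ((1) for moving, (2) for `the same`).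
(6) Let `h ≠ e₁, e₂`.  `t := w + w'` (index type `ℕ ⊕ ℕ`) is t.i. over `F`: let `i` be an injective tuple; replace one entry `w a` by
`w' b`, `b` new: with `W`, `W'` the other entries: `(w a, W) ~ (z h, W)` over `F, W'` (TTR and (4)), `(z h, W') ~ (w' b, W')` over `F, W`
(TTR and (5)).  Repeating this one gets a tuple of `w'`.
(7) `t` is t.i. over `F, d` for `d ∈ D`: TID for (even terms of `w` and `w'`), (odd terms of `w` and `w'`); any tuple of `t` can be moved
into the even terms over `F, d`, by (2) and (1).  (8) TTR: `t` is t.i. over `F ∪ D`: `P (w 0)` iff `P (w' 0)`. -/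
def St_TIM : Prop :=
  ∀ (L : FirstOrder.Language.{0, 0}) (U : Type) [L.Structure U], Cz L U →
    ∀ (F D : Set U) (z z' : ℕ → U), F.Finite → D.Finite → Tis L F univ z → Tis L F univ z' →
    z' 0 = z 0 → z' 1 = z 1 → z' 2 = z 2 → ∀ P : (Fin 1 → U) → Prop, Dp L (F ∪ D) P →
    (∃ N, ∀ i, N ≤ i → P (s1 (z i))) → ∃ N, ∀ i, N ≤ i → P (s1 (z' i))

/-- [TIV] the average type.
PROOF.  `r P := ` (`P` is definable over `U` and `P (s1 (z i))` for all large `i`).  GT: `max` by TIF (`P` is definable over a finite set).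
Nal: `z i = v` for all large `i` contradicts `z 0 ≠ z 1`.  Inv: `A := F ∪ {z 0, z 1, z 2}`; `c ~_A c'`; `tq_ext'`: `z'` with
`(c, z) ~_A (c', z')`; `z' k = z k` for `k < 3`, `Tis F univ z'`; `P (z i, c)` iff `P (z' i, c')`; TIM for `z'`, `z` and `D = range c'`.
Ets: `Tis A (Ici 3) z` (naming), so `E (z k) (z i)` has the same value for all `k ≠ i` in `Ici 3`; true, as `E` has finitely many
classes (`fe_num`). -/
def St_TIV : Prop :=
  ∀ (L : FirstOrder.Language.{0, 0}) (U : Type) [L.Structure U], Cz L U →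
    ∀ (F : Set U) (z : ℕ → U), F.Finite → Tis L F univ z → z 0 ≠ z 1 →
    ∃ r : ((Fin 1 → U) → Prop) → Prop, GT L r ∧ Nal r ∧ Inv L (F ∪ {z 0, z 1, z 2}) r ∧
      ∀ i, 3 ≤ i → Ets L (F ∪ {z 0, z 1, z 2}) (s1 (z i)) r

/-! ### The theorem -/

/-- [NTI] naming finitely many terms of a sequence which is not totally indiscernible.
PROOF.  Suppose `(z 0, z 1) ~ (z 1, z 0)` over `F ∪ z '' J₀` for all such `J₀`.  For increasing `m : Fin n → ℚ` and an adjacent transposition
`τ = (k, k + 1)`: `z_m ~_F z_(m τ)` [move `m` to `m'` with `m' k = 0`, `m' (k + 1) = 1`, the other entries `≤ -4` or `≥ 4`].  The adjacent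
transpositions generate the symmetric group (`Equiv.Perm.mclosure_swap_castSucc_succ`), every injective tuple is `m ∘ σ`: `z` is
totally indiscernible. -/
def St_NTI : Prop :=
  ∀ (L : FirstOrder.Language.{0, 0}) (U : Type) [L.Structure U], Cz L U →
    ∀ (F : Set U) (z : ℚ → U), Ids L F univ z → ¬ Tis L F univ z →
    ∃ J : Set ℚ, J.Finite ∧ (∀ e ∈ J, e ≤ -4 ∨ 4 ≤ e) ∧ ¬ Tq L (F ∪ z '' J) ![z 0, z 1] ![z 1, z 0]

/-- [GAP] **the GAP theorem**.
PROOF.  `z` totally indiscernible: TIV for `fun n : ℕ => z (n + 1)`; `J = {1, 2, 3}`, `(a, b) = (-1, 1)`; `z i`, `i ∉ J`, have the same strong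
type over `F ∪ z '' J` (as in TIV).  Otherwise NTI: `J₀`, `F' := F ∪ z '' J₀`: `GH F' z` (`ids_name`); GLI; `J = J₀ ∪ {-3, -1, -1/2, 1, 3}`,
`(a, b) = (-1/2, 1)`. -/
def St_GAP : Prop :=
  ∀ (L : FirstOrder.Language.{0, 0}) (U : Type) [L.Structure U], Cz L U →
    ∀ (F : Set U) (z : ℚ → U), F.Finite → Ids L F univ z → z 0 ≠ z 1 →
    ∃ (J : Set ℚ) (a b : ℚ) (r : ((Fin 1 → U) → Prop) → Prop), J.Finite ∧ a < 0 ∧ 0 < b ∧
      (∀ e ∈ J, e ≤ a ∨ b ≤ e) ∧ GT L r ∧ Nal r ∧ Inv L (F ∪ z '' J) r ∧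
      (∀ i : ℚ, a < i → i < b → Ets L (F ∪ z '' J) (s1 (z i)) r) ∧
      (¬ Tis L F univ z → NF L (F ∪ z '' J) r ∧
        ∀ i j : ℚ, a < i → i < j → j < b → z j ∈ En L (insert (z i) (F ∪ z '' J)) r)

end Pool.Agent.TPY
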