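import Pool.Agent.TPY.StG
import Pool.Agent.TPY.StM2

/-!
# TPY/StR (helper31): FREE.  In a big piece some facing indiscernible sequence is not totally indiscernible

Conventions as in StI, StL, StM2: `hB : Bg L A₀ big`, all bases contain `A₀`, are finite.  `P = Pc A z` is a big piece; `Eg x` is the
big piece over `A x` inside `P` (empty if there is none; unique by M1T).  `x ∈ P` has an isolated type over `A`, so it is good (B3);
`Dz x` = the points of `P` with the type of `x` over `A`, all good.  `Rf v w`: neither `w ∈ Eg v` nor `v ∈ Eg w` (so `Eg v = Eg w`).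
Files: module XXX is `Pool/Agent/TPY/XXX.lean`, `theorem thm_XXX (hAAA : St_AAA) .. : St_XXX`; the hypotheses are listed under HYPS.

PLAN.  RDZ, RCL: `Dz` is definable, `Rf` is closed.  RPP, RSP: `Rf` is an intersection of definable equivalence relations
(Pillay-Poizat, in the form of helper97).  RGN: if all facing indiscernible sequences in the strong type of `x` are totally
indiscernible, then over every countable `C` there are GENERIC points: every `Rf`-invariant relation treats them in the same way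
over tuples of `C` with the same strong type (RF1: countably many types of `Rf`-invariant formulas over a countable model, by the
majority rule; RTP: a countable compact space has a finite invariant set).  RGE, RFR: `Eg` of a generic point contains `C ∩ P`
(XPC), so (one element does not break an indiscernible sequence twice) the type of a generic point is invariant: `P` is ended.
-/

set_option autoImplicit false
set_option linter.unusedVariables false

namespace Pool.Agent.TPY

open FirstOrder.Language Set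
open scoped FirstOrder
open Pool.Agent.WOM (IsEl)
open Pool.Agent.MNO (Dp FE Sq Exa)

section

variable (L : FirstOrder.Language.{0, 0}) {U : Type} [L.Structure U]

/-- the big piece over `insert x A` inside the piece of `z` over `A` (empty if there is none) -/
def Eg (big : Set U → U → Prop) (A : Set U) (z x : U) : Set U :=
  {v | ∃ y ∈ Pc L A z, big (insert x A) y ∧ v ∈ Pc L (insert x A) y}

/-- the points of the piece of `z` over `A` with the type of `x` over `A` -/
def Dz (A : Set U) (z x : U) : Set U := {v | v ∈ Pc L A z ∧ Tq L A (s1 x) (s1 v)}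

/-- neither of the two points is in the big piece of the other one -/
def Rf (big : Set U → U → Prop) (A : Set U) (z v w : U) : Prop :=
  w ∉ Eg L big A z v ∧ v ∉ Eg L big A z w

/-- the context of the chapter: the piece of `z` over `A` is big, `x` is an element of it with isolated type over `A` -/
structure Gx (A₀ : Set U) (big : Set U → U → Prop) (A : Set U) (z x : U) : Prop where
  bg : Bg L A₀ big
  b3 : B3 L A₀ big
  sub : A₀ ⊆ A
  fin : A.Finite
  bz : big A z
  mem : x ∈ Pc L A z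
  iso : Isl L A (s1 x)

/-- relations `φ v c` definable over `U`, invariant under `Sq A`, and invariant under `R` in the first variable, on `D` -/
structure Ivr (A D : Set U) (R : U → U → Prop) {n : ℕ} (φ : U → (Fin n → U) → Prop) : Prop where
  dfn : Dp L (univ : Set U) (fun v : Fin 1 ⊕ Fin n → U => φ (v (Sum.inl 0)) (fun i => v (Sum.inr i)))
  inv : ∀ v c v' c', Sq L A (Sum.elim (s1 v) c) (Sum.elim (s1 v') c') → φ v c → φ v' c'
  sat : ∀ v ∈ D, ∀ v' ∈ D, ∀ c, R v v' → φ v c → φ v' c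

/-- the strong type of `a` over `A` is stable modulo `R`: indiscernible sequences in it which are not constant modulo `R` are totally
indiscernible -/
structure Stv (A : Set U) (a : U) (D : Set U) (R : U → U → Prop) : Prop where
  fin : A.Finite
  sub : ∀ v, Sq L A (s1 a) (s1 v) → v ∈ D
  sym : ∀ v ∈ D, ∀ w ∈ D, R v w → R w v
  tis : ∀ z : ℕ → U, (∀ i, Sq L A (s1 a) (s1 (z i))) →
    (∀ (n : ℕ) (i j : Fin n → ℕ), StrictMono i → StrictMono j →
      Tq L A (fun k => z (i k)) (fun k => z (j k))) → ¬ R (z 0) (z 1) → Tis L A univ z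

/-- `x` is generic over `C`, modulo `R` -/
def Gnr (A : Set U) (a : U) (D : Set U) (R : U → U → Prop) (C : Set U) (x : U) : Prop :=
  Sq L A (s1 a) (s1 x) ∧ ∀ (n : ℕ) (φ : U → (Fin n → U) → Prop), Ivr L A D R φ →
    ∀ c c' : Fin n → U, (∀ i, c i ∈ C) → (∀ i, c' i ∈ C) → Sq L A c c' → φ x c → φ x c'

end

/-! ### The big pieces `Eg x` -/

/-- [REG] calculus of `Eg`.
HYPS: M1T.
PROOF.  (1) `v ∈ Eg x`: `y`, `big (insert x A) y`, `v ∈ Pc (insert x A) y`; `pc`, `pc_eq`; another `y'` in the definition of `Eg x`: M1T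
(`A ⊆ insert x A`; `y' ∈ Pc A y`).  `Pc (insert x A) y ⊆ Pc A y = Pc A z` (`pc_mono`).  (2) (1), `b0`.  (3) (1), `b5` for
`insert x A ⊆ insert x A ∪ W` (`b0` for the elements of `insert x A`: they are not in `Pc (insert x A) v`: `par_notMem`).
(4) `v ∈ Eg x`, `v' ∈ Eg x'`: by (3) `big (insert x A ∪ {x'}) v`, `big (insert x' A ∪ {x}) v'`, the same base; `v' ∈ Pc A v`; M1T:
`v' ∈ Pc (insert x A ∪ {x'}) v = Pc (insert x A) v` (`nnl'`).  (5) `v ∈ Pc A z`, `big (insert x A) v` by (1).  `Bg.inv` for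
enumerations of `insert x A` and `insert x' A` (`A₀ ⊆ A`; the tuple `x`, all elements of `A`; `tq_add`): `big (insert x' A) v'`.
`v ∈ Pc A x`, `pc_tq0`: `v' ∈ Pc A x' = Pc A z`.  (6) `v ∈ Eg x`; otherwise (3): `big (insert x A ∪ {u}) v`, `b4`: `big (insert u A) v`,
`v ∈ Eg u`. -/
def St_REG : Prop :=
  ∀ (L : FirstOrder.Language.{0, 0}) (U : Type) [L.Structure U], Cz L U →
    ∀ (A₀ : Set U) (big : Set U → U → Prop), Bg L A₀ big →
    ∀ (A : Set U) (z : U), A₀ ⊆ A → A.Finite →
    (∀ x v, v ∈ Eg L big A z x → Eg L big A z x = Pc L (insert x A) v ∧ big (insert x A) v ∧ v ∈ Pc L A z) ∧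
    (∀ x, x ∉ Eg L big A z x) ∧
    (∀ (x v : U) (W : Set U), W.Finite → v ∈ Eg L big A z x → (∀ w ∈ W, w ∉ Eg L big A z x) →
      big (insert x A ∪ W) v ∧ Pc L (insert x A ∪ W) v = Eg L big A z x) ∧
    (∀ x x', (Eg L big A z x).Nonempty → (Eg L big A z x').Nonempty → x' ∉ Eg L big A z x →
      x ∉ Eg L big A z x' → Eg L big A z x = Eg L big A z x') ∧
    (∀ x v x' v', x ∈ Pc L A z → x' ∈ Pc L A z → Tq L A ![x, v] ![x', v'] → v ∈ Eg L big A z x →
      v' ∈ Eg L big A z x') ∧
    ∀ x u, (Eg L big A z x).Nonempty → Eg L big A z u = ∅ → u ∈ Eg L big A z x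

/-- [RDG] the points of `Dz` are good, and `Rf` is an equivalence relation on `Dz` which is invariant under `Tq A` inside `P`.
HYPS: REG.
PROOF.  `b3` for `x` (`Isl`): `y ∈ P`, `big (A ∪ range (s1 x)) y`, so `y ∈ Eg x` (`mem_pc`).  `v ∈ Dz`: `tq_ext`: `Tq A ![x, y] ![v, y']`,
REG (5) (`x, v ∈ P`).  `Rf v w ↔ Eg v = Eg w` for `v, w ∈ Dz` by REG (4), (2).  Invariance: REG (5) in both directions (`tq_symm`). -/
def St_RDG : Prop :=
  ∀ (L : FirstOrder.Language.{0, 0}) (U : Type) [L.Structure U], Cz L U →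
    ∀ (A₀ : Set U) (big : Set U → U → Prop) (A : Set U) (z x : U), Gx L A₀ big A z x →
    (∀ v ∈ Dz L A z x, (Eg L big A z v).Nonempty) ∧
    (∀ v ∈ Dz L A z x, ∀ w ∈ Dz L A z x, (Rf L big A z v w ↔ Eg L big A z v = Eg L big A z w)) ∧
    (∀ v w v' w', v ∈ Pc L A z → w ∈ Pc L A z → v' ∈ Pc L A z → w' ∈ Pc L A z → Tq L A ![v, w] ![v', w'] →
      Rf L big A z v w → Rf L big A z v' w') ∧
    (∀ v v', Sq L A (s1 v) (s1 v') → v ∈ Dz L A z x → v' ∈ Dz L A z x) ∧
    ∀ v w v' w', v ∈ Dz L A z x → w ∈ Dz L A z x → v' ∈ Pc L A z → Tq L A ![v, w] ![v', w'] →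
      v' ∈ Dz L A z x ∧ w' ∈ Dz L A z x

/-- [RDZ] `Dz` is definable, with one parameter in `Dz`.
HYPS: REG, LIM.
PROOF.  `χ` isolates the type of `x` over `A`.  `B := insert x A`.  Let `χ v`.  CLAIM: some `θ`, definable over `B`, `θ v`, with `θ ⊆ P` on
`χ`, or `θ ∩ P = ∅` on `χ`.  Suppose `v ∈ P` and there is none of the first kind: for every `θ` over `B` with `θ v` some `v' ∉ P`, `χ v'`,
`θ v'`.  ULT (or directly `sat_dp`): `r` a limit type of these sets; realise `r` over the countable set `B`: `v°`, `Tq B v v°`, and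
`r (E (·) v°)` for all `E ∈ FE A` (`gt_real`).  `(x, v) ~_A (x, v°)`, `v ∈ Pc A x`, so `v° ∈ Pc A x = P` (`pc_tq0`); `big A v°` (`pc`), LIM for
`v°` (`b1`): `E` with `E y v° → y ∈ Pc A v° = P`; some `y ∉ P` with `E y v°`: contradiction.  Suppose `v ∉ P` and there is none of the
second kind: `v'` in `P`, `χ v'`, `θ v'`; `v°` as before; `v° ∉ P` (`pc_tq0`), `Tq A x v°`, so `big A v°` (`Bg.inv`), LIM for `v°`: `E` with
`E y v° → y ∈ Pc A v°`, disjoint from `P` (`pc_disj`): contradiction.  Compactness (`sat_dp`, `dp_cnt`): finitely many `θ` cover `χ`, so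
`Dz` is definable over `B`: `Δ` (`dp_fam1`) with `v ∈ Dz ↔ Δ ![v, x]`.  For `w ∈ Dz` and any `v`: `tq_ext`: `Tq A ![w, v] ![x, v']`;
`v ∈ Dz ↔ (v ∈ Pc A w` and `χ v) ↔ (v' ∈ Pc A x` and `χ v')` (`pc_tq0`) `↔ Δ ![v', x] ↔ Δ ![v, w]`. -/
def St_RDZ : Prop :=
  ∀ (L : FirstOrder.Language.{0, 0}) (U : Type) [L.Structure U], Cz L U →
    ∀ (A₀ : Set U) (big : Set U → U → Prop) (A : Set U) (z x : U), Gx L A₀ big A z x →
    ∃ Δ : (Fin 2 → U) → Prop, Dp L A Δ ∧ ∀ w ∈ Dz L A z x, ∀ v, v ∈ Dz L A z x ↔ Δ ![v, w]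

/-- [RCL] facing is open.
HYPS: REG, RDG, LIM.
PROOF.  `B := insert v A`.  Suppose that for every `ψ` over `A` with `ψ (v, w)` there are `v' ∈ Dz`, `w' ∉ Eg v'`, `ψ (v', w')`.  `tq_ext`
(`Tq A v' v`): `Tq A ![v', w'] ![v, w'']`; `w'' ∉ Eg v` (REG (5)).  So for every `θ` over `B` with `θ w` there is `w'' ∉ Eg v` with `θ w''`.
Limit type `r` of these sets, realised over `B` by `w°` (`Tq B w w°`, `r (E (·) w°)` for `E ∈ FE B`).  `(v, w) ~_A (v, w°)`: REG (5):
`w° ∈ Eg v = Pc B w°`, `big B w°` (REG (1)); LIM over `B` for `w°`: `E ∈ FE B` with `E y w° → y ∈ Pc B w° = Eg v`; but some `y ∉ Eg v` has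
`E y w°`: contradiction. -/
def St_RCL : Prop :=
  ∀ (L : FirstOrder.Language.{0, 0}) (U : Type) [L.Structure U], Cz L U →
    ∀ (A₀ : Set U) (big : Set U → U → Prop) (A : Set U) (z x : U), Gx L A₀ big A z x →
    ∀ v ∈ Dz L A z x, ∀ w ∈ Eg L big A z v, ∃ ψ : (Fin 2 → U) → Prop, Dp L A ψ ∧ ψ ![v, w] ∧
      ∀ v' ∈ Dz L A z x, ∀ w', ψ ![v', w'] → w' ∈ Eg L big A z v'

/-! ### Closed equivalence relations are intersections of definable ones -/

/-- [RPP] separation of two classes of a closed equivalence relation by a saturated definable set (helper97's form of Pillay-Poizat).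
HYPS: none.
PROOF.  `Sep θ θ'`: there are no `v, w` in `D` with `θ v`, `θ' w`, `R v w`.  (0) There are `θ₀`, `θ'₀` over `B` with `θ₀ x`, `θ'₀ y`, `Sep`:
`θ₀ v := (v = x)` (`x ∈ B`); if for every `θ'` over `B` with `θ' y` some `w ∈ D`, `θ' w`, `R x w`: the set of properties of `w`:
`{θ' | θ' y} ∪ {¬ ψ (x, ·) | ψ` over `B`, `ψ ∩ R = ∅` on `D × D}` is finitely satisfiable, so (`sat_dp`) there is `w`, `Tq B y w`,
`D w`, not in any such `ψ`; by closedness `R x w`; `(x, y) ~_B (x, w)`: `R x y`: contradiction.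
(1) Let `t` be the type over `B` of `u ∈ D`, `Sep θ θ'`.  It is impossible that there are `v, w, v', w'` in `D`, `θ v`, `R v w`, `θ' v'`,
`R v' w'`, with `w, w'` of type `t`: `tq_ext`: `Tq B ![w', v'] ![w, v'']`: `θ' v''`, `R v'' w`, so `R v v''`: against `Sep`.
(2) If no `v ∈ D` with `θ v` is `R`-related to a point of type `t`, there is `τ` over `B`, `τ u`, with `Sep θ (θ' ∨ τ)` (compactness for the
pair `(v, w)`, closedness of `R`: otherwise `v, w ∈ D`, `θ v`, `w` of type `t`, `R v w`); in the other case `Sep (θ ∨ τ) θ'`.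
(3) The types over `B` of elements of `D` are countably many (`Cz.sml`; types over finite sets; or use the countable set of formulas:
enumerate representatives): `u_0, u_1, ..`; `θ_n`, `θ'_n` increasing, `Sep`, `u_n` satisfies one of them, with the whole type.  So every
point of `D` is in some `θ_n ∨ θ'_n`; compactness: `D ⊆ θ_N ∪ θ'_N`.  `δ := θ_N`: `δ x`; `θ'_N y` and `R y y`: `¬ δ y`; if `v, w ∈ D`,
`R v w`, `δ v`: `¬ θ'_N w` (`Sep`), so `δ w`. -/
def St_RPP : Prop :=
  ∀ (L : FirstOrder.Language.{0, 0}) (U : Type) [L.Structure U], Cz L U →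
    ∀ (B : Set U) (D : U → Prop) (R : U → U → Prop), B.Finite → Dp L B (fun v : Fin 1 → U => D (v 0)) →
    (∀ v, D v → R v v) → (∀ v w, D v → D w → R v w → R w v) →
    (∀ u v w, D u → D v → D w → R u v → R v w → R u w) →
    (∀ v w v' w', D v → D w → Tq L B ![v, w] ![v', w'] → R v w → R v' w') →
    (∀ v w, D v → D w → ¬ R v w → ∃ ψ : (Fin 2 → U) → Prop, Dp L B ψ ∧ ψ ![v, w] ∧
      ∀ v' w', D v' → D w' → ψ ![v', w'] → ¬ R v' w') →
    ∀ x y, x ∈ B → D x → D y → ¬ R x y →
    ∃ δ : (Fin 1 → U) → Prop, Dp L B δ ∧ δ (s1 x) ∧ ¬ δ (s1 y) ∧ ∀ v w, D v → D w → R v w → δ (s1 v) → δ (s1 w)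

/-- [RSP] `Rf` on `Dz` is an intersection of definable equivalence relations.
HYPS: RDG, RDZ, RCL, RPP.
PROOF.  `B := insert v A`; `D := (· ∈ Dz)`, definable over `B` (RDZ for `w := v`); `R := Rf`.  The hypotheses of RPP: RDG (`Rf` is
equality of `Eg` on `Dz`; invariance under `Tq B`: the images are in `P`, because `D` is definable over `B`), RCL (if `¬ Rf a b` then
`b ∈ Eg a` or `a ∈ Eg b`).  RPP for `x := v`, `y := w`: `δ`; `dp_fam1`: `Q` over `A` with `δ (s1 a) ↔ Q ![a, v]`.
`E a b := ∀ c ∈ Dz, (Q ![a, c] ↔ Q ![b, c])`: definable over `U`; an equivalence relation.  `Sq A`-invariant: `(a, b) =* (a', b')`, `c' ∈ Dz`;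
`sq_ext`: `(a, b, c) =* (a', b', c')`, `c ∈ Dz` (RDG (4)).  `Rf a b`, `a, b, c ∈ Dz`, `Q ![a, c]`: `tq_ext`: `Tq A (c, a, b) (v, a', b')`;
`a', b' ∈ Dz` (`pc_tq0`), `Rf a' b'` (RDG), `Q ![a', v]`, so `δ a'`, `δ b'`, `Q ![b', v]`, `Q ![b, c]`.  `¬ E v w`: `c = v`. -/
def St_RSP : Prop :=
  ∀ (L : FirstOrder.Language.{0, 0}) (U : Type) [L.Structure U], Cz L U →
    ∀ (A₀ : Set U) (big : Set U → U → Prop) (A : Set U) (z x : U), Gx L A₀ big A z x →
    ∀ v ∈ Dz L A z x, ∀ w ∈ Dz L A z x, ¬ Rf L big A z v w →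
    ∃ E : U → U → Prop, Dp L (univ : Set U) (fun u : Fin 2 → U => E (u 0) (u 1)) ∧ Equivalence E ∧
      (∀ a b a' b', Sq L A ![a, b] ![a', b'] → E a b → E a' b') ∧
      (∀ a ∈ Dz L A z x, ∀ b ∈ Dz L A z x, Rf L big A z a b → E a b) ∧ ¬ E v w

/-! ### Countable models, coheir sequences, countable compact spaces -/

/-- [RDE] definable properties which are invariant under `Sq A` are unions of classes of a member of `FE A`, and definable over every
elementary submodel which contains `A`.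
HYPS: none.
PROOF.  (1) Otherwise for every `E ∈ FE A` there are `x, y`, `E x y`, `P x`, `¬ P y`; `FE A` is closed under finite intersections (`fe_inf`),
countable (`fe_cnt`), `P` is definable over a finite set (`dp_fin`): `sat_dp` for pairs: `x, y`, `Sq A x y`, `P x`, `¬ P y`.
(2) Let `s` be a maximal set of pairwise not `E`-equivalent tuples of `N` (`fe_num`: their number is bounded).  Every `x` is
`E`-equivalent to some `a ∈ s`: otherwise the property `¬ E x a` for all `a ∈ s` (over `A ∪ s ⊆ N`) is satisfied in `N` (as `nfe_el` in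
`MNO/NFE.lean`, or `el_ex` of `Brg1`).  So `P x` iff `E x a` for some `a ∈ s` with `P a`. -/
def St_RDE : Prop :=
  ∀ (L : FirstOrder.Language.{0, 0}) (U : Type) [L.Structure U], Cz L U →
    ∀ (α : Type) [Finite α] (A : Set U) (P : (α → U) → Prop), A.Finite → Dp L (univ : Set U) P →
    (∀ x y, Sq L A x y → P x → P y) →
    (∃ E, FE L A E ∧ ∀ x y, E x y → P x → P y) ∧ ∀ N : Set U, IsEl L N → A ⊆ N → Dp L N P

/-- [RHN] countable homogeneous elementary submodels, closed under Lascar chains and under a given countable closure operator.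
HYPS: BNI.
PROOF.  Closure of `A ∪ C` in countably many steps; add (a) for every nonempty set definable over a finite subset an element;
(b) `Φ u`; (c) for all finite tuples `c, c'`, `Sq A c c'`, and `d`: some `d'` with `Sq A (c, d) (c', d')` (`sq_ext`); (d) for `Sq A c c'`:
the entries of the sequences of a Lascar chain from `c` to `c'`: the relation `x ~ y` := (there is a finite chain of `A`-indiscernible
sequences `u^1, .., u^m` (indexed by `ℚ`) of tuples of the strong type of `c`, `x = u^1_0`, `u^i_1 = u^(i+1)_0`, `u^m_1 = y`, or reversed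
steps) is an invariant equivalence relation on the strong type of `c`; BNI: if it is not trivial there is `u` with `u_0`, `u_1` not
related: contradiction.  Last statement: back and forth with (c) (enumerate `N`; the finite maps with `Sq A (dom) (rng)`;
`MNO.baf` or `MNO.thm_BAG`). -/
def St_RHN : Prop :=
  ∀ (L : FirstOrder.Language.{0, 0}) (U : Type) [L.Structure U], Cz L U →
    ∀ (A C : Set U) (Φ : U → Set U), A.Finite → C.Countable → (∀ u, (Φ u).Countable) →
    ∃ N : Set U, N.Countable ∧ A ⊆ N ∧ C ⊆ N ∧ IsEl L N ∧ (∀ u ∈ N, Φ u ⊆ N) ∧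
      (∀ (n : ℕ) (c c' : Fin n → U) (R : (Fin n → U) → (Fin n → U) → Prop), (∀ i, c i ∈ N) → (∀ i, c' i ∈ N) →
        Sq L A c c' → Equivalence R →
        (∀ u : ℚ → Fin n → U, Idc L A u → (∀ q k, u q k ∈ N) → (∀ q, Sq L A c (u q)) → R (u 0) (u 1)) →
        R c c') ∧
      ∀ (n : ℕ) (c c' : Fin n → N), Sq L A (fun i => (c i : U)) (fun i => (c' i : U)) →
        ∃ g : N ≃ N, (∀ i, g (c i) = c' i) ∧
          ∀ (m : ℕ) (d : Fin m → N), Sq L A (fun i => (d i : U)) (fun i => (g (d i) : U))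

/-- [RCH] coheir sequences over a countable elementary submodel.
HYPS: ULT.
PROOF.  ULT for the sets `{s1 m | m ∈ N, P (s1 m)}`, `P` over `N` with `P (s1 x)` (not empty, `IsEl`): `r`; `r Q` implies that some `m ∈ N` has
`Q (s1 m)`.  `r` is invariant: `Tq N c c'`, `r (Q(·, c))` implies `r (Q(·, c'))`, `Q` over `N` (otherwise `m ∈ N` with `Q(m, c)`,
`¬ Q(m, c')`).  `y i` realises `r` over `N ∪ {y j | j < i}` (`gt_real`).  Indiscernible over `N`: induction on the length, as for
Morley sequences (`MGP`, `TRI`). -/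
def St_RCH : Prop :=
  ∀ (L : FirstOrder.Language.{0, 0}) (U : Type) [L.Structure U], Cz L U →
    ∀ (N : Set U) (x : U), N.Countable → IsEl L N →
    ∃ y : ℕ → U, (∀ i, Tq L N (s1 x) (s1 (y i))) ∧
      (∀ (i : ℕ) (P : (Fin 1 → U) → Prop), Dp L (N ∪ {v | ∃ j < i, v = y j}) P → P (s1 (y i)) →
        ∃ m ∈ N, P (s1 m)) ∧
      ∀ (n : ℕ) (i j : Fin n → ℕ), StrictMono i → StrictMono j → Tq L N (fun k => y (i k)) (fun k => y (j k))

/-- [RNI] totally indiscernible sequences and NIP.
HYPS: RDE, NPP.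
PROOF.  `φ` is definable over a finite set (`dp_fin`), NPP: `k` with `¬ Sh φ k`.  Let `z` be totally indiscernible over `A`.  (1) For
injective `i, j : Fin m → ℕ`: `Sq A (z_i) (z_j)`: `E ∈ FE A`; infinitely many pairwise disjoint injective tuples: two of them are
equivalent, by `Tis` all pairs of disjoint injective tuples, so (a third one disjoint from both) all pairs.  (2) Suppose `φ (z (i t)) c`,
`¬ φ (z (i' t)) c`, `i`, `i'` injective.  For `s : Set (Fin k)`: `j t := i t` for `t ∈ s`, `i' t` otherwise: injective; (1) and `sq_ext`: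
`c_s` with `Sq A ((z (j t))_t, c) ((z t)_t, c_s)`; so `φ (z t) c_s ↔ t ∈ s`: `Sh φ k`. -/
def St_RNI : Prop :=
  ∀ (L : FirstOrder.Language.{0, 0}) (U : Type) [L.Structure U], Cz L U →
    ∀ (A : Set U) (n : ℕ) (φ : U → (Fin n → U) → Prop), A.Finite →
    Dp L (univ : Set U) (fun v : Fin 1 ⊕ Fin n → U => φ (v (Sum.inl 0)) (fun i => v (Sum.inr i))) →
    (∀ v c v' c', Sq L A (Sum.elim (s1 v) c) (Sum.elim (s1 v') c') → φ v c → φ v' c') →
    ∃ k : ℕ, ∀ z : ℕ → U, Tis L A univ z → ∀ (c : Fin n → U) (i i' : Fin k → ℕ), Function.Injective i →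
      Function.Injective i' → (∀ t, φ (z (i t)) c) → ∃ t, φ (z (i' t)) c

/-- [RF1] over a countable elementary submodel there are only countably many types of the relations `φ 0, .., φ (k-1)` (majority rule).
HYPS: RDE, RCH, RNI.
PROOF.  All `φ j` are definable over `N` (RDE).  For `x` in the strong type of `a` let `y` be as in RCH; `Sq A a (y i)` (RDE (2) for the
classes of `E ∈ FE A`: `Tq N x (y i)` implies `Sq A x (y i)`).  `φ j x c ↔ φ j (y i) c` for `c` in `N`.
Case 1: `R (y 0) (y 1)`.  `Ivr.sat` (both in `D`; `sym`): the property `W (v, v')`: `∀ j c, φ j v c ↔ φ j v' c`, definable over `N`, holds for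
`(y 0, y 1)`; RCH (2): `m ∈ N` with `W (y 0, m)`: the type of `x` is the one of `m ∈ N`.
Case 2: `Tis A univ y` (`Stv.tis`).  `K` = the maximum of the numbers of RNI for the `φ j`, `M := 2 K + 1`.  For `c` and `j` one of the sets
`{i | φ j (y i) c}`, `{i | ¬ φ j (y i) c}` has less than `K` elements; so `Maj j (v_1, .., v_M) c` := more than half of the `φ j (v_i) c`, for
any `M` different terms of `y`, does not depend on the choice, and for `c` in `N` is `φ j x c`.  `Ξ (v̄, v̄')` := `∀ j c, Maj j v̄ c ↔ Maj j v̄' c`,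
definable over `N`.  `Ξ (y_0 .. y_(M-1), y_M .. y_(2M-1))`.  Replace `y_(2M-1)`, then `y_(2M-2)`, .., `y_M` by elements of `N` (RCH (2);
the elements already chosen are in `N`): `m̄` in `N` with `Ξ (y_0 .. y_(M-1), m̄)`: the type of `x` over `N` is `{(j, c) | Maj j m̄ c}`.
So there are at most countably many (`N`, `Fin M → N` are countable). -/
def St_RF1 : Prop :=
  ∀ (L : FirstOrder.Language.{0, 0}) (U : Type) [L.Structure U], Cz L U →
    ∀ (A : Set U) (a : U) (D : Set U) (R : U → U → Prop), Stv L A a D R →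
    ∀ N : Set U, N.Countable → IsEl L N → A ⊆ N →
    ∀ (k : ℕ) (n : Fin k → ℕ) (φ : ∀ j : Fin k, U → (Fin (n j) → U) → Prop), (∀ j, Ivr L A D R (φ j)) →
    {S : Set (Σ j : Fin k, (Fin (n j) → N)) | ∃ x : U, Sq L A (s1 a) (s1 x) ∧
      S = {p | φ p.1 x (fun i => (p.2 i : U))}}.Countable

/-- [RTP] a countable compact space with a group of homeomorphisms has a finite orbit (here: a closed set `X` of subsets of a
countable set `ι`, `Γ` a set of permutations of `ι`).
HYPS: none.
PROOF.  Topology of `ι → Prop` (discrete `Prop`; compact, metrizable).  Zorn: a minimal closed nonempty `Y ⊆ X` with `f ⁻¹' S ∈ Y` for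
`S ∈ Y`, `f ∈ Γ` (intersections of chains are nonempty by compactness).  `Y` is a nonempty countable compact Hausdorff space, so (Baire) it has
an isolated point.  The set `I` of the isolated points of `Y` is open in `Y`, invariant (`S ↦ f ⁻¹' S` is a homeomorphism of `Y` with
inverse given by `f.symm ∈ Γ`), so `Y \ I` is closed and invariant and different from `Y`: empty.  So `Y` is discrete and compact: finite. -/
def St_RTP : Prop :=
  ∀ (ι : Type) [Countable ι] (X : Set (Set ι)) (Γ : Set (ι ≃ ι)), X.Nonempty → X.Countable →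
    (∀ T : Set ι, (∀ F : Set ι, F.Finite → ∃ S ∈ X, ∀ i ∈ F, (i ∈ S ↔ i ∈ T)) → T ∈ X) →
    (∀ f ∈ Γ, f.symm ∈ Γ) → (∀ S ∈ X, ∀ f ∈ Γ, f ⁻¹' S ∈ X) →
    ∃ Y ⊆ X, Y.Finite ∧ Y.Nonempty ∧ ∀ S ∈ Y, ∀ f ∈ Γ, f ⁻¹' S ∈ Y

/-! ### Generic points -/

/-- [RGN] generic points exist over countable sets.
HYPS: RDE, RHN, RF1, RTP.
PROOF.  `N` from RHN for `C` (`Φ u = ∅`).  All relations with `Ivr` are definable over `N` (RDE), countably many (`dp_cnt`); the strong type of `a`
is given by the countably many `E (·) a`, `E ∈ FE A`.  By `sat_dp` (over `N ∪ {a}`) it is enough to find `x` for finitely many relations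
`φ 0, .., φ (k-1)`.  `ι := Σ j, (Fin (n j) → N)`; `X` = the set of the `cod x = {p | φ p.1 x p.2}`, `Sq A a x`: nonempty, countable (RF1),
closed (`sat_dp`: `T` a limit: the properties `E (·) a`, `φ j (·) c ↔ (j, c) ∈ T` are finitely satisfiable).  `Γ` := the permutations
`(j, c) ↦ (j, g ∘ c)`, `g : N ≃ N` with `Sq A d (g d)` for all finite tuples `d` of `N`.  `f ⁻¹' (cod x) = cod x'`: `x'` with
`φ j x' c ↔ φ j x (g c)`, `Sq A a x'`: `sat_dp`, for finitely many `c`, with entries `d`: `sq_ext`: `Sq A (g d, x) (d, x')`, `Ivr.inv`.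
RTP: `Y`; let `cod x ∈ Y`.  CLAIM: `c, c' : Fin (n j) → N`, `Sq A c c'`: `(j, c) ∈ S ↔ (j, c') ∈ S` for all `S ∈ Y`.  RHN for the equivalence
relation `R d d'` := (`d = d'`, or both are tuples of `N` and `(j, d) ∈ S ↔ (j, d') ∈ S` for all `S ∈ Y`).  Let `u` be as in RHN.  `Y` is
finite: `p < q` with `R (u p) (u q)`; `Sq A (u p, u q) (u 0, u 1)` (IDS for `Idc`; or its proof), so there is `g` with
`g (u p) = u 0`, `g (u q) = u 1`; for `S ∈ Y`, `f` the permutation of `g`: `f ⁻¹' S ∈ Y`: `(j, u 0) ∈ S ↔ (j, u p) ∈ f ⁻¹' S ↔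
(j, u q) ∈ f ⁻¹' S ↔ (j, u 1) ∈ S`. -/
def St_RGN : Prop :=
  ∀ (L : FirstOrder.Language.{0, 0}) (U : Type) [L.Structure U], Cz L U →
    ∀ (A : Set U) (a : U) (D : Set U) (R : U → U → Prop), Stv L A a D R →
    ∀ C : Set U, C.Countable → ∃ x, Gnr L A a D R C x

/-- [RST] a generic point can be moved inside its class.
HYPS: RDE.
PROOF.  `𝓔` := the relations `E` definable over `U`, equivalence relations, `Sq A`-invariant, containing `R` on `D`; closed under
intersections; countable (RDE (2) for one countable elementary submodel `N ⊇ A`, `dp_cnt`).  We look for `x'` with `Sq A (x, c) (x', c')` and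
`E x' x` for all `E ∈ 𝓔`; then `Sq A a x'`, `x' ∈ D` and `R x' x` by the hypothesis.  `sat_dp`: it is enough to find `x'` for one
`F ∈ FE A` (on tuples `Fin 1 ⊕ Fin n`) and one `E ∈ 𝓔`.  `φ v d := ∃ v', E v' v ∧ F (v', d) (x, c)`.  `Ivr`: definable; `Sq A`-invariant
(`sq_ext`: `(v, d, v') =* (v₁, d₁, v₁')`, `F (v', d) (v₁', d₁)`); `R v v'` on `D` implies `E v v'`.  `φ x c` (`v' = x`); generic: `φ x c'`. -/
def St_RST : Prop :=
  ∀ (L : FirstOrder.Language.{0, 0}) (U : Type) [L.Structure U], Cz L U →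
    ∀ (A : Set U) (a : U) (D : Set U) (R : U → U → Prop), A.Finite → (∀ v, Sq L A (s1 a) (s1 v) → v ∈ D) →
    (∀ v ∈ D, ∀ w ∈ D, ¬ R v w → ∃ E : U → U → Prop, Dp L (univ : Set U) (fun u : Fin 2 → U => E (u 0) (u 1)) ∧
      Equivalence E ∧ (∀ a b a' b', Sq L A ![a, b] ![a', b'] → E a b → E a' b') ∧
      (∀ a ∈ D, ∀ b ∈ D, R a b → E a b) ∧ ¬ E v w) →
    ∀ (C : Set U) (x : U), Gnr L A a D R C x → ∀ (n : ℕ) (c c' : Fin n → U), (∀ i, c i ∈ C) → (∀ i, c' i ∈ C) →
    Sq L A c c' → ∃ x', R x' x ∧ x' ∈ D ∧ Sq L A (Sum.elim (s1 x) c) (Sum.elim (s1 x') c')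

/-- [RED] END criterion.
HYPS: ULT.
PROOF.  `S_B` := the set of the `s1 y`, `y` as in the hypothesis for `B`; `S_(B ∪ B') ⊆ S_B ∩ S_B'`; ULT: `r`.  `Ets A x r` (`E ∈ FE A`: `E y x` on `S_B`).
`Nal`: `r (· = u)`: `u` is in every `S_B`: `Sq A x u`, `u ∈ P` (`pc_sq`), but `u ∉ B` for `B = {u}`.  `Inv A r`: `Q` over `A`, `c =* c'` over `A`.
Split `c = (c₁, c₂)` (in `P`, outside), `c'` in the same way (`bf_inv`).  `B` = the entries of `c₁`, `c'₁`: for `y ∈ S_B`:
`(y, c₁) =* (y, c'₁)` over `A`, in `P` (`pc_sq`), `c₂ =* c'₂`, outside: `(y, c) =* (y, c')` (`prod` / `bf_prd`, as in LIM and GLT), so `Q (y, c) ↔ Q (y, c')`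
on `S_B`. -/
def St_RED : Prop :=
  ∀ (L : FirstOrder.Language.{0, 0}) (U : Type) [L.Structure U], Cz L U →
    ∀ (A : Set U) (z x : U), A.Finite → x ∈ Pc L A z →
    (∀ B : Set U, B.Finite → B ⊆ Pc L A z → ∃ y, Sq L A (s1 x) (s1 y) ∧ y ∉ B ∧
      ∀ (n : ℕ) (c c' : Fin n → U), (∀ i, c i ∈ B) → (∀ i, c' i ∈ B) → Sq L A c c' →
        Sq L (insert y A) c c') → Edd L A z

/-- [RGE] the big piece of a generic point contains the points of `C`, if `C` is closed under facing sequences.
HYPS: REG, RDG, RSP, RST, XPC.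
PROOF.  Let `u ∈ C ∩ P`.  `Eg x*` is not empty (RDG; `x* ∈ Dz`).  If `Eg u = ∅`: REG (6).  Otherwise let `s` be the sequence of `u` in `C`.
Suppose `u = s 0 ∉ Eg x*`.  For `q : ℚ`: `Sq A (s 0) (s q)`, RST (RSP): `x'` with `Rf x' x*`, `x' ∈ Dz`, `Sq A (x*, s 0) (x', s q)`: `s q ∉ Eg x' = Eg x*`
(REG (5) / RDG).  So no term of `s` is in `Eg x*`; `v ∈ Eg x*`; REG (3): for finite `W`: `big (insert x* A ∪ Tm s W) v`, `b4`: `big (A ∪ Tm s W) v`,
`v ∈ P`.  XPC: `s 1 ∉ Eg (s 0)`: contradiction. -/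
def St_RGE : Prop :=
  ∀ (L : FirstOrder.Language.{0, 0}) (U : Type) [L.Structure U], Cz L U →
    ∀ (A₀ : Set U) (big : Set U → U → Prop) (A : Set U) (z x : U), Gx L A₀ big A z x →
    ∀ (C : Set U), (∀ u ∈ C, u ∈ Pc L A z → (Eg L big A z u).Nonempty → ∃ s : ℚ → Fin 1 → U, Idc L A s ∧
        s 0 0 = u ∧ (∀ q, s q 0 ∈ C) ∧ (∀ q, Sq L A (s1 u) (s q)) ∧
        ∀ p q, p ≠ q → s q 0 ∈ Eg L big A z (s p 0)) →
    ∀ x' : U, Gnr L A x (Dz L A z x) (Rf L big A z) C x' → ∀ u ∈ C, u ∈ Pc L A z → u ∈ Eg L big A z x'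

/-- [RFR] **FREE**: some facing indiscernible sequence in the strong type of `x` is not totally indiscernible.
HYPS: REG, RDG, RSP, RHN, RGN, RST, RED, RGE, UNB, NN, EXT, IDS, IDB, DPM.
PROOF.  Suppose not.  (1) `Stv A x Dz Rf`: `sub`: RDG (4); `sym`: clear; `tis`: `w : ℕ → U` in the strong type of `x`, increasing tuples have the same
type over `A`, `¬ Rf (w 0) (w 1)`; EXT: `u : ℚ → Fin 1 → U`, `Idc A u`, increasing tuples of `u` have the type over `A` (FE classes of
definable properties, `fe_of_dp`) of increasing tuples of `w`, and the strong type of `x`.  `¬ Rf (u 0) (u 1)` (RDG (3)).  `u 1 ∈ Eg (u 0)` or `u 0 ∈ Eg (u 1)`;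
in the first case `u 1 ∈ Eg (u 0)`: `big (insert (u 0) A) (u 1)`, NN: also `big (insert (u 1) A) (u 0)`; the same in the second case; `Idc` (`Tq`,
`inv`): all pairs.  So `u` is totally indiscernible, and so is `w` (every injective tuple is a permutation of an increasing one).
(2) Closure operator `Φ`: for `u ∈ P` with `Eg u ≠ ∅` the terms of a facing sequence `s` with `s 0 = u` (UNB for `u`: `s'`; `sq_ext` / `tq_ext'` for
countable tuples moves `s' 0` to `u` inside the strong types: choose `s` with all finite parts `(s' 0, ..) =* (u, s ..)` over `A` by `sat_dp`).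
(3) Let `B ⊆ P` be finite.  RHN for `C := B`, `Φ`: `N`.  RGN for the countable set `N`: `x*` generic over `N`, `Sq A x x*`.  RGE: `N ∩ P ⊆ Eg x*`.
`x* ∉ B` (`x* ∉ Eg x*`, REG (2)).  Let `c, c'` be tuples of `B`, `Sq A c c'`.  CLAIM: `Sq (insert x* A) c c'`.  RHN for the relation
`R d d'` := `Sq (insert x* A) d d'`: let `u` be `Idc A`, tuples of `N`, `Sq A c (u q)` (so in `P`, `bf_inv`, so in `Eg x*`).  DPM for the two
halves of `u` (`u ∘ f`, `u ∘ g`, `f`, `g` order isomorphisms onto the negative and the positive rationals; mutually indiscernible over `A`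
by IDB): one of them is indiscernible over `insert x* A`; IDS: `p < q` with `Sq (insert x* A) (u p) (u q)`.  `Sq A (u p, u q) (u 0, u 1)` (IDS); RST (tuples
`Fin n ⊕ Fin n`): `x'`, `Rf x' x*`, `x' ∈ Dz`, `Sq A (x*, u p, u q) (x', u 0, u 1)`.  So `Sq (insert x' A) (u 0) (u 1)` (`sq_tq`).  `Eg x' = Eg x*` (RDG), it is
a piece over `insert x' A` and contains `u 0`, `u 1`, `x* ∉ Eg x'`: `of_pc`: `Sq (insert x* (insert x' A)) (u 0) (u 1)`, so `Sq (insert x* A) (u 0) (u 1)`.
(4) RED: `Edd A z`, `b1`: contradiction. -/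
def St_RFR : Prop :=
  ∀ (L : FirstOrder.Language.{0, 0}) (U : Type) [L.Structure U], Cz L U →
    ∀ (A₀ : Set U) (big : Set U → U → Prop) (A : Set U) (z x : U), Gx L A₀ big A z x →
    ∃ u : ℚ → Fin 1 → U, Idc L A u ∧ (∀ q, Sq L A (s1 x) (u q)) ∧
      (∀ p q, p ≠ q → big (insert (u p 0) A) (u q 0)) ∧ ¬ Tis L A univ (fun q => u q 0)

/-- [RIS] isolated types are dense.
HYPS: none.
PROOF.  Suppose that no element of `W` (definable over `A`, not empty) has an isolated type over `A`.  Then every nonempty `W' ⊆ W` definable over `A`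
splits into two nonempty sets definable over `A`; binary tree; `sat_dp` for every branch: `2^ℵ₀` types over `A`, which are realised; but over
the finite set `A` there are only countably many types (`Cz.sml` for the tuple (enumeration of `A`, `x`)). -/
def St_RIS : Prop :=
  ∀ (L : FirstOrder.Language.{0, 0}) (U : Type) [L.Structure U], Cz L U →
    ∀ (A : Set U) (W : (Fin 1 → U) → Prop), A.Finite → Dp L A W → (∃ x, W x) →
    ∃ x : U, W (s1 x) ∧ Isl L A (s1 x)

/-- [RIX] every big piece contains a point with isolated type.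
HYPS: LIM, RIS.
PROOF.  LIM (`b1`): `E ∈ FE A` with `E y z → y ∈ P`.  For every class of `E` (finitely many) which contains no point of type `tp(z/A)` choose by
compactness `ζ` over `A`, `ζ z`, which is false on the class; `ζ` = the conjunction.  `W y := ∃ z', ζ z' ∧ E y z'` is definable over `A`.  RIS:
`y`, `W y`, `Isl A y`; the class of `y` contains a `z'` of type `tp(z/A)`, `E y z'`; `tq_ext`: `Tq A ![z', y] ![z, x]`; `E x z`, so `x ∈ P`; `Isl A x`. -/
def St_RIX : Prop :=
  ∀ (L : FirstOrder.Language.{0, 0}) (U : Type) [L.Structure U], Cz L U →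
    ∀ (A₀ : Set U) (big : Set U → U → Prop), Bg L A₀ big → ∀ (A : Set U) (z : U), A₀ ⊆ A → A.Finite → big A z →
    ∃ x ∈ Pc L A z, Isl L A (s1 x)

end Pool.Agent.TPY
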