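import Pool.Agent.TPY.StR

/-!
# TPY/StR2 (helper31): the three parts of RFR

With RFA, RFC, RFD the module RFR is a short assembly (helper31).
-/

set_option autoImplicit false
set_option linter.unusedVariables false

namespace Pool.Agent.TPY

open FirstOrder.Language Set
open scoped FirstOrder
open Pool.Agent.WOM (IsEl)
open Pool.Agent.MNO (Dp FE Sq Exa)

/-- [RFA] part (1) of RFR: the strong type of `x` is stable modulo `Rf`.
HYPS: REG, RDG, NN, EXT.
PROOF.  `sub`: RDG (4) for `x ∈ Dz` (`Gx.mem`, `tq_refl`); `sym`: clear; `fin`.  `tis`: `w : ℕ → U` in the strong type of `x`, increasing tuples have the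
same type over `A`, `¬ Rf (w 0) (w 1)`; EXT for `fun n => s1 (w n)`: `u : ℚ → Fin 1 → U`, `Idc A u`, every increasing tuple of `u` has the type over `A` of
an increasing tuple of `w` (`fe_of_dp` and `tq`: for `P` over `A` the relation `P v ↔ P v'` is in `FE A`), and `Sq A (s1 x) (u q)` (`n = 1`: `E ∈ FE A`
on single elements; `sq_trans`).  `¬ Rf (u 0) (u 1)` (RDG (3) for `w 0, w 1` and `u 0, u 1`; all are in `P` by `pc_sq`).  So `u 1 ∈ Eg (u 0)` or
`u 0 ∈ Eg (u 1)`.  First case: `big (insert (u 0) A) (u 1)` (REG (1)).  NN needs `y'` with `big (insert (u 1) A) y'`, `y' ∈ P`: RDG (1) (`u 1 ∈ Dz`);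
`Pc (insert (u 0) A) (u 1) ≠ Pc (insert (u 1) A) y'` (the first contains `u 1`, the second does not: REG (2) or CAL), so `u 0 ∈ Pc (insert (u 1) A) y'`,
so `u 0 ∈ Eg (u 1)` and `big (insert (u 1) A) (u 0)`.  Second case: the same.  So `big (insert (u p) A) (u q)` for all `p ≠ q` (`Idc`, `big_tq` of
REG.lean).  By the hypothesis `Tis L A univ (u · 0)`.  `Tis` for `w`: an injective tuple `w ∘ i` is a permutation of an increasing one, `i = i₀ ∘ σ`; the
type over `A` of `w ∘ i₀` is the type of `u ∘ f` for one (every) increasing `f`; so both `w ∘ i`, `w ∘ j` have types of injective tuples of `u`. -/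
def St_RFA : Prop :=
  ∀ (L : FirstOrder.Language.{0, 0}) (U : Type) [L.Structure U], Cz L U →
    ∀ (A₀ : Set U) (big : Set U → U → Prop) (A : Set U) (z x : U), Gx L A₀ big A z x →
    (∀ u : ℚ → Fin 1 → U, Idc L A u → (∀ q, Sq L A (s1 x) (u q)) →
      (∀ p q, p ≠ q → big (insert (u p 0) A) (u q 0)) → Tis L A univ (fun q => u q 0)) →
    Stv L A x (Dz L A z x) (Rf L big A z)

/-- [RFC] part (2) of RFR: facing sequences through a given good point.
HYPS: UNB.
PROOF.  UNB for `u`, `y ∈ Eg u` (definition of `Eg`): `s'`, `Idc A s'`, `Sq A (s1 u) (s' q)`, `big (insert (s' p) A) (s' q)`.  Move it: `Sq A (s' 0) (s1 u)`; extension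
of equality of strong types by countable tuples (`sqc_ext` of GBA.lean, or `sat_dp`): `s : ℚ → Fin 1 → U` such that for all finite index tuples
`(s' 0, s' q_1, .., s' q_n) =* (u, s q_1, .., s q_n)` over `A`; so `s 0 0 = u` (`tq_eq`), `Idc A s`, `Sq A (s1 u) (s q)`, `big (insert (s p) A) (s q)`
(`big_sq` of MB0), `s q ∈ P` (`pc_sq`), so `s q 0 ∈ Eg (s p 0)`. -/
def St_RFC : Prop :=
  ∀ (L : FirstOrder.Language.{0, 0}) (U : Type) [L.Structure U], Cz L U →
    ∀ (A₀ : Set U) (big : Set U → U → Prop), Bg L A₀ big →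
    ∀ (A : Set U) (z u : U), A₀ ⊆ A → A.Finite → u ∈ Pc L A z → (Eg L big A z u).Nonempty →
    ∃ s : ℚ → Fin 1 → U, Idc L A s ∧ s 0 0 = u ∧ (∀ q, Sq L A (s1 u) (s q)) ∧
      ∀ p q, p ≠ q → s q 0 ∈ Eg L big A z (s p 0)

/-- [RFD] part (3) of RFR: the type over `N ∩ P` of a generic point `y` with `N ∩ P ⊆ Eg y` is invariant.
HYPS: REG, RDG, IDS, IDB, DPM.
PROOF.  Lascar property of `N` for `R d d'` := `Sq (insert y A) d d'`: let `u` be `Idc A`, tuples of `N`, `Sq A c (u q)` (so the entries are in `P`: `bf_inv`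
for `pc_bf`, so in `Eg y`).  `f`, `g : ℚ → ℚ` strictly monotone, with values `< 0`, `> 0` (for example `f q = -1/(1+q)` for `q ≥ 0`, `q - 1` for `q < 0`;
`g q = - f (-q)`; or `exists_f` in the files of helper3 (NPN `npn_f`), helper26).  `Mut A (u ∘ f) (u ∘ g)` by IDB (1) (`S` = the range of the other one).
DPM: `u ∘ f` or `u ∘ g` is indiscernible over `insert y A`; IDS: `p < q` with `Sq (insert y A) (u p) (u q)`.  `Sq A (u p, u q) (u 0, u 1)` (IDS for `u`).
The hypothesis `hmv` for the tuples `(u p, u q)`, `(u 0, u 1)` (reindexed by `Fin (n + n)`): `x'`, `Rf x' y`, `x' ∈ Dz`, `Sq A (y, u p, u q) (x', u 0, u 1)`.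
So `Sq (insert x' A) (u 0) (u 1)` (`sq_tq`).  `Eg x' = Eg y` (RDG (2)), it is a piece over `insert x' A` (REG (1)), it contains the entries of `u 0`, `u 1`,
and `y ∉ Eg x'` (REG (2)): `of_pc`: `Sq (insert x' A ∪ range (s1 y)) (u 0) (u 1)`, so `Sq (insert y A) (u 0) (u 1)` (`sq_mono`). -/
def St_RFD : Prop :=
  ∀ (L : FirstOrder.Language.{0, 0}) (U : Type) [L.Structure U], Cz L U →
    ∀ (A₀ : Set U) (big : Set U → U → Prop) (A : Set U) (z x : U), Gx L A₀ big A z x →
    ∀ (N : Set U) (y : U), y ∈ Dz L A z x → (∀ v ∈ N, v ∈ Pc L A z → v ∈ Eg L big A z y) →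
    (∀ (n : ℕ) (c c' : Fin n → U), (∀ i, c i ∈ N) → (∀ i, c' i ∈ N) → Sq L A c c' →
      ∃ x', Rf L big A z x' y ∧ x' ∈ Dz L A z x ∧ Sq L A (Sum.elim (s1 y) c) (Sum.elim (s1 x') c')) →
    (∀ (n : ℕ) (c c' : Fin n → U) (R : (Fin n → U) → (Fin n → U) → Prop), (∀ i, c i ∈ N) → (∀ i, c' i ∈ N) →
      Sq L A c c' → Equivalence R →
      (∀ u : ℚ → Fin n → U, Idc L A u → (∀ q k, u q k ∈ N) → (∀ q, Sq L A c (u q)) → R (u 0) (u 1)) → R c c') →
    ∀ (n : ℕ) (c c' : Fin n → U), (∀ i, c i ∈ N) → (∀ i, c i ∈ Pc L A z) → (∀ i, c' i ∈ N) → Sq L A c c' →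
      Sq L (insert y A) c c'

end Pool.Agent.TPY
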