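import Pool.Agent.TPY.StI
import Pool.Agent.TPY.Tq0

/-!
# TPY [TRA]: indiscernibility of a part of a sequence over everything else (helper48)

`Gj L B u J`: the terms of `u` with index in `J` are indiscernible over `B` and the other terms.
-/

set_option autoImplicit false
set_option linter.unusedVariables false

namespace Pool.Agent.TPY

open FirstOrder.Language Set
open scoped FirstOrder
open Pool.Agent.MNO

/-- the index tuples `w`, `w'` have the same order type and differ only inside `J` -/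
structure Sm {κ : Type} (J : Set ℚ) (w w' : κ → ℚ) : Prop where
  lt : ∀ a b, w a < w b ↔ w' a < w' b
  eq : ∀ a, w a = w' a ∨ (w a ∈ J ∧ w' a ∈ J)

namespace Sm

variable {κ : Type} {J K : Set ℚ} {w w' w'' : κ → ℚ}

theorem refl (w : κ → ℚ) : Sm J w w := ⟨fun _ _ => Iff.rfl, fun _ => Or.inl rfl⟩

theorem symm (h : Sm J w w') : Sm J w' w :=
  ⟨fun a b => (h.lt a b).symm, fun a => (h.eq a).imp Eq.symm And.symm⟩

theorem mono (h : Sm J w w') (hJ : J ⊆ K) : Sm K w w' :=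
  ⟨h.lt, fun a => (h.eq a).imp id fun h => ⟨hJ h.1, hJ h.2⟩⟩

theorem comp (h : Sm J w w') {ι : Type} (f : ι → κ) : Sm J (fun a => w (f a)) (fun a => w' (f a)) :=
  ⟨fun a b => h.lt _ _, fun a => h.eq _⟩

theorem eqq (h : Sm J w w') (a b : κ) : w a = w b ↔ w' a = w' b := by
  have h1 := h.lt a b
  have h2 := h.lt b a
  constructor
  · intro h3
    by_contra h4
    rcases lt_or_gt_of_ne h4 with h5 | h5
    · exact absurd (h1.2 h5) (by rw [h3]; exact lt_irrefl _)
    · exact absurd (h2.2 h5) (by rw [h3]; exact lt_irrefl _)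
  · intro h3
    by_contra h4
    rcases lt_or_gt_of_ne h4 with h5 | h5
    · exact absurd (h1.1 h5) (by rw [h3]; exact lt_irrefl _)
    · exact absurd (h2.1 h5) (by rw [h3]; exact lt_irrefl _)

/-- comparison with a point outside of an interval -/
theorem out (hJ : J.OrdConnected) {p q q' : ℚ} (hp : p ∉ J) (hq : q ∈ J) (hq' : q' ∈ J) :
    (p < q ↔ p < q') ∧ (q < p ↔ q' < p) := by
  have key : ∀ x ∈ J, ∀ y ∈ J, p < x → p < y := by
    intro x hx y hy h
    by_contra h1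
    have h2 : y ≤ p := not_lt.1 h1
    exact hp (hJ.out hy hx ⟨h2, h.le⟩)
  have key' : ∀ x ∈ J, ∀ y ∈ J, x < p → y < p := by
    intro x hx y hy h
    by_contra h1
    have h2 : p ≤ y := not_lt.1 h1
    exact hp (hJ.out hx hy ⟨h.le, h2⟩)
  exact ⟨⟨key _ hq _ hq', key _ hq' _ hq⟩, ⟨key' _ hq _ hq', key' _ hq' _ hq⟩⟩

theorem mk' (hJ : J.OrdConnected) (h1 : ∀ a, (w a ∉ J ∧ w' a = w a) ∨ (w a ∈ J ∧ w' a ∈ J))
    (h2 : ∀ a b, w a ∈ J → w b ∈ J → (w a < w b ↔ w' a < w' b)) : Sm J w w' := by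
  refine ⟨fun a b => ?_, fun a => (h1 a).imp (fun h => h.2.symm) id⟩
  rcases h1 a with ⟨ha, ha'⟩ | ⟨ha, ha'⟩ <;> rcases h1 b with ⟨hb, hb'⟩ | ⟨hb, hb'⟩
  · rw [ha', hb']
  · rw [ha']
    exact (out hJ ha hb hb').1
  · rw [hb']
    exact (out hJ hb ha ha').2
  · exact h2 a b ha hb

/-- a strictly monotone map which is the identity outside of `J` -/
theorem map {g : ℚ → ℚ} (hg : StrictMono g) (h1 : ∀ q ∉ J, g q = q) (h2 : ∀ q ∈ J, g q ∈ J) (w : κ → ℚ) :
    Sm J w (fun a => g (w a)) := by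
  refine ⟨fun a b => hg.lt_iff_lt.symm, fun a => ?_⟩
  by_cases h : w a ∈ J
  · exact Or.inr ⟨h, h2 _ h⟩
  · exact Or.inl (h1 _ h).symm

end Sm

/-- every finite family of indices is a strictly monotone tuple -/
theorem sm_sort {κ : Type} [Finite κ] (w : κ → ℚ) :
    ∃ (n : ℕ) (i : Fin n → ℚ) (e : κ → Fin n), StrictMono i ∧ (∀ a, w a = i (e a)) ∧ Function.Surjective e := by
  classical
  have hf : (range w).Finite := finite_range w
  let s : Finset ℚ := hf.toFinset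
  have hs : ∀ a, w a ∈ s := fun a => hf.mem_toFinset.2 ⟨a, rfl⟩
  let i : Fin s.card → ℚ := fun k => s.orderEmbOfFin rfl k
  have hi : StrictMono i := (s.orderEmbOfFin rfl).strictMono
  have hr : ∀ a, ∃ k, i k = w a := by
    intro a
    have h1 : w a ∈ range (s.orderEmbOfFin rfl) := by
      rw [Finset.range_orderEmbOfFin]
      exact hs a
    exact h1
  choose e he using hr
  refine ⟨s.card, i, e, hi, fun a => (he a).symm, fun k => ?_⟩
  have h1 : i k ∈ s := Finset.orderEmbOfFin_mem s rfl k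
  obtain ⟨a, ha⟩ := hf.mem_toFinset.1 h1
  refine ⟨a, hi.injective ?_⟩
  rw [he a, ha]

variable {L : FirstOrder.Language.{0, 0}} {U : Type} [L.Structure U]

/-- the terms of `u` with indices `w` -/
def tm {ι κ α : Type} (u : ι → α → U) (w : κ → ι) : κ × α → U := fun p => u (w p.1) p.2

variable (L) in
/-- the part of `u` with index in `J` is indiscernible over `B` and the other terms -/
def Gj (B : Set U) {α : Type} (u : ℚ → α → U) (J : Set ℚ) : Prop :=
  ∀ (κ : Type) [Finite κ] (w w' : κ → ℚ), Sm J w w' → Tq L B (tm u w) (tm u w')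

section

variable {B B' : Set U} {α : Type} {u : ℚ → α → U} {J K : Set ℚ}

theorem gj_mono (h : Gj L B u J) (hJ : K ⊆ J) (hB : B' ⊆ B) : Gj L B' u K :=
  fun κ _ w w' hw => tq_mono hB (h κ w w' (hw.mono hJ))

/-- infinitely many terms -/
theorem gj_inf (h : Gj L B u J) {κ : Type} {w w' : κ → ℚ} (hw : Sm J w w') : Tq L B (tm u w) (tm u w') := by
  intro P hP h1
  obtain ⟨s, hs, Q, hQ, hPQ⟩ := dp_ffin hP
  let κ' : Set κ := Prod.fst '' s
  have hκ : Finite κ' := (hs.image _).to_subtype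
  have h2 := h κ' (fun a => w a) (fun a => w' a) (hw.comp Subtype.val)
  have h3 := tq_sub h2 (fun x : s => ((⟨x.1.1, x.1, x.2, rfl⟩ : κ'), x.1.2))
  rw [hPQ] at h1 ⊢
  exact h3 Q hQ h1

theorem gj_of_fin (h : ∀ (n : ℕ) (i j : Fin n → ℚ), StrictMono i → StrictMono j → Sm J i j →
    Tq L B (tms u i) (tms u j)) : Gj L B u J := by
  intro κ _ w w' hw
  obtain ⟨n, i, e, hi, hwi, he⟩ := sm_sort w
  choose g hg using he
  have h1 : ∀ a, w' a = w' (g (e a)) := by
    intro a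
    rw [← hw.eqq, hwi, hwi, hg]
  have hj : StrictMono (fun k => w' (g k)) := by
    intro k l hkl
    show w' (g k) < w' (g l)
    rw [← hw.lt, hwi, hwi, hg, hg]
    exact hi hkl
  have h2 : Sm J i (fun k => w' (g k)) := by
    refine ⟨fun a b => by rw [hi.lt_iff_lt, hj.lt_iff_lt], fun k => ?_⟩
    have h3 := hw.eq (g k)
    rw [hwi, hg] at h3
    exact h3
  have h3 := tq_sub (h n i _ hi hj h2) (fun p : κ × α => (e p.1, p.2))
  refine tq_congr h3 ?_ ?_
  · funext p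
    show u (w p.1) p.2 = u (i (e p.1)) p.2
    rw [hwi]
  · funext p
    show u (w' p.1) p.2 = u (w' (g (e p.1))) p.2
    rw [← h1]

theorem gj_idc : Gj L B u univ ↔ Idc L B u := by
  constructor
  · intro h n i j hi hj
    exact h (Fin n) i j ⟨fun a b => by rw [hi.lt_iff_lt, hj.lt_iff_lt], fun a => Or.inr ⟨trivial, trivial⟩⟩
  · intro h
    exact gj_of_fin fun n i j hi hj _ => h n i j hi hj

/-- gluing: `g` compresses -/
theorem gj_glue (hJ : Gj L B u J) (hK : Gj L B u K) {g : ℚ → ℚ} (hg : StrictMono g) (h1 : ∀ q ∉ K, g q = q)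
    (h2 : ∀ q ∈ K, g q ∈ K) (h3 : ∀ q ∈ J ∪ K, g q ∈ J) : Gj L B u (J ∪ K) := by
  intro κ _ w w' hw
  have e1 := hK κ _ _ (Sm.map hg h1 h2 w)
  have e2 := hK κ _ _ (Sm.map hg h1 h2 w')
  have e3 : Sm J (fun a => g (w a)) (fun a => g (w' a)) := by
    refine ⟨fun a b => by rw [hg.lt_iff_lt, hg.lt_iff_lt]; exact hw.lt a b, fun a => ?_⟩
    rcases hw.eq a with h | ⟨h, h'⟩
    · exact Or.inl (by rw [h])
    · exact Or.inr ⟨h3 _ h, h3 _ h'⟩
  exact tq_trans e1 (tq_trans (hJ κ _ _ e3) (tq_symm e2))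

/-- finite families do not reach the ends of an increasing union -/
theorem gj_dir {J : Set ℚ} (h : ∀ p ∈ J, ∀ q ∈ J, ∃ a b : ℚ, a < p ∧ p < b ∧ a < q ∧ q < b ∧ Gj L B u (Ioo a b)) :
    (∃ x, x ∈ J) → (∀ s : Set ℚ, s.Finite → s ⊆ J → ∃ p ∈ J, ∃ q ∈ J, s ⊆ Icc p q) → Gj L B u J := by
  intro _ hfin κ _ w w' hw
  let s : Set ℚ := (range w ∪ range w') ∩ J
  have hs : s.Finite := ((finite_range w).union (finite_range w')).subset inter_subset_left
  obtain ⟨p, hp, q, hq, hpq⟩ := hfin s hs inter_subset_right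
  obtain ⟨a, b, hap, hpb, haq, hqb, hG⟩ := h p hp q hq
  refine hG κ w w' ⟨hw.lt, fun c => ?_⟩
  rcases hw.eq c with h1 | ⟨h1, h2⟩
  · exact Or.inl h1
  · have h3 := hpq ⟨Or.inl ⟨c, rfl⟩, h1⟩
    have h4 := hpq ⟨Or.inr ⟨c, rfl⟩, h2⟩
    exact Or.inr ⟨⟨hap.trans_le h3.1, h3.2.trans_lt hqb⟩, ⟨hap.trans_le h4.1, h4.2.trans_lt hqb⟩⟩

end

end Pool.Agent.TPY
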