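import Pool.Agent.TPY.TRA

/-!
# TPY [TRB]: places where a sequence is broken (helper48)

`Br L B u s`, `s` real: no neighbourhood of `s` is indiscernible over `B` and the other terms.
-/

set_option autoImplicit false
set_option linter.unusedVariables false

namespace Pool.Agent.TPY

open FirstOrder.Language Set
open scoped FirstOrder
open Pool.Agent.MNO

/-- the affine map of `(b, d)` onto `(M, N)`, the identity outside -/
theorem sqz {b d M N : ℚ} (hbd : b < d) (hbM : b ≤ M) (hMN : M < N) (hNd : N ≤ d) :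
    ∃ f : ℚ → ℚ, StrictMono f ∧ (∀ q ∉ Ioo b d, f q = q) ∧ ∀ q ∈ Ioo b d, f q ∈ Ioo M N := by
  classical
  have hk : 0 < (N - M) / (d - b) := div_pos (sub_pos.2 hMN) (sub_pos.2 hbd)
  have hk' : (d - b) * ((N - M) / (d - b)) = N - M := mul_div_cancel₀ _ (sub_pos.2 hbd).ne'
  set k := (N - M) / (d - b) with hkdef
  have h2 : ∀ q, b < q → q < d → M < M + (q - b) * k ∧ M + (q - b) * k < N := by
    intro q hq hq'
    constructor
    · have := mul_pos (sub_pos.2 hq) hk
      linarith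
    · have h3 : (q - b) * k < (d - b) * k := mul_lt_mul_of_pos_right (by linarith) hk
      linarith
  refine ⟨fun q => if b < q ∧ q < d then M + (q - b) * k else q, ?_, ?_, ?_⟩
  · intro p q hpq
    show (if b < p ∧ p < d then M + (p - b) * k else p) < (if b < q ∧ q < d then M + (q - b) * k else q)
    by_cases hp : b < p ∧ p < d
    · rw [if_pos hp]
      obtain ⟨h3, h4⟩ := h2 p hp.1 hp.2
      by_cases hq : b < q ∧ q < d
      · rw [if_pos hq]
        have h5 : (p - b) * k < (q - b) * k := mul_lt_mul_of_pos_right (by linarith) hk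
        linarith
      · rw [if_neg hq]
        have h5 : d ≤ q := by
          by_contra h6
          exact hq ⟨hp.1.trans hpq, not_le.1 h6⟩
        linarith
    · rw [if_neg hp]
      by_cases hq : b < q ∧ q < d
      · rw [if_pos hq]
        obtain ⟨h3, h4⟩ := h2 q hq.1 hq.2
        have h5 : p ≤ b := by
          by_contra h6
          exact hp ⟨not_le.1 h6, hpq.trans hq.2⟩
        linarith
      · rw [if_neg hq]
        exact hpq
  · intro q hq
    exact if_neg hq
  · intro q hq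
    show (if b < q ∧ q < d then M + (q - b) * k else q) ∈ Ioo M N
    rw [if_pos ⟨hq.1, hq.2⟩]
    exact h2 q hq.1 hq.2

/-- finite subsets of an open set of rational numbers without end points -/
theorem fin_Ioo {J : Set ℚ} (hJ : ∀ x ∈ J, ∃ a ∈ J, ∃ b ∈ J, a < x ∧ x < b) (hne : J.Nonempty) {s : Set ℚ}
    (hs : s.Finite) (hsJ : s ⊆ J) : ∃ a ∈ J, ∃ b ∈ J, a < b ∧ s ⊆ Ioo a b := by
  induction s, hs using Set.Finite.induction_on with
  | empty =>
    obtain ⟨x, hx⟩ := hne
    obtain ⟨a, ha, b, hb, hax, hxb⟩ := hJ x hx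
    exact ⟨a, ha, b, hb, hax.trans hxb, empty_subset _⟩
  | @insert x t _ _ ih =>
    obtain ⟨a, ha, b, hb, hab, ht⟩ := ih ((subset_insert _ _).trans hsJ)
    obtain ⟨a', ha', b', hb', hax, hxb⟩ := hJ x (hsJ (mem_insert _ _))
    refine ⟨min a a', ?_, max b b', ?_, ?_, ?_⟩
    · rcases min_choice a a' with h | h <;> rw [h] <;> assumption
    · rcases max_choice b b' with h | h <;> rw [h] <;> assumption
    · exact (min_le_left _ _).trans_lt (hab.trans_le (le_max_left _ _))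
    · rintro y (rfl | hy)
      · exact ⟨(min_le_right _ _).trans_lt hax, hxb.trans_le (le_max_right _ _)⟩
      · exact ⟨(min_le_left _ _).trans_lt (ht hy).1, (ht hy).2.trans_le (le_max_left _ _)⟩

variable {L : FirstOrder.Language.{0, 0}} {U : Type} [L.Structure U]

variable (L) in
/-- `u` is broken at the real number `s` over `B` -/
def Br (B : Set U) {α : Type} (u : ℚ → α → U) (s : ℝ) : Prop :=
  ∀ a b : ℚ, (a : ℝ) < s → s < b → ¬ Gj L B u (Ioo a b)

section

variable {B B' : Set U} {α : Type} {u : ℚ → α → U} {J K : Set ℚ}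

theorem br_mono (hB : B ⊆ B') {s : ℝ} (h : Br L B u s) : Br L B' u s :=
  fun a b ha hb hG => h a b ha hb (gj_mono hG subset_rfl hB)

theorem br_not {s : ℝ} (h : ¬ Br L B u s) : ∃ a b : ℚ, (a : ℝ) < s ∧ s < b ∧ Gj L B u (Ioo a b) := by
  unfold Br at h
  push Not at h
  obtain ⟨a, b, ha, hb, h⟩ := h
  exact ⟨a, b, ha, hb, h⟩

theorem gj_open (hJ : ∀ x ∈ J, ∃ a ∈ J, ∃ b ∈ J, a < x ∧ x < b) (hne : J.Nonempty)
    (h : ∀ a ∈ J, ∀ b ∈ J, a < b → Gj L B u (Ioo a b)) : Gj L B u J := by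
  intro κ _ w w' hw
  let s : Set ℚ := (range w ∪ range w') ∩ J
  have hs : s.Finite := ((finite_range w).union (finite_range w')).subset inter_subset_left
  obtain ⟨a, ha, b, hb, hab, hsab⟩ := fin_Ioo hJ hne hs inter_subset_right
  refine h a ha b hb hab κ w w' ⟨hw.lt, fun c => ?_⟩
  rcases hw.eq c with h1 | ⟨h1, h2⟩
  · exact Or.inl h1
  · exact Or.inr ⟨hsab ⟨Or.inl ⟨c, rfl⟩, h1⟩, hsab ⟨Or.inr ⟨c, rfl⟩, h2⟩⟩

/-- overlapping intervals -/
theorem gj_ovl {a b c d : ℚ} (hab : a ≤ b) (hbc : b < c) (hcd : c ≤ d) (h1 : Gj L B u (Ioo a c))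
    (h2 : Gj L B u (Ioo b d)) : Gj L B u (Ioo a d) := by
  obtain ⟨g, hg, hg1, hg2⟩ := sqz (hbc.trans_le hcd) le_rfl hbc hcd
  have h3 := gj_glue h1 h2 hg hg1 (fun q hq => ⟨(hg2 q hq).1, (hg2 q hq).2.trans_le hcd⟩) (by
    intro q hq
    by_cases hq' : q ∈ Ioo b d
    · exact ⟨hab.trans_lt (hg2 q hq').1, (hg2 q hq').2⟩
    · rw [hg1 q hq']
      exact hq.resolve_right hq')
  refine gj_mono h3 ?_ subset_rfl
  intro q hq
  by_cases hq' : q < c
  · exact Or.inl ⟨hq.1, hq'⟩
  · exact Or.inr ⟨hbc.trans_le (not_lt.1 hq'), hq.2⟩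

/-- local to global -/
theorem gj_loc {a b : ℚ} (hab : a < b) (h : ∀ s : ℝ, (a : ℝ) ≤ s → s ≤ b → ¬ Br L B u s) :
    Gj L B u (Ioo a b) := by
  have habR : (a : ℝ) < b := by exact_mod_cast hab
  let T : Set ℝ := {t | (a : ℝ) ≤ t ∧ t ≤ b ∧ ∃ b' : ℚ, t < b' ∧ Gj L B u (Ioo a b')}
  have haT : (a : ℝ) ∈ T := by
    obtain ⟨a', b', ha', hb', hG⟩ := br_not (h a le_rfl habR.le)
    refine ⟨le_rfl, habR.le, b', hb', gj_mono hG ?_ subset_rfl⟩
    intro q hq
    have h1 : a' < a := by exact_mod_cast ha'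
    exact ⟨h1.trans hq.1, hq.2⟩
  have hbd : BddAbove T := ⟨b, fun t ht => ht.2.1⟩
  set s := sSup T with hs
  have has : (a : ℝ) ≤ s := le_csSup hbd haT
  have hsb : s ≤ b := csSup_le ⟨a, haT⟩ fun t ht => ht.2.1
  obtain ⟨a', b', ha', hb', hG⟩ := br_not (h s has hsb)
  obtain ⟨t, ht, hat⟩ := exists_lt_of_lt_csSup ⟨_, haT⟩ ha'
  obtain ⟨-, -, bt, htb, hGt⟩ := ht
  have hab' : a' < bt := by exact_mod_cast hat.trans htb
  have h1 : Gj L B u (Ioo a b') := by
    rcases le_or_gt a a' with h2 | h2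
    · rcases le_or_gt bt b' with h3 | h3
      · exact gj_ovl h2 hab' h3 hGt hG
      · exact gj_mono hGt (fun q hq => ⟨hq.1, hq.2.trans h3⟩) subset_rfl
    · exact gj_mono hG (fun q hq => ⟨h2.trans hq.1, hq.2⟩) subset_rfl
  rcases le_or_gt (b : ℝ) b' with h2 | h2
  · have h3 : b ≤ b' := by exact_mod_cast h2
    exact gj_mono h1 (fun q hq => ⟨hq.1, hq.2.trans_le h3⟩) subset_rfl
  · exfalso
    have h3 : (s + b') / 2 ∈ T := ⟨by linarith, by linarith, b', by linarith, h1⟩
    have h4 := le_csSup hbd h3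
    rw [← hs] at h4
    linarith

theorem gj_Iio {r : ℚ} (h : ∀ s : ℝ, s < r → ¬ Br L B u s) : Gj L B u (Iio r) := by
  refine gj_open ?_ ⟨r - 1, by simp⟩ ?_
  · intro x hx
    have hx' : x < r := hx
    exact ⟨x - 1, by show x - 1 < r; linarith, (x + r) / 2, by show (x + r) / 2 < r; linarith, by linarith, by linarith⟩
  · intro a ha b hb hab
    refine gj_loc hab fun s _ hs => h s (hs.trans_lt ?_)
    exact_mod_cast hb

theorem gj_Ioi {r : ℚ} (h : ∀ s : ℝ, (r : ℝ) < s → ¬ Br L B u s) : Gj L B u (Ioi r) := by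
  refine gj_open ?_ ⟨r + 1, by simp⟩ ?_
  · intro x hx
    have hx' : r < x := hx
    exact ⟨(x + r) / 2, by show r < (x + r) / 2; linarith, x + 1, by show r < x + 1; linarith, by linarith, by linarith⟩
  · intro a ha b hb hab
    refine gj_loc hab fun s hs _ => h s (lt_of_lt_of_le ?_ hs)
    exact_mod_cast ha

theorem gj_all (h : ∀ s : ℝ, ¬ Br L B u s) : Gj L B u univ := by
  refine gj_open ?_ ⟨0, trivial⟩ ?_
  · intro x _
    exact ⟨x - 1, trivial, x + 1, trivial, by linarith, by linarith⟩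
  · intro a ha b hb hab
    exact gj_loc hab fun s _ _ => h s

end

/-! ### consequences of DPS -/

/-- an element does not break two disjoint parts -/
def St_DPS : Prop :=
  ∀ (L : FirstOrder.Language.{0, 0}) (U : Type) [L.Structure U], Cz L U →
    ∀ (α : Type) [Finite α] (B : Set U) (u : ℚ → α → U) (a b c d : ℚ), B.Countable → Disjoint (Ioo a b) (Ioo c d) →
    Gj L B u (Ioo a b) → Gj L B u (Ioo c d) → ∀ y : U, Gj L (insert y B) u (Ioo a b) ∨ Gj L (insert y B) u (Ioo c d)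

section

variable {B C C₁ C₂ : Set U} {α : Type} [Finite α] {u : ℚ → α → U}

theorem br_dps0 (hD : St_DPS) (hC : Cz L U) (hB : B.Countable) {s t : ℝ} (hst : s < t) (h1 : ¬ Br L B u s)
    (h2 : ¬ Br L B u t) (y : U) : ¬ Br L (insert y B) u s ∨ ¬ Br L (insert y B) u t := by
  obtain ⟨a, b, ha, hb, hG⟩ := br_not h1
  obtain ⟨c, d, hc, hd, hG'⟩ := br_not h2
  obtain ⟨m, hm, hm'⟩ := exists_rat_btwn hst
  have hdis : Disjoint (Ioo a (min b m)) (Ioo (max c m) d) := by
    rw [Set.disjoint_left]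
    intro q hq hq'
    exact absurd (hq.2.trans_le (min_le_right _ _)) (not_lt.2 ((le_max_right _ _).trans hq'.1.le))
  rcases hD L U hC α B u a (min b m) (max c m) d hB hdis
    (gj_mono hG (fun q hq => ⟨hq.1, hq.2.trans_le (min_le_left _ _)⟩) subset_rfl)
    (gj_mono hG' (fun q hq => ⟨(le_max_left _ _).trans_lt hq.1, hq.2⟩) subset_rfl) y with h | h
  · refine Or.inl fun h3 => h3 a (min b m) ha ?_ h
    rcases min_choice b m with h4 | h4 <;> rw [h4] <;> assumption
  · refine Or.inr fun h3 => h3 (max c m) d ?_ hd h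
    rcases max_choice c m with h4 | h4 <;> rw [h4] <;> assumption

theorem br_dps (hD : St_DPS) (hC : Cz L U) (hB : B.Countable) {s t : ℝ} (hst : s ≠ t) (h1 : ¬ Br L B u s)
    (h2 : ¬ Br L B u t) (y : U) : ¬ Br L (insert y B) u s ∨ ¬ Br L (insert y B) u t := by
  rcases lt_or_gt_of_ne hst with h | h
  · exact br_dps0 hD hC hB h h1 h2 y
  · exact (br_dps0 hD hC hB h h2 h1 y).symm

/-- the place is unique -/
theorem br_uni (hD : St_DPS) (hC : Cz L U) (hB : B.Countable) (hG : Gj L B u univ) {y : U} {s t : ℝ}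
    (hs : Br L (insert y B) u s) (ht : Br L (insert y B) u t) : s = t := by
  by_contra hst
  have h : ∀ r : ℝ, ¬ Br L B u r := by
    intro r h1
    obtain ⟨a, ha⟩ := exists_rat_lt r
    obtain ⟨b, hb⟩ := exists_rat_gt r
    exact h1 a b ha hb (gj_mono hG (subset_univ _) subset_rfl)
  rcases br_dps hD hC hB hst (h s) (h t) y with h1 | h1
  · exact h1 hs
  · exact h1 ht

/-- RULE -/
theorem br_rule (hD : St_DPS) (hC : Cz L U) (hcC : C.Countable) {z : U} {s t : ℝ} (hst : s ≠ t)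
    (h1 : Br L C₁ u s) (h2 : Br L C₂ u t) (hC1 : C₁ ⊆ insert z C) (hC2 : C₂ ⊆ insert z C) :
    Br L C u s ∨ Br L C u t := by
  by_contra hcon
  rw [not_or] at hcon
  rcases br_dps hD hC hcC hst hcon.1 hcon.2 z with h | h
  · exact h (br_mono hC1 h1)
  · exact h (br_mono hC2 h2)

end

end Pool.Agent.TPY
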