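import Pool.Agent.TPY.TRB
import Pool.Agent.TPY.ARR

/-!
# TPY [TRC]: the configuration of TR is impossible (helper48; paper proof: helper58)
-/

set_option autoImplicit false
set_option linter.unusedVariables false

namespace Pool.Agent.TPY

open FirstOrder.Language Set
open scoped FirstOrder
open Pool.Agent.MNO

/-- stretching -/
theorem str_ex {c p q : ℚ} (hp : c < p) (hq : c < q) : ∃ f : ℚ ≃o ℚ, f p = q ∧ ∀ x ≤ c, f x = x := by
  classical
  have key : ∀ r : ℚ, 0 < r → StrictMono (fun x : ℚ => if x ≤ c then x else c + (x - c) * r) := by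
    intro r hr x y hxy
    show (if x ≤ c then x else c + (x - c) * r) < (if y ≤ c then y else c + (y - c) * r)
    by_cases hx : x ≤ c
    · rw [if_pos hx]
      by_cases hy : y ≤ c
      · rw [if_pos hy]
        exact hxy
      · rw [if_neg hy]
        have := mul_pos (sub_pos.2 (not_le.1 hy)) hr
        linarith
    · have hy : ¬ y ≤ c := fun h => hx (hxy.le.trans h)
      rw [if_neg hx, if_neg hy]
      have := mul_lt_mul_of_pos_right (sub_lt_sub_right hxy c) hr
      linarith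
  have inv : ∀ r : ℚ, 0 < r → ∀ x : ℚ, (if (if x ≤ c then x else c + (x - c) * r⁻¹) ≤ c then
      (if x ≤ c then x else c + (x - c) * r⁻¹) else c + ((if x ≤ c then x else c + (x - c) * r⁻¹) - c) * r) = x := by
    intro r hr x
    by_cases hx : x ≤ c
    · rw [if_pos hx, if_pos hx]
    · have h1 : 0 < (x - c) * r⁻¹ := mul_pos (sub_pos.2 (not_le.1 hx)) (inv_pos.2 hr)
      have h2 : ¬ c + (x - c) * r⁻¹ ≤ c := by linarith
      rw [if_neg hx, if_neg h2, add_sub_cancel_left, mul_assoc, inv_mul_cancel₀ hr.ne', mul_one]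
      ring
  have hr : 0 < (q - c) / (p - c) := div_pos (sub_pos.2 hq) (sub_pos.2 hp)
  refine ⟨StrictMono.orderIsoOfRightInverse _ (key _ hr) _ (inv _ hr), ?_, fun x hx => ?_⟩
  · show (if p ≤ c then p else c + (p - c) * ((q - c) / (p - c))) = q
    rw [if_neg (not_le.2 hp), mul_div_cancel₀ _ (sub_pos.2 hp).ne']
    ring
  · show (if x ≤ c then x else c + (x - c) * ((q - c) / (p - c))) = x
    rw [if_pos hx]

/-- translation -/
theorem trl_ex (c : ℚ) : ∃ f : ℚ ≃o ℚ, ∀ x, f x = x + c :=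
  ⟨OrderIso.addRight c, fun x => rfl⟩

variable {L : FirstOrder.Language.{0, 0}} {U : Type} [L.Structure U]

section

variable {B : Set U}

theorem tq_not {α : Type} {x y : α → U} (h : ¬ Tq L B x y) : ∃ P, Dp L B P ∧ P x ∧ ¬ P y := by
  unfold Tq at h
  push Not at h
  exact h

/-- change of variables -/
theorem tqv {α β : Type} {x y : α → U} {x' y' : β → U} (h : Tq L B x y) (f : β → α)
    (hx : ∀ i, x' i = x (f i)) (hy : ∀ i, y' i = y (f i)) : Tq L B x' y' :=
  tq_congr (tq_sub h f) (funext hx) (funext hy)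

theorem ins2 (x y : U) : B ∪ range (![x, y] : Fin 2 → U) = insert x (insert y B) := by
  ext v
  constructor
  · rintro (h | ⟨i, rfl⟩)
    · exact Or.inr (Or.inr h)
    · fin_cases i
      · exact Or.inl rfl
      · exact Or.inr (Or.inl rfl)
  · rintro (rfl | rfl | h)
    · exact Or.inr ⟨0, rfl⟩
    · exact Or.inr ⟨1, rfl⟩
    · exact Or.inl h

/-- transport of places -/
theorem br_tr {α : Type} {u : ℚ → α → U} {n : ℕ} {c c' : Fin n → U} {f : ℚ ≃o ℚ}
    (h : Tq L B (Sum.elim c (tm u (fun q : ℚ => q))) (Sum.elim c' (tm u (fun q : ℚ => f q)))) {s : ℚ}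
    (hb : Br L (B ∪ range c) u (s : ℝ)) : Br L (B ∪ range c') u ((f s : ℚ) : ℝ) := by
  intro a b ha hb' hG
  have ha1 : a < f s := by exact_mod_cast ha
  have hb1 : f s < b := by exact_mod_cast hb'
  have ha2 : f.symm a < s := (f.symm_apply_lt).2 ha1
  have hb2 : s < f.symm b := (f.lt_symm_apply).2 hb1
  refine hb (f.symm a) (f.symm b) (by exact_mod_cast ha2) (by exact_mod_cast hb2) ?_
  intro κ _ w w' hw
  rw [tq_fam]
  have e1 : ∀ v : κ → ℚ, Tq L B (Sum.elim (tm u v) c) (Sum.elim (tm u fun a => f (v a)) c') := by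
    intro v
    refine tqv h (Sum.elim (fun p => Sum.inr (v p.1, p.2)) Sum.inl) ?_ ?_
    · rintro (i | i) <;> rfl
    · rintro (i | i) <;> rfl
  have e2 : Sm (Ioo a b) (fun x => f (w x)) (fun x => f (w' x)) := by
    refine ⟨fun x y => by rw [f.lt_iff_lt, f.lt_iff_lt]; exact hw.lt x y, fun x => ?_⟩
    rcases hw.eq x with h1 | ⟨h1, h2⟩
    · exact Or.inl (by rw [h1])
    · exact Or.inr ⟨⟨(f.symm_apply_lt).1 h1.1, (f.lt_symm_apply).1 h1.2⟩,
        ⟨(f.symm_apply_lt).1 h2.1, (f.lt_symm_apply).1 h2.2⟩⟩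
  have e3 := tq_fam.1 (hG κ _ _ e2)
  exact tq_trans (e1 w) (tq_trans e3 (tq_symm (e1 w')))

theorem br_tr0 {α : Type} {u : ℚ → α → U} {x y x' y' : U}
    (h : Tq L B (Sum.elim ![x, y] (tm u (fun q : ℚ => q))) (Sum.elim ![x', y'] (tm u (fun q : ℚ => q)))) {s : ℚ}
    (hb : Br L (insert x (insert y B)) u (s : ℝ)) : Br L (insert x' (insert y' B)) u (s : ℝ) := by
  rw [← ins2] at hb ⊢
  exact br_tr (f := OrderIso.refl ℚ) h hb

end

variable (L) in
/-- the configuration -/
structure Cfg (B : Set U) {α : Type} (e : ℚ → U) (u : ℚ → α → U) : Prop where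
  ind : Gj L B (fun q => (Sum.elim (s1 (e q)) (u q) : Fin 1 ⊕ α → U)) univ
  one : ∀ k, Gj L (insert (e k) B) u univ
  brk : ∀ k l : ℚ, k < l → Br L (insert (e k) (insert (e l) B)) u (l : ℝ)

section

variable {B : Set U} {α : Type} {e : ℚ → U} {u : ℚ → α → U}

theorem cfg_tq (hc : Cfg L B e u) {κ κ' : Type} {p p' : κ → ℚ} {q q' : κ' → ℚ}
    (h : ∀ a b, Sum.elim p q a < Sum.elim p q b ↔ Sum.elim p' q' a < Sum.elim p' q' b) :
    Tq L B (Sum.elim (fun a => e (p a)) (tm u q)) (Sum.elim (fun a => e (p' a)) (tm u q')) := by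
  have h1 := gj_inf hc.ind (w := Sum.elim p q) (w' := Sum.elim p' q') ⟨h, fun _ => Or.inr ⟨trivial, trivial⟩⟩
  refine tqv h1 (Sum.elim (fun a => (Sum.inl a, Sum.inl 0)) (fun b => (Sum.inr b.1, Sum.inr b.2))) ?_ ?_
  · rintro (i | i) <;> rfl
  · rintro (i | i) <;> rfl

theorem cfg_map (hc : Cfg L B e u) {f : ℚ → ℚ} (hf : StrictMono f) {κ κ' : Type} (p : κ → ℚ) (q : κ' → ℚ) :
    Tq L B (Sum.elim (fun a => e (p a)) (tm u q)) (Sum.elim (fun a => e (f (p a))) (tm u fun a => f (q a))) :=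
  cfg_tq hc fun a b => by
    rcases a with a | a <;> rcases b with b | b <;> exact hf.lt_iff_lt.symm

/-- [T1] all `e p` have the same type over `u` -/
theorem cfg_one (hc : Cfg L B e u) (p q : ℚ) :
    Tq L B (Sum.elim (s1 (e p)) (tm u (fun x : ℚ => x))) (Sum.elim (s1 (e q)) (tm u (fun x : ℚ => x))) := by
  obtain ⟨f, hf⟩ := trl_ex (q - p)
  have h1 := cfg_map hc f.strictMono (fun _ : Fin 1 => p) (fun x : ℚ => x)
  have hfp : f p = q := by rw [hf]; ring
  have h2 : Tq L (insert (e q) B) (tm u (fun x : ℚ => f x)) (tm u (fun x : ℚ => x)) :=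
    gj_inf (hc.one q) ⟨fun a b => f.lt_iff_lt, fun a => Or.inr ⟨trivial, trivial⟩⟩
  have h3 : Tq L (B ∪ range (s1 (e q))) (tm u (fun x : ℚ => f x)) (tm u (fun x : ℚ => x)) := by
    refine tq_mono ?_ h2
    rintro x (hx | ⟨i, rfl⟩)
    · exact Or.inr hx
    · exact Or.inl rfl
  rw [tq_fam] at h3
  have h4 := tqv h3 (x' := Sum.elim (s1 (e q)) (tm u (fun x : ℚ => f x)))
    (y' := Sum.elim (s1 (e q)) (tm u (fun x : ℚ => x))) (Sum.elim Sum.inr Sum.inl)
    (by rintro (i | i) <;> rfl) (by rintro (i | i) <;> rfl)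
  refine tq_trans (tq_congr h1 rfl ?_) h4
  funext i
  rcases i with i | i
  · show e q = e (f p)
    rw [hfp]
  · rfl

variable [Finite α]

theorem cfg_uni (hD : St_DPS) (hC : Cz L U) (hB : B.Countable) (hc : Cfg L B e u) {k l : ℚ} (hkl : k < l) {s : ℝ}
    (hs : s ≠ l) : ¬ Br L (insert (e k) (insert (e l) B)) u s := by
  intro h
  apply hs
  exact br_uni hD hC (hB.insert _) (hc.one l) h (hc.brk k l hkl)

theorem cfg_lo (hD : St_DPS) (hC : Cz L U) (hB : B.Countable) (hc : Cfg L B e u) {k l : ℚ} (hkl : k < l) :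
    Gj L (insert (e k) (insert (e l) B)) u (Iio l) :=
  gj_Iio fun s hs => cfg_uni hD hC hB hc hkl hs.ne

theorem cfg_hi (hD : St_DPS) (hC : Cz L U) (hB : B.Countable) (hc : Cfg L B e u) {k l : ℚ} (hkl : k < l) :
    Gj L (insert (e k) (insert (e l) B)) u (Ioi l) :=
  gj_Ioi fun s hs => cfg_uni hD hC hB hc hkl hs.ne'

/-- [T2] -/
theorem cfg_two (hD : St_DPS) (hC : Cz L U) (hB : B.Countable) (hc : Cfg L B e u) {p q r : ℚ} (hp : p < r) (hq : q < r) :
    Tq L B (Sum.elim ![e p, e r] (tm u (fun x : ℚ => x))) (Sum.elim ![e q, e r] (tm u (fun x : ℚ => x))) := by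
  -- a map with `p ↦ q` which is the identity above `r`
  obtain ⟨g, hg, hg'⟩ := str_ex (c := -r) (p := -p) (q := -q) (by linarith) (by linarith)
  let f : ℚ → ℚ := fun x => -g (-x)
  have hf : StrictMono f := fun x y hxy => neg_lt_neg (g.strictMono (neg_lt_neg hxy))
  have hfp : f p = q := by
    show -g (-p) = q
    rw [hg]
    ring
  have hfr : ∀ x, r ≤ x → f x = x := by
    intro x hx
    show -g (-x) = x
    rw [hg' _ (by linarith)]
    ring
  have h1 := cfg_map hc hf ![p, r] (fun x : ℚ => x)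
  have hsm : Sm (Iio r) (fun x : ℚ => f x) (fun x : ℚ => x) := by
    refine ⟨fun a b => hf.lt_iff_lt, fun a => ?_⟩
    rcases le_or_gt r a with h | h
    · exact Or.inl (hfr a h)
    · refine Or.inr ⟨?_, h⟩
      show f a < r
      calc f a < f r := hf h
        _ = r := hfr r le_rfl
  have h2 := gj_inf (cfg_lo hD hC hB hc hq) hsm
  rw [← ins2, tq_fam] at h2
  have h4 := tqv h2 (x' := Sum.elim ![e q, e r] (tm u (fun x : ℚ => f x)))
    (y' := Sum.elim ![e q, e r] (tm u (fun x : ℚ => x))) (Sum.elim Sum.inr Sum.inl)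
    (by rintro (i | i) <;> rfl) (by rintro (i | i) <;> rfl)
  refine tq_trans (tq_congr h1 ?_ ?_) h4
  · funext i
    rcases i with i | i
    · fin_cases i <;> rfl
    · rfl
  · funext i
    rcases i with i | i
    · fin_cases i
      · show e q = e (f p)
        rw [hfp]
      · show e r = e (f r)
        rw [hfr r le_rfl]
    · rfl

/-- [LOC] the formula -/
theorem cfg_loc (hD : St_DPS) (hC : Cz L U) (hB : B.Countable) (hc : Cfg L B e u) :
    ∃ (κ : Type) (_ : Finite κ) (w w' : κ → ℚ) (P : (Fin 2 ⊕ (κ × α) → U) → Prop), Dp L B P ∧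
      (∀ a b, w a < w b ↔ w' a < w' b) ∧ (∀ a, -(1 / 2) < w a ∧ w a < 1 / 2) ∧
      (∀ a, -(1 / 2) < w' a ∧ w' a < 1 / 2) ∧
      ∀ k s : ℚ, k + 1 ≤ s → P (Sum.elim ![e k, e s] (tm u fun a => s + w a)) ∧
        ¬ P (Sum.elim ![e k, e s] (tm u fun a => s + w' a)) := by
  have h1 := hc.brk 0 1 (by norm_num) (1 / 2) (3 / 2) (by norm_num) (by norm_num)
  unfold Gj at h1
  push Not at h1
  obtain ⟨κ, hκ, w, w', hw, hne⟩ := h1
  obtain ⟨lo, -, hi, -, hlh, hlh'⟩ := fin_Ioo (J := univ) (fun x _ => ⟨x - 1, trivial, x + 1, trivial, by linarith,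
    by linarith⟩) ⟨0, trivial⟩ ((finite_range w).union (finite_range w')) (subset_univ _)
  obtain ⟨g1, hg1, hg1a, hg1b⟩ := sqz (b := min lo 0) (d := 1) (M := 1 / 2) (N := 1)
    ((min_le_right _ _).trans_lt (by norm_num)) ((min_le_right _ _).trans (by norm_num)) (by norm_num) le_rfl
  obtain ⟨g2, hg2, hg2a, hg2b⟩ := sqz (b := 1) (d := max hi 2) (M := 1) (N := 3 / 2)
    (lt_of_lt_of_le (by norm_num) (le_max_right _ _)) le_rfl (by norm_num)
    (le_trans (by norm_num) (le_max_right _ _))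
  let g : ℚ → ℚ := fun x => g2 (g1 x)
  have hg : StrictMono g := hg2.comp hg1
  have hgr : ∀ x, lo < x → x < hi → 1 / 2 < g x ∧ g x < 3 / 2 := by
    intro x hx hx'
    rcases lt_trichotomy x 1 with h | h | h
    · have h2 := hg1b x ⟨(min_le_left _ _).trans_lt hx, h⟩
      have h3 : g x = g1 x := hg2a _ fun h4 => absurd h4.1 (not_lt.2 h2.2.le)
      rw [h3]
      exact ⟨h2.1, h2.2.trans (by norm_num)⟩
    · have h2 : g1 x = x := hg1a _ fun h4 => absurd h4.2 (by rw [h]; exact lt_irrefl _)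
      have h3 : g x = x := by
        show g2 (g1 x) = x
        rw [h2]
        exact hg2a _ fun h4 => absurd h4.1 (by rw [h]; exact lt_irrefl _)
      rw [h3, h]
      norm_num
    · have h2 : g1 x = x := hg1a _ fun h4 => absurd h4.2 (not_lt.2 h.le)
      have h3 : g x = g2 x := by
        show g2 (g1 x) = g2 x
        rw [h2]
      have h4 := hg2b x ⟨h, lt_of_lt_of_le hx' (le_max_left _ _)⟩
      rw [h3]
      exact ⟨lt_trans (by norm_num) h4.1, h4.2⟩
  have hgw : ∀ v : κ → ℚ, Tq L (insert (e 0) (insert (e 1) B)) (tm u v) (tm u fun a => g (v a)) := by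
    intro v
    have h2 : Sm (Iio (1 : ℚ)) v (fun a => g1 (v a)) :=
      (Sm.map hg1 hg1a (fun q hq => ⟨(min_le_right lo 0).trans_lt (lt_trans (by norm_num) (hg1b q hq).1),
        (hg1b q hq).2⟩) v).mono fun q hq => hq.2
    have h3 : Sm (Ioi (1 : ℚ)) (fun a => g1 (v a)) (fun a => g2 (g1 (v a))) :=
      (Sm.map hg2 hg2a (fun q hq => ⟨(hg2b q hq).1, (hg2b q hq).2.trans_le
        (le_trans (by norm_num) (le_max_right hi 2))⟩) (fun a => g1 (v a))).mono fun q hq => hq.1
    exact tq_trans (cfg_lo hD hC hB hc (by norm_num) κ _ _ h2) (cfg_hi hD hC hB hc (by norm_num) κ _ _ h3)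
  obtain ⟨P', hP', hPw, hPw'⟩ := tq_not hne
  have h5 : P' (tm u fun a => g (w a)) := hgw w P' hP' hPw
  have h6 : ¬ P' (tm u fun a => g (w' a)) := fun h => hPw' (tq_symm (hgw w') P' hP' h)
  rw [← ins2] at hP'
  obtain ⟨Q, hQ, hPQ⟩ := dp_fam hP'
  rw [hPQ] at h5 h6
  have hmem : ∀ a, (lo < w a ∧ w a < hi) ∧ (lo < w' a ∧ w' a < hi) := fun a =>
    ⟨hlh' (Or.inl ⟨a, rfl⟩), hlh' (Or.inr ⟨a, rfl⟩)⟩
  let σ : (κ × α) ⊕ Fin 2 → Fin 2 ⊕ (κ × α) := Sum.swap
  have hmain : ∀ v : κ → ℚ, (∀ a, 1 / 2 < g (v a)) → ∀ k s : ℚ, k + 1 ≤ s →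
      Tq L B (Sum.elim (tm u fun a => g (v a)) ![e 0, e 1]) (Sum.elim (tm u fun a => s + (g (v a) - 1)) ![e k, e s]) := by
    intro v hv k s hks
    have h7 := cfg_tq hc (p := ![0, 1]) (p' := ![k, s]) (q := fun a => g (v a)) (q' := fun a => s + (g (v a) - 1)) (by
      rintro (a | a) (b | b)
      · fin_cases a <;> fin_cases b
        · exact iff_of_false (lt_irrefl _) (lt_irrefl _)
        · show (0 : ℚ) < 1 ↔ k < s
          exact iff_of_true (by norm_num) (by linarith)
        · show (1 : ℚ) < 0 ↔ s < k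
          exact iff_of_false (by norm_num) (by linarith)
        · exact iff_of_false (lt_irrefl _) (lt_irrefl _)
      · have := hv b
        fin_cases a
        · show (0 : ℚ) < g (v b) ↔ k < s + (g (v b) - 1)
          exact iff_of_true (by linarith) (by linarith)
        · show (1 : ℚ) < g (v b) ↔ s < s + (g (v b) - 1)
          constructor <;> intro h <;> linarith
      · have := hv a
        fin_cases b
        · show g (v a) < (0 : ℚ) ↔ s + (g (v a) - 1) < k
          exact iff_of_false (by linarith) (by linarith)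
        · show g (v a) < (1 : ℚ) ↔ s + (g (v a) - 1) < s
          constructor <;> intro h <;> linarith
      · show g (v a) < g (v b) ↔ s + (g (v a) - 1) < s + (g (v b) - 1)
        constructor <;> intro h <;> linarith)
    refine tqv h7 Sum.swap ?_ ?_
    · rintro (i | i)
      · rfl
      · fin_cases i <;> rfl
    · rintro (i | i)
      · rfl
      · fin_cases i <;> rfl
  refine ⟨κ, hκ, fun a => g (w a) - 1, fun a => g (w' a) - 1, fun v => Q (fun i => v (σ i)), dp_sub hQ σ, ?_, ?_, ?_, ?_⟩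
  · intro a b
    rw [sub_lt_sub_iff_right, sub_lt_sub_iff_right, hg.lt_iff_lt, hg.lt_iff_lt]
    exact hw.lt a b
  · intro a
    have := hgr _ (hmem a).1.1 (hmem a).1.2
    constructor <;> linarith [this.1, this.2]
  · intro a
    have := hgr _ (hmem a).2.1 (hmem a).2.2
    constructor <;> linarith [this.1, this.2]
  · intro k s hks
    have e1 : ∀ v : κ → ℚ, (fun i => Sum.elim ![e k, e s] (tm u fun a => s + (g (v a) - 1)) (σ i)) =
        Sum.elim (tm u fun a => s + (g (v a) - 1)) ![e k, e s] := by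
      intro v
      funext i
      rcases i with i | i <;> rfl
    constructor
    · show Q (fun i => Sum.elim ![e k, e s] (tm u fun a => s + (g (w a) - 1)) (σ i))
      rw [e1]
      exact hmain w (fun a => (hgr _ (hmem a).1.1 (hmem a).1.2).1) k s hks Q hQ h5
    · show ¬ Q (fun i => Sum.elim ![e k, e s] (tm u fun a => s + (g (w' a) - 1)) (σ i))
      rw [e1]
      exact fun h => h6 (tq_symm (hmain w' (fun a => (hgr _ (hmem a).2.1 (hmem a).2.2).1) k s hks) Q hQ h)

end

end Pool.Agent.TPY
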