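import Pool.Agent.TPY.TRC

/-!
# TPY [TRD]: the configuration of TR is impossible, part 2 (helper48; paper proof: helper58)
-/

set_option autoImplicit false
set_option linter.unusedVariables false
set_option linter.unusedSectionVars false

namespace Pool.Agent.TPY

open FirstOrder.Language Set
open scoped FirstOrder
open Pool.Agent.MNO

variable {L : FirstOrder.Language.{0, 0}} {U : Type} [L.Structure U]
variable {B : Set U} {α : Type} [Finite α] {e : ℚ → U} {u : ℚ → α → U}

/-- transport of an element `w` by an order automorphism -/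
theorem cfg_mv (hC : Cz L U) (hB : B.Countable) (hc : Cfg L B e u) (f : ℚ ≃o ℚ) {n : ℕ} (p : Fin n → ℚ) (w : U) :
    ∃ w' : U, Tq L B (Sum.elim (Sum.elim (fun a => e (p a)) (tm u fun q : ℚ => q)) (s1 w))
      (Sum.elim (Sum.elim (fun a => e (f (p a))) (tm u fun q : ℚ => f q)) (s1 w')) := by
  obtain ⟨c', hc'⟩ := tq_ext hC hB (cfg_map hc f.strictMono p (fun q : ℚ => q)) (s1 w)
  refine ⟨c' 0, tq_congr hc' rfl ?_⟩
  funext i
  rcases i with i | i
  · rfl
  · fin_cases i
    rfl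

/-- reindexing -/
theorem tq_rei {f : ℚ ≃o ℚ} {x y x' y' : U}
    (h : Tq L B (Sum.elim ![x, y] (tm u (fun q : ℚ => f q))) (Sum.elim ![x', y'] (tm u (fun q : ℚ => f q)))) :
    Tq L B (Sum.elim ![x, y] (tm u (fun q : ℚ => q))) (Sum.elim ![x', y'] (tm u (fun q : ℚ => q))) := by
  refine tqv h (Sum.map id fun p => (f.symm p.1, p.2)) ?_ ?_
  · rintro (i | i)
    · rfl
    · show u i.1 i.2 = u (f (f.symm i.1)) i.2
      rw [f.apply_symm_apply]
  · rintro (i | i)
    · rfl
    · show u i.1 i.2 = u (f (f.symm i.1)) i.2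
      rw [f.apply_symm_apply]

theorem cfg_Atr (hC : Cz L U) (hB : B.Countable) (hc : Cfg L B e u) (f : ℚ ≃o ℚ) (hf : f 0 = 0) {t i k : ℚ}
    (h : ∃ w : U, Tq L B (Sum.elim ![e i, w] (tm u (fun q : ℚ => q))) (Sum.elim ![e t, e 0] (tm u (fun q : ℚ => q))) ∧
      Br L (insert (e k) (insert w B)) u (k : ℝ)) :
    ∃ w : U, Tq L B (Sum.elim ![e (f i), w] (tm u (fun q : ℚ => q)))
      (Sum.elim ![e (f t), e 0] (tm u (fun q : ℚ => q))) ∧
      Br L (insert (e (f k)) (insert w B)) u ((f k : ℚ) : ℝ) := by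
  obtain ⟨w, hw, hb⟩ := h
  obtain ⟨w', h⟩ := cfg_mv hC hB hc f ![0, t, i, k] w
  refine ⟨w', ?_, ?_⟩
  · have h1 : Tq L B (Sum.elim ![e i, w] (tm u (fun q : ℚ => q))) (Sum.elim ![e (f i), w'] (tm u (fun q : ℚ => f q))) := by
      refine tqv h (Sum.elim ![Sum.inl (Sum.inl 2), Sum.inr 0] fun p => Sum.inl (Sum.inr p)) ?_ ?_
      · rintro (j | j)
        · fin_cases j <;> rfl
        · rfl
      · rintro (j | j)
        · fin_cases j <;> rfl
        · rfl
    have h2 : Tq L B (Sum.elim ![e t, e 0] (tm u (fun q : ℚ => q))) (Sum.elim ![e (f t), e 0] (tm u (fun q : ℚ => f q))) := by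
      refine tqv h (Sum.elim ![Sum.inl (Sum.inl 1), Sum.inl (Sum.inl 0)] fun p => Sum.inl (Sum.inr p)) ?_ ?_
      · rintro (j | j)
        · fin_cases j <;> rfl
        · rfl
      · rintro (j | j)
        · fin_cases j
          · rfl
          · show e 0 = e (f 0)
            rw [hf]
        · rfl
    exact tq_rei (tq_trans (tq_symm h1) (tq_trans hw h2))
  · rw [← ins2] at hb ⊢
    refine br_tr (f := f) ?_ hb
    refine tqv h (Sum.elim ![Sum.inl (Sum.inl 3), Sum.inr 0] fun p => Sum.inl (Sum.inr p)) ?_ ?_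
    · rintro (j | j)
      · fin_cases j <;> rfl
      · rfl
    · rintro (j | j)
      · fin_cases j <;> rfl
      · rfl

theorem cfg_Btr (hC : Cz L U) (hB : B.Countable) (hc : Cfg L B e u) (f : ℚ ≃o ℚ) {i k s : ℚ}
    (h : ∃ w : U, Tq L B (Sum.elim ![e k, w] (tm u (fun q : ℚ => q))) (Sum.elim ![e k, e s] (tm u (fun q : ℚ => q))) ∧
      Br L (insert (e i) (insert w B)) u (k : ℝ)) :
    ∃ w : U, Tq L B (Sum.elim ![e (f k), w] (tm u (fun q : ℚ => q)))
      (Sum.elim ![e (f k), e (f s)] (tm u (fun q : ℚ => q))) ∧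
      Br L (insert (e (f i)) (insert w B)) u ((f k : ℚ) : ℝ) := by
  obtain ⟨w, hw, hb⟩ := h
  obtain ⟨w', h⟩ := cfg_mv hC hB hc f ![i, k, s] w
  refine ⟨w', ?_, ?_⟩
  · have h1 : Tq L B (Sum.elim ![e k, w] (tm u (fun q : ℚ => q))) (Sum.elim ![e (f k), w'] (tm u (fun q : ℚ => f q))) := by
      refine tqv h (Sum.elim ![Sum.inl (Sum.inl 1), Sum.inr 0] fun p => Sum.inl (Sum.inr p)) ?_ ?_
      · rintro (j | j)
        · fin_cases j <;> rfl
        · rfl
      · rintro (j | j)
        · fin_cases j <;> rfl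
        · rfl
    have h2 : Tq L B (Sum.elim ![e k, e s] (tm u (fun q : ℚ => q)))
        (Sum.elim ![e (f k), e (f s)] (tm u (fun q : ℚ => f q))) := by
      refine tqv h (Sum.elim ![Sum.inl (Sum.inl 1), Sum.inl (Sum.inl 2)] fun p => Sum.inl (Sum.inr p)) ?_ ?_
      · rintro (j | j)
        · fin_cases j <;> rfl
        · rfl
      · rintro (j | j)
        · fin_cases j <;> rfl
        · rfl
    exact tq_rei (tq_trans (tq_symm h1) (tq_trans hw h2))
  · rw [← ins2] at hb ⊢
    refine br_tr (f := f) ?_ hb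
    refine tqv h (Sum.elim ![Sum.inl (Sum.inl 0), Sum.inr 0] fun p => Sum.inl (Sum.inr p)) ?_ ?_
    · rintro (j | j)
      · fin_cases j <;> rfl
      · rfl
    · rintro (j | j)
      · fin_cases j <;> rfl
      · rfl

/-- the definability of the formula of the arrays -/
theorem arr_dp {κ : Type} {P : (Fin 2 ⊕ (κ × α) → U) → Prop} (hP : Dp L B P) (b : Bool) :
    Dp L B (fun v : (Fin 1 ⊕ ((κ × α) ⊕ (κ × α))) ⊕ Unit → U =>
      P (Sum.elim (bif b then ![v (Sum.inr ()), v (Sum.inl (Sum.inl 0))] else ![v (Sum.inl (Sum.inl 0)), v (Sum.inr ())])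
        fun i => v (Sum.inl (Sum.inr (Sum.inl i)))) ∧
      ¬ P (Sum.elim (bif b then ![v (Sum.inr ()), v (Sum.inl (Sum.inl 0))] else ![v (Sum.inl (Sum.inl 0)), v (Sum.inr ())])
        fun i => v (Sum.inl (Sum.inr (Sum.inr i))))) := by
  have key : ∀ (g : κ × α → (Fin 1 ⊕ ((κ × α) ⊕ (κ × α))) ⊕ Unit),
      Dp L B (fun v : (Fin 1 ⊕ ((κ × α) ⊕ (κ × α))) ⊕ Unit → U =>
      P (Sum.elim (bif b then ![v (Sum.inr ()), v (Sum.inl (Sum.inl 0))] else ![v (Sum.inl (Sum.inl 0)), v (Sum.inr ())])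
        fun i => v (g i))) := by
    intro g
    refine dp_congr (dp_sub hP (Sum.elim
      (bif b then ![Sum.inr (), Sum.inl (Sum.inl 0)] else ![Sum.inl (Sum.inl 0), Sum.inr ()]) g)) fun v => ?_
    have e1 : (Sum.elim (bif b then ![v (Sum.inr ()), v (Sum.inl (Sum.inl 0))]
        else ![v (Sum.inl (Sum.inl 0)), v (Sum.inr ())]) fun i => v (g i)) =
        fun i => v ((Sum.elim
          (bif b then ![Sum.inr (), Sum.inl (Sum.inl 0)] else ![Sum.inl (Sum.inl 0), Sum.inr ()]) g) i) := by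
      funext i
      rcases i with i | i
      · cases b <;> fin_cases i <;> rfl
      · rfl
    rw [e1]
  exact dp_and (key fun i => Sum.inl (Sum.inr (Sum.inl i))) (dp_not (key fun i => Sum.inl (Sum.inr (Sum.inr i))))

/-- (A) -/
theorem cfg_A (hD : St_DPS) (hC : Cz L U) (hB : B.Countable) (hc : Cfg L B e u) {t i k : ℚ} (h0 : 0 < t) (hti : t < i)
    (hik : i < k) {w : U}
    (hw : Tq L B (Sum.elim ![e i, w] (tm u (fun q : ℚ => q))) (Sum.elim ![e t, e 0] (tm u (fun q : ℚ => q)))) :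
    ¬ Br L (insert (e k) (insert w B)) u (k : ℝ) := by
  intro hbr
  have all : ∀ t' i' k' : ℚ, 0 < t' → t' < i' → i' < k' →
      ∃ w : U, Tq L B (Sum.elim ![e i', w] (tm u (fun q : ℚ => q))) (Sum.elim ![e t', e 0] (tm u (fun q : ℚ => q))) ∧
      Br L (insert (e k') (insert w B)) u (k' : ℝ) := by
    intro t' i' k' h1 h2 h3
    obtain ⟨f1, hf1, hf1'⟩ := str_ex h0 h1
    have s1 := cfg_Atr hC hB hc f1 (hf1' 0 le_rfl) ⟨w, hw, hbr⟩
    rw [hf1] at s1
    have l1 : t' < f1 i := by rw [← hf1]; exact f1.strictMono hti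
    have l2 : f1 i < f1 k := f1.strictMono hik
    obtain ⟨f2, hf2, hf2'⟩ := str_ex l1 h2
    have s2 := cfg_Atr hC hB hc f2 (hf2' 0 h1.le) s1
    rw [hf2, hf2' t' le_rfl] at s2
    have l3 : i' < f2 (f1 k) := by rw [← hf2]; exact f2.strictMono l2
    obtain ⟨f3, hf3, hf3'⟩ := str_ex l3 h3
    have s3 := cfg_Atr hC hB hc f3 (hf3' 0 (h1.trans h2).le) s2
    rw [hf3, hf3' i' le_rfl, hf3' t' h2.le] at s3
    exact s3
  obtain ⟨κ, hκ, v, v', P, hP, hvv, hv, hv', hPP⟩ := cfg_loc hD hC hB hc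
  refine arr hC (P := fun (x : Fin 1 → U) (c : (κ × α) ⊕ (κ × α) → U) (z : U) =>
    P (Sum.elim (bif true then ![z, x 0] else ![x 0, z]) fun i => c (Sum.inl i)) ∧
      ¬ P (Sum.elim (bif true then ![z, x 0] else ![x 0, z]) fun i => c (Sum.inr i))) (arr_dp hP true) fun N => ?_
  -- rows `N + 1 + a`, columns `b + 1`
  have hex : ∀ a b : ℕ, ∃ w : U, b < N →
      Tq L B (Sum.elim ![e ((N : ℚ) + 1 + a), w] (tm u (fun q : ℚ => q)))
        (Sum.elim ![e ((b : ℚ) + 1), e 0] (tm u (fun q : ℚ => q))) ∧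
      Br L (insert (e ((N : ℚ) + 1 + a + 1)) (insert w B)) u (((N : ℚ) + 1 + a + 1 : ℚ) : ℝ) := by
    intro a b
    by_cases hb : b < N
    · have hb' : (b : ℚ) < N := by exact_mod_cast hb
      have h1 : (0 : ℚ) ≤ b := b.cast_nonneg
      have h2 : (0 : ℚ) ≤ a := a.cast_nonneg
      obtain ⟨w, hw⟩ := all ((b : ℚ) + 1) ((N : ℚ) + 1 + a) ((N : ℚ) + 1 + a + 1) (by linarith) (by linarith) (by linarith)
      exact ⟨w, fun _ => hw⟩
    · exact ⟨e 0, fun h => absurd h hb⟩
  choose y hy using hex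
  refine ⟨true, true, fun a => s1 (e ((N : ℚ) + 1 + a)),
    fun b => Sum.elim (tm u fun c => (b : ℚ) + 1 + v c) (tm u fun c => (b : ℚ) + 1 + v' c), y, fun a ha b hb => ?_⟩
  obtain ⟨hy1, hy2⟩ := hy a b hb
  have hbN : (b : ℚ) < N := by exact_mod_cast hb
  have ha0 : (0 : ℚ) ≤ a := a.cast_nonneg
  have hb0 : (0 : ℚ) ≤ b := b.cast_nonneg
  -- the value of the formula in the row `a`
  have val : ∀ x : κ → ℚ, P (Sum.elim ![y a b, e ((N : ℚ) + 1 + a)] (tm u x)) ↔
      P (Sum.elim ![e 0, e ((b : ℚ) + 1)] (tm u x)) := by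
    intro x
    refine tq_iff (tqv hy1 (Sum.elim ![Sum.inl 1, Sum.inl 0] fun p => Sum.inr (x p.1, p.2)) ?_ ?_) hP
    · rintro (j | j)
      · fin_cases j <;> rfl
      · rfl
    · rintro (j | j)
      · fin_cases j <;> rfl
      · rfl
  refine ⟨?_, ?_, ?_⟩
  · show P (Sum.elim ![y a b, e ((N : ℚ) + 1 + a)] (tm u fun c => (b : ℚ) + 1 + v c)) ∧
      ¬ P (Sum.elim ![y a b, e ((N : ℚ) + 1 + a)] (tm u fun c => (b : ℚ) + 1 + v' c))
    rw [val, val]
    exact hPP 0 ((b : ℚ) + 1) (by linarith)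
  · intro k' hk' hak' hcon
    have hak : a < k' := hak'
    have hcon' : P (Sum.elim ![y a b, e ((N : ℚ) + 1 + k')] (tm u fun c => (b : ℚ) + 1 + v c)) ∧
      ¬ P (Sum.elim ![y a b, e ((N : ℚ) + 1 + k')] (tm u fun c => (b : ℚ) + 1 + v' c)) := hcon
    have hak1 : (a : ℚ) < k' := by exact_mod_cast hak
    have hak2 : (a : ℚ) + 1 ≤ k' := by exact_mod_cast hak
    set r' : ℚ := (N : ℚ) + 1 + k' with hr'
    -- the place of `e r', y`
    have hbr' : Br L (insert (e r') (insert (y a b) B)) u (r' : ℝ) := by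
      rcases hak2.eq_or_lt with h1 | h1
      · have h2 : (N : ℚ) + 1 + a + 1 = r' := by rw [hr', ← h1]; ring
        rw [h2] at hy2
        exact hy2
      · have l1 : (N : ℚ) + 1 + a + 1 < r' := by rw [hr']; linarith
        have l2 : (N : ℚ) + 1 + a < r' := by linarith
        have hcc : (insert (e r') (insert (y a b) B)).Countable := (hB.insert _).insert _
        have n1 : ((r' : ℚ) : ℝ) ≠ (((N : ℚ) + 1 + a + 1 : ℚ) : ℝ) := by
          intro h
          exact l1.ne' (by exact_mod_cast h)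
        have n2 : ((r' : ℚ) : ℝ) ≠ (((b : ℚ) + 1 : ℚ) : ℝ) := by
          intro h
          have : r' = (b : ℚ) + 1 := by exact_mod_cast h
          linarith
        have hyt : Br L (insert (e ((N : ℚ) + 1 + a)) (insert (y a b) B)) u (((b : ℚ) + 1 : ℚ) : ℝ) := by
          refine br_tr0 (tq_symm hy1) ?_
          rw [Set.insert_comm]
          exact hc.brk 0 ((b : ℚ) + 1) (by linarith)
        have q1 := br_rule hD hC hcc (z := e ((N : ℚ) + 1 + a + 1)) n1 (hc.brk _ _ l1) hy2 (by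
          rintro x (rfl | rfl | hx)
          · exact Or.inl rfl
          · exact Or.inr (Or.inl rfl)
          · exact Or.inr (Or.inr (Or.inr hx))) (by
          rintro x (rfl | rfl | hx)
          · exact Or.inl rfl
          · exact Or.inr (Or.inr (Or.inl rfl))
          · exact Or.inr (Or.inr (Or.inr hx)))
        have q2 := br_rule hD hC hcc (z := e ((N : ℚ) + 1 + a)) n2 (hc.brk _ _ l2) hyt (by
          rintro x (rfl | rfl | hx)
          · exact Or.inl rfl
          · exact Or.inr (Or.inl rfl)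
          · exact Or.inr (Or.inr (Or.inr hx))) (by
          rintro x (rfl | rfl | hx)
          · exact Or.inl rfl
          · exact Or.inr (Or.inr (Or.inl rfl))
          · exact Or.inr (Or.inr (Or.inr hx)))
        rcases q1 with q1 | q1
        · exact q1
        · rcases q2 with q2 | q2
          · exact q2
          · exfalso
            rw [Set.insert_comm] at q1 q2
            have h3 := br_uni hD hC (hB.insert _) (hc.one r') q1 q2
            have h4 : (N : ℚ) + 1 + a + 1 = (b : ℚ) + 1 := by exact_mod_cast h3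
            linarith
    have hlo : Gj L (insert (e r') (insert (y a b) B)) u (Iio r') := by
      refine gj_Iio fun s hs hs' => hs.ne ?_
      rw [Set.insert_comm] at hs' hbr'
      exact br_uni hD hC (hB.insert _) (hc.one r') hs' hbr'
    have hsm : Sm (Iio r') (fun c => (b : ℚ) + 1 + v c) (fun c => (b : ℚ) + 1 + v' c) := by
      refine ⟨fun c d => ?_, fun c => Or.inr ⟨?_, ?_⟩⟩
      · rw [add_lt_add_iff_left, add_lt_add_iff_left]
        exact hvv c d
      · show (b : ℚ) + 1 + v c < r'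
        have := (hv c).2
        linarith
      · show (b : ℚ) + 1 + v' c < r'
        have := (hv' c).2
        linarith
    have h5 := hlo κ _ _ hsm
    rw [← ins2, tq_fam] at h5
    have h6 := tqv h5 (x' := Sum.elim ![y a b, e r'] (tm u fun c => (b : ℚ) + 1 + v c))
      (y' := Sum.elim ![y a b, e r'] (tm u fun c => (b : ℚ) + 1 + v' c))
      (Sum.elim ![Sum.inr 1, Sum.inr 0] Sum.inl)
      (by
        rintro (j | j)
        · fin_cases j <;> rfl
        · rfl)
      (by
        rintro (j | j)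
        · fin_cases j <;> rfl
        · rfl)
    exact hcon'.2 ((tq_iff h6 hP).1 hcon'.1)
  · intro l hl hbl hcon
    have hbl' : b < l := hbl
    have hcon' : P (Sum.elim ![y a b, e ((N : ℚ) + 1 + a)] (tm u fun c => (l : ℚ) + 1 + v c)) ∧
      ¬ P (Sum.elim ![y a b, e ((N : ℚ) + 1 + a)] (tm u fun c => (l : ℚ) + 1 + v' c)) := hcon
    rw [val, val] at hcon'
    have hbl1 : (b : ℚ) + 1 ≤ l := by exact_mod_cast hbl'
    have hhi := cfg_hi hD hC hB hc (k := 0) (l := (b : ℚ) + 1) (by linarith)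
    have hsm : Sm (Ioi ((b : ℚ) + 1)) (fun c => (l : ℚ) + 1 + v c) (fun c => (l : ℚ) + 1 + v' c) := by
      refine ⟨fun c d => ?_, fun c => Or.inr ⟨?_, ?_⟩⟩
      · rw [add_lt_add_iff_left, add_lt_add_iff_left]
        exact hvv c d
      · show (b : ℚ) + 1 < (l : ℚ) + 1 + v c
        have := (hv c).1
        linarith
      · show (b : ℚ) + 1 < (l : ℚ) + 1 + v' c
        have := (hv' c).1
        linarith
    have h5 := hhi κ _ _ hsm
    rw [← ins2, tq_fam] at h5
    have h6 := tqv h5 (x' := Sum.elim ![e 0, e ((b : ℚ) + 1)] (tm u fun c => (l : ℚ) + 1 + v c))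
      (y' := Sum.elim ![e 0, e ((b : ℚ) + 1)] (tm u fun c => (l : ℚ) + 1 + v' c))
      (Sum.elim Sum.inr Sum.inl)
      (by
        rintro (j | j)
        · rfl
        · rfl)
      (by
        rintro (j | j)
        · rfl
        · rfl)
    exact hcon'.2 ((tq_iff h6 hP).1 hcon'.1)

end Pool.Agent.TPY
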