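import Pool.Agent.TPY.TRD

/-!
# TPY [TRE]: the configuration of TR is impossible, part 3 (helper48; paper proof: helper58)
-/

set_option autoImplicit false
set_option linter.unusedVariables false
set_option linter.unusedSectionVars false

namespace Pool.Agent.TPY

open FirstOrder.Language Set
open scoped FirstOrder
open Pool.Agent.MNO

variable {L : FirstOrder.Language.{0, 0}} {U : Type} [L.Structure U]
variable {B : Set U} {α : Type} [Finite α] {e : ℚ → U} {u : ℚ → α → U}

/-- (B) -/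
theorem cfg_B (hD : St_DPS) (hC : Cz L U) (hB : B.Countable) (hc : Cfg L B e u) {i k s : ℚ} (hik : i < k) (hks : k < s)
    {w : U}
    (hw : Tq L B (Sum.elim ![e k, w] (tm u (fun q : ℚ => q))) (Sum.elim ![e k, e s] (tm u (fun q : ℚ => q)))) :
    ¬ Br L (insert (e i) (insert w B)) u (k : ℝ) := by
  intro hbr
  have all : ∀ i' k' s' : ℚ, i' < k' → k' < s' →
      ∃ w : U, Tq L B (Sum.elim ![e k', w] (tm u (fun q : ℚ => q))) (Sum.elim ![e k', e s'] (tm u (fun q : ℚ => q))) ∧
      Br L (insert (e i') (insert w B)) u (k' : ℝ) := by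
    intro i' k' s' h1 h2
    obtain ⟨f1, hf1⟩ := trl_ex (i' - i)
    have s1 := cfg_Btr hC hB hc f1 ⟨w, hw, hbr⟩
    have e1 : f1 i = i' := by rw [hf1]; ring
    rw [e1] at s1
    have l1 : i' < f1 k := by rw [← e1]; exact f1.strictMono hik
    have l2 : f1 k < f1 s := f1.strictMono hks
    obtain ⟨f2, hf2, hf2'⟩ := str_ex l1 h1
    have s2 := cfg_Btr hC hB hc f2 s1
    rw [hf2, hf2' i' le_rfl] at s2
    have l3 : k' < f2 (f1 s) := by rw [← hf2]; exact f2.strictMono l2
    obtain ⟨f3, hf3, hf3'⟩ := str_ex l3 h2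
    have s3 := cfg_Btr hC hB hc f3 s2
    rw [hf3, hf3' k' le_rfl, hf3' i' h1.le] at s3
    exact s3
  obtain ⟨κ, hκ, v, v', P, hP, hvv, hv, hv', hPP⟩ := cfg_loc hD hC hB hc
  refine arr hC (P := fun (x : Fin 1 → U) (c : (κ × α) ⊕ (κ × α) → U) (z : U) =>
    P (Sum.elim (bif false then ![z, x 0] else ![x 0, z]) fun i => c (Sum.inl i)) ∧
      ¬ P (Sum.elim (bif false then ![z, x 0] else ![x 0, z]) fun i => c (Sum.inr i))) (arr_dp hP false) fun N => ?_
  -- rows `a + 1`, columns `N + 1 + b`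
  have hex : ∀ a b : ℕ, ∃ w : U, a < N →
      Tq L B (Sum.elim ![e ((a : ℚ) + 1), w] (tm u (fun q : ℚ => q)))
        (Sum.elim ![e ((a : ℚ) + 1), e ((N : ℚ) + 1 + b)] (tm u (fun q : ℚ => q))) ∧
      Br L (insert (e (a : ℚ)) (insert w B)) u (((a : ℚ) + 1 : ℚ) : ℝ) := by
    intro a b
    by_cases ha : a < N
    · have ha' : (a : ℚ) < N := by exact_mod_cast ha
      have h1 : (0 : ℚ) ≤ b := b.cast_nonneg
      obtain ⟨w, hw⟩ := all (a : ℚ) ((a : ℚ) + 1) ((N : ℚ) + 1 + b) (by linarith) (by linarith)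
      exact ⟨w, fun _ => hw⟩
    · exact ⟨e 0, fun h => absurd h ha⟩
  choose y hy using hex
  refine ⟨false, true, fun a => s1 (e ((a : ℚ) + 1)),
    fun b => Sum.elim (tm u fun c => (N : ℚ) + 1 + b + v c) (tm u fun c => (N : ℚ) + 1 + b + v' c), y,
    fun a ha b hb => ?_⟩
  obtain ⟨hy1, hy2⟩ := hy a b ha
  have haN : (a : ℚ) + 1 ≤ N := by exact_mod_cast ha
  have ha0 : (0 : ℚ) ≤ a := a.cast_nonneg
  have hb0 : (0 : ℚ) ≤ b := b.cast_nonneg
  -- the value of the formula in the row `a`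
  have val : ∀ x : κ → ℚ, P (Sum.elim ![e ((a : ℚ) + 1), y a b] (tm u x)) ↔
      P (Sum.elim ![e ((a : ℚ) + 1), e ((N : ℚ) + 1 + b)] (tm u x)) := by
    intro x
    refine tq_iff (tqv hy1 (Sum.elim ![Sum.inl 0, Sum.inl 1] fun p => Sum.inr (x p.1, p.2)) ?_ ?_) hP
    · rintro (j | j)
      · fin_cases j <;> rfl
      · rfl
    · rintro (j | j)
      · fin_cases j <;> rfl
      · rfl
  refine ⟨?_, ?_, ?_⟩
  · show P (Sum.elim ![e ((a : ℚ) + 1), y a b] (tm u fun c => (N : ℚ) + 1 + b + v c)) ∧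
      ¬ P (Sum.elim ![e ((a : ℚ) + 1), y a b] (tm u fun c => (N : ℚ) + 1 + b + v' c))
    rw [val, val]
    exact hPP ((a : ℚ) + 1) ((N : ℚ) + 1 + b) (by linarith)
  · intro k' hk' hak' hcon
    have hak : k' < a := hak'
    have hcon' : P (Sum.elim ![e ((k' : ℚ) + 1), y a b] (tm u fun c => (N : ℚ) + 1 + b + v c)) ∧
      ¬ P (Sum.elim ![e ((k' : ℚ) + 1), y a b] (tm u fun c => (N : ℚ) + 1 + b + v' c)) := hcon
    have hak2 : (k' : ℚ) + 1 ≤ a := by exact_mod_cast hak
    set r' : ℚ := (k' : ℚ) + 1 with hr'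
    -- the place of `e r', y`
    have hbr' : Br L (insert (e r') (insert (y a b) B)) u (((a : ℚ) + 1 : ℚ) : ℝ) := by
      rcases hak2.eq_or_lt with h1 | h1
      · rw [h1]
        exact hy2
      · have l2 : r' < (a : ℚ) + 1 := by linarith
        have hcc : (insert (e r') (insert (y a b) B)).Countable := (hB.insert _).insert _
        have n1 : (((a : ℚ) : ℚ) : ℝ) ≠ (((a : ℚ) + 1 : ℚ) : ℝ) := by
          intro h
          have : (a : ℚ) = (a : ℚ) + 1 := by exact_mod_cast h
          linarith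
        have n2 : (((a : ℚ) + 1 : ℚ) : ℝ) ≠ (((N : ℚ) + 1 + b : ℚ) : ℝ) := by
          intro h
          have : (a : ℚ) + 1 = (N : ℚ) + 1 + b := by exact_mod_cast h
          linarith
        have hyt : Br L (insert (e ((a : ℚ) + 1)) (insert (y a b) B)) u (((N : ℚ) + 1 + b : ℚ) : ℝ) := by
          refine br_tr0 (tq_symm hy1) ?_
          exact hc.brk ((a : ℚ) + 1) ((N : ℚ) + 1 + b) (by linarith)
        have q1 := br_rule hD hC hcc (z := e (a : ℚ)) n1 (hc.brk _ _ h1) hy2 (by
          rintro x (rfl | rfl | hx)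
          · exact Or.inr (Or.inl rfl)
          · exact Or.inl rfl
          · exact Or.inr (Or.inr (Or.inr hx))) (by
          rintro x (rfl | rfl | hx)
          · exact Or.inl rfl
          · exact Or.inr (Or.inr (Or.inl rfl))
          · exact Or.inr (Or.inr (Or.inr hx)))
        have q2 := br_rule hD hC hcc (z := e ((a : ℚ) + 1)) n2 (hc.brk _ _ l2) hyt (by
          rintro x (rfl | rfl | hx)
          · exact Or.inr (Or.inl rfl)
          · exact Or.inl rfl
          · exact Or.inr (Or.inr (Or.inr hx))) (by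
          rintro x (rfl | rfl | hx)
          · exact Or.inl rfl
          · exact Or.inr (Or.inr (Or.inl rfl))
          · exact Or.inr (Or.inr (Or.inr hx)))
        rcases q2 with q2 | q2
        · exact q2
        · rcases q1 with q1 | q1
          · exfalso
            rw [Set.insert_comm] at q1 q2
            have h3 := br_uni hD hC (hB.insert _) (hc.one r') q1 q2
            have h4 : (a : ℚ) = (N : ℚ) + 1 + b := by exact_mod_cast h3
            linarith
          · exact q1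
    have hhi : Gj L (insert (e r') (insert (y a b) B)) u (Ioi ((a : ℚ) + 1)) := by
      refine gj_Ioi fun s hs hs' => hs.ne' ?_
      rw [Set.insert_comm] at hs' hbr'
      exact br_uni hD hC (hB.insert _) (hc.one r') hs' hbr'
    have hsm : Sm (Ioi ((a : ℚ) + 1)) (fun c => (N : ℚ) + 1 + b + v c) (fun c => (N : ℚ) + 1 + b + v' c) := by
      refine ⟨fun c d => ?_, fun c => Or.inr ⟨?_, ?_⟩⟩
      · rw [add_lt_add_iff_left, add_lt_add_iff_left]
        exact hvv c d
      · show (a : ℚ) + 1 < (N : ℚ) + 1 + b + v c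
        have := (hv c).1
        linarith
      · show (a : ℚ) + 1 < (N : ℚ) + 1 + b + v' c
        have := (hv' c).1
        linarith
    have h5 := hhi κ _ _ hsm
    rw [← ins2, tq_fam] at h5
    have h6 := tqv h5 (x' := Sum.elim ![e r', y a b] (tm u fun c => (N : ℚ) + 1 + b + v c))
      (y' := Sum.elim ![e r', y a b] (tm u fun c => (N : ℚ) + 1 + b + v' c))
      (Sum.elim Sum.inr Sum.inl)
      (by
        rintro (j | j)
        · rfl
        · rfl)
      (by
        rintro (j | j)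
        · rfl
        · rfl)
    exact hcon'.2 ((tq_iff h6 hP).1 hcon'.1)
  · intro l hl hbl hcon
    have hbl' : b < l := hbl
    have hcon' : P (Sum.elim ![e ((a : ℚ) + 1), y a b] (tm u fun c => (N : ℚ) + 1 + l + v c)) ∧
      ¬ P (Sum.elim ![e ((a : ℚ) + 1), y a b] (tm u fun c => (N : ℚ) + 1 + l + v' c)) := hcon
    rw [val, val] at hcon'
    have hbl1 : (b : ℚ) + 1 ≤ l := by exact_mod_cast hbl'
    have hhi := cfg_hi hD hC hB hc (k := (a : ℚ) + 1) (l := (N : ℚ) + 1 + b) (by linarith)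
    have hsm : Sm (Ioi ((N : ℚ) + 1 + b)) (fun c => (N : ℚ) + 1 + l + v c) (fun c => (N : ℚ) + 1 + l + v' c) := by
      refine ⟨fun c d => ?_, fun c => Or.inr ⟨?_, ?_⟩⟩
      · rw [add_lt_add_iff_left, add_lt_add_iff_left]
        exact hvv c d
      · show (N : ℚ) + 1 + b < (N : ℚ) + 1 + l + v c
        have := (hv c).1
        linarith
      · show (N : ℚ) + 1 + b < (N : ℚ) + 1 + l + v' c
        have := (hv' c).1
        linarith
    have h5 := hhi κ _ _ hsm
    rw [← ins2, tq_fam] at h5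
    have h6 := tqv h5 (x' := Sum.elim ![e ((a : ℚ) + 1), e ((N : ℚ) + 1 + b)] (tm u fun c => (N : ℚ) + 1 + l + v c))
      (y' := Sum.elim ![e ((a : ℚ) + 1), e ((N : ℚ) + 1 + b)] (tm u fun c => (N : ℚ) + 1 + l + v' c))
      (Sum.elim Sum.inr Sum.inl)
      (by
        rintro (j | j)
        · rfl
        · rfl)
      (by
        rintro (j | j)
        · rfl
        · rfl)
    exact hcon'.2 ((tq_iff h6 hP).1 hcon'.1)

/-- the configuration is impossible -/
theorem cfg_false (hD : St_DPS) (hC : Cz L U) (hB : B.Countable) (hc : Cfg L B e u) : False := by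
  -- `w` with `(e 2, w) ≡ (e 1, e 0)` over `u`
  obtain ⟨w0, hw0⟩ := tq_ext hC hB (cfg_one hc 1 2) (s1 (e 0))
  have hw : Tq L B (Sum.elim ![e 2, w0 0] (tm u (fun q : ℚ => q))) (Sum.elim ![e 1, e 0] (tm u (fun q : ℚ => q))) := by
    refine tq_symm (tqv hw0 (Sum.elim ![Sum.inl (Sum.inl 0), Sum.inr 0] fun p => Sum.inl (Sum.inr p)) ?_ ?_)
    · rintro (j | j)
      · fin_cases j <;> rfl
      · rfl
    · rintro (j | j)
      · fin_cases j <;> rfl
      · rfl
  have hA := cfg_A hD hC hB hc (by norm_num) (by norm_num) (by norm_num : (2 : ℚ) < 3) hw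
  -- the place of `(e 3, w)` is `1`
  have h31 : Br L (insert (e 3) (insert (w0 0) B)) u ((1 : ℚ) : ℝ) := by
    have n : ((3 : ℚ) : ℝ) ≠ ((1 : ℚ) : ℝ) := by norm_num
    have hcc : (insert (e 3) (insert (w0 0) B)).Countable := (hB.insert _).insert _
    have h21 : Br L (insert (e 2) (insert (w0 0) B)) u ((1 : ℚ) : ℝ) := by
      refine br_tr0 (tq_symm hw) ?_
      rw [Set.insert_comm]
      exact hc.brk 0 1 (by norm_num)
    have q := br_rule hD hC hcc (z := e 2) n (hc.brk 2 3 (by norm_num)) h21 (by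
      rintro x (rfl | rfl | hx)
      · exact Or.inl rfl
      · exact Or.inr (Or.inl rfl)
      · exact Or.inr (Or.inr (Or.inr hx))) (by
      rintro x (rfl | rfl | hx)
      · exact Or.inl rfl
      · exact Or.inr (Or.inr (Or.inl rfl))
      · exact Or.inr (Or.inr (Or.inr hx)))
    exact q.resolve_left hA
  -- move `e 3`
  obtain ⟨y0, hy0⟩ := tq_ext hC hB hw (s1 (e 3))
  -- `(e 1, y) ≡ (e 2, e 3) ≡ (e 1, e 3)`
  have h1 : Tq L B (Sum.elim ![e 2, e 3] (tm u (fun q : ℚ => q))) (Sum.elim ![e 1, y0 0] (tm u (fun q : ℚ => q))) := by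
    refine tqv hy0 (Sum.elim ![Sum.inl (Sum.inl 0), Sum.inr 0] fun p => Sum.inl (Sum.inr p)) ?_ ?_
    · rintro (j | j)
      · fin_cases j <;> rfl
      · rfl
    · rintro (j | j)
      · fin_cases j <;> rfl
      · rfl
  have h2 : Tq L B (Sum.elim ![e 3, w0 0] (tm u (fun q : ℚ => q))) (Sum.elim ![y0 0, e 0] (tm u (fun q : ℚ => q))) := by
    refine tqv hy0 (Sum.elim ![Sum.inr 0, Sum.inl (Sum.inl 1)] fun p => Sum.inl (Sum.inr p)) ?_ ?_
    · rintro (j | j)
      · fin_cases j <;> rfl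
      · rfl
    · rintro (j | j)
      · fin_cases j <;> rfl
      · rfl
  have h3 := br_tr0 h2 h31
  have h4 := cfg_two hD hC hB hc (p := 2) (q := 1) (r := 3) (by norm_num) (by norm_num)
  have hBB := cfg_B hD hC hB hc (i := 0) (k := 1) (s := 3) (by norm_num) (by norm_num) (w := y0 0)
    (tq_trans (tq_symm h1) h4)
  rw [Set.insert_comm] at h3
  exact hBB h3

end Pool.Agent.TPY
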