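import Pool.Agent.TPY.TRE
import Pool.Agent.MNO.NBA

/-!
# TPY [TRF]: triviality of indiscernible sequences (TR) (helper48; paper proof: helper58)
-/

set_option autoImplicit false
set_option linter.unusedVariables false
set_option linter.unusedSectionVars false

namespace Pool.Agent.TPY

open FirstOrder.Language Set
open scoped FirstOrder
open Pool.Agent.MNO

/-- pigeonhole -/
theorem ph_seq (f : ℕ → Prop) : ∃ (ρ : Prop) (φ : ℕ → ℕ), StrictMono φ ∧ (∀ m, 1 ≤ φ m) ∧ ∀ m, f (φ m) ↔ ρ := by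
  by_cases h : ∃ᶠ n in Filter.atTop, f (n + 1)
  · obtain ⟨φ, hφ, hf⟩ := Filter.extraction_of_frequently_atTop h
    exact ⟨True, fun m => φ m + 1, fun a b hab => Nat.succ_lt_succ (hφ hab), fun m => Nat.succ_le_succ (Nat.zero_le _),
      fun m => iff_true_intro (hf m)⟩
  · rw [Filter.not_frequently] at h
    obtain ⟨φ, hφ, hf⟩ := Filter.extraction_of_eventually_atTop h
    exact ⟨False, fun m => φ m + 1, fun a b hab => Nat.succ_lt_succ (hφ hab), fun m => Nat.succ_le_succ (Nat.zero_le _),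
      fun m => iff_false_intro (hf m)⟩

/-- blocks -/
theorem blocks {κ : Type} [Finite κ] {w w' : κ → ℚ} (hww : ∀ a b, w a < w b ↔ w' a < w' b) (P : (κ → ℚ) → Prop)
    (hP : P w) (hP' : ¬ P w') : ∃ bl : ℤ → κ → ℚ, (∀ m m' a b, m < m' → bl m a < bl m' b) ∧
      (∀ m a b, bl m a < bl m b ↔ w a < w b) ∧ ∀ m : ℤ, 0 < m → ¬ (P (bl 0) ↔ P (bl m)) := by
  classical
  obtain ⟨lo, -, hi, -, hlh, hlh'⟩ := fin_Ioo (J := univ) (fun x _ => ⟨x - 1, trivial, x + 1, trivial, by linarith,
    by linarith⟩) ⟨0, trivial⟩ ((finite_range w).union (finite_range w')) (subset_univ _)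
  set M : ℚ := hi - lo with hM
  have hM0 : 0 < M := sub_pos.2 hlh
  obtain ⟨ρ, φ, hφ, hφ1, hρ⟩ := ph_seq fun k => P fun a => M * k + w a
  -- the first block
  have hh : ∃ h : κ → ℚ, (∀ a b, h a < h b ↔ w a < w b) ∧ (∀ a, lo < h a ∧ h a < hi) ∧ ¬ (P h ↔ ρ) := by
    by_cases hr : ρ
    · exact ⟨w', fun a b => (hww a b).symm, fun a => hlh' (Or.inr ⟨a, rfl⟩), fun h => hP' (h.2 hr)⟩
    · exact ⟨w, fun a b => Iff.rfl, fun a => hlh' (Or.inl ⟨a, rfl⟩), fun h => hr (h.1 hP)⟩
  obtain ⟨h, hh1, hh2, hh3⟩ := hh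
  let cc : ℤ → ℤ := fun m => if 0 < m then (φ m.toNat : ℤ) else m
  have hcc : ∀ m m' : ℤ, m < m' → cc m + 1 ≤ cc m' := by
    intro m m' hmm
    show (if 0 < m then (φ m.toNat : ℤ) else m) + 1 ≤ (if 0 < m' then (φ m'.toNat : ℤ) else m')
    by_cases h1 : 0 < m
    · have h2 : 0 < m' := h1.trans hmm
      rw [if_pos h1, if_pos h2]
      have h3 : m.toNat < m'.toNat := by omega
      have h4 : φ m.toNat < φ m'.toNat := hφ h3
      exact_mod_cast h4
    · rw [if_neg h1]
      by_cases h2 : 0 < m'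
      · rw [if_pos h2]
        have h3 : (1 : ℤ) ≤ (φ m'.toNat : ℤ) := by exact_mod_cast hφ1 m'.toNat
        omega
      · rw [if_neg h2]
        omega
  let t : ℤ → κ → ℚ := fun m => if m = 0 then h else w
  have ht : ∀ m a, lo < t m a ∧ t m a < hi := by
    intro m a
    show lo < (if m = 0 then h else w) a ∧ (if m = 0 then h else w) a < hi
    by_cases h1 : m = 0
    · rw [if_pos h1]
      exact hh2 a
    · rw [if_neg h1]
      exact hlh' (Or.inl ⟨a, rfl⟩)
  refine ⟨fun m a => M * cc m + t m a, ?_, ?_, ?_⟩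
  · intro m m' a b hmm
    show M * cc m + t m a < M * cc m' + t m' b
    have h1 : ((cc m : ℚ) + 1) ≤ cc m' := by exact_mod_cast hcc m m' hmm
    have h2 : M * ((cc m : ℚ) + 1) ≤ M * cc m' := mul_le_mul_of_nonneg_left h1 hM0.le
    have h3 := (ht m a).2
    have h4 := (ht m' b).1
    have h5 : M * ((cc m : ℚ) + 1) = M * cc m + (hi - lo) := by rw [mul_add, mul_one, ← hM]
    linarith
  · intro m a b
    show M * cc m + t m a < M * cc m + t m b ↔ w a < w b
    rw [add_lt_add_iff_left]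
    show (if m = 0 then h else w) a < (if m = 0 then h else w) b ↔ w a < w b
    by_cases h1 : m = 0
    · rw [if_pos h1]
      exact hh1 a b
    · rw [if_neg h1]
  · intro m hm hcon
    have e0 : (fun a => M * cc 0 + t 0 a) = h := by
      funext a
      have h1 : cc 0 = 0 := if_neg (lt_irrefl _)
      have h2 : t 0 = h := if_pos rfl
      rw [h1, h2]
      simp
    have em : (fun a => M * cc m + t m a) = fun a => M * (φ m.toNat : ℕ) + w a := by
      funext a
      have h1 : cc m = (φ m.toNat : ℤ) := if_pos hm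
      have h2 : t m = w := if_neg hm.ne'
      rw [h1, h2]
      simp
    have hcon' : P (fun a => M * cc 0 + t 0 a) ↔ P (fun a => M * cc m + t m a) := hcon
    rw [e0, em] at hcon'
    exact hh3 (hcon'.trans (hρ _))

variable {L : FirstOrder.Language.{0, 0}} {U : Type} [L.Structure U]

section

variable {B : Set U} {α : Type} {u : ℚ → α → U}

theorem sm_neg {κ : Type} {w w' : κ → ℚ} {J : Set ℚ} (h : Sm J w w') :
    Sm {q | -q ∈ J} (fun a => -w a) (fun a => -w' a) := by
  refine ⟨fun a b => ?_, fun a => ?_⟩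
  · rw [neg_lt_neg_iff, neg_lt_neg_iff]
    exact h.lt b a
  · rcases h.eq a with h1 | ⟨h1, h2⟩
    · exact Or.inl (by rw [h1])
    · refine Or.inr ⟨?_, ?_⟩
      · show - -w a ∈ J
        rw [neg_neg]
        exact h1
      · show - -w' a ∈ J
        rw [neg_neg]
        exact h2

theorem gj_neg {J : Set ℚ} (h : Gj L B u {q | -q ∈ J}) : Gj L B (fun q => u (-q)) J :=
  fun κ _ w w' hw => h κ _ _ (sm_neg hw)

theorem gj_neg' {J : Set ℚ} (h : Gj L B (fun q => u (-q)) {q | -q ∈ J}) : Gj L B u J := by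
  have h1 := gj_neg h
  have e : (fun q => u (- -q)) = u := by
    funext q
    rw [neg_neg]
  rw [e] at h1
  exact h1

theorem br_neg {s : ℚ} (h : Br L B u (s : ℝ)) : Br L B (fun q => u (-q)) ((-s : ℚ) : ℝ) := by
  intro a b ha hb hG
  have ha' : a < -s := by exact_mod_cast ha
  have hb' : -s < b := by exact_mod_cast hb
  have h1 : -b < s := by linarith
  have h2 : s < -a := by linarith
  refine h (-b) (-a) (by exact_mod_cast h1) (by exact_mod_cast h2) (gj_neg' ?_)
  refine gj_mono hG ?_ subset_rfl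
  rintro q ⟨hq, hq'⟩
  exact ⟨by linarith, by linarith⟩

end

/-- indiscernible sequences of pairs, broken in the same way -/
theorem cfg_ex (hD : St_DPS) (hC : Cz L U) {B : Set U} (hB : B.Countable) {α : Type} [Finite α] {z : U} {e : ℚ → U}
    {u : ℚ → α → U} (h1 : Gj L B (fun q => (Sum.elim (s1 (e q)) (u q) : Fin 1 ⊕ α → U)) univ)
    (h2 : ∀ k, Gj L (insert (e k) B) u univ) (h3 : ∀ k : ℚ, Br L (insert (e k) (insert z B)) u (k : ℝ)) : False := by
  -- RULE
  have hr : ∀ k l : ℚ, k < l → Br L (insert (e k) (insert (e l) B)) u (k : ℝ) ∨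
      Br L (insert (e k) (insert (e l) B)) u (l : ℝ) := by
    intro k l hkl
    have n : ((k : ℚ) : ℝ) ≠ ((l : ℚ) : ℝ) := by
      intro h
      exact hkl.ne (by exact_mod_cast h)
    refine br_rule hD hC ((hB.insert _).insert _) (z := z) n (h3 k) (h3 l) ?_ ?_
    · rintro x (rfl | rfl | hx)
      · exact Or.inr (Or.inl rfl)
      · exact Or.inl rfl
      · exact Or.inr (Or.inr (Or.inr hx))
    · rintro x (rfl | rfl | hx)
      · exact Or.inr (Or.inr (Or.inl rfl))
      · exact Or.inl rfl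
      · exact Or.inr (Or.inr (Or.inr hx))
  -- all pairs look alike
  have htr : ∀ k l k' l' : ℚ, k < l → k' < l' → ∃ f : ℚ ≃o ℚ, f k = k' ∧ f l = l' := by
    intro k l k' l' hkl hkl'
    obtain ⟨f1, hf1⟩ := trl_ex (k' - k)
    have e1 : f1 k = k' := by rw [hf1]; ring
    have l1 : k' < f1 l := by rw [← e1]; exact f1.strictMono hkl
    obtain ⟨f2, hf2, hf2'⟩ := str_ex l1 hkl'
    refine ⟨f1.trans f2, ?_, ?_⟩
    · show f2 (f1 k) = k'
      rw [e1, hf2' k' le_rfl]
    · show f2 (f1 l) = l'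
      exact hf2
  have htq : ∀ (f : ℚ ≃o ℚ) (k l : ℚ), Tq L B (Sum.elim ![e k, e l] (tm u fun q : ℚ => q))
      (Sum.elim ![e (f k), e (f l)] (tm u fun q : ℚ => f q)) := by
    intro f k l
    have q := gj_inf h1 (κ := Fin 2 ⊕ ℚ) (w := Sum.elim ![k, l] fun q => q)
      (w' := fun a => f (Sum.elim ![k, l] (fun q => q) a)) ⟨fun a b => f.lt_iff_lt.symm, fun a => Or.inr ⟨trivial, trivial⟩⟩
    refine tqv q (Sum.elim (fun i => (Sum.inl i, Sum.inl 0)) fun p => (Sum.inr p.1, Sum.inr p.2)) ?_ ?_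
    · rintro (j | j)
      · fin_cases j <;> rfl
      · rfl
    · rintro (j | j)
      · fin_cases j <;> rfl
      · rfl
  by_cases hcase : ∃ k l : ℚ, k < l ∧ Br L (insert (e k) (insert (e l) B)) u (l : ℝ)
  · obtain ⟨k, l, hkl, hb⟩ := hcase
    refine cfg_false hD hC hB (e := e) (u := u) ⟨h1, h2, fun k' l' hkl' => ?_⟩
    obtain ⟨f, hfk, hfl⟩ := htr k l k' l' hkl hkl'
    rw [← ins2] at hb ⊢
    have q := br_tr (htq f k l) hb
    rw [hfk, hfl] at q
    exact q
  · have hall : ∀ k l : ℚ, k < l → Br L (insert (e k) (insert (e l) B)) u (k : ℝ) := by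
      intro k l hkl
      rcases hr k l hkl with h | h
      · exact h
      · exact absurd ⟨k, l, hkl, h⟩ hcase
    refine cfg_false hD hC hB (e := fun q => e (-q)) (u := fun q => u (-q)) ⟨?_, ?_, ?_⟩
    · exact gj_neg (u := fun q => (Sum.elim (s1 (e q)) (u q) : Fin 1 ⊕ α → U)) (gj_mono h1 (subset_univ _) subset_rfl)
    · intro k
      exact gj_neg (gj_mono (h2 (-k)) (subset_univ _) subset_rfl)
    · intro k l hkl
      have q := br_neg (hall (-l) (-k) (neg_lt_neg hkl))
      rw [neg_neg, Set.insert_comm] at q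
      exact q

end Pool.Agent.TPY
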