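import Pool.Agent.TPY.TRF
import Pool.Agent.TPY.EXT

/-!
# TPY [TRG]: triviality of indiscernible sequences (TR), conclusion (helper48; paper proof: helper58)
-/

set_option autoImplicit false
set_option linter.unusedVariables false
set_option linter.unusedSectionVars false

namespace Pool.Agent.TPY

open FirstOrder.Language Set
open scoped FirstOrder
open Pool.Agent.MNO

variable {L : FirstOrder.Language.{0, 0}} {U : Type} [L.Structure U]

/-- the blocks with numbers `g` -/
def bt {κ α ι : Type} (u : ℚ → α → U) (bl : ℤ → κ → ℚ) (g : ι → ℤ) : ι × (κ × α) → U :=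
  fun p => u (bl (g p.1) p.2.1) p.2.2

section

variable {B S : Set U} {α : Type} {u : ℚ → α → U} {κ : Type} {w : κ → ℚ} {bl : ℤ → κ → ℚ}

theorem bt_tq (h1 : ∀ m m' a b, m < m' → bl m a < bl m' b) (h2 : ∀ m a b, bl m a < bl m b ↔ w a < w b)
    (hS : Gj L S u univ) {ι : Type} {g g' : ι → ℤ} (hg : ∀ a b, g a < g b ↔ g' a < g' b) :
    Tq L S (bt u bl g) (bt u bl g') := by
  have key : ∀ (m m' : ℤ) (a b : κ), bl m a < bl m' b ↔ m < m' ∨ (¬ m' < m ∧ w a < w b) := by
    intro m m' a b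
    rcases lt_trichotomy m m' with h | h | h
    · exact iff_of_true (h1 _ _ _ _ h) (Or.inl h)
    · subst h
      rw [h2]
      constructor
      · intro h3
        exact Or.inr ⟨lt_irrefl _, h3⟩
      · rintro (h3 | h3)
        · exact absurd h3 (lt_irrefl _)
        · exact h3.2
    · refine iff_of_false (not_lt.2 (h1 _ _ _ _ h).le) ?_
      rintro (h3 | h3)
      · exact absurd h3 (not_lt.2 h.le)
      · exact h3.1 h
  have hsm : Sm univ (fun p : ι × κ => bl (g p.1) p.2) (fun p : ι × κ => bl (g' p.1) p.2) := by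
    refine ⟨fun p q => ?_, fun p => Or.inr ⟨trivial, trivial⟩⟩
    rw [key, key, hg, hg]
  refine tqv (gj_inf hS hsm) (fun p => ((p.1, p.2.1), p.2.2)) ?_ ?_
  · intro p
    rfl
  · intro p
    rfl

end

/-- TR for two elements -/
theorem tr_two (hD : St_DPS) (hC : Cz L U) {B : Set U} (hB : B.Countable) {α : Type} [Finite α] {u : ℚ → α → U}
    {x z : U} (hx : Gj L (insert x B) u univ) (hz : Gj L (insert z B) u univ) :
    Gj L (insert x (insert z B)) u univ := by
  by_contra hne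
  unfold Gj at hne
  push Not at hne
  obtain ⟨κ, hκ, w, w', hw, hn⟩ := hne
  obtain ⟨P', hP', hPw, hPw'⟩ := tq_not hn
  obtain ⟨bl, hbl1, hbl2, hbl3⟩ := blocks hw.lt (fun v => P' (tm u v)) hPw hPw'
  rw [← ins2] at hP'
  obtain ⟨Q, hQ, hPQ⟩ := dp_fam hP'
  -- `Q'` = `Q` with the parameter `z`
  let σ : (κ × α) ⊕ Fin 2 → ((κ × α) ⊕ Fin 1) ⊕ Fin 1 := Sum.elim (fun p => Sum.inl (Sum.inl p)) ![Sum.inl (Sum.inr 0), Sum.inr 0]
  have hQ' : Dp L (insert z B) (fun v : (κ × α) ⊕ Fin 1 → U => Q (fun i => Sum.elim v (s1 z) (σ i))) :=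
    dp_par (dp_mono (subset_insert z B) (dp_sub hQ σ)) (s1 z) fun _ => Or.inl rfl
  have eσ : ∀ (v : κ × α → U) (y : U), (fun i => Sum.elim (Sum.elim v (s1 y)) (s1 z) (σ i)) = Sum.elim v ![y, z] := by
    intro v y
    funext i
    rcases i with i | i
    · rfl
    · fin_cases i <;> rfl
  -- the elements `e m`
  have hem : ∀ m : ℕ, ∃ y : U, Tq L (insert z B) (Sum.elim (bt u bl fun j : ℕ => (j : ℤ) - m) (s1 x))
      (Sum.elim (bt u bl fun j : ℕ => (j : ℤ)) (s1 y)) := by
    intro m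
    have h1 : Tq L (insert z B) (bt u bl fun j : ℕ => (j : ℤ) - m) (bt u bl fun j : ℕ => (j : ℤ)) :=
      bt_tq hbl1 hbl2 hz fun a b => by
        show (a : ℤ) - m < (b : ℤ) - m ↔ (a : ℤ) < b
        omega
    obtain ⟨c', hc'⟩ := tq_ext hC (hB.insert z) h1 (s1 x)
    refine ⟨c' 0, tq_congr hc' rfl ?_⟩
    funext i
    rcases i with i | i
    · rfl
    · fin_cases i
      rfl
  choose e he using hem
  -- (c0)
  have c0 : ∀ (m : ℕ) (ι : Type) (g : ι → ℕ), Tq L (insert z B) (Sum.elim (bt u bl fun a => (g a : ℤ)) (s1 (e m)))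
      (Sum.elim (bt u bl fun a => (g a : ℤ) - m) (s1 x)) := by
    intro m ι g
    refine tq_symm (tqv (he m) (Sum.map (fun p => (g p.1, p.2)) id) ?_ ?_)
    · rintro (i | i) <;> rfl
    · rintro (i | i) <;> rfl
  -- (c1)
  have c1 : ∀ (m : ℕ) (ι : Type) (g g' : ι → ℕ), (∀ a b, g a < g b ↔ g' a < g' b) →
      Tq L B (Sum.elim (bt u bl fun a => (g a : ℤ)) (s1 (e m))) (Sum.elim (bt u bl fun a => (g' a : ℤ)) (s1 (e m))) := by
    intro m ι g g' hg
    have h1 := tq_mono (subset_insert z B) (c0 m ι g)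
    have h2 := tq_mono (subset_insert z B) (c0 m ι g')
    have h3 : Tq L (insert x B) (bt u bl fun a => (g a : ℤ) - m) (bt u bl fun a => (g' a : ℤ) - m) :=
      bt_tq hbl1 hbl2 hx fun a b => by
        show (g a : ℤ) - m < (g b : ℤ) - m ↔ (g' a : ℤ) - m < (g' b : ℤ) - m
        have := hg a b
        constructor <;> intro h
        · have h4 : g a < g b := by omega
          have h5 := this.1 h4
          omega
        · have h4 : g' a < g' b := by omega
          have h5 := this.2 h4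
          omega
    have h4 : Tq L (B ∪ range (s1 x)) (bt u bl fun a => (g a : ℤ) - m) (bt u bl fun a => (g' a : ℤ) - m) := by
      refine tq_mono ?_ h3
      rintro y (hy | ⟨i, rfl⟩)
      · exact Or.inr hy
      · exact Or.inl rfl
    rw [tq_fam] at h4
    exact tq_trans h1 (tq_trans h4 (tq_symm h2))
  -- (c2)
  have c2 : ∀ m j : ℕ, m < j → ¬ (Q (Sum.elim (tm u (bl m)) ![e m, z]) ↔ Q (Sum.elim (tm u (bl j)) ![e m, z])) := by
    intro m j hmj
    have h1 : ∀ i : ℕ, Q (Sum.elim (tm u (bl i)) ![e m, z]) ↔ P' (tm u (bl ((i : ℤ) - m))) := by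
      intro i
      have h2 := c0 m Unit fun _ => i
      have h3 : Tq L (insert z B) (Sum.elim (tm u (bl i)) (s1 (e m))) (Sum.elim (tm u (bl ((i : ℤ) - m))) (s1 x)) := by
        refine tqv h2 (Sum.map (fun p => ((), p)) id) ?_ ?_
        · rintro (i | i) <;> rfl
        · rintro (i | i) <;> rfl
      have h4 := tq_iff h3 hQ'
      have h5 : Q (fun i_1 => Sum.elim (Sum.elim (tm u (bl i)) (s1 (e m))) (s1 z) (σ i_1)) ↔
          Q (fun i_1 => Sum.elim (Sum.elim (tm u (bl ((i : ℤ) - m))) (s1 x)) (s1 z) (σ i_1)) := h4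
      rw [eσ, eσ] at h5
      rw [h5, hPQ]
    rw [h1, h1, sub_self]
    exact hbl3 _ (by omega)
  -- extraction
  let d : ℕ → (Fin 1 ⊕ (κ × α)) → U := fun m => Sum.elim (s1 (e m)) (tm u (bl m))
  obtain ⟨d', hd', hE⟩ := thm_EXT L U hC (Fin 1 ⊕ (κ × α)) (insert z B) d (hB.insert z)
  have EM : ∀ (n : ℕ) (R : (Fin n × (Fin 1 ⊕ (κ × α)) → U) → Prop), Dp L (insert z B) R →
      (∀ j : Fin n → ℕ, StrictMono j → R (tms d j)) → ∀ i : Fin n → ℚ, StrictMono i → R (tms d' i) := by
    intro n R hR h i hi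
    obtain ⟨j, hj, hj'⟩ := hE n i hi _ (fe_of_dp hR)
    exact hj'.2 (h j hj)
  have hd2 : Gj L (insert z B) d' univ := gj_idc.2 hd'
  refine cfg_ex hD hC hB (z := z) (e := fun q => d' q (Sum.inl 0)) (u := fun q p => d' q (Sum.inr p)) ?_ ?_ ?_
  · have e1 : (fun q => (Sum.elim (s1 (d' q (Sum.inl 0))) (fun p => d' q (Sum.inr p)) : Fin 1 ⊕ (κ × α) → U)) = d' := by
      funext q i
      rcases i with i | i
      · fin_cases i
        rfl
      · rfl
    rw [e1]
    exact gj_mono hd2 subset_rfl (subset_insert _ _)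
  · intro k κ' _ v v' hv P hP hPv
    obtain ⟨Q1, hQ1, hPQ1⟩ := dp_fam1 hP
    obtain ⟨n, i, ε, hi, hiε, -⟩ := sm_sort (Sum.elim (fun _ : Unit => k) (Sum.elim v v'))
    have hk : k = i (ε (Sum.inl ())) := hiε (Sum.inl ())
    have hvi : ∀ a, v a = i (ε (Sum.inr (Sum.inl a))) := fun a => hiε (Sum.inr (Sum.inl a))
    have hvi' : ∀ a, v' a = i (ε (Sum.inr (Sum.inr a))) := fun a => hiε (Sum.inr (Sum.inr a))
    let sel : (κ' → Fin n) → (κ' × (κ × α)) ⊕ Unit → Fin n × (Fin 1 ⊕ (κ × α)) := fun η =>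
      Sum.elim (fun p => (η p.1, Sum.inr p.2)) fun _ => (ε (Sum.inl ()), Sum.inl 0)
    have hR : Dp L (insert z B) (fun y : Fin n × (Fin 1 ⊕ (κ × α)) → U =>
        Q1 (fun p => y (sel (fun a => ε (Sum.inr (Sum.inl a))) p)) →
        Q1 (fun p => y (sel (fun a => ε (Sum.inr (Sum.inr a))) p))) :=
      dp_imp (dp_mono (subset_insert z B) (dp_sub hQ1 _)) (dp_mono (subset_insert z B) (dp_sub hQ1 _))
    have h1 := EM n _ hR (by
      intro j hj h2
      have e1 : ∀ η : κ' → Fin n, (fun p => tms d j (sel η p)) =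
          (fun p => Sum.elim (bt u bl fun a => ((j (η a) : ℕ) : ℤ)) (s1 (e (j (ε (Sum.inl ())))))
            (Sum.elim (fun q => Sum.inl q) (fun _ => Sum.inr 0) p : (κ' × (κ × α)) ⊕ Fin 1)) := by
        intro η
        funext p
        rcases p with p | p <;> rfl
      have h2' := h2
      rw [e1 (fun a => ε (Sum.inr (Sum.inl a)))] at h2'
      rw [e1 (fun a => ε (Sum.inr (Sum.inr a)))]
      have hord : ∀ a b : κ', j (ε (Sum.inr (Sum.inl a))) < j (ε (Sum.inr (Sum.inl b))) ↔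
          j (ε (Sum.inr (Sum.inr a))) < j (ε (Sum.inr (Sum.inr b))) := by
        intro a b
        rw [hj.lt_iff_lt, hj.lt_iff_lt, ← hi.lt_iff_lt, ← hvi, ← hvi, hv.lt a b, hvi', hvi', hi.lt_iff_lt]
      have h3 := c1 (j (ε (Sum.inl ()))) κ' _ _ hord
      exact h3 _ (dp_sub hQ1 _) h2') i hi
    have e2 : ∀ (η : κ' → Fin n) (v0 : κ' → ℚ), (∀ a, v0 a = i (η a)) → (fun p => tms d' i (sel η p)) =
        Sum.elim (tm (fun q p => d' q (Sum.inr p)) v0) (fun _ : Unit => d' k (Sum.inl 0)) := by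
      intro η v0 h
      funext p
      rcases p with p | p
      · show d' (i (η p.1)) (Sum.inr p.2) = d' (v0 p.1) (Sum.inr p.2)
        rw [h]
      · show d' (i (ε (Sum.inl ()))) (Sum.inl 0) = d' k (Sum.inl 0)
        rw [← hk]
    have h2 : Q1 (fun p => tms d' i (sel (fun a => ε (Sum.inr (Sum.inl a))) p)) →
        Q1 (fun p => tms d' i (sel (fun a => ε (Sum.inr (Sum.inr a))) p)) := h1
    rw [e2 (fun a => ε (Sum.inr (Sum.inl a))) v hvi, e2 (fun a => ε (Sum.inr (Sum.inr a))) v' hvi', ← hPQ1, ← hPQ1] at h2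
    exact h2 hPv
  · intro k a b ha hb hG
    have ha' : a < k := by exact_mod_cast ha
    have hb' : k < b := by exact_mod_cast hb
    set l : ℚ := (k + b) / 2 with hl
    have hkl : k < l := by rw [hl]; linarith
    have hlb : l < b := by rw [hl]; linarith
    have h1 := hG Unit (fun _ => k) (fun _ => l) ⟨fun _ _ => iff_of_false (lt_irrefl _) (lt_irrefl _),
      fun _ => Or.inr ⟨⟨ha', hb'⟩, ⟨ha'.trans hkl, hlb⟩⟩⟩
    let sel : Fin 2 → (κ × α) ⊕ Fin 1 → Fin 2 × (Fin 1 ⊕ (κ × α)) := fun t =>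
      Sum.elim (fun p => (t, Sum.inr p)) fun _ => (0, Sum.inl 0)
    have hR : Dp L (insert z B) (fun y : Fin 2 × (Fin 1 ⊕ (κ × α)) → U =>
        ¬ (Q (fun i => Sum.elim (fun p => y (sel 0 p)) (s1 z) (σ i)) ↔
          Q (fun i => Sum.elim (fun p => y (sel 1 p)) (s1 z) (σ i)))) := by
      have h2 : ∀ t, Dp L (insert z B) (fun y : Fin 2 × (Fin 1 ⊕ (κ × α)) → U =>
        Q (fun i => Sum.elim (fun p => y (sel t p)) (s1 z) (σ i))) := fun t => dp_sub hQ' (sel t)
      exact dp_not (dp_iff (h2 0) (h2 1))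
    have h3 := EM 2 _ hR (by
      intro j hj
      have h01 : j 0 < j 1 := hj (by decide)
      have e1 : ∀ t : Fin 2, (fun p => tms d j (sel t p)) = Sum.elim (tm u (bl (j t))) (s1 (e (j 0))) := by
        intro t
        funext p
        rcases p with p | p <;> rfl
      show ¬ (Q (fun i => Sum.elim (fun p => tms d j (sel 0 p)) (s1 z) (σ i)) ↔
          Q (fun i => Sum.elim (fun p => tms d j (sel 1 p)) (s1 z) (σ i)))
      rw [e1, e1, eσ, eσ]
      exact c2 _ _ h01) ![k, l] (by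
      intro p q hpq
      fin_cases p <;> fin_cases q
      · exact absurd hpq (lt_irrefl _)
      · exact hkl
      · exact absurd hpq (by decide)
      · exact absurd hpq (lt_irrefl _))
    have e3 : ∀ (t : Fin 2) (q : ℚ), ![k, l] t = q → (fun p => tms d' ![k, l] (sel t p)) =
        Sum.elim (tm (fun q p => d' q (Sum.inr p)) (fun _ : Unit => q) ∘ fun p => ((), p)) (s1 (d' k (Sum.inl 0))) := by
      intro t q hq
      funext p
      rcases p with p | p
      · show d' (![k, l] t) (Sum.inr p) = d' q (Sum.inr p)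
        rw [hq]
      · rfl
    have h4 : ¬ (Q (fun i => Sum.elim (fun p => tms d' ![k, l] (sel 0 p)) (s1 z) (σ i)) ↔
          Q (fun i => Sum.elim (fun p => tms d' ![k, l] (sel 1 p)) (s1 z) (σ i))) := h3
    rw [e3 0 k rfl, e3 1 l rfl] at h4
    apply h4
    have h5 : Tq L (insert (d' k (Sum.inl 0)) (insert z B))
        (Sum.elim (tm (fun q p => d' q (Sum.inr p)) (fun _ : Unit => k) ∘ fun p => ((), p)) (s1 (d' k (Sum.inl 0))))
        (Sum.elim (tm (fun q p => d' q (Sum.inr p)) (fun _ : Unit => l) ∘ fun p => ((), p)) (s1 (d' k (Sum.inl 0)))) := by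
      refine tqv (tq_add h1 (s1 (d' k (Sum.inl 0))) fun _ => Or.inl rfl) (Sum.map (fun p => ((), p)) id) ?_ ?_
      · rintro (i | i) <;> rfl
      · rintro (i | i) <;> rfl
    exact tq_iff h5 (dp_mono (subset_insert _ _) hQ')

/-- [TRI] **TR** -/
theorem thm_TRI (hD : St_DPS) : St_TRI := by
  intro L U _ hC α γ _ _ F u c hF hu hk
  have key : ∀ S : Set U, S.Finite → ∀ F : Set U, F.Countable → Gj L F u univ → (∀ b ∈ S, Gj L (insert b F) u univ) →
      Gj L (F ∪ S) u univ := by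
    intro S hS
    induction S, hS using Set.Finite.induction_on with
    | empty =>
      intro F hF h _
      rw [union_empty]
      exact h
    | @insert a S' _ _ ih =>
      intro F hF h h'
      have h1 : Gj L (insert a F) u univ := h' a (mem_insert _ _)
      have h2 := ih (insert a F) (hF.insert a) h1 fun b hb =>
        tr_two hD hC hF (h' b (mem_insert_of_mem _ hb)) h1
      refine gj_mono h2 subset_rfl ?_
      rintro x (hx | rfl | hx)
      · exact Or.inl (Or.inr hx)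
      · exact Or.inl (Or.inl rfl)
      · exact Or.inr hx
  refine gj_idc.1 (key (range c) (finite_range c) F hF (gj_idc.2 hu) ?_)
  rintro _ ⟨k, rfl⟩
  exact gj_idc.2 (hk k)

end Pool.Agent.TPY
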